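import Pool.Agent.LGR.StL

/-!
# ADFR: the frame adapted to the roots
-/

namespace LGR

open STZ Matrix

open scoped ComplexConjugate Matrix Real

noncomputable section

namespace ADFR

variable {N : ℕ} {H : Subgroup (SU N)}

/-- bilinear on the Lie algebra -/
structure Bil (H : Subgroup (SU N)) (β : Matrix (Fin N) (Fin N) ℂ → Matrix (Fin N) (Fin N) ℂ → ℂ) : Prop where
  add : ∀ X ∈ lie H, ∀ Y ∈ lie H, ∀ Z ∈ lie H, β (X + Y) Z = β X Z + β Y Z ∧ β Z (X + Y) = β Z X + β Z Y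
  smul : ∀ X ∈ lie H, ∀ Y ∈ lie H, ∀ s : ℝ, β ((s : ℂ) • X) Y = s * β X Y ∧ β X ((s : ℂ) • Y) = s * β X Y

theorem mem_sum (hL : LIF H) {κ : Type} {Y : κ → Matrix (Fin N) (Fin N) ℂ} (hY : ∀ i, Y i ∈ lie H)
    (w : κ → ℝ) (s : Finset κ) : ∑ i ∈ s, (w i : ℂ) • Y i ∈ lie H := by
  classical
  induction s using Finset.induction_on with
  | empty => simpa using hL.zero
  | insert i s hi ih =>
    rw [Finset.sum_insert hi]
    exact hL.add _ (hL.smul _ _ (hY i)) _ ih

theorem bil_left (hL : LIF H) {β : Matrix (Fin N) (Fin N) ℂ → Matrix (Fin N) (Fin N) ℂ → ℂ} (hβ : Bil H β)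
    {κ : Type} {Y : κ → Matrix (Fin N) (Fin N) ℂ} (hY : ∀ i, Y i ∈ lie H)
    (w : κ → ℝ) (s : Finset κ) {Z : Matrix (Fin N) (Fin N) ℂ} (hZ : Z ∈ lie H) :
    β (∑ i ∈ s, (w i : ℂ) • Y i) Z = ∑ i ∈ s, (w i : ℂ) * β (Y i) Z := by
  classical
  induction s using Finset.induction_on with
  | empty =>
    have := (hβ.smul 0 hL.zero Z hZ 0).1
    simpa using this
  | insert i s hi ih =>
    rw [Finset.sum_insert hi, Finset.sum_insert hi,
      (hβ.add _ (hL.smul _ _ (hY i)) _ (mem_sum hL hY w s) Z hZ).1, ih, (hβ.smul _ (hY i) Z hZ _).1]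

theorem bil_right (hL : LIF H) {β : Matrix (Fin N) (Fin N) ℂ → Matrix (Fin N) (Fin N) ℂ → ℂ} (hβ : Bil H β)
    {κ : Type} {Y : κ → Matrix (Fin N) (Fin N) ℂ} (hY : ∀ i, Y i ∈ lie H)
    (w : κ → ℝ) (s : Finset κ) {Z : Matrix (Fin N) (Fin N) ℂ} (hZ : Z ∈ lie H) :
    β Z (∑ i ∈ s, (w i : ℂ) • Y i) = ∑ i ∈ s, (w i : ℂ) * β Z (Y i) := by
  classical
  induction s using Finset.induction_on with
  | empty =>
    have := (hβ.smul Z hZ 0 hL.zero 0).2
    simpa using this
  | insert i s hi ih =>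
    rw [Finset.sum_insert hi, Finset.sum_insert hi,
      (hβ.add _ (hL.smul _ _ (hY i)) _ (mem_sum hL hY w s) Z hZ).2, ih, (hβ.smul Z hZ _ (hY i) _).2]

/-- a frame with any index set -/
structure Fr (H : Subgroup (SU N)) (c : ℝ) {ι : Type} [Fintype ι] [DecidableEq ι]
    (X : ι → Matrix (Fin N) (Fin N) ℂ) : Prop where
  mem : ∀ a, X a ∈ lie H
  orth : ∀ a b, -(c : ℂ) * (X a * X b).trace = if a = b then 1 else 0
  span : ∀ Y ∈ lie H, ∃ y : ι → ℝ, Y = ∑ a, (y a : ℂ) • X a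

theorem coef {c : ℝ} {κ : Type} [Fintype κ] [DecidableEq κ]
    {Y : κ → Matrix (Fin N) (Fin N) ℂ} (hY : Fr H c Y) (w : κ → ℝ) (i : κ) :
    -(c : ℂ) * ((∑ j, (w j : ℂ) • Y j) * Y i).trace = w i := by
  rw [Finset.sum_mul, Matrix.trace_sum, Finset.mul_sum, Finset.sum_eq_single i]
  · rw [Matrix.smul_mul, Matrix.trace_smul, smul_eq_mul]
    have := hY.orth i i
    rw [if_pos rfl] at this
    linear_combination (w i : ℂ) * this
  · intro j _ hj
    rw [Matrix.smul_mul, Matrix.trace_smul, smul_eq_mul]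
    have := hY.orth j i
    rw [if_neg hj] at this
    linear_combination (w j : ℂ) * this
  · intro h
    exact absurd (Finset.mem_univ i) h

theorem two (hL : LIF H) {c : ℝ} {ι κ : Type} [Fintype ι] [DecidableEq ι] [Fintype κ] [DecidableEq κ]
    {X : ι → Matrix (Fin N) (Fin N) ℂ} {Y : κ → Matrix (Fin N) (Fin N) ℂ} (hX : Fr H c X) (hY : Fr H c Y) :
    Fintype.card ι = Fintype.card κ ∧
    ∀ β : Matrix (Fin N) (Fin N) ℂ → Matrix (Fin N) (Fin N) ℂ → ℂ, Bil H β →
      ∑ a, β (X a) (X a) = ∑ i, β (Y i) (Y i) := by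
  choose x hx using fun a => hY.span _ (hX.mem a)
  choose y hy using fun i => hX.span _ (hY.mem i)
  have h1 : ∀ a i, -(c : ℂ) * (X a * Y i).trace = x a i := by
    intro a i
    rw [hx a]
    exact coef hY (x a) i
  have h2 : ∀ a i, y i a = x a i := by
    intro a i
    have h3 : -(c : ℂ) * (Y i * X a).trace = y i a := by
      rw [hy i]
      exact coef hX (y i) a
    rw [Matrix.trace_mul_comm, h1] at h3
    exact_mod_cast h3.symm
  have h3 : ∀ a b, ∑ i, x a i * x b i = if a = b then 1 else 0 := by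
    intro a b
    have h4 : -(c : ℂ) * (X b * X a).trace = ∑ i, (x a i : ℂ) * x b i := by
      conv_lhs => rw [hx b]
      rw [Finset.sum_mul, Matrix.trace_sum, Finset.mul_sum]
      refine Finset.sum_congr rfl fun i _ => ?_
      rw [Matrix.smul_mul, Matrix.trace_smul, smul_eq_mul, Matrix.trace_mul_comm]
      have := h1 a i
      linear_combination (x b i : ℂ) * this
    rw [hX.orth] at h4
    have h5 : ((∑ i, x a i * x b i : ℝ) : ℂ) = ((if a = b then 1 else 0 : ℝ) : ℂ) := by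
      push_cast
      rw [← h4]
      by_cases hab : a = b
      · subst hab
        simp
      · rw [if_neg (Ne.symm hab), if_neg hab, Complex.ofReal_zero]
    exact_mod_cast h5
  have h4 : ∀ i j, ∑ a, x a i * x a j = if i = j then 1 else 0 := by
    intro i j
    have h4 : -(c : ℂ) * (Y j * Y i).trace = ∑ a, (x a i : ℂ) * x a j := by
      conv_lhs => rw [hy j]
      rw [Finset.sum_mul, Matrix.trace_sum, Finset.mul_sum]
      refine Finset.sum_congr rfl fun a _ => ?_
      rw [Matrix.smul_mul, Matrix.trace_smul, smul_eq_mul, h2]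
      have := h1 a i
      linear_combination (x a j : ℂ) * this
    rw [hY.orth] at h4
    have h5 : ((∑ a, x a i * x a j : ℝ) : ℂ) = ((if i = j then 1 else 0 : ℝ) : ℂ) := by
      push_cast
      rw [← h4]
      by_cases hab : i = j
      · subst hab
        simp
      · rw [if_neg (Ne.symm hab), if_neg hab, Complex.ofReal_zero]
    exact_mod_cast h5
  refine ⟨?_, ?_⟩
  · have h5 : ∑ a, ∑ i, x a i * x a i = (Fintype.card ι : ℝ) := by
      simp [h3]
    have h6 : ∑ i, ∑ a, x a i * x a i = (Fintype.card κ : ℝ) := by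
      simp [h4]
    rw [Finset.sum_comm, h6] at h5
    exact_mod_cast h5.symm
  · intro β hβ
    have h5 : ∀ a, β (X a) (X a) = ∑ i, ∑ j, ((x a i * x a j : ℝ) : ℂ) * β (Y i) (Y j) := by
      intro a
      have e1 : β (X a) (X a) = β (∑ i, (x a i : ℂ) • Y i) (∑ j, (x a j : ℂ) • Y j) := by
        rw [← hx a]
      rw [e1, bil_left hL hβ hY.mem _ _ (mem_sum hL hY.mem _ _)]
      refine Finset.sum_congr rfl fun i _ => ?_
      rw [bil_right hL hβ hY.mem _ _ (hY.mem i), Finset.mul_sum]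
      refine Finset.sum_congr rfl fun j _ => ?_
      push_cast
      ring
    calc ∑ a, β (X a) (X a) = ∑ a, ∑ i, ∑ j, ((x a i * x a j : ℝ) : ℂ) * β (Y i) (Y j) :=
          Finset.sum_congr rfl fun a _ => h5 a
      _ = ∑ i, ∑ j, ((∑ a, x a i * x a j : ℝ) : ℂ) * β (Y i) (Y j) := by
          rw [Finset.sum_comm]
          refine Finset.sum_congr rfl fun i _ => ?_
          rw [Finset.sum_comm]
          refine Finset.sum_congr rfl fun j _ => ?_
          rw [Complex.ofReal_sum, Finset.sum_mul]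
      _ = ∑ i, β (Y i) (Y i) := by
          refine Finset.sum_congr rfl fun i _ => ?_
          rw [Finset.sum_eq_single i]
          · rw [h4, if_pos rfl, Complex.ofReal_one, one_mul]
          · intro j _ hj
            rw [h4, if_neg (Ne.symm hj), Complex.ofReal_zero, zero_mul]
          · intro h
            exact absurd (Finset.mem_univ i) h

/-! ### the adapted frame -/

section

variable {r : ℕ} {Φ : RT r} {B : Matrix (Fin r) (Fin r) ℤ} {Hc : Fin r → Matrix (Fin N) (Fin N) ℂ}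
  {E : (Fin r → ℤ) × (Fin r → ℤ) → Matrix (Fin N) (Fin N) ℂ}

theorem hx_sum (Hc : Fin r → Matrix (Fin N) (Fin N) ℂ) (w : Fin r → ℝ) (z : Matrix (Fin r) (Fin r) ℝ) :
    ∑ j, (w j : ℂ) • hx Hc (z j) = hx Hc (fun i => ∑ j, w j * z j i) := by
  unfold hx
  simp only [Finset.smul_sum, smul_smul]
  rw [Finset.sum_comm]
  refine Finset.sum_congr rfl fun i _ => ?_
  rw [← Finset.sum_smul]
  congr 1
  push_cast
  rw [Finset.sum_mul]
  refine Finset.sum_congr rfl fun j _ => ?_
  ring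

theorem tr_hx (Hc : Fin r → Matrix (Fin N) (Fin N) ℂ) (x y : Fin r → ℝ) :
    (hx Hc x * hx Hc y).trace = -∑ i, ∑ j, (x i : ℂ) * (Hc i * Hc j).trace * (y j : ℂ) := by
  unfold hx
  rw [Finset.sum_mul, Matrix.trace_sum, ← Finset.sum_neg_distrib]
  refine Finset.sum_congr rfl fun i _ => ?_
  rw [Finset.mul_sum, Matrix.trace_sum, ← Finset.sum_neg_distrib]
  refine Finset.sum_congr rfl fun j _ => ?_
  rw [Matrix.smul_mul, Matrix.mul_smul, Matrix.trace_smul, Matrix.trace_smul, smul_eq_mul, smul_eq_mul]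
  linear_combination ((x i : ℂ) * (y j : ℂ) * (Hc i * Hc j).trace) * Complex.I_mul_I

/-- the matrix `z` is invertible -/
theorem z_surj {c : ℝ} {z : Matrix (Fin r) (Fin r) ℝ}
    (hz : ∀ i j, (c : ℂ) * (hx Hc (z i) * hx Hc (z j)).trace = if i = j then -1 else 0)
    (x : Fin r → ℝ) : ∃ w : Fin r → ℝ, ∀ i, x i = ∑ j, w j * z j i := by
  set G : Matrix (Fin r) (Fin r) ℂ := Matrix.of fun i j => (Hc i * Hc j).trace with hG
  set zc : Matrix (Fin r) (Fin r) ℂ := z.map (Complex.ofRealHom : ℝ →+* ℂ) with hzc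
  have h1 : zc * ((c : ℂ) • G) * zcᵀ = 1 := by
    ext i j
    have h2 := hz i j
    rw [tr_hx] at h2
    rw [Matrix.mul_apply]
    simp only [Matrix.mul_apply, Matrix.transpose_apply, hzc, Matrix.map_apply, Complex.ofRealHom_eq_coe,
      Matrix.smul_apply, hG, Matrix.of_apply, smul_eq_mul, Matrix.one_apply]
    have h3 : (if i = j then (1 : ℂ) else 0) = -(if i = j then -1 else 0) := by
      by_cases h : i = j <;> simp [h]
    rw [h3, ← h2, mul_neg, neg_neg]
    simp only [Finset.sum_mul, Finset.mul_sum]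
    rw [Finset.sum_comm]
    refine Finset.sum_congr rfl fun k _ => Finset.sum_congr rfl fun l _ => ?_
    ring
  have h2 : zc.det ≠ 0 := by
    intro h
    have h3 := congrArg Matrix.det h1
    rw [Matrix.det_mul, Matrix.det_mul, h, zero_mul, zero_mul, Matrix.det_one] at h3
    exact zero_ne_one h3
  have h3 : z.det ≠ 0 := by
    intro h
    apply h2
    have h4 : zc.det = Complex.ofRealHom z.det := (RingHom.map_det Complex.ofRealHom z).symm
    rw [h4, h, map_zero]
  have h4 : IsUnit z.det := isUnit_iff_ne_zero.mpr h3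
  refine ⟨x ᵥ* z⁻¹, fun i => ?_⟩
  have h5 : (x ᵥ* z⁻¹) ᵥ* z = x := by
    rw [Matrix.vecMul_vecMul, Matrix.nonsing_inv_mul _ h4, Matrix.vecMul_one]
  conv_lhs => rw [← h5]
  rfl

/-- the size of the root vector -/
def tt (E : (Fin r → ℤ) × (Fin r → ℤ) → Matrix (Fin N) (Fin N) ℂ) (p : (Fin r → ℤ) × (Fin r → ℤ)) : ℝ :=
  (E p * (E p)ᴴ).trace.re

/-- the index set -/
abbrev Ix {r : ℕ} (Φ : RT r) : Type := Fin r ⊕ ({p // p ∈ pos Φ} ⊕ {p // p ∈ pos Φ})

theorem split (w : ℂ) (M M' : Matrix (Fin N) (Fin N) ℂ) :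
    w • M - conj w • M' = (w.re : ℂ) • (M - M') + (w.im : ℂ) • (Complex.I • (M + M')) := by
  have e3 := Complex.re_add_im w
  have e4 : conj w = (w.re : ℂ) - (w.im : ℂ) * Complex.I := by
    apply Complex.ext <;> simp
  have e5 : w • M = ((w.re : ℂ) + (w.im : ℂ) * Complex.I) • M := by rw [e3]
  rw [e4, e5]
  simp only [smul_sub, smul_add, add_smul, sub_smul, smul_smul]
  abel

instance : DecidableEq (Ix Φ) := Classical.decEq _

/-- the adapted frame -/
def fr (Hc : Fin r → Matrix (Fin N) (Fin N) ℂ) (E : (Fin r → ℤ) × (Fin r → ℤ) → Matrix (Fin N) (Fin N) ℂ)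
    (c : ℝ) (z : Matrix (Fin r) (Fin r) ℝ) : Ix Φ → Matrix (Fin N) (Fin N) ℂ
  | Sum.inl j => hx Hc (z j)
  | Sum.inr (Sum.inl p) => (((√(2 * c * tt E p.1))⁻¹ : ℝ) : ℂ) • (E p.1 - (E p.1)ᴴ)
  | Sum.inr (Sum.inr p) => (((√(2 * c * tt E p.1))⁻¹ : ℝ) : ℂ) • (Complex.I • (E p.1 + (E p.1)ᴴ))

theorem sq_s {c t : ℝ} (hc : 0 < c) (ht : 0 < t) :
    ((((√(2 * c * t))⁻¹ : ℝ) : ℂ)) * (((√(2 * c * t))⁻¹ : ℝ) : ℂ) = 1 / ((2 * c * t : ℝ) : ℂ) := by
  have h : 0 < 2 * c * t := by positivity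
  rw [← Complex.ofReal_mul, ← mul_inv, Real.mul_self_sqrt h.le, Complex.ofReal_inv, one_div]

theorem frame (hL : LIF H) (hW : WFF Φ B) (hD : LRD H Φ B Hc E) (hT : TAF H Φ Hc E) {c : ℝ} (hc : 0 < c)
    {z : Matrix (Fin r) (Fin r) ℝ}
    (hz : ∀ i j, (c : ℂ) * (hx Hc (z i) * hx Hc (z j)).trace = if i = j then -1 else 0) :
    Fr H c (fr (Φ := Φ) Hc E c z) := by
  have hP : ∀ p : {p // p ∈ pos Φ}, p.1 ∈ Φ := fun p => (hW.ppos p.1 p.2).1
  have ht : ∀ p : {p // p ∈ pos Φ}, (E p.1 * (E p.1)ᴴ).trace = (tt E p.1 : ℂ) := by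
    intro p
    apply Complex.ext
    · rw [Complex.ofReal_re]
      rfl
    · rw [Complex.ofReal_im]
      exact (hT.pos p.1 (hP p)).2
  have htp : ∀ p : {p // p ∈ pos Φ}, 0 < tt E p.1 := fun p => (hT.pos p.1 (hP p)).1
  have t1 : ∀ p q : {p // p ∈ pos Φ}, (E p.1 * E q.1).trace = 0 := by
    intro p q
    have h1 := hW.neg q.1 (hP q)
    have h2 := hD.star q.1 (hP q)
    have h3 : E q.1 = (E (-q.1.1, -q.1.2))ᴴ := by rw [h2, Matrix.conjTranspose_conjTranspose]
    rw [h3]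
    apply hT.orth p.1 (hP p) _ h1
    intro h4
    have h5 := (hW.dich q.1 (hP q)).mp q.2
    rw [← h4] at h5
    exact h5 p.2
  have t2 : ∀ p q : {p // p ∈ pos Φ}, ((E p.1)ᴴ * (E q.1)ᴴ).trace = 0 := by
    intro p q
    rw [← Matrix.conjTranspose_mul, Matrix.trace_conjTranspose, t1, star_zero]
  have t3 : ∀ p q : {p // p ∈ pos Φ}, (E p.1 * (E q.1)ᴴ).trace =
      if p = q then (tt E p.1 : ℂ) else 0 := by
    intro p q
    by_cases h : p = q
    · subst h
      rw [if_pos rfl, ht]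
    · rw [if_neg h]
      exact hT.orth p.1 (hP p) q.1 (hP q) fun h' => h (Subtype.ext h')
  have t4 : ∀ p q : {p // p ∈ pos Φ}, ((E p.1)ᴴ * E q.1).trace =
      if p = q then (tt E p.1 : ℂ) else 0 := by
    intro p q
    rw [Matrix.trace_mul_comm, t3]
    by_cases h : p = q
    · subst h
      rfl
    · rw [if_neg h, if_neg (Ne.symm h)]
  have t5 : ∀ (x : Fin r → ℝ) (p : {p // p ∈ pos Φ}), (hx Hc x * E p.1).trace = 0 := by
    intro x p
    unfold hx
    rw [Finset.sum_mul, Matrix.trace_sum]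
    refine Finset.sum_eq_zero fun j _ => ?_
    rw [Matrix.smul_mul, Matrix.trace_smul, Matrix.trace_mul_comm, hT.orh p.1 (hP p), smul_zero]
  have t6 : ∀ (x : Fin r → ℝ) (p : {p // p ∈ pos Φ}), (hx Hc x * (E p.1)ᴴ).trace = 0 := by
    intro x p
    unfold hx
    rw [Finset.sum_mul, Matrix.trace_sum]
    refine Finset.sum_eq_zero fun j _ => ?_
    have h1 : (Hc j * (E p.1)ᴴ).trace = 0 := by
      have h2 : Hc j * (E p.1)ᴴ = (E p.1 * Hc j)ᴴ := by
        rw [Matrix.conjTranspose_mul, hD.herm]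
      rw [h2, Matrix.trace_conjTranspose, hT.orh p.1 (hP p), star_zero]
    rw [Matrix.smul_mul, Matrix.trace_smul, h1, smul_zero]
  have c1 : ∀ (x : Fin r → ℝ) (p : {p // p ∈ pos Φ}),
      (hx Hc x * (E p.1 - (E p.1)ᴴ)).trace = 0 := by
    intro x p
    rw [Matrix.mul_sub, Matrix.trace_sub, t5, t6, sub_zero]
  have c2 : ∀ (x : Fin r → ℝ) (p : {p // p ∈ pos Φ}),
      (hx Hc x * (Complex.I • (E p.1 + (E p.1)ᴴ))).trace = 0 := by
    intro x p
    rw [Matrix.mul_smul, Matrix.trace_smul, Matrix.mul_add, Matrix.trace_add, t5, t6, add_zero,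
      smul_zero]
  have c3 : ∀ p q : {p // p ∈ pos Φ}, ((E p.1 - (E p.1)ᴴ) * (E q.1 - (E q.1)ᴴ)).trace =
      if p = q then -(2 * (tt E p.1 : ℂ)) else 0 := by
    intro p q
    rw [Matrix.sub_mul, Matrix.mul_sub, Matrix.mul_sub, Matrix.trace_sub, Matrix.trace_sub,
      Matrix.trace_sub, t1, t2, t3, t4]
    by_cases h : p = q
    · rw [if_pos h, if_pos h]
      ring
    · rw [if_neg h, if_neg h]
      ring
  have c4 : ∀ p q : {p // p ∈ pos Φ}, ((E p.1 - (E p.1)ᴴ) *
      (Complex.I • (E q.1 + (E q.1)ᴴ))).trace = 0 := by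
    intro p q
    rw [Matrix.mul_smul, Matrix.trace_smul, Matrix.sub_mul, Matrix.mul_add, Matrix.mul_add,
      Matrix.trace_sub, Matrix.trace_add, Matrix.trace_add, t1, t2, t3, t4]
    by_cases h : p = q
    · rw [if_pos h]
      simp
    · rw [if_neg h]
      simp
  have c5 : ∀ p q : {p // p ∈ pos Φ}, ((Complex.I • (E p.1 + (E p.1)ᴴ)) *
      (Complex.I • (E q.1 + (E q.1)ᴴ))).trace = if p = q then -(2 * (tt E p.1 : ℂ)) else 0 := by
    intro p q
    rw [Matrix.smul_mul, Matrix.mul_smul, Matrix.trace_smul, Matrix.trace_smul, Matrix.add_mul,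
      Matrix.mul_add, Matrix.mul_add, Matrix.trace_add, Matrix.trace_add, Matrix.trace_add, t1, t2,
      t3, t4, smul_eq_mul, smul_eq_mul]
    by_cases h : p = q
    · rw [if_pos h, if_pos h]
      linear_combination (2 * (tt E p.1 : ℂ)) * Complex.I_mul_I
    · rw [if_neg h, if_neg h]
      ring
  have hs : ∀ p : {p // p ∈ pos Φ}, (((√(2 * c * tt E p.1))⁻¹ : ℝ) : ℂ) *
      (((√(2 * c * tt E p.1))⁻¹ : ℝ) : ℂ) * (2 * (c : ℂ) * (tt E p.1 : ℂ)) = 1 := by
    intro p
    rw [sq_s hc (htp p)]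
    push_cast
    have h1 : (c : ℂ) ≠ 0 := by exact_mod_cast hc.ne'
    have h2 : (tt E p.1 : ℂ) ≠ 0 := by exact_mod_cast (htp p).ne'
    field_simp
  have hfin : ∀ (p q : {p // p ∈ pos Φ}) (T : ℂ), T = (if p = q then -(2 * (tt E p.1 : ℂ)) else 0) →
      -(c : ℂ) * ((((√(2 * c * tt E p.1))⁻¹ : ℝ) : ℂ) * ((((√(2 * c * tt E q.1))⁻¹ : ℝ) : ℂ) * T)) =
        if p = q then 1 else 0 := by
    intro p q T hT
    by_cases h : p = q
    · subst h
      rw [hT, if_pos rfl, if_pos rfl]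
      linear_combination hs p
    · rw [hT, if_neg h, if_neg h]
      ring
  refine ⟨?_, ?_, ?_⟩
  · rintro (j | p | p)
    · exact hT.hmem _
    · exact hL.smul _ _ (hD.emem p.1 (hP p)).1
    · exact hL.smul _ _ (hD.emem p.1 (hP p)).2
  · rintro (i | p | p) (j | q | q)
    · have h1 := hz i j
      simp only [fr, Sum.inl.injEq]
      by_cases h : i = j
      · rw [if_pos h] at h1 ⊢
        linear_combination -h1
      · rw [if_neg h] at h1 ⊢
        linear_combination -h1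
    · simp only [fr, Matrix.mul_smul, Matrix.trace_smul, c1]
      simp
    · simp only [fr, reduceCtorEq, if_false]
      rw [Matrix.mul_smul, Matrix.trace_smul, c2, smul_zero, mul_zero]
    · simp only [fr, reduceCtorEq, if_false]
      rw [Matrix.trace_mul_comm, Matrix.mul_smul, Matrix.trace_smul, c1, smul_zero, mul_zero]
    · simp only [fr, Sum.inr.injEq, Sum.inl.injEq]
      rw [Matrix.smul_mul, Matrix.mul_smul, Matrix.trace_smul, Matrix.trace_smul, smul_eq_mul,
        smul_eq_mul]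
      exact hfin p q _ (c3 p q)
    · simp only [fr, Sum.inr.injEq, reduceCtorEq, if_false]
      rw [Matrix.smul_mul, Matrix.mul_smul, Matrix.trace_smul, Matrix.trace_smul, c4, smul_zero,
        smul_zero, mul_zero]
    · simp only [fr, reduceCtorEq, if_false]
      rw [Matrix.trace_mul_comm, Matrix.mul_smul, Matrix.trace_smul, c2, smul_zero, mul_zero]
    · simp only [fr, Sum.inr.injEq, reduceCtorEq, if_false]
      rw [Matrix.trace_mul_comm, Matrix.smul_mul, Matrix.mul_smul, Matrix.trace_smul, Matrix.trace_smul,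
        c4, smul_zero, smul_zero, mul_zero]
    · simp only [fr, Sum.inr.injEq]
      rw [Matrix.smul_mul, Matrix.mul_smul, Matrix.trace_smul, Matrix.trace_smul, smul_eq_mul,
        smul_eq_mul]
      exact hfin p q _ (c5 p q)
  · intro Y hY
    obtain ⟨x, w, hxw⟩ := hD.span Y hY
    obtain ⟨v, hv⟩ := z_surj hz x
    refine ⟨fun a => match a with
      | Sum.inl j => v j
      | Sum.inr (Sum.inl p) => √(2 * c * tt E p.1) * (w p.1).re
      | Sum.inr (Sum.inr p) => √(2 * c * tt E p.1) * (w p.1).im, ?_⟩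
    rw [Fintype.sum_sum_type, Fintype.sum_sum_type]
    simp only [fr]
    rw [hx_sum]
    have e1 : hx Hc (fun i => ∑ j, v j * z j i) = ∑ j, ((x j : ℂ) * Complex.I) • Hc j := by
      have : (fun i => ∑ j, v j * z j i) = x := by
        funext i
        exact (hv i).symm
      rw [this]
      rfl
    rw [e1, hxw]
    congr 1
    rw [← Finset.sum_add_distrib, ← Finset.sum_coe_sort (pos Φ)]
    refine Finset.sum_congr rfl fun p _ => ?_
    have h0 : √(2 * c * tt E p.1) ≠ 0 := by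
      have := htp p
      positivity
    have e2 : ∀ y : ℝ, ((√(2 * c * tt E p.1) * y : ℝ) : ℂ) * (((√(2 * c * tt E p.1))⁻¹ : ℝ) : ℂ) =
        (y : ℂ) := by
      intro y
      rw [← Complex.ofReal_mul]
      congr 1
      field_simp
    rw [smul_smul, smul_smul, e2, e2]
    exact split _ _ _

end

end ADFR

open ADFR in
theorem t_ADFR : M_ADFR := by
  intro hB hWF hTA N H r Φ B Hc E c k d X hH hD hK hX
  have hL := hB N H hH
  have hW := hWF r Φ B hD.ird
  have hT := hTA N H r Φ B Hc E hH hD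
  have hc := hK.cpos
  have hXF : Fr H c X := ⟨hX.mem, hX.orth, hX.span⟩
  refine ⟨?_, ?_⟩
  · obtain ⟨z, hz, -⟩ := hK.z
    have h1 := (two hL hXF (frame hL hW hD hT hc hz)).1
    rw [Fintype.card_fin, Fintype.card_sum, Fintype.card_sum, Fintype.card_fin, Fintype.card_coe] at h1
    omega
  · intro z hz β h1 h2
    have hβ : Bil H β := ⟨h1, h2⟩
    have h3 := (two hL hXF (frame hL hW hD hT hc hz)).2 β hβ
    rw [h3, Fintype.sum_sum_type, Fintype.sum_sum_type]
    congr 1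
    rw [← Finset.sum_add_distrib, ← Finset.sum_coe_sort (pos Φ)]
    refine Finset.sum_congr rfl fun p _ => ?_
    have hP : p.1 ∈ Φ := (hW.ppos p.1 p.2).1
    have htp : 0 < tt E p.1 := (hT.pos p.1 hP).1
    have m1 := (hD.emem p.1 hP).1
    have m2 := (hD.emem p.1 hP).2
    simp only [fr]
    rw [(hβ.smul _ m1 _ (hL.smul _ _ m1) _).1, (hβ.smul _ m1 _ m1 _).2,
      (hβ.smul _ m2 _ (hL.smul _ _ m2) _).1, (hβ.smul _ m2 _ m2 _).2]
    have h4 := sq_s hc htp
    have h5 : ((2 * c * (E p.1 * (E p.1)ᴴ).trace.re : ℝ) : ℂ) = ((2 * c * tt E p.1 : ℝ) : ℂ) := rfl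
    rw [h5, ← h4]
    ring

end

end LGR
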