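import Pool.Agent.LGR.StB

/-!
# Module ATFV: facts about the alternating sums
-/

namespace LGR

open STZ MeasureTheory Matrix

open scoped ComplexConjugate Matrix Real

noncomputable section

namespace ATFV

lemma eu_add (a b : ℝ) : eu (a + b) = eu a * eu b := by
  unfold eu
  rw [← Complex.exp_add]
  congr 1
  push_cast
  ring

lemma eu_int (k : ℤ) : eu (k : ℝ) = 1 := by
  unfold eu
  rw [Complex.exp_eq_one_iff]
  exact ⟨k, by push_cast; ring⟩

lemma eu_eq_one {y : ℝ} : eu y = 1 ↔ ∃ k : ℤ, y = k := by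
  constructor
  · intro h
    unfold eu at h
    rw [Complex.exp_eq_one_iff] at h
    obtain ⟨k, hk⟩ := h
    refine ⟨k, ?_⟩
    have h1 : (2 * (π : ℂ) * Complex.I) ≠ 0 := by
      simp [Real.pi_ne_zero, Complex.I_ne_zero]
    have h2 : (2 * (π : ℂ) * Complex.I) * (y : ℂ) = (2 * (π : ℂ) * Complex.I) * (k : ℂ) := by
      linear_combination hk
    have h3 := mul_left_cancel₀ h1 h2
    exact_mod_cast h3
  · rintro ⟨k, rfl⟩
    exact eu_int k

lemma eu_ne_zero (y : ℝ) : eu y ≠ 0 := Complex.exp_ne_zero _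

variable {r : ℕ} {D : RD r}

lemma dz_add (a b : Fin r → ℤ) (θ : Fin r → ℝ) : dz (a + b) θ = dz a θ + dz b θ := by
  unfold dz
  rw [← Finset.sum_add_distrib]
  refine Finset.sum_congr rfl fun i _ => ?_
  simp only [Pi.add_apply]
  push_cast
  ring

lemma dz_smul (k : ℤ) (a : Fin r → ℤ) (θ : Fin r → ℝ) : dz (k • a) θ = k * dz a θ := by
  unfold dz
  rw [Finset.mul_sum]
  refine Finset.sum_congr rfl fun i _ => ?_
  simp only [Pi.smul_apply, smul_eq_mul]
  push_cast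
  ring

lemma dz_sub (a b : Fin r → ℤ) (θ : Fin r → ℝ) : dz (a - b) θ = dz a θ - dz b θ := by
  have h := dz_add (a - b) b θ
  rw [sub_add_cancel] at h
  linarith

lemma dz_sum {ι : Type*} (s : Finset ι) (a : ι → Fin r → ℤ) (θ : Fin r → ℝ) :
    dz (∑ i ∈ s, a i) θ = ∑ i ∈ s, dz (a i) θ := by
  classical
  induction s using Finset.induction_on with
  | empty => simp [dz]
  | insert x s hx ih => rw [Finset.sum_insert hx, Finset.sum_insert hx, dz_add, ih]

lemma dz_add' (a : Fin r → ℤ) (θ z : Fin r → ℝ) : dz a (θ + z) = dz a θ + dz a z := by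
  unfold dz
  rw [← Finset.sum_add_distrib]
  refine Finset.sum_congr rfl fun i _ => ?_
  simp only [Pi.add_apply]
  ring

lemma det_sq {P : RT r} (hw : RV D P) {w : Matrix (Fin r) (Fin r) ℤ} (h : w ∈ D.W) :
    (w.det : ℂ) * (w.det : ℂ) = 1 := by
  rcases hw.W_det w h with h | h <;> rw [h] <;> simp

lemma inv {P : RT r} (hw : RV D P) {w : Matrix (Fin r) (Fin r) ℤ} (h : w ∈ D.W) :
    ∃ w' ∈ D.W, w' * w = 1 ∧ w * w' = 1 := by
  obtain ⟨w', h1, h2⟩ := hw.W_inv w h
  exact ⟨w', h1, h2, mul_eq_one_comm.mp h2⟩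

/-- substitution `w ↦ w * v` -/
lemma sum_right {P : RT r} (hw : RV D P) {v : Matrix (Fin r) (Fin r) ℤ} (hv : v ∈ D.W)
    (f : Matrix (Fin r) (Fin r) ℤ → ℂ) : ∑ w ∈ D.W, f (w * v) = ∑ w ∈ D.W, f w := by
  obtain ⟨v', h1, h2, h3⟩ := inv hw hv
  refine Finset.sum_bij' (fun w _ => w * v) (fun w _ => w * v') ?_ ?_ ?_ ?_ ?_
  · intro w h
    exact hw.W_mul w h v hv
  · intro w h
    exact hw.W_mul w h v' h1
  · intro w _
    rw [mul_assoc, h3, mul_one]
  · intro w _
    rw [mul_assoc, h2, mul_one]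
  · intro w _
    rfl

/-- substitution `w ↦ v * w` -/
lemma sum_left {P : RT r} (hw : RV D P) {v : Matrix (Fin r) (Fin r) ℤ} (hv : v ∈ D.W)
    (f : Matrix (Fin r) (Fin r) ℤ → ℂ) : ∑ w ∈ D.W, f (v * w) = ∑ w ∈ D.W, f w := by
  obtain ⟨v', h1, h2, h3⟩ := inv hw hv
  refine Finset.sum_bij' (fun w _ => v * w) (fun w _ => v' * w) ?_ ?_ ?_ ?_ ?_
  · intro w h
    exact hw.W_mul v hv w h
  · intro w h
    exact hw.W_mul v' h1 w h
  · intro w _
    rw [← mul_assoc, h2, one_mul]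
  · intro w _
    rw [← mul_assoc, h3, one_mul]
  · intro w _
    rfl

lemma dz_mulVec (w : Matrix (Fin r) (Fin r) ℤ) (κ : Fin r → ℤ) (θ : Fin r → ℝ) :
    dz κ (fun j => ∑ i, (w i j : ℝ) * θ i) = dz (w *ᵥ κ) θ := by
  unfold dz
  simp only [Matrix.mulVec, dotProduct]
  push_cast
  simp only [Finset.mul_sum, Finset.sum_mul]
  rw [Finset.sum_comm]
  refine Finset.sum_congr rfl fun i _ => Finset.sum_congr rfl fun j _ => ?_
  ring

lemma real' (l : Fin r → ℤ) (θ : Fin r → ℝ) :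
    ATC D (fun j => (l j : ℂ)) (fun i => (θ i : ℂ)) = AT D l θ := by
  unfold ATC AT eu dz
  refine Finset.sum_congr rfl fun w _ => ?_
  congr 2
  simp only [Matrix.mulVec, dotProduct]
  push_cast
  ring

lemma cont' (l : Fin r → ℤ) : Continuous (AT D l) := by
  unfold AT eu dz
  fun_prop

lemma anti' {P : RT r} (hw : RV D P) {w : Matrix (Fin r) (Fin r) ℤ} (h : w ∈ D.W) (l : Fin r → ℤ)
    (θ : Fin r → ℝ) : AT D (w *ᵥ l) θ = (w.det : ℂ) * AT D l θ := by
  unfold AT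
  rw [← sum_right hw h fun v => (v.det : ℂ) * eu (dz (v *ᵥ l) θ), Finset.mul_sum]
  refine Finset.sum_congr rfl fun v _ => ?_
  rw [Matrix.mulVec_mulVec, Matrix.det_mul, Int.cast_mul]
  have := det_sq hw h
  linear_combination -((v.det : ℂ) * eu (dz ((v * w) *ᵥ l) θ)) * this

lemma van' {P : RT r} (hw : RV D P)
    {p : (Fin r → ℤ) × (Fin r → ℤ)} (hp : p ∈ P) (l : Fin r → ℤ) (θ : Fin r → ℝ) (k : ℤ)
    (hk : dz p.1 θ = k) : AT D l θ = 0 := by
  obtain ⟨s, hs, hdet, hfor⟩ := hw.refl p hp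
  have h1 : AT D l θ = -AT D l θ := by
    conv_lhs => unfold AT
    rw [← sum_left hw hs fun v => (v.det : ℂ) * eu (dz (v *ᵥ l) θ)]
    unfold AT
    rw [← Finset.sum_neg_distrib]
    refine Finset.sum_congr rfl fun w _ => ?_
    rw [Matrix.det_mul, hdet, ← Matrix.mulVec_mulVec, hfor, sub_eq_add_neg, ← neg_smul, dz_add,
      dz_smul, hk, eu_add]
    have h2 : eu (((-(p.2 ⬝ᵥ w *ᵥ l) : ℤ) : ℝ) * (k : ℝ)) = 1 := by
      have h3 : ((-(p.2 ⬝ᵥ w *ᵥ l) : ℤ) : ℝ) * (k : ℝ) = ((-(p.2 ⬝ᵥ w *ᵥ l) * k : ℤ) : ℝ) := by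
        push_cast
        ring
      rw [h3, eu_int]
    rw [h2, Int.cast_mul]
    push_cast
    ring
  have h2 : (2 : ℂ) * AT D l θ = 0 := by linear_combination h1
  simpa using h2

lemma vanC' {P : RT r} (hw : RV D P)
    {p : (Fin r → ℤ) × (Fin r → ℤ)} (hp : p ∈ P) (ν ζ : Fin r → ℂ)
    (hν : ∑ j, (p.2 j : ℂ) * ν j = 0) : ATC D ν ζ = 0 := by
  obtain ⟨s, hs, hdet, hfor⟩ := hw.refl p hp
  have hent : ∀ j k, s j k = (if j = k then 1 else 0) - p.2 k * p.1 j := by
    intro j k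
    have h1 := congrFun (hfor (Pi.single k 1)) j
    rw [Matrix.mulVec_single_one] at h1
    simp only [Matrix.col_apply, Pi.sub_apply, Pi.smul_apply, smul_eq_mul, dotProduct_single,
      mul_one, Pi.single_apply] at h1
    exact h1
  have hsν : ∀ j, ∑ k, (s j k : ℂ) * ν k = ν j := by
    intro j
    have h1 : ∀ k, (s j k : ℂ) * ν k = (if j = k then ν k else 0) -
        (p.1 j : ℂ) * ((p.2 k : ℂ) * ν k) := by
      intro k
      rw [hent j k]
      by_cases hjk : j = k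
      · simp only [hjk, if_true]
        push_cast
        ring
      · simp only [hjk, if_false]
        push_cast
        ring
    simp only [h1, Finset.sum_sub_distrib, ← Finset.mul_sum, hν]
    simp
  have h1 : ATC D ν ζ = -ATC D ν ζ := by
    conv_lhs => unfold ATC
    rw [← sum_right hw hs fun w => (w.det : ℂ) *
      Complex.exp (2 * π * Complex.I * ∑ i, (∑ j, (w i j : ℂ) * ν j) * ζ i)]
    unfold ATC
    rw [← Finset.sum_neg_distrib]
    refine Finset.sum_congr rfl fun w _ => ?_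
    have h2 : ∀ i, ∑ j, (((w * s) i j : ℤ) : ℂ) * ν j = ∑ j, (w i j : ℂ) * ν j := by
      intro i
      simp only [Matrix.mul_apply]
      push_cast
      simp only [Finset.sum_mul]
      rw [Finset.sum_comm]
      refine Finset.sum_congr rfl fun j _ => ?_
      rw [← hsν j, Finset.mul_sum]
      refine Finset.sum_congr rfl fun k _ => ?_
      ring
    simp only [h2]
    rw [Matrix.det_mul, hdet, Int.cast_mul]
    push_cast
    ring
  have h2 : (2 : ℂ) * ATC D ν ζ = 0 := by linear_combination h1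
  simpa using h2

lemma cen' {P : RT r} (hw : RV D P)
    (z : Fin r → ℝ) (hz : ∀ p ∈ P, ∃ k : ℤ, dz p.1 z = k) (l : Fin r → ℤ) (θ : Fin r → ℝ) :
    AT D l (θ + z) = eu (dz l z) * AT D l θ := by
  choose! k hk using hz
  unfold AT
  rw [Finset.mul_sum]
  refine Finset.sum_congr rfl fun w hwm => ?_
  obtain ⟨n, hn⟩ := hw.lat w hwm l
  have h1 : eu (dz (w *ᵥ l) z) = eu (dz l z) := by
    rw [hn, dz_add, dz_sum, eu_add]
    have h2 : ∑ p : {p // p ∈ P}, dz (n p • p.1.1) z =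
        ((∑ p : {p // p ∈ P}, n p * k p.1 : ℤ) : ℝ) := by
      push_cast
      refine Finset.sum_congr rfl fun p _ => ?_
      rw [dz_smul, hk p.1 p.2]
    rw [h2, eu_int, mul_one]
  rw [dz_add', eu_add, h1]
  ring

/-- the action of the group on the torus -/
lemma inv' {P : RT r} (hw : RV D P) {w : Matrix (Fin r) (Fin r) ℤ} (h : w ∈ D.W)
    (l : Fin r → ℤ) (θ : Fin r → ℝ) :
    AT D l (fun j => ∑ i, (w i j : ℝ) * θ i) = (w.det : ℂ) * AT D l θ := by
  unfold AT
  rw [← sum_left hw h fun v => (v.det : ℂ) * eu (dz (v *ᵥ l) θ), Finset.mul_sum]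
  refine Finset.sum_congr rfl fun v _ => ?_
  rw [dz_mulVec, Matrix.mulVec_mulVec, Matrix.det_mul, Int.cast_mul]
  have := det_sq hw h
  linear_combination -((v.det : ℂ) * eu (dz ((w * v) *ᵥ l) θ)) * this

lemma ne' {P : RT r} (hw : RV D P)
    (θ : Fin r → ℝ) : AT D 1 θ ≠ 0 ↔ ∀ p ∈ P, nd (dz p.1 θ) ≠ 0 := by
  rw [hw.den θ, mul_ne_zero_iff, Finset.prod_ne_zero_iff]
  constructor
  · rintro ⟨_, h1⟩ p hp h2
    apply h1 p hp
    unfold nd at h2
    have h3 : dz p.1 θ = (round (dz p.1 θ) : ℝ) := by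
      have := abs_eq_zero.mp h2
      linarith
    rw [sub_eq_zero, eq_comm, eu_eq_one]
    exact ⟨-round (dz p.1 θ), by push_cast; linarith⟩
  · intro h1
    refine ⟨eu_ne_zero _, fun p hp h2 => h1 p hp ?_⟩
    rw [sub_eq_zero, eq_comm, eu_eq_one] at h2
    obtain ⟨k, hk⟩ := h2
    have h3 : dz p.1 θ = ((-k : ℤ) : ℝ) := by
      push_cast
      linarith
    unfold nd
    rw [h3, round_intCast]
    simp

end ATFV

theorem t_ATFV : S_ATFV := by
  intro r D P hV
  exact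
    { real := fun l θ => ATFV.real' l θ
      cont := fun l => ATFV.cont' l
      anti := fun w hw l θ => ATFV.anti' hV hw l θ
      inv := fun w hw l θ => ATFV.inv' hV hw l θ
      van := fun p hp l θ k hk => ATFV.van' hV hp l θ k hk
      vanC := fun p hp ν ζ hν => ATFV.vanC' hV hp ν ζ hν
      cen := fun z hz l θ => ATFV.cen' hV z hz l θ
      ne := fun θ => ATFV.ne' hV θ }

end

end LGR
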