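import Pool.Agent.LGR.StR

/-!
# LGR: the coefficients of `AT 1 * tp m`
-/

namespace LGR

open STZ MeasureTheory Matrix Filter

open scoped ComplexConjugate Matrix Real Topology

noncomputable section

namespace AVAL

variable {r : ℕ} {Φ : RT r} {B : Matrix (Fin r) (Fin r) ℤ}

lemma eu_add (a b : ℝ) : eu (a + b) = eu a * eu b := by
  unfold eu
  rw [← Complex.exp_add]
  congr 1
  push_cast
  ring

lemma conj_eu (a : ℝ) : conj (eu a) = eu (-a) := by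
  unfold eu
  rw [← Complex.exp_conj]
  congr 1
  have h2 : conj (2 : ℂ) = 2 := Complex.conj_ofNat 2
  simp [h2]

lemma cont_eu : Continuous eu := by
  unfold eu
  fun_prop

lemma dz_add (μ ν : Fin r → ℤ) (θ : Fin r → ℝ) : dz (μ + ν) θ = dz μ θ + dz ν θ := by
  unfold dz
  rw [← Finset.sum_add_distrib]
  refine Finset.sum_congr rfl fun i _ => ?_
  rw [Pi.add_apply]
  push_cast
  ring

lemma dz_sub (μ ν : Fin r → ℤ) (θ : Fin r → ℝ) : dz (μ - ν) θ = dz μ θ - dz ν θ := by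
  have h := dz_add (μ - ν) ν θ
  rw [sub_add_cancel] at h
  linarith

lemma dz_tr (w : Matrix (Fin r) (Fin r) ℤ) (μ : Fin r → ℤ) (θ : Fin r → ℝ) :
    dz μ (fun j => ∑ i, (w i j : ℝ) * θ i) = dz (w *ᵥ μ) θ := by
  unfold dz
  have h1 : ∀ i, ((w *ᵥ μ) i : ℝ) * θ i = ∑ j, (μ j : ℝ) * ((w i j : ℝ) * θ i) := by
    intro i
    have h2 : (w *ᵥ μ) i = ∑ j, w i j * μ j := rfl
    rw [h2]
    push_cast
    rw [Finset.sum_mul]
    refine Finset.sum_congr rfl fun j _ => ?_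
    ring
  rw [Finset.sum_congr rfl fun i _ => h1 i, Finset.sum_comm]
  refine Finset.sum_congr rfl fun j _ => ?_
  rw [Finset.mul_sum]

lemma cont_dz (μ : Fin r → ℤ) : Continuous (dz μ) := by
  unfold dz
  fun_prop

/-- reindexing a sum of the values of a finitely supported function -/
lemma sum_shift (m : (Fin r → ℤ) →₀ ℤ) (g g' : (Fin r → ℤ) → (Fin r → ℤ))
    (h1 : ∀ μ, g (g' μ) = μ) (h2 : ∀ μ, g' (g μ) = μ) (S : Finset (Fin r → ℤ))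
    (hS : ∀ μ ∈ m.support, g μ ∈ S) (e : (Fin r → ℤ) → ℂ) :
    ∑ ν ∈ S, (m (g' ν) : ℂ) * e ν = m.sum fun μ c => (c : ℂ) * e (g μ) := by
  classical
  have h3 : m.support.image g ⊆ S := by
    intro ν hν
    rw [Finset.mem_image] at hν
    obtain ⟨μ, hμ, rfl⟩ := hν
    exact hS μ hμ
  rw [← Finset.sum_subset h3, Finset.sum_image]
  · unfold Finsupp.sum
    refine Finset.sum_congr rfl fun μ _ => ?_
    rw [h2]
  · intro a _ b _ hab
    have := congrArg g' hab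
    rwa [h2, h2] at this
  · intro ν _ hν
    have h4 : m (g' ν) = 0 := by
      by_contra h5
      apply hν
      rw [Finset.mem_image]
      exact ⟨g' ν, Finsupp.mem_support_iff.mpr h5, h1 ν⟩
    rw [h4]
    simp

lemma tp_def (m : (Fin r → ℤ) →₀ ℤ) (θ : Fin r → ℝ) :
    tp m θ = m.sum fun μ c => (c : ℂ) * eu (dz μ θ) := rfl

open Classical in
/-- the support -/
def sp (Φ : RT r) (m : (Fin r → ℤ) →₀ ℤ) : Finset (Fin r → ℤ) :=
  (WF Φ ×ˢ m.support).image fun p => p.2 + p.1 *ᵥ 1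

lemma mem_sp (m : (Fin r → ℤ) →₀ ℤ) (ν : Fin r → ℤ) (h : av Φ m ν ≠ 0) : ν ∈ sp Φ m := by
  classical
  unfold av at h
  obtain ⟨w, hw, h1⟩ := Finset.exists_ne_zero_of_sum_ne_zero h
  have h2 : m (ν - w *ᵥ 1) ≠ 0 := right_ne_zero_of_mul h1
  unfold sp
  rw [Finset.mem_image]
  exact ⟨(w, ν - w *ᵥ 1), Finset.mem_product.mpr ⟨hw, Finsupp.mem_support_iff.mpr h2⟩,
    sub_add_cancel _ _⟩

lemma prod_sp (m : (Fin r → ℤ) →₀ ℤ) (θ : Fin r → ℝ) :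
    AT (rd Φ) 1 θ * tp m θ = ∑ ν ∈ sp Φ m, (av Φ m ν : ℂ) * eu (dz ν θ) := by
  classical
  have h1 : ∀ w ∈ WF Φ, ∑ ν ∈ sp Φ m, (m (ν - w *ᵥ 1) : ℂ) * eu (dz ν θ) =
      eu (dz (w *ᵥ 1) θ) * tp m θ := by
    intro w hw
    rw [sum_shift m (fun μ => μ + w *ᵥ 1) (fun ν => ν - w *ᵥ 1) (fun μ => sub_add_cancel _ _)
      (fun μ => add_sub_cancel_right _ _) (sp Φ m) (fun μ hμ => ?_) (fun ν => eu (dz ν θ)), tp_def,
      Finsupp.mul_sum]
    · refine Finset.sum_congr rfl fun μ _ => ?_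
      simp only [dz_add, eu_add]
      ring
    · unfold sp
      rw [Finset.mem_image]
      exact ⟨(w, μ), Finset.mem_product.mpr ⟨hw, hμ⟩, rfl⟩
  have h2 : AT (rd Φ) 1 θ = ∑ w ∈ WF Φ, (w.det : ℂ) * eu (dz (w *ᵥ 1) θ) := rfl
  rw [h2, Finset.sum_mul]
  have h3 : ∀ ν, (av Φ m ν : ℂ) * eu (dz ν θ) =
      ∑ w ∈ WF Φ, (w.det : ℂ) * ((m (ν - w *ᵥ 1) : ℂ) * eu (dz ν θ)) := by
    intro ν
    unfold av
    push_cast
    rw [Finset.sum_mul]
    refine Finset.sum_congr rfl fun w _ => ?_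
    ring
  rw [Finset.sum_congr rfl fun ν _ => h3 ν, Finset.sum_comm]
  refine Finset.sum_congr rfl fun w hw => ?_
  rw [← Finset.mul_sum, h1 w hw]
  ring

lemma prod_of (m : (Fin r → ℤ) →₀ ℤ) (S : Finset (Fin r → ℤ)) (hS : ∀ ν, av Φ m ν ≠ 0 → ν ∈ S)
    (θ : Fin r → ℝ) : AT (rd Φ) 1 θ * tp m θ = ∑ ν ∈ S, (av Φ m ν : ℂ) * eu (dz ν θ) := by
  classical
  rw [prod_sp]
  have h2 : ∑ ν ∈ sp Φ m, (av Φ m ν : ℂ) * eu (dz ν θ) =
      ∑ ν ∈ sp Φ m ∪ S, (av Φ m ν : ℂ) * eu (dz ν θ) := by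
    apply Finset.sum_subset Finset.subset_union_left
    intro ν _ hν
    have h3 : av Φ m ν = 0 := by
      by_contra h4
      exact hν (mem_sp m ν h4)
    rw [h3]
    simp
  have h3 : ∑ ν ∈ S, (av Φ m ν : ℂ) * eu (dz ν θ) =
      ∑ ν ∈ sp Φ m ∪ S, (av Φ m ν : ℂ) * eu (dz ν θ) := by
    apply Finset.sum_subset Finset.subset_union_right
    intro ν _ hν
    have h3 : av Φ m ν = 0 := by
      by_contra h4
      exact hν (hS ν h4)
    rw [h3]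
    simp
  rw [h2, h3]

/-- the coefficients of an invariant polynomial are invariant -/
lemma inv_coef (hT : S_TPOL) (hw : WFF Φ B) (m : (Fin r → ℤ) →₀ ℤ)
    (hm : ∀ w ∈ WF Φ, ∀ θ, tp m (fun j => ∑ i, (w i j : ℝ) * θ i) = tp m θ) :
    ∀ w ∈ WF Φ, ∀ μ, m (w *ᵥ μ) = m μ := by
  classical
  have key : ∀ w ∈ WF Φ, ∀ w', w' * w = 1 → w * w' = 1 → ∀ μ, m (w' *ᵥ μ) = m μ := by
    intro w hwm w' h1 h2
    have g1 : ∀ μ : Fin r → ℤ, w *ᵥ (w' *ᵥ μ) = μ := fun μ => by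
      rw [Matrix.mulVec_mulVec, h2, Matrix.one_mulVec]
    have g2 : ∀ μ : Fin r → ℤ, w' *ᵥ (w *ᵥ μ) = μ := fun μ => by
      rw [Matrix.mulVec_mulVec, h1, Matrix.one_mulVec]
    let S : Finset (Fin r → ℤ) := m.support ∪ m.support.image (fun μ => w *ᵥ μ)
    have hS1 : ∀ μ ∈ m.support, w *ᵥ μ ∈ S := fun μ hμ =>
      Finset.mem_union_right _ (Finset.mem_image_of_mem _ hμ)
    have hS2 : ∀ μ ∈ m.support, id μ ∈ S := fun μ hμ => Finset.mem_union_left _ hμ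
    have h3 : ∀ θ : Fin r → ℝ, ∑ μ ∈ S, ((m (w' *ᵥ μ) : ℂ) - (m μ : ℂ)) * eu (dz μ θ) = 0 := by
      intro θ
      have e1 := sum_shift m (fun μ => w *ᵥ μ) (fun μ => w' *ᵥ μ) g1 g2 S hS1
        (fun ν => eu (dz ν θ))
      have e2 := sum_shift m id id (fun _ => rfl) (fun _ => rfl) S hS2 (fun ν => eu (dz ν θ))
      have e3 : tp m (fun j => ∑ i, (w i j : ℝ) * θ i) =
          m.sum fun μ c => (c : ℂ) * eu (dz (w *ᵥ μ) θ) := by
        rw [tp_def]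
        simp only [dz_tr]
      have e4 := hm w hwm θ
      rw [e3, tp_def] at e4
      simp only [sub_mul]
      rw [Finset.sum_sub_distrib, e1]
      simp only [id] at e2
      rw [e2, e4, sub_self]
    have h4 := (hT r).2 S _ h3
    intro μ
    by_cases hμ : μ ∈ S
    · have h5 := h4 μ hμ
      have h6 := sub_eq_zero.mp h5
      exact_mod_cast h6
    · have h5 : m μ = 0 := by
        by_contra h6
        exact hμ (Finset.mem_union_left _ (Finsupp.mem_support_iff.mpr h6))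
      have h6 : m (w' *ᵥ μ) = 0 := by
        by_contra h7
        apply hμ
        have h8 := hS1 _ (Finsupp.mem_support_iff.mpr h7)
        rwa [g1] at h8
      rw [h5, h6]
  intro w hwm μ
  obtain ⟨w', hw', h1, h2⟩ := hw.inv w hwm
  exact key w' hw' w h2 h1 μ

lemma av_anti (hw : WFF Φ B) (m : (Fin r → ℤ) →₀ ℤ)
    (hm : ∀ w ∈ WF Φ, ∀ μ, m (w *ᵥ μ) = m μ) :
    ∀ w ∈ WF Φ, ∀ ν, av Φ m (w *ᵥ ν) = w.det * av Φ m ν := by
  intro w hwm ν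
  obtain ⟨w', hw', h1, h2⟩ := hw.inv w hwm
  unfold av
  rw [Finset.mul_sum]
  refine Finset.sum_nbij' (fun u => w' * u) (fun u => w * u) (fun u hu => hw.mul _ hw' _ hu)
    (fun u hu => hw.mul _ hwm _ hu) (fun u _ => ?_) (fun u _ => ?_) (fun u hu => ?_)
  · rw [← mul_assoc, h2, one_mul]
  · rw [← mul_assoc, h1, one_mul]
  · have e1 : u = w * (w' * u) := by rw [← mul_assoc, h2, one_mul]
    have e2 : w *ᵥ ν - u *ᵥ 1 = w *ᵥ (ν - (w' * u) *ᵥ 1) := by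
      rw [Matrix.mulVec_sub, Matrix.mulVec_mulVec, ← e1]
    rw [e2, hm w hwm, ← mul_assoc, ← Matrix.det_mul, ← e1]

/-- orthogonality -/
lemma parseval (hT : S_TPOL) (S T : Finset (Fin r → ℤ)) (a b : (Fin r → ℤ) → ℂ) :
    ∫ θ in Set.Icc (0 : Fin r → ℝ) 1, (∑ ν ∈ S, a ν * eu (dz ν θ)) *
      conj (∑ ν ∈ T, b ν * eu (dz ν θ)) =
    ∑ ν ∈ S, ∑ ν' ∈ T, a ν * conj (b ν') * (if ν = ν' then 1 else 0) := by
  have h1 : ∀ θ : Fin r → ℝ, (∑ ν ∈ S, a ν * eu (dz ν θ)) * conj (∑ ν ∈ T, b ν * eu (dz ν θ)) =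
      ∑ ν ∈ S, ∑ ν' ∈ T, a ν * conj (b ν') * eu (dz (ν - ν') θ) := by
    intro θ
    rw [map_sum, Finset.sum_mul_sum]
    refine Finset.sum_congr rfl fun ν _ => Finset.sum_congr rfl fun ν' _ => ?_
    rw [map_mul, conj_eu, dz_sub, sub_eq_add_neg, eu_add]
    ring
  have hc : ∀ ν : Fin r → ℤ, Continuous fun θ : Fin r → ℝ => eu (dz ν θ) := fun ν =>
    cont_eu.comp (cont_dz ν)
  have hi : ∀ (c : ℂ) (ν : Fin r → ℤ), IntegrableOn (fun θ : Fin r → ℝ => c * eu (dz ν θ))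
      (Set.Icc 0 1) := fun c ν => (continuous_const.mul (hc ν)).integrableOn_Icc
  simp only [h1]
  rw [integral_finsetSum]
  · refine Finset.sum_congr rfl fun ν _ => ?_
    rw [integral_finsetSum]
    · refine Finset.sum_congr rfl fun ν' _ => ?_
      rw [integral_const_mul, (hT r).1]
      simp only [sub_eq_zero]
    · intro ν' _
      exact hi _ _
  · intro ν _
    exact integrable_finsetSum _ fun ν' _ => hi _ _

lemma third (hT : S_TPOL) (hw : WFF Φ B) (m : (Fin r → ℤ) →₀ ℤ)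
    (hm : ∀ w ∈ WF Φ, ∀ θ, tp m (fun j => ∑ i, (w i j : ℝ) * θ i) = tp m θ)
    (m₂ : (Fin r → ℤ) →₀ ℤ) (h2 : ∀ θ, tp m₂ θ = tp m θ * conj (tp m θ))
    (S : Finset (Fin r → ℤ)) (hS : ∀ ν, av Φ m ν ≠ 0 → ν ∈ S) :
    ((WF Φ).card : ℤ) * av Φ m₂ 1 = ∑ ν ∈ S, av Φ m ν ^ 2 := by
  classical
  have hm2 : ∀ w ∈ WF Φ, ∀ θ, tp m₂ (fun j => ∑ i, (w i j : ℝ) * θ i) = tp m₂ θ := by
    intro w hwm θ
    rw [h2, h2, hm w hwm]
  have ha2 := av_anti hw m₂ (inv_coef hT hw m₂ hm2)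
  have e1 : ∀ θ, AT (rd Φ) 1 θ = ∑ w ∈ WF Φ, (w.det : ℂ) * eu (dz (w *ᵥ 1) θ) := fun _ => rfl
  have e2 : ∀ θ : Fin r → ℝ, (AT (rd Φ) 1 θ * tp m₂ θ) * conj (AT (rd Φ) 1 θ) =
      (AT (rd Φ) 1 θ * tp m θ) * conj (AT (rd Φ) 1 θ * tp m θ) := by
    intro θ
    rw [h2, map_mul]
    ring
  have e3 : ∀ θ : Fin r → ℝ, (AT (rd Φ) 1 θ * tp m θ) * conj (AT (rd Φ) 1 θ * tp m θ) =
      (∑ ν ∈ S, (av Φ m ν : ℂ) * eu (dz ν θ)) * conj (∑ ν ∈ S, (av Φ m ν : ℂ) * eu (dz ν θ)) := by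
    intro θ
    rw [prod_of m S hS θ]
  have i1 : ∫ θ in Set.Icc (0 : Fin r → ℝ) 1,
      (AT (rd Φ) 1 θ * tp m θ) * conj (AT (rd Φ) 1 θ * tp m θ) = ∑ ν ∈ S, (av Φ m ν : ℂ) ^ 2 := by
    simp only [e3]
    rw [parseval hT]
    refine Finset.sum_congr rfl fun ν hν => ?_
    rw [Finset.sum_eq_single ν]
    · rw [if_pos rfl, mul_one]
      have : conj (av Φ m ν : ℂ) = (av Φ m ν : ℂ) := map_intCast (starRingEnd ℂ) _
      rw [this]
      ring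
    · intro ν' _ hne
      rw [if_neg (fun h => hne h.symm), mul_zero]
    · intro h
      exact absurd hν h
  have i2 : ∀ w ∈ WF Φ, ∫ θ in Set.Icc (0 : Fin r → ℝ) 1, (AT (rd Φ) 1 θ * tp m₂ θ) *
      conj ((w.det : ℂ) * eu (dz (w *ᵥ 1) θ)) = (w.det : ℂ) * (av Φ m₂ (w *ᵥ 1) : ℂ) := by
    intro w _
    have e4 : ∀ θ : Fin r → ℝ, (AT (rd Φ) 1 θ * tp m₂ θ) * conj ((w.det : ℂ) * eu (dz (w *ᵥ 1) θ)) =
        (∑ ν ∈ sp Φ m₂, (av Φ m₂ ν : ℂ) * eu (dz ν θ)) *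
          conj (∑ ν ∈ {w *ᵥ 1}, (w.det : ℂ) * eu (dz ν θ)) := by
      intro θ
      rw [prod_sp, Finset.sum_singleton]
    simp only [e4]
    rw [parseval hT _ _ _ (fun _ => (w.det : ℂ))]
    simp only [Finset.sum_singleton]
    have e5 : conj (w.det : ℂ) = (w.det : ℂ) := map_intCast (starRingEnd ℂ) _
    rw [e5]
    by_cases h : w *ᵥ 1 ∈ sp Φ m₂
    · rw [Finset.sum_eq_single (w *ᵥ 1)]
      · rw [if_pos rfl]
        ring
      · intro ν _ hne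
        rw [if_neg hne, mul_zero]
      · intro h'
        exact absurd h h'
    · have h5 : av Φ m₂ (w *ᵥ 1) = 0 := by
        by_contra h6
        exact h (mem_sp m₂ _ h6)
      rw [h5]
      rw [Finset.sum_eq_zero]
      · simp
      · intro ν hν
        rw [if_neg, mul_zero]
        rintro rfl
        exact h hν
  have hcA : ∀ l : Fin r → ℤ, Continuous fun θ : Fin r → ℝ => eu (dz l θ) := fun ν =>
    cont_eu.comp (cont_dz ν)
  have hcT : Continuous fun θ : Fin r → ℝ => AT (rd Φ) 1 θ * tp m₂ θ := by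
    have : (fun θ : Fin r → ℝ => AT (rd Φ) 1 θ * tp m₂ θ) =
        fun θ => ∑ ν ∈ sp Φ m₂, (av Φ m₂ ν : ℂ) * eu (dz ν θ) := by
      funext θ
      exact prod_sp m₂ θ
    rw [this]
    exact continuous_finsetSum _ fun ν _ => continuous_const.mul (hcA ν)
  have i3 : ∫ θ in Set.Icc (0 : Fin r → ℝ) 1, (AT (rd Φ) 1 θ * tp m₂ θ) *
      conj (AT (rd Φ) 1 θ) = ((WF Φ).card : ℂ) * (av Φ m₂ 1 : ℂ) := by
    have e6 : ∀ θ : Fin r → ℝ, (AT (rd Φ) 1 θ * tp m₂ θ) * conj (AT (rd Φ) 1 θ) =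
        ∑ w ∈ WF Φ, (AT (rd Φ) 1 θ * tp m₂ θ) * conj ((w.det : ℂ) * eu (dz (w *ᵥ 1) θ)) := by
      intro θ
      rw [← Finset.mul_sum, ← map_sum, ← e1]
    simp only [e6]
    rw [integral_finsetSum]
    · rw [Finset.sum_congr rfl i2]
      have e7 : ∀ w ∈ WF Φ, (w.det : ℂ) * (av Φ m₂ (w *ᵥ 1) : ℂ) = (av Φ m₂ 1 : ℂ) := by
        intro w hwm
        rw [ha2 w hwm 1]
        rcases hw.det w hwm with h | h <;> rw [h] <;> simp
      rw [Finset.sum_congr rfl e7, Finset.sum_const, nsmul_eq_mul]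
    · intro w _
      refine Continuous.integrableOn_Icc ?_
      exact hcT.mul (Complex.continuous_conj.comp (continuous_const.mul (hcA _)))
  simp only [e2] at i3
  rw [i1] at i3
  have h7 : ((((WF Φ).card : ℤ) * av Φ m₂ 1 : ℤ) : ℂ) = ((∑ ν ∈ S, av Φ m ν ^ 2 : ℤ) : ℂ) := by
    push_cast
    exact i3.symm
  exact_mod_cast h7

end AVAL

theorem t_AVAL : M_AVAL := by
  intro hT r Φ B _ hw m
  refine ⟨⟨AVAL.sp Φ m, AVAL.mem_sp m, AVAL.prod_sp m⟩, fun hm => ⟨?_, ?_⟩⟩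
  · exact AVAL.av_anti hw m (AVAL.inv_coef hT hw m hm)
  · intro m₂ h2 S hS
    exact AVAL.third hT hw m hm m₂ h2 S hS

end

end LGR
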