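import Pool.Agent.LGR.StA

/-!
# Module AVGF: a basis of positive roots whose average is below the average of all positive roots
-/

set_option autoImplicit false

namespace LGR

open STZ MeasureTheory Matrix Filter

open scoped ComplexConjugate Matrix Real Topology

noncomputable section

namespace AVGF

variable {r : ℕ}

/-- the rows as real vectors -/
def rv (v : Fin r → ℤ) : Fin r → ℝ := fun i => (v i : ℝ)

theorem det_cast (M : Matrix (Fin r) (Fin r) ℤ) (h : M.det ≠ 0) :
    (Matrix.of fun i => rv (M i)).det ≠ 0 := by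
  have h1 : (Matrix.of fun i => rv (M i)) = M.map (Int.castRingHom ℝ) := by
    ext i j
    simp [rv]
  rw [h1, ← RingHom.mapMatrix_apply, ← RingHom.map_det]
  simpa using h

theorem det_cast' (M : Matrix (Fin r) (Fin r) ℤ) (h : (Matrix.of fun i => rv (M i)).det ≠ 0) :
    M.det ≠ 0 := by
  have h1 : (Matrix.of fun i => rv (M i)) = M.map (Int.castRingHom ℝ) := by
    ext i j
    simp [rv]
  rw [h1, ← RingHom.mapMatrix_apply, ← RingHom.map_det] at h
  intro h0
  apply h
  rw [h0]
  simp

/-- expansion in the rows of an invertible matrix -/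
theorem expand (M : Matrix (Fin r) (Fin r) ℝ) (h : M.det ≠ 0) (u : Fin r → ℝ) :
    ∃ c : Fin r → ℝ, u = ∑ k, c k • M k := by
  refine ⟨u ᵥ* M⁻¹, ?_⟩
  have h1 : (u ᵥ* M⁻¹) ᵥ* M = u := by
    rw [Matrix.vecMul_vecMul, Matrix.nonsing_inv_mul _ (isUnit_iff_ne_zero.2 h), Matrix.vecMul_one]
  rw [Matrix.vecMul_eq_sum] at h1
  exact h1.symm

/-- the exchange step -/
theorem exch {P : Finset ((Fin r → ℤ) × (Fin r → ℤ))} (y : {p // p ∈ P} → ℕ)
    (b : Fin r → {p // p ∈ P}) (hb : (Matrix.of fun i => (b i).1.1).det ≠ 0)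
    (hmin : ∀ b' : Fin r → {p // p ∈ P}, (Matrix.of fun i => (b' i).1.1).det ≠ 0 →
      ∑ i, y (b i) ≤ ∑ i, y (b' i))
    (s : ℕ) (p : {p // p ∈ P}) (hp : y p ≤ s) :
    rv p.1.1 ∈ Submodule.span ℝ
      (((Finset.univ.filter fun i => y (b i) ≤ s).image fun i => rv (b i).1.1 : Finset (Fin r → ℝ)) :
        Set (Fin r → ℝ)) := by
  classical
  set M : Matrix (Fin r) (Fin r) ℝ := Matrix.of fun i => rv (b i).1.1 with hM
  have hMd : M.det ≠ 0 := det_cast (Matrix.of fun i => (b i).1.1) hb
  obtain ⟨c, hc⟩ := expand M hMd (rv p.1.1)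
  have hz : ∀ k, s < y (b k) → c k = 0 := by
    intro k hk
    by_contra hck
    have h1 : (M.updateRow k (∑ l, c l • M l)).det = c k • M.det := Matrix.det_updateRow_sum M k c
    rw [← hc] at h1
    have h2 : (M.updateRow k (rv p.1.1)).det ≠ 0 := by
      rw [h1]
      exact smul_ne_zero hck hMd
    have h3 : (Matrix.of fun i => (Function.update b k p i).1.1).det ≠ 0 := by
      apply det_cast'
      have h4 : (Matrix.of fun i => rv ((Matrix.of fun i => (Function.update b k p i).1.1) i)) =
          M.updateRow k (rv p.1.1) := by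
        ext i j
        by_cases hik : i = k
        · subst hik
          simp [rv]
        · simp [rv, hM, Matrix.updateRow_ne hik, Function.update_of_ne hik]
      rw [h4]
      exact h2
    have h5 := hmin (Function.update b k p) h3
    have h6 : ∑ i, y (Function.update b k p i) + y (b k) = ∑ i, y (b i) + y p := by
      rw [← Finset.add_sum_erase Finset.univ _ (Finset.mem_univ k),
        ← Finset.add_sum_erase Finset.univ (fun i => y (b i)) (Finset.mem_univ k)]
      rw [Function.update_self]
      have h7 : ∑ i ∈ Finset.univ.erase k, y (Function.update b k p i) =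
          ∑ i ∈ Finset.univ.erase k, y (b i) := by
        refine Finset.sum_congr rfl fun i hi => ?_
        rw [Function.update_of_ne (Finset.ne_of_mem_erase hi)]
      rw [h7]
      ring
    omega
  rw [hc]
  refine Submodule.sum_mem _ fun k _ => ?_
  by_cases hk : y (b k) ≤ s
  · refine Submodule.smul_mem _ _ (Submodule.subset_span ?_)
    rw [Finset.mem_coe, Finset.mem_image]
    exact ⟨k, by simp [hk], rfl⟩
  · rw [hz k (not_le.1 hk), zero_smul]
    exact Submodule.zero_mem _

theorem layer {ι : Type*} [Fintype ι] (y : ι → ℕ) (N : ℕ) (hN : ∀ i, y i ≤ N) :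
    ∑ i, y i = ∑ s ∈ Finset.range N, (Finset.univ.filter fun i => s < y i).card := by
  have h1 : ∀ i, y i = ∑ s ∈ Finset.range N, if s < y i then 1 else 0 := by
    intro i
    rw [Finset.sum_ite, Finset.sum_const_zero, add_zero, Finset.sum_const, smul_eq_mul, mul_one]
    have h2 : (Finset.range N).filter (fun s => s < y i) = Finset.range (y i) := by
      ext s
      simp only [Finset.mem_filter, Finset.mem_range]
      have := hN i
      omega
    rw [h2, Finset.card_range]
  calc ∑ i, y i = ∑ i, ∑ s ∈ Finset.range N, (if s < y i then 1 else 0) :=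
        Finset.sum_congr rfl fun i _ => h1 i
    _ = ∑ s ∈ Finset.range N, ∑ i, (if s < y i then 1 else 0) := Finset.sum_comm
    _ = _ := by
        refine Finset.sum_congr rfl fun s _ => ?_
        rw [Finset.card_filter]

theorem compl_card {ι : Type*} [Fintype ι] (y : ι → ℕ) (s : ℕ) :
    (Finset.univ.filter fun i => y i ≤ s).card + (Finset.univ.filter fun i => s < y i).card =
      Fintype.card ι := by
  have h := Finset.card_filter_add_card_filter_not (s := (Finset.univ : Finset ι)) (fun i => y i ≤ s)
  rw [Finset.card_univ] at h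
  rw [← h]
  congr 2
  ext i
  simp

end AVGF

theorem t_AVGF : M_AVGF := by
  intro hU r Φ B hr hI hW y
  classical
  have hbase : ∀ i, (B i, (Pi.single i 1 : Fin r → ℤ)) ∈ pos Φ := by
    intro i
    unfold pos
    rw [Finset.mem_filter]
    refine ⟨hI.base i, fun j => ?_⟩
    by_cases h : j = i
    · subst h
      simp
    · simp [Pi.single_eq_of_ne h]
  obtain ⟨b, hb, hbmin⟩ := Finset.exists_min_image
    (Finset.univ.filter fun b : Fin r → {p // p ∈ pos Φ} =>
      (Matrix.of fun i => (b i).1.1).det ≠ 0) (fun b => ∑ i, y (b i))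
    ⟨fun i => ⟨_, hbase i⟩, by
      rw [Finset.mem_filter]
      exact ⟨Finset.mem_univ _, hI.det⟩⟩
  rw [Finset.mem_filter] at hb
  have hmin : ∀ b' : Fin r → {p // p ∈ pos Φ}, (Matrix.of fun i => (b' i).1.1).det ≠ 0 →
      ∑ i, y (b i) ≤ ∑ i, y (b' i) := fun b' hb' =>
    hbmin b' (by rw [Finset.mem_filter]; exact ⟨Finset.mem_univ _, hb'⟩)
  refine ⟨b, hb.2, ?_⟩
  have hs : ∀ s : ℕ, (pos Φ).card * (Finset.univ.filter fun i => s < y (b i)).card ≤
      r * (Finset.univ.filter fun p : {p // p ∈ pos Φ} => s < y p).card := by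
    intro s
    set T : RT r := (Finset.univ.filter fun p : {p // p ∈ pos Φ} => y p ≤ s).map
      (Function.Embedding.subtype _) with hT
    set F := Submodule.span ℝ
      (((Finset.univ.filter fun i => y (b i) ≤ s).image fun i => AVGF.rv (b i).1.1 :
        Finset (Fin r → ℝ)) : Set (Fin r → ℝ)) with hF
    have h1 := hU r Φ B hr hI hW F T (by
      intro p hp
      rw [hT, Finset.mem_map] at hp
      obtain ⟨q, _, rfl⟩ := hp
      exact q.2) (by
      intro p hp
      rw [hT, Finset.mem_map] at hp
      obtain ⟨q, hq, rfl⟩ := hp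
      rw [Finset.mem_filter] at hq
      exact AVGF.exch y b hb.2 hmin s q hq.2)
    have h2 : Module.finrank ℝ F ≤ (Finset.univ.filter fun i => y (b i) ≤ s).card :=
      le_trans (finrank_span_finset_le_card _) Finset.card_image_le
    have h3 : T.card = (Finset.univ.filter fun p : {p // p ∈ pos Φ} => y p ≤ s).card := by
      rw [hT, Finset.card_map]
    have h4 := AVGF.compl_card (fun i => y (b i)) s
    have h5 := AVGF.compl_card y s
    rw [Fintype.card_fin] at h4
    rw [Fintype.card_coe] at h5
    rw [h3] at h1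
    have h6 := Nat.mul_le_mul_left (pos Φ).card h2
    have h7 : (pos Φ).card * (Finset.univ.filter fun i => y (b i) ≤ s).card +
        (pos Φ).card * (Finset.univ.filter fun i => s < y (b i)).card = (pos Φ).card * r := by
      rw [← Nat.mul_add, h4]
    have h8 : r * (Finset.univ.filter fun p : {p // p ∈ pos Φ} => y p ≤ s).card +
        r * (Finset.univ.filter fun p : {p // p ∈ pos Φ} => s < y p).card = (pos Φ).card * r := by
      rw [← Nat.mul_add, h5, Nat.mul_comm]
    omega
  set N := ∑ p, y p with hN
  have hNy : ∀ p, y p ≤ N := fun p =>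
    Finset.single_le_sum (f := y) (fun _ _ => Nat.zero_le _) (Finset.mem_univ p)
  rw [AVGF.layer (fun i => y (b i)) N (fun i => hNy (b i))]
  have h9 : r * N = r * ∑ s ∈ Finset.range N,
      (Finset.univ.filter fun p : {p // p ∈ pos Φ} => s < y p).card := by
    rw [← AVGF.layer y N hNy]
  rw [h9, Finset.mul_sum, Finset.mul_sum]
  exact Finset.sum_le_sum fun s _ => hs s

end

end LGR
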