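import Pool.Agent.LGR.StR

/-!
# LGR: an antisymmetric family of integers with the smallest sum of squares
-/

namespace LGR

open STZ MeasureTheory Matrix Filter

open scoped ComplexConjugate Matrix Real Topology

noncomputable section

theorem t_AVON : M_AVON := by
  classical
  intro hCh hAv r Φ B hI hW m hanti S hS hsum
  obtain ⟨hc1, hc2⟩ := hCh r Φ B hI hW
  have hcard : 0 < (WF Φ).card := Finset.card_pos.2 ⟨1, hW.one⟩
  have hdsq : ∀ w ∈ WF Φ, w.det ^ 2 = 1 := by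
    intro w hw
    rcases hW.det w hw with h | h <;> rw [h] <;> norm_num
  -- some value is not zero
  obtain ⟨ν, hν⟩ : ∃ ν, av Φ m ν ≠ 0 := by
    by_contra hcon
    push Not at hcon
    have h1 : ∑ ν ∈ S, av Φ m ν ^ 2 = 0 := Finset.sum_eq_zero fun ν _ => by rw [hcon ν]; rfl
    rw [h1] at hsum
    have h2 : (WF Φ).card = 0 := by exact_mod_cast hsum.symm
    omega
  obtain ⟨w₀, hw₀, hpos⟩ := hc1 ν
  set l : Fin r → ℤ := w₀ *ᵥ ν with hl
  have hdne : ∀ w ∈ WF Φ, w.det ≠ 0 := by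
    intro w hw h
    have := hdsq w hw
    rw [h] at this
    norm_num at this
  have hlne : av Φ m l ≠ 0 := by
    rw [hl, hanti w₀ hw₀ ν]
    exact mul_ne_zero (hdne w₀ hw₀) hν
  have hreg : Reg l := by
    intro i
    by_contra hi
    have h0 : l i = 0 := by
      have := hpos i
      omega
    have hs : rf (B i, (Pi.single i 1 : Fin r → ℤ)) ∈ WF Φ := by
      rw [hW.mem]
      exact Submonoid.subset_closure ⟨_, hI.base i, rfl⟩
    have h1 : rf (B i, (Pi.single i 1 : Fin r → ℤ)) *ᵥ l = l := by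
      rw [hW.mv]
      change l - ((Pi.single i 1 : Fin r → ℤ) ⬝ᵥ l) • B i = l
      rw [single_dotProduct, one_mul, h0, zero_smul, sub_zero]
    have h2 := hanti _ hs l
    rw [h1, hW.dt _ (hI.base i)] at h2
    apply hlne
    linarith
  have hinj : ∀ w ∈ WF Φ, ∀ w' ∈ WF Φ, w *ᵥ l = w' *ᵥ l → w = w' := by
    intro w hw w' hw' h
    obtain ⟨u, hu, hu1, hu2⟩ := hW.inv w hw
    have h1 : (u * w') *ᵥ l = l := by
      rw [← Matrix.mulVec_mulVec, ← h, Matrix.mulVec_mulVec, hu1, Matrix.one_mulVec]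
    have h2 : u * w' = 1 := hc2 l hreg _ (hW.mul u hu w' hw') (by rw [h1]; exact hreg)
    calc w = w * (u * w') := by rw [h2, mul_one]
      _ = w' := by rw [← mul_assoc, hu2, one_mul]
  have hval : ∀ w ∈ WF Φ, av Φ m (w *ᵥ l) = w.det * av Φ m l := fun w hw => hanti w hw l
  have hvne : ∀ w ∈ WF Φ, av Φ m (w *ᵥ l) ≠ 0 := by
    intro w hw
    rw [hval w hw]
    exact mul_ne_zero (hdne w hw) hlne
  set T : Finset (Fin r → ℤ) := (WF Φ).image fun w => w *ᵥ l with hT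
  have hTS : T ⊆ S := by
    intro μ hμ
    obtain ⟨w, hw, rfl⟩ := Finset.mem_image.1 hμ
    exact hS _ (hvne w hw)
  have hsumT : ∀ g : (Fin r → ℤ) → ℤ, ∑ μ ∈ T, g μ = ∑ w ∈ WF Φ, g (w *ᵥ l) := by
    intro g
    exact Finset.sum_image fun w hw w' hw' h => hinj w hw w' hw' h
  have hsq : ∑ μ ∈ T, av Φ m μ ^ 2 = (WF Φ).card * av Φ m l ^ 2 := by
    rw [hsumT]
    rw [Finset.sum_congr rfl fun w hw => by rw [hval w hw, mul_pow, hdsq w hw, one_mul]]
    rw [Finset.sum_const, nsmul_eq_mul]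
  have hle : ∑ μ ∈ T, av Φ m μ ^ 2 ≤ ∑ μ ∈ S, av Φ m μ ^ 2 :=
    Finset.sum_le_sum_of_subset_of_nonneg hTS fun μ _ _ => sq_nonneg _
  have hcz : (0 : ℤ) < ((WF Φ).card : ℤ) := by exact_mod_cast hcard
  have hl1 : av Φ m l ^ 2 = 1 := by
    have h1 : 1 ≤ av Φ m l ^ 2 := by
      have := sq_nonneg (av Φ m l)
      have h2 : av Φ m l ^ 2 ≠ 0 := pow_ne_zero 2 hlne
      omega
    rw [hsq, hsum] at hle
    have h3 : av Φ m l ^ 2 ≤ 1 := by
      by_contra h4
      push Not at h4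
      nlinarith
    omega
  have hout : ∀ μ, μ ∉ T → av Φ m μ = 0 := by
    intro μ hμ
    by_contra hne
    have hμS : μ ∈ S := hS μ hne
    have h1 : ∑ μ ∈ T, av Φ m μ ^ 2 + av Φ m μ ^ 2 ≤ ∑ μ ∈ S, av Φ m μ ^ 2 := by
      have h2 : ∑ μ' ∈ insert μ T, av Φ m μ' ^ 2 ≤ ∑ μ ∈ S, av Φ m μ ^ 2 :=
        Finset.sum_le_sum_of_subset_of_nonneg (Finset.insert_subset hμS hTS)
          fun μ _ _ => sq_nonneg _
      rw [Finset.sum_insert hμ] at h2
      linarith
    rw [hsq, hsum, hl1, mul_one] at h1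
    have h3 : 0 < av Φ m μ ^ 2 := by positivity
    linarith
  refine ⟨l, hreg, av Φ m l, ?_, rfl, ?_⟩
  · have h1 : (av Φ m l - 1) * (av Φ m l + 1) = 0 := by linear_combination hl1
    rcases mul_eq_zero.1 h1 with h | h
    · left; linarith
    · right; linarith
  · intro θ
    obtain ⟨⟨S', hS', hAT⟩, _⟩ := hAv r Φ B hI hW m
    rw [hAT θ]
    have hTS' : T ⊆ S' := by
      intro μ hμ
      obtain ⟨w, hw, rfl⟩ := Finset.mem_image.1 hμ
      exact hS' _ (hvne w hw)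
    have h1 : ∑ ν ∈ S', (av Φ m ν : ℂ) * eu (dz ν θ) = ∑ ν ∈ T, (av Φ m ν : ℂ) * eu (dz ν θ) := by
      symm
      refine Finset.sum_subset hTS' fun μ _ hμ => ?_
      rw [hout μ hμ, Int.cast_zero, zero_mul]
    rw [h1, hT, Finset.sum_image fun w hw w' hw' h => hinj w hw w' hw' h]
    rw [AT, Finset.mul_sum]
    refine Finset.sum_congr rfl fun w hw => ?_
    rw [hval w hw]
    push_cast
    ring

end

end LGR
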