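import Pool.Agent.LGR.StV

/-!
# BALL: a lower bound for the moments of a function which is `1` at the neutral element
-/

namespace LGR

open STZ MeasureTheory Matrix Filter

open scoped ComplexConjugate Matrix Real Topology

noncomputable section

namespace BALL

variable {N : ℕ} {H : Subgroup (SU N)}

/-- the distance of an element to `1` -/
def dd (g : H) : ℝ := ∑ i, ∑ j, ‖g.1.1 i j - (1 : Matrix (Fin N) (Fin N) ℂ) i j‖

/-- the cell of an element -/
def cell (K : ℕ) (g : H) : Fin N × Fin N → ℤ × ℤ := fun p =>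
  (⌊(K : ℝ) * (g.1.1 p.1 p.2).re⌋, ⌊(K : ℝ) * (g.1.1 p.1 p.2).im⌋)

/-- the set of cells -/
def cells (N K : ℕ) : Finset (Fin N × Fin N → ℤ × ℤ) :=
  Fintype.piFinset fun _ => Finset.Icc (-(K : ℤ)) K ×ˢ Finset.Icc (-(K : ℤ)) K

lemma floor_mem (K : ℕ) {x : ℝ} (hx : |x| ≤ 1) : ⌊(K : ℝ) * x⌋ ∈ Finset.Icc (-(K : ℤ)) K := by
  obtain ⟨h1, h2⟩ := abs_le.1 hx
  have hK : (0 : ℝ) ≤ K := Nat.cast_nonneg _
  rw [Finset.mem_Icc]
  constructor
  · rw [Int.le_floor]
    push_cast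
    nlinarith
  · have h3 : ((⌊(K : ℝ) * x⌋ : ℤ) : ℝ) ≤ ((K : ℤ) : ℝ) := by
      refine (Int.floor_le _).trans ?_
      push_cast
      nlinarith
    exact_mod_cast h3

lemma cell_mem (K : ℕ) (g : H) : cell K g ∈ cells N K := by
  rw [cells, Fintype.mem_piFinset]
  intro p
  have h1 : ‖g.1.1 p.1 p.2‖ ≤ 1 := norm_entry_le g.1 p.1 p.2
  exact Finset.mk_mem_product (floor_mem K ((Complex.abs_re_le_norm _).trans h1))
    (floor_mem K ((Complex.abs_im_le_norm _).trans h1))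

lemma card_cells (N K : ℕ) : (cells N K).card = ((2 * K + 1) ^ 2) ^ (N * N) := by
  rw [cells, Fintype.card_piFinset]
  simp only [Finset.card_product, Int.card_Icc, Finset.prod_const, Finset.card_univ, Fintype.card_prod, Fintype.card_fin]
  have h1 : ((K : ℤ) + 1 - -(K : ℤ)).toNat = 2 * K + 1 := by omega
  rw [h1, sq]

lemma floor_close {K : ℕ} (hK : 1 ≤ K) {x y : ℝ} (h : ⌊(K : ℝ) * x⌋ = ⌊(K : ℝ) * y⌋) : |x - y| ≤ 1 / K := by
  have h1 : |(K : ℝ) * x - K * y| < 1 := Int.abs_sub_lt_one_of_floor_eq_floor h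
  have hK0 : (0 : ℝ) < K := by exact_mod_cast hK
  rw [← mul_sub, abs_mul, abs_of_pos hK0] at h1
  rw [le_div_iff₀ hK0, mul_comm]
  exact h1.le

lemma entry_close {K : ℕ} (hK : 1 ≤ K) {g h : H} (hc : cell K g = cell K h) (i j : Fin N) :
    ‖g.1.1 i j - h.1.1 i j‖ ≤ 2 / K := by
  have h1 := congrFun hc (i, j)
  simp only [cell, Prod.mk.injEq] at h1
  have h2 := floor_close hK h1.1
  have h3 := floor_close hK h1.2
  refine (Complex.norm_le_abs_re_add_abs_im _).trans ?_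
  rw [Complex.sub_re, Complex.sub_im]
  have h4 : (2 : ℝ) / K = 1 / K + 1 / K := by ring
  rw [h4]
  exact add_le_add h2 h3

lemma dd_close {K : ℕ} (hK : 1 ≤ K) {g h : H} (hc : cell K g = cell K h) :
    dd (h⁻¹ * g) ≤ (N : ℝ) ^ 3 * (2 / K) := by
  have hh : (star h.1.1) * h.1.1 = 1 := by
    have := (Matrix.mem_specialUnitaryGroup_iff.1 h.1.2).1
    exact (Matrix.mem_unitaryGroup_iff'.1 this)
  have h1 : ∀ i j, ((h⁻¹ * g : H)).1.1 i j - (1 : Matrix (Fin N) (Fin N) ℂ) i j =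
      ∑ k, star (h.1.1 k i) * (g.1.1 k j - h.1.1 k j) := by
    intro i j
    have e1 : ((h⁻¹ * g : H)).1.1 = star h.1.1 * g.1.1 := rfl
    rw [e1, ← hh, Matrix.mul_apply, Matrix.mul_apply, ← Finset.sum_sub_distrib]
    refine Finset.sum_congr rfl fun k _ => ?_
    rw [Matrix.star_apply]
    ring
  have h2 : ∀ i j, ‖((h⁻¹ * g : H)).1.1 i j - (1 : Matrix (Fin N) (Fin N) ℂ) i j‖ ≤ N * (2 / K) := by
    intro i j
    rw [h1]
    refine (norm_sum_le _ _).trans ?_
    have h3 : ∀ k ∈ (Finset.univ : Finset (Fin N)), ‖star (h.1.1 k i) * (g.1.1 k j - h.1.1 k j)‖ ≤ 2 / K := by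
      intro k _
      rw [norm_mul, norm_star]
      have h4 : ‖h.1.1 k i‖ ≤ 1 := norm_entry_le h.1 k i
      have h5 := entry_close hK hc k j
      calc ‖h.1.1 k i‖ * ‖g.1.1 k j - h.1.1 k j‖ ≤ 1 * (2 / K) := by gcongr
        _ = 2 / K := one_mul _
    refine (Finset.sum_le_card_nsmul _ _ _ h3).trans (le_of_eq ?_)
    rw [Finset.card_univ, Fintype.card_fin, nsmul_eq_mul]
  unfold dd
  refine (Finset.sum_le_sum fun i _ => Finset.sum_le_sum fun j _ => h2 i j).trans (le_of_eq ?_)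
  simp only [Finset.sum_const, Finset.card_univ, Fintype.card_fin, nsmul_eq_mul]
  ring

/-- the measure of a small ball -/
lemma ball_measure (μ : Measure H) [IsProbabilityMeasure μ] [μ.IsMulLeftInvariant] {K : ℕ} (hK : 1 ≤ K) :
    1 / (((2 * K + 1 : ℕ) : ℝ) ^ (2 * (N * N))) ≤ μ.real {g : H | dd g ≤ (N : ℝ) ^ 3 * (2 / K)} := by
  have h1 : (1 : ℝ) ≤ ∑ c ∈ cells N K, μ.real {g : H | cell K g = c} := by
    have h2 : (⋃ c ∈ cells N K, {g : H | cell K g = c}) = Set.univ := by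
      ext g
      simp only [Set.mem_iUnion, Set.mem_ofPred_eq, Set.mem_univ, iff_true]
      exact ⟨cell K g, cell_mem K g, rfl⟩
    have h3 := measureReal_biUnion_finset_le (μ := μ) (cells N K) (fun c => {g : H | cell K g = c})
    rw [h2, probReal_univ] at h3
    exact h3
  have hpos : (0 : ℝ) < ((2 * K + 1 : ℕ) : ℝ) ^ (2 * (N * N)) := by positivity
  have hcard : ((cells N K).card : ℝ) = ((2 * K + 1 : ℕ) : ℝ) ^ (2 * (N * N)) := by
    rw [card_cells]
    push_cast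
    rw [← pow_mul]
  obtain ⟨c, hc, hc'⟩ : ∃ c ∈ cells N K, 1 / (((2 * K + 1 : ℕ) : ℝ) ^ (2 * (N * N))) ≤ μ.real {g : H | cell K g = c} := by
    by_contra hcon
    push Not at hcon
    have hne : (cells N K).Nonempty := ⟨cell K 1, cell_mem K (1 : H)⟩
    have h4 := Finset.sum_lt_sum_of_nonempty hne hcon
    rw [Finset.sum_const, nsmul_eq_mul, hcard] at h4
    have h5 : ((2 * K + 1 : ℕ) : ℝ) ^ (2 * (N * N)) * (1 / (((2 * K + 1 : ℕ) : ℝ) ^ (2 * (N * N)))) = 1 := by
      field_simp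
    rw [h5] at h4
    linarith
  have hne : {g : H | cell K g = c}.Nonempty := by
    by_contra hcon
    rw [Set.not_nonempty_iff_eq_empty] at hcon
    rw [hcon, measureReal_empty] at hc'
    have : 0 < 1 / (((2 * K + 1 : ℕ) : ℝ) ^ (2 * (N * N))) := by positivity
    linarith
  obtain ⟨h, hh⟩ := hne
  refine hc'.trans ?_
  have h6 : {g : H | cell K g = c} ⊆ (fun g => h⁻¹ * g) ⁻¹' {g : H | dd g ≤ (N : ℝ) ^ 3 * (2 / K)} := by
    intro g hg
    exact dd_close hK (hg.trans hh.symm)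
  have h7 : μ.real ((fun g => h⁻¹ * g) ⁻¹' {g : H | dd g ≤ (N : ℝ) ^ 3 * (2 / K)}) =
      μ.real {g : H | dd g ≤ (N : ℝ) ^ 3 * (2 / K)} := by
    rw [measureReal_def, measure_preimage_mul, measureReal_def]
  rw [← h7]
  exact measureReal_mono h6

lemma cont_dd : Continuous (dd (H := H)) := by
  unfold dd
  refine continuous_finsetSum _ fun i _ => continuous_finsetSum _ fun j _ => ?_
  exact (((continuous_entry i j).comp continuous_subtype_val).sub continuous_const).norm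

end BALL

open BALL in
theorem t_BALL : S_BALL := by
  intro N H hcl μ _ _ F L hF hL
  have hcs : CompactSpace H := isCompact_iff_compactSpace.1 hcl.isCompact
  have hL1 : 0 < max L 1 := lt_of_lt_of_le one_pos (le_max_right _ _)
  set L' : ℝ := max L 1 with hL'
  set A : ℝ := 4 * (N : ℝ) ^ 3 * L' with hA
  have hA0 : 0 ≤ A := by positivity
  set B : ℝ := 2 * (A + 2) + 1 with hB
  have hB0 : 0 < B := by positivity
  refine ⟨1 / 2 * (1 / B ^ (2 * (N * N) + 1)), (2 * (N * N) + 1 : ℕ), by positivity, by positivity, fun q hq => ?_⟩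
  have hq0 : 0 < q := by linarith
  set K : ℕ := ⌈A * q⌉₊ + 1 with hK
  have hK1 : 1 ≤ K := Nat.le_add_left _ _
  have hK0 : (0 : ℝ) < K := by exact_mod_cast hK1
  have hKA : A * q ≤ K := by
    have h1 := Nat.le_ceil (A * q)
    rw [hK]
    push_cast
    linarith
  have hKB : ((2 * K + 1 : ℕ) : ℝ) ≤ B * q := by
    have h1 : (⌈A * q⌉₊ : ℝ) < A * q + 1 := Nat.ceil_lt_add_one (by positivity)
    rw [hK]
    push_cast
    rw [hB]
    nlinarith
  have hball := ball_measure μ hK1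
  set S : Set H := {g : H | dd g ≤ (N : ℝ) ^ 3 * (2 / K)} with hS
  have hSm : MeasurableSet S := (isClosed_le cont_dd continuous_const).measurableSet
  have hFS : ∀ g ∈ S, (1 : ℝ) / 2 ≤ ‖F g‖ ^ q := by
    intro g hg
    have h1 : ‖F g - 1‖ ≤ 1 / (2 * q) := by
      have h2 : ‖F g - 1‖ ≤ L * dd g := hL g
      have h3 : 0 ≤ dd g := Finset.sum_nonneg fun i _ => Finset.sum_nonneg fun j _ => norm_nonneg _
      have h4 : L * dd g ≤ L' * dd g := mul_le_mul_of_nonneg_right (le_max_left _ _) h3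
      have h5 : L' * dd g ≤ L' * ((N : ℝ) ^ 3 * (2 / K)) := mul_le_mul_of_nonneg_left hg hL1.le
      have h6 : L' * ((N : ℝ) ^ 3 * (2 / K)) = A / (2 * K) := by
        rw [hA]
        field_simp
        ring
      have h7 : A / (2 * K) ≤ 1 / (2 * q) := by
        rw [div_le_div_iff₀ (by positivity) (by positivity)]
        nlinarith
      linarith
    have h2 : 1 - 1 / (2 * q) ≤ ‖F g‖ := by
      have h3 : ‖(1 : ℂ)‖ ≤ ‖F g‖ + ‖1 - F g‖ := by
        calc ‖(1 : ℂ)‖ = ‖F g + (1 - F g)‖ := by congr 1; ring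
          _ ≤ _ := norm_add_le _ _
      rw [norm_one, norm_sub_rev] at h3
      linarith
    have h3 : (0 : ℝ) ≤ 1 - 1 / (2 * q) := by
      have : 1 / (2 * q) ≤ 1 := by
        rw [div_le_one (by positivity)]
        linarith
      linarith
    have h4 : 1 + q * (-(1 / (2 * q))) ≤ (1 + -(1 / (2 * q))) ^ q :=
      one_add_mul_self_le_rpow_one_add (by linarith) hq
    have h5 : 1 + q * (-(1 / (2 * q))) = 1 / 2 := by
      field_simp
      ring
    rw [h5, ← sub_eq_add_neg] at h4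
    exact h4.trans (Real.rpow_le_rpow h3 h2 hq0.le)
  have hint : Integrable (fun g => ‖F g‖ ^ q) μ := by
    have hc : Continuous fun g => ‖F g‖ ^ q := hF.norm.rpow_const fun _ => Or.inr hq0.le
    obtain ⟨C, hC⟩ := (isCompact_univ (X := H)).exists_bound_of_continuousOn hc.continuousOn
    exact Integrable.of_bound hc.aestronglyMeasurable C (Filter.Eventually.of_forall fun g => hC g (Set.mem_univ _))
  have h8 : 1 / 2 * μ.real S ≤ ∫ g, ‖F g‖ ^ q ∂μ := by
    have h9 : ∫ g in S, ‖F g‖ ^ q ∂μ ≤ ∫ g, ‖F g‖ ^ q ∂μ :=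
      setIntegral_le_integral hint (Filter.Eventually.of_forall fun g => by positivity)
    have h10 : ∫ _ in S, (1 / 2 : ℝ) ∂μ ≤ ∫ g in S, ‖F g‖ ^ q ∂μ := by
      refine setIntegral_mono_on ?_ hint.integrableOn hSm hFS
      exact integrableOn_const (measure_ne_top μ S)
    rw [setIntegral_const, smul_eq_mul, mul_comm] at h10
    exact h10.trans h9
  refine le_trans ?_ h8
  rw [mul_assoc]
  refine mul_le_mul_of_nonneg_left ?_ (by norm_num)
  refine le_trans ?_ hball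
  have h11 : q ^ (-((2 * (N * N) + 1 : ℕ) : ℝ)) = 1 / q ^ (2 * (N * N) + 1) := by
    rw [Real.rpow_neg hq0.le, Real.rpow_natCast, one_div]
  rw [h11, div_mul_div_comm, one_mul, ← mul_pow]
  refine one_div_le_one_div_of_le (by positivity) ?_
  have hBq : 1 ≤ B * q := by nlinarith
  calc ((2 * K + 1 : ℕ) : ℝ) ^ (2 * (N * N)) ≤ (B * q) ^ (2 * (N * N)) := pow_le_pow_left₀ (by positivity) hKB _
    _ ≤ (B * q) ^ (2 * (N * N) + 1) := pow_le_pow_right₀ hBq (Nat.le_succ _)

end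

end LGR
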