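import Pool.Agent.LGR.StL

/-!
# LGR, module CART: the Cartan subalgebra of the complexification
-/

namespace LGR

open STZ MeasureTheory Matrix Filter

open scoped ComplexConjugate Matrix Real Topology

noncomputable section

attribute [local instance 100] LieRing.ofAssociativeRing

namespace CART

variable {N : ℕ} {H : Subgroup (SU N)} {T : Submodule ℝ (Matrix (Fin N) (Fin N) ℂ)}

theorem sub (h : LIF H) {X Y : Matrix (Fin N) (Fin N) ℂ} (hX : X ∈ lie H) (hY : Y ∈ lie H) :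
    X - Y ∈ lie H := by
  have h1 := h.add X hX _ (h.smul (-1) Y hY)
  have h2 : X + ((-1 : ℝ) : ℂ) • Y = X - Y := by
    push_cast
    rw [neg_smul, one_smul, sub_eq_add_neg]
  rwa [h2] at h1

theorem ct (h : LIF H) {X : Matrix (Fin N) (Fin N) ℂ} (hX : X ∈ lie H) : Xᴴ = -X := (h.su X hX).1

theorem tsmul {X : Matrix (Fin N) (Fin N) ℂ} (hX : X ∈ T) (s : ℝ) : (s : ℂ) • X ∈ T := by
  have h1 := T.smul_mem s hX
  have h2 : s • X = (s : ℂ) • X := by
    ext i j
    simp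
  rwa [h2] at h1

/-- skew-Hermitian matrices with `A + i B = 0` vanish -/
theorem zer {A B : Matrix (Fin N) (Fin N) ℂ} (hA : Aᴴ = -A) (hB : Bᴴ = -B)
    (h : A + Complex.I • B = 0) : A = 0 ∧ B = 0 := by
  have h1 : (A + Complex.I • B)ᴴ = 0 := by rw [h, conjTranspose_zero]
  rw [conjTranspose_add, conjTranspose_smul, hA, hB, Complex.star_def, Complex.conj_I, neg_smul,
    smul_neg, neg_neg] at h1
  have hI : Complex.I • B = 0 := by
    ext i j
    have e1 := congrFun (congrFun h i) j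
    have e2 := congrFun (congrFun h1 i) j
    simp only [Matrix.add_apply, Matrix.smul_apply, Matrix.neg_apply, Matrix.zero_apply,
      smul_eq_mul] at e1 e2 ⊢
    linear_combination (1 / 2) * e1 + (1 / 2) * e2
  have hA0 : A = 0 := by
    rw [hI, add_zero] at h
    exact h
  refine ⟨hA0, ?_⟩
  have h3 : Complex.I • (Complex.I • B) = 0 := by rw [hI, smul_zero]
  rw [smul_smul, Complex.I_mul_I, neg_smul, one_smul, neg_eq_zero] at h3
  exact h3

theorem uniq {A B A' B' : Matrix (Fin N) (Fin N) ℂ} (hA : Aᴴ = -A) (hB : Bᴴ = -B)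
    (hA' : A'ᴴ = -A') (hB' : B'ᴴ = -B')
    (h : A + Complex.I • B = A' + Complex.I • B') : A = A' ∧ B = B' := by
  have h1 : (A - A') + Complex.I • (B - B') = 0 := by
    rw [smul_sub]
    have e : A - A' + (Complex.I • B - Complex.I • B') =
      (A + Complex.I • B) - (A' + Complex.I • B') := by abel
    rw [e, h, sub_self]
  have h2 := zer (A := A - A') (B := B - B') (by rw [conjTranspose_sub, hA, hA']; abel)
    (by rw [conjTranspose_sub, hB, hB']; abel) h1
  exact ⟨sub_eq_zero.1 h2.1, sub_eq_zero.1 h2.2⟩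

open scoped ComplexOrder in
/-- `[X, [X, A]] = 0` gives `[X, A] = 0` -/
theorem adz {X A : Matrix (Fin N) (Fin N) ℂ} (hX : Xᴴ = -X) (hA : Aᴴ = -A)
    (h : X * (X * A - A * X) = (X * A - A * X) * X) : X * A = A * X := by
  have h1 : (X * A - A * X)ᴴ = -(X * A - A * X) := by
    rw [conjTranspose_sub, conjTranspose_mul, conjTranspose_mul, hX, hA]
    noncomm_ring
  have h2 : ((X * A - A * X)ᴴ * (X * A - A * X)).trace = 0 := by
    rw [h1, neg_mul, Matrix.trace_neg, neg_eq_zero]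
    have e1 : (X * A - A * X) * (X * A - A * X) =
        ((X * A - A * X) * X) * A - (X * A - A * X) * (A * X) := by noncomm_ring
    rw [e1, ← h, Matrix.trace_sub]
    have e2 : ((X * A - A * X) * (A * X)).trace = (X * (X * A - A * X) * A).trace := by
      rw [← mul_assoc, Matrix.trace_mul_comm, ← mul_assoc]
    rw [e2, sub_self]
  have h3 := (Matrix.trace_conjTranspose_mul_self_eq_zero_iff).1 h2
  exact sub_eq_zero.1 h3

/-- `T + i T` -/
def cs (hT : MaxAb H T) : LieSubalgebra ℂ (LC H) where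
  carrier := {Z | ∃ X ∈ T, ∃ Y ∈ T, (Z : Matrix (Fin N) (Fin N) ℂ) = X + Complex.I • Y}
  add_mem' := by
    rintro Z Z' ⟨X, hX, Y, hY, h1⟩ ⟨X', hX', Y', hY', h2⟩
    refine ⟨X + X', T.add_mem hX hX', Y + Y', T.add_mem hY hY', ?_⟩
    have e : ((Z + Z' : LC H) : Matrix (Fin N) (Fin N) ℂ) = Z.1 + Z'.1 := rfl
    rw [e, h1, h2, smul_add]
    abel
  zero_mem' := ⟨0, T.zero_mem, 0, T.zero_mem, by simp⟩
  smul_mem' := by
    rintro c Z ⟨X, hX, Y, hY, h1⟩
    refine ⟨((c.re : ℝ) : ℂ) • X - ((c.im : ℝ) : ℂ) • Y,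
      T.sub_mem (tsmul hX _) (tsmul hY _),
      ((c.im : ℝ) : ℂ) • X + ((c.re : ℝ) : ℂ) • Y, T.add_mem (tsmul hX _) (tsmul hY _), ?_⟩
    have e : ((c • Z : LC H) : Matrix (Fin N) (Fin N) ℂ) = c • Z.1 := rfl
    rw [e, h1]
    have h1 : c = (c.re : ℂ) + (c.im : ℂ) * Complex.I := (Complex.re_add_im c).symm
    have h2 : Complex.I * Complex.I = -1 := Complex.I_mul_I
    ext i j
    simp only [Matrix.smul_apply, Matrix.add_apply, Matrix.sub_apply, smul_eq_mul]
    rw [h1]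
    simp only [Complex.add_re, Complex.add_im, Complex.ofReal_re, Complex.ofReal_im, Complex.mul_re,
      Complex.mul_im, Complex.I_re, Complex.I_im]
    push_cast
    linear_combination ((c.im : ℂ) * Y i j) * h2
  lie_mem' := by
    rintro Z Z' ⟨X, hX, Y, hY, h1⟩ ⟨X', hX', Y', hY', h2⟩
    refine ⟨0, T.zero_mem, 0, T.zero_mem, ?_⟩
    have e : ((⁅Z, Z'⁆ : LC H) : Matrix (Fin N) (Fin N) ℂ) = Z.1 * Z'.1 - Z'.1 * Z.1 := rfl
    rw [e, h1, h2]
    simp only [mul_add, add_mul, Matrix.smul_mul, Matrix.mul_smul, smul_smul,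
      hT.comm X hX X' hX', hT.comm X hX Y' hY', hT.comm Y hY X' hX', hT.comm Y hY Y' hY']
    rw [smul_zero, add_zero]
    abel

theorem mem_cs (hT : MaxAb H T) (Z : LC H) : Z ∈ cs hT ↔
    ∃ X ∈ T, ∃ Y ∈ T, (Z : Matrix (Fin N) (Fin N) ℂ) = X + Complex.I • Y := Iff.rfl

theorem nil (hT : MaxAb H T) : LieRing.IsNilpotent (cs hT) := by
  have : IsLieAbelian (cs hT) := by
    refine ⟨fun Z W => ?_⟩
    obtain ⟨Z, X, hX, Y, hY, h1⟩ := Z
    obtain ⟨Z', X', hX', Y', hY', h2⟩ := W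
    apply Subtype.ext
    apply Subtype.ext
    show Z.1 * Z'.1 - Z'.1 * Z.1 = 0
    rw [h1, h2]
    simp only [mul_add, add_mul, Matrix.smul_mul, Matrix.mul_smul, smul_smul,
      hT.comm X hX X' hX', hT.comm X hX Y' hY', hT.comm Y hY X' hX', hT.comm Y hY Y' hY']
    abel
  infer_instance

theorem norm (h : LIF H) (hL : LCF H) (hT : MaxAb H T) : (cs hT).normalizer = cs hT := by
  apply le_antisymm _ (LieSubalgebra.le_normalizer _)
  intro Z hZ
  rw [LieSubalgebra.mem_normalizer_iff'] at hZ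
  obtain ⟨A, hA, B, hB, h1⟩ := (hL.mem Z.1).1 Z.2
  have key : ∀ X ∈ T, X * A = A * X ∧ X * B = B * X := by
    intro X hX
    have hXl := hT.sub X hX
    have hXC : X ∈ LC H := (hL.mem X).2 ⟨X, hXl, 0, h.zero, by simp⟩
    have h2 : (⟨X, hXC⟩ : LC H) ∈ cs hT := ⟨X, hX, 0, T.zero_mem, by simp⟩
    obtain ⟨P, hP, Q, hQ, h3⟩ := hZ _ h2
    have e : ((⁅(⟨X, hXC⟩ : LC H), Z⁆ : LC H) : Matrix (Fin N) (Fin N) ℂ) = X * Z.1 - Z.1 * X := rfl
    rw [e, h1] at h3
    have e2 : X * (A + Complex.I • B) - (A + Complex.I • B) * X =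
        (X * A - A * X) + Complex.I • (X * B - B * X) := by
      rw [mul_add, add_mul, Matrix.smul_mul, Matrix.mul_smul, smul_sub]
      abel
    rw [e2] at h3
    obtain ⟨h4, h5⟩ := uniq (ct h (h.br X hXl A hA)) (ct h (h.br X hXl B hB))
      (ct h (hT.sub P hP)) (ct h (hT.sub Q hQ)) h3
    refine ⟨adz (ct h hXl) (ct h hA) ?_, adz (ct h hXl) (ct h hB) ?_⟩
    · rw [h4]
      exact hT.comm X hX P hP
    · rw [h5]
      exact hT.comm X hX Q hQ
  exact ⟨A, hT.max A hA fun Y hY => (key Y hY).1.symm, B, hT.max B hB fun Y hY => (key Y hY).2.symm, h1⟩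

theorem rank (h : LIF H) (hL : LCF H) (hT : MaxAb H T) :
    Module.finrank ℂ (cs hT) = Module.finrank ℝ T := by
  have : Module.Finite ℝ T := inferInstance
  let b := Module.finBasis ℝ T
  have hbC : ∀ i, (b i).1 ∈ LC H := fun i =>
    (hL.mem _).2 ⟨(b i).1, hT.sub _ (b i).2, 0, h.zero, by simp⟩
  let v : Fin (Module.finrank ℝ T) → cs hT := fun i =>
    ⟨⟨(b i).1, hbC i⟩, ⟨(b i).1, (b i).2, 0, T.zero_mem, by simp⟩⟩
  have hv : ∀ c : Fin (Module.finrank ℝ T) → ℂ,
      (((∑ i, c i • v i : cs hT) : LC H) : Matrix (Fin N) (Fin N) ℂ) = ∑ i, c i • (b i).1 := by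
    intro c
    have h1 : (((∑ i, c i • v i : cs hT) : LC H) : Matrix (Fin N) (Fin N) ℂ) =
        ((LC H).incl.toLinearMap.comp (cs hT).incl.toLinearMap) (∑ i, c i • v i) := rfl
    rw [h1, map_sum]
    refine Finset.sum_congr rfl fun i _ => ?_
    rw [map_smul]
    rfl
  have hT1 : ∀ x : Fin (Module.finrank ℝ T) → ℝ,
      ∑ i, ((x i : ℝ) : ℂ) • (b i).1 = ((∑ i, x i • b i : T) : Matrix (Fin N) (Fin N) ℂ) := by
    intro x
    have h1 : ((∑ i, x i • b i : T) : Matrix (Fin N) (Fin N) ℂ) = T.subtype (∑ i, x i • b i) := rfl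
    rw [h1, map_sum]
    refine Finset.sum_congr rfl fun i _ => ?_
    rw [map_smul]
    ext i j
    simp
  have hdec : ∀ c : Fin (Module.finrank ℝ T) → ℂ, ∑ i, c i • (b i).1 =
      ((∑ i, (c i).re • b i : T) : Matrix (Fin N) (Fin N) ℂ) +
        Complex.I • ((∑ i, (c i).im • b i : T) : Matrix (Fin N) (Fin N) ℂ) := by
    intro c
    rw [← hT1, ← hT1, Finset.smul_sum, ← Finset.sum_add_distrib]
    refine Finset.sum_congr rfl fun i _ => ?_
    rw [smul_smul, ← add_smul, mul_comm Complex.I, Complex.re_add_im]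
  have li : LinearIndependent ℂ v := by
    rw [Fintype.linearIndependent_iff]
    intro c hc
    have h1 := hv c
    rw [hc, hdec] at h1
    have h2 := zer (ct h (hT.sub _ (∑ i, (c i).re • b i : T).2))
      (ct h (hT.sub _ (∑ i, (c i).im • b i : T).2)) h1.symm
    have h3 : (∑ i, (c i).re • b i : T) = 0 := Subtype.ext h2.1
    have h4 : (∑ i, (c i).im • b i : T) = 0 := Subtype.ext h2.2
    have h5 := (Fintype.linearIndependent_iff.1 b.linearIndependent) _ h3
    have h6 := (Fintype.linearIndependent_iff.1 b.linearIndependent) _ h4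
    intro i
    exact Complex.ext (h5 i) (h6 i)
  have sp : ⊤ ≤ Submodule.span ℂ (Set.range v) := by
    rintro Z -
    obtain ⟨X, hX, Y, hY, h1⟩ := Z.2
    have h2 : Z = ∑ i, (((b.repr ⟨X, hX⟩ i : ℝ) : ℂ) + (b.repr ⟨Y, hY⟩ i : ℝ) * Complex.I) • v i := by
      apply Subtype.ext
      apply Subtype.ext
      rw [hv, hdec, h1]
      have e1 : ∀ i, (((b.repr ⟨X, hX⟩ i : ℝ) : ℂ) + (b.repr ⟨Y, hY⟩ i : ℝ) * Complex.I).re =
        b.repr ⟨X, hX⟩ i := fun i => by simp
      have e2 : ∀ i, (((b.repr ⟨X, hX⟩ i : ℝ) : ℂ) + (b.repr ⟨Y, hY⟩ i : ℝ) * Complex.I).im =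
        b.repr ⟨Y, hY⟩ i := fun i => by simp
      simp only [e1, e2, b.sum_repr]
    rw [h2]
    exact Submodule.sum_mem _ fun i _ => Submodule.smul_mem _ _ (Submodule.subset_span ⟨i, rfl⟩)
  have h7 := Module.finrank_eq_card_basis (Module.Basis.mk li sp)
  rw [h7, Fintype.card_fin]

end CART

theorem t_CART : M_CART := by
  intro hl hc N H T hH hT
  have h := hl N H hH
  have hL := hc N H hH
  exact ⟨CART.cs hT, CART.mem_cs hT, ⟨CART.nil hT, CART.norm h hL hT⟩, CART.rank h hL hT⟩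

end

end LGR
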