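import Pool.Agent.LGR.StR

/-!
# Simple compact Lie groups, block R: module CASR (the Casimir element is scalar)
-/

namespace LGR

open STZ MeasureTheory Matrix Filter

open scoped ComplexConjugate Matrix Real Topology

noncomputable section

namespace CASR

variable {N : ℕ} {H : Subgroup (SU N)}

theorem dsum (hC : CALFH H) {X : Matrix (Fin N) (Fin N) ℂ} (hX : X ∈ lie H) {ι : Type}
    [DecidableEq ι] (s : Finset ι) (f : ι → H → ℂ) (hf : ∀ i, C1H (f i)) (c : ι → ℂ) :
    C1H (fun g => ∑ i ∈ s, f i g * c i) ∧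
      ∀ g, dH X (fun g => ∑ i ∈ s, f i g * c i) g = ∑ i ∈ s, dH X (f i) g * c i := by
  induction s using Finset.induction_on with
  | empty =>
    simp only [Finset.sum_empty]
    exact ⟨(hC.const 0).1, fun g => hC.dconst X 0 g⟩
  | insert a s ha ih =>
    have h1 : C1H (fun g => f a g * c a) := hC.mul1 _ _ (hf a) (hC.const (c a)).1
    have h2 : ∀ g, dH X (fun g => f a g * c a) g = dH X (f a) g * c a := by
      intro g
      rw [hC.dmul X hX _ _ (hf a) (hC.const (c a)).1 g, hC.dconst, mul_zero, add_zero]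
    simp only [Finset.sum_insert ha]
    refine ⟨hC.add1 _ _ h1 ih.1, fun g => ?_⟩
    rw [hC.dadd X hX _ _ h1 ih.1 g, h2, ih.2]

theorem su_mul (h : H) : h.1.1ᴴ * h.1.1 = 1 :=
  Matrix.mem_unitaryGroup_iff'.1 (Matrix.mem_specialUnitaryGroup_iff.1 h.1.2).1

theorem su_mul' (h : H) : h.1.1 * h.1.1ᴴ = 1 :=
  Matrix.mem_unitaryGroup_iff.1 (Matrix.mem_specialUnitaryGroup_iff.1 h.1.2).1

theorem inv_coe (h : H) : ((h⁻¹ : H).1.1 : Matrix (Fin N) (Fin N) ℂ) = h.1.1ᴴ := rfl

/-- conjugates of frames -/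
theorem frame_conj (L : LIF H) {c : ℝ} {d : ℕ} {X : Fin d → Matrix (Fin N) (Fin N) ℂ}
    (hX : FrameH H c X) (h : H) : FrameH H c (fun a => h.1.1 * X a * h.1.1ᴴ) := by
  refine ⟨fun a => L.ad h.1 h.2 _ (hX.mem a), fun a b => ?_, fun Z hZ => ?_⟩
  · have h1 : h.1.1 * X a * h.1.1ᴴ * (h.1.1 * X b * h.1.1ᴴ) = h.1.1 * (X a * X b) * h.1.1ᴴ := by
      calc h.1.1 * X a * h.1.1ᴴ * (h.1.1 * X b * h.1.1ᴴ)
          = h.1.1 * X a * (h.1.1ᴴ * h.1.1) * X b * h.1.1ᴴ := by simp only [Matrix.mul_assoc]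
        _ = _ := by rw [su_mul, Matrix.mul_one, Matrix.mul_assoc h.1.1 (X a) (X b)]
    rw [h1, Matrix.trace_mul_comm, ← Matrix.mul_assoc, su_mul, Matrix.one_mul]
    exact hX.orth a b
  · have h1 : h.1.1ᴴ * Z * h.1.1 ∈ lie H := by
      have h2 := L.ad (h⁻¹ : H).1 (h⁻¹ : H).2 Z hZ
      rw [inv_coe, Matrix.conjTranspose_conjTranspose] at h2
      exact h2
    obtain ⟨y, hy⟩ := hX.span _ h1
    refine ⟨y, ?_⟩
    have h3 : Z = h.1.1 * (h.1.1ᴴ * Z * h.1.1) * h.1.1ᴴ := by
      calc Z = (h.1.1 * h.1.1ᴴ) * Z * (h.1.1 * h.1.1ᴴ) := by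
            rw [su_mul', Matrix.one_mul, Matrix.mul_one]
        _ = _ := by simp only [Matrix.mul_assoc]
    rw [h3, hy, Matrix.mul_sum, Matrix.sum_mul]
    refine Finset.sum_congr rfl fun a _ => ?_
    rw [Matrix.mul_smul, Matrix.smul_mul]

/-- the differential of a real combination -/
theorem drsum (L : LIF H) {n : ℕ} {σ : Rep H (Fin n)} (F : DRF σ) {d : ℕ}
    {X : Fin d → Matrix (Fin N) (Fin N) ℂ} (hX : ∀ a, X a ∈ lie H) (y : Fin d → ℝ)
    (s : Finset (Fin d)) :
    (∑ a ∈ s, (y a : ℂ) • X a) ∈ lie H ∧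
      dr σ (∑ a ∈ s, (y a : ℂ) • X a) = ∑ a ∈ s, (y a : ℂ) • dr σ (X a) := by
  induction s using Finset.induction_on with
  | empty =>
    simp only [Finset.sum_empty]
    refine ⟨L.zero, ?_⟩
    have h1 := F.smul 0 L.zero 0
    rw [Complex.ofReal_zero, zero_smul, zero_smul] at h1
    exact h1
  | insert a s ha ih =>
    rw [Finset.sum_insert ha, Finset.sum_insert ha]
    have h1 := L.smul (y a) (X a) (hX a)
    refine ⟨L.add _ h1 _ ih.1, ?_⟩
    rw [F.add _ h1 _ ih.1, F.smul _ (hX a), ih.2]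

/-- the Casimir element does not depend on the frame -/
theorem indep (L : LIF H) {n : ℕ} {σ : Rep H (Fin n)} (F : DRF σ) {c : ℝ} {d : ℕ}
    {X Y : Fin d → Matrix (Fin N) (Fin N) ℂ} (hX : FrameH H c X) (hY : FrameH H c Y) :
    ∑ a, dr σ (Y a) * dr σ (Y a) = ∑ a, dr σ (X a) * dr σ (X a) := by
  choose y hy using fun a => hX.span (Y a) (hY.mem a)
  set O : Matrix (Fin d) (Fin d) ℂ := fun a b => (y a b : ℂ) with hO
  have h1 : O * Oᵀ = 1 := by
    ext a b
    have h2 := hY.orth a b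
    rw [hy a, hy b, Finset.sum_mul_sum, Matrix.trace_sum] at h2
    simp only [Matrix.trace_sum, Matrix.smul_mul, Matrix.mul_smul, Matrix.trace_smul,
      smul_eq_mul] at h2
    rw [Matrix.mul_apply, Matrix.one_apply, ← h2, Finset.mul_sum]
    refine Finset.sum_congr rfl fun p _ => ?_
    rw [Finset.mul_sum]
    have h3 : ∀ q, -(c : ℂ) * ((y b q : ℂ) * ((y a p : ℂ) * (X p * X q).trace)) =
        if p = q then (y a p : ℂ) * (y b q : ℂ) else 0 := by
      intro q
      have h4 := hX.orth p q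
      have h5 : -(c : ℂ) * ((y b q : ℂ) * ((y a p : ℂ) * (X p * X q).trace)) =
          (y a p : ℂ) * (y b q : ℂ) * (-(c : ℂ) * (X p * X q).trace) := by ring
      rw [h5, h4]
      split <;> simp
    simp only [h3, Finset.sum_ite_eq, Finset.mem_univ, if_true, Matrix.transpose_apply, hO]
  have h2 : Oᵀ * O = 1 := mul_eq_one_comm.1 h1
  have h3 : ∀ a, dr σ (Y a) = ∑ b, O a b • dr σ (X b) := by
    intro a
    rw [hy a]
    exact (drsum L F hX.mem (y a) Finset.univ).2
  have h4 : ∀ a, dr σ (Y a) * dr σ (Y a) =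
      ∑ p, ∑ q, (O a p * O a q) • (dr σ (X p) * dr σ (X q)) := by
    intro a
    rw [h3 a, Finset.sum_mul_sum]
    refine Finset.sum_congr rfl fun p _ => Finset.sum_congr rfl fun q _ => ?_
    rw [Matrix.smul_mul, Matrix.mul_smul, smul_smul]
  simp only [h4]
  rw [Finset.sum_comm]
  refine Finset.sum_congr rfl fun p _ => ?_
  rw [Finset.sum_comm]
  have h5 : ∀ q, ∑ a, (O a p * O a q) • (dr σ (X p) * dr σ (X q)) =
      if p = q then dr σ (X p) * dr σ (X q) else 0 := by
    intro q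
    rw [← Finset.sum_smul]
    have h6 : ∑ a, O a p * O a q = (Oᵀ * O) p q := by
      rw [Matrix.mul_apply]
      rfl
    rw [h6, h2, Matrix.one_apply]
    split <;> simp
  simp only [h5, Finset.sum_ite_eq, Finset.mem_univ, if_true]

/-- the Laplacian of the entries -/
theorem lap (hC : CALFH H) (hP : PFF H) {n : ℕ} {σ : Rep H (Fin n)} (hσ : PRep σ) (F : DRF σ)
    {c : ℝ} {d : ℕ} {Y : Fin d → Matrix (Fin N) (Fin N) ℂ} (hY : FrameH H c Y) (i j : Fin n)
    (g : H) : lapH Y (fun g => σ.ρ g i j) g = (σ.ρ g * ∑ a, dr σ (Y a) * dr σ (Y a)) i j := by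
  unfold lapH
  rw [Matrix.mul_sum, Matrix.sum_apply]
  refine Finset.sum_congr rfl fun a _ => ?_
  have h1 : dH (Y a) (fun g => σ.ρ g i j) =
      fun g => ∑ p ∈ (Finset.univ : Finset (Fin n)), σ.ρ g i p * dr σ (Y a) p j := by
    funext g
    rw [F.d (Y a) (hY.mem a) g i j, Matrix.mul_apply]
  rw [h1, (dsum hC (hY.mem a) Finset.univ (fun p g => σ.ρ g i p)
    (fun p => (hP.c2 _ (hσ i p)).1) (fun p => dr σ (Y a) p j)).2 g, ← Matrix.mul_assoc,
    Matrix.mul_apply]
  refine Finset.sum_congr rfl fun p _ => ?_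
  rw [F.d (Y a) (hY.mem a) g i p]

theorem trace_sq {n : ℕ} (A : Matrix (Fin n) (Fin n) ℂ) :
    (Aᴴ * A).trace = ((∑ i, ∑ j, ‖A j i‖ ^ 2 : ℝ) : ℂ) := by
  simp only [Matrix.trace, Matrix.diag, Matrix.mul_apply, Matrix.conjTranspose_apply]
  push_cast
  refine Finset.sum_congr rfl fun i _ => Finset.sum_congr rfl fun j _ => ?_
  rw [Complex.star_def, mul_comm, Complex.mul_conj, Complex.normSq_eq_norm_sq]
  push_cast
  rfl

end CASR

open CASR

theorem t_CASR : M_CASR := by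
  intro hCALH hLIEB hPFFX hDREP N H c d X hH hX n σ hirr hσ
  have hC := hCALH N H
  have L := hLIEB N H hH
  have hP := hPFFX N H hH
  have F := hDREP N H n σ hH hσ
  obtain ⟨hne, hcomm⟩ := hirr
  set C : Matrix (Fin n) (Fin n) ℂ := ∑ a, dr σ (X a) * dr σ (X a) with hCdef
  have huu : ∀ g, (σ.ρ g)ᴴ * σ.ρ g = 1 := by
    intro g
    rw [← σ.unit, ← map_mul, inv_mul_cancel, map_one]
  obtain ⟨z, hz⟩ : ∃ z : ℂ, C = z • 1 := by
    apply hcomm
    intro h
    have h1 := indep L F hX (frame_conj L hX h)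
    have h2 : ∀ a, dr σ (h.1.1 * X a * h.1.1ᴴ) * dr σ (h.1.1 * X a * h.1.1ᴴ) =
        σ.ρ h * (dr σ (X a) * dr σ (X a)) * (σ.ρ h)ᴴ := by
      intro a
      rw [F.ad _ (hX.mem a) h]
      calc σ.ρ h * dr σ (X a) * (σ.ρ h)ᴴ * (σ.ρ h * dr σ (X a) * (σ.ρ h)ᴴ)
          = σ.ρ h * dr σ (X a) * ((σ.ρ h)ᴴ * σ.ρ h) * dr σ (X a) * (σ.ρ h)ᴴ := by
            simp only [Matrix.mul_assoc]
        _ = _ := by
            rw [huu, Matrix.mul_one, Matrix.mul_assoc (σ.ρ h) (dr σ (X a)) (dr σ (X a))]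
    simp only [h2] at h1
    rw [← Matrix.sum_mul, ← Matrix.mul_sum] at h1
    calc C * σ.ρ h = (σ.ρ h * C * (σ.ρ h)ᴴ) * σ.ρ h := by rw [hCdef, h1]
      _ = σ.ρ h * C := by rw [Matrix.mul_assoc, huu, Matrix.mul_one]
  set S : ℝ := ∑ a, ∑ i, ∑ j, ‖dr σ (X a) j i‖ ^ 2 with hS
  have hS0 : 0 ≤ S := Finset.sum_nonneg fun _ _ => Finset.sum_nonneg fun _ _ =>
    Finset.sum_nonneg fun _ _ => by positivity
  have hn : (n : ℂ) ≠ 0 := by
    have : 0 < n := Fin.pos_iff_nonempty.2 hne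
    exact_mod_cast this.ne'
  have htr : z * n = -(S : ℂ) := by
    have h1 : C.trace = z * n := by
      rw [hz, Matrix.trace_smul, Matrix.trace_one, Fintype.card_fin, smul_eq_mul]
    rw [← h1, hCdef, Matrix.trace_sum, hS, Complex.ofReal_sum, ← Finset.sum_neg_distrib]
    refine Finset.sum_congr rfl fun a _ => ?_
    rw [← trace_sq, F.skew _ (hX.mem a), Matrix.neg_mul, Matrix.trace_neg, neg_neg]
  refine ⟨S / n, div_nonneg hS0 (Nat.cast_nonneg n), ?_, ?_⟩
  · have hzk : z = -((S / n : ℝ) : ℂ) := by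
      push_cast
      rw [← neg_div, ← htr, mul_div_assoc, div_self hn, mul_one]
    intro Y hY
    have hent : ∀ i j, EigH Y (S / n) (fun g => σ.ρ g i j) := by
      intro i j
      refine ⟨hP.c2 _ (hσ i j), fun g => ?_⟩
      rw [lap hC hP hσ F hY, indep L F hX hY, ← hCdef, hz, ← hzk, Matrix.mul_smul,
        Matrix.mul_one]
      rfl
    refine ⟨hent, ?_, fun g => ?_⟩
    · have h1 : σ.ch ∈ PF H := by
        have h2 : σ.ch = ∑ i, fun g => σ.ρ g i i := by
          funext g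
          rw [Finset.sum_apply]
          rfl
        rw [h2]
        exact Subalgebra.sum_mem _ fun i _ => hσ i i
      exact hP.c2 _ h1
    · have h2 : σ.ch = fun g => ∑ i ∈ (Finset.univ : Finset (Fin n)), σ.ρ g i i * 1 := by
        funext g
        simp only [mul_one]
        rfl
      have h3 : ∀ g, lapH Y σ.ch g = ∑ i, lapH Y (fun g => σ.ρ g i i) g := by
        intro g
        unfold lapH
        rw [Finset.sum_comm]
        refine Finset.sum_congr rfl fun a _ => ?_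
        have h4 : dH (Y a) σ.ch = fun g => ∑ i ∈ (Finset.univ : Finset (Fin n)),
            dH (Y a) (fun g => σ.ρ g i i) g * 1 := by
          funext g
          rw [h2]
          exact (dsum hC (hY.mem a) Finset.univ (fun i g => σ.ρ g i i)
            (fun i => (hP.c2 _ (hσ i i)).1) (fun _ => 1)).2 g
        rw [h4, (dsum hC (hY.mem a) Finset.univ (fun i g => dH (Y a) (fun g => σ.ρ g i i) g)
            (fun i => (hP.c2 _ (hP.d _ (hY.mem a) _ (hσ i i))).1) (fun _ => 1)).2 g]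
        simp only [mul_one]
      rw [h3]
      have h5 : σ.ch g = ∑ i, σ.ρ g i i := rfl
      rw [h5, Finset.mul_sum]
      exact Finset.sum_congr rfl fun i _ => (hent i i).2 g
  · intro hk Y hY t
    have hnR : (n : ℝ) ≠ 0 := by exact_mod_cast hn
    have hS' : S = 0 := by
      rcases div_eq_zero_iff.1 hk with h | h
      · exact h
      · exact absurd h hnR
    have hA : ∀ a, dr σ (X a) = 0 := by
      intro a
      ext i j
      have h1 := (Finset.sum_eq_zero_iff_of_nonneg (fun a _ => Finset.sum_nonneg fun i _ =>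
        Finset.sum_nonneg fun j _ => by positivity)).1 hS' a (Finset.mem_univ _)
      have h2 := (Finset.sum_eq_zero_iff_of_nonneg (fun i _ =>
        Finset.sum_nonneg fun j _ => by positivity)).1 h1 j (Finset.mem_univ _)
      have h3 := (Finset.sum_eq_zero_iff_of_nonneg (fun j _ => by positivity)).1 h2 i
        (Finset.mem_univ _)
      simpa using h3
    obtain ⟨y, hy⟩ := hX.span Y hY
    have h4 : dr σ Y = 0 := by
      rw [hy, (drsum L F hX.mem y Finset.univ).2]
      refine Finset.sum_eq_zero fun a _ => ?_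
      rw [hA a, smul_zero]
    rw [F.ex Y hY t, h4, smul_zero, NormedSpace.exp_zero]

end

end LGR
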