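import Pool.Agent.LGR.StV
import Pool.Agent.STZ.EXP

/-!
# Simple compact Lie groups: module CENX

An element of a simple compact connected group which commutes with `D` in the Lie algebra is the exponential of an element which commutes with `D`.
-/

namespace LGR

open STZ MeasureTheory Matrix Filter

open scoped ComplexConjugate Matrix Real Topology

noncomputable section

namespace CENX

theorem mul_star {N : ℕ} (z : SU N) : z.1 * z.1ᴴ = 1 := congrArg Subtype.val (mul_inv_cancel z)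

theorem star_mul' {N : ℕ} (z : SU N) : z.1ᴴ * z.1 = 1 := congrArg Subtype.val (inv_mul_cancel z)

/-- `z exp(Y) z⁻¹ = exp (z Y zᴴ)` -/
theorem ex_conj {N : ℕ} (z : SU N) (Y : Matrix (Fin N) (Fin N) ℂ) (hY : Y ∈ su N)
    (hZ : z.1 * Y * z.1ᴴ ∈ su N) (t : ℝ) : z * ex Y t * z⁻¹ = ex (z.1 * Y * z.1ᴴ) t := by
  apply Subtype.ext
  have h1 := (t_EXP N Y hY).coe t
  have h2 := (t_EXP N _ hZ).coe t
  have h3 : (z * ex Y t * z⁻¹).1 = z.1 * (ex Y t).1 * z.1ᴴ := rfl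
  rw [h3, h1, h2]
  have hu : z.1 * z.1ᴴ = 1 := mul_star z
  have hi : (z.1)⁻¹ = z.1ᴴ := Matrix.inv_eq_right_inv hu
  have hunit : IsUnit z.1 := (Matrix.isUnit_iff_isUnit_det _).2 (Matrix.isUnit_det_of_right_inverse hu)
  rw [← hi, ← Matrix.exp_conj _ _ hunit, hi]
  congr 1
  rw [Matrix.mul_smul, Matrix.smul_mul]

theorem ex_comm {N : ℕ} (t : SU N) (Y : Matrix (Fin N) (Fin N) ℂ) (hY : Y ∈ su N)
    (h : t.1 * Y = Y * t.1) (s : ℝ) : ex Y s * t = t * ex Y s := by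
  apply Subtype.ext
  have h1 := (t_EXP N Y hY).coe s
  have h3 : (ex Y s * t).1 = (ex Y s).1 * t.1 := rfl
  have h4 : (t * ex Y s).1 = t.1 * (ex Y s).1 := rfl
  rw [h3, h4, h1]
  have hc : Commute t.1 ((s : ℂ) • Y) := (show Commute t.1 Y from h).smul_right _
  exact (hc.exp_right).eq.symm

/-- the centraliser of `t` in `H` -/
def ce {N : ℕ} (H : Subgroup (SU N)) (t : SU N) : Subgroup (SU N) :=
  H ⊓ Subgroup.centralizer {t}

theorem mem_ce {N : ℕ} {H : Subgroup (SU N)} {t z : SU N} :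
    z ∈ ce H t ↔ z ∈ H ∧ z * t = t * z := by
  rw [ce, Subgroup.mem_inf, Subgroup.mem_centralizer_singleton_iff]

theorem ce_closed {N : ℕ} {H : Subgroup (SU N)} (hH : IsClosed (H : Set (SU N))) (t : SU N) :
    IsClosed (ce H t : Set (SU N)) := by
  have h1 : (ce H t : Set (SU N)) = (H : Set (SU N)) ∩ {z | z * t = t * z} := by
    ext z
    exact mem_ce
  rw [h1]
  exact hH.inter (isClosed_eq (continuous_id.mul continuous_const)
    (continuous_const.mul continuous_id))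

theorem lie_ce {N : ℕ} {H : Subgroup (SU N)} {t : SU N} {Y : Matrix (Fin N) (Fin N) ℂ}
    (hY : Y ∈ lie H) (h : t.1 * Y = Y * t.1) : Y ∈ lie (ce H t) :=
  ⟨hY.1, fun s => mem_ce.2 ⟨hY.2 s, ex_comm t Y hY.1 h s⟩⟩

theorem hx_comm {N r : ℕ} (Hc : Fin r → Matrix (Fin N) (Fin N) ℂ)
    (hc : ∀ i j, Hc i * Hc j = Hc j * Hc i) (x y : Fin r → ℝ) :
    Commute (hx Hc x) (hx Hc y) := by
  unfold hx
  refine Commute.sum_left _ _ _ fun i _ => Commute.sum_right _ _ _ fun j _ => ?_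
  exact ((show Commute (Hc i) (Hc j) from hc i j).smul_left _).smul_right _

/-- a maximal abelian subspace -/
theorem exists_maxAb {N : ℕ} (H : Subgroup (SU N)) (F : LIF H) :
    ∃ T : Submodule ℝ (Matrix (Fin N) (Fin N) ℂ), MaxAb H T := by
  let S : Set (Submodule ℝ (Matrix (Fin N) (Fin N) ℂ)) :=
    {V | (∀ X ∈ V, X ∈ lie H) ∧ ∀ X ∈ V, ∀ Y ∈ V, X * Y = Y * X}
  have hne : S.Nonempty := by
    refine ⟨⊥, ?_, ?_⟩
    · intro X hX
      rw [(Submodule.mem_bot ℝ).1 hX]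
      exact F.zero
    · intro X hX Y _
      rw [(Submodule.mem_bot ℝ).1 hX, zero_mul, mul_zero]
  have hwf : WellFounded ((· > ·) : Submodule ℝ (Matrix (Fin N) (Fin N) ℂ) → _ → Prop) :=
    wellFounded_gt
  obtain ⟨T, hT, hmax⟩ := hwf.has_min S hne
  refine ⟨T, hT.1, hT.2, ?_⟩
  intro X hX hXT
  by_contra hcon
  have hlt : T < T ⊔ Submodule.span ℝ {X} := by
    refine lt_of_le_of_ne le_sup_left ?_
    intro he
    apply hcon
    rw [he]
    exact Submodule.mem_sup_right (Submodule.mem_span_singleton_self X)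
  refine hmax (T ⊔ Submodule.span ℝ {X}) ⟨?_, ?_⟩ hlt
  · intro Z hZ
    obtain ⟨A, hA, B, hB, rfl⟩ := Submodule.mem_sup.1 hZ
    obtain ⟨s, rfl⟩ := Submodule.mem_span_singleton.1 hB
    refine F.add _ (hT.1 A hA) _ ?_
    have h := F.smul s X hX
    rwa [Complex.coe_smul] at h
  · intro Z hZ W hW
    obtain ⟨A, hA, B, hB, rfl⟩ := Submodule.mem_sup.1 hZ
    obtain ⟨s, rfl⟩ := Submodule.mem_span_singleton.1 hB
    obtain ⟨A', hA', B', hB', rfl⟩ := Submodule.mem_sup.1 hW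
    obtain ⟨s', rfl⟩ := Submodule.mem_span_singleton.1 hB'
    have h1 : Commute A A' := hT.2 A hA A' hA'
    have h2 : Commute A X := (hXT A hA).symm
    have h3 : Commute X A' := hXT A' hA'
    exact ((h1.add_right (h2.smul_right s')).add_left
      ((h3.add_right ((Commute.refl X).smul_right s')).smul_left s)).eq

end CENX

open CENX in
theorem t_CENX : M_CENX := by
  intro hI hC hTAU hCONJ hLRDX N H hH hcon hS x hxH D hD hxD
  have F := hI N H hH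
  obtain ⟨T, hT⟩ := exists_maxAb H F
  obtain ⟨Φ, B, Hc, E, L, -⟩ := hLRDX N H T _ hH hS hT rfl
  have A := hTAU N H _ Φ B Hc E hH L
  obtain ⟨h, hh, θ, hxe⟩ := hCONJ N H _ Φ B Hc E hH hcon L x hxH
  obtain ⟨x₀, hx₀⟩ := A.reg
  -- the two elements of the Lie algebra of the centraliser
  have hD' : D ∈ lie (ce H x) := lie_ce hD hxD
  have hxm : x.1 = h.1 * (ta Hc θ).1 * h.1ᴴ := by
    rw [hxe]
    rfl
  have hX1 : h.1 * hx Hc x₀ * h.1ᴴ ∈ lie H := F.ad h hh _ (A.hmem x₀)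
  have hct : Commute (ta Hc θ).1 (hx Hc x₀) := by
    rw [A.coe θ]
    exact ((hx_comm Hc L.comm x₀ _).exp_right).symm
  have hX2 : h.1 * hx Hc x₀ * h.1ᴴ ∈ lie (ce H x) := by
    refine lie_ce hX1 ?_
    rw [hxm]
    calc h.1 * (ta Hc θ).1 * h.1ᴴ * (h.1 * hx Hc x₀ * h.1ᴴ)
        = h.1 * (ta Hc θ).1 * (h.1ᴴ * h.1) * hx Hc x₀ * h.1ᴴ := by
          simp only [Matrix.mul_assoc]
      _ = h.1 * ((ta Hc θ).1 * hx Hc x₀) * h.1ᴴ := by
          rw [star_mul' h, Matrix.mul_one]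
          simp only [Matrix.mul_assoc]
      _ = h.1 * (hx Hc x₀ * (ta Hc θ).1) * h.1ᴴ := by rw [hct.eq]
      _ = h.1 * hx Hc x₀ * (h.1ᴴ * h.1) * (ta Hc θ).1 * h.1ᴴ := by
          rw [star_mul' h, Matrix.mul_one]
          simp only [Matrix.mul_assoc]
      _ = h.1 * hx Hc x₀ * h.1ᴴ * (h.1 * (ta Hc θ).1 * h.1ᴴ) := by
          simp only [Matrix.mul_assoc]
  obtain ⟨z, hz, ez⟩ := hC N (ce H x) (ce_closed hH x) D hD' _ hX2
  have hz' := mem_ce.1 hz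
  -- the element `m`
  have hm : z⁻¹ * h ∈ H := H.mul_mem (H.inv_mem hz'.1) hh
  have hmv : (z⁻¹ * h).1 = z.1ᴴ * h.1 := rfl
  have hmi : (z⁻¹ * h)⁻¹.1 = h.1ᴴ * z.1 := by
    have e : (z⁻¹ * h)⁻¹ = h⁻¹ * z := by group
    rw [e]
    rfl
  have hmstar : (z⁻¹ * h).1ᴴ = h.1ᴴ * z.1 := hmi
  have hW : (h⁻¹ * z).1 * D * (h⁻¹ * z).1ᴴ ∈ lie H :=
    F.ad _ (H.mul_mem (H.inv_mem hh) hz'.1) D hD
  have hwv : (h⁻¹ * z).1 = h.1ᴴ * z.1 := rfl
  have hws : (h⁻¹ * z).1ᴴ = z.1ᴴ * h.1 := by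
    rw [hwv, Matrix.conjTranspose_mul, Matrix.conjTranspose_conjTranspose]
  rw [hws, hwv] at hW
  have hcomm : (h.1ᴴ * z.1 * D * (z.1ᴴ * h.1)) * hx Hc x₀ =
      hx Hc x₀ * (h.1ᴴ * z.1 * D * (z.1ᴴ * h.1)) := by
    calc (h.1ᴴ * z.1 * D * (z.1ᴴ * h.1)) * hx Hc x₀
        = h.1ᴴ * ((z.1 * D * z.1ᴴ) * (h.1 * hx Hc x₀ * h.1ᴴ)) * h.1 := by
          simp only [Matrix.mul_assoc]
          rw [star_mul' h, Matrix.mul_one]
      _ = h.1ᴴ * ((h.1 * hx Hc x₀ * h.1ᴴ) * (z.1 * D * z.1ᴴ)) * h.1 := by rw [ez]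
      _ = (h.1ᴴ * h.1) * hx Hc x₀ * (h.1ᴴ * z.1 * D * (z.1ᴴ * h.1)) := by
          simp only [Matrix.mul_assoc]
      _ = _ := by rw [star_mul' h, Matrix.one_mul]
  obtain ⟨y, hy⟩ := A.cent x₀ hx₀ _ hW hcomm
  have hDe : D = (z⁻¹ * h).1 * hx Hc y * (z⁻¹ * h).1ᴴ := by
    rw [← hy, hmstar, hmv]
    calc D = (z.1ᴴ * z.1) * D * (z.1ᴴ * z.1) := by
          rw [star_mul' z, Matrix.one_mul, Matrix.mul_one]
      _ = z.1ᴴ * (h.1 * h.1ᴴ) * z.1 * D * (z.1ᴴ * (h.1 * h.1ᴴ) * z.1) := by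
          rw [mul_star h, Matrix.mul_one]
      _ = _ := by simp only [Matrix.mul_assoc]
  have hYm : (z⁻¹ * h).1 * hx Hc (fun j => 2 * π * θ j) * (z⁻¹ * h).1ᴴ ∈ lie H :=
    F.ad _ hm _ (A.hmem _)
  refine ⟨_, hYm, ?_, ?_⟩
  · have hs : (z⁻¹ * h).1ᴴ * (z⁻¹ * h).1 = 1 := star_mul' _
    have hcc := (hx_comm Hc L.comm (fun j => 2 * π * θ j) y).eq
    generalize hM : (z⁻¹ * h).1 = M at *
    generalize hP : hx Hc (fun j => 2 * π * θ j) = P at *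
    generalize hQ : hx Hc y = Q at *
    rw [hDe]
    calc M * P * Mᴴ * (M * Q * Mᴴ) = M * P * (Mᴴ * M) * Q * Mᴴ := by
          simp only [Matrix.mul_assoc]
      _ = M * (P * Q) * Mᴴ := by
          rw [hs, Matrix.mul_one]
          simp only [Matrix.mul_assoc]
      _ = M * (Q * P) * Mᴴ := by rw [hcc]
      _ = M * Q * (Mᴴ * M) * P * Mᴴ := by
          rw [hs, Matrix.mul_one]
          simp only [Matrix.mul_assoc]
      _ = M * Q * Mᴴ * (M * P * Mᴴ) := by simp only [Matrix.mul_assoc]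
  · rw [← ex_conj (z⁻¹ * h) _ (F.su _ (A.hmem _)) (F.su _ hYm) 1]
    change z⁻¹ * h * ta Hc θ * (z⁻¹ * h)⁻¹ = x
    have e1 : z⁻¹ * h * ta Hc θ * (z⁻¹ * h)⁻¹ = z⁻¹ * (h * ta Hc θ * h⁻¹) * z := by group
    rw [e1, ← hxe, mul_assoc, ← hz'.2]
    group

end

end LGR
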