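import Pool.Agent.LGR.StA

/-!
The fundamental chamber is a strict fundamental domain.
-/

set_option autoImplicit false

namespace LGR

open STZ MeasureTheory Matrix Filter

open scoped ComplexConjugate Matrix Real Topology

noncomputable section

theorem CHAM.pos_dot {r : ℕ} {Φ : RT r} {B : Matrix (Fin r) (Fin r) ℤ} (hW : WFF Φ B)
    (p : (Fin r → ℤ) × (Fin r → ℤ)) (hp : p ∈ pos Φ) (l : Fin r → ℤ) (hl : Reg l) :
    0 < p.2 ⬝ᵥ l := by
  obtain ⟨_, h1, h2, _⟩ := hW.ppos p hp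
  obtain ⟨i, hi⟩ : ∃ i, p.2 i ≠ 0 := by
    by_contra h
    push Not at h
    exact h2 (funext h)
  unfold dotProduct
  refine Finset.sum_pos' (fun j _ => mul_nonneg (h1 j) (le_trans zero_le_one (hl j))) ?_
  refine ⟨i, Finset.mem_univ i, mul_pos (lt_of_le_of_ne (h1 i) (Ne.symm hi)) ?_⟩
  exact lt_of_lt_of_le zero_lt_one (hl i)

theorem t_CHAM : M_CHAM := by
  intro hR hE r Φ B hI hW
  obtain ⟨_, hR2, _⟩ := hR r Φ B hI hW
  constructor
  · intro l
    obtain ⟨w, hw, hmax⟩ := Finset.exists_max_image (WF Φ)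
      (fun w => ∑ p ∈ pos Φ, p.2 ⬝ᵥ (w *ᵥ l)) ⟨1, hW.one⟩
    refine ⟨w, hw, fun i => ?_⟩
    by_contra hneg
    push Not at hneg
    set s := rf (B i, (Pi.single i 1 : Fin r → ℤ)) with hs
    have hsW : s ∈ WF Φ := by
      rw [hW.mem]
      exact Submonoid.subset_closure ⟨_, hI.base i, rfl⟩
    have h1 := hmax (s * w) (hW.mul s hsW w hw)
    have h2 : ∀ p ∈ pos Φ, p.2 ⬝ᵥ ((s * w) *ᵥ l) =
        p.2 ⬝ᵥ (w *ᵥ l) - (w *ᵥ l) i * (p.2 ⬝ᵥ B i) := by
      intro p _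
      rw [← Matrix.mulVec_mulVec, hs, hW.mv, dotProduct_sub, dotProduct_smul, single_dotProduct,
        one_mul, smul_eq_mul]
    rw [Finset.sum_congr rfl h2, Finset.sum_sub_distrib, ← Finset.mul_sum, hR2 i] at h1
    linarith
  · intro l hl w hw hwl
    by_contra hne
    obtain ⟨p, hp, q, hq, _, h⟩ := hE r Φ B hI hW w hw hne
    have h1 := CHAM.pos_dot hW p hp l hl
    have h2 := CHAM.pos_dot hW q hq (w *ᵥ l) hwl
    rw [h l] at h2
    linarith

end

end LGR
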