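import Pool.Agent.LGR.StD
import Pool.Agent.STZ.Base
import Pool.Agent.STZ.EXP

/-!
# Simple compact Lie groups, block D: module CHFX

An element of the group which permutes the positive roots acts trivially on the Cartan algebra.
-/

namespace LGR

open STZ MeasureTheory Matrix Filter

open scoped ComplexConjugate Matrix Real Topology

noncomputable section

namespace CHFX

theorem mul_ct {N : ℕ} (g : SU N) : g.1 * g.1ᴴ = 1 := congrArg Subtype.val (mul_inv_cancel g)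

theorem ct_mul {N : ℕ} (g : SU N) : g.1ᴴ * g.1 = 1 := congrArg Subtype.val (inv_mul_cancel g)

/-- `z exp(Y) z⁻¹ = exp (z Y zᴴ)` -/
theorem ex_conj {N : ℕ} (z : SU N) (Y : Matrix (Fin N) (Fin N) ℂ) (hY : Y ∈ su N)
    (hZ : z.1 * Y * z.1ᴴ ∈ su N) (t : ℝ) : z * ex Y t * z⁻¹ = ex (z.1 * Y * z.1ᴴ) t := by
  apply Subtype.ext
  have h1 := (t_EXP N Y hY).coe t
  have h2 := (t_EXP N _ hZ).coe t
  have h3 : (z * ex Y t * z⁻¹).1 = z.1 * (ex Y t).1 * z.1ᴴ := rfl
  rw [h3, h1, h2]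
  have hu : z.1 * z.1ᴴ = 1 := mul_ct z
  have hi : (z.1)⁻¹ = z.1ᴴ := Matrix.inv_eq_right_inv hu
  have hunit : IsUnit z.1 := (Matrix.isUnit_iff_isUnit_det _).2 (Matrix.isUnit_det_of_right_inverse hu)
  rw [← hi, ← Matrix.exp_conj _ _ hunit, hi]
  congr 1
  rw [Matrix.mul_smul, Matrix.smul_mul]

theorem ex_comm {N : ℕ} (t : SU N) (Y : Matrix (Fin N) (Fin N) ℂ) (hY : Y ∈ su N)
    (h : t.1 * Y = Y * t.1) (s : ℝ) : ex Y s * t = t * ex Y s := by
  apply Subtype.ext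
  have h1 := (t_EXP N Y hY).coe s
  have h3 : (ex Y s * t).1 = (ex Y s).1 * t.1 := rfl
  have h4 : (t * ex Y s).1 = t.1 * (ex Y s).1 := rfl
  rw [h3, h4, h1]
  have hc : Commute t.1 ((s : ℂ) • Y) := (show Commute t.1 Y from h).smul_right _
  exact (hc.exp_right).eq.symm

/-- the centraliser of `t` in `H` -/
def ce {N : ℕ} (H : Subgroup (SU N)) (t : SU N) : Subgroup (SU N) :=
  H ⊓ Subgroup.centralizer {t}

theorem mem_ce {N : ℕ} {H : Subgroup (SU N)} {t z : SU N} :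
    z ∈ ce H t ↔ z ∈ H ∧ z * t = t * z := by
  rw [ce, Subgroup.mem_inf, Subgroup.mem_centralizer_singleton_iff]

theorem ce_closed {N : ℕ} {H : Subgroup (SU N)} (hH : IsClosed (H : Set (SU N))) (t : SU N) :
    IsClosed (ce H t : Set (SU N)) := by
  have h1 : (ce H t : Set (SU N)) = (H : Set (SU N)) ∩ {z | z * t = t * z} := by
    ext z
    exact mem_ce
  rw [h1]
  exact hH.inter (isClosed_eq (continuous_id.mul continuous_const)
    (continuous_const.mul continuous_id))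

theorem lie_ce {N : ℕ} {H : Subgroup (SU N)} {t : SU N} {Y : Matrix (Fin N) (Fin N) ℂ}
    (hY : Y ∈ lie H) (h : t.1 * Y = Y * t.1) : Y ∈ lie (ce H t) :=
  ⟨hY.1, fun s => mem_ce.2 ⟨hY.2 s, ex_comm t Y hY.1 h s⟩⟩

theorem hx_comm {N r : ℕ} (Hc : Fin r → Matrix (Fin N) (Fin N) ℂ)
    (hc : ∀ i j, Hc i * Hc j = Hc j * Hc i) (x y : Fin r → ℝ) :
    Commute (hx Hc x) (hx Hc y) := by
  unfold hx
  refine Commute.sum_left _ _ _ fun i _ => Commute.sum_right _ _ _ fun j _ => ?_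
  exact ((show Commute (Hc i) (Hc j) from hc i j).smul_left _).smul_right _

theorem hx_inj {N r : ℕ} {Hc : Fin r → Matrix (Fin N) (Fin N) ℂ} (hl : LinearIndependent ℝ Hc)
    {x y : Fin r → ℝ} (h : hx Hc x = hx Hc y) : x = y := by
  have h1 : ∀ z : Fin r → ℝ, hx Hc z = Complex.I • ∑ j, z j • Hc j := by
    intro z
    rw [hx, Finset.smul_sum]
    refine Finset.sum_congr rfl fun j _ => ?_
    have h2 : z j • Hc j = ((z j : ℝ) : ℂ) • Hc j := by
      ext a b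
      simp [Matrix.smul_apply]
    rw [h2, smul_smul, mul_comm]
  rw [h1, h1] at h
  have h2 : ∑ j, x j • Hc j = ∑ j, y j • Hc j := smul_right_injective _ Complex.I_ne_zero h
  have h3 : ∑ j, (x j - y j) • Hc j = 0 := by
    simp only [sub_smul, Finset.sum_sub_distrib]
    rw [h2, sub_self]
  have h4 := Fintype.linearIndependent_iff.1 hl (fun j => x j - y j) h3
  funext j
  exact sub_eq_zero.1 (h4 j)

/-- the negative of a root is a root -/
theorem neg_mem {r : ℕ} {Φ : RT r} {B : Matrix (Fin r) (Fin r) ℤ} (h : IRD Φ B)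
    {p : (Fin r → ℤ) × (Fin r → ℤ)} (hp : p ∈ Φ) : (-p.1, -p.2) ∈ Φ := by
  have h1 := h.refl p hp p hp
  rw [h.two p hp] at h1
  have h2 : p.1 - (2 : ℤ) • p.1 = -p.1 := by
    rw [two_smul]; abel
  have h3 : p.2 - (2 : ℤ) • p.2 = -p.2 := by
    rw [two_smul]; abel
  rw [h2, h3] at h1
  exact h1

theorem mem_pos {r : ℕ} {Φ : RT r} {p : (Fin r → ℤ) × (Fin r → ℤ)} :
    p ∈ pos Φ ↔ p ∈ Φ ∧ ∀ i, 0 ≤ p.2 i := by
  rw [pos, Finset.mem_filter]

/-- `p.1` determines the root -/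
theorem fst_inj {r : ℕ} {Φ : RT r} {B : Matrix (Fin r) (Fin r) ℤ} (h : IRD Φ B)
    {p q : (Fin r → ℤ) × (Fin r → ℤ)} (hp : p ∈ Φ) (hq : q ∈ Φ) (he : p.1 = q.1) : q = p := by
  rcases h.red p hp q hq 1 1 one_ne_zero (Or.inl (by rw [he])) with h1 | h1
  · exact h1
  · exfalso
    have h2 : q.1 = -p.1 := by rw [h1]
    have h3 : p.1 = 0 := by
      have h4 : p.1 = -p.1 := by rw [← h2]; exact he
      funext i
      have h5 := congrFun h4 i
      simp only [Pi.neg_apply, Pi.zero_apply] at h5 ⊢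
      omega
    have h6 := h.two p hp
    rw [h3, dotProduct_zero] at h6
    exact absurd h6 (by norm_num)

end CHFX

/-- an element which permutes the positive roots acts trivially -/
theorem t_CHFX : M_CHFX := by
  intro hLIEB hWFAC hRHOF hTAUF hCONJ hNORX N H r Φ B Hc E hcl hcn hL n hn u hu huinv hperm
  classical
  have hT := hTAUF N H r Φ B Hc E hcl hL
  have hI := hLIEB N H hcl
  have hR := hRHOF r Φ B hL.ird (hWFAC r Φ B hL.ird)
  obtain ⟨u', hu'1, hu'2⟩ := huinv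
  -- the permutation of the positive roots
  choose! f hf using hperm
  have hfinj : Set.InjOn f (pos Φ : Set ((Fin r → ℤ) × (Fin r → ℤ))) := by
    intro p hp q hq hpq
    have h1 := (hf p hp).2.1
    have h2 := (hf q hq).2.1
    rw [hpq, ← h2] at h1
    have h3 : p.1 = q.1 := by
      have h4 := congrArg (fun v => u' *ᵥ v) h1
      simp only [Matrix.mulVec_mulVec, hu'1, Matrix.one_mulVec] at h4
      exact h4
    exact (CHFX.fst_inj hL.ird (CHFX.mem_pos.1 hp).1 (CHFX.mem_pos.1 hq).1 h3).symm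
  have himg : (pos Φ).image f = pos Φ := by
    apply Finset.eq_of_subset_of_card_le
    · intro q hq
      obtain ⟨p, hp, rfl⟩ := Finset.mem_image.1 hq
      exact (hf p hp).1
    · rw [Finset.card_image_of_injOn hfinj]
  -- the regular vector
  set x0 : Fin r → ℝ := fun j => ((∑ p ∈ pos Φ, p.2 j : ℤ) : ℝ) with hx0
  have hdot : ∀ p ∈ pos Φ, ∀ j, ∑ i, u i j * (f p).2 i = p.2 j := by
    intro p hp j
    have h1 := (hf p hp).2.2 (Pi.single j 1)
    rw [Matrix.mulVec_single_one] at h1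
    rw [dotProduct_single, mul_one] at h1
    rw [← h1, dotProduct]
    refine Finset.sum_congr rfl fun i _ => ?_
    rw [Matrix.col_apply]
    ring
  have hfix : (fun j => ∑ i, (u i j : ℝ) * x0 i) = x0 := by
    funext j
    have h1 : ∑ i, u i j * ∑ p ∈ pos Φ, p.2 i = ∑ p ∈ pos Φ, p.2 j := by
      have h2 : ∀ i, ∑ p ∈ pos Φ, p.2 i = ∑ p ∈ pos Φ, (f p).2 i := by
        intro i
        conv_lhs => rw [← himg]
        rw [Finset.sum_image hfinj]
      have h4 : ∑ i, u i j * ∑ p ∈ pos Φ, p.2 i = ∑ i, ∑ p ∈ pos Φ, u i j * (f p).2 i :=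
        Finset.sum_congr rfl fun i _ => by rw [h2 i, Finset.mul_sum]
      rw [h4, Finset.sum_comm]
      exact Finset.sum_congr rfl fun p hp => hdot p hp j
    have h3 := congrArg (fun z : ℤ => (z : ℝ)) h1
    simp only [Int.cast_sum, Int.cast_mul] at h3
    simp only [hx0, Int.cast_sum]
    exact h3
  have hposreg : ∀ q ∈ pos Φ, (2 : ℝ) ≤ ∑ j, (q.1 j : ℝ) * x0 j := by
    intro q hq
    have h1 := hR.2.2 q hq
    have h2 : ∑ p ∈ pos Φ, p.2 ⬝ᵥ q.1 = ∑ j, q.1 j * ∑ p ∈ pos Φ, p.2 j := by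
      simp only [dotProduct, Finset.mul_sum]
      rw [Finset.sum_comm]
      refine Finset.sum_congr rfl fun j _ => Finset.sum_congr rfl fun p _ => ?_
      ring
    rw [h2] at h1
    have h3 : (2 : ℝ) ≤ ((∑ j, q.1 j * ∑ p ∈ pos Φ, p.2 j : ℤ) : ℝ) := by exact_mod_cast h1
    rw [Int.cast_sum] at h3
    simp only [Int.cast_mul] at h3
    exact h3
  have hreg : ∀ p ∈ Φ, ∑ j, (p.1 j : ℝ) * x0 j ≠ 0 := by
    intro p hp
    rcases hL.ird.sgn p hp with ⟨k, _, hk⟩ | ⟨k, _, hk⟩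
    · have h1 := hposreg p (CHFX.mem_pos.2 ⟨hp, fun i => (hk i).2⟩)
      intro h0
      rw [h0] at h1
      norm_num at h1
    · have h1 := hposreg (-p.1, -p.2) (CHFX.mem_pos.2 ⟨CHFX.neg_mem hL.ird hp, fun i => by
        have := (hk i).2
        simp only [Pi.neg_apply]
        omega⟩)
      intro h0
      have h2 : ∑ j, (((-p.1 : Fin r → ℤ) j : ℤ) : ℝ) * x0 j = -∑ j, (p.1 j : ℝ) * x0 j := by
        rw [← Finset.sum_neg_distrib]
        refine Finset.sum_congr rfl fun j _ => ?_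
        rw [Pi.neg_apply, Int.cast_neg, neg_mul]
      rw [h2, h0] at h1
      norm_num at h1
  -- the element `n` fixes `X₀`
  have hn0 : n.1 * hx Hc x0 * n.1ᴴ = hx Hc x0 := by rw [hu x0, hfix]
  have hnc : n.1 * hx Hc x0 = hx Hc x0 * n.1 := by
    have h1 : n.1 * hx Hc x0 * n.1ᴴ * n.1 = hx Hc x0 * n.1 := by rw [hn0]
    rw [Matrix.mul_assoc, CHFX.ct_mul, Matrix.mul_one] at h1
    exact h1
  obtain ⟨h, hh, φ, hφ⟩ := hCONJ N H r Φ B Hc E hcl hcn hL n hn
  have hmem0 : hx Hc x0 ∈ lie (CHFX.ce H n) := CHFX.lie_ce (hT.hmem x0) hnc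
  have htc : (ta Hc φ).1 * hx Hc x0 = hx Hc x0 * (ta Hc φ).1 := by
    rw [hT.coe φ]
    have hc : Commute (hx Hc fun j => 2 * π * φ j) (hx Hc x0) := CHFX.hx_comm Hc hL.comm _ _
    exact (hc.exp_left).eq
  have hmem1 : h.1 * hx Hc x0 * h.1ᴴ ∈ lie (CHFX.ce H n) := by
    refine CHFX.lie_ce (hI.ad h hh _ (hT.hmem x0)) ?_
    have h1 : n.1 = h.1 * (ta Hc φ).1 * h.1ᴴ := congrArg Subtype.val hφ
    rw [h1]
    have h2 : h.1 * (ta Hc φ).1 * h.1ᴴ * (h.1 * hx Hc x0 * h.1ᴴ) =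
        h.1 * (ta Hc φ).1 * (h.1ᴴ * h.1) * hx Hc x0 * h.1ᴴ := by
      simp only [Matrix.mul_assoc]
    have h3 : h.1 * hx Hc x0 * h.1ᴴ * (h.1 * (ta Hc φ).1 * h.1ᴴ) =
        h.1 * hx Hc x0 * (h.1ᴴ * h.1) * (ta Hc φ).1 * h.1ᴴ := by
      simp only [Matrix.mul_assoc]
    rw [h2, h3, CHFX.ct_mul, Matrix.mul_one, Matrix.mul_one, Matrix.mul_assoc h.1, htc, ← Matrix.mul_assoc h.1]
  obtain ⟨z, hz, hzy⟩ := hNORX N H r Φ B Hc E hcl hL (CHFX.ce H n) (fun a ha => (CHFX.mem_ce.1 ha).1)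
    (CHFX.ce_closed hcl n) x0 hreg h hh hmem0 hmem1
  have hzn : z * n = n * z := (CHFX.mem_ce.1 hz).2
  obtain ⟨y, hy⟩ := hzy (fun j => 2 * π * φ j)
  have hnex : n = ex (hx Hc y) 1 := by
    have h1 : n = (z⁻¹ * h) * ta Hc φ * (z⁻¹ * h)⁻¹ := by
      have h2 : (z⁻¹ * h) * ta Hc φ * (z⁻¹ * h)⁻¹ = z⁻¹ * (h * ta Hc φ * h⁻¹) * z := by group
      rw [h2, ← hφ, mul_assoc, ← hzn]
      group
    rw [h1, ta, CHFX.ex_conj _ _ (hT.hmem _).1 (by rw [hy]; exact (hT.hmem y).1), hy]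
  have hall : ∀ x : Fin r → ℝ, n.1 * hx Hc x * n.1ᴴ = hx Hc x := by
    intro x
    have h1 : n.1 * hx Hc x = hx Hc x * n.1 := by
      have h2 : n.1 = NormedSpace.exp (((1 : ℝ) : ℂ) • hx Hc y) := by
        have h3 := (t_EXP N (hx Hc y) (hT.hmem y).1).coe 1
        rw [← hnex] at h3
        exact h3
      rw [h2]
      have hc : Commute (((1 : ℝ) : ℂ) • hx Hc y) (hx Hc x) := (CHFX.hx_comm Hc hL.comm _ _).smul_left _
      exact (hc.exp_left).eq
    rw [h1, Matrix.mul_assoc, CHFX.mul_ct, Matrix.mul_one]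
  -- conclusion
  ext a b
  have h1 := CHFX.hx_inj hL.lin ((hu (Pi.single a 1)).symm.trans (hall (Pi.single a 1)))
  have h2 := congrFun h1 b
  have h3 : ∑ i, (u i b : ℝ) * (Pi.single a 1 : Fin r → ℝ) i = (u a b : ℝ) := by
    rw [Finset.sum_eq_single a]
    · rw [Pi.single_eq_same, mul_one]
    · intro i _ hi
      rw [Pi.single_eq_of_ne hi, mul_zero]
    · intro ha
      exact absurd (Finset.mem_univ a) ha
  rw [h3] at h2
  by_cases hab : a = b
  · subst hab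
    rw [Pi.single_eq_same] at h2
    rw [Matrix.one_apply_eq]
    exact_mod_cast h2
  · rw [Pi.single_eq_of_ne (Ne.symm hab)] at h2
    rw [Matrix.one_apply_ne hab]
    exact_mod_cast h2

end

end LGR
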