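import Pool.Agent.LGR.StR

/-!
# CHIF: the characters for the dominant weights of `H` are all the irreducible characters
-/

namespace LGR

open STZ MeasureTheory Matrix Filter

open scoped ComplexConjugate Matrix Real Topology

noncomputable section

namespace CHIF

/-- the exponent of a regular weight -/
def un {r : ℕ} (l : Fin r → ℤ) : Fin r → ℕ := fun i => (l i - 1).toNat

lemma wG_un {r : ℕ} {l : Fin r → ℤ} (h : Reg l) : wG (un l) = l := by
  funext i
  have h1 := h i
  show ((l i - 1).toNat : ℤ) + 1 = l i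
  rw [Int.toNat_of_nonneg (by omega)]
  ring

lemma reg_wG {r : ℕ} (a : Fin r → ℕ) : Reg (wG a) := by
  intro i
  show (1 : ℤ) ≤ (a i : ℤ) + 1
  omega

lemma wG_inj {r : ℕ} {a b : Fin r → ℕ} (h : wG a = wG b) : a = b := by
  funext i
  have h1 : ((a i : ℤ) + 1) = (b i : ℤ) + 1 := congrFun h i
  omega

/-- a regular weight is determined by its alternating sum -/
lemma at_inj {r : ℕ} {D : RD r} (hTP : S_TPOL) (h1 : (1 : Matrix (Fin r) (Fin r) ℤ) ∈ D.W)
    (hfree : ∀ l, Reg l → ∀ w ∈ D.W, Reg (w *ᵥ l) → w = 1) {l l' : Fin r → ℤ} (hl : Reg l)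
    (hl' : Reg l') (h : ∀ θ, AT D l θ = AT D l' θ) : l = l' := by
  classical
  by_contra hne
  set S : Finset (Fin r → ℤ) := D.W.image (fun w => w *ᵥ l) ∪ D.W.image (fun w => w *ᵥ l') with hS
  set a : (Fin r → ℤ) → ℂ := fun μ => ∑ w ∈ D.W, (w.det : ℂ) * (if w *ᵥ l = μ then 1 else 0) -
    ∑ w ∈ D.W, (w.det : ℂ) * (if w *ᵥ l' = μ then 1 else 0) with ha
  have key : ∀ (m : Fin r → ℤ), (∀ w ∈ D.W, w *ᵥ m ∈ S) → ∀ θ : Fin r → ℝ,
      ∑ μ ∈ S, (∑ w ∈ D.W, (w.det : ℂ) * (if w *ᵥ m = μ then 1 else 0)) * eu (dz μ θ) =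
        AT D m θ := by
    intro m hm θ
    unfold AT
    simp_rw [Finset.sum_mul]
    rw [Finset.sum_comm]
    refine Finset.sum_congr rfl fun w hw => ?_
    rw [Finset.sum_eq_single (w *ᵥ m)]
    · rw [if_pos rfl, mul_one]
    · intro μ _ hμ
      rw [if_neg (fun h => hμ h.symm), mul_zero, zero_mul]
    · intro h
      exact absurd (hm w hw) h
  have hz : ∀ θ : Fin r → ℝ, ∑ μ ∈ S, a μ * eu (dz μ θ) = 0 := by
    intro θ
    simp only [ha, sub_mul, Finset.sum_sub_distrib]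
    rw [key l (fun w hw => Finset.mem_union_left _ (Finset.mem_image_of_mem _ hw)) θ,
      key l' (fun w hw => Finset.mem_union_right _ (Finset.mem_image_of_mem _ hw)) θ, h θ, sub_self]
  have hlS : l ∈ S := by
    refine Finset.mem_union_left _ (Finset.mem_image.2 ⟨1, h1, ?_⟩)
    rw [Matrix.one_mulVec]
  have h0 := (hTP r).2 S a hz l hlS
  have e1 : ∑ w ∈ D.W, (w.det : ℂ) * (if w *ᵥ l = l then 1 else 0) = 1 := by
    rw [Finset.sum_eq_single (1 : Matrix (Fin r) (Fin r) ℤ)]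
    · rw [Matrix.one_mulVec, if_pos rfl, Matrix.det_one]
      simp
    · intro w hw hw1
      rw [if_neg, mul_zero]
      intro h2
      exact hw1 (hfree l hl w hw (by rw [h2]; exact hl))
    · intro h2
      exact absurd h1 h2
  have e2 : ∑ w ∈ D.W, (w.det : ℂ) * (if w *ᵥ l' = l then 1 else 0) = 0 := by
    refine Finset.sum_eq_zero fun w hw => ?_
    rw [if_neg, mul_zero]
    intro h2
    have h3 : w = 1 := hfree l' hl' w hw (by rw [h2]; exact hl)
    rw [h3, Matrix.one_mulVec] at h2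
    exact hne h2.symm
  simp only [ha] at h0
  rw [e1, e2, sub_zero] at h0
  exact one_ne_zero h0

/-- the regular points of the torus are dense -/
lemma dense_reg {r : ℕ} {D : RD r} {P : RT r} (hDN : S_DENV) (hV : RV D P) (hA : ATV D P) :
    Dense {θ : Fin r → ℝ | AT D 1 θ ≠ 0} := by
  set R : Set (Fin r → ℝ) := {θ : Fin r → ℝ | AT D 1 θ ≠ 0} with hR
  have hF := (hDN r D P hV).2
  have hne : R.Nonempty := by
    by_contra hemp
    rw [Set.not_nonempty_iff_eq_empty] at hemp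
    have h1 := hF (fun _ => 1) continuous_const (fun θ hθ => by
      have h2 : θ ∈ R := (hA.ne θ).2 hθ
      rw [hemp] at h2
      exact absurd h2 (Set.notMem_empty θ)) 0
    exact one_ne_zero h1
  intro θ
  have h1 := hF (fun θ => ((Metric.infDist θ R : ℝ) : ℂ))
    (Complex.continuous_ofReal.comp (Metric.continuous_infDist_pt R)) (fun θ hθ => by
      have h2 : θ ∈ R := (hA.ne θ).2 hθ
      show ((Metric.infDist θ R : ℝ) : ℂ) = 0
      rw [Metric.infDist_zero_of_mem h2, Complex.ofReal_zero]) θ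
  have h2 : Metric.infDist θ R = 0 := by exact_mod_cast h1
  exact (Metric.mem_closure_iff_infDist_zero hne).2 h2

/-- a character is a class function -/
lemma ch_conj {G : Type} [Group G] [TopologicalSpace G] {ι : Type} [Fintype ι] [DecidableEq ι]
    (R : Rep G ι) (h t : G) : R.ch (h * t * h⁻¹) = R.ch t := by
  unfold Rep.ch
  rw [map_mul, Matrix.trace_mul_comm, ← map_mul]
  congr 2
  group

lemma ch_cont {G : Type} [Group G] [TopologicalSpace G] {ι : Type} [Fintype ι] [DecidableEq ι]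
    (R : Rep G ι) : Continuous R.ch := R.cont.matrix_trace

/-- the conjugates of the regular points of the torus -/
def DN {N : ℕ} (H : Subgroup (SU N)) {r : ℕ} (D : RD r) (Hc : Fin r → Matrix (Fin N) (Fin N) ℂ) :
    Set H :=
  {g | ∃ (h t : H) (θ : Fin r → ℝ), AT D 1 θ ≠ 0 ∧ t.1 = ta Hc θ ∧ g = h * t * h⁻¹}

lemma dense_DN {N : ℕ} {H : Subgroup (SU N)} {r : ℕ} {D : RD r}
    {Hc : Fin r → Matrix (Fin N) (Fin N) ℂ} (hmem : ∀ θ, ta Hc θ ∈ H) (hcont : Continuous (ta Hc))
    (hd : Dense {θ : Fin r → ℝ | AT D 1 θ ≠ 0})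
    (hconj : ∀ g ∈ H, ∃ h ∈ H, ∃ θ : Fin r → ℝ, g = h * ta Hc θ * h⁻¹) : Dense (DN H D Hc) := by
  intro g
  obtain ⟨h, hh, θ, hg⟩ := hconj g.1 g.2
  set Ψ : (Fin r → ℝ) → H := fun θ' => ⟨h, hh⟩ * ⟨ta Hc θ', hmem θ'⟩ * (⟨h, hh⟩ : H)⁻¹ with hΨ
  have hΨc : Continuous Ψ := by
    have h1 : Continuous fun θ' => (⟨ta Hc θ', hmem θ'⟩ : H) := hcont.subtype_mk _
    exact (continuous_const.mul h1).mul continuous_const
  have hgΨ : g = Ψ θ := Subtype.ext hg
  have h1 : θ ∈ closure {θ : Fin r → ℝ | AT D 1 θ ≠ 0} := hd θ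
  have h2 := image_closure_subset_closure_image hΨc (Set.mem_image_of_mem Ψ h1)
  rw [hgΨ]
  refine closure_mono ?_ h2
  rintro _ ⟨θ', hθ', rfl⟩
  exact ⟨⟨h, hh⟩, ⟨ta Hc θ', hmem θ'⟩, θ', hθ', rfl, rfl⟩

/-- two representations with the same highest weight have the same character -/
lemma ch_eq {N : ℕ} {H : Subgroup (SU N)} {r : ℕ} {Φ : RT r}
    {Hc : Fin r → Matrix (Fin N) (Fin N) ℂ} {c k : ℝ} {d : ℕ} (hD : Dense (DN H (rd Φ) Hc))
    {n n' : ℕ} {σ : Rep H (Fin n)} {σ' : Rep H (Fin n')} {l : Fin r → ℤ}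
    (h : HWR Φ Hc c k d σ l) (h' : HWR Φ Hc c k d σ' l) : ∀ g, σ.ch g = σ'.ch g := by
  have h1 : Set.EqOn σ.ch σ'.ch (DN H (rd Φ) Hc) := by
    rintro g ⟨h0, t, θ, hθ, ht, rfl⟩
    rw [ch_conj, ch_conj]
    have e1 := h.wcf t θ ht
    have e2 := h'.wcf t θ ht
    exact mul_left_cancel₀ hθ (e1.trans e2.symm)
  exact fun g => congrFun (Continuous.ext_on hD (ch_cont σ) (ch_cont σ') h1) g

end CHIF

theorem t_CHIF : M_CHIF := by
  intro hHA hKB hKE hAL hTE hSW hWF hCM hRV hAT hDN hTA hCJ hTP hPF hDP hNR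
    N H r Φ B Hc E c k d X hr hcl hcn hL hKC hX χ hχ
  have hV : RV (rd Φ) (pos Φ) := hRV r Φ B hr hL.ird
  have hA : ATV (rd Φ) (pos Φ) := hAT r (rd Φ) (pos Φ) hV
  have hT : TAF H Φ Hc E := hTA N H r Φ B Hc E hcl hL
  have hdr := CHIF.dense_reg hDN hV hA
  have hDd : Dense (CHIF.DN H (rd Φ) Hc) :=
    CHIF.dense_DN hT.mem hT.cont hdr (hCJ N H r Φ B Hc E hcl hcn hL)
  have hirr : IrrFam χ := by
    refine ⟨fun a => ?_, fun a b hab => ?_⟩
    · obtain ⟨n, σ, h1, -, -, h2⟩ := hχ a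
      exact ⟨n, σ, h1, h2⟩
    · by_contra hcon
      push Not at hcon
      obtain ⟨n, σ, -, -, h1, h2⟩ := hχ a
      obtain ⟨n', σ', -, -, h1', h2'⟩ := hχ b
      apply hab
      refine Subtype.ext (CHIF.wG_inj (CHIF.at_inj hTP hV.W_one hV.free (CHIF.reg_wG _)
        (CHIF.reg_wG _) fun θ => ?_))
      have e1 := h1.wcf ⟨ta Hc θ, hT.mem θ⟩ θ rfl
      have e2 := h1'.wcf ⟨ta Hc θ, hT.mem θ⟩ θ rfl
      rw [← e1, ← e2, h2, h2', hcon]
  refine ⟨hirr, ?_, ?_⟩
  · refine hDd.mono ?_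
    rintro g ⟨h, t, θ, hθ, ht, rfl⟩
    refine ⟨θ, hθ, fun i => ?_⟩
    obtain ⟨n, σ, -, -, h1, h2⟩ := hχ i
    rw [← h2, CHIF.ch_conj, mul_comm]
    exact h1.wcf t θ ht
  · intro μ _ _ f hf h0
    have hocc : ∀ (n : ℕ) (σ : Rep H (Fin n)), σ.Irr → PRep σ →
        ∃ a : IX Hc, ∀ g, σ.ch g = χ a g := by
      intro n σ hσ hp
      obtain ⟨l, hl⟩ := hNR N H r Φ B Hc E c k d X hr hcl hcn hL hKC hX n σ hσ hp
      have hw := CHIF.wG_un hl.reg
      refine ⟨⟨CHIF.un l, fun z hz => ?_⟩, fun g => ?_⟩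
      · rw [hw]
        exact hl.triv z hz
      · obtain ⟨n', σ', -, -, h1, h2⟩ := hχ ⟨CHIF.un l, fun z hz => by rw [hw]; exact hl.triv z hz⟩
        rw [← h2]
        have h3 : HWR Φ Hc c k d σ' l := by
          have h4 := h1
          rw [hw] at h4
          exact h4
        exact CHIF.ch_eq hDd hl h3 g
    have hcs : CompactSpace H := isCompact_iff_compactSpace.1 hcl.isCompact
    have hsc : SecondCountableTopology H :=
      TopologicalSpace.Subtype.secondCountableTopology (H : Set (SU N))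
    obtain ⟨hker, -⟩ := hKE H μ (IX Hc) χ hirr
    have hkbf := hKB H μ (IX Hc) (KK χ) hker
    have hPr0 : ∀ (S : Finset (IX Hc)) (y : H), Pr μ (KK χ) S f y = 0 := by
      intro S y
      unfold Pr
      refine Finset.sum_eq_zero fun a _ => ?_
      have h := congrFun (h0 a) y
      unfold Pr at h
      rw [Finset.sum_singleton] at h
      exact h
    have hc : Continuous fun g => conj (f g) := Complex.continuous_conj.comp hf
    have hn : nsq μ (fun g => conj (f g)) = 0 := by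
      refine hSW N H hcl μ (fun g => conj (f g)) hc ?_
      intro i j p q p' q'
      obtain ⟨R, hR1, hR2⟩ := hTE N H i j
      have hPR : PRep R := by
        intro p q
        have e : (fun g => R.ρ g p q) = fun g : H =>
            (∏ s, g.1.1 (p.1 s) (q.1 s)) * ∏ s, conj (g.1.1 (p.2 s) (q.2 s)) := by
          funext g
          rw [hR1]
        rw [e]
        exact (hPF N H hcl).mono i j p.1 q.1 p.2 q.2
      obtain ⟨m, M, σ, hσ, hσp, hσc, -⟩ := hDP N H _ R hPR
      choose a ha using fun k => hocc (M k) (σ k) (hσ k) (hσp k)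
      classical
      have hch : ∀ g, R.ch g = ∑ b ∈ Finset.univ.image a,
          (((Finset.univ.filter fun k => a k = b).card : ℕ) : ℂ) * χ b g := by
        intro g
        rw [hσc]
        have e : ∑ k, (σ k).ch g = ∑ k, χ (a k) g := Finset.sum_congr rfl fun k _ => ha k g
        rw [e, Finset.sum_comp (fun b => χ b g) a]
        exact Finset.sum_congr rfl fun b _ => nsmul_eq_mul _ _
      have hall := hAL H μ (IX Hc) χ hirr _ R (Finset.univ.image a)
        (fun b => (((Finset.univ.filter fun k => a k = b).card : ℕ) : ℂ)) hch (p, p') (q, q')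
      have hm : (fun g : H => (∏ s, g.1.1 (p s) (q s)) * ∏ s, conj (g.1.1 (p' s) (q' s))) =
          fun g => R.ρ g (p, p') (q, q') := by
        funext g
        rw [hR1]
      have hmc : Continuous fun g => R.ρ g (p, p') (q, q') := R.cont.matrix_elem _ _
      have hadj := hkbf.adj (Finset.univ.image a) (fun g => R.ρ g (p, p') (q, q')) f hmc hf
      rw [hall] at hadj
      have e : (fun g : H => conj (f g) *
          ((∏ s, g.1.1 (p s) (q s)) * ∏ s, conj (g.1.1 (p' s) (q' s)))) =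
          fun g => conj (f g) * R.ρ g (p, p') (q, q') := by
        funext g
        rw [congrFun hm g]
      rw [e, ← hadj]
      have e2 : (fun y => conj (Pr μ (KK χ) (Finset.univ.image a) f y) *
          R.ρ y (p, p') (q, q')) = fun _ => 0 := by
        funext y
        rw [hPr0, map_zero, zero_mul]
      rw [e2, integral_zero]
    have : μ.IsOpenPosMeasure := (hHA H μ).2.2
    have hn2 : ∫ y, ‖f y‖ ^ 2 ∂μ = 0 := by
      have e : (fun y => ‖f y‖ ^ 2) = fun y => ‖conj (f y)‖ ^ 2 := by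
        funext y
        rw [RCLike.norm_conj]
      rw [e]
      exact hn
    have hi : Integrable (fun y => ‖f y‖ ^ 2) μ :=
      (hf.norm.pow 2).integrable_of_hasCompactSupport (HasCompactSupport.of_compactSpace _)
    rw [integral_eq_zero_iff_of_nonneg (fun y => sq_nonneg _) hi] at hn2
    have h2 : (fun y => ‖f y‖ ^ 2) = 0 :=
      (Continuous.ae_eq_iff_eq μ (hf.norm.pow 2) continuous_const).mp hn2
    funext y
    have h3 : ‖f y‖ ^ 2 = 0 := congrFun h2 y
    have h4 : ‖f y‖ = 0 := by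
      rwa [sq_eq_zero_iff] at h3
    exact norm_eq_zero.mp h4

end

end LGR
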