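import Pool.Agent.LGR.StD

/-!
# Extension of class functions from the torus to the group
-/

namespace LGR

open STZ MeasureTheory Matrix Filter

open scoped ComplexConjugate Matrix Real Topology

noncomputable section

namespace CLFX

/-- the map `(h, θ) ↦ h ta(θ) h⁻¹` -/
def cj {N r : ℕ} {H : Subgroup (SU N)} {Hc : Fin r → Matrix (Fin N) (Fin N) ℂ}
    (hm : ∀ θ, ta Hc θ ∈ H) (p : H × Set.Icc (0 : Fin r → ℝ) 1) : H :=
  ⟨p.1.1 * ta Hc p.2.1 * p.1.1⁻¹, H.mul_mem (H.mul_mem p.1.2 (hm _)) (H.inv_mem p.1.2)⟩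

theorem cj_cont {N r : ℕ} {H : Subgroup (SU N)} {Hc : Fin r → Matrix (Fin N) (Fin N) ℂ}
    (hm : ∀ θ, ta Hc θ ∈ H) (hc : Continuous (ta Hc)) : Continuous (cj hm) := by
  unfold cj
  refine Continuous.subtype_mk ?_ _
  have h1 : Continuous fun p : H × Set.Icc (0 : Fin r → ℝ) 1 => p.1.1 :=
    continuous_subtype_val.comp continuous_fst
  have h2 : Continuous fun p : H × Set.Icc (0 : Fin r → ℝ) 1 => ta Hc p.2.1 :=
    hc.comp (continuous_subtype_val.comp continuous_snd)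
  exact (h1.mul h2).mul h1.inv

theorem ta_fract {N r : ℕ} {H : Subgroup (SU N)} {Φ : RT r}
    {Hc : Fin r → Matrix (Fin N) (Fin N) ℂ}
    {E : (Fin r → ℤ) × (Fin r → ℤ) → Matrix (Fin N) (Fin N) ℂ} (T : TAF H Φ Hc E)
    (θ : Fin r → ℝ) : ta Hc (fun j => Int.fract (θ j)) = ta Hc θ := by
  have h1 : θ = (fun j => Int.fract (θ j)) + fun j => ((⌊θ j⌋ : ℤ) : ℝ) := by
    funext j
    exact (Int.fract_add_floor (θ j)).symm
  conv_rhs => rw [h1]
  rw [T.add, T.int fun j => ⌊θ j⌋, mul_one]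

theorem main (hT : S_TAUF) (hC : S_CONJ) (hW : S_WEYC) : S_CLFX := by
  intro N H r Φ B Hc E hcl hcon hL F hF hF1 hF2
  have T := hT N H r Φ B Hc E hcl hL
  have hcs : CompactSpace H := isCompact_iff_compactSpace.1 hcl.isCompact
  have key : ∀ (g : SU N), ∀ h ∈ H, ∀ h' ∈ H, ∀ θ θ' : Fin r → ℝ,
      g = h * ta Hc θ * h⁻¹ → g = h' * ta Hc θ' * h'⁻¹ → F θ = F θ' := by
    intro g h hh h' hh' θ θ' e1 e2
    have e3 : (h'⁻¹ * h) * ta Hc θ * (h'⁻¹ * h)⁻¹ = ta Hc θ' := by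
      have e4 : (h'⁻¹ * h) * ta Hc θ * (h'⁻¹ * h)⁻¹ = h'⁻¹ * (h * ta Hc θ * h⁻¹) * h' := by
        group
      rw [e4, ← e1, e2]
      group
    obtain ⟨w, hw, e5⟩ := hW N H r Φ B Hc E hcl hcon hL _ (H.mul_mem (H.inv_mem hh') hh) θ θ' e3
    rw [← hF2 w hw θ]
    exact hF1 _ _ e5
  choose hc hcm tc htc using fun g : H => hC N H r Φ B Hc E hcl hcon hL g.1 g.2
  have hf : ∀ g : H, ∀ h ∈ H, ∀ θ : Fin r → ℝ, g.1 = h * ta Hc θ * h⁻¹ → F (tc g) = F θ :=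
    fun g h hh θ e => key g.1 _ (hcm g) h hh _ _ (htc g) e
  refine ⟨fun g => F (tc g), ?_, ?_, ?_⟩
  · have hq : Topology.IsQuotientMap (cj (H := H) (Hc := Hc) T.mem) := by
      refine IsClosedMap.isQuotientMap (cj_cont T.mem T.cont).isClosedMap
        (cj_cont T.mem T.cont) ?_
      intro g
      obtain ⟨h, hh, θ, e⟩ := hC N H r Φ B Hc E hcl hcon hL g.1 g.2
      refine ⟨(⟨h, hh⟩, ⟨fun j => Int.fract (θ j), fun j => Int.fract_nonneg _,
        fun j => (Int.fract_lt_one _).le⟩), Subtype.ext ?_⟩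
      show h * ta Hc (fun j => Int.fract (θ j)) * h⁻¹ = g.1
      rw [ta_fract T, e]
    rw [hq.continuous_iff]
    have h1 : ((fun g : H => F (tc g)) ∘ cj (H := H) (Hc := Hc) T.mem) =
        fun p : H × Set.Icc (0 : Fin r → ℝ) 1 => F p.2.1 := by
      funext p
      exact hf (cj T.mem p) p.1.1 p.1.2 p.2.1 rfl
    rw [h1]
    exact hF.comp (continuous_subtype_val.comp continuous_snd)
  · intro g h
    refine hf (h * g * h⁻¹) (h.1 * hc g) (H.mul_mem h.2 (hcm g)) (tc g) ?_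
    show h.1 * g.1 * h.1⁻¹ = h.1 * hc g * ta Hc (tc g) * (h.1 * hc g)⁻¹
    rw [htc g]
    group
  · intro g θ e
    refine hf g 1 H.one_mem θ ?_
    rw [e]
    group

end CLFX

theorem t_CLFX : M_CLFX := fun h1 h2 h3 => CLFX.main h1 h2 h3

end

end LGR
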