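import Pool.Agent.LGR.StD
import Pool.Agent.STZ.EXP

/-!
# CLSU: the closed subgroup theorem
-/

namespace LGR

open STZ Matrix Filter

open scoped ComplexConjugate Matrix Real Topology

noncomputable section

namespace CLSU

/-- the closed subgroup theorem in a finite dimensional Banach algebra -/
theorem gen {𝔸 : Type} [NormedRing 𝔸] [NormedAlgebra ℝ 𝔸] [FiniteDimensional ℝ 𝔸]
    (S : Submonoid 𝔸) (hS : IsClosed (S : Set 𝔸)) (hinv : ∀ x ∈ S, ∃ y ∈ S, y * x = 1)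
    (L : Submodule ℝ 𝔸) (hL : ∀ X, X ∈ L ↔ ∀ t : ℝ, NormedSpace.exp (t • X) ∈ S)
    (U : Set 𝔸) (hU : U ∈ 𝓝 (0 : 𝔸)) :
    ∃ W ∈ 𝓝 (1 : 𝔸), ∀ g ∈ S, g ∈ W → ∃ X ∈ L, X ∈ U ∧ NormedSpace.exp X = g := by
  have hcs : CompleteSpace 𝔸 := FiniteDimensional.complete ℝ 𝔸
  have hps : ProperSpace 𝔸 := FiniteDimensional.proper_real 𝔸
  let _ : NormedAlgebra ℚ 𝔸 := NormedAlgebra.restrictScalars ℚ ℝ 𝔸
  -- the projection
  obtain ⟨p, hp⟩ := LinearMap.exists_leftInverse_of_injective L.subtype (by simp)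
  let P : 𝔸 →L[ℝ] 𝔸 := LinearMap.toContinuousLinearMap (L.subtype ∘ₗ p)
  have hP1 : ∀ x, P x ∈ L := fun x => (p x).2
  have hP2 : ∀ x ∈ L, P x = x := by
    intro x hx
    have := LinearMap.congr_fun hp ⟨x, hx⟩
    exact congrArg Subtype.val this
  -- the map
  let F : 𝔸 → 𝔸 := fun Z => NormedSpace.exp (P Z) * NormedSpace.exp (Z - P Z)
  have hF0 : F 0 = 1 := by simp [F]
  have hF : HasStrictFDerivAt F (1 : 𝔸 →L[ℝ] 𝔸) 0 := by
    have e0 : HasStrictFDerivAt (NormedSpace.exp : 𝔸 → 𝔸) (1 : 𝔸 →L[ℝ] 𝔸) (P 0) := by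
      rw [map_zero]
      exact hasStrictFDerivAt_exp_zero
    have e1 : HasStrictFDerivAt (fun Z => NormedSpace.exp (P Z)) ((1 : 𝔸 →L[ℝ] 𝔸).comp P) 0 :=
      HasStrictFDerivAt.comp (0 : 𝔸) e0 P.hasStrictFDerivAt
    have e2 : HasStrictFDerivAt (NormedSpace.exp : 𝔸 → 𝔸) (1 : 𝔸 →L[ℝ] 𝔸)
        ((0 : 𝔸) - P 0) := by
      rw [map_zero, sub_zero]
      exact hasStrictFDerivAt_exp_zero
    have e3 : HasStrictFDerivAt (fun Z : 𝔸 => Z - P Z) ((1 : 𝔸 →L[ℝ] 𝔸) - P) 0 :=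
      (hasStrictFDerivAt_id (0 : 𝔸)).sub P.hasStrictFDerivAt
    have e4 : HasStrictFDerivAt (fun Z => NormedSpace.exp (Z - P Z))
        ((1 : 𝔸 →L[ℝ] 𝔸).comp ((1 : 𝔸 →L[ℝ] 𝔸) - P)) 0 :=
      HasStrictFDerivAt.comp (0 : 𝔸) e2 e3
    have e5 := e1.mul' e4
    refine e5.congr_fderiv ?_
    ext Z
    simp
  have hFn : map F (𝓝 0) = 𝓝 (1 : 𝔸) := by
    rw [← hF0]
    apply hF.map_nhds_eq_of_surj
    rw [LinearMap.range_eq_top]
    exact fun x => ⟨x, rfl⟩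
  by_contra hcon
  push Not at hcon
  have hV : P ⁻¹' U ∈ 𝓝 (0 : 𝔸) := by
    apply P.continuous.continuousAt
    rw [map_zero]
    exact hU
  have hstep : ∀ n : ℕ, ∃ Z : 𝔸, P Z ∈ U ∧ ‖Z‖ < 1 / ((n : ℝ) + 1) ∧ F Z ∈ S ∧
      ∀ X ∈ L, X ∈ U → NormedSpace.exp X ≠ F Z := by
    intro n
    have h1 : P ⁻¹' U ∩ Metric.ball 0 (1 / ((n : ℝ) + 1)) ∈ 𝓝 (0 : 𝔸) :=
      inter_mem hV (Metric.ball_mem_nhds _ (by positivity))
    have h2 : F '' (P ⁻¹' U ∩ Metric.ball 0 (1 / ((n : ℝ) + 1))) ∈ 𝓝 (1 : 𝔸) := by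
      rw [← hFn]
      exact image_mem_map h1
    obtain ⟨g, hg, ⟨Z, ⟨hZ1, hZ2⟩, rfl⟩, hg3⟩ := hcon _ h2
    exact ⟨Z, hZ1, by simpa using hZ2, hg, hg3⟩
  choose Z hZU hZn hZS hZX using hstep
  set Y : ℕ → 𝔸 := fun n => Z n - P (Z n) with hY
  have hYne : ∀ n, Y n ≠ 0 := by
    intro n h
    apply hZX n (P (Z n)) (hP1 _) (hZU n)
    change _ = NormedSpace.exp (P (Z n)) * NormedSpace.exp (Y n)
    rw [h, NormedSpace.exp_zero, mul_one]
  have hYn : ∀ n, 0 < ‖Y n‖ := fun n => norm_pos_iff.mpr (hYne n)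
  have hPY : ∀ n, P (Y n) = 0 := by
    intro n
    simp only [hY]
    rw [map_sub, hP2 _ (hP1 _), sub_self]
  have hexpneg : ∀ X : 𝔸, NormedSpace.exp (-X) * NormedSpace.exp X = 1 := by
    intro X
    rw [← NormedSpace.exp_add_of_commute (Commute.refl X).neg_left, neg_add_cancel,
      NormedSpace.exp_zero]
  have hYS : ∀ n, NormedSpace.exp (Y n) ∈ S := by
    intro n
    have h1 : NormedSpace.exp (-(P (Z n))) ∈ S := by
      have := (hL (P (Z n))).mp (hP1 _) (-1)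
      rwa [neg_one_smul] at this
    have h2 := S.mul_mem h1 (hZS n)
    have h3 : NormedSpace.exp (-(P (Z n))) * F (Z n) = NormedSpace.exp (Y n) := by
      change NormedSpace.exp (-(P (Z n))) * (NormedSpace.exp (P (Z n)) * NormedSpace.exp (Y n)) = _
      rw [← mul_assoc, hexpneg, one_mul]
    rwa [h3] at h2
  have hYS' : ∀ n, NormedSpace.exp (-(Y n)) ∈ S := by
    intro n
    obtain ⟨y, hy, hy1⟩ := hinv _ (hYS n)
    have h1 : NormedSpace.exp (Y n) * NormedSpace.exp (-(Y n)) = 1 := by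
      have := hexpneg (-(Y n))
      rwa [neg_neg] at this
    have h2 : y = NormedSpace.exp (-(Y n)) := by
      calc y = y * (NormedSpace.exp (Y n) * NormedSpace.exp (-(Y n))) := by rw [h1, mul_one]
        _ = NormedSpace.exp (-(Y n)) := by rw [← mul_assoc, hy1, one_mul]
    rwa [← h2]
  have hYZ : ∀ n (m : ℤ), NormedSpace.exp ((m : ℝ) • Y n) ∈ S := by
    intro n m
    obtain ⟨k, rfl | rfl⟩ := m.eq_nat_or_neg
    · have h1 : ((k : ℤ) : ℝ) • Y n = k • Y n := by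
        rw [Int.cast_natCast, Nat.cast_smul_eq_nsmul]
      rw [h1, NormedSpace.exp_nsmul]
      exact S.pow_mem (hYS n) k
    · have h1 : ((-(k : ℤ) : ℤ) : ℝ) • Y n = k • (-(Y n)) := by
        rw [Int.cast_neg, Int.cast_natCast, neg_smul, Nat.cast_smul_eq_nsmul, smul_neg]
      rw [h1, NormedSpace.exp_nsmul]
      exact S.pow_mem (hYS' n) k
  have hZ0 : Tendsto Z atTop (𝓝 0) := by
    rw [tendsto_zero_iff_norm_tendsto_zero]
    refine squeeze_zero (fun n => norm_nonneg _) (fun n => (hZn n).le) ?_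
    exact tendsto_one_div_add_atTop_nhds_zero_nat
  have hY0 : Tendsto (fun n => ‖Y n‖) atTop (𝓝 0) := by
    have h1 : Continuous fun Z : 𝔸 => Z - P Z := continuous_id.sub P.continuous
    have h2 := (h1.tendsto 0).comp hZ0
    simp only [map_zero, sub_zero] at h2
    exact (tendsto_zero_iff_norm_tendsto_zero.mp h2)
  have hsph : ∀ n, ‖Y n‖⁻¹ • Y n ∈ Metric.sphere (0 : 𝔸) 1 := by
    intro n
    rw [mem_sphere_zero_iff_norm, norm_smul, norm_inv, norm_norm, inv_mul_cancel₀ (hYn n).ne']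
  obtain ⟨u, hu, φ, hφ, hlim⟩ := (isCompact_sphere (0 : 𝔸) 1).tendsto_subseq hsph
  have hu1 : ‖u‖ = 1 := mem_sphere_zero_iff_norm.mp hu
  have hPu : P u = 0 := by
    have h1 := (P.continuous.tendsto u).comp hlim
    have h2 : (P ∘ (fun n => ‖Y n‖⁻¹ • Y n) ∘ φ) = fun _ => (0 : 𝔸) := by
      funext n
      change P (‖Y (φ n)‖⁻¹ • Y (φ n)) = 0
      rw [map_smul, hPY, smul_zero]
    rw [h2] at h1
    exact (tendsto_const_nhds_iff.mp h1).symm
  have huL : u ∈ L := by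
    rw [hL]
    intro t
    have hmt : Tendsto (fun n => ((⌊t / ‖Y (φ n)‖⌋ : ℤ) : ℝ) * ‖Y (φ n)‖) atTop (𝓝 t) := by
      rw [tendsto_iff_norm_sub_tendsto_zero]
      refine squeeze_zero (fun n => norm_nonneg _) (fun n => ?_) (hY0.comp hφ.tendsto_atTop)
      change _ ≤ ‖Y (φ n)‖
      have h1 := Int.floor_le (t / ‖Y (φ n)‖)
      have h2 := Int.lt_floor_add_one (t / ‖Y (φ n)‖)
      have h3 := hYn (φ n)
      rw [le_div_iff₀ h3] at h1
      rw [div_lt_iff₀ h3] at h2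
      rw [Real.norm_eq_abs, abs_le]
      constructor <;> nlinarith
    have h1 := hmt.smul hlim
    have h2 := h1.exp
    refine hS.mem_of_tendsto h2 (Eventually.of_forall fun n => ?_)
    have h3 : (((⌊t / ‖Y (φ n)‖⌋ : ℤ) : ℝ) * ‖Y (φ n)‖) •
        ((fun n => ‖Y n‖⁻¹ • Y n) ∘ φ) n = ((⌊t / ‖Y (φ n)‖⌋ : ℤ) : ℝ) • Y (φ n) := by
      change _ • (‖Y (φ n)‖⁻¹ • Y (φ n)) = _
      rw [smul_smul, mul_assoc, mul_inv_cancel₀ (hYn (φ n)).ne', mul_one]
    rw [h3]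
    exact hYZ _ _
  have h1 := hP2 u huL
  rw [hPu] at h1
  rw [← h1, norm_zero] at hu1
  exact zero_ne_one hu1


section

variable {N : ℕ}

/-- skew-Hermitian from the one parameter group -/
theorem skew {X : Matrix (Fin N) (Fin N) ℂ}
    (h : ∀ t : ℝ, NormedSpace.exp ((t : ℂ) • X) ∈ Matrix.specialUnitaryGroup (Fin N) ℂ) :
    Xᴴ = -X := by
  have h1 : ∀ t : ℝ, NormedSpace.exp ((t : ℂ) • Xᴴ) = NormedSpace.exp ((t : ℂ) • (-X)) := by
    intro t
    have h2 := (Matrix.mem_specialUnitaryGroup_iff.mp (h t)).1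
    rw [Matrix.mem_unitaryGroup_iff'] at h2
    have h3 : NormedSpace.exp ((t : ℂ) • Xᴴ) = star (NormedSpace.exp ((t : ℂ) • X)) := by
      rw [Matrix.star_eq_conjTranspose, ← Matrix.exp_conjTranspose, Matrix.conjTranspose_smul]
      congr 2
      simp
    have h4 : NormedSpace.exp ((t : ℂ) • X) * NormedSpace.exp ((t : ℂ) • (-X)) = 1 := by
      have h5 : (t : ℂ) • (-X) = (-(t : ℂ)) • X := by
        rw [smul_neg, neg_smul]
      rw [h5, ← EXP.exp_mul_exp, add_neg_cancel, EXP.exp_zero_smul]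
    rw [h3]
    calc star (NormedSpace.exp ((t : ℂ) • X)) = star (NormedSpace.exp ((t : ℂ) • X)) *
          (NormedSpace.exp ((t : ℂ) • X) * NormedSpace.exp ((t : ℂ) • (-X))) := by
          rw [h4, mul_one]
      _ = NormedSpace.exp ((t : ℂ) • (-X)) := by rw [← mul_assoc, h2, one_mul]
  ext i j
  have d1 := EXP.hasDerivAt_entry Xᴴ i j
  have d2 := EXP.hasDerivAt_entry (-X) i j
  have d3 : (fun t : ℝ => NormedSpace.exp ((t : ℂ) • Xᴴ) i j) =
      fun t : ℝ => NormedSpace.exp ((t : ℂ) • (-X)) i j := by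
    funext t
    rw [h1]
  rw [d3] at d1
  exact d1.unique d2

theorem exp_one_smul (c : ℂ) : NormedSpace.exp (c • (1 : Matrix (Fin N) (Fin N) ℂ)) =
    diagonal fun _ => Complex.exp c := by
  have h1 : c • (1 : Matrix (Fin N) (Fin N) ℂ) = diagonal fun _ => c := by
    rw [← Matrix.diagonal_one, ← Matrix.diagonal_smul]
    congr 1
    funext i
    simp
  rw [h1, Matrix.exp_diagonal]
  congr 1
  funext i
  rw [Pi.coe_exp, Complex.exp_eq_exp_ℂ]

theorem tr0 {X : Matrix (Fin N) (Fin N) ℂ}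
    (h : ∀ t : ℝ, NormedSpace.exp ((t : ℂ) • X) ∈ Matrix.specialUnitaryGroup (Fin N) ℂ) :
    X.trace = 0 := by
  have hs := skew h
  rcases Nat.eq_zero_or_pos N with rfl | hN
  · simp [Matrix.trace]
  have hN0 : (N : ℂ) ≠ 0 := by exact_mod_cast hN.ne'
  set c : ℂ := X.trace / N with hc
  have hconj : conj X.trace = -X.trace := by
    have := Matrix.trace_conjTranspose X
    rw [hs, Matrix.trace_neg] at this
    exact this.symm
  have hcc : conj c = -c := by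
    rw [hc, map_div₀, hconj, Complex.conj_natCast]
    ring
  set X' : Matrix (Fin N) (Fin N) ℂ := X - c • 1 with hX'
  have h1 : X'ᴴ = -X' := by
    rw [hX', Matrix.conjTranspose_sub, hs, Matrix.conjTranspose_smul, Matrix.conjTranspose_one]
    change -X - (conj c) • (1 : Matrix (Fin N) (Fin N) ℂ) = _
    rw [hcc, neg_smul]
    abel
  have h2 : X'.trace = 0 := by
    rw [hX', Matrix.trace_sub, Matrix.trace_smul, Matrix.trace_one, Fintype.card_fin, smul_eq_mul,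
      hc, div_mul_cancel₀ _ hN0, sub_self]
  have h3 : ∀ t : ℝ, Complex.exp ((t : ℂ) * X.trace) = 1 := by
    intro t
    have h4 := (Matrix.mem_specialUnitaryGroup_iff.mp (h t)).2
    have h5 := EXP.det_exp_smul X' h1 h2 t
    have h6 : (t : ℂ) • X = ((t : ℂ) * c) • (1 : Matrix (Fin N) (Fin N) ℂ) + (t : ℂ) • X' := by
      rw [hX', smul_sub, smul_smul]
      abel
    rw [h6, Matrix.exp_add_of_commute _ _ ((Commute.one_left _).smul_left _), Matrix.det_mul, h5,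
      mul_one, exp_one_smul, Matrix.det_diagonal, Finset.prod_const, Finset.card_univ,
      Fintype.card_fin, ← Complex.exp_nat_mul] at h4
    rw [← h4]
    congr 1
    rw [hc]
    field_simp
  have d1 : HasDerivAt (fun t : ℝ => Complex.exp ((t : ℂ) * X.trace)) (X.trace) 0 := by
    have h7 : HasDerivAt (fun z : ℂ => Complex.exp (z * X.trace))
        (Complex.exp ((0 : ℂ) * X.trace) * (1 * X.trace)) 0 :=
      ((hasDerivAt_id (0 : ℂ)).mul_const X.trace).cexp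
    rw [zero_mul, Complex.exp_zero, one_mul, one_mul] at h7
    have h8 : HasDerivAt (fun z : ℂ => Complex.exp (z * X.trace)) X.trace ((0 : ℝ) : ℂ) := by
      rw [Complex.ofReal_zero]
      exact h7
    exact h8.comp_ofReal
  have d2 : (fun t : ℝ => Complex.exp ((t : ℂ) * X.trace)) = fun _ => (1 : ℂ) := funext h3
  rw [d2] at d1
  exact d1.unique (hasDerivAt_const _ _)

/-- the matrices of the elements of `H` -/
def SM (H : Subgroup (SU N)) : Submonoid (Matrix (Fin N) (Fin N) ℂ) :=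
  H.toSubmonoid.map (Matrix.specialUnitaryGroup (Fin N) ℂ).subtype

theorem mem_SM {H : Subgroup (SU N)} {M : Matrix (Fin N) (Fin N) ℂ} :
    M ∈ SM H ↔ ∃ h ∈ H, h.1 = M := by
  unfold SM
  rw [Submonoid.mem_map]
  rfl

theorem closed_SM {H : Subgroup (SU N)} (hH : IsClosed (H : Set (SU N))) :
    IsClosed (SM H : Set (Matrix (Fin N) (Fin N) ℂ)) := by
  have h1 : (SM H : Set (Matrix (Fin N) (Fin N) ℂ)) = Subtype.val '' (H : Set (SU N)) := by
    ext M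
    rw [SetLike.mem_coe, mem_SM]
    rfl
  rw [h1]
  exact (hH.isCompact.image continuous_subtype_val).isClosed

theorem inv_SM (H : Subgroup (SU N)) : ∀ x ∈ SM H, ∃ y ∈ SM H, y * x = 1 := by
  intro x hx
  obtain ⟨h, hh, rfl⟩ := mem_SM.mp hx
  refine ⟨(h⁻¹).1, mem_SM.mpr ⟨h⁻¹, H.inv_mem hh, rfl⟩, ?_⟩
  have h1 : (h⁻¹ * h).1 = (1 : SU N).1 := by rw [inv_mul_cancel]
  exact h1

theorem mem_lie {H : Subgroup (SU N)} (X : Matrix (Fin N) (Fin N) ℂ) :
    X ∈ lie H ↔ ∀ t : ℝ, NormedSpace.exp (t • X) ∈ SM H := by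
  have hc : ∀ t : ℝ, t • X = (t : ℂ) • X := fun t => (Complex.coe_smul t X).symm
  constructor
  · rintro ⟨h1, h2⟩ t
    rw [hc, mem_SM]
    exact ⟨ex X t, h2 t, (t_EXP N X h1).coe t⟩
  · intro h
    have h1 : ∀ t : ℝ, NormedSpace.exp ((t : ℂ) • X) ∈ Matrix.specialUnitaryGroup (Fin N) ℂ := by
      intro t
      obtain ⟨g, hg, hg2⟩ := mem_SM.mp (h t)
      rw [← hc, ← hg2]
      exact g.2
    have h2 : X ∈ su N := ⟨skew h1, tr0 h1⟩
    refine ⟨h2, fun t => ?_⟩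
    obtain ⟨g, hg, hg2⟩ := mem_SM.mp (h t)
    have h3 : ex X t = g := by
      apply Subtype.ext
      rw [(t_EXP N X h2).coe, hg2, hc]
    rw [h3]
    exact hg

theorem nhds_pi {A : Fin N → Fin N → ℂ} {W : Set (Fin N → Fin N → ℂ)}
    (hW : W ∈ 𝓝 A) : ∃ δ : ℝ, 0 < δ ∧ ∀ M : Fin N → Fin N → ℂ,
      (∀ i j, ‖M i j - A i j‖ < δ) → M ∈ W := by
  obtain ⟨δ, hδ, h2⟩ := Metric.mem_nhds_iff.mp hW
  refine ⟨δ, hδ, fun M hM => h2 ?_⟩
  rw [Metric.mem_ball]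
  refine (dist_pi_lt_iff hδ).mpr fun i => (dist_pi_lt_iff hδ).mpr fun j => ?_
  rw [dist_eq_norm]
  exact hM i j

theorem nhds_entries {A : Matrix (Fin N) (Fin N) ℂ} {W : Set (Matrix (Fin N) (Fin N) ℂ)}
    (hW : W ∈ 𝓝 A) : ∃ δ : ℝ, 0 < δ ∧ ∀ M : Matrix (Fin N) (Fin N) ℂ,
      (∀ i j, ‖M i j - A i j‖ < δ) → M ∈ W :=
  nhds_pi (A := A) (W := W) hW

theorem entries_nhds (ε : ℝ) (hε : 0 < ε) :
    {X : Matrix (Fin N) (Fin N) ℂ | ∀ i j, ‖X i j‖ < ε} ∈ 𝓝 (0 : Matrix (Fin N) (Fin N) ℂ) := by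
  have h1 : {X : Matrix (Fin N) (Fin N) ℂ | ∀ i j, ‖X i j‖ < ε} =
      ⋂ i, ⋂ j, {X : Matrix (Fin N) (Fin N) ℂ | ‖X i j‖ < ε} := by
    ext X
    simp
  rw [h1]
  rw [iInter_mem]
  intro i
  rw [iInter_mem]
  intro j
  have h2 : Continuous fun X : Matrix (Fin N) (Fin N) ℂ => ‖X i j‖ := by fun_prop
  have h3 := (isOpen_lt h2 continuous_const).mem_nhds (x := (0 : Matrix (Fin N) (Fin N) ℂ))
    (by simpa using hε)
  exact h3

set_option backward.isDefEq.respectTransparency false in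
open scoped Matrix.Norms.Operator in
theorem main {H : Subgroup (SU N)} (hH : IsClosed (H : Set (SU N))) (hL : LIF H)
    (U : Set (Matrix (Fin N) (Fin N) ℂ)) (hU : U ∈ 𝓝 (0 : Matrix (Fin N) (Fin N) ℂ)) :
    ∃ W ∈ 𝓝 (1 : Matrix (Fin N) (Fin N) ℂ), ∀ g ∈ SM H, g ∈ W →
      ∃ X ∈ lie H, X ∈ U ∧ NormedSpace.exp X = g := by
  let L : Submodule ℝ (Matrix (Fin N) (Fin N) ℂ) :=
    { carrier := lie H
      add_mem' := fun {a b} ha hb => hL.add a ha b hb
      zero_mem' := hL.zero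
      smul_mem' := fun c x hx => by
        have := hL.smul c x hx
        rwa [Complex.coe_smul] at this }
  exact gen (SM H) (closed_SM hH) (inv_SM H) L mem_lie U hU

end

end CLSU

open CLSU in
theorem t_CLSU : M_CLSU := by
  intro hB N H hH ε hε
  obtain ⟨W, hW, h1⟩ := main hH (hB N H hH) _ (entries_nhds ε hε)
  obtain ⟨δ, hδ, h2⟩ := nhds_entries hW
  refine ⟨δ, hδ, fun g hg hg2 => ?_⟩
  obtain ⟨X, hX, hXε, hXg⟩ := h1 g.1 (mem_SM.mpr ⟨g, hg, rfl⟩) (h2 _ hg2)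
  refine ⟨X, hX, hXε, ?_⟩
  apply Subtype.ext
  rw [(t_EXP N X hX.1).coe, Complex.ofReal_one, one_smul, hXg]

end

end LGR
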