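import Pool.Agent.LGR.StD
import Pool.Agent.STZ.Base
import Pool.Agent.STZ.EXP

/-!
# Simple compact Lie groups, block D: module CONJ

Every element of a closed connected group with root data is conjugate to an element of the torus.
-/

namespace LGR

open STZ MeasureTheory Matrix Filter

open scoped ComplexConjugate Matrix Real Topology

noncomputable section

namespace CONJ

/-- `z exp(Y) z⁻¹ = exp (z Y zᴴ)` -/
theorem ex_conj {N : ℕ} (z : SU N) (Y : Matrix (Fin N) (Fin N) ℂ) (hY : Y ∈ su N)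
    (hZ : z.1 * Y * z.1ᴴ ∈ su N) (t : ℝ) : z * ex Y t * z⁻¹ = ex (z.1 * Y * z.1ᴴ) t := by
  apply Subtype.ext
  have h1 := (t_EXP N Y hY).coe t
  have h2 := (t_EXP N _ hZ).coe t
  have h3 : (z * ex Y t * z⁻¹).1 = z.1 * (ex Y t).1 * z.1ᴴ := rfl
  rw [h3, h1, h2]
  have hu : z.1 * z.1ᴴ = 1 := by
    have := congrArg Subtype.val (mul_inv_cancel z)
    exact this
  have hi : (z.1)⁻¹ = z.1ᴴ := Matrix.inv_eq_right_inv hu
  have hunit : IsUnit z.1 := (Matrix.isUnit_iff_isUnit_det _).2 (Matrix.isUnit_det_of_right_inverse hu)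
  rw [← hi, ← Matrix.exp_conj _ _ hunit, hi]
  congr 1
  rw [Matrix.mul_smul, Matrix.smul_mul]

theorem ex_comm {N : ℕ} (t : SU N) (Y : Matrix (Fin N) (Fin N) ℂ) (hY : Y ∈ su N)
    (h : t.1 * Y = Y * t.1) (s : ℝ) : ex Y s * t = t * ex Y s := by
  apply Subtype.ext
  have h1 := (t_EXP N Y hY).coe s
  have h3 : (ex Y s * t).1 = (ex Y s).1 * t.1 := rfl
  have h4 : (t * ex Y s).1 = t.1 * (ex Y s).1 := rfl
  rw [h3, h4, h1]
  have hc : Commute t.1 ((s : ℂ) • Y) := (show Commute t.1 Y from h).smul_right _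
  exact (hc.exp_right).eq.symm

/-- the centraliser of `t` in `H` -/
def ce {N : ℕ} (H : Subgroup (SU N)) (t : SU N) : Subgroup (SU N) :=
  H ⊓ Subgroup.centralizer {t}

theorem mem_ce {N : ℕ} {H : Subgroup (SU N)} {t z : SU N} :
    z ∈ ce H t ↔ z ∈ H ∧ z * t = t * z := by
  rw [ce, Subgroup.mem_inf, Subgroup.mem_centralizer_singleton_iff]

theorem ce_closed {N : ℕ} {H : Subgroup (SU N)} (hH : IsClosed (H : Set (SU N))) (t : SU N) :
    IsClosed (ce H t : Set (SU N)) := by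
  have h1 : (ce H t : Set (SU N)) = (H : Set (SU N)) ∩ {z | z * t = t * z} := by
    ext z
    exact mem_ce
  rw [h1]
  exact hH.inter (isClosed_eq (continuous_id.mul continuous_const)
    (continuous_const.mul continuous_id))

theorem lie_ce {N : ℕ} {H : Subgroup (SU N)} {t : SU N} {Y : Matrix (Fin N) (Fin N) ℂ}
    (hY : Y ∈ lie H) (h : t.1 * Y = Y * t.1) : Y ∈ lie (ce H t) :=
  ⟨hY.1, fun s => mem_ce.2 ⟨hY.2 s, ex_comm t Y hY.1 h s⟩⟩

theorem hx_comm {N r : ℕ} (Hc : Fin r → Matrix (Fin N) (Fin N) ℂ)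
    (hc : ∀ i j, Hc i * Hc j = Hc j * Hc i) (x y : Fin r → ℝ) :
    Commute (hx Hc x) (hx Hc y) := by
  unfold hx
  refine Commute.sum_left _ _ _ fun i _ => Commute.sum_right _ _ _ fun j _ => ?_
  exact ((show Commute (Hc i) (Hc j) from hc i j).smul_left _).smul_right _

theorem hx_ta {N r : ℕ} (Hc : Fin r → Matrix (Fin N) (Fin N) ℂ) (y : Fin r → ℝ) :
    ta Hc (fun j => y j / (2 * π)) = ex (hx Hc y) 1 := by
  unfold ta
  congr 2
  funext j
  field_simp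

/-- the local statement at a point of the torus -/
theorem loc {N r : ℕ} {H : Subgroup (SU N)} {Φ : RT r} {B : Matrix (Fin r) (Fin r) ℤ}
    {Hc : Fin r → Matrix (Fin N) (Fin N) ℂ}
    {E : (Fin r → ℤ) × (Fin r → ℤ) → Matrix (Fin N) (Fin N) ℂ}
    (hI : S_LIEB) (hC : S_LEMC) (hM : S_LEMT) (hH : IsClosed (H : Set (SU N)))
    (L : LRD H Φ B Hc E) (T : TAF H Φ Hc E) (θ : Fin r → ℝ) :
    ∃ δ : ℝ, 0 < δ ∧ ∀ g ∈ H, (∀ i j, ‖g.1 i j - (ta Hc θ).1 i j‖ < δ) →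
      ∃ h ∈ H, ∃ φ : Fin r → ℝ, g = h * ta Hc φ * h⁻¹ := by
  obtain ⟨δ, hδ, hδ2⟩ := hM N H hH _ (T.mem θ)
  refine ⟨δ, hδ, fun g hg hgd => ?_⟩
  obtain ⟨h, hh, Y, hY, hYt, e⟩ := hδ2 g hg hgd
  obtain ⟨x, hx0⟩ := T.reg
  have F := hI N H hH
  have hY' : Y ∈ lie (ce H (ta Hc θ)) := lie_ce hY hYt
  have hX' : hx Hc x ∈ lie (ce H (ta Hc θ)) := by
    refine lie_ce (T.hmem x) ?_
    rw [T.coe θ]
    exact ((hx_comm Hc L.comm x _).exp_right).eq.symm
  obtain ⟨z, hz, ez⟩ := hC N _ (ce_closed hH (ta Hc θ)) Y hY' (hx Hc x) hX'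
  have hz' := mem_ce.1 hz
  have hZ : z.1 * Y * z.1ᴴ ∈ lie H := F.ad z hz'.1 Y hY
  obtain ⟨y, hy⟩ := T.cent x hx0 _ hZ ez
  have e1 : z * ex Y 1 * z⁻¹ = ta Hc (fun j => y j / (2 * π)) := by
    rw [ex_conj z Y hY.1 hZ.1 1, hy, hx_ta]
  have e2 : (z * h) * g * (z * h)⁻¹ = ta Hc (θ + fun j => y j / (2 * π)) := by
    have e3 : (z * h) * g * (z * h)⁻¹ = z * (h * g * h⁻¹) * z⁻¹ := by group
    have e4 : z * (ta Hc θ * ex Y 1) * z⁻¹ = (z * ta Hc θ * z⁻¹) * (z * ex Y 1 * z⁻¹) := by group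
    have e5 : z * ta Hc θ * z⁻¹ = ta Hc θ := by
      rw [hz'.2]
      group
    rw [e3, e, e4, e5, e1, T.add]
  refine ⟨(z * h)⁻¹, H.inv_mem (H.mul_mem hz'.1 hh), θ + fun j => y j / (2 * π), ?_⟩
  rw [← e2]
  group

/-- the set of the conjugates of the elements of the torus -/
def St {N r : ℕ} (H : Subgroup (SU N)) (Hc : Fin r → Matrix (Fin N) (Fin N) ℂ) : Set (SU N) :=
  {g | ∃ h ∈ H, ∃ θ : Fin r → ℝ, g = h * ta Hc θ * h⁻¹}

theorem St_closed {N r : ℕ} {H : Subgroup (SU N)} {Φ : RT r}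
    {Hc : Fin r → Matrix (Fin N) (Fin N) ℂ}
    {E : (Fin r → ℤ) × (Fin r → ℤ) → Matrix (Fin N) (Fin N) ℂ}
    (hH : IsClosed (H : Set (SU N))) (T : TAF H Φ Hc E) : IsClosed (St H Hc) := by
  have hc : IsCompact ((H : Set (SU N)) ×ˢ Set.Icc (0 : Fin r → ℝ) 1) :=
    hH.isCompact.prod isCompact_Icc
  have hf : Continuous fun p : SU N × (Fin r → ℝ) => p.1 * ta Hc p.2 * p.1⁻¹ :=
    (continuous_fst.mul (T.cont.comp continuous_snd)).mul continuous_fst.inv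
  have h1 := (hc.image hf).isClosed
  have h2 : St H Hc = (fun p : SU N × (Fin r → ℝ) => p.1 * ta Hc p.2 * p.1⁻¹) ''
      ((H : Set (SU N)) ×ˢ Set.Icc (0 : Fin r → ℝ) 1) := by
    ext g
    constructor
    · rintro ⟨h, hh, θ, e⟩
      refine ⟨(h, fun j => Int.fract (θ j)), ⟨hh, fun j => Int.fract_nonneg _,
        fun j => (Int.fract_lt_one _).le⟩, ?_⟩
      have h3 : θ = (fun j => Int.fract (θ j)) + fun j => ((⌊θ j⌋ : ℤ) : ℝ) := by
        funext j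
        exact (Int.fract_add_floor (θ j)).symm
      have h4 : ta Hc (fun j => Int.fract (θ j)) = ta Hc θ := by
        conv_rhs => rw [h3]
        rw [T.add, T.int fun j => ⌊θ j⌋, mul_one]
      show h * ta Hc (fun j => Int.fract (θ j)) * h⁻¹ = g
      rw [h4, e]
    · rintro ⟨⟨h, θ⟩, ⟨hh, -⟩, rfl⟩
      exact ⟨h, hh, θ, rfl⟩
  rw [h2]
  exact h1

end CONJ

open CONJ

theorem t_CONJ : M_CONJ := by
  intro hI hC hM hT N H r Φ B Hc E hH hcon L g hg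
  have T := hT N H r Φ B Hc E hH L
  choose δ hδ hδ2 using fun θ => loc hI hC hM hH L T θ
  -- the open neighbourhood
  let U : Set (SU N) := ⋃ p : H × (Fin r → ℝ),
    {k : SU N | ∀ i j, ‖(p.1.1⁻¹ * k * p.1.1).1 i j - (ta Hc p.2).1 i j‖ < δ p.2}
  have hU : IsOpen U := by
    refine isOpen_iUnion fun p => ?_
    have h1 : {k : SU N | ∀ i j, ‖(p.1.1⁻¹ * k * p.1.1).1 i j - (ta Hc p.2).1 i j‖ < δ p.2} =
        ⋂ i, ⋂ j, {k : SU N | ‖(p.1.1⁻¹ * k * p.1.1).1 i j - (ta Hc p.2).1 i j‖ < δ p.2} := by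
      ext k
      simp
    rw [h1]
    refine isOpen_iInter_of_finite fun i => isOpen_iInter_of_finite fun j => ?_
    have h2 : Continuous fun k : SU N => (p.1.1⁻¹ * k * p.1.1).1 i j :=
      (continuous_entry i j).comp ((continuous_const.mul continuous_id).mul continuous_const)
    exact isOpen_lt (h2.sub continuous_const).norm continuous_const
  have hUS : ∀ k ∈ H, k ∈ U → k ∈ St H Hc := by
    intro k hk hkU
    obtain ⟨p, hp⟩ := Set.mem_iUnion.1 hkU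
    obtain ⟨h, hh, φ, e⟩ := hδ2 p.2 (p.1.1⁻¹ * k * p.1.1)
      (H.mul_mem (H.mul_mem (H.inv_mem p.1.2) hk) p.1.2) hp
    refine ⟨p.1.1 * h, H.mul_mem p.1.2 hh, φ, ?_⟩
    have e2 : k = p.1.1 * (p.1.1⁻¹ * k * p.1.1) * p.1.1⁻¹ := by group
    rw [e2, e]
    group
  have hSU : St H Hc ⊆ U := by
    rintro k ⟨h, hh, θ, e⟩
    refine Set.mem_iUnion.2 ⟨(⟨h, hh⟩, θ), fun i j => ?_⟩
    have e2 : h⁻¹ * k * h = ta Hc θ := by
      rw [e]
      group
    show ‖(h⁻¹ * k * h).1 i j - (ta Hc θ).1 i j‖ < δ θ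
    rw [e2, sub_self, norm_zero]
    exact hδ θ
  by_contra hno
  have hV : IsOpen (St H Hc)ᶜ := (St_closed hH T).isOpen_compl
  have hpre := hcon.isPreconnected
  obtain ⟨k, hkH, hkU, hkV⟩ := hpre U (St H Hc)ᶜ hU hV (fun k _ => by
      by_cases hk : k ∈ St H Hc
      · exact Or.inl (hSU hk)
      · exact Or.inr hk)
    ⟨1, H.one_mem, hSU ⟨1, H.one_mem, 0, by
      have h0 : ta Hc (0 : Fin r → ℝ) = 1 := by
        have := T.int (fun _ => 0)
        have h1 : (fun _ : Fin r => (((0 : ℤ) : ℝ))) = (0 : Fin r → ℝ) := by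
          funext j
          simp
        rw [h1] at this
        exact this
      rw [h0]
      group⟩⟩
    ⟨g, hg, fun ⟨h, hh, θ, e⟩ => hno ⟨h, hh, θ, e⟩⟩
  exact hkV (hUS k hkH hkU)

end

end LGR
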