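import Pool.Agent.LGR.StV

namespace LGR

open STZ MeasureTheory Matrix Filter

open scoped ComplexConjugate Matrix Real Topology ENNReal

noncomputable section

namespace DECA

theorem summ (c₁ : ℝ) (hc : 0 < c₁) (n : ℕ) :
    Summable (fun j : ℕ => Real.exp (-(c₁ * (j : ℝ) ^ 2)) * ((j : ℝ) + 1) ^ n) := by
  have h1 : Summable (fun j : ℕ => ((j : ℝ)) ^ n * Real.exp (-c₁ * (j : ℝ))) :=
    Real.summable_pow_mul_exp_neg_nat_mul n hc
  have h2 : Summable (fun j : ℕ => (((j + 1 : ℕ) : ℝ)) ^ n * Real.exp (-c₁ * ((j + 1 : ℕ) : ℝ))) :=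
    (summable_nat_add_iff 1).2 h1
  have h3 : Summable (fun j : ℕ => Real.exp c₁ *
      ((((j + 1 : ℕ) : ℝ)) ^ n * Real.exp (-c₁ * ((j + 1 : ℕ) : ℝ)))) := h2.mul_left _
  refine Summable.of_nonneg_of_le (fun j => by positivity) (fun j => ?_) h3
  have h4 : Real.exp c₁ * ((((j + 1 : ℕ) : ℝ)) ^ n * Real.exp (-c₁ * ((j + 1 : ℕ) : ℝ))) =
      Real.exp (-(c₁ * (j : ℝ))) * ((j : ℝ) + 1) ^ n := by
    have : Real.exp (-c₁ * ((j + 1 : ℕ) : ℝ)) = Real.exp (-(c₁ * (j : ℝ))) * Real.exp (-c₁) := by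
      rw [← Real.exp_add]; congr 1; push_cast; ring
    rw [this]
    have h5 : Real.exp c₁ * Real.exp (-c₁) = 1 := by rw [← Real.exp_add]; simp
    push_cast
    calc _ = (Real.exp c₁ * Real.exp (-c₁)) * (Real.exp (-(c₁ * (j : ℝ))) * ((j : ℝ) + 1) ^ n) := by ring
      _ = _ := by rw [h5, one_mul]
  rw [h4]
  have h6 : (j : ℝ) ≤ (j : ℝ) ^ 2 := by
    rcases Nat.eq_zero_or_pos j with h | h
    · simp [h]
    · have : (1 : ℝ) ≤ j := by exact_mod_cast h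
      nlinarith
  have h7 : Real.exp (-(c₁ * (j : ℝ) ^ 2)) ≤ Real.exp (-(c₁ * (j : ℝ))) := by
    apply Real.exp_le_exp.2
    have := mul_le_mul_of_nonneg_left h6 hc.le
    linarith
  exact mul_le_mul_of_nonneg_right h7 (by positivity)

theorem rp (m : ℕ) (hm : 1 ≤ m) (n : ℕ) :
    (m : ℝ) ^ (-((n : ℝ) / 2)) = (1 / Real.sqrt m) ^ n := by
  have hm0 : (0 : ℝ) ≤ m := by positivity
  have hm1 : (0 : ℝ) < m := by exact_mod_cast hm
  rw [Real.rpow_neg hm0, one_div, inv_pow, Real.sqrt_eq_rpow, ← Real.rpow_natCast, ← Real.rpow_mul hm0]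
  congr 2
  ring

end DECA

theorem t_DECA : S_DECA := by
  intro M _ _ _ _ μ _ n ψ hψ h0 C hC hμ c₁ hc
  have hs := DECA.summ c₁ hc n
  have hT : 0 ≤ ∑' j : ℕ, Real.exp (-(c₁ * (j : ℝ) ^ 2)) * ((j : ℝ) + 1) ^ n :=
    tsum_nonneg fun j => by positivity
  refine ⟨C * ∑' j : ℕ, Real.exp (-(c₁ * (j : ℝ) ^ 2)) * ((j : ℝ) + 1) ^ n, mul_nonneg hC hT, ?_⟩
  intro m hm
  have hm1 : (0 : ℝ) < m := by exact_mod_cast hm
  have hsq : 0 < Real.sqrt m := Real.sqrt_pos.2 hm1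
  rw [DECA.rp m hm n]
  rw [integral_eq_lintegral_of_nonneg_ae (ae_of_all _ fun g => (Real.exp_pos _).le)
    (Continuous.aestronglyMeasurable (by fun_prop))]
  apply ENNReal.toReal_le_of_le_ofReal (by positivity)
  -- the pointwise bound
  have hpt : ∀ g, ENNReal.ofReal (Real.exp (-(c₁ * m * ψ g ^ 2))) ≤
      ∑' j : ℕ, ENNReal.ofReal (Real.exp (-(c₁ * (j : ℝ) ^ 2))) *
        Set.indicator {g | ψ g ≤ ((j : ℝ) + 1) / Real.sqrt m} (fun _ => (1 : ℝ≥0∞)) g := by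
    intro g
    set j₀ : ℕ := ⌊Real.sqrt m * ψ g⌋₊ with hj
    have hx : 0 ≤ Real.sqrt m * ψ g := mul_nonneg hsq.le (h0 g)
    have hle : (j₀ : ℝ) ≤ Real.sqrt m * ψ g := Nat.floor_le hx
    have hlt : Real.sqrt m * ψ g < (j₀ : ℝ) + 1 := Nat.lt_floor_add_one _
    have hmem : g ∈ {g | ψ g ≤ ((j₀ : ℝ) + 1) / Real.sqrt m} := by
      rw [Set.mem_ofPred_eq, le_div_iff₀ hsq]
      linarith [mul_comm (ψ g) (Real.sqrt m)]
    refine le_trans ?_ (ENNReal.le_tsum j₀)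
    rw [Set.indicator_of_mem hmem, mul_one]
    apply ENNReal.ofReal_le_ofReal
    apply Real.exp_le_exp.2
    have h1 : (j₀ : ℝ) ^ 2 ≤ (Real.sqrt m * ψ g) ^ 2 := by
      exact pow_le_pow_left₀ (by positivity) hle 2
    have h2 : (Real.sqrt m * ψ g) ^ 2 = m * ψ g ^ 2 := by
      rw [mul_pow, Real.sq_sqrt hm1.le]
    rw [h2] at h1
    have h3 := mul_le_mul_of_nonneg_left h1 hc.le
    have h4 : c₁ * m * ψ g ^ 2 = c₁ * (m * ψ g ^ 2) := by ring
    rw [h4]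
    linarith
  have hmeas : ∀ j : ℕ, MeasurableSet {g | ψ g ≤ ((j : ℝ) + 1) / Real.sqrt m} := fun j =>
    measurableSet_le hψ.measurable measurable_const
  calc ∫⁻ g, ENNReal.ofReal (Real.exp (-(c₁ * m * ψ g ^ 2))) ∂μ
      ≤ ∫⁻ g, ∑' j : ℕ, ENNReal.ofReal (Real.exp (-(c₁ * (j : ℝ) ^ 2))) *
        Set.indicator {g | ψ g ≤ ((j : ℝ) + 1) / Real.sqrt m} (fun _ => (1 : ℝ≥0∞)) g ∂μ :=
        lintegral_mono hpt
    _ = ∑' j : ℕ, ∫⁻ g, ENNReal.ofReal (Real.exp (-(c₁ * (j : ℝ) ^ 2))) *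
        Set.indicator {g | ψ g ≤ ((j : ℝ) + 1) / Real.sqrt m} (fun _ => (1 : ℝ≥0∞)) g ∂μ := by
        apply lintegral_tsum
        intro j
        exact (measurable_const.mul (measurable_const.indicator (hmeas j))).aemeasurable
    _ = ∑' j : ℕ, ENNReal.ofReal (Real.exp (-(c₁ * (j : ℝ) ^ 2))) *
        μ {g | ψ g ≤ ((j : ℝ) + 1) / Real.sqrt m} := by
        congr 1
        funext j
        rw [lintegral_const_mul _ (measurable_const.indicator (hmeas j)),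
          lintegral_indicator (hmeas j)]
        simp
    _ ≤ ∑' j : ℕ, ENNReal.ofReal (C * (1 / Real.sqrt m) ^ n *
        (Real.exp (-(c₁ * (j : ℝ) ^ 2)) * ((j : ℝ) + 1) ^ n)) := by
        apply ENNReal.tsum_le_tsum
        intro j
        refine le_trans (mul_le_mul_right (hμ (((j : ℝ) + 1) / Real.sqrt m) (by positivity)) _) ?_
        rw [← ENNReal.ofReal_mul (Real.exp_pos _).le]
        apply le_of_eq
        congr 1
        rw [div_pow, div_pow, one_pow]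
        ring
    _ = ENNReal.ofReal (C * (∑' j : ℕ, Real.exp (-(c₁ * (j : ℝ) ^ 2)) * ((j : ℝ) + 1) ^ n) *
        (1 / Real.sqrt m) ^ n) := by
        rw [← ENNReal.ofReal_tsum_of_nonneg (fun j => by positivity) (hs.mul_left _), tsum_mul_left]
        congr 1
        ring

end

end LGR
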