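import Pool.Agent.LGR.StR

/-!
The characters are dense in the continuous class functions.
-/

set_option autoImplicit false

namespace LGR

open STZ MeasureTheory Matrix Filter

open scoped ComplexConjugate Matrix Real Topology

noncomputable section

namespace DENC

/-- the irreducible characters with polynomial entries -/
def CS {N : ℕ} (H : Subgroup (SU N)) : Set (H → ℂ) :=
  {χ | ∃ (n : ℕ) (σ : Rep H (Fin n)), σ.Irr ∧ PRep σ ∧ χ = σ.ch}

/-- the functions which are continuous and whose average is a combination of characters -/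
def Good {N : ℕ} (H : Subgroup (SU N)) (μ : Measure H) (P : H → ℂ) : Prop :=
  Continuous P ∧ (fun g => ∫ h, P (h * g * h⁻¹) ∂μ) ∈ Submodule.span ℂ (CS H)

theorem good_zero {N : ℕ} {H : Subgroup (SU N)} (μ : Measure H) : Good H μ 0 := by
  refine ⟨continuous_const, ?_⟩
  have : (fun g : H => ∫ h, (0 : H → ℂ) (h * g * h⁻¹) ∂μ) = 0 := by
    funext g
    simp
  rw [this]
  exact Submodule.zero_mem _

theorem intg {N : ℕ} {H : Subgroup (SU N)} [CompactSpace H] (μ : Measure H) [IsProbabilityMeasure μ]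
    {P : H → ℂ} (hP : Continuous P) (g : H) : Integrable (fun h => P (h * g * h⁻¹)) μ := by
  have h : Continuous fun h : H => P (h * g * h⁻¹) :=
    hP.comp ((continuous_id.mul continuous_const).mul continuous_inv)
  exact h.integrable_of_hasCompactSupport (HasCompactSupport.of_compactSpace _)

theorem good_add {N : ℕ} {H : Subgroup (SU N)} [CompactSpace H] (μ : Measure H) [IsProbabilityMeasure μ]
    {P Q : H → ℂ} (hP : Good H μ P) (hQ : Good H μ Q) : Good H μ (P + Q) := by
  refine ⟨hP.1.add hQ.1, ?_⟩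
  have : (fun g : H => ∫ h, (P + Q) (h * g * h⁻¹) ∂μ) =
      (fun g => ∫ h, P (h * g * h⁻¹) ∂μ) + fun g => ∫ h, Q (h * g * h⁻¹) ∂μ := by
    funext g
    simp only [Pi.add_apply]
    rw [integral_add (intg μ hP.1 g) (intg μ hQ.1 g)]
  rw [this]
  exact Submodule.add_mem _ hP.2 hQ.2

theorem good_smul {N : ℕ} {H : Subgroup (SU N)} (μ : Measure H)
    {P : H → ℂ} (c : ℂ) (hP : Good H μ P) : Good H μ (c • P) := by
  refine ⟨hP.1.const_smul c, ?_⟩
  have : (fun g : H => ∫ h, (c • P) (h * g * h⁻¹) ∂μ) = c • fun g => ∫ h, P (h * g * h⁻¹) ∂μ := by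
    funext g
    simp only [Pi.smul_apply, smul_eq_mul]
    rw [integral_const_mul]
  rw [this]
  exact Submodule.smul_mem _ c hP.2

theorem good_entry {N : ℕ} {H : Subgroup (SU N)} (hH : IsClosed (H : Set (SU N))) (hS : S_SCHUR)
    (μ : Measure H) [IsProbabilityMeasure μ] [μ.IsMulLeftInvariant] {n : ℕ} (σ : Rep H (Fin n))
    (h1 : σ.Irr) (h2 : PRep σ) (p q : Fin n) : Good H μ fun g => σ.ρ g p q := by
  have hcs : CompactSpace H := isCompact_iff_compactSpace.1 hH.isCompact
  have hsec : SecondCountableTopology H :=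
    inferInstanceAs (SecondCountableTopology ((H : Set (SU N)) : Type))
  refine ⟨σ.cont.matrix_elem p q, ?_⟩
  have hce : ∀ i j, Continuous fun g => σ.ρ g i j := fun i j => σ.cont.matrix_elem i j
  obtain ⟨h3, -⟩ := hS H μ (Fin n) σ h1
  have e : (fun g : H => ∫ h, σ.ρ (h * g * h⁻¹) p q ∂μ) =
      (if p = q then (1 / (Fintype.card (Fin n) : ℂ)) else 0) • σ.ch := by
    funext g
    have e1 : ∀ h : H, σ.ρ (h * g * h⁻¹) p q =
        ∑ b, ∑ a, σ.ρ g a b * (σ.ρ h p a * conj (σ.ρ h q b)) := by
      intro h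
      rw [map_mul, map_mul, σ.unit, mul_apply]
      refine Finset.sum_congr rfl fun b _ => ?_
      rw [mul_apply, Finset.sum_mul, conjTranspose_apply]
      refine Finset.sum_congr rfl fun a _ => ?_
      rw [starRingEnd_apply]
      ring
    have hi : ∀ a b, Integrable (fun h => σ.ρ g a b * (σ.ρ h p a * conj (σ.ρ h q b))) μ := by
      intro a b
      have hc : Continuous fun h => σ.ρ g a b * (σ.ρ h p a * conj (σ.ρ h q b)) :=
        continuous_const.mul ((hce p a).mul (Complex.continuous_conj.comp (hce q b)))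
      exact hc.integrable_of_hasCompactSupport (HasCompactSupport.of_compactSpace _)
    simp only [e1]
    rw [integral_finsetSum _ fun b _ => integrable_finsetSum _ fun a _ => hi a b]
    have e2 : ∀ b, ∫ h, ∑ a, σ.ρ g a b * (σ.ρ h p a * conj (σ.ρ h q b)) ∂μ =
        (if p = q then (1 / (Fintype.card (Fin n) : ℂ)) else 0) * σ.ρ g b b := by
      intro b
      rw [integral_finsetSum _ fun a _ => hi a b, Finset.sum_eq_single b]
      · rw [integral_const_mul, h3]
        by_cases hpq : p = q
        · rw [if_pos ⟨hpq, rfl⟩, if_pos hpq]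
          ring
        · rw [if_neg fun h => hpq h.1, if_neg hpq]
          ring
      · intro a _ hab
        rw [integral_const_mul, h3, if_neg fun h => hab h.2, mul_zero]
      · intro h
        exact absurd (Finset.mem_univ b) h
    simp only [e2]
    rw [← Finset.mul_sum, Pi.smul_apply, smul_eq_mul]
    rfl
  rw [e]
  exact Submodule.smul_mem _ _ (Submodule.subset_span ⟨n, σ, h1, h2, rfl⟩)

theorem good_sum {N : ℕ} {H : Subgroup (SU N)} [CompactSpace H] (μ : Measure H) [IsProbabilityMeasure μ]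
    {κ : Type} (s : Finset κ) (P : κ → H → ℂ) (hP : ∀ k ∈ s, Good H μ (P k)) :
    Good H μ (∑ k ∈ s, P k) := by
  classical
  induction s using Finset.induction_on with
  | empty => simpa using good_zero μ
  | insert a s ha ih =>
    rw [Finset.sum_insert ha]
    exact good_add μ (hP a (Finset.mem_insert_self _ _))
      (ih fun k hk => hP k (Finset.mem_insert_of_mem hk))

end DENC

theorem t_DENC : M_DENC := by
  intro hHA hS hT hP hD N H hH f hf hcl ε hε
  have hcs : CompactSpace H := isCompact_iff_compactSpace.1 hH.isCompact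
  obtain ⟨-, -, -, -, -, -, -, -, -, hmono, hspan, hdense⟩ := hP N H hH
  let μ : Measure H := Measure.haarMeasure ⊤
  have hμ : IsProbabilityMeasure μ := by
    refine ⟨?_⟩
    have := Measure.haarMeasure_self (K₀ := (⊤ : TopologicalSpace.PositiveCompacts H))
    simpa using this
  have hμ2 : μ.IsMulLeftInvariant := inferInstanceAs (Measure.haarMeasure ⊤).IsMulLeftInvariant
  obtain ⟨P, hPF, hP1⟩ := hdense f hf ε hε
  have hG : DENC.Good H μ P := by
    have h1 := hspan P hPF
    refine Submodule.span_induction (p := fun Q _ => DENC.Good H μ Q) ?_ (DENC.good_zero μ)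
      (fun Q R _ _ hQ hR => DENC.good_add μ hQ hR) (fun c Q _ hQ => DENC.good_smul μ c hQ) h1
    rintro Q ⟨i, j, p, q, p', q', rfl⟩
    obtain ⟨R, hR1, -⟩ := hT N H i j
    have hR2 : PRep R := by
      intro x y
      have : (fun g => R.ρ g x y) = fun g : H => (∏ s, g.1.1 (x.1 s) (y.1 s)) * ∏ s, conj (g.1.1 (x.2 s) (y.2 s)) := by
        funext g
        exact hR1 g x y
      rw [this]
      exact hmono i j _ _ _ _
    obtain ⟨m, M, σ, hσ1, hσ2, -, hσ4⟩ := hD N H _ R hR2
    obtain ⟨c, hc⟩ := hσ4 (p, p') (q, q')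
    have e : (fun g : H => (∏ s, g.1.1 (p s) (q s)) * ∏ s, conj (g.1.1 (p' s) (q' s))) =
        ∑ k, ∑ x, ∑ y, c k x y • fun g => (σ k).ρ g x y := by
      funext g
      rw [← hR1 g (p, p') (q, q'), hc]
      simp only [Finset.sum_apply, Pi.smul_apply, smul_eq_mul]
    rw [e]
    exact DENC.good_sum μ _ _ fun k _ => DENC.good_sum μ _ _ fun x _ => DENC.good_sum μ _ _ fun y _ =>
      DENC.good_smul μ _ (DENC.good_entry hH hS μ (σ k) (hσ1 k) (hσ2 k) x y)
  obtain ⟨m, a, χ, hχ⟩ := Submodule.mem_span_set'.1 hG.2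
  choose M σ h1 h2 h3 using fun k => (χ k).2
  refine ⟨m, M, σ, a, h1, h2, ?_⟩
  intro g
  have e1 : ∑ k, a k * (σ k).ch g = ∫ h, P (h * g * h⁻¹) ∂μ := by
    have := congrFun hχ g
    rw [Finset.sum_apply] at this
    rw [← this]
    refine Finset.sum_congr rfl fun k _ => ?_
    rw [Pi.smul_apply, smul_eq_mul, h3 k]
  have e2 : f g = ∫ h, f (h * g * h⁻¹) ∂μ := by
    have : ∀ h : H, f (h * g * h⁻¹) = f g := fun h => hcl g h
    simp only [this]
    simp
  rw [e1, e2, ← integral_sub (DENC.intg μ hf g) (DENC.intg μ hG.1 g)]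
  have h4 := norm_integral_le_of_norm_le_const (μ := μ) (C := ε)
    (f := fun h => f (h * g * h⁻¹) - P (h * g * h⁻¹)) (Eventually.of_forall fun h => hP1 _)
  refine h4.trans ?_
  simp

end

end LGR
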