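import Pool.Agent.LGR.StA

/-!
The denominator formula of Weyl, by the coefficients of the expanded product.
-/

set_option autoImplicit false

namespace LGR

open STZ MeasureTheory Matrix Filter

open scoped ComplexConjugate Matrix Real Topology

noncomputable section

namespace DENO

theorem eu_add (a b : ℝ) : eu (a + b) = eu a * eu b := by
  unfold eu
  rw [← Complex.exp_add]
  congr 1
  push_cast
  ring

theorem eu_zero : eu 0 = 1 := by
  unfold eu
  simp

theorem dz_add {r : ℕ} (a b : Fin r → ℤ) (θ : Fin r → ℝ) : dz (a + b) θ = dz a θ + dz b θ := by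
  unfold dz
  rw [← Finset.sum_add_distrib]
  refine Finset.sum_congr rfl fun i _ => ?_
  simp only [Pi.add_apply]
  push_cast
  ring

theorem dz_sub {r : ℕ} (a b : Fin r → ℤ) (θ : Fin r → ℝ) : dz (a - b) θ = dz a θ - dz b θ := by
  have h := dz_add (a - b) b θ
  rw [sub_add_cancel] at h
  linarith

theorem dz_one {r : ℕ} (θ : Fin r → ℝ) : dz (1 : Fin r → ℤ) θ = ∑ i, θ i := by
  unfold dz
  simp

/-- the exponents of the expanded product -/
def nu {r : ℕ} (S : RT r) : Fin r → ℤ := 1 - ∑ p ∈ S, p.1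

/-- the alternating sum over the subsets of the positive roots -/
def EE {r : ℕ} (Φ : RT r) (f : (Fin r → ℤ) → ℤ) : ℤ :=
  ∑ S ∈ (pos Φ).powerset, (-1) ^ S.card * f (nu S)

/-- the coefficients of the expanded product -/
def cf {r : ℕ} (Φ : RT r) (ν : Fin r → ℤ) : ℤ := EE Φ fun μ => if μ = ν then 1 else 0

/-- the simple reflection on pairs -/
def tau {r : ℕ} (B : Matrix (Fin r) (Fin r) ℤ) (i : Fin r) (p : (Fin r → ℤ) × (Fin r → ℤ)) :
    (Fin r → ℤ) × (Fin r → ℤ) :=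
  (p.1 - p.1 i • B i, p.2 - (p.2 ⬝ᵥ B i) • Pi.single i 1)

variable {r : ℕ} {Φ : RT r} {B : Matrix (Fin r) (Fin r) ℤ}

theorem eu_nu (θ : Fin r → ℝ) (S : RT r) :
    eu (dz (nu S) θ) = eu (∑ i, θ i) * ∏ p ∈ S, eu (-(dz p.1 θ)) := by
  classical
  induction S using Finset.induction_on with
  | empty => simp [nu, dz_one]
  | insert x S hx ih =>
    have h : nu (insert x S) = nu S - x.1 := by
      unfold nu
      rw [Finset.sum_insert hx]
      abel
    rw [Finset.prod_insert hx, h, dz_sub, sub_eq_add_neg, eu_add, ih]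
    ring

theorem expand (Φ : RT r) (θ : Fin r → ℝ) :
    eu (∑ i, θ i) * ∏ p ∈ pos Φ, (1 - eu (-(dz p.1 θ))) =
      ∑ S ∈ (pos Φ).powerset, (-1) ^ S.card * eu (dz (nu S) θ) := by
  classical
  have h : ∀ p ∈ pos Φ, (1 - eu (-(dz p.1 θ))) = 1 + (-1) * eu (-(dz p.1 θ)) := fun p _ => by ring
  rw [Finset.prod_congr rfl h, Finset.prod_one_add, Finset.mul_sum]
  refine Finset.sum_congr rfl fun S _ => ?_
  rw [eu_nu, Finset.prod_mul_distrib, Finset.prod_const]
  ring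

theorem bii (hI : IRD Φ B) (i : Fin r) : B i i = 2 := by
  have h := hI.two _ (hI.base i)
  simpa using h

theorem tau_tau (hI : IRD Φ B) (i : Fin r) (p : (Fin r → ℤ) × (Fin r → ℤ)) :
    tau B i (tau B i p) = p := by
  have h := bii hI i
  unfold tau
  refine Prod.ext ?_ ?_
  · funext j
    simp only [Pi.sub_apply, Pi.smul_apply, smul_eq_mul, h]
    ring
  · have h2 : (p.2 - (p.2 ⬝ᵥ B i) • (Pi.single i 1 : Fin r → ℤ)) ⬝ᵥ B i = -(p.2 ⬝ᵥ B i) := by
      rw [sub_dotProduct, smul_dotProduct, single_dotProduct, h, smul_eq_mul]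
      ring
    simp only [h2]
    funext j
    simp only [Pi.sub_apply, Pi.smul_apply, smul_eq_mul]
    ring

theorem tau_inj (hI : IRD Φ B) (i : Fin r) : Function.Injective (tau B i) := fun p q h => by
  rw [← tau_tau hI i p, h, tau_tau hI i q]

theorem tau_mem (hI : IRD Φ B) (hW : WFF Φ B) (i : Fin r) (p : (Fin r → ℤ) × (Fin r → ℤ))
    (hp : p ∈ (pos Φ).erase (B i, Pi.single i 1)) :
    tau B i p ∈ (pos Φ).erase (B i, Pi.single i 1) := by
  rw [Finset.mem_erase] at hp ⊢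
  refine ⟨fun h => ?_, hW.simp i p hp.2 hp.1⟩
  have h1 : p = tau B i (B i, Pi.single i 1) := by rw [← h, tau_tau hI i p]
  have h2 : p.2 i = -1 := by
    rw [h1]
    unfold tau
    simp only [Pi.sub_apply, Pi.smul_apply, smul_eq_mul, single_dotProduct, bii hI i,
      Pi.single_eq_same]
    norm_num
  have h3 := (hW.ppos p hp.2).2.1 i
  rw [h2] at h3
  norm_num at h3

theorem base_pos (hI : IRD Φ B) (i : Fin r) : (B i, (Pi.single i 1 : Fin r → ℤ)) ∈ pos Φ := by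
  unfold pos
  rw [Finset.mem_filter]
  refine ⟨hI.base i, fun j => ?_⟩
  show 0 ≤ (Pi.single i 1 : Fin r → ℤ) j
  by_cases h : j = i
  · subst h
    simp
  · simp [h]

theorem nu_image (hI : IRD Φ B) (i : Fin r) (S : RT r) :
    nu (S.image (tau B i)) = nu S - (nu S) i • B i + B i := by
  classical
  unfold nu
  rw [Finset.sum_image fun p _ q _ h => tau_inj hI i h]
  unfold tau
  rw [Finset.sum_sub_distrib, ← Finset.sum_smul]
  funext j
  simp only [Pi.sub_apply, Pi.add_apply, Pi.smul_apply, smul_eq_mul, Pi.one_apply,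
    Finset.sum_apply]
  ring

theorem nu_insert (i : Fin r) (S : RT r) (hS : (B i, (Pi.single i 1 : Fin r → ℤ)) ∉ S) :
    nu (insert (B i, Pi.single i 1) S) = nu S - B i := by
  unfold nu
  rw [Finset.sum_insert hS]
  abel

theorem EE_split (hI : IRD Φ B) (i : Fin r) (f : (Fin r → ℤ) → ℤ) :
    EE Φ f = ∑ S ∈ ((pos Φ).erase (B i, Pi.single i 1)).powerset,
      (-1) ^ S.card * (f (nu S) - f (nu S - B i)) := by
  classical
  unfold EE
  have h := Finset.sum_powerset_insert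
    (Finset.notMem_erase (B i, (Pi.single i 1 : Fin r → ℤ)) (pos Φ))
    (fun S => (-1) ^ S.card * f (nu S))
  rw [Finset.insert_erase (base_pos hI i)] at h
  rw [h, ← Finset.sum_add_distrib]
  refine Finset.sum_congr rfl fun S hS => ?_
  rw [Finset.mem_powerset] at hS
  have h1 : (B i, (Pi.single i 1 : Fin r → ℤ)) ∉ S := fun h =>
    Finset.notMem_erase _ _ (hS h)
  rw [nu_insert i S h1, Finset.card_insert_of_notMem h1, pow_succ]
  ring

theorem EE_refl (hI : IRD Φ B) (hW : WFF Φ B) (i : Fin r) (f : (Fin r → ℤ) → ℤ) :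
    EE Φ (fun μ => f (μ - μ i • B i)) = -EE Φ f := by
  classical
  rw [EE_split hI i, EE_split hI i, ← Finset.sum_neg_distrib]
  refine Finset.sum_bij' (fun S _ => S.image (tau B i)) (fun S _ => S.image (tau B i)) ?_ ?_ ?_ ?_ ?_
  · intro S hS
    rw [Finset.mem_powerset] at hS ⊢
    intro q hq
    rw [Finset.mem_image] at hq
    obtain ⟨p, hp, rfl⟩ := hq
    exact tau_mem hI hW i p (hS hp)
  · intro S hS
    rw [Finset.mem_powerset] at hS ⊢
    intro q hq
    rw [Finset.mem_image] at hq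
    obtain ⟨p, hp, rfl⟩ := hq
    exact tau_mem hI hW i p (hS hp)
  · intro S _
    rw [Finset.image_image]
    have h : tau B i ∘ tau B i = id := funext fun p => tau_tau hI i p
    rw [h, Finset.image_id]
  · intro S _
    rw [Finset.image_image]
    have h : tau B i ∘ tau B i = id := funext fun p => tau_tau hI i p
    rw [h, Finset.image_id]
  · intro S _
    rw [Finset.card_image_of_injective _ (tau_inj hI i), nu_image hI i]
    have h1 : nu S - B i - (nu S - B i) i • B i = nu S - (nu S) i • B i + B i := by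
      funext j
      simp only [Pi.sub_apply, Pi.add_apply, Pi.smul_apply, smul_eq_mul, bii hI i]
      ring
    have h2 : nu S - (nu S) i • B i + B i - B i = nu S - (nu S) i • B i := by abel
    rw [h1, h2]
    ring

theorem cf_refl (hI : IRD Φ B) (hW : WFF Φ B) (i : Fin r) (ν : Fin r → ℤ) :
    cf Φ (ν - ν i • B i) = -cf Φ ν := by
  unfold cf
  rw [← EE_refl hI hW i]
  congr 1
  funext μ
  have h0 : ∀ x : Fin r → ℤ, (x - x i • B i) - (x - x i • B i) i • B i = x := by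
    intro x
    funext j
    simp only [Pi.sub_apply, Pi.smul_apply, smul_eq_mul, bii hI i]
    ring
  have h : μ = ν - ν i • B i ↔ μ - μ i • B i = ν := by
    constructor
    · intro h
      rw [h, h0]
    · intro h
      rw [← h, h0]
  simp only [h]

theorem cf_mul (hG : WM Φ = Submonoid.closure {w | ∃ i, w = rf (B i, Pi.single i 1)})
    (hI : IRD Φ B) (hW : WFF Φ B) (w : Matrix (Fin r) (Fin r) ℤ) (hw : w ∈ WF Φ) :
    ∀ ν, cf Φ (w *ᵥ ν) = w.det * cf Φ ν := by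
  rw [hW.mem, hG] at hw
  induction hw using Submonoid.closure_induction with
  | mem x hx =>
    intro ν
    obtain ⟨i, rfl⟩ := hx
    rw [hW.dt _ (hI.base i), hW.mv]
    show cf Φ (ν - ((Pi.single i 1 : Fin r → ℤ) ⬝ᵥ ν) • B i) = _
    rw [single_dotProduct, one_mul, cf_refl hI hW i]
    ring
  | one =>
    intro ν
    rw [one_mulVec, det_one, one_mul]
  | mul x y _ _ hx hy =>
    intro ν
    rw [← mulVec_mulVec, hx, hy, det_mul]
    ring

theorem cf_one (hR : ∀ q ∈ pos Φ, 2 ≤ ∑ p ∈ pos Φ, p.2 ⬝ᵥ q.1) : cf Φ 1 = 1 := by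
  classical
  unfold cf EE
  rw [Finset.sum_eq_single ∅]
  · simp [nu]
  · intro S hS hne
    rw [Finset.mem_powerset] at hS
    show (-1) ^ S.card * (if nu S = 1 then 1 else 0) = 0
    rw [if_neg, mul_zero]
    intro h
    have h1 : ∑ q ∈ S, q.1 = 0 := by
      unfold nu at h
      exact sub_eq_self.mp h
    have h2 : ∑ p ∈ pos Φ, p.2 ⬝ᵥ (∑ q ∈ S, q.1) = ∑ q ∈ S, ∑ p ∈ pos Φ, p.2 ⬝ᵥ q.1 := by
      rw [Finset.sum_comm]
      refine Finset.sum_congr rfl fun p _ => ?_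
      rw [dotProduct_sum]
    rw [h1] at h2
    simp only [dotProduct_zero, Finset.sum_const_zero] at h2
    obtain ⟨q, hq⟩ := Finset.nonempty_iff_ne_empty.mpr hne
    have h3 : 0 < ∑ q ∈ S, ∑ p ∈ pos Φ, p.2 ⬝ᵥ q.1 :=
      Finset.sum_pos (fun q hq => lt_of_lt_of_le two_pos (hR q (hS hq))) ⟨q, hq⟩
    rw [← h2] at h3
    exact lt_irrefl _ h3
  · intro h
    exact absurd (Finset.empty_mem_powerset _) h

theorem dom_one (hI : IRD Φ B) (hW : WFF Φ B)
    (h4 : ∀ l, l ⬝ᵥ ((rd Φ).A *ᵥ l) = 2 * (rd Φ).Q l)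
    (h7 : ∀ p ∈ Φ, 0 < p.1 ⬝ᵥ ((rd Φ).A *ᵥ p.1) ∧
      ∀ l, 2 * (p.1 ⬝ᵥ ((rd Φ).A *ᵥ l)) = (p.2 ⬝ᵥ l) * (p.1 ⬝ᵥ ((rd Φ).A *ᵥ p.1)))
    (μ : Fin r → ℤ) (hμ : ∀ i, 0 ≤ μ i) (S : RT r) (hS : S ⊆ pos Φ) (h : μ = -∑ p ∈ S, p.1) :
    μ = 0 := by
  have h1 : ∀ p ∈ S, 0 ≤ p.1 ⬝ᵥ ((rd Φ).A *ᵥ μ) := by
    intro p hp
    obtain ⟨hpΦ, hp2, _⟩ := hW.ppos p (hS hp)
    obtain ⟨h8, h9⟩ := h7 p hpΦ
    have h10 : 0 ≤ p.2 ⬝ᵥ μ := by
      unfold dotProduct
      exact Finset.sum_nonneg fun i _ => mul_nonneg (hp2 i) (hμ i)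
    have h11 := h9 μ
    have h12 := mul_nonneg h10 h8.le
    linarith
  have h2 : μ ⬝ᵥ ((rd Φ).A *ᵥ μ) = -∑ p ∈ S, p.1 ⬝ᵥ ((rd Φ).A *ᵥ μ) := by
    rw [← sum_dotProduct, ← neg_dotProduct, ← h]
  have h3 := Finset.sum_nonneg h1
  have h5 := h4 μ
  rw [h2] at h5
  have h6 : (rd Φ).Q μ ≤ 0 := by linarith
  have h8 : (rd Φ).Q μ = ∑ p ∈ pos Φ, (p.2 ⬝ᵥ μ) ^ 2 := rfl
  rw [h8] at h6
  funext i
  have h9 := Finset.single_le_sum (f := fun p : (Fin r → ℤ) × (Fin r → ℤ) => (p.2 ⬝ᵥ μ) ^ 2)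
    (fun p _ => sq_nonneg _) (base_pos hI i)
  simp only [single_dotProduct, one_mul] at h9
  have h10 : μ i ^ 2 = 0 := le_antisymm (le_trans h9 h6) (sq_nonneg _)
  simpa using pow_eq_zero_iff (two_ne_zero) |>.mp h10

end DENO

theorem t_DENO : M_DENO := by
  classical
  intro hR hG hC hQ r Φ B hI hW θ
  obtain ⟨_, _, hR3⟩ := hR r Φ B hI hW
  have hG1 := hG r Φ B hI hW
  obtain ⟨hC1, hC2⟩ := hC r Φ B hI hW
  obtain ⟨_, _, _, h4, _, _, h7⟩ := hQ r Φ B hI hW
  have hcf := DENO.cf_mul hG1 hI hW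
  have hone := DENO.cf_one hR3
  have hreg : Reg (1 : Fin r → ℤ) := fun i => le_refl _
  -- the coefficients which are not zero
  have key : ∀ ν, DENO.cf Φ ν ≠ 0 → ∃ w ∈ WF Φ, w *ᵥ (1 : Fin r → ℤ) = ν := by
    intro ν hν
    obtain ⟨w, hw, hd⟩ := hC1 ν
    have h1 : DENO.cf Φ (w *ᵥ ν) ≠ 0 := by
      rw [hcf w hw]
      refine mul_ne_zero ?_ hν
      rcases hW.det w hw with h | h <;> rw [h] <;> norm_num
    have h2 : ∀ i, 1 ≤ (w *ᵥ ν) i := by
      intro i
      by_contra hlt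
      have h0 : (w *ᵥ ν) i = 0 := by
        have := hd i
        omega
      have h3 := DENO.cf_refl hI hW i (w *ᵥ ν)
      rw [h0, zero_smul, sub_zero] at h3
      apply h1
      omega
    obtain ⟨S, hS, h3⟩ : ∃ S ∈ (pos Φ).powerset, DENO.nu S = w *ᵥ ν := by
      unfold DENO.cf DENO.EE at h1
      obtain ⟨S, hS, h3⟩ := Finset.exists_ne_zero_of_sum_ne_zero h1
      refine ⟨S, hS, ?_⟩
      by_contra hne
      apply h3
      show (-1) ^ S.card * (if DENO.nu S = w *ᵥ ν then 1 else 0) = 0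
      rw [if_neg hne, mul_zero]
    rw [Finset.mem_powerset] at hS
    have h5 := DENO.dom_one hI hW h4 h7 (w *ᵥ ν - 1) (fun i => by
      have := h2 i
      simp only [Pi.sub_apply, Pi.one_apply]
      omega) S hS (by
      rw [← h3]
      unfold DENO.nu
      abel)
    have h6 : w *ᵥ ν = 1 := sub_eq_zero.mp h5
    obtain ⟨w', hw', h8, _⟩ := hW.inv w hw
    refine ⟨w', hw', ?_⟩
    rw [← h6, mulVec_mulVec, h8, one_mulVec]
  have inj : ∀ w ∈ WF Φ, ∀ w' ∈ WF Φ, w *ᵥ (1 : Fin r → ℤ) = w' *ᵥ (1 : Fin r → ℤ) → w = w' := by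
    intro w hw w' hw' h
    obtain ⟨v, hv, h1, h2⟩ := hW.inv w' hw'
    have h3 : (v * w) *ᵥ (1 : Fin r → ℤ) = 1 := by
      rw [← mulVec_mulVec, h, mulVec_mulVec, h1, one_mulVec]
    have h5 := hC2 1 hreg (v * w) (hW.mul v hv w hw) (by rw [h3]; exact hreg)
    calc w = (w' * v) * w := by rw [h2, one_mul]
      _ = w' * (v * w) := by rw [mul_assoc]
      _ = w' := by rw [h5, mul_one]
  rw [DENO.expand]
  set g : (Fin r → ℤ) → ℂ := fun ν => eu (dz ν θ) with hg
  set T : Finset (Fin r → ℤ) := (pos Φ).powerset.image DENO.nu ∪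
    (WF Φ).image fun w => w *ᵥ (1 : Fin r → ℤ) with hT
  have e1 : ∑ S ∈ (pos Φ).powerset, (-1) ^ S.card * eu (dz (DENO.nu S) θ) =
      ∑ ν ∈ T, (DENO.cf Φ ν : ℂ) * g ν := by
    have e2 : ∀ ν ∈ T, (DENO.cf Φ ν : ℂ) * g ν =
        ∑ S ∈ (pos Φ).powerset, if DENO.nu S = ν then (-1) ^ S.card * g ν else 0 := by
      intro ν _
      unfold DENO.cf DENO.EE
      push_cast
      rw [Finset.sum_mul]
      refine Finset.sum_congr rfl fun S _ => ?_
      split_ifs <;> simp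
    rw [Finset.sum_congr rfl e2, Finset.sum_comm]
    refine Finset.sum_congr rfl fun S hS => ?_
    rw [Finset.sum_ite_eq, if_pos]
    rw [hT, Finset.mem_union]
    left
    exact Finset.mem_image_of_mem _ hS
  rw [e1, ← Finset.sum_subset (s₁ := (WF Φ).image fun w => w *ᵥ (1 : Fin r → ℤ))
    Finset.subset_union_right, Finset.sum_image (fun w hw w' hw' h => inj w hw w' hw' h)]
  · show ∑ w ∈ WF Φ, (w.det : ℂ) * eu (dz (w *ᵥ (1 : Fin r → ℤ)) θ) = _
    refine Finset.sum_congr rfl fun w hw => ?_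
    rw [hcf w hw, hone, mul_one]
  · intro ν _ hν
    by_contra hne
    have h1 : DENO.cf Φ ν ≠ 0 := fun h => hne (by rw [h]; simp)
    obtain ⟨w, hw, h2⟩ := key ν h1
    exact hν (Finset.mem_image.mpr ⟨w, hw, h2⟩)

end

end LGR
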