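import Pool.Agent.LGR.StB
import Pool.Agent.STZ.DENS

/-!
# DENV: the singular set of the torus is small, for the data `RV`
-/

namespace LGR

open STZ MeasureTheory Matrix

noncomputable section

namespace DENV

lemma fst_ne_zero {r : ℕ} {D : RD r} {P : RT r} (hR : RV D P)
    {p : (Fin r → ℤ) × (Fin r → ℤ)} (hp : p ∈ P) : p.1 ≠ 0 := by
  intro h0
  obtain ⟨w, _, hdet, hw⟩ := hR.refl p hp
  have h2 : ∀ l, w *ᵥ l = l := by
    intro l
    rw [hw l, h0]
    simp
  have h1 : w = 1 := by
    ext i j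
    have h3 := congrFun (h2 (Pi.single j 1)) i
    rw [Matrix.mulVec_single_one] at h3
    rw [Matrix.one_apply, ← Pi.single_apply, ← h3]
    rfl
  rw [h1, Matrix.det_one] at hdet
  norm_num at hdet

end DENV

open DENV in
theorem t_DENV : S_DENV := by
  intro r D P hR
  have hP : ∀ p ∈ P, p.1 ≠ 0 := fun p hp => fst_ne_zero hR hp
  obtain ⟨u, hu⟩ := STZ.DENS.exists_u P hP
  refine ⟨⟨u, hu⟩, ?_⟩
  intro F hF hz θ
  have hA : (⋃ p ∈ P, Set.range fun k : ℤ => ((k : ℝ) - dz p.1 θ) / dz p.1 u).Countable :=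
    Set.Countable.biUnion (Finset.countable_toSet P) fun p _ => Set.countable_range _
  have hd := hA.dense_compl ℝ
  have hc : Continuous fun s : ℝ => F (θ + s • u) :=
    hF.comp (continuous_const.add (continuous_id.smul continuous_const))
  have h1 : (fun s : ℝ => F (θ + s • u)) = fun _ => 0 := by
    refine Continuous.ext_on hd hc continuous_const ?_
    intro s hs
    refine hz _ fun p hp h0 => hs ?_
    simp only [Set.mem_iUnion, Set.mem_range]
    refine ⟨p, hp, round (dz p.1 (θ + s • u)), ?_⟩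
    have h2 : dz p.1 (θ + s • u) - round (dz p.1 (θ + s • u)) = 0 := abs_eq_zero.1 h0
    have h3 : ((round (dz p.1 (θ + s • u)) : ℤ) : ℝ) = dz p.1 θ + s * dz p.1 u := by
      rw [← STZ.DENS.dz_line]
      linarith
    rw [h3, add_sub_cancel_left, mul_div_assoc, div_self (hu p hp), mul_one]
  have h2 := congrFun h1 0
  simpa using h2

end

end LGR
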