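import Pool.Agent.LGR.StV

/-!
# DERS: the functions `g ↦ det (cm e ((σ g)ᴴ g))` are highest weight functions
-/

namespace LGR

open STZ MeasureTheory Matrix Filter

open scoped ComplexConjugate Matrix Real Topology

noncomputable section

namespace DERS

/-- the derivative of a determinant -/
theorem detDer {n : ℕ} (C : ℝ → Matrix (Fin n) (Fin n) ℂ) (D : Matrix (Fin n) (Fin n) ℂ)
    (h : ∀ i j, HasDerivAt (fun t => C t i j) (D i j) 0) :
    HasDerivAt (fun t => (C t).det) ((adjugate (C 0) * D).trace) 0 := by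
  have h1 : HasDerivAt (fun t => ∑ σ : Equiv.Perm (Fin n),
      (((Equiv.Perm.sign σ : ℤˣ) : ℤ) : ℂ) * ∏ i, C t (σ i) i)
      (∑ σ : Equiv.Perm (Fin n), (((Equiv.Perm.sign σ : ℤˣ) : ℤ) : ℂ) *
        ∑ i, (∏ j ∈ Finset.univ.erase i, C 0 (σ j) j) • D (σ i) i) 0 := by
    refine HasDerivAt.fun_sum (fun σ _ => ?_)
    refine HasDerivAt.const_mul _ ?_
    exact HasDerivAt.fun_finsetProd (fun i _ => h (σ i) i)
  have h2 : (fun t => (C t).det) = (fun t => ∑ σ : Equiv.Perm (Fin n),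
      (((Equiv.Perm.sign σ : ℤˣ) : ℤ) : ℂ) * ∏ i, C t (σ i) i) := by
    funext t
    exact Matrix.det_apply' (C t)
  have h3 : (adjugate (C 0) * D).trace = ∑ σ : Equiv.Perm (Fin n),
      (((Equiv.Perm.sign σ : ℤˣ) : ℤ) : ℂ) *
        ∑ i, (∏ j ∈ Finset.univ.erase i, C 0 (σ j) j) • D (σ i) i := by
    have h4 : ∀ i, (adjugate (C 0) * D) i i = ((C 0).updateCol i (fun j => D j i)).det := by
      intro i
      rw [← cramer_apply, cramer_eq_adjugate_mulVec]
      rfl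
    have h5 : ∀ i, ((C 0).updateCol i (fun j => D j i)).det = ∑ σ : Equiv.Perm (Fin n),
        (((Equiv.Perm.sign σ : ℤˣ) : ℤ) : ℂ) *
          ((∏ j ∈ Finset.univ.erase i, C 0 (σ j) j) • D (σ i) i) := by
      intro i
      rw [Matrix.det_apply']
      refine Finset.sum_congr rfl (fun σ _ => ?_)
      congr 1
      rw [← Finset.mul_prod_erase Finset.univ _ (Finset.mem_univ i)]
      rw [updateCol_self, smul_eq_mul, mul_comm]
      congr 1
      refine Finset.prod_congr rfl (fun j hj => ?_)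
      rw [updateCol_ne (Finset.ne_of_mem_erase hj)]
    simp only [Matrix.trace, Matrix.diag_apply, h4, h5]
    rw [Finset.sum_comm]
    refine Finset.sum_congr rfl (fun σ _ => ?_)
    rw [Finset.mul_sum]
  rw [h2, h3]
  exact h1

/-- entrywise derivative of a matrix function -/
def HM {m n : ℕ} (F : ℝ → Matrix (Fin m) (Fin n) ℂ) (D : Matrix (Fin m) (Fin n) ℂ) : Prop :=
  ∀ i j, HasDerivAt (fun t => F t i j) (D i j) 0

theorem HM.const {m n : ℕ} (A : Matrix (Fin m) (Fin n) ℂ) : HM (fun _ => A) 0 :=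
  fun i j => hasDerivAt_const (0 : ℝ) (A i j)

theorem HM.mul {m n p : ℕ} {F : ℝ → Matrix (Fin m) (Fin n) ℂ} {D : Matrix (Fin m) (Fin n) ℂ}
    {G : ℝ → Matrix (Fin n) (Fin p) ℂ} {E : Matrix (Fin n) (Fin p) ℂ} (hF : HM F D) (hG : HM G E) :
    HM (fun t => F t * G t) (D * G 0 + F 0 * E) := by
  intro i j
  have h : HasDerivAt (fun t => ∑ k, F t i k * G t k j)
      (∑ k, (D i k * G 0 k j + F 0 i k * E k j)) 0 :=
    HasDerivAt.fun_sum (fun k _ => (hF i k).mul (hG k j))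
  have h2 : (D * G 0 + F 0 * E) i j = ∑ k, (D i k * G 0 k j + F 0 i k * E k j) := by
    rw [Matrix.add_apply, Matrix.mul_apply, Matrix.mul_apply, Finset.sum_add_distrib]
  rw [h2]
  exact h

theorem HM.ct {m n : ℕ} {F : ℝ → Matrix (Fin m) (Fin n) ℂ} {D : Matrix (Fin m) (Fin n) ℂ}
    (hF : HM F D) : HM (fun t => (F t)ᴴ) Dᴴ := by
  intro i j
  exact (hF j i).star

theorem HM.trace {n : ℕ} {F : ℝ → Matrix (Fin n) (Fin n) ℂ} {D : Matrix (Fin n) (Fin n) ℂ}
    (hF : HM F D) : HasDerivAt (fun t => (F t).trace) D.trace 0 :=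
  HasDerivAt.fun_sum (fun i _ => hF i i)

/-- the derivative of `cm e x` -/
def DM {N n : ℕ} (e : Fin n → Matrix (Fin N) (Fin N) ℂ) (x X T : Matrix (Fin N) (Fin N) ℂ) :
    Matrix (Fin n) (Fin n) ℂ := fun j k =>
  (x * (X * e k - e k * X) * xᴴ * (e j)ᴴ).trace - (x * e k * xᴴ * ((e j)ᴴ * T - T * (e j)ᴴ)).trace

theorem DM_cm {N n : ℕ} (e : Fin n → Matrix (Fin N) (Fin N) ℂ) (x X T : Matrix (Fin N) (Fin N) ℂ)
    (a b : Matrix (Fin n) (Fin n) ℂ) (ha : ∀ k, X * e k - e k * X = ∑ l, a l k • e l)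
    (hb : ∀ j, (e j)ᴴ * T - T * (e j)ᴴ = ∑ l, b j l • (e l)ᴴ) :
    DM e x X T = cm e x * a - b * cm e x := by
  ext j k
  have h1 : (x * (X * e k - e k * X) * xᴴ * (e j)ᴴ).trace = (cm e x * a) j k := by
    rw [ha k, Matrix.mul_apply, Finset.mul_sum, Finset.sum_mul, Finset.sum_mul, Matrix.trace_sum]
    refine Finset.sum_congr rfl (fun l _ => ?_)
    rw [Matrix.mul_smul, Matrix.smul_mul, Matrix.smul_mul, Matrix.trace_smul, smul_eq_mul, mul_comm]
    rfl
  have h2 : (x * e k * xᴴ * ((e j)ᴴ * T - T * (e j)ᴴ)).trace = (b * cm e x) j k := by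
    rw [hb j, Matrix.mul_apply, Finset.mul_sum, Matrix.trace_sum]
    refine Finset.sum_congr rfl (fun l _ => ?_)
    rw [Matrix.mul_smul, Matrix.trace_smul, smul_eq_mul]
    rfl
  rw [Matrix.sub_apply, ← h1, ← h2]
  rfl

theorem tr_adj {n : ℕ} (C a b : Matrix (Fin n) (Fin n) ℂ) :
    (adjugate C * (C * a - b * C)).trace = (a.trace - b.trace) * C.det := by
  rw [Matrix.mul_sub, Matrix.trace_sub, ← Matrix.mul_assoc, adjugate_mul, ← Matrix.mul_assoc,
    Matrix.trace_mul_comm (adjugate C * b) C, ← Matrix.mul_assoc, mul_adjugate, Matrix.smul_mul,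
    Matrix.smul_mul, Matrix.one_mul, Matrix.one_mul, Matrix.trace_smul, Matrix.trace_smul,
    smul_eq_mul, smul_eq_mul]
  ring

theorem DM_comb {N n : ℕ} (e : Fin n → Matrix (Fin N) (Fin N) ℂ)
    (x X T X' T' : Matrix (Fin N) (Fin N) ℂ) (c : ℂ) :
    DM e x (X - c • X') (T - c • T') = DM e x X T - c • DM e x X' T' := by
  ext j k
  rw [Matrix.sub_apply, Matrix.smul_apply]
  unfold DM
  simp only [Matrix.sub_mul, Matrix.mul_sub, Matrix.smul_mul, Matrix.mul_smul, Matrix.trace_sub,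
    Matrix.trace_smul, smul_eq_mul]
  ring

/-- `cm` along a curve -/
theorem cmDer {N n : ℕ} (e : Fin n → Matrix (Fin N) (Fin N) ℂ)
    (F : ℝ → Matrix (Fin N) (Fin N) ℂ) (X T : Matrix (Fin N) (Fin N) ℂ) (hX : Xᴴ = -X)
    (hT : Tᴴ = -T) (hF : HM F (F 0 * X - T * F 0)) :
    HasDerivAt (fun t => (cm e (F t)).det)
      ((adjugate (cm e (F 0)) * DM e (F 0) X T).trace) 0 := by
  refine detDer (fun t => cm e (F t)) _ (fun j k => ?_)
  have h1 : HM (fun t => F t * e k * (F t)ᴴ * (e j)ᴴ)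
      ((((F 0 * X - T * F 0) * e k + F 0 * 0) * (F 0)ᴴ +
        F 0 * e k * (F 0 * X - T * F 0)ᴴ) * (e j)ᴴ + F 0 * e k * (F 0)ᴴ * 0) :=
    ((hF.mul (HM.const (e k))).mul hF.ct).mul (HM.const ((e j)ᴴ))
  have h2 := h1.trace
  have h3 : DM e (F 0) X T j k = ((((F 0 * X - T * F 0) * e k + F 0 * 0) * (F 0)ᴴ +
      F 0 * e k * (F 0 * X - T * F 0)ᴴ) * (e j)ᴴ + F 0 * e k * (F 0)ᴴ * 0).trace := by
    have h4 : ((T * F 0) * e k * (F 0)ᴴ * (e j)ᴴ).trace = (F 0 * e k * (F 0)ᴴ * ((e j)ᴴ * T)).trace := by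
      rw [Matrix.mul_assoc T, Matrix.mul_assoc T, Matrix.mul_assoc T, Matrix.trace_mul_comm T]
      simp only [Matrix.mul_assoc]
    have h5 : (F 0 * X - T * F 0)ᴴ = -(X * (F 0)ᴴ) + (F 0)ᴴ * T := by
      rw [Matrix.conjTranspose_sub, Matrix.conjTranspose_mul, Matrix.conjTranspose_mul, hX, hT,
        Matrix.neg_mul, Matrix.mul_neg, sub_neg_eq_add]
    rw [h5]
    unfold DM
    simp only [Matrix.mul_zero, add_zero, Matrix.sub_mul, Matrix.mul_sub, Matrix.add_mul,
      Matrix.mul_add, Matrix.mul_neg, Matrix.neg_mul, Matrix.trace_sub, Matrix.trace_add,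
      Matrix.trace_neg, h4]
    simp only [Matrix.mul_assoc]
    ring
  rw [h3]
  exact h2

/-- membership of all entries in a subalgebra -/
def MA {N m n : ℕ} {H : Subgroup (SU N)} (𝒜 : Subalgebra ℂ (H → ℂ))
    (F : H → Matrix (Fin m) (Fin n) ℂ) : Prop := ∀ i j, (fun g => F g i j) ∈ 𝒜

theorem const_mem {N : ℕ} {H : Subgroup (SU N)} (𝒜 : Subalgebra ℂ (H → ℂ)) (c : ℂ) :
    (fun _ : H => c) ∈ 𝒜 := 𝒜.algebraMap_mem c

theorem sum_mem' {N : ℕ} {H : Subgroup (SU N)} (𝒜 : Subalgebra ℂ (H → ℂ)) {ι : Type*}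
    (s : Finset ι) (f : ι → H → ℂ) (h : ∀ i ∈ s, f i ∈ 𝒜) : (fun g => ∑ i ∈ s, f i g) ∈ 𝒜 := by
  have h1 : (fun g => ∑ i ∈ s, f i g) = ∑ i ∈ s, f i := by
    funext g
    rw [Finset.sum_apply]
  rw [h1]
  exact Subalgebra.sum_mem 𝒜 h

theorem prod_mem' {N : ℕ} {H : Subgroup (SU N)} (𝒜 : Subalgebra ℂ (H → ℂ)) {ι : Type*}
    (s : Finset ι) (f : ι → H → ℂ) (h : ∀ i ∈ s, f i ∈ 𝒜) : (fun g => ∏ i ∈ s, f i g) ∈ 𝒜 := by
  have h1 : (fun g => ∏ i ∈ s, f i g) = ∏ i ∈ s, f i := by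
    funext g
    rw [Finset.prod_apply]
  rw [h1]
  exact Subalgebra.prod_mem 𝒜 h

theorem MA.const {N m n : ℕ} {H : Subgroup (SU N)} (𝒜 : Subalgebra ℂ (H → ℂ))
    (A : Matrix (Fin m) (Fin n) ℂ) : MA 𝒜 (fun _ => A) := fun i j => const_mem 𝒜 (A i j)

theorem MA.mul {N m n p : ℕ} {H : Subgroup (SU N)} {𝒜 : Subalgebra ℂ (H → ℂ)}
    {F : H → Matrix (Fin m) (Fin n) ℂ} {G : H → Matrix (Fin n) (Fin p) ℂ} (hF : MA 𝒜 F)
    (hG : MA 𝒜 G) : MA 𝒜 (fun g => F g * G g) := by
  intro i j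
  have h : (fun g => (F g * G g) i j) = (fun g => ∑ k, F g i k * G g k j) := by
    funext g
    rw [Matrix.mul_apply]
  rw [h]
  exact sum_mem' 𝒜 _ _ (fun k _ => 𝒜.mul_mem (hF i k) (hG k j))

theorem MA.det {N n : ℕ} {H : Subgroup (SU N)} {𝒜 : Subalgebra ℂ (H → ℂ)}
    {F : H → Matrix (Fin n) (Fin n) ℂ} (hF : MA 𝒜 F) : (fun g => (F g).det) ∈ 𝒜 := by
  have h : (fun g => (F g).det) = (fun g => ∑ σ : Equiv.Perm (Fin n),
      (((Equiv.Perm.sign σ : ℤˣ) : ℤ) : ℂ) * ∏ i, F g (σ i) i) := by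
    funext g
    exact Matrix.det_apply' (F g)
  rw [h]
  refine sum_mem' 𝒜 _ _ (fun σ _ => ?_)
  exact 𝒜.mul_mem (const_mem 𝒜 _) (prod_mem' 𝒜 _ (fun i g => F g (σ i) i) (fun i _ => hF (σ i) i))

theorem MA.trace {N n : ℕ} {H : Subgroup (SU N)} {𝒜 : Subalgebra ℂ (H → ℂ)}
    {F : H → Matrix (Fin n) (Fin n) ℂ} (hF : MA 𝒜 F) : (fun g => (F g).trace) ∈ 𝒜 :=
  sum_mem' 𝒜 _ (fun i g => F g i i) (fun i _ => hF i i)

end DERS

open DERS in
theorem t_DERS : M_DERS := by
  intro hCAL hLIEB hTAUS hPGXX N H K σ τ A n e δ hcl hsim hsym hnil hA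
  have hT : TSF H σ τ := hTAUS N H K σ τ hcl hsim hsym
  obtain ⟨hS, hdσ⟩ := hPGXX N H K σ τ hcl hsim hsym
  have hL : LIF H := hLIEB N H hcl
  have hC : CALFH H := hCAL N H
  have hN : NIL H e δ := hnil.nil
  -- conjugate transposes
  have hct : ∀ X ∈ lie H, Xᴴ = -X := fun X hX => (hL.su X hX).1
  -- derivative of functions in the algebra
  have hder : ∀ f ∈ PG H σ, ∀ X ∈ lie H, ∀ g : H,
      HasDerivAt (fun t : ℝ => f (g * exH H X t)) (dH X f g) 0 := by
    intro f hf X hX g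
    exact ((hS.c2 f hf).1.diff X hX g).hasDerivAt
  have hm1 : ∀ i j, (fun g : H => g.1.1 i j) ∈ PG H σ := fun i j =>
    Algebra.subset_adjoin (Or.inl (Or.inl ⟨i, j, rfl⟩))
  have hm2 : ∀ i j, (fun g : H => conj (g.1.1 i j)) ∈ PG H σ := fun i j =>
    Algebra.subset_adjoin (Or.inl (Or.inr ⟨i, j, rfl⟩))
  have hm3 : ∀ i j, (fun g : H => (σ g).1.1 i j) ∈ PG H σ := fun i j =>
    Algebra.subset_adjoin (Or.inr (Or.inl ⟨i, j, rfl⟩))
  have hm4 : ∀ i j, (fun g : H => conj ((σ g).1.1 i j)) ∈ PG H σ := fun i j =>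
    Algebra.subset_adjoin (Or.inr (Or.inr ⟨i, j, rfl⟩))
  have hx : MA (PG H σ) (fun g : H => (σ g).1.1ᴴ * g.1.1) :=
    MA.mul (F := fun g : H => (σ g).1.1ᴴ) (G := fun g : H => g.1.1) (fun i j => hm4 j i) hm1
  have hxc : MA (PG H σ) (fun g : H => ((σ g).1.1ᴴ * g.1.1)ᴴ) := by
    intro i j
    exact hS.cj _ (hx j i)
  have hmem : (fun g : H => (cm e ((σ g).1.1ᴴ * g.1.1)).det) ∈ PG H σ := by
    refine MA.det (F := fun g : H => cm e ((σ g).1.1ᴴ * g.1.1)) (fun j k => ?_)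
    exact MA.trace (F := fun g : H => ((σ g).1.1ᴴ * g.1.1) * e k * ((σ g).1.1ᴴ * g.1.1)ᴴ * (e j)ᴴ)
      (((hx.mul (MA.const _ (e k))).mul hxc).mul (MA.const _ _))
  -- the derivative
  have hD : ∀ X ∈ lie H, ∀ g : H, dH X (fun g : H => (cm e ((σ g).1.1ᴴ * g.1.1)).det) g =
      (adjugate (cm e ((σ g).1.1ᴴ * g.1.1)) * DM e ((σ g).1.1ᴴ * g.1.1) X (τ X)).trace := by
    intro X hX g
    have hz : exH H X 0 = 1 := hC.exzero X hX
    have h1 : HM (fun t : ℝ => (g * exH H X t).1.1) (g.1.1 * X) := by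
      intro i j
      have h := hder _ (hm1 i j) X hX g
      rw [hC.dentry X hX i j g] at h
      exact h
    have h2 : HM (fun t : ℝ => (σ (g * exH H X t)).1.1) ((σ g).1.1 * τ X) := by
      intro i j
      have h := hder _ (hm3 i j) X hX g
      rw [hdσ X hX i j g] at h
      exact h
    have h3 : HM (fun t : ℝ => (σ (g * exH H X t)).1.1ᴴ * (g * exH H X t).1.1)
        (((σ g).1.1ᴴ * g.1.1) * X - τ X * ((σ g).1.1ᴴ * g.1.1)) := by
      have h := h2.ct.mul h1
      have h4 : ((σ g).1.1 * τ X)ᴴ * (g * exH H X 0).1.1 + (σ (g * exH H X 0)).1.1ᴴ * (g.1.1 * X) =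
          ((σ g).1.1ᴴ * g.1.1) * X - τ X * ((σ g).1.1ᴴ * g.1.1) := by
        rw [hz, mul_one, Matrix.conjTranspose_mul, hct (τ X) (hsym.mem X hX)]
        simp only [Matrix.neg_mul, Matrix.mul_assoc]
        abel
      rw [← h4]
      exact h
    have h5 := cmDer e (fun t : ℝ => (σ (g * exH H X t)).1.1ᴴ * (g * exH H X t).1.1) X (τ X)
      (hct X hX) (hct (τ X) (hsym.mem X hX)) (by
        simp only [hz, mul_one]
        exact h3)
    simp only [hz, mul_one] at h5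
    exact h5.deriv
  have hδH : δᴴ = δ := by
    rw [hN.del, Matrix.conjTranspose_sum]
    refine Finset.sum_congr rfl (fun k _ => ?_)
    rw [Matrix.conjTranspose_sub, Matrix.conjTranspose_mul, Matrix.conjTranspose_mul,
      Matrix.conjTranspose_conjTranspose]
  have hτδ : τ ((-Complex.I) • δ) = Complex.I • δ := by
    rw [hA _ hnil.dA, neg_smul, neg_neg]
  -- trace of the structure constants
  have htra : ∀ Y : Matrix (Fin N) (Fin N) ℂ, ∀ a : Matrix (Fin n) (Fin n) ℂ,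
      (∀ k, Y * e k - e k * Y = ∑ l, a l k • e l) → a.trace = (Y * δ).trace := by
    intro Y a ha
    have h1 : ∀ k, a k k = (Y * (e k * (e k)ᴴ - (e k)ᴴ * e k)).trace := by
      intro k
      have h2 : ((Y * e k - e k * Y) * (e k)ᴴ).trace = a k k := by
        rw [ha k, Finset.sum_mul, Matrix.trace_sum]
        rw [Finset.sum_eq_single k]
        · rw [Matrix.smul_mul, Matrix.trace_smul, hN.orth, if_pos rfl, smul_eq_mul, mul_one]
        · intro l _ hl
          rw [Matrix.smul_mul, Matrix.trace_smul, hN.orth, if_neg hl, smul_zero]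
        · intro h
          exact absurd (Finset.mem_univ k) h
      rw [← h2, Matrix.sub_mul, Matrix.mul_sub, Matrix.trace_sub, Matrix.trace_sub]
      congr 1
      · rw [Matrix.mul_assoc]
      · rw [Matrix.mul_assoc, Matrix.trace_mul_comm (e k), Matrix.mul_assoc]
    rw [hN.del, Finset.mul_sum, Matrix.trace_sum]
    simp only [Matrix.trace, Matrix.diag_apply] at h1 ⊢
    exact Finset.sum_congr rfl (fun k _ => h1 k)
  refine ⟨⟨hmem, ?_, ?_⟩, ?_, ?_⟩
  · -- weights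
    intro Y hY hYδ g
    rw [hD Y hY g]
    have hτY : τ Y ∈ lie H := hsym.mem Y hY
    have hτYδ : τ Y * δ = δ * τ Y := by
      have h1 := hT.br Y hY ((-Complex.I) • δ) hN.dmem
      rw [hτδ, Matrix.mul_smul, Matrix.smul_mul, hYδ, sub_self, map_zero, Matrix.mul_smul,
        Matrix.smul_mul, ← smul_sub] at h1
      have h2 := (smul_eq_zero.mp h1.symm).resolve_left Complex.I_ne_zero
      exact sub_eq_zero.mp h2
    choose a ha using hN.ln Y hY hYδ
    choose b hb using hN.ln (τ Y) hτY hτYδ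
    have hb' : ∀ j, (e j)ᴴ * τ Y - τ Y * (e j)ᴴ =
        ∑ l, (Matrix.of (fun j l => -conj (b j l)) : Matrix (Fin n) (Fin n) ℂ) j l • (e l)ᴴ := by
      intro j
      have h1 := congrArg Matrix.conjTranspose (hb j)
      rw [Matrix.conjTranspose_sub, Matrix.conjTranspose_mul, Matrix.conjTranspose_mul,
        hct _ hτY, Matrix.conjTranspose_sum] at h1
      have h2 : (e j)ᴴ * τ Y - τ Y * (e j)ᴴ = -((e j)ᴴ * -τ Y - -τ Y * (e j)ᴴ) := by
        rw [Matrix.mul_neg, Matrix.neg_mul]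
        abel
      rw [h2, h1, ← Finset.sum_neg_distrib]
      refine Finset.sum_congr rfl (fun l _ => ?_)
      rw [Matrix.conjTranspose_smul, Matrix.of_apply, neg_smul]
      rfl
    rw [DM_cm e _ Y (τ Y) (Matrix.of (fun l k => a k l)) (Matrix.of (fun j l => -conj (b j l)))
      (fun k => ha k) hb', tr_adj]
    have h1 : (Matrix.of (fun l k => a k l) : Matrix (Fin n) (Fin n) ℂ).trace = (Y * δ).trace :=
      htra Y _ (fun k => ha k)
    have h2 : (Matrix.of (fun l k => b k l) : Matrix (Fin n) (Fin n) ℂ).trace = (τ Y * δ).trace :=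
      htra (τ Y) _ (fun k => hb k)
    have h3 : (Matrix.of (fun j l => -conj (b j l)) : Matrix (Fin n) (Fin n) ℂ).trace =
        -conj ((τ Y * δ).trace) := by
      rw [← h2]
      simp [Matrix.trace, Finset.sum_neg_distrib]
    have h4 : conj ((τ Y * δ).trace) = -(τ Y * δ).trace := by
      have h5 : (τ Y * δ)ᴴ.trace = conj ((τ Y * δ).trace) := Matrix.trace_conjTranspose _
      rw [← h5, Matrix.conjTranspose_mul, hδH, hct _ hτY, Matrix.mul_neg, Matrix.trace_neg,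
        Matrix.trace_mul_comm]
    have h6 : (τ Y * δ).trace = -(Y * δ).trace := by
      have h7 := hT.tr Y hY ((-Complex.I) • δ) hN.dmem
      rw [hτδ, Matrix.mul_smul, Matrix.mul_smul, Matrix.trace_smul, Matrix.trace_smul,
        smul_eq_mul, smul_eq_mul, neg_mul, ← mul_neg] at h7
      exact mul_left_cancel₀ Complex.I_ne_zero h7
    rw [h1, h3, h4, h6]
    push_cast
    ring
  · -- highest weight
    intro i g
    have hu := (hN.emem i).1
    have hv := (hN.emem i).2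
    rw [hD _ hu g, hD _ hv g]
    obtain ⟨t, ht⟩ := hnil.tau i
    choose a ha using fun m k => hN.nn m k
    have h1 : (adjugate (cm e ((σ g).1.1ᴴ * g.1.1)) *
        DM e ((σ g).1.1ᴴ * g.1.1) ((e i - (e i)ᴴ) - Complex.I • (Complex.I • (e i + (e i)ᴴ)))
          (τ (e i - (e i)ᴴ) - Complex.I • τ (Complex.I • (e i + (e i)ᴴ)))).trace = 0 := by
      have hX : (e i - (e i)ᴴ) - Complex.I • (Complex.I • (e i + (e i)ᴴ)) = (2 : ℂ) • e i := by
        rw [smul_smul, Complex.I_mul_I, two_smul]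
        module
      have hTT : τ (e i - (e i)ᴴ) - Complex.I • τ (Complex.I • (e i + (e i)ᴴ)) =
          (2 : ℂ) • ∑ j, t j • (e j)ᴴ := by
        rw [← ht, smul_smul]
        norm_num
      rw [DM_cm e _ _ _ (Matrix.of (fun l k => 2 * a i k l))
        (Matrix.of (fun j l => 2 * ∑ m, t m * conj (a m j l))) ?_ ?_, tr_adj]
      · have e1 : (Matrix.of (fun l k => 2 * a i k l) : Matrix (Fin n) (Fin n) ℂ).trace = 0 := by
          refine Finset.sum_eq_zero (fun k _ => ?_)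
          simp [Matrix.diag_apply, (ha i k).2]
        have e2 : (Matrix.of (fun j l => 2 * ∑ m, t m * conj (a m j l)) :
            Matrix (Fin n) (Fin n) ℂ).trace = 0 := by
          refine Finset.sum_eq_zero (fun k _ => ?_)
          simp [Matrix.diag_apply, (ha _ k).2]
        rw [e1, e2]
        ring
      · intro k
        rw [hX, Matrix.smul_mul, Matrix.mul_smul, ← smul_sub, (ha i k).1, Finset.smul_sum]
        refine Finset.sum_congr rfl (fun l _ => ?_)
        rw [Matrix.of_apply, smul_smul]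
      · intro j
        rw [hTT, Matrix.mul_smul, Matrix.smul_mul, ← smul_sub, Finset.mul_sum, Finset.sum_mul,
          ← Finset.sum_sub_distrib]
        have e3 : ∀ m, (e j)ᴴ * (t m • (e m)ᴴ) - t m • (e m)ᴴ * (e j)ᴴ =
            ∑ l, (t m * conj (a m j l)) • (e l)ᴴ := by
          intro m
          have h1 := congrArg Matrix.conjTranspose (ha m j).1
          rw [Matrix.conjTranspose_sub, Matrix.conjTranspose_mul, Matrix.conjTranspose_mul,
            Matrix.conjTranspose_sum] at h1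
          rw [Matrix.mul_smul, Matrix.smul_mul, ← smul_sub, h1, Finset.smul_sum]
          refine Finset.sum_congr rfl (fun l _ => ?_)
          rw [Matrix.conjTranspose_smul, smul_smul]
          rfl
        simp only [e3]
        rw [Finset.sum_comm, Finset.smul_sum]
        refine Finset.sum_congr rfl (fun l _ => ?_)
        rw [Matrix.of_apply, ← Finset.sum_smul, smul_smul]
    rw [DM_comb, Matrix.mul_sub, Matrix.mul_smul, Matrix.trace_sub, Matrix.trace_smul,
      smul_eq_mul] at h1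
    exact sub_eq_zero.mp h1
  · -- value at the identity
    have h1 : (σ (1 : H)).1.1ᴴ * (1 : H).1.1 = 1 := by
      rw [map_one]
      simp
    rw [h1]
    have h2 : cm e 1 = 1 := by
      ext j k
      unfold cm
      rw [Matrix.one_mul, Matrix.conjTranspose_one, Matrix.mul_one, hN.orth, Matrix.one_apply]
      by_cases h : j = k
      · rw [if_pos h, if_pos h.symm]
      · rw [if_neg h, if_neg (fun h' => h h'.symm)]
    rw [h2, Matrix.det_one]
  · -- invariance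
    intro k g hk
    have h1 : (σ (k * g)).1.1ᴴ * (k * g).1.1 = (σ g).1.1ᴴ * g.1.1 := by
      rw [map_mul, hsym.fix k hk]
      have h2 : k.1.1ᴴ * k.1.1 = 1 := by
        have h3 := k.1.2
        rw [Matrix.mem_specialUnitaryGroup_iff] at h3
        exact (Matrix.mem_unitaryGroup_iff').mp h3.1
      have h4 : (k * σ g).1.1 = k.1.1 * (σ g).1.1 := rfl
      have h5 : (k * g).1.1 = k.1.1 * g.1.1 := rfl
      rw [h4, h5, Matrix.conjTranspose_mul, Matrix.mul_assoc, ← Matrix.mul_assoc (k.1.1ᴴ), h2,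
        Matrix.one_mul]
    rw [h1]

end

end LGR
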