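import Pool.Agent.LGR.StA

/-!
The dimension formula of Weyl, as a limit of quotients of alternating sums.
-/

set_option autoImplicit false

namespace LGR

open STZ MeasureTheory Matrix Filter

open scoped ComplexConjugate Matrix Real Topology

noncomputable section

namespace DIML

theorem dz_A {r : ℕ} (A : Matrix (Fin r) (Fin r) ℤ) (μ l : Fin r → ℤ) (s : ℝ) :
    dz μ (fun i => s * (((A *ᵥ l) i : ℤ) : ℝ)) = s * ((μ ⬝ᵥ (A *ᵥ l) : ℤ) : ℝ) := by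
  unfold dz
  rw [dotProduct]
  rw [Int.cast_sum, Finset.mul_sum]
  refine Finset.sum_congr rfl fun i _ => ?_
  rw [Int.cast_mul]
  ring

theorem sum_A {r : ℕ} (A : Matrix (Fin r) (Fin r) ℤ) (l : Fin r → ℤ) (s : ℝ) :
    ∑ i, s * (((A *ᵥ l) i : ℤ) : ℝ) = s * (((1 : Fin r → ℤ) ⬝ᵥ (A *ᵥ l) : ℤ) : ℝ) := by
  rw [← dz_A]
  unfold dz
  simp

/-- the symmetry of the alternating sum -/
theorem swap {r : ℕ} {Φ : RT r} {B : Matrix (Fin r) (Fin r) ℤ} (hW : WFF Φ B)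
    (hS : (rd Φ).Aᵀ = (rd Φ).A)
    (hI : ∀ w ∈ WF Φ, ∀ l l', (w *ᵥ l) ⬝ᵥ ((rd Φ).A *ᵥ (w *ᵥ l')) = l ⬝ᵥ ((rd Φ).A *ᵥ l'))
    (l m : Fin r → ℤ) (s : ℝ) :
    AT (rd Φ) l (fun i => s * ((((rd Φ).A *ᵥ m) i : ℤ) : ℝ)) =
      AT (rd Φ) m (fun i => s * ((((rd Φ).A *ᵥ l) i : ℤ) : ℝ)) := by
  have sym : ∀ x y : Fin r → ℤ, x ⬝ᵥ ((rd Φ).A *ᵥ y) = y ⬝ᵥ ((rd Φ).A *ᵥ x) := by
    intro x y
    rw [dotProduct_comm x, ← hS, mulVec_transpose, ← dotProduct_mulVec, hS]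
  have inv : ∀ w ∈ WF Φ, w⁻¹ ∈ WF Φ ∧ w * w⁻¹ = 1 ∧ w⁻¹ * w = 1 ∧ w⁻¹⁻¹ = w ∧ w⁻¹.det = w.det := by
    intro w hw
    obtain ⟨w', hw', h1, h2⟩ := hW.inv w hw
    have e : w⁻¹ = w' := inv_eq_left_inv h1
    have e' : w'⁻¹ = w := inv_eq_left_inv h2
    refine ⟨by rw [e]; exact hw', by rw [e]; exact h2, by rw [e]; exact h1, by rw [e, e'], ?_⟩
    rw [e]
    have h3 : w'.det * w.det = 1 := by rw [← det_mul, h1, det_one]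
    rcases hW.det w hw with h | h
    · rw [h] at h3 ⊢
      linarith
    · rw [h] at h3 ⊢
      linarith
  show ∑ w ∈ WF Φ, _ = ∑ w ∈ WF Φ, _
  refine Finset.sum_nbij' (fun w => w⁻¹) (fun w => w⁻¹) (fun w hw => (inv w hw).1)
    (fun w hw => (inv w hw).1) (fun w hw => (inv w hw).2.2.2.1) (fun w hw => (inv w hw).2.2.2.1) ?_
  intro w hw
  obtain ⟨h1, h2, h3, h4, h5⟩ := inv w hw
  show (w.det : ℂ) * eu (dz (w *ᵥ l) _) = (w⁻¹.det : ℂ) * eu (dz (w⁻¹ *ᵥ m) _)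
  rw [h5, dz_A, dz_A]
  congr 4
  rw [← hI w⁻¹ h1, mulVec_mulVec, h3, one_mulVec, sym]

/-- the derivative at zero -/
theorem lim (a : ℝ) :
    Tendsto (fun s : ℝ => (1 - eu (-(s * a))) / s) (𝓝[≠] 0) (𝓝 (2 * π * Complex.I * a)) := by
  have h1 : HasDerivAt (fun s : ℝ => 1 - eu (-(s * a))) (2 * π * Complex.I * a) 0 := by
    unfold eu
    have h2 : HasDerivAt (fun s : ℝ => 2 * (π : ℂ) * ((-(s * a) : ℝ) : ℂ) * Complex.I)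
        (2 * (π : ℂ) * ((-(1 * a) : ℝ) : ℂ) * Complex.I) 0 := by
      have h3 : HasDerivAt (fun s : ℝ => -(s * a)) (-(1 * a)) 0 := ((hasDerivAt_id' (0 : ℝ)).mul_const a).neg
      exact ((h3.ofReal_comp).const_mul _).mul_const _
    have h4 := h2.cexp.const_sub 1
    have e : (2 * (π : ℂ) * ((-((0 : ℝ) * a) : ℝ) : ℂ) * Complex.I) = 0 := by
      rw [zero_mul, neg_zero, Complex.ofReal_zero, mul_zero, zero_mul]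
    have e2 : -(Complex.exp (2 * (π : ℂ) * ((-((0 : ℝ) * a) : ℝ) : ℂ) * Complex.I) *
        (2 * (π : ℂ) * ((-(1 * a) : ℝ) : ℂ) * Complex.I)) = 2 * π * Complex.I * a := by
      rw [e, Complex.exp_zero]
      push_cast
      ring
    rw [← e2]
    exact h4
  have h5 := hasDerivAt_iff_tendsto_slope.mp h1
  refine h5.congr' ?_
  refine Eventually.of_forall fun s => ?_
  rw [slope_def_module]
  have e0 : eu (-((0 : ℝ) * a)) = 1 := by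
    unfold eu
    simp
  rw [e0]
  simp only [sub_self, sub_zero]
  rw [Complex.real_smul, Complex.ofReal_inv, div_eq_inv_mul]

theorem quo (a b : ℝ) (hb : b ≠ 0) :
    Tendsto (fun s : ℝ => (1 - eu (-(s * a))) / (1 - eu (-(s * b)))) (𝓝[>] 0) (𝓝 ((a : ℂ) / b)) := by
  have hb' : (2 * π * Complex.I * b : ℂ) ≠ 0 := by
    refine mul_ne_zero (mul_ne_zero (mul_ne_zero two_ne_zero ?_) Complex.I_ne_zero) ?_
    · exact_mod_cast Real.pi_ne_zero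
    · exact_mod_cast hb
  have h := (lim a).div (lim b) hb'
  have h2 : (2 * π * Complex.I * a : ℂ) / (2 * π * Complex.I * b) = (a : ℂ) / b := by
    have h3 : (2 * π * Complex.I : ℂ) ≠ 0 := by
      intro h0
      rw [h0, zero_mul] at hb'
      exact hb' rfl
    rw [mul_div_mul_left _ _ h3]
  rw [h2] at h
  have h4 : Tendsto (fun s : ℝ => (1 - eu (-(s * a))) / s / ((1 - eu (-(s * b))) / s)) (𝓝[>] 0)
      (𝓝 ((a : ℂ) / b)) := h.mono_left (nhdsGT_le_nhdsNE 0)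
  refine h4.congr' ?_
  refine eventually_nhdsWithin_of_forall fun s hs => ?_
  have hs' : (s : ℂ) ≠ 0 := by exact_mod_cast (ne_of_gt hs)
  exact div_div_div_cancel_right₀ hs' _ _

theorem eu1 (a : ℝ) : Tendsto (fun s : ℝ => eu (s * a)) (𝓝[>] 0) (𝓝 1) := by
  have h : Continuous fun s : ℝ => eu (s * a) := by
    unfold eu
    fun_prop
  have h1 := h.tendsto 0
  have e0 : eu ((0 : ℝ) * a) = 1 := by
    unfold eu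
    simp
  rw [e0] at h1
  exact h1.mono_left nhdsWithin_le_nhds

end DIML

theorem t_DIML : M_DIML := by
  intro hQ hD r Φ B hI hW
  obtain ⟨-, -, hS, -, hinv, -, hp⟩ := hQ r Φ B hI hW
  have h1 : ∀ p ∈ pos Φ, 0 < p.2 ⬝ᵥ (1 : Fin r → ℤ) := by
    intro p hp1
    obtain ⟨-, h2, h3, -⟩ := hW.ppos p hp1
    rw [dotProduct_one]
    obtain ⟨i, hi⟩ := Function.ne_iff.mp h3
    refine Finset.sum_pos' (fun i _ => h2 i) ⟨i, Finset.mem_univ _, ?_⟩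
    exact lt_of_le_of_ne (h2 i) (Ne.symm hi)
  have h2 : ∀ p ∈ pos Φ, 0 < p.1 ⬝ᵥ ((rd Φ).A *ᵥ (1 : Fin r → ℤ)) := by
    intro p hp1
    obtain ⟨h3, h4⟩ := hp p (hW.ppos p hp1).1
    have h5 := mul_pos (h1 p hp1) h3
    rw [← h4] at h5
    linarith
  refine ⟨fun i => ((((rd Φ).A *ᵥ (1 : Fin r → ℤ)) i : ℤ) : ℝ), ?_, ?_⟩
  · intro p hp1
    have h3 := DIML.dz_A (rd Φ).A p.1 1 1
    simp only [one_mul] at h3
    rw [h3]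
    exact_mod_cast h2 p hp1
  · intro l
    have e : ∀ (m : Fin r → ℤ) (s : ℝ), AT (rd Φ) m (fun i => s * ((((rd Φ).A *ᵥ (1 : Fin r → ℤ)) i : ℤ) : ℝ)) =
        eu (s * (((1 : Fin r → ℤ) ⬝ᵥ ((rd Φ).A *ᵥ m) : ℤ) : ℝ)) *
          ∏ p ∈ pos Φ, (1 - eu (-(s * ((p.1 ⬝ᵥ ((rd Φ).A *ᵥ m) : ℤ) : ℝ)))) := by
      intro m s
      rw [DIML.swap hW hS hinv, hD r Φ B hI hW, DIML.sum_A]
      congr 1
      refine Finset.prod_congr rfl fun p _ => ?_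
      rw [DIML.dz_A]
    have e2 : (fun s : ℝ => AT (rd Φ) l (fun i => s * ((((rd Φ).A *ᵥ (1 : Fin r → ℤ)) i : ℤ) : ℝ)) /
        AT (rd Φ) 1 (fun i => s * ((((rd Φ).A *ᵥ (1 : Fin r → ℤ)) i : ℤ) : ℝ))) = fun s : ℝ =>
        eu (s * (((1 : Fin r → ℤ) ⬝ᵥ ((rd Φ).A *ᵥ l) : ℤ) : ℝ)) /
          eu (s * (((1 : Fin r → ℤ) ⬝ᵥ ((rd Φ).A *ᵥ 1) : ℤ) : ℝ)) *
        ∏ p ∈ pos Φ, ((1 - eu (-(s * ((p.1 ⬝ᵥ ((rd Φ).A *ᵥ l) : ℤ) : ℝ)))) /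
          (1 - eu (-(s * ((p.1 ⬝ᵥ ((rd Φ).A *ᵥ 1) : ℤ) : ℝ))))) := by
      funext s
      rw [e l s, e 1 s, Finset.prod_div_distrib, mul_div_mul_comm]
    rw [e2]
    have e3 : (∏ p ∈ pos Φ, ((p.2 ⬝ᵥ l : ℤ) : ℂ)) / ∏ p ∈ pos Φ, ((p.2 ⬝ᵥ (1 : Fin r → ℤ) : ℤ) : ℂ) =
        1 / 1 * ∏ p ∈ pos Φ, ((((p.1 ⬝ᵥ ((rd Φ).A *ᵥ l) : ℤ) : ℝ) : ℂ) /
          (((p.1 ⬝ᵥ ((rd Φ).A *ᵥ 1) : ℤ) : ℝ) : ℂ)) := by
      rw [← Finset.prod_div_distrib, div_one, one_mul]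
      refine Finset.prod_congr rfl fun p hp1 => ?_
      obtain ⟨h3, h4⟩ := hp p (hW.ppos p hp1).1
      have h5 := h4 l
      have h6 := h4 1
      have h7 := h1 p hp1
      have h8 := h2 p hp1
      have h9 : ((p.2 ⬝ᵥ (1 : Fin r → ℤ) : ℤ) : ℂ) ≠ 0 := by exact_mod_cast h7.ne'
      have h10 : ((p.1 ⬝ᵥ ((rd Φ).A *ᵥ 1) : ℤ) : ℂ) ≠ 0 := by exact_mod_cast h8.ne'
      simp only [Complex.ofReal_intCast]
      rw [div_eq_div_iff h9 h10]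
      have h11 : (p.2 ⬝ᵥ l) * (p.1 ⬝ᵥ ((rd Φ).A *ᵥ 1)) = (p.1 ⬝ᵥ ((rd Φ).A *ᵥ l)) * (p.2 ⬝ᵥ (1 : Fin r → ℤ)) := by
        have h12 : 2 * ((p.2 ⬝ᵥ l) * (p.1 ⬝ᵥ ((rd Φ).A *ᵥ 1))) =
            2 * ((p.1 ⬝ᵥ ((rd Φ).A *ᵥ l)) * (p.2 ⬝ᵥ (1 : Fin r → ℤ))) := by
          calc 2 * ((p.2 ⬝ᵥ l) * (p.1 ⬝ᵥ ((rd Φ).A *ᵥ 1)))
              = (p.2 ⬝ᵥ l) * (2 * (p.1 ⬝ᵥ ((rd Φ).A *ᵥ 1))) := by ring
            _ = (p.2 ⬝ᵥ l) * ((p.2 ⬝ᵥ (1 : Fin r → ℤ)) * (p.1 ⬝ᵥ ((rd Φ).A *ᵥ p.1))) := by rw [h6]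
            _ = ((p.2 ⬝ᵥ l) * (p.1 ⬝ᵥ ((rd Φ).A *ᵥ p.1))) * (p.2 ⬝ᵥ (1 : Fin r → ℤ)) := by ring
            _ = (2 * (p.1 ⬝ᵥ ((rd Φ).A *ᵥ l))) * (p.2 ⬝ᵥ (1 : Fin r → ℤ)) := by rw [h5]
            _ = 2 * ((p.1 ⬝ᵥ ((rd Φ).A *ᵥ l)) * (p.2 ⬝ᵥ (1 : Fin r → ℤ))) := by ring
        linarith
      exact_mod_cast h11
    rw [e3]
    refine ((DIML.eu1 _).div (DIML.eu1 _) one_ne_zero).mul (tendsto_finsetProd _ fun p hp1 => ?_)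
    refine DIML.quo _ _ ?_
    have h8 := h2 p hp1
    exact_mod_cast h8.ne'

end

end LGR
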