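import Pool.Agent.LGR.StV
import Pool.Agent.STZ.Base
import Pool.Agent.STZ.EXP

/-!
# Symmetric spaces: module DIMQ, an abelian subspace of maximal dimension is maximal abelian
-/

namespace LGR

open STZ MeasureTheory Matrix Filter

open scoped ComplexConjugate Matrix Real Topology

noncomputable section

namespace DIMQ

/-- entrywise derivative at `0` -/
def HD {N : ℕ} (F : ℝ → Matrix (Fin N) (Fin N) ℂ) (F' : Matrix (Fin N) (Fin N) ℂ) : Prop :=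
  ∀ i j, HasDerivAt (fun t => F t i j) (F' i j) 0

theorem HD.mul {N : ℕ} {F G : ℝ → Matrix (Fin N) (Fin N) ℂ} {F' G' : Matrix (Fin N) (Fin N) ℂ}
    (hF : HD F F') (hG : HD G G') : HD (fun t => F t * G t) (F' * G 0 + F 0 * G') := by
  intro i j
  have h : HasDerivAt (fun t => ∑ k, F t i k * G t k j)
      (∑ k, (F' i k * G 0 k j + F 0 i k * G' k j)) 0 :=
    HasDerivAt.fun_sum fun k _ => (hF i k).mul (hG k j)
  simpa only [Matrix.mul_apply, Matrix.add_apply, Finset.sum_add_distrib] using h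

theorem HD.const {N : ℕ} (A : Matrix (Fin N) (Fin N) ℂ) : HD (fun _ => A) 0 := by
  intro i j
  exact hasDerivAt_const _ _

theorem HD.conj {N : ℕ} {F : ℝ → Matrix (Fin N) (Fin N) ℂ} {F' : Matrix (Fin N) (Fin N) ℂ}
    (hF : HD F F') : HD (fun t => (F t)ᴴ) F'ᴴ := by
  intro i j
  exact (hF j i).star

theorem HD.trace {N : ℕ} {F : ℝ → Matrix (Fin N) (Fin N) ℂ} {F' : Matrix (Fin N) (Fin N) ℂ}
    (hF : HD F F') : HasDerivAt (fun t => (F t).trace) F'.trace 0 := by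
  have h : HasDerivAt (fun t => ∑ k, F t k k) (∑ k, F' k k) 0 :=
    HasDerivAt.fun_sum fun k _ => hF k k
  exact h

/-- the real part of the trace of `C Cᴴ` vanishes only for `C = 0` -/
theorem zero_of {N : ℕ} (C : Matrix (Fin N) (Fin N) ℂ) (h : (C * Cᴴ).trace.re = 0) : C = 0 := by
  have h1 : (C * Cᴴ).trace.re = ∑ i, ∑ j, ‖C i j‖ ^ 2 := by
    simp only [Matrix.trace, Matrix.diag, Matrix.mul_apply, Matrix.conjTranspose_apply,
      Complex.re_sum]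
    refine Finset.sum_congr rfl fun i _ => Finset.sum_congr rfl fun j _ => ?_
    rw [Complex.star_def, Complex.mul_conj, Complex.ofReal_re, Complex.normSq_eq_norm_sq]
  rw [h1] at h
  ext i j
  have h2 := (Finset.sum_eq_zero_iff_of_nonneg (fun i _ =>
    Finset.sum_nonneg fun j _ => by positivity)).1 h i (Finset.mem_univ _)
  have h3 := (Finset.sum_eq_zero_iff_of_nonneg (fun j _ => by positivity)).1 h2 j
    (Finset.mem_univ _)
  simpa using h3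

/-- the stationary point: for some `k ∈ K` the bracket of `k X kᴴ` and `Y` is orthogonal to `lie K` -/
theorem stat {N : ℕ} (K : Subgroup (SU N)) (hK : IsClosed (K : Set (SU N))) (L : LIF K)
    (X Y : Matrix (Fin N) (Fin N) ℂ) : ∃ h ∈ K, ∀ U ∈ lie K,
      (U * ((h.1 * X * h.1ᴴ) * Y - Y * (h.1 * X * h.1ᴴ))).trace.re = 0 := by
  have hc : IsCompact (K : Set (SU N)) := hK.isCompact
  have hne : (K : Set (SU N)).Nonempty := ⟨1, K.one_mem⟩
  have hcont : Continuous fun h : SU N => (h.1 * X * h.1ᴴ * Y).trace.re := by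
    have hv : Continuous fun h : SU N => (h.1 : Matrix (Fin N) (Fin N) ℂ) := continuous_subtype_val
    exact Complex.continuous_re.comp
      ((((hv.matrix_mul continuous_const).matrix_mul hv.matrix_conjTranspose).matrix_mul
        continuous_const).matrix_trace)
  obtain ⟨h, hh, hmin⟩ := hc.exists_isMinOn hne hcont.continuousOn
  refine ⟨h, hh, ?_⟩
  set Z := h.1 * X * h.1ᴴ with hZ
  intro U hU
  have hE := t_EXP N U (L.su U hU)
  have hd0 : HD (fun t => (ex U t).1) U := hE.der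
  have hd : HD (fun t => (ex U t).1 * Z * (ex U t).1ᴴ * Y)
      (((U * Z + (ex U 0).1 * 0) * (ex U 0).1ᴴ + (ex U 0).1 * Z * Uᴴ) * Y
        + (ex U 0).1 * Z * (ex U 0).1ᴴ * 0) :=
    ((hd0.mul (HD.const Z)).mul hd0.conj).mul (HD.const Y)
  have ht := hd.trace
  have hre : HasDerivAt (fun t => ((ex U t).1 * Z * (ex U t).1ᴴ * Y).trace.re)
      ((((U * Z + (ex U 0).1 * 0) * (ex U 0).1ᴴ + (ex U 0).1 * Z * Uᴴ) * Y
        + (ex U 0).1 * Z * (ex U 0).1ᴴ * 0).trace.re) 0 := by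
    have := Complex.reCLM.hasFDerivAt.comp_hasDerivAt (0 : ℝ) ht
    exact this
  have hmin' : IsLocalMin (fun t => ((ex U t).1 * Z * (ex U t).1ᴴ * Y).trace.re) 0 := by
    refine Filter.Eventually.of_forall fun t => ?_
    have h1 : (ex U t * h) ∈ (K : Set (SU N)) := K.mul_mem (hU.2 t) hh
    have h2 := hmin h1
    simp only [Set.mem_ofPred_eq] at h2
    have h3 : ((ex U t * h : SU N) : Matrix (Fin N) (Fin N) ℂ) * X
        * ((ex U t * h : SU N) : Matrix (Fin N) (Fin N) ℂ)ᴴ * Y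
        = (ex U t).1 * Z * (ex U t).1ᴴ * Y := by
      rw [hZ]
      have h4 : ((ex U t * h : SU N) : Matrix (Fin N) (Fin N) ℂ) = (ex U t).1 * h.1 := rfl
      rw [h4, Matrix.conjTranspose_mul]
      simp only [Matrix.mul_assoc]
    rw [h3] at h2
    have h5 : (ex U 0).1 * Z * (ex U 0).1ᴴ = Z := by
      rw [hE.zero]
      simp
    have h6 : (h.1 * X * h.1ᴴ * Y).trace.re ≤ ((ex U t).1 * Z * (ex U t).1ᴴ * Y).trace.re := h2
    have h7 : ((ex U 0).1 * Z * (ex U 0).1ᴴ * Y).trace.re = (h.1 * X * h.1ᴴ * Y).trace.re := by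
      rw [h5]
    exact h7.le.trans h6
  have h0 := hmin'.hasDerivAt_eq_zero hre
  rw [hE.zero] at h0
  have hUs : Uᴴ = -U := (L.su U hU).1
  have h6 : (U * (Z * Y - Y * Z)).trace = (((U * Z + (1 : SU N).1 * 0) * (1 : SU N).1ᴴ
      + (1 : SU N).1 * Z * Uᴴ) * Y + (1 : SU N).1 * Z * (1 : SU N).1ᴴ * 0).trace := by
    have h7 : ((1 : SU N).1 : Matrix (Fin N) (Fin N) ℂ) = 1 := rfl
    rw [h7, hUs]
    simp only [Matrix.conjTranspose_one, Matrix.mul_one, Matrix.one_mul, Matrix.mul_zero,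
      add_zero, Matrix.mul_neg, Matrix.add_mul, Matrix.neg_mul, Matrix.trace_add,
      Matrix.trace_neg, Matrix.mul_sub, Matrix.trace_sub]
    rw [Matrix.mul_assoc U Z Y, ← sub_eq_add_neg]
    rw [← Matrix.mul_assoc U Y Z, Matrix.trace_mul_cycle U Y Z]
  rw [h6]
  exact h0

/-- a maximal abelian subspace which contains a given abelian subspace and one more element -/
theorem exists_max {N : ℕ} (H : Subgroup (SU N)) (L : LIF H)
    (τ : Matrix (Fin N) (Fin N) ℂ →ₗ[ℝ] Matrix (Fin N) (Fin N) ℂ)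
    (B : Submodule ℝ (Matrix (Fin N) (Fin N) ℂ)) (hB : ∀ X ∈ B, X ∈ lie H ∧ τ X = -X)
    (hBc : ∀ X ∈ B, ∀ Y ∈ B, X * Y = Y * X) : ∃ C, B ≤ C ∧ MaxAbP H τ C := by
  have hadd : ∀ (C : Submodule ℝ (Matrix (Fin N) (Fin N) ℂ)), (∀ X ∈ C, X ∈ lie H ∧ τ X = -X) →
      (∀ X ∈ C, ∀ Y ∈ C, X * Y = Y * X) → ∀ Z ∈ lie H, τ Z = -Z → (∀ Y ∈ C, Z * Y = Y * Z) →
      (∀ X ∈ C ⊔ Submodule.span ℝ {Z}, X ∈ lie H ∧ τ X = -X) ∧
      ∀ X ∈ C ⊔ Submodule.span ℝ {Z}, ∀ Y ∈ C ⊔ Submodule.span ℝ {Z}, X * Y = Y * X := by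
    intro C h1 h2 Z hZ hτ hc
    constructor
    · intro X hX
      obtain ⟨x, hx, w, hw, rfl⟩ := Submodule.mem_sup.1 hX
      obtain ⟨a, rfl⟩ := Submodule.mem_span_singleton.1 hw
      refine ⟨L.add _ (h1 x hx).1 _ ?_, ?_⟩
      · have := L.smul a Z hZ
        exact this
      · rw [map_add, map_smul, (h1 x hx).2, hτ, smul_neg, neg_add]
    · intro X hX Y hY
      obtain ⟨x, hx, w, hw, rfl⟩ := Submodule.mem_sup.1 hX
      obtain ⟨a, rfl⟩ := Submodule.mem_span_singleton.1 hw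
      obtain ⟨y, hy, w', hw', rfl⟩ := Submodule.mem_sup.1 hY
      obtain ⟨b, rfl⟩ := Submodule.mem_span_singleton.1 hw'
      rw [add_mul, mul_add, mul_add, add_mul, mul_add, mul_add]
      rw [h2 x hx y hy, smul_mul_assoc, smul_mul_assoc, mul_smul_comm, mul_smul_comm, smul_mul_assoc,
        smul_mul_assoc, mul_smul_comm, mul_smul_comm, hc y hy, hc x hx, smul_comm a b]
      abel
  -- a subspace with the largest dimension
  let P : ℕ → Prop := fun m => ∃ C : Submodule ℝ (Matrix (Fin N) (Fin N) ℂ), B ≤ C ∧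
    (∀ X ∈ C, X ∈ lie H ∧ τ X = -X) ∧ (∀ X ∈ C, ∀ Y ∈ C, X * Y = Y * X) ∧ Module.finrank ℝ C = m
  have hP0 : P (Module.finrank ℝ B) := ⟨B, le_refl _, hB, hBc, rfl⟩
  have hbd : ∀ m, P m → m ≤ Module.finrank ℝ (Matrix (Fin N) (Fin N) ℂ) := by
    rintro m ⟨C, _, _, _, rfl⟩
    exact Submodule.finrank_le C
  classical
  obtain ⟨C, hC1, hC2, hC3, hC4⟩ : P (Nat.findGreatest P (Module.finrank ℝ (Matrix (Fin N) (Fin N) ℂ))) :=
    Nat.findGreatest_spec (hbd _ hP0) hP0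
  refine ⟨C, hC1, ⟨fun X hX => (hC2 X hX).1, fun X hX => (hC2 X hX).2, hC3, ?_⟩⟩
  intro Z hZ hτ hc
  obtain ⟨h1, h2⟩ := hadd C hC2 hC3 Z hZ hτ hc
  have h3 : P (Module.finrank ℝ (C ⊔ Submodule.span ℝ {Z} : Submodule ℝ (Matrix (Fin N) (Fin N) ℂ))) :=
    ⟨_, hC1.trans le_sup_left, h1, h2, rfl⟩
  have h4 : Module.finrank ℝ (C ⊔ Submodule.span ℝ {Z} : Submodule ℝ (Matrix (Fin N) (Fin N) ℂ)) ≤
      Module.finrank ℝ C := by
    rw [hC4]
    exact Nat.le_findGreatest (hbd _ h3) h3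
  have h5 : C = C ⊔ Submodule.span ℝ {Z} := Submodule.eq_of_le_of_finrank_le le_sup_left h4
  rw [h5]
  exact Submodule.mem_sup_right (Submodule.mem_span_singleton_self Z)

/-- conjugation as a linear map -/
def cj {N : ℕ} (k : SU N) : Matrix (Fin N) (Fin N) ℂ →ₗ[ℝ] Matrix (Fin N) (Fin N) ℂ where
  toFun X := k.1 * X * k.1ᴴ
  map_add' X Y := by rw [Matrix.mul_add, Matrix.add_mul]
  map_smul' a X := by rw [RingHom.id_apply, Matrix.mul_smul, Matrix.smul_mul]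

theorem cj_apply {N : ℕ} (k : SU N) (X : Matrix (Fin N) (Fin N) ℂ) : cj k X = k.1 * X * k.1ᴴ := rfl

theorem ul {N : ℕ} (k : SU N) : k.1ᴴ * k.1 = 1 := k.2.1.1

theorem ur {N : ℕ} (k : SU N) : k.1 * k.1ᴴ = 1 := k.2.1.2

theorem cj_inj {N : ℕ} (k : SU N) : Function.Injective (cj k) := by
  intro X Y h
  rw [cj_apply, cj_apply] at h
  have h1 : k.1ᴴ * (k.1 * X * k.1ᴴ) * k.1 = k.1ᴴ * (k.1 * Y * k.1ᴴ) * k.1 := by rw [h]
  have h2 : ∀ Z : Matrix (Fin N) (Fin N) ℂ, k.1ᴴ * (k.1 * Z * k.1ᴴ) * k.1 = Z := by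
    intro Z
    rw [Matrix.mul_assoc k.1 Z, ← Matrix.mul_assoc k.1ᴴ k.1, ul, Matrix.one_mul, Matrix.mul_assoc, ul, Matrix.mul_one]
  rw [h2, h2] at h1
  exact h1

/-- the image under an element of `K` -/
theorem pres {N : ℕ} {H K : Subgroup (SU N)} {σ : H →* H}
    {τ : Matrix (Fin N) (Fin N) ℂ →ₗ[ℝ] Matrix (Fin N) (Fin N) ℂ} (L : LIF H) (S : SymP H K σ τ) (T : TSF H σ τ)
    (k : SU N) (hk : k ∈ K) (W : Matrix (Fin N) (Fin N) ℂ) (hW : W ∈ lie H) (hτ : τ W = -W) :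
    k.1 * W * k.1ᴴ ∈ lie H ∧ τ (k.1 * W * k.1ᴴ) = -(k.1 * W * k.1ᴴ) := by
  refine ⟨L.ad k (S.sub hk) W hW, ?_⟩
  have h1 := T.Ad ⟨k, S.sub hk⟩ W hW
  rw [S.fix ⟨k, S.sub hk⟩ hk, hτ] at h1
  rw [h1, Matrix.mul_neg, Matrix.neg_mul]

end DIMQ

open DIMQ in
theorem t_DIMQ : M_DIMQ := by
  intro hLI hTA hRE N H K σ τ A hH hS hP hA A' hA'1 hA'2 hA'3 X hX hτ hc
  have L := hLI N H hH
  have LK := hLI N K hP.closed
  have T := hTA N H K σ τ hH hS hP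
  -- the maximal abelian subspace
  obtain ⟨A2, hA2, hM2⟩ : ∃ A2, A' ⊔ Submodule.span ℝ {X} ≤ A2 ∧ MaxAbP H τ A2 := by
    refine exists_max H L τ _ ?_ ?_
    · intro Y hY
      obtain ⟨x, hx, w, hw, rfl⟩ := Submodule.mem_sup.1 hY
      obtain ⟨a, rfl⟩ := Submodule.mem_span_singleton.1 hw
      refine ⟨L.add _ (hA'1 x hx).1 _ ?_, ?_⟩
      · have := L.smul a X hX
        exact this
      · rw [map_add, map_smul, (hA'1 x hx).2, hτ, smul_neg, neg_add]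
    · intro Y hY Y' hY'
      obtain ⟨x, hx, w, hw, rfl⟩ := Submodule.mem_sup.1 hY
      obtain ⟨a, rfl⟩ := Submodule.mem_span_singleton.1 hw
      obtain ⟨y, hy, w', hw', rfl⟩ := Submodule.mem_sup.1 hY'
      obtain ⟨b, rfl⟩ := Submodule.mem_span_singleton.1 hw'
      rw [add_mul, mul_add, mul_add, add_mul, mul_add, mul_add]
      rw [hA'2 x hx y hy, smul_mul_assoc, smul_mul_assoc, mul_smul_comm, mul_smul_comm, smul_mul_assoc,
        smul_mul_assoc, mul_smul_comm, mul_smul_comm, hc y hy, hc x hx, smul_comm a b]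
      abel
  obtain ⟨H1, hH1, hH1'⟩ := hRE N H K σ τ A hH hP hA
  obtain ⟨H2, hH2, hH2'⟩ := hRE N H K σ τ A2 hH hP hM2
  obtain ⟨k, hk, hkey⟩ := stat K hP.closed LK H2 H1
  obtain ⟨hZ1, hZ2⟩ := pres L hP T k hk H2 (hM2.sub _ hH2) (hM2.anti _ hH2)
  set Z := k.1 * H2 * k.1ᴴ with hZ
  have hCl : Z * H1 - H1 * Z ∈ lie H := L.br Z hZ1 H1 (hA.sub _ hH1)
  have hCτ : τ (Z * H1 - H1 * Z) = Z * H1 - H1 * Z := by
    rw [T.br Z hZ1 H1 (hA.sub _ hH1), hZ2, hA.anti _ hH1, neg_mul_neg, neg_mul_neg]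
  have hCK : Z * H1 - H1 * Z ∈ lie K := hP.big _ hCl hCτ
  have h0 := hkey _ hCK
  have hs : (Z * H1 - H1 * Z)ᴴ = -(Z * H1 - H1 * Z) := (L.su _ hCl).1
  have hC0 : Z * H1 - H1 * Z = 0 := by
    refine zero_of _ ?_
    rw [hs, Matrix.mul_neg, Matrix.trace_neg, Complex.neg_re, h0, neg_zero]
  have hcomm : Z * H1 = H1 * Z := sub_eq_zero.1 hC0
  -- `kᴴ H1 k` is in `A2`
  have hki : (k⁻¹ : SU N) ∈ K := K.inv_mem hk
  have hkv : ((k⁻¹ : SU N)).1 = k.1ᴴ := STZ.coe_inv k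
  obtain ⟨hW1, hW2⟩ := pres L hP T k⁻¹ hki H1 (hA.sub _ hH1) (hA.anti _ hH1)
  rw [hkv, Matrix.conjTranspose_conjTranspose] at hW1 hW2
  have hW3 : (k.1ᴴ * H1 * k.1) * H2 = H2 * (k.1ᴴ * H1 * k.1) := by
    have h1 : k.1ᴴ * (Z * H1) * k.1 = k.1ᴴ * (H1 * Z) * k.1 := by rw [hcomm]
    have h2 : k.1ᴴ * (Z * H1) * k.1 = H2 * (k.1ᴴ * H1 * k.1) := by
      rw [hZ]
      calc k.1ᴴ * (k.1 * H2 * k.1ᴴ * H1) * k.1 = (k.1ᴴ * k.1) * (H2 * (k.1ᴴ * H1 * k.1)) := by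
            simp only [Matrix.mul_assoc]
        _ = H2 * (k.1ᴴ * H1 * k.1) := by rw [ul, Matrix.one_mul]
    have h3 : k.1ᴴ * (H1 * Z) * k.1 = (k.1ᴴ * H1 * k.1) * H2 := by
      rw [hZ]
      calc k.1ᴴ * (H1 * (k.1 * H2 * k.1ᴴ)) * k.1 = ((k.1ᴴ * H1 * k.1) * H2) * (k.1ᴴ * k.1) := by
            simp only [Matrix.mul_assoc]
        _ = (k.1ᴴ * H1 * k.1) * H2 := by rw [ul, Matrix.mul_one]
    rw [← h3, ← h1, h2]
  have hW4 : k.1ᴴ * H1 * k.1 ∈ A2 := hH2' _ hW1 hW2 hW3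
  -- `k A2 kᴴ` is in `A`
  have hmap : A2.map (cj k) ≤ A := by
    rintro _ ⟨W, hW, rfl⟩
    rw [cj_apply]
    obtain ⟨h1, h2⟩ := pres L hP T k hk W (hM2.sub _ hW) (hM2.anti _ hW)
    refine hH1' _ h1 h2 ?_
    have h3 := hM2.comm W hW _ hW4
    have h4 : k.1 * (W * (k.1ᴴ * H1 * k.1)) * k.1ᴴ = k.1 * ((k.1ᴴ * H1 * k.1) * W) * k.1ᴴ := by rw [h3]
    calc k.1 * W * k.1ᴴ * H1 = k.1 * W * k.1ᴴ * H1 * (k.1 * k.1ᴴ) := by rw [ur, Matrix.mul_one]
      _ = k.1 * (W * (k.1ᴴ * H1 * k.1)) * k.1ᴴ := by simp only [Matrix.mul_assoc]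
      _ = k.1 * ((k.1ᴴ * H1 * k.1) * W) * k.1ᴴ := h4
      _ = (k.1 * k.1ᴴ) * (H1 * (k.1 * W * k.1ᴴ)) := by simp only [Matrix.mul_assoc]
      _ = H1 * (k.1 * W * k.1ᴴ) := by rw [ur, Matrix.one_mul]
  have hfin : Module.finrank ℝ A2 ≤ Module.finrank ℝ A' := by
    rw [hA'3]
    refine LinearMap.finrank_le_finrank_of_injective
      (f := (cj k).restrict (p := A2) (q := A) fun x hx => hmap ⟨x, hx, rfl⟩) ?_
    intro x y hxy
    exact Subtype.ext (cj_inj k (congrArg Subtype.val hxy))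
  have hle : A' ≤ A2 := le_sup_left.trans hA2
  have heq : A' = A2 := Submodule.eq_of_le_of_finrank_le hle hfin
  rw [heq]
  exact hA2 (Submodule.mem_sup_right (Submodule.mem_span_singleton_self X))

end

end LGR
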