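import Pool.Agent.LGR.StW

/-!
# DOMW: a regular dominant weight is the largest of its orbit
-/

namespace LGR

open STZ MeasureTheory Matrix Filter

open scoped ComplexConjugate Matrix Real Topology

noncomputable section

namespace DOMW

variable {r : ℕ} {Φ : RT r} {B : Matrix (Fin r) (Fin r) ℤ}

lemma simple_mem (hI : IRD Φ B) (hW : WFF Φ B) (i : Fin r) : rf (B i, Pi.single i 1) ∈ WF Φ :=
  (hW.mem _).2 (Submonoid.subset_closure ⟨_, hI.base i, rfl⟩)

lemma simple_mv (hW : WFF Φ B) (i : Fin r) (l : Fin r → ℤ) :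
    rf (B i, Pi.single i 1) *ᵥ l = l - l i • B i := by
  rw [hW.mv]
  simp

lemma sum_pair (i : Fin r) (l : Fin r → ℤ) (h : ∑ p ∈ pos Φ, p.2 ⬝ᵥ B i = 2) :
    ∑ p ∈ pos Φ, p.2 ⬝ᵥ (l - l i • B i) = ∑ p ∈ pos Φ, p.2 ⬝ᵥ l - 2 * l i := by
  simp only [dotProduct_sub, dotProduct_smul, smul_eq_mul, Finset.sum_sub_distrib, ← Finset.mul_sum, h]
  ring

lemma main (hI : IRD Φ B) (hW : WFF Φ B) (hR : ∀ i, ∑ p ∈ pos Φ, p.2 ⬝ᵥ B i = 2)
    (hC : ∀ l, Reg l → ∀ w ∈ WF Φ, Reg (w *ᵥ l) → w = 1) (l : Fin r → ℤ) (hl : Reg l)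
    (w : Matrix (Fin r) (Fin r) ℤ) (hw : w ∈ WF Φ) :
    ∃ n : Fin r → ℤ, (∀ i, 0 ≤ n i) ∧ l - w *ᵥ l = ∑ i, n i • B i := by
  classical
  set S : Finset (Matrix (Fin r) (Fin r) ℤ) := (WF Φ).filter fun u =>
    ∃ n : Fin r → ℤ, (∀ i, 0 ≤ n i) ∧ u *ᵥ l - w *ᵥ l = ∑ i, n i • B i with hS
  have hne : S.Nonempty := ⟨w, by
    rw [hS, Finset.mem_filter]
    exact ⟨hw, 0, fun i => le_refl _, by simp⟩⟩
  obtain ⟨u, huS, hmax⟩ := S.exists_max_image (fun u => ∑ p ∈ pos Φ, p.2 ⬝ᵥ (u *ᵥ l)) hne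
  rw [hS, Finset.mem_filter] at huS
  obtain ⟨hu, n, hn, hnu⟩ := huS
  have h0 : ∀ i, 0 ≤ (u *ᵥ l) i := by
    intro i
    by_contra hlt
    push Not at hlt
    have h1 : rf (B i, Pi.single i 1) * u ∈ WF Φ := hW.mul _ (simple_mem hI hW i) _ hu
    have h2 : (rf (B i, Pi.single i 1) * u) *ᵥ l = u *ᵥ l - (u *ᵥ l) i • B i := by
      rw [← Matrix.mulVec_mulVec, simple_mv hW]
    have h3 : rf (B i, Pi.single i 1) * u ∈ S := by
      rw [hS, Finset.mem_filter]
      refine ⟨h1, fun j => n j + if j = i then -((u *ᵥ l) i) else 0, ?_, ?_⟩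
      · intro j
        have := hn j
        by_cases hj : j = i
        · simp only [hj, if_true]
          have := hn i
          linarith
        · simp only [hj, if_false]
          linarith
      · rw [h2]
        have h4 : ∑ j, (n j + if j = i then -((u *ᵥ l) i) else 0) • B j =
            ∑ j, n j • B j + (-((u *ᵥ l) i)) • B i := by
          simp only [add_smul, Finset.sum_add_distrib, ite_smul, zero_smul]
          simp
        rw [h4, ← hnu]
        rw [neg_smul]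
        abel
    have h5 := hmax _ h3
    simp only [h2] at h5
    rw [sum_pair i (u *ᵥ l) (hR i)] at h5
    linarith
  have h1 : Reg (u *ᵥ l) := by
    intro i
    rcases (h0 i).lt_or_eq with h | h
    · exact h
    · exfalso
      have h2 : rf (B i, Pi.single i 1) *ᵥ (u *ᵥ l) = u *ᵥ l := by
        rw [simple_mv hW, ← h]
        simp
      obtain ⟨v, hv, hvu, huv⟩ := hW.inv u hu
      have h3 : v * (rf (B i, Pi.single i 1) * u) ∈ WF Φ :=
        hW.mul _ hv _ (hW.mul _ (simple_mem hI hW i) _ hu)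
      have h4 : (v * (rf (B i, Pi.single i 1) * u)) *ᵥ l = l := by
        rw [← Matrix.mulVec_mulVec, ← Matrix.mulVec_mulVec, h2, Matrix.mulVec_mulVec, hvu, Matrix.one_mulVec]
      have h5 := hC l hl _ h3 (by rw [h4]; exact hl)
      have h6 : (v * (rf (B i, Pi.single i 1) * u)).det = 1 := by rw [h5, Matrix.det_one]
      have h7 : v.det * u.det = 1 := by rw [← Matrix.det_mul, hvu, Matrix.det_one]
      rw [Matrix.det_mul, Matrix.det_mul, hW.dt _ (hI.base i)] at h6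
      have h8 : v.det * (-1 * u.det) = -(v.det * u.det) := by ring
      rw [h8, h7] at h6
      norm_num at h6
  have h2 := hC l hl u hu h1
  rw [h2, Matrix.one_mulVec] at hnu
  exact ⟨n, hn, hnu⟩

end DOMW

theorem t_DOMW : M_DOMW := by
  intro hR hC r Φ B hI hW l hl w hw
  exact DOMW.main hI hW (hR r Φ B hI hW).2.1 (hC r Φ B hI hW).2 l hl w hw

end

end LGR
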