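import Pool.Agent.LGR.StR

/-!
# The differential of a representation
-/

namespace LGR

open STZ MeasureTheory Matrix Filter

open scoped ComplexConjugate Matrix Real Topology

noncomputable section

namespace DREP

variable {N : ℕ} {H : Subgroup (SU N)} {n : ℕ}

lemma PF_sum {ι : Type} (s : Finset ι) (f : ι → H → ℂ) (hf : ∀ l ∈ s, f l ∈ PF H) :
    (fun g => ∑ l ∈ s, f l g) ∈ PF H := by
  have h1 : (fun g => ∑ l ∈ s, f l g) = ∑ l ∈ s, f l := by
    funext g
    rw [Finset.sum_apply]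
  rw [h1]
  exact Subalgebra.sum_mem _ hf

lemma PF_const (c : ℂ) : (fun _ : H => c) ∈ PF H := (PF H).algebraMap_mem c

lemma PF_mul {f h : H → ℂ} (hf : f ∈ PF H) (hh : h ∈ PF H) : (fun g => f g * h g) ∈ PF H :=
  (PF H).mul_mem hf hh

lemma dH_sum (hC : CALFH H) (hP : PFF H) {X : Matrix (Fin N) (Fin N) ℂ} (hX : X ∈ lie H)
    {ι : Type} (s : Finset ι) (f : ι → H → ℂ) (hf : ∀ l ∈ s, f l ∈ PF H) (g : H) :
    dH X (fun g => ∑ l ∈ s, f l g) g = ∑ l ∈ s, dH X (f l) g := by
  classical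
  induction s using Finset.induction_on with
  | empty =>
    simp only [Finset.sum_empty]
    exact hC.dconst X 0 g
  | insert a s ha ih =>
    simp only [Finset.sum_insert ha]
    rw [hC.dadd X hX _ _ (hP.c2 _ (hf a (Finset.mem_insert_self _ _))).1
      (hP.c2 _ (PF_sum s f fun l hl => hf l (Finset.mem_insert_of_mem hl))).1,
      ih fun l hl => hf l (Finset.mem_insert_of_mem hl)]

lemma dH_cmul (hC : CALFH H) (hP : PFF H) {X : Matrix (Fin N) (Fin N) ℂ} (hX : X ∈ lie H)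
    (c : ℂ) {f : H → ℂ} (hf : f ∈ PF H) (g : H) :
    dH X (fun g => c * f g) g = c * dH X f g := by
  rw [hC.dmul X hX _ _ (hP.c2 _ (PF_const c)).1 (hP.c2 _ hf).1, hC.dconst, zero_mul, zero_add]

lemma dH_mulc (hC : CALFH H) (hP : PFF H) {X : Matrix (Fin N) (Fin N) ℂ} (hX : X ∈ lie H)
    (c : ℂ) {f : H → ℂ} (hf : f ∈ PF H) (g : H) :
    dH X (fun g => f g * c) g = dH X f g * c := by
  rw [hC.dmul X hX _ _ (hP.c2 _ hf).1 (hP.c2 _ (PF_const c)).1, hC.dconst, mul_zero, add_zero]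

lemma unit_mul (σ : Rep H (Fin n)) (g : H) : σ.ρ g * (σ.ρ g)ᴴ = 1 := by
  rw [← σ.unit, ← map_mul, mul_inv_cancel, map_one]

set_option backward.isDefEq.respectTransparency false in
open scoped Matrix.Norms.Operator in
lemma der_exp (D : Matrix (Fin n) (Fin n) ℂ) (t : ℝ) (i j : Fin n) :
    HasDerivAt (fun s : ℝ => NormedSpace.exp ((s : ℂ) • D) i j)
      ((NormedSpace.exp ((t : ℂ) • D) * D) i j) t := by
  have h1 : HasDerivAt (fun u : ℂ => NormedSpace.exp (u • D))
      (NormedSpace.exp ((t : ℂ) • D) * D) (t : ℂ) := hasDerivAt_exp_smul_const D (t : ℂ)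
  have h2 := HasDerivAt.scomp t h1 (Complex.ofRealCLM.hasDerivAt (x := t))
  have h4 : Complex.ofRealCLM 1 = (1 : ℂ) := Complex.ofReal_one
  rw [h4, one_smul] at h2
  let L : Matrix (Fin n) (Fin n) ℂ →L[ℝ] ℂ :=
    ((Matrix.entryLinearMap ℂ ℂ i j).restrictScalars ℝ).toContinuousLinearMap
  exact L.hasFDerivAt.comp_hasDerivAt t h2

/-- the matrix of the derivatives -/
lemma d_eq (hC : CALFH H) (hP : PFF H) {σ : Rep H (Fin n)} (hσ : PRep σ)
    {X : Matrix (Fin N) (Fin N) ℂ} (hX : X ∈ lie H) (g : H) (i j : Fin n) :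
    dH X (fun g => σ.ρ g i j) g = (σ.ρ g * dr σ X) i j := by
  have h1 := hC.dleft X hX g _ (hP.c2 _ (hσ i j)).1 1
  rw [mul_one] at h1
  rw [← h1]
  have h2 : (fun g' => σ.ρ (g * g') i j) = fun g' => ∑ l, σ.ρ g i l * σ.ρ g' l j := by
    funext g'
    rw [map_mul, Matrix.mul_apply]
  rw [h2, dH_sum hC hP hX _ _ fun l _ => PF_mul (PF_const (σ.ρ g i l)) (hσ l j), Matrix.mul_apply]
  refine Finset.sum_congr rfl fun l _ => ?_
  rw [dH_cmul hC hP hX _ (hσ l j)]
  rfl

/-- right multiplication by a constant matrix -/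
lemma d_mulc (hC : CALFH H) (hP : PFF H) {σ : Rep H (Fin n)} (hσ : PRep σ)
    {X : Matrix (Fin N) (Fin N) ℂ} (hX : X ∈ lie H) (M : Matrix (Fin n) (Fin n) ℂ) (i j : Fin n) :
    dH X (fun g => (σ.ρ g * M) i j) 1 = (dr σ X * M) i j := by
  have h2 : (fun g => (σ.ρ g * M) i j) = fun g => ∑ l, σ.ρ g i l * M l j := by
    funext g'
    rw [Matrix.mul_apply]
  rw [h2, dH_sum hC hP hX _ _ fun l _ => PF_mul (hσ i l) (PF_const (M l j)), Matrix.mul_apply]
  refine Finset.sum_congr rfl fun l _ => ?_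
  rw [dH_mulc hC hP hX _ (hσ i l)]
  rfl

/-- the derivative along a one-parameter group -/
lemma der_rho (hC : CALFH H) (hP : PFF H) {σ : Rep H (Fin n)} (hσ : PRep σ)
    {X : Matrix (Fin N) (Fin N) ℂ} (hX : X ∈ lie H) (t : ℝ) (i j : Fin n) :
    HasDerivAt (fun s : ℝ => σ.ρ (exH H X s) i j) ((σ.ρ (exH H X t) * dr σ X) i j) t := by
  have h1 := ((hP.c2 _ (hσ i j)).1.diff X hX (exH H X t)).hasDerivAt
  have h2 : deriv (fun s : ℝ => σ.ρ (exH H X t * exH H X s) i j) 0 =
      (σ.ρ (exH H X t) * dr σ X) i j := d_eq hC hP hσ hX (exH H X t) i j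
  rw [h2] at h1
  have h3 : (fun s : ℝ => σ.ρ (exH H X t * exH H X s) i j) =
      fun s : ℝ => σ.ρ (exH H X (t + s)) i j := by
    funext s
    rw [hC.exadd X hX]
  rw [h3] at h1
  have h5 : HasDerivAt (fun s : ℝ => σ.ρ (exH H X (t + s)) i j)
      ((σ.ρ (exH H X t) * dr σ X) i j) (t - t) := by
    rw [sub_self]
    exact h1
  have h6 := HasDerivAt.comp_sub_const t t h5
  have h7 : (fun s : ℝ => σ.ρ (exH H X (t + (s - t))) i j) =
      fun s : ℝ => σ.ρ (exH H X s) i j := by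
    funext s
    rw [add_sub_cancel]
  rw [h7] at h6
  exact h6

lemma ex_eq (hC : CALFH H) (hP : PFF H) {σ : Rep H (Fin n)} (hσ : PRep σ)
    {X : Matrix (Fin N) (Fin N) ℂ} (hX : X ∈ lie H) (t : ℝ) :
    σ.ρ (exH H X t) = NormedSpace.exp ((t : ℂ) • dr σ X) := by
  set D := dr σ X with hD
  let F : ℝ → Matrix (Fin n) (Fin n) ℂ := fun s => σ.ρ (exH H X s)
  let E : ℝ → Matrix (Fin n) (Fin n) ℂ := fun s => NormedSpace.exp ((s : ℂ) • (-D))
  have hF : ∀ s i j, HasDerivAt (fun s => F s i j) ((F s * D) i j) s :=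
    fun s i j => der_rho hC hP hσ hX s i j
  have hE : ∀ s i j, HasDerivAt (fun s => E s i j) ((E s * (-D)) i j) s :=
    fun s i j => der_exp (-D) s i j
  have hcomm : ∀ s, D * E s = E s * D := by
    intro s
    have h1 : Commute D ((s : ℂ) • (-D)) := (Commute.neg_right (Commute.refl D)).smul_right _
    exact h1.exp_right.eq
  have hG : ∀ i j s, HasDerivAt (fun s => (F s * E s) i j) 0 s := by
    intro i j s
    have h1 : HasDerivAt (fun s => ∑ l, F s i l * E s l j)
        (∑ l, ((F s * D) i l * E s l j + F s i l * (E s * (-D)) l j)) s :=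
      HasDerivAt.fun_sum fun l _ => (hF s i l).mul (hE s l j)
    have h2 : ∑ l, ((F s * D) i l * E s l j + F s i l * (E s * (-D)) l j) = 0 := by
      rw [Finset.sum_add_distrib, ← Matrix.mul_apply, ← Matrix.mul_apply, ← Matrix.add_apply,
        Matrix.mul_assoc, hcomm, Matrix.mul_neg, Matrix.mul_neg, add_neg_cancel, Matrix.zero_apply]
    rw [h2] at h1
    have h3 : (fun s => (F s * E s) i j) = fun s => ∑ l, F s i l * E s l j := by
      funext s
      rw [Matrix.mul_apply]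
    rw [h3]
    exact h1
  have hG1 : F t * E t = 1 := by
    ext i j
    have h1 := is_const_of_deriv_eq_zero (𝕜 := ℝ) (f := fun s => (F s * E s) i j)
      (fun s => (hG i j s).differentiableAt) (fun s => (hG i j s).deriv) t 0
    have h2 : F 0 * E 0 = 1 := by
      change σ.ρ (exH H X 0) * NormedSpace.exp (((0 : ℝ) : ℂ) • (-D)) = 1
      rw [hC.exzero X hX, map_one, Complex.ofReal_zero, zero_smul, NormedSpace.exp_zero, mul_one]
    rw [h2] at h1
    exact h1
  have h3 : E t * NormedSpace.exp ((t : ℂ) • D) = 1 := by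
    change NormedSpace.exp ((t : ℂ) • (-D)) * NormedSpace.exp ((t : ℂ) • D) = 1
    rw [smul_neg, ← Matrix.exp_add_of_commute _ _ (Commute.neg_left (Commute.refl ((t : ℂ) • D))),
      neg_add_cancel, NormedSpace.exp_zero]
  calc F t = F t * (E t * NormedSpace.exp ((t : ℂ) • D)) := by rw [h3, Matrix.mul_one]
    _ = NormedSpace.exp ((t : ℂ) • D) := by rw [← Matrix.mul_assoc, hG1, Matrix.one_mul]

end DREP

open DREP in
theorem t_DREP : M_DREP := by
  intro hCAL hLIE hPFF N H n σ hcl hσ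
  have hC := hCAL N H
  have hL := hLIE N H hcl
  have hP := hPFF N H hcl
  refine ⟨?_, ?_, ?_, ?_, ?_, ?_, ?_⟩
  · intro X hX g i j
    exact d_eq hC hP hσ hX g i j
  · intro X hX Y hY
    ext i j
    exact hP.add X hX Y hY _ (hσ i j) 1
  · intro X hX s
    ext i j
    exact hP.smul X hX s _ (hσ i j) 1
  · intro X hX Y hY
    ext i j
    have key : ∀ X ∈ lie H, ∀ Y ∈ lie H, dH X (dH Y (fun g => σ.ρ g i j)) 1 =
        (dr σ X * dr σ Y) i j := by
      intro X hX Y hY
      have h1 : dH Y (fun g => σ.ρ g i j) = fun g => (σ.ρ g * dr σ Y) i j := by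
        funext g
        exact d_eq hC hP hσ hY g i j
      rw [h1, d_mulc hC hP hσ hX]
    have h2 := hP.comm X hX Y hY _ (hσ i j) 1
    rw [key X hX Y hY, key Y hY X hX] at h2
    exact h2.symm
  · intro X hX
    ext i j
    have h1 : (fun g : H => ∑ l, σ.ρ g j l * conj (σ.ρ g i l)) =
        fun _ => (1 : Matrix (Fin n) (Fin n) ℂ) j i := by
      funext g
      have h2 := congrFun (congrFun (unit_mul σ g) j) i
      rw [Matrix.mul_apply] at h2
      exact h2
    have h3 : dH X (fun g : H => ∑ l, σ.ρ g j l * conj (σ.ρ g i l)) 1 = 0 := by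
      rw [h1, hC.dconst]
    rw [dH_sum hC hP hX _ _ fun l _ => PF_mul (hσ j l) (hP.cj _ (hσ i l))] at h3
    have h4 : ∀ l, dH X (fun g => σ.ρ g j l * conj (σ.ρ g i l)) 1 =
        dr σ X j l * (1 : Matrix (Fin n) (Fin n) ℂ) i l +
          (1 : Matrix (Fin n) (Fin n) ℂ) j l * conj (dr σ X i l) := by
      intro l
      rw [hC.dmul X hX _ _ (hP.c2 _ (hσ j l)).1 (hP.c2 _ (hP.cj _ (hσ i l))).1,
        hC.dconj X hX _ (hP.c2 _ (hσ i l)).1, map_one]
      have h5 : conj ((1 : Matrix (Fin n) (Fin n) ℂ) i l) = (1 : Matrix (Fin n) (Fin n) ℂ) i l := by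
        rw [Matrix.one_apply]
        split_ifs <;> simp
      rw [h5]
      rfl
    simp only [h4, Finset.sum_add_distrib, Matrix.one_apply, mul_ite, mul_one, mul_zero, ite_mul,
      one_mul, zero_mul, Finset.sum_ite_eq, Finset.mem_univ, if_true] at h3
    rw [Matrix.neg_apply, Matrix.conjTranspose_apply]
    have h6 := congrArg conj h3
    rw [map_add, Complex.conj_conj, map_zero] at h6
    exact eq_neg_of_add_eq_zero_left h6
  · intro X hX h
    have hX' : h.1.1 * X * h.1.1ᴴ ∈ lie H := hL.ad h.1 h.2 X hX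
    have hu : h.1.1ᴴ * h.1.1 = 1 := by
      have := h.1.2
      rw [Matrix.mem_specialUnitaryGroup_iff, Matrix.mem_unitaryGroup_iff'] at this
      exact this.1
    have key : dr σ (h.1.1 * X * h.1.1ᴴ) * σ.ρ h = σ.ρ h * dr σ X := by
      ext i j
      have h1 := hP.dright _ hX' h _ (hσ i j) 1
      have h2 : h.1.1ᴴ * (h.1.1 * X * h.1.1ᴴ) * h.1.1 = X := by
        have h3 : h.1.1ᴴ * (h.1.1 * X * h.1.1ᴴ) * h.1.1 =
            (h.1.1ᴴ * h.1.1) * X * (h.1.1ᴴ * h.1.1) := by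
          simp only [Matrix.mul_assoc]
        rw [h3, hu, Matrix.one_mul, Matrix.mul_one]
      rw [h2, one_mul, d_eq hC hP hσ hX] at h1
      rw [← h1]
      have h4 : (fun g => σ.ρ (g * h) i j) = fun g => (σ.ρ g * σ.ρ h) i j := by
        funext g
        rw [map_mul]
      rw [h4, d_mulc hC hP hσ hX']
    rw [← key, Matrix.mul_assoc (dr σ (h.1.1 * X * h.1.1ᴴ)), unit_mul, Matrix.mul_one]
  · intro X hX t
    exact ex_eq hC hP hσ hX t

end

end LGR
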