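import Pool.Agent.LGR.StA

/-!
# EXCH: the exchange property
-/

namespace LGR

open STZ Matrix

namespace EXCH

variable {r : ℕ}

/-- the simple root `i` -/
def sr (B : Matrix (Fin r) (Fin r) ℤ) (i : Fin r) : (Fin r → ℤ) × (Fin r → ℤ) :=
  (B i, Pi.single i 1)

/-- the simple reflection -/
def sm (B : Matrix (Fin r) (Fin r) ℤ) (i : Fin r) : Matrix (Fin r) (Fin r) ℤ := rf (sr B i)

/-- `q` is the image of `p` under `w` -/
def Im (w : Matrix (Fin r) (Fin r) ℤ) (p q : (Fin r → ℤ) × (Fin r → ℤ)) : Prop :=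
  w *ᵥ p.1 = q.1 ∧ ∀ l, q.2 ⬝ᵥ (w *ᵥ l) = p.2 ⬝ᵥ l

theorem dot_ext {a b : Fin r → ℤ} (h : ∀ l, a ⬝ᵥ l = b ⬝ᵥ l) : a = b := by
  funext i
  have := h (Pi.single i 1)
  simpa using this

theorem mat_ext {a b : Matrix (Fin r) (Fin r) ℤ} (h : ∀ l, a *ᵥ l = b *ᵥ l) : a = b := by
  ext i j
  have h1 := congrFun (h (Pi.single j 1)) i
  simpa using h1

variable {Φ : RT r} {B : Matrix (Fin r) (Fin r) ℤ}

theorem sm_mv (hW : WFF Φ B) (i : Fin r) (l : Fin r → ℤ) : sm B i *ᵥ l = l - l i • B i := by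
  unfold sm
  rw [hW.mv]
  simp [sr]

theorem sr_mem (hD : IRD Φ B) (i : Fin r) : sr B i ∈ Φ := hD.base i

theorem sr_pos (hD : IRD Φ B) (i : Fin r) : sr B i ∈ pos Φ := by
  unfold pos
  rw [Finset.mem_filter]
  refine ⟨sr_mem hD i, fun j => ?_⟩
  unfold sr
  by_cases h : j = i
  · subst h
    simp
  · simp [h]

theorem sm_sq (hD : IRD Φ B) (hW : WFF Φ B) (i : Fin r) : sm B i * sm B i = 1 :=
  hW.sq _ (sr_mem hD i)

theorem sm_mem (hD : IRD Φ B) (hW : WFF Φ B) (i : Fin r) : sm B i ∈ WF Φ := by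
  rw [hW.mem]
  exact Submonoid.subset_closure ⟨_, sr_mem hD i, rfl⟩

theorem diag (hD : IRD Φ B) (i : Fin r) : B i i = 2 := by
  have h := hD.two _ (sr_mem hD i)
  simpa [sr] using h

theorem word_mem (hD : IRD Φ B) (hW : WFF Φ B) (L : List (Fin r)) :
    (L.map (sm B)).prod ∈ WF Φ := by
  induction L with
  | nil => simpa using hW.one
  | cons j L ih =>
    rw [List.map_cons, List.prod_cons]
    exact hW.mul _ (sm_mem hD hW j) _ ih

/-- the exchange property -/
theorem exch (hD : IRD Φ B) (hW : WFF Φ B) (i : Fin r) (L : List (Fin r)) :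
    ∀ q, Im (L.map (sm B)).prod (sr B i) q → q ∉ pos Φ →
      ∃ L' : List (Fin r), L'.length + 1 = L.length ∧
        (L.map (sm B)).prod * sm B i = (L'.map (sm B)).prod := by
  induction L with
  | nil =>
    intro q hq hn
    exfalso
    apply hn
    obtain ⟨h1, h2⟩ := hq
    rw [List.map_nil, List.prod_nil] at h1 h2
    have e : q = sr B i := by
      apply Prod.ext
      · rw [← h1, Matrix.one_mulVec]
      · apply dot_ext
        intro l
        rw [← h2 l, Matrix.one_mulVec]
    rw [e]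
    exact sr_pos hD i
  | cons j L ih =>
    intro q hq hn
    rw [List.map_cons, List.prod_cons] at hq ⊢
    set w1 := (L.map (sm B)).prod with hw1
    have hw1m : w1 ∈ WF Φ := word_mem hD hW L
    obtain ⟨q1, hq1, hq1a, hq1b⟩ := hW.perm w1 hw1m _ (sr_mem hD i)
    by_cases hp : q1 ∈ pos Φ
    · have hsq := sm_sq hD hW j
      have e1 : q.1 = q1.1 - q1.1 j • B j := by
        rw [← hq.1, ← Matrix.mulVec_mulVec, hq1a, sm_mv hW]
      have e2 : q.2 = q1.2 - (q1.2 ⬝ᵥ B j) • Pi.single j 1 := by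
        obtain ⟨w1', -, -, hw1'⟩ := hW.inv w1 hw1m
        apply dot_ext
        intro l
        have h3 := hq.2 (w1' *ᵥ (sm B j *ᵥ l))
        have h4 := hq1b (w1' *ᵥ (sm B j *ᵥ l))
        rw [Matrix.mulVec_mulVec, mul_assoc, hw1', mul_one, Matrix.mulVec_mulVec, hsq,
          Matrix.one_mulVec, ← h4, Matrix.mulVec_mulVec, hw1', Matrix.one_mulVec, sm_mv hW] at h3
        rw [h3, dotProduct_sub, dotProduct_smul, sub_dotProduct, smul_dotProduct,
          single_dotProduct]
        simp [mul_comm]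
      by_cases hj : q1 = sr B j
      · refine ⟨L, rfl, ?_⟩
        rw [← hw1]
        have h5 : w1 * sm B i = sm B j * w1 := by
          apply mat_ext
          intro l
          rw [← Matrix.mulVec_mulVec, ← Matrix.mulVec_mulVec, sm_mv hW, sm_mv hW, Matrix.mulVec_sub,
            Matrix.mulVec_smul]
          have h6 : w1 *ᵥ B i = B j := by
            have := hq1a
            rw [hj] at this
            exact this
          have h7 : (w1 *ᵥ l) j = l i := by
            have := hq1b l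
            rw [hj] at this
            simpa [sr] using this
          rw [h6, h7]
        rw [mul_assoc, h5, ← mul_assoc, hsq, one_mul]
      · exfalso
        apply hn
        have h5 := hW.simp j q1 hp hj
        have e3 : q = (q1.1 - q1.1 j • B j, q1.2 - (q1.2 ⬝ᵥ B j) • Pi.single j 1) :=
          Prod.ext e1 e2
        rw [e3]
        exact h5
    · obtain ⟨L', hL', hL''⟩ := ih q1 ⟨hq1a, hq1b⟩ hp
      refine ⟨j :: L', ?_, ?_⟩
      · rw [List.length_cons, List.length_cons, hL']
      · rw [List.map_cons, List.prod_cons, ← hL'', mul_assoc]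

theorem word (_hD : IRD Φ B) (hG : WM Φ = Submonoid.closure {w | ∃ i, w = rf (B i, Pi.single i 1)})
    (hW : WFF Φ B) {w : Matrix (Fin r) (Fin r) ℤ} (hw : w ∈ WF Φ) :
    ∃ L : List (Fin r), (L.map (sm B)).prod = w := by
  rw [hW.mem, hG] at hw
  induction hw using Submonoid.closure_induction with
  | mem x hx =>
    obtain ⟨i, rfl⟩ := hx
    exact ⟨[i], by simp [sm, sr]⟩
  | one => exact ⟨[], by simp⟩
  | mul x y _ _ hx hy =>
    obtain ⟨L, rfl⟩ := hx
    obtain ⟨L', rfl⟩ := hy
    exact ⟨L ++ L', by rw [List.map_append, List.prod_append]⟩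

end EXCH

open EXCH in
theorem t_EXCH : M_EXCH := by
  intro hG r Φ B hD hW w hw hne
  have hG' := hG r Φ B hD hW
  have hex : ∃ n, ∃ L : List (Fin r), L.length = n ∧ (L.map (sm B)).prod = w := by
    obtain ⟨L, hL⟩ := word hD hG' hW hw
    exact ⟨L.length, L, rfl, hL⟩
  classical
  obtain ⟨L, hLn, hLw⟩ := Nat.find_spec hex
  rcases List.eq_nil_or_concat L with rfl | ⟨L', i, rfl⟩
  · exact absurd hLw.symm (by simpa using hne)
  rw [List.concat_eq_append] at hLn hLw
  rw [List.map_append, List.prod_append, List.map_singleton, List.prod_singleton] at hLw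
  obtain ⟨q, hq, hq1, hq2⟩ := hW.perm w hw _ (sr_mem hD i)
  by_cases hp : q ∈ pos Φ
  · exfalso
    have hsq := sm_sq hD hW i
    have hu : (L'.map (sm B)).prod = w * sm B i := by
      rw [← hLw, mul_assoc, hsq, mul_one]
    have hIm : Im (L'.map (sm B)).prod (sr B i) (-q.1, -q.2) := by
      rw [hu]
      constructor
      · rw [← Matrix.mulVec_mulVec, sm_mv hW]
        have h1 : (sr B i).1 - (sr B i).1 i • B i = -(sr B i).1 := by
          change B i - B i i • B i = -B i
          rw [diag hD i, two_smul]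
          abel
        rw [h1, Matrix.mulVec_neg, hq1]
      · intro l
        rw [← Matrix.mulVec_mulVec]
        change (-q.2) ⬝ᵥ _ = _
        rw [neg_dotProduct, hq2, sm_mv hW]
        have h1 : ∀ m : Fin r → ℤ, (sr B i).2 ⬝ᵥ m = m i := by
          intro m
          simp [sr]
        rw [h1, h1]
        simp only [Pi.sub_apply, Pi.smul_apply, smul_eq_mul, diag hD i]
        ring
    have hn : ((-q.1, -q.2) : (Fin r → ℤ) × (Fin r → ℤ)) ∉ pos Φ := (hW.dich q hq).mp hp
    obtain ⟨L'', h1, h2⟩ := exch hD hW i L' _ hIm hn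
    rw [hLw] at h2
    have h3 := Nat.find_min' hex ⟨L'', rfl, h2.symm⟩
    rw [← hLn, List.length_append, List.length_singleton] at h3
    omega
  · have hn : ((-q.1, -q.2) : (Fin r → ℤ) × (Fin r → ℤ)) ∈ pos Φ := by
      by_contra hcon
      exact hp ((hW.dich q hq).mpr hcon)
    refine ⟨sr B i, sr_pos hD i, (-q.1, -q.2), hn, ?_, ?_⟩
    · rw [hq1]
      simp
    · intro l
      change (-q.2) ⬝ᵥ _ = _
      rw [neg_dotProduct, hq2]

end LGR
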