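import Pool.Agent.LGR.StB

/-!
# LGR, module FANV: antisymmetric coefficients
-/

namespace LGR

open STZ MeasureTheory Matrix Filter

open scoped ComplexConjugate Matrix Real

noncomputable section

namespace FANV

variable {r : ℕ} {D : RD r} {P : RT r}

theorem inv' (h : RV D P) {w : Matrix (Fin r) (Fin r) ℤ} (hw : w ∈ D.W) :
    ∃ w' ∈ D.W, w' * w = 1 ∧ w * w' = 1 := by
  obtain ⟨w', h1, h2⟩ := h.W_inv w hw
  exact ⟨w', h1, h2, mul_eq_one_comm.1 h2⟩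

theorem det_ne (h : RV D P) {w : Matrix (Fin r) (Fin r) ℤ} (hw : w ∈ D.W) :
    ((w.det : ℤ) : ℂ) ≠ 0 := by
  rcases h.W_det w hw with h1 | h1 <;> simp [h1]

theorem inj (h : RV D P) {w w' : Matrix (Fin r) (Fin r) ℤ} (hw : w ∈ D.W) (hw' : w' ∈ D.W)
    {l l' : Fin r → ℤ} (hl : Reg l) (hl' : Reg l') (he : w *ᵥ l = w' *ᵥ l') :
    l = l' ∧ w = w' := by
  obtain ⟨v, hv, hv1, hv2⟩ := inv' h hw'
  have h1 : (v * w) *ᵥ l = l' := by
    rw [← Matrix.mulVec_mulVec, he, Matrix.mulVec_mulVec, hv1, Matrix.one_mulVec]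
  have h2 : v * w = 1 := h.free l hl _ (h.W_mul v hv w hw) (by rw [h1]; exact hl')
  refine ⟨?_, ?_⟩
  · rw [← h1, h2, Matrix.one_mulVec]
  · calc w = (w' * v) * w := by rw [hv2, one_mul]
      _ = w' := by rw [mul_assoc, h2, mul_one]

theorem surj (h : RV D P) {K : ℕ} {b : (Fin r → ℤ) → ℂ}
    (hb : ∀ w ∈ D.W, ∀ ν, b (w *ᵥ ν) = (w.det : ℂ) * b ν)
    (hK : ∀ ν i, (K : ℤ) < |ν i| → b ν = 0) {μ : Fin r → ℤ} (hμ : b μ ≠ 0) :
    ∃ w ∈ D.W, ∃ ν, Reg ν ∧ ν ∈ bx (1 : Fin r → ℤ) K ∧ w *ᵥ ν = μ := by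
  obtain ⟨w, hw, hw0⟩ := h.str μ
  obtain ⟨v, hv, hv1, hv2⟩ := inv' h hw
  have h1 : b (w *ᵥ μ) ≠ 0 := by
    rw [hb w hw]
    exact mul_ne_zero (det_ne h hw) hμ
  have hpos : ∀ i, 0 < (w *ᵥ μ) i := by
    intro i
    rcases (hw0 i).lt_or_eq with h2 | h2
    · exact h2
    · exfalso
      obtain ⟨p, hp, hp2⟩ := h.sim i
      obtain ⟨s, hs, hs1, hs2⟩ := h.refl p hp
      have h3 := hb s hs (w *ᵥ μ)
      rw [hs2, hp2, single_dotProduct, ← h2, mul_zero, zero_smul, sub_zero, hs1] at h3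
      apply h1
      have h4 : b (w *ᵥ μ) = -b (w *ᵥ μ) := by
        simpa using h3
      exact self_eq_neg.1 h4
  refine ⟨v, hv, w *ᵥ μ, hpos, ?_, ?_⟩
  · refine Fintype.mem_piFinset.2 fun i => ?_
    have h2 : |(w *ᵥ μ) i| ≤ K := by
      by_contra h3
      exact h1 (hK _ i (not_le.1 h3))
    have h3 := hpos i
    have h4 := le_abs_self ((w *ᵥ μ) i)
    rw [Finset.mem_Ico, Pi.one_apply]
    omega
  · rw [Matrix.mulVec_mulVec, hv1, Matrix.one_mulVec]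

end FANV

theorem t_FANV : S_FANV := by
  intro r D P h K b hb hK θ
  have hE : ∀ ν : Fin r → ℤ,
      Complex.exp (2 * π * Complex.I * ∑ i, (ν i : ℂ) * ((θ i : ℝ) : ℂ)) = eu (dz ν θ) := by
    intro ν
    rw [eu, dz]
    push_cast
    rw [mul_right_comm]
  have hR : ∑ ν ∈ bx (1 : Fin r → ℤ) K, b ν * AT D ν θ =
      ∑ p ∈ bx (1 : Fin r → ℤ) K ×ˢ D.W, b (p.2 *ᵥ p.1) * eu (dz (p.2 *ᵥ p.1) θ) := by
    rw [Finset.sum_product]
    refine Finset.sum_congr rfl fun ν _ => ?_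
    rw [AT, Finset.mul_sum]
    refine Finset.sum_congr rfl fun w hw => ?_
    rw [hb w hw]
    ring
  have hreg : ∀ ν ∈ bx (1 : Fin r → ℤ) K, Reg ν := by
    intro ν hν i
    have h1 := Finset.mem_Ico.1 (Fintype.mem_piFinset.1 hν i)
    rw [Pi.one_apply] at h1
    omega
  rw [hR, ES]
  symm
  refine Finset.sum_bij_ne_zero (fun p _ _ => p.2 *ᵥ p.1) ?_ ?_ ?_ ?_
  · intro p hp hne
    refine Fintype.mem_piFinset.2 fun i => ?_
    have h1 : b (p.2 *ᵥ p.1) ≠ 0 := fun h0 => hne (by rw [h0, zero_mul])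
    have h2 : |(p.2 *ᵥ p.1) i| ≤ K := by
      by_contra h3
      exact h1 (hK _ i (not_le.1 h3))
    rw [Finset.mem_Icc]
    exact abs_le.1 h2
  · intro p hp _ q hq _ he
    have h1 := Finset.mem_product.1 hp
    have h2 := Finset.mem_product.1 hq
    obtain ⟨h3, h4⟩ := FANV.inj h h1.2 h2.2 (hreg _ h1.1) (hreg _ h2.1) he
    exact Prod.ext h3 h4
  · intro μ _ hne
    have h1 : b μ ≠ 0 := fun h0 => hne (by rw [h0, zero_mul])
    obtain ⟨w, hw, ν, _, hν, he⟩ := FANV.surj h hb hK h1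
    refine ⟨(ν, w), Finset.mem_product.2 ⟨hν, hw⟩, ?_, he⟩
    have h2 : b (w *ᵥ ν) * eu (dz (w *ᵥ ν) θ) ≠ 0 := by
      rw [he]
      rw [hE] at hne
      exact hne
    exact h2
  · intro p _ _
    rw [hE]

end

end LGR
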