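import Pool.Agent.LGR.StD

/-!
# WREP: every element of the Weyl group is realised by an element of the group
-/

namespace LGR

open STZ MeasureTheory Matrix Filter

open scoped ComplexConjugate Matrix Real Topology

noncomputable section

namespace WREP

lemma mul_conj {N : ℕ} (g : SU N) : g.1 * g.1ᴴ = 1 := by
  have h : g * star g = 1 := by
    rw [Matrix.star_eq_inv, mul_inv_cancel]
  have h2 := congrArg Subtype.val h
  exact h2

lemma conj_mul {N : ℕ} (g : SU N) : g.1ᴴ * g.1 = 1 := by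
  have h : star g * g = 1 := by
    rw [Matrix.star_eq_inv, inv_mul_cancel]
  have h2 := congrArg Subtype.val h
  exact h2

lemma inv_val {N : ℕ} (g : SU N) : (g⁻¹).1 = g.1ᴴ := by
  rw [← Matrix.star_eq_inv]
  rfl

lemma exp_cj {N : ℕ} (g : SU N) (A : Matrix (Fin N) (Fin N) ℂ) :
    NormedSpace.exp (g.1 * A * g.1ᴴ) = g.1 * NormedSpace.exp A * g.1ᴴ :=
  Matrix.exp_units_conj (⟨g.1, g.1ᴴ, mul_conj g, conj_mul g⟩ : (Matrix (Fin N) (Fin N) ℂ)ˣ) A

lemma rf_sum {r : ℕ} (p : (Fin r → ℤ) × (Fin r → ℤ)) (x : Fin r → ℝ) (j : Fin r) :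
    ∑ i, (rf p i j : ℝ) * x i = x j - (∑ i, (p.1 i : ℝ) * x i) * p.2 j := by
  unfold rf
  have h1 : ∀ i, (((if i = j then 1 else 0) - p.1 i * p.2 j : ℤ) : ℝ) * x i =
      (if i = j then x i else 0) - (p.1 i : ℝ) * x i * p.2 j := by
    intro i
    push_cast
    split_ifs <;> ring
  rw [Finset.sum_congr rfl (fun i _ => h1 i), Finset.sum_sub_distrib, Finset.sum_ite_eq' _ j,
    Finset.sum_mul]
  simp

end WREP

open WREP in
theorem t_WREP : M_WREP := by
  intro hF hT hR N H r Φ B Hc E hcl hL w hw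
  have F := hF r Φ B hL.ird
  have T := hT N H r Φ B Hc E hcl hL
  have R := hR N H r Φ B Hc E hcl hL
  have hw' := (F.mem w).1 hw
  have key : ∃ n ∈ H, (∀ x : Fin r → ℝ, n.1 * hx Hc x * n.1ᴴ =
      hx Hc (fun j => ∑ i, (w i j : ℝ) * x i)) := by
    unfold WM at hw'
    induction hw' using Submonoid.closure_induction with
    | mem v hv =>
      obtain ⟨p, hp, rfl⟩ := hv
      obtain ⟨n, hn, h⟩ := R p hp
      refine ⟨n, hn, fun x => ?_⟩
      rw [h x]
      congr 1
      funext j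
      rw [rf_sum]
    | one =>
      refine ⟨1, H.one_mem, fun x => ?_⟩
      have h1 : ((1 : SU N)).1 = 1 := rfl
      rw [h1, Matrix.conjTranspose_one, one_mul, mul_one]
      congr 1
      funext j
      have : ∀ i, (((1 : Matrix (Fin r) (Fin r) ℤ) i j : ℤ) : ℝ) * x i = if i = j then x i else 0 := by
        intro i
        rw [Matrix.one_apply]
        split_ifs <;> simp
      rw [Finset.sum_congr rfl (fun i _ => this i), Finset.sum_ite_eq' _ j]
      simp
    | mul a b ha hb iha ihb =>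
      obtain ⟨n, hn, h⟩ := iha ((F.mem a).2 ha)
      obtain ⟨m, hm, h'⟩ := ihb ((F.mem b).2 hb)
      refine ⟨m * n, H.mul_mem hm hn, fun x => ?_⟩
      have h1 : ((m * n : SU N)).1 = m.1 * n.1 := rfl
      rw [h1, Matrix.conjTranspose_mul]
      have h2 : m.1 * n.1 * hx Hc x * (n.1ᴴ * m.1ᴴ) = m.1 * (n.1 * hx Hc x * n.1ᴴ) * m.1ᴴ := by
        simp only [Matrix.mul_assoc]
      rw [h2, h x, h' _]
      congr 1
      funext j
      simp only [Matrix.mul_apply, Int.cast_sum, Int.cast_mul, Finset.mul_sum, Finset.sum_mul]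
      rw [Finset.sum_comm]
      refine Finset.sum_congr rfl fun i _ => Finset.sum_congr rfl fun k _ => ?_
      ring
  obtain ⟨n, hn, h⟩ := key
  refine ⟨n, hn, h, fun θ => ?_⟩
  apply Subtype.ext
  have h1 : ((n * ta Hc θ * n⁻¹ : SU N)).1 = n.1 * (ta Hc θ).1 * (n⁻¹).1 := rfl
  rw [h1, inv_val, T.coe, T.coe, ← exp_cj, h]
  congr 2
  funext j
  rw [Finset.mul_sum]
  refine Finset.sum_congr rfl fun i _ => ?_
  ring

end

end LGR
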