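import Pool.Agent.LGR.StL
import Pool.Agent.LGR.WREP

/-!
# FORM: the invariant form on the weights
-/

namespace LGR

open STZ MeasureTheory Matrix Filter

open scoped ComplexConjugate Matrix Real Topology

noncomputable section

attribute [local instance 100] LieRing.ofAssociativeRing

namespace FORM

variable {N r : ℕ}

/-- the Gram matrix of the simple coroots -/
def T (Hc : Fin r → Matrix (Fin N) (Fin N) ℂ) : Matrix (Fin r) (Fin r) ℝ :=
  fun i j => (Hc i * Hc j).trace.re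

lemma tr_real {Hc : Fin r → Matrix (Fin N) (Fin N) ℂ} (herm : ∀ j, (Hc j)ᴴ = Hc j) (i j : Fin r) :
    (Hc i * Hc j).trace = ((T Hc i j : ℝ) : ℂ) := by
  have h1 : conj (Hc i * Hc j).trace = (Hc i * Hc j).trace := by
    have h2 : ((Hc i * Hc j)ᴴ).trace = conj (Hc i * Hc j).trace := Matrix.trace_conjTranspose _
    rw [← h2, Matrix.conjTranspose_mul, herm i, herm j, Matrix.trace_mul_comm]
  exact (Complex.conj_eq_iff_re.1 h1).symm

lemma T_symm (Hc : Fin r → Matrix (Fin N) (Fin N) ℂ) (i j : Fin r) : T Hc i j = T Hc j i := by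
  unfold T
  rw [Matrix.trace_mul_comm]

lemma hx_tr {Hc : Fin r → Matrix (Fin N) (Fin N) ℂ} (herm : ∀ j, (Hc j)ᴴ = Hc j)
    (x y : Fin r → ℝ) : (hx Hc x * hx Hc y).trace = -((x ⬝ᵥ (T Hc *ᵥ y) : ℝ) : ℂ) := by
  unfold hx
  rw [Finset.sum_mul_sum, Matrix.trace_sum]
  have h1 : ∀ i, (∑ j, (((x i : ℂ) * Complex.I) • Hc i) * (((y j : ℂ) * Complex.I) • Hc j)).trace =
      ∑ j, -((x i * (T Hc i j * y j) : ℝ) : ℂ) := by
    intro i
    rw [Matrix.trace_sum]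
    refine Finset.sum_congr rfl fun j _ => ?_
    rw [Matrix.smul_mul, Matrix.mul_smul, Matrix.trace_smul, Matrix.trace_smul, tr_real herm]
    simp only [smul_eq_mul]
    push_cast
    linear_combination ((x i : ℂ) * (y j : ℂ) * (T Hc i j : ℂ)) * Complex.I_sq
  rw [Finset.sum_congr rfl fun i _ => h1 i]
  simp only [dotProduct, mulVec, Finset.mul_sum]
  push_cast
  rw [← Finset.sum_neg_distrib]
  refine Finset.sum_congr rfl fun i _ => ?_
  rw [Finset.sum_neg_distrib]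

lemma hx_star {Hc : Fin r → Matrix (Fin N) (Fin N) ℂ} (herm : ∀ j, (Hc j)ᴴ = Hc j)
    (x : Fin r → ℝ) : (hx Hc x)ᴴ = -hx Hc x := by
  unfold hx
  rw [Matrix.conjTranspose_sum, ← Finset.sum_neg_distrib]
  refine Finset.sum_congr rfl fun j _ => ?_
  rw [Matrix.conjTranspose_smul, herm j, ← neg_smul]
  congr 1
  simp

lemma hx_ne {Hc : Fin r → Matrix (Fin N) (Fin N) ℂ} (lin : LinearIndependent ℝ Hc)
    {x : Fin r → ℝ} (h : x ≠ 0) : hx Hc x ≠ 0 := by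
  intro h0
  apply h
  have h1 : hx Hc x = Complex.I • ∑ j, x j • Hc j := by
    unfold hx
    rw [Finset.smul_sum]
    refine Finset.sum_congr rfl fun j _ => ?_
    rw [mul_comm, mul_smul]
    rfl
  rw [h1] at h0
  have h2 : ∑ j, x j • Hc j = 0 := by
    rcases smul_eq_zero.1 h0 with h3 | h3
    · exact absurd h3 Complex.I_ne_zero
    · exact h3
  exact funext fun j => Fintype.linearIndependent_iff.1 lin x h2 j

open scoped ComplexOrder in
lemma T_pos {Hc : Fin r → Matrix (Fin N) (Fin N) ℂ} (herm : ∀ j, (Hc j)ᴴ = Hc j)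
    (lin : LinearIndependent ℝ Hc) {x : Fin r → ℝ} (h : x ≠ 0) : 0 < x ⬝ᵥ (T Hc *ᵥ x) := by
  have h1 : (hx Hc x * (hx Hc x)ᴴ).trace = ((x ⬝ᵥ (T Hc *ᵥ x) : ℝ) : ℂ) := by
    rw [hx_star herm, Matrix.mul_neg, Matrix.trace_neg, hx_tr herm, neg_neg]
  have h2 : 0 ≤ (hx Hc x * (hx Hc x)ᴴ).trace :=
    (Matrix.posSemidef_self_mul_conjTranspose (hx Hc x)).trace_nonneg
  have h3 : (hx Hc x * (hx Hc x)ᴴ).trace ≠ 0 := by
    intro h4
    exact hx_ne lin h (Matrix.trace_mul_conjTranspose_self_eq_zero_iff.1 h4)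
  rw [h1] at h2 h3
  have h5 : 0 ≤ x ⬝ᵥ (T Hc *ᵥ x) := by exact_mod_cast h2
  have h6 : x ⬝ᵥ (T Hc *ᵥ x) ≠ 0 := by
    intro h7
    apply h3
    rw [h7]
    simp
  exact lt_of_le_of_ne h5 (Ne.symm h6)

/-- the Gram matrix is positive definite -/
lemma G_posDef {Hc : Fin r → Matrix (Fin N) (Fin N) ℂ} (herm : ∀ j, (Hc j)ᴴ = Hc j)
    (lin : LinearIndependent ℝ Hc) {c : ℝ} (hc : 0 < c) : (c • T Hc).PosDef := by
  refine Matrix.PosDef.of_dotProduct_mulVec_pos ?_ ?_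
  · ext i j
    simp only [Matrix.conjTranspose_apply, Matrix.smul_apply, star_trivial]
    rw [T_symm]
  · intro x hx
    rw [star_trivial, Matrix.smul_mulVec, dotProduct_smul, smul_eq_mul]
    exact mul_pos hc (T_pos herm lin hx)

open scoped MatrixOrder in
lemma exists_root {A : Matrix (Fin r) (Fin r) ℝ} (h : A.PosDef) :
    ∃ z : Matrix (Fin r) (Fin r) ℝ, A = zᵀ * z := by
  obtain ⟨z, hz⟩ := CStarAlgebra.nonneg_iff_eq_star_mul_self.mp h.posSemidef.nonneg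
  refine ⟨z, ?_⟩
  rw [hz, Matrix.star_eq_conjTranspose, Matrix.conjTranspose_eq_transpose_of_trivial]

lemma dot_mul (x y : Fin r → ℝ) (M w : Matrix (Fin r) (Fin r) ℝ) :
    (wᵀ *ᵥ x) ⬝ᵥ (M *ᵥ (wᵀ *ᵥ y)) = x ⬝ᵥ ((w * M * wᵀ) *ᵥ y) := by
  rw [Matrix.mulVec_transpose, ← Matrix.dotProduct_mulVec, Matrix.mulVec_mulVec,
    Matrix.mulVec_mulVec]

lemma eq_of_dot {A B : Matrix (Fin r) (Fin r) ℝ}
    (h : ∀ x y : Fin r → ℝ, x ⬝ᵥ (A *ᵥ y) = x ⬝ᵥ (B *ᵥ y)) : A = B := by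
  ext i j
  have := h (Pi.single i 1) (Pi.single j 1)
  simpa using this

lemma inv_form {G w : Matrix (Fin r) (Fin r) ℝ} (hG : IsUnit G.det) (h : w * G * wᵀ = G) :
    wᵀ * G⁻¹ * w = G⁻¹ := by
  have h1 : (G⁻¹ * w) * (G * wᵀ) = 1 := by
    calc (G⁻¹ * w) * (G * wᵀ) = G⁻¹ * (w * G * wᵀ) := by simp only [Matrix.mul_assoc]
      _ = G⁻¹ * G := by rw [h]
      _ = 1 := Matrix.nonsing_inv_mul G hG
  have h2 : (G * wᵀ) * (G⁻¹ * w) = 1 := mul_eq_one_comm.1 h1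
  calc wᵀ * G⁻¹ * w = G⁻¹ * G * (wᵀ * G⁻¹ * w) := by
        rw [Matrix.nonsing_inv_mul G hG, Matrix.one_mul]
    _ = G⁻¹ * ((G * wᵀ) * (G⁻¹ * w)) := by simp only [Matrix.mul_assoc]
    _ = G⁻¹ := by rw [h2, Matrix.mul_one]

end FORM

open FORM in
/-- FORM -/
theorem t_FORM : M_FORM := by
  intro hF hQ hS hT hR N H r Φ B Hc E hcl hL hr c hc
  have F := hF r Φ B hL.ird
  have TT := hT N H r Φ B Hc E hcl hL
  obtain ⟨-, -, qsym, qpos, -, ⟨c0, hc0, qlow⟩, -⟩ := hQ r Φ B hL.ird F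
  set G : Matrix (Fin r) (Fin r) ℝ := c • T Hc with hGdef
  have hGp : G.PosDef := G_posDef hL.herm hL.lin hc
  have hGu : IsUnit G.det := (Matrix.isUnit_iff_isUnit_det G).1 hGp.isUnit
  have hGi : G⁻¹.PosDef := hGp.inv
  -- invariance
  have hinv : ∀ w ∈ WF Φ, (w.map (Int.cast : ℤ → ℝ)) * G * (w.map (Int.cast : ℤ → ℝ))ᵀ = G := by
    intro w hw
    obtain ⟨n, -, hn, -⟩ := t_WREP hF hT hR N H r Φ B Hc E hcl hL w hw
    set w' : Matrix (Fin r) (Fin r) ℝ := w.map (Int.cast : ℤ → ℝ) with hw'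
    have hwx : ∀ x : Fin r → ℝ, (fun j => ∑ i, (w i j : ℝ) * x i) = w'ᵀ *ᵥ x := by
      intro x
      funext j
      simp [mulVec, dotProduct, hw', Matrix.transpose_apply, Matrix.map_apply]
    apply eq_of_dot
    intro x y
    rw [← dot_mul]
    have h1 : (hx Hc (w'ᵀ *ᵥ x) * hx Hc (w'ᵀ *ᵥ y)).trace = (hx Hc x * hx Hc y).trace := by
      rw [← hwx x, ← hwx y, ← hn x, ← hn y]
      have h2 : n.1 * hx Hc x * n.1ᴴ * (n.1 * hx Hc y * n.1ᴴ) =
          n.1 * (hx Hc x * hx Hc y * n.1ᴴ) := by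
        calc n.1 * hx Hc x * n.1ᴴ * (n.1 * hx Hc y * n.1ᴴ) =
            n.1 * hx Hc x * (n.1ᴴ * n.1) * hx Hc y * n.1ᴴ := by simp only [Matrix.mul_assoc]
          _ = _ := by rw [WREP.conj_mul, Matrix.mul_one]; simp only [Matrix.mul_assoc]
      rw [h2, Matrix.trace_mul_comm, Matrix.mul_assoc, WREP.conj_mul, Matrix.mul_one]
    rw [hx_tr hL.herm, hx_tr hL.herm] at h1
    have h3 : (w'ᵀ *ᵥ x) ⬝ᵥ (T Hc *ᵥ (w'ᵀ *ᵥ y)) = x ⬝ᵥ (T Hc *ᵥ y) := by
      exact_mod_cast neg_injective h1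
    rw [hGdef, Matrix.smul_mulVec, Matrix.smul_mulVec, dotProduct_smul, dotProduct_smul, h3]
  -- uniqueness
  obtain ⟨k', hk'⟩ := hS r Φ B hr hL.ird F G⁻¹ (by
    intro w hw l l'
    set w' : Matrix (Fin r) (Fin r) ℝ := w.map (Int.cast : ℤ → ℝ) with hw'
    have h1 : ∀ l : Fin r → ℤ, (fun i => ((w *ᵥ l) i : ℝ)) = w' *ᵥ fun i => (l i : ℝ) := by
      intro l
      funext i
      simp [mulVec, dotProduct, hw', Matrix.map_apply]
    rw [h1, h1]
    have h2 := dot_mul (fun i => (l i : ℝ)) (fun i => (l' i : ℝ)) G⁻¹ w'ᵀ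
    rw [Matrix.transpose_transpose] at h2
    rw [h2, inv_form hGu (hinv w hw)])
  set A : Matrix (Fin r) (Fin r) ℝ := (rd Φ).A.map (Int.cast : ℤ → ℝ) with hA
  have hk'pos : 0 < k' := by
    set l : Fin r → ℤ := Pi.single ⟨0, hr⟩ 1 with hl
    have h1 := hGi.dotProduct_mulVec_pos (x := fun i => (l i : ℝ)) (by
      intro h0
      have h2 := congrFun h0 ⟨0, hr⟩
      simp [hl] at h2)
    rw [star_trivial, hk', Matrix.smul_mulVec, dotProduct_smul, smul_eq_mul] at h1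
    have h3 : (fun i => (l i : ℝ)) ⬝ᵥ (A *ᵥ fun i => (l i : ℝ)) = ((l ⬝ᵥ ((rd Φ).A *ᵥ l) : ℤ) : ℝ) := by
      simp [mulVec, dotProduct, hA, Matrix.map_apply]
    have h4 : 0 ≤ (fun i => (l i : ℝ)) ⬝ᵥ (A *ᵥ fun i => (l i : ℝ)) := by
      rw [h3, qpos l]
      push_cast
      have h5 : (0 : ℝ) ≤ ((rd Φ).Q l : ℝ) := le_trans (by positivity) (qlow l).1
      linarith
    exact pos_of_mul_pos_left h1 h4
  obtain ⟨z, hz⟩ := exists_root hGi
  refine ⟨2 * k', hc, by positivity, ⟨z, ?_, ?_⟩, ?_⟩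
  · -- orthonormal
    have h1 : z * G * zᵀ = 1 := by
      apply mul_eq_one_comm.1
      rw [← Matrix.mul_assoc, ← hz, Matrix.nonsing_inv_mul G hGu]
    intro i j
    rw [hx_tr hL.herm]
    have h2 : c * (z i ⬝ᵥ (T Hc *ᵥ z j)) = if i = j then 1 else 0 := by
      have h3 := congrFun (congrFun h1 i) j
      rw [Matrix.one_apply] at h3
      rw [← h3, hGdef]
      simp only [Matrix.mul_apply, Matrix.transpose_apply, Matrix.smul_apply, smul_eq_mul,
        dotProduct, mulVec, Finset.mul_sum, Finset.sum_mul]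
      rw [Finset.sum_comm]
      refine Finset.sum_congr rfl fun a _ => Finset.sum_congr rfl fun b _ => ?_
      ring
    have h4 : (c : ℂ) * -((z i ⬝ᵥ (T Hc *ᵥ z j) : ℝ) : ℂ) = -((c * (z i ⬝ᵥ (T Hc *ᵥ z j)) : ℝ) : ℂ) := by
      push_cast
      ring
    rw [h4, h2]
    split_ifs <;> simp
  · intro i j
    have h1 : (zᵀ * z) i j = k' * ((rd Φ).A i j : ℝ) := by
      rw [← hz, hk', Matrix.smul_apply, hA, Matrix.map_apply, smul_eq_mul]
    rw [Matrix.mul_apply] at h1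
    simp only [Matrix.transpose_apply] at h1
    rw [h1]
    ring
  · intro p hp l
    set e : ℝ := (E p * (E p)ᴴ).trace.re with he
    have h1 : ∀ j, ∑ i, T Hc j i * (p.2 i : ℝ) = (p.1 j : ℝ) * e := by
      intro j
      have h2 := TT.tp p hp j
      rw [Matrix.mul_sum, Matrix.trace_sum] at h2
      have h3 := congrArg Complex.re h2
      rw [Complex.re_sum] at h3
      have h4 : ∀ i, (Hc j * ((p.2 i : ℂ) • Hc i)).trace.re = T Hc j i * (p.2 i : ℝ) := by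
        intro i
        rw [Matrix.mul_smul, Matrix.trace_smul, smul_eq_mul, tr_real hL.herm, mul_comm]
        have h5 : ((T Hc j i : ℝ) : ℂ) * (p.2 i : ℂ) = ((T Hc j i * (p.2 i : ℝ) : ℝ) : ℂ) := by
          push_cast
          ring
        rw [h5, Complex.ofReal_re]
      rw [Finset.sum_congr rfl fun i _ => h4 i] at h3
      rw [h3]
      have h6 : ((p.1 j : ℂ) * (E p * (E p)ᴴ).trace).re = (p.1 j : ℝ) * e := by
        rw [Complex.mul_re]
        simp [he]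
      exact h6
    have h2 : G *ᵥ (fun i => (p.2 i : ℝ)) = (c * e) • fun i => (p.1 i : ℝ) := by
      funext j
      rw [hGdef, Matrix.smul_mulVec, Pi.smul_apply, Pi.smul_apply, smul_eq_mul, smul_eq_mul]
      have h3 : (T Hc *ᵥ fun i => (p.2 i : ℝ)) j = ∑ i, T Hc j i * (p.2 i : ℝ) := rfl
      rw [h3, h1 j]
      ring
    have h3 : (fun i => (p.2 i : ℝ)) = (c * e * k') • (A *ᵥ fun i => (p.1 i : ℝ)) := by
      have h4 : G⁻¹ *ᵥ (G *ᵥ fun i => (p.2 i : ℝ)) = fun i => (p.2 i : ℝ) := by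
        rw [Matrix.mulVec_mulVec, Matrix.nonsing_inv_mul G hGu, Matrix.one_mulVec]
      rw [← h4, h2, hk', Matrix.mulVec_smul, Matrix.smul_mulVec, smul_smul]
    have h5 : ((p.2 ⬝ᵥ l : ℤ) : ℝ) = (fun i => (p.2 i : ℝ)) ⬝ᵥ (fun i => (l i : ℝ)) := by
      simp [dotProduct]
    have h6 : (A *ᵥ fun i => (p.1 i : ℝ)) ⬝ᵥ (fun i => (l i : ℝ)) =
        ((p.1 ⬝ᵥ ((rd Φ).A *ᵥ l) : ℤ) : ℝ) := by
      have h7 : Aᵀ = A := by
        rw [hA, ← Matrix.transpose_map, qsym]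
      have h8 : (A *ᵥ fun i => (p.1 i : ℝ)) = (fun i => (p.1 i : ℝ)) ᵥ* A := by
        conv_lhs => rw [← h7]
        rw [Matrix.mulVec_transpose]
      rw [h8, ← Matrix.dotProduct_mulVec]
      simp [mulVec, dotProduct, hA, Matrix.map_apply]
    rw [h5, h3, smul_dotProduct, h6, smul_eq_mul]
    ring

end

end LGR
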