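import Pool.Agent.LGR.StB
import Pool.Agent.STZ.GDVA

/-!
# GDVV: the bound near a point for an exponential sum that vanishes on the walls, for the data `RV`
-/

namespace LGR

open STZ MeasureTheory Matrix

open scoped ComplexConjugate Matrix Real

noncomputable section

namespace GDVV

lemma exists_v {r : ℕ} {D : RD r} {P : RT r} (hR : RV D P) {u : Fin r → ℝ} (hu : ∀ p ∈ P, dz p.1 u ≠ 0) :
    ∃ v : Fin r → ℝ, (∀ p ∈ P, dz p.1 v ≠ 0) ∧
      ∀ p ∈ P, ∀ q ∈ P, p ≠ q → dz p.1 v / dz p.1 u ≠ dz q.1 v / dz q.1 u := by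
  let dl : (Fin r → ℤ) → Module.Dual ℝ (Fin r → ℝ) := fun κ => ∑ i, (κ i : ℝ) • LinearMap.proj i
  have hdl : ∀ κ v, dl κ v = dz κ v := by
    intro κ v
    simp [dl, dz, LinearMap.sum_apply]
  let f : (P ⊕ {x : P × P // x.1 ≠ x.2}) → Module.Dual ℝ (Fin r → ℝ) := fun
    | Sum.inl p => dl p.1.1
    | Sum.inr x => (dz x.1.2.1.1 u) • dl x.1.1.1.1 - (dz x.1.1.1.1 u) • dl x.1.2.1.1
  obtain ⟨v, hv⟩ := Module.Dual.exists_forall_ne_zero_of_forall_exists f (by
    rintro (p | ⟨⟨p, q⟩, hpq⟩)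
    · exact ⟨u, by simp only [f, hdl]; exact hu _ p.2⟩
    · by_contra hcon
      push Not at hcon
      have h1 : ∀ i, dz q.1.1 u * (p.1.1 i : ℝ) = dz p.1.1 u * (q.1.1 i : ℝ) := by
        intro i
        have h2 := hcon (Pi.single i 1)
        simp only [f, LinearMap.sub_apply, LinearMap.smul_apply, hdl, smul_eq_mul] at h2
        have h3 : ∀ κ : Fin r → ℤ, dz κ (Pi.single i 1) = κ i := by
          intro κ
          simp [dz, Pi.single_apply]
        rw [h3, h3] at h2
        linarith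
      have hpne : p.1.1 ≠ 0 := by
        intro h0
        apply hu _ p.2
        rw [h0]
        simp [dz]
      obtain ⟨i, hi⟩ := Function.ne_iff.1 hpne
      have h4 := hR.np1 p.1 p.2 q.1 q.2 (fun h => hpq (Subtype.ext h)) (q.1.1 i) (p.1.1 i) (by
        funext j
        simp only [Pi.smul_apply, smul_eq_mul]
        have h5 := h1 i
        have h6 := h1 j
        have h7 : dz q.1.1 u ≠ 0 := hu _ q.2
        have h8 : dz q.1.1 u * ((q.1.1 i : ℝ) * p.1.1 j) = dz q.1.1 u * ((p.1.1 i : ℝ) * q.1.1 j) := by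
          linear_combination (q.1.1 i : ℝ) * h6 - (q.1.1 j : ℝ) * h5
        have h9 := mul_left_cancel₀ h7 h8
        exact_mod_cast h9)
      exact hi h4.2)
  refine ⟨v, fun p hp => ?_, fun p hp q hq hpq heq => ?_⟩
  · have h1 := hv (Sum.inl ⟨p, hp⟩)
    simp only [f, hdl] at h1
    exact h1
  · have h1 := hv (Sum.inr ⟨(⟨p, hp⟩, ⟨q, hq⟩), fun h => hpq (congrArg Subtype.val h)⟩)
    simp only [f, LinearMap.sub_apply, LinearMap.smul_apply, hdl, smul_eq_mul] at h1
    apply h1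
    rw [div_eq_div_iff (hu p hp) (hu q hq)] at heq
    linarith

end GDVV

open STZ.KSUP GDVV in
theorem t_GDVV : M_GDVV := by
  intro hDENS hSCHW r D P hR
  obtain ⟨⟨u, hu⟩, -⟩ := hDENS r D P hR
  obtain ⟨v, hv, hvv⟩ := GDVV.exists_v hR hu
  obtain ⟨c0, hc0, hc0u⟩ : ∃ c0 : ℝ, 0 < c0 ∧ ∀ p ∈ P, c0 ≤ |dz p.1 u| := by
    rcases P.eq_empty_or_nonempty with hP | hP
    · exact ⟨1, one_pos, by simp [hP]⟩
    · obtain ⟨p, hp, hmin⟩ := P.exists_min_image (fun p => |dz p.1 u|) hP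
      exact ⟨|dz p.1 u|, abs_pos.2 (hu p hp), hmin⟩
  set A : ℝ := 1 + ∑ i, |u i| with hAdef
  have hA0 : 0 < A := by
    have : 0 ≤ ∑ i, |u i| := by positivity
    linarith
  refine ⟨(1 + 1 / (c0 / (4 * A))) ^ P.card, by positivity, ?_⟩
  intro T b N θ E hN hE hvan hball
  have hN' : (0 : ℝ) < N := by linarith
  set V : ℝ := 1 + ∑ i, |v i| with hVdef
  have hV0 : 0 < V := by
    have : 0 ≤ ∑ i, |v i| := by positivity
    linarith
  -- the estimate for good parameters
  have hgood : ∀ s : ℝ, |s| ≤ 1 / (2 * N * V) →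
      (∀ p ∈ P, ∀ q ∈ P, p ≠ q →
        (dz p.1 (θ + s • v) - round (dz p.1 (θ + s • v))) / dz p.1 u ≠
        (dz q.1 (θ + s • v) - round (dz q.1 (θ + s • v))) / dz q.1 u) →
      ‖ES T b (fun i => (((θ + s • v) i : ℝ) : ℂ))‖ ≤ (1 + 1 / (c0 / (4 * A))) ^ P.card *
        (E * ∏ p ∈ P, min 1 (N * nd (dz p.1 (θ + s • v)))) := by
    intro s hs h2
    refine STZ.GDVA.core hSCHW T b hN hu hc0 hc0u hA0 hvan (fun z hz => hball _ fun i => ?_) h2
    have h3 : ln (θ + s • v) u z i - (θ i : ℂ) = ((s * v i : ℝ) : ℂ) + z * (u i : ℂ) := by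
      unfold ln
      simp only [Pi.add_apply, Pi.smul_apply, smul_eq_mul]
      push_cast
      ring
    rw [h3]
    refine (norm_add_le _ _).trans ?_
    rw [Complex.norm_real, norm_mul, norm_mul, Complex.norm_real, Real.norm_eq_abs, Real.norm_eq_abs,
      Real.norm_eq_abs]
    have h4 : |v i| ≤ V := by
      have := Finset.single_le_sum (f := fun i => |v i|) (fun j _ => abs_nonneg _) (Finset.mem_univ i)
      linarith
    have h5 : |u i| ≤ A := by
      have := Finset.single_le_sum (f := fun i => |u i|) (fun j _ => abs_nonneg _) (Finset.mem_univ i)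
      linarith
    calc |s| * |v i| + ‖z‖ * |u i| ≤ 1 / (2 * N * V) * V + 1 / (2 * N * A) * A := by
          gcongr
      _ = 1 / N := by
          field_simp
          norm_num
  have hcount : (⋃ p ∈ P, ⋃ q ∈ P, Set.range fun k : ℤ × ℤ =>
        (((k.1 : ℝ) - dz p.1 θ) / dz p.1 u - ((k.2 : ℝ) - dz q.1 θ) / dz q.1 u) /
          (dz p.1 v / dz p.1 u - dz q.1 v / dz q.1 u)).Countable := by
    exact Set.Countable.biUnion (Finset.countable_toSet P) fun p _ =>
      Set.Countable.biUnion (Finset.countable_toSet P) fun q _ => Set.countable_range _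
  have hd := hcount.dense_compl ℝ
  have hdzc : ∀ κ : Fin r → ℤ, Continuous fun s : ℝ => dz κ (θ + s • v) := by
    intro κ
    simp only [dz_line]
    exact continuous_const.add (continuous_id.mul continuous_const)
  have hleft : Continuous fun s : ℝ => ‖ES T b (fun i => (((θ + s • v) i : ℝ) : ℂ))‖ :=
    continuous_norm.comp (STZ.GDVA.ES_cont T b θ v)
  have hright : Continuous fun s : ℝ => (1 + 1 / (c0 / (4 * A))) ^ P.card *
        (E * ∏ p ∈ P, min 1 (N * nd (dz p.1 (θ + s • v)))) := by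
    refine continuous_const.mul (continuous_const.mul (continuous_finsetProd _ fun p _ => ?_))
    exact continuous_const.min (continuous_const.mul (STZ.TIME.nd_continuous.comp (hdzc p.1)))
  have hclosed := isClosed_le hleft hright
  have hsub : Metric.ball (0 : ℝ) (1 / (2 * N * V)) ∩
      (⋃ p ∈ P, ⋃ q ∈ P, Set.range fun k : ℤ × ℤ =>
        (((k.1 : ℝ) - dz p.1 θ) / dz p.1 u - ((k.2 : ℝ) - dz q.1 θ) / dz q.1 u) /
          (dz p.1 v / dz p.1 u - dz q.1 v / dz q.1 u))ᶜ ⊆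
      {s : ℝ | ‖ES T b (fun i => (((θ + s • v) i : ℝ) : ℂ))‖ ≤ (1 + 1 / (c0 / (4 * A))) ^ P.card *
        (E * ∏ p ∈ P, min 1 (N * nd (dz p.1 (θ + s • v))))} := by
    rintro s ⟨hs1, hs2⟩
    refine hgood s ?_ (fun p hp q hq hpq h0 => hs2 ?_)
    · rw [Metric.mem_ball, Real.dist_eq, sub_zero] at hs1
      exact hs1.le
    · simp only [Set.mem_iUnion, Set.mem_range]
      refine ⟨p, hp, q, hq, (round (dz p.1 (θ + s • v)), round (dz q.1 (θ + s • v))), ?_⟩
      have h3 : dz p.1 v / dz p.1 u - dz q.1 v / dz q.1 u ≠ 0 := sub_ne_zero.2 (hvv p hp q hq hpq)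
      rw [div_eq_iff h3]
      have h4 := dz_line p.1 θ v s
      have h5 := dz_line q.1 θ v s
      generalize round (dz p.1 (θ + s • v)) = k1 at *
      generalize round (dz q.1 (θ + s • v)) = k2 at *
      rw [h4, h5] at h0
      simp only [sub_div, add_div, mul_div_assoc] at h0 ⊢
      linarith
  have h1 : (0 : ℝ) ∈ closure (Metric.ball (0 : ℝ) (1 / (2 * N * V)) ∩
      (⋃ p ∈ P, ⋃ q ∈ P, Set.range fun k : ℤ × ℤ =>
        (((k.1 : ℝ) - dz p.1 θ) / dz p.1 u - ((k.2 : ℝ) - dz q.1 θ) / dz q.1 u) /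
          (dz p.1 v / dz p.1 u - dz q.1 v / dz q.1 u))ᶜ) :=
    hd.open_subset_closure_inter Metric.isOpen_ball (Metric.mem_ball_self (by positivity))
  have h2 := closure_minimal hsub hclosed h1
  simpa using h2

end

end LGR
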