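import Pool.Agent.LGR.StA

/-!
# LGR, module GENS: the Weyl group is generated by the simple reflections
-/

namespace LGR

open STZ MeasureTheory Matrix Filter

open scoped ComplexConjugate Matrix Real Topology

noncomputable section

namespace GENS

theorem rf_eq {r : ℕ} (p : (Fin r → ℤ) × (Fin r → ℤ)) :
    rf p = 1 - Matrix.vecMulVec p.1 p.2 := by
  ext i j
  simp [rf, Matrix.vecMulVec_apply, Matrix.one_apply]

theorem rf_neg {r : ℕ} (p : (Fin r → ℤ) × (Fin r → ℤ)) : rf (-p.1, -p.2) = rf p := by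
  ext i j
  simp [rf]

/-- conjugation of a reflection by a reflection -/
theorem rf_conj {r : ℕ} (b e a c : Fin r → ℤ)
    (hsq : rf (b, e) * rf (b, e) = 1) :
    rf (b, e) * rf (a - (e ⬝ᵥ a) • b, c - (c ⬝ᵥ b) • e) * rf (b, e) = rf (a, c) := by
  have h1 : rf (b, e) *ᵥ a = a - (e ⬝ᵥ a) • b := by
    rw [rf_eq, Matrix.sub_mulVec, Matrix.one_mulVec]
    congr 1
    ext i
    simp only [Matrix.mulVec, dotProduct, Matrix.vecMulVec_apply, Pi.smul_apply, smul_eq_mul,
      Finset.sum_mul]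
    exact Finset.sum_congr rfl fun x _ => by ring
  have h2 : c ᵥ* rf (b, e) = c - (c ⬝ᵥ b) • e := by
    rw [rf_eq, Matrix.vecMul_sub, Matrix.vecMul_one]
    congr 1
    ext i
    simp only [Matrix.vecMul, dotProduct, Matrix.vecMulVec_apply, Pi.smul_apply, smul_eq_mul,
      Finset.sum_mul]
    exact Finset.sum_congr rfl fun x _ => by ring
  rw [← h1, ← h2, rf_eq (rf (b, e) *ᵥ a, c ᵥ* rf (b, e)), rf_eq (a, c)]
  have h3 : rf (b, e) * Matrix.vecMulVec (rf (b, e) *ᵥ a) (c ᵥ* rf (b, e)) * rf (b, e) =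
      Matrix.vecMulVec a c := by
    rw [Matrix.mul_vecMulVec, Matrix.vecMulVec_mul, Matrix.mulVec_mulVec, Matrix.vecMul_vecMul,
      hsq, Matrix.one_mulVec, Matrix.vecMul_one]
  rw [Matrix.mul_sub, Matrix.mul_one, Matrix.sub_mul, hsq]
  show 1 - rf (b, e) * Matrix.vecMulVec (rf (b, e) *ᵥ a) (c ᵥ* rf (b, e)) * rf (b, e) = _
  rw [h3]

theorem pos_mem {r : ℕ} {Φ : RT r} {B : Matrix (Fin r) (Fin r) ℤ} (hI : IRD Φ B) (hW : WFF Φ B)
    (n : ℕ) : ∀ p ∈ pos Φ, ∑ i, p.2 i ≤ (n : ℤ) →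
      rf p ∈ Submonoid.closure {w | ∃ i, w = rf (B i, Pi.single i (1 : ℤ))} := by
  induction n with
  | zero =>
    intro p hp hs
    exfalso
    obtain ⟨_, h1, h2, _⟩ := hW.ppos p hp
    refine h2 (funext fun i => ?_)
    have h3 : ∑ i, p.2 i = 0 := le_antisymm (by simpa using hs)
      (Finset.sum_nonneg fun i _ => h1 i)
    exact (Finset.sum_eq_zero_iff_of_nonneg fun i _ => h1 i).1 h3 i (Finset.mem_univ i)
  | succ n ih =>
    intro p hp hs
    obtain ⟨hpΦ, h1, h2, m, hm, hm0⟩ := hW.ppos p hp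
    by_cases hsim : ∃ i, p = (B i, Pi.single i (1 : ℤ))
    · obtain ⟨i, hi⟩ := hsim
      exact Submonoid.subset_closure ⟨i, by rw [hi]⟩
    · push Not at hsim
      have h3 : ∑ k, m k * (p.2 ⬝ᵥ B k) = 2 := by
        have h4 := hI.two p hpΦ
        rw [hm, dotProduct_sum] at h4
        rw [← h4]
        refine Finset.sum_congr rfl fun k _ => ?_
        rw [dotProduct_smul, smul_eq_mul]
      obtain ⟨k, hk⟩ : ∃ k, 0 < p.2 ⬝ᵥ B k := by
        by_contra hcon
        push Not at hcon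
        have h5 : ∑ k, m k * (p.2 ⬝ᵥ B k) ≤ 0 :=
          Finset.sum_nonpos fun k _ => mul_nonpos_of_nonneg_of_nonpos (hm0 k) (hcon k)
        omega
      have h6 := hW.simp k p hp (hsim k)
      have h7 := ih _ h6 (by
        show ∑ i, (p.2 - (p.2 ⬝ᵥ B k) • (Pi.single k (1 : ℤ) : Fin r → ℤ)) i ≤ (n : ℤ)
        have h8 : ∑ i, (p.2 - (p.2 ⬝ᵥ B k) • (Pi.single k (1 : ℤ) : Fin r → ℤ)) i =
            ∑ i, p.2 i - p.2 ⬝ᵥ B k := by
          simp [Finset.sum_sub_distrib, Pi.single_apply]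
        rw [h8]
        push_cast at hs
        omega)
      have h9 : rf (B k, Pi.single k (1 : ℤ)) ∈
          Submonoid.closure {w | ∃ i, w = rf (B i, Pi.single i (1 : ℤ))} :=
        Submonoid.subset_closure ⟨k, rfl⟩
      have h10 := rf_conj (B k) (Pi.single k (1 : ℤ)) p.1 p.2 (hW.sq _ (hI.base k))
      have h11 : (Pi.single k (1 : ℤ) : Fin r → ℤ) ⬝ᵥ p.1 = p.1 k := by simp
      rw [h11] at h10
      have h12 : rf p = rf (p.1, p.2) := rfl
      rw [h12, ← h10]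
      exact Submonoid.mul_mem _ (Submonoid.mul_mem _ h9 h7) h9

end GENS

theorem t_GENS : S_GENS := by
  intro r Φ B hI hW
  refine le_antisymm ?_ ?_
  · unfold WM
    rw [Submonoid.closure_le]
    rintro w ⟨p, hp, rfl⟩
    by_cases h : p ∈ pos Φ
    · exact GENS.pos_mem hI hW (∑ i, p.2 i).toNat p h (Int.self_le_toNat _)
    · have h1 : (-p.1, -p.2) ∈ pos Φ := by
        by_contra hcon
        exact h ((hW.dich p hp).2 hcon)
      rw [← GENS.rf_neg]
      exact GENS.pos_mem hI hW (∑ i, (-p.2) i).toNat _ h1 (Int.self_le_toNat _)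
  · unfold WM
    rw [Submonoid.closure_le]
    rintro w ⟨i, rfl⟩
    exact Submonoid.subset_closure ⟨_, hI.base i, rfl⟩

end

end LGR
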