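import Pool.Agent.LGR.StE
import Pool.Agent.STZ.GSUY

/-!
# LGR, module GSUV: the sum over the tuples of cutoffs in rank two
-/

set_option autoImplicit false

namespace LGR

open STZ MeasureTheory Matrix Filter

open scoped ComplexConjugate Matrix Real Topology

noncomputable section

open STZ.GSUY in
/-- GSUV. -/
theorem t_GSUV : M_GSUV := by
  intro hW hJ ι _ _ r c p C hr hc hC hq hp1 hp2
  set q : ℕ := Fintype.card ι with hqdef
  have hr0 : (0 : ℝ) < r := by
    have : 0 < r := by omega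
    exact_mod_cast this
  have hr2 : (r : ℝ) = 2 := by exact_mod_cast hr
  have hq1 : (1 : ℝ) ≤ q := by exact_mod_cast hq
  have hq0 : (0 : ℝ) < q := by linarith
  have hd0 : (0 : ℝ) < 2 * (q : ℝ) + r := by linarith
  set κ : ℝ := p / 2 - 1 with hκ
  have hκ1 : 1 < κ := by rw [hκ]; linarith
  have hκ2 : κ < 4 / 3 := by rw [hκ]; linarith
  have hκ0 : 0 < κ := by linarith
  have hp0 : 0 < p := by linarith
  set a : ℝ := κ * r / 2 with ha
  have haκ : a = κ := by rw [ha, hr2]; ring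
  have ha0 : 0 < a := by rw [haκ]; exact hκ0
  set ε : ℝ := (κ * (q + 1) - 2) / 2 with hε
  have hε0 : 0 < ε := by
    rw [hε]
    nlinarith
  obtain ⟨C1, hC1, hI⟩ := hJ c a ε hc (by rw [haκ]; exact hκ1) (by rw [haκ]; exact hκ2) hε0
  set γ : ℝ := 2 - a + ε with hγ
  have hγ0 : 0 < γ := by rw [hγ, haκ]; linarith
  set δ : ℝ := κ - γ / q with hδ
  have hδ0 : 0 < δ := by
    rw [hδ, sub_pos, div_lt_iff₀ hq0, hγ, haκ, hε]
    nlinarith
  set E : ℝ := (2 * (q : ℝ) + r) * κ - 2 with hE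
  set K1 : ℝ := C ^ κ * C * (C1 + 1) with hK1
  have hK1' : 0 ≤ K1 := by
    have : 0 ≤ C ^ κ := Real.rpow_nonneg hC _
    positivity
  have h2 : (0 : ℝ) < 2 := two_pos
  set s : ℝ := 2 / p * δ with hs
  have hs0 : 0 < s := by positivity
  refine ⟨K1 ^ (2 / p) * ((1 - (2 : ℝ) ^ (-s))⁻¹) ^ q, ?_, fun J b hb => ?_⟩
  · have h3 : (2 : ℝ) ^ (-s) < 1 := Real.rpow_lt_one_of_one_lt_of_neg one_lt_two (neg_neg_of_pos hs0)
    have h4 : 0 ≤ (1 - (2 : ℝ) ^ (-s))⁻¹ := inv_nonneg.2 (by linarith)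
    exact mul_nonneg (Real.rpow_nonneg hK1' _) (pow_nonneg h4 _)
  set Y : (ι → Fin (J + 1)) → ℝ := fun x => ∑ j, ((J - (x j).val : ℕ) : ℝ) with hY
  refine ⟨fun x => K1 * (2 : ℝ) ^ (E * J - δ * Y x), fun x => ?_, fun x => ?_, ?_⟩
  · -- the integral
    set X : Fin r → ℕ := fun i => (x (b x i)).val with hX
    have hXJ : ∀ i, X i ≤ J := fun i => Nat.lt_succ_iff.1 (x (b x i)).2
    set N : ℕ := 2 ^ J with hN
    have hWp : ∀ (k : ℕ) (t : ℝ), 0 < WW (2 ^ k) c t := by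
      intro k t
      have := hW.ge (2 ^ k) c t
      have h3 : (0 : ℝ) < ((2 ^ k : ℕ) : ℝ) := by positivity
      linarith
    set d : Fin r → ℝ := fun i => (C1 + 1) * (2 : ℝ) ^ ((2 * a - 2) * J + r * X i + γ * (J - X i))
      with hd
    have hd0 : ∀ i, 0 < d i := fun i => by
      have := Real.rpow_pos_of_pos h2 ((2 * a - 2) * J + r * X i + γ * (J - X i))
      simp only [hd]
      positivity
    have hint : ∀ i, ∫ t in (0 : ℝ)..1, WW N c t ^ a * WW (2 ^ X i) c t ^ ((r : ℝ) / 2) ≤ d i := by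
      intro i
      have e0 : (r : ℝ) / 2 = 1 := by rw [hr2]; norm_num
      rw [e0]
      simp_rw [Real.rpow_one]
      refine (hI N (2 ^ X i) Nat.one_le_two_pow (Nat.pow_le_pow_right (by norm_num) (hXJ i))).trans ?_
      rw [hN, two_pow, two_pow, ← Real.rpow_mul h2.le, ← Real.rpow_mul h2.le, ← Real.rpow_sub h2,
        ← Real.rpow_mul h2.le, ← Real.rpow_add h2, ← Real.rpow_add h2]
      have e : (J : ℝ) * (2 * a - 2) + (X i : ℝ) * 2 + ((J : ℝ) - X i) * (2 - a + ε) =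
          (2 * a - 2) * J + r * X i + γ * (J - X i) := by rw [hγ, hr2]; ring
      rw [e]
      simp only [hd]
      exact mul_le_mul_of_nonneg_right (by linarith) (Real.rpow_nonneg h2.le _)
    set T : ℝ → ℝ := fun t => ∑ i, (1 : ℝ) / r * (WW N c t ^ a * WW (2 ^ X i) c t ^ ((r : ℝ) / 2) / d i)
      with hT
    have hcg : ∀ i, Continuous fun t : ℝ => WW N c t ^ a * WW (2 ^ X i) c t ^ ((r : ℝ) / 2) := by
      intro i
      refine ((hW.cont N c).rpow_const fun t => Or.inl (hWp J t).ne').mul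
        ((hW.cont (2 ^ X i) c).rpow_const fun t => Or.inl (hWp (X i) t).ne')
    have hTc : Continuous T := by
      refine continuous_finsetSum _ fun i _ => ?_
      exact continuous_const.mul ((hcg i).div_const _)
    have hT1 : ∫ t in (0 : ℝ)..1, T t ≤ 1 := by
      have hi : ∀ i ∈ Finset.univ, IntervalIntegrable (fun t => (1 : ℝ) / r *
          (WW N c t ^ a * WW (2 ^ X i) c t ^ ((r : ℝ) / 2) / d i)) volume 0 1 := fun i _ =>
        (continuous_const.mul ((hcg i).div_const _)).intervalIntegrable _ _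
      simp only [hT]
      rw [intervalIntegral.integral_finsetSum hi]
      have h3 : ∀ i ∈ Finset.univ, ∫ t in (0 : ℝ)..1, (1 : ℝ) / r *
          (WW N c t ^ a * WW (2 ^ X i) c t ^ ((r : ℝ) / 2) / d i) ≤ 1 / r := by
        intro i _
        rw [intervalIntegral.integral_const_mul, intervalIntegral.integral_div]
        have h4 := (div_le_one (hd0 i)).2 (hint i)
        have h5 : (0 : ℝ) ≤ 1 / r := by positivity
        nlinarith
      refine (Finset.sum_le_sum h3).trans ?_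
      rw [Finset.sum_const, Finset.card_univ, Fintype.card_fin, nsmul_eq_mul]
      exact (mul_one_div_cancel hr0.ne').le
    -- the constant
    set K : ℝ := C ^ κ * C * (2 : ℝ) ^ (κ * (q * J + ∑ j, ((x j).val : ℝ)) - ∑ i, (X i : ℝ)) *
      ∏ i, d i ^ ((1 : ℝ) / r) with hK
    have hK0 : 0 ≤ K := by
      have h3 : 0 ≤ C ^ κ := Real.rpow_nonneg hC _
      have h4 : 0 ≤ ∏ i, d i ^ ((1 : ℝ) / r) :=
        Finset.prod_nonneg fun i _ => Real.rpow_nonneg (hd0 i).le _
      have h5 := Real.rpow_nonneg h2.le (κ * (q * J + ∑ j, ((x j).val : ℝ)) - ∑ i, (X i : ℝ))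
      positivity
    have hpt : ∀ t : ℝ, (C * (((2 ^ J : ℕ) : ℝ) ^ q * WW (2 ^ J) c t ^ ((r : ℝ) / 2) *
          ∏ j, (2 : ℝ) ^ (x j).val)) ^ κ *
        (C * ∏ i, (WW (2 ^ (x (b x i)).val) c t ^ ((1 : ℝ) / 2) / 2 ^ (x (b x i)).val)) ≤ K * T t := by
      intro t
      have hW0 := hWp J t
      have e1 : ∏ j, (2 : ℝ) ^ (x j).val = (2 : ℝ) ^ (∑ j, ((x j).val : ℝ)) := by
        rw [Real.rpow_sum_of_pos h2]
        exact Finset.prod_congr rfl fun j _ => two_pow' _
      have e2 : ((2 ^ J : ℕ) : ℝ) ^ q = (2 : ℝ) ^ ((q : ℝ) * J) := by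
        rw [two_pow, ← Real.rpow_natCast, ← Real.rpow_mul h2.le, mul_comm]
      have e3 : ∏ i, (WW (2 ^ (x (b x i)).val) c t ^ ((1 : ℝ) / 2) / 2 ^ (x (b x i)).val) =
          (∏ i, WW (2 ^ X i) c t ^ ((1 : ℝ) / 2)) * (2 : ℝ) ^ (-∑ i, (X i : ℝ)) := by
        rw [Finset.prod_div_distrib, Real.rpow_neg h2.le, Real.rpow_sum_of_pos h2, div_eq_mul_inv]
        congr 2
        exact Finset.prod_congr rfl fun i _ => two_pow' _
      have e4 : (C * (((2 ^ J : ℕ) : ℝ) ^ q * WW (2 ^ J) c t ^ ((r : ℝ) / 2) *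
          ∏ j, (2 : ℝ) ^ (x j).val)) ^ κ =
          C ^ κ * (2 : ℝ) ^ (κ * (q * J + ∑ j, ((x j).val : ℝ))) * WW N c t ^ a := by
        rw [e1, e2, Real.mul_rpow hC (by positivity), Real.mul_rpow (by positivity) (by positivity),
          Real.mul_rpow (by positivity) (by positivity), ← Real.rpow_mul h2.le, ← Real.rpow_mul h2.le,
          ← Real.rpow_mul hW0.le]
        have e5 : κ * (q * J + ∑ j, ((x j).val : ℝ)) = q * J * κ + (∑ j, ((x j).val : ℝ)) * κ := by
          ring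
        have e6 : (r : ℝ) / 2 * κ = a := by rw [ha]; ring
        rw [e5, Real.rpow_add h2, e6]
        ring
      have e7 : WW N c t ^ a * ∏ i, WW (2 ^ X i) c t ^ ((1 : ℝ) / 2) =
          ∏ i, (WW N c t ^ a * WW (2 ^ X i) c t ^ ((r : ℝ) / 2)) ^ ((1 : ℝ) / r) := by
        have e8 : ∀ i : Fin r, (WW N c t ^ a * WW (2 ^ X i) c t ^ ((r : ℝ) / 2)) ^ ((1 : ℝ) / r) =
            WW N c t ^ (a / r) * WW (2 ^ X i) c t ^ ((1 : ℝ) / 2) := by
          intro i
          rw [Real.mul_rpow (Real.rpow_nonneg hW0.le _) (Real.rpow_nonneg (hWp _ t).le _),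
            ← Real.rpow_mul hW0.le, ← Real.rpow_mul (hWp _ t).le]
          congr 2
          · ring
          · field_simp
        rw [Finset.prod_congr rfl fun i _ => e8 i, Finset.prod_mul_distrib, Finset.prod_const,
          Finset.card_univ, Fintype.card_fin, ← Real.rpow_natCast, ← Real.rpow_mul hW0.le,
          div_mul_cancel₀ _ hr0.ne']
      have e9 := mean (show 0 < r by omega)
        (fun i => WW N c t ^ a * WW (2 ^ X i) c t ^ ((r : ℝ) / 2)) d
        (fun i => mul_nonneg (Real.rpow_nonneg hW0.le _) (Real.rpow_nonneg (hWp _ t).le _)) hd0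
      rw [← e7] at e9
      rw [e3, e4]
      have e10 : (2 : ℝ) ^ (κ * (q * J + ∑ j, ((x j).val : ℝ)) - ∑ i, (X i : ℝ)) =
          (2 : ℝ) ^ (κ * (q * J + ∑ j, ((x j).val : ℝ))) * (2 : ℝ) ^ (-∑ i, (X i : ℝ)) := by
        rw [sub_eq_add_neg, Real.rpow_add h2]
      have hc0 : 0 ≤ C ^ κ * C * (2 : ℝ) ^ (κ * (q * J + ∑ j, ((x j).val : ℝ)) - ∑ i, (X i : ℝ)) := by
        have h3 : 0 ≤ C ^ κ := Real.rpow_nonneg hC _
        positivity
      calc C ^ κ * (2 : ℝ) ^ (κ * (q * J + ∑ j, ((x j).val : ℝ))) * WW N c t ^ a *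
            (C * ((∏ i, WW (2 ^ X i) c t ^ ((1 : ℝ) / 2)) * (2 : ℝ) ^ (-∑ i, (X i : ℝ))))
          = C ^ κ * C * (2 : ℝ) ^ (κ * (q * J + ∑ j, ((x j).val : ℝ)) - ∑ i, (X i : ℝ)) *
            (WW N c t ^ a * ∏ i, WW (2 ^ X i) c t ^ ((1 : ℝ) / 2)) := by
            rw [e10]
            ring
        _ ≤ C ^ κ * C * (2 : ℝ) ^ (κ * (q * J + ∑ j, ((x j).val : ℝ)) - ∑ i, (X i : ℝ)) *
            ((∏ i, d i ^ ((1 : ℝ) / r)) * T t) := mul_le_mul_of_nonneg_left e9 hc0
        _ = K * T t := by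
            rw [hK]
            ring
    have hcI : Continuous fun t : ℝ => (C * (((2 ^ J : ℕ) : ℝ) ^ q * WW (2 ^ J) c t ^ ((r : ℝ) / 2) *
          ∏ j, (2 : ℝ) ^ (x j).val)) ^ κ *
        (C * ∏ i, (WW (2 ^ (x (b x i)).val) c t ^ ((1 : ℝ) / 2) / 2 ^ (x (b x i)).val)) := by
      refine Continuous.mul (Continuous.rpow_const ?_ fun t => Or.inr hκ0.le)
        (continuous_const.mul (continuous_finsetProd _ fun i _ => ?_))
      · exact continuous_const.mul ((continuous_const.mul ((hW.cont _ c).rpow_const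
          fun t => Or.inl (hWp J t).ne')).mul continuous_const)
      · exact ((hW.cont _ c).rpow_const fun t => Or.inl (hWp _ t).ne').div_const _
    have h6 : ∫ t in (0 : ℝ)..1, (C * (((2 ^ J : ℕ) : ℝ) ^ q * WW (2 ^ J) c t ^ ((r : ℝ) / 2) *
          ∏ j, (2 : ℝ) ^ (x j).val)) ^ κ *
        (C * ∏ i, (WW (2 ^ (x (b x i)).val) c t ^ ((1 : ℝ) / 2) / 2 ^ (x (b x i)).val)) ≤
        ∫ t in (0 : ℝ)..1, K * T t :=
      intervalIntegral.integral_mono_on zero_le_one (hcI.intervalIntegrable _ _)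
        ((continuous_const.mul hTc).intervalIntegrable _ _) fun t _ => hpt t
    refine h6.trans ?_
    rw [intervalIntegral.integral_const_mul]
    refine (mul_le_of_le_one_right hK0 hT1).trans ?_
    -- the comparison of the constants
    have e11 : ∏ i, d i ^ ((1 : ℝ) / r) = (C1 + 1) *
        (2 : ℝ) ^ ((2 * a - 2) * J + ∑ i, (X i : ℝ) + γ / r * ∑ i, ((J - X i : ℕ) : ℝ)) := by
      have e12 : ∀ i, d i ^ ((1 : ℝ) / r) = (C1 + 1) ^ ((1 : ℝ) / r) *
          (2 : ℝ) ^ ((2 * a - 2) * J / r + X i + γ / r * ((J - X i : ℕ) : ℝ)) := by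
        intro i
        simp only [hd]
        rw [Real.mul_rpow (by linarith) (Real.rpow_nonneg h2.le _), ← Real.rpow_mul h2.le]
        congr 2
        rw [Nat.cast_sub (hXJ i)]
        field_simp
      rw [Finset.prod_congr rfl fun i _ => e12 i, Finset.prod_mul_distrib, Finset.prod_const,
        Finset.card_univ, Fintype.card_fin, ← Real.rpow_natCast, ← Real.rpow_mul (by linarith),
        one_div_mul_cancel hr0.ne', Real.rpow_one, ← Real.rpow_sum_of_pos h2]
      congr 2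
      rw [Finset.sum_add_distrib, Finset.sum_add_distrib, Finset.sum_const, Finset.card_univ,
        Fintype.card_fin, nsmul_eq_mul, ← Finset.mul_sum]
      congr 2
      field_simp
    rw [hK, e11, hK1]
    have gen : ∀ k l u v : ℝ, k * (2 : ℝ) ^ u * (l * (2 : ℝ) ^ v) = k * l * (2 : ℝ) ^ (u + v) := by
      intro k l u v
      rw [Real.rpow_add h2]
      ring
    rw [gen]
    refine mul_le_mul_of_nonneg_left ?_ (by rw [hK1] at hK1'; exact hK1')
    refine Real.rpow_le_rpow_of_exponent_le one_le_two ?_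
    have e14 : ∑ j, ((x j).val : ℝ) = q * J - Y x := by
      simp only [hY]
      have e15 : ∀ j, ((J - (x j).val : ℕ) : ℝ) = J - (x j).val := fun j =>
        Nat.cast_sub (Nat.lt_succ_iff.1 (x j).2)
      rw [Finset.sum_congr rfl fun j _ => e15 j, Finset.sum_sub_distrib, Finset.sum_const,
        Finset.card_univ, nsmul_eq_mul]
      ring
    have e16 : (q : ℝ) * ∑ i, ((J - X i : ℕ) : ℝ) ≤ r * Y x := by
      have := hb x
      simp only [hY, hX]
      exact_mod_cast this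
    have e17 : γ / r * ∑ i, ((J - X i : ℕ) : ℝ) ≤ γ / q * Y x := by
      rw [div_mul_eq_mul_div, div_mul_eq_mul_div, div_le_div_iff₀ hr0 hq0]
      nlinarith
    rw [e14, hE, hδ, ha]
    nlinarith [e17]
  · exact mul_nonneg hK1' (Real.rpow_nonneg h2.le _)
  · have h3 : ∀ x : ι → Fin (J + 1), (K1 * (2 : ℝ) ^ (E * J - δ * Y x)) ^ (2 / p) =
        K1 ^ (2 / p) * (2 : ℝ) ^ (E * J * (2 / p)) *
          (2 : ℝ) ^ (-(s * ∑ j, ((J - (x j).val : ℕ) : ℝ))) := by
      intro x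
      have e19 : (E * J - δ * Y x) * (2 / p) =
          E * J * (2 / p) + -(s * ∑ j, ((J - (x j).val : ℕ) : ℝ)) := by
        simp only [hY, hs]
        ring
      rw [Real.mul_rpow hK1' (Real.rpow_nonneg h2.le _), ← Real.rpow_mul h2.le, e19,
        Real.rpow_add h2]
      ring
    rw [Finset.sum_congr rfl fun x _ => h3 x, ← Finset.mul_sum]
    have h4 := tuples ι J s hs0
    rw [two_pow, ← Real.rpow_mul h2.le]
    have e18 : (J : ℝ) * (((2 * (q : ℝ) + r) * κ - 2) * (2 / p)) = E * J * (2 / p) := by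
      rw [hE]; ring
    rw [e18]
    calc K1 ^ (2 / p) * (2 : ℝ) ^ (E * J * (2 / p)) *
          ∑ x : ι → Fin (J + 1), (2 : ℝ) ^ (-(s * ∑ j, ((J - (x j).val : ℕ) : ℝ)))
        ≤ K1 ^ (2 / p) * (2 : ℝ) ^ (E * J * (2 / p)) * ((1 - (2 : ℝ) ^ (-s))⁻¹) ^ Fintype.card ι :=
          mul_le_mul_of_nonneg_left h4 (mul_nonneg (Real.rpow_nonneg hK1' _)
            (Real.rpow_nonneg h2.le _))
      _ = K1 ^ (2 / p) * ((1 - (2 : ℝ) ^ (-s))⁻¹) ^ q * (2 : ℝ) ^ (E * J * (2 / p)) := by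
          rw [← hqdef]
          ring

end

end LGR
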