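import Pool.Agent.LGR.StR

/-!
# GXOF: the data `GX` of a closed connected subgroup with root data
-/

namespace LGR

open STZ MeasureTheory Matrix Filter

open scoped ComplexConjugate Matrix Real Topology

noncomputable section

namespace GXOF

lemma reg_wG {r : ℕ} (a : Fin r → ℕ) : Reg (wG a) := by
  intro i
  have h : (0 : ℤ) ≤ (a i : ℤ) := Int.natCast_nonneg _
  simp only [wG]
  omega

lemma ch_one {G : Type} [Group G] [TopologicalSpace G] {n : ℕ} (σ : Rep G (Fin n)) : σ.ch 1 = (n : ℂ) := by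
  simp [Rep.ch]

/-- the choice of the characters -/
lemma chi_ex {N : ℕ} {H : Subgroup (SU N)} {r : ℕ} {Φ : RT r}
    {Hc : Fin r → Matrix (Fin N) (Fin N) ℂ} {c k : ℝ} {d : ℕ}
    (h : ∀ l, Reg l → (∀ z : Fin r → ℝ, ta Hc z = 1 → eu (dz (l - 1) z) = 1) →
      ∃ (n : ℕ) (σ : Rep H (Fin n)), σ.Irr ∧ PRep σ ∧ HWR Φ Hc c k d σ l) :
    ∃ χ : IX Hc → H → ℂ, CHI Φ Hc c k d χ := by
  have h1 : ∀ a : IX Hc, ∃ (n : ℕ) (σ : Rep H (Fin n)), σ.Irr ∧ PRep σ ∧ HWR Φ Hc c k d σ (wG a.1) :=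
    fun a => h (wG a.1) (reg_wG a.1) a.2
  choose n σ h2 h3 h4 using h1
  exact ⟨fun a => (σ a).ch, fun a => ⟨n a, σ a, h2 a, h3 a, h4 a, fun g => rfl⟩⟩

end GXOF

theorem t_GXOF : M_GXOF := by
  intro hW hT hA hS hZ hC N H r Φ B Hc E c k d X hr hcl hcon hL hK hF
  obtain ⟨χ, hχ⟩ := GXOF.chi_ex (hS N H r Φ B Hc E c k d X hr hcl hcon hL hK hF)
  obtain ⟨hZ1, Z, hZn, hZt, hZd⟩ := hZ N H r Φ B Hc E hcl hL
  obtain ⟨hC1, hC2, hC3⟩ := hC N H r Φ B Hc E c k d X hr hcl hcon hL hK hF χ hχ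
  have hdim := (hA N H r Φ B Hc E c k d X hcl hL hK hF).1
  have hWF := hW r Φ B hL.ird
  refine ⟨χ, Z, ?_⟩
  refine
    { closed := hcl
      kpos := hK.kpos
      dimd := hdim
      frame := ⟨X, hF⟩
      inj := Subtype.val_injective
      irr := hC1
      tor := hC2
      zn := hZn
      ind := ?_
      zroot := ?_
      one := ?_
      cpl := fun μ _ _ => hC3 μ
      eig := ?_ }
  · intro l
    constructor
    · rintro ⟨i, rfl⟩ z hz
      exact i.2 z (hZt z hz)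
    · intro hl
      rcases hZd (wG l - 1) with h | h
      · exact absurd ⟨⟨l, h⟩, rfl⟩ hl
      · exact h
  · intro z hz p hp
    exact hZ1 z (hZt z hz) p (hWF.ppos p hp).1
  · intro i
    obtain ⟨n, σ, h1, h2, h3, h4⟩ := hχ i
    have h5 := h3.dim
    rw [← h4 1, GXOF.ch_one]
    exact h5
  · intro Y hY i
    obtain ⟨n, σ, h1, h2, h3, h4⟩ := hχ i
    have h5 := (h3.eig Y hY).2
    have h6 : σ.ch = χ i := funext h4
    rw [h6] at h5
    exact h5

end

end LGR
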