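import Pool.Agent.LGR.StW
import Pool.Agent.LGR.GXOF

/-!
# GXOC: the data `GX` of a closed connected subgroup with root data, for given characters
-/

set_option autoImplicit false

namespace LGR

open STZ MeasureTheory Matrix Filter

open scoped ComplexConjugate Matrix Real Topology

noncomputable section

/-- GXOC. -/
theorem t_GXOC : M_GXOC := by
  intro hW hT hA hS hZ hC N H r Φ B Hc E c k d X hr hcl hcon hL hK hF
  refine ⟨GXOF.chi_ex (hS N H r Φ B Hc E c k d X hr hcl hcon hL hK hF), fun χ hχ => ?_⟩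
  obtain ⟨hZ1, Z, hZn, hZt, hZd⟩ := hZ N H r Φ B Hc E hcl hL
  obtain ⟨hC1, hC2, hC3⟩ := hC N H r Φ B Hc E c k d X hr hcl hcon hL hK hF χ hχ
  have hdim := (hA N H r Φ B Hc E c k d X hcl hL hK hF).1
  have hWF := hW r Φ B hL.ird
  refine ⟨Z, ?_⟩
  refine
    { closed := hcl
      kpos := hK.kpos
      dimd := hdim
      frame := ⟨X, hF⟩
      inj := Subtype.val_injective
      irr := hC1
      tor := hC2
      zn := hZn
      ind := ?_
      zroot := ?_
      one := ?_
      cpl := fun μ _ _ => hC3 μ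
      eig := ?_ }
  · intro l
    constructor
    · rintro ⟨i, rfl⟩ z hz
      exact i.2 z (hZt z hz)
    · intro hl
      rcases hZd (wG l - 1) with h | h
      · exact absurd ⟨⟨l, h⟩, rfl⟩ hl
      · exact h
  · intro z hz p hp
    exact hZ1 z (hZt z hz) p (hWF.ppos p hp).1
  · intro i
    obtain ⟨n, σ, h1, h2, h3, h4⟩ := hχ i
    have h5 := h3.dim
    rw [← h4 1, GXOF.ch_one]
    exact h5
  · intro Y hY i
    obtain ⟨n, σ, h1, h2, h3, h4⟩ := hχ i
    have h5 := (h3.eig Y hY).2
    have h6 : σ.ch = χ i := funext h4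
    rw [h6] at h5
    exact h5

end

end LGR
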