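import Pool.Agent.LGR.StB
import Pool.Agent.STZ.HBDY

/-!
# HBDV: the bound for the pieces of the theta function times the polynomial
-/

namespace LGR

open STZ MeasureTheory Matrix

open scoped ComplexConjugate Matrix Real

noncomputable section

open STZ.HBDY in
theorem t_HBDV : M_HBDV := by
  intro hcauc hthby hhpry hfejb r D P hV κ hκ
  obtain ⟨C₁, hC₁, h1⟩ := hcauc r P
  obtain ⟨C₂, c, hC₂, hc, h2⟩ := hthby r D P hV (κ + 1) (by linarith)
  obtain ⟨C₃, h3⟩ := hhpry r D P hV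
  set S : ℝ := ∑ p ∈ P, ∑ i, |(p.1 i : ℝ)| with hS
  have hS0 : 0 ≤ S := Finset.sum_nonneg fun p _ => Finset.sum_nonneg fun i _ => abs_nonneg _
  have hSp : ∀ p : {p // p ∈ P}, ∑ i, |(p.1.1 i : ℝ)| ≤ S := fun p =>
    Finset.single_le_sum (f := fun p : (Fin r → ℤ) × (Fin r → ℤ) => ∑ i, |(p.1 i : ℝ)|)
      (fun p _ => Finset.sum_nonneg fun i _ => abs_nonneg _) p.2
  set κ' : ℝ := S * (κ + 1) with hκ'
  have hκ'0 : 0 ≤ κ' := mul_nonneg hS0 (by linarith)
  obtain ⟨C₄, hC₄, h4⟩ := hfejb κ' hκ'0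
  set C₅ : ℝ := C₄ * (1 + 2 * κ') with hC₅
  have hC₅0 : 0 ≤ C₅ := mul_nonneg hC₄ (by linarith)
  refine ⟨C₁ ^ P.card * (C₂ * C₅ ^ P.card), c, C₃, by positivity, hc, ?_⟩
  intro J K x t θ ζ₀ hK hζ₀
  have hWW : 0 ≤ WW (2 ^ J) c t := by
    unfold WW mn
    exact Finset.sum_nonneg fun _ _ => by positivity
  have hW : 0 ≤ WW (2 ^ J) c t ^ ((r : ℝ) / 2) := Real.rpow_nonneg hWW _
  have hM : ∀ p : {p // p ∈ P}, 0 ≤ mx J (x p).val (nd (dz p.1.1 θ)) := fun p => mx_nn _ _ _ (nd_nn _)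
  have hprod : 0 ≤ ∏ p : {p // p ∈ P}, mx J (x p).val (nd (dz p.1.1 θ)) :=
    Finset.prod_nonneg fun p _ => hM p
  have key := h1 (cb r K) (nk D P J x t) ζ₀ (1 / 2 ^ J)
    (C₂ * WW (2 ^ J) c t ^ ((r : ℝ) / 2) * (C₅ ^ P.card * ∏ p, mx J (x p).val (nd (dz p.1.1 θ))))
    (by positivity) (by positivity) (by
      intro ζ hζ
      have hζθ : ∀ i, ‖ζ i - θ i‖ ≤ (κ + 1) / 2 ^ J := by
        intro i
        have e1 : ζ i - θ i = (ζ i - ζ₀ i) + (ζ₀ i - θ i) := by ring
        rw [e1]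
        have e2 : (κ + 1) / (2 : ℝ) ^ J = 1 / 2 ^ J + κ / 2 ^ J := by ring
        rw [e2]
        exact (norm_add_le _ _).trans (add_le_add (hζ i) (hζ₀ i))
      have him : ∀ i, |(ζ i).im| ≤ (κ + 1) / 2 ^ J := by
        intro i
        have e1 : (ζ i - θ i).im = (ζ i).im := by simp
        have e2 := Complex.abs_im_le_norm (ζ i - θ i)
        rw [e1] at e2
        exact e2.trans (hζθ i)
      have hre : ∀ i, |(ζ i).re - θ i| ≤ (κ + 1) / 2 ^ J := by
        intro i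
        have e1 : (ζ i - θ i).re = (ζ i).re - θ i := by simp
        have e2 := Complex.abs_re_le_norm (ζ i - θ i)
        rw [e1] at e2
        exact e2.trans (hζθ i)
      have hsum : ∀ (p : {p // p ∈ P}) (y : Fin r → ℝ), (∀ i, |y i| ≤ (κ + 1) / 2 ^ J) →
          |∑ i, (p.1.1 i : ℝ) * y i| ≤ κ' / 2 ^ J := by
        intro p y hy
        refine (Finset.abs_sum_le_sum_abs _ _).trans ?_
        have e1 : ∑ i, |(p.1.1 i : ℝ) * y i| ≤ ∑ i, |(p.1.1 i : ℝ)| * ((κ + 1) / 2 ^ J) := by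
          refine Finset.sum_le_sum fun i _ => ?_
          rw [abs_mul]
          exact mul_le_mul_of_nonneg_left (hy i) (abs_nonneg _)
        rw [← Finset.sum_mul] at e1
        refine e1.trans ((mul_le_mul_of_nonneg_right (hSp p) (by positivity)).trans (le_of_eq ?_))
        rw [hκ']
        ring
      rw [h3 J K x t ζ hK, norm_mul, norm_prod]
      refine mul_le_mul (h2 J t ζ him) ?_ (Finset.prod_nonneg fun p _ => norm_nonneg _) (by positivity)
      have hfac : ∀ p ∈ (Finset.univ : Finset {p // p ∈ P}),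
          ‖PJ J (x p).val (∑ i, (p.1.1 i : ℂ) * ζ i)‖ ≤ C₅ * mx J (x p).val (nd (dz p.1.1 θ)) := by
        intro p _
        refine factor hκ'0 hC₄ h4 J (x p).val (Nat.lt_succ_iff.1 (x p).2) _ _ ?_ ?_
        · rw [im_sum]
          exact hsum p _ him
        · rw [re_sum]
          have e1 : ∑ i, (p.1.1 i : ℝ) * (ζ i).re - dz p.1.1 θ = ∑ i, (p.1.1 i : ℝ) * ((ζ i).re - θ i) := by
            unfold dz
            rw [← Finset.sum_sub_distrib]
            exact Finset.sum_congr rfl fun i _ => by ring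
          rw [e1]
          exact hsum p _ hre
      refine (Finset.prod_le_prod (fun p _ => norm_nonneg _) hfac).trans (le_of_eq ?_)
      rw [Finset.prod_mul_distrib, Finset.prod_const, Finset.card_univ, Fintype.card_coe])
  refine key.trans (le_of_eq ?_)
  have e1 : C₁ / (1 / (2 : ℝ) ^ J) = C₁ * 2 ^ J := by
    field_simp
  rw [e1, mul_pow]
  ring

end

end LGR
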