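import Pool.Agent.LGR.StW

/-!
# Module HEXI: the matrix coefficient of a highest weight vector

For every dominant weight of `H` there is a highest weight function: `f g = vᴴ σ(g) v`, `v` a unit highest weight vector of the irreducible representation `σ`.
-/

namespace LGR

open STZ MeasureTheory Matrix Filter

open scoped ComplexConjugate Matrix Real Topology

noncomputable section

namespace HEXI

lemma exH_val {N : ℕ} {H : Subgroup (SU N)} {X : Matrix (Fin N) (Fin N) ℂ} (hX : X ∈ lie H) (t : ℝ) :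
    (exH H X t).1 = ex X t := by
  unfold exH
  rw [dif_pos (hX.2 t)]

lemma ex_eq {N : ℕ} {X Y : Matrix (Fin N) (Fin N) ℂ} {s t : ℝ} (h : (s : ℂ) • X = (t : ℂ) • Y) :
    ex X s = ex Y t := by
  unfold ex
  by_cases hc : NormedSpace.exp ((s : ℂ) • X) ∈ Matrix.specialUnitaryGroup (Fin N) ℂ
  · have hc' : NormedSpace.exp ((t : ℂ) • Y) ∈ Matrix.specialUnitaryGroup (Fin N) ℂ := by
      rw [← h]
      exact hc
    rw [dif_pos hc, dif_pos hc']
    exact Subtype.ext (congrArg NormedSpace.exp h)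
  · have hc' : NormedSpace.exp ((t : ℂ) • Y) ∉ Matrix.specialUnitaryGroup (Fin N) ℂ := by
      rw [← h]
      exact hc
    rw [dif_neg hc, dif_neg hc']

lemma ta_ex {N r : ℕ} (Hc : Fin r → Matrix (Fin N) (Fin N) ℂ) (x : Fin r → ℝ) (s : ℝ) :
    ta Hc (fun j => s * x j / (2 * π)) = ex (hx Hc x) s := by
  unfold ta
  apply ex_eq
  unfold hx
  rw [Complex.ofReal_one, one_smul, Finset.smul_sum]
  refine Finset.sum_congr rfl fun j _ => ?_
  rw [smul_smul]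
  congr 1
  have hpi : (π : ℂ) ≠ 0 := by exact_mod_cast Real.pi_ne_zero
  push_cast
  field_simp

/-- the matrix coefficient -/
def co {N : ℕ} {H : Subgroup (SU N)} {n : ℕ} (σ : Rep H (Fin n)) (v : Fin n → ℂ) (g : H) : ℂ :=
  star v ⬝ᵥ (σ.ρ g *ᵥ v)

lemma co_eq {N : ℕ} {H : Subgroup (SU N)} {n : ℕ} (σ : Rep H (Fin n)) (v : Fin n → ℂ) (g : H) :
    co σ v g = ∑ i, ∑ j, (conj (v i) * v j) * σ.ρ g i j := by
  unfold co
  simp only [dotProduct, mulVec, Finset.mul_sum, Pi.star_apply]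
  refine Finset.sum_congr rfl fun i _ => Finset.sum_congr rfl fun j _ => ?_
  rw [show star (v i) = conj (v i) from rfl]
  ring

lemma co_mem {N : ℕ} {H : Subgroup (SU N)} {n : ℕ} (σ : Rep H (Fin n)) (hσ : PRep σ) (v : Fin n → ℂ) :
    co σ v ∈ PF H := by
  have h : co σ v = ∑ i, ∑ j, (conj (v i) * v j) • (fun g : H => σ.ρ g i j) := by
    funext g
    rw [co_eq]
    simp only [Finset.sum_apply, Pi.smul_apply, smul_eq_mul]
  rw [h]
  exact Subalgebra.sum_mem _ fun i _ => Subalgebra.sum_mem _ fun j _ => Subalgebra.smul_mem _ (hσ i j) _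

lemma dH_co {N : ℕ} {H : Subgroup (SU N)} (hP : PFF H) {n : ℕ} (σ : Rep H (Fin n)) (hσ : PRep σ) (hD : DRF σ)
    (v : Fin n → ℂ) (X : Matrix (Fin N) (Fin N) ℂ) (hX : X ∈ lie H) (g : H) :
    dH X (co σ v) g = star v ⬝ᵥ ((σ.ρ g * dr σ X) *ᵥ v) := by
  have h1 : ∀ i j, HasDerivAt (fun t : ℝ => σ.ρ (g * exH H X t) i j) ((σ.ρ g * dr σ X) i j) 0 := by
    intro i j
    have h2 : DifferentiableAt ℝ (fun t : ℝ => σ.ρ (g * exH H X t) i j) 0 := ((hP.c2 _ (hσ i j)).1).diff X hX g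
    have h3 := h2.hasDerivAt
    have h4 : deriv (fun t : ℝ => σ.ρ (g * exH H X t) i j) 0 = (σ.ρ g * dr σ X) i j := hD.d X hX g i j
    rw [h4] at h3
    exact h3
  have h5 : HasDerivAt (fun t : ℝ => co σ v (g * exH H X t))
      (∑ i, ∑ j, (conj (v i) * v j) * (σ.ρ g * dr σ X) i j) 0 := by
    have h6 : HasDerivAt (fun t : ℝ => ∑ i, ∑ j, (conj (v i) * v j) * σ.ρ (g * exH H X t) i j)
        (∑ i, ∑ j, (conj (v i) * v j) * (σ.ρ g * dr σ X) i j) 0 := by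
      refine HasDerivAt.fun_sum fun i _ => HasDerivAt.fun_sum fun j _ => ?_
      exact (h1 i j).const_mul _
    have h7 : (fun t : ℝ => co σ v (g * exH H X t)) =
        fun t : ℝ => ∑ i, ∑ j, (conj (v i) * v j) * σ.ρ (g * exH H X t) i j := by
      funext t
      exact co_eq σ v _
    rw [h7]
    exact h6
  have h8 : dH X (co σ v) g = ∑ i, ∑ j, (conj (v i) * v j) * (σ.ρ g * dr σ X) i j := h5.deriv
  rw [h8]
  simp only [dotProduct, mulVec, Finset.mul_sum, Pi.star_apply]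
  refine Finset.sum_congr rfl fun i _ => Finset.sum_congr rfl fun j _ => ?_
  rw [show star (v i) = conj (v i) from rfl]
  ring

lemma unit_left {N : ℕ} {H : Subgroup (SU N)} {n : ℕ} (σ : Rep H (Fin n)) (g : H) : (σ.ρ g)ᴴ * σ.ρ g = 1 := by
  rw [← σ.unit, ← map_mul, inv_mul_cancel, map_one]

lemma unit_right {N : ℕ} {H : Subgroup (SU N)} {n : ℕ} (σ : Rep H (Fin n)) (g : H) : σ.ρ g * (σ.ρ g)ᴴ = 1 := by
  rw [← σ.unit, ← map_mul, mul_inv_cancel, map_one]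

lemma nsq_eq {n : ℕ} (v : Fin n → ℂ) : star v ⬝ᵥ v = ((∑ i, ‖v i‖ ^ 2 : ℝ) : ℂ) := by
  simp only [dotProduct, Pi.star_apply]
  push_cast
  refine Finset.sum_congr rfl fun i _ => ?_
  rw [show star (v i) = conj (v i) from rfl, Complex.conj_mul']

lemma co_le {N : ℕ} {H : Subgroup (SU N)} {n : ℕ} (σ : Rep H (Fin n)) (v : Fin n → ℂ) (hv : star v ⬝ᵥ v = 1)
    (g : H) : ‖co σ v g‖ ≤ 1 := by
  have h1 : star (σ.ρ g *ᵥ v) ⬝ᵥ (σ.ρ g *ᵥ v) = 1 := by
    rw [star_mulVec, ← dotProduct_mulVec, mulVec_mulVec, unit_left, one_mulVec, hv]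
  rw [nsq_eq] at hv h1
  have hv' : ∑ i, ‖v i‖ ^ 2 = 1 := by exact_mod_cast hv
  have h1' : ∑ i, ‖(σ.ρ g *ᵥ v) i‖ ^ 2 = 1 := by exact_mod_cast h1
  unfold co
  simp only [dotProduct, Pi.star_apply]
  calc ‖∑ i, star (v i) * (σ.ρ g *ᵥ v) i‖ ≤ ∑ i, ‖star (v i) * (σ.ρ g *ᵥ v) i‖ := norm_sum_le _ _
    _ ≤ ∑ i, (‖v i‖ ^ 2 + ‖(σ.ρ g *ᵥ v) i‖ ^ 2) / 2 := by
        refine Finset.sum_le_sum fun i _ => ?_
        rw [norm_mul, norm_star]
        nlinarith [sq_nonneg (‖v i‖ - ‖(σ.ρ g *ᵥ v) i‖)]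
    _ = 1 := by
        rw [← Finset.sum_div, Finset.sum_add_distrib, hv', h1']
        norm_num

lemma eu_conj (x : ℝ) : conj (eu x) * eu x = 1 := by
  unfold eu
  rw [← Complex.exp_conj, ← Complex.exp_add]
  rw [show conj (2 * (π : ℂ) * (x : ℂ) * Complex.I) + 2 * π * x * Complex.I = 0 by
    rw [map_mul, map_mul, map_mul, Complex.conj_ofReal, Complex.conj_ofReal, Complex.conj_I]
    rw [show conj (2 : ℂ) = 2 by exact map_ofNat _ 2]
    ring]
  exact Complex.exp_zero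

lemma eu_add (x y : ℝ) : eu (x + y) = eu x * eu y := by
  unfold eu
  rw [← Complex.exp_add]
  congr 1
  push_cast
  ring

/-- a weight vector for the torus -/
def WV {N : ℕ} {H : Subgroup (SU N)} {r : ℕ} (Hc : Fin r → Matrix (Fin N) (Fin N) ℂ) {n : ℕ} (σ : Rep H (Fin n))
    (ν : Fin r → ℤ) (v : Fin n → ℂ) : Prop :=
  ∀ (t : H) (θ : Fin r → ℝ), t.1 = ta Hc θ → σ.ρ t *ᵥ v = eu (dz ν θ) • v

lemma co_rt {N : ℕ} {H : Subgroup (SU N)} {r : ℕ} {Hc : Fin r → Matrix (Fin N) (Fin N) ℂ} {n : ℕ} {σ : Rep H (Fin n)}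
    {ν : Fin r → ℤ} {v : Fin n → ℂ} (hv : WV Hc σ ν v) (t g : H) (θ : Fin r → ℝ) (ht : t.1 = ta Hc θ) :
    co σ v (g * t) = eu (dz ν θ) * co σ v g := by
  unfold co
  rw [map_mul, ← mulVec_mulVec, hv t θ ht, mulVec_smul, dotProduct_smul, smul_eq_mul]

lemma co_lt {N : ℕ} {H : Subgroup (SU N)} {r : ℕ} {Hc : Fin r → Matrix (Fin N) (Fin N) ℂ} {n : ℕ} {σ : Rep H (Fin n)}
    {ν : Fin r → ℤ} {v : Fin n → ℂ} (hv : WV Hc σ ν v) (t g : H) (θ : Fin r → ℝ) (ht : t.1 = ta Hc θ) :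
    co σ v (t * g) = eu (dz ν θ) * co σ v g := by
  have h1 : σ.ρ t *ᵥ v = eu (dz ν θ) • v := hv t θ ht
  have h2 : (σ.ρ t)ᴴ *ᵥ v = conj (eu (dz ν θ)) • v := by
    have h3 : (σ.ρ t)ᴴ *ᵥ (σ.ρ t *ᵥ v) = v := by rw [mulVec_mulVec, unit_left, one_mulVec]
    rw [h1, mulVec_smul] at h3
    calc (σ.ρ t)ᴴ *ᵥ v = (conj (eu (dz ν θ)) * eu (dz ν θ)) • ((σ.ρ t)ᴴ *ᵥ v) := by rw [eu_conj, one_smul]
      _ = conj (eu (dz ν θ)) • (eu (dz ν θ) • ((σ.ρ t)ᴴ *ᵥ v)) := by rw [smul_smul]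
      _ = conj (eu (dz ν θ)) • v := by rw [h3]
  have h4 : star v ᵥ* σ.ρ t = eu (dz ν θ) • star v := by
    have h5 : star ((σ.ρ t)ᴴ *ᵥ v) = star v ᵥ* σ.ρ t := by rw [star_mulVec, conjTranspose_conjTranspose]
    rw [← h5, h2, star_smul]
    congr 1
    exact Complex.conj_conj _
  unfold co
  rw [map_mul, ← mulVec_mulVec, dotProduct_mulVec, h4, smul_dotProduct, smul_eq_mul]

lemma co_wt {N : ℕ} {H : Subgroup (SU N)} {r : ℕ} {Hc : Fin r → Matrix (Fin N) (Fin N) ℂ} {n : ℕ} {σ : Rep H (Fin n)}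
    {ν : Fin r → ℤ} {v : Fin n → ℂ} (hv : WV Hc σ ν v) (hm : ∀ x, hx Hc x ∈ lie H) (x : Fin r → ℝ) (g : H) :
    dH (hx Hc x) (co σ v) g = Complex.I * ((∑ j, (ν j : ℝ) * x j : ℝ) : ℂ) * co σ v g := by
  have h1 : (fun t : ℝ => co σ v (g * exH H (hx Hc x) t)) =
      fun t : ℝ => Complex.exp ((t : ℂ) * (Complex.I * ((∑ j, (ν j : ℝ) * x j : ℝ) : ℂ))) * co σ v g := by
    funext t
    rw [co_rt hv (exH H (hx Hc x) t) g (fun j => t * x j / (2 * π)) (by rw [exH_val (hm x), ta_ex])]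
    congr 1
    unfold eu dz
    congr 1
    have hpi : (π : ℂ) ≠ 0 := by exact_mod_cast Real.pi_ne_zero
    push_cast
    rw [Finset.mul_sum, Finset.sum_mul, Finset.mul_sum, Finset.mul_sum]
    refine Finset.sum_congr rfl fun j _ => ?_
    field_simp
  unfold dH
  rw [h1]
  have h2 : HasDerivAt (fun t : ℝ => Complex.exp ((t : ℂ) * (Complex.I * ((∑ j, (ν j : ℝ) * x j : ℝ) : ℂ))) * co σ v g)
      (Complex.exp (((0 : ℝ) : ℂ) * (Complex.I * ((∑ j, (ν j : ℝ) * x j : ℝ) : ℂ))) *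
        (1 * (Complex.I * ((∑ j, (ν j : ℝ) * x j : ℝ) : ℂ))) * co σ v g) 0 := by
    refine HasDerivAt.mul_const ?_ _
    refine HasDerivAt.cexp ?_
    refine HasDerivAt.mul_const ?_ _
    exact Complex.ofRealCLM.hasDerivAt
  rw [h2.deriv]
  simp

lemma dz_inj (hT : S_TPOL) {r : ℕ} (a b : Fin r → ℤ) (h : ∀ θ : Fin r → ℝ, eu (dz a θ) = eu (dz b θ)) : a = b := by
  by_contra hab
  have h1 := (hT r).2 {a, b} (fun μ => if μ = a then 1 else -1) (by
    intro θ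
    rw [Finset.sum_pair hab]
    rw [if_pos rfl, if_neg (Ne.symm hab), h θ]
    ring) a (by simp)
  simp at h1

/-- the differential of the root vector, times two -/
def Ad {N : ℕ} {H : Subgroup (SU N)} {n : ℕ} (σ : Rep H (Fin n)) (Y : Matrix (Fin N) (Fin N) ℂ) :
    Matrix (Fin n) (Fin n) ℂ := dr σ (Y - Yᴴ) - Complex.I • dr σ (Complex.I • (Y + Yᴴ))

lemma ad_eig {N : ℕ} {H : Subgroup (SU N)} {r : ℕ} {Φ : RT r} {Hc : Fin r → Matrix (Fin N) (Fin N) ℂ}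
    {E : (Fin r → ℤ) × (Fin r → ℤ) → Matrix (Fin N) (Fin N) ℂ} (hL : LIF H) (hA : TAF H Φ Hc E) {n : ℕ} {σ : Rep H (Fin n)} (hD : DRF σ)
    (p : (Fin r → ℤ) × (Fin r → ℤ)) (hp : p ∈ Φ)
    (h1 : E p - (E p)ᴴ ∈ lie H) (h2 : Complex.I • (E p + (E p)ᴴ) ∈ lie H)
    (t : H) (θ : Fin r → ℝ) (ht : t.1 = ta Hc θ) :
    σ.ρ t * Ad σ (E p) * (σ.ρ t)ᴴ = eu (dz p.1 θ) • Ad σ (E p) := by
  have ht' : t.1.1 = (ta Hc θ).1 := by rw [ht]
  have hE : t.1.1 * E p * t.1.1ᴴ = eu (dz p.1 θ) • E p := by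
    rw [ht']
    exact hA.Ade p hp θ
  have hE' : t.1.1 * (E p)ᴴ * t.1.1ᴴ = conj (eu (dz p.1 θ)) • (E p)ᴴ := by
    have h3 := congrArg conjTranspose hE
    rw [conjTranspose_mul, conjTranspose_mul, conjTranspose_conjTranspose, conjTranspose_smul, ← Matrix.mul_assoc] at h3
    exact h3
  have hd1 := hD.ad _ h1 t
  have hd2 := hD.ad _ h2 t
  obtain ⟨c, s, hcs, hcs'⟩ : ∃ c s : ℝ, eu (dz p.1 θ) = c + s * Complex.I ∧ conj (eu (dz p.1 θ)) = c - s * Complex.I := by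
    refine ⟨(eu (dz p.1 θ)).re, (eu (dz p.1 θ)).im, (Complex.re_add_im _).symm, ?_⟩
    apply Complex.ext <;> simp
  have e1 : t.1.1 * (E p - (E p)ᴴ) * t.1.1ᴴ = (c : ℂ) • (E p - (E p)ᴴ) + (s : ℂ) • (Complex.I • (E p + (E p)ᴴ)) := by
    rw [Matrix.mul_sub, Matrix.sub_mul, hE, hE', hcs', hcs]
    module
  have hII : Complex.I * Complex.I = -1 := Complex.I_mul_I
  have e2 : t.1.1 * (Complex.I • (E p + (E p)ᴴ)) * t.1.1ᴴ =
      (c : ℂ) • (Complex.I • (E p + (E p)ᴴ)) + ((-s : ℝ) : ℂ) • (E p - (E p)ᴴ) := by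
    rw [Matrix.mul_smul, Matrix.smul_mul, Matrix.mul_add, Matrix.add_mul, hE, hE', hcs', hcs]
    ext i j
    simp only [Matrix.smul_apply, Matrix.add_apply, Matrix.sub_apply, smul_eq_mul]
    push_cast
    linear_combination ((s : ℂ) * E p i j - (s : ℂ) * (E p)ᴴ i j) * hII
  rw [e1, hD.add _ (hL.smul c _ h1) _ (hL.smul s _ h2), hD.smul _ h1, hD.smul _ h2] at hd1
  rw [e2, hD.add _ (hL.smul c _ h2) _ (hL.smul (-s) _ h1), hD.smul _ h2, hD.smul _ h1] at hd2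
  unfold Ad
  rw [Matrix.mul_sub, Matrix.sub_mul, Matrix.mul_smul, Matrix.smul_mul, ← hd1, ← hd2, hcs]
  ext i j
  simp only [Matrix.smul_apply, Matrix.add_apply, Matrix.sub_apply, smul_eq_mul]
  push_cast
  linear_combination ((s : ℂ) * dr σ (Complex.I • (E p + (E p)ᴴ)) i j) * hII

lemma root_contra {r : ℕ} {Φ : RT r} {B : Matrix (Fin r) (Fin r) ℤ} (hI : IRD Φ B) (p : (Fin r → ℤ) × (Fin r → ℤ))
    (hp : p ∈ Φ) (n' n : Fin r → ℤ) (h1 : p.1 = ∑ i, n' i • B i) (hn' : ∀ i, 0 ≤ n' i) (hn : ∀ i, 0 ≤ n i)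
    (h2 : -p.1 = ∑ i, n i • B i) : False := by
  have h3 : ∑ i, (n' i + n i) • B i = 0 := by
    have h0 : ∑ i, (n' i + n i) • B i = ∑ i, n' i • B i + ∑ i, n i • B i := by
      rw [← Finset.sum_add_distrib]
      exact Finset.sum_congr rfl fun i _ => add_smul _ _ _
    rw [h0, ← h1, ← h2, add_neg_cancel]
  have h4 : (fun i => n' i + n i) ᵥ* B = 0 := by
    funext j
    have h5 := congrFun h3 j
    rw [Finset.sum_apply] at h5
    simp only [Pi.smul_apply, smul_eq_mul, Pi.zero_apply] at h5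
    exact h5
  have h6 : (fun i => n' i + n i) = 0 := Matrix.eq_zero_of_vecMul_eq_zero hI.det h4
  have h7 : ∀ i, n' i = 0 := by
    intro i
    have h8 : n' i + n i = 0 := congrFun h6 i
    have := hn i
    have := hn' i
    omega
  have h9 : p.1 = 0 := by
    rw [h1]
    exact Finset.sum_eq_zero fun i _ => by rw [h7 i, zero_smul]
  have h10 := hI.two p hp
  rw [h9, dotProduct_zero] at h10
  exact absurd h10 (by norm_num)

end HEXI

open HEXI in
theorem t_HEXI : M_HEXI := by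
  intro hCAL hLIE hWFA hPFF hDRE hTAU hTRE hTPO hSUR hHGT N H r Φ B Hc E c k d X hr hcl hcon hL hKC hF l hl hz
  have hP : PFF H := hPFF N H hcl
  have hT : TAF H Φ Hc E := hTAU N H r Φ B Hc E hcl hL
  have hW : WFF Φ B := hWFA r Φ B hL.ird
  obtain ⟨n, σ, hirr, hσ, hH⟩ := hSUR N H r Φ B Hc E c k d X hr hcl hcon hL hKC hF l hl hz
  have hD : DRF σ := hDRE N H n σ hcl hσ
  obtain ⟨U, μ, hU1, hU2, hU⟩ := hTRE N H r Φ B Hc E hcl hL n σ hσ
  -- the multiplicities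
  set m : (Fin r → ℤ) →₀ ℤ := ∑ k, Finsupp.single (μ k) 1 with hm
  have hmv : ∀ ν, m ν = ∑ k, if μ k = ν then (1 : ℤ) else 0 := by
    intro ν
    rw [hm, Finsupp.finsetSum_apply]
    exact Finset.sum_congr rfl fun k _ => Finsupp.single_apply
  have htp : ∀ θ, tp m θ = ∑ k, eu (dz (μ k) θ) := by
    intro θ
    have h1 : ∀ s : Finset (Fin n), tp (∑ k ∈ s, Finsupp.single (μ k) (1 : ℤ)) θ = ∑ k ∈ s, eu (dz (μ k) θ) := by
      intro s
      induction s using Finset.induction_on with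
      | empty => simp [tp]
      | insert a s ha ih =>
        rw [Finset.sum_insert ha, Finset.sum_insert ha, ← ih]
        unfold tp
        rw [Finsupp.sum_add_index' (by intro a; simp) (by intro a b c; push_cast; ring)]
        rw [Finsupp.sum_single_index (by simp)]
        simp
    exact h1 Finset.univ
  have hAT : ∀ θ, AT (rd Φ) 1 θ * tp m θ = AT (rd Φ) l θ := by
    intro θ
    have h1 := hH.wcf ⟨ta Hc θ, hT.mem θ⟩ θ rfl
    rw [htp]
    rw [← h1]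
    congr 1
    unfold Rep.ch
    rw [hU ⟨ta Hc θ, hT.mem θ⟩ θ rfl, Matrix.trace_mul_comm, ← Matrix.mul_assoc, hU2, Matrix.one_mul, Matrix.trace_diagonal]
  obtain ⟨hm1, hm2⟩ := hHGT r Φ B hL.ird hW l hl m hAT
  obtain ⟨k0, hk0⟩ : ∃ k0, μ k0 = l - 1 := by
    by_contra hno
    push Not at hno
    rw [hmv, Finset.sum_eq_zero (fun k _ => if_neg (hno k))] at hm1
    exact absurd hm1 (by norm_num)
  have hmpos : ∀ k, m (μ k) ≠ 0 := by
    intro k
    rw [hmv]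
    have h1 : (1 : ℤ) ≤ ∑ j, if μ j = μ k then (1 : ℤ) else 0 := by
      calc (1 : ℤ) = if μ k = μ k then (1 : ℤ) else 0 := by rw [if_pos rfl]
        _ ≤ ∑ j, if μ j = μ k then (1 : ℤ) else 0 :=
          Finset.single_le_sum (f := fun j => if μ j = μ k then (1 : ℤ) else 0)
            (fun j _ => by split_ifs <;> norm_num) (Finset.mem_univ k)
    omega
  -- the highest weight vector
  set v : Fin n → ℂ := fun i => U i k0 with hv
  have hUv : Uᴴ *ᵥ v = Pi.single k0 1 := by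
    have h1 : v = U *ᵥ Pi.single k0 1 := by
      rw [Matrix.mulVec_single_one]
      rfl
    rw [h1, mulVec_mulVec, hU2, one_mulVec]
  have hUv' : U *ᵥ Pi.single k0 1 = v := by
    rw [Matrix.mulVec_single_one]
    rfl
  have hvv : star v ⬝ᵥ v = 1 := by
    have h1 : star v ⬝ᵥ v = star (Uᴴ *ᵥ v) ⬝ᵥ (Uᴴ *ᵥ v) := by
      rw [star_mulVec, conjTranspose_conjTranspose, ← dotProduct_mulVec, mulVec_mulVec, hU1, one_mulVec]
    rw [h1, hUv]
    simp
  have hWV : WV Hc σ (l - 1) v := by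
    intro t θ ht
    rw [hU t θ ht, ← mulVec_mulVec, hUv, ← mulVec_mulVec]
    have h1 : Matrix.diagonal (fun k => eu (dz (μ k) θ)) *ᵥ (Pi.single k0 1 : Fin n → ℂ) =
        eu (dz (l - 1) θ) • (Pi.single k0 1 : Fin n → ℂ) := by
      funext i
      rw [mulVec_diagonal, Pi.smul_apply, smul_eq_mul]
      by_cases hi : i = k0
      · rw [hi, hk0]
      · rw [Pi.single_eq_of_ne hi, mul_zero, mul_zero]
    rw [h1, mulVec_smul, hUv']
  -- the root vectors annihilate the vector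
  have hann : ∀ p ∈ pos Φ, Ad σ (E p) *ᵥ v = 0 := by
    intro p hp
    obtain ⟨hpΦ, _, _, n', hn'1, hn'2⟩ := hW.ppos p hp
    have hem := hL.emem p hpΦ
    set w : Fin n → ℂ := Ad σ (E p) *ᵥ v with hw
    have h1 : ∀ (t : H) (θ : Fin r → ℝ), t.1 = ta Hc θ → σ.ρ t *ᵥ w = (eu (dz p.1 θ) * eu (dz (l - 1) θ)) • w := by
      intro t θ ht
      have h2 := ad_eig (hLIE N H hcl) hT hD p hpΦ hem.1 hem.2 t θ ht
      have h3 : σ.ρ t * Ad σ (E p) = eu (dz p.1 θ) • (Ad σ (E p) * σ.ρ t) := by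
        rw [← Matrix.smul_mul, ← h2, Matrix.mul_assoc, unit_left, Matrix.mul_one]
      rw [hw, mulVec_mulVec, h3, smul_mulVec, ← mulVec_mulVec, hWV t θ ht, mulVec_smul, smul_smul]
    have h4 : ∀ k, (Uᴴ *ᵥ w) k = 0 := by
      intro k
      by_contra hne
      have h5 : ∀ θ : Fin r → ℝ, eu (dz (μ k) θ) = eu (dz (p.1 + (l - 1)) θ) := by
        intro θ
        have h6 := h1 ⟨ta Hc θ, hT.mem θ⟩ θ rfl
        rw [hU ⟨ta Hc θ, hT.mem θ⟩ θ rfl] at h6
        have h7 := congrArg (fun z => (Uᴴ *ᵥ z) k) h6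
        simp only [mulVec_mulVec, mulVec_smul] at h7
        rw [← Matrix.mul_assoc, ← Matrix.mul_assoc, hU2, Matrix.one_mul, ← mulVec_mulVec, mulVec_diagonal,
          Pi.smul_apply, smul_eq_mul] at h7
        have h8 := mul_right_cancel₀ hne h7
        rw [h8, ← eu_add]
        congr 1
        unfold dz
        rw [← Finset.sum_add_distrib]
        refine Finset.sum_congr rfl fun j _ => ?_
        rw [Pi.add_apply]
        push_cast
        ring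
      have h9 := dz_inj hTPO _ _ h5
      obtain ⟨n2, hn2, hn2'⟩ := hm2 (μ k) (hmpos k)
      refine root_contra hL.ird p hpΦ n' n2 hn'1 hn'2 hn2 ?_
      rw [← hn2', h9]
      abel
    have h10 : w = U *ᵥ (Uᴴ *ᵥ w) := by rw [mulVec_mulVec, hU1, one_mulVec]
    have h11 : Uᴴ *ᵥ w = 0 := funext h4
    rw [h10, h11, mulVec_zero]
  refine ⟨co σ v, ⟨co_mem σ hσ v, fun x g => co_wt hWV hT.hmem x g, ?_, ?_, co_le σ v hvv, fun t g θ ht => co_lt hWV t g θ ht,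
    fun t g θ ht => co_rt hWV t g θ ht⟩⟩
  · intro p hp g
    obtain ⟨hpΦ, _, _, _⟩ := hW.ppos p hp
    have hem := hL.emem p hpΦ
    rw [dH_co hP σ hσ hD v _ hem.1 g, dH_co hP σ hσ hD v _ hem.2 g]
    have h1 := hann p hp
    unfold Ad at h1
    rw [sub_mulVec, smul_mulVec, sub_eq_zero] at h1
    rw [← mulVec_mulVec, ← mulVec_mulVec, h1, mulVec_smul, dotProduct_smul, smul_eq_mul]
  · unfold co
    rw [map_one, one_mulVec, hvv]

end

end LGR
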