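import Pool.Agent.LGR.StW

/-!
# HGTW: the highest weight

The coefficients of `AT 1 * tp m = AT l` are computed with Weyl's denominator formula.
-/

namespace LGR

open STZ MeasureTheory Matrix Filter

open scoped ComplexConjugate Matrix Real Topology

noncomputable section

namespace HGTW

variable {r : ℕ} {Φ : RT r} {B : Matrix (Fin r) (Fin r) ℤ}

lemma eu_add (a b : ℝ) : eu (a + b) = eu a * eu b := by
  unfold eu
  rw [← Complex.exp_add]
  congr 1
  push_cast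
  ring

lemma dz_add (μ ν : Fin r → ℤ) (θ : Fin r → ℝ) : dz (μ + ν) θ = dz μ θ + dz ν θ := by
  unfold dz
  rw [← Finset.sum_add_distrib]
  refine Finset.sum_congr rfl fun i _ => ?_
  rw [Pi.add_apply]
  push_cast
  ring

lemma dz_sub (μ ν : Fin r → ℤ) (θ : Fin r → ℝ) : dz (μ - ν) θ = dz μ θ - dz ν θ := by
  have h := dz_add (μ - ν) ν θ
  rw [sub_add_cancel] at h
  linarith

lemma dz_one (θ : Fin r → ℝ) : dz (1 : Fin r → ℤ) θ = ∑ i, θ i := by
  unfold dz
  simp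

/-- the exponents of the expanded product -/
def nu (S : RT r) : Fin r → ℤ := 1 - ∑ p ∈ S, p.1

lemma eu_nu (θ : Fin r → ℝ) (S : RT r) :
    eu (dz (nu S) θ) = eu (∑ i, θ i) * ∏ p ∈ S, eu (-(dz p.1 θ)) := by
  classical
  induction S using Finset.induction_on with
  | empty => simp [nu, dz_one]
  | insert x S hx ih =>
    have h : nu (insert x S) = nu S - x.1 := by
      unfold nu
      rw [Finset.sum_insert hx]
      abel
    rw [Finset.prod_insert hx, h, dz_sub, sub_eq_add_neg, eu_add, ih]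
    ring

lemma expand (Φ : RT r) (θ : Fin r → ℝ) :
    eu (∑ i, θ i) * ∏ p ∈ pos Φ, (1 - eu (-(dz p.1 θ))) =
      ∑ S ∈ (pos Φ).powerset, (-1) ^ S.card * eu (dz (nu S) θ) := by
  classical
  have h : ∀ p ∈ pos Φ, (1 - eu (-(dz p.1 θ))) = 1 + (-1) * eu (-(dz p.1 θ)) := fun p _ => by ring
  rw [Finset.prod_congr rfl h, Finset.prod_one_add, Finset.mul_sum]
  refine Finset.sum_congr rfl fun S _ => ?_
  rw [eu_nu, Finset.prod_mul_distrib, Finset.prod_const]
  ring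

/-- reindexing a sum of the values of a finitely supported function -/
lemma sum_shift (m : (Fin r → ℤ) →₀ ℤ) (g g' : (Fin r → ℤ) → (Fin r → ℤ))
    (h1 : ∀ μ, g (g' μ) = μ) (h2 : ∀ μ, g' (g μ) = μ) (S : Finset (Fin r → ℤ))
    (hS : ∀ μ ∈ m.support, g μ ∈ S) (e : (Fin r → ℤ) → ℂ) :
    ∑ ν ∈ S, (m (g' ν) : ℂ) * e ν = m.sum fun μ c => (c : ℂ) * e (g μ) := by
  classical
  have h3 : m.support.image g ⊆ S := by
    intro ν hν
    rw [Finset.mem_image] at hν
    obtain ⟨μ, hμ, rfl⟩ := hν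
    exact hS μ hμ
  rw [← Finset.sum_subset h3, Finset.sum_image]
  · unfold Finsupp.sum
    refine Finset.sum_congr rfl fun μ _ => ?_
    rw [h2]
  · intro a _ b _ hab
    have := congrArg g' hab
    rwa [h2, h2] at this
  · intro ν _ hν
    have h4 : m (g' ν) = 0 := by
      by_contra h5
      apply hν
      rw [Finset.mem_image]
      exact ⟨g' ν, Finsupp.mem_support_iff.mpr h5, h1 ν⟩
    rw [h4]
    simp

/-- the coefficients of `AT 1 * tp m` by the denominator formula -/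
def df (Φ : RT r) (m : (Fin r → ℤ) →₀ ℤ) (ν : Fin r → ℤ) : ℤ :=
  ∑ S ∈ (pos Φ).powerset, (-1) ^ S.card * m (ν - nu S)

open Classical in
/-- the coefficients of `AT l` -/
def ef (Φ : RT r) (l ν : Fin r → ℤ) : ℤ := ∑ w ∈ WF Φ, if w *ᵥ l = ν then w.det else 0

open Classical in
/-- a finite set of exponents -/
def T (Φ : RT r) (m : (Fin r → ℤ) →₀ ℤ) (l : Fin r → ℤ) : Finset (Fin r → ℤ) :=
  (((pos Φ).powerset ×ˢ m.support).image fun p => p.2 + nu p.1) ∪ (WF Φ).image fun w => w *ᵥ l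

lemma mem_df (m : (Fin r → ℤ) →₀ ℤ) (l ν : Fin r → ℤ) (h : df Φ m ν ≠ 0) : ν ∈ T Φ m l := by
  classical
  unfold df at h
  obtain ⟨S, hS, h1⟩ := Finset.exists_ne_zero_of_sum_ne_zero h
  have h2 : m (ν - nu S) ≠ 0 := right_ne_zero_of_mul h1
  unfold T
  rw [Finset.mem_union, Finset.mem_image]
  left
  exact ⟨(S, ν - nu S), Finset.mem_product.mpr ⟨hS, Finsupp.mem_support_iff.mpr h2⟩,
    sub_add_cancel _ _⟩

lemma mem_ef (m : (Fin r → ℤ) →₀ ℤ) (l ν : Fin r → ℤ) (h : ef Φ l ν ≠ 0) :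
    ∃ w ∈ WF Φ, w *ᵥ l = ν := by
  classical
  unfold ef at h
  obtain ⟨w, hw, h1⟩ := Finset.exists_ne_zero_of_sum_ne_zero h
  refine ⟨w, hw, ?_⟩
  by_contra h2
  exact h1 (if_neg h2)

lemma sum_df (m : (Fin r → ℤ) →₀ ℤ) (l : Fin r → ℤ) (θ : Fin r → ℝ) :
    ∑ ν ∈ T Φ m l, (df Φ m ν : ℂ) * eu (dz ν θ) =
      (∑ S ∈ (pos Φ).powerset, (-1) ^ S.card * eu (dz (nu S) θ)) * tp m θ := by
  classical
  have h1 : ∀ S ∈ (pos Φ).powerset, ∑ ν ∈ T Φ m l, (m (ν - nu S) : ℂ) * eu (dz ν θ) =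
      eu (dz (nu S) θ) * tp m θ := by
    intro S hS
    rw [sum_shift m (fun μ => μ + nu S) (fun ν => ν - nu S) (fun μ => sub_add_cancel _ _)
      (fun μ => add_sub_cancel_right _ _) (T Φ m l) (fun μ hμ => ?_) (fun ν => eu (dz ν θ))]
    · unfold tp
      rw [Finsupp.mul_sum]
      refine Finset.sum_congr rfl fun μ _ => ?_
      simp only [dz_add, eu_add]
      ring
    · unfold T
      rw [Finset.mem_union, Finset.mem_image]
      left
      exact ⟨(S, μ), Finset.mem_product.mpr ⟨hS, hμ⟩, rfl⟩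
  rw [Finset.sum_mul]
  have h3 : ∀ ν, (df Φ m ν : ℂ) * eu (dz ν θ) =
      ∑ S ∈ (pos Φ).powerset, (-1) ^ S.card * ((m (ν - nu S) : ℂ) * eu (dz ν θ)) := by
    intro ν
    unfold df
    push_cast
    rw [Finset.sum_mul]
    refine Finset.sum_congr rfl fun w _ => ?_
    ring
  rw [Finset.sum_congr rfl fun ν _ => h3 ν, Finset.sum_comm]
  refine Finset.sum_congr rfl fun S hS => ?_
  rw [← Finset.mul_sum, h1 S hS]
  ring

lemma sum_ef (m : (Fin r → ℤ) →₀ ℤ) (l : Fin r → ℤ) (θ : Fin r → ℝ) :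
    ∑ ν ∈ T Φ m l, (ef Φ l ν : ℂ) * eu (dz ν θ) = AT (rd Φ) l θ := by
  classical
  have h2 : AT (rd Φ) l θ = ∑ w ∈ WF Φ, (w.det : ℂ) * eu (dz (w *ᵥ l) θ) := rfl
  rw [h2]
  have h3 : ∀ ν ∈ T Φ m l, (ef Φ l ν : ℂ) * eu (dz ν θ) =
      ∑ w ∈ WF Φ, if w *ᵥ l = ν then (w.det : ℂ) * eu (dz ν θ) else 0 := by
    intro ν _
    unfold ef
    push_cast
    rw [Finset.sum_mul]
    refine Finset.sum_congr rfl fun w _ => ?_
    split_ifs <;> simp
  rw [Finset.sum_congr rfl h3, Finset.sum_comm]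
  refine Finset.sum_congr rfl fun w hw => ?_
  rw [Finset.sum_ite_eq, if_pos]
  unfold T
  rw [Finset.mem_union]
  right
  exact Finset.mem_image_of_mem _ hw

lemma df_eq (hT : S_TPOL) (hD : ∀ θ : Fin r → ℝ, AT (rd Φ) 1 θ =
    eu (∑ i, θ i) * ∏ p ∈ pos Φ, (1 - eu (-(dz p.1 θ)))) (m : (Fin r → ℤ) →₀ ℤ) (l : Fin r → ℤ)
    (h : ∀ θ, AT (rd Φ) 1 θ * tp m θ = AT (rd Φ) l θ) (ν : Fin r → ℤ) : df Φ m ν = ef Φ l ν := by
  classical
  have h1 : ∀ θ : Fin r → ℝ,
      ∑ ν ∈ T Φ m l, ((df Φ m ν : ℂ) - (ef Φ l ν : ℂ)) * eu (dz ν θ) = 0 := by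
    intro θ
    simp only [sub_mul]
    rw [Finset.sum_sub_distrib, sum_df, sum_ef, ← expand, ← hD, h, sub_self]
  have h2 := (hT r).2 _ _ h1
  by_cases hν : ν ∈ T Φ m l
  · have h3 := sub_eq_zero.mp (h2 ν hν)
    exact_mod_cast h3
  · have h3 : df Φ m ν = 0 := by
      by_contra h4
      exact hν (mem_df m l ν h4)
    have h4 : ef Φ l ν = 0 := by
      by_contra h5
      obtain ⟨w, hw, h6⟩ := mem_ef m l ν h5
      apply hν
      unfold T
      rw [Finset.mem_union]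
      right
      rw [Finset.mem_image]
      exact ⟨w, hw, h6⟩
    rw [h3, h4]

/-- the height -/
def ht (Φ : RT r) (μ : Fin r → ℤ) : ℤ := ∑ p ∈ pos Φ, p.2 ⬝ᵥ μ

lemma ht_add (μ ν : Fin r → ℤ) : ht Φ (μ + ν) = ht Φ μ + ht Φ ν := by
  unfold ht
  rw [← Finset.sum_add_distrib]
  refine Finset.sum_congr rfl fun p _ => ?_
  rw [dotProduct_add]

lemma ht_neg (μ : Fin r → ℤ) : ht Φ (-μ) = -ht Φ μ := by
  unfold ht
  rw [← Finset.sum_neg_distrib]
  refine Finset.sum_congr rfl fun p _ => ?_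
  rw [dotProduct_neg]

lemma ht_sum {κ : Type} (S : Finset κ) (f : κ → Fin r → ℤ) :
    ht Φ (∑ q ∈ S, f q) = ∑ q ∈ S, ht Φ (f q) := by
  unfold ht
  rw [Finset.sum_comm]
  refine Finset.sum_congr rfl fun p _ => ?_
  rw [dotProduct_sum]

lemma ht_smul (c : ℤ) (μ : Fin r → ℤ) : ht Φ (c • μ) = c * ht Φ μ := by
  unfold ht
  rw [Finset.mul_sum]
  refine Finset.sum_congr rfl fun p _ => ?_
  rw [dotProduct_smul, smul_eq_mul]

lemma ht_set (hR : ∀ q ∈ pos Φ, 2 ≤ ∑ p ∈ pos Φ, p.2 ⬝ᵥ q.1) (S : RT r) (hS : S ⊆ pos Φ)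
    (hne : S ≠ ∅) : 0 < ht Φ (∑ q ∈ S, q.1) := by
  rw [ht_sum]
  obtain ⟨q, hq⟩ := Finset.nonempty_iff_ne_empty.mpr hne
  exact Finset.sum_pos (fun q hq => lt_of_lt_of_le two_pos (hR q (hS hq))) ⟨q, hq⟩

/-- a sum of positive roots is a combination of simple roots with coefficients `≥ 0` -/
lemma set_comb (hW : WFF Φ B) (S : RT r) (hS : S ⊆ pos Φ) :
    ∃ n : Fin r → ℤ, (∀ i, 0 ≤ n i) ∧ ∑ q ∈ S, q.1 = ∑ i, n i • B i := by
  classical
  induction S using Finset.induction_on with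
  | empty => exact ⟨0, fun i => le_refl _, by simp⟩
  | insert x S hx ih =>
    obtain ⟨n, h1, h2⟩ := ih fun q hq => hS (Finset.mem_insert_of_mem hq)
    obtain ⟨_, _, _, n', h3, h4⟩ := hW.ppos x (hS (Finset.mem_insert_self x S))
    refine ⟨fun i => n' i + n i, fun i => add_nonneg (h4 i) (h1 i), ?_⟩
    rw [Finset.sum_insert hx, h2, h3, ← Finset.sum_add_distrib]
    refine Finset.sum_congr rfl fun i _ => ?_
    rw [add_smul]

end HGTW

theorem t_HGTW : M_HGTW := by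
  classical
  intro hRHO hCHAM hDENO hT hDOMW r Φ B hI hW l hl m hm
  obtain ⟨_, hR2, hR3⟩ := hRHO r Φ B hI hW
  obtain ⟨_, hC2⟩ := hCHAM r Φ B hI hW
  have hD := hDENO r Φ B hI hW
  have hDW := hDOMW r Φ B hI hW l hl
  have key := HGTW.df_eq hT hD m l hm
  have h2 : ∀ ν, m ν ≠ 0 → ∃ n : Fin r → ℤ, (∀ i, 0 ≤ n i) ∧ l - 1 - ν = ∑ i, n i • B i := by
    intro ν hν
    let F : Finset (Fin r → ℤ) := m.support.filter fun μ =>
      ∃ n : Fin r → ℤ, (∀ i, 0 ≤ n i) ∧ μ - ν = ∑ i, n i • B i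
    have hF : F.Nonempty := ⟨ν, Finset.mem_filter.mpr ⟨Finsupp.mem_support_iff.mpr hν,
      0, fun i => le_refl _, by simp⟩⟩
    obtain ⟨μ, hμ, hmax⟩ := Finset.exists_max_image F (HGTW.ht Φ) hF
    obtain ⟨hμ1, n, hn, hn2⟩ := Finset.mem_filter.mp hμ
    have hμ0 : m μ ≠ 0 := Finsupp.mem_support_iff.mp hμ1
    have e1 : HGTW.df Φ m (μ + 1) = m μ := by
      unfold HGTW.df
      rw [Finset.sum_eq_single ∅]
      · unfold HGTW.nu
        simp
      · intro S hS hne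
        rw [Finset.mem_powerset] at hS
        have e2 : μ + 1 - HGTW.nu S = μ + ∑ q ∈ S, q.1 := by
          unfold HGTW.nu
          abel
        rw [e2]
        by_contra h3
        have h4 : m (μ + ∑ q ∈ S, q.1) ≠ 0 := right_ne_zero_of_mul h3
        obtain ⟨n', hn', hn2'⟩ := HGTW.set_comb hW S hS
        have h5 : μ + ∑ q ∈ S, q.1 ∈ F := by
          refine Finset.mem_filter.mpr ⟨Finsupp.mem_support_iff.mpr h4,
            fun i => n i + n' i, fun i => add_nonneg (hn i) (hn' i), ?_⟩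
          have h6 : μ + ∑ q ∈ S, q.1 - ν = (μ - ν) + ∑ q ∈ S, q.1 := by abel
          rw [h6, hn2, hn2', ← Finset.sum_add_distrib]
          refine Finset.sum_congr rfl fun i _ => ?_
          rw [add_smul]
        have h7 := hmax _ h5
        rw [HGTW.ht_add] at h7
        have h8 := HGTW.ht_set hR3 S hS hne
        linarith
      · intro h
        exact absurd (Finset.empty_mem_powerset _) h
    have e3 : HGTW.ef Φ l (μ + 1) ≠ 0 := by
      rw [← key, e1]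
      exact hμ0
    obtain ⟨w, hw, hwl⟩ := HGTW.mem_ef m l (μ + 1) e3
    obtain ⟨n', hn', hn2'⟩ := hDW w hw
    refine ⟨fun i => n' i + n i, fun i => add_nonneg (hn' i) (hn i), ?_⟩
    have h6 : l - 1 - ν = (l - w *ᵥ l) + (μ - ν) := by
      rw [hwl]
      abel
    rw [h6, hn2', hn2, ← Finset.sum_add_distrib]
    refine Finset.sum_congr rfl fun i _ => ?_
    rw [add_smul]
  refine ⟨?_, h2⟩
  have e1 : HGTW.df Φ m l = m (l - 1) := by
    unfold HGTW.df
    rw [Finset.sum_eq_single ∅]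
    · unfold HGTW.nu
      simp
    · intro S hS hne
      rw [Finset.mem_powerset] at hS
      have e2 : l - HGTW.nu S = l - 1 + ∑ q ∈ S, q.1 := by
        unfold HGTW.nu
        abel
      rw [e2]
      by_contra h3
      have h4 : m (l - 1 + ∑ q ∈ S, q.1) ≠ 0 := right_ne_zero_of_mul h3
      obtain ⟨n, hn, hn2⟩ := h2 _ h4
      have h5 : l - 1 - (l - 1 + ∑ q ∈ S, q.1) = -∑ q ∈ S, q.1 := by abel
      rw [h5] at hn2
      have h6 := congrArg (HGTW.ht Φ) hn2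
      rw [HGTW.ht_neg, HGTW.ht_sum (Finset.univ : Finset (Fin r))] at h6
      have h7 := HGTW.ht_set hR3 S hS hne
      have h8 : 0 ≤ ∑ i, HGTW.ht Φ (n i • B i) := by
        refine Finset.sum_nonneg fun i _ => ?_
        rw [HGTW.ht_smul]
        have h9 : HGTW.ht Φ (B i) = 2 := hR2 i
        rw [h9]
        have := hn i
        linarith
      linarith
    · intro h
      exact absurd (Finset.empty_mem_powerset _) h
  have e4 : HGTW.ef Φ l l = 1 := by
    unfold HGTW.ef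
    rw [Finset.sum_eq_single 1]
    · rw [one_mulVec, if_pos rfl, det_one]
    · intro w hw hne
      rw [if_neg]
      intro h
      exact hne (hC2 l hl w hw (by rw [h]; exact hl))
    · intro h
      exact absurd hW.one h
  rw [← e1, key, e4]

end

end LGR
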