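import Pool.Agent.LGR.StW

/-!
# HINT: the norm of a highest weight function
-/

namespace LGR

open STZ MeasureTheory Matrix Filter

open scoped ComplexConjugate Matrix Real Topology

noncomputable section

namespace HINT

/-- the conjugate of a representation by a unitary matrix -/
def cj {G : Type} [Group G] [TopologicalSpace G] {n : ℕ} (σ : Rep G (Fin n))
    (U : Matrix (Fin n) (Fin n) ℂ) (h1 : U * Uᴴ = 1) (h2 : Uᴴ * U = 1) : Rep G (Fin n) where
  ρ :=
    { toFun := fun g => Uᴴ * σ.ρ g * U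
      map_one' := by rw [map_one, mul_one, h2]
      map_mul' := fun g h => by
        rw [map_mul]
        calc Uᴴ * (σ.ρ g * σ.ρ h) * U = Uᴴ * σ.ρ g * 1 * σ.ρ h * U := by
              rw [mul_one, mul_assoc, mul_assoc, mul_assoc, mul_assoc]
          _ = Uᴴ * σ.ρ g * (U * Uᴴ) * σ.ρ h * U := by rw [h1]
          _ = Uᴴ * σ.ρ g * U * (Uᴴ * σ.ρ h * U) := by simp only [mul_assoc] }
  cont := (continuous_const.matrix_mul σ.cont).matrix_mul continuous_const
  unit g := by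
    show Uᴴ * σ.ρ g⁻¹ * U = (Uᴴ * σ.ρ g * U)ᴴ
    rw [σ.unit, Matrix.conjTranspose_mul, Matrix.conjTranspose_mul,
      Matrix.conjTranspose_conjTranspose, mul_assoc]

lemma cj_ρ {G : Type} [Group G] [TopologicalSpace G] {n : ℕ} (σ : Rep G (Fin n))
    (U : Matrix (Fin n) (Fin n) ℂ) (h1 : U * Uᴴ = 1) (h2 : Uᴴ * U = 1) (g : G) :
    (cj σ U h1 h2).ρ g = Uᴴ * σ.ρ g * U := rfl

lemma cj_irr {G : Type} [Group G] [TopologicalSpace G] {n : ℕ} {σ : Rep G (Fin n)}
    (U : Matrix (Fin n) (Fin n) ℂ) (h1 : U * Uᴴ = 1) (h2 : Uᴴ * U = 1) (h : σ.Irr) :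
    (cj σ U h1 h2).Irr := by
  refine ⟨h.1, fun X hX => ?_⟩
  obtain ⟨c, hc⟩ := h.2 (U * X * Uᴴ) (fun g => by
    have h3 := hX g
    rw [cj_ρ] at h3
    calc U * X * Uᴴ * σ.ρ g = U * (X * (Uᴴ * σ.ρ g * (U * Uᴴ))) := by
          rw [h1, mul_one]; simp only [mul_assoc]
      _ = U * (X * (Uᴴ * σ.ρ g * U)) * Uᴴ := by simp only [mul_assoc]
      _ = U * (Uᴴ * σ.ρ g * U * X) * Uᴴ := by rw [h3]
      _ = (U * Uᴴ) * σ.ρ g * (U * X * Uᴴ) := by simp only [mul_assoc]
      _ = σ.ρ g * (U * X * Uᴴ) := by rw [h1, one_mul])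
  refine ⟨c, ?_⟩
  calc X = (Uᴴ * U) * X * (Uᴴ * U) := by rw [h2, one_mul, mul_one]
    _ = Uᴴ * (U * X * Uᴴ) * U := by simp only [mul_assoc]
    _ = Uᴴ * (c • 1) * U := by rw [hc]
    _ = c • 1 := by
      rw [Matrix.mul_smul, Matrix.smul_mul, mul_one, h2]

/-- two characters of the torus which agree are equal -/
lemma wt_eq {r : ℕ} (hTP : S_TPOL) {μ ν : Fin r → ℤ}
    (h : ∀ θ : Fin r → ℝ, eu (dz μ θ) = eu (dz ν θ)) : μ = ν := by
  classical
  by_contra hne
  have h1 := (hTP r).2 {μ, ν} (fun κ => if κ = μ then 1 else -1) (fun θ => by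
    rw [Finset.sum_pair hne, if_pos rfl, if_neg (fun h2 => hne h2.symm), h θ]
    ring) μ (Finset.mem_insert_self _ _)
  rw [if_pos rfl] at h1
  exact one_ne_zero h1

/-- the entries of an irreducible representation are linearly independent -/
lemma lin_indep {G : Type} [Group G] [TopologicalSpace G] [CompactSpace G] [MeasurableSpace G]
    [BorelSpace G] (μ : Measure G) [IsProbabilityMeasure μ] {n : ℕ} (σ : Rep G (Fin n))
    (hn : (n : ℂ) ≠ 0)
    (hS : ∀ i j k l, ∫ g, σ.ρ g i j * conj (σ.ρ g k l) ∂μ =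
      if i = k ∧ j = l then 1 / (Fintype.card (Fin n) : ℂ) else 0)
    (C : Fin n → Fin n → ℂ) (h : ∀ g, ∑ a, ∑ b, C a b * σ.ρ g a b = 0) : ∀ a b, C a b = 0 := by
  intro k l
  have hi : ∀ a b, Integrable (fun g => C a b * σ.ρ g a b * conj (σ.ρ g k l)) μ := by
    intro a b
    have h1 : Continuous fun g => C a b * σ.ρ g a b * conj (σ.ρ g k l) :=
      (continuous_const.mul (σ.cont.matrix_elem a b)).mul
        (Complex.continuous_conj.comp (σ.cont.matrix_elem k l))
    exact h1.integrable_of_hasCompactSupport (HasCompactSupport.of_compactSpace _)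
  have h1 : ∫ g, (∑ a, ∑ b, C a b * σ.ρ g a b) * conj (σ.ρ g k l) ∂μ = 0 := by
    simp only [h, zero_mul, integral_zero]
  have h2 : ∫ g, (∑ a, ∑ b, C a b * σ.ρ g a b) * conj (σ.ρ g k l) ∂μ =
      ∑ a, ∑ b, C a b * ∫ g, σ.ρ g a b * conj (σ.ρ g k l) ∂μ := by
    simp only [Finset.sum_mul]
    rw [integral_finsetSum _ fun a _ => integrable_finsetSum _ fun b _ => hi a b]
    refine Finset.sum_congr rfl fun a _ => ?_
    rw [integral_finsetSum _ fun b _ => hi a b]
    refine Finset.sum_congr rfl fun b _ => ?_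
    rw [← integral_const_mul]
    simp only [mul_assoc]
  rw [h1] at h2
  simp only [hS, Fintype.card_fin] at h2
  rw [Finset.sum_eq_single k, Finset.sum_eq_single l] at h2
  · rw [if_pos ⟨rfl, rfl⟩] at h2
    have h3 : (1 / (n : ℂ)) ≠ 0 := one_div_ne_zero hn
    exact (mul_eq_zero.1 h2.symm).resolve_right h3
  · intro b _ hb
    rw [if_neg (fun h3 => hb h3.2), mul_zero]
  · intro h3
    exact absurd (Finset.mem_univ _) h3
  · intro a _ ha
    refine Finset.sum_eq_zero fun b _ => ?_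
    rw [if_neg (fun h3 => ha h3.1), mul_zero]
  · intro h3
    exact absurd (Finset.mem_univ _) h3

/-- the trigonometric polynomial with the exponents `μ k` -/
lemma tp_sum {r n : ℕ} (μ : Fin n → Fin r → ℤ) (θ : Fin r → ℝ) :
    tp (∑ k, Finsupp.single (μ k) (1 : ℤ)) θ = ∑ k, eu (dz (μ k) θ) := by
  unfold tp
  rw [← Finsupp.sum_finsetSum_index]
  · refine Finset.sum_congr rfl fun k _ => ?_
    rw [Finsupp.sum_single_index]
    · rw [Int.cast_one, one_mul]
    · rw [Int.cast_zero, zero_mul]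
  · intro a
    rw [Int.cast_zero, zero_mul]
  · intro a b₁ b₂
    rw [Int.cast_add, add_mul]

end HINT

theorem t_HINT : M_HINT := by
  intro hHA hSC hWF hTA hTR hTP hHG hHL N H r Φ B Hc E c k d X hr hcl hcn hL hKC hX μ _ _ ν f hν hf
  classical
  have hcs : CompactSpace H := isCompact_iff_compactSpace.1 hcl.isCompact
  have hsc : SecondCountableTopology H :=
    TopologicalSpace.Subtype.secondCountableTopology (H : Set (SU N))
  have hT : TAF H Φ Hc E := hTA N H r Φ B Hc E hcl hL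
  obtain ⟨n, σ, D, hσ, hp, hw, hfD⟩ := hHL N H r Φ B Hc E c k d X hr hcl hcn hL hKC hX ν f hν hf
  obtain ⟨U, m, hU1, hU2, hU⟩ := hTR N H r Φ B Hc E hcl hL n σ hp
  have hn0 : n ≠ 0 := by
    obtain ⟨i⟩ := hσ.1
    intro h0
    subst h0
    exact i.elim0
  have hn : (n : ℂ) ≠ 0 := Nat.cast_ne_zero.2 hn0
  set σ' : Rep H (Fin n) := HINT.cj σ U hU1 hU2 with hσ'
  have hσ'irr : σ'.Irr := HINT.cj_irr U hU1 hU2 hσ
  have hS := (hSC H μ (Fin n) σ' hσ'irr).1
  -- the weights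
  have hdiag : ∀ (g : H) (θ : Fin r → ℝ), g.1 = ta Hc θ →
      σ'.ρ g = Matrix.diagonal (fun k => eu (dz (m k) θ)) := by
    intro g θ hg
    rw [hσ', HINT.cj_ρ, hU g θ hg]
    calc Uᴴ * (U * Matrix.diagonal (fun k => eu (dz (m k) θ)) * Uᴴ) * U
        = (Uᴴ * U) * Matrix.diagonal (fun k => eu (dz (m k) θ)) * (Uᴴ * U) := by
          simp only [mul_assoc]
      _ = _ := by rw [hU2, one_mul, mul_one]
  -- exactly one weight is `ν`
  have hcard : ((Finset.univ.filter fun k => m k = ν).card : ℤ) = 1 := by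
    have h1 := (hHG r Φ B hL.ird (hWF r Φ B hL.ird) (ν + 1) hw.reg
      (∑ k, Finsupp.single (m k) (1 : ℤ)) (fun θ => by
        have h2 := hw.wcf ⟨ta Hc θ, hT.mem θ⟩ θ rfl
        rw [← h2, HINT.tp_sum]
        congr 1
        unfold Rep.ch
        rw [hU ⟨ta Hc θ, hT.mem θ⟩ θ rfl, Matrix.trace_mul_comm, ← mul_assoc, hU2, one_mul,
          Matrix.trace_diagonal])).1
    rw [add_sub_cancel_right, Finsupp.finsetSum_apply] at h1
    simp only [Finsupp.single_apply] at h1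
    rw [Finset.sum_boole] at h1
    exact_mod_cast h1
  obtain ⟨k₀, hk₀⟩ := Finset.card_eq_one.1 (by exact_mod_cast hcard :
    (Finset.univ.filter fun k => m k = ν).card = 1)
  have huniq : ∀ a, m a = ν → a = k₀ := by
    intro a ha
    have h1 : a ∈ Finset.univ.filter fun k => m k = ν :=
      Finset.mem_filter.2 ⟨Finset.mem_univ _, ha⟩
    rw [hk₀] at h1
    exact Finset.mem_singleton.1 h1
  -- the coefficients of `f`
  have hσσ' : ∀ g, σ.ρ g = U * σ'.ρ g * Uᴴ := by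
    intro g
    rw [hσ', HINT.cj_ρ]
    calc σ.ρ g = (U * Uᴴ) * σ.ρ g * (U * Uᴴ) := by rw [hU1, one_mul, mul_one]
      _ = _ := by simp only [mul_assoc]
  set M : Fin n → Fin n → ℂ := fun a b => ∑ p, ∑ q, D p q * (U p a * conj (U q b)) with hM
  have hfM : ∀ g, f g = ∑ a, ∑ b, M a b * σ'.ρ g a b := by
    intro g
    rw [hfD g]
    have h1 : ∀ p q, σ.ρ g p q = ∑ a, ∑ b, U p a * σ'.ρ g a b * conj (U q b) := by
      intro p q
      rw [hσσ' g, Matrix.mul_apply, Finset.sum_comm]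
      refine Finset.sum_congr rfl fun b _ => ?_
      rw [Matrix.mul_apply, Finset.sum_mul]
      rfl
    simp only [h1, hM, Finset.mul_sum, Finset.sum_mul]
    have h2 : ∀ (F : Fin n → Fin n → Fin n → Fin n → ℂ),
        ∑ p, ∑ q, ∑ a, ∑ b, F p q a b = ∑ a, ∑ b, ∑ p, ∑ q, F p q a b := by
      intro F
      calc ∑ p, ∑ q, ∑ a, ∑ b, F p q a b = ∑ p, ∑ a, ∑ q, ∑ b, F p q a b :=
            Finset.sum_congr rfl fun p _ => Finset.sum_comm
        _ = ∑ a, ∑ p, ∑ q, ∑ b, F p q a b := Finset.sum_comm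
        _ = ∑ a, ∑ p, ∑ b, ∑ q, F p q a b :=
            Finset.sum_congr rfl fun a _ => Finset.sum_congr rfl fun p _ => Finset.sum_comm
        _ = ∑ a, ∑ b, ∑ p, ∑ q, F p q a b := Finset.sum_congr rfl fun a _ => Finset.sum_comm
    rw [h2]
    refine Finset.sum_congr rfl fun a _ => Finset.sum_congr rfl fun b _ =>
      Finset.sum_congr rfl fun p _ => Finset.sum_congr rfl fun q _ => ?_
    ring
  have hl : ∀ a b (θ : Fin r → ℝ), M a b * eu (dz (m a) θ) = eu (dz ν θ) * M a b := by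
    intro a b θ
    have h1 := HINT.lin_indep μ σ' hn hS
      (fun a b => M a b * eu (dz (m a) θ) - eu (dz ν θ) * M a b) (fun g => by
        have h2 := hf.lt ⟨ta Hc θ, hT.mem θ⟩ g θ rfl
        rw [hfM, hfM g, map_mul, hdiag ⟨ta Hc θ, hT.mem θ⟩ θ rfl] at h2
        simp only [Matrix.diagonal_mul, Finset.mul_sum] at h2
        simp only [sub_mul, Finset.sum_sub_distrib]
        rw [sub_eq_zero]
        calc _ = ∑ a, ∑ b, M a b * (eu (dz (m a) θ) * σ'.ρ g a b) :=
              Finset.sum_congr rfl fun a _ => Finset.sum_congr rfl fun b _ => by ring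
          _ = _ := h2
          _ = _ := Finset.sum_congr rfl fun a _ => Finset.sum_congr rfl fun b _ => by ring) a b
    exact sub_eq_zero.1 h1
  have hrr : ∀ a b (θ : Fin r → ℝ), M a b * eu (dz (m b) θ) = eu (dz ν θ) * M a b := by
    intro a b θ
    have h1 := HINT.lin_indep μ σ' hn hS
      (fun a b => M a b * eu (dz (m b) θ) - eu (dz ν θ) * M a b) (fun g => by
        have h2 := hf.rt ⟨ta Hc θ, hT.mem θ⟩ g θ rfl
        rw [hfM, hfM g, map_mul, hdiag ⟨ta Hc θ, hT.mem θ⟩ θ rfl] at h2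
        simp only [Matrix.mul_diagonal, Finset.mul_sum] at h2
        simp only [sub_mul, Finset.sum_sub_distrib]
        rw [sub_eq_zero]
        calc _ = ∑ a, ∑ b, M a b * (σ'.ρ g a b * eu (dz (m b) θ)) :=
              Finset.sum_congr rfl fun a _ => Finset.sum_congr rfl fun b _ => by ring
          _ = _ := h2
          _ = _ := Finset.sum_congr rfl fun a _ => Finset.sum_congr rfl fun b _ => by ring) a b
    exact sub_eq_zero.1 h1
  have hMa : ∀ a b, M a b ≠ 0 → a = k₀ ∧ b = k₀ := by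
    intro a b hab
    constructor
    · refine huniq a (HINT.wt_eq hTP fun θ => ?_)
      have h1 := hl a b θ
      rw [mul_comm] at h1
      exact mul_right_cancel₀ hab h1
    · refine huniq b (HINT.wt_eq hTP fun θ => ?_)
      have h1 := hrr a b θ
      rw [mul_comm] at h1
      exact mul_right_cancel₀ hab h1
  have hf1 : ∀ g, f g = M k₀ k₀ * σ'.ρ g k₀ k₀ := by
    intro g
    rw [hfM, Finset.sum_eq_single k₀, Finset.sum_eq_single k₀]
    · intro b _ hb
      have h1 : M k₀ b = 0 := by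
        by_contra h2
        exact hb (hMa _ _ h2).2
      rw [h1, zero_mul]
    · intro h1
      exact absurd (Finset.mem_univ _) h1
    · intro a _ ha
      refine Finset.sum_eq_zero fun b _ => ?_
      have h1 : M a b = 0 := by
        by_contra h2
        exact ha (hMa _ _ h2).1
      rw [h1, zero_mul]
    · intro h1
      exact absurd (Finset.mem_univ _) h1
  have hM1 : M k₀ k₀ = 1 := by
    have h1 := hf1 1
    rw [hf.one, map_one, Matrix.one_apply_eq, mul_one] at h1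
    exact h1.symm
  -- the integral
  have hint : ((∫ g, ‖f g‖ ^ 2 ∂μ : ℝ) : ℂ) = 1 / (n : ℂ) := by
    have h1 := hS k₀ k₀ k₀ k₀
    rw [if_pos ⟨rfl, rfl⟩, Fintype.card_fin] at h1
    rw [← h1, ← integral_complex_ofReal]
    congr 1
    funext g
    rw [hf1 g, hM1, one_mul, RCLike.mul_conj]
    push_cast
    rfl
  have hdim := hw.dim
  have hfin : ((∫ g, ‖f g‖ ^ 2 ∂μ : ℝ) : ℂ) * ((∏ p ∈ pos Φ, (p.2 ⬝ᵥ (ν + 1)) : ℤ) : ℂ) =
      ((∏ p ∈ pos Φ, (p.2 ⬝ᵥ (1 : Fin r → ℤ)) : ℤ) : ℂ) := by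
    rw [hint, ← hdim, ← mul_assoc, one_div, inv_mul_cancel₀ hn, one_mul]
  have hfin2 : (((∫ g, ‖f g‖ ^ 2 ∂μ) * ((∏ p ∈ pos Φ, (p.2 ⬝ᵥ (ν + 1)) : ℤ) : ℝ) : ℝ) : ℂ) =
      ((((∏ p ∈ pos Φ, (p.2 ⬝ᵥ (1 : Fin r → ℤ)) : ℤ) : ℝ)) : ℂ) := by
    rw [Complex.ofReal_mul, Complex.ofReal_intCast, Complex.ofReal_intCast]
    exact hfin
  exact Complex.ofReal_injective hfin2

end

end LGR
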