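import Pool.Agent.LGR.StW
import Pool.Agent.STZ.KERI

/-!
# LGR, module HLOC: a highest weight function is a combination of the entries of one representation
-/

namespace LGR

open STZ MeasureTheory Matrix Filter

open scoped ComplexConjugate Matrix Real Topology

noncomputable section

namespace HLOC

section tp

variable {r : ℕ}

theorem tp_add (m m' : (Fin r → ℤ) →₀ ℤ) (θ : Fin r → ℝ) : tp (m + m') θ = tp m θ + tp m' θ := by
  unfold tp
  apply Finsupp.sum_add_index'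
  · intro a
    simp
  · intro a b c
    push_cast
    ring

theorem tp_zero (θ : Fin r → ℝ) : tp (0 : (Fin r → ℤ) →₀ ℤ) θ = 0 := by
  unfold tp
  exact Finsupp.sum_zero_index

theorem tp_sum {ι : Type*} (s : Finset ι) (f : ι → ((Fin r → ℤ) →₀ ℤ)) (θ : Fin r → ℝ) :
    tp (∑ k ∈ s, f k) θ = ∑ k ∈ s, tp (f k) θ := by
  classical
  induction s using Finset.induction_on with
  | empty => simp [tp_zero]
  | insert a s ha ih => rw [Finset.sum_insert ha, Finset.sum_insert ha, tp_add, ih]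

theorem tp_single (ν : Fin r → ℤ) (θ : Fin r → ℝ) : tp (Finsupp.single ν 1) θ = eu (dz ν θ) := by
  unfold tp
  rw [Finsupp.sum_single_index (by simp)]
  simp

theorem tp_ss {ι : Type*} (s : Finset ι) (ν : ι → Fin r → ℤ) (θ : Fin r → ℝ) :
    tp (∑ k ∈ s, Finsupp.single (ν k) 1) θ = ∑ k ∈ s, eu (dz (ν k) θ) := by
  rw [tp_sum]
  exact Finset.sum_congr rfl fun k _ => tp_single _ _

/-- `ν k₀` is in the support -/
theorem ss_ne {n : ℕ} (μ : Fin n → Fin r → ℤ) (k₀ : Fin n) :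
    (∑ k, Finsupp.single (μ k) (1 : ℤ)) (μ k₀) ≠ 0 := by
  classical
  rw [Finsupp.finsetSum_apply]
  have h1 : 0 < ∑ k, (Finsupp.single (μ k) (1 : ℤ)) (μ k₀) := by
    refine Finset.sum_pos' (fun k _ => ?_) ⟨k₀, Finset.mem_univ _, ?_⟩
    · rw [Finsupp.single_apply]
      split_ifs <;> norm_num
    · rw [Finsupp.single_eq_same]
      norm_num
  exact h1.ne'

/-- two weights with the same exponential are equal -/
theorem wt_eq (hTP : S_TPOL) (μ ν : Fin r → ℤ) (h : ∀ θ : Fin r → ℝ, eu (dz μ θ) = eu (dz ν θ)) :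
    μ = ν := by
  classical
  by_contra hne
  have h1 := (hTP r).2 {μ, ν} (fun x => if x = μ then 1 else -1) (fun θ => ?_) μ (by simp)
  · simp at h1
  · rw [Finset.sum_pair hne]
    simp only [if_true]
    rw [if_neg (Ne.symm hne), h θ]
    ring

end tp

section rep

variable {G : Type} [Group G] [TopologicalSpace G] [IsTopologicalGroup G] [CompactSpace G]
  [T2Space G] [SecondCountableTopology G] [MeasurableSpace G] [BorelSpace G]
  (μ : Measure G) [IsProbabilityMeasure μ] [μ.IsMulLeftInvariant]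

include μ in
/-- linear independence of the entries -/
theorem lin_indep (hS : S_SCHUR) {n : ℕ} (σ : Rep G (Fin n)) (hσ : σ.Irr)
    (A : Matrix (Fin n) (Fin n) ℂ) (h : ∀ g, ∑ p, ∑ q, A p q * σ.ρ g p q = 0) : A = 0 := by
  classical
  obtain ⟨h1, -⟩ := hS G μ (Fin n) σ hσ
  have hn : (n : ℂ) ≠ 0 := by
    have h2 : 0 < Fintype.card (Fin n) := Fintype.card_pos_iff.2 hσ.1
    rw [Fintype.card_fin] at h2
    exact_mod_cast h2.ne'
  ext k l
  have h2 : ∫ g, (∑ p, ∑ q, A p q * σ.ρ g p q) * conj (σ.ρ g k l) ∂μ = 0 := by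
    simp only [h, zero_mul, integral_zero]
  have h3 : ∀ g, (∑ p, ∑ q, A p q * σ.ρ g p q) * conj (σ.ρ g k l) =
      ∑ p, ∑ q, A p q * (σ.ρ g p q * conj (σ.ρ g k l)) := by
    intro g
    rw [Finset.sum_mul]
    refine Finset.sum_congr rfl fun p _ => ?_
    rw [Finset.sum_mul]
    exact Finset.sum_congr rfl fun q _ => by ring
  simp only [h3] at h2
  have hint : ∀ p q, Integrable (fun g => A p q * (σ.ρ g p q * conj (σ.ρ g k l))) μ := fun p q =>
    (KERI.integ μ ((KERI.cont_entry σ p q).mul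
      (Complex.continuous_conj.comp (KERI.cont_entry σ k l)))).const_mul _
  rw [integral_finsetSum _ (fun p _ => integrable_finsetSum _ fun q _ => hint p q)] at h2
  have h4 : ∀ p, ∫ g, ∑ q, A p q * (σ.ρ g p q * conj (σ.ρ g k l)) ∂μ =
      ∑ q, A p q * (if p = k ∧ q = l then 1 / (n : ℂ) else 0) := by
    intro p
    rw [integral_finsetSum _ (fun q _ => hint p q)]
    refine Finset.sum_congr rfl fun q _ => ?_
    rw [integral_const_mul, h1 p q k l, Fintype.card_fin]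
  simp only [h4] at h2
  rw [Finset.sum_eq_single k, Finset.sum_eq_single l] at h2
  · simp only [and_self, if_true] at h2
    have h5 : (1 / (n : ℂ)) ≠ 0 := one_div_ne_zero hn
    exact (mul_eq_zero.1 h2).resolve_right h5
  · intro q _ hq
    rw [if_neg (fun h => hq h.2), mul_zero]
  · intro h; exact absurd (Finset.mem_univ _) h
  · intro p _ hp
    refine Finset.sum_eq_zero fun q _ => ?_
    rw [if_neg (fun h => hp h.1), mul_zero]
  · intro h; exact absurd (Finset.mem_univ _) h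

include μ in
/-- the weight of the coefficient matrix -/
theorem coef_wt (hS : S_SCHUR) {n : ℕ} (σ : Rep G (Fin n)) (hσ : σ.Irr)
    (D : Matrix (Fin n) (Fin n) ℂ) (F : G → ℂ) (hF : ∀ g, F g = ∑ p, ∑ q, D p q * σ.ρ g p q)
    (t : G) (e : ℂ) (ht : ∀ g, F (g * t) = e * F g) : σ.ρ t * Dᵀ = e • Dᵀ := by
  have h1 : (D * (σ.ρ t)ᵀ - e • D) = 0 := by
    refine lin_indep μ hS σ hσ _ fun g => ?_
    have h2 := ht g
    rw [hF, hF, map_mul] at h2
    have h3 : ∑ p, ∑ q, D p q * (σ.ρ g * σ.ρ t) p q = ∑ p, ∑ q, (D * (σ.ρ t)ᵀ) p q * σ.ρ g p q := by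
      refine Finset.sum_congr rfl fun p _ => ?_
      simp only [Matrix.mul_apply, Finset.mul_sum, Finset.sum_mul, Matrix.transpose_apply]
      rw [Finset.sum_comm]
      refine Finset.sum_congr rfl fun q _ => Finset.sum_congr rfl fun s _ => ?_
      ring
    rw [h3] at h2
    simp only [Matrix.sub_apply, Matrix.smul_apply, smul_eq_mul, sub_mul, Finset.sum_sub_distrib]
    rw [h2, Finset.mul_sum, sub_eq_zero]
    refine Finset.sum_congr rfl fun p _ => ?_
    rw [Finset.mul_sum]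
    exact Finset.sum_congr rfl fun q _ => by ring
  have h2 : D * (σ.ρ t)ᵀ = e • D := sub_eq_zero.1 h1
  have h3 := congrArg Matrix.transpose h2
  rwa [Matrix.transpose_mul, Matrix.transpose_transpose, Matrix.transpose_smul] at h3

omit [IsTopologicalGroup G] [T2Space G] [μ.IsMulLeftInvariant] in
/-- the projection on a piece as a combination of the entries -/
theorem Pr_entries {ι : Type} {χ : ι → G → ℂ} {a : ι} {n : ℕ} {σ : Rep G (Fin n)}
    (hσ : ∀ g, σ.ch g = χ a g) {u : G → ℂ} (hu : Continuous u) :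
    ∃ D : Matrix (Fin n) (Fin n) ℂ, ∀ g, Pr μ (KK χ) {a} u g = ∑ p, ∑ q, D p q * σ.ρ g p q := by
  refine ⟨fun p q => n * ∫ y, u y * conj (σ.ρ y p q) ∂μ, fun g => ?_⟩
  unfold Pr
  rw [Finset.sum_singleton, KERI.int_KK μ hσ g hu, Finset.mul_sum]
  refine Finset.sum_congr rfl fun p _ => ?_
  rw [Finset.mul_sum]
  exact Finset.sum_congr rfl fun q _ => by ring

omit [TopologicalSpace G] [BorelSpace G] [IsTopologicalGroup G] [CompactSpace G] [T2Space G] [SecondCountableTopology G]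
  [IsProbabilityMeasure μ] [μ.IsMulLeftInvariant] in
/-- right translation -/
theorem Pr_right [MeasurableMul G] [μ.IsMulRightInvariant] {ι : Type} (χ : ι → G → ℂ) (a : ι) (u : G → ℂ)
    (t : G) (e : ℂ) (ht : ∀ g, u (g * t) = e * u g) (g : G) :
    Pr μ (KK χ) {a} u (g * t) = e * Pr μ (KK χ) {a} u g := by
  unfold Pr
  rw [Finset.sum_singleton, Finset.sum_singleton]
  have h1 := integral_mul_right_eq_self (μ := μ) (fun y => KK χ a (g * t) y * u y) t
  rw [← h1, ← integral_const_mul]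
  refine integral_congr_ae (Filter.Eventually.of_forall fun y => ?_)
  simp only
  rw [ht]
  have h2 : KK χ a (g * t) (y * t) = KK χ a g y := by
    unfold KK
    congr 2
    group
  rw [h2]
  ring

end rep

/-- the weight is one of the weights of the representation -/
theorem wt_mem {n : ℕ} (A U DT : Matrix (Fin n) (Fin n) ℂ) (v : Fin n → ℂ) (e : ℂ)
    (hU : Uᴴ * U = 1) (hA : A = U * Matrix.diagonal v * Uᴴ) (hD : A * DT = e • DT) (i j : Fin n)
    (hij : (Uᴴ * DT) i j ≠ 0) : v i = e := by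
  have h1 : Matrix.diagonal v * (Uᴴ * DT) = e • (Uᴴ * DT) := by
    have h2 : Uᴴ * (A * DT) = Matrix.diagonal v * (Uᴴ * DT) := by
      rw [hA]
      simp only [← Matrix.mul_assoc]
      rw [hU, Matrix.one_mul]
    rw [← h2, hD, Matrix.mul_smul]
  have h3 := congrFun (congrFun h1 i) j
  rw [Matrix.diagonal_mul, Matrix.smul_apply, smul_eq_mul] at h3
  exact mul_right_cancel₀ hij h3

/-- a piece of `f` which is not zero -/
theorem piece {N : ℕ} {H : Subgroup (SU N)} {r : ℕ} {Φ : RT r} {B : Matrix (Fin r) (Fin r) ℤ}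
    {Hc : Fin r → Matrix (Fin N) (Fin N) ℂ} {E : (Fin r → ℤ) × (Fin r → ℤ) → Matrix (Fin N) (Fin N) ℂ}
    {c k : ℝ} {d : ℕ} (hHA : S_HAAR) (hSC : S_SCHUR) (hWF : S_WFAC) (hTA : S_TAUF) (hTR : S_TRES) (hTP : S_TPOL)
    (hHG : S_HGTW) (hQC : S_QCMP)
    (hcl : IsClosed (H : Set (SU N))) (hL : LRD H Φ B Hc E) (hk : 0 < k)
    (μ : Measure H) [IsProbabilityMeasure μ] [μ.IsMulLeftInvariant]
    (χ : IX Hc → H → ℂ) (hχ : CHI Φ Hc c k d χ) (ν : Fin r → ℤ) (hν : ∀ i, 0 ≤ ν i) (f : H → ℂ)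
    (hfc : Continuous f) (hf : HWFN Φ Hc E ν f) (i : IX Hc)
    (hκ : k * (((rd Φ).Q (ν + 1) : ℝ) - (rd Φ).Q 1) = k * (((rd Φ).Q (wG i.1) : ℝ) - (rd Φ).Q 1))
    (hne : Pr μ (KK χ) {i} f ≠ 0) :
    wG i.1 = ν + 1 ∧ ∃ (n : ℕ) (σ : Rep H (Fin n)) (D : Matrix (Fin n) (Fin n) ℂ), σ.Irr ∧ PRep σ ∧
      HWR Φ Hc c k d σ (wG i.1) ∧ ∀ g, Pr μ (KK χ) {i} f g = ∑ p, ∑ q, D p q * σ.ρ g p q := by
  have hcomp : CompactSpace H := isCompact_iff_compactSpace.1 hcl.isCompact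
  have hsec : SecondCountableTopology H :=
    inferInstanceAs (SecondCountableTopology ((H : Set (SU N)) : Type))
  obtain ⟨n, σ, hirr, hP, hW, hch⟩ := hχ i
  obtain ⟨D, hD⟩ := Pr_entries μ hch hfc
  refine ⟨?_, n, σ, D, hirr, hP, hW, hD⟩
  have hTAF := hTA N H r Φ B Hc E hcl hL
  have hWFF := hWF r Φ B hL.ird
  obtain ⟨hright, -, -⟩ := hHA H μ
  obtain ⟨U, w, hU1, hU2, hU3⟩ := hTR N H r Φ B Hc E hcl hL n σ hP
  -- the coefficient matrix is not zero
  have hD0 : Dᵀ ≠ 0 := by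
    intro h0
    apply hne
    have h1 : D = 0 := by rw [← Matrix.transpose_transpose D, h0, Matrix.transpose_zero]
    funext g
    rw [hD g, h1]
    simp
  have hG0 : Uᴴ * Dᵀ ≠ 0 := by
    intro h0
    apply hD0
    have h1 : U * (Uᴴ * Dᵀ) = 0 := by rw [h0, Matrix.mul_zero]
    rwa [← Matrix.mul_assoc, hU1, Matrix.one_mul] at h1
  obtain ⟨a, b, hab⟩ : ∃ a b, (Uᴴ * Dᵀ) a b ≠ 0 := by
    by_contra hcon
    push Not at hcon
    exact hG0 (Matrix.ext hcon)
  -- the weight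
  have hwa : w a = ν := by
    refine wt_eq hTP _ _ fun θ => ?_
    have h1 : σ.ρ ⟨ta Hc θ, hTAF.mem θ⟩ * Dᵀ = eu (dz ν θ) • Dᵀ := by
      refine coef_wt μ hSC σ hirr D _ hD _ _ fun g => ?_
      exact Pr_right μ χ i f _ _ (fun g => hf.rt _ g θ rfl) g
    exact wt_mem _ U Dᵀ (fun k => eu (dz (w k) θ)) _ hU2 (hU3 _ θ rfl) h1 a b hab
  -- the trigonometric polynomial
  have hwcf : ∀ θ, AT (rd Φ) 1 θ * tp (∑ k, Finsupp.single (w k) (1 : ℤ)) θ = AT (rd Φ) (wG i.1) θ := by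
    intro θ
    have h1 := hW.wcf ⟨ta Hc θ, hTAF.mem θ⟩ θ rfl
    rw [← h1, tp_ss]
    congr 1
    rw [Rep.ch, hU3 ⟨ta Hc θ, hTAF.mem θ⟩ θ rfl, Matrix.mul_assoc, Matrix.trace_mul_comm, Matrix.mul_assoc,
      hU2, Matrix.mul_one, Matrix.trace_diagonal]
  obtain ⟨-, h2⟩ := hHG r Φ B hL.ird hWFF (wG i.1) hW.reg _ hwcf
  obtain ⟨m, hm0, hm⟩ := h2 (w a) (ss_ne w a)
  rw [hwa] at hm
  have hQ : (rd Φ).Q (wG i.1) = (rd Φ).Q (ν + 1) := by
    have h3 := mul_left_cancel₀ hk.ne' hκ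
    have h4 : ((rd Φ).Q (ν + 1) : ℝ) = (rd Φ).Q (wG i.1) := by linarith
    exact_mod_cast h4.symm
  exact hQC r Φ B hL.ird hWFF ν (wG i.1) hν hQ m hm0 hm

end HLOC

theorem t_HLOC : M_HLOC := by
  intro hHA hSC hKB hKER hCA hWF hRV hTA hAD hZF hEW hPF hTR hTP hGX hHG hQC hHE N H r Φ B Hc E c k d X hr
    hcl hcon hL hK hF ν f hν hf
  classical
  have hcomp : CompactSpace H := isCompact_iff_compactSpace.1 hcl.isCompact
  have hsec : SecondCountableTopology H :=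
    inferInstanceAs (SecondCountableTopology ((H : Set (SU N)) : Type))
  let μ : Measure H := Measure.haarMeasure ⊤
  have hμ : IsProbabilityMeasure μ := ⟨by
    have := Measure.haarMeasure_self (K₀ := (⊤ : TopologicalSpace.PositiveCompacts H))
    simpa using this⟩
  obtain ⟨⟨χ, hχ⟩, hGXall⟩ := hGX N H r Φ B Hc E c k d X hr hcl hcon hL hK hF
  obtain ⟨Z, hG⟩ := hGXall χ hχ
  have hfc : Continuous f := ((hPF N H hcl).c2 f hf.mem).1.cont
  obtain ⟨S, hS1, hS2⟩ := hEW N H c d r (rd Φ) (pos Φ) (IX Hc) (fun i => i.1) χ Z k (hRV r Φ B hr hL.ird) hG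
    μ X hF _ f (hHE N H r Φ B Hc E c k d X hcl hL hK hF ν f hf)
  have hsum : ∀ g, f g = ∑ a ∈ S, Pr μ (KK χ) {a} f g := by
    intro g
    conv_lhs => rw [← hS2]
    unfold Pr
    simp only [Finset.sum_singleton]
  have hpiece : ∀ i ∈ S, Pr μ (KK χ) {i} f ≠ 0 → wG i.1 = ν + 1 ∧
      ∃ (n : ℕ) (σ : Rep H (Fin n)) (D : Matrix (Fin n) (Fin n) ℂ), σ.Irr ∧ PRep σ ∧
      HWR Φ Hc c k d σ (wG i.1) ∧ ∀ g, Pr μ (KK χ) {i} f g = ∑ p, ∑ q, D p q * σ.ρ g p q := fun i hi hne =>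
    HLOC.piece hHA hSC hWF hTA hTR hTP hHG hQC hcl hL hG.kpos μ χ hχ ν hν f hfc hf i (hS1 i hi) hne
  have hex : ∃ i ∈ S, Pr μ (KK χ) {i} f ≠ 0 := by
    by_contra hcon
    push Not at hcon
    have h1 := hsum 1
    rw [hf.one, Finset.sum_eq_zero (fun i hi => by rw [hcon i hi]; rfl)] at h1
    exact one_ne_zero h1
  obtain ⟨i, hi, hne⟩ := hex
  obtain ⟨hw, n, σ, D, h1, h2, h3, h4⟩ := hpiece i hi hne
  rw [hw] at h3
  refine ⟨n, σ, D, h1, h2, h3, fun g => ?_⟩
  rw [← h4 g, hsum g]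
  refine Finset.sum_eq_single i (fun j hj hji => ?_) (fun h => absurd hi h)
  by_contra hne2
  have hne3 : Pr μ (KK χ) {j} f ≠ 0 := fun h => hne2 (by rw [h]; rfl)
  obtain ⟨hw2, -⟩ := hpiece j hj hne3
  apply hji
  apply Subtype.ext
  funext l
  have h5 := congrFun (hw2.trans hw.symm) l
  unfold wG at h5
  simpa using h5

end

end LGR
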