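import Pool.Agent.LGR.StW

/-!
# Powers of highest weight functions
-/

namespace LGR

open STZ MeasureTheory Matrix Filter

open scoped ComplexConjugate Matrix Real Topology

noncomputable section

namespace HPOW

variable {N : ℕ} {H : Subgroup (SU N)}

lemma fpow_mem {f : H → ℂ} (hf : f ∈ PF H) (m : ℕ) : (fun g => f g ^ m) ∈ PF H :=
  Subalgebra.pow_mem (PF H) hf m

lemma dH_pow (hC : CALFH H) (hP : PFF H) {X : Matrix (Fin N) (Fin N) ℂ} (hX : X ∈ lie H)
    {f : H → ℂ} (hf : f ∈ PF H) (m : ℕ) (g : H) :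
    dH X (fun g => f g ^ (m + 1)) g = (m + 1 : ℂ) * f g ^ m * dH X f g := by
  induction m with
  | zero =>
    have h1 : (fun g => f g ^ (0 + 1)) = f := by
      funext g
      rw [zero_add, pow_one]
    rw [h1]
    simp
  | succ m ih =>
    have h1 : (fun g => f g ^ (m + 1 + 1)) = fun g => f g ^ (m + 1) * f g := by
      funext g
      rw [pow_succ]
    rw [h1, hC.dmul X hX _ _ (hP.c2 _ (fpow_mem hf (m + 1))).1 (hP.c2 _ hf).1, ih]
    push_cast
    ring

lemma eu_mul (m : ℕ) (a : ℝ) : eu ((m : ℝ) * a) = eu a ^ m := by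
  unfold eu
  rw [← Complex.exp_nat_mul]
  congr 1
  push_cast
  ring

lemma dz_smul {r : ℕ} (m : ℕ) (ν : Fin r → ℤ) (θ : Fin r → ℝ) :
    dz ((m : ℤ) • ν) θ = (m : ℝ) * dz ν θ := by
  unfold dz
  rw [Finset.mul_sum]
  refine Finset.sum_congr rfl fun i _ => ?_
  rw [Pi.smul_apply, smul_eq_mul]
  push_cast
  ring

end HPOW

open HPOW in
theorem t_HPOW : M_HPOW := by
  intro hCAL hLIE hPFF hTAU N H r Φ B Hc E hcl hL ν f hf m
  have hC := hCAL N H
  have hP := hPFF N H hcl
  have hT := hTAU N H r Φ B Hc E hcl hL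
  refine ⟨fpow_mem hf.mem m, ?_, ?_, ?_, ?_, ?_, ?_⟩
  · intro x g
    have hs : ((∑ j, ((((m : ℤ) • ν) j : ℤ) : ℝ) * x j : ℝ) : ℂ) =
        (m : ℂ) * ((∑ j, (ν j : ℝ) * x j : ℝ) : ℂ) := by
      have h1 : (∑ j, ((((m : ℤ) • ν) j : ℤ) : ℝ) * x j : ℝ) = (m : ℝ) * ∑ j, (ν j : ℝ) * x j :=
        dz_smul m ν x
      rw [h1]
      push_cast
      rfl
    rw [hs]
    cases m with
    | zero =>
      have h1 : (fun g => f g ^ 0) = fun _ => (1 : ℂ) := by
        funext g
        rw [pow_zero]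
      rw [h1, hC.dconst]
      simp
    | succ m =>
      rw [dH_pow hC hP (hT.hmem x) hf.mem, hf.wt]
      push_cast
      ring
  · intro p hp g
    have hpΦ : p ∈ Φ := (Finset.mem_filter.1 hp).1
    have he := hL.emem p hpΦ
    cases m with
    | zero =>
      have h1 : (fun g => f g ^ 0) = fun _ => (1 : ℂ) := by
        funext g
        rw [pow_zero]
      rw [h1, hC.dconst, hC.dconst, mul_zero]
    | succ m =>
      rw [dH_pow hC hP he.1 hf.mem, dH_pow hC hP he.2 hf.mem, hf.hw p hp]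
      ring
  · change f 1 ^ m = 1
    rw [hf.one, one_pow]
  · intro g
    rw [norm_pow]
    exact pow_le_one₀ (norm_nonneg _) (hf.le g)
  · intro t g θ ht
    change f (t * g) ^ m = _
    rw [hf.lt t g θ ht, mul_pow, dz_smul, eu_mul]
  · intro t g θ ht
    change f (g * t) ^ m = _
    rw [hf.rt t g θ ht, mul_pow, dz_smul, eu_mul]

end

end LGR
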