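import Pool.Agent.LGR.StB
import Pool.Agent.STZ.HPRY

/-!
# HPRV: the exponential sum of the coefficients of the theta function times the cutoff functions

The helper lemmas are those of `STZ.HPRY`.
-/

namespace LGR

open STZ STZ.HPRY

open MeasureTheory Matrix

open scoped ComplexConjugate Matrix Real

noncomputable section

theorem t_HPRV : M_HPRV := by
  intro hF hE r D P hX
  refine ⟨cst P, fun J K x t ζ hK => ?_⟩
  have etf : ETF D P (2 ^ J) := hE r D P hX (2 ^ J) Nat.one_le_two_pow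
  have hsup : ∀ l, l ∉ cb r ((r + 1) * 2 ^ J) → tk D P J t l = 0 := by
    intro l hl
    rw [mem_cb] at hl
    push Not at hl
    obtain ⟨i, hi⟩ := hl
    unfold tk
    rw [etf.supp l i (by push_cast at hi ⊢; exact hi)]
    simp
  rw [prod_eq hF, Finset.mul_sum]
  have h1 : ES (cb r K) (nk D P J x t) ζ = ∑ k ∈ kb P J, (∏ p, (pj J (x p).val (k p) : ℂ)) *
      ∑ ν ∈ cb r K, tk D P J t (ν - rs P k) * exq ζ ν := by
    have h0 : ES (cb r K) (nk D P J x t) ζ = ∑ ν ∈ cb r K, nk D P J x t ν * exq ζ ν := rfl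
    rw [h0]
    unfold nk
    simp only [Finset.sum_mul, Finset.mul_sum]
    rw [Finset.sum_comm]
    refine Finset.sum_congr rfl fun k _ => Finset.sum_congr rfl fun ν _ => ?_
    unfold tk
    ring
  rw [h1]
  refine Finset.sum_congr rfl fun k hk => ?_
  have h2 : ∑ ν ∈ cb r K, tk D P J t (ν - rs P k) * exq ζ ν =
      (∑ ν ∈ cb r K, (fun l => tk D P J t l * exq ζ l) (ν - rs P k)) * exq ζ (rs P k) := by
    rw [Finset.sum_mul]
    refine Finset.sum_congr rfl fun ν _ => ?_
    have h3 : exq ζ ν = exq ζ (ν - rs P k) * exq ζ (rs P k) := by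
      rw [← exq_add, sub_add_cancel]
    rw [h3]
    ring
  have h4 : ∑ ν ∈ cb r K, (fun l => tk D P J t l * exq ζ l) (ν - rs P k) =
      ∑ l ∈ cb r ((r + 1) * 2 ^ J), (fun l => tk D P J t l * exq ζ l) l := by
    refine sum_shift (fun l => tk D P J t l * exq ζ l) (rs P k) (fun l hl => ?_)
      (fun l hl => ?_)
    · rw [hsup l hl, zero_mul]
    · rw [mem_cb] at hl ⊢
      intro i
      have h5 := hl i
      have h6 := rs_le P J k hk i
      have h7 : ((cst P * 2 ^ J : ℕ) : ℤ) ≤ K := by exact_mod_cast hK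
      rw [Pi.add_apply]
      refine (abs_add_le _ _).trans ((add_le_add h5 h6).trans (le_trans (le_of_eq ?_) h7))
      unfold cst
      push_cast
      ring
  rw [h2, h4]
  have h8 : ES (cb r ((r + 1) * 2 ^ J)) (tk D P J t) ζ =
      ∑ l ∈ cb r ((r + 1) * 2 ^ J), (fun l => tk D P J t l * exq ζ l) l := rfl
  rw [h8]
  ring

end

end LGR
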