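import Pool.Agent.LGR.StV

/-!
# A highest weight function is an eigenfunction of the Laplacian
-/

namespace LGR

open STZ MeasureTheory Matrix Filter

open scoped ComplexConjugate Matrix Real Topology

namespace HQEI

variable {N : ℕ} {H : Subgroup (SU N)}

theorem dcm (X : Matrix (Fin N) (Fin N) ℂ) (a : ℂ) (f : H → ℂ) (g : H) :
    dH X (fun g => a * f g) g = a * dH X f g := by
  unfold dH
  exact deriv_const_mul_field a

theorem dsum (hC : CALFH H) {X : Matrix (Fin N) (Fin N) ℂ} (hX : X ∈ lie H) {ι : Type*}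
    (F : ι → H → ℂ) (hF : ∀ i, C2H (F i)) (y : ι → ℂ) (s : Finset ι) :
    C2H (fun g => ∑ i ∈ s, y i * F i g) ∧
      ∀ g, dH X (fun g => ∑ i ∈ s, y i * F i g) g = ∑ i ∈ s, y i * dH X (F i) g := by
  classical
  induction s using Finset.induction_on with
  | empty =>
    simp only [Finset.sum_empty]
    exact ⟨hC.const 0, fun g => hC.dconst X 0 g⟩
  | insert a s ha ih =>
    simp only [Finset.sum_insert ha]
    have h1 : C2H (fun g => y a * F a g) := hC.mul _ _ (hC.const (y a)) (hF a)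
    refine ⟨hC.add _ _ h1 ih.1, fun g => ?_⟩
    rw [hC.dadd X hX _ _ h1.1 ih.1.1 g, ih.2, dcm]

theorem lsum (L : LIF H) {𝒜 : Subalgebra ℂ (H → ℂ)} (A : SMA H 𝒜) {d : ℕ}
    {X : Fin d → Matrix (Fin N) (Fin N) ℂ} (hX : ∀ a, X a ∈ lie H) (y : Fin d → ℝ)
    (s : Finset (Fin d)) :
    (∑ a ∈ s, (y a : ℂ) • X a) ∈ lie H ∧ ∀ f ∈ 𝒜, ∀ g,
      dH (∑ a ∈ s, (y a : ℂ) • X a) f g = ∑ a ∈ s, (y a : ℂ) * dH (X a) f g := by
  induction s using Finset.induction_on with
  | empty =>
    simp only [Finset.sum_empty]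
    refine ⟨L.zero, fun f hf g => ?_⟩
    have h1 := A.smul 0 L.zero 0 f hf g
    rw [Complex.ofReal_zero, zero_smul, zero_mul] at h1
    exact h1
  | insert a s ha ih =>
    rw [Finset.sum_insert ha]
    have h1 := L.smul (y a) (X a) (hX a)
    refine ⟨L.add _ h1 _ ih.1, fun f hf g => ?_⟩
    rw [Finset.sum_insert ha, A.add _ h1 _ ih.1 f hf g, A.smul _ (hX a) _ f hf g, ih.2 f hf g]

/-- the coefficients in a frame -/
theorem coef {c : ℝ} {d : ℕ} {X : Fin d → Matrix (Fin N) (Fin N) ℂ} (hX : FrameH H c X)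
    {Z : Matrix (Fin N) (Fin N) ℂ} {z : Fin d → ℝ} (hz : Z = ∑ a, (z a : ℂ) • X a) (a : Fin d) :
    (c : ℂ) * (X a * Z).trace = -(z a : ℂ) := by
  rw [hz, Matrix.mul_sum, Matrix.trace_sum, Finset.mul_sum]
  have h1 : ∀ q, (c : ℂ) * (X a * (z q : ℂ) • X q).trace = if a = q then -(z a : ℂ) else 0 := by
    intro q
    have h2 := hX.orth a q
    rw [Matrix.mul_smul, Matrix.trace_smul, smul_eq_mul]
    have h3 : (c : ℂ) * ((z q : ℂ) * (X a * X q).trace) =
        -(z q : ℂ) * (-(c : ℂ) * (X a * X q).trace) := by ring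
    rw [h3, h2]
    split
    · next h => rw [h, mul_one]
    · rw [mul_zero]
  simp only [h1, Finset.sum_ite_eq, Finset.mem_univ, if_true]

theorem pars {c : ℝ} {d : ℕ} {X : Fin d → Matrix (Fin N) (Fin N) ℂ} (hX : FrameH H c X)
    (Y : Matrix (Fin N) (Fin N) ℂ) {Z : Matrix (Fin N) (Fin N) ℂ} (hZ : Z ∈ lie H) :
    ∑ p, (c : ℂ) * (X p * Y).trace * ((c : ℂ) * (X p * Z).trace) = -(c : ℂ) * (Z * Y).trace := by
  obtain ⟨z, hz⟩ := hX.span Z hZ
  have h1 : (Z * Y).trace = ∑ p, (z p : ℂ) * (X p * Y).trace := by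
    conv_lhs => rw [hz]
    rw [Finset.sum_mul, Matrix.trace_sum]
    refine Finset.sum_congr rfl fun p _ => ?_
    rw [Matrix.smul_mul, Matrix.trace_smul, smul_eq_mul]
  rw [h1, Finset.mul_sum]
  refine Finset.sum_congr rfl fun p _ => ?_
  rw [coef hX hz p]
  ring

theorem gen (hC : CALFH H) (L : LIF H) {𝒜 : Subalgebra ℂ (H → ℂ)} (A : SMA H 𝒜) {f : H → ℂ}
    (hf : f ∈ 𝒜) {c : ℝ} {d : ℕ} {X : Fin d → Matrix (Fin N) (Fin N) ℂ} (hX : FrameH H c X)
    {J : Type*} [Fintype J] (W : J → Matrix (Fin N) (Fin N) ℂ) (hW : ∀ j, W j ∈ lie H)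
    (w : J → ℂ) (h : ∀ a b, ∑ j, w j * ((c : ℂ) * (X a * W j).trace * ((c : ℂ) * (X b * W j).trace)) =
      if a = b then 1 else 0) (g : H) :
    ∑ j, w j * dH (W j) (dH (W j) f) g = lapH X f g := by
  choose y hy using fun j => hX.span (W j) (hW j)
  have hy2 : ∀ j a, (y j a : ℂ) = -((c : ℂ) * (X a * W j).trace) := fun j a => by
    rw [coef hX (hy j) a, neg_neg]
  have hB : ∀ j, dH (W j) (dH (W j) f) g =
      ∑ a, ∑ b, (y j a * y j b : ℂ) * dH (X a) (dH (X b) f) g := by
    intro j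
    have e1 : dH (W j) f = fun g => ∑ b, (y j b : ℂ) * dH (X b) f g := by
      funext g
      have h1 := (lsum L A hX.mem (y j) Finset.univ).2 f hf g
      rw [← hy j] at h1
      exact h1
    have h2 := (lsum L A hX.mem (y j) Finset.univ).2 (dH (W j) f) (A.d (W j) (hW j) f hf) g
    rw [← hy j] at h2
    rw [h2]
    refine Finset.sum_congr rfl fun a _ => ?_
    rw [e1, (dsum hC (hX.mem a) (fun b => dH (X b) f)
      (fun b => A.c2 _ (A.d _ (hX.mem b) f hf)) (fun b => (y j b : ℂ)) Finset.univ).2 g,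
      Finset.mul_sum]
    refine Finset.sum_congr rfl fun b _ => ?_
    ring
  simp only [hB, Finset.mul_sum]
  rw [Finset.sum_comm]
  unfold lapH
  refine Finset.sum_congr rfl fun a _ => ?_
  rw [Finset.sum_comm]
  have h5 : ∀ b, ∑ j, w j * ((y j a * y j b : ℂ) * dH (X a) (dH (X b) f) g) =
      if a = b then dH (X a) (dH (X a) f) g else 0 := by
    intro b
    have h6 : ∑ j, w j * ((y j a * y j b : ℂ) * dH (X a) (dH (X b) f) g) =
        (∑ j, w j * ((c : ℂ) * (X a * W j).trace * ((c : ℂ) * (X b * W j).trace))) *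
          dH (X a) (dH (X b) f) g := by
      rw [Finset.sum_mul]
      refine Finset.sum_congr rfl fun j _ => ?_
      rw [hy2, hy2]
      ring
    rw [h6, h]
    split
    · next h => rw [h, one_mul]
    · rw [zero_mul]
  simp only [h5, Finset.sum_ite_eq, Finset.mem_univ, if_true]

theorem tr_conj (A B : Matrix (Fin N) (Fin N) ℂ) : (Aᴴ * B).trace = conj (A * Bᴴ).trace := by
  have h1 : (A * Bᴴ)ᴴ = B * Aᴴ := by
    rw [Matrix.conjTranspose_mul, Matrix.conjTranspose_conjTranspose]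
  have h2 := Matrix.trace_conjTranspose (A * Bᴴ)
  rw [h1, Matrix.trace_mul_comm] at h2
  exact h2

/-- `u v - v u` -/
theorem uv (e : Matrix (Fin N) (Fin N) ℂ) :
    (e - eᴴ) * (Complex.I • (e + eᴴ)) - (Complex.I • (e + eᴴ)) * (e - eᴴ) =
      (2 * Complex.I) • (e * eᴴ - eᴴ * e) := by
  rw [Matrix.mul_smul, Matrix.smul_mul, ← smul_sub, mul_comm, mul_smul]
  congr 1
  rw [two_smul]
  noncomm_ring

end HQEI

open HQEI

theorem t_HQEI : M_HQEI := by
  intro hCALH hLIEB N H n e δ 𝒜 b f c d X hcl hc hX hN hA hf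
  have hC : CALFH H := hCALH N H
  have L : LIF H := hLIEB N H hcl
  have hc' : (c : ℂ) ≠ 0 := by exact_mod_cast hc.ne'
  have hherm : ∀ Y ∈ lie H, Yᴴ = -Y := fun Y hY => (L.su Y hY).1
  -- `δ` is Hermitian
  have hδ : δᴴ = δ := by
    rw [hN.del, Matrix.conjTranspose_sum]
    refine Finset.sum_congr rfl fun k _ => ?_
    rw [Matrix.conjTranspose_sub, Matrix.conjTranspose_mul, Matrix.conjTranspose_mul,
      Matrix.conjTranspose_conjTranspose]
  have hd2 : (((δ * δ).trace.re : ℝ) : ℂ) = (δ * δ).trace := by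
    rw [← Complex.conj_eq_iff_re]
    have h1 := tr_conj δ δ
    rw [hδ] at h1
    exact h1.symm
  -- traces with `e k`
  have he1 : ∀ Y ∈ lie H, Y * δ = δ * Y → ∀ k, (Y * e k).trace = 0 := fun Y hY hc k => by
    rw [Matrix.trace_mul_comm]
    exact hN.orthl Y hY hc k
  have he2 : ∀ Y ∈ lie H, Y * δ = δ * Y → ∀ k, (Y * (e k)ᴴ).trace = 0 := fun Y hY hc k => by
    rw [Matrix.trace_mul_comm, tr_conj, hherm Y hY, Matrix.mul_neg, Matrix.trace_neg,
      hN.orthl Y hY hc k, neg_zero, map_zero]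
  choose Y hY hYδ hYz using fun a => hN.span (X a) (hX.mem a)
  choose z hz using hYz
  -- traces of `X a` with elements which commute with `δ`
  have hXl : ∀ a, ∀ Z ∈ lie H, Z * δ = δ * Z → (X a * Z).trace = (Y a * Z).trace := by
    intro a Z hZ hZδ
    conv_lhs => rw [hz a]
    rw [Matrix.add_mul, Matrix.trace_add, Finset.sum_mul, Matrix.trace_sum]
    have h1 : ∀ k, ((z a k • e k - conj (z a k) • (e k)ᴴ) * Z).trace = 0 := by
      intro k
      rw [Matrix.sub_mul, Matrix.trace_sub, Matrix.smul_mul, Matrix.smul_mul, Matrix.trace_smul,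
        Matrix.trace_smul, Matrix.trace_mul_comm, he1 Z hZ hZδ, Matrix.trace_mul_comm,
        he2 Z hZ hZδ, smul_zero, smul_zero, sub_zero]
    simp only [h1, Finset.sum_const_zero, add_zero]
  have horth3 : ∀ j k, ((e j)ᴴ * e k).trace = if j = k then 1 else 0 := by
    intro j k
    rw [Matrix.trace_mul_comm, hN.orth k j]
    by_cases h : j = k
    · rw [if_pos h, if_pos h.symm]
    · rw [if_neg h, if_neg (fun h' => h h'.symm)]
  have horth4 : ∀ j k, ((e j)ᴴ * (e k)ᴴ).trace = 0 := by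
    intro j k
    rw [tr_conj, Matrix.conjTranspose_conjTranspose, hN.orth2, map_zero]
  have hXe : ∀ a k, (X a * e k).trace = -conj (z a k) := by
    intro a k
    conv_lhs => rw [hz a]
    rw [Matrix.add_mul, Matrix.trace_add, Finset.sum_mul, Matrix.trace_sum,
      he1 (Y a) (hY a) (hYδ a), zero_add]
    have h1 : ∀ l, ((z a l • e l - conj (z a l) • (e l)ᴴ) * e k).trace =
        if l = k then -conj (z a k) else 0 := by
      intro l
      rw [Matrix.sub_mul, Matrix.trace_sub, Matrix.smul_mul, Matrix.smul_mul, Matrix.trace_smul,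
        Matrix.trace_smul, hN.orth2, horth3]
      by_cases h : l = k
      · rw [if_pos h, if_pos h, h]
        simp
      · rw [if_neg h, if_neg h]
        simp
    simp only [h1, Finset.sum_ite_eq', Finset.mem_univ, if_true]
  have hXe' : ∀ a k, (X a * (e k)ᴴ).trace = z a k := by
    intro a k
    conv_lhs => rw [hz a]
    rw [Matrix.add_mul, Matrix.trace_add, Finset.sum_mul, Matrix.trace_sum,
      he2 (Y a) (hY a) (hYδ a), zero_add]
    have h1 : ∀ l, ((z a l • e l - conj (z a l) • (e l)ᴴ) * (e k)ᴴ).trace =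
        if l = k then z a k else 0 := by
      intro l
      rw [Matrix.sub_mul, Matrix.trace_sub, Matrix.smul_mul, Matrix.smul_mul, Matrix.trace_smul,
        Matrix.trace_smul, hN.orth, horth4]
      by_cases h : l = k
      · rw [if_pos h, if_pos h, h]
        simp
      · rw [if_neg h, if_neg h]
        simp
    simp only [h1, Finset.sum_ite_eq', Finset.mem_univ, if_true]
  -- the new frame
  set u : Fin n → Matrix (Fin N) (Fin N) ℂ := fun k => e k - (e k)ᴴ with hu
  set v : Fin n → Matrix (Fin N) (Fin N) ℂ := fun k => Complex.I • (e k + (e k)ᴴ) with hv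
  have hXu : ∀ a k, (X a * u k).trace = -conj (z a k) - z a k := by
    intro a k
    rw [hu]
    simp only [Matrix.mul_sub, Matrix.trace_sub, hXe, hXe']
  have hXv : ∀ a k, (X a * v k).trace = Complex.I * (-conj (z a k) + z a k) := by
    intro a k
    rw [hv]
    simp only [Matrix.mul_smul, Matrix.mul_add, Matrix.trace_smul, Matrix.trace_add, hXe, hXe',
      smul_eq_mul]
  have key : ∀ a b, ∑ j : (Fin n ⊕ Fin n) ⊕ Fin d,
      (Sum.elim (fun _ => 1 / (2 * (c : ℂ))) (fun _ => 1) j : ℂ) *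
      ((c : ℂ) * (X a * (Sum.elim (Sum.elim u v) Y j)).trace *
        ((c : ℂ) * (X b * (Sum.elim (Sum.elim u v) Y j)).trace)) = if a = b then 1 else 0 := by
    intro a b
    rw [Fintype.sum_sum_type, Fintype.sum_sum_type]
    simp only [Sum.elim_inl, Sum.elim_inr, one_mul]
    have h1 : ∑ p, (c : ℂ) * (X a * Y p).trace * ((c : ℂ) * (X b * Y p).trace) =
        -(c : ℂ) * (Y b * Y a).trace := by
      rw [← pars hX (Y a) (hY b)]
      refine Finset.sum_congr rfl fun p _ => ?_
      rw [hXl a (Y p) (hY p) (hYδ p), hXl b (Y p) (hY p) (hYδ p), hXl p (Y a) (hY a) (hYδ a),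
        hXl p (Y b) (hY b) (hYδ b), Matrix.trace_mul_comm (Y a), Matrix.trace_mul_comm (Y b)]
    have h2 : (X b * X a).trace = (Y b * Y a).trace -
        ∑ k, (z a k * conj (z b k) + conj (z a k) * z b k) := by
      conv_lhs => rw [hz a]
      rw [Matrix.mul_add, Matrix.trace_add, hXl b (Y a) (hY a) (hYδ a), Matrix.mul_sum,
        Matrix.trace_sum, sub_eq_add_neg, ← Finset.sum_neg_distrib]
      congr 1
      refine Finset.sum_congr rfl fun k _ => ?_
      rw [Matrix.mul_sub, Matrix.trace_sub, Matrix.mul_smul, Matrix.mul_smul, Matrix.trace_smul,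
        Matrix.trace_smul, hXe, hXe', smul_eq_mul, smul_eq_mul]
      ring
    have h3 : ∑ k, 1 / (2 * (c : ℂ)) * ((c : ℂ) * (X a * u k).trace * ((c : ℂ) * (X b * u k).trace)) +
        ∑ k, 1 / (2 * (c : ℂ)) * ((c : ℂ) * (X a * v k).trace * ((c : ℂ) * (X b * v k).trace)) =
        (c : ℂ) * ∑ k, (z a k * conj (z b k) + conj (z a k) * z b k) := by
      rw [← Finset.sum_add_distrib, Finset.mul_sum]
      refine Finset.sum_congr rfl fun k _ => ?_
      rw [hXu, hXu, hXv, hXv]
      field_simp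
      ring_nf
      rw [Complex.I_sq]
      ring
    have h4 := hX.orth b a
    have h5 : (if b = a then (1 : ℂ) else 0) = if a = b then 1 else 0 := by
      by_cases h : a = b
      · rw [if_pos h, if_pos h.symm]
      · rw [if_neg h, if_neg (fun h' => h h'.symm)]
    rw [h3, h1, ← h5, ← h4, h2]
    ring
  refine ⟨hA.c2 f hf.mem, fun g => ?_⟩
  have hW : ∀ j, (Sum.elim (Sum.elim u v) Y j : Matrix (Fin N) (Fin N) ℂ) ∈ lie H := by
    rintro ((k | k) | a)
    · exact (hN.emem k).1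
    · exact (hN.emem k).2
    · exact hY a
  rw [← gen hC L hA hf.mem hX (Sum.elim (Sum.elim u v) Y) hW
    (Sum.elim (fun _ => 1 / (2 * (c : ℂ))) (fun _ => 1)) key g]
  rw [Fintype.sum_sum_type, Fintype.sum_sum_type]
  simp only [Sum.elim_inl, Sum.elim_inr, one_mul]
  -- the part which commutes with `δ`
  have p1 : ∑ a, dH (Y a) (dH (Y a) f) g = -((b : ℂ) ^ 2 / c * (δ * δ).trace) * f g := by
    have h1 : ∀ a, dH (Y a) (dH (Y a) f) g = -((b : ℂ) ^ 2 / c ^ 2) *
        ((c : ℂ) * (X a * ((-Complex.I) • δ)).trace * ((c : ℂ) * (X a * ((-Complex.I) • δ)).trace)) *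
          f g := by
      intro a
      have h2 : dH (Y a) f = fun g => (b * (Y a * δ).trace) * f g := by
        funext g
        exact hf.wt (Y a) (hY a) (hYδ a) g
      have h3 : (X a * ((-Complex.I) • δ)).trace = -Complex.I * (Y a * δ).trace := by
        rw [hXl a _ hN.dmem (by rw [Matrix.smul_mul, Matrix.mul_smul]), Matrix.mul_smul,
          Matrix.trace_smul, smul_eq_mul]
      rw [h2, dcm, hf.wt (Y a) (hY a) (hYδ a) g, h3]
      field_simp
      ring_nf
      rw [Complex.I_sq]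
      ring
    simp only [h1]
    rw [← Finset.sum_mul, ← Finset.mul_sum, pars hX _ hN.dmem, Matrix.smul_mul, Matrix.mul_smul,
      smul_smul, Matrix.trace_smul, smul_eq_mul, neg_mul_neg, Complex.I_mul_I]
    field_simp
  -- the other part
  have p2 : ∀ k, dH (u k) (dH (u k) f) g + dH (v k) (dH (v k) f) g =
      -(2 * b * ((e k * (e k)ᴴ - (e k)ᴴ * e k) * δ).trace) * f g := by
    intro k
    obtain ⟨r, hr, hr2⟩ := hN.eig k
    have h1 : dH (u k) f = fun g => Complex.I * dH (v k) f g := by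
      funext g
      exact hf.hw k g
    have h2 : dH (v k) f = fun g => -Complex.I * dH (u k) f g := by
      funext g
      rw [h1, ← mul_assoc, neg_mul, Complex.I_mul_I, neg_neg, one_mul]
    have h3 : dH (u k) (dH (u k) f) g = Complex.I * dH (u k) (dH (v k) f) g := by
      conv_lhs => rw [h1]
      exact dcm _ _ _ _
    have h4 : dH (v k) (dH (v k) f) g = -Complex.I * dH (v k) (dH (u k) f) g := by
      conv_lhs => rw [h2]
      exact dcm _ _ _ _
    have h5 := hA.comm (u k) (hN.emem k).1 (v k) (hN.emem k).2 f hf.mem g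
    have h6 : u k * v k - v k * u k = (2 * Complex.I) • (e k * (e k)ᴴ - (e k)ᴴ * e k) := uv (e k)
    have h7 : u k * v k - v k * u k ∈ lie H := L.br _ (hN.emem k).1 _ (hN.emem k).2
    have h8 : δ * e k = e k * δ + (r : ℂ) • e k := by
      rw [← hr2]
      abel
    have h9 : (e k)ᴴ * δ = δ * (e k)ᴴ + (r : ℂ) • (e k)ᴴ := by
      have h10 := congrArg Matrix.conjTranspose h8
      rw [Matrix.conjTranspose_mul, Matrix.conjTranspose_add, Matrix.conjTranspose_mul, hδ,
        Matrix.conjTranspose_smul, Complex.star_def, Complex.conj_ofReal] at h10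
      exact h10
    have h10 : (e k * (e k)ᴴ) * δ = δ * (e k * (e k)ᴴ) := by
      rw [Matrix.mul_assoc, h9, ← Matrix.mul_assoc, h8, Matrix.mul_add, Matrix.add_mul,
        Matrix.mul_smul, Matrix.smul_mul, Matrix.mul_assoc]
    have h11 : ((e k)ᴴ * e k) * δ = δ * ((e k)ᴴ * e k) := by
      have h12 : e k * δ = δ * e k - (r : ℂ) • e k := by
        rw [h8]
        abel
      rw [Matrix.mul_assoc, h12, Matrix.mul_sub, ← Matrix.mul_assoc, h9, Matrix.add_mul,
        Matrix.mul_smul, Matrix.smul_mul, Matrix.mul_assoc]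
      abel
    have h12 : (u k * v k - v k * u k) * δ = δ * (u k * v k - v k * u k) := by
      rw [h6, Matrix.smul_mul, Matrix.mul_smul, Matrix.sub_mul, Matrix.mul_sub, h10, h11]
    rw [hf.wt _ h7 h12 g, h6, Matrix.smul_mul, Matrix.trace_smul, smul_eq_mul] at h5
    rw [h3, h4]
    have h13 : Complex.I * dH (u k) (dH (v k) f) g + -Complex.I * dH (v k) (dH (u k) f) g =
        Complex.I * (dH (u k) (dH (v k) f) g - dH (v k) (dH (u k) f) g) := by ring
    rw [h13, h5]
    ring_nf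
    rw [Complex.I_sq]
    ring
  rw [p1, ← Finset.sum_add_distrib]
  have p3 : ∑ k, (1 / (2 * (c : ℂ)) * dH (u k) (dH (u k) f) g +
      1 / (2 * (c : ℂ)) * dH (v k) (dH (v k) f) g) = -((b : ℂ) / c * (δ * δ).trace) * f g := by
    have h1 : ∀ k, 1 / (2 * (c : ℂ)) * dH (u k) (dH (u k) f) g +
        1 / (2 * (c : ℂ)) * dH (v k) (dH (v k) f) g =
        -((b : ℂ) / c * ((e k * (e k)ᴴ - (e k)ᴴ * e k) * δ).trace) * f g := by
      intro k
      rw [← mul_add, p2 k]
      field_simp
    simp only [h1]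
    rw [← Finset.sum_mul, Finset.sum_neg_distrib, ← Finset.mul_sum, ← Matrix.trace_sum,
      ← Finset.sum_mul, ← hN.del]
  rw [p3]
  push_cast
  rw [hd2]
  ring

end LGR
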