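import Pool.Agent.LGR.StV

/-!
# Module HQPW: powers of highest weight functions
-/

namespace LGR

open STZ MeasureTheory Matrix Filter

open scoped ComplexConjugate Matrix Real Topology

noncomputable section

namespace HQPW

/-- the derivative of a power -/
theorem dpow {N : ℕ} {H : Subgroup (SU N)} (hC : CALFH H) {X : Matrix (Fin N) (Fin N) ℂ} (hX : X ∈ lie H)
    (f : H → ℂ) (hf : ∀ m : ℕ, C1H (fun g => f g ^ m)) (m : ℕ) (g : H) :
    dH X (fun g => f g ^ m) g = m * f g ^ (m - 1) * dH X f g := by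
  induction m with
  | zero =>
    have h : (fun g : H => f g ^ 0) = fun _ => (1 : ℂ) := by
      funext g
      simp
    rw [h, hC.dconst]
    simp
  | succ m ih =>
    have h : (fun g : H => f g ^ (m + 1)) = fun g => f g ^ m * f g := by
      funext g
      rw [pow_succ]
    have h1 : C1H f := by
      have := hf 1
      simpa using this
    rw [h, hC.dmul X hX _ _ (hf m) h1 g, ih]
    rcases Nat.eq_zero_or_pos m with h0 | h0
    · subst h0
      simp
    · obtain ⟨n, rfl⟩ : ∃ n, m = n + 1 := ⟨m - 1, by omega⟩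
      have e1 : n + 1 - 1 = n := by omega
      have e2 : n + 1 + 1 - 1 = n + 1 := by omega
      rw [e1, e2]
      push_cast
      ring

end HQPW

theorem t_HQPW : M_HQPW := by
  intro hCAL N H n e δ 𝒜 b f hN hS hf m
  have hC := hCAL N H
  have hmem : ∀ m : ℕ, (fun g => f g ^ m) ∈ 𝒜 := by
    intro m
    have h := pow_mem hf.mem m
    exact h
  have h1 : ∀ m : ℕ, C1H (fun g => f g ^ m) := fun m => (hS.c2 _ (hmem m)).1
  refine ⟨hmem m, ?_, ?_⟩
  · intro Y hY hYδ g
    rw [HQPW.dpow hC hY f h1 m g, hf.wt Y hY hYδ g]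
    rcases Nat.eq_zero_or_pos m with h0 | h0
    · subst h0
      simp
    · obtain ⟨n, rfl⟩ : ∃ n, m = n + 1 := ⟨m - 1, by omega⟩
      have e1 : n + 1 - 1 = n := by omega
      rw [e1]
      push_cast
      ring
  · intro k g
    obtain ⟨hu, hv⟩ := hN.emem k
    rw [HQPW.dpow hC hu f h1 m g, HQPW.dpow hC hv f h1 m g, hf.hw k g]
    ring

end

end LGR
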