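import Pool.Agent.LGR.StE
import Pool.Agent.STZ.LOCI
import Pool.Agent.STZ.INTI

/-!
# The integral of `WW N ^ a * WW M` for `1 < a < 4 / 3`
-/

namespace LGR

open STZ MeasureTheory Matrix

open scoped ComplexConjugate Matrix Real

noncomputable section

namespace INTK

/-- the product of two weights with the same center, the sharper form -/
lemma wt_prod (L M x s p t : ℝ) (hM : 0 < M) (hML : M ≤ L) (hs : 0 ≤ s) (hp : 0 ≤ p) :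
    LOCI.wt L x p t * LOCI.wt M x s t ≤ LOCI.ind x M⁻¹ (LOCI.wt L x p) t +
      (L / M) ^ (-p) * (2 ^ p * LOCI.wt M x (s + p) t) := by
  have hL : 0 < L := by linarith
  have h1 := LOCI.wt_nonneg L x p t hL.le
  have h2 := LOCI.wt_nonneg M x s t hM.le
  have h2' := LOCI.wt_nonneg M x (s + p) t hM.le
  have h3 : 0 ≤ (L / M) ^ (-p) := Real.rpow_nonneg (by positivity) _
  have h3' : (0 : ℝ) ≤ 2 ^ p := Real.rpow_nonneg (by norm_num) _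
  unfold LOCI.ind
  by_cases h : t ∈ Set.Icc (x - M⁻¹) (x + M⁻¹)
  · rw [Set.indicator_of_mem h]
    have h4 := LOCI.wt_le_one M x s t hM.le hs
    have h5 : LOCI.wt L x p t * LOCI.wt M x s t ≤ LOCI.wt L x p t * 1 :=
      mul_le_mul_of_nonneg_left h4 h1
    have h6 := mul_nonneg h3 (mul_nonneg h3' h2')
    linarith
  · rw [Set.indicator_of_notMem h, zero_add]
    have h4 : M⁻¹ ≤ |t - x| := by
      by_contra h5
      push Not at h5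
      apply h
      rw [abs_lt] at h5
      constructor <;> linarith [h5.1, h5.2]
    have hb : 0 < 1 + M * |t - x| := by
      have := LOCI.base_ge M x t hM.le
      linarith
    have hLM : 0 < L / M := by positivity
    have h5 : L / M * (1 + M * |t - x|) ≤ 2 * (1 + L * |t - x|) := by
      have e : L / M * (1 + M * |t - x|) = L * M⁻¹ + L * |t - x| := by
        field_simp
      rw [e]
      have := mul_le_mul_of_nonneg_left h4 hL.le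
      linarith
    have h6 : LOCI.wt L x p t ≤ (L / M) ^ (-p) * (2 ^ p * (1 + M * |t - x|) ^ (-p)) := by
      have h7 : (2 * (1 + L * |t - x|)) ^ (-p) ≤ (L / M * (1 + M * |t - x|)) ^ (-p) :=
        Real.rpow_le_rpow_of_nonpos (by positivity) h5 (by linarith)
      have hbL := LOCI.base_ge L x t hL.le
      rw [Real.mul_rpow (by norm_num) (by linarith), Real.mul_rpow hLM.le hb.le] at h7
      have h8 : (2 : ℝ) ^ p * (2 : ℝ) ^ (-p) = 1 := by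
        rw [← Real.rpow_add (by norm_num)]
        simp
      calc LOCI.wt L x p t = 2 ^ p * (2 ^ (-p) * (1 + L * |t - x|) ^ (-p)) := by
            rw [← mul_assoc, h8, one_mul]
            rfl
        _ ≤ 2 ^ p * ((L / M) ^ (-p) * (1 + M * |t - x|) ^ (-p)) :=
            mul_le_mul_of_nonneg_left h7 h3'
        _ = _ := by ring
    have h9 : LOCI.wt M x (s + p) t = (1 + M * |t - x|) ^ (-p) * LOCI.wt M x s t := by
      unfold LOCI.wt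
      rw [← Real.rpow_add hb]
      congr 1
      ring
    rw [h9]
    calc LOCI.wt L x p t * LOCI.wt M x s t
        ≤ (L / M) ^ (-p) * (2 ^ p * (1 + M * |t - x|) ^ (-p)) * LOCI.wt M x s t :=
          mul_le_mul_of_nonneg_right h6 h2
      _ = _ := by ring

/-- the majorant -/
def GG (c N M : ℕ) (ρ₀ : ℚ) (A a K : ℝ) (t : ℝ) : ℝ :=
  A ^ a * (K * LOCI.wt ((M : ℝ) ^ 2) ρ₀ (5 / 4) t) +
    ((N : ℝ) ^ 2 / ρ₀.den) ^ a *
      (LOCI.ind ρ₀ ((M : ℝ) ^ 2)⁻¹ (LOCI.wt ((N : ℝ) ^ 2) ρ₀ (3 / 4 * a)) t +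
      ((N : ℝ) ^ 2 / (M : ℝ) ^ 2) ^ (-(3 / 4 * a)) *
        (2 ^ (3 / 4 * a) * LOCI.wt ((M : ℝ) ^ 2) ρ₀ (3 / 4 + 3 / 4 * a) t)) +
    ∑ ρ ∈ LOCI.SS c N M ρ₀,
      (2 ^ (5 / 4 : ℝ) * (K * LOCI.wt ((M : ℝ) ^ 2) ρ₀ (5 / 4) ρ) * ((N : ℝ) ^ 2 / ρ.den) ^ a) *
      LOCI.ind ρ (LOCI.dl c N ρ) (LOCI.wt ((N : ℝ) ^ 2) ρ (3 / 4 * a)) t

/-- the weights of the exponents `3/4` and `5/4` -/
lemma wt_54 (M x K t : ℝ) (hM : 0 ≤ M) (hK : (1 + M * |t - x|) ^ (1 / 2 : ℝ) ≤ K) :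
    LOCI.wt M x (3 / 4) t ≤ K * LOCI.wt M x (5 / 4) t := by
  have hb := LOCI.base_ge M x t hM
  have e : LOCI.wt M x (3 / 4) t = (1 + M * |t - x|) ^ (1 / 2 : ℝ) * LOCI.wt M x (5 / 4) t := by
    unfold LOCI.wt
    rw [← Real.rpow_add (by linarith)]
    congr 1
    norm_num
  rw [e]
  exact mul_le_mul_of_nonneg_right hK (LOCI.wt_nonneg _ _ _ _ hM)

lemma point (c N M : ℕ) (ρ₀ : ℚ) (C a K : ℝ) (hc : 1 ≤ c) (hM : 1 ≤ M) (hN : 2 * M ≤ N)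
    (h0 : ρ₀.den ≤ 2 * c * M) (ha : 0 < a) (hC : 0 ≤ C) (hK0 : 0 ≤ K)
    (hK : ∀ t : ℝ, |t - ρ₀| ≤ 1 / (ρ₀.den * (2 * c * M)) →
      (1 + (M : ℝ) ^ 2 * |t - ρ₀|) ^ (1 / 2 : ℝ) ≤ K)
    (hW : ∀ (t : ℝ) (ρ : ℚ), ρ.den ≤ 2 * c * N → |t - ρ| ≤ 1 / (ρ.den * (2 * c * N)) →
      WW N c t ≤ C * (N * (1 + Real.log N) +
      (N : ℝ) ^ 2 / ρ.den * (1 + (N : ℝ) ^ 2 * |t - ρ|) ^ (-(3 / 4) : ℝ)))
    (t : ℝ) (ht0 : |t - ρ₀| ≤ 1 / (ρ₀.den * (2 * c * M))) :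
    WW N c t ^ a * LOCI.wt ((M : ℝ) ^ 2) ρ₀ (3 / 4) t ≤
      (C ^ a * 2 ^ a) * GG c N M ρ₀ (N * (1 + Real.log N)) a K t := by
  have hN1 : 1 ≤ N := by omega
  have hNc : 0 < 2 * c * N := by positivity
  obtain ⟨ρ, h1, h2⟩ := Real.exists_rat_abs_sub_le_and_den_le t hNc
  have hq : (1 : ℝ) ≤ ρ.den := by exact_mod_cast ρ.pos
  have hq0 : (1 : ℝ) ≤ ρ₀.den := by exact_mod_cast ρ₀.pos
  have hNR : (1 : ℝ) ≤ N := by exact_mod_cast hN1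
  have hMR : (1 : ℝ) ≤ M := by exact_mod_cast hM
  have hcR : (1 : ℝ) ≤ c := by exact_mod_cast hc
  have hMN : 2 * (M : ℝ) ≤ N := by exact_mod_cast hN
  have hlog : 0 ≤ Real.log N := Real.log_nonneg hNR
  have h3 : |t - ρ| ≤ 1 / (ρ.den * (2 * c * N)) := by
    refine h1.trans ?_
    have e : ((2 * c * N : ℕ) : ℝ) = 2 * c * N := by push_cast; ring
    rw [e]
    apply one_div_le_one_div_of_le (by positivity)
    nlinarith
  have h4 := hW t ρ h2 h3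
  have hA : 0 ≤ (N : ℝ) * (1 + Real.log N) := by positivity
  have hB0 : 0 ≤ LOCI.wt ((N : ℝ) ^ 2) ρ (3 / 4) t := LOCI.wt_nonneg _ _ _ _ (by positivity)
  have hB : 0 ≤ (N : ℝ) ^ 2 / ρ.den * LOCI.wt ((N : ℝ) ^ 2) ρ (3 / 4) t := by positivity
  have hw := LOCI.wt_nonneg ((M : ℝ) ^ 2) ρ₀ (3 / 4) t (by positivity)
  have hw5 := LOCI.wt_nonneg ((M : ℝ) ^ 2) ρ₀ (5 / 4) t (by positivity)
  have hwK := wt_54 ((M : ℝ) ^ 2) ρ₀ K t (by positivity) (hK t ht0)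
  have hCa : 0 ≤ C ^ a := Real.rpow_nonneg hC a
  have h2a : 0 ≤ (2 : ℝ) ^ a := Real.rpow_nonneg (by norm_num) a
  have hpw : (LOCI.wt ((N : ℝ) ^ 2) ρ (3 / 4) t) ^ a = LOCI.wt ((N : ℝ) ^ 2) ρ (3 / 4 * a) t := by
    unfold LOCI.wt
    rw [← Real.rpow_mul (by positivity)]
    congr 1
    ring
  have h5 : WW N c t ^ a ≤ C ^ a * 2 ^ a * ((N * (1 + Real.log N)) ^ a +
      ((N : ℝ) ^ 2 / ρ.den) ^ a * LOCI.wt ((N : ℝ) ^ 2) ρ (3 / 4 * a) t) := by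
    calc WW N c t ^ a ≤ (C * (N * (1 + Real.log N) +
          (N : ℝ) ^ 2 / ρ.den * LOCI.wt ((N : ℝ) ^ 2) ρ (3 / 4) t)) ^ a :=
          Real.rpow_le_rpow (LOCI.WW_nonneg N c t) h4 ha.le
      _ = C ^ a * (N * (1 + Real.log N) +
          (N : ℝ) ^ 2 / ρ.den * LOCI.wt ((N : ℝ) ^ 2) ρ (3 / 4) t) ^ a :=
          Real.mul_rpow hC (by positivity)
      _ ≤ C ^ a * (2 ^ a * ((N * (1 + Real.log N)) ^ a +
          ((N : ℝ) ^ 2 / ρ.den * LOCI.wt ((N : ℝ) ^ 2) ρ (3 / 4) t) ^ a)) :=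
          mul_le_mul_of_nonneg_left (LOCI.pow_add_le _ _ _ hA hB ha.le) hCa
      _ = _ := by
        rw [Real.mul_rpow (by positivity) hB0, hpw]
        ring
  refine (mul_le_mul_of_nonneg_right h5 hw).trans ?_
  rw [mul_assoc]
  apply mul_le_mul_of_nonneg_left _ (by positivity)
  unfold GG
  have hn1 : ∀ u : ℝ, 0 ≤ LOCI.wt ((N : ℝ) ^ 2) ρ₀ (3 / 4 * a) u :=
    fun u => LOCI.wt_nonneg _ _ _ _ (by positivity)
  have hsum0 : ∀ ρ' ∈ LOCI.SS c N M ρ₀, 0 ≤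
      (2 ^ (5 / 4 : ℝ) * (K * LOCI.wt ((M : ℝ) ^ 2) ρ₀ (5 / 4) ρ') * ((N : ℝ) ^ 2 / ρ'.den) ^ a) *
      LOCI.ind ρ' (LOCI.dl c N ρ') (LOCI.wt ((N : ℝ) ^ 2) ρ' (3 / 4 * a)) t := by
    intro ρ' _
    have i1 := LOCI.ind_nonneg ρ' (LOCI.dl c N ρ') (LOCI.wt ((N : ℝ) ^ 2) ρ' (3 / 4 * a)) t
      fun u => LOCI.wt_nonneg _ _ _ _ (by positivity)
    have i2 := LOCI.wt_nonneg ((M : ℝ) ^ 2) ρ₀ (5 / 4) ρ' (by positivity)
    have i3 : 0 ≤ (2 : ℝ) ^ (5 / 4 : ℝ) := Real.rpow_nonneg (by norm_num) _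
    have i4 : 0 ≤ ((N : ℝ) ^ 2 / ρ'.den) ^ a := Real.rpow_nonneg (by positivity) a
    positivity
  have hNa : 0 ≤ (N * (1 + Real.log N)) ^ a := Real.rpow_nonneg hA a
  have hfirst : (N * (1 + Real.log N)) ^ a * LOCI.wt ((M : ℝ) ^ 2) ρ₀ (3 / 4) t ≤
      (N * (1 + Real.log N)) ^ a * (K * LOCI.wt ((M : ℝ) ^ 2) ρ₀ (5 / 4) t) :=
    mul_le_mul_of_nonneg_left hwK hNa
  rw [add_mul]
  by_cases hne : ρ = ρ₀
  · subst hne
    have h6 := wt_prod ((N : ℝ) ^ 2) ((M : ℝ) ^ 2) ρ (3 / 4) (3 / 4 * a) t (by positivity)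
      (by nlinarith) (by norm_num) (by positivity)
    have h7 : 0 ≤ ((N : ℝ) ^ 2 / ρ.den) ^ a := Real.rpow_nonneg (by positivity) a
    have h8 := mul_le_mul_of_nonneg_left h6 h7
    have h9 := Finset.sum_nonneg hsum0
    rw [← mul_assoc] at h8
    linarith
  · have hcM := LOCI.den_ge c N M ρ₀ ρ t hc hM hN h0 hne ht0 h3
    have hM' : (M : ℝ) ≤ ρ.den := by nlinarith
    have hMd : M ≤ ρ.den := by exact_mod_cast hM'
    have h1' : |(ρ : ℝ) - ρ₀| ≤ 1 := by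
      have i1 : |(ρ : ℝ) - ρ₀| ≤ |t - ρ₀| + |t - ρ| := by
        calc |(ρ : ℝ) - ρ₀| = |(t - ρ₀) - (t - ρ)| := by ring_nf
          _ ≤ |t - ρ₀| + |t - ρ| := abs_sub _ _
      have i2 : 1 / (ρ₀.den * (2 * c * M) : ℝ) ≤ 1 / 2 := by
        apply one_div_le_one_div_of_le (by norm_num)
        have : (1 : ℝ) ≤ (c : ℝ) * M := by nlinarith
        nlinarith
      have i3 : 1 / (ρ.den * (2 * c * N) : ℝ) ≤ 1 / 2 := by
        apply one_div_le_one_div_of_le (by norm_num)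
        have : (1 : ℝ) ≤ (c : ℝ) * N := by nlinarith
        nlinarith
      linarith
    have hmem := LOCI.mem_SS c N M ρ₀ ρ h1' hMd h2
    have h6 := Finset.single_le_sum hsum0 hmem
    have hin : t ∈ Set.Icc ((ρ : ℝ) - LOCI.dl c N ρ) (ρ + LOCI.dl c N ρ) := by
      rw [abs_le] at h3
      unfold LOCI.dl
      constructor <;> linarith [h3.1, h3.2]
    have h7 : LOCI.ind ρ (LOCI.dl c N ρ) (LOCI.wt ((N : ℝ) ^ 2) ρ (3 / 4 * a)) t =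
        LOCI.wt ((N : ℝ) ^ 2) ρ (3 / 4 * a) t := by
      unfold LOCI.ind
      exact Set.indicator_of_mem hin _
    rw [h7] at h6
    have h8 : (M : ℝ) ^ 2 * |t - ρ| ≤ 1 := by
      have i1 : (M : ℝ) ^ 2 * |t - ρ| ≤ (M : ℝ) ^ 2 * (1 / (ρ.den * (2 * c * N))) :=
        mul_le_mul_of_nonneg_left h3 (by positivity)
      refine i1.trans ?_
      rw [mul_one_div, div_le_one (by positivity)]
      have i2 : (M : ℝ) ≤ 2 * c * N := by nlinarith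
      nlinarith
    have h9 := LOCI.wt_near ((M : ℝ) ^ 2) ρ₀ (5 / 4) t ρ (by positivity) (by norm_num) h8
    have hwN := LOCI.wt_nonneg ((N : ℝ) ^ 2) ρ (3 / 4 * a) t (by positivity)
    have h10 : 0 ≤ ((N : ℝ) ^ 2 / ρ.den) ^ a := Real.rpow_nonneg (by positivity) a
    have h9' : LOCI.wt ((M : ℝ) ^ 2) ρ₀ (3 / 4) t ≤
        K * (2 ^ (5 / 4 : ℝ) * LOCI.wt ((M : ℝ) ^ 2) ρ₀ (5 / 4) ρ) :=
      hwK.trans (mul_le_mul_of_nonneg_left h9 hK0)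
    have h11 : ((N : ℝ) ^ 2 / ρ.den) ^ a * LOCI.wt ((N : ℝ) ^ 2) ρ (3 / 4 * a) t *
        LOCI.wt ((M : ℝ) ^ 2) ρ₀ (3 / 4) t ≤
        ((N : ℝ) ^ 2 / ρ.den) ^ a * LOCI.wt ((N : ℝ) ^ 2) ρ (3 / 4 * a) t *
          (K * (2 ^ (5 / 4 : ℝ) * LOCI.wt ((M : ℝ) ^ 2) ρ₀ (5 / 4) ρ)) :=
      mul_le_mul_of_nonneg_left h9' (by positivity)
    have h12 : 0 ≤ ((N : ℝ) ^ 2 / ρ₀.den) ^ a *
        (LOCI.ind ρ₀ ((M : ℝ) ^ 2)⁻¹ (LOCI.wt ((N : ℝ) ^ 2) ρ₀ (3 / 4 * a)) t +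
        ((N : ℝ) ^ 2 / (M : ℝ) ^ 2) ^ (-(3 / 4 * a)) *
          (2 ^ (3 / 4 * a) * LOCI.wt ((M : ℝ) ^ 2) ρ₀ (3 / 4 + 3 / 4 * a) t)) := by
      have i1 := LOCI.ind_nonneg ρ₀ ((M : ℝ) ^ 2)⁻¹ (LOCI.wt ((N : ℝ) ^ 2) ρ₀ (3 / 4 * a)) t hn1
      have i2 : 0 ≤ ((N : ℝ) ^ 2 / (M : ℝ) ^ 2) ^ (-(3 / 4 * a)) := Real.rpow_nonneg (by positivity) _
      have i3 : 0 ≤ ((N : ℝ) ^ 2 / ρ₀.den) ^ a := Real.rpow_nonneg (by positivity) a
      have i4 := LOCI.wt_nonneg ((M : ℝ) ^ 2) ρ₀ (3 / 4 + 3 / 4 * a) t (by positivity)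
      have i5 : (0 : ℝ) ≤ 2 ^ (3 / 4 * a) := Real.rpow_nonneg (by norm_num) _
      positivity
    have e6 : (2 ^ (5 / 4 : ℝ) * (K * LOCI.wt ((M : ℝ) ^ 2) ρ₀ (5 / 4) ρ) *
        ((N : ℝ) ^ 2 / ρ.den) ^ a) * LOCI.wt ((N : ℝ) ^ 2) ρ (3 / 4 * a) t =
        ((N : ℝ) ^ 2 / ρ.den) ^ a * LOCI.wt ((N : ℝ) ^ 2) ρ (3 / 4 * a) t *
          (K * (2 ^ (5 / 4 : ℝ) * LOCI.wt ((M : ℝ) ^ 2) ρ₀ (5 / 4) ρ)) := by
      ring
    rw [e6] at h6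
    linarith

lemma GG_int (c N M : ℕ) (ρ₀ : ℚ) (A a K u v : ℝ) (huv : u ≤ v) (hA : 0 ≤ A) (hN : 1 ≤ N)
    (hM : 1 ≤ M) (ha : 1 < a) (ha1 : a < 4 / 3) (hK : 0 ≤ K) :
    IntervalIntegrable (GG c N M ρ₀ A a K) volume u v ∧
    ∫ t in u..v, GG c N M ρ₀ A a K t ≤
      A ^ a * (K * (((M : ℝ) ^ 2)⁻¹ * LOCI.KK (5 / 4))) +
      ((N : ℝ) ^ 2 / ρ₀.den) ^ a *
        (2 * (1 + (N : ℝ) ^ 2 * ((M : ℝ) ^ 2)⁻¹) ^ (1 - 3 / 4 * a) / ((N : ℝ) ^ 2 * (1 - 3 / 4 * a)) +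
        ((N : ℝ) ^ 2 / (M : ℝ) ^ 2) ^ (-(3 / 4 * a)) *
          (((M : ℝ) ^ 2)⁻¹ * (2 ^ (3 / 4 * a) * LOCI.KK (3 / 4 + 3 / 4 * a)))) +
      ∑ ρ ∈ LOCI.SS c N M ρ₀,
        (2 ^ (5 / 4 : ℝ) * (K * LOCI.wt ((M : ℝ) ^ 2) ρ₀ (5 / 4) ρ) * ((N : ℝ) ^ 2 / ρ.den) ^ a) *
        (2 * (1 + (N : ℝ) ^ 2 * LOCI.dl c N ρ) ^ (1 - 3 / 4 * a) /
          ((N : ℝ) ^ 2 * (1 - 3 / 4 * a))) := by
  have hNR : (1 : ℝ) ≤ N := by exact_mod_cast hN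
  have hMR : (1 : ℝ) ≤ M := by exact_mod_cast hM
  have c1 := LOCI.wt_cont ((M : ℝ) ^ 2) ρ₀ (5 / 4) (by positivity)
  have c3 := LOCI.wt_cont ((M : ℝ) ^ 2) ρ₀ (3 / 4 + 3 / 4 * a) (by positivity)
  have c2 := LOCI.wt_cont ((N : ℝ) ^ 2) ρ₀ (3 / 4 * a) (by positivity)
  have i1 : IntervalIntegrable (fun t => A ^ a * (K * LOCI.wt ((M : ℝ) ^ 2) ρ₀ (5 / 4) t))
      volume u v := (continuous_const.mul (continuous_const.mul c1)).intervalIntegrable _ _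
  have i2 : IntervalIntegrable (LOCI.ind ρ₀ ((M : ℝ) ^ 2)⁻¹ (LOCI.wt ((N : ℝ) ^ 2) ρ₀ (3 / 4 * a)))
      volume u v := LOCI.ind_integrable _ _ _ _ _ c2
  have i3 : IntervalIntegrable (fun t => ((N : ℝ) ^ 2 / (M : ℝ) ^ 2) ^ (-(3 / 4 * a)) *
      (2 ^ (3 / 4 * a) * LOCI.wt ((M : ℝ) ^ 2) ρ₀ (3 / 4 + 3 / 4 * a) t)) volume u v :=
    (continuous_const.mul (continuous_const.mul c3)).intervalIntegrable _ _
  have i5 : ∀ ρ : ℚ, IntervalIntegrable (fun t => (2 ^ (5 / 4 : ℝ) *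
      (K * LOCI.wt ((M : ℝ) ^ 2) ρ₀ (5 / 4) ρ) *
      ((N : ℝ) ^ 2 / ρ.den) ^ a) *
      LOCI.ind ρ (LOCI.dl c N ρ) (LOCI.wt ((N : ℝ) ^ 2) ρ (3 / 4 * a)) t) volume u v := by
    intro ρ
    apply IntervalIntegrable.const_mul
    exact LOCI.ind_integrable _ _ _ _ _ (LOCI.wt_cont _ _ _ (by positivity))
  have i4 : IntervalIntegrable (fun t => ((N : ℝ) ^ 2 / ρ₀.den) ^ a *
      (LOCI.ind ρ₀ ((M : ℝ) ^ 2)⁻¹ (LOCI.wt ((N : ℝ) ^ 2) ρ₀ (3 / 4 * a)) t +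
      ((N : ℝ) ^ 2 / (M : ℝ) ^ 2) ^ (-(3 / 4 * a)) *
        (2 ^ (3 / 4 * a) * LOCI.wt ((M : ℝ) ^ 2) ρ₀ (3 / 4 + 3 / 4 * a) t))) volume u v :=
    (i2.add i3).const_mul _
  have i6 : IntervalIntegrable (fun t => ∑ ρ ∈ LOCI.SS c N M ρ₀, (2 ^ (5 / 4 : ℝ) *
      (K * LOCI.wt ((M : ℝ) ^ 2) ρ₀ (5 / 4) ρ) *
      ((N : ℝ) ^ 2 / ρ.den) ^ a) *
      LOCI.ind ρ (LOCI.dl c N ρ) (LOCI.wt ((N : ℝ) ^ 2) ρ (3 / 4 * a)) t) volume u v := by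
    have h : (fun t => ∑ ρ ∈ LOCI.SS c N M ρ₀, (2 ^ (5 / 4 : ℝ) *
        (K * LOCI.wt ((M : ℝ) ^ 2) ρ₀ (5 / 4) ρ) * ((N : ℝ) ^ 2 / ρ.den) ^ a) *
        LOCI.ind ρ (LOCI.dl c N ρ) (LOCI.wt ((N : ℝ) ^ 2) ρ (3 / 4 * a)) t) =
        ∑ ρ ∈ LOCI.SS c N M ρ₀, fun t => (2 ^ (5 / 4 : ℝ) *
        (K * LOCI.wt ((M : ℝ) ^ 2) ρ₀ (5 / 4) ρ) * ((N : ℝ) ^ 2 / ρ.den) ^ a) *
        LOCI.ind ρ (LOCI.dl c N ρ) (LOCI.wt ((N : ℝ) ^ 2) ρ (3 / 4 * a)) t := by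
      ext t
      simp
    rw [h]
    exact IntervalIntegrable.sum _ fun ρ _ => i5 ρ
  refine ⟨(i1.add i4).add i6, ?_⟩
  unfold GG
  rw [intervalIntegral.integral_add (i1.add i4) i6, intervalIntegral.integral_add i1 i4,
    intervalIntegral.integral_const_mul, intervalIntegral.integral_const_mul,
    intervalIntegral.integral_const_mul,
    intervalIntegral.integral_add i2 i3, intervalIntegral.integral_const_mul,
    intervalIntegral.integral_const_mul,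
    intervalIntegral.integral_finsetSum fun ρ _ => i5 ρ]
  have hp1 : 3 / 4 * a < 1 := by linarith
  have j1 := LOCI.int_wt ((M : ℝ) ^ 2) ρ₀ (5 / 4) u v (by positivity) (by norm_num) huv
  have j3 := LOCI.int_wt ((M : ℝ) ^ 2) ρ₀ (3 / 4 + 3 / 4 * a) u v (by positivity) (by linarith) huv
  have j2 : ∫ t in u..v, LOCI.ind ρ₀ ((M : ℝ) ^ 2)⁻¹ (LOCI.wt ((N : ℝ) ^ 2) ρ₀ (3 / 4 * a)) t ≤
      2 * (1 + (N : ℝ) ^ 2 * ((M : ℝ) ^ 2)⁻¹) ^ (1 - 3 / 4 * a) / ((N : ℝ) ^ 2 * (1 - 3 / 4 * a)) :=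
    (LOCI.ind_int _ _ u v _ c2 (fun t => LOCI.wt_nonneg _ _ _ _ (by positivity)) (by positivity) huv).trans
      (LOCI.int_small _ _ _ _ (by positivity) hp1 (by positivity))
  have hAa : 0 ≤ A ^ a := Real.rpow_nonneg hA a
  have hH : 0 ≤ ((N : ℝ) ^ 2 / ρ₀.den) ^ a := Real.rpow_nonneg (by positivity) a
  have hk : 0 ≤ ((N : ℝ) ^ 2 / (M : ℝ) ^ 2) ^ (-(3 / 4 * a)) := Real.rpow_nonneg (by positivity) _
  have h2 : (0 : ℝ) ≤ 2 ^ (3 / 4 * a) := Real.rpow_nonneg (by norm_num) _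
  apply add_le_add
  · apply add_le_add
    · exact mul_le_mul_of_nonneg_left (mul_le_mul_of_nonneg_left j1 hK) hAa
    · apply mul_le_mul_of_nonneg_left _ hH
      apply add_le_add j2
      apply mul_le_mul_of_nonneg_left _ hk
      calc 2 ^ (3 / 4 * a) * ∫ t in u..v, LOCI.wt ((M : ℝ) ^ 2) ρ₀ (3 / 4 + 3 / 4 * a) t
          ≤ 2 ^ (3 / 4 * a) * (((M : ℝ) ^ 2)⁻¹ * LOCI.KK (3 / 4 + 3 / 4 * a)) :=
            mul_le_mul_of_nonneg_left j3 h2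
        _ = _ := by ring
  · apply Finset.sum_le_sum
    intro ρ _
    rw [intervalIntegral.integral_const_mul]
    apply mul_le_mul_of_nonneg_left
    · exact (LOCI.ind_int _ _ u v _ (LOCI.wt_cont _ _ _ (by positivity))
        (fun t => LOCI.wt_nonneg _ _ _ _ (by positivity)) (LOCI.dl_nonneg c N ρ) huv).trans
        (LOCI.int_small _ _ _ _ (by positivity) hp1 (LOCI.dl_nonneg c N ρ))
    · have k1 := LOCI.wt_nonneg ((M : ℝ) ^ 2) ρ₀ (5 / 4) ρ (by positivity)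
      have k2 : 0 ≤ (2 : ℝ) ^ (5 / 4 : ℝ) := Real.rpow_nonneg (by norm_num) _
      have k3 : 0 ≤ ((N : ℝ) ^ 2 / ρ.den) ^ a := Real.rpow_nonneg (by positivity) a
      positivity

lemma term2 (N M : ℕ) (q a K : ℝ) (hN : 1 ≤ N) (hM : 1 ≤ M) (hMN : M ≤ N) (hq : 0 < q)
    (ha : 0 < a) (ha1 : a < 4 / 3) :
    ((N : ℝ) ^ 2 / q) ^ a *
        (2 * (1 + (N : ℝ) ^ 2 * ((M : ℝ) ^ 2)⁻¹) ^ (1 - 3 / 4 * a) / ((N : ℝ) ^ 2 * (1 - 3 / 4 * a)) +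
        ((N : ℝ) ^ 2 / (M : ℝ) ^ 2) ^ (-(3 / 4 * a)) * (((M : ℝ) ^ 2)⁻¹ * K)) ≤
      (4 / (1 - 3 / 4 * a) + K) * (q ^ (-a) * (N : ℝ) ^ (2 * a - 2) * ((N : ℝ) / M) ^ (2 - 3 * a / 2)) := by
  have hNR : (1 : ℝ) ≤ N := by exact_mod_cast hN
  have hMR : (1 : ℝ) ≤ M := by exact_mod_cast hM
  have hMNR : (M : ℝ) ≤ N := by exact_mod_cast hMN
  have hN0 : (0 : ℝ) < N := by linarith
  have hM0 : (0 : ℝ) < M := by linarith
  have hp : 0 < 1 - 3 / 4 * a := by linarith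
  have hl : 0 < (N : ℝ) / M := by positivity
  have hl1 : 1 ≤ (N : ℝ) / M := by
    rw [le_div_iff₀ hM0]
    linarith
  have e0 : (N : ℝ) ^ 2 * ((M : ℝ) ^ 2)⁻¹ = ((N : ℝ) / M) ^ (2 : ℝ) := by
    rw [Real.rpow_two]
    field_simp
  have e0' : (N : ℝ) ^ 2 / (M : ℝ) ^ 2 = ((N : ℝ) / M) ^ (2 : ℝ) := by
    rw [Real.rpow_two]
    field_simp
  have h1 : (1 + (N : ℝ) ^ 2 * ((M : ℝ) ^ 2)⁻¹) ^ (1 - 3 / 4 * a) ≤ 2 * ((N : ℝ) / M) ^ (2 - 3 * a / 2) := by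
    rw [e0]
    have h2 : 1 ≤ ((N : ℝ) / M) ^ (2 : ℝ) := Real.one_le_rpow hl1 (by norm_num)
    calc (1 + ((N : ℝ) / M) ^ (2 : ℝ)) ^ (1 - 3 / 4 * a)
        ≤ (2 * ((N : ℝ) / M) ^ (2 : ℝ)) ^ (1 - 3 / 4 * a) :=
          Real.rpow_le_rpow (by positivity) (by linarith) hp.le
      _ = 2 ^ (1 - 3 / 4 * a) * ((N : ℝ) / M) ^ (2 - 3 * a / 2) := by
          rw [Real.mul_rpow (by norm_num) (by positivity), ← Real.rpow_mul hl.le]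
          congr 2
          ring
      _ ≤ 2 * ((N : ℝ) / M) ^ (2 - 3 * a / 2) := by
          apply mul_le_mul_of_nonneg_right _ (Real.rpow_nonneg hl.le _)
          calc (2 : ℝ) ^ (1 - 3 / 4 * a) ≤ 2 ^ (1 : ℝ) :=
                Real.rpow_le_rpow_of_exponent_le (by norm_num) (by linarith)
            _ = 2 := Real.rpow_one 2
  have e1 : ((N : ℝ) ^ 2 / (M : ℝ) ^ 2) ^ (-(3 / 4 * a)) * (((M : ℝ) ^ 2)⁻¹ * K) =
      K * (((N : ℝ) ^ 2)⁻¹ * ((N : ℝ) / M) ^ (2 - 3 * a / 2)) := by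
    have e2 : ((M : ℝ) ^ 2)⁻¹ = ((N : ℝ) ^ 2)⁻¹ * ((N : ℝ) / M) ^ (2 : ℝ) := by
      rw [Real.rpow_two]
      field_simp
    rw [e2, e0', ← Real.rpow_mul hl.le]
    have e3 : ((N : ℝ) / M) ^ (2 - 3 * a / 2) = ((N : ℝ) / M) ^ (2 * -(3 / 4 * a)) * ((N : ℝ) / M) ^ (2 : ℝ) := by
      rw [← Real.rpow_add hl]
      congr 1
      ring
    rw [e3]
    ring
  rw [e1]
  have hX : 0 ≤ ((N : ℝ) / M) ^ (2 - 3 * a / 2) := Real.rpow_nonneg hl.le _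
  have e4 : ((N : ℝ) ^ 2 / q) ^ a * ((N : ℝ) ^ 2)⁻¹ = q ^ (-a) * (N : ℝ) ^ (2 * a - 2) := by
    rw [Real.div_rpow (by positivity) hq.le, Real.rpow_neg hq.le, ← Real.rpow_two, ← Real.rpow_mul hN0.le,
      ← Real.rpow_neg hN0.le, Real.rpow_sub hN0, Real.rpow_neg hN0.le]
    ring
  have hH : 0 ≤ ((N : ℝ) ^ 2 / q) ^ a := Real.rpow_nonneg (by positivity) a
  have h2 : 2 * (1 + (N : ℝ) ^ 2 * ((M : ℝ) ^ 2)⁻¹) ^ (1 - 3 / 4 * a) / ((N : ℝ) ^ 2 * (1 - 3 / 4 * a)) ≤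
      (4 / (1 - 3 / 4 * a)) * (((N : ℝ) ^ 2)⁻¹ * ((N : ℝ) / M) ^ (2 - 3 * a / 2)) := by
    have e5 : (4 / (1 - 3 / 4 * a)) * (((N : ℝ) ^ 2)⁻¹ * ((N : ℝ) / M) ^ (2 - 3 * a / 2)) =
        2 * (2 * ((N : ℝ) / M) ^ (2 - 3 * a / 2)) / ((N : ℝ) ^ 2 * (1 - 3 / 4 * a)) := by
      field_simp
      ring
    rw [e5]
    apply div_le_div_of_nonneg_right _ (by positivity)
    linarith
  calc ((N : ℝ) ^ 2 / q) ^ a *
        (2 * (1 + (N : ℝ) ^ 2 * ((M : ℝ) ^ 2)⁻¹) ^ (1 - 3 / 4 * a) / ((N : ℝ) ^ 2 * (1 - 3 / 4 * a)) +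
        K * (((N : ℝ) ^ 2)⁻¹ * ((N : ℝ) / M) ^ (2 - 3 * a / 2)))
      ≤ ((N : ℝ) ^ 2 / q) ^ a *
        ((4 / (1 - 3 / 4 * a)) * (((N : ℝ) ^ 2)⁻¹ * ((N : ℝ) / M) ^ (2 - 3 * a / 2)) +
        K * (((N : ℝ) ^ 2)⁻¹ * ((N : ℝ) / M) ^ (2 - 3 * a / 2))) := by
          apply mul_le_mul_of_nonneg_left _ hH
          linarith
    _ = (4 / (1 - 3 / 4 * a) + K) * ((((N : ℝ) ^ 2 / q) ^ a * ((N : ℝ) ^ 2)⁻¹) *
        ((N : ℝ) / M) ^ (2 - 3 * a / 2)) := by ring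
    _ = _ := by rw [e4]

/-- `1 + N² / (q 2 c N) ≤ 3 c N / q` -/
lemma rad (c N : ℕ) (q : ℝ) (hN : 1 ≤ N) (hc : 1 ≤ c) (hq : 0 < q) (hqN : q ≤ 2 * c * N) :
    1 + (N : ℝ) ^ 2 * (1 / (q * (2 * c * N))) ≤ 3 * c * ((N : ℝ) / q) := by
  have hNR : (1 : ℝ) ≤ N := by exact_mod_cast hN
  have hcR : (1 : ℝ) ≤ c := by exact_mod_cast hc
  have hN0 : (0 : ℝ) < N := by linarith
  have h2 : 1 ≤ 2 * c * ((N : ℝ) / q) := by
    rw [mul_div_assoc', le_div_iff₀ hq]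
    linarith
  have h3 : (N : ℝ) ^ 2 * (1 / (q * (2 * c * N))) = (N : ℝ) / q / (2 * c) := by
    field_simp
  have h4 : (N : ℝ) / q / (2 * c) ≤ c * ((N : ℝ) / q) := by
    rw [div_le_iff₀ (by positivity)]
    have : 0 < (N : ℝ) / q := by positivity
    have h5 : 1 ≤ (c : ℝ) * (2 * c) := by nlinarith
    nlinarith
  rw [h3]
  linarith

lemma term3 (c N : ℕ) (q a : ℝ) (hN : 1 ≤ N) (hc : 1 ≤ c) (hq : 0 < q) (hqN : q ≤ 2 * c * N)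
    (ha : 0 < a) (ha1 : a < 4 / 3) :
    ((N : ℝ) ^ 2 / q) ^ a *
        (2 * (1 + (N : ℝ) ^ 2 * (1 / (q * (2 * c * N)))) ^ (1 - 3 / 4 * a) / ((N : ℝ) ^ 2 * (1 - 3 / 4 * a))) ≤
      (6 * c / (1 - 3 / 4 * a)) * ((N : ℝ) ^ (5 * a / 4 - 1) * q ^ (-(1 + a / 4))) := by
  have hNR : (1 : ℝ) ≤ N := by exact_mod_cast hN
  have hcR : (1 : ℝ) ≤ c := by exact_mod_cast hc
  have hN0 : (0 : ℝ) < N := by linarith
  have hp : 0 < 1 - 3 / 4 * a := by linarith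
  have h1 := rad c N q hN hc hq hqN
  have hNq : 0 < (N : ℝ) / q := by positivity
  have h6 : (1 + (N : ℝ) ^ 2 * (1 / (q * (2 * c * N)))) ^ (1 - 3 / 4 * a) ≤
      3 * c * ((N : ℝ) / q) ^ (1 - 3 / 4 * a) := by
    calc (1 + (N : ℝ) ^ 2 * (1 / (q * (2 * c * N)))) ^ (1 - 3 / 4 * a)
        ≤ (3 * c * ((N : ℝ) / q)) ^ (1 - 3 / 4 * a) := Real.rpow_le_rpow (by positivity) h1 hp.le
      _ = (3 * c : ℝ) ^ (1 - 3 / 4 * a) * ((N : ℝ) / q) ^ (1 - 3 / 4 * a) :=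
          Real.mul_rpow (by positivity) hNq.le
      _ ≤ _ := by
          apply mul_le_mul_of_nonneg_right _ (Real.rpow_nonneg hNq.le _)
          calc (3 * c : ℝ) ^ (1 - 3 / 4 * a) ≤ (3 * c : ℝ) ^ (1 : ℝ) :=
                Real.rpow_le_rpow_of_exponent_le (by linarith) (by linarith)
            _ = 3 * c := Real.rpow_one _
  have hH : 0 ≤ ((N : ℝ) ^ 2 / q) ^ a := Real.rpow_nonneg (by positivity) a
  have e1 : ((N : ℝ) ^ 2 / q) ^ a * (((N : ℝ) / q) ^ (1 - 3 / 4 * a) * ((N : ℝ) ^ 2)⁻¹) =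
      (N : ℝ) ^ (5 * a / 4 - 1) * q ^ (-(1 + a / 4)) := by
    rw [Real.div_rpow (by positivity) hq.le, Real.div_rpow hN0.le hq.le, ← Real.rpow_two,
      ← Real.rpow_mul hN0.le, ← Real.rpow_neg hN0.le]
    have e2 : (N : ℝ) ^ (5 * a / 4 - 1) = (N : ℝ) ^ (2 * a) * (N : ℝ) ^ (1 - 3 / 4 * a) * (N : ℝ) ^ (-2 : ℝ) := by
      rw [← Real.rpow_add hN0, ← Real.rpow_add hN0]
      congr 1
      ring
    have e3 : q ^ (-(1 + a / 4)) = (q ^ a)⁻¹ * (q ^ (1 - 3 / 4 * a))⁻¹ := by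
      rw [← Real.rpow_neg hq.le, ← Real.rpow_neg hq.le, ← Real.rpow_add hq]
      congr 1
      ring
    rw [e2, e3]
    have hqa : q ^ a ≠ 0 := (Real.rpow_pos_of_pos hq a).ne'
    have hqb : q ^ (1 - 3 / 4 * a) ≠ 0 := (Real.rpow_pos_of_pos hq _).ne'
    field_simp
  rw [← e1]
  have h7 : 2 * (1 + (N : ℝ) ^ 2 * (1 / (q * (2 * c * N)))) ^ (1 - 3 / 4 * a) / ((N : ℝ) ^ 2 * (1 - 3 / 4 * a)) ≤
      (6 * c / (1 - 3 / 4 * a)) * (((N : ℝ) / q) ^ (1 - 3 / 4 * a) * ((N : ℝ) ^ 2)⁻¹) := by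
    have e5 : (6 * c / (1 - 3 / 4 * a)) * (((N : ℝ) / q) ^ (1 - 3 / 4 * a) * ((N : ℝ) ^ 2)⁻¹) =
        2 * (3 * c * ((N : ℝ) / q) ^ (1 - 3 / 4 * a)) / ((N : ℝ) ^ 2 * (1 - 3 / 4 * a)) := by
      field_simp
      ring
    rw [e5]
    apply div_le_div_of_nonneg_right _ (by positivity)
    linarith
  calc _ ≤ ((N : ℝ) ^ 2 / q) ^ a * ((6 * c / (1 - 3 / 4 * a)) * (((N : ℝ) / q) ^ (1 - 3 / 4 * a) * ((N : ℝ) ^ 2)⁻¹)) :=
        mul_le_mul_of_nonneg_left h7 hH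
    _ = _ := by ring

/-- the constant of the geometric sum -/
lemma GC_nonneg (a : ℝ) (ha1 : a < 4 / 3) : 0 ≤ LOCI.GC a := by
  unfold LOCI.GC
  have hr : 1 < (2 : ℝ) ^ (1 - a / 4) := Real.one_lt_rpow (by norm_num) (by linarith)
  apply div_nonneg (by linarith) (by linarith)

/-- the integral near one rational -/
lemma lock (hW : S_WPT) (hF : S_FRCN) (c : ℕ) (a : ℝ) (hc : 1 ≤ c) (ha1 : 1 < a) (ha2 : a < 4 / 3) :
    ∃ C : ℝ, 0 ≤ C ∧ ∀ (N M : ℕ) (ρ : ℚ), 1 ≤ M → 2 * M ≤ N → ρ.den ≤ 2 * c * M →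
    ∫ t in ((ρ : ℝ) - 1 / (ρ.den * (2 * c * M)))..((ρ : ℝ) + 1 / (ρ.den * (2 * c * M))),
      WW N c t ^ a * (1 + (M : ℝ) ^ 2 * |t - ρ|) ^ (-(3 * (1 : ℝ) / 4)) ≤
    C * ((N * (1 + Real.log N)) ^ a * (M : ℝ) ^ (-2 : ℝ) * ((M : ℝ) / ρ.den) ^ (1 / 2 : ℝ) +
      (ρ.den : ℝ) ^ (-a) * (N : ℝ) ^ (2 * a - 2) * ((N : ℝ) / M) ^ (2 - 3 * a / 2)) := by
  obtain ⟨C, hC, hC2⟩ := hW c hc
  have ha : 0 < a := by linarith
  have hp : 0 < 1 - 3 / 4 * a := by linarith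
  have hKK := LOCI.KK_nonneg (5 / 4)
  have hKK2 := LOCI.KK_nonneg (3 / 4 + 3 / 4 * a)
  have hBB := LOCI.BB_nonneg (5 / 4) (by norm_num)
  have hGC := GC_nonneg a ha2
  have hcR : (1 : ℝ) ≤ c := by exact_mod_cast hc
  have h2s : 0 ≤ (2 : ℝ) ^ (5 / 4 : ℝ) := Real.rpow_nonneg (by norm_num) _
  have h2t : 0 ≤ (2 : ℝ) ^ (3 / 4 * a) := Real.rpow_nonneg (by norm_num) _
  have hCa : 0 ≤ C ^ a := Real.rpow_nonneg hC a
  have h2a : 0 ≤ (2 : ℝ) ^ a := Real.rpow_nonneg (by norm_num) a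
  set C3 : ℝ := 2 ^ (5 / 4 : ℝ) * (6 * c / (1 - 3 / 4 * a)) * (5 * LOCI.BB (5 / 4) * LOCI.GC a * (2 * c)) *
    (3 * c) with hC3
  have hC3n : 0 ≤ C3 := by
    rw [hC3]
    positivity
  set C4 : ℝ := 4 / (1 - 3 / 4 * a) + 2 ^ (3 / 4 * a) * LOCI.KK (3 / 4 + 3 / 4 * a) with hC4
  have hC4n : 0 ≤ C4 := by
    rw [hC4]
    positivity
  refine ⟨(C ^ a * 2 ^ a) * (3 * c * LOCI.KK (5 / 4) + C3 + C4), by positivity, ?_⟩
  intro N M ρ₀ hM hN h0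
  have hN1 : 1 ≤ N := by omega
  have hMN : M ≤ N := by omega
  have hNR : (1 : ℝ) ≤ N := by exact_mod_cast hN1
  have hMR : (1 : ℝ) ≤ M := by exact_mod_cast hM
  have hN0 : (0 : ℝ) < N := by linarith
  have hlog : 0 ≤ Real.log N := Real.log_nonneg hNR
  have hq0 : (0 : ℝ) < ρ₀.den := by exact_mod_cast ρ₀.pos
  have h0R : (ρ₀.den : ℝ) ≤ 2 * c * M := by exact_mod_cast h0
  have hδ : 0 ≤ 1 / ((ρ₀.den : ℝ) * (2 * c * M)) := by positivity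
  have huv : (ρ₀ : ℝ) - 1 / (ρ₀.den * (2 * c * M)) ≤ (ρ₀ : ℝ) + 1 / (ρ₀.den * (2 * c * M)) := by
    linarith
  have hA : 0 ≤ (N : ℝ) * (1 + Real.log N) := by positivity
  have hMq : 0 < (M : ℝ) / ρ₀.den := by positivity
  set H : ℝ := ((M : ℝ) / ρ₀.den) ^ (1 / 2 : ℝ) with hH
  have hH0 : 0 ≤ H := Real.rpow_nonneg hMq.le _
  set K : ℝ := 3 * c * H with hKd
  have hK0 : 0 ≤ K := by positivity
  have hK : ∀ t : ℝ, |t - ρ₀| ≤ 1 / (ρ₀.den * (2 * c * M)) →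
      (1 + (M : ℝ) ^ 2 * |t - ρ₀|) ^ (1 / 2 : ℝ) ≤ K := by
    intro t ht
    have r1 := rad c M ρ₀.den hM hc hq0 h0R
    have r2 : (M : ℝ) ^ 2 * |t - ρ₀| ≤ (M : ℝ) ^ 2 * (1 / (ρ₀.den * (2 * c * M))) :=
      mul_le_mul_of_nonneg_left ht (by positivity)
    calc (1 + (M : ℝ) ^ 2 * |t - ρ₀|) ^ (1 / 2 : ℝ) ≤ (3 * c * ((M : ℝ) / ρ₀.den)) ^ (1 / 2 : ℝ) :=
          Real.rpow_le_rpow (by positivity) (by linarith) (by norm_num)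
      _ = (3 * c : ℝ) ^ (1 / 2 : ℝ) * H := Real.mul_rpow (by positivity) hMq.le
      _ ≤ 3 * c * H := by
          apply mul_le_mul_of_nonneg_right _ hH0
          calc (3 * c : ℝ) ^ (1 / 2 : ℝ) ≤ (3 * c : ℝ) ^ (1 : ℝ) :=
                Real.rpow_le_rpow_of_exponent_le (by linarith) (by norm_num)
            _ = 3 * c := Real.rpow_one _
  have h1 : ∫ t in ((ρ₀ : ℝ) - 1 / (ρ₀.den * (2 * c * M)))..((ρ₀ : ℝ) + 1 / (ρ₀.den * (2 * c * M))),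
      WW N c t ^ a * (1 + (M : ℝ) ^ 2 * |t - ρ₀|) ^ (-(3 * (1 : ℝ) / 4)) ≤
      ∫ t in ((ρ₀ : ℝ) - 1 / (ρ₀.den * (2 * c * M)))..((ρ₀ : ℝ) + 1 / (ρ₀.den * (2 * c * M))),
        (C ^ a * 2 ^ a) * GG c N M ρ₀ (N * (1 + Real.log N)) a K t := by
    rw [intervalIntegral.integral_of_le huv, intervalIntegral.integral_of_le huv]
    apply integral_mono_of_nonneg
    · filter_upwards with t
      have k1 := Real.rpow_nonneg (LOCI.WW_nonneg N c t) a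
      have k2 := LOCI.wt_nonneg ((M : ℝ) ^ 2) ρ₀ (3 * (1 : ℝ) / 4) t (by positivity)
      exact mul_nonneg k1 k2
    · have := (GG_int c N M ρ₀ (N * (1 + Real.log N)) a K
        ((ρ₀ : ℝ) - 1 / (ρ₀.den * (2 * c * M))) ((ρ₀ : ℝ) + 1 / (ρ₀.den * (2 * c * M)))
        huv hA hN1 hM ha1 ha2 hK0).1.const_mul (C ^ a * 2 ^ a)
      rw [intervalIntegrable_iff_integrableOn_Ioc_of_le huv] at this
      exact this
    · rw [Filter.EventuallyLE, ae_restrict_iff' measurableSet_Ioc]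
      filter_upwards with t ht
      have hpt := point c N M ρ₀ C a K hc hM hN h0 ha hC hK0 hK
        (fun t ρ h h' => hC2 N t ρ hN1 h h') t (by
          rw [abs_le]
          constructor <;> linarith [ht.1, ht.2])
      have e34 : (3 * (1 : ℝ) / 4) = 3 / 4 := by norm_num
      rw [e34]
      exact hpt
  refine h1.trans ?_
  rw [intervalIntegral.integral_const_mul, mul_assoc (C ^ a * 2 ^ a)]
  apply mul_le_mul_of_nonneg_left _ (by positivity)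
  refine (GG_int c N M ρ₀ (N * (1 + Real.log N)) a K _ _ huv hA hN1 hM ha1 ha2 hK0).2.trans ?_
  have t2 := term2 N M ρ₀.den a (2 ^ (3 / 4 * a) * LOCI.KK (3 / 4 + 3 / 4 * a)) hN1 hM hMN hq0 ha ha2
  have t3 : ∑ ρ ∈ LOCI.SS c N M ρ₀,
      (2 ^ (5 / 4 : ℝ) * (K * LOCI.wt ((M : ℝ) ^ 2) ρ₀ (5 / 4) ρ) * ((N : ℝ) ^ 2 / ρ.den) ^ a) *
      (2 * (1 + (N : ℝ) ^ 2 * LOCI.dl c N ρ) ^ (1 - 3 / 4 * a) / ((N : ℝ) ^ 2 * (1 - 3 / 4 * a))) ≤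
      C3 * ((N * (1 + Real.log N)) ^ a * ((M : ℝ) ^ 2)⁻¹ * H) := by
    have u1 : ∀ ρ ∈ LOCI.SS c N M ρ₀,
        (2 ^ (5 / 4 : ℝ) * (K * LOCI.wt ((M : ℝ) ^ 2) ρ₀ (5 / 4) ρ) * ((N : ℝ) ^ 2 / ρ.den) ^ a) *
        (2 * (1 + (N : ℝ) ^ 2 * LOCI.dl c N ρ) ^ (1 - 3 / 4 * a) / ((N : ℝ) ^ 2 * (1 - 3 / 4 * a))) ≤
        (2 ^ (5 / 4 : ℝ) * (6 * c / (1 - 3 / 4 * a)) * (N : ℝ) ^ (5 * a / 4 - 1) * K) *
          (LOCI.wt ((M : ℝ) ^ 2) ρ₀ (5 / 4) ρ * ((ρ.den : ℝ) ^ (-(1 + a / 4)))) := by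
      intro ρ hρ
      have hd := LOCI.SS_den c N M ρ₀ ρ hρ
      have hq : (0 : ℝ) < ρ.den := by exact_mod_cast ρ.pos
      have hqN : (ρ.den : ℝ) ≤ 2 * c * N := by exact_mod_cast hd.2
      have v1 := term3 c N ρ.den a hN1 hc hq hqN ha ha2
      have v2 := LOCI.wt_nonneg ((M : ℝ) ^ 2) ρ₀ (5 / 4) ρ (by positivity)
      have v3 := mul_le_mul_of_nonneg_left v1
        (by positivity : 0 ≤ 2 ^ (5 / 4 : ℝ) * (K * LOCI.wt ((M : ℝ) ^ 2) ρ₀ (5 / 4) ρ))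
      unfold LOCI.dl
      rw [mul_assoc]
      refine v3.trans (le_of_eq ?_)
      ring
    refine (Finset.sum_le_sum u1).trans ?_
    rw [← Finset.mul_sum]
    have u2 := LOCI.sum_den hF (M : ℝ) ρ₀ (5 / 4) (a / 4) (2 * c * N) hMR (by norm_num) (by linarith)
      (by linarith) (LOCI.SS c N M ρ₀) (fun ρ hρ => LOCI.SS_den c N M ρ₀ ρ hρ) (by nlinarith)
    have hNa : 0 ≤ (N : ℝ) ^ (5 * a / 4 - 1) := Real.rpow_nonneg hN0.le _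
    refine (mul_le_mul_of_nonneg_left u2 (by positivity)).trans ?_
    have u3 : ((2 * c * N : ℕ) : ℝ) ^ (1 - a / 4) ≤ (2 * c) * (N : ℝ) ^ (1 - a / 4) := by
      have e : ((2 * c * N : ℕ) : ℝ) = (2 * c) * N := by push_cast; ring
      rw [e, Real.mul_rpow (by positivity) hN0.le]
      apply mul_le_mul_of_nonneg_right _ (Real.rpow_nonneg hN0.le _)
      calc (2 * c : ℝ) ^ (1 - a / 4) ≤ (2 * c : ℝ) ^ (1 : ℝ) :=
            Real.rpow_le_rpow_of_exponent_le (by linarith) (by linarith)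
        _ = 2 * c := Real.rpow_one _
    have e4 : (N : ℝ) ^ (5 * a / 4 - 1) * (N : ℝ) ^ (1 - a / 4) = (N : ℝ) ^ a := by
      rw [← Real.rpow_add hN0]
      congr 1
      ring
    have u5 : (N : ℝ) ^ a ≤ (N * (1 + Real.log N)) ^ a := by
      apply Real.rpow_le_rpow hN0.le _ ha.le
      nlinarith
    have hG : (2 : ℝ) ^ (1 - a / 4) / ((2 : ℝ) ^ (1 - a / 4) - 1) = LOCI.GC a := rfl
    rw [hG]
    have hMi : 0 ≤ ((M : ℝ) ^ 2)⁻¹ := by positivity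
    calc 2 ^ (5 / 4 : ℝ) * (6 * c / (1 - 3 / 4 * a)) * (N : ℝ) ^ (5 * a / 4 - 1) * K *
          (5 * LOCI.BB (5 / 4) * LOCI.GC a * ((2 * c * N : ℕ) : ℝ) ^ (1 - a / 4) * ((M : ℝ) ^ 2)⁻¹)
        ≤ 2 ^ (5 / 4 : ℝ) * (6 * c / (1 - 3 / 4 * a)) * (N : ℝ) ^ (5 * a / 4 - 1) * K *
          (5 * LOCI.BB (5 / 4) * LOCI.GC a * ((2 * c) * (N : ℝ) ^ (1 - a / 4)) * ((M : ℝ) ^ 2)⁻¹) := by
          apply mul_le_mul_of_nonneg_left _ (by positivity)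
          apply mul_le_mul_of_nonneg_right _ hMi
          apply mul_le_mul_of_nonneg_left u3 (by positivity)
      _ = C3 * (((N : ℝ) ^ (5 * a / 4 - 1) * (N : ℝ) ^ (1 - a / 4)) * ((M : ℝ) ^ 2)⁻¹ * H) := by
          rw [hC3, hKd]
          ring
      _ ≤ _ := by
          rw [e4]
          apply mul_le_mul_of_nonneg_left _ hC3n
          apply mul_le_mul_of_nonneg_right _ hH0
          exact mul_le_mul_of_nonneg_right u5 hMi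
  have eM : (M : ℝ) ^ (-2 : ℝ) = ((M : ℝ) ^ 2)⁻¹ := by
    rw [Real.rpow_neg (by positivity), Real.rpow_two]
  rw [eM]
  set X : ℝ := (N * (1 + Real.log N)) ^ a * ((M : ℝ) ^ 2)⁻¹ * H with hXd
  have hX : 0 ≤ X :=
    mul_nonneg (mul_nonneg (Real.rpow_nonneg hA a) (by positivity)) hH0
  have hY : 0 ≤ (ρ₀.den : ℝ) ^ (-a) * (N : ℝ) ^ (2 * a - 2) * ((N : ℝ) / M) ^ (2 - 3 * a / 2) := by
    have y1 : 0 ≤ (ρ₀.den : ℝ) ^ (-a) := Real.rpow_nonneg hq0.le _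
    have y2 : 0 ≤ (N : ℝ) ^ (2 * a - 2) := Real.rpow_nonneg hN0.le _
    have y3 : 0 ≤ ((N : ℝ) / M) ^ (2 - 3 * a / 2) := Real.rpow_nonneg (by positivity) _
    positivity
  set Y : ℝ := (ρ₀.den : ℝ) ^ (-a) * (N : ℝ) ^ (2 * a - 2) * ((N : ℝ) / M) ^ (2 - 3 * a / 2) with hYd
  have e1 : (N * (1 + Real.log N)) ^ a * (K * (((M : ℝ) ^ 2)⁻¹ * LOCI.KK (5 / 4))) =
      3 * c * LOCI.KK (5 / 4) * X := by
    rw [hXd, hKd]
    ring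
  rw [e1]
  rw [← hC4] at t2
  have z1 : 0 ≤ C4 * X := mul_nonneg hC4n hX
  have z2 : 0 ≤ (3 * c * LOCI.KK (5 / 4) + C3) * Y := mul_nonneg (by positivity) hY
  calc _ ≤ 3 * c * LOCI.KK (5 / 4) * X + C4 * Y + C3 * X := by
        apply add_le_add (add_le_add le_rfl t2) t3
    _ ≤ (3 * c * LOCI.KK (5 / 4) + C3 + C4) * (X + Y) := by
        linarith

/-- the right side -/
def RJ (a e : ℝ) (N M : ℕ) : ℝ := (N : ℝ) ^ (2 * a - 2) * (M : ℝ) ^ (2 : ℝ) * ((N : ℝ) / M) ^ (2 - a + e)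

lemma RJ_nonneg (a e : ℝ) (N M : ℕ) : 0 ≤ RJ a e N M := by
  unfold RJ
  positivity

lemma RJ_eq (a e : ℝ) (N M : ℕ) (hN : 1 ≤ N) (hM : 1 ≤ M) :
    RJ a e N M = (N : ℝ) ^ (a + e) * (M : ℝ) ^ (a - e) := by
  have hNR : (0 : ℝ) < N := by exact_mod_cast hN
  have hMR : (0 : ℝ) < M := by exact_mod_cast hM
  unfold RJ
  rw [Real.div_rpow hNR.le hMR.le (2 - a + e), div_eq_mul_inv, ← Real.rpow_neg hMR.le]
  have e1 : (N : ℝ) ^ (2 * a - 2) * (M : ℝ) ^ (2 : ℝ) *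
      ((N : ℝ) ^ (2 - a + e) * (M : ℝ) ^ (-(2 - a + e))) =
      ((N : ℝ) ^ (2 * a - 2) * (N : ℝ) ^ (2 - a + e)) *
        ((M : ℝ) ^ (2 : ℝ) * (M : ℝ) ^ (-(2 - a + e))) := by
    ring
  rw [e1, ← Real.rpow_add hNR, ← Real.rpow_add hMR]
  congr 2
  · ring
  · ring

/-- `∫ WW N ^ a` -/
lemma int_a (hF : WWF) (c N : ℕ) (a η C : ℝ) (ha : 1 < a) (ha1 : a < 4 / 3) (hη : 0 < η) (hN : 1 ≤ N)
    (hC : ∫ t in (0 : ℝ)..1, WW N c t ^ (2 + η) ≤ C * (N : ℝ) ^ (2 * (2 + η) - 2)) :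
    ∫ t in (0 : ℝ)..1, WW N c t ^ a ≤ C * (N : ℝ) ^ (a + η) := by
  have hNR : (1 : ℝ) ≤ N := by exact_mod_cast hN
  have hN0 : (0 : ℝ) < N := by linarith
  have hcW := hF.cont N c
  have h1 : ∀ t : ℝ, WW N c t ^ a ≤ (N : ℝ) ^ (a - (2 + η)) * WW N c t ^ (2 + η) := by
    intro t
    have hge := hF.ge N c t
    have hpos : 0 < WW N c t := lt_of_lt_of_le hN0 hge
    have e : WW N c t ^ a = WW N c t ^ (a - (2 + η)) * WW N c t ^ (2 + η) := by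
      rw [← Real.rpow_add hpos]
      congr 1
      ring
    rw [e]
    apply mul_le_mul_of_nonneg_right _ (Real.rpow_nonneg hpos.le _)
    exact Real.rpow_le_rpow_of_nonpos hN0 hge (by linarith)
  calc ∫ t in (0 : ℝ)..1, WW N c t ^ a
      ≤ ∫ t in (0 : ℝ)..1, (N : ℝ) ^ (a - (2 + η)) * WW N c t ^ (2 + η) := by
        apply intervalIntegral.integral_mono_on zero_le_one
        · exact (hcW.rpow_const fun t => Or.inr (by linarith)).intervalIntegrable _ _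
        · exact (continuous_const.mul
            (hcW.rpow_const fun t => Or.inr (by linarith))).intervalIntegrable _ _
        · intro t _
          exact h1 t
    _ = (N : ℝ) ^ (a - (2 + η)) * ∫ t in (0 : ℝ)..1, WW N c t ^ (2 + η) := by
        rw [intervalIntegral.integral_const_mul]
    _ ≤ (N : ℝ) ^ (a - (2 + η)) * (C * (N : ℝ) ^ (2 * (2 + η) - 2)) :=
        mul_le_mul_of_nonneg_left hC (Real.rpow_nonneg hN0.le _)
    _ = C * ((N : ℝ) ^ (a - (2 + η)) * (N : ℝ) ^ (2 * (2 + η) - 2)) := by ring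
    _ = _ := by
        rw [← Real.rpow_add hN0]
        congr 2
        ring

/-- the integral near one rational, with numerator and denominator -/
lemma Jb (c N M : ℕ) (a CL : ℝ)
    (hL : ∀ ρ : ℚ, ρ.den ≤ 2 * c * M →
      ∫ t in ((ρ : ℝ) - 1 / (ρ.den * (2 * c * M)))..((ρ : ℝ) + 1 / (ρ.den * (2 * c * M))),
        WW N c t ^ a * (1 + (M : ℝ) ^ 2 * |t - ρ|) ^ (-(3 * (1 : ℝ) / 4)) ≤
      CL * ((N * (1 + Real.log N)) ^ a * (M : ℝ) ^ (-2 : ℝ) * ((M : ℝ) / ρ.den) ^ (1 / 2 : ℝ) +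
        (ρ.den : ℝ) ^ (-a) * (N : ℝ) ^ (2 * a - 2) * ((N : ℝ) / M) ^ (2 - 3 * a / 2)))
    (q n : ℕ) (hq : q ∈ Finset.Icc 1 (2 * c * M)) (hcop : Nat.Coprime n q) :
    ∫ t in ((n : ℝ) / q - 1 / (q * (2 * c * M)))..((n : ℝ) / q + 1 / (q * (2 * c * M))),
        INTI.h0 c N M a 1 q n t ≤
      CL * ((N * (1 + Real.log N)) ^ a * (M : ℝ) ^ (-2 : ℝ) * ((M : ℝ) / q) ^ (1 / 2 : ℝ) +
        (q : ℝ) ^ (-a) * (N : ℝ) ^ (2 * a - 2) * ((N : ℝ) / M) ^ (2 - 3 * a / 2)) := by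
  obtain ⟨hq1, hq2⟩ := Finset.mem_Icc.mp hq
  have hden : (((n : ℤ) : ℚ) / ((q : ℤ) : ℚ)).den = q := by
    have := Rat.den_div_eq_of_coprime (a := (n : ℤ)) (b := (q : ℤ)) (by exact_mod_cast hq1)
      (by simpa using hcop)
    exact_mod_cast this
  have h := hL (((n : ℤ) : ℚ) / ((q : ℤ) : ℚ)) (by rw [hden]; exact hq2)
  rw [hden] at h
  have e : (((((n : ℤ) : ℚ) / ((q : ℤ) : ℚ) : ℚ)) : ℝ) = (n : ℝ) / q := by
    push_cast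
    rfl
  rw [e] at h
  exact h

/-- the case `2 M ≤ N` -/
lemma main2 (hF : WWF) (c N M : ℕ) (a e C C0 CL K1 K2 : ℝ) (hc1 : 1 ≤ c) (hM : 1 ≤ M) (hN : 1 ≤ N)
    (hMN : M ≤ N) (ha : 1 < a) (he : 0 < e) (hea : e ≤ a - 1) (hC : 0 ≤ C) (hC0 : 0 ≤ C0)
    (hCL : 0 ≤ CL) (hK1 : 0 ≤ K1) (hK2 : 0 ≤ K2)
    (hW : ∀ (t : ℝ) (ρ : ℚ), ρ.den ≤ 2 * c * M → |t - ρ| ≤ 1 / (ρ.den * (2 * c * M)) →
      WW M c t ≤ C * (M * (1 + Real.log M) +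
      (M : ℝ) ^ 2 / ρ.den * (1 + (M : ℝ) ^ 2 * |t - ρ|) ^ (-(3 / 4) : ℝ)))
    (hI : ∫ t in (0 : ℝ)..1, WW N c t ^ a ≤ C0 * (N : ℝ) ^ (a + e / 2))
    (hL : ∀ ρ : ℚ, ρ.den ≤ 2 * c * M →
      ∫ t in ((ρ : ℝ) - 1 / (ρ.den * (2 * c * M)))..((ρ : ℝ) + 1 / (ρ.den * (2 * c * M))),
        WW N c t ^ a * (1 + (M : ℝ) ^ 2 * |t - ρ|) ^ (-(3 * (1 : ℝ) / 4)) ≤
      CL * ((N * (1 + Real.log N)) ^ a * (M : ℝ) ^ (-2 : ℝ) * ((M : ℝ) / ρ.den) ^ (1 / 2 : ℝ) +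
        (ρ.den : ℝ) ^ (-a) * (N : ℝ) ^ (2 * a - 2) * ((N : ℝ) / M) ^ (2 - 3 * a / 2)))
    (h1 : (1 + Real.log M) ≤ K1 * (M : ℝ) ^ (e / 2))
    (h2 : (1 + Real.log N) ^ a ≤ K2 * (N : ℝ) ^ e) :
    ∫ t in (0 : ℝ)..1, WW N c t ^ a * WW M c t ^ (1 : ℝ) ≤
      C ^ (1 : ℝ) * (2 ^ (1 : ℝ) * (K1 * C0 + CL * (K2 * (4 * Real.sqrt (2 * c)) +
        2 * ∑' n : ℕ, (n : ℝ) ^ (1 - (1 + a))))) * RJ a e N M := by
  have hNR : (1 : ℝ) ≤ N := by exact_mod_cast hN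
  have hMR : (1 : ℝ) ≤ M := by exact_mod_cast hM
  have hMNR : (M : ℝ) ≤ N := by exact_mod_cast hMN
  have hcR : (1 : ℝ) ≤ c := by exact_mod_cast hc1
  have hN0 : (0 : ℝ) < N := by linarith
  have hM0 : (0 : ℝ) < M := by linarith
  have ha0 : 0 < a := by linarith
  have hNM : (1 : ℝ) ≤ (N : ℝ) / M := by
    rw [le_div_iff₀ hM0, one_mul]
    exact_mod_cast hMN
  have hNM0 : (0 : ℝ) < (N : ℝ) / M := by linarith
  have hlN : 0 ≤ Real.log N := Real.log_nonneg hNR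
  have hlM : 0 ≤ Real.log M := Real.log_nonneg hMR
  have hCb : 0 ≤ C ^ (1 : ℝ) := Real.rpow_nonneg hC _
  have h2b : (0 : ℝ) ≤ 2 ^ (1 : ℝ) := Real.rpow_nonneg (by norm_num) _
  have hcN : Continuous fun t => WW N c t ^ a := (hF.cont N c).rpow_const fun t => Or.inr ha0.le
  set l : ℝ := N * (1 + Real.log N) with hl
  -- the bound of the terms
  set J : ℕ → ℝ := fun q => CL * (l ^ a * (M : ℝ) ^ (-2 : ℝ) * ((M : ℝ) / q) ^ (1 / 2 : ℝ) +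
        (q : ℝ) ^ (-a) * (N : ℝ) ^ (2 * a - 2) * ((N : ℝ) / M) ^ (2 - 3 * a / 2)) with hJ
  have hl0 : 0 ≤ l := by positivity
  have hJ0 : ∀ q, 0 ≤ J q := by
    intro q
    rw [hJ]
    have i1 : 0 ≤ (q : ℝ) ^ (-a) := Real.rpow_nonneg (Nat.cast_nonneg q) _
    have i2 : 0 ≤ ((M : ℝ) / q) ^ (1 / 2 : ℝ) := Real.rpow_nonneg (by positivity) _
    positivity
  -- the integral
  have hint : ∀ q n : ℕ, IntegrableOn (fun t => ((M : ℝ) ^ 2 / q) ^ (1 : ℝ) * INTI.TT c N M a 1 q n t)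
      (Set.Ioc (0 : ℝ) 1) := fun q n =>
    ((INTI.TT_integrable hF c N M a 1 ha0.le q n).const_mul _).integrableOn
  have hintN : IntegrableOn (fun t => (M * (1 + Real.log M)) ^ (1 : ℝ) * WW N c t ^ a)
      (Set.Ioc (0 : ℝ) 1) := by
    have := (continuous_const.mul hcN :
      Continuous fun t => (M * (1 + Real.log M)) ^ (1 : ℝ) * WW N c t ^ a).intervalIntegrable
        (μ := volume) 0 1
    rwa [intervalIntegrable_iff_integrableOn_Ioc_of_le zero_le_one] at this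
  have hintS : IntegrableOn (fun t => ∑ q ∈ Finset.Icc 1 (2 * c * M), ∑ n ∈ Finset.range (q + 1),
        ((M : ℝ) ^ 2 / q) ^ (1 : ℝ) * INTI.TT c N M a 1 q n t) (Set.Ioc (0 : ℝ) 1) := by
    apply integrable_finsetSum
    intro q _
    apply integrable_finsetSum
    intro n _
    exact hint q n
  have hmain : ∫ t in (0 : ℝ)..1, WW N c t ^ a * WW M c t ^ (1 : ℝ) ≤
      C ^ (1 : ℝ) * (2 ^ (1 : ℝ) * ((M * (1 + Real.log M)) ^ (1 : ℝ) * (∫ t in (0 : ℝ)..1, WW N c t ^ a) +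
        ∑ q ∈ Finset.Icc 1 (2 * c * M), ∑ _n ∈ Finset.range (q + 1),
          ((M : ℝ) ^ 2 / q) ^ (1 : ℝ) * J q)) := by
    rw [intervalIntegral.integral_of_le zero_le_one]
    have hle : ∫ t in Set.Ioc (0 : ℝ) 1, WW N c t ^ a * WW M c t ^ (1 : ℝ) ≤
        ∫ t in Set.Ioc (0 : ℝ) 1, C ^ (1 : ℝ) * (2 ^ (1 : ℝ) * ((M * (1 + Real.log M)) ^ (1 : ℝ) *
          WW N c t ^ a +
      ∑ q ∈ Finset.Icc 1 (2 * c * M), ∑ n ∈ Finset.range (q + 1),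
        ((M : ℝ) ^ 2 / q) ^ (1 : ℝ) * INTI.TT c N M a 1 q n t)) := by
      apply integral_mono_of_nonneg
      · filter_upwards with t
        exact mul_nonneg (Real.rpow_nonneg (WINT.WW_nonneg _ _ _) _)
          (Real.rpow_nonneg (WINT.WW_nonneg _ _ _) _)
      · exact ((hintN.add hintS).const_mul _).const_mul _
      · rw [Filter.EventuallyLE, ae_restrict_iff' measurableSet_Ioc]
        filter_upwards with t ht
        exact INTI.point c N M C a 1 hc1 hM (by norm_num) hC hW t ht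
    refine hle.trans ?_
    rw [integral_const_mul, integral_const_mul]
    apply mul_le_mul_of_nonneg_left _ hCb
    apply mul_le_mul_of_nonneg_left _ h2b
    rw [integral_add hintN hintS]
    apply add_le_add
    · rw [integral_const_mul, intervalIntegral.integral_of_le zero_le_one]
    · rw [integral_finsetSum]
      · apply Finset.sum_le_sum
        intro q hq
        rw [integral_finsetSum]
        · apply Finset.sum_le_sum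
          intro n _
          rw [integral_const_mul]
          apply mul_le_mul_of_nonneg_left _ (Real.rpow_nonneg (by positivity) _)
          exact INTI.TT_int hF c N M a 1 (J q) ha0.le q n (hJ0 q)
            (fun hcop => Jb c N M a CL hL q n hq hcop)
        · intro n _
          exact hint q n
      · intro q _
        apply integrable_finsetSum
        intro n _
        exact hint q n
  refine hmain.trans ?_
  have eass : ∀ x y z w : ℝ, x * (y * z) * w = x * (y * (z * w)) := fun x y z w => by ring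
  rw [eass]
  apply mul_le_mul_of_nonneg_left _ hCb
  apply mul_le_mul_of_nonneg_left _ h2b
  rw [add_mul]
  have hlN' : 0 ≤ 1 + Real.log N := by linarith
  have hlM' : 0 ≤ 1 + Real.log M := by linarith
  have hla : l ^ a ≤ K2 * (N : ℝ) ^ (a + e) := by
    rw [hl, Real.mul_rpow hN0.le hlN']
    calc (N : ℝ) ^ a * (1 + Real.log N) ^ a ≤ (N : ℝ) ^ a * (K2 * (N : ℝ) ^ e) :=
          mul_le_mul_of_nonneg_left h2 (Real.rpow_nonneg hN0.le _)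
      _ = K2 * ((N : ℝ) ^ a * (N : ℝ) ^ e) := by ring
      _ = _ := by rw [← Real.rpow_add hN0]
  have hla0 : 0 ≤ l ^ a := Real.rpow_nonneg hl0 a
  have hRJ := RJ_eq a e N M hN hM
  have hRJ0 := RJ_nonneg a e N M
  have hMa : (M : ℝ) ≤ (M : ℝ) ^ (a - e) := by
    calc (M : ℝ) = (M : ℝ) ^ (1 : ℝ) := (Real.rpow_one _).symm
      _ ≤ _ := Real.rpow_le_rpow_of_exponent_le hMR (by linarith)
  apply add_le_add
  · -- P1
    rw [Real.rpow_one]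
    have hexp : (M : ℝ) * (M : ℝ) ^ (e / 2) * (N : ℝ) ^ (a + e / 2) ≤
        (N : ℝ) ^ (a + e) * (M : ℝ) ^ (a - e) := by
      have k1 : (M : ℝ) ^ (e / 2) ≤ (N : ℝ) ^ (e / 2) := Real.rpow_le_rpow hM0.le hMNR (by linarith)
      have k2 : (N : ℝ) ^ (e / 2) * (N : ℝ) ^ (a + e / 2) = (N : ℝ) ^ (a + e) := by
        rw [← Real.rpow_add hN0]
        congr 1
        ring
      calc (M : ℝ) * (M : ℝ) ^ (e / 2) * (N : ℝ) ^ (a + e / 2)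
          ≤ (M : ℝ) ^ (a - e) * (N : ℝ) ^ (e / 2) * (N : ℝ) ^ (a + e / 2) := by
            apply mul_le_mul_of_nonneg_right _ (Real.rpow_nonneg hN0.le _)
            exact mul_le_mul hMa k1 (Real.rpow_nonneg hM0.le _) (Real.rpow_nonneg hM0.le _)
        _ = (M : ℝ) ^ (a - e) * ((N : ℝ) ^ (e / 2) * (N : ℝ) ^ (a + e / 2)) := by ring
        _ = _ := by
            rw [k2]
            ring
    have hMl : (M : ℝ) * (1 + Real.log M) ≤ K1 * ((M : ℝ) * (M : ℝ) ^ (e / 2)) := by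
      calc (M : ℝ) * (1 + Real.log M) ≤ (M : ℝ) * (K1 * (M : ℝ) ^ (e / 2)) :=
            mul_le_mul_of_nonneg_left h1 hM0.le
        _ = _ := by ring
    have hMl0 : 0 ≤ (M : ℝ) * (1 + Real.log M) := by positivity
    calc (M * (1 + Real.log M)) * (∫ t in (0 : ℝ)..1, WW N c t ^ a)
        ≤ (M * (1 + Real.log M)) * (C0 * (N : ℝ) ^ (a + e / 2)) :=
          mul_le_mul_of_nonneg_left hI hMl0
      _ ≤ (K1 * ((M : ℝ) * (M : ℝ) ^ (e / 2))) * (C0 * (N : ℝ) ^ (a + e / 2)) :=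
          mul_le_mul_of_nonneg_right hMl (by positivity)
      _ = K1 * C0 * ((M : ℝ) * (M : ℝ) ^ (e / 2) * (N : ℝ) ^ (a + e / 2)) := by ring
      _ ≤ K1 * C0 * ((N : ℝ) ^ (a + e) * (M : ℝ) ^ (a - e)) :=
          mul_le_mul_of_nonneg_left hexp (by positivity)
      _ = _ := by rw [hRJ]
  · -- P2, P3
    have hterm : ∀ q ∈ Finset.Icc 1 (2 * c * M), ∑ _n ∈ Finset.range (q + 1),
          ((M : ℝ) ^ 2 / q) ^ (1 : ℝ) * J q ≤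
        CL * (l ^ a * (M : ℝ) ^ (1 / 2 : ℝ)) * (2 * (q : ℝ) ^ (-(1 / 2) : ℝ)) +
        CL * ((M : ℝ) ^ (2 : ℝ) * (N : ℝ) ^ (2 * a - 2) * ((N : ℝ) / M) ^ (2 - 3 * a / 2)) *
          (((q : ℝ) + 1) * (q : ℝ) ^ (-(1 + a))) := by
      intro q hq
      have hq1 : (1 : ℝ) ≤ q := by exact_mod_cast (Finset.mem_Icc.mp hq).1
      have hq0 : (0 : ℝ) < q := by linarith
      rw [Finset.sum_const, Finset.card_range, nsmul_eq_mul, Real.rpow_one]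
      have e1 : ((M : ℝ) / q) ^ (1 / 2 : ℝ) = (M : ℝ) ^ (1 / 2 : ℝ) * (q : ℝ) ^ (-(1 / 2) : ℝ) := by
        rw [Real.div_rpow hM0.le hq0.le, Real.rpow_neg hq0.le]
        rfl
      have e2 : (M : ℝ) ^ (-2 : ℝ) = ((M : ℝ) ^ 2)⁻¹ := by
        rw [Real.rpow_neg hM0.le, Real.rpow_two]
      have e3 : (q : ℝ) ^ (-(1 + a)) = (q : ℝ)⁻¹ * (q : ℝ) ^ (-a) := by
        rw [neg_add, Real.rpow_add hq0, Real.rpow_neg_one]
      have e4 : (M : ℝ) ^ (2 : ℝ) = (M : ℝ) ^ 2 := Real.rpow_two _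
      rw [hJ]
      simp only []
      rw [e1, e2, e3, e4]
      have hX : 0 ≤ CL * (l ^ a * (M : ℝ) ^ (1 / 2 : ℝ)) * (q : ℝ) ^ (-(1 / 2) : ℝ) := by positivity
      have hq2 : ((q : ℝ) + 1) * (q : ℝ)⁻¹ ≤ 2 := by
        rw [← div_eq_mul_inv, div_le_iff₀ hq0]
        linarith
      have hX2 := mul_le_mul_of_nonneg_right hq2 hX
      have hMM : (M : ℝ) ^ 2 * ((M : ℝ) ^ 2)⁻¹ = 1 := by
        field_simp
      have e5 : (((q + 1 : ℕ)) : ℝ) * ((M : ℝ) ^ 2 / q *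
          (CL * (l ^ a * ((M : ℝ) ^ 2)⁻¹ * ((M : ℝ) ^ (1 / 2 : ℝ) * (q : ℝ) ^ (-(1 / 2) : ℝ)) +
          (q : ℝ) ^ (-a) * (N : ℝ) ^ (2 * a - 2) * ((N : ℝ) / M) ^ (2 - 3 * a / 2)))) =
          ((q : ℝ) + 1) * (q : ℝ)⁻¹ * (CL * (l ^ a * (M : ℝ) ^ (1 / 2 : ℝ)) * (q : ℝ) ^ (-(1 / 2) : ℝ)) *
            ((M : ℝ) ^ 2 * ((M : ℝ) ^ 2)⁻¹) +
          CL * ((M : ℝ) ^ 2 * (N : ℝ) ^ (2 * a - 2) * ((N : ℝ) / M) ^ (2 - 3 * a / 2)) *
          (((q : ℝ) + 1) * ((q : ℝ)⁻¹ * (q : ℝ) ^ (-a))) := by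
        push_cast
        ring
      rw [e5, hMM, mul_one]
      linarith
    refine (Finset.sum_le_sum hterm).trans ?_
    rw [Finset.sum_add_distrib, ← Finset.mul_sum, ← Finset.mul_sum, ← Finset.mul_sum]
    have s1 := INTI.sum_half (2 * c * M)
    have s2 := INTI.sum_ab (2 * c * M) (1 + a) (by linarith)
    set S := ∑' n : ℕ, (n : ℝ) ^ (1 - (1 + a)) with hS
    have hS0 : 0 ≤ S := tsum_nonneg fun n => Real.rpow_nonneg (Nat.cast_nonneg n) _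
    have p2 : CL * (l ^ a * (M : ℝ) ^ (1 / 2 : ℝ)) *
        (2 * ∑ q ∈ Finset.Icc 1 (2 * c * M), (q : ℝ) ^ (-(1 / 2) : ℝ)) ≤
        CL * (K2 * (4 * Real.sqrt (2 * c))) * RJ a e N M := by
      have hsq : Real.sqrt ((2 * c * M : ℕ) : ℝ) = Real.sqrt (2 * c) * (M : ℝ) ^ (1 / 2 : ℝ) := by
        rw [← Real.sqrt_eq_rpow, ← Real.sqrt_mul (by positivity)]
        push_cast
        rfl
      rw [hsq] at s1
      have hMM : (M : ℝ) ^ (1 / 2 : ℝ) * (M : ℝ) ^ (1 / 2 : ℝ) = M := by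
        rw [← Real.rpow_add hM0]
        norm_num
      have hx : 0 ≤ CL * (l ^ a * (M : ℝ) ^ (1 / 2 : ℝ)) := by positivity
      calc CL * (l ^ a * (M : ℝ) ^ (1 / 2 : ℝ)) *
            (2 * ∑ q ∈ Finset.Icc 1 (2 * c * M), (q : ℝ) ^ (-(1 / 2) : ℝ))
          ≤ CL * (l ^ a * (M : ℝ) ^ (1 / 2 : ℝ)) *
            (2 * (2 * (Real.sqrt (2 * c) * (M : ℝ) ^ (1 / 2 : ℝ)))) := by
            apply mul_le_mul_of_nonneg_left _ hx
            linarith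
        _ = CL * (4 * Real.sqrt (2 * c)) * (l ^ a * ((M : ℝ) ^ (1 / 2 : ℝ) * (M : ℝ) ^ (1 / 2 : ℝ))) := by
            ring
        _ = CL * (4 * Real.sqrt (2 * c)) * (l ^ a * M) := by rw [hMM]
        _ ≤ CL * (4 * Real.sqrt (2 * c)) * ((K2 * (N : ℝ) ^ (a + e)) * (M : ℝ) ^ (a - e)) := by
            apply mul_le_mul_of_nonneg_left _ (by positivity)
            exact mul_le_mul hla hMa hM0.le (by positivity)
        _ = _ := by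
            rw [hRJ]
            ring
    have p3 : CL * ((M : ℝ) ^ (2 : ℝ) * (N : ℝ) ^ (2 * a - 2) * ((N : ℝ) / M) ^ (2 - 3 * a / 2)) *
        ∑ q ∈ Finset.Icc 1 (2 * c * M), ((q : ℝ) + 1) * (q : ℝ) ^ (-(1 + a)) ≤
        CL * (2 * S) * RJ a e N M := by
      have hpow : ((N : ℝ) / M) ^ (2 - 3 * a / 2) ≤ ((N : ℝ) / M) ^ (2 - a + e) :=
        Real.rpow_le_rpow_of_exponent_le hNM (by linarith)
      have hx : 0 ≤ CL * ((M : ℝ) ^ (2 : ℝ) * (N : ℝ) ^ (2 * a - 2) *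
          ((N : ℝ) / M) ^ (2 - 3 * a / 2)) := by
        positivity
      have hy : 0 ≤ CL * ((M : ℝ) ^ (2 : ℝ) * (N : ℝ) ^ (2 * a - 2)) * (2 * S) := by
        positivity
      calc _ ≤ CL * ((M : ℝ) ^ (2 : ℝ) * (N : ℝ) ^ (2 * a - 2) * ((N : ℝ) / M) ^ (2 - 3 * a / 2)) *
            (2 * S) := mul_le_mul_of_nonneg_left s2 hx
        _ = CL * ((M : ℝ) ^ (2 : ℝ) * (N : ℝ) ^ (2 * a - 2)) * (2 * S) *
            ((N : ℝ) / M) ^ (2 - 3 * a / 2) := by ring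
        _ ≤ CL * ((M : ℝ) ^ (2 : ℝ) * (N : ℝ) ^ (2 * a - 2)) * (2 * S) *
            ((N : ℝ) / M) ^ (2 - a + e) := mul_le_mul_of_nonneg_left hpow hy
        _ = _ := by
            unfold RJ
            ring
    calc _ ≤ CL * (K2 * (4 * Real.sqrt (2 * c))) * RJ a e N M + CL * (2 * S) * RJ a e N M :=
          add_le_add p2 p3
      _ = _ := by ring

/-- the case `N < 2 M` -/
lemma main1 (hF : WWF) (c N M : ℕ) (a e C : ℝ) (hM : 1 ≤ M) (hMN : M ≤ N) (hNM : N ≤ 2 * M)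
    (ha0 : 0 < a) (ha1 : a < 2) (he : 0 < e) (hC : 0 ≤ C)
    (hI : ∫ t in (0 : ℝ)..1, WW N c t ^ (a + 1) ≤ C * (N : ℝ) ^ (2 * (a + 1) - 2)) :
    ∫ t in (0 : ℝ)..1, WW N c t ^ a * WW M c t ^ (1 : ℝ) ≤ C * 4 * RJ a e N M := by
  have hN : 1 ≤ N := hM.trans hMN
  have hNR : (1 : ℝ) ≤ N := by exact_mod_cast hN
  have hMR : (1 : ℝ) ≤ M := by exact_mod_cast hM
  have hN0 : (0 : ℝ) < N := by linarith
  have hM0 : (0 : ℝ) < M := by linarith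
  have hcN : Continuous fun t => WW N c t ^ a := (hF.cont N c).rpow_const fun t => Or.inr ha0.le
  have hcM : Continuous fun t => WW M c t ^ (1 : ℝ) :=
    (hF.cont M c).rpow_const fun t => Or.inr (by norm_num)
  have hcS : Continuous fun t => WW N c t ^ (a + 1) :=
    (hF.cont N c).rpow_const fun t => Or.inr (by linarith)
  have h1 : ∫ t in (0 : ℝ)..1, WW N c t ^ a * WW M c t ^ (1 : ℝ) ≤
      ∫ t in (0 : ℝ)..1, WW N c t ^ (a + 1) := by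
    apply intervalIntegral.integral_mono_on zero_le_one
    · exact (hcN.mul hcM).intervalIntegrable _ _
    · exact hcS.intervalIntegrable _ _
    · intro t _
      have hge := hF.ge N c t
      have hpos : 0 < WW N c t := lt_of_lt_of_le hN0 hge
      rw [Real.rpow_add hpos]
      apply mul_le_mul_of_nonneg_left _ (Real.rpow_nonneg hpos.le _)
      exact Real.rpow_le_rpow (WINT.WW_nonneg _ _ _) (hF.mono M N c c t hMN le_rfl) (by norm_num)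
  refine h1.trans (hI.trans ?_)
  rw [mul_assoc]
  apply mul_le_mul_of_nonneg_left _ hC
  have hNM1 : (1 : ℝ) ≤ (N : ℝ) / M := by
    rw [le_div_iff₀ hM0, one_mul]
    exact_mod_cast hMN
  have h3 : (1 : ℝ) ≤ ((N : ℝ) / M) ^ (2 - a + e) := Real.one_le_rpow hNM1 (by linarith)
  have h4 : (N : ℝ) ^ (2 : ℝ) ≤ 4 * (M : ℝ) ^ (2 : ℝ) := by
    rw [Real.rpow_two, Real.rpow_two]
    have : (N : ℝ) ≤ 2 * M := by exact_mod_cast hNM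
    nlinarith
  have e9 : (N : ℝ) ^ (2 * (a + 1) - 2) = (N : ℝ) ^ (2 * a - 2) * (N : ℝ) ^ (2 : ℝ) := by
    rw [← Real.rpow_add hN0]
    congr 1
    ring
  rw [e9]
  unfold RJ
  have hNa : 0 ≤ (N : ℝ) ^ (2 * a - 2) := Real.rpow_nonneg hN0.le _
  calc (N : ℝ) ^ (2 * a - 2) * (N : ℝ) ^ (2 : ℝ)
      ≤ (N : ℝ) ^ (2 * a - 2) * (4 * (M : ℝ) ^ (2 : ℝ)) :=
        mul_le_mul_of_nonneg_left h4 hNa
    _ = 4 * ((N : ℝ) ^ (2 * a - 2) * (M : ℝ) ^ (2 : ℝ)) * 1 := by ring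
    _ ≤ 4 * ((N : ℝ) ^ (2 * a - 2) * (M : ℝ) ^ (2 : ℝ)) * ((N : ℝ) / M) ^ (2 - a + e) :=
        mul_le_mul_of_nonneg_left h3 (by positivity)
    _ = _ := by ring

end INTK

open INTK in
theorem t_INTK : M_INTK := by
  intro hWPT hWINT hF hFRC c a e hc ha ha1 he
  obtain ⟨C, hC, hC'⟩ := hWPT c hc
  obtain ⟨C1, hC1, hC1'⟩ := hWINT c (a + 1) hc (by linarith)
  obtain ⟨CL, hCL, hCL'⟩ := lock hWPT hFRC c a hc ha ha1
  set η : ℝ := min e (a - 1) with hη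
  have hη0 : 0 < η := lt_min he (by linarith)
  have hηe : η ≤ e := min_le_left _ _
  have hηa : η ≤ a - 1 := min_le_right _ _
  obtain ⟨C0, hC0, hC0'⟩ := hWINT c (2 + η / 2) hc (by linarith)
  obtain ⟨K1, hK1, hK1'⟩ := INTI.log_pow 1 (η / 2) (by norm_num) (by linarith)
  obtain ⟨K2, hK2, hK2'⟩ := INTI.log_pow a η (by linarith) hη0
  have hS : 0 ≤ ∑' n : ℕ, (n : ℝ) ^ (1 - (1 + a)) :=
    tsum_nonneg fun n => Real.rpow_nonneg (Nat.cast_nonneg n) _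
  have hCb : 0 ≤ C ^ (1 : ℝ) := Real.rpow_nonneg hC _
  have h2b : (0 : ℝ) ≤ 2 ^ (1 : ℝ) := Real.rpow_nonneg (by norm_num) _
  set A : ℝ := C ^ (1 : ℝ) * (2 ^ (1 : ℝ) * (K1 * C0 + CL * (K2 * (4 * Real.sqrt (2 * c)) +
        2 * ∑' n : ℕ, (n : ℝ) ^ (1 - (1 + a))))) with hA
  have hA0 : 0 ≤ A := by
    rw [hA]
    positivity
  refine ⟨A + C1 * 4, by positivity, ?_⟩
  intro N M hM hMN
  have hN : 1 ≤ N := hM.trans hMN
  have hNR : (1 : ℝ) ≤ N := by exact_mod_cast hN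
  have hMR : (1 : ℝ) ≤ M := by exact_mod_cast hM
  have hM0 : (0 : ℝ) < M := by linarith
  have hNM1 : (1 : ℝ) ≤ (N : ℝ) / M := by
    rw [le_div_iff₀ hM0, one_mul]
    exact_mod_cast hMN
  have hRJ0 := RJ_nonneg a η N M
  have hRJe : RJ a η N M ≤ RJ a e N M := by
    unfold RJ
    apply mul_le_mul_of_nonneg_left _ (by positivity)
    exact Real.rpow_le_rpow_of_exponent_le hNM1 (by linarith)
  have hAC : 0 ≤ A + C1 * 4 := by positivity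
  have hgoal : ∫ t in (0 : ℝ)..1, WW N c t ^ a * WW M c t ^ (1 : ℝ) ≤
      (A + C1 * 4) * RJ a η N M := by
    rw [add_mul]
    rcases le_total (2 * M) N with h | h
    · have hI := int_a hF c N a (η / 2) C0 ha ha1 (by linarith) hN (hC0' N hN)
      have hlog : (1 + Real.log M) ≤ K1 * (M : ℝ) ^ (η / 2) := by
        have := hK1' M hM
        rwa [Real.rpow_one] at this
      have := main2 hF c N M a η C C0 CL K1 K2 hc hM hN hMN ha hη0 hηa hC hC0 hCL hK1 hK2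
        (fun t ρ h1 h2 => hC' M t ρ hM h1 h2) hI (fun ρ hρ => hCL' N M ρ hM h hρ) hlog (hK2' N hN)
      have h0 : 0 ≤ C1 * 4 * RJ a η N M := by positivity
      linarith
    · have := main1 hF c N M a η C1 hM hMN h (by linarith) (by linarith) hη0 hC1 (hC1' N hN)
      have h0 : 0 ≤ A * RJ a η N M := mul_nonneg hA0 hRJ0
      linarith
  have h5 : ∫ t in (0 : ℝ)..1, WW N c t ^ a * WW M c t =
      ∫ t in (0 : ℝ)..1, WW N c t ^ a * WW M c t ^ (1 : ℝ) := by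
    simp only [Real.rpow_one]
  rw [h5]
  exact hgoal.trans (mul_le_mul_of_nonneg_left hRJe hAC)

end

end LGR
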