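import Pool.Agent.LGR.StL
import Mathlib.Algebra.Lie.Sl2

/-!
# INTW: a Hermitian `h` in a triple of matrices has integral eigenvalues
-/

namespace LGR

open STZ MeasureTheory Matrix Filter

open scoped ComplexConjugate Matrix Real Topology

noncomputable section

attribute [local instance 100] LieRing.ofAssociativeRing

namespace INTW

section eig

variable {V : Type*} [AddCommGroup V] [Module ℂ V] [FiniteDimensional ℂ V]

lemma pow_eig (H E : Module.End ℂ V) (he : H * E - E * H = (2 : ℂ) • E) {v : V} {c : ℂ}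
    (hv : H v = c • v) (k : ℕ) : H ((E ^ k) v) = (c + 2 * k) • (E ^ k) v := by
  induction k with
  | zero => simp [hv]
  | succ k ih =>
    have h1 : H (E ((E ^ k) v)) - E (H ((E ^ k) v)) = (2 : ℂ) • E ((E ^ k) v) := by
      have := congrArg (fun g : Module.End ℂ V => g ((E ^ k) v)) he
      simpa using this
    rw [pow_succ', Module.End.mul_apply, sub_eq_iff_eq_add.mp h1, ih, map_smul, ← add_smul]
    congr 1
    push_cast
    ring

lemma int_eig (H E F : Module.End ℂ V) (he : H * E - E * H = (2 : ℂ) • E)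
    (hf : H * F - F * H = -((2 : ℂ) • F)) (hef : E * F - F * E = H) {v : V} (hv0 : v ≠ 0) {c : ℂ}
    (hv : H v = c • v) : ∃ z : ℤ, c = z := by
  by_cases hH : H = 0
  · refine ⟨0, ?_⟩
    rw [hH] at hv
    have : c • v = 0 := by simpa using hv.symm
    simpa [hv0] using this
  have t : IsSl2Triple H E F := by
    refine ⟨hH, ?_, ?_, ?_⟩
    · rw [LieRing.of_associative_ring_bracket]; exact hef
    · rw [LieRing.of_associative_ring_bracket, he, two_smul, two_nsmul]
    · rw [LieRing.of_associative_ring_bracket, hf, two_smul, two_nsmul]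
  have hex : ∃ k : ℕ, (E ^ k) v = 0 := by
    by_contra hcon
    push Not at hcon
    have hfin := H.finite_hasEigenvalue
    have hinf : (Set.range (fun k : ℕ => c + 2 * (k : ℂ))).Infinite := by
      refine Set.infinite_range_of_injective ?_
      intro a b hab
      have : (2 : ℂ) * a = 2 * b := by simpa using hab
      have h2 : (a : ℂ) = b := mul_left_cancel₀ two_ne_zero this
      exact_mod_cast h2
    refine hinf (hfin.subset ?_)
    rintro _ ⟨k, rfl⟩
    exact Module.End.hasEigenvalue_of_hasEigenvector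
      (Module.End.hasEigenvector_iff.mpr ⟨Module.End.mem_eigenspace_iff.mpr (pow_eig H E he hv k), hcon k⟩)
  obtain ⟨k, hk1, hk2⟩ := Nat.exists_not_and_succ_of_not_zero_of_exists
    (p := fun k => (E ^ k) v = 0) (by simpa using hv0) hex
  have P : t.HasPrimitiveVectorWith ((E ^ k) v) (c + 2 * k) := by
    refine ⟨hk1, ?_, ?_⟩
    · exact pow_eig H E he hv k
    · have : (E ^ (k + 1)) v = 0 := hk2
      rw [pow_succ', Module.End.mul_apply] at this
      exact this
  obtain ⟨m, hm⟩ := P.exists_nat
  refine ⟨(m : ℤ) - 2 * k, ?_⟩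
  push_cast
  rw [← hm]
  ring

end eig

lemma int_eigenvalue {N : ℕ} (h e f : Matrix (Fin N) (Fin N) ℂ) (he : h * e - e * h = (2 : ℂ) • e)
    (hf : h * f - f * h = -((2 : ℂ) • f)) (hef : e * f - f * e = h) {v : Fin N → ℂ} (hv0 : v ≠ 0) {c : ℂ}
    (hv : h *ᵥ v = c • v) : ∃ z : ℤ, c = z := by
  refine int_eig (V := Fin N → ℂ) (Matrix.toLin' h) (Matrix.toLin' e) (Matrix.toLin' f) ?_ ?_ ?_ hv0 (c := c) ?_
  · have := congrArg Matrix.toLin' he
    simpa [Matrix.toLin'_mul, Module.End.mul_eq_comp] using this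
  · have := congrArg Matrix.toLin' hf
    simpa [Matrix.toLin'_mul, Module.End.mul_eq_comp] using this
  · have := congrArg Matrix.toLin' hef
    simpa [Matrix.toLin'_mul, Module.End.mul_eq_comp] using this
  · simpa using hv

end INTW

open INTW in
theorem t_INTW : S_INTW := by
  intro N h e f hh he hf hef
  have hA : h.IsHermitian := hh
  have hz : ∀ i, ∃ z : ℤ, (hA.eigenvalues i : ℂ) = z := by
    intro i
    refine int_eigenvalue h e f he hf hef (v := ⇑(hA.eigenvectorBasis i)) ?_ ?_
    · intro h0
      have h1 := hA.eigenvectorBasis.orthonormal.1 i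
      have h2 : hA.eigenvectorBasis i = 0 := by
        ext j
        exact congrFun h0 j
      rw [h2] at h1
      simp at h1
    · have := hA.mulVec_eigenvectorBasis i
      rw [this]
      ext j
      simp
  have hspec := hA.spectral_theorem
  rw [Unitary.conjStarAlgAut_apply] at hspec
  set U : Matrix (Fin N) (Fin N) ℂ := (hA.eigenvectorUnitary : Matrix (Fin N) (Fin N) ℂ) with hU
  have hUU : U * star U = 1 := Unitary.coe_mul_star_self hA.eigenvectorUnitary
  have hUU' : star U * U = 1 := Unitary.coe_star_mul_self hA.eigenvectorUnitary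
  have hinv : U⁻¹ = star U := Matrix.inv_eq_right_inv hUU
  have hunit : IsUnit U := ⟨⟨U, star U, hUU, hUU'⟩, rfl⟩
  have hscal : (2 * π * Complex.I : ℂ) • h =
      U * diagonal (fun i => (2 * π * Complex.I : ℂ) * (hA.eigenvalues i : ℂ)) * U⁻¹ := by
    rw [hinv]
    conv_lhs => rw [hspec]
    rw [← Matrix.smul_mul, ← Matrix.mul_smul]
    congr 2
    ext i j
    by_cases hij : i = j
    · subst hij; simp
    · simp [hij]
  rw [hscal, Matrix.exp_conj _ _ hunit, Matrix.exp_diagonal]
  have hexp : NormedSpace.exp (fun i => (2 * π * Complex.I : ℂ) * (hA.eigenvalues i : ℂ)) = 1 := by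
    ext i
    rw [Pi.coe_exp]
    obtain ⟨z, hz'⟩ := hz i
    rw [← Complex.exp_eq_exp_ℂ, hz']
    rw [Pi.one_apply, Complex.exp_eq_one_iff]
    exact ⟨z, by ring⟩
  rw [hexp]
  have h1 : diagonal (1 : Fin N → ℂ) = 1 := Matrix.diagonal_one
  rw [h1, mul_one, hinv, hUU]

end

end LGR
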