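import Pool.Agent.LGR.StD
import Pool.Agent.STZ.EXP

/-!
# LGR: the Lie algebra of a closed subgroup of `SU(N)`
-/

namespace LGR

open STZ MeasureTheory Matrix Filter

open scoped ComplexConjugate Matrix Real Topology

noncomputable section

namespace LIEB

variable {N : ℕ}

lemma coe (X : Matrix (Fin N) (Fin N) ℂ) (hX : X ∈ su N) (t : ℝ) :
    (ex X t).1 = NormedSpace.exp ((t : ℂ) • X) := (t_EXP N X hX).coe t

lemma ct_mul (g : SU N) : g.1ᴴ * g.1 = 1 := by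
  have h := (Matrix.mem_specialUnitaryGroup_iff.mp g.2).1
  exact Matrix.mem_unitaryGroup_iff'.mp h

lemma mul_ct (g : SU N) : g.1 * g.1ᴴ = 1 := by
  have h := (Matrix.mem_specialUnitaryGroup_iff.mp g.2).1
  exact Matrix.mem_unitaryGroup_iff.mp h

lemma coe_inv (g : SU N) : (g⁻¹).1 = g.1ᴴ := by
  have h1 : (g⁻¹).1 * g.1 = 1 := by
    have h := congrArg Subtype.val (inv_mul_cancel g)
    exact h
  have h2 : (g⁻¹).1 * g.1 * g.1ᴴ = g.1ᴴ := by rw [h1, one_mul]
  rwa [mul_assoc, mul_ct, mul_one] at h2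

/-- limits of elements of a closed subgroup -/
lemma mem_of_tendsto {H : Subgroup (SU N)} (hc : IsClosed (H : Set (SU N))) {ι : Type*}
    {l : Filter ι} [l.NeBot] (c : ι → SU N) (hcH : ∀ i, c i ∈ H) (g : SU N)
    (h : Tendsto (fun i => (c i).1) l (𝓝 g.1)) : g ∈ H := by
  have h1 : Tendsto c l (𝓝 g) := by
    rw [tendsto_subtype_rng]
    exact h
  exact hc.mem_of_tendsto h1 (Eventually.of_forall hcH)

lemma continuous_exp : Continuous (fun X : Matrix (Fin N) (Fin N) ℂ => NormedSpace.exp X) := by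
  open scoped Matrix.Norms.Operator in
  set_option backward.isDefEq.respectTransparency false in
  exact NormedSpace.exp_continuous

/-- `lie H` is closed -/
lemma lie_lim {H : Subgroup (SU N)} (hc : IsClosed (H : Set (SU N))) {ι : Type*}
    {l : Filter ι} [l.NeBot] (Z : ι → Matrix (Fin N) (Fin N) ℂ) (hZ : ∀ i, Z i ∈ lie H)
    (W : Matrix (Fin N) (Fin N) ℂ) (hW : W ∈ su N) (h : Tendsto Z l (𝓝 W)) : W ∈ lie H := by
  refine ⟨hW, fun t => ?_⟩
  refine mem_of_tendsto (l := l) hc (fun i => ex (Z i) t) (fun i => (hZ i).2 t) _ ?_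
  rw [coe W hW]
  have h1 : (fun i => (ex (Z i) t).1) = fun i => NormedSpace.exp ((t : ℂ) • Z i) := by
    funext i
    exact coe _ (hZ i).1 t
  rw [h1]
  exact (continuous_exp.tendsto _).comp (h.const_smul (t : ℂ))

lemma lie_ad {H : Subgroup (SU N)} (h : SU N) (hh : h ∈ H) (X : Matrix (Fin N) (Fin N) ℂ)
    (hX : X ∈ lie H) : h.1 * X * h.1ᴴ ∈ lie H := by
  have hs : h.1 * X * h.1ᴴ ∈ su N := by
    refine ⟨?_, ?_⟩
    · rw [Matrix.conjTranspose_mul, Matrix.conjTranspose_mul, Matrix.conjTranspose_conjTranspose,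
        hX.1.1]
      simp [mul_assoc]
    · rw [Matrix.trace_mul_comm, ← mul_assoc, ct_mul, one_mul]
      exact hX.1.2
  refine ⟨hs, fun t => ?_⟩
  have h1 : ex (h.1 * X * h.1ᴴ) t = h * ex X t * h⁻¹ := by
    apply Subtype.ext
    have h2 : (h * ex X t * h⁻¹).1 = h.1 * (ex X t).1 * (h⁻¹).1 := rfl
    rw [h2, coe _ hs, coe _ hX.1, coe_inv]
    have hinv : (h.1)⁻¹ = h.1ᴴ := Matrix.inv_eq_left_inv (ct_mul h)
    have hu : IsUnit h.1 := by
      rw [isUnit_iff_exists]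
      exact ⟨h.1ᴴ, mul_ct h, ct_mul h⟩
    rw [← hinv, ← Matrix.exp_conj _ _ hu]
    congr 1
    simp only [Matrix.mul_smul, Matrix.smul_mul]
  rw [h1]
  exact H.mul_mem (H.mul_mem hh (hX.2 t)) (H.inv_mem hh)

lemma lie_smul {H : Subgroup (SU N)} (s : ℝ) (X : Matrix (Fin N) (Fin N) ℂ)
    (hX : X ∈ lie H) : (s : ℂ) • X ∈ lie H := by
  have hs : (s : ℂ) • X ∈ su N := by
    refine ⟨?_, ?_⟩
    · rw [Matrix.conjTranspose_smul, hX.1.1]
      simp
    · rw [Matrix.trace_smul, hX.1.2, smul_zero]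
  refine ⟨hs, fun t => ?_⟩
  have h1 : ex ((s : ℂ) • X) t = ex X (t * s) := by
    apply Subtype.ext
    rw [coe _ hs, coe _ hX.1, smul_smul, Complex.ofReal_mul]
  rw [h1]
  exact hX.2 _

section normed

open scoped Matrix.Norms.L2Operator

lemma norm_le (g : SU N) : ‖g.1‖ ≤ 1 := by
  have h1 : ‖g.1ᴴ * g.1‖ = ‖g.1‖ * ‖g.1‖ := Matrix.l2_opNorm_conjTranspose_mul_self g.1
  rw [ct_mul] at h1
  have h2 : ‖(1 : Matrix (Fin N) (Fin N) ℂ)‖ ≤ 1 := by
    rcases Nat.eq_zero_or_pos N with h | h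
    · subst h
      have : (1 : Matrix (Fin 0) (Fin 0) ℂ) = 0 := Subsingleton.elim _ _
      rw [this, norm_zero]
      exact zero_le_one
    · have : Nonempty (Fin N) := ⟨⟨0, h⟩⟩
      rw [CStarRing.norm_one]
  nlinarith [norm_nonneg g.1]

lemma pow_sub (g h : SU N) (n : ℕ) : ‖(g ^ n).1 - (h ^ n).1‖ ≤ n * ‖g.1 - h.1‖ := by
  induction n with
  | zero => simp
  | succ n ih =>
    have h1 : (g ^ (n + 1)).1 - (h ^ (n + 1)).1 =
        (g ^ n).1 * (g.1 - h.1) + ((g ^ n).1 - (h ^ n).1) * h.1 := by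
      rw [pow_succ, pow_succ]
      have e1 : (g ^ n * g).1 = (g ^ n).1 * g.1 := rfl
      have e2 : (h ^ n * h).1 = (h ^ n).1 * h.1 := rfl
      rw [e1, e2]
      noncomm_ring
    rw [h1]
    have h2 := norm_add_le ((g ^ n).1 * (g.1 - h.1)) (((g ^ n).1 - (h ^ n).1) * h.1)
    have h3 := norm_mul_le (g ^ n).1 (g.1 - h.1)
    have h4 := norm_mul_le ((g ^ n).1 - (h ^ n).1) h.1
    have h5 := norm_le (g ^ n)
    have h6 := norm_le h
    have h7 : ‖(g ^ n).1‖ * ‖g.1 - h.1‖ ≤ 1 * ‖g.1 - h.1‖ :=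
      mul_le_mul_of_nonneg_right h5 (norm_nonneg _)
    have h8 : ‖(g ^ n).1 - (h ^ n).1‖ * ‖h.1‖ ≤ ‖(g ^ n).1 - (h ^ n).1‖ * 1 :=
      mul_le_mul_of_nonneg_left h6 (norm_nonneg _)
    have h9 : ((n + 1 : ℕ) : ℝ) = (n : ℝ) + 1 := by push_cast; rfl
    rw [h9]
    linarith

lemma ex_pow (Z : Matrix (Fin N) (Fin N) ℂ) (hZ : Z ∈ su N) (t : ℝ) (n : ℕ) :
    ex Z t ^ n = ex Z (n * t) := by
  induction n with
  | zero => simp [(t_EXP N Z hZ).zero]
  | succ n ih =>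
    rw [pow_succ, ih, ← (t_EXP N Z hZ).add]
    congr 1
    push_cast
    ring

set_option backward.isDefEq.respectTransparency false in
lemma der_ex (Z : Matrix (Fin N) (Fin N) ℂ) (hZ : Z ∈ su N) :
    HasDerivAt (fun s : ℝ => (ex Z s).1) Z 0 := by
  have h1 : HasDerivAt (fun u : ℂ => NormedSpace.exp (u • Z))
      (NormedSpace.exp ((0 : ℂ) • Z) * Z) ((0 : ℝ) : ℂ) := by
    rw [Complex.ofReal_zero]
    exact hasDerivAt_exp_smul_const Z (0 : ℂ)
  rw [EXP.exp_zero_smul, one_mul] at h1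
  have h2 := HasDerivAt.scomp (0 : ℝ) h1 (Complex.ofRealCLM.hasDerivAt (x := (0 : ℝ)))
  have h4 : Complex.ofRealCLM 1 = (1 : ℂ) := Complex.ofReal_one
  rw [h4, one_smul] at h2
  have h3 : (fun s : ℝ => (ex Z s).1) = fun s : ℝ => NormedSpace.exp ((s : ℂ) • Z) := by
    funext s
    exact coe Z hZ s
  rw [h3]
  exact h2

/-- a differentiable curve in `H` through `1` -/
lemma curve {H : Subgroup (SU N)} (hc : IsClosed (H : Set (SU N))) (c : ℝ → SU N)
    (hcH : ∀ s, c s ∈ H) (h0 : c 0 = 1) (Z : Matrix (Fin N) (Fin N) ℂ) (hZ : Z ∈ su N)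
    (hd : HasDerivAt (fun s : ℝ => (c s).1) Z 0) : Z ∈ lie H := by
  refine ⟨hZ, fun t => ?_⟩
  have hd2 : HasDerivAt (fun s : ℝ => (c s).1 - (ex Z s).1) 0 0 := by
    have := hd.sub (der_ex Z hZ)
    rwa [sub_self] at this
  have h2 := hd2.isLittleO
  have hs : Tendsto (fun n : ℕ => t / ((n : ℝ) + 1)) atTop (𝓝 0) := by
    have := tendsto_one_div_add_atTop_nhds_zero_nat (𝕜 := ℝ)
    have h3 := this.const_mul t
    rw [mul_zero] at h3
    refine h3.congr fun n => ?_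
    ring
  have h3 := h2.comp_tendsto hs
  have h4 : Tendsto (fun n : ℕ => ((n : ℝ) + 1) *
      ‖(c (t / ((n : ℝ) + 1))).1 - (ex Z (t / ((n : ℝ) + 1))).1‖) atTop (𝓝 0) := by
    rw [Metric.tendsto_atTop]
    intro ε hε
    have h5 := h3.def (c := ε / (|t| + 1)) (by positivity)
    rw [eventually_atTop] at h5
    obtain ⟨n₀, hn₀⟩ := h5
    refine ⟨n₀, fun n hn => ?_⟩
    have h6 := hn₀ n hn
    simp only [Function.comp_apply, sub_zero, smul_zero, h0, (t_EXP N Z hZ).zero, sub_self,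
      Real.norm_eq_abs] at h6
    have hp : (0 : ℝ) < (n : ℝ) + 1 := by positivity
    rw [Real.dist_eq, sub_zero, abs_of_nonneg (by positivity)]
    have h7 : |t / ((n : ℝ) + 1)| = |t| / ((n : ℝ) + 1) := by
      rw [abs_div, abs_of_pos hp]
    rw [h7] at h6
    calc ((n : ℝ) + 1) * ‖(c (t / ((n : ℝ) + 1))).1 - (ex Z (t / ((n : ℝ) + 1))).1‖
        ≤ ((n : ℝ) + 1) * (ε / (|t| + 1) * (|t| / ((n : ℝ) + 1))) :=
          mul_le_mul_of_nonneg_left h6 hp.le
      _ = ε * (|t| / (|t| + 1)) := by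
          field_simp
      _ < ε * 1 := by
          apply mul_lt_mul_of_pos_left _ hε
          rw [div_lt_one (by positivity)]
          linarith
      _ = ε := mul_one ε
  have h5 : Tendsto (fun n : ℕ => (c (t / ((n : ℝ) + 1)) ^ (n + 1)).1) atTop
      (𝓝 (ex Z t).1) := by
    rw [tendsto_iff_norm_sub_tendsto_zero]
    refine squeeze_zero (fun n => norm_nonneg _) (fun n => ?_) h4
    have h6 := pow_sub (c (t / ((n : ℝ) + 1))) (ex Z (t / ((n : ℝ) + 1))) (n + 1)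
    rw [ex_pow Z hZ] at h6
    have h7 : ((n + 1 : ℕ) : ℝ) * (t / ((n : ℝ) + 1)) = t := by
      have hp : (0 : ℝ) < (n : ℝ) + 1 := by positivity
      push_cast
      field_simp
    rw [h7] at h6
    push_cast at h6
    exact h6
  exact mem_of_tendsto hc (fun n : ℕ => c (t / ((n : ℝ) + 1)) ^ (n + 1))
    (fun n => H.pow_mem (hcH _) _) _ h5

lemma lie_add {H : Subgroup (SU N)} (hc : IsClosed (H : Set (SU N)))
    (X : Matrix (Fin N) (Fin N) ℂ) (hX : X ∈ lie H) (Y : Matrix (Fin N) (Fin N) ℂ)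
    (hY : Y ∈ lie H) : X + Y ∈ lie H := by
  refine curve hc (fun s => ex X s * ex Y s) (fun s => H.mul_mem (hX.2 s) (hY.2 s)) ?_ _ ?_ ?_
  · simp only [(t_EXP N X hX.1).zero, (t_EXP N Y hY.1).zero, mul_one]
  · refine ⟨?_, ?_⟩
    · rw [Matrix.conjTranspose_add, hX.1.1, hY.1.1]
      abel
    · rw [Matrix.trace_add, hX.1.2, hY.1.2, add_zero]
  · have h1 := (der_ex X hX.1).mul (der_ex Y hY.1)
    rw [(t_EXP N X hX.1).zero, (t_EXP N Y hY.1).zero] at h1
    have h2 : X * (1 : SU N).1 + (1 : SU N).1 * Y = X + Y := by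
      have : (1 : SU N).1 = 1 := rfl
      rw [this, mul_one, one_mul]
    rw [h2] at h1
    exact h1

lemma lie_br {H : Subgroup (SU N)} (hc : IsClosed (H : Set (SU N)))
    (X : Matrix (Fin N) (Fin N) ℂ) (hX : X ∈ lie H) (Y : Matrix (Fin N) (Fin N) ℂ)
    (hY : Y ∈ lie H) : X * Y - Y * X ∈ lie H := by
  have hsu : X * Y - Y * X ∈ su N := by
    refine ⟨?_, ?_⟩
    · rw [Matrix.conjTranspose_sub, Matrix.conjTranspose_mul, Matrix.conjTranspose_mul, hX.1.1,
        hY.1.1]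
      simp
    · rw [Matrix.trace_sub, Matrix.trace_mul_comm, sub_self]
  have hneg : ∀ s : ℝ, (ex X s).1ᴴ = (ex X (-s)).1 := by
    intro s
    rw [← coe_inv]
    have h1 : ex X s * ex X (-s) = 1 := by
      rw [← (t_EXP N X hX.1).add, add_neg_cancel, (t_EXP N X hX.1).zero]
    rw [← eq_inv_of_mul_eq_one_right h1]
  have hd : HasDerivAt (fun s : ℝ => (ex X s).1 * Y * (ex X s).1ᴴ) (X * Y - Y * X) 0 := by
    have h1 := ((der_ex X hX.1).mul_const Y).mul
      (HasDerivAt.scomp (0 : ℝ) (h := fun s : ℝ => -s) (h' := -1) (by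
        simp only [neg_zero]
        exact der_ex X hX.1) (hasDerivAt_neg (0 : ℝ)))
    have h2 : (fun s : ℝ => (ex X s).1 * Y * (ex X s).1ᴴ) =
        (fun s : ℝ => (ex X s).1 * Y) * ((fun s : ℝ => (ex X s).1) ∘ fun s => -s) := by
      funext s
      simp only [Pi.mul_apply, Function.comp_apply, hneg]
    rw [h2]
    have e1 : (ex X 0).1 = 1 := by
      rw [(t_EXP N X hX.1).zero]
      rfl
    have e2 : ((fun s : ℝ => (ex X s).1) ∘ fun s => -s) 0 = 1 := by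
      simp only [Function.comp_apply, neg_zero, e1]
    have e3 : X * Y * ((fun s : ℝ => (ex X s).1) ∘ fun s => -s) 0 +
        (ex X 0).1 * Y * ((-1 : ℝ) • X) = X * Y - Y * X := by
      rw [e2, e1, mul_one, one_mul, neg_smul, one_smul, mul_neg]
      abel
    rw [e3] at h1
    exact h1
  rw [hasDerivAt_iff_tendsto_slope] at hd
  have : (𝓝[≠] (0 : ℝ)).NeBot := inferInstance
  refine lie_lim hc _ (fun s => ?_) _ hsu hd
  have e0 : (ex X 0).1 = 1 := by
    rw [(t_EXP N X hX.1).zero]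
    rfl
  have h3 : slope (fun s : ℝ => (ex X s).1 * Y * (ex X s).1ᴴ) 0 s =
      ((s⁻¹ : ℝ) : ℂ) • ((ex X s).1 * Y * (ex X s).1ᴴ + ((-1 : ℝ) : ℂ) • Y) := by
    rw [slope_def_module, sub_zero, e0]
    rw [Complex.coe_smul]
    simp [sub_eq_add_neg]
  rw [h3]
  exact lie_smul _ _ (lie_add hc _ (lie_ad _ (hX.2 s) _ hY) _ (lie_smul _ _ hY))

end normed

end LIEB

theorem t_LIEB : S_LIEB := by
  intro N H hc
  refine ⟨fun X hX => hX.1, ?_, LIEB.lie_add hc, fun s X hX => LIEB.lie_smul s X hX,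
    LIEB.lie_br hc, fun h hh X hX => LIEB.lie_ad h hh X hX⟩
  have hs : (0 : Matrix (Fin N) (Fin N) ℂ) ∈ su N := by
    refine ⟨?_, ?_⟩ <;> simp
  refine ⟨hs, fun t => ?_⟩
  have h1 : ex (0 : Matrix (Fin N) (Fin N) ℂ) t = 1 := by
    apply Subtype.ext
    rw [LIEB.coe _ hs, smul_zero, NormedSpace.exp_zero]
    rfl
  rw [h1]
  exact H.one_mem

end

end LGR
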