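import Pool.Agent.LGR.StV
import Pool.Agent.LGR.LIEB

/-!
# INVL: the inversion maps eigenfunctions to eigenfunctions
-/

namespace LGR

open STZ MeasureTheory Matrix Filter

open scoped ComplexConjugate Matrix Real Topology

noncomputable section

namespace INVL

variable {N : ℕ}

lemma ex_ad (h : SU N) (X : Matrix (Fin N) (Fin N) ℂ) (hX : X ∈ su N)
    (hs : h.1 * X * h.1ᴴ ∈ su N) (t : ℝ) : ex (h.1 * X * h.1ᴴ) t = h * ex X t * h⁻¹ := by
  apply Subtype.ext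
  have h2 : (h * ex X t * h⁻¹).1 = h.1 * (ex X t).1 * (h⁻¹).1 := rfl
  rw [h2, LIEB.coe _ hs, LIEB.coe _ hX, LIEB.coe_inv]
  have hinv : (h.1)⁻¹ = h.1ᴴ := Matrix.inv_eq_left_inv (LIEB.ct_mul h)
  have hu : IsUnit h.1 := by
    rw [isUnit_iff_exists]
    exact ⟨h.1ᴴ, LIEB.mul_ct h, LIEB.ct_mul h⟩
  rw [← hinv, ← Matrix.exp_conj _ _ hu]
  congr 1
  simp only [Matrix.mul_smul, Matrix.smul_mul]

lemma exH_coe (H : Subgroup (SU N)) (X : Matrix (Fin N) (Fin N) ℂ) (hX : X ∈ lie H) (t : ℝ) :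
    (exH H X t).1 = ex X t := by
  unfold exH
  rw [dif_pos (hX.2 t)]

lemma ex_neg (X : Matrix (Fin N) (Fin N) ℂ) (hX : X ∈ su N) (t : ℝ) :
    (ex X t)⁻¹ = ex X (-t) := by
  have h := t_EXP N X hX
  rw [inv_eq_iff_mul_eq_one, ← h.add, add_neg_cancel, h.zero]

lemma inv_mul_ex {H : Subgroup (SU N)} (hL : LIF H) (g : H) (X : Matrix (Fin N) (Fin N) ℂ)
    (hX : X ∈ lie H) (t : ℝ) :
    (g * exH H X t)⁻¹ = g⁻¹ * exH H (g.1.1 * X * g.1.1ᴴ) (-t) := by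
  have hY := hL.ad g.1 g.2 X hX
  apply Subtype.ext
  have h1 : ((g * exH H X t)⁻¹ : H).1 = (g.1 * (exH H X t).1)⁻¹ := rfl
  have h2 : (g⁻¹ * exH H (g.1.1 * X * g.1.1ᴴ) (-t) : H).1
      = g.1⁻¹ * (exH H (g.1.1 * X * g.1.1ᴴ) (-t)).1 := rfl
  rw [h1, h2, exH_coe H X hX, exH_coe H _ hY, ex_ad g.1 X hX.1 hY.1, _root_.mul_inv_rev, ex_neg X hX.1]
  group

lemma comm_ex (X : Matrix (Fin N) (Fin N) ℂ) (hX : X ∈ su N) (t : ℝ) :
    (ex X t).1 * X * (ex X t).1ᴴ = X := by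
  have h1 : (ex X t).1 * X = X * (ex X t).1 := by
    rw [LIEB.coe X hX]
    have h : Commute X ((t : ℂ) • X) := (Commute.refl X).smul_right (t : ℂ)
    exact (h.exp_right).symm.eq
  rw [h1, mul_assoc, LIEB.mul_ct, mul_one]

lemma dH_inv {H : Subgroup (SU N)} (hL : LIF H) (f : H → ℂ) (X : Matrix (Fin N) (Fin N) ℂ)
    (hX : X ∈ lie H) (g : H) :
    dH X (fun g => f g⁻¹) g = -dH (g.1.1 * X * g.1.1ᴴ) f g⁻¹ := by
  unfold dH
  have h : (fun t : ℝ => f (g * exH H X t)⁻¹)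
      = fun t : ℝ => (fun s : ℝ => f (g⁻¹ * exH H (g.1.1 * X * g.1.1ᴴ) s)) (-t) := by
    funext t
    rw [inv_mul_ex hL g X hX t]
  rw [h]
  have h5 := deriv_comp_neg (fun s : ℝ => f (g⁻¹ * exH H (g.1.1 * X * g.1.1ᴴ) s)) 0
  rw [neg_zero] at h5
  exact h5

lemma dH_inv2 {H : Subgroup (SU N)} (hL : LIF H) (f : H → ℂ) (X : Matrix (Fin N) (Fin N) ℂ)
    (hX : X ∈ lie H) (g : H) :
    dH X (dH X (fun g => f g⁻¹)) g
      = dH (g.1.1 * X * g.1.1ᴴ) (dH (g.1.1 * X * g.1.1ᴴ) f) g⁻¹ := by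
  have h0 : dH X (fun g => f g⁻¹) = fun g : H => -dH (g.1.1 * X * g.1.1ᴴ) f g⁻¹ := by
    funext g
    exact dH_inv hL f X hX g
  rw [h0]
  have h1 : (fun t : ℝ => (fun g : H => -dH (g.1.1 * X * g.1.1ᴴ) f g⁻¹) (g * exH H X t))
      = fun t : ℝ => (fun s : ℝ => -dH (g.1.1 * X * g.1.1ᴴ) f
          (g⁻¹ * exH H (g.1.1 * X * g.1.1ᴴ) s)) (-t) := by
    funext t
    have h2 : (g * exH H X t : H).1.1 * X * (g * exH H X t : H).1.1ᴴ = g.1.1 * X * g.1.1ᴴ := by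
      have h3 : (g * exH H X t : H).1.1 = g.1.1 * (exH H X t).1.1 := rfl
      rw [h3, exH_coe H X hX, Matrix.conjTranspose_mul]
      have h4 : g.1.1 * (ex X t).1 * X * ((ex X t).1ᴴ * g.1.1ᴴ)
          = g.1.1 * ((ex X t).1 * X * (ex X t).1ᴴ) * g.1.1ᴴ := by
        simp only [mul_assoc]
      rw [h4, comm_ex X hX.1]
    show -dH ((g * exH H X t : H).1.1 * X * (g * exH H X t : H).1.1ᴴ) f (g * exH H X t)⁻¹ = _
    rw [h2, inv_mul_ex hL g X hX t]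
  show deriv (fun t : ℝ => (fun g : H => -dH (g.1.1 * X * g.1.1ᴴ) f g⁻¹) (g * exH H X t)) 0 = _
  rw [h1]
  have h5 := deriv_comp_neg (fun s : ℝ => -dH (g.1.1 * X * g.1.1ᴴ) f
    (g⁻¹ * exH H (g.1.1 * X * g.1.1ᴴ) s)) 0
  rw [neg_zero] at h5
  have h6 : deriv (fun s : ℝ => -dH (g.1.1 * X * g.1.1ᴴ) f
      (g⁻¹ * exH H (g.1.1 * X * g.1.1ᴴ) s)) 0
      = -dH (g.1.1 * X * g.1.1ᴴ) (dH (g.1.1 * X * g.1.1ᴴ) f) g⁻¹ := deriv.fun_neg
  rw [h6, neg_neg] at h5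
  exact h5

lemma lin {H : Subgroup (SU N)} {𝒜 : Subalgebra ℂ (H → ℂ)} (hA : SMA H 𝒜) (hL : LIF H) {d : ℕ}
    (X : Fin d → Matrix (Fin N) (Fin N) ℂ) (hX : ∀ a, X a ∈ lie H) (y : Fin d → ℝ)
    (s : Finset (Fin d)) : (∑ a ∈ s, (y a : ℂ) • X a) ∈ lie H ∧ ∀ f ∈ 𝒜, ∀ g,
      dH (∑ a ∈ s, (y a : ℂ) • X a) f g = ∑ a ∈ s, (y a : ℂ) * dH (X a) f g := by
  induction s using Finset.induction_on with
  | empty =>
    refine ⟨by simpa using hL.zero, fun f hf g => ?_⟩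
    have h := hA.smul 0 hL.zero 0 f hf g
    simpa using h
  | insert a s ha ih =>
    have h1 := hL.smul (y a) (X a) (hX a)
    refine ⟨?_, fun f hf g => ?_⟩
    · rw [Finset.sum_insert ha]
      exact hL.add _ h1 _ ih.1
    · rw [Finset.sum_insert ha, Finset.sum_insert ha, hA.add _ h1 _ ih.1 f hf g, ih.2 f hf g,
        hA.smul _ (hX a) (y a) f hf g]

lemma dH_sum {H : Subgroup (SU N)} {d : ℕ} (Y : Matrix (Fin N) (Fin N) ℂ) (hY : Y ∈ lie H)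
    (h : Fin d → H → ℂ) (hh : ∀ b, C1H (h b)) (y : Fin d → ℝ) (g : H) :
    dH Y (fun g => ∑ b, (y b : ℂ) * h b g) g = ∑ b, (y b : ℂ) * dH Y (h b) g := by
  unfold dH
  have h1 := HasDerivAt.fun_sum (u := Finset.univ)
    (fun (b : Fin d) _ => ((hh b).diff Y hY g).hasDerivAt.const_mul ((y b : ℝ) : ℂ))
  exact h1.deriv

end INVL

open INVL in
theorem t_INVL : M_INVL := by
  intro hcal hlie N H 𝒜 c d X κ f hc hA hF hf hE
  have hL : LIF H := hlie N H hc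
  refine ⟨hA.c2 _ (hA.inv f hf), fun g => ?_⟩
  -- the new frame
  have hYm : ∀ a, g.1.1 * X a * g.1.1ᴴ ∈ lie H := fun a => hL.ad g.1 g.2 (X a) (hF.mem a)
  choose O hO using fun a => hF.span _ (hYm a)
  -- orthogonality
  have hO1 : ∀ a b, ∑ k, O a k * O b k = if a = b then 1 else 0 := by
    intro a b
    have h1 : -(c : ℂ) * ((g.1.1 * X a * g.1.1ᴴ) * (g.1.1 * X b * g.1.1ᴴ)).trace
        = if a = b then 1 else 0 := by
      have h2 : (g.1.1 * X a * g.1.1ᴴ) * (g.1.1 * X b * g.1.1ᴴ)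
          = g.1.1 * (X a * X b) * g.1.1ᴴ := by
        calc (g.1.1 * X a * g.1.1ᴴ) * (g.1.1 * X b * g.1.1ᴴ)
            = g.1.1 * X a * (g.1.1ᴴ * g.1.1) * X b * g.1.1ᴴ := by simp only [mul_assoc]
          _ = g.1.1 * (X a * X b) * g.1.1ᴴ := by
            rw [LIEB.ct_mul, mul_one]
            simp only [mul_assoc]
      rw [h2, Matrix.trace_mul_comm, ← mul_assoc, LIEB.ct_mul, one_mul]
      exact hF.orth a b
    rw [hO a, hO b] at h1
    have h3 : -(c : ℂ) * ((∑ k, (O a k : ℂ) • X k) * (∑ l, (O b l : ℂ) • X l)).trace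
        = ∑ k, ∑ l, (O a k : ℂ) * (O b l : ℂ) * (-(c : ℂ) * (X k * X l).trace) := by
      rw [Finset.sum_mul, Matrix.trace_sum, Finset.mul_sum]
      refine Finset.sum_congr rfl fun k _ => ?_
      rw [Finset.mul_sum, Matrix.trace_sum, Finset.mul_sum]
      refine Finset.sum_congr rfl fun l _ => ?_
      rw [Matrix.smul_mul, Matrix.mul_smul, Matrix.trace_smul, Matrix.trace_smul, smul_eq_mul,
        smul_eq_mul]
      ring
    rw [h3] at h1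
    have h4 : ∑ k, ∑ l, (O a k : ℂ) * (O b l : ℂ) * (-(c : ℂ) * (X k * X l).trace)
        = ∑ k, (O a k : ℂ) * (O b k : ℂ) := by
      refine Finset.sum_congr rfl fun k _ => ?_
      have h5 : ∀ l, (O a k : ℂ) * (O b l : ℂ) * (-(c : ℂ) * (X k * X l).trace)
          = if k = l then (O a k : ℂ) * (O b l : ℂ) else 0 := by
        intro l
        rw [hF.orth k l]
        split_ifs <;> simp
      rw [Finset.sum_congr rfl fun l _ => h5 l]
      simp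
    rw [h4] at h1
    have h6 : ((∑ k, O a k * O b k : ℝ) : ℂ) = ((if a = b then (1 : ℝ) else 0 : ℝ) : ℂ) := by
      push_cast
      rw [h1]
      split_ifs <;> simp
    exact_mod_cast h6
  have hO2 : ∀ b b', ∑ a, O a b * O a b' = if b = b' then 1 else 0 := by
    have h1 : (Matrix.of O) * (Matrix.of O)ᵀ = 1 := by
      ext a b
      rw [Matrix.mul_apply, Matrix.one_apply]
      simpa using hO1 a b
    have h2 : (Matrix.of O)ᵀ * (Matrix.of O) = 1 := mul_eq_one_comm.mp h1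
    intro b b'
    have h3 := congrFun (congrFun h2 b) b'
    rw [Matrix.mul_apply, Matrix.one_apply] at h3
    simpa using h3
  have hlin := fun a => lin hA hL X hF.mem (O a) Finset.univ
  have hdm : ∀ b, dH (X b) f ∈ 𝒜 := fun b => hA.d (X b) (hF.mem b) f hf
  have hstep : ∀ a, dH (g.1.1 * X a * g.1.1ᴴ) (dH (g.1.1 * X a * g.1.1ᴴ) f) g⁻¹
      = ∑ b, ∑ b', ((O a b : ℝ) : ℂ) * ((O a b' : ℝ) : ℂ) * dH (X b) (dH (X b') f) g⁻¹ := by
    intro a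
    have h1 : dH (g.1.1 * X a * g.1.1ᴴ) f = fun g' => ∑ b', ((O a b' : ℝ) : ℂ) * dH (X b') f g' := by
      funext g'
      rw [hO a]
      exact (hlin a).2 f hf g'
    rw [h1, dH_sum _ (hYm a) (fun b' => dH (X b') f) (fun b' => (hA.c2 _ (hdm b')).1) (O a) g⁻¹]
    rw [Finset.sum_comm]
    refine Finset.sum_congr rfl fun b' _ => ?_
    have h2 : dH (g.1.1 * X a * g.1.1ᴴ) (dH (X b') f) g⁻¹
        = ∑ b, ((O a b : ℝ) : ℂ) * dH (X b) (dH (X b') f) g⁻¹ := by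
      rw [hO a]
      exact (hlin a).2 _ (hdm b') g⁻¹
    rw [h2, Finset.mul_sum]
    refine Finset.sum_congr rfl fun b _ => ?_
    ring
  have hE2 := hE.2 g⁻¹
  unfold lapH at hE2 ⊢
  rw [← hE2]
  rw [Finset.sum_congr rfl fun a _ => (dH_inv2 hL f (X a) (hF.mem a) g).trans (hstep a)]
  rw [Finset.sum_comm]
  refine Finset.sum_congr rfl fun b _ => ?_
  rw [Finset.sum_comm]
  have h7 : ∀ b', ∑ a, ((O a b : ℝ) : ℂ) * ((O a b' : ℝ) : ℂ) * dH (X b) (dH (X b') f) g⁻¹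
      = if b = b' then dH (X b) (dH (X b') f) g⁻¹ else 0 := by
    intro b'
    rw [← Finset.sum_mul]
    have h8 : ∑ a, ((O a b : ℝ) : ℂ) * ((O a b' : ℝ) : ℂ)
        = ((if b = b' then (1 : ℝ) else 0 : ℝ) : ℂ) := by
      rw [← hO2 b b']
      push_cast
      rfl
    rw [h8]
    split_ifs <;> simp
  rw [Finset.sum_congr rfl fun b' _ => h7 b']
  simp

end

end LGR
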