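import Pool.Agent.LGR.StL
import Mathlib.Analysis.InnerProductSpace.Trace
import Mathlib.Analysis.InnerProductSpace.Rayleigh

/-!
# Simple compact Lie groups, block L: module KFRM
-/

namespace LGR

open STZ MeasureTheory Matrix Filter

open scoped ComplexConjugate Matrix Real Topology

noncomputable section

attribute [local instance 100] LieRing.ofAssociativeRing

namespace KFRM

open scoped InnerProductSpace

/-- The Killing form of a simple Lie algebra with an invariant scalar product. -/
theorem abs_kill {V : Type*} [NormedAddCommGroup V] [InnerProductSpace ℝ V] [FiniteDimensional ℝ V]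
    (ad : V →ₗ[ℝ] V →ₗ[ℝ] V) (anti : ∀ X Y, ad X Y = - ad Y X)
    (skew : ∀ X A B, ⟪ad X A, B⟫_ℝ = -⟪A, ad X B⟫_ℝ)
    (jac : ∀ X Y, ad (ad X Y) = ad X ∘ₗ ad Y - ad Y ∘ₗ ad X)
    (simp' : ∀ W : Submodule ℝ V, (∀ X, ∀ A ∈ W, ad X A ∈ W) → W = ⊥ ∨ W = ⊤)
    (nab : ∃ X Y, ad X Y ≠ 0) :
    ∃ c : ℝ, 0 < c ∧ ∀ A B, -(LinearMap.trace ℝ V (ad A ∘ₗ ad B)) = c * ⟪A, B⟫_ℝ := by
  classical
  obtain ⟨X0, Y0, hXY⟩ := nab
  have : Nontrivial V := ⟨⟨ad X0 Y0, 0, hXY⟩⟩
  set K : V → V → ℝ := fun A B => -(LinearMap.trace ℝ V (ad A ∘ₗ ad B)) with hK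
  set b := stdOrthonormalBasis ℝ V with hb
  have hKb : ∀ A B, K A B = ∑ a, ⟪ad A (b a), ad B (b a)⟫_ℝ := by
    intro A B
    rw [hK]
    simp only
    rw [LinearMap.trace_eq_sum_inner _ b, ← Finset.sum_neg_distrib]
    refine Finset.sum_congr rfl fun a _ => ?_
    rw [LinearMap.comp_apply, real_inner_comm, skew, neg_neg, real_inner_comm]
  set T : V →ₗ[ℝ] V := -∑ a, ad (b a) ∘ₗ ad (b a) with hT
  have hTK : ∀ A B, ⟪T A, B⟫_ℝ = K A B := by
    intro A B
    rw [hKb, hT]
    simp only [LinearMap.neg_apply, LinearMap.sum_apply, LinearMap.comp_apply, inner_neg_left,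
      sum_inner]
    rw [← Finset.sum_neg_distrib]
    refine Finset.sum_congr rfl fun a _ => ?_
    rw [skew, neg_neg, anti (b a) A, anti (b a) B, inner_neg_neg]
  have hKs : ∀ A B, K A B = K B A := by
    intro A B
    rw [hKb, hKb]
    exact Finset.sum_congr rfl fun a _ => real_inner_comm _ _
  have hTs : T.IsSymmetric := by
    intro A B
    rw [hTK, real_inner_comm, hTK, hKs]
  have hKinv : ∀ X A B, K (ad X A) B = -K A (ad X B) := by
    intro X A B
    rw [hK]
    simp only
    rw [jac, jac, LinearMap.sub_comp, LinearMap.comp_sub, map_sub, map_sub]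
    have h1 : LinearMap.trace ℝ V ((ad X ∘ₗ ad A) ∘ₗ ad B) =
        LinearMap.trace ℝ V (ad A ∘ₗ (ad B ∘ₗ ad X)) := by
      rw [LinearMap.comp_assoc]
      have := LinearMap.trace_mul_comm ℝ (ad X) (ad A ∘ₗ ad B)
      simpa [Module.End.mul_eq_comp, LinearMap.comp_assoc] using this
    have h2 : LinearMap.trace ℝ V ((ad A ∘ₗ ad X) ∘ₗ ad B) =
        LinearMap.trace ℝ V (ad A ∘ₗ (ad X ∘ₗ ad B)) := by
      rw [LinearMap.comp_assoc]
    rw [h1, h2]
    ring
  obtain ⟨A0, hA0⟩ := (hTs.hasEigenvalue_iSup_of_finiteDimensional).exists_hasEigenvector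
  set c : ℝ := (⨆ x : { x : V // x ≠ 0 }, RCLike.re ⟪T x, x⟫_ℝ / ‖(x : V)‖ ^ 2 : ℝ) with hc
  have hTA : T A0 = c • A0 := hA0.apply_eq_smul
  have hne : A0 ≠ 0 := hA0.2
  let W : Submodule ℝ V :=
    { carrier := {A | ∀ B, K A B = c * ⟪A, B⟫_ℝ}
      zero_mem' := by
        intro B
        rw [← hTK]
        simp
      add_mem' := by
        intro A A' hA hA' B
        have h := hA B
        have h' := hA' B
        rw [← hTK] at h h' ⊢
        rw [map_add, inner_add_left, inner_add_left, h, h']
        ring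
      smul_mem' := by
        intro r A hA B
        have h := hA B
        rw [← hTK] at h ⊢
        rw [map_smul, inner_smul_left, inner_smul_left, h]
        simp
        ring }
  have hWm : ∀ A, A ∈ W ↔ ∀ B, K A B = c * ⟪A, B⟫_ℝ := fun A => Iff.rfl
  have hWA : A0 ∈ W := by
    rw [hWm]
    intro B
    rw [← hTK, hTA, inner_smul_left]
    simp
  have hWtop : W = ⊤ := by
    rcases simp' W (by
      intro X A hA
      rw [hWm] at hA ⊢
      intro B
      rw [hKinv, hA, skew]
      ring) with h | h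
    · exfalso
      rw [h, Submodule.mem_bot] at hWA
      exact hne hWA
    · exact h
  have hKc : ∀ A B, K A B = c * ⟪A, B⟫_ℝ := by
    intro A
    have : A ∈ W := by rw [hWtop]; exact Submodule.mem_top
    exact (hWm A).mp this
  refine ⟨c, ?_, hKc⟩
  have hX0 : X0 ≠ 0 := by
    rintro rfl
    apply hXY
    simp
  have h1 : 0 < K X0 X0 := by
    rw [hKb]
    have h2 : ∀ a ∈ (Finset.univ : Finset (Fin (Module.finrank ℝ V))),
        0 ≤ ⟪ad X0 (b a), ad X0 (b a)⟫_ℝ := fun a _ => real_inner_self_nonneg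
    rcases (Finset.sum_nonneg h2).lt_or_eq with h3 | h3
    · exact h3
    · exfalso
      have h4 := (Finset.sum_eq_zero_iff_of_nonneg h2).mp h3.symm
      have h5 : ad X0 = 0 := by
        apply b.toBasis.ext
        intro a
        have h6 := h4 a (Finset.mem_univ a)
        rw [inner_self_eq_zero] at h6
        simpa using h6
      apply hXY
      rw [h5]
      simp
  rw [hKc] at h1
  have h2 : 0 < ⟪X0, X0⟫_ℝ := real_inner_self_pos.mpr hX0
  exact (pos_iff_pos_of_mul_pos h1).mpr h2

section

variable {N : ℕ}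

/-- the trace of a product of skew-Hermitian matrices is real -/
theorem tr_real {A B : Matrix (Fin N) (Fin N) ℂ} (hA : Aᴴ = -A) (hB : Bᴴ = -B) :
    (A * B).trace = ((A * B).trace.re : ℂ) := by
  have h : (starRingEnd ℂ) (A * B).trace = (A * B).trace := by
    rw [← Complex.star_def, ← Matrix.trace_conjTranspose, Matrix.conjTranspose_mul, hA, hB,
      neg_mul_neg, Matrix.trace_mul_comm]
  exact (Complex.conj_eq_iff_re.mp h).symm

theorem tr_self {A : Matrix (Fin N) (Fin N) ℂ} (hA : Aᴴ = -A) :
    -((A * A).trace.re) = ∑ i, ∑ j, ‖A i j‖ ^ 2 := by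
  have h0 : -((A * A).trace.re) = (A * Aᴴ).trace.re := by
    rw [hA, mul_neg, Matrix.trace_neg, Complex.neg_re]
  rw [h0]
  simp only [Matrix.trace, Matrix.diag, Matrix.mul_apply, Matrix.conjTranspose_apply,
    Complex.re_sum]
  refine Finset.sum_congr rfl fun i _ => Finset.sum_congr rfl fun j _ => ?_
  rw [Complex.star_def, Complex.mul_conj, Complex.ofReal_re, Complex.normSq_eq_norm_sq]

/-- the Lie algebra as a real subspace -/
def VL (H : Subgroup (SU N)) (L : LIF H) : Submodule ℝ (Matrix (Fin N) (Fin N) ℂ) where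
  carrier := lie H
  zero_mem' := L.zero
  add_mem' := fun {a b} ha hb => L.add a ha b hb
  smul_mem' := fun r x hx => by
    have h := L.smul r x hx
    have h1 : (r : ℂ) • x = r • x := by
      ext i j
      simp
    rw [← h1]
    exact h

theorem csmul (r : ℝ) (x : Matrix (Fin N) (Fin N) ℂ) : (r : ℂ) • x = r • x := by
  ext i j
  simp

variable {H : Subgroup (SU N)} (L : LIF H)

theorem sk (A : VL H L) : (A : Matrix (Fin N) (Fin N) ℂ)ᴴ = -A := (L.su A.1 A.2).1

/-- the adjoint representation -/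
def adL : VL H L →ₗ[ℝ] VL H L →ₗ[ℝ] VL H L :=
  LinearMap.mk₂ ℝ (fun A B => ⟨A.1 * B.1 - B.1 * A.1, L.br A.1 A.2 B.1 B.2⟩)
    (fun A A' B => Subtype.ext (by simp [add_mul, mul_add]; abel))
    (fun r A B => Subtype.ext (by simp [smul_sub]))
    (fun A B B' => Subtype.ext (by simp [add_mul, mul_add]; abel))
    (fun r A B => Subtype.ext (by simp [smul_sub]))

theorem adL_coe (A B : VL H L) : (adL L A B : Matrix (Fin N) (Fin N) ℂ) = A.1 * B.1 - B.1 * A.1 :=
  rfl

/-- the scalar product -/
@[instance_reducible]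
def coreL : InnerProductSpace.Core ℝ (VL H L) where
  inner := fun A B => -((A.1 * B.1).trace.re)
  conj_inner_symm := fun A B => by
    change (starRingEnd ℝ) (-((B.1 * A.1).trace.re)) = -((A.1 * B.1).trace.re)
    rw [conj_trivial, Matrix.trace_mul_comm]
  re_inner_nonneg := fun A => by
    change 0 ≤ -((A.1 * A.1).trace.re)
    rw [tr_self (sk L A)]
    positivity
  add_left := fun A B C => by
    simp [add_mul]
    ring
  smul_left := fun A B r => by
    simp
  definite := fun A h => by
    change -((A.1 * A.1).trace.re) = 0 at h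
    rw [tr_self (sk L A)] at h
    apply Subtype.ext
    ext i j
    have h2 := (Finset.sum_eq_zero_iff_of_nonneg (fun i _ =>
      Finset.sum_nonneg fun j _ => by positivity)).1 h i (Finset.mem_univ _)
    have h3 := (Finset.sum_eq_zero_iff_of_nonneg (fun j _ => by positivity)).1 h2 j
      (Finset.mem_univ _)
    simpa using h3

theorem exists_c (hS : SimpleH H) : ∃ c : ℝ, 0 < c ∧
    (∀ A B : VL H L, -(LinearMap.trace ℝ (VL H L) (adL L A ∘ₗ adL L B)) =
      c * (-((A.1 * B.1).trace.re))) ∧
    ∃ b : Module.Basis (Fin (Module.finrank ℝ (VL H L))) ℝ (VL H L), ∀ i j,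
      -(((b i).1 * (b j).1).trace.re) = if i = j then 1 else 0 := by
  let _ : InnerProductSpace.Core ℝ (VL H L) := coreL L
  let _ : NormedAddCommGroup (VL H L) := (coreL L).toNormedAddCommGroup
  let _ : InnerProductSpace ℝ (VL H L) := InnerProductSpace.ofCore (coreL L).toCore
  have hin : ∀ A B : VL H L, ⟪A, B⟫_ℝ = -((A.1 * B.1).trace.re) := fun A B => rfl
  obtain ⟨c, hc, hK⟩ := abs_kill (adL L) (by
      intro X Y
      apply Subtype.ext
      rw [Submodule.coe_neg, adL_coe, adL_coe]
      abel) (by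
      intro X A B
      rw [hin, hin, adL_coe, adL_coe, sub_mul, mul_sub, Matrix.trace_sub, Matrix.trace_sub,
        Complex.sub_re, Complex.sub_re]
      have h1 : (X.1 * A.1 * B.1).trace = (A.1 * (B.1 * X.1)).trace := by
        rw [Matrix.mul_assoc, Matrix.trace_mul_comm, Matrix.mul_assoc]
      rw [h1, Matrix.mul_assoc]
      ring) (by
      intro X Y
      apply LinearMap.ext
      intro Z
      apply Subtype.ext
      simp only [LinearMap.sub_apply, LinearMap.comp_apply, Submodule.coe_sub, adL_coe]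
      noncomm_ring) (by
      intro W hW
      have h := hS.2 (W.map (VL H L).subtype) (by
        rintro X ⟨A, -, rfl⟩
        exact A.2) (by
        rintro X hX Y ⟨A, hA, rfl⟩
        exact ⟨adL L ⟨X, hX⟩ A, hW ⟨X, hX⟩ A hA, rfl⟩)
      rcases h with h | h
      · left
        rw [eq_bot_iff]
        intro A hA
        have h1 : A.1 ∈ W.map (VL H L).subtype := ⟨A, hA, rfl⟩
        rw [h, Submodule.mem_bot] at h1
        exact Subtype.ext h1
      · right
        rw [eq_top_iff]
        intro A _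
        obtain ⟨B, hB, hBA⟩ := h A.1 A.2
        have : B = A := Subtype.ext hBA
        rw [← this]
        exact hB) (by
      obtain ⟨X, hX, Y, hY, hne⟩ := hS.1
      refine ⟨⟨X, hX⟩, ⟨Y, hY⟩, fun h => hne ?_⟩
      have h1 := congrArg Subtype.val h
      rw [adL_coe] at h1
      exact sub_eq_zero.mp h1)
  refine ⟨c, hc, fun A B => ?_, ?_⟩
  · rw [hK, hin]
  · refine ⟨(stdOrthonormalBasis ℝ (VL H L)).toBasis, fun i j => ?_⟩
    rw [← hin, OrthonormalBasis.coe_toBasis]
    exact (orthonormal_iff_ite.mp (stdOrthonormalBasis ℝ (VL H L)).orthonormal) i j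

end

end KFRM

open KFRM

theorem t_KFRM : M_KFRM := by
  intro hL N H hH hS
  have L := hL N H hH
  obtain ⟨c, hc, hK, b, hb⟩ := exists_c L hS
  have hspan : Submodule.span ℝ (lie H) = VL H L := Submodule.span_eq (VL H L)
  refine ⟨c, hc, ?_, ?_⟩
  · intro d hd
    rw [hspan] at hd
    subst hd
    have hsq : (1 / √c) * (1 / √c) * c = 1 := by
      have h1 : √c * √c = c := Real.mul_self_sqrt hc.le
      have h2 : √c ≠ 0 := (Real.sqrt_pos.mpr hc).ne'
      field_simp
      nlinarith
    refine ⟨fun a => ((1 / √c : ℝ) : ℂ) • (b a).1, ⟨fun a => L.smul _ _ (b a).2, ?_, ?_⟩⟩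
    · intro i j
      have h1 := hb i j
      have h2 := tr_real (sk L (b i)) (sk L (b j))
      rw [Matrix.smul_mul, Matrix.mul_smul, Matrix.trace_smul, Matrix.trace_smul, h2]
      have h3 : -(c : ℂ) * (((1 / √c : ℝ) : ℂ) • ((1 / √c : ℝ) : ℂ) •
          ((((b i).1 * (b j).1).trace.re : ℝ) : ℂ)) =
          ((((1 / √c) * (1 / √c) * c) * (-(((b i).1 * (b j).1).trace.re)) : ℝ) : ℂ) := by
        push_cast
        simp only [smul_eq_mul]
        ring
      rw [h3, hsq, h1]
      split_ifs <;> simp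
    · intro Y hY
      obtain ⟨Y', hY'⟩ : ∃ Y' : VL H L, Y'.1 = Y := ⟨⟨Y, hY⟩, rfl⟩
      refine ⟨fun a => √c * b.repr Y' a, ?_⟩
      have h1 := b.sum_repr Y'
      have h2 := congrArg Subtype.val h1
      rw [hY', Submodule.coe_sum] at h2
      rw [← h2]
      refine Finset.sum_congr rfl fun a _ => ?_
      rw [smul_smul, Submodule.coe_smul, ← csmul]
      congr 1
      have h3 : √c * (1 / √c) = 1 := by
        have h2 : √c ≠ 0 := (Real.sqrt_pos.mpr hc).ne'
        field_simp
      rw [← Complex.ofReal_mul]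
      congr 1
      rw [mul_right_comm, h3, one_mul]
  · intro d X hX
    obtain ⟨k, hk1, hk2⟩ := hX.kill
    refine ⟨hX.mem, ?_, hX.span⟩
    let v : Fin d → VL H L := fun a => ⟨X a, hX.mem a⟩
    have hv : LinearIndependent ℝ v := by
      apply LinearIndependent.of_comp (VL H L).subtype
      exact hX.lin
    have hvs : ⊤ ≤ Submodule.span ℝ (Set.range v) := by
      intro Y _
      obtain ⟨y, hy⟩ := hX.span Y.1 Y.2
      have h1 : Y = ∑ a, y a • v a := by
        apply Subtype.ext
        rw [Submodule.coe_sum, hy]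
        refine Finset.sum_congr rfl fun a _ => ?_
        rw [csmul]
        rfl
      rw [h1]
      exact Submodule.sum_mem _ fun a _ =>
        Submodule.smul_mem _ _ (Submodule.subset_span (Set.mem_range_self a))
    let bas : Module.Basis (Fin d) ℝ (VL H L) := Module.Basis.mk hv hvs
    have hbas : ∀ a, bas a = v a := fun a => by
      rw [Module.Basis.mk_apply]
    have hrep : ∀ a e f, bas.repr (adL L (v a) (bas e)) f = k a e f := by
      intro a e f
      have h1 : adL L (v a) (bas e) = ∑ f, k a e f • bas f := by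
        apply Subtype.ext
        rw [adL_coe, hbas, Submodule.coe_sum]
        change X a * X e - X e * X a = _
        rw [hk1]
        refine Finset.sum_congr rfl fun f _ => ?_
        rw [csmul, hbas]
        rfl
      rw [h1, bas.repr_sum_self]
    intro a a'
    have h1 := hK (v a) (v a')
    have h2 : LinearMap.trace ℝ (VL H L) (adL L (v a) ∘ₗ adL L (v a')) =
        ∑ e, ∑ f, k a f e * k a' e f := by
      rw [LinearMap.trace_eq_matrix_trace ℝ bas, LinearMap.toMatrix_comp bas bas bas,
        Matrix.trace]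
      refine Finset.sum_congr rfl fun e _ => ?_
      rw [Matrix.diag_apply, Matrix.mul_apply]
      refine Finset.sum_congr rfl fun f _ => ?_
      rw [LinearMap.toMatrix_apply, LinearMap.toMatrix_apply, hrep, hrep]
    rw [h2, hk2, neg_neg] at h1
    have h3 := tr_real (sk L (v a)) (sk L (v a'))
    change -(c : ℂ) * ((v a).1 * (v a').1).trace = _
    rw [h3]
    have h4 : -(c : ℂ) * ((((v a).1 * (v a').1).trace.re : ℝ) : ℂ) =
        ((c * -(((v a).1 * (v a').1).trace.re) : ℝ) : ℂ) := by
      push_cast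
      ring
    rw [h4, ← h1]
    split_ifs <;> simp

end

end LGR
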