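import Pool.Agent.LGR.StW
import Pool.Agent.LGR.KFRM

/-!
# Simple compact Lie groups, block W: module KFRE
-/

namespace LGR

open STZ MeasureTheory Matrix Filter

open scoped ComplexConjugate Matrix Real Topology

noncomputable section

open KFRM

theorem t_KFRE : M_KFRE := by
  intro hL N H hH hS
  have L := hL N H hH
  obtain ⟨c, hc, hK, b, hb⟩ := exists_c L hS
  have hspan : Submodule.span ℝ (lie H) = VL H L := Submodule.span_eq (VL H L)
  rw [hspan]
  have hs : √c ≠ 0 := (Real.sqrt_pos.mpr hc).ne'
  have hs1 : (1 / √c) ≠ 0 := one_div_ne_zero hs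
  have hsq : (1 / √c) * (1 / √c) * c = 1 := by
    have h1 : √c * √c = c := Real.mul_self_sqrt hc.le
    field_simp
    nlinarith
  obtain ⟨bas, hbas⟩ : ∃ bas : Module.Basis (Fin (Module.finrank ℝ (VL H L))) ℝ (VL H L),
      ∀ a, bas a = (1 / √c) • b a := by
    refine ⟨b.unitsSMul (fun _ => Units.mk0 (1 / √c) hs1), fun a => ?_⟩
    rw [Module.Basis.unitsSMul_apply]
    rfl
  have hbc : ∀ a, (bas a).1 = (1 / √c) • (b a).1 := fun a => by
    rw [hbas, Submodule.coe_smul]
  refine ⟨fun a => (bas a).1, ⟨fun a => (bas a).2, ?_, ?_, ?_⟩⟩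
  · exact bas.linearIndependent.map' (VL H L).subtype (Submodule.ker_subtype _)
  · intro Y hY
    obtain ⟨Y', hY'⟩ : ∃ Y' : VL H L, Y'.1 = Y := ⟨⟨Y, hY⟩, rfl⟩
    refine ⟨fun a => bas.repr Y' a, ?_⟩
    have h2 := congrArg Subtype.val (bas.sum_repr Y')
    rw [hY', Submodule.coe_sum] at h2
    rw [← h2]
    refine Finset.sum_congr rfl fun a _ => ?_
    rw [Submodule.coe_smul, csmul]
  · refine ⟨fun a e f => bas.repr (adL L (bas a) (bas e)) f, ?_, ?_⟩
    · intro a e
      have h2 := congrArg Subtype.val (bas.sum_repr (adL L (bas a) (bas e)))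
      rw [adL_coe, Submodule.coe_sum] at h2
      rw [← h2]
      refine Finset.sum_congr rfl fun f _ => ?_
      rw [Submodule.coe_smul, csmul]
    · intro a a'
      have h2 : LinearMap.trace ℝ (VL H L) (adL L (bas a) ∘ₗ adL L (bas a')) =
          ∑ e, ∑ f, bas.repr (adL L (bas a) (bas f)) e * bas.repr (adL L (bas a') (bas e)) f := by
        rw [LinearMap.trace_eq_matrix_trace ℝ bas, LinearMap.toMatrix_comp bas bas bas,
          Matrix.trace]
        refine Finset.sum_congr rfl fun e _ => ?_
        rw [Matrix.diag_apply, Matrix.mul_apply]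
        refine Finset.sum_congr rfl fun f _ => ?_
        rw [LinearMap.toMatrix_apply, LinearMap.toMatrix_apply]
      have h1 := hK (bas a) (bas a')
      have h3 : -(((bas a).1 * (bas a').1).trace.re) =
          (1 / √c) * (1 / √c) * (-(((b a).1 * (b a').1).trace.re)) := by
        rw [hbc, hbc, Matrix.smul_mul, Matrix.mul_smul, Matrix.trace_smul, Matrix.trace_smul,
          Complex.smul_re, Complex.smul_re, smul_eq_mul, smul_eq_mul]
        ring
      rw [h3, hb a a'] at h1
      have h4 : c * ((1 / √c) * (1 / √c) * (if a = a' then (1 : ℝ) else 0)) =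
          if a = a' then 1 else 0 := by
        rw [← mul_assoc, mul_comm c, hsq, one_mul]
      rw [h4, h2] at h1
      have h5 : ∑ e, ∑ f, bas.repr (adL L (bas a) (bas f)) e * bas.repr (adL L (bas a') (bas e)) f =
          -(if a = a' then 1 else 0) := by
        rw [← h1, neg_neg]
      exact h5

end

end LGR
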