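import Pool.Agent.LGR.StC
import Pool.Agent.STZ.KYFG

/-!
# The pieces of the kernel of a group with given characters
-/

namespace LGR

open STZ MeasureTheory Matrix Filter

open scoped ComplexConjugate Matrix Real Topology

noncomputable section

namespace KWFG

variable {N : ℕ} {H : Subgroup (SU N)} {c : ℝ} {d r : ℕ} {D : RD r} {P : RT r} {ι : Type}
  {a : ι → Fin r → ℕ} {χ : ι → H → ℂ} {Z : Finset (Fin r → ℝ)} {k : ℝ}

lemma norm_eu (θ : ℝ) : ‖eu θ‖ = 1 := by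
  unfold eu
  rw [show (2 * π * θ * Complex.I : ℂ) = ((2 * π * θ : ℝ) : ℂ) * Complex.I by push_cast; ring]
  exact Complex.norm_exp_ofReal_mul_I _

lemma eu_add (x y : ℝ) : eu (x + y) = eu x * eu y := by
  unfold eu
  rw [← Complex.exp_add]
  congr 1
  push_cast
  ring

lemma mem_ia (ha : Function.Injective a) (K : ℕ) (i : ι) : i ∈ ia a K ↔ a i ∈ ib r K := by
  classical
  have h : {i | a i ∈ ib r K}.Finite := by
    have h1 : {i | a i ∈ ib r K} = a ⁻¹' (ib r K : Set (Fin r → ℕ)) := rfl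
    rw [h1]
    exact (ib r K).finite_toSet.preimage ha.injOn
  unfold ia
  rw [dif_pos h, Set.Finite.mem_toFinset]
  rfl

lemma dz_sub (l m : Fin r → ℤ) (z : Fin r → ℝ) : dz (l - m) z = dz l z + -(dz m z) := by
  unfold dz
  rw [← Finset.sum_neg_distrib, ← Finset.sum_add_distrib]
  refine Finset.sum_congr rfl fun i _ => ?_
  rw [Pi.sub_apply]
  push_cast
  ring

/-- the sum over the indices as a mean over `Z` -/
lemma sum_ia (hG : GX H c d D P a χ Z k) (hA : ATV D P) (K : ℕ) (m : (Fin r → ℤ) → ℂ)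
    (θ : Fin r → ℝ) :
    (Z.card : ℂ) * ∑ i ∈ ia a K, m (wG (a i)) * AT D (wG (a i)) θ =
      ∑ z ∈ Z, eu (-(dz 1 z)) * ∑ ν ∈ bx (1 : Fin r → ℤ) K, m ν * AT D ν (θ + z) := by
  classical
  have h1 : ∑ i ∈ ia a K, m (wG (a i)) * AT D (wG (a i)) θ =
      ∑ l ∈ ib r K, if l ∈ Set.range a then m (wG l) * AT D (wG l) θ else 0 := by
    rw [← Finset.sum_filter]
    refine Finset.sum_bij (fun i _ => a i) ?_ ?_ ?_ ?_
    · intro i hi
      rw [Finset.mem_filter]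
      exact ⟨(mem_ia hG.inj K i).1 hi, i, rfl⟩
    · intro i _ j _ hij
      exact hG.inj hij
    · intro l hl
      rw [Finset.mem_filter] at hl
      obtain ⟨hl1, i, rfl⟩ := hl
      exact ⟨i, (mem_ia hG.inj K i).2 hl1, rfl⟩
    · intro i _
      rfl
  have h2 : ∀ l : Fin r → ℕ, (Z.card : ℂ) *
      (if l ∈ Set.range a then m (wG l) * AT D (wG l) θ else 0) =
      ∑ z ∈ Z, eu (-(dz 1 z)) * (m (wG l) * AT D (wG l) (θ + z)) := by
    intro l
    have h3 : ∀ z ∈ Z, eu (-(dz 1 z)) * (m (wG l) * AT D (wG l) (θ + z)) =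
        eu (dz (wG l - 1) z) * (m (wG l) * AT D (wG l) θ) := by
      intro z hz
      rw [hA.cen z (hG.zroot z hz) (wG l) θ, dz_sub, eu_add]
      ring
    rw [Finset.sum_congr rfl h3, ← Finset.sum_mul]
    by_cases hl : l ∈ Set.range a
    · rw [if_pos hl, Finset.sum_congr rfl ((hG.ind l).1 hl), Finset.sum_const, nsmul_eq_mul,
        mul_one]
    · rw [if_neg hl, (hG.ind l).2 hl, zero_mul, mul_zero]
  rw [h1, Finset.mul_sum, Finset.sum_congr rfl fun l _ => h2 l, Finset.sum_comm]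
  refine Finset.sum_congr rfl fun z _ => ?_
  rw [← Finset.mul_sum]
  congr 1
  exact KYFG.sum_ib K fun ν => m ν * AT D ν (θ + z)

/-- the product of the heights of the coroots -/
lemma T_ge (hR : RV D P) : (1 : ℤ) ≤ ∏ p ∈ P, (p.2 ⬝ᵥ (1 : Fin r → ℤ)) := by
  have h1 : ∀ p ∈ P, (1 : ℤ) ≤ p.2 ⬝ᵥ (1 : Fin r → ℤ) := by
    intro p hp
    obtain ⟨h2, h3⟩ := hR.pos p hp
    have h4 : ∃ i, p.2 i ≠ 0 := by
      by_contra h5
      push Not at h5
      exact h3 (funext h5)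
    obtain ⟨i, hi⟩ := h4
    have h6 : p.2 i ≤ p.2 ⬝ᵥ (1 : Fin r → ℤ) := by
      unfold dotProduct
      simp only [Pi.one_apply, mul_one]
      exact Finset.single_le_sum (fun j _ => h2 j) (Finset.mem_univ i)
    have h7 := h2 i
    omega
  have h8 := Finset.prod_le_prod (s := P) (f := fun _ => (1 : ℤ))
    (g := fun p => p.2 ⬝ᵥ (1 : Fin r → ℤ)) (fun _ _ => zero_le_one) h1
  rwa [Finset.prod_const_one] at h8

lemma cont_chi (hG : GX H c d D P a χ Z k) (i : ι) : Continuous (χ i) := by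
  obtain ⟨n, σ, -, hσ⟩ := hG.irr.irr i
  have h1 : χ i = σ.ch := by
    funext g
    exact (hσ g).symm
  rw [h1]
  exact σ.cont.matrix_trace

/-- the bound at the points of the torus -/
lemma sup_tor (hG : GX H c d D P a χ Z k) (hR : RV D P) (hA : ATV D P) (K : ℕ)
    (m : (Fin r → ℤ) → ℂ) (E : ℝ)
    (hE : ∀ θ, ‖∑ ν ∈ bx (1 : Fin r → ℤ) K, (D.dim ν : ℂ) * m ν * AT D ν θ‖ ≤ E * ‖AT D 1 θ‖)
    (h : H) {θ : Fin r → ℝ} (hθ : AT D 1 θ ≠ 0)
    (hχ : ∀ i, χ i h * AT D 1 θ = AT D (wG (a i)) θ) :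
    ‖∑ i ∈ ia a K, m (wG (a i)) * (χ i 1 * χ i h)‖ ≤ E := by
  have hpos : 0 < ‖AT D 1 θ‖ := norm_pos_iff.2 hθ
  have hE0 : 0 ≤ E := by
    by_contra h1
    push Not at h1
    have h2 := (norm_nonneg _).trans (hE θ)
    have h3 : E * ‖AT D 1 θ‖ < 0 := mul_neg_of_neg_of_pos h1 hpos
    linarith
  set T : ℤ := ∏ p ∈ P, (p.2 ⬝ᵥ (1 : Fin r → ℤ)) with hT
  have hT1 : 1 ≤ T := T_ge hR
  have hZ : 0 < Z.card := Finset.card_pos.2 hG.zn
  have h1 : (T : ℂ) * (∑ i ∈ ia a K, m (wG (a i)) * (χ i 1 * χ i h)) * AT D 1 θ =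
      ∑ i ∈ ia a K, (D.dim (wG (a i)) : ℂ) * m (wG (a i)) * AT D (wG (a i)) θ := by
    rw [Finset.mul_sum, Finset.sum_mul]
    refine Finset.sum_congr rfl fun i _ => ?_
    rw [← hχ i, hR.dimD, ← hG.one i]
    ring
  have h2 := sum_ia hG hA K (fun ν => (D.dim ν : ℂ) * m ν) θ
  rw [← h1] at h2
  have h3 : ‖∑ z ∈ Z, eu (-(dz 1 z)) * ∑ ν ∈ bx (1 : Fin r → ℤ) K,
      (D.dim ν : ℂ) * m ν * AT D ν (θ + z)‖ ≤ (Z.card : ℝ) * (E * ‖AT D 1 θ‖) := by
    refine (norm_sum_le _ _).trans ?_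
    have h4 : ∀ z ∈ Z, ‖eu (-(dz 1 z)) * ∑ ν ∈ bx (1 : Fin r → ℤ) K,
        (D.dim ν : ℂ) * m ν * AT D ν (θ + z)‖ ≤ E * ‖AT D 1 θ‖ := by
      intro z hz
      rw [norm_mul, norm_eu, one_mul]
      refine (hE (θ + z)).trans ?_
      rw [hA.cen z (hG.zroot z hz) 1 θ, norm_mul, norm_eu, one_mul]
    refine (Finset.sum_le_sum h4).trans ?_
    rw [Finset.sum_const, nsmul_eq_mul]
  rw [← h2, norm_mul, norm_mul, norm_mul, Complex.norm_natCast, Complex.norm_intCast] at h3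
  have hZ' : (0 : ℝ) < Z.card := by exact_mod_cast hZ
  have h5 := le_of_mul_le_mul_left h3 hZ'
  have h6 := le_of_mul_le_mul_right h5 hpos
  have h7 : (1 : ℝ) ≤ |(T : ℝ)| := by
    rw [abs_of_nonneg]
    · exact_mod_cast hT1
    · have : (0 : ℤ) ≤ T := by omega
      exact_mod_cast this
  have h8 : ‖∑ i ∈ ia a K, m (wG (a i)) * (χ i 1 * χ i h)‖ ≤
      |(T : ℝ)| * ‖∑ i ∈ ia a K, m (wG (a i)) * (χ i 1 * χ i h)‖ :=
    le_mul_of_one_le_left (norm_nonneg _) h7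
  exact h8.trans h6

/-- the bound at all points -/
lemma sup_all (hG : GX H c d D P a χ Z k) (hR : RV D P) (hA : ATV D P) (K : ℕ)
    (m : (Fin r → ℤ) → ℂ) (E : ℝ)
    (hE : ∀ θ, ‖∑ ν ∈ bx (1 : Fin r → ℤ) K, (D.dim ν : ℂ) * m ν * AT D ν θ‖ ≤ E * ‖AT D 1 θ‖)
    (h : H) : ‖∑ i ∈ ia a K, m (wG (a i)) * (χ i 1 * χ i h)‖ ≤ E := by
  have hc : IsClosed {h : H | ‖∑ i ∈ ia a K, m (wG (a i)) * (χ i 1 * χ i h)‖ ≤ E} := by
    refine isClosed_le ?_ continuous_const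
    refine continuous_norm.comp (continuous_finsetSum _ fun i _ => ?_)
    exact continuous_const.mul (continuous_const.mul (cont_chi hG i))
  have h1 : {g : H | ∃ θ : Fin r → ℝ, AT D 1 θ ≠ 0 ∧
      ∀ i, χ i g * AT D 1 θ = AT D (wG (a i)) θ} ⊆
      {h : H | ‖∑ i ∈ ia a K, m (wG (a i)) * (χ i 1 * χ i h)‖ ≤ E} := by
    rintro g ⟨θ, h2, h3⟩
    exact sup_tor hG hR hA K m E hE g h2 h3
  have h4 := hc.closure_subset_iff.2 h1
  rw [hG.tor.closure_eq] at h4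
  exact h4 (Set.mem_univ h)

lemma cont_kw (hG : GX H c d D P a χ Z k) (J K : ℕ) (y : {p // p ∈ P} → Fin (J + 1)) :
    Continuous fun z : ℝ × H × H => kw D P a χ J K y z.1 z.2.1 z.2.2 := by
  have hq : Continuous fun z : ℝ × H × H => z.2.1 * z.2.2⁻¹ :=
    (continuous_fst.comp continuous_snd).mul (continuous_snd.comp continuous_snd).inv
  unfold kw
  refine continuous_finsetSum _ fun i _ => ?_
  refine Continuous.mul ?_ ?_
  · exact (KYFG.cont_nm D P J y (wG (a i))).comp continuous_fst.neg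
  · unfold KK
    refine continuous_const.mul ?_
    exact (cont_chi hG i).comp hq

lemma sum_kw (hN : NKF D P) (J K : ℕ) (t : ℝ) (g g' : H) :
    ∑ i ∈ ia a K, ((et P (2 ^ J) (wG (a i)) : ℝ) : ℂ) *
      (eu (t * ((-D.Q (wG (a i)) : ℤ) : ℝ)) * KK χ i g g') = ∑ y, kw D P a χ J K y t g g' := by
  unfold kw
  rw [Finset.sum_comm]
  refine Finset.sum_congr rfl fun i _ => ?_
  rw [← Finset.sum_mul, hN.sum J (-t) (wG (a i))]
  have h2 : t * ((-D.Q (wG (a i)) : ℤ) : ℝ) = -t * D.Q (wG (a i)) := by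
    push_cast
    ring
  rw [h2]
  ring

lemma et_ge {J K₀ : ℕ} (hE : ETF D P (2 ^ J)) (hR : RV D P) (hK : KYFG.KP P ≤ K₀)
    (b : Fin r → ℕ) (hb : ∀ i, K₀ * (b i + 1) ≤ 2 ^ J) : 1 ≤ et P (2 ^ J) (wG b) := by
  refine hE.ge _ fun p hp => ?_
  obtain ⟨hp1, -⟩ := hR.pos p hp
  have h0 : 0 ≤ p.2 ⬝ᵥ wG b := by
    unfold dotProduct
    refine Finset.sum_nonneg fun i _ => mul_nonneg (hp1 i) ?_
    unfold wG
    omega
  rw [abs_of_nonneg h0]
  have hK1 : 1 ≤ K₀ := by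
    unfold KYFG.KP at hK
    omega
  have hK0 : (0 : ℤ) < (K₀ : ℤ) := by exact_mod_cast hK1
  have h1 : (K₀ : ℤ) * (p.2 ⬝ᵥ wG b) ≤ (K₀ : ℤ) * (2 ^ J : ℤ) := by
    have h2 : (K₀ : ℤ) * (p.2 ⬝ᵥ wG b) = ∑ i, p.2 i * ((K₀ : ℤ) * ((b i : ℤ) + 1)) := by
      unfold dotProduct wG
      rw [Finset.mul_sum]
      refine Finset.sum_congr rfl fun i _ => ?_
      ring
    have h3 : ∑ i, p.2 i * ((K₀ : ℤ) * ((b i : ℤ) + 1)) ≤ ∑ i, p.2 i * (2 ^ J : ℤ) := by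
      refine Finset.sum_le_sum fun i _ => mul_le_mul_of_nonneg_left ?_ (hp1 i)
      exact_mod_cast hb i
    rw [h2]
    refine h3.trans ?_
    rw [← Finset.sum_mul]
    refine mul_le_mul_of_nonneg_right ?_ (by positivity)
    refine (KYFG.le_KP hp).trans ?_
    exact_mod_cast hK
  have h4 := le_of_mul_le_mul_left h1 hK0
  exact_mod_cast h4

end KWFG

theorem t_KWFG : M_KWFG := by
  intro hW hKE hAT hET hNS hNB hSU hKO N H c d r D P ι a χ Z k hR hG μ _ _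
  have hNK : NKF D P := hNS r D P hR
  have hA : ATV D P := hAT r D P hR
  obtain ⟨C₁, c₁, hC₁, hc₁, hB⟩ := hNB r D P hR
  obtain ⟨C₂, c₂, K₂, hC₂, hc₂, hS⟩ := hSU r D P hR
  have hcs : CompactSpace H := isCompact_iff_compactSpace.1 (hG.closed.isCompact)
  have hsc : SecondCountableTopology H :=
    TopologicalSpace.Subtype.secondCountableTopology (H : Set (SU N))
  obtain ⟨hker, -⟩ := hKE H μ ι χ hG.irr
  have hKP : 1 ≤ KYFG.KP P := by
    unfold KYFG.KP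
    omega
  refine ⟨max C₁ C₂, max c₁ c₂, max (KYFG.KP P) K₂, le_max_of_le_left hC₁,
    le_max_of_le_left hc₁, fun J => ?_⟩
  have hE : ETF D P (2 ^ J) := hET r D P hR (2 ^ J) Nat.one_le_two_pow
  refine ⟨fun y => KWFG.cont_kw hG J _ y, fun t g g' => KWFG.sum_kw hNK J _ t g g',
    fun i => hE.nn _, fun i hi => ⟨(KWFG.mem_ia hG.inj _ i).2
      (KYFG.mem_ib (le_max_of_le_left hKP) (a i) hi),
      KWFG.et_ge hE hR (le_max_left _ _) (a i) hi⟩, fun y t g g' => ?_,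
      fun y t b hb u v hu hv => ?_⟩
  · have h9 := KWFG.sup_all hG hR hA (max (KYFG.KP P) K₂ * 2 ^ J) (fun ν => nm D P J y (-t) ν)
      (C₂ * (((2 : ℝ) ^ J) ^ P.card * WW (2 ^ J) c₂ (-t) ^ ((r : ℝ) / 2) *
        ∏ p, (2 : ℝ) ^ (y p).val))
      (fun θ => hS J _ y (-t) θ (Nat.mul_le_mul_right _ (le_max_right _ _))) (g * g'⁻¹)
    unfold kw KK
    refine h9.trans ?_
    rw [hW.even]
    have h0 := KYFG.WW_nn hW (2 ^ J) c₂ t
    have h1 : WW (2 ^ J) c₂ t ≤ WW (2 ^ J) (max c₁ c₂) t :=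
      hW.mono _ _ _ _ t le_rfl (le_max_right _ _)
    have h2 : (((2 ^ J : ℕ) : ℝ)) = (2 : ℝ) ^ J := by push_cast; rfl
    rw [h2]
    gcongr
    exact le_max_right _ _
  · have hprod : ∀ (C : ℝ) (c : ℕ), 0 ≤ C → 0 ≤ C * ∏ i, (WW (2 ^ (y (b i)).val) c t ^ ((1 : ℝ) / 2) /
        2 ^ (y (b i)).val) := by
      intro C c hC
      refine mul_nonneg hC (Finset.prod_nonneg fun i _ => ?_)
      have h1 := KYFG.WW_nn hW (2 ^ (y (b i)).val) c t
      positivity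
    have hm : ∀ i ∈ ia a (max (KYFG.KP P) K₂ * 2 ^ J), ‖nm D P J y (-t) (wG (a i))‖ ≤
        max C₁ C₂ * ∏ i, (WW (2 ^ (y (b i)).val) (max c₁ c₂) t ^ ((1 : ℝ) / 2) /
          2 ^ (y (b i)).val) := by
      intro i _
      refine (hB J y (-t) (wG (a i)) b hb).trans ?_
      have h3 : ∏ i, (WW (2 ^ (y (b i)).val) c₁ (-t) ^ ((1 : ℝ) / 2) / 2 ^ (y (b i)).val) ≤
          ∏ i, (WW (2 ^ (y (b i)).val) (max c₁ c₂) t ^ ((1 : ℝ) / 2) / 2 ^ (y (b i)).val) := by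
        refine Finset.prod_le_prod (fun i _ => ?_) fun i _ => ?_
        · have h1 := KYFG.WW_nn hW (2 ^ (y (b i)).val) c₁ (-t)
          positivity
        · rw [hW.even]
          have h0 := KYFG.WW_nn hW (2 ^ (y (b i)).val) c₁ t
          have h1 : WW (2 ^ (y (b i)).val) c₁ t ≤ WW (2 ^ (y (b i)).val) (max c₁ c₂) t :=
            hW.mono _ _ _ _ t le_rfl (le_max_left _ _)
          gcongr
      have h4 : 0 ≤ ∏ i, (WW (2 ^ (y (b i)).val) (max c₁ c₂) t ^ ((1 : ℝ) / 2) /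
          2 ^ (y (b i)).val) := by
        have := hprod 1 (max c₁ c₂) zero_le_one
        rwa [one_mul] at this
      exact (mul_le_mul_of_nonneg_left h3 hC₁).trans
        (mul_le_mul_of_nonneg_right (le_max_left _ _) h4)
    have h5 := hKO H μ ι (KK χ) hker (ia a (max (KYFG.KP P) K₂ * 2 ^ J))
      (fun i => nm D P J y (-t) (wG (a i))) _ (hprod _ _ (le_max_of_le_left hC₁)) hm u v hu hv
    unfold kw
    exact h5

end

end LGR
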