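import Pool.Agent.LGR.StL

/-!
# LGR, module LCXF: the complexification of the Lie algebra of a closed subgroup
-/

namespace LGR

open STZ MeasureTheory Matrix Filter

open scoped ComplexConjugate Matrix Real Topology

noncomputable section

attribute [local instance 100] LieRing.ofAssociativeRing

namespace LCXF

variable {N : ℕ} {H : Subgroup (SU N)}

theorem sub (h : LIF H) {X Y : Matrix (Fin N) (Fin N) ℂ} (hX : X ∈ lie H) (hY : Y ∈ lie H) :
    X - Y ∈ lie H := by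
  have h1 := h.add X hX _ (h.smul (-1) Y hY)
  have h2 : X + ((-1 : ℝ) : ℂ) • Y = X - Y := by
    push_cast
    rw [neg_smul, one_smul, sub_eq_add_neg]
  rwa [h2] at h1

/-- the set of all `X + i Y` -/
def sp (h : LIF H) : LieSubalgebra ℂ (Matrix (Fin N) (Fin N) ℂ) where
  carrier := {Z | ∃ X ∈ lie H, ∃ Y ∈ lie H, Z = X + Complex.I • Y}
  add_mem' := by
    rintro _ _ ⟨X, hX, Y, hY, rfl⟩ ⟨X', hX', Y', hY', rfl⟩
    refine ⟨X + X', h.add _ hX _ hX', Y + Y', h.add _ hY _ hY', ?_⟩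
    rw [smul_add]
    abel
  zero_mem' := ⟨0, h.zero, 0, h.zero, by simp⟩
  smul_mem' := by
    rintro c _ ⟨X, hX, Y, hY, rfl⟩
    refine ⟨((c.re : ℝ) : ℂ) • X - ((c.im : ℝ) : ℂ) • Y,
      sub h (h.smul _ _ hX) (h.smul _ _ hY),
      ((c.im : ℝ) : ℂ) • X + ((c.re : ℝ) : ℂ) • Y, h.add _ (h.smul _ _ hX) _ (h.smul _ _ hY), ?_⟩
    have h1 : c = (c.re : ℂ) + (c.im : ℂ) * Complex.I := (Complex.re_add_im c).symm
    have h2 : Complex.I * Complex.I = -1 := Complex.I_mul_I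
    ext i j
    simp only [Matrix.smul_apply, Matrix.add_apply, Matrix.sub_apply, smul_eq_mul]
    rw [h1]
    simp only [Complex.add_re, Complex.add_im, Complex.ofReal_re, Complex.ofReal_im, Complex.mul_re,
      Complex.mul_im, Complex.I_re, Complex.I_im]
    push_cast
    linear_combination ((c.im : ℂ) * Y i j) * h2
  lie_mem' := by
    rintro _ _ ⟨X, hX, Y, hY, rfl⟩ ⟨X', hX', Y', hY', rfl⟩
    refine ⟨(X * X' - X' * X) - (Y * Y' - Y' * Y), sub h (h.br _ hX _ hX') (h.br _ hY _ hY'),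
      (X * Y' - Y' * X) + (Y * X' - X' * Y), h.add _ (h.br _ hX _ hY') _ (h.br _ hY _ hX'), ?_⟩
    have h2 : Complex.I * Complex.I = -1 := Complex.I_mul_I
    rw [Ring.lie_def]
    simp only [mul_add, add_mul, Matrix.smul_mul, Matrix.mul_smul, smul_smul, h2, smul_add, smul_sub,
      neg_smul, one_smul]
    abel

theorem mem (h : LIF H) (Z : Matrix (Fin N) (Fin N) ℂ) :
    Z ∈ LC H ↔ ∃ X ∈ lie H, ∃ Y ∈ lie H, Z = X + Complex.I • Y := by
  constructor
  · intro hZ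
    have h1 : LC H ≤ sp h := by
      rw [LC, LieSubalgebra.lieSpan_le]
      intro X hX
      exact ⟨X, hX, 0, h.zero, by simp⟩
    exact h1 hZ
  · rintro ⟨X, hX, Y, hY, rfl⟩
    have h1 : X ∈ LC H := LieSubalgebra.subset_lieSpan hX
    have h2 : Y ∈ LC H := LieSubalgebra.subset_lieSpan hY
    exact (LC H).add_mem h1 ((LC H).smul_mem _ h2)

theorem ct (h : LIF H) {X : Matrix (Fin N) (Fin N) ℂ} (hX : X ∈ lie H) : Xᴴ = -X := (h.su X hX).1

theorem cz (h : LIF H) {X Y : Matrix (Fin N) (Fin N) ℂ} (hX : X ∈ lie H) (hY : Y ∈ lie H) :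
    (X + Complex.I • Y)ᴴ = -X + Complex.I • Y := by
  rw [conjTranspose_add, conjTranspose_smul, ct h hX, ct h hY, Complex.star_def, Complex.conj_I, neg_smul,
    smul_neg, neg_neg]

end LCXF

theorem t_LCXF : M_LCXF := by
  intro hL N H hc
  have h := hL N H hc
  refine ⟨LCXF.mem h, ?_, ?_⟩
  · intro Z hZ
    obtain ⟨X, hX, Y, hY, rfl⟩ := (LCXF.mem h Z).1 hZ
    rw [LCXF.cz h hX hY]
    refine (LCXF.mem h _).2 ⟨-X, ?_, Y, hY, rfl⟩
    have h1 := LCXF.sub h h.zero hX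
    rwa [zero_sub] at h1
  · intro Z hZ hs
    obtain ⟨X, hX, Y, hY, rfl⟩ := (LCXF.mem h Z).1 hZ
    rw [LCXF.cz h hX hY, neg_add, add_right_inj] at hs
    have h1 : Complex.I • Y = 0 := by
      ext i j
      have h2 := congrFun (congrFun hs i) j
      exact self_eq_neg.1 h2
    rw [h1, add_zero]
    exact hX

end

end LGR
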