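import Pool.Agent.LGR.StD
import Pool.Agent.STZ.Base
import Pool.Agent.STZ.EXP

/-!
# Simple compact Lie groups, block D: module LEMC
-/

namespace LGR

open STZ MeasureTheory Matrix Filter

open scoped ComplexConjugate Matrix Real Topology

noncomputable section

namespace LEMC

/-- entrywise derivative at `0` -/
def HD {N : ℕ} (F : ℝ → Matrix (Fin N) (Fin N) ℂ) (F' : Matrix (Fin N) (Fin N) ℂ) : Prop :=
  ∀ i j, HasDerivAt (fun t => F t i j) (F' i j) 0

theorem HD.mul {N : ℕ} {F G : ℝ → Matrix (Fin N) (Fin N) ℂ} {F' G' : Matrix (Fin N) (Fin N) ℂ}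
    (hF : HD F F') (hG : HD G G') : HD (fun t => F t * G t) (F' * G 0 + F 0 * G') := by
  intro i j
  have h : HasDerivAt (fun t => ∑ k, F t i k * G t k j)
      (∑ k, (F' i k * G 0 k j + F 0 i k * G' k j)) 0 :=
    HasDerivAt.fun_sum fun k _ => (hF i k).mul (hG k j)
  simpa only [Matrix.mul_apply, Matrix.add_apply, Finset.sum_add_distrib] using h

theorem HD.const {N : ℕ} (A : Matrix (Fin N) (Fin N) ℂ) : HD (fun _ => A) 0 := by
  intro i j
  exact hasDerivAt_const _ _

theorem HD.conj {N : ℕ} {F : ℝ → Matrix (Fin N) (Fin N) ℂ} {F' : Matrix (Fin N) (Fin N) ℂ}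
    (hF : HD F F') : HD (fun t => (F t)ᴴ) F'ᴴ := by
  intro i j
  exact (hF j i).star

theorem HD.trace {N : ℕ} {F : ℝ → Matrix (Fin N) (Fin N) ℂ} {F' : Matrix (Fin N) (Fin N) ℂ}
    (hF : HD F F') : HasDerivAt (fun t => (F t).trace) F'.trace 0 := by
  have h : HasDerivAt (fun t => ∑ k, F t k k) (∑ k, F' k k) 0 :=
    HasDerivAt.fun_sum fun k _ => hF k k
  exact h

/-- the real part of the trace of `C Cᴴ` vanishes only for `C = 0` -/
theorem zero_of {N : ℕ} (C : Matrix (Fin N) (Fin N) ℂ) (h : (C * Cᴴ).trace.re = 0) : C = 0 := by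
  have h1 : (C * Cᴴ).trace.re = ∑ i, ∑ j, ‖C i j‖ ^ 2 := by
    simp only [Matrix.trace, Matrix.diag, Matrix.mul_apply, Matrix.conjTranspose_apply,
      Complex.re_sum]
    refine Finset.sum_congr rfl fun i _ => Finset.sum_congr rfl fun j _ => ?_
    rw [Complex.star_def, Complex.mul_conj, Complex.ofReal_re, Complex.normSq_eq_norm_sq]
  rw [h1] at h
  ext i j
  have h2 := (Finset.sum_eq_zero_iff_of_nonneg (fun i _ =>
    Finset.sum_nonneg fun j _ => by positivity)).1 h i (Finset.mem_univ _)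
  have h3 := (Finset.sum_eq_zero_iff_of_nonneg (fun j _ => by positivity)).1 h2 j
    (Finset.mem_univ _)
  simpa using h3

end LEMC

open LEMC

theorem t_LEMC : M_LEMC := by
  intro hL N H hH X hX Y hY
  have L := hL N H hH
  have hc : IsCompact (H : Set (SU N)) := hH.isCompact
  have hne : (H : Set (SU N)).Nonempty := ⟨1, H.one_mem⟩
  have hcont : Continuous fun h : SU N => (h.1 * X * h.1ᴴ * Y).trace.re := by
    have hv : Continuous fun h : SU N => (h.1 : Matrix (Fin N) (Fin N) ℂ) := continuous_subtype_val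
    exact Complex.continuous_re.comp
      ((((hv.matrix_mul continuous_const).matrix_mul hv.matrix_conjTranspose).matrix_mul
        continuous_const).matrix_trace)
  obtain ⟨h, hh, hmin⟩ := hc.exists_isMinOn hne hcont.continuousOn
  refine ⟨h, hh, ?_⟩
  set Z := h.1 * X * h.1ᴴ with hZ
  have hZm : Z ∈ lie H := L.ad h hh X hX
  have key : ∀ U ∈ lie H, (U * (Z * Y - Y * Z)).trace.re = 0 := by
    intro U hU
    have hE := t_EXP N U (L.su U hU)
    have hd0 : HD (fun t => (ex U t).1) U := hE.der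
    have hd : HD (fun t => (ex U t).1 * Z * (ex U t).1ᴴ * Y)
        (((U * Z + (ex U 0).1 * 0) * (ex U 0).1ᴴ + (ex U 0).1 * Z * Uᴴ) * Y
          + (ex U 0).1 * Z * (ex U 0).1ᴴ * 0) :=
      ((hd0.mul (HD.const Z)).mul hd0.conj).mul (HD.const Y)
    have ht := hd.trace
    have hre : HasDerivAt (fun t => ((ex U t).1 * Z * (ex U t).1ᴴ * Y).trace.re)
        ((((U * Z + (ex U 0).1 * 0) * (ex U 0).1ᴴ + (ex U 0).1 * Z * Uᴴ) * Y
          + (ex U 0).1 * Z * (ex U 0).1ᴴ * 0).trace.re) 0 := by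
      have := Complex.reCLM.hasFDerivAt.comp_hasDerivAt (0 : ℝ) ht
      exact this
    have hmin' : IsLocalMin (fun t => ((ex U t).1 * Z * (ex U t).1ᴴ * Y).trace.re) 0 := by
      refine Filter.Eventually.of_forall fun t => ?_
      have h1 : (ex U t * h) ∈ (H : Set (SU N)) := H.mul_mem (hU.2 t) hh
      have h2 := hmin h1
      simp only [Set.mem_setOf_eq] at h2
      have h3 : ((ex U t * h : SU N) : Matrix (Fin N) (Fin N) ℂ) * X
          * ((ex U t * h : SU N) : Matrix (Fin N) (Fin N) ℂ)ᴴ * Y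
          = (ex U t).1 * Z * (ex U t).1ᴴ * Y := by
        rw [hZ]
        have h4 : ((ex U t * h : SU N) : Matrix (Fin N) (Fin N) ℂ) = (ex U t).1 * h.1 := rfl
        rw [h4, Matrix.conjTranspose_mul]
        simp only [Matrix.mul_assoc]
      rw [h3] at h2
      have h5 : (ex U 0).1 * Z * (ex U 0).1ᴴ = Z := by
        rw [hE.zero]
        simp
      have h6 : (h.1 * X * h.1ᴴ * Y).trace.re ≤ ((ex U t).1 * Z * (ex U t).1ᴴ * Y).trace.re := h2
      have h7 : ((ex U 0).1 * Z * (ex U 0).1ᴴ * Y).trace.re = (h.1 * X * h.1ᴴ * Y).trace.re := by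
        rw [h5]
      exact h7.le.trans h6
    have h0 := hmin'.hasDerivAt_eq_zero hre
    rw [hE.zero] at h0
    have hUs : Uᴴ = -U := (L.su U hU).1
    have h6 : (U * (Z * Y - Y * Z)).trace = (((U * Z + (1 : SU N).1 * 0) * (1 : SU N).1ᴴ
        + (1 : SU N).1 * Z * Uᴴ) * Y + (1 : SU N).1 * Z * (1 : SU N).1ᴴ * 0).trace := by
      have h7 : ((1 : SU N).1 : Matrix (Fin N) (Fin N) ℂ) = 1 := rfl
      rw [h7, hUs]
      simp only [Matrix.conjTranspose_one, Matrix.mul_one, Matrix.one_mul, Matrix.mul_zero,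
        add_zero, Matrix.mul_neg, Matrix.add_mul, Matrix.neg_mul, Matrix.trace_add,
        Matrix.trace_neg, Matrix.mul_sub, Matrix.trace_sub]
      rw [Matrix.mul_assoc U Z Y, ← sub_eq_add_neg]
      rw [← Matrix.mul_assoc U Y Z, Matrix.trace_mul_cycle U Y Z]
    rw [h6]
    exact h0
  have hC : Z * Y - Y * Z ∈ lie H := L.br Z hZm Y hY
  have h8 := key _ hC
  have hs : (Z * Y - Y * Z)ᴴ = -(Z * Y - Y * Z) := (L.su _ hC).1
  have h9 : Z * Y - Y * Z = 0 := by
    refine zero_of _ ?_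
    rw [hs, Matrix.mul_neg, Matrix.trace_neg, Complex.neg_re, h8, neg_zero]
  exact sub_eq_zero.1 h9

end

end LGR
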