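import Pool.Agent.LGR.StD
import Pool.Agent.STZ.EXP

/-!
# Module LEMT: elements near `t` are conjugate to `t exp Y`, `Y` commuting with `t`
-/

set_option autoImplicit false

namespace LGR

open STZ MeasureTheory Matrix Filter

open scoped ComplexConjugate Matrix Real Topology

noncomputable section

namespace LEMT

variable {N : ℕ}

set_option backward.isDefEq.respectTransparency false in
open scoped Matrix.Norms.Operator in
theorem entry_le (A : Matrix (Fin N) (Fin N) ℂ) (i j : Fin N) : ‖A i j‖ ≤ ‖A‖ := by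
  have h1 : ‖A i j‖₊ ≤ ‖A‖₊ := by
    rw [Matrix.linfty_opNNNorm_def]
    calc ‖A i j‖₊ ≤ ∑ k, ‖A i k‖₊ :=
          Finset.single_le_sum (f := fun k => ‖A i k‖₊) (fun k _ => zero_le) (Finset.mem_univ j)
      _ ≤ _ := Finset.le_sup (f := fun i => ∑ k, ‖A i k‖₊) (Finset.mem_univ i)
  exact_mod_cast h1

set_option backward.isDefEq.respectTransparency false in
open scoped Matrix.Norms.Operator in
theorem le_sum (A : Matrix (Fin N) (Fin N) ℂ) : ‖A‖ ≤ ∑ k, ∑ l, ‖A k l‖ := by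
  have h1 : ‖A‖₊ ≤ ∑ k, ∑ l, ‖A k l‖₊ := by
    rw [Matrix.linfty_opNNNorm_def]
    refine Finset.sup_le fun i _ => ?_
    exact Finset.single_le_sum (f := fun i => ∑ l, ‖A i l‖₊) (fun k _ => zero_le)
      (Finset.mem_univ i)
  have h2 : ((‖A‖₊ : NNReal) : ℝ) ≤ ((∑ k, ∑ l, ‖A k l‖₊ : NNReal) : ℝ) := by exact_mod_cast h1
  push_cast at h2
  exact h2

set_option backward.isDefEq.respectTransparency false in
open scoped Matrix.Norms.Operator in
/-- strict derivative of the exponential at `0` -/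
theorem strict (N : ℕ) (c : ℝ) (hc : 0 < c) : ∃ ε : ℝ, 0 < ε ∧
    ∀ A Y : Matrix (Fin N) (Fin N) ℂ, (∀ i j, ‖A i j‖ ≤ ε) → (∀ i j, ‖Y i j‖ ≤ ε) →
      ∀ i j, ‖(NormedSpace.exp A - NormedSpace.exp Y - (A - Y)) i j‖ ≤
        c * ∑ k, ∑ l, ‖(A - Y) k l‖ := by
  have h1 : HasStrictFDerivAt (NormedSpace.exp : Matrix (Fin N) (Fin N) ℂ → _)
      (1 : Matrix (Fin N) (Fin N) ℂ →L[ℂ] Matrix (Fin N) (Fin N) ℂ) 0 :=
    hasStrictFDerivAt_exp_zero
  have h2 := h1.isLittleO.def hc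
  rw [nhds_prod_eq] at h2
  obtain ⟨s, hs, u, hu, h3⟩ := Filter.eventually_prod_iff.1 h2
  obtain ⟨r1, hr1, h4⟩ := Metric.eventually_nhds_iff.1 hs
  obtain ⟨r2, hr2, h5⟩ := Metric.eventually_nhds_iff.1 hu
  set r := min r1 r2 with hr
  have hr0 : 0 < r := lt_min hr1 hr2
  refine ⟨r / (N ^ 2 + 1), by positivity, fun A Y hA hY i j => ?_⟩
  have hb : ∀ B : Matrix (Fin N) (Fin N) ℂ, (∀ i j, ‖B i j‖ ≤ r / (N ^ 2 + 1)) → ‖B‖ < r := by
    intro B hB
    calc ‖B‖ ≤ ∑ k, ∑ l, ‖B k l‖ := le_sum B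
      _ ≤ ∑ _k : Fin N, ∑ _l : Fin N, r / ((N : ℝ) ^ 2 + 1) :=
          Finset.sum_le_sum fun k _ => Finset.sum_le_sum fun l _ => hB k l
      _ = (N : ℝ) ^ 2 * (r / (N ^ 2 + 1)) := by
          rw [Finset.sum_const, Finset.sum_const, Finset.card_univ, Fintype.card_fin,
            nsmul_eq_mul, nsmul_eq_mul]
          ring
      _ < r := by
          rw [mul_div_assoc', div_lt_iff₀ (by positivity)]
          nlinarith
  have hA' := h4 (y := A) (by rw [dist_zero_right]; exact (hb A hA).trans_le (min_le_left _ _))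
  have hY' := h5 (y := Y) (by rw [dist_zero_right]; exact (hb Y hY).trans_le (min_le_right _ _))
  have h6 := h3 hA' hY'
  have h7 : ‖NormedSpace.exp A - NormedSpace.exp Y - (A - Y)‖ ≤ c * ‖A - Y‖ := h6
  exact (entry_le _ i j).trans (h7.trans (mul_le_mul_of_nonneg_left (le_sum _) hc.le))

set_option backward.isDefEq.respectTransparency false in
open scoped Matrix.Norms.Operator in
/-- the derivative of the conjugation -/
theorem der (U G T : Matrix (Fin N) (Fin N) ℂ) :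
    HasDerivAt (fun s : ℝ => (NormedSpace.exp ((s : ℂ) • U) * G *
      NormedSpace.exp ((-(s : ℂ)) • U) * T).trace.re)
      ((U * G - G * U) * T).trace.re 0 := by
  have h1 : HasDerivAt (fun u : ℂ => NormedSpace.exp (u • U))
      (NormedSpace.exp ((0 : ℂ) • U) * U) 0 := hasDerivAt_exp_smul_const U (0 : ℂ)
  rw [EXP.exp_zero_smul, one_mul] at h1
  have h2 : HasDerivAt (fun u : ℂ => NormedSpace.exp (u • (-U)))
      (NormedSpace.exp ((0 : ℂ) • (-U)) * (-U)) 0 := hasDerivAt_exp_smul_const (-U) (0 : ℂ)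
  rw [EXP.exp_zero_smul, one_mul] at h2
  have h3 := ((h1.mul_const G).mul h2).mul_const T
  have h4 : (U * G * NormedSpace.exp ((0 : ℂ) • -U) + NormedSpace.exp ((0 : ℂ) • U) * G * -U) * T =
      (U * G - G * U) * T := by
    rw [EXP.exp_zero_smul, EXP.exp_zero_smul, mul_one, one_mul, mul_neg, ← sub_eq_add_neg]
  rw [h4] at h3
  let L : Matrix (Fin N) (Fin N) ℂ →L[ℂ] ℂ :=
    (Matrix.traceLinearMap (Fin N) ℂ ℂ).toContinuousLinearMap
  have h5 := L.hasFDerivAt.comp_hasDerivAt _ h3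
  have h6 : HasDerivAt (fun u : ℂ => (NormedSpace.exp (u • U) * G *
      NormedSpace.exp ((-u) • U) * T).trace) ((U * G - G * U) * T).trace ((0 : ℝ) : ℂ) := by
    rw [Complex.ofReal_zero]
    have h7 : (fun u : ℂ => (NormedSpace.exp (u • U) * G *
        NormedSpace.exp ((-u) • U) * T).trace) =
        fun u : ℂ => L (NormedSpace.exp (u • U) * G * NormedSpace.exp (u • (-U)) * T) := by
      funext u
      rw [neg_smul, smul_neg]
      rfl
    rw [h7]
    exact h5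
  exact h6.real_of_complex

/-- the square of the Hilbert-Schmidt norm -/
def nn (M : Matrix (Fin N) (Fin N) ℂ) : ℝ := ∑ i, ∑ j, ‖M i j‖ ^ 2

theorem nn_eq (M : Matrix (Fin N) (Fin N) ℂ) : ((nn M : ℝ) : ℂ) = (M * Mᴴ).trace := by
  rw [nn, Matrix.trace]
  push_cast
  refine Finset.sum_congr rfl fun i _ => ?_
  rw [Matrix.diag_apply, Matrix.mul_apply]
  refine Finset.sum_congr rfl fun j _ => ?_
  rw [Matrix.conjTranspose_apply]
  exact (Complex.mul_conj' _).symm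

theorem nn_re (M : Matrix (Fin N) (Fin N) ℂ) : nn M = (M * Mᴴ).trace.re := by
  rw [← nn_eq, Complex.ofReal_re]

/-- the distance of two unitary matrices -/
theorem nn_sub (a b : SU N) : nn (a.1 - b.1) = 2 * N - 2 * (a.1 * b.1ᴴ).trace.re := by
  have ha : a.1 * a.1ᴴ = 1 := a.2.1.2
  have hb : b.1 * b.1ᴴ = 1 := b.2.1.2
  have h1 : (a.1 - b.1) * (a.1 - b.1)ᴴ = 1 + 1 - a.1 * b.1ᴴ - (a.1 * b.1ᴴ)ᴴ := by
    rw [Matrix.conjTranspose_sub, sub_mul, mul_sub, mul_sub, ha, hb, Matrix.conjTranspose_mul,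
      Matrix.conjTranspose_conjTranspose]
    abel
  rw [nn_re, h1, Matrix.trace_sub, Matrix.trace_sub, Matrix.trace_add, Matrix.trace_one,
    Matrix.trace_conjTranspose, Fintype.card_fin]
  simp only [Complex.sub_re, Complex.add_re, Complex.natCast_re, Complex.star_def,
    Complex.conj_re]
  ring

theorem entry_sq_le (M : Matrix (Fin N) (Fin N) ℂ) (i j : Fin N) : ‖M i j‖ ^ 2 ≤ nn M := by
  calc ‖M i j‖ ^ 2 ≤ ∑ l, ‖M i l‖ ^ 2 :=
        Finset.single_le_sum (f := fun l => ‖M i l‖ ^ 2) (fun _ _ => by positivity)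
          (Finset.mem_univ j)
    _ ≤ nn M := Finset.single_le_sum (f := fun i => ∑ l, ‖M i l‖ ^ 2)
        (fun _ _ => Finset.sum_nonneg fun _ _ => by positivity) (Finset.mem_univ i)

theorem nn_le (M : Matrix (Fin N) (Fin N) ℂ) (δ : ℝ) (h : ∀ i j, ‖M i j‖ ≤ δ) :
    nn M ≤ (N * δ) ^ 2 := by
  calc nn M ≤ ∑ _i : Fin N, ∑ _j : Fin N, δ ^ 2 :=
        Finset.sum_le_sum fun i _ => Finset.sum_le_sum fun j _ =>
          pow_le_pow_left₀ (norm_nonneg _) (h i j) 2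
    _ = (N * δ) ^ 2 := by
        rw [Finset.sum_const, Finset.sum_const, Finset.card_univ, Fintype.card_fin,
          nsmul_eq_mul, nsmul_eq_mul]
        ring

/-- entries of a product with a unitary matrix -/
theorem mul_entry (a : SU N) (M : Matrix (Fin N) (Fin N) ℂ) (δ : ℝ) (h : ∀ i j, ‖M i j‖ ≤ δ)
    (i j : Fin N) : ‖(a.1 * M) i j‖ ≤ N * δ := by
  rw [Matrix.mul_apply]
  calc ‖∑ k, a.1 i k * M k j‖ ≤ ∑ k, ‖a.1 i k * M k j‖ := norm_sum_le _ _
    _ ≤ ∑ _k : Fin N, δ := by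
        refine Finset.sum_le_sum fun k _ => ?_
        rw [norm_mul]
        calc ‖a.1 i k‖ * ‖M k j‖ ≤ 1 * ‖M k j‖ :=
              mul_le_mul_of_nonneg_right (norm_entry_le a i k) (norm_nonneg _)
          _ ≤ δ := by rw [one_mul]; exact h k j
    _ = N * δ := by rw [Finset.sum_const, Finset.card_univ, Fintype.card_fin, nsmul_eq_mul]

theorem mul_entry' (a : SU N) (M : Matrix (Fin N) (Fin N) ℂ) (δ : ℝ) (h : ∀ i j, ‖M i j‖ ≤ δ)
    (i j : Fin N) : ‖(M * a.1) i j‖ ≤ N * δ := by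
  rw [Matrix.mul_apply]
  calc ‖∑ k, M i k * a.1 k j‖ ≤ ∑ k, ‖M i k * a.1 k j‖ := norm_sum_le _ _
    _ ≤ ∑ _k : Fin N, δ := by
        refine Finset.sum_le_sum fun k _ => ?_
        rw [norm_mul]
        calc ‖M i k‖ * ‖a.1 k j‖ ≤ ‖M i k‖ * 1 :=
              mul_le_mul_of_nonneg_left (norm_entry_le a k j) (norm_nonneg _)
          _ ≤ δ := by rw [mul_one]; exact h i k
    _ = N * δ := by rw [Finset.sum_const, Finset.card_univ, Fintype.card_fin, nsmul_eq_mul]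

/-- the quadratic estimate -/
theorem quad (u R : Matrix (Fin N) (Fin N) ℂ) (c : ℝ) (hc : c * N ^ 2 < 1) (hc0 : 0 ≤ c)
    (hu : uᴴ = -u) (hR : ∀ i j, ‖R i j‖ ≤ c * ∑ k, ∑ l, ‖u k l‖)
    (h0 : (u * (u + R)).trace.re = 0) : u = 0 := by
  set S := ∑ k, ∑ l, ‖u k l‖ with hS
  have hS0 : 0 ≤ S := Finset.sum_nonneg fun _ _ => Finset.sum_nonneg fun _ _ => norm_nonneg _
  have h1 : (u * u).trace.re = -nn u := by
    rw [nn_re, hu, mul_neg, Matrix.trace_neg, Complex.neg_re, neg_neg]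
  have h2 : (u * R).trace.re ≤ c * S ^ 2 := by
    calc (u * R).trace.re ≤ ‖(u * R).trace‖ := Complex.re_le_norm _
      _ = ‖∑ i, ∑ j, u i j * R j i‖ := by
          rw [Matrix.trace]
          simp only [Matrix.diag_apply, Matrix.mul_apply]
      _ ≤ ∑ i, ∑ j, ‖u i j‖ * (c * S) := by
          refine (norm_sum_le _ _).trans (Finset.sum_le_sum fun i _ => ?_)
          refine (norm_sum_le _ _).trans (Finset.sum_le_sum fun j _ => ?_)
          rw [norm_mul]
          exact mul_le_mul_of_nonneg_left (hR j i) (norm_nonneg _)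
      _ = c * S ^ 2 := by
          simp only [← Finset.sum_mul]
          rw [← hS]
          ring
  have h3 : S ^ 2 ≤ N ^ 2 * nn u := by
    have h4 : S = ∑ p : Fin N × Fin N, ‖u p.1 p.2‖ := by
      rw [hS, Fintype.sum_prod_type]
    have h5 : nn u = ∑ p : Fin N × Fin N, ‖u p.1 p.2‖ ^ 2 := by
      rw [nn, Fintype.sum_prod_type]
    rw [h4, h5]
    have h6 := sq_sum_le_card_mul_sum_sq (s := (Finset.univ : Finset (Fin N × Fin N)))
      (f := fun p => ‖u p.1 p.2‖)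
    rw [Finset.card_univ, Fintype.card_prod, Fintype.card_fin] at h6
    push_cast at h6
    calc _ ≤ _ := h6
      _ = _ := by ring
  rw [mul_add, Matrix.trace_add, Complex.add_re, h1] at h0
  have hnn : 0 ≤ nn u := Finset.sum_nonneg fun _ _ => Finset.sum_nonneg fun _ _ => by positivity
  have h7 : nn u ≤ c * N ^ 2 * nn u := by
    have h8 : nn u ≤ c * S ^ 2 := by linarith
    calc nn u ≤ c * S ^ 2 := h8
      _ ≤ c * (N ^ 2 * nn u) := mul_le_mul_of_nonneg_left h3 hc0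
      _ = c * N ^ 2 * nn u := by ring
  have h9 : nn u = 0 := by
    by_contra hne
    have hpos : 0 < nn u := lt_of_le_of_ne hnn (Ne.symm hne)
    nlinarith
  ext i j
  have h10 := entry_sq_le u i j
  rw [h9] at h10
  have h11 : ‖u i j‖ = 0 := by
    have := norm_nonneg (u i j)
    nlinarith
  rw [Matrix.zero_apply]
  exact norm_eq_zero.1 h11

end LEMT

open LEMT

theorem t_LEMT : M_LEMT := by
  intro hL hC N H hH t ht
  have hE := fun X hX => t_EXP N X hX
  have lif := hL N H hH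
  -- constants
  set c : ℝ := 1 / (2 * ((N : ℝ) ^ 2 + 1)) with hc
  have hN2 : (0 : ℝ) < (N : ℝ) ^ 2 + 1 := by positivity
  have hc0 : 0 < c := by positivity
  have hc1 : c * (N : ℝ) ^ 2 < 1 := by
    rw [hc, div_mul_eq_mul_div, div_lt_one (by positivity)]
    nlinarith [sq_nonneg (N : ℝ)]
  obtain ⟨ε, hε, hst⟩ := strict N c hc0
  obtain ⟨δ₀, hδ₀, hcl⟩ := hC N H hH (ε / ((N : ℝ) ^ 2 + 1)) (by positivity)
  refine ⟨δ₀ / ((N : ℝ) ^ 2 + 1), by positivity, fun g hg hgt => ?_⟩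
  -- the maximum
  have hK : IsCompact (H : Set (SU N)) := hH.isCompact
  have hcont : Continuous fun h : SU N => (h * g * h⁻¹ * t⁻¹).1.trace.re := by
    refine Complex.continuous_re.comp (continuous_trace.comp ?_)
    exact ((continuous_id.mul continuous_const).mul continuous_inv).mul continuous_const
  obtain ⟨h, hhH, hmax⟩ := hK.exists_isMaxOn ⟨1, H.one_mem⟩ hcont.continuousOn
  have hmax' : ∀ x ∈ H, (x * g * x⁻¹ * t⁻¹).1.trace.re ≤ (h * g * h⁻¹ * t⁻¹).1.trace.re :=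
    fun x hx => hmax hx
  set g' : SU N := h * g * h⁻¹ with hg'
  have hg'H : g' ∈ H := H.mul_mem (H.mul_mem hhH hg) (H.inv_mem hhH)
  have htt : t.1 * t.1ᴴ = 1 := t.2.1.2
  have htt' : t.1ᴴ * t.1 = 1 := t.2.1.1
  -- `g'` is near `t`
  have hclose : ∀ i j, ‖(g'.1 - t.1) i j‖ ≤ N * (δ₀ / ((N : ℝ) ^ 2 + 1)) := by
    have h1 : nn (g'.1 - t.1) ≤ nn (g.1 - t.1) := by
      rw [nn_sub, nn_sub]
      have h2 := hmax' 1 H.one_mem
      rw [one_mul, inv_one, mul_one] at h2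
      have h3 : (g * t⁻¹).1 = g.1 * t.1ᴴ := rfl
      have h4 : (g' * t⁻¹).1 = g'.1 * t.1ᴴ := rfl
      rw [h3, h4] at h2
      linarith
    have h5 := nn_le (g.1 - t.1) (δ₀ / ((N : ℝ) ^ 2 + 1)) fun i j => (hgt i j).le
    intro i j
    have h6 := entry_sq_le (g'.1 - t.1) i j
    have h7 : (0 : ℝ) ≤ N * (δ₀ / ((N : ℝ) ^ 2 + 1)) := by positivity
    exact abs_le_of_sq_le_sq' (by linarith) h7 |>.2
  -- the logarithm
  have hlog : ∀ i j, ‖(t⁻¹ * g').1 i j - (1 : Matrix (Fin N) (Fin N) ℂ) i j‖ < δ₀ := by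
    intro i j
    have h1 : (t⁻¹ * g').1 - 1 = (t⁻¹).1 * (g'.1 - t.1) := by
      rw [coe_mul, mul_sub, coe_inv, htt']
    have h2 := mul_entry t⁻¹ (g'.1 - t.1) _ hclose i j
    rw [← h1, Matrix.sub_apply] at h2
    refine h2.trans_lt ?_
    have h3 : (N : ℝ) * (N * (δ₀ / ((N : ℝ) ^ 2 + 1))) = N ^ 2 * δ₀ / (N ^ 2 + 1) := by ring
    rw [h3, div_lt_iff₀ hN2]
    nlinarith
  obtain ⟨Y, hY, hYε, hYg⟩ := hcl (t⁻¹ * g') (H.mul_mem (H.inv_mem ht) hg'H) hlog
  have hYsu := lif.su Y hY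
  have hg'Y : g' = t * ex Y 1 := by rw [hYg, mul_inv_cancel_left]
  refine ⟨h, hhH, Y, hY, ?_, hg'Y⟩
  -- the condition
  set A : Matrix (Fin N) (Fin N) ℂ := t.1 * Y * t.1ᴴ with hA
  have hAl : A ∈ lie H := lif.ad t ht Y hY
  have hexpY : (ex Y 1).1 = NormedSpace.exp Y := by
    rw [(hE Y hYsu).coe, Complex.ofReal_one, one_smul]
  have hG : g'.1 = t.1 * NormedSpace.exp Y := by
    rw [hg'Y, coe_mul, hexpY]
  have hGT : g'.1 * t.1ᴴ = NormedSpace.exp A := by
    have hinv : t.1⁻¹ = t.1ᴴ := Matrix.inv_eq_left_inv htt'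
    have hunit : IsUnit t.1 := by
      rw [isUnit_iff_exists]
      exact ⟨t.1ᴴ, htt, htt'⟩
    rw [hG, hA, ← hinv, Matrix.exp_conj _ _ hunit]
  have hTG : t.1ᴴ * g'.1 = NormedSpace.exp Y := by
    rw [hG, ← mul_assoc, htt', one_mul]
  have hcrit : ∀ U ∈ lie H, (U * (NormedSpace.exp A - NormedSpace.exp Y)).trace.re = 0 := by
    intro U hU
    have hUsu := lif.su U hU
    have hd := der U g'.1 t.1ᴴ
    have hm : IsLocalMax (fun s : ℝ => (NormedSpace.exp ((s : ℂ) • U) * g'.1 *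
        NormedSpace.exp ((-(s : ℂ)) • U) * t.1ᴴ).trace.re) 0 := by
      refine Filter.Eventually.of_forall fun s => ?_
      have h1 := hmax' (ex U s * h) (H.mul_mem (hU.2 s) hhH)
      have h2 : ex U s * h * g * (ex U s * h)⁻¹ * t⁻¹ = ex U s * g' * (ex U s)⁻¹ * t⁻¹ := by
        rw [hg']
        group
      have h3 : (ex U s)⁻¹ = ex U (-s) := by
        rw [inv_eq_iff_mul_eq_one, ← (hE U hUsu).add, add_neg_cancel, (hE U hUsu).zero]
      rw [h2, h3] at h1
      have h4 : (ex U s * g' * ex U (-s) * t⁻¹).1 = NormedSpace.exp ((s : ℂ) • U) * g'.1 *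
          NormedSpace.exp ((-(s : ℂ)) • U) * t.1ᴴ := by
        rw [coe_mul, coe_mul, coe_mul, (hE U hUsu).coe, (hE U hUsu).coe, Complex.ofReal_neg,
          coe_inv]
      have h5 : (g' * t⁻¹).1 = NormedSpace.exp (((0 : ℝ) : ℂ) • U) * g'.1 *
          NormedSpace.exp ((-((0 : ℝ) : ℂ)) • U) * t.1ᴴ := by
        rw [Complex.ofReal_zero, neg_zero, EXP.exp_zero_smul, one_mul, mul_one, coe_mul, coe_inv]
      rw [h4, h5] at h1
      exact h1
    have h6 := hm.hasDerivAt_eq_zero hd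
    have h7 : ((U * g'.1 - g'.1 * U) * t.1ᴴ).trace =
        (U * (NormedSpace.exp A - NormedSpace.exp Y)).trace := by
      rw [sub_mul, Matrix.trace_sub, mul_sub, Matrix.trace_sub, mul_assoc U, hGT, mul_assoc,
        Matrix.trace_mul_comm g'.1, mul_assoc, hTG]
    rw [h7] at h6
    exact h6
  set u : Matrix (Fin N) (Fin N) ℂ := A - Y with hu
  have hul : u ∈ lie H := by
    have h1 := lif.add A hAl _ (lif.smul (-1) Y hY)
    have h2 : A + (((-1 : ℝ) : ℂ)) • Y = u := by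
      rw [Complex.ofReal_neg, Complex.ofReal_one, neg_smul, one_smul, ← sub_eq_add_neg]
    rwa [h2] at h1
  have hYle : ∀ i j, ‖Y i j‖ ≤ ε / ((N : ℝ) ^ 2 + 1) := fun i j => (hYε i j).le
  have hεle : ε / ((N : ℝ) ^ 2 + 1) ≤ ε := by
    rw [div_le_iff₀ hN2]
    nlinarith [sq_nonneg (N : ℝ)]
  have hAle : ∀ i j, ‖A i j‖ ≤ ε := by
    intro i j
    have h1 := mul_entry' t⁻¹ (t.1 * Y) _ (mul_entry t Y _ hYle) i j
    have h2 : t.1 * Y * (t⁻¹).1 = A := rfl
    rw [h2] at h1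
    refine h1.trans ?_
    have h3 : (N : ℝ) * (N * (ε / ((N : ℝ) ^ 2 + 1))) = N ^ 2 * ε / (N ^ 2 + 1) := by ring
    rw [h3, div_le_iff₀ hN2]
    nlinarith
  have hfin := hst A Y hAle fun i j => (hYle i j).trans hεle
  have hu0 : u = 0 := by
    refine quad u (NormedSpace.exp A - NormedSpace.exp Y - u) c hc1 hc0.le (lif.su u hul).1
      hfin ?_
    rw [add_sub_cancel]
    exact hcrit u hul
  have hAY : A = Y := sub_eq_zero.1 hu0
  calc t.1 * Y = t.1 * Y * (t.1ᴴ * t.1) := by rw [htt', mul_one]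
    _ = A * t.1 := by rw [hA, ← mul_assoc]
    _ = Y * t.1 := by rw [hAY]

end

end LGR
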