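import Pool.Agent.LGR.StV
import Pool.Agent.LGR.LIEB

/-!
# LGR: a lower Lipschitz bound near a zero
-/

namespace LGR

open STZ MeasureTheory Matrix Filter

open scoped ComplexConjugate Matrix Real Topology

noncomputable section

namespace LIPS

/-- strict derivative of a list product of maps with value `1` at `0` -/
theorem prodl {E 𝔸 ι : Type*} [NormedAddCommGroup E] [NormedSpace ℝ E] [NormedRing 𝔸]
    [NormedAlgebra ℝ 𝔸] (f : ι → E → 𝔸) (f' : ι → E →L[ℝ] 𝔸)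
    (h0 : ∀ i, f i 0 = 1) (h : ∀ i, HasStrictFDerivAt (f i) (f' i) 0) (l : List ι) :
    ((l.map (fun i => f i 0)).prod = 1) ∧
    HasStrictFDerivAt (fun s => (l.map (fun i => f i s)).prod) ((l.map f').sum) 0 := by
  induction l with
  | nil =>
    refine ⟨by simp, ?_⟩
    simpa using hasStrictFDerivAt_const (𝕜 := ℝ) (1 : 𝔸) (0 : E)
  | cons i l ih =>
    refine ⟨by simp [h0], ?_⟩
    have h1 := (h i).mul' ih.2
    refine (h1.congr_fderiv ?_)
    ext v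
    simp [h0]
    abel

/-- the strict derivative of an ordered product of exponentials -/
theorem expl {𝔸 : Type*} [NormedRing 𝔸] [NormedAlgebra ℝ 𝔸] [FiniteDimensional ℝ 𝔸] {n : ℕ}
    (X : Fin n → 𝔸) (l : List (Fin n)) :
    ((l.map (fun i => NormedSpace.exp ((0 : Fin n → ℝ) i • X i))).prod = 1) ∧
    HasStrictFDerivAt (fun s : Fin n → ℝ => (l.map (fun i => NormedSpace.exp (s i • X i))).prod)
      ((l.map (fun i => (ContinuousLinearMap.proj (R := ℝ) (φ := fun _ : Fin n => ℝ) i).smulRight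
        (X i))).sum) 0 := by
  have hcs : CompleteSpace 𝔸 := FiniteDimensional.complete ℝ 𝔸
  let _ : NormedAlgebra ℚ 𝔸 := NormedAlgebra.restrictScalars ℚ ℝ 𝔸
  refine prodl (fun i (s : Fin n → ℝ) => NormedSpace.exp (s i • X i)) _ ?_ ?_ l
  · intro i
    simp
  · intro i
    have e1 := ((ContinuousLinearMap.proj (R := ℝ) (φ := fun _ : Fin n => ℝ) i).smulRight
        (X i)).hasStrictFDerivAt (x := (0 : Fin n → ℝ))
    have e2 : HasStrictFDerivAt (NormedSpace.exp : 𝔸 → 𝔸) (1 : 𝔸 →L[ℝ] 𝔸)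
      (((ContinuousLinearMap.proj (R := ℝ) (φ := fun _ : Fin n => ℝ) i).smulRight
        (X i)) 0) := by
      rw [map_zero]
      exact hasStrictFDerivAt_exp_zero
    have e3 := HasStrictFDerivAt.comp (0 : Fin n → ℝ) e2 e1
    refine e3.congr_fderiv ?_
    ext v
    simp

/-- the main estimate in a normed algebra -/
theorem key {𝔸 G : Type*} [NormedRing 𝔸] [NormedAlgebra ℝ 𝔸]
    [NormedAddCommGroup G] [NormedSpace ℝ G] {n m : ℕ} (e : Fin m → 𝔸) (st : 𝔸 →L[ℝ] 𝔸)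
    (Q : (Fin m → 𝔸) →L[ℝ] G) (P₀ R₀ : 𝔸) (W : (Fin n → ℝ) → 𝔸) (W' : (Fin n → ℝ) →L[ℝ] 𝔸)
    (hW : HasStrictFDerivAt W W' 0) (hW0 : W 0 = 1)
    (inj : ∀ v : Fin n → ℝ, Q (fun k => (st P₀ * W' v * R₀) * e k * st (st P₀ * R₀) +
      (st P₀ * R₀) * e k * st (st P₀ * W' v * R₀)) = 0 → v = 0) :
    ∃ c > 0, ∃ r > 0, ∀ P R : 𝔸, ‖P - P₀‖ < r → ‖R - R₀‖ < r → ∀ s s' : Fin n → ℝ,
      (∀ i, |s i| ≤ r) → (∀ i, |s' i| ≤ r) → c * ‖s - s'‖ ≤
      ‖Q (fun k => (st P * W s * R) * e k * st (st P * W s * R)) -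
        Q (fun k => (st P * W s' * R) * e k * st (st P * W s' * R))‖ := by
  let x : (Fin n → ℝ) × 𝔸 × 𝔸 → 𝔸 := fun z => st z.2.1 * W z.1 * z.2.2
  let p1 : (Fin n → ℝ) × 𝔸 × 𝔸 →L[ℝ] (Fin n → ℝ) := ContinuousLinearMap.fst ℝ _ _
  let p2 : (Fin n → ℝ) × 𝔸 × 𝔸 →L[ℝ] 𝔸 :=
    (ContinuousLinearMap.fst ℝ 𝔸 𝔸).comp (ContinuousLinearMap.snd ℝ (Fin n → ℝ) (𝔸 × 𝔸))
  let p3 : (Fin n → ℝ) × 𝔸 × 𝔸 →L[ℝ] 𝔸 :=
    (ContinuousLinearMap.snd ℝ 𝔸 𝔸).comp (ContinuousLinearMap.snd ℝ (Fin n → ℝ) (𝔸 × 𝔸))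
  let z₀ : (Fin n → ℝ) × 𝔸 × 𝔸 := (0, P₀, R₀)
  have h1 : HasStrictFDerivAt (fun z : (Fin n → ℝ) × 𝔸 × 𝔸 => W z.1) (W'.comp p1) z₀ :=
    HasStrictFDerivAt.comp z₀ (f := p1) (g := W) hW p1.hasStrictFDerivAt
  have h2 : HasStrictFDerivAt (fun z : (Fin n → ℝ) × 𝔸 × 𝔸 => st z.2.1) (st.comp p2) z₀ :=
    (st.comp p2).hasStrictFDerivAt
  have h3 : HasStrictFDerivAt (fun z : (Fin n → ℝ) × 𝔸 × 𝔸 => z.2.2) p3 z₀ :=
    p3.hasStrictFDerivAt
  obtain ⟨x', hx, hx'v⟩ : ∃ x' : (Fin n → ℝ) × 𝔸 × 𝔸 →L[ℝ] 𝔸, HasStrictFDerivAt x x' z₀ ∧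
      ∀ v, x' (v, 0, 0) = st P₀ * W' v * R₀ := by
    refine ⟨_, (h2.mul' h1).mul' h3, fun v => ?_⟩
    simp [z₀, p1, p2, p3]
  have hx0 : x z₀ = st P₀ * R₀ := by simp [x, z₀, hW0]
  have hf : ∀ k, ∃ y' : (Fin n → ℝ) × 𝔸 × 𝔸 →L[ℝ] 𝔸,
      HasStrictFDerivAt (fun z => x z * e k * st (x z)) y' z₀ ∧
      ∀ v, y' (v, 0, 0) = (st P₀ * W' v * R₀) * e k * st (st P₀ * R₀) +
      (st P₀ * R₀) * e k * st (st P₀ * W' v * R₀) := by
    intro k
    have h4 := (hx.mul_const' (e k)).mul' (HasStrictFDerivAt.comp z₀ (f := x) (g := st) st.hasStrictFDerivAt hx)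
    refine ⟨_, h4, fun v => ?_⟩
    simp [hx'v, hx0]
    abel
  choose y' hy hyv using hf
  have hΘ : HasStrictFDerivAt (fun z => Q (fun k => x z * e k * st (x z)))
      (Q.comp (ContinuousLinearMap.pi y')) z₀ :=
    HasStrictFDerivAt.comp z₀ (g := Q) Q.hasStrictFDerivAt (hasStrictFDerivAt_pi.mpr hy)
  set Θ := fun z => Q (fun k => x z * e k * st (x z)) with hΘd
  set Θ' := Q.comp (ContinuousLinearMap.pi y') with hΘ'
  -- injectivity
  let L : (Fin n → ℝ) →ₗ[ℝ] G := (Θ'.comp (ContinuousLinearMap.inl ℝ (Fin n → ℝ) (𝔸 × 𝔸))).toLinearMap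
  have hLv : ∀ v, L v = Θ' (v, 0, 0) := fun v => rfl
  have hLker : LinearMap.ker L = ⊥ := by
    rw [LinearMap.ker_eq_bot']
    intro v hv
    apply inj
    rw [← hv, hLv, hΘ']
    simp only [ContinuousLinearMap.comp_apply]
    congr 1
    funext k
    exact (hyv k v).symm
  obtain ⟨K, hK, hKL⟩ := L.exists_antilipschitzWith hLker
  have hKL' : ∀ v, ‖v‖ ≤ K * ‖L v‖ := by
    intro v
    simpa using hKL.le_mul_norm_sub (x := v) (y := 0)
  have hK0 : (0 : ℝ) < K := by exact_mod_cast hK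
  have hlo := (hasStrictFDerivAt_iff_isLittleO.mp hΘ).def (c := 1 / (2 * K)) (by positivity)
  rw [Filter.eventually_iff_exists_mem] at hlo
  obtain ⟨S, hS, hS2⟩ := hlo
  rw [Metric.mem_nhds_iff] at hS
  obtain ⟨ρ, hρ, hρS⟩ := hS
  refine ⟨1 / (2 * K), by positivity, ρ / 2, by positivity, ?_⟩
  intro P R hP hR s s' hs hs'
  have hmem : ∀ t : Fin n → ℝ, (∀ i, |t i| ≤ ρ / 2) → ‖t‖ < ρ := by
    intro t ht
    have h5 : ‖t‖ ≤ ρ / 2 := (pi_norm_le_iff_of_nonneg (by positivity)).mpr ht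
    linarith
  have h6 : (((s, P, R), (s', P, R)) : ((Fin n → ℝ) × 𝔸 × 𝔸) × ((Fin n → ℝ) × 𝔸 × 𝔸)) ∈ S := by
    apply hρS
    rw [Metric.mem_ball, dist_eq_norm]
    simp only [z₀, Prod.mk_sub_mk, Prod.norm_mk, sub_zero]
    have := hmem s hs
    have := hmem s' hs'
    simp only [sup_lt_iff]
    refine ⟨⟨‹_›, ?_, ?_⟩, ‹_›, ?_, ?_⟩ <;> linarith
  have h7 := hS2 _ h6
  simp only at h7
  have h8 : ((s, P, R) : (Fin n → ℝ) × 𝔸 × 𝔸) - (s', P, R) = (s - s', 0, 0) := by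
    simp only [Prod.mk_sub_mk, sub_self]
    rfl
  rw [h8] at h7
  have h9 : ‖((s - s', 0, 0) : (Fin n → ℝ) × 𝔸 × 𝔸)‖ = ‖s - s'‖ := by
    simp [Prod.norm_mk]
  rw [h9, ← hLv] at h7
  have h10 := hKL' (s - s')
  have h11 : ‖L (s - s')‖ ≤ ‖Θ (s, P, R) - Θ (s', P, R)‖ +
      ‖Θ (s, P, R) - Θ (s', P, R) - L (s - s')‖ := by
    calc ‖L (s - s')‖ = ‖(Θ (s, P, R) - Θ (s', P, R)) - (Θ (s, P, R) - Θ (s', P, R) - L (s - s'))‖ := by
          congr 1; abel
      _ ≤ _ := norm_sub_le _ _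
  have h12 : 1 / (2 * (K : ℝ)) * ‖s - s'‖ + 1 / (2 * K) * ‖s - s'‖ ≤ ‖L (s - s')‖ := by
    have : 1 / (2 * (K : ℝ)) * ‖s - s'‖ + 1 / (2 * K) * ‖s - s'‖ = ‖s - s'‖ / K := by
      field_simp
      ring
    rw [this, div_le_iff₀ hK0]
    linarith
  change 1 / (2 * (K : ℝ)) * ‖s - s'‖ ≤ ‖Θ (s, P, R) - Θ (s', P, R)‖
  linarith

/-- the ordered product of the exponentials -/
def W {𝔸 : Type*} [NormedRing 𝔸] [NormedAlgebra ℝ 𝔸] {n : ℕ} (X : Fin n → 𝔸) (s : Fin n → ℝ) : 𝔸 :=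
  ((List.finRange n).reverse.map (fun i => NormedSpace.exp (s i • X i))).prod *
    ((List.finRange n).map (fun i => NormedSpace.exp (s i • X i))).prod

theorem sum_map_apply {𝔸 : Type*} [NormedRing 𝔸] [NormedAlgebra ℝ 𝔸] {n : ℕ}
    (X : Fin n → 𝔸) (l : List (Fin n)) (v : Fin n → ℝ) :
    ((l.map (fun i => (ContinuousLinearMap.proj (R := ℝ) (φ := fun _ : Fin n => ℝ) i).smulRight
        (X i))).sum) v = (l.map (fun i => v i • X i)).sum := by
  induction l with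
  | nil => simp
  | cons i l ih => simp [ih]

theorem key2 {𝔸 G : Type*} [NormedRing 𝔸] [NormedAlgebra ℝ 𝔸] [FiniteDimensional ℝ 𝔸]
    [NormedAddCommGroup G] [NormedSpace ℝ G] {n m : ℕ} (e : Fin m → 𝔸) (st : 𝔸 →L[ℝ] 𝔸)
    (Q : (Fin m → 𝔸) →L[ℝ] G) (P₀ R₀ : 𝔸) (X : Fin n → 𝔸)
    (inj : ∀ v : Fin n → ℝ, Q (fun k => (st P₀ * (∑ i, v i • X i + ∑ i, v i • X i) * R₀) * e k * st (st P₀ * R₀) +
      (st P₀ * R₀) * e k * st (st P₀ * (∑ i, v i • X i + ∑ i, v i • X i) * R₀)) = 0 → v = 0) :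
    ∃ c > 0, ∃ r > 0, ∀ P R : 𝔸, ‖P - P₀‖ < r → ‖R - R₀‖ < r → ∀ s s' : Fin n → ℝ,
      (∀ i, |s i| ≤ r) → (∀ i, |s' i| ≤ r) → c * ‖s - s'‖ ≤
      ‖Q (fun k => (st P * W X s * R) * e k * st (st P * W X s * R)) -
        Q (fun k => (st P * W X s' * R) * e k * st (st P * W X s' * R))‖ := by
  obtain ⟨a1, a2⟩ := expl X (List.finRange n)
  obtain ⟨b1, b2⟩ := expl X (List.finRange n).reverse
  have hW := b2.mul' a2
  refine key (n := n) e st Q P₀ R₀ (W X) _ hW ?_ ?_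
  · change _ * _ = _
    rw [a1, b1, one_mul]
  · intro v hv
    apply inj v
    have h1 : ∑ i, v i • X i = ((List.finRange n).map (fun i => v i • X i)).sum := by
      rw [← List.sum_ofFn, List.ofFn_eq_map]
    have h2 : ((List.finRange n).reverse.map (fun i => v i • X i)).sum =
        ((List.finRange n).map (fun i => v i • X i)).sum := by
      rw [List.map_reverse, List.sum_reverse]
    rw [← hv]
    congr 1
    funext k
    simp only [_root_.add_apply, a1, b1, sum_map_apply, one_smul, MulOpposite.op_one, h1, h2]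

/-- the ordered product of the exponentials of matrices -/
def WM {N n : ℕ} (X : Fin n → Matrix (Fin N) (Fin N) ℂ) (s : Fin n → ℝ) : Matrix (Fin N) (Fin N) ℂ :=
  ((List.finRange n).reverse.map (fun i => NormedSpace.exp (s i • X i))).prod *
    ((List.finRange n).map (fun i => NormedSpace.exp (s i • X i))).prod

/-- conjugate transpose as a real linear map -/
def ct (N : ℕ) : Matrix (Fin N) (Fin N) ℂ →ₗ[ℝ] Matrix (Fin N) (Fin N) ℂ where
  toFun := fun A => Aᴴ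
  map_add' := Matrix.conjTranspose_add
  map_smul' := by
    intro r A
    rw [Matrix.conjTranspose_smul]
    simp

open scoped Matrix.Norms.Operator in
set_option backward.isDefEq.respectTransparency false in
theorem keyM {N n : ℕ} (e : Fin n → Matrix (Fin N) (Fin N) ℂ)
    (Q : (Fin n → Matrix (Fin N) (Fin N) ℂ) →ₗ[ℝ] (Fin n × Fin N × Fin N → ℂ))
    (P₀ R₀ : Matrix (Fin N) (Fin N) ℂ) (X : Fin n → Matrix (Fin N) (Fin N) ℂ)
    (inj : ∀ v : Fin n → ℝ, Q (fun k => (P₀ᴴ * (∑ i, v i • X i + ∑ i, v i • X i) * R₀) * e k * (P₀ᴴ * R₀)ᴴ +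
      (P₀ᴴ * R₀) * e k * (P₀ᴴ * (∑ i, v i • X i + ∑ i, v i • X i) * R₀)ᴴ) = 0 → v = 0) :
    ∃ c > 0, ∃ r > 0, ∃ S1 ∈ 𝓝 P₀, ∃ S2 ∈ 𝓝 R₀, ∀ P ∈ S1, ∀ R ∈ S2, ∀ s s' : Fin n → ℝ,
      (∀ i, |s i| ≤ r) → (∀ i, |s' i| ≤ r) → c * ‖s - s'‖ ≤
      ‖Q (fun k => (Pᴴ * WM X s * R) * e k * (Pᴴ * WM X s * R)ᴴ) -
        Q (fun k => (Pᴴ * WM X s' * R) * e k * (Pᴴ * WM X s' * R)ᴴ)‖ := by
  obtain ⟨c, hc, r, hr, h⟩ := key2 e (LinearMap.toContinuousLinearMap (ct N))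
    (LinearMap.toContinuousLinearMap Q) P₀ R₀ X inj
  refine ⟨c, hc, r, hr, Metric.ball P₀ r, Metric.ball_mem_nhds P₀ hr, Metric.ball R₀ r,
    Metric.ball_mem_nhds R₀ hr, ?_⟩
  intro P hP R hR s s' hs hs'
  rw [Metric.mem_ball, dist_eq_norm] at hP hR
  exact h P R hP hR s s' hs hs'

/-- the projection orthogonal to the span of the `e j` -/
def Q1 {N n : ℕ} (e : Fin n → Matrix (Fin N) (Fin N) ℂ) :
    Matrix (Fin N) (Fin N) ℂ →ₗ[ℂ] Matrix (Fin N) (Fin N) ℂ where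
  toFun := fun Z => Z - ∑ j, (Z * (e j)ᴴ).trace • e j
  map_add' := by
    intro Z Z'
    simp only [Matrix.add_mul, Matrix.trace_add, add_smul, Finset.sum_add_distrib]
    abel
  map_smul' := by
    intro c Z
    simp only [Matrix.smul_mul, Matrix.trace_smul, smul_eq_mul, mul_smul, RingHom.id_apply, smul_sub,
      Finset.smul_sum]

theorem ps_eq {N n : ℕ} (e : Fin n → Matrix (Fin N) (Fin N) ℂ) (x : Matrix (Fin N) (Fin N) ℂ) (k : Fin n) :
    ps e x k = Q1 e (x * e k * xᴴ) := rfl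

/-- all components of the projections -/
def QQ {N n : ℕ} (e : Fin n → Matrix (Fin N) (Fin N) ℂ) :
    (Fin n → Matrix (Fin N) (Fin N) ℂ) →ₗ[ℝ] (Fin n × Fin N × Fin N → ℂ) where
  toFun := fun Z q => Q1 e (Z q.1) q.2.1 q.2.2
  map_add' := by
    intro Z Z'
    funext q
    simp
  map_smul' := by
    intro c Z
    funext q
    have h : (c • Z) q.1 = (c : ℂ) • Z q.1 := rfl
    rw [h, map_smul]
    rfl

/-- the algebra for the injectivity -/
theorem alg {N n : ℕ} (e : Fin n → Matrix (Fin N) (Fin N) ℂ)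
    (he : ∀ j k, (e j * (e k)ᴴ).trace = if j = k then 1 else 0)
    (P R : Matrix (Fin N) (Fin N) ℂ) (hP2 : P * Pᴴ = 1) (hR : Rᴴ * R = 1)
    (hps : ∀ k, ps e (Pᴴ * R) k = 0) (Y : Matrix (Fin N) (Fin N) ℂ) (hY : Yᴴ = -Y)
    (h : ∀ k, Q1 e ((Pᴴ * (Y + Y) * R) * e k * (Pᴴ * R)ᴴ + (Pᴴ * R) * e k * (Pᴴ * (Y + Y) * R)ᴴ) = 0)
    (i : Fin n) : Q1 e ((Pᴴ * Y * P) * e i - e i * (Pᴴ * Y * P)) = 0 := by
  set x := Pᴴ * R with hx
  set Y' := Pᴴ * Y * P with hY'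
  have hxx : xᴴ * x = 1 := by
    rw [hx, Matrix.conjTranspose_mul, Matrix.conjTranspose_conjTranspose]
    calc Rᴴ * P * (Pᴴ * R) = Rᴴ * (P * Pᴴ) * R := by simp only [Matrix.mul_assoc]
      _ = 1 := by rw [hP2, Matrix.mul_one, hR]
  have hY'ct : Y'ᴴ = -Y' := by
    rw [hY']
    simp only [Matrix.conjTranspose_mul, Matrix.conjTranspose_conjTranspose, hY]
    simp only [Matrix.mul_neg, Matrix.neg_mul, Matrix.mul_assoc]
  have h1 : Pᴴ * (Y + Y) * R = (Y' + Y') * x := by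
    have h2 : Pᴴ * Y * R = Y' * x := by
      calc Pᴴ * Y * R = Pᴴ * Y * (P * Pᴴ) * R := by rw [hP2, Matrix.mul_one]
        _ = Y' * x := by rw [hY', hx]; simp only [Matrix.mul_assoc]
    rw [Matrix.mul_add, Matrix.add_mul, h2, Matrix.add_mul]
  let C := cm e x
  have hy : ∀ k, x * e k * xᴴ = ∑ j, C j k • e j := fun k => sub_eq_zero.mp (hps k)
  have hCC : Cᴴ * C = 1 := by
    ext k l
    rw [Matrix.mul_apply]
    have h3 : ∀ j, Cᴴ k j * C j l = (x * e l * xᴴ * (C j k • e j)ᴴ).trace := by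
      intro j
      rw [Matrix.conjTranspose_smul, Matrix.mul_smul, Matrix.trace_smul]
      rfl
    simp only [h3]
    rw [← Matrix.trace_sum, ← Matrix.mul_sum, ← Matrix.conjTranspose_sum, ← hy]
    have h4 : x * e l * xᴴ * (x * e k * xᴴ)ᴴ = x * (e l * (e k)ᴴ * xᴴ) := by
      simp only [Matrix.conjTranspose_mul, Matrix.conjTranspose_conjTranspose]
      calc x * e l * xᴴ * (x * ((e k)ᴴ * xᴴ)) = x * e l * (xᴴ * x) * ((e k)ᴴ * xᴴ) := by
            simp only [Matrix.mul_assoc]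
        _ = _ := by rw [hxx, Matrix.mul_one]; simp only [Matrix.mul_assoc]
    rw [h4, Matrix.trace_mul_comm, Matrix.mul_assoc, hxx, Matrix.mul_one, he, Matrix.one_apply]
    simp only [eq_comm]
  have hCC' : C * Cᴴ = 1 := mul_eq_one_comm.mp hCC
  set b : Fin n → Matrix (Fin N) (Fin N) ℂ := fun j => Q1 e ((Y' + Y') * e j - e j * (Y' + Y')) with hb
  have h5 : ∀ k, ∑ j, C j k • b j = 0 := by
    intro k
    rw [← h k, h1]
    have h6 : (Y' + Y') * x * e k * xᴴ + x * e k * ((Y' + Y') * x)ᴴ =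
        (Y' + Y') * (x * e k * xᴴ) - (x * e k * xᴴ) * (Y' + Y') := by
      rw [Matrix.conjTranspose_mul (Y' + Y') x, Matrix.conjTranspose_add, hY'ct]
      noncomm_ring
    rw [h6, hy, Matrix.mul_sum, Matrix.sum_mul, ← Finset.sum_sub_distrib, map_sum]
    refine Finset.sum_congr rfl fun j _ => ?_
    rw [hb, Matrix.mul_smul, Matrix.smul_mul, ← smul_sub, map_smul]
  have h7 : b i = 0 := by
    have h8 : ∑ k, Cᴴ k i • ∑ j, C j k • b j = b i := by
      simp only [Finset.smul_sum, smul_smul]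
      rw [Finset.sum_comm]
      have h9 : ∀ j, ∑ k, (Cᴴ k i * C j k) • b j = (C * Cᴴ) j i • b j := by
        intro j
        rw [← Finset.sum_smul, Matrix.mul_apply]
        congr 1
        exact Finset.sum_congr rfl fun k _ => mul_comm _ _
      simp only [h9, hCC', Matrix.one_apply, ite_smul, one_smul, zero_smul]
      simp
    rw [← h8]
    simp only [h5, smul_zero, Finset.sum_const_zero]
  have h10 : b i = (2 : ℂ) • Q1 e (Y' * e i - e i * Y') := by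
    rw [hb, ← map_smul]
    rw [two_smul]
    noncomm_ring
  rw [h10] at h7
  exact (smul_eq_zero.mp h7).resolve_left two_ne_zero

/-- the tangent space as a real subspace -/
def VV {N : ℕ} (H : Subgroup (SU N)) (f : LIF H)
    (τ : Matrix (Fin N) (Fin N) ℂ →ₗ[ℝ] Matrix (Fin N) (Fin N) ℂ) :
    Submodule ℝ (Matrix (Fin N) (Fin N) ℂ) where
  carrier := {X | X ∈ lie H ∧ τ X = -X}
  zero_mem' := ⟨f.zero, by simp⟩
  add_mem' := by
    rintro X Y ⟨h1, h2⟩ ⟨h3, h4⟩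
    exact ⟨f.add _ h1 _ h3, by rw [map_add, h2, h4]; abel⟩
  smul_mem' := by
    rintro c X ⟨h1, h2⟩
    exact ⟨f.smul c _ h1, by rw [map_smul, h2, smul_neg]⟩

theorem exX {N n : ℕ} {H : Subgroup (SU N)}
    {τ : Matrix (Fin N) (Fin N) ℂ →ₗ[ℝ] Matrix (Fin N) (Fin N) ℂ}
    {A : Submodule ℝ (Matrix (Fin N) (Fin N) ℂ)} {e : Fin n → Matrix (Fin N) (Fin N) ℂ}
    {δ : Matrix (Fin N) (Fin N) ℂ} (f : LIF H) (hN : NILS H τ A e δ) (P : Matrix (Fin N) (Fin N) ℂ)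
    (hP2 : P * Pᴴ = 1)
    (hZ : ∀ X ∈ lie H, τ X = -X → (∀ k, ∃ a : Fin n → ℂ, (Pᴴ * X * P) * e k - e k * (Pᴴ * X * P) = ∑ l, a l • e l) →
      Pᴴ * X * P ∈ A) :
    ∃ X : Fin n → Matrix (Fin N) (Fin N) ℂ, (∀ i, X i ∈ lie H ∧ τ (X i) = -X i) ∧
      ∀ v : Fin n → ℝ, (∀ k, Q1 e ((Pᴴ * (∑ i, v i • X i) * P) * e k - e k * (Pᴴ * (∑ i, v i • X i) * P)) = 0) →
        v = 0 := by
  let V := VV H f τ
  let B : V →ₗ[ℝ] (Fin n → Matrix (Fin N) (Fin N) ℂ) :=
    { toFun := fun X k => Q1 e ((Pᴴ * X.1 * P) * e k - e k * (Pᴴ * X.1 * P))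
      map_add' := by
        intro X Y
        funext k
        simp only [Submodule.coe_add, Pi.add_apply, ← map_add]
        congr 1
        noncomm_ring
      map_smul' := by
        intro c X
        funext k
        have h : (c • Q1 e ((Pᴴ * X.1 * P) * e k - e k * (Pᴴ * X.1 * P))) =
          (c : ℂ) • Q1 e ((Pᴴ * X.1 * P) * e k - e k * (Pᴴ * X.1 * P)) := rfl
        simp only [Submodule.coe_smul, Pi.smul_apply, RingHom.id_apply]
        rw [h, ← map_smul]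
        congr 1
        simp only [Matrix.mul_smul, Matrix.smul_mul, smul_sub]
        rfl }
  have hker : Module.finrank ℝ (LinearMap.ker B) ≤ Module.finrank ℝ A := by
    let j : LinearMap.ker B →ₗ[ℝ] A :=
      { toFun := fun X => ⟨Pᴴ * X.1.1 * P, by
          refine hZ X.1.1 X.1.2.1 X.1.2.2 fun k => ?_
          have h1 := congrFun (LinearMap.mem_ker.mp X.2) k
          exact ⟨_, sub_eq_zero.mp h1⟩⟩
        map_add' := by
          intro X Y
          apply Subtype.ext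
          simp only [Submodule.coe_add]
          noncomm_ring
        map_smul' := by
          intro c X
          apply Subtype.ext
          simp only [Submodule.coe_smul, RingHom.id_apply, Matrix.mul_smul, Matrix.smul_mul] }
    refine LinearMap.finrank_le_finrank_of_injective (f := j) ?_
    intro X Y h
    have h1 : Pᴴ * X.1.1 * P = Pᴴ * Y.1.1 * P := congrArg Subtype.val h
    have h2 : ∀ Z : Matrix (Fin N) (Fin N) ℂ, P * (Pᴴ * Z * P) * Pᴴ = Z := by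
      intro Z
      calc P * (Pᴴ * Z * P) * Pᴴ = (P * Pᴴ) * Z * (P * Pᴴ) := by simp only [Matrix.mul_assoc]
        _ = Z := by rw [hP2, Matrix.one_mul, Matrix.mul_one]
    apply Subtype.ext
    apply Subtype.ext
    rw [← h2 X.1.1, h1, h2]
  have hdim : n + Module.finrank ℝ A = Module.finrank ℝ V := by
    have h1 := hN.dim
    have h2 : Submodule.span ℝ {X | X ∈ lie H ∧ τ X = -X} = V := Submodule.span_eq V
    rwa [h2] at h1
  have hrk := LinearMap.finrank_range_add_finrank_ker B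
  have hn : n ≤ Module.finrank ℝ (LinearMap.range B) := by omega
  obtain ⟨w, hw⟩ := exists_linearIndependent_of_le_finrank hn
  have hex : ∀ i, ∃ X : V, B X = (w i).1 := fun i => (w i).2
  choose X hX using hex
  refine ⟨fun i => (X i).1, fun i => (X i).2, ?_⟩
  intro v hv
  have h1 : B (∑ i, v i • X i) = 0 := by
    funext k
    have h2 : ((∑ i, v i • X i : V) : Matrix (Fin N) (Fin N) ℂ) = ∑ i, v i • (X i).1 := by
      simp
    change Q1 e ((Pᴴ * (∑ i, v i • X i : V).1 * P) * e k - e k * (Pᴴ * (∑ i, v i • X i : V).1 * P)) = 0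
    rw [h2]
    exact hv k
  rw [map_sum] at h1
  have h3 : ∑ i, v i • w i = 0 := by
    apply Subtype.ext
    rw [← Submodule.coe_subtype, map_sum, map_zero]
    rw [← h1]
    refine Finset.sum_congr rfl fun i _ => ?_
    rw [map_smul, map_smul, hX]
    rfl
  funext i
  exact Fintype.linearIndependent_iff.mp hw v h3 i

theorem coe_list {N : ℕ} {H : Subgroup (SU N)} (l : List H) :
    l.prod.1.1 = (l.map (fun h : H => h.1.1)).prod := by
  induction l with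
  | nil => rfl
  | cons a l ih =>
    rw [List.prod_cons, List.map_cons, List.prod_cons, ← ih]
    rfl

theorem exH_coe {N : ℕ} {H : Subgroup (SU N)} {X : Matrix (Fin N) (Fin N) ℂ} (hX : X ∈ lie H) (t : ℝ) :
    (exH H X t).1.1 = NormedSpace.exp (t • X) := by
  rw [exH, dif_pos (hX.2 t)]
  exact LIEB.coe X hX.1 t

/-- the matrix of `(σ g')ᴴ g'` -/
theorem mat {N n : ℕ} {H K : Subgroup (SU N)} {σ : H →* H}
    {τ : Matrix (Fin N) (Fin N) ℂ →ₗ[ℝ] Matrix (Fin N) (Fin N) ℂ} (f : LIF H) (hS : SymP H K σ τ)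
    (X : Fin n → Matrix (Fin N) (Fin N) ℂ) (hX : ∀ i, X i ∈ lie H ∧ τ (X i) = -X i) (s : Fin n → ℝ) (g : H) :
    (σ (eprod H X s * g)).1.1ᴴ * (eprod H X s * g).1.1 = (σ g).1.1ᴴ * WM X s * g.1.1 := by
  have hE : (eprod H X s).1.1 = ((List.finRange n).map (fun i => NormedSpace.exp (s i • X i))).prod := by
    rw [eprod, coe_list, List.ofFn_eq_map, List.map_map]
    congr 1
    refine List.map_congr_left fun i _ => ?_
    exact exH_coe (hX i).1 (s i)
  have hct : ∀ i, (NormedSpace.exp (s i • (-X i)))ᴴ = NormedSpace.exp (s i • X i) := by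
    intro i
    rw [← Matrix.exp_conjTranspose, Matrix.conjTranspose_smul, Matrix.conjTranspose_neg, (f.su _ (hX i).1).1]
    simp
  have hneg : ∀ i, -X i ∈ lie H := by
    intro i
    have := f.smul (-1) _ (hX i).1
    simpa using this
  have hσ : (σ (eprod H X s)).1.1ᴴ =
      ((List.finRange n).reverse.map (fun i => NormedSpace.exp (s i • X i))).prod := by
    rw [eprod, map_list_prod, coe_list, List.ofFn_eq_map, List.map_map, List.map_map,
      Matrix.conjTranspose_list_prod, List.map_map, List.map_reverse]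
    congr 2
    refine List.map_congr_left fun i _ => ?_
    change (σ (exH H (X i) (s i))).1.1ᴴ = _
    rw [hS.dif _ (hX i).1, (hX i).2, exH_coe (hneg i), hct]
  rw [map_mul]
  change ((σ (eprod H X s)).1.1 * (σ g).1.1)ᴴ * ((eprod H X s).1.1 * g.1.1) = _
  rw [Matrix.conjTranspose_mul, hE, hσ, WM]
  simp only [Matrix.mul_assoc]

end LIPS

open LIPS in
theorem t_LIPS : M_LIPS := by
  intro _ hL hT hZ N H K σ τ A n e δ hc hcn hs hS hM hN g₀ hg₀
  have f := hL N H hc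
  set P := (σ g₀).1.1 with hP
  set R := g₀.1.1 with hR
  have hP1 : Pᴴ * P = 1 := LIEB.ct_mul _
  have hP2 : P * Pᴴ = 1 := LIEB.mul_ct _
  have hR1 : Rᴴ * R = 1 := LIEB.ct_mul _
  obtain ⟨X, hX, hXi⟩ := exX f hN P hP2 (hZ N H K σ τ A n e δ hc hcn hs hS hM hN g₀ hg₀)
  obtain ⟨c, hc0, r, hr, S1, hS1, S2, hS2, h⟩ := keyM e (QQ e) P R X (by
    intro v hv
    apply hXi v
    refine alg e hN.nil.orth P R hP2 hR1 hg₀ _ ?_ ?_
    · have h1 := (VV H f τ).sum_mem (t := Finset.univ) (f := fun i => v i • X i)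
        (fun i _ => (VV H f τ).smul_mem (v i) (hX i))
      exact (f.su _ h1.1).1
    · intro k
      ext i j
      exact congrFun hv (k, i, j))
  refine ⟨X, c, r, {g | (σ g).1.1 ∈ S1 ∧ g.1.1 ∈ S2}, fun i => (hX i).1, hc0, hr, ?_, ?_⟩
  · refine Filter.inter_mem ?_ ?_
    · have h1 : Continuous fun g : H => (σ g).1.1 :=
        continuous_subtype_val.comp (continuous_subtype_val.comp hS.cont)
      exact h1.continuousAt.preimage_mem_nhds hS1
    · have h1 : Continuous fun g : H => g.1.1 := continuous_subtype_val.comp continuous_subtype_val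
      exact h1.continuousAt.preimage_mem_nhds hS2
  · intro g hg s s' hs1 hs2
    have h2 := h _ hg.1 _ hg.2 s s' hs1 hs2
    rw [← mat f hS X hX s g, ← mat f hS X hX s' g] at h2
    exact h2

end

end LGR
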