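import Pool.Agent.LGR.StC
import Pool.Agent.STZ.LOCY

/-!
# The estimate for bounded frequencies, for a group with given characters
-/

namespace LGR

open STZ MeasureTheory Matrix Filter

open scoped ComplexConjugate Matrix Real Topology

noncomputable section

namespace LOCW

theorem card_ge {r : ℕ} {D : RD r} {P : RT r} (hE : RV D P) : r ≤ P.card := by
  choose f hf hf2 using hE.sim
  have hinj : Function.Injective f := by
    intro i j hij
    have h1 := hf2 i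
    rw [hij, hf2 j] at h1
    by_contra hne
    have h2 := congrFun h1 i
    rw [Pi.single_eq_same, Pi.single_eq_of_ne hne] at h2
    exact zero_ne_one h2
  have h1 := Finset.card_le_card_of_injOn (s := Finset.univ) (t := P) f (fun i _ => hf i)
    (hinj.injOn)
  rwa [Finset.card_univ, Fintype.card_fin] at h1

theorem abs_le_sz {r : ℕ} (x : Fin r → ℤ) (i : Fin r) : |(x i : ℝ)| ≤ sz x := by
  have h5 : |(x i : ℝ)| ≤ ∑ j, |(x j : ℝ)| :=
    Finset.single_le_sum (f := fun j => |(x j : ℝ)|) (fun j _ => abs_nonneg _)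
      (Finset.mem_univ i)
  unfold sz
  linarith

theorem form_le {r : ℕ} (q x : Fin r → ℤ) :
    |((q ⬝ᵥ x : ℤ) : ℝ)| ≤ (∑ i, |(q i : ℝ)|) * sz x := by
  unfold dotProduct
  push_cast
  refine (Finset.abs_sum_le_sum_abs _ _).trans ?_
  rw [Finset.sum_mul]
  refine Finset.sum_le_sum fun i _ => ?_
  rw [abs_mul]
  exact mul_le_mul_of_nonneg_left (abs_le_sz x i) (abs_nonneg _)

theorem one_form {r : ℕ} {q : Fin r → ℤ} (h1 : ∀ i, 0 ≤ q i) (h2 : q ≠ 0) :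
    1 ≤ q ⬝ᵥ (1 : Fin r → ℤ) := by
  have h3 : q ⬝ᵥ (1 : Fin r → ℤ) = ∑ i, q i := by
    unfold dotProduct
    simp
  rw [h3]
  obtain ⟨i, hi⟩ := Function.ne_iff.1 h2
  have h4 : q i ≤ ∑ j, q j := Finset.single_le_sum (fun j _ => h1 j) (Finset.mem_univ i)
  have h5 : 1 ≤ q i := by
    have := h1 i
    have h6 : q i ≠ 0 := hi
    omega
  omega

theorem diag {N : ℕ} {H : Subgroup (SU N)} {c : ℝ} {d r : ℕ} {D : RD r} {P : RT r} {ι : Type}
    {a : ι → Fin r → ℕ} {χ : ι → H → ℂ} {Z : Finset (Fin r → ℝ)} {k : ℝ} (hV : RV D P)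
    (hG : GX H c d D P a χ Z k) : ∃ C : ℝ, 0 ≤ C ∧ ∀ i g,
      ‖KK χ i g g‖ ≤ C * sz (wG (a i)) ^ (D.e : ℝ) := by
  set M : ℝ := ∏ p ∈ P, ∑ i, |(p.2 i : ℝ)| with hM
  refine ⟨M ^ 2, by positivity, fun i g => ?_⟩
  have hsz := LOCY.one_le_sz (wG (a i))
  have hT : (1 : ℤ) ≤ ∏ p ∈ P, (p.2 ⬝ᵥ (1 : Fin r → ℤ)) := by
    refine Int.add_one_le_iff.2 (Finset.prod_pos fun p hp => ?_)
    exact lt_of_lt_of_le Int.one_pos (one_form (hV.pos p hp).1 (hV.pos p hp).2)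
  have hT' : (1 : ℝ) ≤ ((∏ p ∈ P, (p.2 ⬝ᵥ (1 : Fin r → ℤ)) : ℤ) : ℝ) := by exact_mod_cast hT
  have h1 : ‖χ i 1‖ ≤ M * sz (wG (a i)) ^ P.card := by
    have h2 := congrArg norm (hG.one i)
    rw [norm_mul] at h2
    have h3 : ‖((∏ p ∈ P, (p.2 ⬝ᵥ (1 : Fin r → ℤ)) : ℤ) : ℂ)‖ =
        ((∏ p ∈ P, (p.2 ⬝ᵥ (1 : Fin r → ℤ)) : ℤ) : ℝ) := by
      rw [Complex.norm_intCast, abs_of_nonneg (by linarith)]
    have h4 : ‖((∏ p ∈ P, (p.2 ⬝ᵥ wG (a i)) : ℤ) : ℂ)‖ =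
        ∏ p ∈ P, |((p.2 ⬝ᵥ wG (a i) : ℤ) : ℝ)| := by
      rw [Complex.norm_intCast, Int.cast_prod, Finset.abs_prod]
    rw [h3, h4] at h2
    have h5 : ∏ p ∈ P, |((p.2 ⬝ᵥ wG (a i) : ℤ) : ℝ)| ≤ M * sz (wG (a i)) ^ P.card := by
      refine (Finset.prod_le_prod (fun _ _ => abs_nonneg _)
        fun p _ => form_le p.2 (wG (a i))).trans (le_of_eq ?_)
      rw [Finset.prod_mul_distrib, Finset.prod_const, hM]
    refine le_trans ?_ h5
    rw [← h2]
    exact le_mul_of_one_le_right (norm_nonneg _) hT'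
  have h6 : KK χ i g g = χ i 1 * χ i 1 := by
    unfold KK
    rw [mul_inv_cancel]
  rw [h6, norm_mul]
  have h7 := mul_le_mul h1 h1 (norm_nonneg _) ((norm_nonneg _).trans h1)
  refine h7.trans (le_of_eq ?_)
  rw [Real.rpow_natCast, hV.card]
  ring

theorem mem_ia {r : ℕ} {ι : Type} {a : ι → Fin r → ℕ} {K : ℕ} {i : ι} (h : i ∈ ia a K) :
    a i ∈ ib r K := by
  unfold ia at h
  split at h
  · rename_i h1
    exact (Set.Finite.mem_toFinset h1).1 h
  · simp at h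

/-- the estimate for a set of frequencies in the box -/
theorem box (hKB : S_KB) (hBERN : S_BERN) (hKERI : S_KERI) (hW : S_WWF)
    (hKWFG : S_KWFG) (hGSUY : S_GSUY) (hTTY : S_TTY) (hLEV : S_LEV) (N : ℕ)
    (H : Subgroup (SU N)) (c : ℝ) (d r : ℕ) (D : RD r) (P : RT r) (ι : Type)
    (a : ι → Fin r → ℕ) (χ : ι → H → ℂ) (Z : Finset (Fin r → ℝ)) (k : ℝ) (hr : 3 ≤ r)
    (hV : RV D P) (hG : GX H c d D P a χ Z k) (μ : Measure H) [IsProbabilityMeasure μ]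
    [μ.IsMulLeftInvariant] [Nonempty ι] (p' : ℝ) (hp' : 2 + 8 / ((D.e : ℝ) + r) < p')
    (hp'' : 8 / (r : ℝ) < p') :
    ∃ (C : ℝ) (K₀ : ℕ), 0 ≤ C ∧ 1 ≤ K₀ ∧ ∀ (J : ℕ) (F : Finset ι)
      (u : ι → H → ℂ),
      (∀ i ∈ F, ∀ j, K₀ * (a i j + 1) ≤ 2 ^ J) → (∀ i ∈ F, Mem μ (KK χ i) (u i)) →
      ∫ t in (0 : ℝ)..1, ∫ g, ‖∑ i ∈ F,
        eu (t * ((-D.Q (wG (a i)) : ℤ) : ℝ)) * u i g‖ ^ p' ∂μ ≤
      C * (((2 ^ J : ℕ) : ℝ) ^ (((r : ℝ) + D.e) * p' / 2 - ((r : ℝ) + D.e) - 2) *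
        (∑ i ∈ F, nsq μ (u i)) ^ (p' / 2)) := by
  have hcomp : CompactSpace H := isCompact_iff_compactSpace.1 hG.closed.isCompact
  have hsc : SecondCountableTopology H :=
    TopologicalSpace.Subtype.secondCountableTopology (H : Set (SU N))
  have hr0 : (0 : ℝ) < r := by
    have : 0 < r := by omega
    exact_mod_cast this
  have hr3 : (3 : ℝ) ≤ r := by exact_mod_cast hr
  have hcard := card_ge hV
  have hcard' : (r : ℝ) ≤ P.card := by exact_mod_cast hcard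
  have he : (D.e : ℝ) = 2 * P.card := by
    rw [hV.card]
    push_cast
    rfl
  have h3 : 3 * (r : ℝ) ≤ D.e + r := by rw [he]; linarith
  have hlt : 8 / ((D.e : ℝ) + r) < 4 / r := by
    rw [div_lt_div_iff₀ (by linarith) hr0]
    nlinarith
  have hlt2 : 8 / (r : ℝ) < 2 + 4 / r := by
    have h4 : 4 / (r : ℝ) < 2 := by
      rw [div_lt_iff₀ hr0]
      linarith
    have h5 : 8 / (r : ℝ) = 4 / r + 4 / r := by ring
    rw [h5]
    linarith
  obtain ⟨p, hp1, hp2⟩ := exists_between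
    (lt_min (max_lt hp' hp'') (max_lt (show 2 + 8 / ((D.e : ℝ) + r) < 2 + 4 / r by linarith) hlt2))
  have hp1a : 2 + 8 / ((D.e : ℝ) + r) < p := lt_of_le_of_lt (le_max_left _ _) hp1
  have hp1b : 8 / (r : ℝ) < p := lt_of_le_of_lt (le_max_right _ _) hp1
  have hpp' : p < p' := lt_of_lt_of_le hp2 (min_le_left _ _)
  have hp3 : p < 2 + 4 / r := lt_of_lt_of_le hp2 (min_le_right _ _)
  have h8 : 0 < 8 / ((D.e : ℝ) + r) := div_pos (by norm_num) (by linarith)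
  have hp20 : 2 < p := by linarith
  have hker := (hKERI H μ ι χ hG.irr).1
  have hK := hKB H μ ι (KK χ) hker
  obtain ⟨C0, hC0, hdiag⟩ := diag hV hG
  obtain ⟨C1, c1, K₀, hC1, hc1, hky⟩ := hKWFG N H c d r D P ι a χ Z k hV hG μ
  have hK1 : 1 ≤ K₀ := by
    by_contra hc
    have h0 : K₀ = 0 := by omega
    subst h0
    obtain ⟨i0⟩ := ‹Nonempty ι›
    have h4 := mem_ia ((hky 0).ge i0 (fun j => by simp)).1
    have h5 := Fintype.mem_piFinset.1 h4 ⟨0, by omega⟩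
    simp at h5
  have hcι : Fintype.card {q // q ∈ P} = P.card := Fintype.card_coe P
  obtain ⟨C2, hC2, hsum⟩ := hGSUY {q // q ∈ P} r c1 p C1 hr hc1 hC1 (by rw [hcι]; omega)
    (by rw [hcι, ← he]; exact hp1a) hp1b hp3
  obtain ⟨C3, hC3, hlev⟩ := hLEV H μ p p' hp20 hpp'
  set L : ℝ := C0 * (1 + r) ^ (D.e : ℝ) with hL
  have hL0 : 0 ≤ L := by positivity
  refine ⟨C3 * (L ^ ((p' - p) / 2) * C2 ^ (p / 2)), K₀, by positivity, hK1, fun J F u hFJ hu => ?_⟩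
  have hn1 : 1 ≤ 2 ^ J := Nat.one_le_two_pow
  set n : ℕ := 2 ^ J with hn
  have hnR : (1 : ℝ) ≤ n := by exact_mod_cast hn1
  have hn0 : (0 : ℝ) < n := by linarith
  have hFn : ∀ i ∈ F, a i ∈ ib r n := by
    intro i hi
    refine Fintype.mem_piFinset.2 fun j => Finset.mem_range.2 ?_
    have h4 := hFJ i hi j
    have h5 : a i j + 1 ≤ K₀ * (a i j + 1) := Nat.le_mul_of_pos_left _ (by omega)
    omega
  have hkJ := hky J
  choose b hb1 hb2 using fun y : {q // q ∈ P} → Fin (J + 1) => hV.avg fun q => J - (y q).val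
  obtain ⟨Γ, hΓ1, hΓ2, hΓ3⟩ := hsum J b (fun y => by rw [hcι]; exact hb2 y)
  set S : ℝ := ∑ i ∈ F, nsq μ (u i) with hS
  have hS0 : 0 ≤ S := Finset.sum_nonneg fun a _ => integral_nonneg fun _ => by positivity
  have hJC : JC fun (t : ℝ) (g : H) =>
      ∑ i ∈ F, eu (t * ((-D.Q (wG (a i)) : ℤ) : ℝ)) * u i g := by
    refine continuous_finsetSum _ fun i hi => ?_
    refine Continuous.mul ?_ ((hu i hi).1.comp continuous_snd)
    exact LOCY.eu_cont.comp (continuous_fst.mul continuous_const)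
  -- the bound for the maximum
  have hsup : ∀ (t : ℝ) (g : H), ‖∑ i ∈ F, eu (t * ((-D.Q (wG (a i)) : ℤ) : ℝ)) * u i g‖ ≤
      √(L * (n : ℝ) ^ ((r : ℝ) + D.e) * S) := by
    intro t g
    refine Real.le_sqrt_of_sq_le ?_
    have h1 := LOCY.sup_bound hBERN μ hker hK F
      (fun i g => eu (t * ((-D.Q (wG (a i)) : ℤ) : ℝ)) * u i g)
      (fun i hi => LOCY.mem_mul μ (hu i hi) _) (L * (n : ℝ) ^ ((r : ℝ) + D.e)) ?_ g
    · simp only [LOCY.nsq_eu] at h1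
      exact h1
    · intro g
      have h2 : ∀ i ∈ F, ‖KK χ i g g‖ ≤ C0 * ((1 + r) * n : ℝ) ^ (D.e : ℝ) := by
        intro i hi
        refine (hdiag i g).trans (mul_le_mul_of_nonneg_left ?_ hC0)
        exact Real.rpow_le_rpow (by linarith [LOCY.one_le_sz (wG (a i))])
          (LOCY.sz_le hn1 (a i) (hFn i hi)) (Nat.cast_nonneg _)
      refine (Finset.sum_le_sum h2).trans ?_
      have h3 : (ib r n).card = n ^ r := by
        unfold ib
        rw [Fintype.card_piFinset]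
        simp
      have h4 : F.card ≤ n ^ r := by
        rw [← h3]
        exact Finset.card_le_card_of_injOn a hFn hG.inj.injOn
      have h5 : (F.card : ℝ) ≤ (n : ℝ) ^ r := by exact_mod_cast h4
      rw [Finset.sum_const, nsmul_eq_mul]
      refine (mul_le_mul_of_nonneg_right h5 (by positivity)).trans (le_of_eq ?_)
      rw [Real.mul_rpow (by positivity) hn0.le,
        Real.rpow_add hn0, Real.rpow_natCast (n : ℝ) r, hL]
      ring
  -- the restricted weak type estimate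
  have hTT := hTTY H μ ι (KK χ) hker (fun i => -D.Q (wG (a i))) p hp20 F
    (ia a (K₀ * 2 ^ J)) (fun i => et P (2 ^ J) (wG (a i))) ({q // q ∈ P} → Fin (J + 1))
    (fun y t g g' => kw D P a χ J (K₀ * 2 ^ J) y t g g')
    (fun y t => C1 * (((2 ^ J : ℕ) : ℝ) ^ Fintype.card {q // q ∈ P} *
      WW (2 ^ J) c1 t ^ ((r : ℝ) / 2) * ∏ q, (2 : ℝ) ^ (y q).val))
    (fun y t => C1 * ∏ i, (WW (2 ^ (y (b y i)).val) c1 t ^ ((1 : ℝ) / 2) / 2 ^ (y (b y i)).val)) Γ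
    (fun i hi => (hkJ.ge i (hFJ i hi)).1) (fun i _ => hkJ.nn i)
    (fun i hi => (hkJ.ge i (hFJ i hi)).2) hkJ.sum hkJ.cont
    (fun y => LOCY.nice_A hW _ _ _ _ _ _ hC1 (Finset.prod_nonneg fun _ _ => by positivity))
    (fun y => LOCY.nice_E hW _ _ _ hC1) (fun y t g g' => by rw [hcι]; exact hkJ.sup y t g g')
    (fun y t u v hu hv => hkJ.opb y t (b y) (hb1 y) u v hu hv) hΓ1 u hu
  have hG1 := hlev (fun t g => ∑ i ∈ F, eu (t * ((-D.Q (wG (a i)) : ℤ) : ℝ)) * u i g)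
    (C2 * (n : ℝ) ^ ((((r : ℝ) + D.e) * (p / 2 - 1) - 2) * (2 / p)) * S)
    (√(L * (n : ℝ) ^ ((r : ℝ) + D.e) * S)) hJC (by positivity) (Real.sqrt_nonneg _) hsup ?_
  · refine hG1.trans (le_of_eq ?_)
    rw [LOCY.powers (n : ℝ) ((r : ℝ) + D.e) (p / 2 - 1) p p' L C2 S hn0 (by linarith) rfl hL0 hC2
      hS0 (by linarith)]
    ring
  · intro G hGc hGb
    refine (hTT G hGc hGb).trans ?_
    have hm : 0 ≤ (∫ t in (0 : ℝ)..1, ∫ x, ‖G t x‖ ∂μ) ^ (2 - 2 / p) := by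
      refine Real.rpow_nonneg ?_ _
      exact intervalIntegral.integral_nonneg zero_le_one fun t _ =>
        integral_nonneg fun _ => norm_nonneg _
    refine mul_le_mul_of_nonneg_right ?_ hm
    refine mul_le_mul_of_nonneg_right ?_ hS0
    refine hΓ3.trans (le_of_eq ?_)
    rw [hcι, ← he, add_comm (D.e : ℝ) r]

/-- all the frequencies up to the power of `2` -/
theorem main (hKB : S_KB) (hBERN : S_BERN) (hKERI : S_KERI) (hW : S_WWF)
    (hKWFG : S_KWFG) (hGSUY : S_GSUY) (hTTY : S_TTY) (hLEV : S_LEV) : S_LOCW := by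
  intro N H c d r D P ι a χ Z k hr hV hG μ _ _ p hp
  have hpa : 2 + 8 / ((D.e : ℝ) + r) < p := lt_of_le_of_lt (le_max_left _ _) hp
  have hpb : 8 / (r : ℝ) < p := lt_of_le_of_lt (le_max_right _ _) hp
  have hr0 : (0 : ℝ) < r := by
    have : 0 < r := by omega
    exact_mod_cast this
  have hde : 0 ≤ (D.e : ℝ) := Nat.cast_nonneg _
  have h8 : 0 < 8 / ((D.e : ℝ) + r) := div_pos (by norm_num) (by linarith)
  have hp0 : 0 < p := by linarith
  have hemp : ∀ u : ι → H → ℂ, nq μ p (uw (fun i => wG (a i)) (fun l => -D.Q l) ∅ u) = 0 := by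
    intro u
    unfold nq uw
    simp [Real.zero_rpow hp0.ne']
    rw [Real.zero_rpow (inv_ne_zero hp0.ne')]
  rcases isEmpty_or_nonempty ι with hι | hι
  · refine ⟨0, le_refl _, fun F u hu N₀ hN => ?_⟩
    have hF : F = ∅ := Finset.eq_empty_of_isEmpty F
    subst hF
    rw [hemp]
    simp
  obtain ⟨C, K₀, hC, hK1, hbox⟩ := box hKB hBERN hKERI hW hKWFG hGSUY hTTY hLEV N H c d r D
    P ι a χ Z k hr hV hG μ p hpa hpb
  have hK1' : (1 : ℝ) ≤ K₀ := by exact_mod_cast hK1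
  set s : ℝ := ((r : ℝ) + D.e) / 2 - ((r : ℝ) + D.e + 2) / p with hs
  have hs0 : 0 ≤ s := by
    have h2 : 8 < (r + D.e) * (p - 2) := by
      have h3 : 8 / ((D.e : ℝ) + r) < p - 2 := by linarith
      rw [div_lt_iff₀ (by linarith)] at h3
      linarith
    have h5 : ((r : ℝ) + D.e + 2) / p ≤ ((r : ℝ) + D.e) / 2 := by
      rw [div_le_div_iff₀ hp0 (by norm_num)]
      linarith
    rw [hs]
    linarith
  refine ⟨C ^ (1 / p) * (2 * K₀) ^ s, by positivity, fun F u hu N₀ hN => ?_⟩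
  rcases F.eq_empty_or_nonempty with rfl | hne
  · rw [hemp]
    simp
  obtain ⟨i0, hi0⟩ := hne
  have hN1 : 1 ≤ N₀ := (LOCY.one_le_sz _).trans (hN i0 hi0)
  have hKN : 1 ≤ (K₀ : ℝ) * N₀ := by nlinarith
  obtain ⟨j, hj1, hj2⟩ := exists_nat_pow_near hKN (one_lt_two : (1 : ℝ) < 2)
  have hsub : ∀ i ∈ F, ∀ m, K₀ * (a i m + 1) ≤ 2 ^ (j + 1) := by
    intro i hi m
    have h1 := (LOCY.le_sz (a i) m).trans (hN i hi)
    have h2 : ((K₀ * (a i m + 1) : ℕ) : ℝ) ≤ ((2 ^ (j + 1) : ℕ) : ℝ) := by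
      push_cast
      have h3 : (K₀ : ℝ) * ((a i m : ℝ) + 1) ≤ K₀ * N₀ :=
        mul_le_mul_of_nonneg_left (by linarith) (by linarith)
      linarith
    exact_mod_cast h2
  have hB := hbox (j + 1) F u hsub hu
  have e1 : ∀ (t : ℝ) (g : H), ∑ i ∈ F,
      eu (t * ((-D.Q (wG (a i)) : ℤ) : ℝ)) * u i g =
        uw (fun i => wG (a i)) (fun l => -D.Q l) F u t g := fun t g => rfl
  simp only [e1] at hB
  set S : ℝ := ∑ i ∈ F, nsq μ (u i) with hS
  have hS0 : 0 ≤ S := Finset.sum_nonneg fun a _ => integral_nonneg fun _ => by positivity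
  set n : ℝ := ((2 ^ (j + 1) : ℕ) : ℝ) with hn
  have hn0 : 0 < n := by
    rw [hn]
    positivity
  have hn2 : n ≤ 2 * K₀ * N₀ := by
    rw [hn]
    push_cast
    rw [pow_succ]
    linarith
  have hI0 : 0 ≤ ∫ t in (0 : ℝ)..1, ∫ g,
      ‖uw (fun i => wG (a i)) (fun l => -D.Q l) F u t g‖ ^ p ∂μ :=
    intervalIntegral.integral_nonneg zero_le_one fun t _ =>
      integral_nonneg fun _ => by positivity
  unfold nq
  have h1 := Real.rpow_le_rpow hI0 hB (show 0 ≤ 1 / p by positivity)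
  refine h1.trans ?_
  have hnp : 0 ≤ n ^ (((r : ℝ) + D.e) * p / 2 - ((r : ℝ) + D.e) - 2) := by positivity
  rw [Real.mul_rpow hC (by positivity), Real.mul_rpow hnp (by positivity), ← Real.rpow_mul hn0.le,
    ← Real.rpow_mul hS0]
  have e3 : (((r : ℝ) + D.e) * p / 2 - ((r : ℝ) + D.e) - 2) * (1 / p) = s := by
    rw [hs]
    field_simp
    ring
  have e4 : p / 2 * (1 / p) = 1 / 2 := by
    field_simp
  rw [e3, e4, ← Real.sqrt_eq_rpow]
  have h2 : n ^ s ≤ (2 * K₀) ^ s * N₀ ^ s := by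
    rw [← Real.mul_rpow (by positivity) (by linarith)]
    exact Real.rpow_le_rpow hn0.le hn2 hs0
  calc C ^ (1 / p) * (n ^ s * √S) ≤ C ^ (1 / p) * ((2 * K₀) ^ s * N₀ ^ s * √S) := by
        refine mul_le_mul_of_nonneg_left ?_ (by positivity)
        exact mul_le_mul_of_nonneg_right h2 (Real.sqrt_nonneg _)
    _ = _ := by ring

end LOCW

theorem t_LOCW : M_LOCW := fun h1 h2 h3 h4 h5 h6 h7 h8 =>
  LOCW.main h1 h2 h3 h4 h5 h6 h7 h8

end

end LGR
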