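import Pool.Agent.LGR.StV

/-!
# LGR, module LOWM: the lower bound for symmetric spaces
-/

namespace LGR

open STZ MeasureTheory Matrix Filter

open scoped ComplexConjugate Matrix Real Topology ENNReal

noncomputable section

namespace LOWM

lemma ent {N : ℕ} (x : SU N) (i j : Fin N) : ‖x.1 i j‖ ≤ 1 :=
  entry_norm_bound_of_unitary (Matrix.mem_specialUnitaryGroup_iff.1 x.2).1 i j

/-- the quotient -/
lemma quo {N : ℕ} (y x : SU N) : (y⁻¹ * x).1 = y.1ᴴ * x.1 := rfl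

lemma cdc {N n : ℕ} (e : Fin n → Matrix (Fin N) (Fin N) ℂ) (j k : Fin n) :
    ContDiff ℝ 1 (fun x : Fin N → Fin N → ℂ => cm e (Matrix.of x) j k) := by
  have h1 : ∀ i c, ContDiff ℝ 1 (fun x : Fin N → Fin N → ℂ => x i c) := fun i c =>
    contDiff_apply_apply (𝕜 := ℝ) (E := ℂ) i c
  have h2 : ∀ i c, ContDiff ℝ 1 (fun x : Fin N → Fin N → ℂ => star (x i c)) := fun i c =>
    Complex.conjCLE.contDiff.comp (h1 i c)
  simp only [cm, Matrix.trace, Matrix.diag_apply, Matrix.mul_apply, conjTranspose_apply, Matrix.of_apply]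
  refine ContDiff.sum fun i _ => ContDiff.sum fun a _ => ContDiff.mul ?_ contDiff_const
  exact ContDiff.sum fun b _ => ContDiff.mul
    (ContDiff.sum fun c _ => (h1 _ _).mul contDiff_const) (h2 _ _)

lemma cdd {N n : ℕ} (e : Fin n → Matrix (Fin N) (Fin N) ℂ) :
    ContDiff ℝ 1 (fun x : Fin N → Fin N → ℂ => (cm e (Matrix.of x)).det) := by
  simp only [Matrix.det_apply']
  refine ContDiff.sum fun s _ => contDiff_const.mul ?_
  exact contDiff_prod fun i _ => cdc e _ _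

/-- the determinant is Lipschitz at `1` on the special unitary matrices -/
lemma lip {N n : ℕ} (e : Fin n → Matrix (Fin N) (Fin N) ℂ) (h1 : cm e 1 = 1) :
    ∃ L : ℝ, 0 ≤ L ∧ ∀ x : SU N, ‖(cm e x.1).det - 1‖ ≤
      L * ∑ i, ∑ j, ‖x.1 i j - (1 : Matrix (Fin N) (Fin N) ℂ) i j‖ := by
  obtain ⟨L, hL⟩ := (cdd e).contDiffOn.exists_lipschitzOnWith one_ne_zero
    (convex_closedBall (0 : Fin N → Fin N → ℂ) 1) (isCompact_closedBall _ _)
  have hm : ∀ x : SU N, (fun i j => x.1 i j : Fin N → Fin N → ℂ) ∈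
      Metric.closedBall (0 : Fin N → Fin N → ℂ) 1 := by
    intro x
    rw [mem_closedBall_zero_iff]
    exact (pi_norm_le_iff_of_nonneg zero_le_one).2 fun i =>
      (pi_norm_le_iff_of_nonneg zero_le_one).2 fun j => ent x i j
  refine ⟨L, L.2, fun x => ?_⟩
  have h2 := hL.dist_le_mul _ (hm x) _ (hm 1)
  have h3 : (cm e (Matrix.of (fun i j => (1 : SU N).1 i j))).det = 1 := by
    have : (Matrix.of (fun i j => (1 : SU N).1 i j)) = (1 : Matrix (Fin N) (Fin N) ℂ) := rfl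
    rw [this, h1, det_one]
  have h4 : (Matrix.of (fun i j => x.1 i j)) = x.1 := rfl
  simp only [h3, h4] at h2
  rw [dist_eq_norm] at h2
  refine h2.trans (mul_le_mul_of_nonneg_left ?_ L.2)
  rw [dist_eq_norm]
  have h5 : 0 ≤ ∑ i, ∑ j, ‖x.1 i j - (1 : Matrix (Fin N) (Fin N) ℂ) i j‖ := by positivity
  refine (pi_norm_le_iff_of_nonneg h5).2 fun i => (pi_norm_le_iff_of_nonneg h5).2 fun j => ?_
  have h6 : ‖x.1 i j - (1 : Matrix (Fin N) (Fin N) ℂ) i j‖ ≤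
      ∑ j, ‖x.1 i j - (1 : Matrix (Fin N) (Fin N) ℂ) i j‖ :=
    Finset.single_le_sum (f := fun j => ‖x.1 i j - (1 : Matrix (Fin N) (Fin N) ℂ) i j‖)
      (fun j _ => norm_nonneg _) (Finset.mem_univ j)
  have h7 : ∑ j, ‖x.1 i j - (1 : Matrix (Fin N) (Fin N) ℂ) i j‖ ≤
      ∑ i, ∑ j, ‖x.1 i j - (1 : Matrix (Fin N) (Fin N) ℂ) i j‖ :=
    Finset.single_le_sum (f := fun i => ∑ j, ‖x.1 i j - (1 : Matrix (Fin N) (Fin N) ℂ) i j‖)
      (fun i _ => Finset.sum_nonneg fun j _ => norm_nonneg _) (Finset.mem_univ i)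
  exact h6.trans h7

/-- the quotient is near `1` if both are -/
lemma quob {N : ℕ} (y x : SU N) : ∑ i, ∑ j, ‖(y⁻¹ * x).1 i j - (1 : Matrix (Fin N) (Fin N) ℂ) i j‖ ≤
    N * N * (∑ i, ∑ j, ‖x.1 i j - (1 : Matrix (Fin N) (Fin N) ℂ) i j‖ +
      ∑ i, ∑ j, ‖y.1 i j - (1 : Matrix (Fin N) (Fin N) ℂ) i j‖) := by
  set S1 := ∑ i, ∑ j, ‖x.1 i j - (1 : Matrix (Fin N) (Fin N) ℂ) i j‖ with hS1
  set S2 := ∑ i, ∑ j, ‖y.1 i j - (1 : Matrix (Fin N) (Fin N) ℂ) i j‖ with hS2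
  have hy : y.1ᴴ * y.1 = 1 := (Matrix.mem_unitaryGroup_iff'.1
    (Matrix.mem_specialUnitaryGroup_iff.1 y.2).1)
  have h1 : ∀ i j, ‖(y⁻¹ * x).1 i j - (1 : Matrix (Fin N) (Fin N) ℂ) i j‖ ≤ S1 + S2 := by
    intro i j
    have e1 : (y⁻¹ * x).1 i j - (1 : Matrix (Fin N) (Fin N) ℂ) i j =
        ∑ k, star (y.1 k i) * ((x.1 k j - (1 : Matrix (Fin N) (Fin N) ℂ) k j) -
          (y.1 k j - (1 : Matrix (Fin N) (Fin N) ℂ) k j)) := by
      rw [quo, ← hy, Matrix.mul_apply, Matrix.mul_apply, ← Finset.sum_sub_distrib]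
      refine Finset.sum_congr rfl fun k _ => ?_
      rw [conjTranspose_apply]
      ring
    rw [e1]
    have h2 : ∀ k, ‖star (y.1 k i) * ((x.1 k j - (1 : Matrix (Fin N) (Fin N) ℂ) k j) -
          (y.1 k j - (1 : Matrix (Fin N) (Fin N) ℂ) k j))‖ ≤
        ∑ j, ‖x.1 k j - (1 : Matrix (Fin N) (Fin N) ℂ) k j‖ +
          ∑ j, ‖y.1 k j - (1 : Matrix (Fin N) (Fin N) ℂ) k j‖ := by
      intro k
      rw [norm_mul, norm_star]
      have a1 : ‖(x.1 k j - (1 : Matrix (Fin N) (Fin N) ℂ) k j) -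
          (y.1 k j - (1 : Matrix (Fin N) (Fin N) ℂ) k j)‖ ≤
          ‖x.1 k j - (1 : Matrix (Fin N) (Fin N) ℂ) k j‖ +
          ‖y.1 k j - (1 : Matrix (Fin N) (Fin N) ℂ) k j‖ := norm_sub_le _ _
      have a2 : ‖x.1 k j - (1 : Matrix (Fin N) (Fin N) ℂ) k j‖ ≤
          ∑ j, ‖x.1 k j - (1 : Matrix (Fin N) (Fin N) ℂ) k j‖ :=
        Finset.single_le_sum (f := fun j => ‖x.1 k j - (1 : Matrix (Fin N) (Fin N) ℂ) k j‖)
          (fun j _ => norm_nonneg _) (Finset.mem_univ j)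
      have a3 : ‖y.1 k j - (1 : Matrix (Fin N) (Fin N) ℂ) k j‖ ≤
          ∑ j, ‖y.1 k j - (1 : Matrix (Fin N) (Fin N) ℂ) k j‖ :=
        Finset.single_le_sum (f := fun j => ‖y.1 k j - (1 : Matrix (Fin N) (Fin N) ℂ) k j‖)
          (fun j _ => norm_nonneg _) (Finset.mem_univ j)
      have a4 := ent y k i
      have a5 := norm_nonneg ((x.1 k j - (1 : Matrix (Fin N) (Fin N) ℂ) k j) -
          (y.1 k j - (1 : Matrix (Fin N) (Fin N) ℂ) k j))
      nlinarith [norm_nonneg (y.1 k i)]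
    refine (norm_sum_le _ _).trans ((Finset.sum_le_sum fun k _ => h2 k).trans (le_of_eq ?_))
    rw [Finset.sum_add_distrib]
  calc ∑ i, ∑ j, ‖(y⁻¹ * x).1 i j - (1 : Matrix (Fin N) (Fin N) ℂ) i j‖
      ≤ ∑ _i : Fin N, ∑ _j : Fin N, (S1 + S2) :=
        Finset.sum_le_sum fun i _ => Finset.sum_le_sum fun j _ => h1 i j
    _ = N * N * (S1 + S2) := by
        simp only [Finset.sum_const, Finset.card_univ, Fintype.card_fin, nsmul_eq_mul]
        ring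

/-- the inequality for one eigenfunction -/
lemma str {N : ℕ} {H K : Subgroup (SU N)} {𝒜 : Subalgebra ℂ (H → ℂ)} (sm : SMA H 𝒜) {D d : ℕ}
    {μ : Measure H} {p a b C : ℝ} (h : StrIneqM H K D d μ p a b C)
    (X : Fin D → Matrix (Fin N) (Fin N) ℂ)
    (hX : KFrame H X) (κ : ℝ) (F : H → ℂ) (hF : EigH X κ F)
    (hK : ∀ g k : H, k.1 ∈ K → F (g * k) = F g) :
    ENNReal.ofReal (b - a) * ∫⁻ g, ‖F g‖ₑ ^ p ∂μ ≤
      ENNReal.ofReal (C * ((1 + κ) ^ ((d : ℝ) / 2 - ((d : ℝ) + 2) / p) * ∫ g, ‖F g‖ ^ 2 ∂μ) ^ (p / 2)) := by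
  have hd0 : ∀ Y : Matrix (Fin N) (Fin N) ℂ, dH Y (fun _ : H => (0 : ℂ)) = fun _ => 0 := by
    intro Y
    funext g
    unfold dH
    simp
  have hz : ∀ κ' : ℝ, EigH X κ' (fun _ : H => (0 : ℂ)) := by
    intro κ'
    refine ⟨sm.c2 _ 𝒜.zero_mem, fun g => ?_⟩
    unfold lapH
    rw [mul_zero]
    refine Finset.sum_eq_zero fun i _ => ?_
    rw [hd0, hd0]
  have h1 := h X hX (fun j => κ + j) (fun j g => if j = 0 then F g else 0)
    (fun i j hij => by simpa using hij)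
    (fun j => by
      rcases Nat.eq_zero_or_pos j with h0 | h0
      · subst h0
        simpa using hF
      · have h2 := hz (κ + j)
        simpa [h0.ne'] using h2)
    (fun j g k hk => by
      rcases Nat.eq_zero_or_pos j with h0 | h0
      · subst h0
        simpa using hK g k hk
      · simp [h0.ne'])
    (by
      apply summable_of_ne_finset_zero (s := {0})
      intro j hj
      have hj' : j ≠ 0 := by simpa using hj
      simp [hj'])
    (fun t g => Complex.exp (-(Complex.I * (κ : ℂ) * t)) * F g)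
    (fun t => (continuous_const.mul hF.1.1.cont).aestronglyMeasurable)
    (fun t => by
      refine tendsto_const_nhds.congr' ?_
      filter_upwards [eventually_ge_atTop 1] with M hM
      have e : (fun g : H => Complex.exp (-(Complex.I * (κ : ℂ) * t)) * F g -
          ∑ j ∈ Finset.range M, Complex.exp (-(Complex.I * ((κ + (j : ℝ) : ℝ) : ℂ) * t)) *
            (if j = 0 then F g else 0)) = fun _ => 0 := by
        funext g
        rw [Finset.sum_eq_single 0 (fun j _ hj => by simp [hj])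
          (fun h => absurd (Finset.mem_range.2 hM) h)]
        simp
      simp only [e]
      simp)
  have h2 : ∑' j : ℕ, (1 + (κ + (j : ℝ))) ^ ((d : ℝ) / 2 - ((d : ℝ) + 2) / p) *
      ∫ g, ‖(if j = 0 then F g else 0 : ℂ)‖ ^ 2 ∂μ =
      (1 + κ) ^ ((d : ℝ) / 2 - ((d : ℝ) + 2) / p) * ∫ g, ‖F g‖ ^ 2 ∂μ := by
    rw [tsum_eq_single 0 (fun j hj => by simp [hj])]
    simp
  rw [h2] at h1
  refine le_trans (le_of_eq ?_) h1
  have h3 : ∀ t : ℝ, ∀ g : H, ‖Complex.exp (-(Complex.I * (κ : ℂ) * t)) * F g‖ₑ = ‖F g‖ₑ := by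
    intro t g
    have h4 : ‖Complex.exp (-(Complex.I * (κ : ℂ) * t)) * F g‖ = ‖F g‖ := by
      have h0 : (-(Complex.I * (κ : ℂ) * t)) = ((-(κ * t) : ℝ) : ℂ) * Complex.I := by
        push_cast
        ring
      rw [norm_mul, h0, Complex.norm_exp_ofReal_mul_I, one_mul]
    rw [← ofReal_norm, ← ofReal_norm, h4]
  simp only [h3]
  rw [setLIntegral_const, Real.volume_Icc, mul_comm]

/-- powers of the eigenvalues -/
lemma pw (θ u : ℝ) (hu : 0 < u) : ∃ B : ℝ, 0 ≤ B ∧ ∀ m : ℕ, 1 ≤ m →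
    (1 + (((m : ℝ) * 2) ^ 2 + (m : ℝ) * 2) * u) ^ θ ≤ B * (m : ℝ) ^ (2 * θ) := by
  have h0 : ∀ m : ℕ, ((m : ℝ) ^ 2) ^ θ = (m : ℝ) ^ (2 * θ) := by
    intro m
    rw [← Real.rpow_natCast, ← Real.rpow_mul (Nat.cast_nonneg m)]
    norm_num
  rcases le_total 0 θ with hθ | hθ
  · refine ⟨(1 + 6 * u) ^ θ, by positivity, fun m hm => ?_⟩
    have hm' : (1 : ℝ) ≤ m := by exact_mod_cast hm
    rw [← h0, ← Real.mul_rpow (by positivity) (by positivity)]
    refine Real.rpow_le_rpow (by positivity) ?_ hθ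
    nlinarith [mul_nonneg hu.le (mul_nonneg (sub_nonneg.2 hm') (sub_nonneg.2 hm')),
      mul_nonneg hu.le (sub_nonneg.2 hm')]
  · refine ⟨(4 * u) ^ θ, by positivity, fun m hm => ?_⟩
    have hm' : (1 : ℝ) ≤ m := by exact_mod_cast hm
    rw [← h0, ← Real.mul_rpow (by positivity) (by positivity)]
    refine Real.rpow_le_rpow_of_nonpos (by positivity) ?_ hθ
    nlinarith [mul_nonneg hu.le (by positivity : (0 : ℝ) ≤ m)]

/-- the exponent -/
lemma expo {n r d : ℕ} {p : ℝ} (hd : n + r = d) (hn : 0 < n) (hp2 : 2 < p)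
    (hp : p < 2 + 8 / ((d : ℝ) + r)) :
    2 * (((d : ℝ) / 2 - ((d : ℝ) + 2) / p) * (p / 2)) < (n : ℝ) / 2 * (p / 2 - 1) := by
  have hd' : (n : ℝ) + r = d := by exact_mod_cast hd
  have hn' : (0 : ℝ) < n := by exact_mod_cast hn
  have hr' : (0 : ℝ) ≤ r := Nat.cast_nonneg r
  have hp0 : 0 < p := by linarith
  have hD : 0 < (d : ℝ) + r := by linarith
  have h1 : (p - 2) * ((d : ℝ) + r) < 8 := by
    have : p - 2 < 8 / ((d : ℝ) + r) := by linarith
    rwa [lt_div_iff₀ hD] at this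
  have h2 : 2 * (((d : ℝ) / 2 - ((d : ℝ) + 2) / p) * (p / 2)) = d * (p / 2) - (d + 2) := by
    field_simp
  rw [h2]
  nlinarith

/-- the trace of the square is positive -/
lemma trp {N : ℕ} {H : Subgroup (SU N)} {n : ℕ} {e : Fin n → Matrix (Fin N) (Fin N) ℂ}
    {δ : Matrix (Fin N) (Fin N) ℂ} (h : NIL H e δ) (hn : 0 < n) : 0 < (δ * δ).trace.re := by
  have hH : δᴴ = δ := by
    rw [h.del, conjTranspose_sum]
    refine Finset.sum_congr rfl fun k _ => ?_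
    rw [conjTranspose_sub, conjTranspose_mul, conjTranspose_mul, conjTranspose_conjTranspose]
  have h1 : (δ * δ).trace = ((∑ i, ∑ j, ‖δ i j‖ ^ 2 : ℝ) : ℂ) := by
    conv_lhs => rw [show δ * δ = δ * δᴴ by rw [hH]]
    simp only [Matrix.trace, Matrix.diag_apply, Matrix.mul_apply, conjTranspose_apply]
    push_cast
    refine Finset.sum_congr rfl fun i _ => Finset.sum_congr rfl fun j _ => ?_
    exact Complex.mul_conj' _
  rw [h1, Complex.ofReal_re]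
  by_contra h2
  have h3 : ∑ i, ∑ j, ‖δ i j‖ ^ 2 = 0 := le_antisymm (not_lt.1 h2) (by positivity)
  have h4 : δ = 0 := by
    ext i j
    have h5 := (Finset.sum_eq_zero_iff_of_nonneg fun i _ => by positivity).1 h3 i (Finset.mem_univ i)
    have h6 := (Finset.sum_eq_zero_iff_of_nonneg fun j _ => by positivity).1 h5 j (Finset.mem_univ j)
    simpa using h6
  obtain ⟨c, hc, hk⟩ := h.eig ⟨0, hn⟩
  rw [h4, zero_mul, mul_zero, sub_zero] at hk
  have h7 : e ⟨0, hn⟩ = 0 := by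
    have hc' : (c : ℂ) ≠ 0 := by exact_mod_cast hc.ne'
    exact (smul_eq_zero.1 hk.symm).resolve_left hc'
  have h8 := h.orth ⟨0, hn⟩ ⟨0, hn⟩
  rw [h7] at h8
  simp at h8

/-- a term of a sum -/
lemma sle {n N : ℕ} (F : Fin n → Matrix (Fin N) (Fin N) ℂ) (k : Fin n) (i j : Fin N) :
    ‖F k i j‖ ^ 2 ≤ ∑ k, ∑ i, ∑ j, ‖F k i j‖ ^ 2 := by
  have a1 : ‖F k i j‖ ^ 2 ≤ ∑ j, ‖F k i j‖ ^ 2 :=
    Finset.single_le_sum (f := fun j => ‖F k i j‖ ^ 2) (fun j _ => sq_nonneg _) (Finset.mem_univ _)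
  have a2 : ∑ j, ‖F k i j‖ ^ 2 ≤ ∑ i, ∑ j, ‖F k i j‖ ^ 2 :=
    Finset.single_le_sum (f := fun i => ∑ j, ‖F k i j‖ ^ 2)
      (fun i _ => Finset.sum_nonneg fun j _ => sq_nonneg _) (Finset.mem_univ _)
  have a3 : ∑ i, ∑ j, ‖F k i j‖ ^ 2 ≤ ∑ k, ∑ i, ∑ j, ‖F k i j‖ ^ 2 :=
    Finset.single_le_sum (f := fun k => ∑ i, ∑ j, ‖F k i j‖ ^ 2)
      (fun k _ => Finset.sum_nonneg fun i _ => Finset.sum_nonneg fun j _ => sq_nonneg _)
      (Finset.mem_univ _)
  exact (a1.trans a2).trans a3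

end LOWM

open LOWM in
theorem t_LOWM : M_LOWM := by
  intro hHA hLI hSL hKR hKE hTA hNI hPB hPG hIN hPW hQE hDE hLP hVL hDC hBA hLG N H K σ τ A D d r
    hcl hcon hS hP hA hD hd hr p hp2 hp μ hμ hμi a b C hab hStr
  have _ := hμ
  have _ := hμi
  have _ := hLI
  have _ := hTA
  have hcs : CompactSpace H := isCompact_iff_compactSpace.1 hcl.isCompact
  obtain ⟨X, hX⟩ : ∃ X : Fin D → Matrix (Fin N) (Fin N) ℂ, KFrame H X := by
    subst hD
    exact hKE N H hcl hS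
  obtain ⟨c, hc, -, hKF⟩ := hKR N H hcl hS
  have hXF := hKF D X hX
  obtain ⟨n, e, δ, hN⟩ := hNI N H K σ τ A hcl hS hP hA
  obtain ⟨hf0, -, hfK⟩ := hDE N H K σ τ A n e δ hcl hS hP hN hA.anti
  obtain ⟨sm, -⟩ := hPG N H K σ τ hcl hS hP
  obtain ⟨hcm, hexp⟩ := hPB N n e hN.nil.orth
  have hsc : SecondCountableTopology H :=
    inferInstanceAs (SecondCountableTopology ((H : Set (SU N)) : Type))
  obtain ⟨hri, hii, -⟩ := hHA H μ
  have _ := hri
  set f₀ : H → ℂ := fun g => (cm e ((σ g).1.1ᴴ * g.1.1)).det with hf₀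
  have hfc : Continuous f₀ := (sm.c2 _ hf0.mem).1.cont
  have hdim : n + r = d := by
    rw [← hr, ← hd]
    exact hN.dim
  set t : ℝ := (δ * δ).trace.re with ht
  have htp : 0 < t := trp hN.nil hN.pos
  -- the bound by the exponential
  have hbd : ∀ g, ‖f₀ g‖ ^ 2 ≤ Real.exp (-∑ k, ∑ i, ∑ j, ‖ps e ((σ g).1.1ᴴ * g.1.1) k i j‖ ^ 2) := by
    intro g
    exact hexp ((σ g).1⁻¹ * g.1)
  have hle1 : ∀ g, ‖f₀ g‖ ≤ 1 := by
    intro g
    have h1 := hbd g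
    have h2 : Real.exp (-∑ k, ∑ i, ∑ j, ‖ps e ((σ g).1.1ᴴ * g.1.1) k i j‖ ^ 2) ≤ 1 := by
      rw [Real.exp_le_one_iff]
      have : 0 ≤ ∑ k, ∑ i, ∑ j, ‖ps e ((σ g).1.1ᴴ * g.1.1) k i j‖ ^ 2 := by positivity
      linarith
    have h3 := h1.trans h2
    exact (sq_le_one_iff₀ (norm_nonneg _)).1 h3
  -- the integrals
  set bf : ℝ → ℝ := fun q => ∫ g, ‖f₀ g‖ ^ q ∂μ with hbf
  have hint : ∀ q : ℝ, 0 ≤ q → Integrable (fun g : H => ‖f₀ g‖ ^ q) μ := by
    intro q hq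
    exact (hfc.norm.rpow_const fun _ => Or.inr hq).integrable_of_hasCompactSupport
      (HasCompactSupport.of_compactSpace _)
  have hbnn : ∀ q, 0 ≤ bf q := fun q => integral_nonneg fun g => by positivity
  have hanti : ∀ x y, 0 ≤ x → x ≤ y → bf y ≤ bf x := by
    intro x y hx hxy
    refine integral_mono (hint y (hx.trans hxy)) (hint x hx) fun g => ?_
    exact Real.rpow_le_rpow_of_exponent_ge' (norm_nonneg _) (hle1 g) hx hxy
  -- the decay
  set Ψ : H → (Fin n × Fin N × Fin N) → ℂ :=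
    fun g q => ps e ((σ g).1.1ᴴ * g.1.1) q.1 q.2.1 q.2.2 with hΨ
  have hxc : Continuous fun g : H => ((σ g).1.1ᴴ * g.1.1 : Matrix (Fin N) (Fin N) ℂ) :=
    (continuous_subtype_val.comp (continuous_subtype_val.comp hP.cont)).matrix_conjTranspose.matrix_mul
      (continuous_subtype_val.comp continuous_subtype_val)
  have hcmc : ∀ j k, Continuous fun g : H => cm e ((σ g).1.1ᴴ * g.1.1) j k := by
    intro j k
    exact (((hxc.matrix_mul continuous_const).matrix_mul hxc.matrix_conjTranspose).matrix_mul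
      continuous_const).matrix_trace
  have hpsc : ∀ k, Continuous fun g : H => ps e ((σ g).1.1ᴴ * g.1.1) k := by
    intro k
    exact ((hxc.matrix_mul continuous_const).matrix_mul hxc.matrix_conjTranspose).sub
      (continuous_finsetSum _ fun j _ => (hcmc j k).smul continuous_const)
  have hΨc : Continuous Ψ := continuous_pi fun q => (hpsc q.1).matrix_elem q.2.1 q.2.2
  obtain ⟨C2, hC2, hvol⟩ := hVL N H hcl μ n (Fin n × Fin N × Fin N) Ψ hΨc (fun g₀ h0 =>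
    hLP N H K σ τ A n e δ hcl hcon hS hP hA hN g₀ (fun k => by
      ext i j
      exact congrFun h0 (k, i, j)))
  obtain ⟨C0, hC0, hdec⟩ := hDC H μ n (fun g => ‖Ψ g‖) hΨc.norm (fun g => norm_nonneg _) C2 hC2 hvol
    1 one_pos
  have hdec2 : ∀ m : ℕ, 1 ≤ m → bf (2 * m) ≤ C0 * (m : ℝ) ^ (-((n : ℝ) / 2)) := by
    intro m hm
    refine le_trans ?_ (hdec m hm)
    refine integral_mono (hint _ (by positivity)) ?_ fun g => ?_
    · have : Continuous fun g : H => Real.exp (-(1 * (m : ℝ) * ‖Ψ g‖ ^ 2)) := by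
        have := hΨc.norm
        fun_prop
      exact this.integrable_of_hasCompactSupport (HasCompactSupport.of_compactSpace _)
    · have h1 : ‖f₀ g‖ ^ (2 * (m : ℝ)) = (‖f₀ g‖ ^ 2) ^ m := by
        rw [← pow_mul, ← Real.rpow_natCast]
        push_cast
        rfl
      show ‖f₀ g‖ ^ (2 * (m : ℝ)) ≤ Real.exp (-(1 * (m : ℝ) * ‖Ψ g‖ ^ 2))
      rw [h1]
      refine (pow_le_pow_left₀ (by positivity) (hbd g) m).trans ?_
      rw [← Real.exp_nat_mul, Real.exp_le_exp]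
      set S : ℝ := ∑ k, ∑ i, ∑ j, ‖ps e ((σ g).1.1ᴴ * g.1.1) k i j‖ ^ 2 with hS
      have hS0 : 0 ≤ S := by positivity
      have h2 : ‖Ψ g‖ ≤ Real.sqrt S := by
        refine (pi_norm_le_iff_of_nonneg (Real.sqrt_nonneg _)).2 fun q => ?_
        refine Real.le_sqrt_of_sq_le ?_
        exact sle (ps e ((σ g).1.1ᴴ * g.1.1)) q.1 q.2.1 q.2.2
      have h3 : ‖Ψ g‖ ^ 2 ≤ S := by
        have := pow_le_pow_left₀ (norm_nonneg _) h2 2
        rwa [Real.sq_sqrt hS0] at this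
      have hm0 : (0 : ℝ) ≤ m := Nat.cast_nonneg m
      nlinarith
  -- the lower bound for the integrals
  obtain ⟨L1, hL1, hlip⟩ := lip e hcm
  obtain ⟨L2, hL2, hsl⟩ := hSL N H K σ τ hcl hP
  obtain ⟨c', a', hc', ha', hball⟩ := hBA N H hcl μ f₀ (L1 * (N * N * (1 + L2))) hfc (by
    intro g
    have h1 := hlip ((σ g).1⁻¹ * g.1)
    have h2 := quob (σ g).1 g.1
    have h3 := hsl g
    have h4 := mul_le_mul_of_nonneg_left h2 hL1
    have h5 := mul_le_mul_of_nonneg_left h3 (by positivity : (0 : ℝ) ≤ L1 * (N * N))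
    refine (h1.trans h4).trans ?_
    linarith)
  -- the eigenfunctions
  set θ : ℝ := ((d : ℝ) / 2 - ((d : ℝ) + 2) / p) * (p / 2) with hθ
  obtain ⟨B, hB, hBm⟩ := pw θ (t / c) (by positivity)
  have hp0 : 0 < p := by linarith
  have hba : 0 < b - a := by linarith
  refine hLG bf p (2 * θ) ((n : ℝ) / 2) c' a' C0 (max C 0 / (b - a) * B) hanti hp2 hc' ha' hball hC0
    hdec2 (by positivity) ?_ (expo hdim hN.pos hp2 hp)
  intro m hm
  have hq := hPW N H n e δ _ 2 f₀ hN.nil sm hf0 m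
  have hE1 := hQE N H n e δ _ _ _ c D X hcl hc hXF hN.nil sm hq
  have hE := hIN N H _ c D X _ _ hcl sm hXF hq.mem hE1
  have h1 := str sm hStr X hX _ _ hE (by
    intro g k hk
    have h2 := hfK k⁻¹ g⁻¹ (K.inv_mem hk)
    show f₀ ((g * k)⁻¹) ^ m = f₀ (g⁻¹) ^ m
    rw [_root_.mul_inv_rev]
    exact congrArg (fun z => z ^ m) h2)
  have h2 : ∫⁻ g : H, ‖f₀ g⁻¹ ^ m‖ₑ ^ p ∂μ = ENNReal.ofReal (bf (p * m)) := by
    have e1 : ∫⁻ g : H, ‖f₀ g⁻¹ ^ m‖ₑ ^ p ∂μ = ∫⁻ g : H, ‖f₀ g ^ m‖ₑ ^ p ∂μ :=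
      lintegral_inv_eq_self (fun g : H => ‖f₀ g ^ m‖ₑ ^ p)
    rw [e1, hbf]
    rw [ofReal_integral_eq_lintegral_ofReal (hint _ (by positivity))
      (Filter.Eventually.of_forall fun g => by positivity)]
    refine lintegral_congr fun g => ?_
    rw [← ofReal_norm, ENNReal.ofReal_rpow_of_nonneg (norm_nonneg _) hp0.le, norm_pow,
      ← Real.rpow_natCast, ← Real.rpow_mul (norm_nonneg _), mul_comm p]
  have h3 : ∫ g : H, ‖f₀ g⁻¹ ^ m‖ ^ 2 ∂μ = bf (2 * m) := by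
    have e1 : ∫ g : H, ‖f₀ g⁻¹ ^ m‖ ^ 2 ∂μ = ∫ g : H, ‖f₀ g ^ m‖ ^ 2 ∂μ :=
      integral_inv_eq_self (fun g : H => ‖f₀ g ^ m‖ ^ 2) μ
    rw [e1, hbf]
    refine integral_congr_ae (Filter.Eventually.of_forall fun g => ?_)
    show ‖f₀ g ^ m‖ ^ 2 = ‖f₀ g‖ ^ (2 * (m : ℝ))
    rw [norm_pow, ← pow_mul, mul_comm m 2, ← Real.rpow_natCast]
    push_cast
    rfl
  have h1' : ENNReal.ofReal (b - a) * ∫⁻ g : H, ‖f₀ g⁻¹ ^ m‖ₑ ^ p ∂μ ≤
      ENNReal.ofReal (C * ((1 + (((m : ℝ) * 2) ^ 2 + (m : ℝ) * 2) * t / c) ^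
        ((d : ℝ) / 2 - ((d : ℝ) + 2) / p) * ∫ g : H, ‖f₀ g⁻¹ ^ m‖ ^ 2 ∂μ) ^ (p / 2)) := h1
  rw [h2, h3, ← ENNReal.ofReal_mul hba.le, ENNReal.ofReal_le_ofReal_iff'] at h1'
  set κ : ℝ := (((m : ℝ) * 2) ^ 2 + (m : ℝ) * 2) * t / c with hκ
  have hκ0 : 0 ≤ κ := by positivity
  have h4 : ((1 + κ) ^ ((d : ℝ) / 2 - ((d : ℝ) + 2) / p) * bf (2 * m)) ^ (p / 2) ≤
      B * (m : ℝ) ^ (2 * θ) * (bf (2 * m)) ^ (p / 2) := by
    rw [Real.mul_rpow (by positivity) (hbnn _), ← Real.rpow_mul (by positivity)]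
    refine mul_le_mul_of_nonneg_right ?_ (Real.rpow_nonneg (hbnn _) _)
    have h5 := hBm m hm
    have h6 : (((m : ℝ) * 2) ^ 2 + (m : ℝ) * 2) * (t / c) = κ := by
      rw [hκ]
      ring
    rw [h6] at h5
    exact h5
  have hR : 0 ≤ B * (m : ℝ) ^ (2 * θ) * (bf (2 * m)) ^ (p / 2) :=
    mul_nonneg (mul_nonneg hB (by positivity)) (Real.rpow_nonneg (hbnn _) _)
  have h5 : (b - a) * bf (p * m) ≤ max C 0 * (B * (m : ℝ) ^ (2 * θ) * (bf (2 * m)) ^ (p / 2)) := by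
    rcases h1' with h | h
    · refine h.trans ?_
      refine (mul_le_mul_of_nonneg_right (le_max_left C 0)
        (Real.rpow_nonneg (mul_nonneg (by positivity) (hbnn _)) _)).trans ?_
      exact mul_le_mul_of_nonneg_left h4 (le_max_right C 0)
    · exact h.trans (mul_nonneg (le_max_right C 0) hR)
  have h6 : max C 0 / (b - a) * B * (m : ℝ) ^ (2 * θ) * (bf (2 * m)) ^ (p / 2) =
      (max C 0 * (B * (m : ℝ) ^ (2 * θ) * (bf (2 * m)) ^ (p / 2))) / (b - a) := by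
    ring
  rw [h6, le_div_iff₀ hba]
  linarith

end

end LGR
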