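import Pool.Agent.LGR.StL

namespace LGR

open STZ MeasureTheory Matrix Filter

open scoped ComplexConjugate Matrix Real Topology

noncomputable section

attribute [local instance 100] LieRing.ofAssociativeRing

namespace LRDX

theorem coe_br {N : ℕ} {H : Subgroup (SU N)} (A B : LC H) :
    ((⁅A, B⁆ : LC H) : Matrix (Fin N) (Fin N) ℂ) =
      (A : Matrix (Fin N) (Fin N) ℂ) * (B : Matrix (Fin N) (Fin N) ℂ) -
      (B : Matrix (Fin N) (Fin N) ℂ) * (A : Matrix (Fin N) (Fin N) ℂ) := by
  rw [LieSubalgebra.coe_bracket, Ring.lie_def]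

theorem sk1 {N : ℕ} {H : Subgroup (SU N)} (hL : LCF H) {Z : Matrix (Fin N) (Fin N) ℂ} (hZ : Z ∈ LC H) :
    Z - Zᴴ ∈ lie H := by
  apply hL.skew
  · exact sub_mem hZ (hL.star Z hZ)
  · rw [conjTranspose_sub, conjTranspose_conjTranspose, neg_sub]

theorem sk2 {N : ℕ} {H : Subgroup (SU N)} (hL : LCF H) {Z : Matrix (Fin N) (Fin N) ℂ} (hZ : Z ∈ LC H) :
    Complex.I • (Z + Zᴴ) ∈ lie H := by
  apply hL.skew
  · exact (LC H).smul_mem _ (add_mem hZ (hL.star Z hZ))
  · rw [conjTranspose_smul, conjTranspose_add, conjTranspose_conjTranspose, add_comm Zᴴ Z,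
      show star Complex.I = -Complex.I from Complex.conj_I, neg_smul]

theorem lie_sub_LC {N : ℕ} {H : Subgroup (SU N)} {X : Matrix (Fin N) (Fin N) ℂ} (hX : X ∈ lie H) :
    X ∈ LC H := LieSubalgebra.subset_lieSpan hX

theorem sk0 {N : ℕ} {H : Subgroup (SU N)} (hI : LIF H) {X : Matrix (Fin N) (Fin N) ℂ}
    (hX : X ∈ lie H) : Xᴴ = -X := (hI.su X hX).1

section killing

variable {N : ℕ} {H : Subgroup (SU N)} [LieAlgebra.IsKilling ℂ (LC H)]
  (C : LieSubalgebra ℂ (LC H)) [C.IsCartanSubalgebra]

open LieAlgebra LieAlgebra.IsKilling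

/-- negation of roots -/
def ng (i : C.root) : C.root := ⟨-i.1, by
  have := LieSubalgebra.isNonZero_coe_root i
  simpa using this⟩

theorem ng_ng (i : C.root) : ng C (ng C i) = i := by
  apply Subtype.ext
  change -(-i.1) = i.1
  rw [neg_neg]

theorem ng_inj : Function.Injective (ng C) := by
  intro i j h
  have := congrArg (ng C) h
  rwa [ng_ng, ng_ng] at this

/-- every element is the sum of an element of the Cartan algebra and of root vectors -/
theorem decomp (E : C.root → LC H) (hE : ∀ i, E i ∈ rootSpace C i.1) (h0 : ∀ i, E i ≠ 0)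
    (X : LC H) : ∃ Z ∈ C, ∃ c : C.root → ℂ, X = Z + ∑ i, c i • E i := by
  classical
  have key : (⊤ : Submodule ℂ (LC H)) ≤ C.toSubmodule ⊔ Submodule.span ℂ (Set.range E) := by
    have h1 : (⊤ : LieSubmodule ℂ C (LC H)) =
        ⨆ χ : LieModule.Weight ℂ C (LC H), LieModule.genWeightSpace (LC H) (χ : C → ℂ) :=
      (LieModule.iSup_genWeightSpace_eq_top' ℂ C (LC H)).symm
    have h2 : (⊤ : Submodule ℂ (LC H)) =
        ((⊤ : LieSubmodule ℂ C (LC H)) : Submodule ℂ (LC H)) := rfl
    rw [h2, h1, LieSubmodule.iSup_toSubmodule]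
    apply iSup_le
    intro χ
    by_cases hχ : χ.IsZero
    · have h3 : LieModule.genWeightSpace (LC H) (χ : C → ℂ) = C.toLieSubmodule := by
        have : (χ : C → ℂ) = 0 := hχ
        rw [this]
        exact rootSpace_zero_eq ℂ (LC H) C
      rw [h3]
      exact le_sup_left
    · have hi : χ ∈ C.root := by
        simpa using hχ
      refine le_trans ?_ le_sup_right
      intro x hx
      have hf := finrank_rootSpace_eq_one χ hχ
      have hE' := hE ⟨χ, hi⟩
      have hne : (⟨E ⟨χ, hi⟩, hE'⟩ : rootSpace C χ) ≠ 0 := by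
        intro h
        exact h0 ⟨χ, hi⟩ (congrArg Subtype.val h)
      obtain ⟨c, hc⟩ := (finrank_eq_one_iff_of_nonzero' _ hne).mp hf ⟨x, hx⟩
      have hc' : c • E ⟨χ, hi⟩ = x := congrArg Subtype.val hc
      rw [← hc']
      exact Submodule.smul_mem _ _ (Submodule.subset_span ⟨_, rfl⟩)
  have hX : X ∈ C.toSubmodule ⊔ Submodule.span ℂ (Set.range E) := key Submodule.mem_top
  obtain ⟨Z, hZ, y, hy, hXy⟩ := Submodule.mem_sup.mp hX
  obtain ⟨c, hc⟩ := (Submodule.mem_span_range_iff_exists_fun ℂ).mp hy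
  exact ⟨Z, hZ, c, by rw [hc, hXy]⟩

/-- a compatible family of root vectors -/
theorem family (hR : S_ROVE) (hcl : IsClosed (H : Set (SU N))) (hL : LCF H)
    (hC : ∀ Z ∈ C, ∀ W : LC H, (W : Matrix (Fin N) (Fin N) ℂ) =
      (Z : Matrix (Fin N) (Fin N) ℂ)ᴴ → W ∈ C)
    (Pos : C.root → Prop) (hpos : ∀ i, Pos (ng C i) ↔ ¬ Pos i) :
    ∃ E : C.root → LC H, (∀ i, E i ∈ rootSpace C i.1) ∧ (∀ i, E i ≠ 0) ∧
      (∀ i, ⁅E i, E (ng C i)⁆ = ((coroot i.1 : C) : LC H)) ∧
      (∀ i, (E (ng C i) : Matrix (Fin N) (Fin N) ℂ) = (E i : Matrix (Fin N) (Fin N) ℂ)ᴴ) := by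
  classical
  have h := fun i : C.root => hR N H hcl hL C hC i.1 (LieSubalgebra.isNonZero_coe_root i)
  choose e f ht he hf hm using h
  have hng : ∀ i, ((ng C i).1 : LieModule.Weight ℂ C (LC H)) = -i.1 := fun i => rfl
  have hcr : ∀ i : C.root, ((coroot (ng C i).1 : C) : LC H) = -((coroot i.1 : C) : LC H) := by
    intro i
    rw [hng, coroot_neg]
    rfl
  refine ⟨fun i => if Pos i then e i else f (ng C i), ?_, ?_, ?_, ?_⟩
  · intro i
    by_cases hp : Pos i
    · simp only [if_pos hp]
      exact he i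
    · simp only [if_neg hp]
      have := hf (ng C i)
      rw [hng, LieModule.Weight.coe_neg, neg_neg] at this
      exact this
  · intro i
    by_cases hp : Pos i
    · simp only [if_pos hp]
      exact (ht i).e_ne_zero
    · simp only [if_neg hp]
      exact (ht (ng C i)).f_ne_zero
  · intro i
    by_cases hp : Pos i
    · have hp' : ¬ Pos (ng C i) := fun h => (hpos i).mp h hp
      simp only [if_pos hp, if_neg hp', ng_ng]
      exact (ht i).lie_e_f
    · have hp' : Pos (ng C i) := (hpos i).mpr hp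
      simp only [if_neg hp, if_pos hp']
      have := (ht (ng C i)).lie_e_f
      rw [hcr] at this
      rw [← lie_skew, this, neg_neg]
  · intro i
    by_cases hp : Pos i
    · have hp' : ¬ Pos (ng C i) := fun h => (hpos i).mp h hp
      simp only [if_pos hp, if_neg hp', ng_ng]
      exact hm i
    · have hp' : Pos (ng C i) := (hpos i).mpr hp
      simp only [if_neg hp, if_pos hp']
      rw [hm (ng C i), conjTranspose_conjTranspose]

end killing

theorem sum_split {ι A : Type} [Fintype ι] [AddCommMonoid A] (n : ι → ι) (hn : ∀ i, n (n i) = i)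
    (Pos : ι → Prop) [DecidablePred Pos] (hpos : ∀ i, Pos (n i) ↔ ¬ Pos i) (F : ι → A) :
    ∑ i, F i = ∑ i ∈ Finset.univ.filter Pos, (F i + F (n i)) := by
  rw [Finset.sum_add_distrib, ← Finset.sum_filter_add_sum_filter_not Finset.univ Pos F]
  congr 1
  refine Finset.sum_nbij' n n ?_ ?_ ?_ ?_ ?_
  · intro i hi
    rw [Finset.mem_filter] at hi ⊢
    exact ⟨Finset.mem_univ _, (hpos i).mpr hi.2⟩
  · intro i hi
    rw [Finset.mem_filter] at hi ⊢
    exact ⟨Finset.mem_univ _, fun h => (hpos i).mp h hi.2⟩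
  · intro i _
    exact hn i
  · intro i _
    exact hn i
  · intro i _
    rw [hn]

theorem herm_comb {N r : ℕ} (Hc : Fin r → Matrix (Fin N) (Fin N) ℂ) (hH : ∀ j, (Hc j)ᴴ = Hc j)
    (ζ : Fin r → ℂ) : (1 / 2 : ℂ) • ((∑ j, ζ j • Hc j) - (∑ j, ζ j • Hc j)ᴴ) =
      ∑ j, (((ζ j).im : ℂ) * Complex.I) • Hc j := by
  rw [conjTranspose_sum, ← Finset.sum_sub_distrib, Finset.smul_sum]
  apply Finset.sum_congr rfl
  intro j _
  rw [conjTranspose_smul, hH j, ← sub_smul, smul_smul]
  congr 1
  change 1 / 2 * (ζ j - conj (ζ j)) = _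
  rw [Complex.sub_conj]
  push_cast
  ring

end LRDX

open LRDX LieAlgebra LieAlgebra.IsKilling in
theorem t_LRDX : M_LRDX := by
  classical
  intro hLIEB hLCXF hKILL hCART hROVE hINTW hRTSY N H T r hcl hs hT hr
  have hI := hLIEB N H hcl
  have hL := hLCXF N H hcl
  obtain ⟨hk, hsim⟩ := hKILL N H hcl hs
  obtain ⟨C, hCm, hCc, hCr⟩ := hCART N H T hcl hT
  have := hk
  have := hsim
  have := hCc
  set P := rootSystem C with hP
  obtain ⟨b⟩ := P.nonempty_base
  have hcard : Fintype.card b.support = r := by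
    rw [hr, ← hCr, ← Module.finrank_eq_card_basis b.toCoweightBasis]
  let e : Fin r ≃ b.support := (Fintype.equivFinOfCardEq hcard).symm
  obtain ⟨ct, h1, h2, h3, h4⟩ := hRTSY C.root (Module.Dual ℂ C) C P b r e
  -- the pairs
  set pr : C.root → (Fin r → ℤ) × (Fin r → ℤ) :=
    fun i => (rtc P (fun k => (e k).1) i, ct i) with hpr
  have prinj : Function.Injective pr := by
    intro i j h
    have ha := congrArg Prod.fst h
    have hb := congrArg Prod.snd h
    exact h3 i j hb ha
  -- the matrices of the elements of `C`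
  let mt : C →ₗ[ℂ] Matrix (Fin N) (Fin N) ℂ :=
    (LC H).toSubmodule.subtype ∘ₗ C.toSubmodule.subtype
  have mt_ap : ∀ z : C, mt z = ((z : LC H) : Matrix (Fin N) (Fin N) ℂ) := fun z => rfl
  have mt_inj : Function.Injective mt := by
    intro z w h
    exact Subtype.ext (Subtype.ext h)
  -- linear independence of the simple coroots
  have hlin : LinearIndependent ℂ (fun j : Fin r => P.coroot (e j).1) := by
    have := b.linearIndepOn_coroot
    exact (LinearIndependent.comp this e e.injective)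
  -- negation
  have hcn : ∀ i : C.root, P.coroot (ng C i) = -P.coroot i := by
    intro i
    change coroot (-i.1) = -coroot i.1
    rw [coroot_neg]
  have hct : ∀ i, ct (ng C i) = -ct i := by
    intro i
    have hz : ∑ j, ((ct (ng C i) j + ct i j : ℤ) : ℂ) • P.coroot (e j).1 = 0 := by
      have ha := h1 (ng C i)
      have hb := h1 i
      rw [hcn, hb] at ha
      have hc : (∑ j, (ct (ng C i) j : ℂ) • P.coroot (e j).1) +
        (∑ j, (ct i j : ℂ) • P.coroot (e j).1) = 0 := by
        rw [← ha]; exact neg_add_cancel _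
      rw [← hc, ← Finset.sum_add_distrib]
      apply Finset.sum_congr rfl
      intro j _
      rw [← add_smul]
      push_cast
      rfl
    have hz' := Fintype.linearIndependent_iff.mp hlin _ hz
    funext j
    have := hz' j
    have h0 : ct (ng C i) j + ct i j = 0 := by exact_mod_cast this
    rw [Pi.neg_apply]
    omega
  have hpair : ∀ i j : C.root, ((P.pairingIn ℤ i j : ℤ) : ℂ) = i.1 (coroot j.1) := by
    intro i j
    have := P.algebraMap_pairingIn ℤ i j
    have h5 : P.pairing i j = i.1 (coroot j.1) := rootSystem_pairing_apply C j i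
    rw [← h5, ← this]
    rfl
  have hrt : ∀ i, rtc P (fun k => (e k).1) (ng C i) = -rtc P (fun k => (e k).1) i := by
    intro i
    funext j
    rw [Pi.neg_apply]
    unfold rtc
    have ha := hpair (ng C i) (e j).1
    have hb := hpair i (e j).1
    have hc : ((P.pairingIn ℤ (ng C i) (e j).1 : ℤ) : ℂ) =
        ((-P.pairingIn ℤ i (e j).1 : ℤ) : ℂ) := by
      rw [ha]
      push_cast
      rw [hb]
      rfl
    exact_mod_cast hc
  have hprn : ∀ i, pr (ng C i) = (-(pr i).1, -(pr i).2) := by
    intro i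
    rw [hpr]
    exact Prod.ext (hrt i) (hct i)
  -- positivity
  let Pos : C.root → Prop := fun i => ∀ k, 0 ≤ ct i k
  have hmemΦ : ∀ i, pr i ∈ Finset.univ.image pr := fun i =>
    Finset.mem_image_of_mem _ (Finset.mem_univ i)
  have hpos : ∀ i, Pos (ng C i) ↔ ¬ Pos i := by
    intro i
    constructor
    · intro ha hb
      have h0 : ct i = 0 := by
        funext k
        have hak := ha k
        rw [hct, Pi.neg_apply] at hak
        have hbk := hb k
        rw [Pi.zero_apply]
        omega
      have h2' := h4.two (pr i) (hmemΦ i)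
      change ct i ⬝ᵥ _ = 2 at h2'
      rw [h0, zero_dotProduct] at h2'
      exact absurd h2' (by norm_num)
    · intro hn k
      rcases h4.sgn (pr i) (hmemΦ i) with ⟨n, _, hn2⟩ | ⟨n, _, hn2⟩
      · exact absurd (fun k => (hn2 k).2) hn
      · rw [hct, Pi.neg_apply]
        have := (hn2 k).2
        change ct i k ≤ 0 at this
        omega
  -- star of C
  have hTn : ∀ X ∈ T, Xᴴ = -X := fun X hX => sk0 hI (hT.sub X hX)
  have hCst : ∀ Z ∈ C, ∀ W : LC H, (W : Matrix (Fin N) (Fin N) ℂ) =
      (Z : Matrix (Fin N) (Fin N) ℂ)ᴴ → W ∈ C := by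
    intro Z hZ W hW
    obtain ⟨X, hX, Y, hY, hZXY⟩ := (hCm Z).mp hZ
    rw [hCm]
    refine ⟨-X, T.neg_mem hX, Y, hY, ?_⟩
    rw [hW, hZXY, conjTranspose_add, conjTranspose_smul, hTn X hX, hTn Y hY,
      show star Complex.I = -Complex.I from Complex.conj_I, neg_smul, smul_neg, neg_neg]
  obtain ⟨EL, hE1, hE2, hE3, hE4⟩ := family C hROVE hcl hL hCst Pos hpos
  -- the data
  set Hc : Fin r → Matrix (Fin N) (Fin N) ℂ := fun j => mt (P.coroot (e j).1) with hHc
  let E : (Fin r → ℤ) × (Fin r → ℤ) → Matrix (Fin N) (Fin N) ℂ := fun p =>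
    if h : ∃ i, pr i = p then (EL h.choose : Matrix (Fin N) (Fin N) ℂ) else 0
  have hEpr : ∀ i, E (pr i) = (EL i : Matrix (Fin N) (Fin N) ℂ) := by
    intro i
    have hex : ∃ k, pr k = pr i := ⟨i, rfl⟩
    have : hex.choose = i := prinj hex.choose_spec
    change (if h : ∃ k, pr k = pr i then (EL h.choose : Matrix (Fin N) (Fin N) ℂ) else 0) = _
    rw [dif_pos hex, this]
  -- bracket facts
  have hbr : ∀ (z : C) (i : C.root), mt z * (EL i : Matrix (Fin N) (Fin N) ℂ) -
      (EL i : Matrix (Fin N) (Fin N) ℂ) * mt z = (i.1 z : ℂ) • (EL i : Matrix (Fin N) (Fin N) ℂ) := by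
    intro z i
    have h5 := lie_eq_smul_of_mem_rootSpace (hE1 i) z
    have h6 : ((⁅(z : LC H), EL i⁆ : LC H) : Matrix (Fin N) (Fin N) ℂ) =
        ((i.1 z • EL i : LC H) : Matrix (Fin N) (Fin N) ℂ) := by
      rw [← h5]; rfl
    rw [coe_br] at h6
    exact h6
  have hcoM : ∀ i : C.root, mt (P.coroot i) = (EL i : Matrix (Fin N) (Fin N) ℂ) *
      (EL i : Matrix (Fin N) (Fin N) ℂ)ᴴ - (EL i : Matrix (Fin N) (Fin N) ℂ)ᴴ *
      (EL i : Matrix (Fin N) (Fin N) ℂ) := by
    intro i
    have h5 := hE3 i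
    have h6 : ((⁅EL i, EL (ng C i)⁆ : LC H) : Matrix (Fin N) (Fin N) ℂ) = mt (P.coroot i) := by
      rw [h5]; rfl
    rw [← h6, coe_br, hE4]
  have hcoS : ∀ i : C.root, mt (P.coroot i) = ∑ j, (ct i j : ℂ) • Hc j := by
    intro i
    rw [h1 i, map_sum]
    apply Finset.sum_congr rfl
    intro j _
    rw [map_smul]
  have hher : ∀ i : C.root, (mt (P.coroot i))ᴴ = mt (P.coroot i) := by
    intro i
    rw [hcoM i, conjTranspose_sub, conjTranspose_mul, conjTranspose_mul, conjTranspose_conjTranspose]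
  have hherm : ∀ j, (Hc j)ᴴ = Hc j := fun j => hher (e j).1
  have hHcLC : ∀ j, Hc j ∈ LC H := fun j => ((P.coroot (e j).1 : C) : LC H).2
  -- coordinates in C
  have hcoord : ∀ z : C, ∃ ζ : Fin r → ℂ, mt z = ∑ j, ζ j • Hc j := by
    intro z
    refine ⟨fun j => b.toCoweightBasis.repr z (e j), ?_⟩
    have h5 := b.toCoweightBasis.sum_repr z
    have h6 : mt z = ∑ k : b.support, b.toCoweightBasis.repr z k • mt (P.coroot k.1) := by
      conv_lhs => rw [← h5]
      rw [map_sum]
      apply Finset.sum_congr rfl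
      intro k _
      rw [map_smul, RootPairing.Base.toCoweightBasis_apply]
    rw [h6, ← Equiv.sum_comp e]
  -- half of the skew part
  have hhalf : ∀ X ∈ lie H, X = (1 / 2 : ℂ) • (X - Xᴴ) := by
    intro X hX
    rw [sk0 hI hX, sub_neg_eq_add, ← two_smul ℂ X, smul_smul]
    norm_num
  refine ⟨Finset.univ.image pr, Matrix.of fun j k => P.pairingIn ℤ (e j).1 (e k).1, Hc, E, ?_, ?_⟩
  · refine ⟨h4, hherm, ?_, ?_, ?_, ?_, ?_, ?_, ?_, ?_, ?_⟩
    · -- mem
      intro j
      apply hL.skew
      · exact (LC H).smul_mem _ (hHcLC j)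
      · rw [conjTranspose_smul, hherm j, show star Complex.I = -Complex.I from Complex.conj_I,
          neg_smul]
    · -- comm
      intro i j
      have h5 : ⁅(P.coroot (e i).1 : C), (P.coroot (e j).1 : C)⁆ = 0 := trivial_lie_zero _ _ _ _
      have h6 : (((⁅(P.coroot (e i).1 : C), (P.coroot (e j).1 : C)⁆ : C) : LC H) :
          Matrix (Fin N) (Fin N) ℂ) = 0 := by rw [h5]; rfl
      rw [LieSubalgebra.coe_bracket, coe_br] at h6
      exact sub_eq_zero.mp h6
    · -- per
      intro j
      set i := (e j).1 with hi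
      have hnz : i.1.IsNonZero := LieSubalgebra.isNonZero_coe_root i
      have h2' : i.1 (coroot i.1) = 2 := root_apply_coroot hnz
      refine hINTW N (Hc j) (EL i : Matrix (Fin N) (Fin N) ℂ)
        (EL i : Matrix (Fin N) (Fin N) ℂ)ᴴ (hherm j) ?_ ?_ (hcoM i).symm
      · have := hbr (P.coroot i) i
        rw [show i.1 (P.coroot i) = 2 from h2'] at this
        exact this
      · have := hbr (P.coroot i) (ng C i)
        rw [hE4, show (ng C i).1 (P.coroot i) = -2 from by
          change (-i.1 : LieModule.Weight ℂ C (LC H)) (coroot i.1) = -2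
          rw [← h2']
          rfl, neg_smul] at this
        exact this
    · -- lin
      have h5 : LinearIndependent ℂ Hc := hlin.map' mt (LinearMap.ker_eq_bot.mpr mt_inj)
      exact h5.restrict_scalars (fun x y hxy => by
        have : (x : ℂ) = (y : ℂ) := by simpa [Algebra.smul_def] using hxy
        exact_mod_cast this)
    · -- star
      intro p hp
      obtain ⟨i, _, rfl⟩ := Finset.mem_image.mp hp
      rw [← hprn, hEpr, hEpr, hE4]
    · -- ead
      intro p hp j
      obtain ⟨i, _, rfl⟩ := Finset.mem_image.mp hp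
      rw [hEpr]
      have h5 := hbr (P.coroot (e j).1) i
      have h6 : ((pr i).1 j : ℂ) = i.1 (P.coroot (e j).1) := hpair i (e j).1
      rw [h6]
      exact h5
    · -- cor
      intro p hp
      obtain ⟨i, _, rfl⟩ := Finset.mem_image.mp hp
      rw [hEpr, ← hcoM, hcoS]
    · -- emem
      intro p hp
      obtain ⟨i, _, rfl⟩ := Finset.mem_image.mp hp
      rw [hEpr]
      exact ⟨sk1 hL (EL i).2, sk2 hL (EL i).2⟩
    · -- span
      intro X hX
      obtain ⟨Z, hZ, c, hXc⟩ := decomp C EL hE1 hE2 ⟨X, lie_sub_LC hX⟩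
      have hX2 : X = (Z : Matrix (Fin N) (Fin N) ℂ) + ∑ i, c i • (EL i : Matrix (Fin N) (Fin N) ℂ) := by
        have := congrArg (fun A : LC H => (A : Matrix (Fin N) (Fin N) ℂ)) hXc
        simp only at this
        rw [this]
        push_cast
        rfl
      obtain ⟨ζ, hζ⟩ := hcoord ⟨Z, hZ⟩
      have hZ' : (Z : Matrix (Fin N) (Fin N) ℂ) = ∑ j, ζ j • Hc j := hζ
      let d : C.root → ℂ := fun i => (c i - conj (c (ng C i))) / 2
      have hd : ∀ i, d (ng C i) = -conj (d i) := by
        intro i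
        change (c (ng C i) - conj (c (ng C (ng C i)))) / 2 = -conj ((c i - conj (c (ng C i))) / 2)
        rw [ng_ng, map_div₀, map_sub, Complex.conj_conj, Complex.conj_ofNat]
        ring
      have hsum : (1 / 2 : ℂ) • ((∑ i, c i • (EL i : Matrix (Fin N) (Fin N) ℂ)) -
          (∑ i, c i • (EL i : Matrix (Fin N) (Fin N) ℂ))ᴴ) =
          ∑ i, d i • (EL i : Matrix (Fin N) (Fin N) ℂ) := by
        have h5 : (∑ i, c i • (EL i : Matrix (Fin N) (Fin N) ℂ))ᴴ =
            ∑ i, conj (c (ng C i)) • (EL i : Matrix (Fin N) (Fin N) ℂ) := by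
          rw [conjTranspose_sum]
          rw [← Equiv.sum_comp (Equiv.mk (ng C) (ng C) (ng_ng C) (ng_ng C))
            (fun i => (c i • (EL i : Matrix (Fin N) (Fin N) ℂ))ᴴ)]
          apply Finset.sum_congr rfl
          intro i _
          change (c (ng C i) • (EL (ng C i) : Matrix (Fin N) (Fin N) ℂ))ᴴ = _
          rw [conjTranspose_smul, hE4, conjTranspose_conjTranspose]
          rfl
        rw [h5, ← Finset.sum_sub_distrib, Finset.smul_sum]
        apply Finset.sum_congr rfl
        intro i _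
        rw [← sub_smul, smul_smul]
        congr 1
        change 1 / 2 * (c i - conj (c (ng C i))) = (c i - conj (c (ng C i))) / 2
        ring
      refine ⟨fun j => (ζ j).im, fun p => if h : ∃ i, pr i = p then d h.choose else 0, ?_⟩
      have hzpr : ∀ i, (fun p => if h : ∃ i, pr i = p then d h.choose else (0 : ℂ)) (pr i) = d i := by
        intro i
        have hex : ∃ k, pr k = pr i := ⟨i, rfl⟩
        have : hex.choose = i := prinj hex.choose_spec
        simp only
        rw [dif_pos hex, this]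
      have hposΦ : pos (Finset.univ.image pr) = (Finset.univ.filter Pos).image pr := by
        unfold pos
        rw [Finset.filter_image]
      rw [hposΦ, Finset.sum_image (fun i _ j _ h => prinj h)]
      have hfin : (∑ i ∈ Finset.univ.filter Pos,
          (((fun p => if h : ∃ i, pr i = p then d h.choose else (0 : ℂ)) (pr i)) • E (pr i) -
          conj ((fun p => if h : ∃ i, pr i = p then d h.choose else (0 : ℂ)) (pr i)) •
            (E (pr i))ᴴ)) = ∑ i, d i • (EL i : Matrix (Fin N) (Fin N) ℂ) := by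
        rw [sum_split (ng C) (ng_ng C) Pos hpos
          (fun i => d i • (EL i : Matrix (Fin N) (Fin N) ℂ))]
        apply Finset.sum_congr rfl
        intro i _
        rw [hzpr, hEpr, hd, hE4, neg_smul, sub_eq_add_neg]
      rw [hfin, ← hsum, ← herm_comb Hc hherm ζ, ← hZ', ← smul_add]
      conv_lhs => rw [hhalf X hX]
      congr 1
      rw [hX2, conjTranspose_add]
      abel
  · -- T
    intro X
    constructor
    · intro hX
      have hXl := hT.sub X hX
      have hXC : (⟨X, lie_sub_LC hXl⟩ : LC H) ∈ C := by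
        rw [hCm]
        exact ⟨X, hX, 0, T.zero_mem, by simp⟩
      obtain ⟨ζ, hζ⟩ := hcoord ⟨_, hXC⟩
      have hX' : X = ∑ j, ζ j • Hc j := hζ
      refine ⟨fun j => (ζ j).im, ?_⟩
      unfold hx
      rw [← herm_comb Hc hherm ζ, ← hX']
      exact hhalf X hXl
    · rintro ⟨x, hx'⟩
      have hXC : ∃ z : C, mt z = X := by
        refine ⟨∑ j, ((x j : ℂ) * Complex.I) • P.coroot (e j).1, ?_⟩
        rw [map_sum, hx']
        unfold hx
        apply Finset.sum_congr rfl
        intro j _
        rw [map_smul]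
      obtain ⟨z, hz⟩ := hXC
      obtain ⟨A, hA, B, hB, hAB⟩ := (hCm (z : LC H)).mp z.2
      have hXAB : X = A + Complex.I • B := by rw [← hz]; exact hAB
      have hXs : Xᴴ = -X := by
        rw [hx']
        unfold hx
        rw [conjTranspose_sum, ← Finset.sum_neg_distrib]
        apply Finset.sum_congr rfl
        intro j _
        rw [conjTranspose_smul, hherm j, ← neg_smul]
        congr 1
        change conj ((x j : ℂ) * Complex.I) = _
        rw [map_mul, Complex.conj_I, Complex.conj_ofReal, mul_neg]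
      rw [hXAB, conjTranspose_add, conjTranspose_smul, hTn A hA, hTn B hB,
        show star Complex.I = -Complex.I from Complex.conj_I, neg_smul, smul_neg, neg_neg,
        neg_add] at hXs
      have hB0 : Complex.I • B = 0 := by
        have h5 : Complex.I • B = -(Complex.I • B) := add_left_cancel hXs
        have h6 : (2 : ℂ) • (Complex.I • B) = 0 := by
          rw [two_smul]
          nth_rewrite 1 [h5]
          exact neg_add_cancel _
        exact (smul_eq_zero.mp h6).resolve_left two_ne_zero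
      rw [hXAB, hB0, add_zero]
      exact hA

end

end LGR
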