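import Pool.Agent.LGR.StR

/-!
# Module MAIN: the main theorem from its parts
-/

namespace LGR

open STZ MeasureTheory Matrix Filter

open scoped ComplexConjugate Matrix Real Topology

noncomputable section

/-- assembly -/
theorem t_MAIN : M_MAIN := by
  intro _ hRVOF hLRDX hKFRM hFORM hGXOF hSTRV N H T d r hcl hco hsi hT hd hr hr2 p hp hp8
  obtain ⟨Φ, B, Hc, E, hL, -⟩ := hLRDX N H T r hcl hsi hT hr.symm
  obtain ⟨c, hc, hfr, hK⟩ := hKFRM N H hcl hsi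
  obtain ⟨X, hX⟩ := hfr d hd
  obtain ⟨k, hk⟩ := hFORM N H r Φ B Hc E hcl hL (by omega) c hc
  obtain ⟨χ, Z, hG⟩ := hGXOF N H r Φ B Hc E c k d X (by omega) hcl hco hL hk hX
  have hV := hRVOF r Φ B (by omega) hL.ird
  have hS := hSTRV N H c d r (rd Φ) (pos Φ) (IX Hc) (fun i => i.1) χ Z k hr2 hV hG p hp hp8
  intro μ hμ hl a b hab
  obtain ⟨C, hC⟩ := hS μ hμ hl a b hab
  exact ⟨C, fun Y hY => hC Y (hK d Y hY)⟩

end

end LGR
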