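import Pool.Agent.LGR.StV
import Pool.Agent.LGR.LCXF

/-!
# LGR, module NILP: the nilpotent part of the complexification for a regular element of the tangent space
-/

namespace LGR

open STZ MeasureTheory Matrix Filter

open scoped ComplexConjugate Matrix Real Topology

noncomputable section

attribute [local instance 100] LieRing.ofAssociativeRing

namespace NILP

variable {N : ℕ}

/-- an orthonormal basis of a subspace of the matrices, for the inner product `tr (A Bᴴ)` -/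
structure OB (V : Submodule ℂ (Matrix (Fin N) (Fin N) ℂ)) {m : ℕ} (v : Fin m → Matrix (Fin N) (Fin N) ℂ) :
    Prop where
  mem : ∀ i, v i ∈ V
  orth : ∀ i j, (v i * (v j)ᴴ).trace = if i = j then 1 else 0
  exp : ∀ X ∈ V, X = ∑ i, (X * (v i)ᴴ).trace • v i

theorem trstar (A B : Matrix (Fin N) (Fin N) ℂ) : conj ((A * Bᴴ).trace) = (B * Aᴴ).trace := by
  have h1 : (A * Bᴴ)ᴴ = B * Aᴴ := by rw [conjTranspose_mul, conjTranspose_conjTranspose]
  rw [← h1, trace_conjTranspose]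
  rfl

theorem trself (A : Matrix (Fin N) (Fin N) ℂ) : (A * Aᴴ).trace = ((∑ i, ∑ j, ‖A i j‖ ^ 2 : ℝ) : ℂ) := by
  simp only [Matrix.trace, Matrix.diag, Matrix.mul_apply, Matrix.conjTranspose_apply]
  push_cast
  refine Finset.sum_congr rfl fun i _ => Finset.sum_congr rfl fun j _ => ?_
  rw [Complex.star_def, Complex.mul_conj']

/-- the inner product on a subspace -/
@[reducible]
def core (V : Submodule ℂ (Matrix (Fin N) (Fin N) ℂ)) : InnerProductSpace.Core ℂ V where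
  inner X Y := (Y.1 * X.1ᴴ).trace
  conj_inner_symm X Y := trstar _ _
  re_inner_nonneg X := by
    show 0 ≤ RCLike.re ((X.1 * X.1ᴴ).trace)
    rw [trself]
    show 0 ≤ ((((∑ i, ∑ j, ‖X.1 i j‖ ^ 2 : ℝ)) : ℂ)).re
    rw [Complex.ofReal_re]
    positivity
  add_left X Y Z := by
    show (Z.1 * (X.1 + Y.1)ᴴ).trace = _
    rw [conjTranspose_add, mul_add, trace_add]
  smul_left X Y r := by
    show (Y.1 * (r • X.1)ᴴ).trace = _
    rw [conjTranspose_smul, Matrix.mul_smul, trace_smul]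
    rfl
  definite X h := by
    have h1 : (X.1 * X.1ᴴ).trace = 0 := h
    rw [trself] at h1
    have h2 : (∑ i, ∑ j, ‖X.1 i j‖ ^ 2 : ℝ) = 0 := by exact_mod_cast h1
    apply Subtype.ext
    ext i j
    rw [Finset.sum_eq_zero_iff_of_nonneg (fun i _ => Finset.sum_nonneg fun j _ => by positivity)] at h2
    have h3 := h2 i (Finset.mem_univ _)
    rw [Finset.sum_eq_zero_iff_of_nonneg (fun j _ => by positivity)] at h3
    have h4 := h3 j (Finset.mem_univ _)
    simpa using h4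

theorem spec (V : Submodule ℂ (Matrix (Fin N) (Fin N) ℂ)) (h : Matrix (Fin N) (Fin N) ℂ) (hh : hᴴ = h)
    (hV : ∀ X ∈ V, h * X - X * h ∈ V) : ∃ (m : ℕ) (v : Fin m → Matrix (Fin N) (Fin N) ℂ) (c : Fin m → ℝ),
    OB V v ∧ (∀ i, h * v i - v i * h = (c i : ℂ) • v i) ∧ m = Module.finrank ℂ V := by
  let c0 := core V
  let : NormedAddCommGroup V := @InnerProductSpace.Core.toNormedAddCommGroup ℂ V _ _ _ c0
  let : InnerProductSpace ℂ V := InnerProductSpace.ofCore c0.toCore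
  have hin : ∀ X Y : V, inner ℂ X Y = (Y.1 * X.1ᴴ).trace := fun X Y => rfl
  let T : V →ₗ[ℂ] V :=
    { toFun := fun X => ⟨h * X.1 - X.1 * h, hV _ X.2⟩
      map_add' := fun X Y => by
        apply Subtype.ext
        show h * (X.1 + Y.1) - (X.1 + Y.1) * h = (h * X.1 - X.1 * h) + (h * Y.1 - Y.1 * h)
        noncomm_ring
      map_smul' := fun c X => by
        apply Subtype.ext
        show h * (c • X.1) - (c • X.1) * h = c • (h * X.1 - X.1 * h)
        rw [Matrix.mul_smul, Matrix.smul_mul, smul_sub] }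
  have hTa : ∀ X : V, (T X).1 = h * X.1 - X.1 * h := fun X => rfl
  have hT : T.IsSymmetric := by
    intro X Y
    rw [hin, hin, hTa, hTa, conjTranspose_sub, conjTranspose_mul, conjTranspose_mul, hh, mul_sub, sub_mul,
      trace_sub, trace_sub]
    have e1 : (Y.1 * (X.1ᴴ * h)).trace = (h * Y.1 * X.1ᴴ).trace := by
      rw [← mul_assoc, trace_mul_comm, ← mul_assoc]
    have e2 : (Y.1 * (h * X.1ᴴ)).trace = (Y.1 * h * X.1ᴴ).trace := by rw [← mul_assoc]
    rw [e1, e2]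
  let b := hT.eigenvectorBasis rfl
  refine ⟨Module.finrank ℂ V, fun i => (b i).1, hT.eigenvalues rfl, ⟨fun i => (b i).2, ?_, ?_⟩, ?_, rfl⟩
  · intro i j
    have h1 : inner ℂ (b j) (b i) = if j = i then (1 : ℂ) else 0 := orthonormal_iff_ite.1 b.orthonormal j i
    rw [hin] at h1
    rw [h1]
    by_cases hij : i = j
    · rw [if_pos hij, if_pos hij.symm]
    · rw [if_neg hij, if_neg (Ne.symm hij)]
  · intro X hX
    have h1 := b.sum_repr' (⟨X, hX⟩ : V)
    have h2 := congrArg Subtype.val h1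
    refine h2.symm.trans ?_
    simp only [AddSubmonoidClass.coe_finsetSum, Submodule.coe_smul]
    rfl
  · intro i
    have h1 := hT.apply_eigenvectorBasis rfl i
    have h2 := congrArg Subtype.val h1
    exact h2

/-! ### traces -/

theorem br_tr (A B C : Matrix (Fin N) (Fin N) ℂ) :
    ((A * B - B * A) * C).trace = (A * (B * C - C * B)).trace := by
  have e1 : (B * A * C).trace = (A * (C * B)).trace := by
    rw [mul_assoc, trace_mul_comm, mul_assoc]
  rw [sub_mul, mul_sub, trace_sub, trace_sub, e1, mul_assoc]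

theorem br_ct (X Y : Matrix (Fin N) (Fin N) ℂ) : (X * Y - Y * X)ᴴ = Yᴴ * Xᴴ - Xᴴ * Yᴴ := by
  rw [conjTranspose_sub, conjTranspose_mul, conjTranspose_mul]

/-- `ad h` is self-adjoint -/
theorem sa {h : Matrix (Fin N) (Fin N) ℂ} (hh : hᴴ = h) (X Y : Matrix (Fin N) (Fin N) ℂ) :
    ((h * X - X * h) * Yᴴ).trace = (X * (h * Y - Y * h)ᴴ).trace := by
  rw [br_ct, hh]
  have e1 : ((h * X - X * h) * Yᴴ).trace = - ((X * h - h * X) * Yᴴ).trace := by
    rw [← trace_neg, ← neg_mul, neg_sub]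
  rw [e1, br_tr, ← trace_neg, ← mul_neg, neg_sub]

theorem ad_star {h : Matrix (Fin N) (Fin N) ℂ} (hh : hᴴ = h) (X : Matrix (Fin N) (Fin N) ℂ) :
    h * Xᴴ - Xᴴ * h = - (h * X - X * h)ᴴ := by
  rw [br_ct, hh]
  abel

theorem jac (A B C : Matrix (Fin N) (Fin N) ℂ) :
    A * (B * C - C * B) - (B * C - C * B) * A =
      ((A * B - B * A) * C - C * (A * B - B * A)) + (B * (A * C - C * A) - (A * C - C * A) * B) := by
  noncomm_ring

theorem tr0 {W : Matrix (Fin N) (Fin N) ℂ} (h : (W * Wᴴ).trace = 0) : W = 0 := by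
  rw [trself] at h
  have h2 : (∑ i, ∑ j, ‖W i j‖ ^ 2 : ℝ) = 0 := by exact_mod_cast h
  ext i j
  rw [Finset.sum_eq_zero_iff_of_nonneg (fun i _ => Finset.sum_nonneg fun j _ => by positivity)] at h2
  have h3 := h2 i (Finset.mem_univ _)
  rw [Finset.sum_eq_zero_iff_of_nonneg (fun j _ => by positivity)] at h3
  have h4 := h3 j (Finset.mem_univ _)
  simpa using h4

theorem trnn (W : Matrix (Fin N) (Fin N) ℂ) : 0 ≤ ((W * Wᴴ).trace).re := by
  rw [trself, Complex.ofReal_re]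
  positivity

theorem trim (W : Matrix (Fin N) (Fin N) ℂ) : (W * Wᴴ).trace = (((W * Wᴴ).trace).re : ℂ) := by
  rw [trself, Complex.ofReal_re]

theorem tr0' {W : Matrix (Fin N) (Fin N) ℂ} (h : ((W * Wᴴ).trace).re = 0) : W = 0 := by
  apply tr0
  rw [trim, h, Complex.ofReal_zero]

/-! ### orthonormal bases -/

section
variable {V : Submodule ℂ (Matrix (Fin N) (Fin N) ℂ)} {m m' : ℕ} {v : Fin m → Matrix (Fin N) (Fin N) ℂ}
  {w : Fin m' → Matrix (Fin N) (Fin N) ℂ}

theorem indep (hv : OB V v) (hw : OB V w) :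
    ∑ k, (v k * (v k)ᴴ - (v k)ᴴ * v k) = ∑ k, (w k * (w k)ᴴ - (w k)ᴴ * w k) := by
  have h1 : ∀ k, v k * (v k)ᴴ - (v k)ᴴ * v k =
      ∑ j, (v k * (w j)ᴴ).trace • (w j * (v k)ᴴ - (v k)ᴴ * w j) := by
    intro k
    have h2 := hw.exp (v k) (hv.mem k)
    have h3 : ∀ Z : Matrix (Fin N) (Fin N) ℂ, v k * Z - Z * v k = ∑ j, (v k * (w j)ᴴ).trace • (w j * Z - Z * w j) := by
      intro Z
      nth_rewrite 1 2 [h2]
      rw [Finset.sum_mul, Finset.mul_sum, ← Finset.sum_sub_distrib]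
      refine Finset.sum_congr rfl fun j _ => ?_
      rw [Matrix.smul_mul, Matrix.mul_smul, smul_sub]
    exact h3 _
  rw [Finset.sum_congr rfl fun k _ => h1 k, Finset.sum_comm]
  refine Finset.sum_congr rfl fun j _ => ?_
  have h4 := hv.exp (w j) (hw.mem j)
  have h5 : (w j)ᴴ = ∑ k, (v k * (w j)ᴴ).trace • (v k)ᴴ := by
    have h6 := congrArg conjTranspose h4
    refine h6.trans ?_
    rw [conjTranspose_sum]
    refine Finset.sum_congr rfl fun k _ => ?_
    rw [conjTranspose_smul, Complex.star_def, trstar]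
  have h7 : ∀ Z : Matrix (Fin N) (Fin N) ℂ, Z * (w j)ᴴ - (w j)ᴴ * Z =
      ∑ k, (v k * (w j)ᴴ).trace • (Z * (v k)ᴴ - (v k)ᴴ * Z) := by
    intro Z
    nth_rewrite 1 2 [h5]
    rw [Finset.sum_mul, Finset.mul_sum, ← Finset.sum_sub_distrib]
    refine Finset.sum_congr rfl fun k _ => ?_
    rw [Matrix.smul_mul, Matrix.mul_smul, smul_sub]
  exact (h7 _).symm

/-- the coordinates with respect to an orthonormal basis -/
theorem pars (hv : OB V v) {X : Matrix (Fin N) (Fin N) ℂ} (hX : X ∈ V) (Y : Matrix (Fin N) (Fin N) ℂ) :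
    (X * Yᴴ).trace = ∑ i, (X * (v i)ᴴ).trace * (v i * Yᴴ).trace := by
  nth_rewrite 1 [hv.exp X hX]
  rw [Finset.sum_mul, trace_sum]
  refine Finset.sum_congr rfl fun i _ => ?_
  rw [Matrix.smul_mul, trace_smul, smul_eq_mul]

theorem bess (hv : OB V v) (W : Matrix (Fin N) (Fin N) ℂ) :
    (W * Wᴴ).trace = ∑ i, (W * (v i)ᴴ).trace * (v i * Wᴴ).trace +
      ((W - ∑ i, (W * (v i)ᴴ).trace • v i) * (W - ∑ i, (W * (v i)ᴴ).trace • v i)ᴴ).trace := by
  have h1 : ∀ j, ((∑ i, (W * (v i)ᴴ).trace • v i) * (v j)ᴴ).trace = (W * (v j)ᴴ).trace := by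
    intro j
    rw [Finset.sum_mul, trace_sum]
    simp only [Matrix.smul_mul, trace_smul, hv.orth, smul_eq_mul]
    simp
  have h2 : ∀ Z : Matrix (Fin N) (Fin N) ℂ, (Z * (∑ i, (W * (v i)ᴴ).trace • v i)ᴴ).trace =
      ∑ i, (v i * Wᴴ).trace * (Z * (v i)ᴴ).trace := by
    intro Z
    rw [conjTranspose_sum, Finset.mul_sum, trace_sum]
    refine Finset.sum_congr rfl fun i _ => ?_
    rw [conjTranspose_smul, Matrix.mul_smul, trace_smul, smul_eq_mul, Complex.star_def, trstar]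
  have h3 : ((∑ i, (W * (v i)ᴴ).trace • v i) * Wᴴ).trace = ∑ i, (W * (v i)ᴴ).trace * (v i * Wᴴ).trace := by
    rw [Finset.sum_mul, trace_sum]
    refine Finset.sum_congr rfl fun i _ => ?_
    rw [Matrix.smul_mul, trace_smul, smul_eq_mul]
  rw [sub_mul, conjTranspose_sub, mul_sub, mul_sub, trace_sub, trace_sub, trace_sub, h2, h2, h3]
  simp only [h1]
  have h4 : ∑ i, (v i * Wᴴ).trace * (W * (v i)ᴴ).trace = ∑ i, (W * (v i)ᴴ).trace * (v i * Wᴴ).trace :=
    Finset.sum_congr rfl fun i _ => mul_comm _ _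
  rw [h4]
  ring

end

/-! ### the positive part of `ad h` -/

/-- a complex Lie algebra of matrices, closed under the adjoint, with a Hermitian element -/
structure GS (G : Submodule ℂ (Matrix (Fin N) (Fin N) ℂ)) (h : Matrix (Fin N) (Fin N) ℂ) : Prop where
  star : ∀ X ∈ G, Xᴴ ∈ G
  br : ∀ X ∈ G, ∀ Y ∈ G, X * Y - Y * X ∈ G
  mem : h ∈ G
  herm : hᴴ = h

/-- the sum of the eigenspaces with positive eigenvalues -/
def nn (G : Submodule ℂ (Matrix (Fin N) (Fin N) ℂ)) (h : Matrix (Fin N) (Fin N) ℂ) :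
    Submodule ℂ (Matrix (Fin N) (Fin N) ℂ) :=
  Submodule.span ℂ {X | X ∈ G ∧ ∃ c : ℝ, 0 < c ∧ h * X - X * h = (c : ℂ) • X}

section
variable {G : Submodule ℂ (Matrix (Fin N) (Fin N) ℂ)} {h : Matrix (Fin N) (Fin N) ℂ}

theorem nnG {X : Matrix (Fin N) (Fin N) ℂ} (hX : X ∈ nn G h) : X ∈ G := by
  have h1 : nn G h ≤ G := by
    rw [nn, Submodule.span_le]
    exact fun X hX => hX.1
  exact h1 hX

/-- induction for linear properties -/
theorem nn_ind {p : Matrix (Fin N) (Fin N) ℂ → Prop}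
    (h1 : ∀ X ∈ G, ∀ c : ℝ, 0 < c → h * X - X * h = (c : ℂ) • X → p X) (h0 : p 0)
    (ha : ∀ X Y, p X → p Y → p (X + Y)) (hs : ∀ (c : ℂ) X, p X → p (c • X))
    {X : Matrix (Fin N) (Fin N) ℂ} (hX : X ∈ nn G h) : p X := by
  refine Submodule.span_induction (p := fun X _ => p X) ?_ h0 (fun X Y _ _ a b => ha X Y a b)
    (fun c X _ a => hs c X a) hX
  rintro X ⟨hX, c, hc, he⟩
  exact h1 X hX c hc he

theorem nn_ad {X : Matrix (Fin N) (Fin N) ℂ} (hX : X ∈ nn G h) : h * X - X * h ∈ nn G h := by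
  refine nn_ind (p := fun X => h * X - X * h ∈ nn G h) ?_ ?_ ?_ ?_ hX
  · intro X hX c hc he
    rw [he]
    exact Submodule.smul_mem _ _ (Submodule.subset_span ⟨hX, c, hc, he⟩)
  · simp
  · intro X Y a b
    have e : h * (X + Y) - (X + Y) * h = (h * X - X * h) + (h * Y - Y * h) := by noncomm_ring
    show _ ∈ _
    rw [e]
    exact Submodule.add_mem _ a b
  · intro c X a
    show _ ∈ _
    rw [Matrix.mul_smul, Matrix.smul_mul, ← smul_sub]
    exact Submodule.smul_mem _ _ a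

theorem nn_l (g : GS G h) {Y : Matrix (Fin N) (Fin N) ℂ} (hY : Y ∈ G) (hY0 : h * Y - Y * h = 0)
    {X : Matrix (Fin N) (Fin N) ℂ} (hX : X ∈ nn G h) : Y * X - X * Y ∈ nn G h := by
  refine nn_ind (p := fun X => Y * X - X * Y ∈ nn G h) ?_ ?_ ?_ ?_ hX
  · intro X hX c hc he
    refine Submodule.subset_span ⟨g.br _ hY _ hX, c, hc, ?_⟩
    rw [jac, hY0, he, zero_mul, mul_zero, sub_zero, zero_add, Matrix.mul_smul, Matrix.smul_mul, ← smul_sub]
  · simp
  · intro X Z a b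
    have e : Y * (X + Z) - (X + Z) * Y = (Y * X - X * Y) + (Y * Z - Z * Y) := by noncomm_ring
    show _ ∈ _
    rw [e]
    exact Submodule.add_mem _ a b
  · intro c X a
    show _ ∈ _
    rw [Matrix.mul_smul, Matrix.smul_mul, ← smul_sub]
    exact Submodule.smul_mem _ _ a

theorem nn_br (g : GS G h) {X Y : Matrix (Fin N) (Fin N) ℂ} (hX : X ∈ nn G h) (hY : Y ∈ nn G h) :
    X * Y - Y * X ∈ nn G h := by
  refine nn_ind (p := fun X => X * Y - Y * X ∈ nn G h) ?_ ?_ ?_ ?_ hX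
  · intro X hX c hc he
    refine nn_ind (p := fun Y => X * Y - Y * X ∈ nn G h) ?_ ?_ ?_ ?_ hY
    · intro Y hY c' hc' he'
      refine Submodule.subset_span ⟨g.br _ hX _ hY, c + c', add_pos hc hc', ?_⟩
      rw [jac, he, he', Matrix.mul_smul, Matrix.smul_mul, Matrix.mul_smul, Matrix.smul_mul, ← smul_sub,
        ← smul_sub, ← add_smul]
      push_cast
      rfl
    · simp
    · intro Y Z a b
      have e : X * (Y + Z) - (Y + Z) * X = (X * Y - Y * X) + (X * Z - Z * X) := by noncomm_ring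
      show _ ∈ _
      rw [e]
      exact Submodule.add_mem _ a b
    · intro c X a
      show _ ∈ _
      rw [Matrix.mul_smul, Matrix.smul_mul, ← smul_sub]
      exact Submodule.smul_mem _ _ a
  · simp
  · intro X Z a b
    have e : (X + Z) * Y - Y * (X + Z) = (X * Y - Y * X) + (Z * Y - Y * Z) := by noncomm_ring
    show _ ∈ _
    rw [e]
    exact Submodule.add_mem _ a b
  · intro c X a
    show _ ∈ _
    rw [Matrix.mul_smul, Matrix.smul_mul, ← smul_sub]
    exact Submodule.smul_mem _ _ a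

/-- eigenvectors with different eigenvalues -/
theorem eig2 {X Y : Matrix (Fin N) (Fin N) ℂ} {c c' : ℂ} (hX : h * X - X * h = c • X)
    (hY : h * Y - Y * h = c' • Y) (hc : c + c' ≠ 0) : (X * Y).trace = 0 := by
  have h1 : ((h * X - X * h) * Y).trace + (X * (h * Y - Y * h)).trace = 0 := by
    have e : (h * X - X * h) * Y + X * (h * Y - Y * h) = h * (X * Y) - (X * Y) * h := by noncomm_ring
    rw [← trace_add, e, trace_sub, trace_mul_comm, sub_self]
  rw [hX, hY, Matrix.smul_mul, Matrix.mul_smul, trace_smul, trace_smul, smul_eq_mul, smul_eq_mul,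
    ← add_mul] at h1
  exact (mul_eq_zero.1 h1).resolve_left hc

theorem nn_tr {X Y : Matrix (Fin N) (Fin N) ℂ} (hX : X ∈ nn G h) (hY : Y ∈ nn G h) : (X * Y).trace = 0 := by
  refine nn_ind (p := fun X => (X * Y).trace = 0) ?_ ?_ ?_ ?_ hX
  · intro X hX c hc he
    refine nn_ind (p := fun Y => (X * Y).trace = 0) ?_ ?_ ?_ ?_ hY
    · intro Y hY c' hc' he'
      refine eig2 he he' ?_
      have : (c : ℂ) + c' = ((c + c' : ℝ) : ℂ) := by push_cast; rfl
      rw [this]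
      exact_mod_cast (add_pos hc hc').ne'
    · simp
    · intro Y Z a b
      rw [mul_add, trace_add, a, b, add_zero]
    · intro c Y a
      rw [Matrix.mul_smul, trace_smul, a, smul_zero]
  · simp
  · intro Y Z a b
    rw [add_mul, trace_add, a, b, add_zero]
  · intro c Y a
    rw [Matrix.smul_mul, trace_smul, a, smul_zero]

theorem nn_tr0 {X Y : Matrix (Fin N) (Fin N) ℂ} (hX : X ∈ nn G h) (hY : h * Y - Y * h = 0) :
    (X * Y).trace = 0 := by
  refine nn_ind (p := fun X => (X * Y).trace = 0) ?_ ?_ ?_ ?_ hX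
  · intro X hX c hc he
    refine eig2 (c' := 0) he (by rw [hY, zero_smul]) ?_
    rw [add_zero]
    exact_mod_cast hc.ne'
  · simp
  · intro Y Z a b
    rw [add_mul, trace_add, a, b, add_zero]
  · intro c Y a
    rw [Matrix.smul_mul, trace_smul, a, smul_zero]

/-- the decomposition into the three parts -/
theorem dec (g : GS G h) {X : Matrix (Fin N) (Fin N) ℂ} (hX : X ∈ G) :
    ∃ Z ∈ nn G h, ∃ Y ∈ G, ∃ W ∈ nn G h, h * Y - Y * h = 0 ∧ X = Zᴴ + Y + W := by
  obtain ⟨m, v, c, hv, he, -⟩ := spec G h g.herm (fun X hX => g.br _ g.mem _ hX)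
  have key : ∀ i, ∃ Z ∈ nn G h, ∃ Y ∈ G, ∃ W ∈ nn G h, h * Y - Y * h = 0 ∧ v i = Zᴴ + Y + W := by
    intro i
    rcases lt_trichotomy (c i) 0 with h1 | h1 | h1
    · refine ⟨(v i)ᴴ, Submodule.subset_span ⟨g.star _ (hv.mem i), -(c i), by linarith, ?_⟩, 0, G.zero_mem, 0,
        Submodule.zero_mem _, by simp, by simp⟩
      rw [ad_star g.herm, he i, conjTranspose_smul, Complex.star_def, Complex.conj_ofReal]
      push_cast
      rw [neg_smul]
    · refine ⟨0, Submodule.zero_mem _, v i, hv.mem i, 0, Submodule.zero_mem _, ?_, by simp⟩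
      rw [he i, h1]
      simp
    · exact ⟨0, Submodule.zero_mem _, 0, G.zero_mem, v i, Submodule.subset_span ⟨hv.mem i, c i, h1, he i⟩,
        by simp, by simp⟩
  choose Z hZ Y hY W hW h0 hs using key
  refine ⟨∑ i, conj ((X * (v i)ᴴ).trace) • Z i, Submodule.sum_mem _ fun i _ => Submodule.smul_mem _ _ (hZ i),
    ∑ i, (X * (v i)ᴴ).trace • Y i, Submodule.sum_mem _ fun i _ => Submodule.smul_mem _ _ (hY i),
    ∑ i, (X * (v i)ᴴ).trace • W i, Submodule.sum_mem _ fun i _ => Submodule.smul_mem _ _ (hW i), ?_, ?_⟩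
  · rw [Finset.mul_sum, Finset.sum_mul, ← Finset.sum_sub_distrib]
    refine Finset.sum_eq_zero fun i _ => ?_
    rw [Matrix.mul_smul, Matrix.smul_mul, ← smul_sub, h0 i, smul_zero]
  · rw [conjTranspose_sum, ← Finset.sum_add_distrib, ← Finset.sum_add_distrib]
    nth_rewrite 1 [hv.exp X hX]
    refine Finset.sum_congr rfl fun i _ => ?_
    rw [conjTranspose_smul, Complex.star_def, Complex.conj_conj, ← smul_add, ← smul_add, ← hs i]

/-- `ad h` is positive on the positive part -/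
theorem nn_pos {X : Matrix (Fin N) (Fin N) ℂ} (g : GS G h) (hX : X ∈ nn G h)
    (h0 : (((h * X - X * h) * Xᴴ).trace).re ≤ 0) : X = 0 := by
  obtain ⟨m, v, c, hv, he, -⟩ := spec (nn G h) h g.herm (fun X hX => nn_ad hX)
  have hc : ∀ i, 0 < c i := by
    intro i
    by_contra hci
    have h1 : v i = 0 := by
      have h2 : ∀ Y ∈ nn G h, (Y * (v i)ᴴ).trace = 0 := by
        intro Y hY
        refine nn_ind (p := fun Y => (Y * (v i)ᴴ).trace = 0) ?_ ?_ ?_ ?_ hY
        · intro Y hY c' hc' he'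
          refine eig2 (c := c') (c' := -(c i : ℂ)) he' ?_ ?_
          · rw [ad_star g.herm, he i, conjTranspose_smul, Complex.star_def, Complex.conj_ofReal, neg_smul]
          · have : (c' : ℂ) + -(c i : ℂ) = ((c' - c i : ℝ) : ℂ) := by push_cast; ring
            rw [this]
            have h3 : 0 < c' - c i := by linarith
            exact_mod_cast h3.ne'
        · simp
        · intro Y Z a b
          rw [add_mul, trace_add, a, b, add_zero]
        · intro c Y a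
          rw [Matrix.smul_mul, trace_smul, a, smul_zero]
      exact tr0 (h2 _ (hv.mem i))
    have h4 := hv.orth i i
    rw [h1] at h4
    simp at h4
  have h1 : ((h * X - X * h) * Xᴴ).trace = ((∑ i, c i * ‖(X * (v i)ᴴ).trace‖ ^ 2 : ℝ) : ℂ) := by
    have h2 : h * X - X * h = ∑ i, (X * (v i)ᴴ).trace • ((c i : ℂ) • v i) := by
      nth_rewrite 1 2 [hv.exp X hX]
      rw [Finset.mul_sum, Finset.sum_mul, ← Finset.sum_sub_distrib]
      refine Finset.sum_congr rfl fun i _ => ?_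
      rw [Matrix.mul_smul, Matrix.smul_mul, ← smul_sub, he i]
    rw [h2, Finset.sum_mul, trace_sum]
    push_cast
    refine Finset.sum_congr rfl fun i _ => ?_
    rw [Matrix.smul_mul, Matrix.smul_mul, trace_smul, trace_smul, smul_eq_mul, smul_eq_mul, ← trstar X (v i),
      ← Complex.mul_conj']
    ring
  rw [h1, Complex.ofReal_re] at h0
  have h3 : ∀ i ∈ Finset.univ, c i * ‖(X * (v i)ᴴ).trace‖ ^ 2 = 0 := by
    have h4 : ∀ i ∈ Finset.univ, 0 ≤ c i * ‖(X * (v i)ᴴ).trace‖ ^ 2 := fun i _ =>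
      mul_nonneg (hc i).le (by positivity)
    exact (Finset.sum_eq_zero_iff_of_nonneg h4).1 (le_antisymm h0 (Finset.sum_nonneg h4))
  rw [hv.exp X hX]
  refine Finset.sum_eq_zero fun i hi => ?_
  have h4 := (mul_eq_zero.1 (h3 i hi)).resolve_left (hc i).ne'
  have h5 : (X * (v i)ᴴ).trace = 0 := by simpa using h4
  rw [h5, zero_smul]

end

/-! ### the element `δ` -/

/-- `∑ [e k, (e k)ᴴ]` -/
def dl {m : ℕ} (e : Fin m → Matrix (Fin N) (Fin N) ℂ) : Matrix (Fin N) (Fin N) ℂ :=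
  ∑ k, (e k * (e k)ᴴ - (e k)ᴴ * e k)

section
variable {G : Submodule ℂ (Matrix (Fin N) (Fin N) ℂ)} {h : Matrix (Fin N) (Fin N) ℂ} {m : ℕ}
  {e : Fin m → Matrix (Fin N) (Fin N) ℂ}

theorem dl_herm : (dl e)ᴴ = dl e := by
  rw [dl, conjTranspose_sum]
  refine Finset.sum_congr rfl fun k _ => ?_
  rw [br_ct, conjTranspose_conjTranspose]

theorem dl_mem (g : GS G h) (he : OB (nn G h) e) : dl e ∈ G :=
  Submodule.sum_mem _ fun k _ => g.br _ (nnG (he.mem k)) _ (g.star _ (nnG (he.mem k)))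

theorem dl_com (g : GS G h) (he : OB (nn G h) e) : h * dl e - dl e * h = 0 := by
  obtain ⟨m', v, c, hv, hc, -⟩ := spec (nn G h) h g.herm (fun X hX => nn_ad hX)
  have h1 : dl e = dl v := indep he hv
  rw [h1, dl, Finset.mul_sum, Finset.sum_mul, ← Finset.sum_sub_distrib]
  refine Finset.sum_eq_zero fun k _ => ?_
  have h2 : h * (v k)ᴴ - (v k)ᴴ * h = -((c k : ℂ) • (v k)ᴴ) := by
    rw [ad_star g.herm, hc k, conjTranspose_smul, Complex.star_def, Complex.conj_ofReal]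
  rw [jac, hc k, h2]
  simp only [Matrix.mul_smul, Matrix.smul_mul, mul_neg, neg_mul]
  abel

/-- the formula for `⟨[δ, y], y⟩` -/
theorem dl_tr (y : Matrix (Fin N) (Fin N) ℂ) : ((dl e * y - y * dl e) * yᴴ).trace =
    ∑ k, (((yᴴ * e k - e k * yᴴ) * (yᴴ * e k - e k * yᴴ)ᴴ).trace -
      ((y * e k - e k * y) * (y * e k - e k * y)ᴴ).trace) := by
  rw [br_tr, dl, Finset.sum_mul, trace_sum]
  refine Finset.sum_congr rfl fun k _ => ?_
  rw [br_ct, br_ct, conjTranspose_conjTranspose]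
  generalize e k = a
  have e1 : ((a * aᴴ - aᴴ * a) * (y * yᴴ - yᴴ * y)).trace =
      (a * (aᴴ * (y * yᴴ - yᴴ * y) - (y * yᴴ - yᴴ * y) * aᴴ)).trace := br_tr _ _ _
  have e2 : ((yᴴ * a - a * yᴴ) * (aᴴ * y - y * aᴴ)).trace =
      (a * ((aᴴ * y - y * aᴴ) * yᴴ - yᴴ * (aᴴ * y - y * aᴴ))).trace := by
    rw [show (yᴴ * a - a * yᴴ) = -(a * yᴴ - yᴴ * a) by abel, neg_mul, trace_neg, br_tr, ← trace_neg, ← mul_neg,
      neg_sub]
  have e3 : ((y * a - a * y) * (aᴴ * yᴴ - yᴴ * aᴴ)).trace =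
      (a * ((aᴴ * yᴴ - yᴴ * aᴴ) * y - y * (aᴴ * yᴴ - yᴴ * aᴴ))).trace := by
    rw [show (y * a - a * y) = -(a * y - y * a) by abel, neg_mul, trace_neg, br_tr, ← trace_neg, ← mul_neg,
      neg_sub]
  rw [e1, e2, e3, ← trace_sub]
  congr 1
  noncomm_ring

/-- `ad δ` is positive on the positive part -/
theorem dl_pos (g : GS G h) (he : OB (nn G h) e) {y : Matrix (Fin N) (Fin N) ℂ} (hy : y ∈ nn G h)
    (h0 : (((dl e * y - y * dl e) * yᴴ).trace).re ≤ 0) : y = 0 := by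
  have h1 : ((dl e * y - y * dl e) * yᴴ).trace = ∑ k,
      (((yᴴ * e k - e k * yᴴ) - ∑ i, ((yᴴ * e k - e k * yᴴ) * (e i)ᴴ).trace • e i) *
        ((yᴴ * e k - e k * yᴴ) - ∑ i, ((yᴴ * e k - e k * yᴴ) * (e i)ᴴ).trace • e i)ᴴ).trace := by
    rw [dl_tr, Finset.sum_sub_distrib]
    have h2 : ∀ k, ((y * e k - e k * y) * (y * e k - e k * y)ᴴ).trace =
        ∑ i, ((y * e k - e k * y) * (e i)ᴴ).trace * (e i * (y * e k - e k * y)ᴴ).trace := fun k =>
      pars he (nn_br g hy (he.mem k)) _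
    have h3 : ∀ k i, ((y * e k - e k * y) * (e i)ᴴ).trace = (e k * (yᴴ * e i - e i * yᴴ)ᴴ).trace := by
      intro k i
      rw [br_ct, conjTranspose_conjTranspose, show (y * e k - e k * y) = -(e k * y - y * e k) by abel, neg_mul,
        trace_neg, br_tr, ← trace_neg, ← mul_neg, neg_sub]
    have h4 : ∀ k i, (e i * (y * e k - e k * y)ᴴ).trace = ((yᴴ * e i - e i * yᴴ) * (e k)ᴴ).trace := by
      intro k i
      rw [← trstar, h3, trstar]
    simp only [h2, h3, h4]
    rw [Finset.sum_comm (f := fun k i => (e k * (yᴴ * e i - e i * yᴴ)ᴴ).trace * ((yᴴ * e i - e i * yᴴ) * (e k)ᴴ).trace),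
      ← Finset.sum_sub_distrib]
    refine Finset.sum_congr rfl fun k _ => ?_
    rw [bess he (yᴴ * e k - e k * yᴴ)]
    have h5 : ∑ i, (e i * (yᴴ * e k - e k * yᴴ)ᴴ).trace * ((yᴴ * e k - e k * yᴴ) * (e i)ᴴ).trace =
        ∑ i, ((yᴴ * e k - e k * yᴴ) * (e i)ᴴ).trace * (e i * (yᴴ * e k - e k * yᴴ)ᴴ).trace :=
      Finset.sum_congr rfl fun i _ => mul_comm _ _
    rw [h5]
    ring
  rw [h1, Complex.re_sum] at h0
  have h2 : ∀ k ∈ Finset.univ,
      (((yᴴ * e k - e k * yᴴ) - ∑ i, ((yᴴ * e k - e k * yᴴ) * (e i)ᴴ).trace • e i) *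
        ((yᴴ * e k - e k * yᴴ) - ∑ i, ((yᴴ * e k - e k * yᴴ) * (e i)ᴴ).trace • e i)ᴴ).trace.re = 0 :=
    (Finset.sum_eq_zero_iff_of_nonneg (fun k _ => trnn _)).1 (le_antisymm h0 (Finset.sum_nonneg fun k _ => trnn _))
  have h3 : ∀ k, yᴴ * e k - e k * yᴴ ∈ nn G h := by
    intro k
    have h4 := tr0' (h2 k (Finset.mem_univ _))
    rw [sub_eq_zero.1 h4]
    exact Submodule.sum_mem _ fun i _ => Submodule.smul_mem _ _ (he.mem i)
  have h4 : yᴴ * y - y * yᴴ ∈ nn G h := by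
    have h5 : yᴴ * y - y * yᴴ = ∑ k, (y * (e k)ᴴ).trace • (yᴴ * e k - e k * yᴴ) := by
      have h6 : ∀ Z : Matrix (Fin N) (Fin N) ℂ, Z * y - y * Z = ∑ k, (y * (e k)ᴴ).trace • (Z * e k - e k * Z) := by
        intro Z
        nth_rewrite 1 2 [he.exp y hy]
        rw [Finset.sum_mul, Finset.mul_sum, ← Finset.sum_sub_distrib]
        refine Finset.sum_congr rfl fun k _ => ?_
        rw [Matrix.smul_mul, Matrix.mul_smul, smul_sub]
      exact h6 _
    rw [h5]
    exact Submodule.sum_mem _ fun i _ => Submodule.smul_mem _ _ (h3 i)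
  have h5 : ((yᴴ * y - y * yᴴ) * h).trace = 0 := nn_tr0 h4 (sub_self _)
  apply nn_pos g hy
  have h6 : ((h * y - y * h) * yᴴ).trace = 0 := by
    rw [br_tr, trace_mul_comm, show (y * yᴴ - yᴴ * y) = -(yᴴ * y - y * yᴴ) by abel, neg_mul, trace_neg, h5, neg_zero]
  rw [h6, Complex.zero_re]

/-- the centralizer of `δ` -/
theorem dl_cen (g : GS G h) (he : OB (nn G h) e) (hl : ∀ Y ∈ G, h * Y - Y * h = 0 → dl e * Y - Y * dl e = 0)
    {X : Matrix (Fin N) (Fin N) ℂ} (hX : X ∈ G) (h0 : dl e * X - X * dl e = 0) : h * X - X * h = 0 := by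
  obtain ⟨Z, hZ, Y, hY, W, hW, hY0, rfl⟩ := dec g hX
  have hdn : ∀ W ∈ nn G h, dl e * W - W * dl e ∈ nn G h := fun W hW => nn_l g (dl_mem g he) (dl_com g he) hW
  have h1 : (dl e * Zᴴ - Zᴴ * dl e) + (dl e * W - W * dl e) = 0 := by
    have h2 := hl Y hY hY0
    have h3 : dl e * (Zᴴ + Y + W) - (Zᴴ + Y + W) * dl e =
        (dl e * Zᴴ - Zᴴ * dl e) + (dl e * W - W * dl e) + (dl e * Y - Y * dl e) := by noncomm_ring
    rw [h3, h2, add_zero] at h0
    exact h0
  rw [ad_star dl_herm] at h1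
  -- h1 : -(dl e * Z - Z * dl e)ᴴ + (dl e * W - W * dl e) = 0
  have h2 : dl e * W - W * dl e = (dl e * Z - Z * dl e)ᴴ := by
    have := h1
    rw [neg_add_eq_sub, sub_eq_zero] at this
    exact this
  have hW0 : W = 0 := by
    apply dl_pos g he hW
    rw [h2, ← conjTranspose_mul, trace_conjTranspose, nn_tr hW (hdn Z hZ), star_zero, Complex.zero_re]
  have hZ0 : Z = 0 := by
    apply dl_pos g he hZ
    have h3 : dl e * Z - Z * dl e = (dl e * W - W * dl e)ᴴ := by rw [h2, conjTranspose_conjTranspose]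
    rw [h3, ← conjTranspose_mul, trace_conjTranspose, nn_tr hZ (hdn W hW), star_zero, Complex.zero_re]
  rw [hW0, hZ0, conjTranspose_zero, zero_add, add_zero]
  exact hY0

/-- uniqueness of the decomposition -/
theorem dec0 {Z Y W : Matrix (Fin N) (Fin N) ℂ} (g : GS G h) (hZ : Z ∈ nn G h)
    (hY : h * Y - Y * h = 0) (hW : W ∈ nn G h) (h0 : Zᴴ + Y + W = 0) : Z = 0 ∧ Y = 0 ∧ W = 0 := by
  have hYs : h * Yᴴ - Yᴴ * h = 0 := by rw [ad_star g.herm, hY, conjTranspose_zero, neg_zero]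
  have hW0 : W = 0 := by
    apply tr0
    have h1 : ((Zᴴ + Y + W) * Wᴴ).trace = 0 := by rw [h0, zero_mul, trace_zero]
    have h2 : (Zᴴ * Wᴴ).trace = 0 := by
      rw [← conjTranspose_mul, trace_conjTranspose, nn_tr hW hZ, star_zero]
    have h3 : (Y * Wᴴ).trace = 0 := by
      rw [← trstar, nn_tr0 hW hYs, map_zero]
    rw [add_mul, add_mul, trace_add, trace_add, h2, h3, zero_add, zero_add] at h1
    exact h1
  have hZ0 : Z = 0 := by
    apply tr0
    have h1 : ((Zᴴ + Y + W) * Z).trace = 0 := by rw [h0, zero_mul, trace_zero]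
    have h3 : (Y * Z).trace = 0 := by
      rw [trace_mul_comm, nn_tr0 hZ hY]
    rw [add_mul, add_mul, trace_add, trace_add, h3, nn_tr hW hZ, add_zero, add_zero, trace_mul_comm] at h1
    exact h1
  refine ⟨hZ0, ?_, hW0⟩
  rw [hW0, hZ0, conjTranspose_zero, zero_add, add_zero] at h0
  exact h0

end

/-! ### the complex extension of `τ` -/

theorem rsmul (c : ℝ) (X : Matrix (Fin N) (Fin N) ℂ) : (c : ℂ) • X = c • X := by
  ext i j
  simp

/-- the complex extension of `τ` -/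
def tc (τ : Matrix (Fin N) (Fin N) ℂ →ₗ[ℝ] Matrix (Fin N) (Fin N) ℂ) (Z : Matrix (Fin N) (Fin N) ℂ) :
    Matrix (Fin N) (Fin N) ℂ :=
  (1 / 2 : ℂ) • (τ (Z - Zᴴ) - Complex.I • τ (Complex.I • (Z + Zᴴ)))

section
variable {H K : Subgroup (SU N)} {σ : H →* H}
  {τ : Matrix (Fin N) (Fin N) ℂ →ₗ[ℝ] Matrix (Fin N) (Fin N) ℂ}

theorem sub (h : LIF H) {X Y : Matrix (Fin N) (Fin N) ℂ} (hX : X ∈ lie H) (hY : Y ∈ lie H) :
    X - Y ∈ lie H := by
  have h1 := h.add X hX _ (h.smul (-1) Y hY)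
  have h2 : X + ((-1 : ℝ) : ℂ) • Y = X - Y := by
    push_cast
    rw [neg_smul, one_smul, sub_eq_add_neg]
  rwa [h2] at h1

theorem ct (h : LIF H) {X : Matrix (Fin N) (Fin N) ℂ} (hX : X ∈ lie H) : Xᴴ = -X := (h.su X hX).1

theorem tc_eq (h : LIF H) {U V : Matrix (Fin N) (Fin N) ℂ} (hU : U ∈ lie H) (hV : V ∈ lie H) :
    tc τ (U + Complex.I • V) = τ U + Complex.I • τ V := by
  have e0 : (U + Complex.I • V)ᴴ = -U + Complex.I • V := by
    rw [conjTranspose_add, conjTranspose_smul, ct h hU, ct h hV, Complex.star_def, Complex.conj_I, neg_smul,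
      smul_neg, neg_neg]
  have e1 : U + Complex.I • V - (-U + Complex.I • V) = (2 : ℝ) • U := by
    rw [two_smul]
    abel
  have e2 : Complex.I • (U + Complex.I • V + (-U + Complex.I • V)) = (-2 : ℝ) • V := by
    have e3 : U + Complex.I • V + (-U + Complex.I • V) = (2 * Complex.I) • V := by
      rw [two_mul, add_smul]
      abel
    rw [e3, smul_smul, ← rsmul]
    congr 1
    push_cast
    linear_combination 2 * Complex.I_mul_I
  rw [tc, e0, e1, e2, map_smul, map_smul, ← rsmul, ← rsmul, smul_sub, smul_smul, smul_smul, smul_smul]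
  rw [sub_eq_add_neg, ← neg_smul]
  congr 1
  · push_cast
    norm_num
  · congr 1
    push_cast
    ring

theorem tc_lie (h : LIF H) {U : Matrix (Fin N) (Fin N) ℂ} (hU : U ∈ lie H) : tc τ U = τ U := by
  have h1 := tc_eq (τ := τ) h hU h.zero
  rw [smul_zero, add_zero, map_zero, smul_zero, add_zero] at h1
  exact h1

theorem tc_add (X Y : Matrix (Fin N) (Fin N) ℂ) : tc τ (X + Y) = tc τ X + tc τ Y := by
  have e1 : X + Y - (X + Y)ᴴ = (X - Xᴴ) + (Y - Yᴴ) := by
    rw [conjTranspose_add]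
    abel
  have e2 : Complex.I • (X + Y + (X + Y)ᴴ) = Complex.I • (X + Xᴴ) + Complex.I • (Y + Yᴴ) := by
    rw [conjTranspose_add, ← smul_add]
    congr 1
    abel
  rw [tc, tc, tc, e1, e2, map_add, map_add, ← smul_add, smul_add Complex.I]
  congr 1
  abel

theorem tc_rsmul (c : ℝ) (X : Matrix (Fin N) (Fin N) ℂ) : tc τ ((c : ℂ) • X) = (c : ℂ) • tc τ X := by
  have e1 : (c : ℂ) • X - ((c : ℂ) • X)ᴴ = c • (X - Xᴴ) := by
    rw [conjTranspose_smul, Complex.star_def, Complex.conj_ofReal, ← smul_sub, rsmul]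
  have e2 : Complex.I • ((c : ℂ) • X + ((c : ℂ) • X)ᴴ) = c • (Complex.I • (X + Xᴴ)) := by
    rw [conjTranspose_smul, Complex.star_def, Complex.conj_ofReal, ← smul_add, ← rsmul, smul_comm]
  rw [tc, tc, e1, e2, map_smul, map_smul, ← rsmul, ← rsmul, smul_comm Complex.I (c : ℂ), ← smul_sub,
    smul_comm (c : ℂ)]

theorem tc_I (X : Matrix (Fin N) (Fin N) ℂ) : tc τ (Complex.I • X) = Complex.I • tc τ X := by
  have e0 : (Complex.I • X)ᴴ = -(Complex.I • Xᴴ) := by
    rw [conjTranspose_smul, Complex.star_def, Complex.conj_I, neg_smul]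
  have e1 : Complex.I • X - (Complex.I • X)ᴴ = Complex.I • (X + Xᴴ) := by
    rw [e0, smul_add]
    abel
  have e2 : Complex.I • (Complex.I • X + (Complex.I • X)ᴴ) = -(X - Xᴴ) := by
    rw [e0, ← sub_eq_add_neg, ← smul_sub, smul_smul, Complex.I_mul_I, neg_smul, one_smul]
  rw [tc, tc, e1, e2, map_neg, smul_neg, smul_comm Complex.I, smul_sub Complex.I, smul_smul Complex.I Complex.I,
    Complex.I_mul_I, neg_smul, one_smul]
  congr 1
  abel

theorem tc_smul (c : ℂ) (X : Matrix (Fin N) (Fin N) ℂ) : tc τ (c • X) = c • tc τ X := by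
  have h1 : ∀ Z : Matrix (Fin N) (Fin N) ℂ, c • Z = (c.re : ℂ) • Z + Complex.I • ((c.im : ℂ) • Z) := by
    intro Z
    rw [smul_smul, ← add_smul, mul_comm Complex.I, Complex.re_add_im]
  rw [h1 X, tc_add, tc_rsmul, tc_I, tc_rsmul, ← h1]

theorem tc_zero : tc τ 0 = 0 := by
  have h1 := tc_smul (τ := τ) (0 : ℂ) 0
  rw [zero_smul, zero_smul] at h1
  exact h1

theorem tc_neg (X : Matrix (Fin N) (Fin N) ℂ) : tc τ (-X) = -tc τ X := by
  have h1 := tc_smul (τ := τ) (-1 : ℂ) X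
  rw [neg_smul, neg_smul, one_smul, one_smul] at h1
  exact h1

theorem tc_sub (X Y : Matrix (Fin N) (Fin N) ℂ) : tc τ (X - Y) = tc τ X - tc τ Y := by
  rw [sub_eq_add_neg, tc_add, tc_neg, ← sub_eq_add_neg]

theorem tc_sum {ι : Type} (s : Finset ι) (f : ι → Matrix (Fin N) (Fin N) ℂ) :
    tc τ (∑ i ∈ s, f i) = ∑ i ∈ s, tc τ (f i) := by
  classical
  induction s using Finset.induction_on with
  | empty => simp [tc_zero]
  | insert a s ha ih => rw [Finset.sum_insert ha, Finset.sum_insert ha, tc_add, ih]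

/-- the facts about the complex extension on the complexification -/
structure TCF (G : Submodule ℂ (Matrix (Fin N) (Fin N) ℂ))
    (τ : Matrix (Fin N) (Fin N) ℂ →ₗ[ℝ] Matrix (Fin N) (Fin N) ℂ) : Prop where
  mem : ∀ Z ∈ G, tc τ Z ∈ G
  inv : ∀ Z ∈ G, tc τ (tc τ Z) = Z
  star : ∀ Z ∈ G, tc τ Zᴴ = (tc τ Z)ᴴ
  br : ∀ Z ∈ G, ∀ W ∈ G, tc τ (Z * W - W * Z) = tc τ Z * tc τ W - tc τ W * tc τ Z
  tr : ∀ Z ∈ G, ∀ W ∈ G, (tc τ Z * tc τ W).trace = (Z * W).trace

theorem tcf (h : LIF H) (hs : SymP H K σ τ) (ht : TSF H σ τ) {G : Submodule ℂ (Matrix (Fin N) (Fin N) ℂ)}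
    (hG : ∀ Z, Z ∈ G ↔ ∃ X ∈ lie H, ∃ Y ∈ lie H, Z = X + Complex.I • Y) : TCF G τ := by
  refine ⟨?_, ?_, ?_, ?_, ?_⟩
  · intro Z hZ
    obtain ⟨X, hX, Y, hY, rfl⟩ := (hG Z).1 hZ
    rw [tc_eq h hX hY]
    exact (hG _).2 ⟨_, hs.mem _ hX, _, hs.mem _ hY, rfl⟩
  · intro Z hZ
    obtain ⟨X, hX, Y, hY, rfl⟩ := (hG Z).1 hZ
    rw [tc_eq h hX hY, tc_eq h (hs.mem _ hX) (hs.mem _ hY), ht.inv _ hX, ht.inv _ hY]
  · intro Z hZ
    obtain ⟨X, hX, Y, hY, rfl⟩ := (hG Z).1 hZ
    rw [tc_eq h hX hY, conjTranspose_add, conjTranspose_add, conjTranspose_smul, conjTranspose_smul,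
      ct h hX, ct h hY, ct h (hs.mem _ hX), ct h (hs.mem _ hY), tc_add, tc_neg, tc_lie h hX, tc_smul, tc_neg,
      tc_lie h hY]
  · intro Z hZ W hW
    obtain ⟨X, hX, Y, hY, rfl⟩ := (hG Z).1 hZ
    obtain ⟨X', hX', Y', hY', rfl⟩ := (hG W).1 hW
    have e : ∀ A B C D : Matrix (Fin N) (Fin N) ℂ, (A + Complex.I • B) * (C + Complex.I • D) -
        (C + Complex.I • D) * (A + Complex.I • B) = (A * C - C * A) + Complex.I • (A * D - D * A) +
        Complex.I • (B * C - C * B) - (B * D - D * B) := by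
      intro A B C D
      simp only [mul_add, add_mul, Matrix.smul_mul, Matrix.mul_smul, smul_smul, Complex.I_mul_I, smul_sub,
        neg_smul, one_smul]
      abel
    rw [e, tc_eq h hX hY, tc_eq h hX' hY', e, tc_sub, tc_add, tc_add, tc_smul, tc_smul,
      tc_lie h (h.br _ hX _ hX'), tc_lie h (h.br _ hX _ hY'), tc_lie h (h.br _ hY _ hX'), tc_lie h (h.br _ hY _ hY'),
      ht.br _ hX _ hX', ht.br _ hX _ hY', ht.br _ hY _ hX', ht.br _ hY _ hY']
  · intro Z hZ W hW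
    obtain ⟨X, hX, Y, hY, rfl⟩ := (hG Z).1 hZ
    obtain ⟨X', hX', Y', hY', rfl⟩ := (hG W).1 hW
    rw [tc_eq h hX hY, tc_eq h hX' hY']
    simp only [mul_add, add_mul, Matrix.smul_mul, Matrix.mul_smul, smul_smul, Complex.I_mul_I, trace_add,
      trace_smul, ht.tr _ hX _ hX', ht.tr _ hX _ hY', ht.tr _ hY _ hX', ht.tr _ hY _ hY']

end

section
variable {G : Submodule ℂ (Matrix (Fin N) (Fin N) ℂ)} {h : Matrix (Fin N) (Fin N) ℂ} {m : ℕ}
  {e : Fin m → Matrix (Fin N) (Fin N) ℂ} {τ : Matrix (Fin N) (Fin N) ℂ →ₗ[ℝ] Matrix (Fin N) (Fin N) ℂ}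

/-- `Z ↦ (τ Z)ᴴ` preserves the positive part -/
theorem th_mem (g : GS G h) (t : TCF G τ) (hh : tc τ h = -h) {X : Matrix (Fin N) (Fin N) ℂ} (hX : X ∈ nn G h) :
    (tc τ X)ᴴ ∈ nn G h := by
  refine nn_ind (p := fun X => (tc τ X)ᴴ ∈ nn G h) ?_ ?_ ?_ ?_ hX
  · intro X hX c hc he
    refine Submodule.subset_span ⟨g.star _ (t.mem _ hX), c, hc, ?_⟩
    have h1 := t.br _ g.mem _ hX
    rw [he, hh, tc_smul] at h1
    have h2 : h * tc τ X - tc τ X * h = -((c : ℂ) • tc τ X) := by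
      rw [h1]
      noncomm_ring
    rw [ad_star g.herm, h2, conjTranspose_neg, neg_neg, conjTranspose_smul, Complex.star_def, Complex.conj_ofReal]
  · show _ ∈ _
    rw [tc_zero, conjTranspose_zero]
    exact Submodule.zero_mem _
  · intro X Y a b
    show _ ∈ _
    rw [tc_add, conjTranspose_add]
    exact Submodule.add_mem _ a b
  · intro c X a
    show _ ∈ _
    rw [tc_smul, conjTranspose_smul]
    exact Submodule.smul_mem _ _ a

theorem th_inv (t : TCF G τ) {X : Matrix (Fin N) (Fin N) ℂ} (hX : X ∈ G) :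
    (tc τ (tc τ X)ᴴ)ᴴ = X := by
  rw [t.star _ (t.mem _ hX), conjTranspose_conjTranspose, t.inv _ hX]

theorem th_ob (g : GS G h) (t : TCF G τ) (hh : tc τ h = -h) (he : OB (nn G h) e) :
    OB (nn G h) (fun k => (tc τ (e k))ᴴ) := by
  refine ⟨fun i => th_mem g t hh (he.mem i), ?_, ?_⟩
  · intro i j
    rw [conjTranspose_conjTranspose, ← t.star _ (nnG (he.mem i)), t.tr _ (g.star _ (nnG (he.mem i))) _ (nnG (he.mem j)),
      trace_mul_comm, he.orth]
    by_cases hij : i = j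
    · rw [if_pos hij, if_pos hij.symm]
    · rw [if_neg hij, if_neg (Ne.symm hij)]
  · intro X hX
    have h1 := he.exp _ (th_mem g t hh hX)
    have h2 : (tc τ (tc τ X)ᴴ)ᴴ = (tc τ (∑ i, ((tc τ X)ᴴ * (e i)ᴴ).trace • e i))ᴴ :=
      congrArg (fun Z => (tc τ Z)ᴴ) h1
    rw [th_inv t (nnG hX)] at h2
    refine h2.trans ?_
    rw [tc_sum, conjTranspose_sum]
    refine Finset.sum_congr rfl fun i _ => ?_
    rw [tc_smul, conjTranspose_smul, conjTranspose_conjTranspose]
    congr 1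
    rw [Complex.star_def, trstar, conjTranspose_conjTranspose, ← t.tr _ (nnG (he.mem i)) _ (t.mem _ (nnG hX)),
      t.inv _ (nnG hX), trace_mul_comm]

theorem tc_dl (g : GS G h) (t : TCF G τ) (hh : tc τ h = -h) (he : OB (nn G h) e) : tc τ (dl e) = -dl e := by
  have h1 := indep he (th_ob g t hh he)
  rw [dl, tc_sum, h1, ← Finset.sum_neg_distrib]
  refine Finset.sum_congr rfl fun k _ => ?_
  rw [t.br _ (nnG (he.mem k)) _ (g.star _ (nnG (he.mem k))), t.star _ (nnG (he.mem k)), conjTranspose_conjTranspose]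
  abel

end

/-! ### dimensions -/

/-- the fixed space of an antilinear involution -/
theorem dimF (V : Submodule ℂ (Matrix (Fin N) (Fin N) ℂ))
    (θ : Matrix (Fin N) (Fin N) ℂ → Matrix (Fin N) (Fin N) ℂ) (hm : ∀ X ∈ V, θ X ∈ V)
    (ha : ∀ X Y, θ (X + Y) = θ X + θ Y) (hs : ∀ (c : ℂ) X, θ (c • X) = conj c • θ X)
    (hi : ∀ X ∈ V, θ (θ X) = X) (F : Submodule ℝ (Matrix (Fin N) (Fin N) ℂ))
    (hF : ∀ Z, Z ∈ F ↔ Z ∈ V ∧ θ Z = Z) : Module.finrank ℝ F = Module.finrank ℂ V := by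
  let Φ : (F × F) →ₗ[ℝ] V :=
    { toFun := fun a => ⟨a.1.1 + Complex.I • a.2.1,
        V.add_mem ((hF _).1 a.1.2).1 (V.smul_mem _ ((hF _).1 a.2.2).1)⟩
      map_add' := fun a b => by
        apply Subtype.ext
        show (a.1.1 + b.1.1) + Complex.I • (a.2.1 + b.2.1) = (a.1.1 + Complex.I • a.2.1) + (b.1.1 + Complex.I • b.2.1)
        rw [smul_add]
        abel
      map_smul' := fun c a => by
        apply Subtype.ext
        show c • a.1.1 + Complex.I • (c • a.2.1) = c • (a.1.1 + Complex.I • a.2.1)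
        rw [smul_add, smul_comm] }
  have hΦ : ∀ a, (Φ a).1 = a.1.1 + Complex.I • a.2.1 := fun a => rfl
  have hinj : Function.Injective Φ := by
    rw [← LinearMap.ker_eq_bot, LinearMap.ker_eq_bot']
    intro a h0
    have h1 : a.1.1 + Complex.I • a.2.1 = 0 := by
      rw [← hΦ, h0]
      rfl
    have h2 : a.1.1 + -(Complex.I • a.2.1) = 0 := by
      have h3 := congrArg θ h1
      rw [ha, hs, ((hF _).1 a.1.2).2, ((hF _).1 a.2.2).2, Complex.conj_I, neg_smul] at h3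
      have h4 : θ 0 = 0 := by
        have := hs 0 0
        rw [map_zero, zero_smul, zero_smul] at this
        exact this
      rw [h4] at h3
      exact h3
    have h3 : (2 : ℂ) • a.1.1 = 0 := by
      have : (2 : ℂ) • a.1.1 = (a.1.1 + Complex.I • a.2.1) + (a.1.1 + -(Complex.I • a.2.1)) := by
        rw [two_smul]
        abel
      rw [this, h1, h2, add_zero]
    have h4 : a.1.1 = 0 := (smul_eq_zero.1 h3).resolve_left (by norm_num)
    have h5 : a.2.1 = 0 := by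
      rw [h4, zero_add] at h1
      exact (smul_eq_zero.1 h1).resolve_left Complex.I_ne_zero
    exact Prod.ext (Subtype.ext h4) (Subtype.ext h5)
  have hsur : Function.Surjective Φ := by
    rintro ⟨Z, hZ⟩
    have h1 : (1 / 2 : ℂ) • (Z + θ Z) ∈ F := by
      refine (hF _).2 ⟨V.smul_mem _ (V.add_mem hZ (hm _ hZ)), ?_⟩
      rw [hs, ha, hi Z hZ, add_comm (θ Z)]
      congr 1
      rw [map_div₀, map_one, map_ofNat]
    have h2 : (-Complex.I / 2 : ℂ) • (Z - θ Z) ∈ F := by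
      refine (hF _).2 ⟨V.smul_mem _ (V.sub_mem hZ (hm _ hZ)), ?_⟩
      have h3 : θ (-θ Z) = -Z := by
        have := hs (-1) (θ Z)
        rw [hi Z hZ, map_neg, map_one, neg_smul, neg_smul, one_smul, one_smul] at this
        exact this
      rw [hs, sub_eq_add_neg, ha, h3]
      have h4 : conj (-Complex.I / 2) = -(-Complex.I / 2) := by
        rw [map_div₀, map_neg, Complex.conj_I, map_ofNat]
        ring
      rw [h4, neg_smul, ← smul_neg]
      congr 1
      abel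
    refine ⟨(⟨_, h1⟩, ⟨_, h2⟩), ?_⟩
    apply Subtype.ext
    rw [hΦ]
    show (1 / 2 : ℂ) • (Z + θ Z) + Complex.I • ((-Complex.I / 2 : ℂ) • (Z - θ Z)) = Z
    rw [smul_smul]
    have h5 : Complex.I * (-Complex.I / 2) = 1 / 2 := by
      linear_combination (-1 / 2 : ℂ) * Complex.I_mul_I
    rw [h5, ← smul_add]
    have h6 : Z + θ Z + (Z - θ Z) = (2 : ℂ) • Z := by
      rw [two_smul]
      abel
    rw [h6, smul_smul]
    norm_num
  have h1 := (LinearEquiv.ofBijective Φ ⟨hinj, hsur⟩).finrank_eq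
  rw [Module.finrank_prod] at h1
  have h2 : Module.finrank ℝ ℂ * Module.finrank ℂ V = Module.finrank ℝ V := Module.finrank_mul_finrank ℝ ℂ V
  rw [Complex.finrank_real_complex] at h2
  omega

end NILP

open NILP in
theorem t_NILP : M_NILP := by
  intro hL hT hR N H K σ τ A hc hS hs hA
  have h := hL N H hc
  have ht : TSF H σ τ := hT N H K σ τ hc hS hs
  have hC := t_LCXF hL N H hc
  obtain ⟨H₁, hH1, hreg⟩ := hR N H K σ τ A hc hs hA
  obtain ⟨G, hGd⟩ : ∃ G : Submodule ℂ (Matrix (Fin N) (Fin N) ℂ), G = (LC H).toSubmodule := ⟨_, rfl⟩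
  have hGm : ∀ Z, Z ∈ G ↔ Z ∈ LC H := by
    intro Z
    rw [hGd]
    rfl
  have hG : ∀ Z, Z ∈ G ↔ ∃ X ∈ lie H, ∃ Y ∈ lie H, Z = X + Complex.I • Y := fun Z => (hGm Z).trans (hC.mem Z)
  have hlG : ∀ X ∈ lie H, X ∈ G := fun X hX => (hG X).2 ⟨X, hX, 0, h.zero, by simp⟩
  have hskew : ∀ Z ∈ G, Zᴴ = -Z → Z ∈ lie H := fun Z hZ => hC.skew Z ((hGm Z).1 hZ)
  have hH1l := hA.sub _ hH1
  obtain ⟨h₁, hh1⟩ : ∃ h₁ : Matrix (Fin N) (Fin N) ℂ, h₁ = Complex.I • H₁ := ⟨_, rfl⟩
  have g : GS G h₁ := by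
    refine ⟨fun X hX => (hGm _).2 (hC.star _ ((hGm _).1 hX)), ?_, ?_, ?_⟩
    · intro X hX Y hY
      have h1 := (LC H).lie_mem ((hGm _).1 hX) ((hGm _).1 hY)
      rw [Ring.lie_def] at h1
      exact (hGm _).2 h1
    · rw [hh1]
      exact G.smul_mem _ (hlG _ hH1l)
    · rw [hh1, conjTranspose_smul, ct h hH1l, Complex.star_def, Complex.conj_I, neg_smul, smul_neg, neg_neg]
  have t : TCF G τ := tcf h hs ht hG
  have hh : tc τ h₁ = -h₁ := by
    rw [hh1, tc_smul, tc_lie h hH1l, hA.anti _ hH1, smul_neg]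
  have hcom : ∀ X, h₁ * X - X * h₁ = 0 ↔ X * H₁ = H₁ * X := by
    intro X
    rw [hh1, Matrix.smul_mul, Matrix.mul_smul, ← smul_sub, smul_eq_zero, sub_eq_zero]
    constructor
    · rintro (h1 | h1)
      · exact absurd h1 Complex.I_ne_zero
      · exact h1.symm
    · intro h1
      exact Or.inr h1.symm
  have hτH : ∀ X ∈ lie H, X * H₁ = H₁ * X → τ X * H₁ = H₁ * τ X := by
    intro X hX h0
    have h1 := ht.br X hX H₁ hH1l
    rw [h0, sub_self, map_zero, hA.anti _ hH1, mul_neg, neg_mul, sub_neg_eq_add, neg_add_eq_sub] at h1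
    exact (sub_eq_zero.1 h1.symm).symm
  -- the centralizer commutes with `A`
  have hl1 : ∀ X ∈ lie H, X * H₁ = H₁ * X → ∀ Y ∈ A, X * Y = Y * X := by
    intro X hX h0 Y hY
    have hτ := hτH X hX h0
    have hτl := hs.mem X hX
    have hYl := hA.sub _ hY
    -- the anti-invariant part
    have hm : X - τ X ∈ A := by
      refine hreg _ (NILP.sub h hX hτl) ?_ ?_
      · rw [map_sub, ht.inv X hX, neg_sub]
      · rw [sub_mul, mul_sub, h0, hτ]
    have hp : X + τ X ∈ lie H := h.add _ hX _ hτl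
    have hpi : τ (X + τ X) = X + τ X := by rw [map_add, ht.inv X hX, add_comm]
    have hW : (X + τ X) * Y - Y * (X + τ X) ∈ A := by
      refine hreg _ (h.br _ hp _ hYl) ?_ ?_
      · rw [ht.br _ hp _ hYl, hpi, hA.anti _ hY]
        noncomm_ring
      · have e1 : (X + τ X) * H₁ = H₁ * (X + τ X) := by rw [add_mul, mul_add, h0, hτ]
        have e2 := hA.comm Y hY H₁ hH1
        have e3 : (X + τ X) * Y * H₁ = H₁ * ((X + τ X) * Y) := by
          rw [mul_assoc, e2, ← mul_assoc, e1, mul_assoc]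
        have e4 : Y * (X + τ X) * H₁ = H₁ * (Y * (X + τ X)) := by
          rw [mul_assoc, e1, ← mul_assoc, e2, mul_assoc]
        rw [sub_mul, mul_sub, e3, e4]
    have hW0 : (X + τ X) * Y - Y * (X + τ X) = 0 := by
      apply tr0
      rw [ct h (hA.sub _ hW), mul_neg, trace_neg, br_tr, hA.comm _ hY _ hW, sub_self, mul_zero, trace_zero, neg_zero]
    have h3 := hA.comm _ hm _ hY
    have h4 : (X - τ X) * Y - Y * (X - τ X) = 0 := sub_eq_zero.2 h3
    have h5 : (2 : ℂ) • (X * Y - Y * X) = 0 := by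
      have e : (2 : ℂ) • (X * Y - Y * X) =
          ((X + τ X) * Y - Y * (X + τ X)) + ((X - τ X) * Y - Y * (X - τ X)) := by
        rw [two_smul]
        noncomm_ring
      rw [e, hW0, h4, add_zero]
    exact sub_eq_zero.1 ((smul_eq_zero.1 h5).resolve_left (by norm_num))
  obtain ⟨m₀, f, c₀, hf, -, -⟩ := spec (nn G h₁) h₁ g.herm (fun X hX => nn_ad hX)
  have hδG := dl_mem g hf
  have hδh := dl_com g hf
  obtain ⟨m, e, c, he, hec, hme⟩ := spec (nn G h₁) (dl f) dl_herm (fun X hX => nn_l g hδG hδh hX)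
  have hδe : dl f = dl e := indep hf he
  rw [hδe] at hec hδG hδh
  have hδs : ((-Complex.I) • dl e)ᴴ = -((-Complex.I) • dl e) := by
    rw [conjTranspose_smul, dl_herm, Complex.star_def, map_neg, Complex.conj_I, neg_neg, neg_smul, neg_neg]
  have hδl : (-Complex.I) • dl e ∈ lie H := hskew _ (G.smul_mem _ hδG) hδs
  have hδA : (-Complex.I) • dl e ∈ A := by
    refine hreg _ hδl ?_ ?_
    · rw [← tc_lie h hδl, tc_smul, tc_dl g t hh he, smul_neg]
    · rw [Matrix.smul_mul, Matrix.mul_smul, (hcom _).1 hδh]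
  have hδc : ∀ X : Matrix (Fin N) (Fin N) ℂ, X * ((-Complex.I) • dl e) = ((-Complex.I) • dl e) * X →
      dl e * X - X * dl e = 0 := by
    intro X h0
    rw [Matrix.smul_mul, Matrix.mul_smul] at h0
    have h1 : (-Complex.I) • (dl e * X - X * dl e) = 0 := by
      rw [smul_sub, h0, sub_self]
    exact (smul_eq_zero.1 h1).resolve_left (neg_ne_zero.2 Complex.I_ne_zero)
  have hlG0 : ∀ Y ∈ G, h₁ * Y - Y * h₁ = 0 → dl e * Y - Y * dl e = 0 := by
    intro Z hZ h0
    obtain ⟨X, hX, Y, hY, rfl⟩ := (hG Z).1 hZ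
    have h1 := (hcom _).1 h0
    -- the adjoint commutes too
    have h2 : h₁ * (X + Complex.I • Y)ᴴ - (X + Complex.I • Y)ᴴ * h₁ = 0 := by
      rw [ad_star g.herm, h0, conjTranspose_zero, neg_zero]
    have h3 := (hcom _).1 h2
    rw [conjTranspose_add, conjTranspose_smul, ct h hX, ct h hY, Complex.star_def, Complex.conj_I, neg_smul, smul_neg,
      neg_neg] at h3
    have h4 : X * H₁ = H₁ * X := by
      have e : (2 : ℂ) • (X * H₁ - H₁ * X) = ((X + Complex.I • Y) * H₁ - H₁ * (X + Complex.I • Y)) -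
          ((-X + Complex.I • Y) * H₁ - H₁ * (-X + Complex.I • Y)) := by
        rw [two_smul]
        noncomm_ring
      have h5 : (2 : ℂ) • (X * H₁ - H₁ * X) = 0 := by
        rw [e, h1, h3, sub_self, sub_self, sub_self]
      exact sub_eq_zero.1 ((smul_eq_zero.1 h5).resolve_left (by norm_num))
    have h5 : Y * H₁ = H₁ * Y := by
      have h6 : Complex.I • (Y * H₁ - H₁ * Y) = 0 := by
        rw [add_mul, mul_add, h4, Matrix.smul_mul, Matrix.mul_smul] at h1
        rw [smul_sub]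
        exact sub_eq_zero.2 (add_left_cancel h1)
      exact sub_eq_zero.1 ((smul_eq_zero.1 h6).resolve_left Complex.I_ne_zero)
    have h6 := hδc X (hl1 X hX h4 _ hδA)
    have h7 := hδc Y (hl1 Y hY h5 _ hδA)
    have e : dl e * (X + Complex.I • Y) - (X + Complex.I • Y) * dl e =
        (dl e * X - X * dl e) + Complex.I • (dl e * Y - Y * dl e) := by
      rw [smul_sub, mul_add, add_mul, Matrix.mul_smul, Matrix.smul_mul]
      abel
    rw [e, h6, h7, smul_zero, add_zero]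
  have hcen : ∀ X ∈ lie H, X * dl e = dl e * X → X * H₁ = H₁ * X := by
    intro X hX h0
    exact (hcom X).1 (dl_cen g he hlG0 (hlG X hX) (by rw [h0, sub_self]))
  have hpos : ∀ k, 0 < c k := by
    intro k
    by_contra hk
    have h1 : e k = 0 := by
      apply dl_pos g he (he.mem k)
      rw [hec k, Matrix.smul_mul, trace_smul, he.orth k k, if_pos rfl, smul_eq_mul, mul_one, Complex.ofReal_re]
      exact not_lt.1 hk
    have h2 := he.orth k k
    rw [h1] at h2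
    simp at h2
  have hnnexp : ∀ X ∈ nn G h₁, X = ∑ l, (X * (e l)ᴴ).trace • e l := he.exp
  have hstG : ∀ k, (e k)ᴴ ∈ G := fun k => g.star _ (nnG (he.mem k))
  have hll : ∀ Y ∈ lie H, Y * dl e = dl e * Y → h₁ * Y - Y * h₁ = 0 := fun Y hY h0 => (hcom Y).2 (hcen Y hY h0)
  have hdec : ∀ X ∈ lie H, ∃ Y ∈ lie H, h₁ * Y - Y * h₁ = 0 ∧ ∃ Z ∈ nn G h₁, X = Y + (Z - Zᴴ) := by
    intro X hX
    obtain ⟨Z, hZ, Y, hY, W, hW, h0, hE⟩ := dec g (hlG X hX)
    have h1 := congrArg conjTranspose hE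
    rw [ct h hX, conjTranspose_add, conjTranspose_add, conjTranspose_conjTranspose] at h1
    have h2 : (Z + W)ᴴ + (Y + Yᴴ) + (Z + W) = 0 := by
      have h3 : (Z + W)ᴴ + (Y + Yᴴ) + (Z + W) = (Zᴴ + Y + W) + (Z + Yᴴ + Wᴴ) := by
        rw [conjTranspose_add]
        abel
      rw [h3, ← hE, ← h1, add_neg_cancel]
    have hYs : h₁ * (Y + Yᴴ) - (Y + Yᴴ) * h₁ = 0 := by
      have e1 : h₁ * (Y + Yᴴ) - (Y + Yᴴ) * h₁ = (h₁ * Y - Y * h₁) + (h₁ * Yᴴ - Yᴴ * h₁) := by noncomm_ring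
      rw [e1, ad_star g.herm, h0, conjTranspose_zero, neg_zero, add_zero]
    obtain ⟨h3, h4, -⟩ := dec0 g (Submodule.add_mem _ hZ hW) hYs (Submodule.add_mem _ hZ hW) h2
    have hZW : Z = -W := eq_neg_of_add_eq_zero_left h3
    have hYY : Yᴴ = -Y := eq_neg_of_add_eq_zero_right h4
    refine ⟨Y, hskew _ hY hYY, h0, W, hW, ?_⟩
    rw [hE, hZW, conjTranspose_neg]
    abel
  refine ⟨m, e, dl e, ⟨?_, hδA, ?_, ?_, ?_, ?_, ?_⟩⟩
  · refine ⟨?_, he.orth, ?_, rfl, hδl, fun k => ⟨c k, hpos k, hec k⟩, ?_, ?_, ?_, ?_⟩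
    · intro k
      refine ⟨hskew _ (G.sub_mem (nnG (he.mem k)) (hstG k)) ?_, hskew _ (G.smul_mem _ (G.add_mem (nnG (he.mem k)) (hstG k))) ?_⟩
      · rw [conjTranspose_sub, conjTranspose_conjTranspose, neg_sub]
      · rw [conjTranspose_smul, conjTranspose_add, conjTranspose_conjTranspose, Complex.star_def, Complex.conj_I,
          neg_smul, add_comm]
    · intro j k
      exact nn_tr (he.mem j) (he.mem k)
    · intro X hX
      obtain ⟨Y, hY, h0, Z, hZ, hE⟩ := hdec X hX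
      refine ⟨Y, hY, (sub_eq_zero.1 (hlG0 Y (hlG Y hY) h0)).symm, fun k => (Z * (e k)ᴴ).trace, ?_⟩
      rw [hE]
      congr 1
      rw [Finset.sum_sub_distrib]
      congr 1
      · exact hnnexp Z hZ
      · refine (congrArg conjTranspose (hnnexp Z hZ)).trans ?_
        rw [conjTranspose_sum]
        refine Finset.sum_congr rfl fun k _ => ?_
        rw [conjTranspose_smul]
        rfl
    · intro Y hY h0 k
      exact nn_tr0 (he.mem k) (hll Y hY h0)
    · intro i k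
      have h1 := nn_br g (he.mem i) (he.mem k)
      refine ⟨fun l => ((e i * e k - e k * e i) * (e l)ᴴ).trace, hnnexp _ h1, ?_⟩
      refine eig2 (h := dl e) (c := ((c i + c k : ℝ) : ℂ)) (c' := -(c k : ℂ)) ?_ ?_ ?_
      · rw [jac, hec i, hec k, Matrix.mul_smul, Matrix.smul_mul, Matrix.mul_smul, Matrix.smul_mul, ← smul_sub,
          ← smul_sub, ← add_smul]
        push_cast
        rfl
      · rw [ad_star dl_herm, hec k, conjTranspose_smul, Complex.star_def, Complex.conj_ofReal, neg_smul]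
      · have : ((c i + c k : ℝ) : ℂ) + -(c k : ℂ) = ((c i : ℝ) : ℂ) := by push_cast; ring
        rw [this]
        exact_mod_cast (hpos i).ne'
    · intro Y hY h0 k
      exact ⟨_, hnnexp _ (nn_l g (hlG Y hY) (hll Y hY h0) (he.mem k))⟩
  · intro X hX hτ h0
    exact hreg X hX hτ (hcen X hX h0)
  · intro X hX h0 Y hY
    exact hl1 X hX (hcen X hX h0) Y hY
  · intro k
    have h1 := hnnexp _ (th_mem g t hh (he.mem k))
    refine ⟨fun j => conj (((tc τ (e k))ᴴ * (e j)ᴴ).trace), ?_⟩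
    have h2 : tc τ (e k) = (∑ l, ((tc τ (e k))ᴴ * (e l)ᴴ).trace • e l)ᴴ := by
      have h3 := congrArg conjTranspose h1
      rw [conjTranspose_conjTranspose] at h3
      exact h3
    rw [conjTranspose_sum] at h2
    have h3 : (1 / 2 : ℂ) • (τ (e k - (e k)ᴴ) - Complex.I • τ (Complex.I • (e k + (e k)ᴴ))) = tc τ (e k) := rfl
    rw [h3]
    refine h2.trans ?_
    refine Finset.sum_congr rfl fun j _ => ?_
    rw [conjTranspose_smul]
    rfl
  · -- the dimension
    let S : Submodule ℝ (Matrix (Fin N) (Fin N) ℂ) :=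
      { carrier := {X | X ∈ lie H ∧ τ X = -X}
        add_mem' := by
          rintro X Y ⟨hX, hX'⟩ ⟨hY, hY'⟩
          refine ⟨h.add _ hX _ hY, ?_⟩
          rw [map_add, hX', hY', neg_add]
        zero_mem' := ⟨h.zero, by rw [map_zero, neg_zero]⟩
        smul_mem' := by
          rintro r X ⟨hX, hX'⟩
          refine ⟨?_, ?_⟩
          · rw [← rsmul]
            exact h.smul r X hX
          · rw [map_smul, hX', smul_neg] }
    have hSm : ∀ X, X ∈ S ↔ X ∈ lie H ∧ τ X = -X := fun X => Iff.rfl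
    have hspan : Submodule.span ℝ {X | X ∈ lie H ∧ τ X = -X} = S := Submodule.span_eq S
    rw [hspan]
    let F : Submodule ℝ (Matrix (Fin N) (Fin N) ℂ) :=
      { carrier := {Z | Z ∈ nn G h₁ ∧ (tc τ Z)ᴴ = Z}
        add_mem' := by
          rintro X Y ⟨hX, hX'⟩ ⟨hY, hY'⟩
          refine ⟨Submodule.add_mem _ hX hY, ?_⟩
          rw [tc_add, conjTranspose_add, hX', hY']
        zero_mem' := ⟨Submodule.zero_mem _, by rw [tc_zero, conjTranspose_zero]⟩
        smul_mem' := by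
          rintro r X ⟨hX, hX'⟩
          rw [← rsmul]
          refine ⟨Submodule.smul_mem _ _ hX, ?_⟩
          rw [tc_smul, conjTranspose_smul, hX', Complex.star_def, Complex.conj_ofReal] }
    have hFm : ∀ Z, Z ∈ F ↔ Z ∈ nn G h₁ ∧ (tc τ Z)ᴴ = Z := fun Z => Iff.rfl
    have hF : Module.finrank ℝ F = Module.finrank ℂ (nn G h₁) := by
      refine dimF (nn G h₁) (fun Z => (tc τ Z)ᴴ) (fun X hX => th_mem g t hh hX) ?_ ?_
        (fun X hX => th_inv t (nnG hX)) F hFm
      · intro X Y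
        show (tc τ (X + Y))ᴴ = _
        rw [tc_add, conjTranspose_add]
      · intro r X
        show (tc τ (r • X))ᴴ = _
        rw [tc_smul, conjTranspose_smul]
        rfl
    have hcoml : ∀ Y ∈ A, h₁ * Y - Y * h₁ = 0 := fun Y hY => (hcom Y).2 (hA.comm Y hY H₁ hH1)
    have hZl : ∀ Z ∈ nn G h₁, Z - Zᴴ ∈ lie H := by
      intro Z hZ
      refine hskew _ (G.sub_mem (nnG hZ) (g.star _ (nnG hZ))) ?_
      rw [conjTranspose_sub, conjTranspose_conjTranspose, neg_sub]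
    have hZτ : ∀ Z ∈ nn G h₁, τ (Z - Zᴴ) = tc τ Z - (tc τ Z)ᴴ := by
      intro Z hZ
      rw [← tc_lie h (hZl Z hZ), tc_sub, t.star _ (nnG hZ)]
    let Φ : (A × F) →ₗ[ℝ] S :=
      { toFun := fun a => ⟨a.1.1 + (a.2.1 - a.2.1ᴴ), (hSm _).2
          ⟨h.add _ (hA.sub _ a.1.2) _ (hZl _ ((hFm _).1 a.2.2).1), by
            rw [map_add, hA.anti _ a.1.2, hZτ _ ((hFm _).1 a.2.2).1, ((hFm _).1 a.2.2).2]
            have h1 := congrArg conjTranspose ((hFm _).1 a.2.2).2
            rw [conjTranspose_conjTranspose] at h1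
            rw [h1]
            abel⟩⟩
        map_add' := fun a b => by
          apply Subtype.ext
          show (a.1.1 + b.1.1) + ((a.2.1 + b.2.1) - (a.2.1 + b.2.1)ᴴ) =
            (a.1.1 + (a.2.1 - a.2.1ᴴ)) + (b.1.1 + (b.2.1 - b.2.1ᴴ))
          rw [conjTranspose_add]
          abel
        map_smul' := fun r a => by
          apply Subtype.ext
          show r • a.1.1 + (r • a.2.1 - (r • a.2.1)ᴴ) = r • (a.1.1 + (a.2.1 - a.2.1ᴴ))
          rw [← rsmul, ← rsmul, ← rsmul, conjTranspose_smul, Complex.star_def, Complex.conj_ofReal, smul_add,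
            smul_sub] }
    have hΦ : ∀ a, (Φ a).1 = a.1.1 + (a.2.1 - a.2.1ᴴ) := fun a => rfl
    have hinj : Function.Injective Φ := by
      rw [← LinearMap.ker_eq_bot, LinearMap.ker_eq_bot']
      intro a h0
      have h1 : (-a.2.1)ᴴ + a.1.1 + a.2.1 = 0 := by
        have h2 : a.1.1 + (a.2.1 - a.2.1ᴴ) = 0 := by
          rw [← hΦ, h0]
          rfl
        rw [conjTranspose_neg, ← h2]
        abel
      obtain ⟨-, h2, h3⟩ := dec0 g (Submodule.neg_mem _ ((hFm _).1 a.2.2).1) (hcoml _ a.1.2) ((hFm _).1 a.2.2).1 h1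
      exact Prod.ext (Subtype.ext h2) (Subtype.ext h3)
    have hsur : Function.Surjective Φ := by
      rintro ⟨X, hX⟩
      obtain ⟨hXl, hXτ⟩ := (hSm X).1 hX
      obtain ⟨Y, hY, h0, Z, hZ, hE⟩ := hdec X hXl
      have hth := th_mem g t hh hZ
      have h1 : τ X + X = 0 := by rw [hXτ, neg_add_cancel]
      have h2 : (tc τ Z)ᴴ - Z ∈ nn G h₁ := Submodule.sub_mem _ hth hZ
      have h3 : ((tc τ Z)ᴴ - Z)ᴴ + (τ Y + Y) + (-((tc τ Z)ᴴ - Z)) = 0 := by
        have h4 : τ X + X = ((tc τ Z)ᴴ - Z)ᴴ + (τ Y + Y) + (-((tc τ Z)ᴴ - Z)) := by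
          rw [hE, map_add, hZτ Z hZ, conjTranspose_sub, conjTranspose_conjTranspose]
          abel
        rw [← h4, h1]
      have h5 : h₁ * (τ Y + Y) - (τ Y + Y) * h₁ = 0 := by
        have h6 := (hcom Y).1 h0
        rw [hcom, add_mul, mul_add, h6, hτH Y hY h6]
      obtain ⟨h6, h7, -⟩ := dec0 g h2 h5 (Submodule.neg_mem _ h2) h3
      have hYA : Y ∈ A := hreg Y hY (eq_neg_of_add_eq_zero_left h7) ((hcom Y).1 h0)
      refine ⟨(⟨Y, hYA⟩, ⟨Z, (hFm Z).2 ⟨hZ, sub_eq_zero.1 h6⟩⟩), ?_⟩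
      apply Subtype.ext
      rw [hΦ]
      exact hE.symm
    have h1 := (LinearEquiv.ofBijective Φ ⟨hinj, hsur⟩).finrank_eq
    rw [Module.finrank_prod, hF, ← hme] at h1
    omega
  · -- positivity
    rcases Nat.eq_zero_or_pos m with h0 | h0
    · exfalso
      subst h0
      have hn0 : ∀ X ∈ nn G h₁, X = 0 := by
        intro X hX
        rw [hnnexp X hX]
        simp
      have hall : ∀ X ∈ lie H, ∀ Y ∈ A, X * Y = Y * X := by
        intro X hX
        obtain ⟨Y, hY, h0, Z, hZ, hE⟩ := hdec X hX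
        have h1 : X = Y := by
          rw [hE, hn0 Z hZ, conjTranspose_zero, sub_self, add_zero]
        rw [h1]
        exact hl1 Y hY ((hcom Y).1 h0)
      rcases hS.2 A hA.sub (fun X hX Y hY => by
        rw [hall X hX Y hY, sub_self]
        exact A.zero_mem) with h1 | h1
      · obtain ⟨X, hX, hne⟩ := hs.ne
        apply hne
        have h2 : X - τ X ∈ A := by
          refine hreg _ (NILP.sub h hX (hs.mem X hX)) ?_ ?_
          · rw [map_sub, ht.inv X hX, neg_sub]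
          · exact hall _ (NILP.sub h hX (hs.mem X hX)) _ hH1
        rw [h1] at h2
        exact (sub_eq_zero.1 ((Submodule.mem_bot ℝ).1 h2)).symm
      · obtain ⟨X, hX, Y, hY, hne⟩ := hS.1
        exact hne (hall X hX Y (h1 Y hY))
    · exact h0

end

end LGR
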