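import Pool.Agent.LGR.StR
import Pool.Agent.STZ.ATF

/-!
# LGR, module NORR: the highest weight of an irreducible representation
-/

namespace LGR

open STZ MeasureTheory Matrix Filter

open scoped ComplexConjugate Matrix Real Topology

noncomputable section

namespace NORR

variable {r : ℕ}

/-! ### trigonometric polynomials -/

theorem tp_add (m m' : (Fin r → ℤ) →₀ ℤ) (θ : Fin r → ℝ) : tp (m + m') θ = tp m θ + tp m' θ := by
  unfold tp
  apply Finsupp.sum_add_index'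
  · intro a
    simp
  · intro a b c
    push_cast
    ring

theorem tp_zero (θ : Fin r → ℝ) : tp (0 : (Fin r → ℤ) →₀ ℤ) θ = 0 := by
  unfold tp
  exact Finsupp.sum_zero_index

theorem tp_sum {ι : Type*} (s : Finset ι) (f : ι → ((Fin r → ℤ) →₀ ℤ)) (θ : Fin r → ℝ) :
    tp (∑ k ∈ s, f k) θ = ∑ k ∈ s, tp (f k) θ := by
  classical
  induction s using Finset.induction_on with
  | empty => simp [tp_zero]
  | insert a s ha ih => rw [Finset.sum_insert ha, Finset.sum_insert ha, tp_add, ih]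

theorem tp_single (ν : Fin r → ℤ) (θ : Fin r → ℝ) : tp (Finsupp.single ν 1) θ = eu (dz ν θ) := by
  unfold tp
  rw [Finsupp.sum_single_index (by simp)]
  simp

theorem tp_ss {ι : Type*} (s : Finset ι) (ν : ι → Fin r → ℤ) (θ : Fin r → ℝ) :
    tp (∑ k ∈ s, Finsupp.single (ν k) 1) θ = ∑ k ∈ s, eu (dz (ν k) θ) := by
  rw [tp_sum]
  exact Finset.sum_congr rfl fun k _ => tp_single _ _

theorem eu_conj (a : ℝ) : conj (eu a) = eu (-a) := by
  unfold eu
  rw [← Complex.exp_conj]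
  congr 1
  simp only [map_mul, Complex.conj_ofReal, Complex.conj_I, map_ofNat]
  push_cast
  ring

theorem eu_sub (a b : ℝ) : eu (a - b) = eu a * conj (eu b) := by
  rw [eu_conj, sub_eq_add_neg, ATF.eu_add]

theorem eu_zero : eu 0 = 1 := by
  unfold eu
  simp

theorem dz_s (ν : Fin r → ℤ) (θ : Fin r → ℝ) (s : ℝ) : dz ν (fun i => s * θ i) = s * dz ν θ := by
  unfold dz
  rw [Finset.mul_sum]
  exact Finset.sum_congr rfl fun i _ => by ring

theorem eu_cont : Continuous eu := by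
  unfold eu
  fun_prop

theorem tend {ι : Type*} [Fintype ι] (ν : ι → Fin r → ℤ) (θ : Fin r → ℝ) :
    Tendsto (fun s : ℝ => ∑ k, eu (dz (ν k) (fun i => s * θ i))) (𝓝[>] 0)
      (𝓝 (Fintype.card ι : ℂ)) := by
  have h1 : Continuous (fun s : ℝ => ∑ k, eu (s * dz (ν k) θ)) := by
    refine continuous_finsetSum _ fun k _ => ?_
    exact eu_cont.comp (continuous_id.mul continuous_const)
  have h2 := h1.tendsto 0
  simp only [zero_mul, eu_zero, Finset.sum_const, Finset.card_univ, nsmul_eq_mul,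
    mul_one] at h2
  simp only [dz_s]
  exact h2.mono_left nhdsWithin_le_nhds

/-! ### positivity -/

theorem ppos {Φ : RT r} {B : Matrix (Fin r) (Fin r) ℤ} (hW : WFF Φ B) {p : (Fin r → ℤ) × (Fin r → ℤ)}
    (hp : p ∈ pos Φ) {l : Fin r → ℤ} (hl : Reg l) : 0 < p.2 ⬝ᵥ l := by
  obtain ⟨-, h0, hne, -⟩ := hW.ppos p hp
  obtain ⟨i, hi⟩ := Function.ne_iff.1 hne
  unfold dotProduct
  refine Finset.sum_pos' (fun j _ => mul_nonneg (h0 j) (by have := hl j; omega)) ⟨i, Finset.mem_univ _, ?_⟩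
  have h1 := h0 i
  have h2 : p.2 i ≠ 0 := hi
  have h3 := hl i
  have h4 : 0 < p.2 i := lt_of_le_of_ne h1 (Ne.symm h2)
  exact mul_pos h4 (by omega)

theorem reg_one : Reg (1 : Fin r → ℤ) := fun i => by simp

/-- `AT 1` does not vanish at `s θ₀` for small `s > 0` -/
theorem at_ne {Φ : RT r} (hA : ATV (rd Φ) (pos Φ)) {θ₀ : Fin r → ℝ}
    (h0 : ∀ p ∈ pos Φ, 0 < dz p.1 θ₀) :
    ∀ᶠ s : ℝ in 𝓝[>] 0, AT (rd Φ) 1 (fun i => s * θ₀ i) ≠ 0 := by
  have h1 : ∀ p ∈ pos Φ, ∀ᶠ s : ℝ in 𝓝[>] 0, nd (dz p.1 (fun i => s * θ₀ i)) ≠ 0 := by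
    intro p hp
    have h2 := h0 p hp
    have h3 : ∀ᶠ s : ℝ in 𝓝[>] 0, s < (1 / 2) / dz p.1 θ₀ := by
      apply eventually_nhdsWithin_of_eventually_nhds
      exact eventually_lt_nhds (by positivity)
    filter_upwards [h3, self_mem_nhdsWithin] with s hs hs0
    rw [dz_s]
    have h4 : 0 < s * dz p.1 θ₀ := mul_pos hs0 h2
    have h5 : s * dz p.1 θ₀ < 1 / 2 := by
      rwa [lt_div_iff₀ h2] at hs
    unfold nd
    have h6 : round (s * dz p.1 θ₀) = 0 := by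
      rw [round_eq_zero_iff]
      constructor <;> [linarith; linarith]
    rw [h6]
    simp only [Int.cast_zero, sub_zero]
    exact (abs_pos.2 h4.ne').ne'
  have h2 : ∀ᶠ s : ℝ in 𝓝[>] 0, ∀ p ∈ pos Φ, nd (dz p.1 (fun i => s * θ₀ i)) ≠ 0 :=
    (Finset.eventually_all (pos Φ)).2 h1
  filter_upwards [h2] with s hs
  exact (hA.ne _).2 hs

/-- the invariant probability measure -/
theorem haar {N : ℕ} (H : Subgroup (SU N)) (hcl : IsClosed (H : Set (SU N))) :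
    ∃ μ : Measure H, IsProbabilityMeasure μ ∧ μ.IsMulLeftInvariant := by
  have hcs : CompactSpace H := isCompact_iff_compactSpace.1 (hcl.isCompact)
  refine ⟨Measure.haarMeasure ⊤, ⟨?_⟩, inferInstance⟩
  have := Measure.haarMeasure_self (K₀ := (⊤ : TopologicalSpace.PositiveCompacts H))
  simpa using this

end NORR

theorem t_NORR : M_NORR := by
  intro hCH hWF hCM hRV hDL hAT hTA hWR hPF hTP hCA hTR hTPL hAV hAN hRF hRL hOR N H r Φ B Hc E c k d X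
    hr hcl hcon hL hK hX n σ hσ hP
  have hWW := hWF r Φ B hL.ird
  have hT := hTA N H r Φ B Hc E hcl hL
  have hR := hRV r Φ B hr hL.ird
  have hA := hAT r (rd Φ) (pos Φ) hR
  have hcs : CompactSpace H := isCompact_iff_compactSpace.1 (hcl.isCompact)
  have hsc : SecondCountableTopology H :=
    TopologicalSpace.Subtype.secondCountableTopology (H : Set (SU N))
  obtain ⟨U, μ, hU1, hU2, hρ⟩ := hTR N H r Φ B Hc E hcl hL n σ hP
  set m : (Fin r → ℤ) →₀ ℤ := ∑ k, Finsupp.single (μ k) 1 with hm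
  have htp : ∀ θ, tp m θ = ∑ k, eu (dz (μ k) θ) := fun θ => NORR.tp_ss _ _ _
  have hch : ∀ (g : H) (θ : Fin r → ℝ), g.1 = ta Hc θ → σ.ch g = tp m θ := by
    intro g θ hg
    rw [htp, Rep.ch, hρ g θ hg, Matrix.trace_mul_comm, ← mul_assoc, hU2, one_mul,
      Matrix.trace_diagonal]
  have hclf : ∀ g h : H, σ.ch (h * g * h⁻¹) = σ.ch g := by
    intro g h
    rw [Rep.ch, Rep.ch, map_mul, Matrix.trace_mul_comm, ← map_mul, inv_mul_cancel_left]
  have hinv : ∀ w ∈ WF Φ, ∀ θ, tp m (fun j => ∑ i, (w i j : ℝ) * θ i) = tp m θ := by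
    intro w hw θ
    obtain ⟨n', hn', -, h2⟩ := hWR N H r Φ B Hc E hcl hL w hw
    have h3 : ((⟨n', hn'⟩ : H) * (⟨ta Hc θ, hT.mem θ⟩ : H) * (⟨n', hn'⟩ : H)⁻¹).1 =
      ta Hc (fun j => ∑ i, (w i j : ℝ) * θ i) := h2 θ
    rw [← hch _ _ h3, hclf, hch _ θ rfl]
  obtain ⟨R, hRP, hRc⟩ := hTP N H n σ hcl hP
  set m₂ : (Fin r → ℤ) →₀ ℤ := ∑ q : Fin n × Fin n, Finsupp.single (μ q.1 - μ q.2) 1 with hm₂
  have htp2 : ∀ θ, tp m₂ θ = tp m θ * conj (tp m θ) := by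
    intro θ
    rw [hm₂, NORR.tp_ss, htp, map_sum, Finset.sum_mul_sum, ← Finset.univ_product_univ,
      Finset.sum_product]
    refine Finset.sum_congr rfl fun a _ => Finset.sum_congr rfl fun b _ => ?_
    rw [ATF.dz_sub, NORR.eu_sub]
  obtain ⟨ν, hν1, hν2⟩ := NORR.haar H hcl
  have hav : av Φ m₂ 1 = 1 := by
    have h1 := hOR N H r Φ B Hc E c k d X hr hcl hcon hL hK hX ν (Fin n × Fin n) R hRP m₂ (by
      intro g θ hg
      rw [hRc, htp2, hch g θ hg])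
    have h2 := (hCH H ν (Fin n) σ hσ).1
    have h3 : ∫ g, R.ch g ∂ν = 1 := by
      rw [← h2]
      exact integral_congr_ae (Filter.Eventually.of_forall fun g => hRc g)
    rw [h3] at h1
    exact_mod_cast h1.symm
  obtain ⟨⟨S, hS, hS2⟩, h4⟩ := hAV r Φ B hL.ird hWW m
  obtain ⟨h5, h6⟩ := h4 hinv
  have h7 := h6 m₂ htp2 S hS
  rw [hav, mul_one] at h7
  obtain ⟨l, hl, ε, hε, hεl, hAl⟩ := hAN r Φ B hL.ird hWW m h5 S hS h7.symm
  obtain ⟨θ₀, h0, hlim⟩ := hDL r Φ B hL.ird hWW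
  have hlim := hlim l
  have hne := NORR.at_ne hA h0
  have hn : Tendsto (fun s : ℝ => tp m (fun i => s * θ₀ i)) (𝓝[>] 0) (𝓝 (n : ℂ)) := by
    have h8 := NORR.tend μ θ₀
    rw [Fintype.card_fin] at h8
    simp only [htp]
    exact h8
  have hn0 : 0 < n := by
    have := hσ.1
    exact Fin.pos_iff_nonempty.2 this
  have hlp : 0 < ∏ p ∈ pos Φ, (p.2 ⬝ᵥ l) := Finset.prod_pos fun p hp => NORR.ppos hWW hp hl
  have h1p : 0 < ∏ p ∈ pos Φ, (p.2 ⬝ᵥ (1 : Fin r → ℤ)) :=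
    Finset.prod_pos fun p hp => NORR.ppos hWW hp NORR.reg_one
  have hlim2 : Tendsto (fun s : ℝ => tp m (fun i => s * θ₀ i)) (𝓝[>] 0)
      (𝓝 ((ε : ℂ) * ((∏ p ∈ pos Φ, ((p.2 ⬝ᵥ l : ℤ) : ℂ)) /
        ∏ p ∈ pos Φ, ((p.2 ⬝ᵥ (1 : Fin r → ℤ) : ℤ) : ℂ)))) := by
    refine (hlim.const_mul (ε : ℂ)).congr' ?_
    filter_upwards [hne] with s hs
    rw [← mul_div_assoc, ← hAl, mul_div_assoc, mul_comm, div_mul_cancel₀ _ hs]
  have hq := tendsto_nhds_unique hn hlim2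
  have h1c : ((∏ p ∈ pos Φ, (p.2 ⬝ᵥ (1 : Fin r → ℤ)) : ℤ) : ℂ) ≠ 0 := by
    exact_mod_cast h1p.ne'
  rw [← Int.cast_prod, ← Int.cast_prod] at hq
  have hq2 : (n : ℂ) * ((∏ p ∈ pos Φ, (p.2 ⬝ᵥ (1 : Fin r → ℤ)) : ℤ) : ℂ) =
      (ε : ℂ) * ((∏ p ∈ pos Φ, (p.2 ⬝ᵥ l) : ℤ) : ℂ) := by
    rw [hq, mul_assoc, div_mul_cancel₀ _ h1c]
  have hq3 : (n : ℤ) * (∏ p ∈ pos Φ, (p.2 ⬝ᵥ (1 : Fin r → ℤ))) =
      ε * (∏ p ∈ pos Φ, (p.2 ⬝ᵥ l)) := by
    exact_mod_cast hq2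
  have hε1 : ε = 1 := by
    rcases hε with h | h
    · exact h
    · exfalso
      rw [h] at hq3
      have h9 : 0 < (n : ℤ) * (∏ p ∈ pos Φ, (p.2 ⬝ᵥ (1 : Fin r → ℤ))) :=
        mul_pos (by exact_mod_cast hn0) h1p
      linarith
  subst hε1
  have hAl1 : ∀ θ, AT (rd Φ) 1 θ * tp m θ = AT (rd Φ) l θ := by
    intro θ
    rw [hAl, Int.cast_one, one_mul]
  -- the eigenvalue
  have hchP : σ.ch ∈ PF H := by
    have h8 : σ.ch = ∑ i, fun g => σ.ρ g i i := by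
      funext g
      rw [Rep.ch, Matrix.trace, Finset.sum_apply]
      rfl
    rw [h8]
    exact Subalgebra.sum_mem _ fun i _ => hP i i
  obtain ⟨κ, hκ0, hκ, -⟩ := hCA N H c d X hcl hX n σ hσ hP
  have hκl : κ = k * (((rd Φ).Q l : ℝ) - (rd Φ).Q 1) := by
    refine hRL r Φ B hr hL.ird hWW m k κ hK.kpos ?_ l (by rw [hεl]; exact one_ne_zero)
    intro θ hθ
    have h8 := hRF N H r Φ B Hc E c k d X hcl hL hK hX σ.ch hchP (fun g h => hclf g h) m hch
      ⟨ta Hc θ, hT.mem θ⟩ θ rfl hθ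
    have h9 := (hκ X hX).2.2 ⟨ta Hc θ, hT.mem θ⟩
    rw [h8, hch _ θ rfl] at h9
    exact h9.symm
  refine ⟨l, hl, ?_, ?_, ?_, ?_⟩
  · intro g θ hg
    rw [hch g θ hg, hAl1]
  · exact_mod_cast hq3.trans (one_mul _)
  · intro Y hY
    rw [← hκl]
    exact hκ Y hY
  · intro z hz
    have hint : ∀ p ∈ pos Φ, ∃ q : ℤ, dz p.1 z = q := by
      intro p hp
      have hpΦ := (hWW.ppos p hp).1
      have h8 := hT.Ade p hpΦ z
      rw [hz] at h8
      have h9 : E p = eu (dz p.1 z) • E p := by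
        have h10 : (1 : SU N).1 * E p * (1 : SU N).1ᴴ = E p := by
          have : (1 : SU N).1 = 1 := rfl
          rw [this, Matrix.conjTranspose_one, one_mul, mul_one]
        rw [h10] at h8
        exact h8
      have hE : E p ≠ 0 := by
        intro h11
        have h12 := (hT.pos p hpΦ).1
        rw [h11] at h12
        simp at h12
      have h13 : (eu (dz p.1 z) - 1) • E p = 0 := by
        rw [sub_smul, one_smul, ← h9, sub_self]
      rcases smul_eq_zero.1 h13 with h | h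
      · exact ATF.eu_eq_one.1 (sub_eq_zero.1 h)
      · exact absurd h hE
    have hne2 : ∀ᶠ s : ℝ in 𝓝[>] 0, tp m (fun i => s * θ₀ i) ≠ 0 := by
      apply hn.eventually_ne
      exact_mod_cast hn0.ne'
    obtain ⟨s, hs1, hs2⟩ := (hne.and hne2).exists
    set θ : Fin r → ℝ := fun i => s * θ₀ i
    have h8 := hAl1 (θ + z)
    rw [hA.cen z hint 1 θ, hA.cen z hint l θ, ← hch ⟨ta Hc (θ + z), hT.mem _⟩ (θ + z) rfl,
      hch ⟨ta Hc (θ + z), hT.mem _⟩ θ (by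
        show ta Hc (θ + z) = ta Hc θ
        rw [hT.add, hz, mul_one]), mul_assoc, hAl1] at h8
    have h9 : AT (rd Φ) l θ ≠ 0 := by
      rw [← hAl1]
      exact mul_ne_zero hs1 hs2
    have h10 := mul_right_cancel₀ h9 h8
    rw [ATF.dz_sub, NORR.eu_sub, ← h10, NORR.eu_conj, ← ATF.eu_add, add_neg_cancel, NORR.eu_zero]

end

end LGR
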