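import Pool.Agent.LGR.StD

/-!
# Simple compact Lie groups: elements which normalise the Cartan algebra
-/

namespace LGR

open STZ Matrix

open scoped Matrix

namespace NORX

theorem mul_star' {N : ℕ} (g : SU N) : g.1 * g.1ᴴ = 1 := congrArg Subtype.val (mul_inv_cancel g)

theorem star_mul' {N : ℕ} (g : SU N) : g.1ᴴ * g.1 = 1 := congrArg Subtype.val (inv_mul_cancel g)

theorem hx_comm {N r : ℕ} {Hc : Fin r → Matrix (Fin N) (Fin N) ℂ}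
    (h : ∀ i j, Hc i * Hc j = Hc j * Hc i) (x y : Fin r → ℝ) :
    hx Hc x * hx Hc y = hx Hc y * hx Hc x := by
  rw [hx, hx, Finset.sum_mul_sum, Finset.sum_mul_sum, Finset.sum_comm]
  refine Finset.sum_congr rfl fun i _ => Finset.sum_congr rfl fun j _ => ?_
  rw [Matrix.smul_mul, Matrix.mul_smul, Matrix.smul_mul, Matrix.mul_smul, h j i, smul_comm]

/-- moving a commutation relation through a conjugation -/
theorem conj_comm {N : ℕ} (k : SU N) (X Y : Matrix (Fin N) (Fin N) ℂ)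
    (h : X * (k.1ᴴ * Y * k.1) = (k.1ᴴ * Y * k.1) * X) :
    (k.1 * X * k.1ᴴ) * Y = Y * (k.1 * X * k.1ᴴ) := by
  have h1 : k.1 * (X * (k.1ᴴ * Y * k.1)) * k.1ᴴ = k.1 * ((k.1ᴴ * Y * k.1) * X) * k.1ᴴ := by rw [h]
  have h2 : k.1 * (X * (k.1ᴴ * Y * k.1)) * k.1ᴴ = (k.1 * X * k.1ᴴ) * Y * (k.1 * k.1ᴴ) := by
    simp only [Matrix.mul_assoc]
  have h3 : k.1 * ((k.1ᴴ * Y * k.1) * X) * k.1ᴴ = (k.1 * k.1ᴴ) * Y * (k.1 * X * k.1ᴴ) := by
    simp only [Matrix.mul_assoc]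
  rw [h2, h3, mul_star', Matrix.mul_one, Matrix.one_mul] at h1
  exact h1

end NORX

/-- elements which normalise the Cartan algebra -/
theorem t_NORX : M_NORX := by
  intro hLIEB hLEMC hTAUF N H r Φ B Hc E hcl hL H' hle hcl' x hreg g hg h1 h2
  have hT := hTAUF N H r Φ B Hc E hcl hL
  have hI := hLIEB N H hcl
  obtain ⟨z, hz, hzc⟩ := hLEMC N H' hcl' _ h1 _ h2
  refine ⟨z, hz, fun x' => ?_⟩
  have hk : z⁻¹ * g ∈ H := H.mul_mem (H.inv_mem (hle hz)) hg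
  set k : SU N := z⁻¹ * g with hkdef
  have hk1 : k.1 = z.1ᴴ * g.1 := rfl
  have hk2 : k.1ᴴ = g.1ᴴ * z.1 := by
    rw [hk1, Matrix.conjTranspose_mul, Matrix.conjTranspose_conjTranspose]
  -- `kᴴ X₀ k` commutes with `X₀`
  have hc1 : (k.1ᴴ * hx Hc x * k.1) * hx Hc x = hx Hc x * (k.1ᴴ * hx Hc x * k.1) := by
    have h3 : g.1ᴴ * ((z.1 * hx Hc x * z.1ᴴ) * (g.1 * hx Hc x * g.1ᴴ)) * g.1 =
        g.1ᴴ * ((g.1 * hx Hc x * g.1ᴴ) * (z.1 * hx Hc x * z.1ᴴ)) * g.1 := by rw [hzc]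
    have h4 : g.1ᴴ * ((z.1 * hx Hc x * z.1ᴴ) * (g.1 * hx Hc x * g.1ᴴ)) * g.1 =
        ((g.1ᴴ * z.1) * hx Hc x * (z.1ᴴ * g.1)) * hx Hc x * (g.1ᴴ * g.1) := by
      simp only [Matrix.mul_assoc]
    have h5 : g.1ᴴ * ((g.1 * hx Hc x * g.1ᴴ) * (z.1 * hx Hc x * z.1ᴴ)) * g.1 =
        (g.1ᴴ * g.1) * hx Hc x * ((g.1ᴴ * z.1) * hx Hc x * (z.1ᴴ * g.1)) := by
      simp only [Matrix.mul_assoc]
    rw [h4, h5, NORX.star_mul', Matrix.mul_one, Matrix.one_mul] at h3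
    rw [hk2, hk1]
    exact h3
  have hm1 : k.1ᴴ * hx Hc x * k.1 ∈ lie H := by
    have h3 := hI.ad k⁻¹ (H.inv_mem hk) (hx Hc x) (hT.hmem x)
    have h4 : (k⁻¹).1 = k.1ᴴ := rfl
    rw [h4, Matrix.conjTranspose_conjTranspose] at h3
    exact h3
  obtain ⟨y, hy⟩ := hT.cent x hreg _ hm1 hc1
  have hc2 : (k.1 * hx Hc x' * k.1ᴴ) * hx Hc x = hx Hc x * (k.1 * hx Hc x' * k.1ᴴ) := by
    refine NORX.conj_comm k (hx Hc x') (hx Hc x) ?_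
    rw [hy]
    exact NORX.hx_comm hL.comm x' y
  exact hT.cent x hreg _ (hI.ad k hk (hx Hc x') (hT.hmem x')) hc2

end LGR
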