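import Pool.Agent.LGR.StB
import Pool.Agent.STZ.NSUM

/-!
# Module NSUV: the multipliers
-/

namespace LGR

open STZ Matrix

namespace NSUV

variable {r : ℕ} {D : RD r} {P : RT r}

theorem card_ne (h : RV D P) : (D.W.card : ℂ) ≠ 0 := by
  have h1 : 0 < D.W.card := Finset.card_pos.2 ⟨1, h.W_one⟩
  exact_mod_cast h1.ne'

theorem sum_nm (h : RV D P) (hE : ∀ X : ℕ, 1 ≤ X → ETF D P X) (hF : S_FEJA) (J : ℕ) (t : ℝ)
    (ν : Fin r → ℤ) : ∑ x, nm D P J x t ν = (et P (2 ^ J) ν : ℂ) * eu (t * D.Q ν) := by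
  simp only [nm]
  rw [← Finset.mul_sum, Finset.sum_comm]
  have h1 : ∀ w ∈ D.W, ∑ x, nk D P J x t (w *ᵥ ν) =
      (et P (2 ^ J) ν : ℂ) * eu (t * D.Q ν) := by
    intro w hw
    rw [STZ.NSUM.sum_nk hF, (hE (2 ^ J) Nat.one_le_two_pow).inv w hw, h.Q_W w hw]
  rw [Finset.sum_congr rfl h1, Finset.sum_const, nsmul_eq_mul, ← mul_assoc,
    one_div_mul_cancel (card_ne h), one_mul]

theorem inv_nm (h : RV D P) {w : Matrix (Fin r) (Fin r) ℤ} (hw : w ∈ D.W) (J : ℕ)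
    (x : {p // p ∈ P} → Fin (J + 1)) (t : ℝ) (ν : Fin r → ℤ) :
    nm D P J x t (w *ᵥ ν) = nm D P J x t ν := by
  simp only [nm]
  congr 1
  obtain ⟨w', hw', hww⟩ := h.W_inv w hw
  have hww' : w * w' = 1 := mul_eq_one_comm.1 hww
  refine Finset.sum_nbij' (fun u => u * w) (fun u => u * w') (fun u hu => h.W_mul u hu w hw)
    (fun u hu => h.W_mul u hu w' hw') (fun u _ => ?_) (fun u _ => ?_) (fun u _ => ?_)
  · rw [Matrix.mul_assoc, hww', Matrix.mul_one]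
  · rw [Matrix.mul_assoc, hww, Matrix.mul_one]
  · rw [Matrix.mulVec_mulVec]

theorem supp_nm (h : RV D P) (hE : ∀ X : ℕ, 1 ≤ X → ETF D P X) {J : ℕ}
    {x : {p // p ∈ P} → Fin (J + 1)} {t : ℝ} {ν : Fin r → ℤ} (hn : nm D P J x t ν ≠ 0)
    (i : Fin r) : |ν i| ≤ (STZ.NSUM.A' D : ℤ) * (((r + 1 + 2 * STZ.NSUM.A P : ℕ) : ℤ) * 2 ^ J) := by
  have h0 : ∑ w ∈ D.W, nk D P J x t (w *ᵥ ν) ≠ 0 := by
    intro h0
    apply hn
    rw [nm, h0, mul_zero]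
  obtain ⟨w, hw, hw0⟩ := Finset.exists_ne_zero_of_sum_ne_zero h0
  obtain ⟨w', hw', hww⟩ := h.W_inv w hw
  have h1 : ν = w' *ᵥ (w *ᵥ ν) := by
    rw [Matrix.mulVec_mulVec, hww, Matrix.one_mulVec]
  set K : ℤ := ((r + 1 + 2 * STZ.NSUM.A P : ℕ) : ℤ) * 2 ^ J with hK
  have hK0 : 0 ≤ K := by
    rw [hK]
    positivity
  have h2 : ∀ j, |(w *ᵥ ν) j| ≤ K := fun j => STZ.NSUM.supp_nk hE hw0 j
  have h3 : |ν i| ≤ ∑ j, |w' i j| * K := by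
    calc |ν i| = |∑ j, w' i j * (w *ᵥ ν) j| := by
          conv_lhs => rw [h1]
          rfl
      _ ≤ ∑ j, |w' i j * (w *ᵥ ν) j| := Finset.abs_sum_le_sum_abs _ _
      _ ≤ ∑ j, |w' i j| * K := by
          refine Finset.sum_le_sum fun j _ => ?_
          rw [abs_mul]
          exact mul_le_mul_of_nonneg_left (h2 j) (abs_nonneg _)
  refine h3.trans ?_
  rw [← Finset.sum_mul]
  refine mul_le_mul_of_nonneg_right ?_ hK0
  rw [STZ.NSUM.A']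
  push_cast
  have h4 : ∑ j, |w' i j| ≤ ∑ i, ∑ j, |w' i j| :=
    Finset.single_le_sum (f := fun i => ∑ j, |w' i j|)
      (fun _ _ => Finset.sum_nonneg fun _ _ => abs_nonneg _) (Finset.mem_univ i)
  exact h4.trans (Finset.single_le_sum (f := fun w : Matrix (Fin r) (Fin r) ℤ =>
    ∑ i, ∑ j, |w i j|) (fun _ _ => Finset.sum_nonneg fun _ _ =>
      Finset.sum_nonneg fun _ _ => abs_nonneg _) hw')

end NSUV

open NSUV in
/-- NSUV -/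
theorem t_NSUV : M_NSUV := by
  intro hF hE' r D P hx
  have hE : ∀ X : ℕ, 1 ≤ X → ETF D P X := hE' r D P hx
  refine ⟨fun J t ν => sum_nm hx hE hF J t ν, fun w hw J x t ν => inv_nm hx hw J x t ν,
    ⟨(1 + STZ.NSUM.A' D) * (r + 1 + 2 * STZ.NSUM.A P), fun J x t ν i hi => ⟨?_, ?_⟩⟩⟩
  · by_contra hn
    have h1 := STZ.NSUM.supp_nk hE hn i
    have h2 : (0 : ℤ) ≤ (STZ.NSUM.A' D : ℤ) * (((r + 1 + 2 * STZ.NSUM.A P : ℕ) : ℤ) * 2 ^ J) := by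
      positivity
    have h3 : (((1 + STZ.NSUM.A' D) * (r + 1 + 2 * STZ.NSUM.A P) : ℕ) : ℤ) * 2 ^ J =
        ((r + 1 + 2 * STZ.NSUM.A P : ℕ) : ℤ) * 2 ^ J +
          (STZ.NSUM.A' D : ℤ) * (((r + 1 + 2 * STZ.NSUM.A P : ℕ) : ℤ) * 2 ^ J) := by
      push_cast
      ring
    rw [h3] at hi
    linarith
  · by_contra hn
    have h1 := supp_nm hx hE hn i
    have h2 : (0 : ℤ) ≤ ((r + 1 + 2 * STZ.NSUM.A P : ℕ) : ℤ) * 2 ^ J := by positivity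
    have h3 : (((1 + STZ.NSUM.A' D) * (r + 1 + 2 * STZ.NSUM.A P) : ℕ) : ℤ) * 2 ^ J =
        ((r + 1 + 2 * STZ.NSUM.A P : ℕ) : ℤ) * 2 ^ J +
          (STZ.NSUM.A' D : ℤ) * (((r + 1 + 2 * STZ.NSUM.A P : ℕ) : ℤ) * 2 ^ J) := by
      push_cast
      ring
    rw [h3] at hi
    linarith

end LGR
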