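import Pool.Agent.LGR.StR

/-!
# LGR, module ORTR: the integral of a character
-/

namespace LGR

open STZ MeasureTheory Matrix Filter

open scoped ComplexConjugate Matrix Real Topology

noncomputable section

namespace ORTR

variable {r : ℕ}

theorem tp_add (m m' : (Fin r → ℤ) →₀ ℤ) (θ : Fin r → ℝ) : tp (m + m') θ = tp m θ + tp m' θ := by
  unfold tp
  apply Finsupp.sum_add_index'
  · intro a
    simp
  · intro a b c
    push_cast
    ring

theorem tp_zero (θ : Fin r → ℝ) : tp (0 : (Fin r → ℤ) →₀ ℤ) θ = 0 := by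
  unfold tp
  exact Finsupp.sum_zero_index

theorem tp_sum {ι : Type*} (s : Finset ι) (f : ι → ((Fin r → ℤ) →₀ ℤ)) (θ : Fin r → ℝ) :
    tp (∑ k ∈ s, f k) θ = ∑ k ∈ s, tp (f k) θ := by
  classical
  induction s using Finset.induction_on with
  | empty => simp [tp_zero]
  | insert a s ha ih => rw [Finset.sum_insert ha, Finset.sum_insert ha, tp_add, ih]

theorem tp_single (ν : Fin r → ℤ) (θ : Fin r → ℝ) : tp (Finsupp.single ν 1) θ = eu (dz ν θ) := by
  unfold tp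
  rw [Finsupp.sum_single_index (by simp)]
  simp

theorem tp_ss {ι : Type*} (s : Finset ι) (ν : ι → Fin r → ℤ) (θ : Fin r → ℝ) :
    tp (∑ k ∈ s, Finsupp.single (ν k) 1) θ = ∑ k ∈ s, eu (dz (ν k) θ) := by
  rw [tp_sum]
  exact Finset.sum_congr rfl fun k _ => tp_single _ _

/-- the coefficients are determined by the function -/
theorem tp_inj (hT : S_TPOL) {m m' : (Fin r → ℤ) →₀ ℤ} (h : ∀ θ, tp m θ = tp m' θ) : m = m' := by
  have h1 : ∀ θ, tp (m - m') θ = 0 := by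
    intro θ
    have h2 := tp_add (m - m') m' θ
    rw [sub_add_cancel, h θ] at h2
    exact right_eq_add.1 h2
  have h3 := (hT r).2 (m - m').support (fun μ => (((m - m') μ : ℤ) : ℂ)) (by
    intro θ
    exact h1 θ)
  have h4 : m - m' = 0 := by
    ext μ
    by_cases hμ : μ ∈ (m - m').support
    · have h5 := h3 μ hμ
      exact_mod_cast h5
    · rw [Finsupp.notMem_support_iff] at hμ
      rw [hμ]
      rfl
  exact sub_eq_zero.1 h4

theorem av_sum {Φ : RT r} {ι : Type*} (s : Finset ι) (f : ι → ((Fin r → ℤ) →₀ ℤ))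
    (ν : Fin r → ℤ) : av Φ (∑ k ∈ s, f k) ν = ∑ k ∈ s, av Φ (f k) ν := by
  unfold av
  rw [Finset.sum_comm]
  refine Finset.sum_congr rfl fun w _ => ?_
  rw [Finsupp.finsetSum_apply, Finset.mul_sum]

theorem reg_one : Reg (1 : Fin r → ℤ) := fun i => by simp

theorem av_single {Φ : RT r} {B : Matrix (Fin r) (Fin r) ℤ} (hD : IRD Φ B) (hW : WFF Φ B)
    (hC : S_CHAM) : av Φ (Finsupp.single 0 1) 1 = 1 := by
  unfold av
  rw [Finset.sum_eq_single_of_mem (1 : Matrix (Fin r) (Fin r) ℤ) hW.one]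
  · rw [Matrix.det_one, Matrix.one_mulVec, sub_self, Finsupp.single_eq_same, one_mul]
  · intro w hw hne
    rw [Finsupp.single_eq_of_ne, mul_zero]
    intro h
    apply hne
    apply (hC r Φ B hD hW).2 1 reg_one w hw
    have h1 : w *ᵥ (1 : Fin r → ℤ) = 1 := (sub_eq_zero.1 h).symm
    rw [h1]
    exact reg_one

theorem dH_const {N : ℕ} {H : Subgroup (SU N)} (X : Matrix (Fin N) (Fin N) ℂ) (c : ℂ) :
    dH X (fun _ : H => c) = fun _ => 0 := by
  funext g
  unfold dH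
  exact deriv_const _ _

theorem lap_const {N : ℕ} {H : Subgroup (SU N)} {d : ℕ} (X : Fin d → Matrix (Fin N) (Fin N) ℂ)
    (c : ℂ) (g : H) : lapH X (fun _ : H => c) g = 0 := by
  unfold lapH
  refine Finset.sum_eq_zero fun a _ => ?_
  rw [dH_const, dH_const]

theorem irr_case (hG : S_GRH) (hWF : S_WFAC) (hCM : S_CHAM) (hTA : S_TAUF) (hPF : S_PFFX)
    (hCA : S_CASR) (hTV : S_TRIV) (hTR : S_TRES) (hTPL : S_TPOL) (hRF : S_RADF) (hRL : S_RADL)
    {N : ℕ} {H : Subgroup (SU N)} {Φ : RT r} {B : Matrix (Fin r) (Fin r) ℤ}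
    {Hc : Fin r → Matrix (Fin N) (Fin N) ℂ}
    {E : (Fin r → ℤ) × (Fin r → ℤ) → Matrix (Fin N) (Fin N) ℂ}
    {c k : ℝ} {d : ℕ} {X : Fin d → Matrix (Fin N) (Fin N) ℂ} (hr : 1 ≤ r)
    (hcl : IsClosed (H : Set (SU N))) (hcon : IsConnected (H : Set (SU N)))
    (hL : LRD H Φ B Hc E) (hK : KC Φ Hc E c k) (hX : FrameH H c X)
    (μ : Measure H) [IsProbabilityMeasure μ] [μ.IsMulLeftInvariant] (n : ℕ) (σ : Rep H (Fin n))
    (hσ : σ.Irr) (hP : PRep σ) :
    ∃ m : (Fin r → ℤ) →₀ ℤ, (∀ (g : H) (θ : Fin r → ℝ), g.1 = ta Hc θ → σ.ch g = tp m θ) ∧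
      ∫ g, σ.ch g ∂μ = (av Φ m 1 : ℂ) := by
  have hWW := hWF r Φ B hL.ird
  have hT := hTA N H r Φ B Hc E hcl hL
  obtain ⟨U, ν, hU1, hU2, hρ⟩ := hTR N H r Φ B Hc E hcl hL n σ hP
  set m : (Fin r → ℤ) →₀ ℤ := ∑ k, Finsupp.single (ν k) 1 with hm
  have htp : ∀ θ, tp m θ = ∑ k, eu (dz (ν k) θ) := fun θ => tp_ss _ _ _
  have hch : ∀ (g : H) (θ : Fin r → ℝ), g.1 = ta Hc θ → σ.ch g = tp m θ := by
    intro g θ hg
    rw [htp, Rep.ch, hρ g θ hg, Matrix.trace_mul_comm, ← mul_assoc, hU2, one_mul,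
      Matrix.trace_diagonal]
  refine ⟨m, hch, ?_⟩
  have hclf : ∀ g h : H, σ.ch (h * g * h⁻¹) = σ.ch g := by
    intro g h
    rw [Rep.ch, Rep.ch, map_mul, Matrix.trace_mul_comm, ← map_mul, inv_mul_cancel_left]
  have hchP : σ.ch ∈ PF H := by
    have h8 : σ.ch = ∑ i, fun g => σ.ρ g i i := by
      funext g
      rw [Rep.ch, Matrix.trace, Finset.sum_apply]
      rfl
    rw [h8]
    exact Subalgebra.sum_mem _ fun i _ => hP i i
  obtain ⟨κ, hκ0, hκ, hκt⟩ := hCA N H c d X hcl hX n σ hσ hP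
  rcases hκ0.eq_or_lt with h0 | h0
  · -- the trivial representation
    obtain ⟨hn, hone⟩ := hTV N H r Φ B Hc E hcl hcon hL n σ hσ (hκt h0.symm)
    have hc1 : ∀ g, σ.ch g = 1 := by
      intro g
      rw [Rep.ch, hone, Matrix.trace_one, Fintype.card_fin, hn, Nat.cast_one]
    have h1 : m = Finsupp.single 0 1 := by
      apply tp_inj hTPL
      intro θ
      rw [← hch ⟨ta Hc θ, hT.mem θ⟩ θ rfl, hc1, tp_single]
      simp [dz, eu]
    rw [h1, av_single hL.ird hWW hCM]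
    simp only [hc1]
    simp
  · have hκ1 := (hκ X hX).2
    have h1 := (hG N H hcl μ).2 c d X hX σ.ch (fun _ => 1) hκ1.1 ((hPF N H hcl).c2 _ (one_mem _))
    simp only [lap_const, mul_zero, mul_one, integral_zero] at h1
    have h2 : ∫ g, lapH X σ.ch g ∂μ = -(κ : ℂ) * ∫ g, σ.ch g ∂μ := by
      rw [← integral_const_mul]
      exact integral_congr_ae (Filter.Eventually.of_forall fun g => hκ1.2 g)
    rw [h2] at h1
    have h3 : ∫ g, σ.ch g ∂μ = 0 := by
      rcases mul_eq_zero.1 h1 with h | h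
      · exfalso
        rw [neg_eq_zero] at h
        exact h0.ne' (by exact_mod_cast h)
      · exact h
    rw [h3]
    by_contra h4
    have h5 : av Φ m 1 ≠ 0 := by
      intro h
      rw [h] at h4
      exact h4 (by simp)
    have hκl : κ = k * (((rd Φ).Q 1 : ℝ) - (rd Φ).Q 1) := by
      refine hRL r Φ B hr hL.ird hWW m k κ hK.kpos ?_ 1 h5
      intro θ hθ
      have h8 := hRF N H r Φ B Hc E c k d X hcl hL hK hX σ.ch hchP (fun g h => hclf g h) m hch
        ⟨ta Hc θ, hT.mem θ⟩ θ rfl hθ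
      have h9 := hκ1.2 ⟨ta Hc θ, hT.mem θ⟩
      rw [h8, hch _ θ rfl] at h9
      exact h9.symm
    rw [sub_self, mul_zero] at hκl
    exact h0.ne' hκl

end ORTR

theorem t_ORTR : M_ORTR := by
  intro hG hWF hCM hTA hPF hDP hCA hTV hTR hTPL hAV hRF hRL N H r Φ B Hc E c k d X
    hr hcl hcon hL hK hX μ _ _ ι _ _ R hR m hm
  have hT := hTA N H r Φ B Hc E hcl hL
  have hcs : CompactSpace H := isCompact_iff_compactSpace.1 (hcl.isCompact)
  obtain ⟨n, M, σ, hσ, hP, hch, -⟩ := hDP N H ι R hR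
  have h1 := fun j => ORTR.irr_case hG hWF hCM hTA hPF hCA hTV hTR hTPL hRF hRL hr hcl hcon hL hK
    hX μ (M j) (σ j) (hσ j) (hP j)
  choose m' h2 h3 using h1
  have h4 : m = ∑ j, m' j := by
    apply ORTR.tp_inj hTPL
    intro θ
    rw [← hm ⟨ta Hc θ, hT.mem θ⟩ θ rfl, hch, ORTR.tp_sum]
    exact Finset.sum_congr rfl fun j _ => h2 j _ θ rfl
  rw [h4, ORTR.av_sum]
  push_cast
  have h5 : ∫ g, R.ch g ∂μ = ∫ g, ∑ j, (σ j).ch g ∂μ :=
    integral_congr_ae (Filter.Eventually.of_forall fun g => hch g)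
  rw [h5, integral_finsetSum]
  · exact Finset.sum_congr rfl fun j _ => h3 j
  · intro j _
    have h6 : Continuous (σ j).ch := (σ j).cont.matrix_trace
    exact h6.integrable_of_hasCompactSupport (HasCompactSupport.of_compactSpace _)

end

end LGR
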