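import Pool.Agent.LGR.StR

/-!
# PFFX: polynomial functions on a closed subgroup of `SU(N)`
-/

namespace LGR

open STZ MeasureTheory Matrix Filter

open scoped ComplexConjugate Matrix Real Topology

noncomputable section

namespace PFFX

variable {N : ℕ} {H : Subgroup (SU N)}

theorem entry_mem (i j : Fin N) : (fun g : H => g.1.1 i j) ∈ PF H :=
  Algebra.subset_adjoin (Or.inl ⟨i, j, rfl⟩)

theorem centry_mem (i j : Fin N) : (fun g : H => conj (g.1.1 i j)) ∈ PF H :=
  Algebra.subset_adjoin (Or.inr ⟨i, j, rfl⟩)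

theorem const_mem (c : ℂ) : (fun _ : H => c) ∈ PF H := (PF H).algebraMap_mem c

theorem sum_mem {ι : Type} (s : Finset ι) (f : ι → H → ℂ) (hf : ∀ k ∈ s, f k ∈ PF H) :
    (fun g => ∑ k ∈ s, f k g) ∈ PF H := by
  have h1 : (fun g => ∑ k ∈ s, f k g) = ∑ k ∈ s, f k := by
    funext g
    rw [Finset.sum_apply]
  rw [h1]
  exact Subalgebra.sum_mem _ hf

theorem prod_mem {ι : Type} (s : Finset ι) (f : ι → H → ℂ) (hf : ∀ k ∈ s, f k ∈ PF H) :
    (fun g => ∏ k ∈ s, f k g) ∈ PF H := by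
  have h1 : (fun g => ∏ k ∈ s, f k g) = ∏ k ∈ s, f k := by
    funext g
    rw [Finset.prod_apply]
  rw [h1]
  exact Subalgebra.prod_mem _ hf

/-- induction for functions -/
theorem ind {p : (H → ℂ) → Prop} (h1 : ∀ i j, p (fun g => g.1.1 i j))
    (h2 : ∀ i j, p (fun g => conj (g.1.1 i j))) (h3 : ∀ c : ℂ, p (fun _ => c))
    (h4 : ∀ f ∈ PF H, ∀ h ∈ PF H, p f → p h → p (fun g => f g + h g))
    (h5 : ∀ f ∈ PF H, ∀ h ∈ PF H, p f → p h → p (fun g => f g * h g)) :
    ∀ f ∈ PF H, p f := by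
  intro f hf
  unfold PF at hf
  induction hf using Algebra.adjoin_induction with
  | mem x hx =>
    rcases hx with ⟨i, j, rfl⟩ | ⟨i, j, rfl⟩
    · exact h1 i j
    · exact h2 i j
  | algebraMap r => exact h3 r
  | add x y hx hy hpx hpy => exact h4 x hx y hy hpx hpy
  | mul x y hx hy hpx hpy => exact h5 x hx y hy hpx hpy

theorem c2 (hC : CALFH H) : ∀ f ∈ PF H, C2H f :=
  ind hC.entry (fun i j => hC.cj _ (hC.entry i j)) hC.const (fun f _ h _ hf hh => hC.add f h hf hh)
    (fun f _ h _ hf hh => hC.mul f h hf hh)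

theorem dH_entry (hC : CALFH H) {X : Matrix (Fin N) (Fin N) ℂ} (hX : X ∈ lie H) (i j : Fin N) :
    dH X (fun g : H => g.1.1 i j) = fun g => (g.1.1 * X) i j :=
  funext fun g => hC.dentry X hX i j g

theorem dH_centry (hC : CALFH H) {X : Matrix (Fin N) (Fin N) ℂ} (hX : X ∈ lie H) (i j : Fin N) :
    dH X (fun g : H => conj (g.1.1 i j)) = fun g => conj ((g.1.1 * X) i j) := by
  funext g
  rw [hC.dconj X hX _ (hC.entry i j).1, hC.dentry X hX]

theorem lin_mem (X : Matrix (Fin N) (Fin N) ℂ) (i j : Fin N) :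
    (fun g : H => (g.1.1 * X) i j) ∈ PF H := by
  have h1 : (fun g : H => (g.1.1 * X) i j) = fun g => ∑ k, g.1.1 i k * X k j := by
    funext g
    rw [Matrix.mul_apply]
  rw [h1]
  exact sum_mem _ _ fun k _ => (PF H).mul_mem (entry_mem i k) (const_mem (X k j))

theorem cj : ∀ f ∈ PF H, (fun g => conj (f g)) ∈ PF H := by
  refine ind centry_mem (fun i j => ?_) (fun c => const_mem _) (fun f _ h _ hf hh => ?_)
    (fun f _ h _ hf hh => ?_)
  · simp only [Complex.conj_conj]
    exact entry_mem i j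
  · simp only [map_add]
    exact (PF H).add_mem hf hh
  · simp only [map_mul]
    exact (PF H).mul_mem hf hh

theorem d (hC : CALFH H) {X : Matrix (Fin N) (Fin N) ℂ} (hX : X ∈ lie H) :
    ∀ f ∈ PF H, dH X f ∈ PF H := by
  refine ind (fun i j => ?_) (fun i j => ?_) (fun c => ?_) (fun f hf' h hh' hf hh => ?_)
    (fun f hf' h hh' hf hh => ?_)
  · rw [dH_entry hC hX]
    exact lin_mem X i j
  · rw [dH_centry hC hX]
    exact cj _ (lin_mem X i j)
  · rw [show dH X (fun _ : H => c) = fun _ => 0 from funext fun g => hC.dconst X c g]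
    exact const_mem 0
  · rw [show dH X (fun g => f g + h g) = fun g => dH X f g + dH X h g from
      funext fun g => hC.dadd X hX f h (c2 hC f hf').1 (c2 hC h hh').1 g]
    exact (PF H).add_mem hf hh
  · rw [show dH X (fun g => f g * h g) = fun g => dH X f g * h g + f g * dH X h g from
      funext fun g => hC.dmul X hX f h (c2 hC f hf').1 (c2 hC h hh').1 g]
    exact (PF H).add_mem ((PF H).mul_mem hf hh') ((PF H).mul_mem hf' hh)

theorem left (h : H) : ∀ f ∈ PF H, (fun g => f (h * g)) ∈ PF H := by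
  have key : ∀ i j, (fun g : H => (h * g).1.1 i j) ∈ PF H := by
    intro i j
    have h1 : (fun g : H => (h * g).1.1 i j) = fun g => ∑ k, h.1.1 i k * g.1.1 k j := by
      funext g
      rw [Subgroup.coe_mul, coe_mul, Matrix.mul_apply]
    rw [h1]
    exact sum_mem _ _ fun k _ => (PF H).mul_mem (const_mem _) (entry_mem k j)
  refine ind key (fun i j => cj _ (key i j)) (fun c => const_mem c) (fun f _ h _ hf hh => ?_)
    (fun f _ h _ hf hh => ?_)
  · exact (PF H).add_mem hf hh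
  · exact (PF H).mul_mem hf hh

theorem right (h : H) : ∀ f ∈ PF H, (fun g => f (g * h)) ∈ PF H := by
  have key : ∀ i j, (fun g : H => (g * h).1.1 i j) ∈ PF H := by
    intro i j
    have h1 : (fun g : H => (g * h).1.1 i j) = fun g => ∑ k, g.1.1 i k * h.1.1 k j := by
      funext g
      rw [Subgroup.coe_mul, coe_mul, Matrix.mul_apply]
    rw [h1]
    exact sum_mem _ _ fun k _ => (PF H).mul_mem (entry_mem i k) (const_mem _)
  refine ind key (fun i j => cj _ (key i j)) (fun c => const_mem c) (fun f _ h _ hf hh => ?_)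
    (fun f _ h _ hf hh => ?_)
  · exact (PF H).add_mem hf hh
  · exact (PF H).mul_mem hf hh

theorem add (hC : CALFH H) (hL : LIF H) {X Y : Matrix (Fin N) (Fin N) ℂ} (hX : X ∈ lie H)
    (hY : Y ∈ lie H) : ∀ f ∈ PF H, ∀ g, dH (X + Y) f g = dH X f g + dH Y f g := by
  have hXY := hL.add X hX Y hY
  refine ind (fun i j => ?_) (fun i j => ?_) (fun c => ?_) (fun f hf' h hh' hf hh => ?_)
    (fun f hf' h hh' hf hh => ?_) <;> intro g
  · rw [hC.dentry _ hXY, hC.dentry _ hX, hC.dentry _ hY, Matrix.mul_add, Matrix.add_apply]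
  · rw [dH_centry hC hXY, dH_centry hC hX, dH_centry hC hY]
    simp only [Matrix.mul_add, Matrix.add_apply, map_add]
  · rw [hC.dconst, hC.dconst, hC.dconst, add_zero]
  · have h1 := (c2 hC f hf').1
    have h2 := (c2 hC h hh').1
    rw [hC.dadd _ hXY f h h1 h2, hC.dadd _ hX f h h1 h2, hC.dadd _ hY f h h1 h2, hf g, hh g]
    ring
  · have h1 := (c2 hC f hf').1
    have h2 := (c2 hC h hh').1
    rw [hC.dmul _ hXY f h h1 h2, hC.dmul _ hX f h h1 h2, hC.dmul _ hY f h h1 h2, hf g, hh g]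
    ring

theorem smul (hC : CALFH H) (hL : LIF H) {X : Matrix (Fin N) (Fin N) ℂ} (hX : X ∈ lie H)
    (s : ℝ) : ∀ f ∈ PF H, ∀ g, dH ((s : ℂ) • X) f g = s * dH X f g := by
  have hsX := hL.smul s X hX
  refine ind (fun i j => ?_) (fun i j => ?_) (fun c => ?_) (fun f hf' h hh' hf hh => ?_)
    (fun f hf' h hh' hf hh => ?_) <;> intro g
  · rw [hC.dentry _ hsX, hC.dentry _ hX, Matrix.mul_smul, Matrix.smul_apply, smul_eq_mul]
  · rw [dH_centry hC hsX, dH_centry hC hX]
    simp only [Matrix.mul_smul, Matrix.smul_apply, smul_eq_mul, map_mul, Complex.conj_ofReal]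
  · rw [hC.dconst, hC.dconst, mul_zero]
  · have h1 := (c2 hC f hf').1
    have h2 := (c2 hC h hh').1
    rw [hC.dadd _ hsX f h h1 h2, hC.dadd _ hX f h h1 h2, hf g, hh g]
    ring
  · have h1 := (c2 hC f hf').1
    have h2 := (c2 hC h hh').1
    rw [hC.dmul _ hsX f h h1 h2, hC.dmul _ hX f h h1 h2, hf g, hh g]
    ring

theorem dsum (hC : CALFH H) {X : Matrix (Fin N) (Fin N) ℂ} (hX : X ∈ lie H) (s : Finset (Fin N))
    (f : Fin N → H → ℂ) (hf : ∀ k, C1H (f k)) (c : Fin N → ℂ) :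
    C1H (fun g => ∑ k ∈ s, f k g * c k) ∧
      ∀ g, dH X (fun g => ∑ k ∈ s, f k g * c k) g = ∑ k ∈ s, dH X (f k) g * c k := by
  classical
  induction s using Finset.induction_on with
  | empty =>
    simp only [Finset.sum_empty]
    exact ⟨(hC.const 0).1, fun g => hC.dconst X 0 g⟩
  | insert a s ha ih =>
    simp only [Finset.sum_insert ha]
    have h1 : C1H (fun g => f a g * c a) := hC.mul1 _ _ (hf a) (hC.const (c a)).1
    refine ⟨hC.add1 _ _ h1 ih.1, fun g => ?_⟩
    rw [hC.dadd X hX _ _ h1 ih.1, ih.2 g, hC.dmul X hX _ _ (hf a) (hC.const (c a)).1,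
      hC.dconst, mul_zero, add_zero]

theorem dd_entry (hC : CALFH H) {X Y : Matrix (Fin N) (Fin N) ℂ} (hX : X ∈ lie H)
    (hY : Y ∈ lie H) (i j : Fin N) (g : H) :
    C1H (fun g : H => (g.1.1 * Y) i j) ∧
    dH X (fun g : H => (g.1.1 * Y) i j) g = (g.1.1 * X * Y) i j := by
  have h1 : (fun g : H => (g.1.1 * Y) i j) = fun g => ∑ k, g.1.1 i k * Y k j := by
    funext g
    rw [Matrix.mul_apply]
  obtain ⟨h2, h3⟩ := dsum hC hX Finset.univ (fun k (g : H) => g.1.1 i k)
    (fun k => (hC.entry i k).1) (fun k => Y k j)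
  rw [h1]
  refine ⟨h2, ?_⟩
  rw [h3 g, Matrix.mul_apply]
  refine Finset.sum_congr rfl fun k _ => ?_
  rw [hC.dentry X hX]

theorem comm (hC : CALFH H) (hL : LIF H) {X Y : Matrix (Fin N) (Fin N) ℂ} (hX : X ∈ lie H)
    (hY : Y ∈ lie H) : ∀ f ∈ PF H, ∀ g,
    dH X (dH Y f) g - dH Y (dH X f) g = dH (X * Y - Y * X) f g := by
  have hXY := hL.br X hX Y hY
  refine ind (fun i j => ?_) (fun i j => ?_) (fun c => ?_) (fun f hf' h hh' hf hh => ?_)
    (fun f hf' h hh' hf hh => ?_) <;> intro g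
  · rw [dH_entry hC hX, dH_entry hC hY, (dd_entry hC hX hY i j g).2, (dd_entry hC hY hX i j g).2,
      hC.dentry _ hXY, Matrix.mul_sub, Matrix.sub_apply, Matrix.mul_assoc, Matrix.mul_assoc]
  · rw [dH_centry hC hX, dH_centry hC hY, hC.dconj X hX _ (dd_entry hC hX hY i j g).1,
      hC.dconj Y hY _ (dd_entry hC hY hX i j g).1, (dd_entry hC hX hY i j g).2,
      (dd_entry hC hY hX i j g).2, dH_centry hC hXY]
    simp only [Matrix.mul_sub, Matrix.sub_apply, map_sub, Matrix.mul_assoc]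
  · rw [show dH X (fun _ : H => c) = fun _ => 0 from funext fun g => hC.dconst X c g,
      show dH Y (fun _ : H => c) = fun _ => 0 from funext fun g => hC.dconst Y c g,
      hC.dconst, hC.dconst, hC.dconst, sub_zero]
  · have h1 := (c2 hC f hf').1
    have h2 := (c2 hC h hh').1
    have hX1 := (c2 hC _ (d hC hX f hf')).1
    have hX2 := (c2 hC _ (d hC hX h hh')).1
    have hY1 := (c2 hC _ (d hC hY f hf')).1
    have hY2 := (c2 hC _ (d hC hY h hh')).1
    rw [show dH X (fun g => f g + h g) = fun g => dH X f g + dH X h g from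
        funext fun g => hC.dadd X hX f h h1 h2 g,
      show dH Y (fun g => f g + h g) = fun g => dH Y f g + dH Y h g from
        funext fun g => hC.dadd Y hY f h h1 h2 g,
      hC.dadd X hX _ _ hY1 hY2, hC.dadd Y hY _ _ hX1 hX2, hC.dadd _ hXY f h h1 h2, ← hf g, ← hh g]
    ring
  · have h1 := (c2 hC f hf').1
    have h2 := (c2 hC h hh').1
    have hX1 := (c2 hC _ (d hC hX f hf')).1
    have hX2 := (c2 hC _ (d hC hX h hh')).1
    have hY1 := (c2 hC _ (d hC hY f hf')).1
    have hY2 := (c2 hC _ (d hC hY h hh')).1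
    rw [show dH X (fun g => f g * h g) = fun g => dH X f g * h g + f g * dH X h g from
        funext fun g => hC.dmul X hX f h h1 h2 g,
      show dH Y (fun g => f g * h g) = fun g => dH Y f g * h g + f g * dH Y h g from
        funext fun g => hC.dmul Y hY f h h1 h2 g,
      hC.dadd X hX _ _ (hC.mul1 _ _ hY1 h2) (hC.mul1 _ _ h1 hY2),
      hC.dadd Y hY _ _ (hC.mul1 _ _ hX1 h2) (hC.mul1 _ _ h1 hX2),
      hC.dmul X hX _ _ hY1 h2, hC.dmul X hX _ _ h1 hY2, hC.dmul Y hY _ _ hX1 h2,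
      hC.dmul Y hY _ _ h1 hX2, hC.dmul _ hXY f h h1 h2, ← hf g, ← hh g]
    ring

/-! ### right translations -/

theorem mul_conj (g : SU N) : g.1 * g.1ᴴ = 1 := by
  have h : g * star g = 1 := by
    rw [Matrix.star_eq_inv, mul_inv_cancel]
  exact congrArg Subtype.val h

theorem conj_mul (g : SU N) : g.1ᴴ * g.1 = 1 := by
  have h : star g * g = 1 := by
    rw [Matrix.star_eq_inv, inv_mul_cancel]
  exact congrArg Subtype.val h

theorem inv_val (g : SU N) : (g⁻¹).1 = g.1ᴴ := by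
  rw [← Matrix.star_eq_inv]
  rfl

theorem ex_conj (h : SU N) (X : Matrix (Fin N) (Fin N) ℂ) (t : ℝ) :
    ex (h.1ᴴ * X * h.1) t = h⁻¹ * ex X t * h := by
  have h1 : NormedSpace.exp ((t : ℂ) • (h.1ᴴ * X * h.1)) =
      h.1ᴴ * NormedSpace.exp ((t : ℂ) • X) * h.1 := by
    have h2 : (t : ℂ) • (h.1ᴴ * X * h.1) = h.1ᴴ * ((t : ℂ) • X) * h.1 := by
      rw [Matrix.mul_smul, Matrix.smul_mul]
    rw [h2]
    exact Matrix.exp_units_conj (⟨h.1ᴴ, h.1, conj_mul h, mul_conj h⟩ :
      (Matrix (Fin N) (Fin N) ℂ)ˣ) ((t : ℂ) • X)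
  by_cases hm : NormedSpace.exp ((t : ℂ) • X) ∈ Matrix.specialUnitaryGroup (Fin N) ℂ
  · have e1 : ex X t = ⟨_, hm⟩ := by
      unfold ex
      rw [dif_pos hm]
    have e2 : (h⁻¹ * ex X t * h).1 = NormedSpace.exp ((t : ℂ) • (h.1ᴴ * X * h.1)) := by
      rw [coe_mul, coe_mul, inv_val, e1, h1]
    have hm' : NormedSpace.exp ((t : ℂ) • (h.1ᴴ * X * h.1)) ∈
        Matrix.specialUnitaryGroup (Fin N) ℂ := by
      rw [← e2]
      exact (h⁻¹ * ex X t * h).2
    apply Subtype.ext
    rw [e2]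
    unfold ex
    rw [dif_pos hm']
  · have hm' : NormedSpace.exp ((t : ℂ) • (h.1ᴴ * X * h.1)) ∉
        Matrix.specialUnitaryGroup (Fin N) ℂ := by
      intro hm'
      apply hm
      have e3 : NormedSpace.exp ((t : ℂ) • X) =
          (h * (⟨_, hm'⟩ : SU N) * h⁻¹).1 := by
        rw [coe_mul, coe_mul, inv_val]
        change _ = h.1 * NormedSpace.exp ((t : ℂ) • (h.1ᴴ * X * h.1)) * h.1ᴴ
        rw [h1]
        have e4 : h.1 * (h.1ᴴ * NormedSpace.exp ((t : ℂ) • X) * h.1) * h.1ᴴ =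
            (h.1 * h.1ᴴ) * NormedSpace.exp ((t : ℂ) • X) * (h.1 * h.1ᴴ) := by
          simp only [Matrix.mul_assoc]
        rw [e4, mul_conj, one_mul, mul_one]
      rw [e3]
      exact (h * (⟨_, hm'⟩ : SU N) * h⁻¹).2
    unfold ex
    rw [dif_neg hm, dif_neg hm', mul_one, inv_mul_cancel]

theorem coe_exH {X : Matrix (Fin N) (Fin N) ℂ} (hX : X ∈ lie H) (t : ℝ) :
    (exH H X t : SU N) = ex X t := by
  unfold exH
  rw [dif_pos (hX.2 t)]

theorem dright (hL : LIF H) {X : Matrix (Fin N) (Fin N) ℂ} (hX : X ∈ lie H) (h : H) (f : H → ℂ)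
    (g : H) : dH X (fun g => f (g * h)) g = dH (h.1.1ᴴ * X * h.1.1) f (g * h) := by
  have hX' : h.1.1ᴴ * X * h.1.1 ∈ lie H := by
    have h1 := hL.ad (h⁻¹).1 (h⁻¹).2 X hX
    have h2 : ((h⁻¹ : H).1).1 = h.1.1ᴴ := by
      rw [Subgroup.coe_inv, inv_val]
    rw [h2, Matrix.conjTranspose_conjTranspose] at h1
    exact h1
  have key : ∀ t, exH H X t * h = h * exH H (h.1.1ᴴ * X * h.1.1) t := by
    intro t
    apply Subtype.ext
    rw [Subgroup.coe_mul, Subgroup.coe_mul, coe_exH hX, coe_exH hX', ex_conj]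
    group
  unfold dH
  congr 1
  funext t
  change f (g * exH H X t * h) = f (g * h * exH H (h.1.1ᴴ * X * h.1.1) t)
  rw [mul_assoc g, key t, ← mul_assoc g]

/-! ### monomials -/

theorem mono (i j : ℕ) (p q : Fin i → Fin N) (p' q' : Fin j → Fin N) :
    (fun g : H => (∏ s, g.1.1 (p s) (q s)) * ∏ s, conj (g.1.1 (p' s) (q' s))) ∈ PF H :=
  (PF H).mul_mem (prod_mem _ _ fun s _ => entry_mem (p s) (q s))
    (prod_mem _ _ fun s _ => centry_mem (p' s) (q' s))

/-- a monomial in the entries and their conjugates -/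
def IsMon (f : H → ℂ) : Prop := ∃ (i j : ℕ) (p q : Fin i → Fin N) (p' q' : Fin j → Fin N),
  f = fun g : H => (∏ s, g.1.1 (p s) (q s)) * ∏ s, conj (g.1.1 (p' s) (q' s))

theorem isMon_entry (i j : Fin N) : IsMon (fun g : H => g.1.1 i j) := by
  refine ⟨1, 0, fun _ => i, fun _ => j, Fin.elim0, Fin.elim0, ?_⟩
  funext g
  simp

theorem isMon_centry (i j : Fin N) : IsMon (fun g : H => conj (g.1.1 i j)) := by
  refine ⟨0, 1, Fin.elim0, Fin.elim0, fun _ => i, fun _ => j, ?_⟩
  funext g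
  simp

theorem isMon_one : IsMon (fun _ : H => (1 : ℂ)) :=
  ⟨0, 0, Fin.elim0, Fin.elim0, Fin.elim0, Fin.elim0, by funext g; simp⟩

theorem isMon_mul {f h : H → ℂ} (hf : IsMon f) (hh : IsMon h) : IsMon (fun g => f g * h g) := by
  obtain ⟨i, j, p, q, p', q', hm⟩ := hf
  obtain ⟨i2, j2, p2, q2, p2', q2', hm2⟩ := hh
  refine ⟨i + i2, j + j2, Fin.append p p2, Fin.append q q2, Fin.append p' p2',
    Fin.append q' q2', ?_⟩
  funext g
  rw [hm, hm2, Fin.prod_univ_add, Fin.prod_univ_add]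
  simp only [Fin.append_left, Fin.append_right]
  ring

theorem span : ∀ f ∈ PF H, f ∈ Submodule.span ℂ {f | ∃ (i j : ℕ) (p q : Fin i → Fin N)
    (p' q' : Fin j → Fin N),
    f = fun g : H => (∏ s, g.1.1 (p s) (q s)) * ∏ s, conj (g.1.1 (p' s) (q' s))} := by
  intro f hf
  have h1 : f ∈ Subalgebra.toSubmodule (PF H) := hf
  unfold PF at h1
  rw [Algebra.adjoin_eq_span] at h1
  refine Submodule.span_mono ?_ h1
  intro x hx
  change IsMon x
  induction hx using Submonoid.closure_induction with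
  | mem x hx =>
    rcases hx with ⟨i, j, rfl⟩ | ⟨i, j, rfl⟩
    · exact isMon_entry i j
    · exact isMon_centry i j
  | one => exact isMon_one
  | mul x y _ _ ihx ihy => exact isMon_mul ihx ihy

/-! ### density -/

/-- the entries as elements of the algebra of continuous functions -/
def ent (H : Subgroup (SU N)) (i j : Fin N) : C(H, ℂ) :=
  ⟨fun g => g.1.1 i j, (continuous_entry i j).comp continuous_subtype_val⟩

/-- the set of the entries -/
def S (H : Subgroup (SU N)) : Set C(H, ℂ) := Set.range fun x : Fin N × Fin N => ent H x.1 x.2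

theorem closure_mem {h : C(H, ℂ)} (hh : h ∈ Submonoid.closure (S H ∪ star (S H))) :
    (fun g => h g) ∈ PF H := by
  induction hh using Submonoid.closure_induction with
  | mem h hh =>
    rcases hh with ⟨⟨i, j⟩, rfl⟩ | hh
    · exact entry_mem i j
    · obtain ⟨⟨i, j⟩, hij⟩ := hh
      have h1 : h = star (ent H i j) := by rw [← star_star h]; exact congrArg star hij.symm
      rw [h1]
      exact centry_mem i j
  | one => exact const_mem 1
  | mul h h' _ _ ih ih' => exact (PF H).mul_mem ih ih'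

theorem dense (hH : IsClosed (H : Set (SU N))) (f : H → ℂ) (hf : Continuous f) (ε : ℝ)
    (hε : 0 < ε) : ∃ P ∈ PF H, ∀ g, ‖f g - P g‖ ≤ ε := by
  haveI : CompactSpace H := isCompact_iff_compactSpace.mp hH.isCompact
  set A : StarSubalgebra ℂ C(H, ℂ) := StarAlgebra.adjoin ℂ (S H) with hA
  have hsep : A.SeparatesPoints := by
    intro g g' hgg
    have h1 : ∃ i j, g.1.1 i j ≠ g'.1.1 i j := by
      by_contra hcon
      push Not at hcon
      exact hgg (Subtype.ext (Subtype.ext (Matrix.ext hcon)))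
    obtain ⟨i, j, hij⟩ := h1
    exact ⟨_, ⟨ent H i j, StarAlgebra.subset_adjoin ℂ (S H) ⟨(i, j), rfl⟩, rfl⟩, hij⟩
  have htop := ContinuousMap.starSubalgebra_topologicalClosure_eq_top_of_separatesPoints A hsep
  let F : C(H, ℂ) := ⟨f, hf⟩
  have h1 : F ∈ A.topologicalClosure := by rw [htop]; exact StarSubalgebra.mem_top
  have h2 : F ∈ closure (A : Set C(H, ℂ)) := by
    rw [← StarSubalgebra.topologicalClosure_coe]
    exact h1
  rw [Metric.mem_closure_iff] at h2
  obtain ⟨h, hh, hd⟩ := h2 ε hε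
  have h3 : h ∈ Submodule.span ℂ (Submonoid.closure (S H ∪ star (S H)) : Set C(H, ℂ)) := by
    rw [← StarAlgebra.adjoin_eq_span]
    exact hh
  have h4 : (fun g => h g) ∈ PF H := by
    clear hd hh
    induction h3 using Submodule.span_induction with
    | mem h hh2 => exact closure_mem hh2
    | zero => exact const_mem 0
    | add a b _ _ iha ihb => exact (PF H).add_mem iha ihb
    | smul c a _ iha => exact (PF H).smul_mem iha c
  refine ⟨_, h4, fun g => ?_⟩
  refine le_trans ((F - h).norm_coe_le_norm g) ?_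
  rw [← dist_eq_norm]
  exact hd.le

end PFFX

open PFFX in
theorem t_PFFX : M_PFFX := by
  intro hCal hLie N H hH
  have hC := hCal N H
  have hL := hLie N H hH
  exact ⟨c2 hC, fun X hX f hf => d hC hX f hf, cj, fun h f hf => left h f hf,
    fun h f hf => right h f hf, fun X hX Y hY f hf g => add hC hL hX hY f hf g,
    fun X hX s f hf g => smul hC hL hX s f hf g, fun X hX Y hY f hf g => comm hC hL hX hY f hf g,
    fun X hX h f _ g => dright hL hX h f g, mono, span, fun f hf ε hε => dense hH f hf ε hε⟩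

end

end LGR
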