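import Pool.Agent.LGR.StV

/-!
# PGXX: the algebra generated by the entries of `g` and `σ g`
-/

namespace LGR

open STZ MeasureTheory Matrix Filter

open scoped ComplexConjugate Matrix Real Topology

noncomputable section

namespace PGXX

variable {N : ℕ} {H : Subgroup (SU N)} {σ : H →* H}

theorem entry_mem (i j : Fin N) : (fun g : H => g.1.1 i j) ∈ PG H σ :=
  Algebra.subset_adjoin (Or.inl (Or.inl ⟨i, j, rfl⟩))

theorem centry_mem (i j : Fin N) : (fun g : H => conj (g.1.1 i j)) ∈ PG H σ :=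
  Algebra.subset_adjoin (Or.inl (Or.inr ⟨i, j, rfl⟩))

theorem sentry_mem (i j : Fin N) : (fun g : H => (σ g).1.1 i j) ∈ PG H σ :=
  Algebra.subset_adjoin (Or.inr (Or.inl ⟨i, j, rfl⟩))

theorem scentry_mem (i j : Fin N) : (fun g : H => conj ((σ g).1.1 i j)) ∈ PG H σ :=
  Algebra.subset_adjoin (Or.inr (Or.inr ⟨i, j, rfl⟩))

theorem const_mem (c : ℂ) : (fun _ : H => c) ∈ PG H σ := (PG H σ).algebraMap_mem c

theorem sum_mem {ι : Type} (s : Finset ι) (f : ι → H → ℂ) (hf : ∀ k ∈ s, f k ∈ PG H σ) :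
    (fun g => ∑ k ∈ s, f k g) ∈ PG H σ := by
  have h1 : (fun g => ∑ k ∈ s, f k g) = ∑ k ∈ s, f k := by
    funext g
    rw [Finset.sum_apply]
  rw [h1]
  exact Subalgebra.sum_mem _ hf

/-- induction for functions -/
theorem ind {p : (H → ℂ) → Prop} (h1 : ∀ i j, p (fun g => g.1.1 i j))
    (h2 : ∀ i j, p (fun g => conj (g.1.1 i j))) (k1 : ∀ i j, p (fun g => (σ g).1.1 i j))
    (k2 : ∀ i j, p (fun g => conj ((σ g).1.1 i j))) (h3 : ∀ c : ℂ, p (fun _ => c))
    (h4 : ∀ f ∈ PG H σ, ∀ h ∈ PG H σ, p f → p h → p (fun g => f g + h g))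
    (h5 : ∀ f ∈ PG H σ, ∀ h ∈ PG H σ, p f → p h → p (fun g => f g * h g)) :
    ∀ f ∈ PG H σ, p f := by
  intro f hf
  unfold PG at hf
  induction hf using Algebra.adjoin_induction with
  | mem x hx =>
    rcases hx with (⟨i, j, rfl⟩ | ⟨i, j, rfl⟩) | (⟨i, j, rfl⟩ | ⟨i, j, rfl⟩)
    · exact h1 i j
    · exact h2 i j
    · exact k1 i j
    · exact k2 i j
  | algebraMap r => exact h3 r
  | add x y hx hy hpx hpy => exact h4 x hx y hy hpx hpy
  | mul x y hx hy hpx hpy => exact h5 x hx y hy hpx hpy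

theorem dH_entry (hC : CALFH H) {X : Matrix (Fin N) (Fin N) ℂ} (hX : X ∈ lie H) (i j : Fin N) :
    dH X (fun g : H => g.1.1 i j) = fun g => (g.1.1 * X) i j :=
  funext fun g => hC.dentry X hX i j g

theorem dH_centry (hC : CALFH H) {X : Matrix (Fin N) (Fin N) ℂ} (hX : X ∈ lie H) (i j : Fin N) :
    dH X (fun g : H => conj (g.1.1 i j)) = fun g => conj ((g.1.1 * X) i j) := by
  funext g
  rw [hC.dconj X hX _ (hC.entry i j).1, hC.dentry X hX]

theorem dsum (hC : CALFH H) {X : Matrix (Fin N) (Fin N) ℂ} (hX : X ∈ lie H) (s : Finset (Fin N))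
    (f : Fin N → H → ℂ) (hf : ∀ k, C1H (f k)) (c : Fin N → ℂ) :
    C1H (fun g => ∑ k ∈ s, f k g * c k) ∧
      ∀ g, dH X (fun g => ∑ k ∈ s, f k g * c k) g = ∑ k ∈ s, dH X (f k) g * c k := by
  classical
  induction s using Finset.induction_on with
  | empty =>
    simp only [Finset.sum_empty]
    exact ⟨(hC.const 0).1, fun g => hC.dconst X 0 g⟩
  | insert a s ha ih =>
    simp only [Finset.sum_insert ha]
    have h1 : C1H (fun g => f a g * c a) := hC.mul1 _ _ (hf a) (hC.const (c a)).1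
    refine ⟨hC.add1 _ _ h1 ih.1, fun g => ?_⟩
    rw [hC.dadd X hX _ _ h1 ih.1, ih.2 g, hC.dmul X hX _ _ (hf a) (hC.const (c a)).1,
      hC.dconst, mul_zero, add_zero]

theorem dd_entry (hC : CALFH H) {X Y : Matrix (Fin N) (Fin N) ℂ} (hX : X ∈ lie H) (i j : Fin N)
    (g : H) : C1H (fun g : H => (g.1.1 * Y) i j) ∧
    dH X (fun g : H => (g.1.1 * Y) i j) g = (g.1.1 * X * Y) i j := by
  have h1 : (fun g : H => (g.1.1 * Y) i j) = fun g => ∑ k, g.1.1 i k * Y k j := by
    funext g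
    rw [Matrix.mul_apply]
  obtain ⟨h2, h3⟩ := dsum hC hX Finset.univ (fun k (g : H) => g.1.1 i k)
    (fun k => (hC.entry i k).1) (fun k => Y k j)
  rw [h1]
  refine ⟨h2, ?_⟩
  rw [h3 g, Matrix.mul_apply]
  refine Finset.sum_congr rfl fun k _ => ?_
  rw [hC.dentry X hX]

theorem mul_conj (g : SU N) : g.1 * g.1ᴴ = 1 := by
  have h : g * star g = 1 := by
    rw [Matrix.star_eq_inv, mul_inv_cancel]
  exact congrArg Subtype.val h

theorem inv_val (g : SU N) : (g⁻¹).1 = g.1ᴴ := by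
  rw [← Matrix.star_eq_inv]
  rfl

theorem inv_entry (g : H) (i j : Fin N) : (g⁻¹).1.1 i j = conj (g.1.1 j i) := by
  rw [Subgroup.coe_inv, inv_val, Matrix.conjTranspose_apply]
  rfl

/-- what is used about `σ` and `τ` -/
structure Dat {N : ℕ} (H : Subgroup (SU N)) (σ : H →* H)
    (τ : Matrix (Fin N) (Fin N) ℂ →ₗ[ℝ] Matrix (Fin N) (Fin N) ℂ) : Prop where
  cal : CALFH H
  lif : LIF H
  cont : Continuous σ
  mem : ∀ X ∈ lie H, τ X ∈ lie H
  dif : ∀ X ∈ lie H, ∀ t : ℝ, σ (exH H X t) = exH H (τ X) t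
  br : ∀ X ∈ lie H, ∀ Y ∈ lie H, τ (X * Y - Y * X) = τ X * τ Y - τ Y * τ X

variable {τ : Matrix (Fin N) (Fin N) ℂ →ₗ[ℝ] Matrix (Fin N) (Fin N) ℂ}

theorem comp_eq (D : Dat H σ τ) {X : Matrix (Fin N) (Fin N) ℂ} (hX : X ∈ lie H) (f : H → ℂ)
    (g : H) : (fun t : ℝ => f (σ (g * exH H X t))) = fun t : ℝ => f (σ g * exH H (τ X) t) := by
  funext t
  rw [map_mul, D.dif X hX t]

theorem dcomp (D : Dat H σ τ) {X : Matrix (Fin N) (Fin N) ℂ} (hX : X ∈ lie H) (f : H → ℂ) :
    dH X (fun g => f (σ g)) = fun g => dH (τ X) f (σ g) := by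
  funext g
  unfold dH
  exact congrArg (fun F : ℝ → ℂ => deriv F 0) (comp_eq D hX f g)

theorem c1comp (D : Dat H σ τ) {f : H → ℂ} (hf : C1H f) : C1H (fun g => f (σ g)) := by
  refine ⟨hf.cont.comp D.cont, fun X hX g => ?_, fun X hX => ?_⟩
  · rw [comp_eq D hX f g]
    exact hf.diff _ (D.mem X hX) (σ g)
  · rw [dcomp D hX]
    exact (hf.dcont _ (D.mem X hX)).comp D.cont

theorem c2comp (D : Dat H σ τ) {f : H → ℂ} (hf : C2H f) : C2H (fun g => f (σ g)) := by
  refine ⟨c1comp D hf.1, fun X hX => ?_⟩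
  rw [dcomp D hX]
  exact c1comp D (hf.2 _ (D.mem X hX))

theorem c2 (D : Dat H σ τ) : ∀ f ∈ PG H σ, C2H f :=
  ind D.cal.entry (fun i j => D.cal.cj _ (D.cal.entry i j)) (fun i j => c2comp D (D.cal.entry i j))
    (fun i j => c2comp D (D.cal.cj _ (D.cal.entry i j))) D.cal.const
    (fun f _ h _ hf hh => D.cal.add f h hf hh) (fun f _ h _ hf hh => D.cal.mul f h hf hh)

theorem dH_sentry (D : Dat H σ τ) {X : Matrix (Fin N) (Fin N) ℂ} (hX : X ∈ lie H) (i j : Fin N) :
    dH X (fun g : H => (σ g).1.1 i j) = fun g => ((σ g).1.1 * τ X) i j := by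
  rw [dcomp D hX (fun g : H => g.1.1 i j), dH_entry D.cal (D.mem X hX)]

theorem dH_scentry (D : Dat H σ τ) {X : Matrix (Fin N) (Fin N) ℂ} (hX : X ∈ lie H)
    (i j : Fin N) : dH X (fun g : H => conj ((σ g).1.1 i j)) =
      fun g => conj (((σ g).1.1 * τ X) i j) := by
  rw [dcomp D hX (fun g : H => conj (g.1.1 i j)), dH_centry D.cal (D.mem X hX)]

theorem lin_mem (X : Matrix (Fin N) (Fin N) ℂ) (i j : Fin N) :
    (fun g : H => (g.1.1 * X) i j) ∈ PG H σ := by
  have h1 : (fun g : H => (g.1.1 * X) i j) = fun g => ∑ k, g.1.1 i k * X k j := by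
    funext g
    rw [Matrix.mul_apply]
  rw [h1]
  exact sum_mem _ _ fun k _ => (PG H σ).mul_mem (entry_mem i k) (const_mem (X k j))

theorem slin_mem (X : Matrix (Fin N) (Fin N) ℂ) (i j : Fin N) :
    (fun g : H => ((σ g).1.1 * X) i j) ∈ PG H σ := by
  have h1 : (fun g : H => ((σ g).1.1 * X) i j) = fun g => ∑ k, (σ g).1.1 i k * X k j := by
    funext g
    rw [Matrix.mul_apply]
  rw [h1]
  exact sum_mem _ _ fun k _ => (PG H σ).mul_mem (sentry_mem i k) (const_mem (X k j))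

theorem cj : ∀ f ∈ PG H σ, (fun g => conj (f g)) ∈ PG H σ := by
  refine ind centry_mem (fun i j => ?_) scentry_mem (fun i j => ?_) (fun c => const_mem _)
    (fun f _ h _ hf hh => ?_) (fun f _ h _ hf hh => ?_)
  · simp only [Complex.conj_conj]
    exact entry_mem i j
  · simp only [Complex.conj_conj]
    exact sentry_mem i j
  · simp only [map_add]
    exact (PG H σ).add_mem hf hh
  · simp only [map_mul]
    exact (PG H σ).mul_mem hf hh

theorem inv : ∀ f ∈ PG H σ, (fun g => f g⁻¹) ∈ PG H σ := by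
  refine ind (fun i j => ?_) (fun i j => ?_) (fun i j => ?_) (fun i j => ?_) (fun c => const_mem c)
    (fun f _ h _ hf hh => (PG H σ).add_mem hf hh) (fun f _ h _ hf hh => (PG H σ).mul_mem hf hh)
  · simp only [inv_entry]
    exact centry_mem j i
  · simp only [inv_entry, Complex.conj_conj]
    exact entry_mem j i
  · simp only [map_inv, inv_entry]
    exact scentry_mem j i
  · simp only [map_inv, inv_entry, Complex.conj_conj]
    exact sentry_mem j i

theorem d (D : Dat H σ τ) {X : Matrix (Fin N) (Fin N) ℂ} (hX : X ∈ lie H) :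
    ∀ f ∈ PG H σ, dH X f ∈ PG H σ := by
  have hC := D.cal
  refine ind (fun i j => ?_) (fun i j => ?_) (fun i j => ?_) (fun i j => ?_) (fun c => ?_)
    (fun f hf' h hh' hf hh => ?_) (fun f hf' h hh' hf hh => ?_)
  · rw [dH_entry hC hX]
    exact lin_mem X i j
  · rw [dH_centry hC hX]
    exact cj _ (lin_mem X i j)
  · rw [dH_sentry D hX]
    exact slin_mem (τ X) i j
  · rw [dH_scentry D hX]
    exact cj _ (slin_mem (τ X) i j)
  · rw [show dH X (fun _ : H => c) = fun _ => 0 from funext fun g => hC.dconst X c g]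
    exact const_mem 0
  · rw [show dH X (fun g => f g + h g) = fun g => dH X f g + dH X h g from
      funext fun g => hC.dadd X hX f h (c2 D f hf').1 (c2 D h hh').1 g]
    exact (PG H σ).add_mem hf hh
  · rw [show dH X (fun g => f g * h g) = fun g => dH X f g * h g + f g * dH X h g from
      funext fun g => hC.dmul X hX f h (c2 D f hf').1 (c2 D h hh').1 g]
    exact (PG H σ).add_mem ((PG H σ).mul_mem hf hh') ((PG H σ).mul_mem hf' hh)

theorem add (D : Dat H σ τ) {X Y : Matrix (Fin N) (Fin N) ℂ} (hX : X ∈ lie H)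
    (hY : Y ∈ lie H) : ∀ f ∈ PG H σ, ∀ g, dH (X + Y) f g = dH X f g + dH Y f g := by
  have hXY := D.lif.add X hX Y hY
  have hC := D.cal
  refine ind (fun i j => ?_) (fun i j => ?_) (fun i j => ?_) (fun i j => ?_) (fun c => ?_)
    (fun f hf' h hh' hf hh => ?_) (fun f hf' h hh' hf hh => ?_) <;> intro g
  · rw [hC.dentry _ hXY, hC.dentry _ hX, hC.dentry _ hY, Matrix.mul_add, Matrix.add_apply]
  · rw [dH_centry hC hXY, dH_centry hC hX, dH_centry hC hY]
    simp only [Matrix.mul_add, Matrix.add_apply, map_add]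
  · rw [dH_sentry D hXY, dH_sentry D hX, dH_sentry D hY]
    simp only [Matrix.mul_add, Matrix.add_apply, map_add]
  · rw [dH_scentry D hXY, dH_scentry D hX, dH_scentry D hY]
    simp only [Matrix.mul_add, Matrix.add_apply, map_add]
  · rw [hC.dconst, hC.dconst, hC.dconst, add_zero]
  · have h1 := (c2 D f hf').1
    have h2 := (c2 D h hh').1
    rw [hC.dadd _ hXY f h h1 h2, hC.dadd _ hX f h h1 h2, hC.dadd _ hY f h h1 h2, hf g, hh g]
    ring
  · have h1 := (c2 D f hf').1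
    have h2 := (c2 D h hh').1
    rw [hC.dmul _ hXY f h h1 h2, hC.dmul _ hX f h h1 h2, hC.dmul _ hY f h h1 h2, hf g, hh g]
    ring

theorem real_smul (s : ℝ) (X : Matrix (Fin N) (Fin N) ℂ) : ((s : ℂ) • X) = s • X := by
  ext i j
  rw [Matrix.smul_apply, Matrix.smul_apply, smul_eq_mul, Complex.real_smul]

theorem tau_smul (s : ℝ) (X : Matrix (Fin N) (Fin N) ℂ) : τ ((s : ℂ) • X) = (s : ℂ) • τ X := by
  rw [real_smul, real_smul, map_smul]

theorem smul (D : Dat H σ τ) {X : Matrix (Fin N) (Fin N) ℂ} (hX : X ∈ lie H)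
    (s : ℝ) : ∀ f ∈ PG H σ, ∀ g, dH ((s : ℂ) • X) f g = s * dH X f g := by
  have hsX := D.lif.smul s X hX
  have hC := D.cal
  refine ind (fun i j => ?_) (fun i j => ?_) (fun i j => ?_) (fun i j => ?_) (fun c => ?_)
    (fun f hf' h hh' hf hh => ?_) (fun f hf' h hh' hf hh => ?_) <;> intro g
  · rw [hC.dentry _ hsX, hC.dentry _ hX, Matrix.mul_smul, Matrix.smul_apply, smul_eq_mul]
  · rw [dH_centry hC hsX, dH_centry hC hX]
    simp only [Matrix.mul_smul, Matrix.smul_apply, smul_eq_mul, map_mul, Complex.conj_ofReal]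
  · rw [dH_sentry D hsX, dH_sentry D hX, tau_smul]
    simp only [Matrix.mul_smul, Matrix.smul_apply, smul_eq_mul]
  · rw [dH_scentry D hsX, dH_scentry D hX, tau_smul]
    simp only [Matrix.mul_smul, Matrix.smul_apply, smul_eq_mul, map_mul, Complex.conj_ofReal]
  · rw [hC.dconst, hC.dconst, mul_zero]
  · have h1 := (c2 D f hf').1
    have h2 := (c2 D h hh').1
    rw [hC.dadd _ hsX f h h1 h2, hC.dadd _ hX f h h1 h2, hf g, hh g]
    ring
  · have h1 := (c2 D f hf').1
    have h2 := (c2 D h hh').1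
    rw [hC.dmul _ hsX f h h1 h2, hC.dmul _ hX f h h1 h2, hf g, hh g]
    ring

theorem dd_sentry (D : Dat H σ τ) {X : Matrix (Fin N) (Fin N) ℂ} (hX : X ∈ lie H)
    (Y : Matrix (Fin N) (Fin N) ℂ) (i j : Fin N) (g : H) :
    C1H (fun g : H => ((σ g).1.1 * Y) i j) ∧
    dH X (fun g : H => ((σ g).1.1 * Y) i j) g = ((σ g).1.1 * τ X * Y) i j := by
  have h1 := fun g' => (dd_entry (Y := Y) D.cal (D.mem X hX) i j g')
  refine ⟨c1comp D (h1 g).1, ?_⟩
  rw [dcomp D hX (fun g : H => (g.1.1 * Y) i j)]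
  exact (h1 (σ g)).2

theorem comm (D : Dat H σ τ) {X Y : Matrix (Fin N) (Fin N) ℂ} (hX : X ∈ lie H)
    (hY : Y ∈ lie H) : ∀ f ∈ PG H σ, ∀ g,
    dH X (dH Y f) g - dH Y (dH X f) g = dH (X * Y - Y * X) f g := by
  have hXY := D.lif.br X hX Y hY
  have hC := D.cal
  refine ind (fun i j => ?_) (fun i j => ?_) (fun i j => ?_) (fun i j => ?_) (fun c => ?_)
    (fun f hf' h hh' hf hh => ?_) (fun f hf' h hh' hf hh => ?_) <;> intro g
  · rw [dH_entry hC hX, dH_entry hC hY, (dd_entry hC hX i j g).2, (dd_entry hC hY i j g).2,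
      hC.dentry _ hXY, Matrix.mul_sub, Matrix.sub_apply, Matrix.mul_assoc, Matrix.mul_assoc]
  · rw [dH_centry hC hX, dH_centry hC hY, hC.dconj X hX _ (dd_entry hC hX i j g).1,
      hC.dconj Y hY _ (dd_entry hC hY i j g).1, (dd_entry hC hX i j g).2,
      (dd_entry hC hY i j g).2, dH_centry hC hXY]
    simp only [Matrix.mul_sub, Matrix.sub_apply, map_sub, Matrix.mul_assoc]
  · rw [dH_sentry D hX, dH_sentry D hY, (dd_sentry D hX (τ Y) i j g).2,
      (dd_sentry D hY (τ X) i j g).2, dH_sentry D hXY, D.br X hX Y hY]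
    simp only [Matrix.mul_sub, Matrix.sub_apply, Matrix.mul_assoc]
  · rw [dH_scentry D hX, dH_scentry D hY, hC.dconj X hX _ (dd_sentry D hX (τ Y) i j g).1,
      hC.dconj Y hY _ (dd_sentry D hY (τ X) i j g).1, (dd_sentry D hX (τ Y) i j g).2,
      (dd_sentry D hY (τ X) i j g).2, dH_scentry D hXY, D.br X hX Y hY]
    simp only [Matrix.mul_sub, Matrix.sub_apply, map_sub, Matrix.mul_assoc]
  · rw [show dH X (fun _ : H => c) = fun _ => 0 from funext fun g => hC.dconst X c g,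
      show dH Y (fun _ : H => c) = fun _ => 0 from funext fun g => hC.dconst Y c g,
      hC.dconst, hC.dconst, hC.dconst, sub_zero]
  · have h1 := (c2 D f hf').1
    have h2 := (c2 D h hh').1
    have hX1 := (c2 D _ (d D hX f hf')).1
    have hX2 := (c2 D _ (d D hX h hh')).1
    have hY1 := (c2 D _ (d D hY f hf')).1
    have hY2 := (c2 D _ (d D hY h hh')).1
    rw [show dH X (fun g => f g + h g) = fun g => dH X f g + dH X h g from
        funext fun g => hC.dadd X hX f h h1 h2 g,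
      show dH Y (fun g => f g + h g) = fun g => dH Y f g + dH Y h g from
        funext fun g => hC.dadd Y hY f h h1 h2 g,
      hC.dadd X hX _ _ hY1 hY2, hC.dadd Y hY _ _ hX1 hX2, hC.dadd _ hXY f h h1 h2, ← hf g, ← hh g]
    ring
  · have h1 := (c2 D f hf').1
    have h2 := (c2 D h hh').1
    have hX1 := (c2 D _ (d D hX f hf')).1
    have hX2 := (c2 D _ (d D hX h hh')).1
    have hY1 := (c2 D _ (d D hY f hf')).1
    have hY2 := (c2 D _ (d D hY h hh')).1
    rw [show dH X (fun g => f g * h g) = fun g => dH X f g * h g + f g * dH X h g from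
        funext fun g => hC.dmul X hX f h h1 h2 g,
      show dH Y (fun g => f g * h g) = fun g => dH Y f g * h g + f g * dH Y h g from
        funext fun g => hC.dmul Y hY f h h1 h2 g,
      hC.dadd X hX _ _ (hC.mul1 _ _ hY1 h2) (hC.mul1 _ _ h1 hY2),
      hC.dadd Y hY _ _ (hC.mul1 _ _ hX1 h2) (hC.mul1 _ _ h1 hX2),
      hC.dmul X hX _ _ hY1 h2, hC.dmul X hX _ _ h1 hY2, hC.dmul Y hY _ _ hX1 h2,
      hC.dmul Y hY _ _ h1 hX2, hC.dmul _ hXY f h h1 h2, ← hf g, ← hh g]
    ring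

end PGXX

theorem t_PGXX : M_PGXX := by
  intro _ hCal hLie hTau N H K σ τ hH hS hP
  have D : PGXX.Dat H σ τ :=
    ⟨hCal N H, hLie N H hH, hP.cont, hP.mem, hP.dif, (hTau N H K σ τ hH hS hP).br⟩
  exact ⟨⟨PGXX.c2 D, fun X hX f hf => PGXX.d D hX f hf, PGXX.cj, PGXX.inv,
    fun X hX Y hY f hf g => PGXX.add D hX hY f hf g, fun X hX s f hf g => PGXX.smul D hX s f hf g,
    fun X hX Y hY f hf g => PGXX.comm D hX hY f hf g⟩,
    fun X hX i j g => congrFun (PGXX.dH_sentry D hX i j) g⟩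

end

end LGR
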