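import Pool.Agent.LGR.StV

/-!
# PHIB: the determinant of a compression of a unitary map
-/

namespace LGR

open STZ MeasureTheory Matrix Filter

open scoped ComplexConjugate Matrix Real Topology ComplexOrder

noncomputable section

namespace PHIB

/-- the trace of `M Mᴴ` is the sum of the squares of the entries -/
lemma tr_self {N : ℕ} (M : Matrix (Fin N) (Fin N) ℂ) :
    (M * Mᴴ).trace = ((∑ i, ∑ j, ‖M i j‖ ^ 2 : ℝ) : ℂ) := by
  simp only [Matrix.trace, Matrix.diag, Matrix.mul_apply, Matrix.conjTranspose_apply]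
  push_cast
  refine Finset.sum_congr rfl fun i _ => Finset.sum_congr rfl fun j _ => ?_
  rw [Complex.star_def, Complex.mul_conj, Complex.normSq_eq_norm_sq]
  push_cast
  rfl

lemma tr_conj {N : ℕ} (A B : Matrix (Fin N) (Fin N) ℂ) :
    (A * Bᴴ).trace = conj ((B * Aᴴ).trace) := by
  have h : (B * Aᴴ)ᴴ = A * Bᴴ := by
    rw [Matrix.conjTranspose_mul, Matrix.conjTranspose_conjTranspose]
  rw [← h, Matrix.trace_conjTranspose]
  rfl

/-- Bessel's identity for one matrix `U` of norm one -/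
lemma bessel {N n : ℕ} (e : Fin n → Matrix (Fin N) (Fin N) ℂ)
    (he : ∀ j k, (e j * (e k)ᴴ).trace = if j = k then 1 else 0) (U : Matrix (Fin N) (Fin N) ℂ)
    (c : Fin n → ℂ) (hc : ∀ j, (U * (e j)ᴴ).trace = c j) :
    ((U - ∑ j, c j • e j) * (U - ∑ j, c j • e j)ᴴ).trace =
      (U * Uᴴ).trace - ∑ j, conj (c j) * c j := by
  have h1 : (∑ j, c j • e j)ᴴ = ∑ j, conj (c j) • (e j)ᴴ := by
    rw [Matrix.conjTranspose_sum]
    refine Finset.sum_congr rfl fun j _ => ?_
    rw [Matrix.conjTranspose_smul]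
    rfl
  have h2 : (U * ∑ j, conj (c j) • (e j)ᴴ).trace = ∑ j, conj (c j) * c j := by
    rw [Finset.mul_sum, Matrix.trace_sum]
    refine Finset.sum_congr rfl fun j _ => ?_
    rw [Matrix.mul_smul, Matrix.trace_smul, hc, smul_eq_mul]
  have h3 : ((∑ j, c j • e j) * Uᴴ).trace = ∑ j, conj (c j) * c j := by
    rw [Finset.sum_mul, Matrix.trace_sum]
    refine Finset.sum_congr rfl fun j _ => ?_
    rw [Matrix.smul_mul, Matrix.trace_smul, smul_eq_mul, tr_conj, hc, mul_comm]
  have h4 : ((∑ j, c j • e j) * ∑ l, conj (c l) • (e l)ᴴ).trace = ∑ j, conj (c j) * c j := by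
    rw [Finset.sum_mul, Matrix.trace_sum]
    refine Finset.sum_congr rfl fun j _ => ?_
    rw [Finset.mul_sum, Matrix.trace_sum]
    have : ∀ l, ((c j • e j) * (conj (c l) • (e l)ᴴ)).trace =
        if j = l then conj (c j) * c j else 0 := by
      intro l
      rw [Matrix.smul_mul, Matrix.mul_smul, Matrix.trace_smul, Matrix.trace_smul, he]
      by_cases hjl : j = l
      · subst hjl
        simp [mul_comm]
      · simp [hjl]
    rw [Finset.sum_congr rfl fun l _ => this l]
    simp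
  rw [Matrix.conjTranspose_sub, h1, Matrix.sub_mul, Matrix.mul_sub, Matrix.mul_sub,
    Matrix.trace_sub, Matrix.trace_sub, Matrix.trace_sub, h2, h3, h4]
  ring

/-- a determinant bound for `Cᴴ C` -/
lemma det_bound {n : ℕ} (C : Matrix (Fin n) (Fin n) ℂ) :
    ‖C.det‖ ^ 2 ≤ Real.exp ((∑ k, ∑ j, ‖C j k‖ ^ 2) - n) := by
  have hps : (Cᴴ * C).PosSemidef := Matrix.posSemidef_conjTranspose_mul_self C
  have hH : (Cᴴ * C).IsHermitian := hps.1
  have hdet : (Cᴴ * C).det = ((‖C.det‖ ^ 2 : ℝ) : ℂ) := by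
    rw [Matrix.det_mul, Matrix.det_conjTranspose, Complex.star_def, mul_comm, Complex.mul_conj,
      Complex.normSq_eq_norm_sq]
  have hprod : ‖C.det‖ ^ 2 = ∏ i, hH.eigenvalues i := by
    have h := hH.det_eq_prod_eigenvalues
    rw [hdet] at h
    have h' : ((‖C.det‖ ^ 2 : ℝ) : ℂ) = ((∏ i, hH.eigenvalues i : ℝ) : ℂ) := by
      rw [h]
      push_cast
      rfl
    exact_mod_cast h'
  have htr : (∑ k, ∑ j, ‖C j k‖ ^ 2) = ∑ i, hH.eigenvalues i := by
    have h := hH.trace_eq_sum_eigenvalues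
    have h1 : (Cᴴ * C).trace = ((∑ k, ∑ j, ‖C j k‖ ^ 2 : ℝ) : ℂ) := by
      simp only [Matrix.trace, Matrix.diag, Matrix.mul_apply, Matrix.conjTranspose_apply]
      push_cast
      refine Finset.sum_congr rfl fun i _ => Finset.sum_congr rfl fun j _ => ?_
      rw [Complex.star_def, mul_comm, Complex.mul_conj, Complex.normSq_eq_norm_sq]
      push_cast
      rfl
    rw [h1] at h
    have h' : ((∑ k, ∑ j, ‖C j k‖ ^ 2 : ℝ) : ℂ) = ((∑ i, hH.eigenvalues i : ℝ) : ℂ) := by
      rw [h]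
      push_cast
      rfl
    exact_mod_cast h'
  rw [hprod, htr]
  have h5 : (∑ i, hH.eigenvalues i) - (n : ℝ) = ∑ i, (hH.eigenvalues i - 1) := by
    rw [Finset.sum_sub_distrib]
    simp
  rw [h5, Real.exp_sum]
  refine Finset.prod_le_prod (fun i _ => hps.eigenvalues_nonneg i) fun i _ => ?_
  have := Real.add_one_le_exp (hH.eigenvalues i - 1)
  linarith

end PHIB

open PHIB in
theorem t_PHIB : S_PHIB := by
  intro N n e he
  refine ⟨?_, ?_⟩
  · ext j k
    rw [cm, Matrix.conjTranspose_one, Matrix.one_mul, Matrix.mul_one, he, Matrix.one_apply]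
    simp [eq_comm]
  · intro x
    have hx : x.1ᴴ * x.1 = 1 := by
      have := x.2
      rw [Matrix.mem_specialUnitaryGroup_iff] at this
      exact (Matrix.mem_unitaryGroup_iff'.mp this.1)
    have key : ∀ k, ∑ i, ∑ j, ‖ps e x.1 k i j‖ ^ 2 = 1 - ∑ j, ‖cm e x.1 j k‖ ^ 2 := by
      intro k
      have h1 : ((∑ i, ∑ j, ‖ps e x.1 k i j‖ ^ 2 : ℝ) : ℂ) =
          ((1 - ∑ j, ‖cm e x.1 j k‖ ^ 2 : ℝ) : ℂ) := by
        rw [← tr_self]
        have h2 := bessel e he (x.1 * e k * x.1ᴴ) (fun j => cm e x.1 j k) (fun j => rfl)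
        have h3 : (x.1 * e k * x.1ᴴ * (x.1 * e k * x.1ᴴ)ᴴ).trace = 1 := by
          have h4 : x.1 * e k * x.1ᴴ * (x.1 * e k * x.1ᴴ)ᴴ = x.1 * (e k * (e k)ᴴ * x.1ᴴ) := by
            rw [Matrix.conjTranspose_mul, Matrix.conjTranspose_mul,
              Matrix.conjTranspose_conjTranspose]
            calc x.1 * e k * x.1ᴴ * (x.1 * ((e k)ᴴ * x.1ᴴ))
                = x.1 * e k * (x.1ᴴ * x.1) * ((e k)ᴴ * x.1ᴴ) := by
                  simp only [Matrix.mul_assoc]
              _ = x.1 * (e k * (e k)ᴴ * x.1ᴴ) := by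
                  rw [hx]
                  simp only [Matrix.mul_assoc, Matrix.mul_one]
          rw [h4, Matrix.trace_mul_comm, Matrix.mul_assoc, hx, Matrix.mul_one, he]
          simp
        rw [h3] at h2
        rw [ps]
        refine h2.trans ?_
        push_cast
        congr 1
        refine Finset.sum_congr rfl fun j _ => ?_
        rw [mul_comm, Complex.mul_conj, Complex.normSq_eq_norm_sq]
        push_cast
        rfl
      exact_mod_cast h1
    refine (det_bound (cm e x.1)).trans (Real.exp_le_exp.mpr (le_of_eq ?_))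
    rw [Finset.sum_congr rfl fun k _ => key k, Finset.sum_sub_distrib]
    simp

end

end LGR
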