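import Pool.Agent.LGR.StW

/-!
# QCMP: comparison of weights with the same value of the quadratic form
-/

namespace LGR

open STZ MeasureTheory Matrix Filter

open scoped ComplexConjugate Matrix Real Topology

noncomputable section

theorem t_QCMP : M_QCMP := by
  intro hQUAD r Φ B hI hW ν l hν hQ n hn hδ
  obtain ⟨_, hQF, hAT, _, _, ⟨c, hc, hpd⟩, hroot⟩ := hQUAD r Φ B hI hW
  set δ : Fin r → ℤ := ∑ i, n i • B i with hδdef
  have hl : l = (ν + 1) + δ := by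
    rw [← hδ]
    abel
  have hpol := hQF.polar (ν + 1) δ
  rw [← hl, hQ] at hpol
  have hsym : (ν + 1) ⬝ᵥ ((rd Φ).A *ᵥ δ) = δ ⬝ᵥ ((rd Φ).A *ᵥ (ν + 1)) := by
    rw [Matrix.dotProduct_mulVec, ← Matrix.mulVec_transpose, hAT, dotProduct_comm]
  have hterm : 0 ≤ δ ⬝ᵥ ((rd Φ).A *ᵥ (ν + 1)) := by
    rw [hδdef, sum_dotProduct]
    refine Finset.sum_nonneg fun i _ => ?_
    rw [smul_dotProduct, smul_eq_mul]
    refine mul_nonneg (hn i) ?_
    obtain ⟨h1, h2⟩ := hroot _ (hI.base i)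
    have h3 := h2 (ν + 1)
    simp only [single_dotProduct, one_mul, Pi.add_apply, Pi.one_apply] at h3
    have h4 : 0 ≤ (ν i + 1) * (B i ⬝ᵥ ((rd Φ).A *ᵥ B i)) :=
      mul_nonneg (by have := hν i; omega) (le_of_lt h1)
    rw [← h3] at h4
    omega
  have hd := (hpd δ).1
  have hQ0 : (0 : ℝ) ≤ (rd Φ).Q δ := le_trans (mul_nonneg hc.le (sq_nonneg _)) hd
  have hQ1 : 0 ≤ (rd Φ).Q δ := by exact_mod_cast hQ0
  rw [hsym] at hpol
  have hQ2 : (rd Φ).Q δ = 0 := by omega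
  rw [hQ2, Int.cast_zero] at hd
  have h5 : (sz δ - 1) ^ 2 = 0 := by
    have h6 : (0 : ℝ) ≤ (sz δ - 1) ^ 2 := sq_nonneg _
    nlinarith
  have h7 : ∑ i, |(δ i : ℝ)| = 0 := by
    have h8 := pow_eq_zero_iff (two_ne_zero) |>.1 h5
    rw [sz] at h8
    linarith
  have h9 : δ = 0 := by
    funext i
    have h10 := (Finset.sum_eq_zero_iff_of_nonneg (fun i _ => abs_nonneg (δ i : ℝ))).1 h7 i (Finset.mem_univ _)
    rw [abs_eq_zero] at h10
    exact_mod_cast h10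
  rw [hl, h9, add_zero]

end

end LGR
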