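import Pool.Agent.LGR.StA

/-!
# Simple compact Lie groups: the invariant quadratic form
-/

namespace LGR

open STZ Matrix

open scoped Matrix

namespace QUAD

/-- the bilinear form as a sum over the positive roots -/
theorem form {r : ℕ} (Φ : RT r) (l l' : Fin r → ℤ) :
    l ⬝ᵥ ((rd Φ).A *ᵥ l') = 2 * ∑ p ∈ pos Φ, (p.2 ⬝ᵥ l) * (p.2 ⬝ᵥ l') := by
  simp only [rd, dotProduct, Matrix.mulVec]
  rw [Finset.mul_sum]
  calc ∑ i, l i * ∑ j, (∑ p ∈ pos Φ, 2 * p.2 i * p.2 j) * l' j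
      = ∑ i, ∑ j, ∑ p ∈ pos Φ, 2 * ((p.2 i * l i) * (p.2 j * l' j)) := by
        refine Finset.sum_congr rfl fun i _ => ?_
        rw [Finset.mul_sum]
        refine Finset.sum_congr rfl fun j _ => ?_
        rw [Finset.sum_mul, Finset.mul_sum]
        refine Finset.sum_congr rfl fun p _ => ?_
        ring
    _ = ∑ i, ∑ p ∈ pos Φ, ∑ j, 2 * ((p.2 i * l i) * (p.2 j * l' j)) :=
        Finset.sum_congr rfl fun i _ => Finset.sum_comm
    _ = ∑ p ∈ pos Φ, ∑ i, ∑ j, 2 * ((p.2 i * l i) * (p.2 j * l' j)) := Finset.sum_comm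
    _ = _ := by
        refine Finset.sum_congr rfl fun p _ => ?_
        rw [Finset.sum_mul_sum, Finset.mul_sum]
        refine Finset.sum_congr rfl fun i _ => ?_
        rw [Finset.mul_sum]

theorem Qeq {r : ℕ} (Φ : RT r) (l : Fin r → ℤ) :
    (rd Φ).Q l = ∑ p ∈ pos Φ, (p.2 ⬝ᵥ l) ^ 2 := rfl

theorem mem_pos {r : ℕ} {Φ : RT r} {p : (Fin r → ℤ) × (Fin r → ℤ)} :
    p ∈ pos Φ ↔ p ∈ Φ ∧ ∀ i, 0 ≤ p.2 i := by
  simp only [pos, Finset.mem_filter]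

/-- the sum over all roots -/
theorem full {r : ℕ} {Φ : RT r} {B : Matrix (Fin r) (Fin r) ℤ} (h : WFF Φ B) (l l' : Fin r → ℤ) :
    ∑ p ∈ Φ, (p.2 ⬝ᵥ l) * (p.2 ⬝ᵥ l') = 2 * ∑ p ∈ pos Φ, (p.2 ⬝ᵥ l) * (p.2 ⬝ᵥ l') := by
  rw [← Finset.sum_filter_add_sum_filter_not Φ (fun p => ∀ i, 0 ≤ p.2 i), two_mul]
  have h1 : ∑ p ∈ Φ.filter (fun p => ∀ i, 0 ≤ p.2 i), (p.2 ⬝ᵥ l) * (p.2 ⬝ᵥ l') =
      ∑ p ∈ pos Φ, (p.2 ⬝ᵥ l) * (p.2 ⬝ᵥ l') := rfl
  rw [h1]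
  congr 1
  symm
  refine Finset.sum_bij (fun p _ => (-p.1, -p.2)) ?_ ?_ ?_ ?_
  · intro p hp
    have hp' := mem_pos.1 hp
    rw [Finset.mem_filter]
    refine ⟨h.neg p hp'.1, fun hc => ?_⟩
    have h2 : (-p.1, -p.2) ∈ pos Φ := mem_pos.2 ⟨h.neg p hp'.1, hc⟩
    exact (h.dich p hp'.1).1 hp h2
  · intro p _ q _ hpq
    have h2 := congrArg Prod.fst hpq
    have h3 := congrArg Prod.snd hpq
    simp only [neg_inj] at h2 h3
    exact Prod.ext h2 h3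
  · intro q hq
    rw [Finset.mem_filter] at hq
    have h2 : q ∉ pos Φ := fun hc => hq.2 (mem_pos.1 hc).2
    have h3 : (-q.1, -q.2) ∈ pos Φ := by
      by_contra hc
      exact h2 ((h.dich q hq.1).2 hc)
    refine ⟨(-q.1, -q.2), h3, ?_⟩
    simp only [neg_neg]
  · intro p _
    simp only [neg_dotProduct]
    ring

/-- invariance of the sum over all roots -/
theorem inv {r : ℕ} {Φ : RT r} {B : Matrix (Fin r) (Fin r) ℤ} (h : WFF Φ B)
    {w : Matrix (Fin r) (Fin r) ℤ} (hw : w ∈ WF Φ) (l l' : Fin r → ℤ) :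
    ∑ p ∈ Φ, (p.2 ⬝ᵥ (w *ᵥ l)) * (p.2 ⬝ᵥ (w *ᵥ l')) = ∑ p ∈ Φ, (p.2 ⬝ᵥ l) * (p.2 ⬝ᵥ l') := by
  choose f hf using h.perm w hw
  obtain ⟨w', _, hw', _⟩ := h.inv w hw
  have hinj : ∀ (p q : (Fin r → ℤ) × (Fin r → ℤ)) (hp : p ∈ Φ) (hq : q ∈ Φ), f p hp = f q hq → p = q := by
    intro p q hp hq hpq
    obtain ⟨_, h1, h2⟩ := hf p hp
    obtain ⟨_, h3, h4⟩ := hf q hq
    rw [hpq] at h1 h2
    refine Prod.ext ?_ ?_
    · have h5 : w' *ᵥ (w *ᵥ p.1) = w' *ᵥ (w *ᵥ q.1) := by rw [h1, h3]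
      rwa [Matrix.mulVec_mulVec, Matrix.mulVec_mulVec, hw', Matrix.one_mulVec, Matrix.one_mulVec] at h5
    · funext i
      have h5 := h2 (Pi.single i 1)
      have h6 := h4 (Pi.single i 1)
      rw [h5] at h6
      simpa using h6
  symm
  refine Finset.sum_bij f (fun p hp => (hf p hp).1) (fun p hp q hq => hinj p q hp hq) ?_ ?_
  · intro q hq
    obtain ⟨p, hp, he⟩ := Finset.surj_on_of_inj_on_of_card_le f (fun p hp => (hf p hp).1)
      hinj le_rfl q hq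
    exact ⟨p, hp, he.symm⟩
  · intro p hp
    rw [(hf p hp).2.2 l, (hf p hp).2.2 l']

theorem inv2 {r : ℕ} {Φ : RT r} {B : Matrix (Fin r) (Fin r) ℤ} (h : WFF Φ B)
    {w : Matrix (Fin r) (Fin r) ℤ} (hw : w ∈ WF Φ) (l l' : Fin r → ℤ) :
    (w *ᵥ l) ⬝ᵥ ((rd Φ).A *ᵥ (w *ᵥ l')) = l ⬝ᵥ ((rd Φ).A *ᵥ l') := by
  rw [form, form, ← full h, ← full h, inv h hw]

theorem self {r : ℕ} (Φ : RT r) (l : Fin r → ℤ) :
    l ⬝ᵥ ((rd Φ).A *ᵥ l) = 2 * (rd Φ).Q l := by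
  rw [form, Qeq]
  congr 1
  exact Finset.sum_congr rfl fun p _ => (pow_two _).symm

theorem lower {r : ℕ} {Φ : RT r} {B : Matrix (Fin r) (Fin r) ℤ} (hI : IRD Φ B) (l : Fin r → ℤ) :
    ∑ i, (l i) ^ 2 ≤ (rd Φ).Q l := by
  have hsub : Finset.univ.image (fun i => (B i, (Pi.single i 1 : Fin r → ℤ))) ⊆ pos Φ := by
    intro p hp
    rw [Finset.mem_image] at hp
    obtain ⟨i, _, rfl⟩ := hp
    refine mem_pos.2 ⟨hI.base i, fun j => ?_⟩
    by_cases hij : j = i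
    · subst hij
      simp
    · simp [Pi.single_eq_of_ne hij]
  have h1 : ∑ i, (l i) ^ 2 =
      ∑ p ∈ Finset.univ.image (fun i => (B i, (Pi.single i 1 : Fin r → ℤ))), (p.2 ⬝ᵥ l) ^ 2 := by
    rw [Finset.sum_image]
    · refine Finset.sum_congr rfl fun i _ => ?_
      simp
    · intro i _ j _ hij
      have h2 := congrFun (congrArg Prod.snd hij) i
      by_contra hne
      simp [Pi.single_eq_of_ne hne] at h2
  rw [h1, Qeq]
  exact Finset.sum_le_sum_of_subset_of_nonneg hsub fun p _ _ => sq_nonneg _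

theorem pow_pos_two {x y : ℤ} (hx : x ≠ y) (hy : y = 0) : 0 < x ^ 2 := by
  subst hy
  positivity

theorem pos_of_ne {r : ℕ} {Φ : RT r} {B : Matrix (Fin r) (Fin r) ℤ} (hI : IRD Φ B) {l : Fin r → ℤ}
    (hl : l ≠ 0) : 0 < (rd Φ).Q l := by
  refine lt_of_lt_of_le ?_ (lower hI l)
  obtain ⟨i, hi⟩ := Function.ne_iff.1 hl
  refine Finset.sum_pos' (fun j _ => sq_nonneg _) ⟨i, Finset.mem_univ i, ?_⟩
  exact pow_pos_two hi rfl

/-- the size of the value of a linear form -/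
theorem upper1 {r : ℕ} (a l : Fin r → ℤ) :
    (((a ⬝ᵥ l : ℤ) : ℝ)) ^ 2 ≤ (∑ i, |(a i : ℝ)|) ^ 2 * (∑ i, |(l i : ℝ)|) ^ 2 := by
  have h1 : |((a ⬝ᵥ l : ℤ) : ℝ)| ≤ (∑ i, |(a i : ℝ)|) * ∑ i, |(l i : ℝ)| := by
    rw [dotProduct, Int.cast_sum, Finset.sum_mul]
    refine (Finset.abs_sum_le_sum_abs _ _).trans (Finset.sum_le_sum fun i _ => ?_)
    rw [Int.cast_mul, abs_mul]
    refine mul_le_mul_of_nonneg_left ?_ (abs_nonneg _)
    exact Finset.single_le_sum (f := fun i => |(l i : ℝ)|) (fun j _ => abs_nonneg _) (Finset.mem_univ i)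
  rw [← mul_pow, ← sq_abs]
  exact pow_le_pow_left₀ (abs_nonneg _) h1 2

theorem bounds {r : ℕ} {Φ : RT r} {B : Matrix (Fin r) (Fin r) ℤ} (hI : IRD Φ B) :
    ∃ c : ℝ, 0 < c ∧ ∀ l, c * (sz l - 1) ^ 2 ≤ (rd Φ).Q l ∧ c * (rd Φ).Q l ≤ (sz l - 1) ^ 2 := by
  set K : ℝ := ∑ p ∈ pos Φ, (∑ i, |(p.2 i : ℝ)|) ^ 2 with hK
  have hK0 : 0 ≤ K := Finset.sum_nonneg fun p _ => sq_nonneg _
  have hs : ∀ l : Fin r → ℤ, sz l - 1 = ∑ i, |(l i : ℝ)| := fun l => by rw [sz]; ring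
  have hr0 : (0 : ℝ) ≤ r := Nat.cast_nonneg r
  have hpos : 0 < 1 + r + K := by positivity
  refine ⟨1 / (1 + r + K), by positivity, fun l => ?_⟩
  rw [hs]
  have hQ0 : ((∑ i, (l i) ^ 2 : ℤ) : ℝ) ≤ ((rd Φ).Q l : ℝ) := by exact_mod_cast lower hI l
  have hQ0' : (0 : ℝ) ≤ ((rd Φ).Q l : ℝ) := by
    refine le_trans ?_ hQ0
    rw [Int.cast_sum]
    exact Finset.sum_nonneg fun i _ => by rw [Int.cast_pow]; exact sq_nonneg _
  have h1 : (∑ i, |(l i : ℝ)|) ^ 2 ≤ r * ((∑ i, (l i) ^ 2 : ℤ) : ℝ) := by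
    have h2 := sq_sum_le_card_mul_sum_sq (s := (Finset.univ : Finset (Fin r))) (f := fun i => |(l i : ℝ)|)
    rw [Finset.card_univ, Fintype.card_fin] at h2
    refine h2.trans (le_of_eq ?_)
    rw [Int.cast_sum]
    congr 1
    refine Finset.sum_congr rfl fun i _ => ?_
    rw [sq_abs, Int.cast_pow]
  have h3 : ((rd Φ).Q l : ℝ) ≤ K * (∑ i, |(l i : ℝ)|) ^ 2 := by
    rw [Qeq, Int.cast_sum, hK, Finset.sum_mul]
    refine Finset.sum_le_sum fun p _ => ?_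
    rw [Int.cast_pow]
    exact upper1 p.2 l
  have hS0 : 0 ≤ (∑ i, |(l i : ℝ)|) ^ 2 := sq_nonneg _
  constructor
  · rw [div_mul_eq_mul_div, one_mul, div_le_iff₀ hpos]
    nlinarith [mul_nonneg hr0 hQ0', mul_nonneg hK0 hQ0', mul_le_mul_of_nonneg_left hQ0 hr0]
  · rw [div_mul_eq_mul_div, one_mul, div_le_iff₀ hpos]
    nlinarith [mul_nonneg hr0 hS0]

end QUAD

/-- the invariant quadratic form -/
theorem t_QUAD : S_QUAD := by
  intro r Φ B hI h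
  have hQinv : ∀ w ∈ WF Φ, ∀ l, (rd Φ).Q (w *ᵥ l) = (rd Φ).Q l := by
    intro w hw l
    have h1 := QUAD.inv2 h hw l l
    rw [QUAD.self, QUAD.self] at h1
    linarith
  refine ⟨hQinv, ⟨?_, ?_⟩, ?_, QUAD.self Φ, fun w hw l l' => QUAD.inv2 h hw l l', QUAD.bounds hI, ?_⟩
  · intro x y
    rw [QUAD.form, QUAD.Qeq, QUAD.Qeq, QUAD.Qeq, Finset.mul_sum, ← Finset.sum_add_distrib,
      ← Finset.sum_add_distrib]
    refine Finset.sum_congr rfl fun p _ => ?_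
    rw [dotProduct_add]
    ring
  · intro hdet
    obtain ⟨v, hv, hAv⟩ := Matrix.exists_mulVec_eq_zero_iff.2 hdet
    have h1 := QUAD.self Φ v
    rw [hAv, dotProduct_zero] at h1
    have h2 := QUAD.pos_of_ne hI hv
    linarith
  · ext i j
    simp only [Matrix.transpose_apply, rd]
    exact Finset.sum_congr rfl fun p _ => by ring
  · intro p hp
    have hne : p.1 ≠ 0 := by
      intro h0
      have h1 := hI.two p hp
      rw [h0, dotProduct_zero] at h1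
      exact absurd h1 (by norm_num)
    refine ⟨?_, fun l => ?_⟩
    · rw [QUAD.self]
      have := QUAD.pos_of_ne hI hne
      linarith
    · have hw : rf p ∈ WF Φ := (h.mem _).2 (Submonoid.subset_closure ⟨p, hp, rfl⟩)
      have h1 := QUAD.inv2 h hw p.1 l
      rw [h.mv, h.mv, hI.two p hp] at h1
      have h2 : p.1 - (2 : ℤ) • p.1 = -p.1 := by
        rw [two_smul]
        abel
      rw [h2, Matrix.mulVec_sub, Matrix.mulVec_smul, neg_dotProduct, dotProduct_sub,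
        dotProduct_smul, smul_eq_mul] at h1
      linarith

end LGR
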