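import Pool.Agent.LGR.StR

/-!
# LGR RADF: the radial part of the Laplace operator
-/

namespace LGR

open STZ MeasureTheory Matrix Filter

open scoped ComplexConjugate Matrix Real Topology

noncomputable section

namespace RADF

theorem eu_neg (x : ℝ) : eu (-x) =
    ((Real.cos (2 * π * x) : ℝ) : ℂ) - ((Real.sin (2 * π * x) : ℝ) : ℂ) * Complex.I := by
  unfold eu
  have h : (2 * (π : ℂ) * ((-x : ℝ) : ℂ) * Complex.I) = (-((2 * π * x : ℝ) : ℂ)) * Complex.I := by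
    push_cast; ring
  rw [h, Complex.exp_mul_I, Complex.cos_neg, Complex.sin_neg, Complex.ofReal_cos,
    Complex.ofReal_sin]
  ring

theorem eu_pos (x : ℝ) : eu x =
    ((Real.cos (2 * π * x) : ℝ) : ℂ) + ((Real.sin (2 * π * x) : ℝ) : ℂ) * Complex.I := by
  unfold eu
  have h : (2 * (π : ℂ) * ((x : ℝ) : ℂ) * Complex.I) = ((2 * π * x : ℝ) : ℂ) * Complex.I := by
    push_cast; ring
  rw [h, Complex.exp_mul_I, Complex.ofReal_cos, Complex.ofReal_sin]

theorem cos_ne {x : ℝ} (hx : eu x ≠ 1) : Real.cos (2 * π * x) ≠ 1 := by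
  intro h
  apply hx
  have h2 : Real.sin (2 * π * x) = 0 := by
    have := Real.sin_sq_add_cos_sq (2 * π * x)
    rw [h] at this
    nlinarith
  rw [eu_pos, h, h2]
  simp

/-- the factor of the root part -/
theorem trig {x : ℝ} (hx : eu x ≠ 1) (S T : ℂ)
    (h : ((1 - Real.cos (2 * π * x) : ℝ) : ℂ) * S = ((2 * Real.sin (2 * π * x) : ℝ) : ℂ) * T) :
    S = 2 * Complex.I * ((1 + eu (-x)) / (1 - eu (-x))) * T := by
  have hc := cos_ne hx
  set c : ℝ := Real.cos (2 * π * x) with hcdef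
  set s : ℝ := Real.sin (2 * π * x) with hsdef
  have hsc : s ^ 2 + c ^ 2 = 1 := Real.sin_sq_add_cos_sq (2 * π * x)
  have hE : eu (-x) = (c : ℂ) - (s : ℂ) * Complex.I := eu_neg x
  have h1 : ((1 - c : ℝ) : ℂ) ≠ 0 := by
    rw [Ne, Complex.ofReal_eq_zero]
    intro h2
    exact hc (by linarith)
  have h3 : (1 : ℂ) - eu (-x) ≠ 0 := by
    rw [hE]
    intro h4
    have h5 := congrArg Complex.re h4
    simp at h5
    exact hc (by linarith)
  have hscC : (s : ℂ) ^ 2 + (c : ℂ) ^ 2 = 1 := by exact_mod_cast hsc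
  apply mul_left_cancel₀ h1
  rw [h]
  have key : ((1 - c : ℝ) : ℂ) * (Complex.I * (1 + eu (-x))) = (s : ℂ) * (1 - eu (-x)) := by
    rw [hE]
    push_cast
    linear_combination (-Complex.I) * hscC + ((c : ℂ) - 1) * (s : ℂ) * Complex.I_sq
  have key2 : ((1 - c : ℝ) : ℂ) * (Complex.I * ((1 + eu (-x)) / (1 - eu (-x)))) = (s : ℂ) := by
    rw [← mul_div_assoc, ← mul_div_assoc, key, mul_div_assoc, div_self h3, mul_one]
  have h6 : ((2 * s : ℝ) : ℂ) = 2 * (s : ℂ) := by push_cast; ring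
  rw [h6, ← key2]
  ring

variable {N : ℕ} {H : Subgroup (SU N)}

theorem dH_add {f₁ f₂ : H → ℂ} (X : Matrix (Fin N) (Fin N) ℂ) (hX : X ∈ lie H) (g : H)
    (h₁ : C1H f₁) (h₂ : C1H f₂) :
    dH X (fun g => f₁ g + f₂ g) g = dH X f₁ g + dH X f₂ g := by
  unfold dH
  exact deriv_fun_add (h₁.diff X hX g) (h₂.diff X hX g)

theorem dH_smul {f : H → ℂ} (X : Matrix (Fin N) (Fin N) ℂ) (hX : X ∈ lie H) (g : H)
    (h : C1H f) (c : ℂ) :
    dH X (fun g => c * f g) g = c * dH X f g := by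
  unfold dH
  exact deriv_const_mul c (h.diff X hX g)

/-- the quadratic form of the torus part -/
theorem quad {r : ℕ} (z : Matrix (Fin r) (Fin r) ℝ) (A : Matrix (Fin r) (Fin r) ℤ) (k : ℝ)
    (h : ∀ i j, ∑ l, z l i * z l j = k / 2 * (A i j : ℝ)) (μ : Fin r → ℤ) :
    ∑ j, (∑ i, (μ i : ℝ) * z j i) ^ 2 = k / 2 * ((μ ⬝ᵥ (A *ᵥ μ) : ℤ) : ℝ) := by
  have h1 : ∀ j, (∑ i, (μ i : ℝ) * z j i) ^ 2 =
      ∑ i, ∑ i', ((μ i : ℝ) * (μ i' : ℝ)) * (z j i * z j i') := by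
    intro j
    rw [sq, Finset.sum_mul_sum]
    refine Finset.sum_congr rfl fun i _ => Finset.sum_congr rfl fun i' _ => ?_
    ring
  rw [Finset.sum_congr rfl fun j _ => h1 j, Finset.sum_comm]
  have h2 : ∀ i, ∑ j, ∑ i', ((μ i : ℝ) * (μ i' : ℝ)) * (z j i * z j i') =
      ∑ i', ((μ i : ℝ) * (μ i' : ℝ)) * (k / 2 * (A i i' : ℝ)) := by
    intro i
    rw [Finset.sum_comm]
    refine Finset.sum_congr rfl fun i' _ => ?_
    rw [← Finset.mul_sum, h i i']
  rw [Finset.sum_congr rfl fun i _ => h2 i]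
  unfold dotProduct mulVec dotProduct
  push_cast
  rw [Finset.mul_sum]
  refine Finset.sum_congr rfl fun i _ => ?_
  rw [Finset.mul_sum, Finset.mul_sum]
  refine Finset.sum_congr rfl fun i' _ => ?_
  ring

end RADF

theorem t_RADF : M_RADF := by
  intro hLIEB hPFF hWFAC hTAUF hADFR hRADP hRADT N H r Φ B Hc E c k d X hH hL hK hX f hf hcl m hm
    g θ hg hreg
  have hP := hPFF N H hH
  have hLI := hLIEB N H hH
  have hT := hTAUF N H r Φ B Hc E hH hL
  have hW := hWFAC r Φ B hL.ird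
  obtain ⟨z, hz1, hz2⟩ := hK.z
  obtain ⟨_, hfr⟩ := hADFR N H r Φ B Hc E c k d X hH hL hK hX
  have hC1 : ∀ f ∈ PF H, C1H f := fun f hf => (hP.c2 f hf).1
  have hsum := hfr z hz1 (fun Y Z => dH Y (dH Z f) g) ?_ ?_
  · have hl : lapH X f g = ∑ a, dH (X a) (dH (X a) f) g := rfl
    rw [hl, hsum]
    have htor : ∀ j, dH (hx Hc (z j)) (dH (hx Hc (z j)) f) g =
        ∑ μ ∈ m.support, -(((m μ : ℂ) * eu (dz μ θ)) *
          ((((∑ i, (μ i : ℝ) * z j i) ^ 2 : ℝ)) : ℂ)) := by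
      intro j
      rw [(hRADT N H r Φ B Hc E hH hL f m hm g θ hg (z j) (z j)).2]
      refine Finset.sum_congr rfl fun μ _ => ?_
      rw [Complex.ofReal_pow]
      linear_combination ((m μ : ℂ) * eu (dz μ θ) *
        (((∑ i, (μ i : ℝ) * z j i : ℝ)) : ℂ) ^ 2) * Complex.I_sq
    have htor2 : ∑ j, dH (hx Hc (z j)) (dH (hx Hc (z j)) f) g =
        ∑ μ ∈ m.support, -((k : ℂ) / 2) * ((m μ : ℂ) *
          ((μ ⬝ᵥ ((rd Φ).A *ᵥ μ) : ℤ) : ℂ) * eu (dz μ θ)) := by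
      rw [Finset.sum_congr rfl fun j _ => htor j, Finset.sum_comm]
      refine Finset.sum_congr rfl fun μ _ => ?_
      rw [Finset.sum_neg_distrib, ← Finset.mul_sum, ← Complex.ofReal_sum,
        RADF.quad z (rd Φ).A k hz2 μ]
      push_cast
      ring
    have hroot : ∀ p ∈ pos Φ, (1 / ((2 * c * (E p * (E p)ᴴ).trace.re : ℝ) : ℂ)) *
        (dH (E p - (E p)ᴴ) (dH (E p - (E p)ᴴ) f) g +
          dH (Complex.I • (E p + (E p)ᴴ)) (dH (Complex.I • (E p + (E p)ᴴ)) f) g) =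
        ∑ μ ∈ m.support, -((k : ℂ) / 2) * ((m μ : ℂ) *
          (((p.1 ⬝ᵥ ((rd Φ).A *ᵥ μ) : ℤ) : ℂ) *
            ((1 + eu (-(dz p.1 θ))) / (1 - eu (-(dz p.1 θ))))) * eu (dz μ θ)) := by
      intro p hp
      have hpΦ : p ∈ Φ := (hW.ppos p hp).1
      have h1 := RADF.trig (hreg p hp) _ _ (hRADP N H r Φ B Hc E hH hL f hf hcl g θ hg p hpΦ)
      rw [h1, (hRADT N H r Φ B Hc E hH hL f m hm g θ hg (fun j => (p.2 j : ℝ)) 0).1,
        Finset.mul_sum, Finset.mul_sum]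
      refine Finset.sum_congr rfl fun μ _ => ?_
      have h2 : (∑ j, (μ j : ℝ) * (p.2 j : ℝ) : ℝ) = ((p.2 ⬝ᵥ μ : ℤ) : ℝ) := by
        unfold dotProduct
        push_cast
        exact Finset.sum_congr rfl fun j _ => mul_comm _ _
      rw [h2, hK.p p hpΦ μ]
      have ht : ((E p * (E p)ᴴ).trace.re : ℂ) ≠ 0 := by
        rw [Ne, Complex.ofReal_eq_zero]
        exact (hT.pos p hpΦ).1.ne'
      have hc0 : (c : ℂ) ≠ 0 := by
        rw [Ne, Complex.ofReal_eq_zero]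
        exact hK.cpos.ne'
      generalize (1 + eu (-(dz p.1 θ))) / (1 - eu (-(dz p.1 θ))) = F
      push_cast
      field_simp
      linear_combination ((m μ : ℂ) * (k : ℂ) * ((p.1 ⬝ᵥ ((rd Φ).A *ᵥ μ) : ℤ) : ℂ) *
        eu (dz μ θ) * F) * Complex.I_sq
    rw [htor2]
    show _ + ∑ p ∈ pos Φ, _ = _
    rw [Finset.sum_congr rfl hroot, Finset.sum_comm, ← Finset.sum_add_distrib, Finset.mul_sum]
    refine Finset.sum_congr rfl fun μ _ => ?_
    rw [← Finset.mul_sum, ← Finset.sum_mul, ← Finset.mul_sum]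
    ring
  · intro Y hY Z hZ V hV
    refine ⟨hP.add Y hY Z hZ (dH V f) (hP.d V hV f hf) g, ?_⟩
    have h1 : dH (Y + Z) f = fun g => dH Y f g + dH Z f g :=
      funext fun g => hP.add Y hY Z hZ f hf g
    show dH V (dH (Y + Z) f) g = _
    rw [h1]
    exact RADF.dH_add V hV g (hC1 _ (hP.d Y hY f hf)) (hC1 _ (hP.d Z hZ f hf))
  · intro Y hY V hV s
    refine ⟨hP.smul Y hY s (dH V f) (hP.d V hV f hf) g, ?_⟩
    have h1 : dH ((s : ℂ) • V) f = fun g => (s : ℂ) * dH V f g :=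
      funext fun g => hP.smul V hV s f hf g
    show dH Y (dH ((s : ℂ) • V) f) g = _
    rw [h1]
    exact RADF.dH_smul Y hY g (hC1 _ (hP.d V hV f hf)) _

end

end LGR
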