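import Pool.Agent.LGR.StR

/-!
# RADL: the coefficients of `AT 1 * tp m` for an eigenfunction
-/

namespace LGR

open STZ MeasureTheory Matrix Filter

open scoped ComplexConjugate Matrix Real Topology

noncomputable section

namespace RADL

variable {r : ℕ} {Φ : RT r} {B : Matrix (Fin r) (Fin r) ℤ}

lemma eu_add (a b : ℝ) : eu (a + b) = eu a * eu b := by
  unfold eu
  rw [← Complex.exp_add]
  congr 1
  push_cast
  ring

lemma dz_add (μ ν : Fin r → ℤ) (θ : Fin r → ℝ) : dz (μ + ν) θ = dz μ θ + dz ν θ := by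
  unfold dz
  rw [← Finset.sum_add_distrib]
  refine Finset.sum_congr rfl fun i _ => ?_
  rw [Pi.add_apply]
  push_cast
  ring

lemma dz_line (ν : Fin r → ℤ) (θ x : Fin r → ℝ) (s : ℝ) :
    dz ν (θ + s • x) = dz ν θ + s * dz ν x := by
  unfold dz
  rw [Finset.mul_sum, ← Finset.sum_add_distrib]
  refine Finset.sum_congr rfl fun i _ => ?_
  rw [Pi.add_apply, Pi.smul_apply, smul_eq_mul]
  ring

lemma dz_A (A : Matrix (Fin r) (Fin r) ℤ) (μ l : Fin r → ℤ) :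
    dz μ (fun i => (((A *ᵥ l) i : ℤ) : ℝ)) = ((μ ⬝ᵥ (A *ᵥ l) : ℤ) : ℝ) := by
  unfold dz
  rw [dotProduct, Int.cast_sum]
  refine Finset.sum_congr rfl fun i _ => ?_
  rw [Int.cast_mul]

lemma deriv_eu (a b : ℝ) :
    HasDerivAt (fun s : ℝ => eu (a + s * b)) (2 * π * Complex.I * b * eu a) 0 := by
  have h1 : HasDerivAt (fun s : ℝ => a + s * b) b 0 := by
    have h := ((hasDerivAt_id (0 : ℝ)).mul_const b).const_add a
    simpa using h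
  have h2 : HasDerivAt (fun s : ℝ => 2 * (π : ℂ) * ((a + s * b : ℝ) : ℂ) * Complex.I)
      (2 * (π : ℂ) * (b : ℂ) * Complex.I) 0 :=
    (h1.ofReal_comp.const_mul (2 * (π : ℂ))).mul_const Complex.I
  have h3 := h2.cexp
  have h4 : Complex.exp (2 * (π : ℂ) * ((a + 0 * b : ℝ) : ℂ) * Complex.I) = eu a := by
    unfold eu
    rw [zero_mul, add_zero]
  rw [h4] at h3
  have h5 : eu a * (2 * (π : ℂ) * (b : ℂ) * Complex.I) = 2 * π * Complex.I * b * eu a := by ring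
  rw [h5] at h3
  exact h3

/-- the derivative of the alternating sum -/
lemma deriv_AT (θ x : Fin r → ℝ) :
    HasDerivAt (fun s : ℝ => AT (rd Φ) 1 (θ + s • x))
      (∑ w ∈ WF Φ, (w.det : ℂ) * (2 * π * Complex.I * (dz (w *ᵥ 1) x : ℝ) * eu (dz (w *ᵥ 1) θ))) 0 := by
  have h1 : (fun s : ℝ => AT (rd Φ) 1 (θ + s • x)) =
      fun s : ℝ => ∑ w ∈ WF Φ, (w.det : ℂ) * eu (dz (w *ᵥ 1) θ + s * dz (w *ᵥ 1) x) := by
    funext s
    change ∑ w ∈ WF Φ, (w.det : ℂ) * eu (dz (w *ᵥ 1) (θ + s • x)) = _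
    refine Finset.sum_congr rfl fun w _ => ?_
    rw [dz_line]
  rw [h1]
  exact HasDerivAt.fun_sum fun w _ => (deriv_eu _ _).const_mul _

/-- the derivative of the product -/
lemma deriv_prod (P : RT r) (θ x : Fin r → ℝ) (h : ∀ p ∈ P, eu (dz p.1 θ) ≠ 1) :
    HasDerivAt (fun s : ℝ => eu (∑ i, (θ + s • x) i) * ∏ p ∈ P, (1 - eu (-(dz p.1 (θ + s • x)))))
      (2 * π * Complex.I * (eu (∑ i, θ i) * ∏ p ∈ P, (1 - eu (-(dz p.1 θ)))) *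
        (((∑ i, x i : ℝ) : ℂ) + ∑ p ∈ P, (dz p.1 x : ℂ) * (eu (-(dz p.1 θ)) / (1 - eu (-(dz p.1 θ)))))) 0 := by
  classical
  have h0 : ∀ p ∈ P, 1 - eu (-(dz p.1 θ)) ≠ 0 := by
    intro p hp h1
    apply h p hp
    have h2 : eu (dz p.1 θ) * eu (-(dz p.1 θ)) = 1 := by
      rw [← eu_add, add_neg_cancel]
      unfold eu
      simp
    rw [← sub_eq_zero.1 h1, mul_one] at h2
    exact h2
  have h1 : (fun s : ℝ => eu (∑ i, (θ + s • x) i) * ∏ p ∈ P, (1 - eu (-(dz p.1 (θ + s • x))))) =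
      fun s : ℝ => eu (∑ i, θ i + s * ∑ i, x i) *
        ∏ p ∈ P, (1 - eu (-(dz p.1 θ) + s * (-(dz p.1 x)))) := by
    funext s
    congr 1
    · congr 1
      rw [Finset.mul_sum, ← Finset.sum_add_distrib]
      refine Finset.sum_congr rfl fun i _ => ?_
      rw [Pi.add_apply, Pi.smul_apply, smul_eq_mul]
    · refine Finset.prod_congr rfl fun p _ => ?_
      rw [dz_line]
      congr 2
      ring
  rw [h1]
  have h2 := (deriv_eu (∑ i, θ i) (∑ i, x i)).fun_mul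
    (HasDerivAt.fun_finsetProd (u := P) (x := (0 : ℝ))
      (f := fun (p : (Fin r → ℤ) × (Fin r → ℤ)) (s : ℝ) => 1 - eu (-(dz p.1 θ) + s * (-(dz p.1 x))))
      fun p _ => (deriv_eu (-(dz p.1 θ)) (-(dz p.1 x))).const_sub 1)
  refine h2.congr_deriv ?_
  simp only [zero_mul, add_zero, smul_eq_mul]
  have h3 : ∀ p ∈ P, (∏ q ∈ P.erase p, (1 - eu (-(dz q.1 θ)))) *
      -(2 * π * Complex.I * ((-(dz p.1 x) : ℝ) : ℂ) * eu (-(dz p.1 θ))) =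
      2 * π * Complex.I * (∏ q ∈ P, (1 - eu (-(dz q.1 θ)))) *
        ((dz p.1 x : ℂ) * (eu (-(dz p.1 θ)) / (1 - eu (-(dz p.1 θ))))) := by
    intro p hp
    rw [← Finset.mul_prod_erase P _ hp]
    have := h0 p hp
    field_simp
    push_cast
    ring
  rw [Finset.sum_congr rfl h3, ← Finset.mul_sum]
  ring

/-- the logarithmic derivative of the denominator formula -/
lemma logd (hD : S_DENO) (hI : IRD Φ B) (hW : WFF Φ B) (hR : ∑ p ∈ pos Φ, p.1 = fun _ => 2)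
    (θ x : Fin r → ℝ) (h : ∀ p ∈ pos Φ, eu (dz p.1 θ) ≠ 1) :
    2 * ∑ w ∈ WF Φ, (w.det : ℂ) * ((dz (w *ᵥ 1) x : ℝ) * eu (dz (w *ᵥ 1) θ)) =
      AT (rd Φ) 1 θ * ∑ p ∈ pos Φ, (dz p.1 x : ℂ) *
        ((1 + eu (-(dz p.1 θ))) / (1 - eu (-(dz p.1 θ)))) := by
  have h0 : ∀ p ∈ pos Φ, 1 - eu (-(dz p.1 θ)) ≠ 0 := by
    intro p hp h1
    apply h p hp
    have h2 : eu (dz p.1 θ) * eu (-(dz p.1 θ)) = 1 := by
      rw [← eu_add, add_neg_cancel]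
      unfold eu
      simp
    rw [← sub_eq_zero.1 h1, mul_one] at h2
    exact h2
  have h1 := deriv_AT (Φ := Φ) θ x
  have h2 := deriv_prod (pos Φ) θ x h
  have h3 : (fun s : ℝ => AT (rd Φ) 1 (θ + s • x)) =
      fun s : ℝ => eu (∑ i, (θ + s • x) i) * ∏ p ∈ pos Φ, (1 - eu (-(dz p.1 (θ + s • x)))) := by
    funext s
    exact hD r Φ B hI hW _
  rw [h3] at h1
  have h4 := h1.unique h2
  rw [← hD r Φ B hI hW θ] at h4
  have h5 : (2 : ℂ) * ((∑ i, x i : ℝ) : ℂ) = ∑ p ∈ pos Φ, (dz p.1 x : ℂ) := by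
    have h6 : ∀ i, ∑ p ∈ pos Φ, (p.1 i : ℝ) = 2 := by
      intro i
      have h7 := congrFun hR i
      rw [Finset.sum_apply] at h7
      exact_mod_cast h7
    have h8 : ∑ p ∈ pos Φ, dz p.1 x = 2 * ∑ i, x i := by
      unfold dz
      rw [Finset.sum_comm, Finset.mul_sum]
      refine Finset.sum_congr rfl fun i _ => ?_
      rw [← Finset.sum_mul, h6]
    rw [← Complex.ofReal_sum, h8]
    push_cast
    ring
  have h9 : ∑ p ∈ pos Φ, (dz p.1 x : ℂ) * ((1 + eu (-(dz p.1 θ))) / (1 - eu (-(dz p.1 θ)))) =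
      2 * (((∑ i, x i : ℝ) : ℂ) + ∑ p ∈ pos Φ, (dz p.1 x : ℂ) * (eu (-(dz p.1 θ)) / (1 - eu (-(dz p.1 θ))))) := by
    rw [mul_add, h5, Finset.mul_sum, ← Finset.sum_add_distrib]
    refine Finset.sum_congr rfl fun p hp => ?_
    have := h0 p hp
    field_simp
    ring
  have h10 : ∑ w ∈ WF Φ, (w.det : ℂ) * (2 * π * Complex.I * (dz (w *ᵥ 1) x : ℝ) * eu (dz (w *ᵥ 1) θ)) =
      2 * π * Complex.I * ∑ w ∈ WF Φ, (w.det : ℂ) * ((dz (w *ᵥ 1) x : ℝ) * eu (dz (w *ᵥ 1) θ)) := by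
    rw [Finset.mul_sum]
    refine Finset.sum_congr rfl fun w _ => ?_
    ring
  rw [h10] at h4
  have h11 : (2 * π * Complex.I : ℂ) ≠ 0 := by
    have : (π : ℂ) ≠ 0 := by exact_mod_cast Real.pi_ne_zero
    simp [this]
  rw [h9]
  refine mul_left_cancel₀ h11 ?_
  linear_combination 2 * h4

open Classical in
/-- the support -/
def sp (Φ : RT r) (m : (Fin r → ℤ) →₀ ℤ) : Finset (Fin r → ℤ) :=
  (WF Φ ×ˢ m.support).image fun p => p.2 + p.1 *ᵥ 1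

lemma mem_sp (m : (Fin r → ℤ) →₀ ℤ) (ν : Fin r → ℤ) (h : av Φ m ν ≠ 0) : ν ∈ sp Φ m := by
  classical
  unfold av at h
  obtain ⟨w, hw, h1⟩ := Finset.exists_ne_zero_of_sum_ne_zero h
  have h2 : m (ν - w *ᵥ 1) ≠ 0 := right_ne_zero_of_mul h1
  unfold sp
  rw [Finset.mem_image]
  exact ⟨(w, ν - w *ᵥ 1), Finset.mem_product.mpr ⟨hw, Finsupp.mem_support_iff.mpr h2⟩,
    sub_add_cancel _ _⟩

/-- reindexing the double sum -/
lemma reidx (m : (Fin r → ℤ) →₀ ℤ) (g : (Fin r → ℤ) → ℂ) :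
    ∑ ν ∈ sp Φ m, (av Φ m ν : ℂ) * g ν =
      ∑ μ ∈ m.support, ∑ w ∈ WF Φ, (m μ : ℂ) * ((w.det : ℂ) * g (μ + w *ᵥ 1)) := by
  classical
  have h1 : ∀ w ∈ WF Φ, ∑ ν ∈ sp Φ m, (m (ν - w *ᵥ 1) : ℂ) * g ν =
      ∑ μ ∈ m.support, (m μ : ℂ) * g (μ + w *ᵥ 1) := by
    intro w hw
    have h3 : m.support.image (fun μ => μ + w *ᵥ 1) ⊆ sp Φ m := by
      intro ν hν
      rw [Finset.mem_image] at hν
      obtain ⟨μ, hμ, rfl⟩ := hν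
      unfold sp
      rw [Finset.mem_image]
      exact ⟨(w, μ), Finset.mem_product.mpr ⟨hw, hμ⟩, rfl⟩
    rw [← Finset.sum_subset h3, Finset.sum_image]
    · refine Finset.sum_congr rfl fun μ _ => ?_
      rw [add_sub_cancel_right]
    · intro a _ b _ hab
      exact add_right_cancel hab
    · intro ν _ hν
      have h4 : m (ν - w *ᵥ 1) = 0 := by
        by_contra h5
        apply hν
        rw [Finset.mem_image]
        exact ⟨ν - w *ᵥ 1, Finsupp.mem_support_iff.mpr h5, sub_add_cancel _ _⟩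
      rw [h4]
      simp
  have h3 : ∀ ν, (av Φ m ν : ℂ) * g ν =
      ∑ w ∈ WF Φ, (w.det : ℂ) * ((m (ν - w *ᵥ 1) : ℂ) * g ν) := by
    intro ν
    unfold av
    push_cast
    rw [Finset.sum_mul]
    refine Finset.sum_congr rfl fun w _ => ?_
    ring
  rw [Finset.sum_congr rfl fun ν _ => h3 ν, Finset.sum_comm,
    Finset.sum_comm (s := m.support) (t := WF Φ)]
  refine Finset.sum_congr rfl fun w hw => ?_
  rw [← Finset.mul_sum, h1 w hw, Finset.mul_sum]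
  refine Finset.sum_congr rfl fun μ _ => ?_
  ring

/-- the quadratic form of a sum -/
lemma quad (hA : (rd Φ).Aᵀ = (rd Φ).A) (hQ : ∀ l, l ⬝ᵥ ((rd Φ).A *ᵥ l) = 2 * (rd Φ).Q l)
    (μ ν : Fin r → ℤ) :
    2 * (rd Φ).Q (μ + ν) = μ ⬝ᵥ ((rd Φ).A *ᵥ μ) + 2 * (ν ⬝ᵥ ((rd Φ).A *ᵥ μ)) + 2 * (rd Φ).Q ν := by
  rw [← hQ, ← hQ, mulVec_add, add_dotProduct, dotProduct_add, dotProduct_add]
  have h1 : μ ⬝ᵥ ((rd Φ).A *ᵥ ν) = ν ⬝ᵥ ((rd Φ).A *ᵥ μ) := by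
    rw [dotProduct_mulVec, ← mulVec_transpose, hA, dotProduct_comm]
  rw [h1]
  ring

/-- the identity at the regular points -/
lemma point (hD : S_DENO) (hI : IRD Φ B) (hW : WFF Φ B) (hR : ∑ p ∈ pos Φ, p.1 = fun _ => 2)
    (hA : (rd Φ).Aᵀ = (rd Φ).A) (hQ : ∀ l, l ⬝ᵥ ((rd Φ).A *ᵥ l) = 2 * (rd Φ).Q l)
    (hq : ∀ w ∈ WF Φ, ∀ l, (rd Φ).Q (w *ᵥ l) = (rd Φ).Q l)
    (m : (Fin r → ℤ) →₀ ℤ) (k κ : ℝ) (θ : Fin r → ℝ) (h : ∀ p ∈ pos Φ, eu (dz p.1 θ) ≠ 1)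
    (he : -(κ : ℂ) * tp m θ = -((k : ℂ) / 2) * ∑ μ ∈ m.support, (m μ : ℂ) * (((μ ⬝ᵥ ((rd Φ).A *ᵥ μ) : ℤ) : ℂ) +
      ∑ p ∈ pos Φ, ((p.1 ⬝ᵥ ((rd Φ).A *ᵥ μ) : ℤ) : ℂ) *
        ((1 + eu (-(dz p.1 θ))) / (1 - eu (-(dz p.1 θ))))) * eu (dz μ θ)) :
    ∑ ν ∈ sp Φ m, ((av Φ m ν : ℂ) * ((κ : ℂ) - k * (((rd Φ).Q ν : ℂ) - (rd Φ).Q 1))) * eu (dz ν θ) = 0 := by
  have h1 : ∑ ν ∈ sp Φ m, ((av Φ m ν : ℂ) * ((κ : ℂ) - k * (((rd Φ).Q ν : ℂ) - (rd Φ).Q 1))) * eu (dz ν θ) =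
      ∑ ν ∈ sp Φ m, (av Φ m ν : ℂ) * ((((κ : ℂ) - k * (((rd Φ).Q ν : ℂ) - (rd Φ).Q 1))) * eu (dz ν θ)) :=
    Finset.sum_congr rfl fun ν _ => by ring
  rw [h1, reidx]
  have h2 : ∀ μ : Fin r → ℤ, ∑ w ∈ WF Φ, (m μ : ℂ) * ((w.det : ℂ) *
      (((κ : ℂ) - k * (((rd Φ).Q (μ + w *ᵥ 1) : ℂ) - (rd Φ).Q 1)) * eu (dz (μ + w *ᵥ 1) θ))) =
      AT (rd Φ) 1 θ * (κ * ((m μ : ℂ) * eu (dz μ θ)) - (k : ℂ) / 2 * ((m μ : ℂ) * (((μ ⬝ᵥ ((rd Φ).A *ᵥ μ) : ℤ) : ℂ) +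
      ∑ p ∈ pos Φ, ((p.1 ⬝ᵥ ((rd Φ).A *ᵥ μ) : ℤ) : ℂ) *
        ((1 + eu (-(dz p.1 θ))) / (1 - eu (-(dz p.1 θ))))) * eu (dz μ θ))) := by
    intro μ
    have h3 := logd hD hI hW hR θ (fun i => ((((rd Φ).A *ᵥ μ) i : ℤ) : ℝ)) h
    simp only [dz_A] at h3
    simp only [Complex.ofReal_intCast] at h3
    have h4 : ∑ w ∈ WF Φ, (m μ : ℂ) * ((w.det : ℂ) *
        (((κ : ℂ) - k * (((rd Φ).Q (μ + w *ᵥ 1) : ℂ) - (rd Φ).Q 1)) * eu (dz (μ + w *ᵥ 1) θ))) =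
        (m μ : ℂ) * eu (dz μ θ) * (((κ : ℂ) - k / 2 * ((μ ⬝ᵥ ((rd Φ).A *ᵥ μ) : ℤ) : ℂ)) * AT (rd Φ) 1 θ -
          k / 2 * (2 * ∑ w ∈ WF Φ, (w.det : ℂ) *
            ((((w *ᵥ 1) ⬝ᵥ ((rd Φ).A *ᵥ μ) : ℤ) : ℂ) * eu (dz (w *ᵥ 1) θ)))) := by
      have h5 : AT (rd Φ) 1 θ = ∑ w ∈ WF Φ, (w.det : ℂ) * eu (dz (w *ᵥ 1) θ) := rfl
      rw [h5, Finset.mul_sum, Finset.mul_sum, Finset.mul_sum, ← Finset.sum_sub_distrib, Finset.mul_sum]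
      refine Finset.sum_congr rfl fun w hw => ?_
      have h6 := quad hA hQ μ (w *ᵥ 1)
      rw [hq w hw] at h6
      have h7 : 2 * ((rd Φ).Q (μ + w *ᵥ 1) : ℂ) = ((μ ⬝ᵥ ((rd Φ).A *ᵥ μ) : ℤ) : ℂ) +
          2 * (((w *ᵥ 1) ⬝ᵥ ((rd Φ).A *ᵥ μ) : ℤ) : ℂ) + 2 * ((rd Φ).Q 1 : ℂ) := by
        exact_mod_cast h6
      rw [dz_add, eu_add]
      linear_combination (-(m μ : ℂ) * (w.det : ℂ) * eu (dz μ θ) * eu (dz (w *ᵥ 1) θ) * k / 2) * h7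
    rw [h4, h3]
    ring
  rw [Finset.sum_congr rfl fun μ _ => h2 μ, ← Finset.mul_sum, Finset.sum_sub_distrib, ← Finset.mul_sum,
    ← Finset.mul_sum]
  have h8 : tp m θ = ∑ μ ∈ m.support, (m μ : ℂ) * eu (dz μ θ) := rfl
  rw [← h8]
  linear_combination (-(AT (rd Φ) 1 θ)) * he

end RADL

open RADL in
theorem t_RADL : M_RADL := by
  intro hRH hQU hDE hRV hDV hTP _ r Φ B hr hI hW m k κ _ he ν hν
  obtain ⟨hR, _, _⟩ := hRH r Φ B hI hW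
  obtain ⟨hq, _, hA, hQ, _⟩ := hQU r Φ B hI hW
  have hc : Continuous fun θ : Fin r → ℝ =>
      ∑ ν ∈ sp Φ m, ((av Φ m ν : ℂ) * ((κ : ℂ) - k * (((rd Φ).Q ν : ℂ) - (rd Φ).Q 1))) * eu (dz ν θ) := by
    unfold eu dz
    fun_prop
  have h1 := (hDV r (rd Φ) (pos Φ) (hRV r Φ B hr hI)).2 _ hc fun θ hθ => by
    have h2 : ∀ p ∈ pos Φ, eu (dz p.1 θ) ≠ 1 := by
      intro p hp h3
      apply hθ p hp
      unfold eu at h3
      rw [Complex.exp_eq_one_iff] at h3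
      obtain ⟨n, hn⟩ := h3
      have h4 : (2 * (π : ℂ) * Complex.I) ≠ 0 := by
        have : (π : ℂ) ≠ 0 := by exact_mod_cast Real.pi_ne_zero
        simp [this]
      have h5 : ((dz p.1 θ : ℝ) : ℂ) = (n : ℂ) := by
        refine mul_left_cancel₀ h4 ?_
        linear_combination hn
      have h6 : dz p.1 θ = (n : ℝ) := by exact_mod_cast h5
      rw [h6]
      unfold nd
      rw [round_intCast, sub_self, abs_zero]
    exact point hDE hI hW hR hA hQ hq m k κ θ h2 (he θ h2)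
  have h7 := (hTP r).2 (sp Φ m) _ h1 ν (mem_sp m ν hν)
  have h8 : (av Φ m ν : ℂ) ≠ 0 := by exact_mod_cast hν
  have h9 := (mul_eq_zero.1 h7).resolve_left h8
  have h10 : (κ : ℂ) = ((k * (((rd Φ).Q ν : ℝ) - (rd Φ).Q 1) : ℝ) : ℂ) := by
    push_cast
    linear_combination h9
  exact_mod_cast h10

end

end LGR
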