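import Pool.Agent.LGR.StR

/-!
# LGR, module RADP: the radial part of the Laplace operator, one root
-/

namespace LGR

open STZ MeasureTheory Matrix Filter

open scoped ComplexConjugate Matrix Real Topology

noncomputable section

namespace RADP

variable {N : ℕ} {H : Subgroup (SU N)}

/-- the derivative along `exp (t Z) g` -/
def L (Z : Matrix (Fin N) (Fin N) ℂ) (F : H → ℂ) : H → ℂ := fun g => dH Z (fun x => F (x * g)) 1

theorem c1 (hP : PFF H) {F : H → ℂ} (hF : F ∈ PF H) : C1H F := (hP.c2 F hF).1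

theorem dsum (hC : CALFH H) (hP : PFF H) {Y : Matrix (Fin N) (Fin N) ℂ} (hY : Y ∈ lie H) {ι : Type}
    (s : Finset ι) (c : ι → ℂ) (F : ι → H → ℂ) (hF : ∀ q, F q ∈ PF H) :
    (fun g : H => ∑ q ∈ s, c q * F q g) ∈ PF H ∧
    ∀ g, dH Y (fun g => ∑ q ∈ s, c q * F q g) g = ∑ q ∈ s, c q * dH Y (F q) g := by
  classical
  induction s using Finset.induction_on with
  | empty =>
    refine ⟨?_, fun g => ?_⟩
    · simp only [Finset.sum_empty]
      exact (PF H).zero_mem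
    · simpa using hC.dconst Y 0 g
  | insert a s ha ih =>
    have h0 : (fun g : H => ∑ q ∈ insert a s, c q * F q g) =
        fun g : H => c a * F a g + ∑ q ∈ s, c q * F q g := by
      funext g
      rw [Finset.sum_insert ha]
    have h1 : (fun g : H => c a * F a g) ∈ PF H := (PF H).smul_mem (hF a) (c a)
    refine ⟨?_, fun g => ?_⟩
    · rw [h0]
      exact (PF H).add_mem h1 ih.1
    · rw [h0, hC.dadd Y hY _ _ (c1 hP h1) (c1 hP ih.1), ih.2, Finset.sum_insert ha,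
        hC.dmul Y hY _ _ (hC.const (c a)).1 (c1 hP (hF a)), hC.dconst, zero_mul, zero_add]

theorem ent (_ : PFF H) (i j : Fin N) : (fun g : H => g.1.1 i j) ∈ PF H :=
  Algebra.subset_adjoin (Or.inl ⟨i, j, rfl⟩)

theorem abij (A B : Matrix (Fin N) (Fin N) ℂ) (i j : Fin N) (M : Matrix (Fin N) (Fin N) ℂ) :
    (A * M * B) i j = ∑ q : Fin N × Fin N, (A i q.1 * B q.2 j) * M q.1 q.2 := by
  rw [Fintype.sum_prod_type, Matrix.mul_apply, Finset.sum_comm]
  refine Finset.sum_congr rfl fun l _ => ?_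
  rw [Matrix.mul_apply, Finset.sum_mul]
  refine Finset.sum_congr rfl fun k _ => ?_
  ring

theorem dab (hC : CALFH H) (hP : PFF H) {Y : Matrix (Fin N) (Fin N) ℂ} (hY : Y ∈ lie H)
    (A B : Matrix (Fin N) (Fin N) ℂ) (i j : Fin N) :
    (fun g : H => (A * g.1.1 * B) i j) ∈ PF H ∧
    ∀ g, dH Y (fun g : H => (A * g.1.1 * B) i j) g = (A * g.1.1 * Y * B) i j := by
  have h0 : (fun g : H => (A * g.1.1 * B) i j) =
      fun g : H => ∑ q : Fin N × Fin N, (A i q.1 * B q.2 j) * (fun g : H => g.1.1 q.1 q.2) g := by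
    funext g
    exact abij A B i j g.1.1
  have h1 := dsum hC hP hY Finset.univ (fun q : Fin N × Fin N => A i q.1 * B q.2 j)
    (fun q => fun g : H => g.1.1 q.1 q.2) (fun q => ent hP q.1 q.2)
  rw [h0]
  refine ⟨h1.1, fun g => ?_⟩
  rw [h1.2 g]
  have h2 : A * g.1.1 * Y * B = A * (g.1.1 * Y) * B := by rw [Matrix.mul_assoc A]
  rw [h2, abij]
  refine Finset.sum_congr rfl fun q _ => ?_
  rw [hC.dentry Y hY]

theorem mulstar (g : H) : g.1.1 * g.1.1ᴴ = 1 := by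
  have h1 : g.1.1 ∈ Matrix.specialUnitaryGroup (Fin N) ℂ := g.1.2
  rw [Matrix.mem_specialUnitaryGroup_iff] at h1
  exact Matrix.mem_unitaryGroup_iff.1 h1.1

theorem starmul (g : H) : g.1.1ᴴ * g.1.1 = 1 := by
  have h1 : g.1.1 ∈ Matrix.specialUnitaryGroup (Fin N) ℂ := g.1.2
  rw [Matrix.mem_specialUnitaryGroup_iff] at h1
  exact Matrix.mem_unitaryGroup_iff'.1 h1.1

/-- `hᴴ X h` is in the Lie algebra -/
theorem adm (hl : LIF H) (h : H) {X : Matrix (Fin N) (Fin N) ℂ} (hX : X ∈ lie H) :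
    h.1.1ᴴ * X * h.1.1 ∈ lie H := by
  have h1 := hl.ad h⁻¹.1 h⁻¹.2 X hX
  have h2 : (h⁻¹ : H).1.1 = h.1.1ᴴ := rfl
  rw [h2, conjTranspose_conjTranspose] at h1
  exact h1

theorem Lab (hC : CALFH H) (hl : LIF H) (hP : PFF H) {Z : Matrix (Fin N) (Fin N) ℂ} (hZ : Z ∈ lie H)
    (A B : Matrix (Fin N) (Fin N) ℂ) (i j : Fin N) :
    L Z (fun g : H => (A * g.1.1 * B) i j) = fun g : H => (A * Z * g.1.1 * B) i j := by
  funext g
  rw [L, hP.dright Z hZ g _ (dab hC hP hZ A B i j).1 1, (dab hC hP (adm hl g hZ) A B i j).2, one_mul]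
  have h2 : A * g.1.1 * (g.1.1ᴴ * Z * g.1.1) * B = A * (g.1.1 * g.1.1ᴴ) * Z * g.1.1 * B := by
    simp only [Matrix.mul_assoc]
  rw [h2, mulstar, Matrix.mul_one]

theorem Ladd (hC : CALFH H) (hP : PFF H) {Z : Matrix (Fin N) (Fin N) ℂ} (hZ : Z ∈ lie H) {F G : H → ℂ}
    (hF : F ∈ PF H) (hG : G ∈ PF H) : L Z (fun g => F g + G g) = fun g => L Z F g + L Z G g := by
  funext g
  exact hC.dadd Z hZ _ _ (c1 hP (hP.right g F hF)) (c1 hP (hP.right g G hG)) 1

theorem Lmul (hC : CALFH H) (hP : PFF H) {Z : Matrix (Fin N) (Fin N) ℂ} (hZ : Z ∈ lie H) {F G : H → ℂ}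
    (hF : F ∈ PF H) (hG : G ∈ PF H) :
    L Z (fun g => F g * G g) = fun g => L Z F g * G g + F g * L Z G g := by
  funext g
  have h1 := hC.dmul Z hZ _ _ (c1 hP (hP.right g F hF)) (c1 hP (hP.right g G hG)) 1
  rw [one_mul] at h1
  exact h1

theorem Lcj (hC : CALFH H) (hP : PFF H) {Z : Matrix (Fin N) (Fin N) ℂ} (hZ : Z ∈ lie H) {F : H → ℂ}
    (hF : F ∈ PF H) : L Z (fun g => conj (F g)) = fun g => conj (L Z F g) := by
  funext g
  exact hC.dconj Z hZ _ (c1 hP (hP.right g F hF)) 1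

/-- the statement of the induction -/
def Ok (Y Z : Matrix (Fin N) (Fin N) ℂ) (F : H → ℂ) : Prop := L Z F ∈ PF H ∧ ∀ g, dH Y (L Z F) g = L Z (dH Y F) g

theorem okent (hC : CALFH H) (hl : LIF H) (hP : PFF H) {Y Z : Matrix (Fin N) (Fin N) ℂ} (hY : Y ∈ lie H)
    (hZ : Z ∈ lie H) (i j : Fin N) : Ok (H := H) Y Z (fun g : H => g.1.1 i j) := by
  have h0 : (fun g : H => g.1.1 i j) =
      fun g : H => ((1 : Matrix (Fin N) (Fin N) ℂ) * g.1.1 * (1 : Matrix (Fin N) (Fin N) ℂ)) i j := by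
    funext g
    rw [Matrix.one_mul, Matrix.mul_one]
  have h1 := Lab hC hl hP hZ 1 1 i j
  refine ⟨?_, fun g => ?_⟩
  · rw [h0, h1]
    exact (dab hC hP hY _ _ i j).1
  · have h2 : dH Y (fun g : H => ((1 : Matrix (Fin N) (Fin N) ℂ) * g.1.1 * (1 : Matrix (Fin N) (Fin N) ℂ)) i j) =
        fun g : H => ((1 : Matrix (Fin N) (Fin N) ℂ) * g.1.1 * (Y * (1 : Matrix (Fin N) (Fin N) ℂ))) i j := by
      funext g
      rw [(dab hC hP hY 1 1 i j).2 g, Matrix.mul_assoc (1 * g.1.1)]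
    rw [h0, h1, h2, Lab hC hl hP hZ, (dab hC hP hY _ _ i j).2 g]
    simp only [Matrix.mul_assoc]

theorem ok (hC : CALFH H) (hl : LIF H) (hP : PFF H) {Y Z : Matrix (Fin N) (Fin N) ℂ} (hY : Y ∈ lie H)
    (hZ : Z ∈ lie H) {F : H → ℂ} (hF : F ∈ PF H) : Ok (H := H) Y Z F := by
  unfold PF at hF
  induction hF using Algebra.adjoin_induction with
  | mem x hx =>
    rcases hx with ⟨i, j, rfl⟩ | ⟨i, j, rfl⟩
    · exact okent hC hl hP hY hZ i j
    · have h1 := okent hC hl hP hY hZ i j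
      have h2 := Lcj hC hP hZ (ent hP i j)
      have h3 : dH Y (fun g : H => conj (g.1.1 i j)) = fun g => conj (dH Y (fun g : H => g.1.1 i j) g) := by
        funext g
        exact hC.dconj Y hY _ (c1 hP (ent hP i j)) g
      refine ⟨?_, fun g => ?_⟩
      · rw [h2]
        exact hP.cj _ h1.1
      · rw [h2, h3, Lcj hC hP hZ (hP.d Y hY _ (ent hP i j)), hC.dconj Y hY _ (c1 hP h1.1) g, h1.2 g]
  | algebraMap c =>
    have h0 : (algebraMap ℂ (H → ℂ) c) = fun _ : H => c := rfl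
    have h1 : L Z (fun _ : H => c) = fun _ : H => (0 : ℂ) := by
      funext g
      exact hC.dconst Z c 1
    have h2 : dH Y (fun _ : H => c) = fun _ : H => (0 : ℂ) := by
      funext g
      exact hC.dconst Y c g
    have h3 : L Z (fun _ : H => (0 : ℂ)) = fun _ : H => (0 : ℂ) := by
      funext g
      exact hC.dconst Z 0 1
    refine ⟨?_, fun g => ?_⟩
    · rw [h0, h1]
      exact (PF H).zero_mem
    · rw [h0, h1, h2, h3]
      exact hC.dconst Y 0 g
  | add x y hx hy ihx ihy =>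
    have h0 : x + y = fun g : H => x g + y g := rfl
    have h1 := Ladd hC hP hZ (F := x) (G := y) hx hy
    have h2 : dH Y (fun g : H => x g + y g) = fun g => dH Y x g + dH Y y g := by
      funext g
      exact hC.dadd Y hY _ _ (c1 hP hx) (c1 hP hy) g
    refine ⟨?_, fun g => ?_⟩
    · rw [h0, h1]
      exact (PF H).add_mem ihx.1 ihy.1
    · rw [h0, h1, h2, Ladd hC hP hZ (hP.d Y hY _ hx) (hP.d Y hY _ hy),
        hC.dadd Y hY _ _ (c1 hP ihx.1) (c1 hP ihy.1) g, ihx.2 g, ihy.2 g]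
  | mul x y hx hy ihx ihy =>
    have h0 : x * y = fun g : H => x g * y g := rfl
    have h1 := Lmul hC hP hZ (F := x) (G := y) hx hy
    have h2 : dH Y (fun g : H => x g * y g) = fun g => dH Y x g * y g + x g * dH Y y g := by
      funext g
      exact hC.dmul Y hY _ _ (c1 hP hx) (c1 hP hy) g
    have hdx := hP.d Y hY _ hx
    have hdy := hP.d Y hY _ hy
    have m1 : (fun g => L Z x g * y g) ∈ PF H := (PF H).mul_mem ihx.1 hy
    have m2 : (fun g => x g * L Z y g) ∈ PF H := (PF H).mul_mem hx ihy.1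
    have m3 : (fun g => dH Y x g * y g) ∈ PF H := (PF H).mul_mem hdx hy
    have m4 : (fun g => x g * dH Y y g) ∈ PF H := (PF H).mul_mem hx hdy
    refine ⟨?_, fun g => ?_⟩
    · rw [h0, h1]
      exact (PF H).add_mem m1 m2
    · rw [h0, h1, h2, Ladd hC hP hZ m3 m4, Lmul hC hP hZ hdx hy, Lmul hC hP hZ hx hdy,
        hC.dadd Y hY _ _ (c1 hP m1) (c1 hP m2) g, hC.dmul Y hY _ _ (c1 hP ihx.1) (c1 hP hy) g,
        hC.dmul Y hY _ _ (c1 hP hx) (c1 hP ihy.1) g, ihx.2 g, ihy.2 g]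
      ring

/-- class functions -/
theorem cls (hC : CALFH H) (hP : PFF H) {f : H → ℂ} (hf : f ∈ PF H) (hc : ∀ g h : H, f (h * g * h⁻¹) = f g)
    {Z : Matrix (Fin N) (Fin N) ℂ} (hZ : Z ∈ lie H) : dH Z f = L Z f := by
  funext g
  have h1 : (fun x : H => f (x * g)) = fun x : H => f (g * x) := by
    funext x
    have h2 := hc (x * g) g
    rw [← h2]
    congr 1
    group
  have h3 := hC.dleft Z hZ g f (c1 hP hf) 1
  rw [mul_one] at h3
  rw [L, h1, h3]

theorem key (hC : CALFH H) (hl : LIF H) (hP : PFF H) {f : H → ℂ} (hf : f ∈ PF H)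
    (hc : ∀ g h : H, f (h * g * h⁻¹) = f g) {Y Z : Matrix (Fin N) (Fin N) ℂ} (hY : Y ∈ lie H)
    (hZ : Z ∈ lie H) (t : H) :
    dH Y (dH Z f) t = dH (t.1.1ᴴ * Z * t.1.1) (dH Y f) t := by
  rw [cls hC hP hf hc hZ, (ok hC hl hP hY hZ hf).2 t, L, hP.dright Z hZ t _ (hP.d Y hY _ hf) 1, one_mul]

end RADP

theorem t_RADP : M_RADP := by
  intro hCA hLI hPF hTA N H r Φ B Hc E hcl hR f hf hcf g θ hg p hp
  have hC := hCA N H
  have hl := hLI N H hcl
  have hP := hPF N H hcl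
  have hT := hTA N H r Φ B Hc E hcl hR
  obtain ⟨hu, hv⟩ := hR.emem p hp
  have hAde := hT.Ade p hp θ
  rw [← hg] at hAde
  set e := E p with he
  set ψ : ℝ := 2 * π * dz p.1 θ with hψ
  have heu : eu (dz p.1 θ) = (Real.cos ψ : ℂ) + (Real.sin ψ : ℂ) * Complex.I := by
    rw [eu, Complex.ofReal_cos, Complex.ofReal_sin, ← Complex.exp_mul_I, hψ]
    congr 1
    push_cast
    ring
  have hcs : (Real.cos ψ : ℂ) ^ 2 + (Real.sin ψ : ℂ) ^ 2 = 1 := by
    rw [Complex.ofReal_cos, Complex.ofReal_sin]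
    exact Complex.cos_sq_add_sin_sq _
  have hI : Complex.I ^ 2 = -1 := Complex.I_sq
  -- conjugation of the root vectors
  have hE : g.1.1ᴴ * e * g.1.1 = ((Real.cos ψ : ℂ) - (Real.sin ψ : ℂ) * Complex.I) • e := by
    have h1 : g.1.1ᴴ * (g.1.1 * e * g.1.1ᴴ) * g.1.1 = e := by
      have h2 : g.1.1ᴴ * (g.1.1 * e * g.1.1ᴴ) * g.1.1 = (g.1.1ᴴ * g.1.1) * e * (g.1.1ᴴ * g.1.1) := by
        simp only [Matrix.mul_assoc]
      rw [h2, RADP.starmul, Matrix.one_mul, Matrix.mul_one]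
    rw [hAde, heu, Matrix.mul_smul, Matrix.smul_mul] at h1
    have h3 : ((Real.cos ψ : ℂ) - (Real.sin ψ : ℂ) * Complex.I) *
        ((Real.cos ψ : ℂ) + (Real.sin ψ : ℂ) * Complex.I) = 1 := by
      linear_combination hcs - (Real.sin ψ : ℂ) ^ 2 * hI
    calc g.1.1ᴴ * e * g.1.1 = (1 : ℂ) • (g.1.1ᴴ * e * g.1.1) := (one_smul _ _).symm
      _ = ((Real.cos ψ : ℂ) - (Real.sin ψ : ℂ) * Complex.I) • e := by
        rw [← h3, mul_smul, h1]
  have hE' : g.1.1ᴴ * eᴴ * g.1.1 = ((Real.cos ψ : ℂ) + (Real.sin ψ : ℂ) * Complex.I) • eᴴ := by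
    have h1 := congrArg Matrix.conjTranspose hE
    rw [conjTranspose_smul, conjTranspose_mul, conjTranspose_mul, conjTranspose_conjTranspose,
      ← Matrix.mul_assoc] at h1
    rw [h1]
    congr 1
    rw [Complex.star_def, map_sub, map_mul, Complex.conj_I, Complex.conj_ofReal, Complex.conj_ofReal]
    ring
  have hU : g.1.1ᴴ * (e - eᴴ) * g.1.1 =
      ((Real.cos ψ : ℝ) : ℂ) • (e - eᴴ) + ((-Real.sin ψ : ℝ) : ℂ) • (Complex.I • (e + eᴴ)) := by
    rw [Matrix.mul_sub, Matrix.sub_mul, hE, hE']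
    ext i j
    simp only [Matrix.sub_apply, Matrix.add_apply, Matrix.smul_apply, smul_eq_mul]
    push_cast
    ring
  have hV : g.1.1ᴴ * (Complex.I • (e + eᴴ)) * g.1.1 =
      ((Real.cos ψ : ℝ) : ℂ) • (Complex.I • (e + eᴴ)) + ((Real.sin ψ : ℝ) : ℂ) • (e - eᴴ) := by
    rw [Matrix.mul_smul, Matrix.smul_mul, Matrix.mul_add, Matrix.add_mul, hE, hE']
    ext i j
    simp only [Matrix.sub_apply, Matrix.add_apply, Matrix.smul_apply, smul_eq_mul]
    linear_combination ((Real.sin ψ : ℂ) * ((eᴴ) i j - e i j)) * hI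
  have hlin : ∀ X ∈ lie H, ∀ Y ∈ lie H, ∀ a b : ℝ, ∀ F ∈ PF H,
      dH ((a : ℂ) • X + (b : ℂ) • Y) F g = a * dH X F g + b * dH Y F g := by
    intro X hX Y hY a b F hF
    rw [hP.add _ (hl.smul a X hX) _ (hl.smul b Y hY) F hF g, hP.smul X hX a F hF g, hP.smul Y hY b F hF g]
  have k1 := RADP.key hC hl hP hf hcf hu hu g
  rw [hU, hlin _ hu _ hv _ _ _ (hP.d _ hu _ hf)] at k1
  have k2 := RADP.key hC hl hP hf hcf hv hv g
  rw [hV, hlin _ hv _ hu _ _ _ (hP.d _ hv _ hf)] at k2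
  have k3 := hP.comm _ hu _ hv f hf g
  have k4 : (e - eᴴ) * (Complex.I • (e + eᴴ)) - (Complex.I • (e + eᴴ)) * (e - eᴴ) =
      ((2 : ℝ) : ℂ) • hx Hc fun j => p.2 j := by
    have h1 : hx Hc (fun j => (p.2 j : ℝ)) = Complex.I • ∑ j, (p.2 j : ℂ) • Hc j := by
      rw [hx, Finset.smul_sum]
      refine Finset.sum_congr rfl fun j _ => ?_
      rw [smul_smul]
      congr 1
      push_cast
      ring
    rw [h1, ← hR.cor p hp, ← he, Matrix.mul_smul, Matrix.smul_mul, ← smul_sub, smul_smul, mul_comm,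
      ← smul_smul]
    congr 1
    rw [sub_mul, mul_add, mul_add, mul_sub, add_mul, add_mul]
    push_cast
    rw [two_smul]
    abel
  rw [k4, hP.smul _ (hT.hmem _) 2 f hf g] at k3
  push_cast at k1 k2 k3 ⊢
  linear_combination k1 + k2 + (Complex.sin (ψ : ℂ)) * k3

end

end LGR
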