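import Pool.Agent.LGR.StR

/-!
# RADT: derivatives in the directions of the torus
-/

namespace LGR

open STZ MeasureTheory Matrix Filter

open scoped ComplexConjugate Matrix Real Topology

noncomputable section

namespace RADT

variable {N r : ℕ} {H : Subgroup (SU N)}

theorem ex_congr {X Y : Matrix (Fin N) (Fin N) ℂ} {s t : ℝ} (h : (s : ℂ) • X = (t : ℂ) • Y) :
    ex X s = ex Y t := by
  unfold ex
  by_cases hm : NormedSpace.exp ((s : ℂ) • X) ∈ Matrix.specialUnitaryGroup (Fin N) ℂ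
  · have hm' : NormedSpace.exp ((t : ℂ) • Y) ∈ Matrix.specialUnitaryGroup (Fin N) ℂ := h ▸ hm
    rw [dif_pos hm, dif_pos hm']
    exact Subtype.ext (congrArg NormedSpace.exp h)
  · have hm' : NormedSpace.exp ((t : ℂ) • Y) ∉ Matrix.specialUnitaryGroup (Fin N) ℂ := h ▸ hm
    rw [dif_neg hm, dif_neg hm']

theorem coe_exH {X : Matrix (Fin N) (Fin N) ℂ} (hX : X ∈ lie H) (t : ℝ) :
    (exH H X t).1 = ex X t := by
  unfold exH
  rw [dif_pos (hX.2 t)]

theorem ex_hx (Hc : Fin r → Matrix (Fin N) (Fin N) ℂ) (x : Fin r → ℝ) (t : ℝ) :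
    ex (hx Hc x) t = ta Hc (fun j => t / (2 * π) * x j) := by
  unfold ta
  apply ex_congr
  unfold hx
  rw [Finset.smul_sum, Finset.smul_sum]
  refine Finset.sum_congr rfl fun j _ => ?_
  rw [smul_smul, smul_smul]
  congr 1
  have h : 2 * π * (t / (2 * π) * x j) = t * x j := by
    field_simp
  change (t : ℂ) * ((x j : ℂ) * Complex.I) =
    ((1 : ℝ) : ℂ) * (((2 * π * (t / (2 * π) * x j) : ℝ) : ℂ) * Complex.I)
  rw [h]
  push_cast
  ring

theorem dz_add (μ : Fin r → ℤ) (θ x : Fin r → ℝ) (t : ℝ) :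
    dz μ (θ + fun j => t / (2 * π) * x j) = dz μ θ + t / (2 * π) * ∑ j, (μ j : ℝ) * x j := by
  unfold dz
  rw [Finset.mul_sum, ← Finset.sum_add_distrib]
  refine Finset.sum_congr rfl fun j _ => ?_
  rw [Pi.add_apply]
  ring

theorem eu_add (a t b : ℝ) :
    eu (a + t / (2 * π) * b) = eu a * Complex.exp ((t : ℂ) * (Complex.I * (b : ℂ))) := by
  unfold eu
  rw [← Complex.exp_add]
  congr 1
  have hπ : (π : ℂ) ≠ 0 := by exact_mod_cast Real.pi_ne_zero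
  push_cast
  field_simp

theorem main {Φ : RT r} {Hc : Fin r → Matrix (Fin N) (Fin N) ℂ}
    {E : (Fin r → ℤ) × (Fin r → ℤ) → Matrix (Fin N) (Fin N) ℂ} (hT : TAF H Φ Hc E)
    (S : Finset (Fin r → ℤ)) (c : (Fin r → ℤ) → ℂ) (F : H → ℂ)
    (hF : ∀ (g : H) (θ : Fin r → ℝ), g.1 = ta Hc θ → F g = ∑ μ ∈ S, c μ * eu (dz μ θ))
    (x : Fin r → ℝ) (g : H) (θ : Fin r → ℝ) (hg : g.1 = ta Hc θ) :
    dH (hx Hc x) F g =
      ∑ μ ∈ S, c μ * (Complex.I * ((∑ j, (μ j : ℝ) * x j : ℝ) : ℂ)) * eu (dz μ θ) := by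
  have h1 : (fun t : ℝ => F (g * exH H (hx Hc x) t)) = fun t : ℝ =>
      ∑ μ ∈ S, c μ * (eu (dz μ θ) *
        Complex.exp ((t : ℂ) * (Complex.I * ((∑ j, (μ j : ℝ) * x j : ℝ) : ℂ)))) := by
    funext t
    have h2 : (g * exH H (hx Hc x) t).1 = ta Hc (θ + fun j => t / (2 * π) * x j) := by
      rw [Subgroup.coe_mul, coe_exH (hT.hmem x) t, ex_hx, hg, hT.add]
    rw [hF _ _ h2]
    refine Finset.sum_congr rfl fun μ _ => ?_
    rw [dz_add, eu_add]
  unfold dH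
  rw [h1]
  have h3 : HasDerivAt (fun t : ℝ => ∑ μ ∈ S, c μ * (eu (dz μ θ) *
      Complex.exp ((t : ℂ) * (Complex.I * ((∑ j, (μ j : ℝ) * x j : ℝ) : ℂ)))))
      (∑ μ ∈ S, c μ * (Complex.I * ((∑ j, (μ j : ℝ) * x j : ℝ) : ℂ)) * eu (dz μ θ)) 0 := by
    apply HasDerivAt.fun_sum
    intro μ _
    have h4 : HasDerivAt (fun t : ℝ => (t : ℂ) * (Complex.I * ((∑ j, (μ j : ℝ) * x j : ℝ) : ℂ)))
        (Complex.I * ((∑ j, (μ j : ℝ) * x j : ℝ) : ℂ)) 0 := by
      have h5 := (Complex.ofRealCLM.hasDerivAt (x := (0 : ℝ))).mul_const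
        (Complex.I * ((∑ j, (μ j : ℝ) * x j : ℝ) : ℂ))
      simpa using h5
    have h6 := ((h4.cexp).const_mul (eu (dz μ θ))).const_mul (c μ)
    refine h6.congr_deriv ?_
    simp only [Complex.ofReal_zero, zero_mul, Complex.exp_zero, one_mul]
    ring
  exact h3.deriv

end RADT

theorem t_RADT : M_RADT := by
  intro hT N H r Φ B Hc E hc hL f m hf g θ hg x y
  have h := hT N H r Φ B Hc E hc hL
  have h1 := RADT.main h m.support (fun μ => (m μ : ℂ)) f (fun g θ hg => hf g θ hg)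
  refine ⟨h1 x g θ hg, ?_⟩
  have h2 := RADT.main h m.support
    (fun μ => (m μ : ℂ) * (Complex.I * ((∑ j, (μ j : ℝ) * y j : ℝ) : ℂ)))
    (dH (hx Hc y) f) (fun g θ hg => h1 y g θ hg) x g θ hg
  rw [h2]
  refine Finset.sum_congr rfl fun μ _ => ?_
  ring

end

end LGR
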