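import Pool.Agent.LGR.StD
import Pool.Agent.STZ.EXP

/-!
# Module REFH: the reflections in the Weyl group are realised by elements of `H`
-/

set_option autoImplicit false

namespace LGR

open STZ MeasureTheory Matrix Filter

open scoped ComplexConjugate Matrix Real Topology

noncomputable section

namespace REFH

variable {N : ℕ}

theorem exp_scalar (c : ℂ) :
    NormedSpace.exp (c • (1 : Matrix (Fin N) (Fin N) ℂ)) = Complex.exp c • 1 := by
  have h1 : c • (1 : Matrix (Fin N) (Fin N) ℂ) = diagonal fun _ => c := by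
    rw [← Matrix.diagonal_one, ← Matrix.diagonal_smul]
    congr 1
    funext i
    simp
  rw [h1, Matrix.exp_diagonal]
  have h2 : (NormedSpace.exp fun _ : Fin N => c) = fun _ : Fin N => Complex.exp c := by
    funext i
    rw [Pi.coe_exp, Complex.exp_eq_exp_ℂ]
  rw [h2, ← Matrix.diagonal_one, ← Matrix.diagonal_smul]
  congr 1
  funext i
  simp

set_option backward.isDefEq.respectTransparency false in
open scoped Matrix.Norms.Operator in
theorem semiconj_exp {Z A B : Matrix (Fin N) (Fin N) ℂ} (h : Z * B = A * Z) :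
    Z * NormedSpace.exp B = NormedSpace.exp A * Z :=
  (SemiconjBy.exp_right (x := Z) (a := B) (b := A) h)

/-- eigenvectors of `ad A` are eigenvectors of the conjugation by `exp A` -/
theorem exp_eigen {A Z : Matrix (Fin N) (Fin N) ℂ} {c : ℂ} (h : A * Z - Z * A = c • Z) :
    NormedSpace.exp A * Z = Complex.exp c • (Z * NormedSpace.exp A) := by
  have h1 : Z * (A + c • (1 : Matrix (Fin N) (Fin N) ℂ)) = A * Z := by
    rw [mul_add, mul_smul_comm, mul_one, ← h]
    abel
  have h2 := semiconj_exp h1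
  rw [Matrix.exp_add_of_commute _ _ ((Commute.one_right A).smul_right c), exp_scalar,
    mul_smul_comm, mul_smul_comm, mul_one] at h2
  exact h2.symm

theorem mul_conj_one (n : SU N) : n.1 * n.1ᴴ = 1 := by
  have h := (Matrix.mem_specialUnitaryGroup_iff.1 n.2).1
  have h2 := (Matrix.mem_unitaryGroup_iff).1 h
  rwa [Matrix.star_eq_conjTranspose] at h2

/-- conjugation by the one-parameter group -/
theorem conj_ex {A Z : Matrix (Fin N) (Fin N) ℂ} (hA : A ∈ su N) {t : ℝ} {c : ℂ}
    (h : A * Z - Z * A = c • Z) :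
    (ex A t).1 * Z * (ex A t).1ᴴ = Complex.exp (t * c) • Z := by
  have h1 : ((t : ℂ) • A) * Z - Z * ((t : ℂ) • A) = ((t : ℂ) * c) • Z := by
    rw [smul_mul_assoc, mul_smul_comm, ← smul_sub, h, smul_smul]
  have h2 := exp_eigen h1
  rw [← (t_EXP N A hA).coe t] at h2
  rw [h2, smul_mul_assoc, mul_assoc, mul_conj_one, mul_one]

end REFH

open REFH in
theorem t_REFH : M_REFH := by
  intro hT N H r Φ B Hc E hH hL p hp
  have hTA := hT N H r Φ B Hc E hH hL
  set e := E p with he
  set h : Matrix (Fin N) (Fin N) ℂ := ∑ j, (p.2 j : ℂ) • Hc j with hh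
  have hhst : hᴴ = h := by
    rw [hh, Matrix.conjTranspose_sum]
    refine Finset.sum_congr rfl fun j _ => ?_
    rw [Matrix.conjTranspose_smul, hL.herm j]
    congr 1
    simp
  have hcor : e * eᴴ - eᴴ * e = h := hL.cor p hp
  have htwo : (∑ j, (p.2 j : ℂ) * (p.1 j : ℂ)) = 2 := by
    have h1 := hL.ird.two p hp
    have h2 : ((p.2 ⬝ᵥ p.1 : ℤ) : ℂ) = ((2 : ℤ) : ℂ) := by rw [h1]
    rw [dotProduct] at h2
    push_cast at h2
    exact h2
  -- the commutators with `e`
  have hhe : h * e - e * h = (2 : ℂ) • e := by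
    rw [hh, Finset.sum_mul, Finset.mul_sum, ← Finset.sum_sub_distrib, ← htwo, Finset.sum_smul]
    refine Finset.sum_congr rfl fun j _ => ?_
    rw [smul_mul_assoc, mul_smul_comm, ← smul_sub, hL.ead p hp j, smul_smul]
  have hhe' : h * eᴴ - eᴴ * h = -((2 : ℂ) • eᴴ) := by
    have h1 := congrArg Matrix.conjTranspose hhe
    rw [Matrix.conjTranspose_sub, Matrix.conjTranspose_mul, Matrix.conjTranspose_mul, hhst,
      Matrix.conjTranspose_smul] at h1
    have h2 : star (2 : ℂ) = 2 := by simp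
    rw [h2] at h1
    rw [← h1]
    abel
  set A := e - eᴴ with hA
  have hAl : A ∈ lie H := (hL.emem p hp).1
  have hAsu : A ∈ su N := hAl.1
  -- the eigenvectors
  have hZ : ∀ c : ℂ, c * c = -1 → A * (h + c • (e + eᴴ)) - (h + c • (e + eᴴ)) * A =
      (2 * c) • (h + c • (e + eᴴ)) := by
    intro c hc
    have h1 : A * h - h * A = -((2 : ℂ) • (e + eᴴ)) := by
      have h2 : A * h - h * A = -(h * e - e * h) + (h * eᴴ - eᴴ * h) := by
        rw [hA]
        noncomm_ring
      rw [h2, hhe, hhe', smul_add]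
      abel
    have h3 : A * (e + eᴴ) - (e + eᴴ) * A = (2 : ℂ) • h := by
      have h2 : A * (e + eᴴ) - (e + eᴴ) * A = (e * eᴴ - eᴴ * e) + (e * eᴴ - eᴴ * e) := by
        rw [hA]
        noncomm_ring
      rw [h2, hcor, two_smul]
    have h4 : A * (h + c • (e + eᴴ)) - (h + c • (e + eᴴ)) * A =
        (A * h - h * A) + c • (A * (e + eᴴ) - (e + eᴴ) * A) := by
      rw [mul_add, add_mul, mul_smul_comm, smul_mul_assoc, smul_sub]
      abel
    have h5 : (2 * c * c : ℂ) = -2 := by
      rw [mul_assoc, hc]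
      ring
    rw [h4, h1, h3, smul_add (2 * c) h, smul_smul (2 * c) c, h5, neg_smul, smul_smul c 2,
      mul_comm c 2]
    abel
  refine ⟨ex A (π / 2), hAl.2 _, fun x => ?_⟩
  have hexp1 : Complex.exp (((π / 2 : ℝ) : ℂ) * (2 * Complex.I)) = -1 := by
    have h1 : ((π / 2 : ℝ) : ℂ) * (2 * Complex.I) = π * Complex.I := by
      push_cast
      ring
    rw [h1, Complex.exp_pi_mul_I]
  have hexp2 : Complex.exp (((π / 2 : ℝ) : ℂ) * (2 * -Complex.I)) = -1 := by
    have h1 : ((π / 2 : ℝ) : ℂ) * (2 * -Complex.I) = -(π * Complex.I) := by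
      push_cast
      ring
    rw [h1, Complex.exp_neg, Complex.exp_pi_mul_I]
    norm_num
  have hI : Complex.I * Complex.I = -1 := Complex.I_mul_I
  have hI' : -Complex.I * -Complex.I = -1 := by rw [neg_mul_neg, Complex.I_mul_I]
  have hconj_h : (ex A (π / 2)).1 * h * (ex A (π / 2)).1ᴴ = -h := by
    have h1 := conj_ex hAsu (t := π / 2) (hZ Complex.I hI)
    have h2 := conj_ex hAsu (t := π / 2) (hZ (-Complex.I) hI')
    rw [hexp1, neg_one_smul] at h1
    rw [hexp2, neg_one_smul] at h2
    have h3 : (h + Complex.I • (e + eᴴ)) + (h + (-Complex.I) • (e + eᴴ)) = (2 : ℂ) • h := by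
      rw [neg_smul, two_smul]
      abel
    have h4 : (ex A (π / 2)).1 * ((2 : ℂ) • h) * (ex A (π / 2)).1ᴴ = -((2 : ℂ) • h) := by
      rw [← h3, mul_add, add_mul, h1, h2]
      abel
    rw [mul_smul_comm, smul_mul_assoc, ← smul_neg] at h4
    exact smul_right_injective _ (two_ne_zero) h4
  -- the part which commutes
  set c : ℝ := ∑ i, (p.1 i : ℝ) * x i with hc
  have hX := hTA.ade p hp x
  have hXst : (hx Hc x)ᴴ = -hx Hc x := (hTA.hmem x).1.1
  have hX' : hx Hc x * eᴴ - eᴴ * hx Hc x = -(((c : ℂ) * Complex.I) • eᴴ) := by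
    have h1 := congrArg Matrix.conjTranspose hX
    rw [Matrix.conjTranspose_sub, Matrix.conjTranspose_mul, Matrix.conjTranspose_mul, hXst,
      Matrix.conjTranspose_smul] at h1
    have h2 : star ((c : ℂ) * Complex.I) = -((c : ℂ) * Complex.I) := by
      rw [Complex.star_def, map_mul, Complex.conj_ofReal, Complex.conj_I, mul_neg]
    rw [← hc, h2, neg_smul] at h1
    rw [← h1]
    noncomm_ring
  set X' := hx Hc x - ((c : ℂ) * Complex.I / 2) • h with hX'def
  have hXe : X' * e - e * X' = 0 := by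
    have h1 : X' * e - e * X' = (hx Hc x * e - e * hx Hc x) -
        ((c : ℂ) * Complex.I / 2) • (h * e - e * h) := by
      rw [hX'def, sub_mul, mul_sub, smul_mul_assoc, mul_smul_comm, smul_sub]
      abel
    rw [h1, hX, hhe, smul_smul, ← hc, ← sub_smul]
    have h2 : (c : ℂ) * Complex.I - (c : ℂ) * Complex.I / 2 * 2 = 0 := by ring
    rw [h2, zero_smul]
  have hXe' : X' * eᴴ - eᴴ * X' = 0 := by
    have h1 : X' * eᴴ - eᴴ * X' = (hx Hc x * eᴴ - eᴴ * hx Hc x) -
        ((c : ℂ) * Complex.I / 2) • (h * eᴴ - eᴴ * h) := by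
      rw [hX'def, sub_mul, mul_sub, smul_mul_assoc, mul_smul_comm, smul_sub]
      abel
    rw [h1, hX', hhe', smul_neg, smul_smul]
    have h2 : (c : ℂ) * Complex.I / 2 * 2 = (c : ℂ) * Complex.I := by ring
    rw [h2]
    abel
  have hXA : A * X' - X' * A = (0 : ℂ) • X' := by
    have h1 : A * X' - X' * A = -(X' * e - e * X') + (X' * eᴴ - eᴴ * X') := by
      rw [hA]
      noncomm_ring
    rw [h1, hXe, hXe', zero_smul]
    simp
  have hconj_X' : (ex A (π / 2)).1 * X' * (ex A (π / 2)).1ᴴ = X' := by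
    have h1 := conj_ex hAsu (t := π / 2) hXA
    rw [mul_zero, Complex.exp_zero, one_smul] at h1
    exact h1
  have hdec : hx Hc x = X' + ((c : ℂ) * Complex.I / 2) • h := by
    rw [hX'def]
    abel
  have hgoal : hx Hc (fun j => x j - c * p.2 j) = X' - ((c : ℂ) * Complex.I / 2) • h := by
    have h1 : hx Hc (fun j => x j - c * p.2 j) = hx Hc x - ((c : ℂ) * Complex.I) • h := by
      rw [hh, hx, hx, Finset.smul_sum, ← Finset.sum_sub_distrib]
      refine Finset.sum_congr rfl fun j _ => ?_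
      rw [smul_smul, ← sub_smul]
      congr 1
      push_cast
      ring
    rw [h1, hX'def]
    have h2 : ((c : ℂ) * Complex.I) • h = ((c : ℂ) * Complex.I / 2) • h +
        ((c : ℂ) * Complex.I / 2) • h := by
      rw [← add_smul]
      congr 1
      ring
    rw [h2]
    abel
  rw [hgoal, hdec, mul_add, add_mul, hconj_X', mul_smul_comm, smul_mul_assoc, hconj_h, smul_neg,
    sub_eq_add_neg]

end

end LGR
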