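import Pool.Agent.LGR.StV

/-!
# Symmetric spaces: module REGP, regular elements of a maximal abelian subspace
-/

namespace LGR

open STZ MeasureTheory Matrix Filter

open scoped ComplexConjugate Matrix Real Topology ComplexOrder

noncomputable section

namespace REGP

theorem rs {N : ℕ} (s : ℝ) (X : Matrix (Fin N) (Fin N) ℂ) : s • X = (s : ℂ) • X := by
  ext i j
  simp

/-- the centraliser of `B` in the tangent space -/
def Zc {N : ℕ} (H : Subgroup (SU N)) (L : LIF H)
    (τ : Matrix (Fin N) (Fin N) ℂ →ₗ[ℝ] Matrix (Fin N) (Fin N) ℂ) (B : Matrix (Fin N) (Fin N) ℂ) :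
    Submodule ℝ (Matrix (Fin N) (Fin N) ℂ) where
  carrier := {X | X ∈ lie H ∧ τ X = -X ∧ X * B = B * X}
  add_mem' := by
    rintro X Y ⟨h1, h2, h3⟩ ⟨k1, k2, k3⟩
    refine ⟨L.add X h1 Y k1, ?_, ?_⟩
    · rw [map_add, h2, k2, neg_add]
    · rw [Matrix.add_mul, Matrix.mul_add, h3, k3]
  zero_mem' := ⟨L.zero, by simp, by simp⟩
  smul_mem' := by
    rintro s X ⟨h1, h2, h3⟩
    refine ⟨?_, ?_, ?_⟩
    · rw [rs]
      exact L.smul s X h1
    · rw [map_smul, h2, smul_neg]
    · rw [Matrix.smul_mul, Matrix.mul_smul, h3]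

theorem mem_Zc {N : ℕ} {H : Subgroup (SU N)} {L : LIF H}
    {τ : Matrix (Fin N) (Fin N) ℂ →ₗ[ℝ] Matrix (Fin N) (Fin N) ℂ} {B X : Matrix (Fin N) (Fin N) ℂ} :
    X ∈ Zc H L τ B ↔ X ∈ lie H ∧ τ X = -X ∧ X * B = B * X := Iff.rfl

/-- a skew-Hermitian matrix with `tr (C C) = 0` is zero -/
theorem zero_of {N : ℕ} (C : Matrix (Fin N) (Fin N) ℂ) (hC : Cᴴ = -C) (h : (C * C).trace = 0) :
    C = 0 := by
  have h1 : (Cᴴ * C).trace = 0 := by rw [hC, Matrix.neg_mul, Matrix.trace_neg, h, neg_zero]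
  exact Matrix.trace_conjTranspose_mul_self_eq_zero_iff.1 h1

/-- `tr ([B, C] D) = - tr (C [B, D])` -/
theorem tr_inv {N : ℕ} (B C D : Matrix (Fin N) (Fin N) ℂ) :
    ((B * C - C * B) * D).trace = -(C * (B * D - D * B)).trace := by
  have h : (B * C * D).trace = (C * D * B).trace := by
    rw [Matrix.trace_mul_cycle, Matrix.trace_mul_cycle]
  rw [Matrix.sub_mul, Matrix.trace_sub, h, Matrix.mul_sub, Matrix.trace_sub, Matrix.mul_assoc,
    Matrix.mul_assoc]
  ring

/-- orthogonality of the brackets for different parameters -/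
theorem orth {N : ℕ} {B Y x y : Matrix (Fin N) (Fin N) ℂ} {s t : ℝ} (hBY : B * Y = Y * B)
    (hx : x * (B + s • Y) = (B + s • Y) * x) (hy : y * (B + t • Y) = (B + t • Y) * y)
    (hst : s ≠ t) : ((Y * x - x * Y) * (Y * y - y * Y)).trace = 0 := by
  have h1 : B * x - x * B = -((s : ℂ) • (Y * x - x * Y)) := by
    rw [rs, Matrix.mul_add, Matrix.add_mul, Matrix.mul_smul, Matrix.smul_mul] at hx
    have : B * x - x * B = (s : ℂ) • (x * Y) - (s : ℂ) • (Y * x) := by
      rw [sub_eq_sub_iff_add_eq_add, ← hx]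
      abel
    rw [this, ← smul_sub, ← smul_neg, neg_sub]
  have h2 : B * y - y * B = -((t : ℂ) • (Y * y - y * Y)) := by
    rw [rs, Matrix.mul_add, Matrix.add_mul, Matrix.mul_smul, Matrix.smul_mul] at hy
    have : B * y - y * B = (t : ℂ) • (y * Y) - (t : ℂ) • (Y * y) := by
      rw [sub_eq_sub_iff_add_eq_add, ← hy]
      abel
    rw [this, ← smul_sub, ← smul_neg, neg_sub]
  have h3 : ((B * x - x * B) * (Y * y - y * Y)).trace
      = ((Y * x - x * Y) * (B * y - y * B)).trace := by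
    rw [tr_inv, tr_inv]
    congr 2
    have e : B * (Y * y - y * Y) - (Y * y - y * Y) * B
        = Y * (B * y - y * B) - (B * y - y * B) * Y := by
      have e1 : B * (Y * y) = Y * (B * y) := by
        rw [← Matrix.mul_assoc, hBY, Matrix.mul_assoc]
      have e2 : y * Y * B = y * B * Y := by
        rw [Matrix.mul_assoc, ← hBY, Matrix.mul_assoc]
      rw [Matrix.mul_sub, Matrix.sub_mul, Matrix.mul_sub, Matrix.sub_mul, e1, e2,
        ← Matrix.mul_assoc B y Y, ← Matrix.mul_assoc Y y B]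
      abel
    rw [e]
  rw [h1, h2, Matrix.neg_mul, Matrix.mul_neg, Matrix.smul_mul, Matrix.mul_smul, Matrix.trace_neg,
    Matrix.trace_neg, Matrix.trace_smul, Matrix.trace_smul, smul_eq_mul, smul_eq_mul] at h3
  have h4 : ((s : ℂ) - t) * ((Y * x - x * Y) * (Y * y - y * Y)).trace = 0 := by
    linear_combination -h3
  rcases mul_eq_zero.1 h4 with h | h
  · exact absurd (by exact_mod_cast sub_eq_zero.1 h) hst
  · exact h

/-- for some `s` everything which commutes with `B + s Y` commutes with `Y` -/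
theorem exists_s {N : ℕ} (H : Subgroup (SU N)) (L : LIF H) {B Y : Matrix (Fin N) (Fin N) ℂ}
    (hY : Y ∈ lie H) (hBY : B * Y = Y * B) :
    ∃ s : ℝ, ∀ x ∈ lie H, x * (B + s • Y) = (B + s • Y) * x → Y * x = x * Y := by
  by_contra hcon
  push Not at hcon
  choose x hx1 hx2 hx3 using hcon
  have hli : LinearIndependent ℂ (fun s : ℝ => Y * x s - x s * Y) := by
    rw [linearIndependent_iff']
    intro T g hg i hi
    have h1 : ((∑ j ∈ T, g j • (Y * x j - x j * Y)) * (Y * x i - x i * Y)).trace = 0 := by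
      rw [hg, Matrix.zero_mul, Matrix.trace_zero]
    rw [Finset.sum_mul, Matrix.trace_sum, Finset.sum_eq_single i] at h1
    · rw [Matrix.smul_mul, Matrix.trace_smul, smul_eq_mul] at h1
      rcases mul_eq_zero.1 h1 with h | h
      · exact h
      · exfalso
        apply hx3 i
        have h2 := L.br Y hY (x i) (hx1 i)
        exact sub_eq_zero.1 (zero_of _ (L.su _ h2).1 h)
    · intro j _ hj
      rw [Matrix.smul_mul, Matrix.trace_smul, orth hBY (hx2 j) (hx2 i) hj, smul_zero]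
    · intro h
      exact absurd hi h
  have hfin : Finite ℝ := hli.finite
  exact not_finite ℝ

end REGP

open REGP in
theorem t_REGP : M_REGP := by
  intro hL N H K σ τ A hH hS hM
  have L : LIF H := hL N H hH
  have hex : ∃ n : ℕ, ∃ B ∈ A, Module.finrank ℝ (Zc H L τ B) = n := ⟨_, 0, A.zero_mem, rfl⟩
  classical
  obtain ⟨B, hB, hBn⟩ := Nat.find_spec hex
  have hmin : ∀ B' ∈ A, Module.finrank ℝ (Zc H L τ B) ≤ Module.finrank ℝ (Zc H L τ B') := by
    intro B' hB'
    rw [hBn]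
    exact Nat.find_min' hex ⟨B', hB', rfl⟩
  refine ⟨B, hB, ?_⟩
  intro X hX hXt hXB
  by_contra hXA
  have h1 : ∃ Y ∈ A, X * Y ≠ Y * X := by
    by_contra hcon
    push Not at hcon
    exact hXA (hM.max X hX hXt hcon)
  obtain ⟨Y, hYA, hXY⟩ := h1
  obtain ⟨s, hs⟩ := exists_s H L (B := B) (hM.sub Y hYA) (hM.comm B hB Y hYA)
  have hlt : Zc H L τ (B + s • Y) < Zc H L τ B := by
    rw [SetLike.lt_iff_le_and_exists]
    constructor
    · intro Z hZ
      rw [mem_Zc] at hZ ⊢
      obtain ⟨z1, z2, z3⟩ := hZ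
      refine ⟨z1, z2, ?_⟩
      have h2 := hs Z z1 z3
      rw [Matrix.mul_add, Matrix.add_mul, Matrix.mul_smul, Matrix.smul_mul, h2] at z3
      exact add_right_cancel z3
    · refine ⟨X, mem_Zc.2 ⟨hX, hXt, hXB⟩, ?_⟩
      intro hcon
      rw [mem_Zc] at hcon
      exact hXY (hs X hX hcon.2.2).symm
  have h3 := Submodule.finrank_lt_finrank_of_lt hlt
  have h4 := hmin (B + s • Y) (A.add_mem hB (A.smul_mem s hYA))
  omega

end

end LGR
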