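import Pool.Agent.LGR.StA

/-!
# LGR: the sum of the positive roots
-/

namespace LGR

open STZ MeasureTheory Matrix Filter

open scoped ComplexConjugate Matrix Real Topology

namespace RHOF

variable {r : ℕ} {Φ : RT r} {B : Matrix (Fin r) (Fin r) ℤ}

/-- the simple reflection on pairs -/
def sr (B : Matrix (Fin r) (Fin r) ℤ) (i : Fin r) (p : (Fin r → ℤ) × (Fin r → ℤ)) :
    (Fin r → ℤ) × (Fin r → ℤ) :=
  (p.1 - p.1 i • B i, p.2 - (p.2 ⬝ᵥ B i) • Pi.single i 1)

lemma Bii (h : IRD Φ B) (i : Fin r) : B i i = 2 := by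
  have h1 := h.two _ (h.base i)
  simpa using h1

lemma a_mem (h : IRD Φ B) (i : Fin r) :
    ((B i, Pi.single i 1) : (Fin r → ℤ) × (Fin r → ℤ)) ∈ pos Φ := by
  unfold pos
  rw [Finset.mem_filter]
  refine ⟨h.base i, fun j => ?_⟩
  by_cases hj : j = i
  · subst hj
    simp
  · simp [Pi.single_eq_of_ne hj]

lemma sr_sr (h : IRD Φ B) (i : Fin r) (p : (Fin r → ℤ) × (Fin r → ℤ)) :
    sr B i (sr B i p) = p := by
  have hB := Bii h i
  unfold sr
  ext j
  · simp only [Pi.sub_apply, Pi.smul_apply, smul_eq_mul, hB]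
    ring
  · simp only [Pi.sub_apply, Pi.smul_apply, smul_eq_mul, sub_dotProduct, smul_dotProduct,
      single_dotProduct, hB, one_mul]
    ring

lemma sr_mem (h : IRD Φ B) (hw : WFF Φ B) (i : Fin r) :
    ∀ p ∈ (pos Φ).erase (B i, Pi.single i 1),
      sr B i p ∈ (pos Φ).erase (B i, Pi.single i 1) := by
  intro p hp
  rw [Finset.mem_erase] at hp ⊢
  refine ⟨?_, hw.simp i p hp.2 hp.1⟩
  intro he
  have h1 : p = sr B i (B i, Pi.single i 1) := by
    rw [← he, sr_sr h]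
  have h2 : 0 ≤ p.2 i := (Finset.mem_filter.mp hp.2).2 i
  rw [h1] at h2
  simp [sr, Bii h i] at h2

lemma sum_sr {M : Type*} [AddCommMonoid M] (h : IRD Φ B) (hw : WFF Φ B) (i : Fin r)
    (f : (Fin r → ℤ) × (Fin r → ℤ) → M) :
    ∑ p ∈ (pos Φ).erase (B i, Pi.single i 1), f (sr B i p) =
      ∑ p ∈ (pos Φ).erase (B i, Pi.single i 1), f p := by
  refine Finset.sum_nbij' (sr B i) (sr B i) (sr_mem h hw i) (sr_mem h hw i) ?_ ?_ ?_
  · intro p _
    exact sr_sr h i p
  · intro p _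
    exact sr_sr h i p
  · intro p _
    rfl

lemma sum1 (h : IRD Φ B) (hw : WFF Φ B) (i : Fin r) : ∑ p ∈ pos Φ, p.1 i = 2 := by
  have h1 := sum_sr h hw i (fun p => p.1 i)
  simp only [sr, Pi.sub_apply, Pi.smul_apply, smul_eq_mul, Bii h i] at h1
  rw [Finset.sum_sub_distrib, ← Finset.sum_mul] at h1
  have h2 := Finset.add_sum_erase (pos Φ) (fun p => p.1 i) (a_mem h i)
  simp only [Bii h i] at h2
  rw [← h2]
  linarith

lemma sum2 (h : IRD Φ B) (hw : WFF Φ B) (i : Fin r) : ∑ p ∈ pos Φ, p.2 ⬝ᵥ B i = 2 := by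
  have h1 := sum_sr h hw i (fun p => p.2 ⬝ᵥ B i)
  simp only [sr, sub_dotProduct, smul_dotProduct, single_dotProduct, Bii h i, smul_eq_mul,
    one_mul] at h1
  rw [Finset.sum_sub_distrib, ← Finset.sum_mul] at h1
  have h2 := Finset.add_sum_erase (pos Φ) (fun p => p.2 ⬝ᵥ B i) (a_mem h i)
  simp only [single_dotProduct, Bii h i, one_mul] at h2
  rw [← h2]
  linarith

end RHOF

theorem t_RHOF : S_RHOF := by
  intro r Φ B h hw
  refine ⟨?_, RHOF.sum2 h hw, ?_⟩
  · funext i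
    rw [Finset.sum_apply]
    exact RHOF.sum1 h hw i
  · intro q hq
    obtain ⟨hqm, _, _, n, hn, hn0⟩ := hw.ppos q hq
    have h1 : ∑ p ∈ pos Φ, p.2 ⬝ᵥ q.1 = 2 * ∑ k, n k := by
      rw [hn]
      simp only [dotProduct_sum, dotProduct_smul, smul_eq_mul]
      rw [Finset.sum_comm, Finset.mul_sum]
      refine Finset.sum_congr rfl fun k _ => ?_
      rw [← Finset.mul_sum, RHOF.sum2 h hw k]
      ring
    rw [h1]
    have h2 : 1 ≤ ∑ k, n k := by
      by_contra hlt
      have h3 : ∑ k, n k = 0 := le_antisymm (by omega) (Finset.sum_nonneg fun k _ => hn0 k)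
      have h4 : ∀ k, n k = 0 := fun k =>
        (Finset.sum_eq_zero_iff_of_nonneg (fun k _ => hn0 k)).mp h3 k (Finset.mem_univ k)
      have h5 : q.1 = 0 := by
        rw [hn]
        exact Finset.sum_eq_zero fun k _ => by rw [h4 k, zero_smul]
      have h6 := h.two q hqm
      rw [h5, dotProduct_zero] at h6
      norm_num at h6
    linarith

end LGR
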