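import Pool.Agent.LGR.StL

/-!
# LGR: normalised root vectors
-/

namespace LGR

open STZ MeasureTheory Matrix Filter

open scoped ComplexConjugate Matrix Real Topology

noncomputable section

attribute [local instance 100] LieRing.ofAssociativeRing

namespace ROVE

/-- the number `tr (A Aᴴ)` is real and positive -/
lemma tr_pos {n : ℕ} (A : Matrix (Fin n) (Fin n) ℂ) (hA : A ≠ 0) :
    ∃ r : ℝ, 0 < r ∧ (A * Aᴴ).trace = (r : ℂ) := by
  refine ⟨∑ i, ∑ j, Complex.normSq (A i j), ?_, ?_⟩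
  · have h0 : ∀ i, 0 ≤ ∑ j, Complex.normSq (A i j) :=
      fun i => Finset.sum_nonneg fun j _ => Complex.normSq_nonneg _
    have h1 : 0 ≤ ∑ i, ∑ j, Complex.normSq (A i j) := Finset.sum_nonneg fun i _ => h0 i
    rcases lt_or_eq_of_le h1 with h | h
    · exact h
    · exfalso
      apply hA
      have h2 := (Finset.sum_eq_zero_iff_of_nonneg (fun i _ => h0 i)).1 h.symm
      ext i j
      have h3 := (Finset.sum_eq_zero_iff_of_nonneg
        (fun j _ => Complex.normSq_nonneg (A i j))).1 (h2 i (Finset.mem_univ i)) j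
        (Finset.mem_univ j)
      simpa using h3
  · rw [Matrix.trace]
    push_cast
    refine Finset.sum_congr rfl fun i _ => ?_
    rw [Matrix.diag_apply, Matrix.mul_apply]
    refine Finset.sum_congr rfl fun j _ => ?_
    rw [Matrix.conjTranspose_apply, Complex.star_def, Complex.mul_conj]

end ROVE

open LieAlgebra LieAlgebra.IsKilling in
theorem t_ROVE : S_ROVE := by
  intro N H hH hF _ C _ hC α hα
  obtain ⟨h0, e0, f0, ht, he0, hf0⟩ := exists_isSl2Triple_of_weight_isNonZero hα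
  have hh0 : h0 = coroot α := ht.h_eq_coroot hα he0 hf0
  -- the conjugate transpose on `LC H`
  let st : LC H → LC H := fun Z => ⟨(Z : Matrix (Fin N) (Fin N) ℂ)ᴴ, hF.star Z Z.2⟩
  have hst : ∀ Z : LC H, (st Z : Matrix (Fin N) (Fin N) ℂ) = (Z : Matrix (Fin N) (Fin N) ℂ)ᴴ :=
    fun Z => rfl
  have hbr : ∀ Z W : LC H, ((⁅Z, W⁆ : LC H) : Matrix (Fin N) (Fin N) ℂ) =
      (Z : Matrix (Fin N) (Fin N) ℂ) * W - (W : Matrix (Fin N) (Fin N) ℂ) * Z := fun Z W => rfl
  have he0ne : (e0 : Matrix (Fin N) (Fin N) ℂ) ≠ 0 := by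
    intro h
    have h1 : e0 = 0 := Subtype.ext h
    exact ht.e_ne_zero h1
  obtain ⟨r, hr, hre⟩ := ROVE.tr_pos _ he0ne
  -- `α` at the conjugate transpose
  have hact : ∀ Z : C, (Z : LC H).1 * e0.1 - e0.1 * (Z : LC H).1 = α Z • e0.1 := by
    intro Z
    have h1 := lie_eq_smul_of_mem_rootSpace he0 Z
    have h2 := congrArg (fun W : LC H => (W : Matrix (Fin N) (Fin N) ℂ)) h1
    exact h2
  have htr : ∀ Z : C, α Z * (r : ℂ) = ((Z : LC H).1 * (e0.1 * e0.1ᴴ)).trace -
      (e0.1 * (Z : LC H).1 * e0.1ᴴ).trace := by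
    intro Z
    have h1 := congrArg (fun W => (W * e0.1ᴴ).trace) (hact Z)
    simp only [Matrix.sub_mul, Matrix.trace_sub, Matrix.smul_mul, Matrix.trace_smul, smul_eq_mul]
      at h1
    rw [hre, Matrix.mul_assoc] at h1
    exact h1.symm
  have hconj : ∀ Z W : C, (W : LC H).1 = (Z : LC H).1ᴴ → α W = conj (α Z) := by
    intro Z W hW
    have h1 := htr Z
    have h2 := htr W
    have h3 : conj (α Z * (r : ℂ)) = α W * (r : ℂ) := by
      rw [h1, h2, map_sub, ← Complex.star_def, ← Matrix.trace_conjTranspose,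
        ← Matrix.trace_conjTranspose, hW]
      congr 1
      · rw [Matrix.conjTranspose_mul, Matrix.conjTranspose_mul, Matrix.conjTranspose_conjTranspose,
          Matrix.trace_mul_comm]
      · rw [Matrix.conjTranspose_mul, Matrix.conjTranspose_mul, Matrix.conjTranspose_conjTranspose,
          Matrix.mul_assoc]
    rw [map_mul, Complex.conj_ofReal] at h3
    have hr0 : (r : ℂ) ≠ 0 := by exact_mod_cast hr.ne'
    exact (mul_right_cancel₀ hr0 h3).symm
  -- `e0ᴴ` is a root vector for `-α`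
  have hfm : st e0 ∈ rootSpace C (-α : C → ℂ) := by
    refine LieModule.weightSpace_le_genWeightSpace (LC H) _ ?_
    rw [LieModule.mem_weightSpace]
    intro Z
    -- the conjugate transpose of `Z` in `C`
    have hZ : st (Z : LC H) ∈ C := hC Z Z.2 _ rfl
    have h1 := hact ⟨st (Z : LC H), hZ⟩
    have h2 := hconj Z ⟨st (Z : LC H), hZ⟩ rfl
    rw [h2] at h1
    have h3 := congrArg Matrix.conjTranspose h1
    rw [Matrix.conjTranspose_sub, Matrix.conjTranspose_mul, Matrix.conjTranspose_mul,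
      Matrix.conjTranspose_smul] at h3
    apply Subtype.ext
    change (Z : LC H).1 * e0.1ᴴ - e0.1ᴴ * (Z : LC H).1 = (-α Z) • e0.1ᴴ
    have h4 : (((⟨st (Z : LC H), hZ⟩ : C) : LC H).1)ᴴ = (Z : LC H).1 :=
      Matrix.conjTranspose_conjTranspose _
    rw [h4] at h3
    have h5 : star (conj (α Z)) = α Z := by
      rw [← Complex.star_def, star_star]
    rw [h5] at h3
    rw [neg_smul, ← h3]
    abel
  -- the root space is one-dimensional
  have hone : Module.finrank ℂ (rootSpace C (-α : C → ℂ)) = 1 := by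
    have hα' : (-α).IsNonZero := by
      simpa using hα
    have h1 := finrank_rootSpace_eq_one (-α) hα'
    rwa [LieModule.Weight.coe_neg] at h1
  have hf0ne : (⟨f0, hf0⟩ : rootSpace C (-α : C → ℂ)) ≠ 0 := by
    intro h
    exact ht.f_ne_zero (congrArg Subtype.val h)
  obtain ⟨c, hc⟩ := (finrank_eq_one_iff_of_nonzero' _ hf0ne).1 hone ⟨st e0, hfm⟩
  have hc1 : c • f0 = st e0 := congrArg Subtype.val hc
  -- the bracket
  have hbe : ⁅e0, st e0⁆ = c • h0 := by
    rw [← hc1, lie_smul, ht.lie_e_f]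
  have hsne : st e0 ≠ 0 := by
    intro h
    have h1 : e0.1ᴴ = 0 := congrArg Subtype.val h
    rw [Matrix.conjTranspose_eq_zero] at h1
    exact he0ne h1
  have hc0 : c ≠ 0 := by
    rintro rfl
    rw [zero_smul] at hc1
    exact hsne hc1.symm
  have hh' : (c • h0 : LC H) ≠ 0 := smul_ne_zero hc0 ht.h_ne_zero
  have hh'm : (c • h0 : LC H).1 = e0.1 * e0.1ᴴ - e0.1ᴴ * e0.1 := by
    rw [← hbe]
    rfl
  have hh'ne : (c • h0 : LC H).1 ≠ 0 := fun h => hh' (Subtype.ext h)
  obtain ⟨s, hs, hse⟩ := ROVE.tr_pos _ hh'ne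
  have hherm : (c • h0 : LC H).1ᴴ = (c • h0 : LC H).1 := by
    rw [hh'm, Matrix.conjTranspose_sub, Matrix.conjTranspose_mul, Matrix.conjTranspose_mul,
      Matrix.conjTranspose_conjTranspose]
  have hlhe : ⁅(c • h0 : LC H), e0⁆ = (2 * c) • e0 := by
    rw [smul_lie, ht.lie_h_e_nsmul, two_smul, ← two_smul ℂ e0, smul_smul, mul_comm]
  have hcr : 2 * c * (r : ℂ) = (s : ℂ) := by
    have h1 : (c • h0 : LC H).1 * e0.1 - e0.1 * (c • h0 : LC H).1 = (2 * c) • e0.1 :=
      congrArg Subtype.val hlhe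
    have h2 := congrArg (fun W => (W * e0.1ᴴ).trace) h1
    simp only [Matrix.smul_mul, Matrix.trace_smul, smul_eq_mul] at h2
    rw [hre] at h2
    rw [← h2, ← hse, hherm, Matrix.sub_mul, Matrix.trace_sub]
    have h3 : (c • h0 : LC H).1 * (c • h0 : LC H).1 =
        (c • h0 : LC H).1 * (e0.1 * e0.1ᴴ) - (c • h0 : LC H).1 * (e0.1ᴴ * e0.1) := by
      rw [← Matrix.mul_sub, ← hh'm]
    rw [h3, Matrix.trace_sub, Matrix.mul_assoc]
    congr 1
    rw [Matrix.mul_assoc, Matrix.trace_mul_comm, Matrix.mul_assoc]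
  -- `c` is a positive real number
  have hcpos : c = ((s / (2 * r) : ℝ) : ℂ) := by
    have hr0 : (r : ℂ) ≠ 0 := by exact_mod_cast hr.ne'
    push_cast
    rw [eq_div_iff (mul_ne_zero two_ne_zero hr0), ← hcr]
    ring
  set q : ℝ := s / (2 * r) with hq
  have hqpos : 0 < q := by positivity
  set t : ℝ := (Real.sqrt q)⁻¹ with ht'
  have htpos : 0 < t := by positivity
  have htt : t * t * q = 1 := by
    have h1 : Real.sqrt q * Real.sqrt q = q := Real.mul_self_sqrt hqpos.le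
    have h2 : Real.sqrt q ≠ 0 := (Real.sqrt_pos.2 hqpos).ne'
    rw [ht']
    field_simp
    rw [sq, h1]
  refine ⟨(t : ℂ) • e0, (t : ℂ) • st e0, ?_, ?_, ?_, ?_⟩
  · rw [← hh0]
    refine ⟨ht.h_ne_zero, ?_, ?_, ?_⟩
    · rw [smul_lie, lie_smul, hbe, smul_smul, smul_smul, hcpos]
      have h1 : (t : ℂ) * (t : ℂ) * (q : ℂ) = 1 := by exact_mod_cast htt
      rw [h1, one_smul]
    · rw [lie_smul, ht.lie_h_e_nsmul, smul_comm]
    · rw [← hc1, lie_smul, lie_smul, ht.lie_h_f_nsmul, smul_neg, smul_neg, smul_comm c 2 f0,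
        smul_comm (t : ℂ) 2 (c • f0)]
  · exact (rootSpace C α).smul_mem _ he0
  · exact (rootSpace C (-α : C → ℂ)).smul_mem _ hfm
  · change (t : ℂ) • e0.1ᴴ = ((t : ℂ) • e0.1)ᴴ
    rw [Matrix.conjTranspose_smul, Complex.star_def, Complex.conj_ofReal]

end

end LGR
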