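import Pool.Agent.LGR.StA

/-!
# RTSY: from a reduced irreducible crystallographic root system over the complex numbers to integer coordinates
-/

namespace LGR.RTSY

open Matrix

section gen

variable {ι M N : Type} [AddCommGroup M] [Module ℂ M] [AddCommGroup N]
  [Module ℂ N] (P : RootPairing ι ℂ M N)

theorem sum_tr {A : Type} [AddCommMonoid A] {s : Finset ι} {r : ℕ} (e : Fin r ≃ s) (f : ι → A) :
    ∑ j ∈ s, f j = ∑ j : Fin r, f (e j).1 := by
  rw [← Finset.sum_coe_sort s f]
  exact (e.sum_comp fun j : s => f j.1).symm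

variable (b : P.Base) {r : ℕ} (e : Fin r ≃ b.support)

theorem lin_root : LinearIndependent ℂ fun j : Fin r => P.root (e j).1 :=
  LinearIndependent.comp (v := fun x : b.support => P.root x.1) b.linearIndepOn_root (fun j => e j) e.injective

theorem lin_coroot : LinearIndependent ℂ fun j : Fin r => P.coroot (e j).1 :=
  LinearIndependent.comp (v := fun x : b.support => P.coroot x.1) b.linearIndepOn_coroot (fun j => e j) e.injective

theorem uniq {V : Type} [AddCommGroup V] [Module ℂ V] {v : Fin r → V} (hv : LinearIndependent ℂ v) (c d : Fin r → ℤ)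
    (h : ∑ j, (c j : ℂ) • v j = ∑ j, (d j : ℂ) • v j) : c = d := by
  have h2 := Fintype.linearIndependent_iffₛ.mp hv (fun j => (c j : ℂ)) (fun j => (d j : ℂ)) h
  funext j
  exact_mod_cast h2 j

theorem ex_root (i : ι) : ∃ n : Fin r → ℤ, P.root i = ∑ j, (n j : ℂ) • P.root (e j).1 ∧ ((∀ j, 0 ≤ n j) ∨ ∀ j, n j ≤ 0) := by
  obtain ⟨f, -, h1, h2⟩ := b.exists_root_eq_sum_int i
  refine ⟨fun j => f (e j).1, ?_, ?_⟩
  · rw [h2, sum_tr e]
    refine Finset.sum_congr rfl fun j _ => ?_
    rw [Int.cast_smul_eq_zsmul]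
  · rcases h1 with h | h
    · exact Or.inl fun j => h.le _
    · exact Or.inr fun j => h.le _

theorem ex_coroot (i : ι) : ∃ n : Fin r → ℤ, P.coroot i = ∑ j, (n j : ℂ) • P.coroot (e j).1 := by
  obtain ⟨n, h, -⟩ := ex_root P.flip b.flip e i
  exact ⟨n, h⟩

theorem eval_coroot (c : Fin r → ℤ) (i : ι) (h : P.coroot i = ∑ j, (c j : ℂ) • P.coroot (e j).1) (x : M) :
    P.toLinearMap x (P.coroot i) = ∑ j, (c j : ℂ) * P.toLinearMap x (P.coroot (e j).1) := by
  rw [h, map_sum]
  refine Finset.sum_congr rfl fun j _ => ?_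
  rw [map_smul, smul_eq_mul]

theorem zero_of [P.IsRootSystem] {x : M} (h : ∀ k : Fin r, P.toLinearMap x (P.coroot (e k).1) = 0) : x = 0 := by
  rw [P.eq_zero_iff_forall_coroot'_eq_zero]
  intro i
  obtain ⟨c, hc⟩ := ex_coroot P b e i
  have h2 := eval_coroot P b e c i hc x
  have h3 : P.toLinearMap x (P.coroot i) = 0 := by
    rw [h2]
    refine Finset.sum_eq_zero fun k _ => ?_
    rw [h k, mul_zero]
  exact h3

variable [P.IsCrystallographic]

theorem cst (i j : ι) : ((P.pairingIn ℤ i j : ℤ) : ℂ) = P.toLinearMap (P.root i) (P.coroot j) := by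
  have h := P.algebraMap_pairingIn ℤ i j
  rw [RootPairing.root_coroot_eq_pairing]
  exact h

theorem pos_form [Fintype ι] (i : ι) : 0 < P.RootFormIn ℤ (P.rootSpanMem ℤ i) (P.rootSpanMem ℤ i) := by
  rw [← RootPairing.posRootForm_eq]
  exact RootPairing.RootPositiveForm.zero_lt_posForm_apply_root _ _

theorem form_coroot [Fintype ι] (i : ι) (n m : Fin r → ℤ) (h1 : P.root i = ∑ j, (n j : ℂ) • P.root (e j).1)
    (h2 : P.coroot i = ∑ j, (m j : ℂ) • P.coroot (e j).1) (j : Fin r) :
    P.RootFormIn ℤ (P.rootSpanMem ℤ i) (P.rootSpanMem ℤ i) * m j =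
      n j * P.RootFormIn ℤ (P.rootSpanMem ℤ (e j).1) (P.rootSpanMem ℤ (e j).1) := by
  have hd : ∀ k, ((P.RootFormIn ℤ (P.rootSpanMem ℤ k) (P.rootSpanMem ℤ k) : ℤ) : ℂ) • P.coroot k =
      (2 : ℕ) • P.Polarization (P.root k) := by
    intro k
    rw [← P.rootForm_self_smul_coroot k]
    have h := P.algebraMap_rootFormIn ℤ (P.rootSpanMem ℤ k) (P.rootSpanMem ℤ k)
    rw [← h]
    rfl
  have h3 := hd i
  have h4 : (2 : ℕ) • P.Polarization (P.root i) =
      ∑ j, ((n j * P.RootFormIn ℤ (P.rootSpanMem ℤ (e j).1) (P.rootSpanMem ℤ (e j).1) : ℤ) : ℂ) • P.coroot (e j).1 := by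
    rw [h1, map_sum, Finset.smul_sum]
    refine Finset.sum_congr rfl fun j _ => ?_
    rw [map_smul, smul_comm, ← hd, smul_smul]
    push_cast
    rfl
  rw [h4, h2, Finset.smul_sum] at h3
  have h5 := uniq (lin_coroot P b e)
    (fun j => P.RootFormIn ℤ (P.rootSpanMem ℤ i) (P.rootSpanMem ℤ i) * m j)
    (fun j => n j * P.RootFormIn ℤ (P.rootSpanMem ℤ (e j).1) (P.rootSpanMem ℤ (e j).1)) (by
      rw [← h3]
      refine Finset.sum_congr rfl fun j _ => ?_
      rw [smul_smul]
      push_cast
      rfl)
  exact congrFun h5 j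

theorem sign_coroot [Fintype ι] (i : ι) (n m : Fin r → ℤ) (h1 : P.root i = ∑ j, (n j : ℂ) • P.root (e j).1)
    (h2 : P.coroot i = ∑ j, (m j : ℂ) • P.coroot (e j).1) (j : Fin r) :
    (0 ≤ n j → 0 ≤ m j) ∧ (n j ≤ 0 → m j ≤ 0) := by
  have h := form_coroot P b e i n m h1 h2 j
  have p1 := pos_form P i
  have p2 := pos_form P (e j).1
  constructor
  · intro h0
    by_contra h'
    push Not at h'
    have := mul_pos_of_neg_of_neg (neg_neg_of_pos p1) h'
    nlinarith [mul_nonneg h0 p2.le]
  · intro h0
    by_contra h'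
    push Not at h'
    nlinarith [mul_pos p1 h', mul_nonneg (neg_nonneg.mpr h0) p2.le]

end gen

end LGR.RTSY

namespace LGR

open STZ Matrix

theorem t_RTSY : S_RTSY := by
  intro ι M N _ _ _ _ _ _ P _ _ _ _ b r e
  choose ct hct using RTSY.ex_coroot P b e
  choose n hn hs using RTSY.ex_root P b e
  have hlr := RTSY.lin_root P b e
  have hlc := RTSY.lin_coroot P b e
  set al : ι → Fin r → ℤ := rtc P (fun k => (e k).1) with hal0
  have hal : ∀ i k, ((al i k : ℤ) : ℂ) = P.toLinearMap (P.root i) (P.coroot (e k).1) := fun i k => RTSY.cst P i (e k).1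
  have hpc : ∀ i j, ((ct j ⬝ᵥ al i : ℤ) : ℂ) = P.toLinearMap (P.root i) (P.coroot j) := by
    intro i j
    rw [RTSY.eval_coroot P b e (ct j) j (hct j)]
    simp only [dotProduct, Int.cast_sum, Int.cast_mul]
    refine Finset.sum_congr rfl fun k _ => ?_
    rw [hal]
  have hpair : ∀ i j, (P.pairingIn ℤ i j : ℤ) = ct j ⬝ᵥ al i := by
    intro i j
    have h : ((P.pairingIn ℤ i j : ℤ) : ℂ) = ((ct j ⬝ᵥ al i : ℤ) : ℂ) := by
      rw [hpc, RTSY.cst]
    exact_mod_cast h
  have hcinj : ∀ i j, ct i = ct j → i = j := by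
    intro i j h
    apply P.coroot.injective
    rw [hct i, hct j, h]
  have hru : ∀ i j, P.root i = -P.root j → al i = -al j ∧ ct i = -ct j := by
    intro i j h
    have h2 : P.coroot i = -P.coroot j := P.coroot_eq_neg_iff.mpr (P.root_eq_neg_iff.mp h)
    constructor
    · funext k
      have : ((al i k : ℤ) : ℂ) = (((-al j) k : ℤ) : ℂ) := by
        rw [hal, h, map_neg, LinearMap.neg_apply, ← hal]
        simp
      exact_mod_cast this
    · apply RTSY.uniq hlc
      rw [← hct i, h2, hct j, ← Finset.sum_neg_distrib]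
      refine Finset.sum_congr rfl fun k _ => ?_
      simp
  refine ⟨ct, hct, hpair, fun i j h _ => hcinj i j h, ?_⟩
  have hmem : ∀ p, p ∈ (Finset.univ.image fun i => (al i, ct i)) ↔ ∃ i, (al i, ct i) = p := by
    intro p
    simp
  constructor
  · -- two
    intro p hp
    obtain ⟨i, rfl⟩ := (hmem p).1 hp
    rw [← hpair]
    exact P.pairingIn_same ℤ i
  · -- refl
    intro p hp q hq
    obtain ⟨i, rfl⟩ := (hmem p).1 hp
    obtain ⟨j, rfl⟩ := (hmem q).1 hq
    refine (hmem _).2 ⟨P.reflectionPerm i j, ?_⟩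
    have h1 := P.reflectionPerm_root i j
    have h2 := P.reflectionPerm_coroot i j
    refine Prod.ext ?_ ?_
    · funext k
      have : ((al (P.reflectionPerm i j) k : ℤ) : ℂ) = (((al j - (ct i ⬝ᵥ al j) • al i) k : ℤ) : ℂ) := by
        rw [hal, ← h1, map_sub, map_smul, LinearMap.sub_apply, LinearMap.smul_apply, ← hal, ← hal, ← hpc]
        simp
      exact_mod_cast this
    · apply RTSY.uniq hlc
      rw [← hct, ← h2, ← hpc, hct i, hct j, Finset.smul_sum, ← Finset.sum_sub_distrib]
      refine Finset.sum_congr rfl fun k _ => ?_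
      rw [smul_smul, ← sub_smul]
      simp
  · -- det
    intro hdet
    obtain ⟨v, hv0, hv⟩ := Matrix.exists_vecMul_eq_zero_iff.mpr hdet
    apply hv0
    have hx : (∑ j, (v j : ℂ) • P.root (e j).1) = 0 := by
      apply RTSY.zero_of P b e
      intro k
      have h1 : (v ᵥ* (Matrix.of fun j k => P.pairingIn ℤ (e j).1 (e k).1)) k = 0 := by rw [hv]; rfl
      simp only [Matrix.vecMul, dotProduct, Matrix.of_apply] at h1
      rw [map_sum, LinearMap.sum_apply]
      have h2 : ((∑ j, v j * P.pairingIn ℤ (e j).1 (e k).1 : ℤ) : ℂ) = 0 := by rw [h1]; simp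
      rw [← h2]
      push_cast
      refine Finset.sum_congr rfl fun j _ => ?_
      rw [map_smul, LinearMap.smul_apply, smul_eq_mul, RTSY.cst]
    apply RTSY.uniq hlr
    rw [hx]
    simp
  · -- base
    intro i
    refine (hmem _).2 ⟨(e i).1, ?_⟩
    refine Prod.ext rfl ?_
    apply RTSY.uniq hlc
    rw [← hct]
    rw [Finset.sum_eq_single i]
    · simp
    · intro j _ hj
      simp [hj]
    · simp
  · -- sgn
    intro p hp
    obtain ⟨i, rfl⟩ := (hmem p).1 hp
    have hsum : al i = ∑ k, n i k • (Matrix.of fun j k => P.pairingIn ℤ (e j).1 (e k).1 : Matrix (Fin r) (Fin r) ℤ) k := by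
      funext k
      have : ((al i k : ℤ) : ℂ) = (((∑ j, n i j • (Matrix.of fun j k => P.pairingIn ℤ (e j).1 (e k).1 : Matrix (Fin r) (Fin r) ℤ) j) k : ℤ) : ℂ) := by
        rw [hal, hn i, map_sum, LinearMap.sum_apply, Finset.sum_apply]
        push_cast
        refine Finset.sum_congr rfl fun j _ => ?_
        rw [map_smul, LinearMap.smul_apply, smul_eq_mul, ← RTSY.cst]
        simp
      exact_mod_cast this
    rcases hs i with h | h
    · exact Or.inl ⟨n i, hsum, fun k => ⟨h k, (RTSY.sign_coroot P b e i _ _ (hn i) (hct i) k).1 (h k)⟩⟩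
    · exact Or.inr ⟨n i, hsum, fun k => ⟨h k, (RTSY.sign_coroot P b e i _ _ (hn i) (hct i) k).2 (h k)⟩⟩
  · -- red
    intro p hp q hq a c ha h
    obtain ⟨i, rfl⟩ := (hmem p).1 hp
    obtain ⟨j, rfl⟩ := (hmem q).1 hq
    have hac : (a : ℂ) ≠ 0 := by exact_mod_cast ha
    have key : P.root j = P.root i ∨ P.root j = -P.root i := by
      rcases h with h | h
      · have h1 : (a : ℂ) • P.root i - (c : ℂ) • P.root j = 0 := by
          apply RTSY.zero_of P b e
          intro k
          rw [map_sub, LinearMap.sub_apply, map_smul, map_smul, LinearMap.smul_apply, LinearMap.smul_apply, ← hal, ← hal]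
          have h2 := congrFun h k
          simp only [Pi.smul_apply, smul_eq_mul] at h2
          have h3 : ((a * al i k : ℤ) : ℂ) = ((c * al j k : ℤ) : ℂ) := by rw [h2]
          push_cast at h3
          simp only [smul_eq_mul]
          rw [h3, sub_self]
        have h2 : ¬ LinearIndependent ℂ ![P.root j, P.root i] := by
          intro hl
          have := LinearIndependent.pair_iff.mp hl (-(c : ℂ)) a (by rw [neg_smul, ← h1]; abel)
          exact hac this.2
        exact RootPairing.IsReduced.eq_or_eq_neg j i h2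
      · have h1 : (a : ℂ) • P.coroot i - (c : ℂ) • P.coroot j = 0 := by
          rw [hct i, hct j, Finset.smul_sum, Finset.smul_sum, ← Finset.sum_sub_distrib]
          refine Finset.sum_eq_zero fun k _ => ?_
          have h2 := congrFun h k
          simp only [Pi.smul_apply, smul_eq_mul] at h2
          have h3 : ((a * ct i k : ℤ) : ℂ) = ((c * ct j k : ℤ) : ℂ) := by rw [h2]
          push_cast at h3
          rw [smul_smul, smul_smul, ← sub_smul, h3, sub_self, zero_smul]
        have h2 : ¬ LinearIndependent ℂ ![P.flip.root j, P.flip.root i] := by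
          intro hl
          have := LinearIndependent.pair_iff.mp hl (-(c : ℂ)) a (by
            rw [neg_smul]
            change -((c : ℂ) • P.coroot j) + (a : ℂ) • P.coroot i = 0
            rw [← h1]; abel)
          exact hac this.2
        rcases RootPairing.IsReduced.eq_or_eq_neg (P := P.flip) j i h2 with h3 | h3
        · left
          have : j = i := P.coroot.injective h3
          rw [this]
        · right
          exact P.root_eq_neg_iff.mpr (P.coroot_eq_neg_iff.mp h3)
    rcases key with h1 | h1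
    · left
      have : j = i := P.root.injective h1
      rw [this]
    · right
      obtain ⟨h2, h3⟩ := hru j i h1
      rw [h2, h3]
  · -- irr
    intro V hV
    let φ : M →ₗ[ℂ] (Fin r → ℂ) := LinearMap.pi fun k => P.toLinearMap.flip (P.coroot (e k).1)
    have hφ : ∀ x k, φ x k = P.toLinearMap x (P.coroot (e k).1) := fun x k => rfl
    have hinj : Function.Injective φ := by
      rw [injective_iff_map_eq_zero]
      intro x hx
      apply RTSY.zero_of P b e
      intro k
      rw [← hφ, hx]
      rfl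
    have hfd : FiniteDimensional ℂ M := Module.Finite.of_basis b.toWeightBasis
    have hfr : Module.finrank ℂ M = Module.finrank ℂ (Fin r → ℂ) := by
      rw [Module.finrank_eq_card_basis b.toWeightBasis, Module.finrank_fin_fun, ← Fintype.card_congr e, Fintype.card_fin]
    have hsur : Function.Surjective φ := (LinearMap.injective_iff_surjective_of_finrank_eq_finrank hfr).1 hinj
    have hq : ∀ i, V.comap φ ∈ Module.End.invtSubmodule (P.reflection i) := by
      intro i
      rw [Module.End.mem_invtSubmodule]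
      intro x hx
      rw [Submodule.mem_comap] at hx ⊢
      rw [Submodule.mem_comap]
      have h1 := hV _ ((hmem _).2 ⟨i, rfl⟩) _ hx
      have h2 : φ (P.reflection i x) = fun k => φ x k - (∑ j, (ct i j : ℂ) * φ x j) * (al i k : ℂ) := by
        funext k
        rw [P.reflection_apply, map_sub, map_smul]
        simp only [Pi.sub_apply, Pi.smul_apply, smul_eq_mul, hφ]
        rw [hal, ← RTSY.eval_coroot P b e (ct i) i (hct i) x]
        rfl
      change φ (P.reflection i x) ∈ V
      rw [h2]
      exact h1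
    by_cases hb : V.comap φ = ⊥
    · left
      rw [Submodule.eq_bot_iff] at hb ⊢
      intro y hy
      obtain ⟨x, rfl⟩ := hsur y
      rw [hb x hy, map_zero]
    · right
      have ht := RootPairing.IsIrreducible.eq_top_of_invtSubmodule_reflection (P := P) _ hq hb
      rw [Submodule.eq_top_iff'] at ht ⊢
      intro y
      obtain ⟨x, rfl⟩ := hsur y
      exact ht x

end LGR
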