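import Pool.Agent.LGR.StB

/-!
# LGR: the facts about the root data which are used for the estimates
-/

namespace LGR

open STZ MeasureTheory Matrix Filter

open scoped ComplexConjugate Matrix Real Topology

noncomputable section

namespace RVOF

variable {r : ℕ} {Φ : RT r} {B : Matrix (Fin r) (Fin r) ℤ}

theorem base_pos (hI : IRD Φ B) (i : Fin r) : (B i, (Pi.single i 1 : Fin r → ℤ)) ∈ pos Φ := by
  unfold pos
  rw [Finset.mem_filter]
  refine ⟨hI.base i, fun j => ?_⟩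
  show 0 ≤ (Pi.single i 1 : Fin r → ℤ) j
  by_cases h : j = i
  · subst h
    simp
  · simp [h]

theorem bii (hI : IRD Φ B) (i : Fin r) : B i i = 2 := by
  have h := hI.two _ (hI.base i)
  simpa using h

/-- the simple reflection on pairs -/
def tau (B : Matrix (Fin r) (Fin r) ℤ) (i : Fin r) (p : (Fin r → ℤ) × (Fin r → ℤ)) :
    (Fin r → ℤ) × (Fin r → ℤ) :=
  (p.1 - p.1 i • B i, p.2 - (p.2 ⬝ᵥ B i) • Pi.single i 1)

theorem tau_tau (hI : IRD Φ B) (i : Fin r) (p : (Fin r → ℤ) × (Fin r → ℤ)) :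
    tau B i (tau B i p) = p := by
  have h := bii hI i
  unfold tau
  refine Prod.ext ?_ ?_
  · funext j
    simp only [Pi.sub_apply, Pi.smul_apply, smul_eq_mul, h]
    ring
  · have h2 : (p.2 - (p.2 ⬝ᵥ B i) • (Pi.single i 1 : Fin r → ℤ)) ⬝ᵥ B i = -(p.2 ⬝ᵥ B i) := by
      rw [sub_dotProduct, smul_dotProduct, single_dotProduct, h, smul_eq_mul]
      ring
    simp only [h2]
    funext j
    simp only [Pi.sub_apply, Pi.smul_apply, smul_eq_mul]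
    ring

theorem tau_mem (hI : IRD Φ B) (hW : WFF Φ B) (i : Fin r) (p : (Fin r → ℤ) × (Fin r → ℤ))
    (hp : p ∈ (pos Φ).erase (B i, Pi.single i 1)) :
    tau B i p ∈ (pos Φ).erase (B i, Pi.single i 1) := by
  rw [Finset.mem_erase] at hp ⊢
  refine ⟨fun h => ?_, hW.simp i p hp.2 hp.1⟩
  have h1 : p = tau B i (B i, Pi.single i 1) := by rw [← h, tau_tau hI i p]
  have h2 : p.2 i = -1 := by
    rw [h1]
    unfold tau
    simp only [Pi.sub_apply, Pi.smul_apply, smul_eq_mul, single_dotProduct, bii hI i,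
      Pi.single_eq_same]
    norm_num
  have h3 := (hW.ppos p hp.2).2.1 i
  rw [h2] at h3
  norm_num at h3

theorem dot_tau (hW : WFF Φ B) (i : Fin r) (p : (Fin r → ℤ) × (Fin r → ℤ)) (l : Fin r → ℤ) :
    p.2 ⬝ᵥ (rf (B i, (Pi.single i 1 : Fin r → ℤ)) *ᵥ l) = (tau B i p).2 ⬝ᵥ l := by
  rw [hW.mv]
  unfold tau
  simp only [dotProduct_sub, dotProduct_smul, sub_dotProduct, smul_dotProduct, single_dotProduct,
    one_mul, smul_eq_mul]
  ring

theorem dim_simple (hI : IRD Φ B) (hW : WFF Φ B) (i : Fin r) (l : Fin r → ℤ) :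
    (rd Φ).dim (rf (B i, (Pi.single i 1 : Fin r → ℤ)) *ᵥ l) = -(rd Φ).dim l := by
  classical
  show ∏ p ∈ pos Φ, (p.2 ⬝ᵥ (rf (B i, (Pi.single i 1 : Fin r → ℤ)) *ᵥ l)) =
    -∏ p ∈ pos Φ, (p.2 ⬝ᵥ l)
  rw [← Finset.mul_prod_erase _ _ (base_pos hI i),
    ← Finset.mul_prod_erase _ (fun p => p.2 ⬝ᵥ l) (base_pos hI i)]
  have h1 : (Pi.single i 1 : Fin r → ℤ) ⬝ᵥ (rf (B i, (Pi.single i 1 : Fin r → ℤ)) *ᵥ l) =
      -((Pi.single i 1 : Fin r → ℤ) ⬝ᵥ l) := by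
    rw [hW.mv]
    simp only [dotProduct_sub, dotProduct_smul, single_dotProduct, one_mul, smul_eq_mul, bii hI i]
    ring
  have h2 : ∏ p ∈ (pos Φ).erase (B i, Pi.single i 1),
      (p.2 ⬝ᵥ (rf (B i, (Pi.single i 1 : Fin r → ℤ)) *ᵥ l)) =
      ∏ p ∈ (pos Φ).erase (B i, Pi.single i 1), (p.2 ⬝ᵥ l) := by
    refine Finset.prod_bij' (fun p _ => tau B i p) (fun p _ => tau B i p)
      (fun p hp => tau_mem hI hW i p hp) (fun p hp => tau_mem hI hW i p hp)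
      (fun p _ => tau_tau hI i p) (fun p _ => tau_tau hI i p) ?_
    intro p _
    exact dot_tau hW i p l
  rw [h2]
  show (Pi.single i 1 : Fin r → ℤ) ⬝ᵥ (rf (B i, (Pi.single i 1 : Fin r → ℤ)) *ᵥ l) * _ =
    -((Pi.single i 1 : Fin r → ℤ) ⬝ᵥ l * _)
  rw [h1]
  ring

theorem dim_anti (hG : WM Φ = Submonoid.closure {w | ∃ i, w = rf (B i, Pi.single i 1)})
    (hI : IRD Φ B) (hW : WFF Φ B) (w : Matrix (Fin r) (Fin r) ℤ) (hw : w ∈ WF Φ) :
    ∀ l, (rd Φ).dim (w *ᵥ l) = w.det * (rd Φ).dim l := by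
  rw [hW.mem, hG] at hw
  induction hw using Submonoid.closure_induction with
  | mem x hx =>
    intro l
    obtain ⟨i, rfl⟩ := hx
    rw [hW.dt _ (hI.base i), dim_simple hI hW i l]
    ring
  | one =>
    intro l
    rw [one_mulVec, det_one, one_mul]
  | mul x y _ _ hx hy =>
    intro l
    rw [← mulVec_mulVec, hx, hy, det_mul]
    ring

theorem indep (hI : IRD Φ B) (hW : WFF Φ B) (p : (Fin r → ℤ) × (Fin r → ℤ)) (hp : p ∈ pos Φ)
    (q : (Fin r → ℤ) × (Fin r → ℤ)) (hq : q ∈ pos Φ) (hpq : p ≠ q) (a b : ℤ)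
    (h : a • p.1 = b • q.1 ∨ a • p.2 = b • q.2) : a = 0 := by
  by_contra ha
  rcases hI.red p (hW.ppos p hp).1 q (hW.ppos q hq).1 a b ha h with h1 | h1
  · exact hpq h1.symm
  · rw [h1] at hq
    exact (hW.dich p (hW.ppos p hp).1).1 hp hq

theorem rho (hI : IRD Φ B) (hW : WFF Φ B) (l : Fin r → ℤ) (hl : Reg l) (hne : l ≠ 1) :
    (rd Φ).Q 1 < (rd Φ).Q l := by
  show ∑ p ∈ pos Φ, (p.2 ⬝ᵥ (1 : Fin r → ℤ)) ^ 2 < ∑ p ∈ pos Φ, (p.2 ⬝ᵥ l) ^ 2
  have h0 : ∀ p ∈ pos Φ, 0 ≤ p.2 ⬝ᵥ (1 : Fin r → ℤ) := by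
    intro p hp
    unfold dotProduct
    refine Finset.sum_nonneg fun j _ => ?_
    rw [Pi.one_apply, mul_one]
    exact (hW.ppos p hp).2.1 j
  have h1 : ∀ p ∈ pos Φ, p.2 ⬝ᵥ (1 : Fin r → ℤ) ≤ p.2 ⬝ᵥ l := by
    intro p hp
    unfold dotProduct
    refine Finset.sum_le_sum fun j _ => ?_
    exact mul_le_mul_of_nonneg_left (hl j) ((hW.ppos p hp).2.1 j)
  obtain ⟨i, hi⟩ : ∃ i, l i ≠ 1 := by
    by_contra h
    push Not at h
    exact hne (funext h)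
  have hi2 : 1 < l i := lt_of_le_of_ne (hl i) (Ne.symm hi)
  refine Finset.sum_lt_sum (fun p hp => pow_le_pow_left₀ (h0 p hp) (h1 p hp) 2)
    ⟨(B i, Pi.single i 1), base_pos hI i, ?_⟩
  simp only [single_dotProduct, one_mul, Pi.one_apply]
  nlinarith

theorem lat (hI : IRD Φ B) (hW : WFF Φ B) (w : Matrix (Fin r) (Fin r) ℤ) (hw : w ∈ WF Φ)
    (l : Fin r → ℤ) : ∃ n : {p // p ∈ pos Φ} → ℤ, w *ᵥ l = l + ∑ p, n p • p.1.1 := by
  classical
  obtain ⟨n, hn⟩ := hW.lat w hw l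
  refine ⟨fun p => ∑ i, if p = ⟨(B i, Pi.single i 1), base_pos hI i⟩ then n i else 0, ?_⟩
  rw [hn]
  congr 1
  have h : ∀ p : {p // p ∈ pos Φ},
      (∑ i, if p = ⟨(B i, Pi.single i 1), base_pos hI i⟩ then n i else 0) • p.1.1 =
      ∑ i, if p = ⟨(B i, Pi.single i 1), base_pos hI i⟩ then n i • p.1.1 else 0 := by
    intro p
    rw [Finset.sum_smul]
    refine Finset.sum_congr rfl fun i _ => ?_
    rw [ite_smul, zero_smul]
  rw [Finset.sum_congr rfl fun p _ => h p, Finset.sum_comm]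
  refine Finset.sum_congr rfl fun i _ => ?_
  rw [Finset.sum_ite_eq' Finset.univ, if_pos (Finset.mem_univ _)]

theorem perm (hW : WFF Φ B) (w : Matrix (Fin r) (Fin r) ℤ) (hw : w ∈ WF Φ)
    (p : (Fin r → ℤ) × (Fin r → ℤ)) (hp : p ∈ pos Φ) :
    ∃ q ∈ pos Φ, w *ᵥ p.1 = q.1 ∨ w *ᵥ p.1 = -q.1 := by
  obtain ⟨q, hq, h1, _⟩ := hW.perm w hw p (hW.ppos p hp).1
  by_cases h : q ∈ pos Φ
  · exact ⟨q, h, Or.inl h1⟩
  · have h2 : (-q.1, -q.2) ∈ pos Φ := by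
      by_contra h3
      exact h ((hW.dich q hq).2 h3)
    exact ⟨_, h2, Or.inr (by rw [h1]; simp)⟩

theorem cperm (hW : WFF Φ B) (w : Matrix (Fin r) (Fin r) ℤ) (hw : w ∈ WF Φ)
    (p : (Fin r → ℤ) × (Fin r → ℤ)) (hp : p ∈ pos Φ) :
    ∃ q ∈ pos Φ, (∀ l, p.2 ⬝ᵥ (w *ᵥ l) = q.2 ⬝ᵥ l) ∨
      (∀ l, p.2 ⬝ᵥ (w *ᵥ l) = -(q.2 ⬝ᵥ l)) := by
  obtain ⟨w', hw', h1, _⟩ := hW.inv w hw
  obtain ⟨q, hq, _, h2⟩ := hW.perm w' hw' p (hW.ppos p hp).1
  have h3 : ∀ l, p.2 ⬝ᵥ (w *ᵥ l) = q.2 ⬝ᵥ l := by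
    intro l
    rw [← h2 (w *ᵥ l), mulVec_mulVec, h1, one_mulVec]
  by_cases h : q ∈ pos Φ
  · exact ⟨q, h, Or.inl h3⟩
  · have h4 : (-q.1, -q.2) ∈ pos Φ := by
      by_contra h5
      exact h ((hW.dich q hq).2 h5)
    refine ⟨_, h4, Or.inr fun l => ?_⟩
    rw [h3 l, neg_dotProduct, neg_neg]

end RVOF

theorem t_RVOF : M_RVOF := by
  intro hWFAC _ hGENS hCHAM hQUAD hDENO hAVGF r Φ B hr hI
  have hW := hWFAC r Φ B hI
  have hG := hGENS r Φ B hI hW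
  obtain ⟨hC1, hC2⟩ := hCHAM r Φ B hI hW
  obtain ⟨hQ1, hQ2, _, _, _, hQ6, _⟩ := hQUAD r Φ B hI hW
  exact
    { W_one := hW.one
      W_mul := hW.mul
      W_inv := fun w hw => by
        obtain ⟨w', h1, h2, _⟩ := hW.inv w hw
        exact ⟨w', h1, h2⟩
      W_det := hW.det
      Q_W := hQ1
      str := hC1
      free := hC2
      qf := hQ2
      pd := hQ6
      rho := fun l hl hne => RVOF.rho hI hW l hl hne
      card := rfl
      refl := fun p hp => ⟨rf p, by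
        show rf p ∈ WF Φ
        rw [hW.mem]
        exact Submonoid.subset_closure ⟨p, (hW.ppos p hp).1, rfl⟩,
        hW.dt p (hW.ppos p hp).1, fun l => hW.mv p l⟩
      pos := fun p hp => ⟨(hW.ppos p hp).2.1, (hW.ppos p hp).2.2.1⟩
      np1 := fun p hp q hq hpq a b h =>
        ⟨RVOF.indep hI hW p hp q hq hpq a b (Or.inl h),
          RVOF.indep hI hW q hq p hp (Ne.symm hpq) b a (Or.inl h.symm)⟩
      np2 := fun p hp q hq hpq a b h =>
        ⟨RVOF.indep hI hW p hp q hq hpq a b (Or.inr h),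
          RVOF.indep hI hW q hq p hp (Ne.symm hpq) b a (Or.inr h.symm)⟩
      dimD := fun l => rfl
      danti := fun w hw l => RVOF.dim_anti hG hI hW w hw l
      den := hDENO r Φ B hI hW
      lat := fun w hw l => RVOF.lat hI hW w hw l
      perm := fun w hw p hp => RVOF.perm hW w hw p hp
      cperm := fun w hw p hp => RVOF.cperm hW w hw p hp
      sim := fun i => ⟨_, RVOF.base_pos hI i, rfl⟩
      avg := hAVGF r Φ B hr hI hW }

end

end LGR
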