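import Pool.Agent.LGR.StA

/-!
# Module SCHU: invariant forms are unique
-/

namespace LGR

open STZ MeasureTheory Matrix Filter

open scoped ComplexConjugate Matrix Real Topology

noncomputable section

namespace SCHU

variable {r : ℕ}

theorem dot_tr {R : Type} [CommRing R] (w G : Matrix (Fin r) (Fin r) R) (x y : Fin r → R) :
    (w *ᵥ x) ⬝ᵥ (G *ᵥ (w *ᵥ y)) = x ⬝ᵥ ((wᵀ * G * w) *ᵥ y) := by
  rw [← Matrix.mulVec_mulVec, ← Matrix.mulVec_mulVec, Matrix.dotProduct_mulVec x wᵀ,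
    Matrix.vecMul_transpose]

theorem ext_int {R : Type} [CommRing R] {M N : Matrix (Fin r) (Fin r) R}
    (h : ∀ l l' : Fin r → ℤ, (fun i => ((l i : ℤ) : R)) ⬝ᵥ (M *ᵥ fun i => ((l' i : ℤ) : R)) =
      (fun i => ((l i : ℤ) : R)) ⬝ᵥ (N *ᵥ fun i => ((l' i : ℤ) : R))) : M = N := by
  ext i j
  have h1 := h (Pi.single i 1) (Pi.single j 1)
  have h2 : ∀ k : Fin r, (fun m => (((Pi.single k (1 : ℤ) : Fin r → ℤ) m : ℤ) : R)) =
      Pi.single k (1 : R) := by
    intro k
    funext m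
    by_cases hm : m = k
    · subst hm
      simp
    · simp [Pi.single_eq_of_ne hm]
  rw [h2, h2] at h1
  simpa using h1

theorem cast_mulVec {R : Type} [CommRing R] (w : Matrix (Fin r) (Fin r) ℤ) (l : Fin r → ℤ) :
    (fun i => (((w *ᵥ l) i : ℤ) : R)) = (w.map (Int.cast : ℤ → R)) *ᵥ fun i => ((l i : ℤ) : R) := by
  funext i
  simp [Matrix.mulVec, dotProduct]

end SCHU

theorem t_SCHU : M_SCHU := by
  intro hQ r Φ B hr hI hW G hG
  obtain ⟨-, -, -, hAQ, hAinv, -, -⟩ := hQ r Φ B hI hW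
  set A := (rd Φ).A with hA
  haveI : Nonempty (Fin r) := ⟨⟨0, hr⟩⟩
  haveI : Nontrivial (Fin r → ℂ) := Function.nontrivial
  -- reflections
  have hrf : ∀ p ∈ Φ, rf p ∈ WF Φ := fun p hp =>
    (hW.mem _).2 (Submonoid.subset_closure ⟨p, hp, rfl⟩)
  -- positive diagonal
  have hdiag : ∀ i, 0 < A i i := by
    intro i
    have h1 : (Pi.single i 1 : Fin r → ℤ) ⬝ᵥ (A *ᵥ Pi.single i 1) = A i i := by simp
    have h2 := hAQ (Pi.single i 1)
    rw [h1] at h2
    rw [h2]
    have h3 : (B i, (Pi.single i 1 : Fin r → ℤ)) ∈ pos Φ := by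
      rw [pos, Finset.mem_filter]
      refine ⟨hI.base i, fun j => ?_⟩
      by_cases hj : j = i
      · subst hj
        simp
      · simp [Pi.single_eq_of_ne hj]
    have h4 : (0 : ℤ) < (rd Φ).Q (Pi.single i 1) := by
      change (0 : ℤ) < ∑ p ∈ pos Φ, (p.2 ⬝ᵥ (Pi.single i 1 : Fin r → ℤ)) ^ 2
      refine Finset.sum_pos' (fun p _ => sq_nonneg _) ⟨_, h3, ?_⟩
      simp
    linarith
  -- `A` is nondegenerate
  have hdet : A.det ≠ 0 := by
    intro h0
    obtain ⟨v, hv, hv0⟩ := Matrix.exists_mulVec_eq_zero_iff.2 h0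
    have h1 := hAQ v
    rw [hv0, dotProduct_zero] at h1
    have h2 : (rd Φ).Q v = 0 := by linarith
    change ∑ p ∈ pos Φ, (p.2 ⬝ᵥ v) ^ 2 = 0 at h2
    rw [Finset.sum_eq_zero_iff_of_nonneg (fun p _ => sq_nonneg _)] at h2
    apply hv
    funext i
    have h3 : (B i, (Pi.single i 1 : Fin r → ℤ)) ∈ pos Φ := by
      rw [pos, Finset.mem_filter]
      refine ⟨hI.base i, fun j => ?_⟩
      by_cases hj : j = i
      · subst hj
        simp
      · simp [Pi.single_eq_of_ne hj]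
    have h4 := h2 _ h3
    simpa using h4
  set AC : Matrix (Fin r) (Fin r) ℂ := A.map (Int.cast : ℤ → ℂ) with hAC
  set GC : Matrix (Fin r) (Fin r) ℂ := G.map (fun x => (x : ℂ)) with hGC
  have hdetC : AC.det ≠ 0 := by
    have h1 : AC.det = ((A.det : ℤ) : ℂ) := by
      have := (Int.castRingHom ℂ).map_det A
      rw [hAC]
      exact this.symm
    rw [h1]
    exact_mod_cast hdet
  -- invariance as matrix identities
  have hinvA : ∀ p ∈ Φ, (rf p)ᵀ * A * rf p = A := by
    intro p hp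
    apply SCHU.ext_int (R := ℤ)
    intro l l'
    have h1 := hAinv (rf p) (hrf p hp) l l'
    rw [SCHU.dot_tr] at h1
    simpa using h1
  have hinvG : ∀ p ∈ Φ, ((rf p).map (Int.cast : ℤ → ℝ))ᵀ * G * ((rf p).map (Int.cast : ℤ → ℝ)) =
      G := by
    intro p hp
    apply SCHU.ext_int (R := ℝ)
    intro l l'
    have h1 := hG (rf p) (hrf p hp) l l'
    rw [SCHU.cast_mulVec, SCHU.cast_mulVec, SCHU.dot_tr] at h1
    exact h1
  have hsq : ∀ p ∈ Φ, (rf p).map (Int.cast : ℤ → ℂ) * (rf p).map (Int.cast : ℤ → ℂ) = 1 := by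
    intro p hp
    have h1 := congrArg (fun M : Matrix (Fin r) (Fin r) ℤ => M.map (Int.cast : ℤ → ℂ)) (hW.sq p hp)
    have h2 := Matrix.map_mul (L := rf p) (M := rf p) (f := Int.castRingHom ℂ)
    simp only [Int.coe_castRingHom] at h2
    rw [← h2]
    rw [h1]
    exact Matrix.map_one _ Int.cast_zero Int.cast_one
  have hcomA : ∀ p ∈ Φ, AC * (rf p).map (Int.cast : ℤ → ℂ) =
      ((rf p).map (Int.cast : ℤ → ℂ))ᵀ * AC := by
    intro p hp
    set w := (rf p).map (Int.cast : ℤ → ℂ) with hw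
    have h1 : wᵀ * AC * w = AC := by
      have h2 := congrArg (fun M : Matrix (Fin r) (Fin r) ℤ => M.map (Int.castRingHom ℂ))
        (hinvA p hp)
      simp only [Matrix.map_mul] at h2
      exact h2
    calc AC * w = wᵀ * wᵀ * AC * w := by
          rw [← Matrix.transpose_mul, hsq p hp, Matrix.transpose_one, Matrix.one_mul]
      _ = wᵀ * (wᵀ * AC * w) := by simp only [Matrix.mul_assoc]
      _ = wᵀ * AC := by rw [h1]
  have hcomG : ∀ p ∈ Φ, GC * (rf p).map (Int.cast : ℤ → ℂ) =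
      ((rf p).map (Int.cast : ℤ → ℂ))ᵀ * GC := by
    intro p hp
    set w := (rf p).map (Int.cast : ℤ → ℂ) with hw
    have h1 : wᵀ * GC * w = GC := by
      have h2 := congrArg (fun M : Matrix (Fin r) (Fin r) ℝ => M.map (Complex.ofRealHom))
        (hinvG p hp)
      simp only [Matrix.map_mul] at h2
      have h3 : ((rf p).map (Int.cast : ℤ → ℝ)).map Complex.ofRealHom = w := by
        ext i j
        simp [hw]
      have h4 : (((rf p).map (Int.cast : ℤ → ℝ))ᵀ).map Complex.ofRealHom = wᵀ := by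
        ext i j
        simp [hw]
      rw [h3, h4] at h2
      exact h2
    calc GC * w = wᵀ * wᵀ * GC * w := by
          rw [← Matrix.transpose_mul, hsq p hp, Matrix.transpose_one, Matrix.one_mul]
      _ = wᵀ * (wᵀ * GC * w) := by simp only [Matrix.mul_assoc]
      _ = wᵀ * GC := by rw [h1]
  -- an eigenvalue
  obtain ⟨μ, hμ⟩ := Module.End.exists_eigenvalue (Matrix.toLin' (AC⁻¹ * GC))
  obtain ⟨v, hv⟩ := hμ.exists_hasEigenvector
  have hvT : (AC⁻¹ * GC) *ᵥ v = μ • v := by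
    have := hv.apply_eq_smul
    rwa [Matrix.toLin'_apply] at this
  have hunit : IsUnit AC.det := isUnit_iff_ne_zero.2 hdetC
  have hvG : GC *ᵥ v = μ • (AC *ᵥ v) := by
    have h1 := congrArg (fun z => AC *ᵥ z) hvT
    simp only [Matrix.mulVec_mulVec, Matrix.mulVec_smul] at h1
    rw [← Matrix.mul_assoc, Matrix.mul_nonsing_inv AC hunit, Matrix.one_mul] at h1
    exact h1
  let V : Submodule ℂ (Fin r → ℂ) :=
    LinearMap.ker (Matrix.toLin' (GC - μ • AC))
  have hmemV : ∀ u, u ∈ V ↔ GC *ᵥ u = μ • (AC *ᵥ u) := by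
    intro u
    rw [LinearMap.mem_ker, Matrix.toLin'_apply, Matrix.sub_mulVec, Matrix.smul_mulVec, sub_eq_zero]
  have hVinv : ∀ p ∈ Φ, ∀ u ∈ V,
      (fun i => u i - (∑ j, (p.2 j : ℂ) * u j) * (p.1 i : ℂ)) ∈ V := by
    intro p hp u hu
    have h1 : (fun i => u i - (∑ j, (p.2 j : ℂ) * u j) * (p.1 i : ℂ)) =
        (rf p).map (Int.cast : ℤ → ℂ) *ᵥ u := by
      funext i
      simp only [Matrix.mulVec, dotProduct, Matrix.map_apply, rf]
      have h2 : ∀ j : Fin r, (((((if i = j then 1 else 0) - p.1 i * p.2 j : ℤ)) : ℂ)) * u j =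
          (if i = j then u j else 0) - (p.2 j : ℂ) * u j * (p.1 i : ℂ) := by
        intro j
        push_cast
        split_ifs <;> ring
      rw [Finset.sum_congr rfl fun j _ => h2 j, Finset.sum_sub_distrib, Finset.sum_ite_eq,
        if_pos (Finset.mem_univ i), Finset.sum_mul]
    rw [h1, hmemV, Matrix.mulVec_mulVec, hcomG p hp, Matrix.mulVec_mulVec, hcomA p hp,
      ← Matrix.mulVec_mulVec, (hmemV u).1 hu, ← Matrix.mulVec_mulVec, Matrix.mulVec_smul]
  have hVtop : V = ⊤ := by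
    rcases hI.irr V hVinv with h | h
    · exfalso
      have h1 : v ∈ V := (hmemV v).2 hvG
      rw [h, Submodule.mem_bot] at h1
      exact hv.2 h1
    · exact h
  have hGA : GC = μ • AC := by
    ext i j
    have h1 : Pi.single j 1 ∈ V := by
      rw [hVtop]
      exact Submodule.mem_top
    rw [hmemV] at h1
    have h2 := congrFun h1 i
    simpa using h2
  obtain ⟨i⟩ := (inferInstance : Nonempty (Fin r))
  have hAi : ((A i i : ℤ) : ℝ) ≠ 0 := by
    have := hdiag i
    exact_mod_cast this.ne'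
  refine ⟨G i i / (A i i : ℝ), ?_⟩
  ext j l
  have h1 := congrFun (congrFun hGA i) i
  have h2 := congrFun (congrFun hGA j) l
  simp only [hGC, hAC, Matrix.map_apply, Matrix.smul_apply, smul_eq_mul] at h1 h2
  have h3 : μ = ((G i i / (A i i : ℝ) : ℝ) : ℂ) := by
    push_cast
    rw [eq_div_iff]
    · rw [h1]
    · exact_mod_cast hAi
  rw [h3] at h2
  simp only [Matrix.map_apply, Matrix.smul_apply, smul_eq_mul]
  exact_mod_cast h2

end

end LGR
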