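import Pool.Agent.LGR.StV

namespace LGR

open STZ MeasureTheory Matrix Filter

open scoped ComplexConjugate Matrix Real Topology

noncomputable section

namespace SLIP

theorem near {𝔸 : Type} [NormedRing 𝔸] [NormedAlgebra ℝ 𝔸] [FiniteDimensional ℝ 𝔸] :
    ∃ r : ℝ, 0 < r ∧ ∀ X : 𝔸, ‖X‖ < r →
      ‖NormedSpace.exp X - 1‖ ≤ 2 * ‖X‖ ∧ ‖X‖ ≤ 2 * ‖NormedSpace.exp X - 1‖ := by
  have hcs : CompleteSpace 𝔸 := FiniteDimensional.complete ℝ 𝔸
  let _ : NormedAlgebra ℚ 𝔸 := NormedAlgebra.restrictScalars ℚ ℝ 𝔸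
  have e0 : HasStrictFDerivAt (NormedSpace.exp : 𝔸 → 𝔸) (1 : 𝔸 →L[ℝ] 𝔸) 0 :=
    hasStrictFDerivAt_exp_zero
  have e1 := (e0.hasFDerivAt).isLittleO.def (c := 1 / 2) (by norm_num)
  rw [Metric.eventually_nhds_iff] at e1
  obtain ⟨r, hr, h⟩ := e1
  refine ⟨r, hr, fun X hX => ?_⟩
  have h1 := h (y := X) (by simpa [dist_eq_norm] using hX)
  simp only [NormedSpace.exp_zero, sub_zero, one_apply_eq_self] at h1
  have h2 : NormedSpace.exp X - 1 = (NormedSpace.exp X - 1 - X) + X := by abel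
  have h3 : X = (NormedSpace.exp X - 1) - (NormedSpace.exp X - 1 - X) := by abel
  have h4 : ‖NormedSpace.exp X - 1‖ ≤ ‖NormedSpace.exp X - 1 - X‖ + ‖X‖ := by
    conv_lhs => rw [h2]
    exact norm_add_le _ _
  have h5 : ‖X‖ ≤ ‖NormedSpace.exp X - 1‖ + ‖NormedSpace.exp X - 1 - X‖ := by
    conv_lhs => rw [h3]
    exact norm_sub_le _ _
  constructor <;> nlinarith [norm_nonneg X]

theorem gen {𝔸 : Type} [NormedRing 𝔸] [NormedAlgebra ℝ 𝔸] [FiniteDimensional ℝ 𝔸] (τ : 𝔸 →ₗ[ℝ] 𝔸) :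
    ∃ C : ℝ, 0 ≤ C ∧ ∃ U ∈ 𝓝 (0 : 𝔸), ∀ X ∈ U,
      ‖NormedSpace.exp (τ X) - 1‖ ≤ C * ‖NormedSpace.exp X - 1‖ := by
  obtain ⟨r, hr, h⟩ := near (𝔸 := 𝔸)
  set T : 𝔸 →L[ℝ] 𝔸 := LinearMap.toContinuousLinearMap τ with hT
  have hTX : ∀ X, ‖τ X‖ ≤ ‖T‖ * ‖X‖ := fun X => T.le_opNorm X
  have hT0 : 0 ≤ ‖T‖ := norm_nonneg _
  refine ⟨4 * ‖T‖, by positivity, Metric.ball 0 (r / (‖T‖ + 1)), Metric.ball_mem_nhds _ (by positivity), ?_⟩
  intro X hX
  rw [mem_ball_zero_iff] at hX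
  have h1 : ‖X‖ < r := by
    refine lt_of_lt_of_le hX ?_
    exact div_le_self hr.le (by linarith)
  have h2 : ‖τ X‖ < r := by
    have h3 : ‖X‖ * (‖T‖ + 1) < r := (lt_div_iff₀ (by positivity)).mp hX
    have := hTX X
    nlinarith [norm_nonneg X]
  have h5 := (h (τ X) h2).1
  have h6 := (h X h1).2
  have h7 := hTX X
  calc ‖NormedSpace.exp (τ X) - 1‖ ≤ 2 * ‖τ X‖ := h5
    _ ≤ 2 * (‖T‖ * ‖X‖) := by linarith
    _ ≤ 2 * (‖T‖ * (2 * ‖NormedSpace.exp X - 1‖)) := by gcongr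
    _ = 4 * ‖T‖ * ‖NormedSpace.exp X - 1‖ := by ring

variable {N : ℕ}

/-- the sum of the absolute values of the entries -/
def s (A : Matrix (Fin N) (Fin N) ℂ) : ℝ := ∑ i, ∑ j, ‖A i j‖

lemma s_nonneg (A : Matrix (Fin N) (Fin N) ℂ) : 0 ≤ s A :=
  Finset.sum_nonneg fun _ _ => Finset.sum_nonneg fun _ _ => norm_nonneg _

lemma le_s (A : Matrix (Fin N) (Fin N) ℂ) (i j : Fin N) : ‖A i j‖ ≤ s A := by
  refine le_trans ?_ (Finset.single_le_sum (f := fun i => ∑ j, ‖A i j‖)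
    (fun _ _ => Finset.sum_nonneg fun _ _ => norm_nonneg _) (Finset.mem_univ i))
  exact Finset.single_le_sum (f := fun j => ‖A i j‖) (fun _ _ => norm_nonneg _) (Finset.mem_univ j)

set_option backward.isDefEq.respectTransparency false in
open scoped Matrix.Norms.Operator in
lemma norm_le_s (A : Matrix (Fin N) (Fin N) ℂ) : ‖A‖ ≤ s A := by
  rw [Matrix.linfty_opNorm_def]
  have h1 : ((Finset.univ : Finset (Fin N)).sup fun i : Fin N => ∑ j : Fin N, ‖A i j‖₊) ≤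
      ∑ i, ∑ j, ‖A i j‖₊ := by
    refine Finset.sup_le fun i _ => ?_
    exact Finset.single_le_sum (f := fun i => ∑ j, ‖A i j‖₊) (fun _ _ => zero_le) (Finset.mem_univ i)
  calc (((Finset.univ : Finset (Fin N)).sup fun i : Fin N => ∑ j : Fin N, ‖A i j‖₊ : NNReal) : ℝ) ≤
      ((∑ i, ∑ j, ‖A i j‖₊ : NNReal) : ℝ) := by exact_mod_cast h1
    _ = s A := by
      unfold s
      push_cast
      rfl

set_option backward.isDefEq.respectTransparency false in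
open scoped Matrix.Norms.Operator in
lemma entry_le_norm (A : Matrix (Fin N) (Fin N) ℂ) (i j : Fin N) : ‖A i j‖ ≤ ‖A‖ := by
  rw [Matrix.linfty_opNorm_def]
  have h1 : ‖A i j‖₊ ≤ ∑ j, ‖A i j‖₊ :=
    Finset.single_le_sum (f := fun j => ‖A i j‖₊) (fun _ _ => zero_le) (Finset.mem_univ j)
  have h2 : ∑ j, ‖A i j‖₊ ≤ ((Finset.univ : Finset (Fin N)).sup fun i : Fin N => ∑ j : Fin N, ‖A i j‖₊) :=
    Finset.le_sup (f := fun i : Fin N => ∑ j : Fin N, ‖A i j‖₊) (Finset.mem_univ i)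
  exact_mod_cast h1.trans h2

set_option backward.isDefEq.respectTransparency false in
open scoped Matrix.Norms.Operator in
theorem mat (τ : Matrix (Fin N) (Fin N) ℂ →ₗ[ℝ] Matrix (Fin N) (Fin N) ℂ) :
    ∃ C : ℝ, 0 ≤ C ∧ ∃ U ∈ 𝓝 (0 : Matrix (Fin N) (Fin N) ℂ), ∀ X ∈ U,
      s (NormedSpace.exp (τ X) - 1) ≤ C * s (NormedSpace.exp X - 1) := by
  obtain ⟨C, hC, U, hU, h⟩ := gen τ
  refine ⟨N * (N * C), by positivity, U, hU, fun X hX => ?_⟩
  have h1 := h X hX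
  calc s (NormedSpace.exp (τ X) - 1) ≤ ∑ i : Fin N, ∑ j : Fin N, ‖NormedSpace.exp (τ X) - 1‖ :=
        Finset.sum_le_sum fun i _ => Finset.sum_le_sum fun j _ => entry_le_norm _ i j
    _ = N * (N * ‖NormedSpace.exp (τ X) - 1‖) := by simp
    _ ≤ N * (N * (C * ‖NormedSpace.exp X - 1‖)) := by gcongr
    _ ≤ N * (N * (C * s (NormedSpace.exp X - 1))) := by
        gcongr
        exact norm_le_s _
    _ = N * (N * C) * s (NormedSpace.exp X - 1) := by ring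

theorem nhds_pi {A : Fin N → Fin N → ℂ} {W : Set (Fin N → Fin N → ℂ)}
    (hW : W ∈ 𝓝 A) : ∃ δ : ℝ, 0 < δ ∧ ∀ M : Fin N → Fin N → ℂ,
      (∀ i j, ‖M i j - A i j‖ < δ) → M ∈ W := by
  obtain ⟨δ, hδ, h2⟩ := Metric.mem_nhds_iff.mp hW
  refine ⟨δ, hδ, fun M hM => h2 ?_⟩
  rw [Metric.mem_ball]
  refine (dist_pi_lt_iff hδ).mpr fun i => (dist_pi_lt_iff hδ).mpr fun j => ?_
  rw [dist_eq_norm]
  exact hM i j

theorem nhds_entries {A : Matrix (Fin N) (Fin N) ℂ} {W : Set (Matrix (Fin N) (Fin N) ℂ)}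
    (hW : W ∈ 𝓝 A) : ∃ δ : ℝ, 0 < δ ∧ ∀ M : Matrix (Fin N) (Fin N) ℂ,
      (∀ i j, ‖M i j - A i j‖ < δ) → M ∈ W :=
  nhds_pi (A := A) (W := W) hW

lemma entry_le_one (g : SU N) (i j : Fin N) : ‖g.1 i j‖ ≤ 1 :=
  entry_norm_bound_of_unitary (Matrix.mem_specialUnitaryGroup_iff.mp g.2).1 i j

lemma s_le (g : SU N) : s (g.1 - 1) ≤ N * (N * 2) := by
  calc s (g.1 - 1) ≤ ∑ i : Fin N, ∑ j : Fin N, (2 : ℝ) := by
        refine Finset.sum_le_sum fun i _ => Finset.sum_le_sum fun j _ => ?_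
        have h1 := entry_le_one g i j
        have h2 := entry_le_one (1 : SU N) i j
        have h3 : (g.1 - 1) i j = g.1 i j - (1 : SU N).1 i j := rfl
        rw [h3]
        calc ‖g.1 i j - (1 : SU N).1 i j‖ ≤ ‖g.1 i j‖ + ‖(1 : SU N).1 i j‖ := norm_sub_le _ _
          _ ≤ 2 := by linarith
    _ = N * (N * 2) := by simp

end SLIP

open SLIP in
theorem t_SLIP : M_SLIP := by
  intro hE _ hC N H K σ τ hH hS
  obtain ⟨C, hC0, U, hU, hmat⟩ := mat τ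
  obtain ⟨ε, hε, hεU⟩ := nhds_entries hU
  obtain ⟨δ, hδ, hcl⟩ := hC N H hH ε hε
  refine ⟨C + N * (N * 2) / δ, by positivity, fun g => ?_⟩
  show s ((σ g).1.1 - 1) ≤ (C + N * (N * 2) / δ) * s (g.1.1 - 1)
  by_cases hg : ∀ i j, ‖g.1.1 i j - (1 : Matrix (Fin N) (Fin N) ℂ) i j‖ < δ
  · obtain ⟨X, hX, hXε, hXg⟩ := hcl g.1 g.2 hg
    have hXU : X ∈ U := hεU X fun i j => by simpa using hXε i j
    have hτ := hS.mem X hX
    have h1 : g = exH H X 1 := by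
      apply Subtype.ext
      unfold exH
      rw [dif_pos (hX.2 1)]
      exact hXg.symm
    have h2 : σ g = exH H (τ X) 1 := by rw [h1, hS.dif X hX 1]
    have h3 : (σ g).1.1 = NormedSpace.exp (τ X) := by
      rw [h2]
      unfold exH
      rw [dif_pos (hτ.2 1)]
      show (ex (τ X) 1).1 = _
      rw [(hE N (τ X) hτ.1).coe, Complex.ofReal_one, one_smul]
    have h4 : g.1.1 = NormedSpace.exp X := by
      rw [← hXg, (hE N X hX.1).coe, Complex.ofReal_one, one_smul]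
    have h5 := hmat X hXU
    rw [h3, h4]
    refine h5.trans ?_
    have h6 := s_nonneg (NormedSpace.exp X - 1)
    have h7 : 0 ≤ N * (N * 2) / δ := by positivity
    nlinarith
  · push Not at hg
    obtain ⟨i, j, hij⟩ := hg
    have h1 : δ ≤ s (g.1.1 - 1) := hij.trans (le_s (g.1.1 - 1) i j)
    have h2 := s_le (σ g).1
    have h3 : (N * (N * 2) : ℝ) ≤ N * (N * 2) / δ * s (g.1.1 - 1) := by
      rw [div_mul_eq_mul_div, le_div_iff₀ hδ]
      exact mul_le_mul_of_nonneg_left h1 (by positivity)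
    have h4 := s_nonneg (g.1.1 - 1)
    nlinarith [mul_nonneg hC0 h4]

end

end LGR
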