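import Pool.Agent.LGR.StR

/-!
# SURJ: every dominant weight of `H` is the highest weight of an irreducible representation
-/

namespace LGR

open STZ MeasureTheory Matrix Filter

open scoped ComplexConjugate Matrix Real Topology

noncomputable section

namespace SURJ

theorem eu_add (x y : ℝ) : eu (x + y) = eu x * eu y := by
  unfold eu
  rw [← Complex.exp_add]
  congr 1
  push_cast
  ring

theorem eu_int (m : ℤ) : eu m = 1 := by
  unfold eu
  have h : (2 * (π : ℂ) * ((m : ℝ) : ℂ) * Complex.I) = (m : ℂ) * (2 * π * Complex.I) := by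
    push_cast
    ring
  rw [h]
  exact Complex.exp_int_mul_two_pi_mul_I m

theorem eu_conj (x : ℝ) : conj (eu x) = eu (-x) := by
  unfold eu
  rw [← Complex.exp_conj]
  congr 1
  have h : (2 * π * x * Complex.I : ℂ) = ((2 * π * x : ℝ) : ℂ) * Complex.I := by
    push_cast
    ring
  rw [h, map_mul, Complex.conj_ofReal, Complex.conj_I]
  push_cast
  ring

theorem of_eu_one {x : ℝ} (h : eu x = 1) : ∃ m : ℤ, x = m := by
  unfold eu at h
  obtain ⟨m, hm⟩ := Complex.exp_eq_one_iff.1 h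
  refine ⟨m, ?_⟩
  have h1 : (2 * (π : ℂ) * Complex.I) ≠ 0 := Complex.two_pi_I_ne_zero
  have h2 : (x : ℂ) = m := by
    apply mul_right_cancel₀ h1
    rw [← hm]
    ring
  exact_mod_cast h2

theorem dz_sub {r : ℕ} (a b : Fin r → ℤ) (θ : Fin r → ℝ) : dz (a - b) θ = dz a θ - dz b θ := by
  unfold dz
  rw [← Finset.sum_sub_distrib]
  refine Finset.sum_congr rfl fun i _ => ?_
  rw [Pi.sub_apply]
  push_cast
  ring

theorem dz_add' {r : ℕ} (a : Fin r → ℤ) (θ θ' : Fin r → ℝ) :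
    dz a (θ + θ') = dz a θ + dz a θ' := by
  unfold dz
  rw [← Finset.sum_add_distrib]
  refine Finset.sum_congr rfl fun i _ => ?_
  rw [Pi.add_apply]
  ring

theorem dz_int {r : ℕ} (a n : Fin r → ℤ) : dz a (fun j => (n j : ℝ)) = ((∑ i, a i * n i : ℤ) : ℝ) := by
  unfold dz
  push_cast
  rfl

/-- the alternating sums are periodic -/
theorem at_per {r : ℕ} (D : RD r) (l : Fin r → ℤ) (θ : Fin r → ℝ) (n : Fin r → ℤ) :
    AT D l (θ + fun j => (n j : ℝ)) = AT D l θ := by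
  unfold AT
  refine Finset.sum_congr rfl fun w _ => ?_
  rw [dz_add', eu_add, dz_int, eu_int, mul_one]

/-- the alternating sums of different regular weights are orthogonal -/
theorem orth {r : ℕ} {D : RD r} (hTP : S_TPOL) (hmul : ∀ w ∈ D.W, ∀ w' ∈ D.W, w * w' ∈ D.W)
    (hinv : ∀ w ∈ D.W, ∃ w' ∈ D.W, w' * w = 1)
    (hfree : ∀ l, Reg l → ∀ w ∈ D.W, Reg (w *ᵥ l) → w = 1)
    {l l' : Fin r → ℤ} (hl : Reg l) (hl' : Reg l') (hne : l' ≠ l) :
    ∫ θ in Set.Icc (0 : Fin r → ℝ) 1, AT D l' θ * conj (AT D l θ) = 0 := by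
  have h1 : ∀ θ : Fin r → ℝ, AT D l' θ * conj (AT D l θ) =
      ∑ w' ∈ D.W, ∑ w ∈ D.W, ((w'.det : ℂ) * (w.det : ℂ)) * eu (dz (w' *ᵥ l' - w *ᵥ l) θ) := by
    intro θ
    unfold AT
    rw [map_sum, Finset.sum_mul_sum]
    refine Finset.sum_congr rfl fun w' _ => Finset.sum_congr rfl fun w _ => ?_
    rw [map_mul, eu_conj, dz_sub, sub_eq_add_neg, eu_add, map_intCast]
    ring
  simp only [h1]
  have hc : ∀ μ : Fin r → ℤ, Continuous fun θ : Fin r → ℝ => eu (dz μ θ) := by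
    intro μ
    unfold eu dz
    fun_prop
  have hint : ∀ (a : ℂ) (μ : Fin r → ℤ),
      IntegrableOn (fun θ : Fin r → ℝ => a * eu (dz μ θ)) (Set.Icc 0 1) := fun a μ =>
    (continuous_const.mul (hc μ)).continuousOn.integrableOn_compact isCompact_Icc
  rw [integral_finsetSum]
  · refine Finset.sum_eq_zero fun w' hw' => ?_
    rw [integral_finsetSum]
    · refine Finset.sum_eq_zero fun w hw => ?_
      rw [integral_const_mul, (hTP r).1, if_neg, mul_zero]
      intro h2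
      have h3 : w' *ᵥ l' = w *ᵥ l := sub_eq_zero.1 h2
      obtain ⟨w₂, hw₂, h4⟩ := hinv w hw
      have h5 : (w₂ * w') *ᵥ l' = l := by
        rw [← Matrix.mulVec_mulVec, h3, Matrix.mulVec_mulVec, h4, Matrix.one_mulVec]
      have h6 : w₂ * w' = 1 := hfree l' hl' _ (hmul _ hw₂ _ hw') (by rw [h5]; exact hl)
      rw [h6, Matrix.one_mulVec] at h5
      exact hne h5
    · intro w _
      exact hint _ _
  · intro w' _
    exact integrable_finsetSum _ fun w _ => hint _ _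

/-- the alternating sum of a regular weight is not identically zero -/
theorem at_ne {r : ℕ} {D : RD r} (hTP : S_TPOL) (h1 : (1 : Matrix (Fin r) (Fin r) ℤ) ∈ D.W)
    (hfree : ∀ l, Reg l → ∀ w ∈ D.W, Reg (w *ᵥ l) → w = 1) {l : Fin r → ℤ} (hl : Reg l)
    (h : ∀ θ, AT D l θ = 0) : False := by
  classical
  set S : Finset (Fin r → ℤ) := D.W.image (fun w => w *ᵥ l) with hS
  set a : (Fin r → ℤ) → ℂ := fun μ => ∑ w ∈ D.W, (w.det : ℂ) * (if w *ᵥ l = μ then 1 else 0)
    with ha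
  have hz : ∀ θ : Fin r → ℝ, ∑ μ ∈ S, a μ * eu (dz μ θ) = 0 := by
    intro θ
    rw [← h θ]
    unfold AT
    simp only [ha]
    simp_rw [Finset.sum_mul]
    rw [Finset.sum_comm]
    refine Finset.sum_congr rfl fun w hw => ?_
    rw [Finset.sum_eq_single (w *ᵥ l)]
    · rw [if_pos rfl, mul_one]
    · intro μ _ hμ
      rw [if_neg (fun h => hμ h.symm), mul_zero, zero_mul]
    · intro h
      exact absurd (Finset.mem_image_of_mem _ hw) h
  have hlS : l ∈ S := by
    refine Finset.mem_image.2 ⟨1, h1, ?_⟩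
    rw [Matrix.one_mulVec]
  have h0 := (hTP r).2 S a hz l hlS
  have e1 : ∑ w ∈ D.W, (w.det : ℂ) * (if w *ᵥ l = l then 1 else 0) = 1 := by
    rw [Finset.sum_eq_single (1 : Matrix (Fin r) (Fin r) ℤ)]
    · rw [Matrix.one_mulVec, if_pos rfl, Matrix.det_one]
      simp
    · intro w hw hw1
      rw [if_neg, mul_zero]
      intro h2
      exact hw1 (hfree l hl w hw (by rw [h2]; exact hl))
    · intro h2
      exact absurd h1 h2
  simp only [ha] at h0
  rw [e1] at h0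
  exact one_ne_zero h0

/-- a continuous periodic function with vanishing integral of the square is zero -/
theorem zero_of_int {r : ℕ} (A : (Fin r → ℝ) → ℂ) (hA : Continuous A)
    (hper : ∀ (θ : Fin r → ℝ) (n : Fin r → ℤ), A (θ + fun j => (n j : ℝ)) = A θ)
    (h : ∫ θ in Set.Icc (0 : Fin r → ℝ) 1, ‖A θ‖ ^ 2 = 0) (θ : Fin r → ℝ) : A θ = 0 := by
  have hc : Continuous fun θ => ‖A θ‖ ^ 2 := hA.norm.pow 2
  have h1 : (fun θ => ‖A θ‖ ^ 2) =ᵐ[volume.restrict (Set.Icc (0 : Fin r → ℝ) 1)] 0 := by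
    refine (setIntegral_eq_zero_iff_of_nonneg_ae ?_ ?_).1 h
    · exact Eventually.of_forall fun θ => by positivity
    · exact hc.continuousOn.integrableOn_compact isCompact_Icc
  have h2 : Set.EqOn (fun θ => ‖A θ‖ ^ 2) 0 (Set.Icc (0 : Fin r → ℝ) 1) := by
    refine Measure.eqOn_of_ae_eq h1 hc.continuousOn continuousOn_const ?_
    have e1 : Set.Icc (0 : Fin r → ℝ) 1 = Set.pi Set.univ fun _ => Set.Icc (0 : ℝ) 1 := by
      rw [Set.pi_univ_Icc]
      rfl
    rw [e1, interior_pi_set Set.finite_univ, closure_pi_set]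
    refine Set.pi_mono fun i _ => ?_
    rw [interior_Icc, closure_Ioo zero_ne_one]
  have h3 := hper (fun j => Int.fract (θ j)) fun j => ⌊θ j⌋
  have h4 : ((fun j => Int.fract (θ j)) + fun j => ((⌊θ j⌋ : ℤ) : ℝ)) = θ := by
    funext j
    exact Int.fract_add_floor (θ j)
  rw [h4] at h3
  rw [h3]
  have h5 : (fun j => Int.fract (θ j)) ∈ Set.Icc (0 : Fin r → ℝ) 1 :=
    ⟨fun j => Int.fract_nonneg _, fun j => (Int.fract_lt_one _).le⟩
  have h6 : ‖A (fun j => Int.fract (θ j))‖ ^ 2 = 0 := h2 h5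
  exact norm_eq_zero.1 ((sq_eq_zero_iff).1 h6)

/-- the kernel of `ta` -/
theorem ker_int {N : ℕ} {H : Subgroup (SU N)} {r : ℕ} {Φ : RT r}
    {Hc : Fin r → Matrix (Fin N) (Fin N) ℂ}
    {E : (Fin r → ℤ) × (Fin r → ℤ) → Matrix (Fin N) (Fin N) ℂ} (T : TAF H Φ Hc E)
    {z : Fin r → ℝ} (hz : ta Hc z = 1) : ∀ p ∈ Φ, ∃ m : ℤ, dz p.1 z = m := by
  intro p hp
  have h1 := T.Ade p hp z
  rw [hz] at h1
  have h2 : ((1 : SU N).1) = (1 : Matrix (Fin N) (Fin N) ℂ) := rfl
  rw [h2, Matrix.conjTranspose_one, Matrix.mul_one, Matrix.one_mul] at h1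
  have h3 : E p ≠ 0 := by
    intro h4
    have h5 := (T.pos p hp).1
    rw [h4] at h5
    simp at h5
  have h4 : (eu (dz p.1 z) - 1) • E p = 0 := by
    rw [sub_smul, one_smul, ← h1, sub_self]
  rcases smul_eq_zero.1 h4 with h5 | h5
  · exact of_eu_one (sub_eq_zero.1 h5)
  · exact absurd h5 h3

theorem main (hRV : S_RVOF) (hATF : S_ATFV) (hDN : S_DENV) (hTA : S_TAUF) (hCL : S_CLFX)
    (hTP : S_TPOL) (hNR : S_NORR) (hDC : S_DENC) : S_SURJ := by
  intro N H r Φ B Hc E c k d X hr hcl hcn hL hKC hX l hl hlz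
  by_contra hno
  push Not at hno
  have hV : RV (rd Φ) (pos Φ) := hRV r Φ B hr hL.ird
  have hA : ATV (rd Φ) (pos Φ) := hATF r (rd Φ) (pos Φ) hV
  have T : TAF H Φ Hc E := hTA N H r Φ B Hc E hcl hL
  set D := rd Φ with hD
  have hA1 := hA.cont 1
  have hAl := hA.cont l
  set F : (Fin r → ℝ) → ℂ := fun θ => conj (AT D 1 θ) * AT D l θ with hF
  have hFc : Continuous F := (Complex.continuous_conj.comp hA1).mul hAl
  have hF1 : ∀ θ θ', ta Hc θ = ta Hc θ' → F θ = F θ' := by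
    intro θ θ' h
    have e1 : θ + (θ' - θ) = θ' := by abel
    have e2 := T.add θ (θ' - θ)
    rw [e1, ← h] at e2
    have e3 : ta Hc (θ' - θ) = 1 := (mul_eq_left.1 e2.symm)
    have e4 : ∀ p ∈ pos Φ, ∃ m : ℤ, dz p.1 (θ' - θ) = m := fun p hp =>
      ker_int T e3 p (Finset.mem_of_mem_filter p hp)
    have e5 := hA.cen (θ' - θ) e4 1 θ
    have e6 := hA.cen (θ' - θ) e4 l θ
    rw [e1] at e5 e6
    show conj (AT D 1 θ) * AT D l θ = conj (AT D 1 θ') * AT D l θ'
    rw [e5, e6, map_mul, eu_conj]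
    have e7 := hlz (θ' - θ) e3
    rw [dz_sub, sub_eq_add_neg, eu_add] at e7
    linear_combination (-(conj (AT D 1 θ) * AT D l θ)) * e7
  have hF2 : ∀ w ∈ WF Φ, ∀ θ, F (fun j => ∑ i, (w i j : ℝ) * θ i) = F θ := by
    intro w hw θ
    show conj (AT D 1 (fun j => ∑ i, (w i j : ℝ) * θ i)) *
      AT D l (fun j => ∑ i, (w i j : ℝ) * θ i) = conj (AT D 1 θ) * AT D l θ
    rw [hA.inv w hw, hA.inv w hw, map_mul, map_intCast]
    have h1 : ((w.det : ℂ)) * (w.det : ℂ) = 1 := by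
      rcases hV.W_det w hw with h | h
      · rw [h]; simp
      · rw [h]; simp
    linear_combination (conj (AT D 1 θ) * AT D l θ) * h1
  obtain ⟨f, hfc, hfcl, hfF⟩ := hCL N H r Φ B Hc E hcl hcn hL F hFc hF1 hF2
  set G : (Fin r → ℝ) → ℂ := fun θ => AT D 1 θ * conj (AT D l θ) with hG
  have hGc : Continuous G := hA1.mul (Complex.continuous_conj.comp hAl)
  set C : ℝ := ∫ θ in Set.Icc (0 : Fin r → ℝ) 1, ‖G θ‖ with hC
  have hC0 : 0 ≤ C := integral_nonneg fun _ => norm_nonneg _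
  have hFG : IntegrableOn (fun θ => F θ * G θ) (Set.Icc (0 : Fin r → ℝ) 1) :=
    (hFc.mul hGc).continuousOn.integrableOn_compact isCompact_Icc
  have hGn : IntegrableOn (fun θ => ‖G θ‖) (Set.Icc (0 : Fin r → ℝ) 1) :=
    hGc.norm.continuousOn.integrableOn_compact isCompact_Icc
  -- the bound
  have key : ∀ ε : ℝ, 0 < ε →
      ‖∫ θ in Set.Icc (0 : Fin r → ℝ) 1, F θ * G θ‖ ≤ ε * C := by
    intro ε hε
    obtain ⟨m, M, σ, a, hσ, hσp, ha⟩ := hDC N H hcl f hfc hfcl ε hε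
    choose lk hlk using fun q => hNR N H r Φ B Hc E c k d X hr hcl hcn hL hKC hX (M q) (σ q)
      (hσ q) (hσp q)
    have hne : ∀ q, lk q ≠ l := by
      intro q h
      have h1 := hlk q
      rw [h] at h1
      exact hno (M q) (σ q) (hσ q) (hσp q) h1
    set Sf : (Fin r → ℝ) → ℂ := fun θ => ∑ q, a q * (σ q).ch ⟨ta Hc θ, T.mem θ⟩ with hSf
    have hb : ∀ θ, ‖F θ - Sf θ‖ ≤ ε := by
      intro θ
      have h1 := ha ⟨ta Hc θ, T.mem θ⟩
      rwa [hfF ⟨ta Hc θ, T.mem θ⟩ θ rfl] at h1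
    have hSG : ∀ θ, Sf θ * G θ = ∑ q, a q * (AT D (lk q) θ * conj (AT D l θ)) := by
      intro θ
      simp only [hSf, hG]
      rw [Finset.sum_mul]
      refine Finset.sum_congr rfl fun q _ => ?_
      have h1 := (hlk q).wcf ⟨ta Hc θ, T.mem θ⟩ θ rfl
      rw [← h1]
      ring
    have hqi : ∀ q, IntegrableOn (fun θ => a q * (AT D (lk q) θ * conj (AT D l θ)))
        (Set.Icc (0 : Fin r → ℝ) 1) := fun q =>
      (continuous_const.mul ((hA.cont (lk q)).mul
        (Complex.continuous_conj.comp hAl))).continuousOn.integrableOn_compact isCompact_Icc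
    have hSGi : IntegrableOn (fun θ => Sf θ * G θ) (Set.Icc (0 : Fin r → ℝ) 1) := by
      simp only [hSG]
      exact integrable_finsetSum _ fun q _ => hqi q
    have hS0 : ∫ θ in Set.Icc (0 : Fin r → ℝ) 1, Sf θ * G θ = 0 := by
      simp only [hSG]
      rw [integral_finsetSum _ fun q _ => hqi q]
      refine Finset.sum_eq_zero fun q _ => ?_
      rw [integral_const_mul, orth hTP hV.W_mul hV.W_inv hV.free hl (hlk q).reg (hne q), mul_zero]
    have h1 : ∫ θ in Set.Icc (0 : Fin r → ℝ) 1, F θ * G θ =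
        ∫ θ in Set.Icc (0 : Fin r → ℝ) 1, (F θ * G θ - Sf θ * G θ) := by
      rw [integral_sub hFG hSGi, hS0, sub_zero]
    rw [h1]
    refine (norm_integral_le_integral_norm _).trans ?_
    rw [hC, ← integral_const_mul]
    refine setIntegral_mono ((hFG.sub hSGi).norm) (hGn.const_mul ε) fun θ => ?_
    show ‖F θ * G θ - Sf θ * G θ‖ ≤ ε * ‖G θ‖
    rw [← sub_mul, norm_mul]
    exact mul_le_mul_of_nonneg_right (hb θ) (norm_nonneg _)
  have hz : ∫ θ in Set.Icc (0 : Fin r → ℝ) 1, F θ * G θ = 0 := by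
    rw [← norm_eq_zero]
    refine le_antisymm (le_of_forall_pos_le_add fun ε hε => ?_) (norm_nonneg _)
    have h1 := key (ε / (C + 1)) (by positivity)
    have h2 : ε / (C + 1) * C ≤ ε := by
      rw [div_mul_eq_mul_div, div_le_iff₀ (by positivity)]
      nlinarith
    linarith
  have hz2 : ∫ θ in Set.Icc (0 : Fin r → ℝ) 1, ‖AT D 1 θ * AT D l θ‖ ^ 2 = 0 := by
    have h1 : ∀ θ, F θ * G θ = ((‖AT D 1 θ * AT D l θ‖ ^ 2 : ℝ) : ℂ) := by
      intro θ
      simp only [hF, hG]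
      rw [Complex.ofReal_pow, ← Complex.mul_conj', map_mul]
      ring
    simp only [h1] at hz
    rw [integral_complex_ofReal] at hz
    exact_mod_cast hz
  have hzero := zero_of_int (fun θ => AT D 1 θ * AT D l θ) (hA1.mul hAl)
    (fun θ n => by
      show AT D 1 (θ + fun j => (n j : ℝ)) * AT D l (θ + fun j => (n j : ℝ)) = _
      rw [at_per, at_per]) hz2
  refine at_ne (D := D) hTP hV.W_one hV.free hl ?_
  refine (hDN r D (pos Φ) hV).2 (AT D l) hAl fun θ hθ => ?_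
  have h1 := (hA.ne θ).2 hθ
  exact (mul_eq_zero.1 (hzero θ)).resolve_left h1

end SURJ

theorem t_SURJ : M_SURJ := fun _ _ h3 h4 h5 h6 h7 h8 h9 h10 =>
  SURJ.main h3 h4 h5 h6 h7 h8 h9 h10

end

end LGR
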