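import Pool.Agent.LGR.StD
import Pool.Agent.STZ.EXP

/-!
# TAUF: the torus and the root vectors
-/

namespace LGR

open STZ MeasureTheory Matrix Filter

open scoped ComplexConjugate Matrix Real Topology

noncomputable section

namespace TAUF

variable {N : ℕ}

/-- `exp` respects the relation `X E = E Y` -/
theorem exp_semi {X Y E : Matrix (Fin N) (Fin N) ℂ} (h : X * E = E * Y) :
    NormedSpace.exp X * E = E * NormedSpace.exp Y := by
  have hpow : ∀ n : ℕ, X ^ n * E = E * Y ^ n := by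
    intro n
    induction n with
    | zero => simp
    | succ n ih => rw [pow_succ, Matrix.mul_assoc, h, ← Matrix.mul_assoc, ih, Matrix.mul_assoc, ← pow_succ]
  let : NormedRing (Matrix (Fin N) (Fin N) ℂ) := Matrix.linftyOpNormedRing
  let : NormedAlgebra ℂ (Matrix (Fin N) (Fin N) ℂ) := Matrix.linftyOpNormedAlgebra
  have h1 := (NormedSpace.exp_series_hasSum_exp' (𝕂 := ℂ) X).mul_right E
  have h2 := (NormedSpace.exp_series_hasSum_exp' (𝕂 := ℂ) Y).mul_left E
  refine h1.unique ?_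
  refine h2.congr_fun ?_
  intro n
  rw [smul_mul_assoc, hpow, mul_smul_comm]

theorem exp_scalar (c : ℂ) :
    NormedSpace.exp (c • (1 : Matrix (Fin N) (Fin N) ℂ)) = Complex.exp c • 1 := by
  have h : c • (1 : Matrix (Fin N) (Fin N) ℂ) = diagonal (fun _ => c) := by
    rw [Matrix.smul_one_eq_diagonal]
  rw [h, Matrix.exp_diagonal, Matrix.smul_one_eq_diagonal]
  congr 1
  funext i
  rw [Pi.coe_exp, Complex.exp_eq_exp_ℂ]

theorem tr_self (A : Matrix (Fin N) (Fin N) ℂ) :
    (A * Aᴴ).trace = ((∑ i, ∑ j, Complex.normSq (A i j) : ℝ) : ℂ) := by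
  rw [Matrix.trace]
  push_cast
  refine Finset.sum_congr rfl fun i _ => ?_
  rw [Matrix.diag_apply, Matrix.mul_apply]
  refine Finset.sum_congr rfl fun j _ => ?_
  rw [Matrix.conjTranspose_apply, Complex.star_def, Complex.mul_conj]

theorem tr_pos {A : Matrix (Fin N) (Fin N) ℂ} (hA : A ≠ 0) :
    0 < (A * Aᴴ).trace.re ∧ (A * Aᴴ).trace.im = 0 := by
  rw [tr_self]
  refine ⟨?_, Complex.ofReal_im _⟩
  rw [Complex.ofReal_re]
  obtain ⟨i, j, hij⟩ : ∃ i j, A i j ≠ 0 := by
    by_contra hc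
    push Not at hc
    exact hA (Matrix.ext hc)
  refine Finset.sum_pos' (fun i _ => Finset.sum_nonneg fun j _ => Complex.normSq_nonneg _)
    ⟨i, Finset.mem_univ _, Finset.sum_pos' (fun j _ => Complex.normSq_nonneg _)
      ⟨j, Finset.mem_univ _, Complex.normSq_pos.2 hij⟩⟩

section

variable {H : Subgroup (SU N)} {r : ℕ} {Φ : RT r} {B : Matrix (Fin r) (Fin r) ℤ}
  {Hc : Fin r → Matrix (Fin N) (Fin N) ℂ} {E : (Fin r → ℤ) × (Fin r → ℤ) → Matrix (Fin N) (Fin N) ℂ}

theorem hx_add (x y : Fin r → ℝ) : hx Hc (x + y) = hx Hc x + hx Hc y := by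
  simp only [hx]
  rw [← Finset.sum_add_distrib]
  refine Finset.sum_congr rfl fun j _ => ?_
  rw [← add_smul, Pi.add_apply]
  congr 1
  push_cast
  ring

theorem hx_comm (hL : LRD H Φ B Hc E) (x y : Fin r → ℝ) : Commute (hx Hc x) (hx Hc y) := by
  simp only [hx]
  refine Commute.sum_left _ _ _ fun i _ => Commute.sum_right _ _ _ fun j _ => ?_
  exact ((show Commute (Hc i) (Hc j) from hL.comm i j).smul_left _).smul_right _

theorem hx_mem (hl : LIF H) (hL : LRD H Φ B Hc E) (x : Fin r → ℝ) : hx Hc x ∈ lie H := by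
  simp only [hx]
  refine Finset.sum_induction _ (fun X => X ∈ lie H) (fun X Y hX hY => hl.add X hX Y hY) hl.zero ?_
  intro j _
  rw [mul_smul]
  exact hl.smul (x j) _ (hL.mem j)

theorem p1_ne (hL : LRD H Φ B Hc E) {p : (Fin r → ℤ) × (Fin r → ℤ)} (hp : p ∈ Φ) : ∃ j, p.1 j ≠ 0 := by
  by_contra hc
  push Not at hc
  have h0 : p.1 = 0 := funext hc
  have h2 := hL.ird.two p hp
  rw [h0, dotProduct_zero] at h2
  omega

/-- the commutator of an element of the Cartan algebra with a root vector -/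
theorem ade (hL : LRD H Φ B Hc E) {p : (Fin r → ℤ) × (Fin r → ℤ)} (hp : p ∈ Φ) (x : Fin r → ℝ) :
    hx Hc x * E p - E p * hx Hc x = (((∑ j, (p.1 j : ℝ) * x j : ℝ) : ℂ) * Complex.I) • E p := by
  simp only [hx]
  rw [Finset.sum_mul, Finset.mul_sum, ← Finset.sum_sub_distrib]
  have h1 : ∀ j ∈ Finset.univ, ((x j : ℂ) * Complex.I) • Hc j * E p - E p * ((x j : ℂ) * Complex.I) • Hc j =
      (((p.1 j : ℂ) * x j) * Complex.I) • E p := by
    intro j _
    rw [smul_mul_assoc, mul_smul_comm, ← smul_sub, hL.ead p hp j, smul_smul]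
    congr 1
    ring
  rw [Finset.sum_congr rfl h1, ← Finset.sum_smul, ← Finset.sum_mul]
  push_cast
  rfl

theorem tr_comm (A C D : Matrix (Fin N) (Fin N) ℂ) (hD : Dᴴ = D) :
    ((D * A - A * D) * Cᴴ).trace = (A * (D * C - C * D)ᴴ).trace := by
  rw [Matrix.conjTranspose_sub, Matrix.conjTranspose_mul, Matrix.conjTranspose_mul, hD, Matrix.sub_mul,
    Matrix.mul_sub, Matrix.trace_sub, Matrix.trace_sub]
  congr 1
  · rw [Matrix.mul_assoc, Matrix.trace_mul_comm, Matrix.mul_assoc]
  · rw [Matrix.mul_assoc]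

theorem orth (hL : LRD H Φ B Hc E) {p q : (Fin r → ℤ) × (Fin r → ℤ)} (hp : p ∈ Φ) (hq : q ∈ Φ)
    (hpq : p ≠ q) : (E p * (E q)ᴴ).trace = 0 := by
  have key : ∀ j, (p.1 j : ℂ) * (E p * (E q)ᴴ).trace = (q.1 j : ℂ) * (E p * (E q)ᴴ).trace := by
    intro j
    have h := tr_comm (E p) (E q) (Hc j) (hL.herm j)
    rw [hL.ead p hp j, hL.ead q hq j, Matrix.conjTranspose_smul, smul_mul_assoc, mul_smul_comm,
      Matrix.trace_smul, Matrix.trace_smul] at h
    simpa using h
  by_contra hne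
  have h1 : p.1 = q.1 := by
    funext j
    have := mul_right_cancel₀ hne (key j)
    exact_mod_cast this
  rcases hL.ird.red p hp q hq 1 1 one_ne_zero (Or.inl (by rw [h1])) with h | h
  · exact hpq h.symm
  · have h2 : q.1 = -p.1 := by rw [h]
    obtain ⟨j, hj⟩ := p1_ne hL hp
    have h3 : p.1 j = -p.1 j := by
      have := congrFun (h1.trans h2) j
      simpa using this
    omega

theorem orh (hL : LRD H Φ B Hc E) {p : (Fin r → ℤ) × (Fin r → ℤ)} (hp : p ∈ Φ) (j : Fin r) :
    (E p * Hc j).trace = 0 := by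
  obtain ⟨i, hi⟩ := p1_ne hL hp
  have h1 : ((Hc i * E p - E p * Hc i) * Hc j).trace = 0 := by
    rw [Matrix.sub_mul, Matrix.trace_sub, Matrix.mul_assoc, Matrix.trace_mul_comm, Matrix.mul_assoc,
      Matrix.mul_assoc, hL.comm j i, sub_self]
  rw [hL.ead p hp i, smul_mul_assoc, Matrix.trace_smul, smul_eq_mul, mul_eq_zero] at h1
  rcases h1 with h1 | h1
  · exact absurd (by exact_mod_cast h1) hi
  · exact h1

theorem tp (hL : LRD H Φ B Hc E) {p : (Fin r → ℤ) × (Fin r → ℤ)} (hp : p ∈ Φ) (j : Fin r) :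
    (Hc j * ∑ i, (p.2 i : ℂ) • Hc i).trace = (p.1 j : ℂ) * (E p * (E p)ᴴ).trace := by
  rw [← hL.cor p hp, Matrix.mul_sub, Matrix.trace_sub]
  have h1 : (Hc j * ((E p)ᴴ * E p)).trace = (E p * Hc j * (E p)ᴴ).trace := by
    rw [← Matrix.mul_assoc, Matrix.trace_mul_comm, Matrix.mul_assoc]
  have h2 : (Hc j * (E p * (E p)ᴴ)).trace = (Hc j * E p * (E p)ᴴ).trace := by rw [Matrix.mul_assoc]
  rw [h1, h2, ← Matrix.trace_sub, ← Matrix.sub_mul, hL.ead p hp j, smul_mul_assoc, Matrix.trace_smul,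
    smul_eq_mul]

theorem E_ne (hL : LRD H Φ B Hc E) {p : (Fin r → ℤ) × (Fin r → ℤ)} (hp : p ∈ Φ) : E p ≠ 0 := by
  intro h0
  have h1 := hL.cor p hp
  rw [h0] at h1
  simp only [Matrix.conjTranspose_zero, Matrix.mul_zero, sub_self] at h1
  have h2 : ∑ j, (p.2 j : ℝ) • Hc j = 0 := by
    rw [h1]
    refine Finset.sum_congr rfl fun j _ => ?_
    ext a b
    simp [Matrix.smul_apply]
  have h3 := Fintype.linearIndependent_iff.1 hL.lin (fun j => (p.2 j : ℝ)) h2
  have h4 : p.2 = 0 := by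
    funext j
    exact_mod_cast h3 j
  have h5 := hL.ird.two p hp
  rw [h4, zero_dotProduct] at h5
  omega

theorem reg (hL : LRD H Φ B Hc E) : ∃ x : Fin r → ℝ, ∀ p ∈ Φ, ∑ j, (p.1 j : ℝ) * x j ≠ 0 := by
  classical
  let f : {p // p ∈ Φ} → Module.Dual ℝ (Fin r → ℝ) := fun p =>
    ∑ j, (p.1.1 j : ℝ) • (LinearMap.proj j : (Fin r → ℝ) →ₗ[ℝ] ℝ)
  have hf : ∀ p x, f p x = ∑ j, (p.1.1 j : ℝ) * x j := by
    intro p x
    simp [f, LinearMap.sum_apply]
  obtain ⟨x, hx⟩ := Module.Dual.exists_forall_ne_zero_of_forall_exists f (by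
    intro p
    obtain ⟨j, hj⟩ := p1_ne hL p.2
    refine ⟨Pi.single j 1, ?_⟩
    rw [hf]
    rw [Finset.sum_eq_single j]
    · rw [Pi.single_eq_same, mul_one]
      exact_mod_cast hj
    · intro k _ hk
      rw [Pi.single_eq_of_ne hk, mul_zero]
    · intro h
      exact absurd (Finset.mem_univ _) h)
  refine ⟨x, fun p hp => ?_⟩
  have := hx ⟨p, hp⟩
  rw [hf] at this
  exact this

theorem cent (hw : WFF Φ B) (hL : LRD H Φ B Hc E) (x : Fin r → ℝ)
    (hx0 : ∀ p ∈ Φ, ∑ j, (p.1 j : ℝ) * x j ≠ 0) (Y : Matrix (Fin N) (Fin N) ℂ) (hY : Y ∈ lie H)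
    (hYX : Y * hx Hc x = hx Hc x * Y) : ∃ y, Y = hx Hc y := by
  obtain ⟨y, z, hyz⟩ := hL.span Y hY
  refine ⟨y, ?_⟩
  have hy : Y = hx Hc y + ∑ p ∈ pos Φ, (z p • E p - conj (z p) • (E p)ᴴ) := hyz
  have hpos : ∀ p ∈ pos Φ, p ∈ Φ := fun p hp => (Finset.mem_filter.1 hp).1
  -- the commutator with `(E p)ᴴ`
  have hstar : ∀ p ∈ Φ, hx Hc x * (E p)ᴴ - (E p)ᴴ * hx Hc x =
      -((((∑ j, (p.1 j : ℝ) * x j : ℝ) : ℂ) * Complex.I) • (E p)ᴴ) := by
    intro p hp
    have h1 := ade hL (hw.neg p hp) x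
    rw [hL.star p hp] at h1
    rw [h1, ← neg_smul]
    congr 1
    simp only [Pi.neg_apply]
    push_cast
    simp only [neg_mul, Finset.sum_neg_distrib]
  have h0 : ∑ p ∈ pos Φ, ((((∑ j, (p.1 j : ℝ) * x j : ℝ) : ℂ) * Complex.I * z p) • E p +
      (((∑ j, (p.1 j : ℝ) * x j : ℝ) : ℂ) * Complex.I * conj (z p)) • (E p)ᴴ) = 0 := by
    have h1 : hx Hc x * Y - Y * hx Hc x = 0 := by rw [hYX, sub_self]
    rw [hy, Matrix.mul_add, Matrix.add_mul, (hx_comm hL x y).eq, add_sub_add_left_eq_sub, Finset.mul_sum,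
      Finset.sum_mul, ← Finset.sum_sub_distrib] at h1
    rw [← h1]
    refine Finset.sum_congr rfl fun p hp => ?_
    have e1 := ade hL (hpos p hp) x
    have e2 := hstar p (hpos p hp)
    rw [Matrix.mul_sub, Matrix.sub_mul, mul_smul_comm, mul_smul_comm, smul_mul_assoc, smul_mul_assoc,
      sub_sub_sub_comm, ← smul_sub, ← smul_sub, e1, e2, smul_neg, sub_neg_eq_add, smul_smul, smul_smul]
    congr 2
    · ring
    · ring
  have hz : ∀ q ∈ pos Φ, z q = 0 := by
    intro q hq
    have h1 := congrArg (fun M => (M * (E q)ᴴ).trace) h0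
    simp only [Matrix.zero_mul, Matrix.trace_zero, Finset.sum_mul, Matrix.trace_sum] at h1
    rw [Finset.sum_eq_single q] at h1
    · rw [Matrix.add_mul, Matrix.trace_add, smul_mul_assoc, smul_mul_assoc, Matrix.trace_smul,
        Matrix.trace_smul] at h1
      have h2 : ((E q)ᴴ * (E q)ᴴ).trace = 0 := by
        rw [← hL.star q (hpos q hq)]
        have := orth hL (hw.neg q (hpos q hq)) (hpos q hq) (by
          intro h
          exact (hw.dich q (hpos q hq)).1 hq (by rw [h]; exact hq))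
        rwa [← hL.star q (hpos q hq)] at this
      have h3 : (E q * (E q)ᴴ).trace ≠ 0 := by
        intro h
        have := (tr_pos (E_ne hL (hpos q hq))).1
        rw [h] at this
        simp at this
      rw [h2, smul_zero, add_zero, smul_eq_mul, mul_eq_zero] at h1
      rcases h1 with h1 | h1
      · rw [mul_eq_zero, mul_eq_zero] at h1
        rcases h1 with (h1 | h1) | h1
        · exact absurd (by exact_mod_cast h1) (hx0 q (hpos q hq))
        · exact absurd h1 Complex.I_ne_zero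
        · exact h1
      · exact absurd h1 h3
    · intro p hp hpq
      have h2 : (E p * (E q)ᴴ).trace = 0 := orth hL (hpos p hp) (hpos q hq) hpq
      have h3 : ((E p)ᴴ * (E q)ᴴ).trace = 0 := by
        rw [← hL.star p (hpos p hp)]
        refine orth hL (hw.neg p (hpos p hp)) (hpos q hq) ?_
        intro h
        exact (hw.dich p (hpos p hp)).1 hp (h ▸ hq)
      rw [Matrix.add_mul, Matrix.trace_add, smul_mul_assoc, smul_mul_assoc, Matrix.trace_smul,
        Matrix.trace_smul, h2, h3, smul_zero, smul_zero, add_zero]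
    · intro h
      exact absurd hq h
  rw [hy]
  rw [Finset.sum_eq_zero, add_zero]
  intro p hp
  rw [hz p hp, map_zero, zero_smul, zero_smul, sub_zero]

end

end TAUF

open TAUF

theorem t_TAUF : M_TAUF := by
  intro hLIEB hWFAC N H r Φ B Hc E hcl hL
  have hl : LIF H := hLIEB N H hcl
  have hw : WFF Φ B := hWFAC r Φ B hL.ird
  have hmem : ∀ x, hx Hc x ∈ lie H := fun x => hx_mem hl hL x
  have hsu : ∀ x, hx Hc x ∈ su N := fun x => hl.su _ (hmem x)
  have hcoe : ∀ θ, (ta Hc θ).1 = NormedSpace.exp (hx Hc fun j => 2 * π * θ j) := by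
    intro θ
    have h := (t_EXP N _ (hsu fun j => 2 * π * θ j)).coe 1
    rw [Complex.ofReal_one, one_smul] at h
    exact h
  have hadd : ∀ θ θ', ta Hc (θ + θ') = ta Hc θ * ta Hc θ' := by
    intro θ θ'
    apply Subtype.ext
    rw [show ((ta Hc θ * ta Hc θ' : SU N)).1 = (ta Hc θ).1 * (ta Hc θ').1 from rfl, hcoe, hcoe, hcoe,
      ← Matrix.exp_add_of_commute _ _ (hx_comm hL _ _), ← hx_add]
    congr 2
    funext j
    simp only [Pi.add_apply]
    ring
  have hzero : ta Hc 0 = 1 := by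
    have h := hadd 0 0
    rw [add_zero] at h
    exact (mul_eq_left.1 h.symm)
  have hAde : ∀ p ∈ Φ, ∀ θ, (ta Hc θ).1 * E p * (ta Hc θ).1ᴴ = eu (dz p.1 θ) • E p := by
    intro p hp θ
    set X : Matrix (Fin N) (Fin N) ℂ := hx Hc fun j => 2 * π * θ j with hX
    set c : ℂ := ((∑ j, (p.1 j : ℝ) * (2 * π * θ j) : ℝ) : ℂ) * Complex.I with hc
    have h1 : X * E p = E p * (X + c • 1) := by
      have h := ade hL hp (fun j => 2 * π * θ j)
      rw [← hX, sub_eq_iff_eq_add] at h
      rw [h, Matrix.mul_add, mul_smul_comm, Matrix.mul_one, add_comm]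
    have h2 := exp_semi h1
    have h3 : NormedSpace.exp (X + c • (1 : Matrix (Fin N) (Fin N) ℂ)) = Complex.exp c • NormedSpace.exp X := by
      rw [Matrix.exp_add_of_commute _ _ ((Commute.one_right X).smul_right c), exp_scalar, mul_smul_comm,
        Matrix.mul_one]
    have h4 : (ta Hc θ).1 * (ta Hc θ).1ᴴ = 1 := by
      have := (Matrix.mem_unitaryGroup_iff.1 (Matrix.mem_specialUnitaryGroup_iff.1 (ta Hc θ).2).1)
      rwa [Matrix.star_eq_conjTranspose] at this
    have h5 : eu (dz p.1 θ) = Complex.exp c := by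
      rw [eu, hc, dz]
      congr 1
      push_cast
      rw [Finset.mul_sum]
      congr 1
      refine Finset.sum_congr rfl fun j _ => ?_
      ring
    rw [← hcoe] at h2
    rw [h3, ← hcoe] at h2
    rw [h2, mul_smul_comm, smul_mul_assoc, Matrix.mul_assoc, h4, Matrix.mul_one, h5]
  refine ⟨hmem, ?_, hcoe, ?_, hadd, ?_, fun p hp x => ade hL hp x, hAde, fun p hp q hq hpq => orth hL hp hq hpq,
    fun p hp j => orh hL hp j, fun p hp j => tp hL hp j, fun p hp => tr_pos (E_ne hL hp),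
    fun x hx0 Y hY hYX => cent hw hL x hx0 Y hY hYX, reg hL⟩
  · intro θ
    exact (hmem fun j => 2 * π * θ j).2 1
  · rw [continuous_induced_rng]
    have h1 : (Subtype.val ∘ ta Hc) = fun θ : Fin r → ℝ => NormedSpace.exp (hx Hc fun j => 2 * π * θ j) := by
      funext θ
      exact hcoe θ
    rw [h1]
    have h2 : Continuous fun θ : Fin r → ℝ => hx Hc fun j => 2 * π * θ j := by
      simp only [hx]
      have h3 : ∀ j : Fin r, Continuous fun θ : Fin r → ℝ => ((2 * π * θ j : ℝ) : ℂ) * Complex.I := by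
        intro j
        fun_prop
      exact continuous_finsetSum _ fun j _ => (h3 j).smul continuous_const
    let : NormedRing (Matrix (Fin N) (Fin N) ℂ) := Matrix.linftyOpNormedRing
    let : NormedAlgebra ℂ (Matrix (Fin N) (Fin N) ℂ) := Matrix.linftyOpNormedAlgebra
    let : NormedAlgebra ℚ (Matrix (Fin N) (Fin N) ℂ) := NormedAlgebra.restrictScalars ℚ ℂ _
    exact NormedSpace.exp_continuous.comp h2
  · let K : AddSubgroup (Fin r → ℝ) :=
      { carrier := {θ | ta Hc θ = 1}
        zero_mem' := hzero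
        add_mem' := by
          intro a b ha hb
          simp only [Set.mem_ofPred_eq] at ha hb ⊢
          rw [hadd, ha, hb, one_mul]
        neg_mem' := by
          intro a ha
          simp only [Set.mem_ofPred_eq] at ha ⊢
          have h := hadd a (-a)
          rw [add_neg_cancel, hzero, ha, one_mul] at h
          exact h.symm }
    have hK : ∀ j, (Pi.single j 1 : Fin r → ℝ) ∈ K := by
      intro j
      show ta Hc (Pi.single j 1) = 1
      apply Subtype.ext
      rw [hcoe]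
      have h1 : (hx Hc fun i => 2 * π * (Pi.single j 1 : Fin r → ℝ) i) = (2 * π * Complex.I : ℂ) • Hc j := by
        simp only [hx]
        rw [Finset.sum_eq_single j]
        · rw [Pi.single_eq_same, mul_one]
          push_cast
          rfl
        · intro k _ hk
          rw [Pi.single_eq_of_ne hk, mul_zero]
          simp
        · intro h
          exact absurd (Finset.mem_univ _) h
      rw [h1, hL.per j]
      rfl
    intro n
    have h2 : (fun j => (n j : ℝ)) = ∑ j, n j • (Pi.single j 1 : Fin r → ℝ) := by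
      funext i
      rw [Finset.sum_apply, Finset.sum_eq_single i]
      · simp
      · intro k _ hk
        simp [Pi.single_eq_of_ne hk.symm]
      · intro h
        exact absurd (Finset.mem_univ _) h
    have h3 : (fun j => (n j : ℝ)) ∈ K := by
      rw [h2]
      exact K.sum_mem fun j _ => K.zsmul_mem (hK j) (n j)
    exact h3

end

end LGR
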