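import Pool.Agent.LGR.StV
import Pool.Agent.STZ.EXP

/-!
# Symmetric spaces, module TAUS
-/

namespace LGR

open STZ MeasureTheory Matrix Filter

open scoped ComplexConjugate Matrix Real Topology

noncomputable section

namespace TAUS

variable {N : ℕ}

theorem ex_inj {X Y : Matrix (Fin N) (Fin N) ℂ} (hX : X ∈ su N) (hY : Y ∈ su N)
    (h : ∀ t, ex X t = ex Y t) : X = Y := by
  ext i j
  have h1 := (STZ.t_EXP N X hX).der i j
  have h2 := (STZ.t_EXP N Y hY).der i j
  have h3 : (fun t : ℝ => (ex X t).1 i j) = fun t : ℝ => (ex Y t).1 i j := by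
    funext t
    rw [h t]
  rw [h3] at h1
  exact h1.unique h2

theorem exH_val {H : Subgroup (SU N)} {X : Matrix (Fin N) (Fin N) ℂ} (hX : X ∈ lie H) (t : ℝ) :
    (exH H X t).1 = ex X t := by
  unfold exH
  rw [dif_pos (hX.2 t)]

theorem coe_inv (g : SU N) : (g⁻¹).1 = (g.1)ᴴ := rfl

theorem mul_star_self' (g : SU N) : g.1 * g.1ᴴ = 1 := congrArg Subtype.val (mul_inv_cancel g)

theorem star_mul_self' (g : SU N) : g.1ᴴ * g.1 = 1 := congrArg Subtype.val (inv_mul_cancel g)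

theorem ex_conj (g : SU N) {X : Matrix (Fin N) (Fin N) ℂ} (hX : X ∈ su N)
    (hY : g.1 * X * g.1ᴴ ∈ su N) (t : ℝ) : ex (g.1 * X * g.1ᴴ) t = g * ex X t * g⁻¹ := by
  apply Subtype.ext
  rw [(STZ.t_EXP N _ hY).coe]
  have hg := mul_star_self' g
  have h1 : (t : ℂ) • (g.1 * X * g.1ᴴ) = g.1 * ((t : ℂ) • X) * g.1ᴴ := by
    rw [Matrix.mul_smul, Matrix.smul_mul]
  have h2 : (g * ex X t * g⁻¹).1 = g.1 * (ex X t).1 * g.1ᴴ := rfl
  rw [h1, h2, (STZ.t_EXP N _ hX).coe]
  have hu : g.1⁻¹ = g.1ᴴ := Matrix.inv_eq_right_inv hg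
  rw [← hu]
  exact Matrix.exp_conj g.1 _ (IsUnit.of_mul_eq_one _ hg)

section der

theorem der_lin (τ : Matrix (Fin N) (Fin N) ℂ →ₗ[ℝ] Matrix (Fin N) (Fin N) ℂ)
    (M : ℝ → Matrix (Fin N) (Fin N) ℂ) (D : Matrix (Fin N) (Fin N) ℂ)
    (h : ∀ i j, HasDerivAt (fun s => M s i j) (D i j) 0) (i j : Fin N) :
    HasDerivAt (fun s => τ (M s) i j) (τ D i j) 0 := by
  let F : (Fin N → Fin N → ℂ) →ₗ[ℝ] ℂ :=
    { toFun := fun A => τ (Matrix.of A) i j
      map_add' := fun A B => by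
        have h1 : Matrix.of (A + B) = Matrix.of A + Matrix.of B := rfl
        rw [h1, map_add]
        rfl
      map_smul' := fun r A => by
        have h1 : Matrix.of (r • A) = r • Matrix.of A := rfl
        rw [h1, map_smul]
        rfl }
  have h1 : HasDerivAt (fun s => (fun a b => M s a b : Fin N → Fin N → ℂ))
      (fun a b => D a b : Fin N → Fin N → ℂ) 0 :=
    hasDerivAt_pi.2 fun a => hasDerivAt_pi.2 fun b => h a b
  exact (LinearMap.toContinuousLinearMap F).hasFDerivAt.comp_hasDerivAt 0 h1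

end der

/-- the derivative of `exp (sX) Y exp (-sX)` at `0` -/
theorem der_conj {X : Matrix (Fin N) (Fin N) ℂ} (hX : X ∈ su N) (Y : Matrix (Fin N) (Fin N) ℂ)
    (i j : Fin N) :
    HasDerivAt (fun s : ℝ => ((ex X s).1 * Y * (ex X s).1ᴴ) i j) ((X * Y - Y * X) i j) 0 := by
  have E := STZ.t_EXP N X hX
  have h0 : (ex X 0).1 = 1 := by rw [E.zero]; rfl
  have h1 : ∀ s : ℝ, ((ex X s).1 * Y * (ex X s).1ᴴ) i j =
      ∑ k, (∑ l, (ex X s).1 i l * Y l k) * conj ((ex X s).1 j k) := by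
    intro s
    rw [Matrix.mul_apply]
    refine Finset.sum_congr rfl fun k _ => ?_
    rw [Matrix.mul_apply, Matrix.conjTranspose_apply]
    rfl
  simp_rw [h1]
  have h2 : ∀ k, HasDerivAt (fun s : ℝ => ∑ l, (ex X s).1 i l * Y l k)
      (∑ l, X i l * Y l k) 0 := by
    intro k
    apply HasDerivAt.fun_sum
    intro l _
    exact (E.der i l).mul_const _
  have h3 : ∀ k, HasDerivAt (fun s : ℝ => conj ((ex X s).1 j k)) (conj (X j k)) 0 := by
    intro k
    exact (E.der j k).star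
  have h4 : HasDerivAt (fun s : ℝ => ∑ k, (∑ l, (ex X s).1 i l * Y l k) * conj ((ex X s).1 j k))
      (∑ k, ((∑ l, X i l * Y l k) * conj ((ex X 0).1 j k) +
        (∑ l, (ex X 0).1 i l * Y l k) * conj (X j k))) 0 := by
    apply HasDerivAt.fun_sum
    intro k _
    exact (h2 k).mul (h3 k)
  convert h4 using 1
  rw [h0, Finset.sum_add_distrib, Matrix.sub_apply]
  have h5 : ∑ k, (∑ l, X i l * Y l k) * conj ((1 : Matrix (Fin N) (Fin N) ℂ) j k) = (X * Y) i j := by
    rw [Finset.sum_eq_single j]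
    · rw [Matrix.one_apply_eq, map_one, mul_one, Matrix.mul_apply]
    · intro k _ hk
      rw [Matrix.one_apply_ne (Ne.symm hk), map_zero, mul_zero]
    · intro h
      exact absurd (Finset.mem_univ j) h
  have h6 : ∑ k, (∑ l, (1 : Matrix (Fin N) (Fin N) ℂ) i l * Y l k) * conj (X j k) =
      -(Y * X) i j := by
    rw [Matrix.mul_apply, ← Finset.sum_neg_distrib]
    refine Finset.sum_congr rfl fun k _ => ?_
    have h7 : ∑ l, (1 : Matrix (Fin N) (Fin N) ℂ) i l * Y l k = Y i k := by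
      have := congrFun (congrFun (Matrix.one_mul Y) i) k
      rw [Matrix.mul_apply] at this
      exact this
    have h8 : conj (X j k) = -X k j := by
      have := congrFun (congrFun hX.1 k) j
      rw [Matrix.conjTranspose_apply, Matrix.neg_apply] at this
      exact this
    rw [h7, h8]
    ring
  rw [h5, h6]
  ring

end TAUS

open TAUS

theorem t_TAUS : M_TAUS := by
  intro hL hM hE N H K σ τ hH hS P
  have L := hL N H hH
  have hsu : ∀ X ∈ lie H, X ∈ su N := L.su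
  -- the exponential in `H`
  have hval : ∀ X ∈ lie H, ∀ t : ℝ, σ (exH H X t) = exH H (τ X) t := P.dif
  have hinv : ∀ X ∈ lie H, τ (τ X) = X := by
    intro X hX
    have h1 := P.mem X hX
    have h2 := P.mem _ h1
    apply ex_inj (hsu _ h2) (hsu _ hX)
    intro t
    rw [← exH_val h2, ← exH_val hX, ← P.dif _ h1, ← P.dif _ hX, P.inv]
  have hAd : ∀ h : H, ∀ X ∈ lie H,
      τ (h.1.1 * X * h.1.1ᴴ) = (σ h).1.1 * τ X * (σ h).1.1ᴴ := by
    intro h X hX
    have h1 : h.1.1 * X * h.1.1ᴴ ∈ lie H := L.ad h.1 h.2 X hX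
    have h2 := P.mem _ h1
    have h3 := P.mem _ hX
    have h4 : (σ h).1.1 * τ X * (σ h).1.1ᴴ ∈ lie H := L.ad (σ h).1 (σ h).2 _ h3
    apply ex_inj (hsu _ h2) (hsu _ h4)
    intro t
    have h5 : exH H (h.1.1 * X * h.1.1ᴴ) t = h * exH H X t * h⁻¹ := by
      apply Subtype.ext
      rw [exH_val h1, ex_conj h.1 (hsu _ hX) (hsu _ h1)]
      have h6 : (h * exH H X t * h⁻¹).1 = h.1 * (exH H X t).1 * (h.1)⁻¹ := rfl
      rw [h6, exH_val hX]
    rw [← exH_val h2, ← P.dif _ h1, h5, map_mul, map_mul, P.dif _ hX, map_inv,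
      ex_conj (σ h).1 (hsu _ h3) (hsu _ h4), ← exH_val h3]
    rfl
  have hbr : ∀ X ∈ lie H, ∀ Y ∈ lie H, τ (X * Y - Y * X) = τ X * τ Y - τ Y * τ X := by
    intro X hX Y hY
    ext i j
    have h1 := der_lin τ _ _ (fun i j => der_conj (hsu X hX) Y i j) i j
    have h2 := der_conj (hsu _ (P.mem X hX)) (τ Y) i j
    have h3 : (fun s : ℝ => τ ((ex X s).1 * Y * (ex X s).1ᴴ) i j) =
        fun s : ℝ => ((ex (τ X) s).1 * τ Y * (ex (τ X) s).1ᴴ) i j := by
      funext s
      have h4 := hAd (exH H X s) Y hY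
      rw [P.dif X hX, exH_val hX, exH_val (P.mem X hX)] at h4
      rw [h4]
    rw [h3] at h1
    exact h1.unique h2
  refine ⟨hinv, hbr, ?_, hAd⟩
  obtain ⟨X, hX⟩ := hE N H hH hS
  obtain ⟨c, hc, -, hF⟩ := hM N H hH hS
  have F1 := hF _ X hX
  have hcs : ∀ (s : ℝ) (A : Matrix (Fin N) (Fin N) ℂ), (s : ℂ) • A = s • A := by
    intro s A
    ext i j
    simp
  have hτs : ∀ {d : ℕ} (y : Fin d → ℝ) (A : Fin d → Matrix (Fin N) (Fin N) ℂ),
      τ (∑ a, (y a : ℂ) • A a) = ∑ a, (y a : ℂ) • τ (A a) := by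
    intro d y A
    rw [map_sum]
    refine Finset.sum_congr rfl fun a _ => ?_
    rw [hcs, hcs, map_smul]
  have hK2 : KFrame H (fun a => τ (X a)) := by
    refine ⟨fun a => P.mem _ (hX.mem a), ?_, ?_, ?_⟩
    · apply LinearIndependent.of_comp τ
      have : (τ ∘ fun a => τ (X a)) = X := by
        funext a
        exact hinv _ (hX.mem a)
      rw [this]
      exact hX.lin
    · intro Y hY
      obtain ⟨y, hy⟩ := hX.span _ (P.mem Y hY)
      refine ⟨y, ?_⟩
      rw [← hτs, ← hy, hinv Y hY]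
    · obtain ⟨k, hk1, hk2⟩ := hX.kill
      refine ⟨k, ?_, hk2⟩
      intro a b
      rw [← hbr _ (hX.mem a) _ (hX.mem b), hk1, hτs]
  have F2 := hF _ _ hK2
  have htr : ∀ a b, (τ (X a) * τ (X b)).trace = (X a * X b).trace := by
    intro a b
    have h1 := F1.orth a b
    have h2 := F2.orth a b
    have h3 : -(c : ℂ) * (τ (X a) * τ (X b)).trace = -(c : ℂ) * (X a * X b).trace := by
      rw [h1, h2]
    have h4 : -(c : ℂ) ≠ 0 := by
      rw [neg_ne_zero]
      exact_mod_cast hc.ne'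
    exact mul_left_cancel₀ h4 h3
  have hexp : ∀ {d : ℕ} (x y : Fin d → ℝ) (A : Fin d → Matrix (Fin N) (Fin N) ℂ),
      ((∑ a, (x a : ℂ) • A a) * (∑ b, (y b : ℂ) • A b)).trace =
        ∑ a, ∑ b, (x a : ℂ) * (y b : ℂ) * (A a * A b).trace := by
    intro d x y A
    rw [Finset.sum_mul, Matrix.trace_sum]
    refine Finset.sum_congr rfl fun a _ => ?_
    rw [Finset.mul_sum, Matrix.trace_sum]
    refine Finset.sum_congr rfl fun b _ => ?_
    rw [Matrix.smul_mul, Matrix.mul_smul, smul_smul, Matrix.trace_smul, smul_eq_mul]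
  intro U hU V hV
  obtain ⟨x, hx'⟩ := hX.span U hU
  obtain ⟨y, hy'⟩ := hX.span V hV
  rw [hx', hy', hτs, hτs, hexp, hexp]
  refine Finset.sum_congr rfl fun a _ => Finset.sum_congr rfl fun b _ => ?_
  rw [htr]

end

end LGR
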