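import Pool.Agent.LGR.StB
import Pool.Agent.STZ.THBY

/-!
# THBV: the theta function on the box, general root data
-/

namespace LGR

open STZ Matrix

open scoped Real

noncomputable section


open STZ.THBY in
theorem t_THBV : M_THBV := by
  intro hW hE hAb hF hY hP r D P hD κ hκ
  obtain ⟨c, hc, hwey⟩ := hE r D.A hD.qf.det
  obtain ⟨C1, hC1, hexp⟩ := hF.exp r (2 * π * κ) (2 * r + 3) (by positivity) (by positivity)
  obtain ⟨C2, hC2, het⟩ := etw hY hP r P
  set m : ℕ := 2 * r + 3 with hm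
  have hm1 : 1 ≤ m := by omega
  set L : ℝ := 2 ^ r * (C2 * C1) with hL
  refine ⟨Real.exp (r * (2 * π * κ * (r + 1))) * ((m : ℝ) ^ ((r : ℝ) / 2) * L * (1 + m) ^ r), m * c,
    by positivity, Nat.mul_pos hm1 hc, ?_⟩
  intro J t ζ hζ
  set N : ℕ := 2 ^ J with hN
  have hN1 : 1 ≤ N := Nat.one_le_two_pow
  have hN1' : (1 : ℝ) ≤ N := by exact_mod_cast hN1
  have hN0 : (0 : ℝ) < N := by linarith
  have hNJ : (2 : ℝ) ^ J = (N : ℝ) := by rw [hN]; push_cast; rfl
  set K : ℕ := (r + 1) * N with hK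
  have hKm : 2 * K + 1 ≤ m * N := by
    rw [hK, hm]
    nlinarith
  set z : Fin r → ℤ := fun _ => -(K : ℤ) with hz
  set n : Fin r → ℕ := fun _ => 2 * K + 1 with hn
  have hn' : ∀ i, (n i : ℝ) ≤ m * N := by
    intro i
    have : ((2 * K + 1 : ℕ) : ℝ) ≤ ((m * N : ℕ) : ℝ) := by exact_mod_cast hKm
    rw [hn]
    push_cast at this ⊢
    exact this
  set φ : (Fin r → ℤ) → ℝ := fun x => t * D.Q x + ∑ i, (x i : ℝ) * (ζ i).re with hφ
  set ζ' : Fin r → ℂ := fun i => ((-(2 * π * (ζ i).im) : ℝ) : ℂ) with hζ'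
  have hζn : ∀ i, ‖ζ' i‖ ≤ 2 * π * κ / N := by
    intro i
    have h1 := hζ i
    rw [hNJ] at h1
    rw [hζ']
    simp only
    rw [Complex.norm_real, Real.norm_eq_abs, abs_neg, abs_mul, abs_of_pos Real.two_pi_pos,
      mul_div_assoc]
    exact mul_le_mul_of_nonneg_left h1 Real.two_pi_pos.le
  -- the weight
  have hw1 : WClY z n (fun _ => (N : ℝ)) C1 (fun x => Complex.exp (∑ i, ζ' i * (x i - z i))) := by
    apply hY.iso
    apply hexp z n N ζ' hN1' hζn
    intro i
    have := hn' i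
    rw [hm] at this
    push_cast at this
    exact this
  have hw2 := het N z n hN1
  have hw := hY.mul r z n (fun _ => (N : ℝ)) C2 C1 _ _ (fun _ => hN0) hC2 hC1 hw2 hw1
  -- the exponential sums
  have hB : ∀ m' : Fin r → ℕ, (∀ i, m' i ≤ n i) →
      ‖∑ x ∈ bxn z m', eu (φ x)‖ ≤ (m : ℝ) ^ ((r : ℝ) / 2) * WW N (m * c) t ^ ((r : ℝ) / 2) := by
    intro m' hm'
    have h1 := hwey (m * N) z m' t φ φ (Nat.mul_pos hm1 hN1) (fun i => (hm' i).trans hKm) (by
      intro x h
      rw [hφ]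
      simp only
      rw [hD.qf.polar]
      have : ∑ i, (((x + h) i : ℤ) : ℝ) * (ζ i).re =
          ∑ i, (x i : ℝ) * (ζ i).re + ∑ i, (h i : ℝ) * (ζ i).re := by
        rw [← Finset.sum_add_distrib]
        refine Finset.sum_congr rfl fun i _ => ?_
        rw [Pi.add_apply]
        push_cast
        ring
      rw [this]
      push_cast
      ring)
    have h2 := hW.scale m N c t hm1
    have hwn : ∀ R c : ℕ, 0 ≤ WW R c t := fun R c => (Nat.cast_nonneg R).trans (hW.ge R c t)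
    have h3 : ‖∑ x ∈ bxn z m', eu (φ x)‖ ^ 2 ≤ ((m : ℝ) * WW N (m * c) t) ^ r :=
      h1.trans (pow_le_pow_left₀ (hwn _ _) h2 r)
    have h4 : (0 : ℝ) ≤ (m : ℝ) * WW N (m * c) t := mul_nonneg (Nat.cast_nonneg _) (hwn _ _)
    rw [← Real.mul_rpow (Nat.cast_nonneg _) (hwn _ _)]
    have h5 : (((m : ℝ) * WW N (m * c) t) ^ ((r : ℝ) / 2)) ^ 2 = ((m : ℝ) * WW N (m * c) t) ^ r := by
      rw [← Real.rpow_natCast, ← Real.rpow_mul h4]
      push_cast
      rw [div_mul_cancel₀ _ (two_ne_zero), Real.rpow_natCast]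
    rw [← h5] at h3
    exact le_of_sq_le_sq h3 (Real.rpow_nonneg h4 _)
  have hmain := hAb r z n (fun _ => (N : ℝ)) L
    ((m : ℝ) ^ ((r : ℝ) / 2) * WW N (m * c) t ^ ((r : ℝ) / 2)) (fun x => eu (φ x)) _ (fun _ => hN0)
    (by positivity) (by
      have : 0 ≤ WW N (m * c) t := (Nat.cast_nonneg N).trans (hW.ge N (m * c) t)
      positivity) hB hw
  -- the identity
  have hid : ES (cb r K) (tk D P J t) ζ = Complex.exp (∑ i, ζ' i * z i) *
      ∑ x ∈ bxn z n, eu (φ x) * ((∏ p ∈ P, (psm N r (p.2 ⬝ᵥ x) : ℂ)) *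
        Complex.exp (∑ i, ζ' i * (x i - z i))) := by
    unfold ES
    rw [cb_eq, Finset.mul_sum]
    refine Finset.sum_congr rfl fun x _ => ?_
    unfold tk et eu
    rw [hφ]
    simp only
    push_cast
    have e1 : Complex.exp (2 * π * Complex.I * ∑ i, (x i : ℂ) * ζ i) =
        Complex.exp (2 * π * (∑ i, (x i : ℂ) * (ζ i).re) * Complex.I) *
          (Complex.exp (∑ i, ζ' i * z i) * Complex.exp (∑ i, ζ' i * (x i - z i))) := by
      rw [← Complex.exp_add, ← Complex.exp_add, ← Finset.sum_add_distrib]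
      congr 1
      rw [Finset.mul_sum, Finset.mul_sum, Finset.sum_mul, ← Finset.sum_add_distrib]
      refine Finset.sum_congr rfl fun i _ => ?_
      rw [hζ']
      simp only
      push_cast
      have h7 := Complex.re_add_im (ζ i)
      have h8 : 2 * (π : ℂ) * Complex.I * ((x i : ℂ) * ζ i) =
        2 * (π : ℂ) * Complex.I * ((x i : ℂ) * (((ζ i).re : ℂ) + ((ζ i).im : ℂ) * Complex.I)) := by
        rw [h7]
      rw [h8]
      have h9 : Complex.I * Complex.I = -1 := Complex.I_mul_I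
      linear_combination (2 * (π : ℂ) * (x i : ℂ) * ((ζ i).im : ℂ)) * h9
    have e2 : Complex.exp (2 * π * (t * (D.Q x : ℂ) + ∑ i, (x i : ℂ) * (ζ i).re) * Complex.I) =
        Complex.exp (2 * π * (t * (D.Q x : ℂ)) * Complex.I) *
          Complex.exp (2 * π * (∑ i, (x i : ℂ) * (ζ i).re) * Complex.I) := by
      rw [← Complex.exp_add]
      congr 1
      ring
    rw [e1, e2]
    ring
  rw [hid, norm_mul]
  have hconst : ‖Complex.exp (∑ i, ζ' i * z i)‖ ≤ Real.exp (r * (2 * π * κ * (r + 1))) := by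
    rw [Complex.norm_exp]
    apply Real.exp_le_exp.2
    calc (∑ i, ζ' i * (z i : ℂ)).re ≤ ‖∑ i, ζ' i * (z i : ℂ)‖ := Complex.re_le_norm _
      _ ≤ ∑ i, ‖ζ' i * (z i : ℂ)‖ := norm_sum_le _ _
      _ ≤ ∑ _i : Fin r, 2 * π * κ * (r + 1) := by
          refine Finset.sum_le_sum fun i _ => ?_
          rw [norm_mul]
          have hzn : ‖(z i : ℂ)‖ = (r + 1) * N := by
            rw [hz, hK]
            simp only
            push_cast
            rw [norm_neg, norm_mul]
            have : ((r : ℂ) + 1) = ((r + 1 : ℕ) : ℂ) := by push_cast; rfl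
            rw [this, Complex.norm_natCast, Complex.norm_natCast]
            push_cast
            rfl
          rw [hzn]
          calc ‖ζ' i‖ * ((r + 1) * N) ≤ (2 * π * κ / N) * ((r + 1) * N) :=
                mul_le_mul_of_nonneg_right (hζn i) (by positivity)
            _ = 2 * π * κ * (r + 1) := by field_simp
      _ = r * (2 * π * κ * (r + 1)) := by simp
  have hprod : ∏ i : Fin r, (1 + (n i : ℝ) / N) ≤ (1 + (m : ℝ)) ^ r := by
    calc ∏ i : Fin r, (1 + (n i : ℝ) / N) ≤ ∏ _i : Fin r, (1 + (m : ℝ)) := by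
          refine Finset.prod_le_prod (fun i _ => by positivity) fun i _ => ?_
          have := hn' i
          rw [add_le_add_iff_left, div_le_iff₀ hN0]
          exact this
      _ = (1 + (m : ℝ)) ^ r := by simp
  have hwn : 0 ≤ WW N (m * c) t := (Nat.cast_nonneg N).trans (hW.ge N (m * c) t)
  have hLn : 0 ≤ L := by positivity
  calc _ ≤ Real.exp (r * (2 * π * κ * (r + 1))) *
        (((m : ℝ) ^ ((r : ℝ) / 2) * WW N (m * c) t ^ ((r : ℝ) / 2)) * L * (1 + (m : ℝ)) ^ r) := by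
        apply mul_le_mul hconst _ (norm_nonneg _) (Real.exp_pos _).le
        refine hmain.trans ?_
        apply mul_le_mul_of_nonneg_left hprod
        positivity
    _ = _ := by ring

end

end LGR
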