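import Pool.Agent.LGR.StR

/-!
# TPOL: orthogonality of the exponentials
-/

namespace LGR

open STZ MeasureTheory Matrix

open scoped ComplexConjugate Matrix Real

noncomputable section

namespace TPOL

theorem eu_add (x y : ℝ) : eu (x + y) = eu x * eu y := by
  unfold eu
  rw [← Complex.exp_add]
  congr 1
  push_cast
  ring

theorem eu_zero : eu 0 = 1 := by
  unfold eu
  simp

theorem eu_int (m : ℤ) : eu m = 1 := by
  unfold eu
  have h : (2 * (π : ℂ) * ((m : ℝ) : ℂ) * Complex.I) = (m : ℂ) * (2 * π * Complex.I) := by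
    push_cast
    ring
  rw [h]
  exact Complex.exp_int_mul_two_pi_mul_I m

theorem continuous_eu : Continuous eu := by
  unfold eu
  fun_prop

theorem eu_sum {ι : Type} (s : Finset ι) (f : ι → ℝ) : eu (∑ i ∈ s, f i) = ∏ i ∈ s, eu (f i) := by
  classical
  induction s using Finset.induction_on with
  | empty => simp [eu_zero]
  | insert i s hi ih => rw [Finset.sum_insert hi, Finset.prod_insert hi, eu_add, ih]

theorem int1 (m : ℤ) : ∫ y in Set.Icc (0 : ℝ) 1, eu (m * y) = if m = 0 then 1 else 0 := by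
  rw [integral_Icc_eq_integral_Ioc, ← intervalIntegral.integral_of_le zero_le_one]
  by_cases hm : m = 0
  · subst hm
    simp [eu_zero]
  · rw [if_neg hm]
    have h1 : ∀ y : ℝ, eu (m * y) = Complex.exp ((2 * π * m * Complex.I) * y) := by
      intro y
      unfold eu
      congr 1
      push_cast
      ring
    have h2 : (2 * (π : ℂ) * m * Complex.I) ≠ 0 := by
      have : (m : ℂ) ≠ 0 := by exact_mod_cast hm
      simp [this, Real.pi_ne_zero]
    simp only [h1]
    rw [integral_exp_mul_complex h2]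
    have h3 : Complex.exp (2 * (π : ℂ) * m * Complex.I * ((1 : ℝ) : ℂ)) = 1 := by
      have := eu_int m
      unfold eu at this
      rw [Complex.ofReal_one, mul_one]
      rw [← this]
      congr 1
    rw [h3]
    simp

/-- the measure on the cube is a product measure -/
theorem int_prod {r : ℕ} (f : Fin r → ℝ → ℂ) :
    ∫ θ in Set.Icc (0 : Fin r → ℝ) 1, ∏ i, f i (θ i) = ∏ i, ∫ y in Set.Icc (0 : ℝ) 1, f i y := by
  have h1 : (volume : Measure (Fin r → ℝ)).restrict (Set.Icc (0 : Fin r → ℝ) 1) =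
      Measure.pi fun _ => (volume : Measure ℝ).restrict (Set.Icc (0 : ℝ) 1) := by
    have h2 : Set.Icc (0 : Fin r → ℝ) 1 = Set.univ.pi fun _ => Set.Icc (0 : ℝ) 1 := by
      rw [Set.pi_univ_Icc]
      rfl
    rw [h2, volume_pi, Measure.restrict_pi_pi]
  rw [h1, integral_fintype_prod_eq_prod (ι := Fin r) f]

theorem intr {r : ℕ} (μ : Fin r → ℤ) :
    ∫ θ in Set.Icc (0 : Fin r → ℝ) 1, eu (dz μ θ) = if μ = 0 then 1 else 0 := by
  have h1 : ∀ θ : Fin r → ℝ, eu (dz μ θ) = ∏ i, eu ((μ i : ℝ) * θ i) := by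
    intro θ
    unfold dz
    exact eu_sum _ _
  simp only [h1]
  rw [int_prod fun i y => eu ((μ i : ℝ) * y)]
  simp only [int1]
  by_cases h : μ = 0
  · subst h
    simp
  · rw [if_neg h]
    obtain ⟨i, hi⟩ := Function.ne_iff.mp h
    exact Finset.prod_eq_zero (Finset.mem_univ i) (if_neg hi)

end TPOL

open TPOL in
theorem t_TPOL : S_TPOL := by
  intro r
  refine ⟨intr, ?_⟩
  intro S a h μ hμ
  have h1 : ∀ θ : Fin r → ℝ, ∑ ν ∈ S, a ν * eu (dz (ν - μ) θ) = 0 := by
    intro θ
    have h2 := h θ
    have h3 : ∑ ν ∈ S, a ν * eu (dz (ν - μ) θ) =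
        (∑ ν ∈ S, a ν * eu (dz ν θ)) * eu (-(dz μ θ)) := by
      rw [Finset.sum_mul]
      refine Finset.sum_congr rfl fun ν _ => ?_
      have h4 : dz (ν - μ) θ = dz ν θ + -(dz μ θ) := by
        unfold dz
        rw [← Finset.sum_neg_distrib, ← Finset.sum_add_distrib]
        refine Finset.sum_congr rfl fun i _ => ?_
        rw [Pi.sub_apply]
        push_cast
        ring
      rw [h4, eu_add]
      ring
    rw [h3, h2, zero_mul]
  have h2 : ∫ θ in Set.Icc (0 : Fin r → ℝ) 1, ∑ ν ∈ S, a ν * eu (dz (ν - μ) θ) = 0 := by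
    simp only [h1]
    simp
  rw [integral_finsetSum] at h2
  · rw [Finset.sum_eq_single μ] at h2
    · rw [integral_const_mul, intr, sub_self, if_pos rfl, mul_one] at h2
      exact h2
    · intro ν _ hν
      rw [integral_const_mul, intr, if_neg (sub_ne_zero.mpr hν), mul_zero]
    · intro h3
      exact absurd hμ h3
  · intro ν _
    have hc : Continuous fun θ : Fin r → ℝ => a ν * eu (dz (ν - μ) θ) := by
      have hd : Continuous fun θ : Fin r → ℝ => dz (ν - μ) θ := by
        unfold dz
        fun_prop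
      exact continuous_const.mul (continuous_eu.comp hd)
    exact hc.continuousOn.integrableOn_compact isCompact_Icc

end

end LGR
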