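import Pool.Agent.LGR.StR

/-!
# TPRD: the tensor product of a representation and its complex conjugate
-/

namespace LGR

open STZ MeasureTheory Matrix Filter

open scoped ComplexConjugate Matrix Real Topology

noncomputable section

namespace TPRD

/-- the matrices of the tensor product -/
def tm {n : ℕ} (A : Matrix (Fin n) (Fin n) ℂ) : Matrix (Fin n × Fin n) (Fin n × Fin n) ℂ :=
  fun a b => A a.1 b.1 * conj (A a.2 b.2)

theorem tm_one {n : ℕ} : tm (1 : Matrix (Fin n) (Fin n) ℂ) = 1 := by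
  ext ⟨a, b⟩ ⟨c, d⟩
  simp only [tm, Matrix.one_apply, Prod.mk.injEq]
  by_cases h1 : a = c <;> by_cases h2 : b = d <;> simp [h1, h2]

theorem tm_mul {n : ℕ} (A B : Matrix (Fin n) (Fin n) ℂ) : tm (A * B) = tm A * tm B := by
  ext ⟨a, b⟩ ⟨c, d⟩
  simp only [tm, Matrix.mul_apply, map_sum, map_mul]
  rw [Finset.sum_mul_sum, ← Finset.univ_product_univ, Finset.sum_product]
  refine Finset.sum_congr rfl fun i _ => Finset.sum_congr rfl fun j _ => by ring

theorem tm_ct {n : ℕ} (A : Matrix (Fin n) (Fin n) ℂ) : tm Aᴴ = (tm A)ᴴ := by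
  ext ⟨a, b⟩ ⟨c, d⟩
  simp [tm, Matrix.conjTranspose_apply]

theorem tm_trace {n : ℕ} (A : Matrix (Fin n) (Fin n) ℂ) : (tm A).trace = A.trace * conj A.trace := by
  simp only [Matrix.trace, Matrix.diag_apply, tm, map_sum]
  rw [Finset.sum_mul_sum, ← Finset.univ_product_univ, Finset.sum_product]

/-- the representation -/
def tr {N : ℕ} {H : Subgroup (SU N)} {n : ℕ} (σ : Rep H (Fin n)) : Rep H (Fin n × Fin n) where
  ρ :=
    { toFun := fun g => tm (σ.ρ g)
      map_one' := by rw [map_one, tm_one]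
      map_mul' := fun g h => by rw [map_mul, tm_mul] }
  cont := by
    refine continuous_matrix fun i j => ?_
    change Continuous fun g => σ.ρ g i.1 j.1 * conj (σ.ρ g i.2 j.2)
    exact (σ.cont.matrix_elem _ _).mul (Complex.continuous_conj.comp (σ.cont.matrix_elem _ _))
  unit := fun g => by
    change tm (σ.ρ g⁻¹) = (tm (σ.ρ g))ᴴ
    rw [σ.unit, tm_ct]

end TPRD

theorem t_TPRD : M_TPRD := by
  intro hP N H n σ hH hσ
  have hF := hP N H hH
  refine ⟨TPRD.tr σ, fun i j => ?_, fun g => TPRD.tm_trace _⟩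
  have h1 := hσ i.1 j.1
  have h2 := hF.cj _ (hσ i.2 j.2)
  exact (PF H).mul_mem h1 h2

end

end LGR
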