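import Pool.Agent.LGR.StR

/-!
# The weights of a representation
-/

namespace LGR

open STZ MeasureTheory Matrix Filter

open scoped ComplexConjugate Matrix Real Topology

noncomputable section

namespace TRES

open Module.End
open scoped Function

/-- pairwise commuting symmetric operators have a joint orthonormal eigenbasis -/
lemma joint {E : Type} [NormedAddCommGroup E] [InnerProductSpace ℂ E]
    [FiniteDimensional ℂ E] {d : ℕ} (hd : Module.finrank ℂ E = d) {n : Type} (T : n → E →ₗ[ℂ] E)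
    (hT : ∀ i, (T i).IsSymmetric) (hC : Pairwise (Commute on T)) :
    ∃ o : OrthonormalBasis (Fin d) ℂ E, ∀ i k, ∃ c : ℂ, T i (o k) = c • o k := by
  classical
  have h1 := LinearMap.IsSymmetric.directSum_isInternal_of_pairwise_commute hT hC
  have h2 := LinearMap.IsSymmetric.orthogonalFamily_iInf_eigenspaces hT
  have h3 := DirectSum.isInternal_ne_bot_iff.mpr h1
  have hfin : {α : n → ℂ | (⨅ j, eigenspace (T j) (α j)) ≠ ⊥}.Finite :=
    WellFoundedGT.finite_ne_bot_of_iSupIndep h2.independent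
  haveI : Fintype {α : n → ℂ // (⨅ j, eigenspace (T j) (α j)) ≠ ⊥} := hfin.fintype
  have h4 : OrthogonalFamily ℂ
      (fun α : {α : n → ℂ // (⨅ j, eigenspace (T j) (α j)) ≠ ⊥} =>
        (⨅ j, eigenspace (T j) (α.1 j) : Submodule ℂ E))
      fun α => (⨅ j, eigenspace (T j) (α.1 j)).subtypeₗᵢ :=
    h2.comp Subtype.val_injective
  refine ⟨h3.subordinateOrthonormalBasis hd h4, fun i k => ?_⟩
  have h5 := h3.subordinateOrthonormalBasis_subordinate hd k h4
  rw [Submodule.mem_iInf] at h5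
  exact ⟨_, mem_eigenspace_iff.mp (h5 i)⟩

/-- commuting skew-Hermitian matrices are diagonal in one orthonormal basis -/
lemma diag {n r : ℕ} (A : Fin r → Matrix (Fin n) (Fin n) ℂ) (hA : ∀ j, (A j)ᴴ = -A j)
    (hc : ∀ i j, A i * A j = A j * A i) :
    ∃ (U : Matrix (Fin n) (Fin n) ℂ) (β : Fin n → Fin r → ℂ), U * Uᴴ = 1 ∧ Uᴴ * U = 1 ∧
      ∀ j, A j = U * Matrix.diagonal (fun k => β k j) * Uᴴ := by
  classical
  let T : Fin r → EuclideanSpace ℂ (Fin n) →ₗ[ℂ] EuclideanSpace ℂ (Fin n) := fun j =>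
    Matrix.toEuclideanLin (Complex.I • A j)
  have hT : ∀ j, (T j).IsSymmetric := by
    intro j
    refine Matrix.isHermitian_iff_isSymmetric.1 ?_
    unfold Matrix.IsHermitian
    rw [Matrix.conjTranspose_smul, hA]
    simp
  have hC : Pairwise (Commute on T) := by
    intro i j _
    change T i * T j = T j * T i
    apply LinearMap.ext
    intro v
    change Matrix.toEuclideanLin (Complex.I • A i) (Matrix.toEuclideanLin (Complex.I • A j) v) =
      Matrix.toEuclideanLin (Complex.I • A j) (Matrix.toEuclideanLin (Complex.I • A i) v)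
    rw [Matrix.toEuclideanLin_apply, Matrix.toEuclideanLin_apply, Matrix.toEuclideanLin_apply,
      Matrix.toEuclideanLin_apply]
    congr 1
    change (Complex.I • A i) *ᵥ ((Complex.I • A j) *ᵥ _) = (Complex.I • A j) *ᵥ ((Complex.I • A i) *ᵥ _)
    rw [Matrix.mulVec_mulVec, Matrix.mulVec_mulVec, smul_mul_smul_comm, smul_mul_smul_comm, hc i j]
  obtain ⟨o, ho⟩ := joint (d := n) (by simp) T hT hC
  choose c hc' using ho
  let U : Matrix (Fin n) (Fin n) ℂ := Matrix.of fun i k => o k i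
  have hUU : Uᴴ * U = 1 := by
    ext k l
    rw [Matrix.mul_apply, Matrix.one_apply]
    have h1 := (orthonormal_iff_ite.1 o.orthonormal) k l
    rw [PiLp.inner_apply] at h1
    rw [← h1]
    refine Finset.sum_congr rfl fun i _ => ?_
    rw [Matrix.conjTranspose_apply]
    change star (o k i) * o l i = inner ℂ (o k i) (o l i)
    rw [RCLike.inner_apply, mul_comm]
    rfl
  have hUU' : U * Uᴴ = 1 := mul_eq_one_comm.1 hUU
  refine ⟨U, fun k j => -Complex.I * c j k, hUU', hUU, fun j => ?_⟩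
  have h1 : A j * U = U * Matrix.diagonal (fun k => -Complex.I * c j k) := by
    ext i k
    rw [Matrix.mul_diagonal]
    have h2 := congrArg (fun v : EuclideanSpace ℂ (Fin n) => v i) (hc' j k)
    change ((Complex.I • A j) *ᵥ (WithLp.ofLp (o k))) i = c j k * o k i at h2
    rw [Matrix.smul_mulVec] at h2
    change Complex.I * ((A j) *ᵥ (WithLp.ofLp (o k))) i = c j k * o k i at h2
    have h3 : (A j * U) i k = ((A j) *ᵥ (WithLp.ofLp (o k))) i := rfl
    rw [h3]
    change _ = o k i * (-Complex.I * c j k)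
    have h4 : ((A j) *ᵥ (WithLp.ofLp (o k))) i =
        -Complex.I * (Complex.I * ((A j) *ᵥ (WithLp.ofLp (o k))) i) := by
      rw [← mul_assoc, neg_mul, Complex.I_mul_I, neg_neg, one_mul]
    rw [h4, h2]
    ring
  calc A j = A j * (U * Uᴴ) := by rw [hUU', mul_one]
    _ = (A j * U) * Uᴴ := by rw [mul_assoc]
    _ = _ := by rw [h1]

lemma exp_conj {n : ℕ} {U : Matrix (Fin n) (Fin n) ℂ} (h1 : U * Uᴴ = 1) (v : Fin n → ℂ) :
    NormedSpace.exp (U * Matrix.diagonal v * Uᴴ) =
      U * Matrix.diagonal (fun k => Complex.exp (v k)) * Uᴴ := by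
  have h2 : U⁻¹ = Uᴴ := Matrix.inv_eq_right_inv h1
  have h3 : IsUnit U := by
    rw [Matrix.isUnit_iff_isUnit_det]
    exact Matrix.isUnit_det_of_right_inverse h1
  rw [← h2, Matrix.exp_conj U _ h3, Matrix.exp_diagonal]
  congr 3
  funext k
  rw [Pi.coe_exp, Complex.exp_eq_exp_ℂ]

end TRES

theorem t_TRES : M_TRES := by
  classical
  intro hLI hTA hDR N H r Φ B Hc E hcl hL n R hP
  have hl : LIF H := hLI N H hcl
  have ht : TAF H Φ Hc E := hTA N H r Φ B Hc E hcl hL
  have hd : DRF R := hDR N H n R hcl hP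
  let Y : Fin r → Matrix (Fin N) (Fin N) ℂ := fun j => (((2 * π : ℝ) : ℂ) * Complex.I) • Hc j
  have hY : ∀ j, Y j ∈ lie H := by
    intro j
    have h1 := hl.smul (2 * π) _ (hL.mem j)
    rw [smul_smul] at h1
    exact h1
  have hhx : ∀ θ : Fin r → ℝ, hx Hc (fun j => 2 * π * θ j) = ∑ j, (θ j : ℂ) • Y j := by
    intro θ
    unfold hx
    refine Finset.sum_congr rfl fun j _ => ?_
    change _ = (θ j : ℂ) • ((((2 * π : ℝ) : ℂ) * Complex.I) • Hc j)
    rw [smul_smul]
    congr 1
    push_cast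
    ring
  have hdr0 : dr R 0 = 0 := by
    have h1 := hd.smul 0 hl.zero 0
    simpa using h1
  have hsum : ∀ (s : Finset (Fin r)) (θ : Fin r → ℝ), (∑ j ∈ s, (θ j : ℂ) • Y j) ∈ lie H ∧
      dr R (∑ j ∈ s, (θ j : ℂ) • Y j) = ∑ j ∈ s, (θ j : ℂ) • dr R (Y j) := by
    intro s θ
    induction s using Finset.induction_on with
    | empty => exact ⟨by simpa using hl.zero, by simpa using hdr0⟩
    | insert j s hj ih =>
      rw [Finset.sum_insert hj, Finset.sum_insert hj]
      have h1 := hl.smul (θ j) _ (hY j)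
      refine ⟨hl.add _ h1 _ ih.1, ?_⟩
      rw [hd.add _ h1 _ ih.1, hd.smul _ (hY j), ih.2]
  have hcomm : ∀ i j, dr R (Y i) * dr R (Y j) = dr R (Y j) * dr R (Y i) := by
    intro i j
    have h1 := hd.br _ (hY i) _ (hY j)
    have h2 : Y i * Y j - Y j * Y i = 0 := by
      change ((((2 * π : ℝ) : ℂ) * Complex.I) • Hc i) * ((((2 * π : ℝ) : ℂ) * Complex.I) • Hc j) -
        ((((2 * π : ℝ) : ℂ) * Complex.I) • Hc j) * ((((2 * π : ℝ) : ℂ) * Complex.I) • Hc i) = 0
      rw [smul_mul_smul_comm, smul_mul_smul_comm, hL.comm i j, sub_self]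
    rw [h2, hdr0] at h1
    exact (sub_eq_zero.1 h1.symm)
  obtain ⟨U, β, hU1, hU2, hA⟩ := TRES.diag (fun j => dr R (Y j)) (fun j => hd.skew _ (hY j)) hcomm
  -- a point of the torus
  have hg : ∀ (g : H) (θ : Fin r → ℝ), g.1 = ta Hc θ →
      R.ρ g = NormedSpace.exp (∑ j, (θ j : ℂ) • dr R (Y j)) := by
    intro g θ hgθ
    have h1 : exH H (hx Hc fun j => 2 * π * θ j) 1 = g := by
      unfold exH
      have h2 : ex (hx Hc fun j => 2 * π * θ j) 1 ∈ H := ht.mem θ
      rw [dif_pos h2]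
      exact Subtype.ext hgθ.symm
    have h3 := hd.ex (hx Hc fun j => 2 * π * θ j) (ht.hmem _) 1
    rw [h1, hhx, (hsum Finset.univ θ).2] at h3
    simpa using h3
  have hdg : ∀ θ : Fin r → ℝ, ∑ j, (θ j : ℂ) • dr R (Y j) =
      U * Matrix.diagonal (fun k => ∑ j, (θ j : ℂ) * β k j) * Uᴴ := by
    intro θ
    have h1 : Matrix.diagonal (fun k => ∑ j, (θ j : ℂ) * β k j) =
        ∑ j, (θ j : ℂ) • Matrix.diagonal (fun k => β k j) := by
      ext a b
      rw [Matrix.sum_apply]
      by_cases hab : a = b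
      · subst hab
        simp [Matrix.diagonal_apply_eq]
      · simp [Matrix.diagonal_apply_ne _ hab]
    rw [h1, Finset.mul_sum, Finset.sum_mul]
    refine Finset.sum_congr rfl fun j _ => ?_
    rw [hA j, Matrix.mul_smul, Matrix.smul_mul]
  -- integrality
  have hint : ∀ j k, ∃ m : ℤ, β k j = m * (2 * π * Complex.I) := by
    intro j k
    have h1 : R.ρ 1 = NormedSpace.exp
        (∑ i, (((Pi.single j 1 : Fin r → ℤ) i : ℝ) : ℂ) • dr R (Y i)) := by
      refine hg 1 (fun i => ((Pi.single j 1 : Fin r → ℤ) i : ℝ)) ?_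
      exact (ht.int (Pi.single j 1)).symm
    rw [map_one, hdg, TRES.exp_conj hU1] at h1
    have h2 : Matrix.diagonal (fun k => Complex.exp
        (∑ i, (((Pi.single j 1 : Fin r → ℤ) i : ℝ) : ℂ) * β k i)) = 1 := by
      have h3 : Uᴴ * 1 * U = Uᴴ * (U * Matrix.diagonal (fun k => Complex.exp
        (∑ i, (((Pi.single j 1 : Fin r → ℤ) i : ℝ) : ℂ) * β k i)) * Uᴴ) * U := by rw [← h1]
      rw [mul_one, hU2] at h3
      rw [h3]
      simp only [← mul_assoc]
      rw [hU2, one_mul, mul_assoc, hU2, mul_one]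
    have h4 := congrFun (congrFun h2 k) k
    rw [Matrix.diagonal_apply_eq, Matrix.one_apply_eq] at h4
    have h5 : ∑ i, (((Pi.single j 1 : Fin r → ℤ) i : ℝ) : ℂ) * β k i = β k j := by
      rw [Finset.sum_eq_single j]
      · simp
      · intro i _ hi
        simp [Pi.single_eq_of_ne hi]
      · intro h
        exact absurd (Finset.mem_univ _) h
    rw [h5] at h4
    exact Complex.exp_eq_one_iff.1 h4
  choose m hm using hint
  refine ⟨U, fun k j => m j k, hU1, hU2, ?_⟩
  intro g θ hgθ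
  rw [hg g θ hgθ, hdg, TRES.exp_conj hU1]
  congr 3
  funext k
  unfold eu dz
  congr 1
  push_cast
  rw [Finset.mul_sum, Finset.sum_mul]
  refine Finset.sum_congr rfl fun j _ => ?_
  rw [hm j k]
  ring

end

end LGR
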