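import Pool.Agent.LGR.StR

/-!
# TRIV: an irreducible representation which is trivial on the one-parameter groups is trivial
-/

namespace LGR

open STZ MeasureTheory Matrix Filter

open scoped ComplexConjugate Matrix Real Topology

noncomputable section

theorem t_TRIV : M_TRIV := by
  intro hTAUF hCONJ N H r Φ B Hc E hcl hcon hL n σ hirr htriv
  have hT : TAF H Φ Hc E := hTAUF N H r Φ B Hc E hcl hL
  have hone : ∀ g, σ.ρ g = 1 := by
    intro g
    obtain ⟨h, hh, θ, hg⟩ := hCONJ N H r Φ B Hc E hcl hcon hL g.1 g.2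
    have hmem : hx Hc (fun j => 2 * π * θ j) ∈ lie H := hT.hmem _
    have h1 : (exH H (hx Hc fun j => 2 * π * θ j) 1).1 = ta Hc θ := by
      rw [exH, dif_pos (hmem.2 1)]
      rfl
    have h2 : g = (⟨h, hh⟩ : H) * exH H (hx Hc fun j => 2 * π * θ j) 1 * (⟨h, hh⟩ : H)⁻¹ := by
      apply Subtype.ext
      rw [Subgroup.coe_mul, Subgroup.coe_mul, h1, Subgroup.coe_inv]
      exact hg
    rw [h2, map_mul, map_mul, htriv _ hmem 1, mul_one, ← map_mul, mul_inv_cancel, map_one]
  refine ⟨?_, hone⟩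
  obtain ⟨⟨i⟩, hX⟩ := hirr
  by_contra hn
  obtain ⟨j, hj⟩ : ∃ j : Fin n, j ≠ i := by
    have h0 : 0 < n := i.pos
    have : Nontrivial (Fin n) := Fin.nontrivial_iff_two_le.2 (by omega)
    exact exists_ne i
  obtain ⟨c, hc⟩ := hX (Matrix.single i i 1) (by
    intro g
    rw [hone, mul_one, one_mul])
  have h1 := congrFun (congrFun hc i) i
  have h2 := congrFun (congrFun hc j) j
  rw [Matrix.single_apply, Matrix.smul_apply, Matrix.one_apply_eq, smul_eq_mul, mul_one] at h1 h2
  rw [if_pos ⟨rfl, rfl⟩] at h1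
  rw [if_neg (fun h => hj h.1.symm)] at h2
  rw [← h1] at h2
  exact zero_ne_one h2

end

end LGR
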