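import Pool.Agent.LGR.StA

/-!
# LGR, module UNIF: uniform density of roots in subspaces
-/

set_option autoImplicit false

namespace LGR

open STZ MeasureTheory Matrix Filter

open scoped ComplexConjugate Matrix Real Topology

noncomputable section

namespace UNIF

variable {r : ℕ}

/-- the real vector of an integral vector -/
def cr (x : Fin r → ℤ) : Fin r → ℝ := fun i => (x i : ℝ)

/-- the real matrix of the invariant form -/
def Ar (Φ : RT r) : Matrix (Fin r) (Fin r) ℝ := (rd Φ).A.map (Int.cast : ℤ → ℝ)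

lemma cast_form (Φ : RT r) (x y : Fin r → ℤ) :
    ((x ⬝ᵥ ((rd Φ).A *ᵥ y) : ℤ) : ℝ) = cr x ⬝ᵥ (Ar Φ *ᵥ cr y) := by
  simp [dotProduct, mulVec, cr, Ar]

lemma Ar_apply (Φ : RT r) (i j : Fin r) :
    Ar Φ i j = ∑ p ∈ pos Φ, 2 * (p.2 i : ℝ) * (p.2 j : ℝ) := by
  simp [Ar, rd]

/-- the isometric embedding -/
def J (Φ : RT r) : (Fin r → ℝ) →ₗ[ℝ] EuclideanSpace ℝ (pos Φ) where
  toFun x := WithLp.toLp 2 fun p => √2 * (cr p.1.2 ⬝ᵥ x)
  map_add' x y := by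
    ext p
    simp only [dotProduct_add, mul_add, PiLp.add_apply]
  map_smul' c x := by
    ext p
    simp only [dotProduct_smul, smul_eq_mul, RingHom.id_apply, PiLp.smul_apply]
    ring

lemma inner_J (Φ : RT r) (x y : Fin r → ℝ) :
    inner ℝ (J Φ x) (J Φ y) = x ⬝ᵥ (Ar Φ *ᵥ y) := by
  have h1 : inner ℝ (J Φ x) (J Φ y) =
      ∑ p : pos Φ, 2 * (cr p.1.2 ⬝ᵥ x) * (cr p.1.2 ⬝ᵥ y) := by
    rw [PiLp.inner_apply]
    refine Finset.sum_congr rfl fun p _ => ?_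
    have h2 : (√2 : ℝ) * √2 = 2 := Real.mul_self_sqrt (by norm_num)
    change (√2 * (cr p.1.2 ⬝ᵥ y)) * (√2 * (cr p.1.2 ⬝ᵥ x)) = _
    linear_combination (cr p.1.2 ⬝ᵥ x) * (cr p.1.2 ⬝ᵥ y) * h2
  rw [h1, Finset.sum_coe_sort (pos Φ) (fun p => 2 * (cr p.2 ⬝ᵥ x) * (cr p.2 ⬝ᵥ y))]
  have h3 : x ⬝ᵥ (Ar Φ *ᵥ y) = ∑ i, ∑ j, ∑ p ∈ pos Φ, 2 * (p.2 i : ℝ) * (p.2 j : ℝ) * x i * y j := by
    unfold dotProduct mulVec dotProduct
    refine Finset.sum_congr rfl fun i _ => ?_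
    rw [Finset.mul_sum]
    refine Finset.sum_congr rfl fun j _ => ?_
    change x i * (Ar Φ i j * y j) = _
    rw [Ar_apply, Finset.sum_mul, Finset.mul_sum]
    refine Finset.sum_congr rfl fun p _ => ?_
    ring
  rw [h3]
  have h4 : ∀ p : (Fin r → ℤ) × (Fin r → ℤ), 2 * (cr p.2 ⬝ᵥ x) * (cr p.2 ⬝ᵥ y) =
      ∑ i, ∑ j, 2 * (p.2 i : ℝ) * (p.2 j : ℝ) * x i * y j := by
    intro p
    unfold dotProduct cr
    rw [mul_assoc, Finset.sum_mul_sum, Finset.mul_sum]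
    refine Finset.sum_congr rfl fun i _ => ?_
    rw [Finset.mul_sum]
    refine Finset.sum_congr rfl fun j _ => ?_
    ring
  rw [Finset.sum_congr rfl fun p _ => h4 p, Finset.sum_comm]
  refine Finset.sum_congr rfl fun i _ => ?_
  rw [Finset.sum_comm]

lemma base_mem_pos {Φ : RT r} {B : Matrix (Fin r) (Fin r) ℤ} (h : IRD Φ B) (i : Fin r) :
    (B i, Pi.single i 1) ∈ pos Φ := by
  unfold pos
  rw [Finset.mem_filter]
  refine ⟨h.base i, fun j => ?_⟩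
  change (0 : ℤ) ≤ (Pi.single i 1 : Fin r → ℤ) j
  by_cases hj : j = i
  · subst hj; simp
  · rw [Pi.single_eq_of_ne hj]

lemma J_inj {Φ : RT r} {B : Matrix (Fin r) (Fin r) ℤ} (h : IRD Φ B) :
    Function.Injective (J Φ) := by
  rw [injective_iff_map_eq_zero]
  intro x hx
  funext i
  have h1 := congrArg (fun v : EuclideanSpace ℝ (pos Φ) => v ⟨_, base_mem_pos h i⟩) hx
  have h2 : √2 * (cr (Pi.single i 1 : Fin r → ℤ) ⬝ᵥ x) = 0 := h1
  have h3 : cr (Pi.single i 1 : Fin r → ℤ) = Pi.single i (1 : ℝ) := by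
    funext j
    unfold cr
    by_cases hj : j = i
    · subst hj; simp
    · rw [Pi.single_eq_of_ne hj, Pi.single_eq_of_ne hj]; simp
  rw [h3, single_one_dotProduct] at h2
  have h4 : (√2 : ℝ) ≠ 0 := by positivity
  exact (mul_eq_zero.mp h2).resolve_left h4

/-- the norm square of a root -/
def nn (Φ : RT r) (p : (Fin r → ℤ) × (Fin r → ℤ)) : ℝ := cr p.1 ⬝ᵥ (Ar Φ *ᵥ cr p.1)

/-- the averaged form -/
def G (Φ : RT r) : Matrix (Fin r) (Fin r) ℝ :=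
  ∑ p ∈ pos Φ, (nn Φ p)⁻¹ • vecMulVec (Ar Φ *ᵥ cr p.1) (Ar Φ *ᵥ cr p.1)

lemma G_form (Φ : RT r) (x y : Fin r → ℝ) : x ⬝ᵥ (G Φ *ᵥ y) =
    ∑ p ∈ pos Φ, (nn Φ p)⁻¹ * (x ⬝ᵥ (Ar Φ *ᵥ cr p.1)) * (y ⬝ᵥ (Ar Φ *ᵥ cr p.1)) := by
  unfold G
  rw [sum_mulVec, dotProduct_sum]
  refine Finset.sum_congr rfl fun p _ => ?_
  rw [smul_mulVec, dotProduct_smul, vecMulVec_mulVec]
  simp only [smul_eq_mul, dotProduct_smul, op_smul_eq_smul]
  rw [dotProduct_comm (Ar Φ *ᵥ cr p.1) y]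
  ring

lemma cr_neg (x : Fin r → ℤ) : cr (-x) = -cr x := by
  funext i
  simp [cr]

/-- the term of the averaged form -/
def tm (Φ : RT r) (x y : Fin r → ℝ) (p : (Fin r → ℤ) × (Fin r → ℤ)) : ℝ :=
  (nn Φ p)⁻¹ * (x ⬝ᵥ (Ar Φ *ᵥ cr p.1)) * (y ⬝ᵥ (Ar Φ *ᵥ cr p.1))

lemma tm_neg (Φ : RT r) (x y : Fin r → ℝ) (p : (Fin r → ℤ) × (Fin r → ℤ)) :
    tm Φ x y (-p.1, -p.2) = tm Φ x y p := by
  unfold tm nn
  simp only [cr_neg, mulVec_neg, dotProduct_neg, neg_dotProduct]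
  ring

lemma inv_sum {Φ : RT r} {B : Matrix (Fin r) (Fin r) ℤ} (hI : IRD Φ B) (hW : WFF Φ B)
    (hq : ∀ w ∈ WF Φ, ∀ l l', (w *ᵥ l) ⬝ᵥ ((rd Φ).A *ᵥ (w *ᵥ l')) = l ⬝ᵥ ((rd Φ).A *ᵥ l'))
    {w : Matrix (Fin r) (Fin r) ℤ} (hw : w ∈ WF Φ) (l l' : Fin r → ℤ) :
    ∑ p ∈ pos Φ, tm Φ (cr (w *ᵥ l)) (cr (w *ᵥ l')) p = ∑ p ∈ pos Φ, tm Φ (cr l) (cr l') p := by
  classical
  obtain ⟨w', hw', h1, h2⟩ := hW.inv w hw
  -- the root `w' p`
  have hex : ∀ p : (Fin r → ℤ) × (Fin r → ℤ), ∃ q : (Fin r → ℤ) × (Fin r → ℤ),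
      p ∈ pos Φ → q ∈ pos Φ ∧ (p.1 = w *ᵥ q.1 ∨ p.1 = -(w *ᵥ q.1)) := by
    intro p
    by_cases hp : p ∈ pos Φ
    · obtain ⟨q, hq1, hq2, -⟩ := hW.perm w' hw' p (hW.ppos p hp).1
      have h3 : p.1 = w *ᵥ q.1 := by
        rw [← hq2, mulVec_mulVec, h2, one_mulVec]
      by_cases hq3 : q ∈ pos Φ
      · exact ⟨q, fun _ => ⟨hq3, Or.inl h3⟩⟩
      · refine ⟨(-q.1, -q.2), fun _ => ⟨?_, Or.inr ?_⟩⟩
        · by_contra hcon
          exact hq3 ((hW.dich q hq1).mpr hcon)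
        · change p.1 = -(w *ᵥ (-q.1))
          rw [mulVec_neg, neg_neg, ← h3]
    · exact ⟨p, fun h => absurd h hp⟩
  choose σ hσ using hex
  have hmaps : ∀ p ∈ pos Φ, σ p ∈ pos Φ := fun p hp => (hσ p hp).1
  have hinj : Set.InjOn σ (pos Φ : Set _) := by
    intro p hp q hq' hpq
    have hp' := (hσ p hp).2
    have hq2 := (hσ q hq').2
    rw [hpq] at hp'
    have hpΦ := (hW.ppos p hp).1
    have hqΦ := (hW.ppos q hq').1
    have h5 : p.1 = q.1 ∨ p.1 = -q.1 := by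
      rcases hp' with h | h <;> rcases hq2 with h' | h'
      · left; rw [h, h']
      · right; rw [h, h', neg_neg]
      · right; rw [h, h']
      · left; rw [h, h']
    have h6 : q = p ∨ q = (-p.1, -p.2) := by
      rcases h5 with h | h
      · exact hI.red p hpΦ q hqΦ 1 1 one_ne_zero (Or.inl (by rw [h]))
      · refine hI.red p hpΦ q hqΦ 1 (-1) one_ne_zero (Or.inl ?_)
        rw [h, one_smul, neg_smul, one_smul]
    rcases h6 with h | h
    · exact h.symm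
    · exfalso
      have h7 := (hW.dich p hpΦ).mp hp
      rw [← h] at h7
      exact h7 hq'
  have himg : (pos Φ).image σ = pos Φ := by
    apply Finset.eq_of_subset_of_card_le
    · intro q hq'
      obtain ⟨p, hp, rfl⟩ := Finset.mem_image.mp hq'
      exact hmaps p hp
    · rw [Finset.card_image_of_injOn hinj]
  have hterm : ∀ p ∈ pos Φ, tm Φ (cr (w *ᵥ l)) (cr (w *ᵥ l')) p = tm Φ (cr l) (cr l') (σ p) := by
    intro p hp
    have hb : ∀ x y : Fin r → ℤ, cr (w *ᵥ x) ⬝ᵥ (Ar Φ *ᵥ cr (w *ᵥ y)) = cr x ⬝ᵥ (Ar Φ *ᵥ cr y) := by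
      intro x y
      rw [← cast_form, ← cast_form, hq w hw]
    unfold tm nn
    rcases (hσ p hp).2 with h | h
    · rw [h, hb, hb, hb]
    · rw [h]
      simp only [cr_neg, mulVec_neg, dotProduct_neg, neg_dotProduct]
      rw [hb, hb, hb]
      ring
  rw [Finset.sum_congr rfl hterm]
  conv_rhs => rw [← himg]
  rw [Finset.sum_image hinj]

/-- the sum over an orthonormal basis of a subspace -/
lemma sum_basis {E : Type*} [NormedAddCommGroup E] [InnerProductSpace ℝ E] (U : Submodule ℝ E)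
    [FiniteDimensional ℝ U] (y : E) (hy : y ∈ U) :
    ∑ j, (inner ℝ ((stdOrthonormalBasis ℝ U j : U) : E) y) ^ 2 = inner ℝ y y := by
  have h := (stdOrthonormalBasis ℝ U).sum_sq_norm_inner_right ⟨y, hy⟩
  rw [real_inner_self_eq_norm_sq]
  have h2 : ‖(⟨y, hy⟩ : U)‖ = ‖y‖ := rfl
  rw [h2] at h
  rw [← h]
  refine Finset.sum_congr rfl fun j _ => ?_
  rw [Real.norm_eq_abs, sq_abs]
  rfl

end UNIF

open UNIF in
/-- UNIF. -/
theorem t_UNIF : M_UNIF := by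
  intro hQ hS r Φ B hr hI hW F T hT hTF
  obtain ⟨-, -, -, -, hq5, -, hq7⟩ := hQ r Φ B hI hW
  obtain ⟨k, hk⟩ := hS r Φ B hr hI hW (G Φ) (by
    intro w hw l l'
    change cr (w *ᵥ l) ⬝ᵥ (G Φ *ᵥ cr (w *ᵥ l')) = cr l ⬝ᵥ (G Φ *ᵥ cr l')
    rw [G_form, G_form]
    exact inv_sum hI hW hq5 hw l l')
  have hnn : ∀ p ∈ pos Φ, 0 < UNIF.nn Φ p := by
    intro p hp
    have h := (hq7 p (hW.ppos p hp).1).1
    unfold UNIF.nn
    rw [← cast_form]
    exact_mod_cast h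
  -- the identity for all vectors
  have hid : ∀ f : Fin r → ℝ, ∑ p ∈ pos Φ, (nn Φ p)⁻¹ * (inner ℝ (J Φ f) (J Φ (cr p.1))) ^ 2 =
      k * inner ℝ (J Φ f) (J Φ f) := by
    intro f
    have h1 := G_form Φ f f
    have h2 : f ⬝ᵥ (G Φ *ᵥ f) = k * inner ℝ (J Φ f) (J Φ f) := by
      rw [hk, inner_J, smul_mulVec, dotProduct_smul, smul_eq_mul]
      rfl
    rw [← h2, h1]
    refine Finset.sum_congr rfl fun p _ => ?_
    rw [inner_J]
    ring
  have hself : ∀ p, inner ℝ (J Φ (cr p.1)) (J Φ (cr p.1)) = nn Φ p := fun p => inner_J Φ _ _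
  -- the total for a subspace
  have htot : ∀ F' : Submodule ℝ (Fin r → ℝ),
      ∑ p ∈ pos Φ, (nn Φ p)⁻¹ * ∑ j, (inner ℝ
        ((stdOrthonormalBasis ℝ (F'.map (J Φ)) j : F'.map (J Φ)) :
          EuclideanSpace ℝ (pos Φ)) (J Φ (cr p.1))) ^ 2 = k * Module.finrank ℝ F' := by
    intro F'
    have h1 : ∀ j, ∑ p ∈ pos Φ, (nn Φ p)⁻¹ * (inner ℝ
        ((stdOrthonormalBasis ℝ (F'.map (J Φ)) j : F'.map (J Φ)) :
          EuclideanSpace ℝ (pos Φ)) (J Φ (cr p.1))) ^ 2 = k := by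
      intro j
      obtain ⟨f, -, hf⟩ := (stdOrthonormalBasis ℝ (F'.map (J Φ)) j).2
      have h2 := hid f
      rw [hf] at h2
      have h3 : ‖((stdOrthonormalBasis ℝ (F'.map (J Φ)) j : F'.map (J Φ)) :
          EuclideanSpace ℝ (pos Φ))‖ = 1 :=
        (stdOrthonormalBasis ℝ (F'.map (J Φ))).norm_eq_one j
      rw [h2, real_inner_self_eq_norm_sq, h3]
      ring
    simp_rw [Finset.mul_sum]
    rw [Finset.sum_comm, Finset.sum_congr rfl fun j _ => h1 j, Finset.sum_const, Finset.card_univ,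
      Fintype.card_fin, nsmul_eq_mul, mul_comm]
    have h4 : Module.finrank ℝ (F'.map (J Φ)) = Module.finrank ℝ F' :=
      (Submodule.equivMapOfInjective (J Φ) (J_inj hI) F').finrank_eq.symm
    rw [h4]
  -- the whole space
  have h1 : ((pos Φ).card : ℝ) = k * r := by
    have h := htot ⊤
    rw [finrank_top, Module.finrank_fin_fun] at h
    rw [← h, Finset.card_eq_sum_ones, Nat.cast_sum]
    refine Finset.sum_congr rfl fun p hp => ?_
    rw [sum_basis _ _ (Submodule.mem_map_of_mem Submodule.mem_top), hself, Nat.cast_one,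
      inv_mul_cancel₀ (hnn p hp).ne']
  have h2 : (T.card : ℝ) ≤ k * Module.finrank ℝ F := by
    rw [← htot F, Finset.card_eq_sum_ones, Nat.cast_sum]
    refine le_trans (Finset.sum_le_sum fun p hp => ?_)
      (Finset.sum_le_sum_of_subset_of_nonneg hT fun p hp _ => ?_)
    · have h5 : cr p.1 ∈ F := hTF p hp
      rw [sum_basis _ _ (Submodule.mem_map_of_mem h5), hself, Nat.cast_one,
        inv_mul_cancel₀ (hnn p (hT hp)).ne']
    · exact mul_nonneg (inv_nonneg.mpr (hnn p hp).le)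
        (Finset.sum_nonneg fun j _ => sq_nonneg _)
  have h3 : ((r * T.card : ℕ) : ℝ) ≤ (((pos Φ).card * Module.finrank ℝ F : ℕ) : ℝ) := by
    push_cast
    calc (r : ℝ) * T.card ≤ r * (k * Module.finrank ℝ F) :=
          mul_le_mul_of_nonneg_left h2 (Nat.cast_nonneg r)
      _ = (pos Φ).card * Module.finrank ℝ F := by rw [h1]; ring
  exact_mod_cast h3

end

end LGR
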