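import Pool.Agent.LGR.StV
import Pool.Agent.STZ.Base

/-!
# VLEM: the measure of the set where `Ψ` is small
-/

namespace LGR

open STZ MeasureTheory Matrix Filter

open scoped ComplexConjugate Matrix Real Topology

noncomputable section

namespace VLEM

variable {N : ℕ} {H : Subgroup (SU N)}

theorem exH_eq {X : Matrix (Fin N) (Fin N) ℂ} (hX : X ∈ lie H) (t : ℝ) :
    exH H X t = ⟨ex X t, hX.2 t⟩ := by
  unfold exH
  rw [dif_pos (hX.2 t)]

theorem exH_cont (hE : S_EXP) {X : Matrix (Fin N) (Fin N) ℂ} (hX : X ∈ lie H) :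
    Continuous (exH H X) := by
  have h1 : exH H X = fun t => (⟨ex X t, hX.2 t⟩ : H) := funext fun t => exH_eq hX t
  rw [h1]
  exact Continuous.subtype_mk (hE N X hX.1).cont _

theorem exH_zero (hE : S_EXP) {X : Matrix (Fin N) (Fin N) ℂ} (hX : X ∈ lie H) :
    exH H X 0 = 1 := by
  rw [exH_eq hX]
  exact Subtype.ext (hE N X hX.1).zero

theorem eprod_cont (hE : S_EXP) {n : ℕ} {X : Fin n → Matrix (Fin N) (Fin N) ℂ}
    (hX : ∀ i, X i ∈ lie H) : Continuous (eprod H X) := by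
  have h1 : eprod H X = fun s => ((List.finRange n).map fun i => exH H (X i) (s i)).prod := by
    funext s
    unfold eprod
    rw [List.ofFn_eq_map]
  rw [h1]
  exact continuous_list_prod _ fun i _ => (exH_cont hE (hX i)).comp (continuous_apply i)

theorem eprod_zero (hE : S_EXP) {n : ℕ} {X : Fin n → Matrix (Fin N) (Fin N) ℂ}
    (hX : ∀ i, X i ∈ lie H) : eprod H X 0 = 1 := by
  unfold eprod
  rw [List.ofFn_eq_map]
  refine List.prod_eq_one fun x hx => ?_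
  obtain ⟨i, -, rfl⟩ := List.mem_map.1 hx
  exact exH_zero hE (hX i)

/-- the local estimate, abstractly -/
theorem local_bound (μ : Measure H) [IsProbabilityMeasure μ] [μ.IsMulLeftInvariant] {n : ℕ}
    (P : (Fin n → ℝ) → H) (hP : Continuous P) {S V U : Set H} (hS : IsClosed S) (hV : IsOpen V)
    {η r : ℝ} (hη : 0 < η) (hr : 0 ≤ r) (hU : ∀ s : Fin n → ℝ, ‖s‖ ≤ η → ∀ g ∈ V, (P s)⁻¹ * g ∈ U)
    (hd : ∀ g ∈ U, ∀ s s' : Fin n → ℝ, ‖s‖ ≤ η → ‖s'‖ ≤ η → P s * g ∈ S → P s' * g ∈ S →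
      ‖s - s'‖ ≤ r) :
    μ (S ∩ V) ≤ ENNReal.ofReal ((r / η) ^ n) := by
  set Q : Set (Fin n → ℝ) := Metric.closedBall 0 η with hQ
  have mQ : ∀ s, s ∈ Q ↔ ‖s‖ ≤ η := fun s => mem_closedBall_zero_iff
  set W : Set ((Fin n → ℝ) × H) := {x | x.1 ∈ Q ∧ P x.1 * x.2 ∈ S ∩ V} with hW
  have hc : Continuous fun x : (Fin n → ℝ) × H => P x.1 * x.2 :=
    (hP.comp continuous_fst).mul continuous_snd
  have hWm : MeasurableSet W := by
    have h1 : MeasurableSet {x : (Fin n → ℝ) × H | x.1 ∈ Q} :=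
      measurable_fst Metric.isClosed_closedBall.measurableSet
    have h2 : MeasurableSet ((fun x : (Fin n → ℝ) × H => P x.1 * x.2) ⁻¹' (S ∩ V)) :=
      hc.measurable (hS.measurableSet.inter hV.measurableSet)
    exact h1.inter h2
  have e1 : (volume.prod μ) W = μ (S ∩ V) * volume Q := by
    rw [Measure.prod_apply hWm]
    have h1 : ∀ s, μ (Prod.mk s ⁻¹' W) = Q.indicator (fun _ => μ (S ∩ V)) s := by
      intro s
      by_cases hs : s ∈ Q
      · rw [Set.indicator_of_mem hs]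
        have h2 : Prod.mk s ⁻¹' W = (fun g => P s * g) ⁻¹' (S ∩ V) := by
          ext g
          exact ⟨fun h => h.2, fun h => ⟨hs, h⟩⟩
        rw [h2, measure_preimage_mul]
      · rw [Set.indicator_of_notMem hs]
        have h2 : Prod.mk s ⁻¹' W = ∅ := by
          ext g
          exact ⟨fun h => hs h.1, fun h => h.elim⟩
        rw [h2, measure_empty]
    rw [lintegral_congr h1, lintegral_indicator Metric.isClosed_closedBall.measurableSet,
      setLIntegral_const]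
  have e2 : (volume.prod μ) W ≤ ENNReal.ofReal ((2 * r) ^ n) := by
    rw [Measure.prod_apply_symm hWm]
    have h1 : ∀ g : H, volume ((fun s => (s, g)) ⁻¹' W) ≤ ENNReal.ofReal ((2 * r) ^ n) := by
      intro g
      rcases Set.eq_empty_or_nonempty ((fun s => (s, g)) ⁻¹' W) with h | ⟨s₀, hs₀⟩
      · rw [h, measure_empty]
        exact zero_le
      · have hg : g ∈ U := by
          have h2 := hU s₀ ((mQ s₀).1 hs₀.1) _ hs₀.2.2
          change (P s₀)⁻¹ * (P s₀ * g) ∈ U at h2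
          rwa [inv_mul_cancel_left] at h2
        have h3 : (fun s => (s, g)) ⁻¹' W ⊆ Metric.closedBall s₀ r := by
          intro s hs
          rw [Metric.mem_closedBall, dist_eq_norm]
          exact hd g hg s s₀ ((mQ s).1 hs.1) ((mQ s₀).1 hs₀.1) hs.2.1 hs₀.2.1
        refine (measure_mono h3).trans ?_
        rw [Real.volume_pi_closedBall _ hr, Fintype.card_fin]
    refine (lintegral_mono h1).trans ?_
    rw [lintegral_const, measure_univ, mul_one]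
  have e3 : volume Q = ENNReal.ofReal ((2 * η) ^ n) := by
    rw [hQ, Real.volume_pi_closedBall _ hη.le, Fintype.card_fin]
  rw [e1, e3] at e2
  have h4 : (0 : ℝ) < (2 * η) ^ n := by positivity
  have h5 : ENNReal.ofReal ((2 * η) ^ n) ≠ 0 := by
    rw [Ne, ENNReal.ofReal_eq_zero, not_le]
    exact h4
  have h6 : μ (S ∩ V) ≤ ENNReal.ofReal ((2 * r) ^ n) / ENNReal.ofReal ((2 * η) ^ n) :=
    (ENNReal.le_div_iff_mul_le (Or.inl h5) (Or.inl ENNReal.ofReal_ne_top)).2 e2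
  refine h6.trans (le_of_eq ?_)
  rw [← ENNReal.ofReal_div_of_pos h4]
  congr 1
  rw [← div_pow]
  congr 1
  field_simp

theorem near (hE : S_EXP) (μ : Measure H) [IsProbabilityMeasure μ]
    [μ.IsMulLeftInvariant] (n : ℕ) (ι : Type) [Fintype ι]
    (Ψ : H → ι → ℂ) (hΨ : Continuous Ψ) (g₀ : H)
    (h : ∃ (X : Fin n → Matrix (Fin N) (Fin N) ℂ) (c η : ℝ) (U : Set H), (∀ i, X i ∈ lie H) ∧ 0 < c ∧
      0 < η ∧ U ∈ 𝓝 g₀ ∧ ∀ g ∈ U, ∀ s s' : Fin n → ℝ, (∀ i, |s i| ≤ η) → (∀ i, |s' i| ≤ η) →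
        c * ‖s - s'‖ ≤ ‖Ψ (eprod H X s * g) - Ψ (eprod H X s' * g)‖) :
    ∃ V ∈ 𝓝 g₀, ∃ C : ℝ, 0 ≤ C ∧
      ∀ ε : ℝ, 0 < ε → μ ({g | ‖Ψ g‖ ≤ ε} ∩ V) ≤ ENNReal.ofReal (C * ε ^ n) := by
  obtain ⟨X, c, η, U, hX, hc, hη, hU, hd⟩ := h
  have hP : Continuous (eprod H X) := eprod_cont hE hX
  have hF : Continuous fun x : (Fin n → ℝ) × H => (eprod H X x.1)⁻¹ * x.2 :=
    (hP.comp continuous_fst).inv.mul continuous_snd
  have h0 : (fun x : (Fin n → ℝ) × H => (eprod H X x.1)⁻¹ * x.2) (0, g₀) = g₀ := by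
    change (eprod H X 0)⁻¹ * g₀ = g₀
    rw [eprod_zero hE hX, inv_one, one_mul]
  have h1 : (fun x : (Fin n → ℝ) × H => (eprod H X x.1)⁻¹ * x.2) ⁻¹' U ∈
      𝓝 ((0 : Fin n → ℝ), g₀) := by
    have h2 := hF.continuousAt (x := ((0 : Fin n → ℝ), g₀))
    unfold ContinuousAt at h2
    rw [h0] at h2
    exact h2 hU
  rw [nhds_prod_eq, mem_prod_iff] at h1
  obtain ⟨A, hA, B, hB, hAB⟩ := h1
  obtain ⟨δ, hδ, hδA⟩ := Metric.nhds_basis_closedBall.mem_iff.1 hA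
  obtain ⟨V, hVB, hVo, hgV⟩ := mem_nhds_iff.1 hB
  set η' : ℝ := min δ η with hη'
  have hη'0 : 0 < η' := lt_min hδ hη
  refine ⟨V, hVo.mem_nhds hgV, (2 / (c * η')) ^ n, by positivity, fun ε hε => ?_⟩
  have key := local_bound μ (eprod H X) hP (S := {g | ‖Ψ g‖ ≤ ε}) (V := V) (U := U)
    (isClosed_le hΨ.norm continuous_const) hVo hη'0 (r := 2 * ε / c) (by positivity) ?_ ?_
  · refine key.trans (le_of_eq ?_)
    congr 1
    rw [← mul_pow]
    congr 1
    field_simp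
  · intro s hs g hg
    have h2 : (s, g) ∈ A ×ˢ B := by
      refine ⟨hδA ?_, hVB hg⟩
      rw [mem_closedBall_zero_iff]
      exact hs.trans (min_le_left _ _)
    have h5 := Set.mem_preimage.1 (hAB h2)
    exact h5
  · intro g hg s s' hs hs' h2 h3
    have hη2 : 0 ≤ η := hη.le
    have a1 : ∀ i, |s i| ≤ η := fun i =>
      ((norm_le_pi_norm s i).trans hs).trans (min_le_right _ _)
    have a2 : ∀ i, |s' i| ≤ η := fun i =>
      ((norm_le_pi_norm s' i).trans hs').trans (min_le_right _ _)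
    have h4 := hd g hg s s' a1 a2
    have h5 : ‖Ψ (eprod H X s * g) - Ψ (eprod H X s' * g)‖ ≤ 2 * ε := by
      refine (norm_sub_le _ _).trans ?_
      have h6 : ‖Ψ (eprod H X s * g)‖ ≤ ε := h2
      have h7 : ‖Ψ (eprod H X s' * g)‖ ≤ ε := h3
      linarith
    rw [le_div_iff₀ hc]
    linarith

theorem far (μ : Measure H) [IsProbabilityMeasure μ] (n : ℕ) (ι : Type) [Fintype ι]
    (Ψ : H → ι → ℂ) (hΨ : Continuous Ψ) (g₀ : H) (h : Ψ g₀ ≠ 0) :
    ∃ V ∈ 𝓝 g₀, ∃ C : ℝ, 0 ≤ C ∧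
      ∀ ε : ℝ, 0 < ε → μ ({g | ‖Ψ g‖ ≤ ε} ∩ V) ≤ ENNReal.ofReal (C * ε ^ n) := by
  have h0 : 0 < ‖Ψ g₀‖ := norm_pos_iff.2 h
  set δ : ℝ := ‖Ψ g₀‖ / 2 with hδ
  have hδ0 : 0 < δ := by positivity
  refine ⟨{g | δ < ‖Ψ g‖}, ?_, (1 / δ) ^ n, by positivity, fun ε hε => ?_⟩
  · refine (isOpen_lt continuous_const hΨ.norm).mem_nhds ?_
    change δ < ‖Ψ g₀‖
    rw [hδ]
    linarith
  · by_cases hεδ : ε ≤ δ
    · have h1 : {g | ‖Ψ g‖ ≤ ε} ∩ {g | δ < ‖Ψ g‖} = ∅ := by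
        ext g
        refine ⟨fun hg => ?_, fun hg => hg.elim⟩
        have h2 : ‖Ψ g‖ ≤ ε := hg.1
        have h3 : δ < ‖Ψ g‖ := hg.2
        exact absurd (h2.trans hεδ) (not_le.2 h3)
      rw [h1, measure_empty]
      exact zero_le
    · refine prob_le_one.trans ?_
      rw [← ENNReal.ofReal_one]
      refine ENNReal.ofReal_le_ofReal ?_
      rw [← mul_pow]
      refine one_le_pow₀ ?_
      rw [one_div, ← div_eq_inv_mul, one_le_div hδ0]
      exact (not_le.1 hεδ).le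

end VLEM

theorem t_VLEM : M_VLEM := by
  intro hE _ N H hH μ _ _ n ι _ Ψ hΨ h
  have hcs : CompactSpace H := isCompact_iff_compactSpace.1 hH.isCompact
  have key := IsCompact.induction_on (s := (Set.univ : Set H)) isCompact_univ
    (p := fun A => ∃ C : ℝ, 0 ≤ C ∧
      ∀ ε : ℝ, 0 < ε → μ ({g | ‖Ψ g‖ ≤ ε} ∩ A) ≤ ENNReal.ofReal (C * ε ^ n)) ?_ ?_ ?_ ?_
  · obtain ⟨C, hC, h1⟩ := key
    refine ⟨C, hC, fun ε hε => ?_⟩
    have h2 := h1 ε hε
    rwa [Set.inter_univ] at h2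
  · refine ⟨0, le_rfl, fun ε _ => ?_⟩
    rw [Set.inter_empty, measure_empty]
    exact zero_le
  · rintro A B hAB ⟨C, hC, h1⟩
    exact ⟨C, hC, fun ε hε => (measure_mono (Set.inter_subset_inter_right _ hAB)).trans (h1 ε hε)⟩
  · rintro A B ⟨C, hC, h1⟩ ⟨D, hD, h2⟩
    refine ⟨C + D, by positivity, fun ε hε => ?_⟩
    rw [Set.inter_union_distrib_left, add_mul, ENNReal.ofReal_add (by positivity) (by positivity)]
    exact (measure_union_le _ _).trans (add_le_add (h1 ε hε) (h2 ε hε))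
  · intro g₀ _
    rw [nhdsWithin_univ]
    by_cases h0 : Ψ g₀ = 0
    · exact VLEM.near hE μ n ι Ψ hΨ g₀ (h g₀ h0)
    · exact VLEM.far μ n ι Ψ hΨ g₀ h0

end

end LGR
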