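import Pool.Agent.LGR.StD
import Pool.Agent.STZ.EXP

/-!
# WEYC: conjugate elements of the torus are conjugate under the Weyl group
-/

namespace LGR

open STZ MeasureTheory Matrix Filter

open scoped ComplexConjugate Matrix Real Topology

noncomputable section

namespace WEYC

variable {N r : ℕ}

theorem mul_ct (g : SU N) : g.1 * g.1ᴴ = 1 :=
  (Matrix.mem_specialUnitaryGroup_iff.1 g.2).1.2

theorem ct_mul (g : SU N) : g.1ᴴ * g.1 = 1 :=
  (Matrix.mem_specialUnitaryGroup_iff.1 g.2).1.1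

theorem inv_val (g : SU N) : (g⁻¹).1 = g.1ᴴ := rfl

theorem exp_cj (g : SU N) (A : Matrix (Fin N) (Fin N) ℂ) :
    NormedSpace.exp (g.1 * A * g.1ᴴ) = g.1 * NormedSpace.exp A * g.1ᴴ :=
  Matrix.exp_units_conj ⟨g.1, g.1ᴴ, mul_ct g, ct_mul g⟩ A

theorem hx_smul (Hc : Fin r → Matrix (Fin N) (Fin N) ℂ) (s : ℝ) (x : Fin r → ℝ) :
    hx Hc (fun j => s * x j) = (s : ℂ) • hx Hc x := by
  unfold hx
  rw [Finset.smul_sum]
  refine Finset.sum_congr rfl fun j _ => ?_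
  rw [smul_smul]
  congr 1
  push_cast
  ring

/-- the one-parameter groups of the Cartan algebra -/
theorem ex_hx {H : Subgroup (SU N)} {Φ : RT r} {Hc : Fin r → Matrix (Fin N) (Fin N) ℂ}
    {E : (Fin r → ℤ) × (Fin r → ℤ) → Matrix (Fin N) (Fin N) ℂ} (hta : TAF H Φ Hc E)
    (x : Fin r → ℝ) (t : ℝ) : ex (hx Hc x) t = ta Hc (fun j => t * x j / (2 * π)) := by
  apply Subtype.ext
  rw [(t_EXP N _ (hta.hmem x).1).coe t, hta.coe]
  have h : (fun j => 2 * π * (t * x j / (2 * π))) = fun j => t * x j := by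
    funext j
    have := Real.pi_ne_zero
    field_simp
  rw [h, hx_smul]

theorem ex_cj {X : Matrix (Fin N) (Fin N) ℂ} (g : SU N) (hX : X ∈ su N)
    (hg : g.1 * X * g.1ᴴ ∈ su N) (t : ℝ) : ex (g.1 * X * g.1ᴴ) t = g * ex X t * g⁻¹ := by
  apply Subtype.ext
  have h : (g * ex X t * g⁻¹).1 = g.1 * (ex X t).1 * g.1ᴴ := rfl
  rw [h, (t_EXP N _ hg).coe t, (t_EXP N _ hX).coe t, ← exp_cj]
  congr 1
  simp

theorem ta_comm {H : Subgroup (SU N)} {Φ : RT r} {Hc : Fin r → Matrix (Fin N) (Fin N) ℂ}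
    {E : (Fin r → ℤ) × (Fin r → ℤ) → Matrix (Fin N) (Fin N) ℂ} (hta : TAF H Φ Hc E)
    (a b : Fin r → ℝ) : ta Hc a * ta Hc b = ta Hc b * ta Hc a := by
  rw [← hta.add, ← hta.add, add_comm]

/-- the action on the torus from the action on the Cartan algebra -/
theorem act {H : Subgroup (SU N)} {Φ : RT r} {Hc : Fin r → Matrix (Fin N) (Fin N) ℂ}
    {E : (Fin r → ℤ) × (Fin r → ℤ) → Matrix (Fin N) (Fin N) ℂ} (hta : TAF H Φ Hc E) (n : SU N)
    (u : Matrix (Fin r) (Fin r) ℤ)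
    (hn : ∀ x : Fin r → ℝ, n.1 * hx Hc x * n.1ᴴ = hx Hc (fun j => ∑ i, (u i j : ℝ) * x i))
    (θ : Fin r → ℝ) : n * ta Hc θ * n⁻¹ = ta Hc (fun j => ∑ i, (u i j : ℝ) * θ i) := by
  apply Subtype.ext
  have h : (n * ta Hc θ * n⁻¹).1 = n.1 * (ta Hc θ).1 * n.1ᴴ := rfl
  rw [h, hta.coe, hta.coe, ← exp_cj, hn]
  congr 2
  funext j
  rw [Finset.mul_sum]
  refine Finset.sum_congr rfl fun i _ => ?_
  ring

end WEYC

open WEYC in
theorem t_WEYC : M_WEYC := by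
  intro hLB hWF hCH hTA hWR hAU hNO hCX N H r Φ B Hc E hcl hco hL g hg θ θ' hgt
  have hlf := hLB N H hcl
  have hw : WFF Φ B := hWF r Φ B hL.ird
  have hta : TAF H Φ Hc E := hTA N H r Φ B Hc E hcl hL
  obtain ⟨x, hx0⟩ := hta.reg
  let H' : Subgroup (SU N) := H ⊓ Subgroup.centralizer {ta Hc θ'}
  have hmem : ∀ z : SU N, z ∈ H' ↔ z ∈ H ∧ ta Hc θ' * z = z * ta Hc θ' := by
    intro z
    rw [Subgroup.mem_inf, Subgroup.mem_centralizer_iff]
    simp
  have hH'cl : IsClosed (H' : Set (SU N)) := by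
    have h : (H' : Set (SU N)) = (H : Set (SU N)) ∩ {z | ta Hc θ' * z = z * ta Hc θ'} := by
      ext z
      exact hmem z
    rw [h]
    exact hcl.inter (isClosed_eq (continuous_const.mul continuous_id)
      (continuous_id.mul continuous_const))
  have hX : hx Hc x ∈ lie H' := by
    refine ⟨(hta.hmem x).1, fun t => (hmem _).2 ⟨(hta.hmem x).2 t, ?_⟩⟩
    rw [ex_hx hta, ta_comm hta]
  have hgX : g.1 * hx Hc x * g.1ᴴ ∈ lie H' := by
    have h1 := hlf.ad g hg _ (hta.hmem x)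
    refine ⟨h1.1, fun t => (hmem _).2 ⟨h1.2 t, ?_⟩⟩
    rw [ex_cj g (hta.hmem x).1 h1.1, ex_hx hta, ← hgt]
    have h2 : ∀ a b : SU N, g * a * g⁻¹ * (g * b * g⁻¹) = g * (a * b) * g⁻¹ := by
      intro a b
      group
    rw [h2, h2, ta_comm hta]
  obtain ⟨z, hz, hzn⟩ := hNO N H r Φ B Hc E hcl hL H' inf_le_left hH'cl x hx0 g hg hX hgX
  obtain ⟨hzH, hzt⟩ := (hmem z).1 hz
  have hnH : z⁻¹ * g ∈ H := H.mul_mem (H.inv_mem hzH) hg
  obtain ⟨u, hu, ⟨u', hu1, hu2⟩, hup⟩ := hAU N H r Φ B Hc E hcl hL (z⁻¹ * g) hnH hzn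
  have h3 : ta Hc (fun j => ∑ i, (u i j : ℝ) * θ i) = ta Hc θ' := by
    rw [← act hta _ u hu]
    have h4 : z⁻¹ * g * ta Hc θ * (z⁻¹ * g)⁻¹ = z⁻¹ * (g * ta Hc θ * g⁻¹) * z := by group
    rw [h4, hgt, mul_assoc, hzt]
    group
  obtain ⟨w, hwW, hwd⟩ := (hCH r Φ B hL.ird hw).1 (u *ᵥ (1 : Fin r → ℤ))
  obtain ⟨w', hw'W, hw1, hw2⟩ := hw.inv w hwW
  obtain ⟨m, hmH, hm, -⟩ := hWR N H r Φ B Hc E hcl hL w hwW
  have h5 : w * u = 1 := by
    refine hCX N H r Φ B Hc E hcl hco hL (z⁻¹ * g * m) (H.mul_mem hnH hmH) (w * u) ?_ ?_ ?_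
    · intro x'
      have h6 : (z⁻¹ * g * m).1 = (z⁻¹ * g).1 * m.1 := rfl
      rw [h6, Matrix.conjTranspose_mul]
      have h7 : (z⁻¹ * g).1 * m.1 * hx Hc x' * (m.1ᴴ * (z⁻¹ * g).1ᴴ) =
          (z⁻¹ * g).1 * (m.1 * hx Hc x' * m.1ᴴ) * (z⁻¹ * g).1ᴴ := by
        simp only [Matrix.mul_assoc]
      rw [h7, hm, hu]
      congr 1
      funext j
      simp only [Matrix.mul_apply, Finset.mul_sum]
      push_cast
      simp only [Finset.sum_mul]
      rw [Finset.sum_comm]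
      refine Finset.sum_congr rfl fun i _ => Finset.sum_congr rfl fun k _ => ?_
      ring
    · refine ⟨u' * w', ?_, ?_⟩
      · rw [Matrix.mul_assoc, ← Matrix.mul_assoc w', hw1, Matrix.one_mul, hu1]
      · rw [Matrix.mul_assoc, ← Matrix.mul_assoc u, hu2, Matrix.one_mul, hw2]
    · intro p hp
      obtain ⟨hpΦ, hp0, hpn, -⟩ := hw.ppos p hp
      obtain ⟨q, hq, hq1, hq2⟩ := hup p hpΦ
      obtain ⟨q', hq', hq'1, hq'2⟩ := hw.perm w hwW q hq
      have h8 : ∀ l, q'.2 ⬝ᵥ ((w * u) *ᵥ l) = p.2 ⬝ᵥ l := by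
        intro l
        rw [← Matrix.mulVec_mulVec, hq'2, hq2]
      refine ⟨q', ?_, ?_, h8⟩
      · by_contra hc
        have h9 : (-q'.1, -q'.2) ∈ pos Φ := by
          by_contra hc2
          exact hc ((hw.dich q' hq').2 hc2)
        obtain ⟨-, h10, -, -⟩ := hw.ppos _ h9
        have h11 := h8 1
        have h12 : q'.2 ⬝ᵥ ((w * u) *ᵥ (1 : Fin r → ℤ)) ≤ 0 := by
          rw [← Matrix.mulVec_mulVec]
          refine Finset.sum_nonpos fun i _ => ?_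
          have h13 := h10 i
          have h14 := hwd i
          simp only [Pi.neg_apply] at h13
          exact mul_nonpos_of_nonpos_of_nonneg (by linarith) h14
        have h15 : 0 < p.2 ⬝ᵥ (1 : Fin r → ℤ) := by
          obtain ⟨i, hi⟩ := Function.ne_iff.1 hpn
          have h16 : 0 < p.2 i := lt_of_le_of_ne (hp0 i) (Ne.symm hi)
          simp only [dotProduct, Pi.one_apply, mul_one]
          exact Finset.sum_pos' (fun j _ => hp0 j) ⟨i, Finset.mem_univ i, h16⟩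
        linarith
      · rw [← Matrix.mulVec_mulVec, hq1, hq'1]
  have h17 : u = w' := by
    have h18 : w' * (w * u) = w' := by rw [h5, Matrix.mul_one]
    rw [← Matrix.mul_assoc, hw1, Matrix.one_mul] at h18
    exact h18
  exact ⟨u, h17 ▸ hw'W, h3⟩

end

end LGR
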