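import Pool.Agent.LGR.StA

/-!
# LGR, module WFAC: facts about the Weyl group
-/

namespace LGR

open STZ MeasureTheory Matrix Filter

open scoped ComplexConjugate Matrix Real Topology

noncomputable section

namespace WFAC

theorem rf_eq {r : ℕ} (p : (Fin r → ℤ) × (Fin r → ℤ)) :
    rf p = 1 - Matrix.vecMulVec p.1 p.2 := by
  ext i j
  simp [rf, Matrix.vecMulVec_apply, Matrix.one_apply]

theorem rf_mulVec {r : ℕ} (p : (Fin r → ℤ) × (Fin r → ℤ)) (l : Fin r → ℤ) :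
    rf p *ᵥ l = l - (p.2 ⬝ᵥ l) • p.1 := by
  rw [rf_eq, Matrix.sub_mulVec, Matrix.one_mulVec]
  congr 1
  ext i
  simp only [Matrix.mulVec, dotProduct, Matrix.vecMulVec_apply, Pi.smul_apply, smul_eq_mul,
    Finset.sum_mul]
  exact Finset.sum_congr rfl fun x _ => by ring

theorem rf_sq {r : ℕ} (p : (Fin r → ℤ) × (Fin r → ℤ)) (h : p.2 ⬝ᵥ p.1 = 2) : rf p * rf p = 1 := by
  have h1 : Matrix.vecMulVec p.1 p.2 * Matrix.vecMulVec p.1 p.2 =
      (2 : ℤ) • Matrix.vecMulVec p.1 p.2 := by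
    rw [Matrix.vecMulVec_mul_vecMulVec, h]
    ext i j
    simp [Matrix.vecMulVec_apply]
    ring
  rw [rf_eq, sub_mul, one_mul, mul_sub, mul_one, h1, two_smul]
  abel

theorem rf_det {r : ℕ} (p : (Fin r → ℤ) × (Fin r → ℤ)) (h : p.2 ⬝ᵥ p.1 = 2) :
    (rf p).det = -1 := by
  have h1 : rf p = 1 + Matrix.replicateCol Unit (-p.1) * Matrix.replicateRow Unit p.2 := by
    ext i j
    simp [rf, Matrix.mul_apply, Matrix.one_apply]
    ring
  rw [h1, Matrix.det_one_add_replicateCol_mul_replicateRow, dotProduct_neg, h]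
  norm_num

variable {r : ℕ} {Φ : RT r} {B : Matrix (Fin r) (Fin r) ℤ}

/-- the permutation property -/
def Pm (Φ : RT r) (w : Matrix (Fin r) (Fin r) ℤ) : Prop :=
  ∀ p ∈ Φ, ∃ q ∈ Φ, w *ᵥ p.1 = q.1 ∧ ∀ l, q.2 ⬝ᵥ (w *ᵥ l) = p.2 ⬝ᵥ l

theorem pm (hI : IRD Φ B) {w : Matrix (Fin r) (Fin r) ℤ} (hw : w ∈ WM Φ) : Pm Φ w := by
  unfold WM at hw
  induction hw using Submonoid.closure_induction with
  | mem w hw =>
    obtain ⟨p0, hp0, rfl⟩ := hw
    intro q hq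
    refine ⟨_, hI.refl p0 hp0 q hq, rf_mulVec p0 q.1, fun l => ?_⟩
    rw [rf_mulVec]
    simp only [sub_dotProduct, dotProduct_sub, smul_dotProduct, dotProduct_smul, smul_eq_mul,
      hI.two p0 hp0]
    ring
  | one =>
    intro p hp
    exact ⟨p, hp, by rw [Matrix.one_mulVec], fun l => by rw [Matrix.one_mulVec]⟩
  | mul w w' _ _ ih ih' =>
    intro p hp
    obtain ⟨q, hq, h1, h2⟩ := ih' p hp
    obtain ⟨q', hq', h3, h4⟩ := ih q hq
    refine ⟨q', hq', ?_, fun l => ?_⟩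
    · rw [← Matrix.mulVec_mulVec, h1, h3]
    · rw [← Matrix.mulVec_mulVec, h4, h2]

theorem eq_of_mulVec (hdet : B.det ≠ 0) {w w' : Matrix (Fin r) (Fin r) ℤ}
    (h : ∀ i, w *ᵥ B i = w' *ᵥ B i) : w = w' := by
  have h1 : w * Bᵀ = w' * Bᵀ := by
    ext i j
    have h2 := congrFun (h j) i
    simp only [Matrix.mulVec, dotProduct] at h2
    simp only [Matrix.mul_apply, Matrix.transpose_apply]
    exact h2
  have h2 : w * (Bᵀ * Bᵀ.adjugate) = w' * (Bᵀ * Bᵀ.adjugate) := by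
    rw [← Matrix.mul_assoc, ← Matrix.mul_assoc, h1]
  rw [Matrix.mul_adjugate, Matrix.mul_smul, Matrix.mul_smul, Matrix.mul_one, Matrix.mul_one,
    Matrix.det_transpose] at h2
  ext i j
  have h3 := congrFun (congrFun h2 i) j
  simp only [Matrix.smul_apply, smul_eq_mul] at h3
  exact mul_left_cancel₀ hdet h3

theorem finite (hI : IRD Φ B) :
    ((WM Φ : Submonoid (Matrix (Fin r) (Fin r) ℤ)) : Set (Matrix (Fin r) (Fin r) ℤ)).Finite := by
  refine Set.Finite.of_finite_image (f := fun w (i : Fin r) => w *ᵥ B i) ?_ ?_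
  · refine Set.Finite.subset (Set.Finite.pi'
      (t := fun _ : Fin r => Prod.fst '' (Φ : Set ((Fin r → ℤ) × (Fin r → ℤ))))
      fun _ => (Finset.finite_toSet Φ).image Prod.fst) ?_
    rintro _ ⟨w, hw, rfl⟩ i
    obtain ⟨q, hq, h1, -⟩ := pm hI hw _ (hI.base i)
    exact ⟨q, hq, h1.symm⟩
  · intro w _ w' _ h
    exact eq_of_mulVec hI.det fun i => congrFun h i

theorem mem_WF (hI : IRD Φ B) (w : Matrix (Fin r) (Fin r) ℤ) : w ∈ WF Φ ↔ w ∈ WM Φ := by
  unfold WF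
  rw [dif_pos (finite hI), Set.Finite.mem_toFinset]
  rfl

theorem inv (hI : IRD Φ B) {w : Matrix (Fin r) (Fin r) ℤ} (hw : w ∈ WM Φ) :
    ∃ w' ∈ WM Φ, w' * w = 1 ∧ w * w' = 1 := by
  have key : ∀ w ∈ Submonoid.closure {w : Matrix (Fin r) (Fin r) ℤ | ∃ p ∈ Φ, w = rf p},
      ∃ w' ∈ Submonoid.closure {w : Matrix (Fin r) (Fin r) ℤ | ∃ p ∈ Φ, w = rf p},
        w' * w = 1 ∧ w * w' = 1 := by
    intro w hw
    induction hw using Submonoid.closure_induction with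
    | mem w hw =>
      obtain ⟨p, hp, rfl⟩ := hw
      exact ⟨rf p, Submonoid.subset_closure ⟨p, hp, rfl⟩, rf_sq p (hI.two p hp),
        rf_sq p (hI.two p hp)⟩
    | one => exact ⟨1, Submonoid.one_mem _, Matrix.one_mul 1, Matrix.one_mul 1⟩
    | mul w w' _ _ ih ih' =>
      obtain ⟨u, hu, h1, h2⟩ := ih
      obtain ⟨u', hu', h3, h4⟩ := ih'
      refine ⟨u' * u, Submonoid.mul_mem _ hu' hu, ?_, ?_⟩
      · rw [Matrix.mul_assoc, ← Matrix.mul_assoc u w w', h1, Matrix.one_mul, h3]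
      · rw [Matrix.mul_assoc, ← Matrix.mul_assoc w' u' u, h4, Matrix.one_mul, h2]
  exact key w hw

theorem lat (hI : IRD Φ B) {w : Matrix (Fin r) (Fin r) ℤ} (hw : w ∈ WM Φ) :
    ∀ l, ∃ n : Fin r → ℤ, w *ᵥ l = l + ∑ i, n i • B i := by
  unfold WM at hw
  induction hw using Submonoid.closure_induction with
  | mem w hw =>
    obtain ⟨p, hp, rfl⟩ := hw
    intro l
    obtain ⟨n, hn⟩ : ∃ n : Fin r → ℤ, p.1 = ∑ i, n i • B i := by
      rcases hI.sgn p hp with ⟨n, hn, -⟩ | ⟨n, hn, -⟩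
      · exact ⟨n, hn⟩
      · exact ⟨n, hn⟩
    refine ⟨fun i => -(p.2 ⬝ᵥ l) * n i, ?_⟩
    rw [rf_mulVec, sub_eq_add_neg, ← neg_smul, hn, Finset.smul_sum]
    congr 1
    exact Finset.sum_congr rfl fun i _ => by rw [smul_smul]
  | one => exact fun l => ⟨0, by simp⟩
  | mul w w' _ _ ih ih' =>
    intro l
    obtain ⟨n, hn⟩ := ih' l
    obtain ⟨n', hn'⟩ := ih (w' *ᵥ l)
    refine ⟨n + n', ?_⟩
    rw [← Matrix.mulVec_mulVec, hn', hn, add_assoc, ← Finset.sum_add_distrib]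
    congr 1
    exact Finset.sum_congr rfl fun i _ => by rw [Pi.add_apply, add_smul]

theorem neg_mem (hI : IRD Φ B) {p : (Fin r → ℤ) × (Fin r → ℤ)} (hp : p ∈ Φ) :
    (-p.1, -p.2) ∈ Φ := by
  have h := hI.refl p hp p hp
  rw [hI.two p hp] at h
  have h1 : p.1 - (2 : ℤ) • p.1 = -p.1 := by
    rw [two_smul]
    abel
  have h2 : p.2 - (2 : ℤ) • p.2 = -p.2 := by
    rw [two_smul]
    abel
  rwa [h1, h2] at h

theorem snd_ne (hI : IRD Φ B) {p : (Fin r → ℤ) × (Fin r → ℤ)} (hp : p ∈ Φ) : p.2 ≠ 0 := by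
  intro h
  have h1 := hI.two p hp
  rw [h, zero_dotProduct] at h1
  norm_num at h1

theorem mem_pos {p : (Fin r → ℤ) × (Fin r → ℤ)} : p ∈ pos Φ ↔ p ∈ Φ ∧ ∀ i, 0 ≤ p.2 i := by
  unfold pos
  rw [Finset.mem_filter]

theorem ppos (hI : IRD Φ B) {p : (Fin r → ℤ) × (Fin r → ℤ)} (hp : p ∈ pos Φ) :
    p ∈ Φ ∧ (∀ i, 0 ≤ p.2 i) ∧ p.2 ≠ 0 ∧ ∃ n : Fin r → ℤ, p.1 = ∑ i, n i • B i ∧ ∀ i, 0 ≤ n i := by
  obtain ⟨h1, h2⟩ := mem_pos.1 hp
  refine ⟨h1, h2, snd_ne hI h1, ?_⟩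
  rcases hI.sgn p h1 with ⟨n, hn, h3⟩ | ⟨n, hn, h3⟩
  · exact ⟨n, hn, fun i => (h3 i).1⟩
  · exfalso
    apply snd_ne hI h1
    ext i
    exact le_antisymm (h3 i).2 (h2 i)

theorem dich (hI : IRD Φ B) {p : (Fin r → ℤ) × (Fin r → ℤ)} (hp : p ∈ Φ) :
    p ∈ pos Φ ↔ (-p.1, -p.2) ∉ pos Φ := by
  rw [mem_pos, mem_pos]
  constructor
  · rintro ⟨-, h1⟩ ⟨-, h2⟩
    apply snd_ne hI hp
    ext i
    have h3 := h2 i
    have h4 := h1 i
    simp only [Pi.neg_apply] at h3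
    simp only [Pi.zero_apply]
    omega
  · intro h
    refine ⟨hp, ?_⟩
    rcases hI.sgn p hp with ⟨n, hn, h3⟩ | ⟨n, hn, h3⟩
    · exact fun i => (h3 i).2
    · exfalso
      apply h
      refine ⟨neg_mem hI hp, fun i => ?_⟩
      have h4 := (h3 i).2
      simp only [Pi.neg_apply]
      omega

theorem simp' (hI : IRD Φ B) (i : Fin r) {p : (Fin r → ℤ) × (Fin r → ℤ)} (hp : p ∈ pos Φ)
    (hne : p ≠ (B i, Pi.single i 1)) :
    (p.1 - p.1 i • B i, p.2 - (p.2 ⬝ᵥ B i) • Pi.single i 1) ∈ pos Φ := by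
  obtain ⟨h1, h2⟩ := mem_pos.1 hp
  have h3 := hI.refl _ (hI.base i) p h1
  simp only [single_dotProduct, one_mul] at h3
  refine mem_pos.2 ⟨h3, ?_⟩
  rcases hI.sgn _ h3 with ⟨n, -, h4⟩ | ⟨n, -, h4⟩
  · exact fun j => (h4 j).2
  · exfalso
    have h5 : ∀ k, k ≠ i → p.2 k = 0 := by
      intro k hk
      have h6 := (h4 k).2
      simp only [Pi.sub_apply, Pi.smul_apply, Pi.single_eq_of_ne hk, smul_zero, sub_zero] at h6
      exact le_antisymm h6 (h2 k)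
    have h6 : (1 : ℤ) • p.2 = (p.2 i) • (Pi.single i 1 : Fin r → ℤ) := by
      rw [one_smul]
      ext k
      by_cases hk : k = i
      · subst hk
        simp
      · rw [h5 k hk, Pi.smul_apply, Pi.single_eq_of_ne hk, smul_zero]
    rcases hI.red p h1 _ (hI.base i) 1 (p.2 i) one_ne_zero (Or.inr h6) with h7 | h7
    · exact hne h7.symm
    · have h8 := congrFun (congrArg Prod.snd h7) i
      have h9 := h2 i
      simp only [Pi.single_eq_same, Pi.neg_apply] at h8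
      omega

end WFAC

open WFAC in
theorem t_WFAC : S_WFAC := by
  intro r Φ B hI
  exact
    { mv := rf_mulVec
      sq := fun p hp => rf_sq p (hI.two p hp)
      dt := fun p hp => rf_det p (hI.two p hp)
      mem := mem_WF hI
      one := (mem_WF hI 1).2 (Submonoid.one_mem _)
      mul := fun w hw w' hw' => (mem_WF hI _).2
        (Submonoid.mul_mem _ ((mem_WF hI w).1 hw) ((mem_WF hI w').1 hw'))
      inv := fun w hw => by
        obtain ⟨w', hw', h⟩ := WFAC.inv hI ((mem_WF hI w).1 hw)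
        exact ⟨w', (mem_WF hI w').2 hw', h⟩
      det := fun w hw => by
        obtain ⟨w', -, h, -⟩ := WFAC.inv hI ((mem_WF hI w).1 hw)
        have h1 := congrArg Matrix.det h
        rw [Matrix.det_mul, Matrix.det_one, mul_comm] at h1
        exact Int.isUnit_iff.1 (IsUnit.of_mul_eq_one _ h1)
      perm := fun w hw => pm hI ((mem_WF hI w).1 hw)
      lat := fun w hw => WFAC.lat hI ((mem_WF hI w).1 hw)
      neg := fun p hp => neg_mem hI hp
      dich := fun p hp => WFAC.dich hI hp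
      ppos := fun p hp => WFAC.ppos hI hp
      simp := fun i p hp hne => simp' hI i hp hne }

end

end LGR
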