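import Pool.Agent.LGR.StV

/-!
# ZERS: the zeros of the function in the lower bound for symmetric spaces
-/

namespace LGR

open STZ MeasureTheory Matrix Filter

open scoped ComplexConjugate Matrix Real Topology

noncomputable section

namespace ZERS

lemma un1 {N : ℕ} (g : SU N) : g.1 * g.1ᴴ = 1 := by
  have h := (Matrix.mem_specialUnitaryGroup_iff.1 g.2).1
  rw [Matrix.mem_unitaryGroup_iff] at h
  exact h

lemma un2 {N : ℕ} (g : SU N) : g.1ᴴ * g.1 = 1 := by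
  have h := (Matrix.mem_specialUnitaryGroup_iff.1 g.2).1
  rw [Matrix.mem_unitaryGroup_iff'] at h
  exact h

lemma inv_coe {N : ℕ} (g : SU N) : (g⁻¹).1 = g.1ᴴ := rfl

/-- the map of the span defined by a matrix which preserves it -/
lemma gram {N n : ℕ} {e : Fin n → Matrix (Fin N) (Fin N) ℂ}
    (he : ∀ j k, (e j * (e k)ᴴ).trace = if j = k then 1 else 0) (x : SU N)
    (hps : ∀ k, ps e x.1 k = 0) : (cm e x.1)ᴴ * cm e x.1 = 1 := by
  have h1 : ∀ k, x.1 * e k * x.1ᴴ = ∑ j, cm e x.1 j k • e j := by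
    intro k
    have := hps k
    unfold ps at this
    exact sub_eq_zero.1 this
  ext k l
  rw [Matrix.mul_apply]
  have h2 : ((x.1 * e l * x.1ᴴ) * (x.1 * e k * x.1ᴴ)ᴴ).trace = if l = k then 1 else 0 := by
    rw [← he l k]
    have h3 : (x.1 * e l * x.1ᴴ) * (x.1 * e k * x.1ᴴ)ᴴ = x.1 * (e l * (e k)ᴴ * x.1ᴴ) := by
      rw [Matrix.conjTranspose_mul, Matrix.conjTranspose_mul, Matrix.conjTranspose_conjTranspose]
      calc x.1 * e l * x.1ᴴ * (x.1 * ((e k)ᴴ * x.1ᴴ))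
          = x.1 * e l * (x.1ᴴ * x.1) * ((e k)ᴴ * x.1ᴴ) := by simp only [Matrix.mul_assoc]
        _ = x.1 * (e l * (e k)ᴴ * x.1ᴴ) := by
          rw [un2]
          simp only [Matrix.mul_assoc, Matrix.mul_one, Matrix.one_mul]
    rw [h3, Matrix.trace_mul_comm, Matrix.mul_assoc, un2, Matrix.mul_one]
  rw [h1 l, h1 k] at h2
  have h4 : ((∑ j, cm e x.1 j l • e j) * (∑ j, cm e x.1 j k • e j)ᴴ).trace =
      ∑ j, (cm e x.1)ᴴ k j * cm e x.1 j l := by
    rw [Matrix.conjTranspose_sum, Matrix.sum_mul, Matrix.trace_sum]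
    refine Finset.sum_congr rfl fun j _ => ?_
    rw [Matrix.mul_sum, Matrix.trace_sum, Finset.sum_eq_single j]
    · rw [Matrix.conjTranspose_smul, Matrix.smul_mul, Matrix.mul_smul, Matrix.trace_smul,
        Matrix.trace_smul, he, if_pos rfl, Matrix.conjTranspose_apply]
      simp only [smul_eq_mul, mul_one]
      ring
    · intro i _ hi
      rw [Matrix.conjTranspose_smul, Matrix.smul_mul, Matrix.mul_smul, Matrix.trace_smul,
        Matrix.trace_smul, he, if_neg (Ne.symm hi)]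
      simp
    · intro h
      exact absurd (Finset.mem_univ j) h
  rw [← h4, h2, Matrix.one_apply]
  by_cases hkl : k = l
  · rw [if_pos hkl, if_pos hkl.symm]
  · rw [if_neg hkl, if_neg (Ne.symm hkl)]

lemma fix_del {N n : ℕ} {e : Fin n → Matrix (Fin N) (Fin N) ℂ}
    (he : ∀ j k, (e j * (e k)ᴴ).trace = if j = k then 1 else 0) (x : SU N)
    (hps : ∀ k, ps e x.1 k = 0) :
    x.1 * (∑ k, (e k * (e k)ᴴ - (e k)ᴴ * e k)) * x.1ᴴ = ∑ k, (e k * (e k)ᴴ - (e k)ᴴ * e k) := by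
  have h1 : ∀ k, x.1 * e k * x.1ᴴ = ∑ j, cm e x.1 j k • e j := by
    intro k
    have := hps k
    unfold ps at this
    exact sub_eq_zero.1 this
  have hC : cm e x.1 * (cm e x.1)ᴴ = 1 := mul_eq_one_comm.1 (gram he x hps)
  have hC2 : ∀ i j, ∑ k, cm e x.1 i k * conj (cm e x.1 j k) = if i = j then 1 else 0 := by
    intro i j
    have := congrFun (congrFun hC i) j
    rw [Matrix.mul_apply, Matrix.one_apply] at this
    rw [← this]
    refine Finset.sum_congr rfl fun k _ => ?_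
    rw [Matrix.conjTranspose_apply]
    rfl
  have h2 : ∀ k, x.1 * (e k * (e k)ᴴ - (e k)ᴴ * e k) * x.1ᴴ =
      (x.1 * e k * x.1ᴴ) * (x.1 * e k * x.1ᴴ)ᴴ - (x.1 * e k * x.1ᴴ)ᴴ * (x.1 * e k * x.1ᴴ) := by
    intro k
    rw [Matrix.conjTranspose_mul, Matrix.conjTranspose_mul, Matrix.conjTranspose_conjTranspose]
    have h3 : x.1 * e k * x.1ᴴ * (x.1 * ((e k)ᴴ * x.1ᴴ)) = x.1 * (e k * (e k)ᴴ) * x.1ᴴ := by
      calc x.1 * e k * x.1ᴴ * (x.1 * ((e k)ᴴ * x.1ᴴ))
          = x.1 * e k * (x.1ᴴ * x.1) * ((e k)ᴴ * x.1ᴴ) := by simp only [Matrix.mul_assoc]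
        _ = x.1 * (e k * (e k)ᴴ) * x.1ᴴ := by
          rw [un2]
          simp only [Matrix.mul_assoc, Matrix.one_mul]
    have h4 : x.1 * ((e k)ᴴ * x.1ᴴ) * (x.1 * e k * x.1ᴴ) = x.1 * ((e k)ᴴ * e k) * x.1ᴴ := by
      calc x.1 * ((e k)ᴴ * x.1ᴴ) * (x.1 * e k * x.1ᴴ)
          = x.1 * (e k)ᴴ * (x.1ᴴ * x.1) * (e k * x.1ᴴ) := by simp only [Matrix.mul_assoc]
        _ = x.1 * ((e k)ᴴ * e k) * x.1ᴴ := by
          rw [un2]
          simp only [Matrix.mul_assoc, Matrix.one_mul]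
    rw [h3, h4, Matrix.mul_sub, Matrix.sub_mul]
  rw [Matrix.mul_sum, Matrix.sum_mul]
  simp only [h2, h1]
  rw [Finset.sum_sub_distrib, Finset.sum_sub_distrib]
  have h5 : ∑ k, (∑ j, cm e x.1 j k • e j) * (∑ j, cm e x.1 j k • e j)ᴴ = ∑ k, e k * (e k)ᴴ := by
    have : ∀ k, (∑ j, cm e x.1 j k • e j) * (∑ j, cm e x.1 j k • e j)ᴴ =
        ∑ i, ∑ j, (cm e x.1 i k * conj (cm e x.1 j k)) • (e i * (e j)ᴴ) := by
      intro k
      rw [Matrix.conjTranspose_sum, Matrix.sum_mul]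
      refine Finset.sum_congr rfl fun i _ => ?_
      rw [Matrix.mul_sum]
      refine Finset.sum_congr rfl fun j _ => ?_
      rw [Matrix.conjTranspose_smul, Matrix.smul_mul, Matrix.mul_smul, smul_smul]
      rfl
    simp only [this]
    rw [Finset.sum_comm]
    refine Finset.sum_congr rfl fun i _ => ?_
    rw [Finset.sum_comm, Finset.sum_eq_single i]
    · rw [← Finset.sum_smul, hC2, if_pos rfl, one_smul]
    · intro j _ hj
      rw [← Finset.sum_smul, hC2, if_neg (Ne.symm hj), zero_smul]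
    · intro h
      exact absurd (Finset.mem_univ i) h
  have h6 : ∑ k, (∑ j, cm e x.1 j k • e j)ᴴ * (∑ j, cm e x.1 j k • e j) = ∑ k, (e k)ᴴ * e k := by
    have : ∀ k, (∑ j, cm e x.1 j k • e j)ᴴ * (∑ j, cm e x.1 j k • e j) =
        ∑ i, ∑ j, (cm e x.1 j k * conj (cm e x.1 i k)) • ((e i)ᴴ * e j) := by
      intro k
      rw [Matrix.conjTranspose_sum, Matrix.sum_mul]
      refine Finset.sum_congr rfl fun i _ => ?_
      rw [Matrix.mul_sum]
      refine Finset.sum_congr rfl fun j _ => ?_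
      rw [Matrix.conjTranspose_smul, Matrix.smul_mul, Matrix.mul_smul, smul_smul, mul_comm]
      rfl
    simp only [this]
    rw [Finset.sum_comm]
    refine Finset.sum_congr rfl fun i _ => ?_
    rw [Finset.sum_comm, Finset.sum_eq_single i]
    · rw [← Finset.sum_smul, hC2, if_pos rfl, one_smul]
    · intro j _ hj
      rw [← Finset.sum_smul, hC2, if_neg hj, zero_smul]
    · intro h
      exact absurd (Finset.mem_univ i) h
  rw [h5, h6]

open scoped ComplexOrder in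
lemma trace_self_zero {N : ℕ} {V : Matrix (Fin N) (Fin N) ℂ} (h : (V * Vᴴ).trace = 0) : V = 0 :=
  Matrix.trace_mul_conjTranspose_self_eq_zero_iff.1 h

/-- the crucial step: `X'` commutes with `δ` -/
lemma comm_del {N : ℕ} {H : Subgroup (SU N)} {n : ℕ} {e : Fin n → Matrix (Fin N) (Fin N) ℂ}
    {δ : Matrix (Fin N) (Fin N) ℂ} (hN : NIL H e δ) {X : Matrix (Fin N) (Fin N) ℂ} (hX : X ∈ lie H)
    (h : ∀ k, ∃ a : Fin n → ℂ, X * e k - e k * X = ∑ l, a l • e l) : X * δ = δ * X := by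
  obtain ⟨Y, hY, hYδ, z, hz⟩ := hN.span X hX
  have hsum : ∑ k, (z k • e k - conj (z k) • (e k)ᴴ) =
      (∑ k, z k • e k) - (∑ k, z k • e k)ᴴ := by
    rw [Finset.sum_sub_distrib, Matrix.conjTranspose_sum]
    congr 1
    refine Finset.sum_congr rfl fun k _ => ?_
    rw [Matrix.conjTranspose_smul]
    rfl
  rw [hsum] at hz
  set W : Matrix (Fin N) (Fin N) ℂ := ∑ k, z k • e k with hW
  have hspan : ∀ T : Matrix (Fin N) (Fin N) ℂ,
      (∀ k, ∃ a : Fin n → ℂ, T * e k - e k * T = ∑ l, a l • e l) →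
      ∃ a : Fin n → ℂ, T * W - W * T = ∑ l, a l • e l := by
    intro T hT
    choose a ha using hT
    refine ⟨fun l => ∑ k, z k * a k l, ?_⟩
    rw [hW, Matrix.mul_sum, Matrix.sum_mul, ← Finset.sum_sub_distrib]
    have : ∀ k, T * (z k • e k) - z k • e k * T = ∑ l, (z k * a k l) • e l := by
      intro k
      rw [Matrix.mul_smul, Matrix.smul_mul, ← smul_sub, ha k, Finset.smul_sum]
      refine Finset.sum_congr rfl fun l _ => ?_
      rw [smul_smul]
    simp only [this]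
    rw [Finset.sum_comm]
    refine Finset.sum_congr rfl fun l _ => ?_
    rw [Finset.sum_smul]
  obtain ⟨a, ha⟩ := hspan X h
  obtain ⟨b, hb⟩ := hspan Y (fun k => hN.ln Y hY hYδ k)
  have hV : Wᴴ * W - W * Wᴴ = ∑ l, (b l - a l) • e l := by
    have : ∑ l, (b l - a l) • e l = (Y * W - W * Y) - (X * W - W * X) := by
      rw [ha, hb, ← Finset.sum_sub_distrib]
      refine Finset.sum_congr rfl fun l _ => ?_
      rw [sub_smul]
    rw [this, hz]
    noncomm_ring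
  have hV0 : Wᴴ * W - W * Wᴴ = 0 := by
    apply trace_self_zero
    have h1 : (Wᴴ * W - W * Wᴴ)ᴴ = Wᴴ * W - W * Wᴴ := by
      rw [Matrix.conjTranspose_sub, Matrix.conjTranspose_mul, Matrix.conjTranspose_mul,
        Matrix.conjTranspose_conjTranspose]
    rw [h1, hV, Matrix.sum_mul, Matrix.trace_sum]
    refine Finset.sum_eq_zero fun i _ => ?_
    rw [Matrix.mul_sum, Matrix.trace_sum]
    refine Finset.sum_eq_zero fun j _ => ?_
    rw [Matrix.smul_mul, Matrix.mul_smul, Matrix.trace_smul, Matrix.trace_smul, hN.orth2]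
    simp
  choose c hc0 hc using hN.eig
  have hδW : δ * W - W * δ = ∑ k, (z k * c k) • e k := by
    rw [hW, Matrix.mul_sum, Matrix.sum_mul, ← Finset.sum_sub_distrib]
    refine Finset.sum_congr rfl fun k _ => ?_
    rw [Matrix.mul_smul, Matrix.smul_mul, ← smul_sub, hc k, smul_smul]
  have htr : (Wᴴ * (δ * W - W * δ)).trace = 0 := by
    have h1 : (Wᴴ * (δ * W - W * δ)).trace = -((Wᴴ * W - W * Wᴴ) * δ).trace := by
      rw [Matrix.mul_sub, Matrix.sub_mul, Matrix.trace_sub, Matrix.trace_sub,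
        ← Matrix.mul_assoc, ← Matrix.mul_assoc]
      have h2 : (Wᴴ * δ * W).trace = (W * Wᴴ * δ).trace := by
        rw [Matrix.trace_mul_comm, ← Matrix.mul_assoc]
      rw [h2]
      ring
    rw [h1, hV0, Matrix.zero_mul, Matrix.trace_zero, neg_zero]
  have hval : (Wᴴ * (δ * W - W * δ)).trace = ((∑ k, c k * ‖z k‖ ^ 2 : ℝ) : ℂ) := by
    rw [hδW, hW, Matrix.conjTranspose_sum, Matrix.sum_mul, Matrix.trace_sum]
    push_cast
    refine Finset.sum_congr rfl fun j _ => ?_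
    rw [Matrix.mul_sum, Matrix.trace_sum, Finset.sum_eq_single j]
    · rw [Matrix.conjTranspose_smul, Matrix.smul_mul, Matrix.mul_smul, Matrix.trace_smul,
        Matrix.trace_smul, Matrix.trace_mul_comm, hN.orth, if_pos rfl]
      have h3 : (‖z j‖ : ℂ) ^ 2 = star (z j) * z j := by
        rw [← Complex.conj_mul' (z j)]
        rfl
      rw [h3]
      simp only [smul_eq_mul, mul_one]
      ring
    · intro i _ hi
      rw [Matrix.conjTranspose_smul, Matrix.smul_mul, Matrix.mul_smul, Matrix.trace_smul,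
        Matrix.trace_smul, Matrix.trace_mul_comm, hN.orth, if_neg hi]
      simp
    · intro hh
      exact absurd (Finset.mem_univ j) hh
  have hzero : ∑ k, c k * ‖z k‖ ^ 2 = 0 := by
    rw [htr] at hval
    exact_mod_cast hval.symm
  have hz0 : ∀ k, z k = 0 := by
    intro k
    have h1 := (Finset.sum_eq_zero_iff_of_nonneg (fun k _ =>
      mul_nonneg (hc0 k).le (sq_nonneg ‖z k‖))).1 hzero k (Finset.mem_univ k)
    have h2 : ‖z k‖ ^ 2 = 0 := (mul_eq_zero.1 h1).resolve_left (hc0 k).ne'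
    exact norm_eq_zero.1 (pow_eq_zero_iff (two_ne_zero)|>.1 h2)
  have hW0 : W = 0 := by
    rw [hW]
    exact Finset.sum_eq_zero fun k _ => by rw [hz0 k, zero_smul]
  rw [hz, hW0, Matrix.conjTranspose_zero, sub_zero, add_zero]
  exact hYδ

lemma comm_ex {N : ℕ} (Y Z : Matrix (Fin N) (Fin N) ℂ) (h : Y * Z = Z * Y) :
    (ex Y 1).1 * Z = Z * (ex Y 1).1 := by
  unfold ex
  split_ifs with h1
  · have hc : Commute (((1 : ℝ) : ℂ) • Y) Z := by
      rw [Complex.ofReal_one, one_smul]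
      exact h
    exact (hc.symm.exp_right).symm.eq
  · simp

/-- conjugation by a matrix as a real linear map -/
def adl {N : ℕ} (a : Matrix (Fin N) (Fin N) ℂ) :
    Matrix (Fin N) (Fin N) ℂ →ₗ[ℝ] Matrix (Fin N) (Fin N) ℂ where
  toFun Y := a * Y * aᴴ
  map_add' Y Z := by rw [Matrix.mul_add, Matrix.add_mul]
  map_smul' s Y := by rw [Matrix.mul_smul, Matrix.smul_mul, RingHom.id_apply]

lemma adl_apply {N : ℕ} (a Y : Matrix (Fin N) (Fin N) ℂ) : adl a Y = a * Y * aᴴ := rfl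

lemma adl_inj {N : ℕ} (a : SU N) : Function.Injective (adl a.1) := by
  intro Y Z h
  rw [adl_apply, adl_apply] at h
  have h1 : ∀ T : Matrix (Fin N) (Fin N) ℂ, a.1ᴴ * (a.1 * T * a.1ᴴ) * a.1 = T := by
    intro T
    calc a.1ᴴ * (a.1 * T * a.1ᴴ) * a.1 = (a.1ᴴ * a.1) * T * (a.1ᴴ * a.1) := by
          simp only [Matrix.mul_assoc]
      _ = T := by rw [un2, Matrix.one_mul, Matrix.mul_one]
  rw [← h1 Y, h, h1 Z]

end ZERS

open ZERS in
theorem t_ZERS : M_ZERS := by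
  intro hLIEB hTAUS hDIMQ hCENX N H K σ τ A n e δ hcl hconn hS hP hA hNS g hps X hX hτX hbr
  have hL := hLIEB N H hcl
  have hT := hTAUS N H K σ τ hcl hS hP
  have hN := hNS.nil
  set x : H := (σ g)⁻¹ * g with hx
  have hxc : x.1.1 = (σ g).1.1ᴴ * g.1.1 := rfl
  have hgx : g.1.1 = (σ g).1.1 * x.1.1 := by
    rw [hxc, ← Matrix.mul_assoc, un1, Matrix.one_mul]
  -- `x` commutes with `δ`
  have hxδ : x.1.1 * δ = δ * x.1.1 := by
    have h1 := fix_del hN.orth x.1 (by rw [hxc]; exact hps)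
    rw [← hN.del] at h1
    calc x.1.1 * δ = x.1.1 * δ * (x.1.1ᴴ * x.1.1) := by rw [un2, Matrix.mul_one]
      _ = x.1.1 * δ * x.1.1ᴴ * x.1.1 := by rw [Matrix.mul_assoc (x.1.1 * δ)]
      _ = δ * x.1.1 := by rw [h1]
  obtain ⟨Y, hY, hYD, hYx⟩ := hCENX N H hcl hconn hS x.1 x.2 ((-Complex.I) • δ) hN.dmem (by
    rw [Matrix.mul_smul, Matrix.smul_mul, hxδ])
  have hYδ : Y * δ = δ * Y := by
    rw [Matrix.mul_smul, Matrix.smul_mul] at hYD
    exact smul_right_injective _ (neg_ne_zero.2 Complex.I_ne_zero) hYD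
  have hxA : ∀ Z ∈ A, x.1.1 * Z = Z * x.1.1 := by
    intro Z hZ
    rw [← hYx]
    exact comm_ex Y Z (hNS.cen Y hY hYδ Z hZ)
  -- `X'` commutes with `δ`, so with `A`
  set X' : Matrix (Fin N) (Fin N) ℂ := (σ g).1.1ᴴ * X * (σ g).1.1 with hX'
  have hX'l : X' ∈ lie H := by
    have h1 := hL.ad ((σ g)⁻¹).1 ((σ g)⁻¹).2 X hX
    have h2 : (((σ g)⁻¹ : H)).1.1 = (σ g).1.1ᴴ := rfl
    rw [h2, Matrix.conjTranspose_conjTranspose] at h1
    exact h1
  have hX'δ : X' * δ = δ * X' := comm_del hN hX'l hbr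
  have hX'A : ∀ Z ∈ A, X' * Z = Z * X' := hNS.cen X' hX'l hX'δ
  have hmem : X ∈ A.map (adl (σ g).1.1) := by
    refine hDIMQ N H K σ τ A hcl hS hP hA (A.map (adl (σ g).1.1)) ?_ ?_ ?_ X hX hτX ?_
    · rintro _ ⟨Z, hZ, rfl⟩
      rw [adl_apply]
      refine ⟨hL.ad (σ g).1 (σ g).2 Z (hA.sub Z hZ), ?_⟩
      rw [hT.Ad (σ g) Z (hA.sub Z hZ), hP.inv, hA.anti Z hZ, Matrix.mul_neg, Matrix.neg_mul]
      congr 1
      rw [hgx, Matrix.conjTranspose_mul]
      calc (σ g).1.1 * x.1.1 * Z * (x.1.1ᴴ * (σ g).1.1ᴴ)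
          = (σ g).1.1 * (x.1.1 * Z) * (x.1.1ᴴ * (σ g).1.1ᴴ) := by simp only [Matrix.mul_assoc]
        _ = (σ g).1.1 * Z * (x.1.1 * x.1.1ᴴ) * (σ g).1.1ᴴ := by
          rw [hxA Z hZ]
          simp only [Matrix.mul_assoc]
        _ = (σ g).1.1 * Z * (σ g).1.1ᴴ := by rw [un1, Matrix.mul_one]
    · rintro _ ⟨Z, hZ, rfl⟩ _ ⟨Z', hZ', rfl⟩
      rw [adl_apply, adl_apply]
      have h1 : ∀ S T : Matrix (Fin N) (Fin N) ℂ, (σ g).1.1 * S * (σ g).1.1ᴴ *
          ((σ g).1.1 * T * (σ g).1.1ᴴ) = (σ g).1.1 * (S * T) * (σ g).1.1ᴴ := by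
        intro S T
        calc (σ g).1.1 * S * (σ g).1.1ᴴ * ((σ g).1.1 * T * (σ g).1.1ᴴ)
            = (σ g).1.1 * S * ((σ g).1.1ᴴ * (σ g).1.1) * T * (σ g).1.1ᴴ := by
              simp only [Matrix.mul_assoc]
          _ = (σ g).1.1 * (S * T) * (σ g).1.1ᴴ := by
              rw [un2, Matrix.mul_one]
              simp only [Matrix.mul_assoc]
      rw [h1, h1, hA.comm Z hZ Z' hZ']
    · exact (LinearEquiv.finrank_eq (Submodule.equivMapOfInjective (adl (σ g).1.1)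
        (adl_inj (σ g).1) A)).symm
    · rintro _ ⟨Z, hZ, rfl⟩
      rw [adl_apply]
      have h1 : X * (σ g).1.1 = (σ g).1.1 * X' := by
        rw [hX', Matrix.mul_assoc, ← Matrix.mul_assoc, un1, Matrix.one_mul]
      have h2 : (σ g).1.1ᴴ * X = X' * (σ g).1.1ᴴ := by
        rw [hX', Matrix.mul_assoc, Matrix.mul_assoc, un1, Matrix.mul_one]
      calc X * ((σ g).1.1 * Z * (σ g).1.1ᴴ) = (X * (σ g).1.1) * Z * (σ g).1.1ᴴ := by
            simp only [Matrix.mul_assoc]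
        _ = (σ g).1.1 * (X' * Z) * (σ g).1.1ᴴ := by
            rw [h1]
            simp only [Matrix.mul_assoc]
        _ = (σ g).1.1 * Z * (X' * (σ g).1.1ᴴ) := by
            rw [hX'A Z hZ]
            simp only [Matrix.mul_assoc]
        _ = (σ g).1.1 * Z * (σ g).1.1ᴴ * X := by
            rw [← h2]
            simp only [Matrix.mul_assoc]
  obtain ⟨Z, hZ, hZX⟩ := hmem
  rw [adl_apply] at hZX
  have hfin : X' = Z := by
    rw [hX', ← hZX]
    calc (σ g).1.1ᴴ * ((σ g).1.1 * Z * (σ g).1.1ᴴ) * (σ g).1.1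
        = ((σ g).1.1ᴴ * (σ g).1.1) * Z * ((σ g).1.1ᴴ * (σ g).1.1) := by
          simp only [Matrix.mul_assoc]
      _ = Z := by rw [un2, Matrix.one_mul, Matrix.mul_one]
  rw [hfin]
  exact hZ

end

end LGR
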