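import Pool.Agent.LGR.StR

namespace LGR

open STZ MeasureTheory Matrix Filter

open scoped ComplexConjugate Matrix Real Topology

noncomputable section

namespace ZFIN

lemma eu_add (a b : ℝ) : eu (a + b) = eu a * eu b := by
  unfold eu
  rw [← Complex.exp_add]
  congr 1
  push_cast
  ring

lemma eu_int (k : ℤ) : eu (k : ℝ) = 1 := by
  unfold eu
  rw [Complex.exp_eq_one_iff]
  exact ⟨k, by push_cast; ring⟩

lemma eu_one {y : ℝ} (h : eu y = 1) : ∃ k : ℤ, y = k := by
  unfold eu at h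
  rw [Complex.exp_eq_one_iff] at h
  obtain ⟨n, hn⟩ := h
  refine ⟨n, ?_⟩
  have h2 : (2 * π * Complex.I : ℂ) ≠ 0 := Complex.two_pi_I_ne_zero
  have h3 : ((y : ℝ) : ℂ) = ((n : ℝ) : ℂ) := by
    have h4 : (2 * π * Complex.I : ℂ) * (y : ℂ) = (2 * π * Complex.I : ℂ) * (n : ℂ) := by
      rw [mul_comm _ (n : ℂ), ← hn]; ring
    have := mul_left_cancel₀ h2 h4
    push_cast
    exact this
  exact_mod_cast h3

lemma dz_add {r : ℕ} (l : Fin r → ℤ) (a b : Fin r → ℝ) : dz l (a + b) = dz l a + dz l b := by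
  unfold dz
  rw [← Finset.sum_add_distrib]
  exact Finset.sum_congr rfl fun i _ => by rw [Pi.add_apply]; ring

lemma dz_int {r : ℕ} (l n : Fin r → ℤ) : dz l (fun i => (n i : ℝ)) = ((∑ i, l i * n i : ℤ) : ℝ) := by
  unfold dz
  push_cast
  rfl

/-- fractional parts -/
def fr {r : ℕ} (z : Fin r → ℝ) : Fin r → ℝ := fun i => Int.fract (z i)

lemma fr_eq {r : ℕ} (z : Fin r → ℝ) : fr z = z + fun i => ((-⌊z i⌋ : ℤ) : ℝ) := by
  funext i
  simp only [fr, Pi.add_apply, Int.fract]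
  push_cast
  ring

lemma fr_add_int {r : ℕ} (z : Fin r → ℝ) (n : Fin r → ℤ) : fr (z + fun i => (n i : ℝ)) = fr z := by
  funext i
  simp only [fr, Pi.add_apply]
  exact Int.fract_add_intCast _ _

lemma fr_fr_add {r : ℕ} (a b : Fin r → ℝ) : fr (fr a + b) = fr (a + b) := by
  rw [fr_eq a, show (a + (fun i => ((-⌊a i⌋ : ℤ) : ℝ))) + b = (a + b) + fun i => ((-⌊a i⌋ : ℤ) : ℝ) by
    abel]
  exact fr_add_int _ _

lemma part1 {N : ℕ} {H : Subgroup (SU N)} {r : ℕ} {Φ : RT r}
    {Hc : Fin r → Matrix (Fin N) (Fin N) ℂ} {E : (Fin r → ℤ) × (Fin r → ℤ) → Matrix (Fin N) (Fin N) ℂ}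
    (T : TAF H Φ Hc E) (z : Fin r → ℝ) (hz : ta Hc z = 1) (p : (Fin r → ℤ) × (Fin r → ℤ)) (hp : p ∈ Φ) :
    ∃ m : ℤ, dz p.1 z = m := by
  apply eu_one
  have h1 := T.Ade p hp z
  rw [hz] at h1
  have h2 : ((1 : SU N).1 : Matrix (Fin N) (Fin N) ℂ) = 1 := rfl
  rw [h2, Matrix.conjTranspose_one, one_mul, mul_one] at h1
  have hE : E p ≠ 0 := by
    intro h0
    have h3 := (T.pos p hp).1
    rw [h0] at h3
    simp at h3
  by_contra hne
  have h4 : (1 - eu (dz p.1 z)) • E p = 0 := by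
    rw [sub_smul, one_smul, ← h1, sub_self]
  rcases smul_eq_zero.mp h4 with h5 | h5
  · exact hne (sub_eq_zero.mp h5).symm
  · exact hE h5

lemma ta_add_int {N : ℕ} {H : Subgroup (SU N)} {r : ℕ} {Φ : RT r}
    {Hc : Fin r → Matrix (Fin N) (Fin N) ℂ} {E : (Fin r → ℤ) × (Fin r → ℤ) → Matrix (Fin N) (Fin N) ℂ}
    (T : TAF H Φ Hc E) (z : Fin r → ℝ) : ta Hc (fr z) = ta Hc z := by
  rw [fr_eq, T.add, T.int (fun i => -⌊z i⌋), mul_one]

open Classical in
/-- the set -/
def ZZ {N r : ℕ} (Hc : Fin r → Matrix (Fin N) (Fin N) ℂ) (D : ℕ) : Finset (Fin r → ℝ) :=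
  ((Finset.univ : Finset (Fin r → Fin D)).image fun m i => ((m i : ℕ) : ℝ) / D).filter fun z => ta Hc z = 1

lemma mem_ZZ {N r : ℕ} {Hc : Fin r → Matrix (Fin N) (Fin N) ℂ} {D : ℕ} {z : Fin r → ℝ} :
    z ∈ ZZ Hc D ↔ (∃ m : Fin r → Fin D, (fun i => ((m i : ℕ) : ℝ) / D) = z) ∧ ta Hc z = 1 := by
  classical
  unfold ZZ
  simp only [Finset.mem_filter, Finset.mem_image, Finset.mem_univ, true_and]

lemma fr_mem {N r : ℕ} {H : Subgroup (SU N)} {Φ : RT r} {B : Matrix (Fin r) (Fin r) ℤ}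
    {Hc : Fin r → Matrix (Fin N) (Fin N) ℂ} {E : (Fin r → ℤ) × (Fin r → ℤ) → Matrix (Fin N) (Fin N) ℂ}
    (T : TAF H Φ Hc E) (I : IRD Φ B) (z : Fin r → ℝ) (hz : ta Hc z = 1) :
    fr z ∈ ZZ Hc B.det.natAbs := by
  rw [mem_ZZ]
  refine ⟨?_, by rw [ta_add_int T, hz]⟩
  set w := fr z with hw
  have hw1 : ta Hc w = 1 := by rw [hw, ta_add_int T, hz]
  have hB : ∀ i, ∃ m : ℤ, dz (B i) w = m := fun i => part1 T w hw1 _ (I.base i)
  choose m hm using hB
  -- det * w i is an integer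
  have hdet : ∀ i, (B.det : ℝ) * w i = ((∑ j, B.adjugate i j * m j : ℤ) : ℝ) := by
    intro i
    have h1 : ∀ k, ∑ j, B.adjugate i j * B j k = if i = k then B.det else 0 := by
      intro k
      have h2 := congrFun (congrFun (Matrix.adjugate_mul B) i) k
      rw [Matrix.mul_apply] at h2
      rw [h2, Matrix.smul_apply, Matrix.one_apply]
      split_ifs <;> simp
    have h3 : ((∑ j, B.adjugate i j * m j : ℤ) : ℝ) = ∑ j, (B.adjugate i j : ℝ) * ∑ k, (B j k : ℝ) * w k := by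
      push_cast
      refine Finset.sum_congr rfl fun j _ => ?_
      rw [← hm j]
      rfl
    rw [h3]
    calc (B.det : ℝ) * w i = ∑ k, ((if i = k then B.det else 0 : ℤ) : ℝ) * w k := by
          rw [Finset.sum_eq_single i]
          · rw [if_pos rfl]
          · intro k _ hk
            rw [if_neg (fun h => hk h.symm)]
            simp
          · intro h; exact absurd (Finset.mem_univ i) h
      _ = ∑ k, (∑ j, (B.adjugate i j : ℝ) * (B j k : ℝ)) * w k := by
          refine Finset.sum_congr rfl fun k _ => ?_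
          rw [← h1 k]
          push_cast
          rfl
      _ = ∑ j, (B.adjugate i j : ℝ) * ∑ k, (B j k : ℝ) * w k := by
          simp_rw [Finset.sum_mul, Finset.mul_sum]
          rw [Finset.sum_comm]
          refine Finset.sum_congr rfl fun j _ => Finset.sum_congr rfl fun k _ => by ring
  set D := B.det.natAbs with hD
  have hDpos : 0 < D := Int.natAbs_pos.mpr I.det
  have hDr : (0 : ℝ) < D := by exact_mod_cast hDpos
  have hDw : ∀ i, ∃ n : ℤ, (D : ℝ) * w i = n := by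
    intro i
    rcases Int.natAbs_eq B.det with h | h
    · refine ⟨∑ j, B.adjugate i j * m j, ?_⟩
      rw [← hdet i, h, ← hD]
      push_cast
      rfl
    · refine ⟨-∑ j, B.adjugate i j * m j, ?_⟩
      rw [Int.cast_neg, ← hdet i, h, ← hD]
      push_cast
      ring
  choose n hn using hDw
  have hw0 : ∀ i, 0 ≤ w i := fun i => Int.fract_nonneg _
  have hwl : ∀ i, w i < 1 := fun i => Int.fract_lt_one _
  have hn0 : ∀ i, 0 ≤ n i := by
    intro i
    have : (0 : ℝ) ≤ n i := by rw [← hn i]; exact mul_nonneg hDr.le (hw0 i)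
    exact_mod_cast this
  have hnl : ∀ i, n i < D := by
    intro i
    have : (n i : ℝ) < D := by
      rw [← hn i]
      calc (D : ℝ) * w i < D * 1 := mul_lt_mul_of_pos_left (hwl i) hDr
        _ = D := mul_one _
    exact_mod_cast this
  refine ⟨fun i => ⟨(n i).toNat, by have := hn0 i; have := hnl i; omega⟩, ?_⟩
  funext i
  have h5 : (((n i).toNat : ℕ) : ℝ) = (n i : ℝ) := by
    have : (((n i).toNat : ℕ) : ℤ) = n i := Int.toNat_of_nonneg (hn0 i)
    exact_mod_cast this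
  show (((n i).toNat : ℕ) : ℝ) / D = w i
  rw [h5, ← hn i]
  field_simp

lemma fr_of_mem {N r : ℕ} {Hc : Fin r → Matrix (Fin N) (Fin N) ℂ} {D : ℕ} {z : Fin r → ℝ}
    (hz : z ∈ ZZ Hc D) : fr z = z := by
  rw [mem_ZZ] at hz
  obtain ⟨⟨m, rfl⟩, _⟩ := hz
  funext i
  show Int.fract _ = _
  rw [Int.fract_eq_self]
  have hD : 0 < D := lt_of_le_of_lt (Nat.zero_le _) (m i).2
  have hDr : (0 : ℝ) < D := by exact_mod_cast hD
  have h1 : ((m i : ℕ) : ℝ) < D := by exact_mod_cast (m i).2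
  exact ⟨by positivity, by rw [div_lt_one hDr]; exact h1⟩

lemma eu_dz_fr {r : ℕ} (l : Fin r → ℤ) (z : Fin r → ℝ) : eu (dz l (fr z)) = eu (dz l z) := by
  rw [fr_eq, dz_add, eu_add, dz_int l (fun i => -⌊z i⌋), eu_int, mul_one]

end ZFIN

open ZFIN in
theorem t_ZFIN : M_ZFIN := by
  intro hT N H r Φ B Hc E hH hL
  have T : TAF H Φ Hc E := hT N H r Φ B Hc E hH hL
  refine ⟨fun z hz p hp => part1 T z hz p hp, ZZ Hc B.det.natAbs, ?_, ?_, ?_⟩
  · refine ⟨fr 0, fr_mem T hL.ird 0 ?_⟩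
    have := T.int 0
    rw [← this]
    congr 1
    funext i
    simp
  · intro z hz
    exact (mem_ZZ.mp hz).2
  · intro l
    by_cases h : ∀ z, ta Hc z = 1 → eu (dz l z) = 1
    · exact Or.inl h
    · right
      push Not at h
      obtain ⟨z₀, hz₀, hne⟩ := h
      have hneg : ta Hc (-z₀) = 1 := by
        have h1 := T.add z₀ (-z₀)
        rw [hz₀, one_mul, add_neg_cancel] at h1
        rw [← h1]
        have := T.int 0
        rw [← this]
        congr 1
        funext i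
        simp
      have hmap : ∀ y, ta Hc y = 1 → ∀ z ∈ ZZ Hc B.det.natAbs, fr (z + y) ∈ ZZ Hc B.det.natAbs := by
        intro y hy z hz
        apply fr_mem T hL.ird
        rw [T.add, (mem_ZZ.mp hz).2, hy, one_mul]
      have hS : ∑ z ∈ ZZ Hc B.det.natAbs, eu (dz l z) =
          ∑ z ∈ ZZ Hc B.det.natAbs, eu (dz l z) * eu (dz l z₀) := by
        symm
        refine Finset.sum_bij' (fun z _ => fr (z + z₀)) (fun z _ => fr (z + -z₀)) (hmap _ hz₀) (hmap _ hneg)
          ?_ ?_ ?_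
        · intro z hz
          show fr (fr (z + z₀) + -z₀) = z
          rw [fr_fr_add, add_neg_cancel_right, fr_of_mem hz]
        · intro z hz
          show fr (fr (z + -z₀) + z₀) = z
          rw [fr_fr_add, neg_add_cancel_right, fr_of_mem hz]
        · intro z hz
          show eu (dz l z) * eu (dz l z₀) = eu (dz l (fr (z + z₀)))
          rw [eu_dz_fr, dz_add, eu_add]
      rw [← Finset.sum_mul] at hS
      have h3 : (∑ z ∈ ZZ Hc B.det.natAbs, eu (dz l z)) * (1 - eu (dz l z₀)) = 0 := by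
        rw [mul_sub, mul_one, ← hS, sub_self]
      rcases mul_eq_zero.mp h3 with h4 | h4
      · exact h4
      · exact absurd (sub_eq_zero.mp h4).symm hne

end

end LGR
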