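import Pool.Agent.STZ.KB
import Pool.Agent.STZ.HAAR
import Pool.Agent.STZ.EXP
import Pool.Agent.STZ.CALH
import Pool.Agent.STZ.GRH
import Pool.Agent.STZ.TENH
import Pool.Agent.STZ.TENS
import Pool.Agent.STZ.SCHUR
import Pool.Agent.STZ.CHAR
import Pool.Agent.STZ.KERI
import Pool.Agent.STZ.ALLI
import Pool.Agent.STZ.DECO
import Pool.Agent.STZ.SWH
import Pool.Agent.STZ.KOP
import Pool.Agent.STZ.BERN
import Pool.Agent.STZ.WWF
import Pool.Agent.STZ.WPT
import Pool.Agent.STZ.WINT
import Pool.Agent.STZ.FRCN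
import Pool.Agent.STZ.LOCI
import Pool.Agent.STZ.INTJ
import Pool.Agent.STZ.GSUY
import Pool.Agent.STZ.TTY
import Pool.Agent.STZ.YOUNG
import Pool.Agent.STZ.LEV
import Pool.Agent.STZ.NQ
import Pool.Agent.STZ.ALLX
import Pool.Agent.STZ.SCH
import Pool.Agent.STZ.ANIW
import Pool.Agent.STZ.SHFT
import Pool.Agent.STZ.WEYY
import Pool.Agent.STZ.GEO
import Pool.Agent.STZ.WEYX
import Pool.Agent.STZ.ABEY
import Pool.Agent.STZ.WCLY
import Pool.Agent.STZ.WCLF
import Pool.Agent.STZ.PSIM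
import Pool.Agent.STZ.FEJA
import Pool.Agent.STZ.FEJB
import Pool.Agent.STZ.CAUC
import Pool.Agent.STZ.SCHW
import Pool.Agent.LGR.WFAC
import Pool.Agent.LGR.RHOF
import Pool.Agent.LGR.GENS
import Pool.Agent.LGR.EXCH
import Pool.Agent.LGR.CHAM
import Pool.Agent.LGR.QUAD
import Pool.Agent.LGR.DENO
import Pool.Agent.LGR.SCHU
import Pool.Agent.LGR.UNIF
import Pool.Agent.LGR.AVGF
import Pool.Agent.LGR.RVOF
import Pool.Agent.LGR.LIEB
import Pool.Agent.LGR.LCXF
import Pool.Agent.LGR.KILL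
import Pool.Agent.LGR.CART
import Pool.Agent.LGR.ROVE
import Pool.Agent.LGR.INTW
import Pool.Agent.LGR.RTSY
import Pool.Agent.LGR.LRDX
import Pool.Agent.LGR.KFRM
import Pool.Agent.LGR.TAUF
import Pool.Agent.LGR.REFH
import Pool.Agent.LGR.FORM
import Pool.Agent.LGR.ADFR
import Pool.Agent.LGR.ATFV
import Pool.Agent.LGR.DENV
import Pool.Agent.LGR.LEMC
import Pool.Agent.LGR.CLSU
import Pool.Agent.LGR.LEMT
import Pool.Agent.LGR.CONJ
import Pool.Agent.LGR.WREP
import Pool.Agent.LGR.AUTN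
import Pool.Agent.LGR.NORX
import Pool.Agent.LGR.CHFX
import Pool.Agent.LGR.WEYC
import Pool.Agent.LGR.CLFX
import Pool.Agent.LGR.TPOL
import Pool.Agent.LGR.DIML
import Pool.Agent.LGR.PFFX
import Pool.Agent.LGR.TPRD
import Pool.Agent.LGR.DREP
import Pool.Agent.LGR.CASR
import Pool.Agent.LGR.TRES
import Pool.Agent.LGR.AVAL
import Pool.Agent.LGR.AVON
import Pool.Agent.LGR.RADP
import Pool.Agent.LGR.RADT
import Pool.Agent.LGR.RADF
import Pool.Agent.LGR.RADL
import Pool.Agent.LGR.DECP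
import Pool.Agent.LGR.TRIV
import Pool.Agent.LGR.ORTR
import Pool.Agent.LGR.NORR
import Pool.Agent.LGR.DENC
import Pool.Agent.LGR.SURJ
import Pool.Agent.LGR.ZFIN
import Pool.Agent.LGR.CHIF
import Pool.Agent.LGR.GXOF
import Pool.Agent.LGR.EIGW
import Pool.Agent.LGR.ETAV
import Pool.Agent.LGR.NSUV
import Pool.Agent.LGR.NBDV
import Pool.Agent.LGR.THBV
import Pool.Agent.LGR.HPRV
import Pool.Agent.LGR.HBDV
import Pool.Agent.LGR.GDVV
import Pool.Agent.LGR.FANV
import Pool.Agent.LGR.SUPV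
import Pool.Agent.LGR.KWFG
import Pool.Agent.LGR.LOCW
import Pool.Agent.LGR.INTK
import Pool.Agent.LGR.GSUV
import Pool.Agent.LGR.LOCV
import Pool.Agent.LGR.STRV
import Pool.Agent.LGR.MAIN
import Pool.Agent.LGR.KFRE
import Pool.Agent.LGR.DOMW
import Pool.Agent.LGR.HGTW
import Pool.Agent.LGR.HEXI
import Pool.Agent.LGR.HPOW
import Pool.Agent.LGR.HEIG
import Pool.Agent.LGR.GXOC
import Pool.Agent.LGR.QCMP
import Pool.Agent.LGR.HLOC
import Pool.Agent.LGR.HINT
import Pool.Agent.LGR.LOWK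
import Pool.Agent.LGR.SLIP
import Pool.Agent.LGR.TAUS
import Pool.Agent.LGR.REGP
import Pool.Agent.LGR.NILP
import Pool.Agent.LGR.PHIB
import Pool.Agent.LGR.PGXX
import Pool.Agent.LGR.INVL
import Pool.Agent.LGR.HQPW
import Pool.Agent.LGR.HQEI
import Pool.Agent.LGR.DERS
import Pool.Agent.LGR.DIMQ
import Pool.Agent.LGR.CENX
import Pool.Agent.LGR.ZERS
import Pool.Agent.LGR.LIPS
import Pool.Agent.LGR.VLEM
import Pool.Agent.LGR.DECA
import Pool.Agent.LGR.BALL
import Pool.Agent.LGR.LOGA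
import Pool.Agent.LGR.LOWM

/-!
# Simple compact Lie groups: the assembly
-/

namespace LGR

open STZ MeasureTheory Matrix Filter

namespace ASM

theorem kb : S_KB := t_KB

theorem haar : S_HAAR := t_HAAR

theorem exp : S_EXP := t_EXP

theorem calh : S_CALH := t_CALH t_EXP

theorem grh : S_GRH := t_GRH t_HAAR calh

theorem tenh : S_TENH := t_TENH t_TENS

theorem schur : S_SCHUR := t_SCHUR

theorem char : S_CHAR := t_CHAR t_SCHUR

theorem keri : S_KERI := t_KERI t_SCHUR

theorem alli : S_ALLI := t_ALLI t_KB char t_DECO keri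

theorem swh : S_SWH := t_SWH

theorem kop : S_KOP := t_KOP t_KB

theorem bern : S_BERN := t_BERN t_KB

theorem wwf : S_WWF := t_WWF

theorem wpt : S_WPT := t_WPT

theorem wint : S_WINT := t_WINT t_WPT

theorem frcn : S_FRCN := t_FRCN

theorem loci : S_LOCI := t_LOCI t_WPT t_WWF t_FRCN

theorem intj : S_INTJ := t_INTJ t_WPT wint t_WWF loci

theorem gsuy : S_GSUY := t_GSUY t_WWF intj

theorem tty : S_TTY := t_TTY t_KB t_YOUNG

theorem lev : S_LEV := t_LEV

theorem nq : S_NQ := t_NQ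

theorem allx : S_ALLX := t_ALLX t_NQ t_SCH

theorem aniw : S_ANIW := t_ANIW t_WWF t_SHFT

theorem weyy : S_WEYY := t_WEYY t_GEO aniw

theorem weyx : S_WEYX := t_WEYX t_GEO

theorem abey : S_ABEY := t_ABEY

theorem wcly : S_WCLY := t_WCLY

theorem wclf : S_WCLF := t_WCLF

theorem psim : S_PSIM := t_PSIM

theorem feja : S_FEJA := t_FEJA

theorem fejb : S_FEJB := t_FEJB t_FEJA

theorem cauc : S_CAUC := t_CAUC

theorem schw : S_SCHW := t_SCHW

theorem wfac : S_WFAC := LGR.t_WFAC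

theorem rhof : S_RHOF := LGR.t_RHOF

theorem gens : S_GENS := LGR.t_GENS

theorem exch : S_EXCH := LGR.t_EXCH gens

theorem cham : S_CHAM := LGR.t_CHAM rhof exch

theorem quad : S_QUAD := LGR.t_QUAD

theorem deno : S_DENO := LGR.t_DENO rhof gens cham quad

theorem schu : S_SCHU := LGR.t_SCHU quad

theorem unif : S_UNIF := LGR.t_UNIF quad schu

theorem avgf : S_AVGF := LGR.t_AVGF unif

theorem rvof : S_RVOF := LGR.t_RVOF wfac rhof gens cham quad deno avgf

theorem lieb : S_LIEB := LGR.t_LIEB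

theorem lcxf : S_LCXF := LGR.t_LCXF lieb

theorem kill : S_KILL := LGR.t_KILL lieb lcxf

theorem cart : S_CART := LGR.t_CART lieb lcxf

theorem rove : S_ROVE := LGR.t_ROVE

theorem intw : S_INTW := LGR.t_INTW

theorem rtsy : S_RTSY := LGR.t_RTSY

theorem lrdx : S_LRDX := LGR.t_LRDX lieb lcxf kill cart rove intw rtsy

theorem kfrm : S_KFRM := LGR.t_KFRM lieb

theorem tauf : S_TAUF := LGR.t_TAUF lieb wfac

theorem refh : S_REFH := LGR.t_REFH tauf

theorem form : S_FORM := LGR.t_FORM wfac quad schu tauf refh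

theorem adfr : S_ADFR := LGR.t_ADFR lieb wfac tauf

theorem atfv : S_ATFV := LGR.t_ATFV

theorem denv : S_DENV := LGR.t_DENV

theorem lemc : S_LEMC := LGR.t_LEMC lieb

theorem clsu : S_CLSU := LGR.t_CLSU lieb

theorem lemt : S_LEMT := LGR.t_LEMT lieb clsu

theorem conj : S_CONJ := LGR.t_CONJ lieb lemc lemt tauf

theorem wrep : S_WREP := LGR.t_WREP wfac tauf refh

theorem autn : S_AUTN := LGR.t_AUTN lieb tauf

theorem norx : S_NORX := LGR.t_NORX lieb lemc tauf

theorem chfx : S_CHFX := LGR.t_CHFX lieb wfac rhof tauf conj norx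

theorem weyc : S_WEYC := LGR.t_WEYC lieb wfac cham tauf wrep autn norx chfx

theorem clfx : S_CLFX := LGR.t_CLFX tauf conj weyc

theorem tpol : S_TPOL := LGR.t_TPOL

theorem diml : S_DIML := LGR.t_DIML quad deno

theorem pffx : S_PFFX := LGR.t_PFFX calh lieb

theorem tprd : S_TPRD := LGR.t_TPRD pffx

theorem drep : S_DREP := LGR.t_DREP calh lieb pffx

theorem casr : S_CASR := LGR.t_CASR calh lieb pffx drep

theorem tres : S_TRES := LGR.t_TRES lieb tauf drep

theorem aval : S_AVAL := LGR.t_AVAL tpol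

theorem avon : S_AVON := LGR.t_AVON cham aval

theorem radp : S_RADP := LGR.t_RADP calh lieb pffx tauf

theorem radt : S_RADT := LGR.t_RADT tauf

theorem radf : S_RADF := LGR.t_RADF lieb pffx wfac tauf adfr radp radt

theorem radl : S_RADL := LGR.t_RADL rhof quad deno rvof denv tpol aval

theorem decp : S_DECP := LGR.t_DECP

theorem triv : S_TRIV := LGR.t_TRIV tauf conj

theorem ortr : S_ORTR := LGR.t_ORTR grh wfac cham tauf pffx decp casr triv tres tpol aval radf radl

theorem norr : S_NORR := LGR.t_NORR char wfac cham rvof diml atfv tauf wrep pffx tprd casr tres tpol aval avon radf radl ortr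

theorem denc : S_DENC := LGR.t_DENC haar schur tenh pffx decp

theorem surj : S_SURJ := LGR.t_SURJ wfac cham rvof atfv denv tauf clfx tpol norr denc

theorem zfin : S_ZFIN := LGR.t_ZFIN tauf

theorem chif : S_CHIF := LGR.t_CHIF haar kb keri alli tenh swh wfac cham rvof atfv denv tauf conj tpol pffx decp norr

theorem gxof : S_GXOF := LGR.t_GXOF wfac tauf adfr surj zfin chif

theorem eigw : S_EIGW := LGR.t_EIGW kb keri calh grh

theorem etav : S_ETAV := LGR.t_ETAV psim

theorem nsuv : S_NSUV := LGR.t_NSUV feja etav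

theorem nbdv : S_NBDV := LGR.t_NBDV wwf weyy abey wcly psim feja

theorem thbv : S_THBV := LGR.t_THBV wwf weyx abey wclf wcly psim

theorem hprv : S_HPRV := LGR.t_HPRV feja etav

theorem hbdv : S_HBDV := LGR.t_HBDV cauc thbv hprv fejb

theorem gdvv : S_GDVV := LGR.t_GDVV denv schw

theorem fanv : S_FANV := LGR.t_FANV

theorem supv : S_SUPV := LGR.t_SUPV denv atfv nsuv hbdv gdvv fanv

theorem kwfg : S_KWFG := LGR.t_KWFG wwf keri atfv etav nsuv nbdv supv kop

theorem locw : S_LOCW := LGR.t_LOCW kb bern keri wwf kwfg gsuy tty lev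

theorem intk : S_INTK := LGR.t_INTK wpt wint wwf frcn

theorem gsuv : S_GSUV := LGR.t_GSUV wwf intk

theorem locv : S_LOCV := LGR.t_LOCV kb bern keri wwf kwfg gsuv tty lev

theorem strv : S_STRV := LGR.t_STRV nq kb haar keri eigw allx locw locv

theorem main : MainUp := LGR.t_MAIN wfac rvof lrdx kfrm form gxof strv

theorem kfre : S_KFRE := LGR.t_KFRE lieb

theorem domw : S_DOMW := LGR.t_DOMW rhof cham

theorem hgtw : S_HGTW := LGR.t_HGTW rhof cham deno tpol domw

theorem hexi : S_HEXI := LGR.t_HEXI calh lieb wfac pffx drep tauf tres tpol surj hgtw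

theorem hpow : S_HPOW := LGR.t_HPOW calh lieb pffx tauf

theorem heig : S_HEIG := LGR.t_HEIG calh lieb wfac rhof quad pffx tauf adfr

theorem gxoc : S_GXOC := LGR.t_GXOC wfac tauf adfr surj zfin chif

theorem qcmp : S_QCMP := LGR.t_QCMP quad

theorem hloc : S_HLOC := LGR.t_HLOC haar schur kb keri calh wfac rvof tauf adfr zfin eigw pffx tres tpol gxoc hgtw qcmp heig

theorem hint : S_HINT := LGR.t_HINT haar schur wfac tauf tres tpol hgtw hloc

theorem lowk : MainLow := LGR.t_LOWK wfac rhof quad lieb lrdx kfrm kfre form adfr zfin calh hexi hpow heig hint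

theorem slip : S_SLIP := LGR.t_SLIP exp lieb clsu

theorem taus : S_TAUS := LGR.t_TAUS lieb kfrm kfre

theorem regp : S_REGP := LGR.t_REGP lieb

theorem nilp : S_NILP := LGR.t_NILP lieb taus regp

theorem phib : S_PHIB := LGR.t_PHIB

theorem pgxx : S_PGXX := LGR.t_PGXX exp calh lieb taus

theorem invl : S_INVL := LGR.t_INVL calh lieb

theorem hqpw : S_HQPW := LGR.t_HQPW calh

theorem hqei : S_HQEI := LGR.t_HQEI calh lieb

theorem ders : S_DERS := LGR.t_DERS calh lieb taus pgxx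

theorem dimq : S_DIMQ := LGR.t_DIMQ lieb taus regp

theorem cenx : S_CENX := LGR.t_CENX lieb lemc tauf conj lrdx

theorem zers : S_ZERS := LGR.t_ZERS lieb taus dimq cenx

theorem lips : S_LIPS := LGR.t_LIPS exp lieb taus zers

theorem vlem : S_VLEM := LGR.t_VLEM exp calh

theorem deca : S_DECA := LGR.t_DECA

theorem ball : S_BALL := LGR.t_BALL

theorem loga : S_LOGA := LGR.t_LOGA

theorem lowm : MainLowM := LGR.t_LOWM haar lieb slip kfrm kfre taus nilp phib pgxx invl hqpw hqei ders lips vlem deca ball loga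

end ASM

end LGR
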