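import Pool.Agent.LGR.StD

/-!
# Module AUTN: elements which normalise the Cartan algebra act by automorphisms of the root data
-/

namespace LGR

open STZ MeasureTheory Matrix Filter

open scoped ComplexConjugate Matrix Real Topology

namespace AUTN

variable {N r : ℕ}

theorem hx_add (Hc : Fin r → Matrix (Fin N) (Fin N) ℂ) (x y : Fin r → ℝ) :
    hx Hc (x + y) = hx Hc x + hx Hc y := by
  simp only [hx, ← Finset.sum_add_distrib, ← add_smul]
  refine Finset.sum_congr rfl fun j _ => ?_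
  congr 1
  simp only [Pi.add_apply]
  push_cast
  ring

theorem hx_smul (Hc : Fin r → Matrix (Fin N) (Fin N) ℂ) (s : ℝ) (x : Fin r → ℝ) :
    hx Hc (s • x) = (s : ℂ) • hx Hc x := by
  simp only [hx, Finset.smul_sum, smul_smul]
  refine Finset.sum_congr rfl fun j _ => ?_
  congr 1
  simp only [Pi.smul_apply, smul_eq_mul]
  push_cast
  ring

theorem hx_eq (Hc : Fin r → Matrix (Fin N) (Fin N) ℂ) (x : Fin r → ℝ) :
    hx Hc x = Complex.I • ∑ j, (x j : ℂ) • Hc j := by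
  simp only [hx, Finset.smul_sum, smul_smul, mul_comm]

theorem lin_inj {Hc : Fin r → Matrix (Fin N) (Fin N) ℂ} (hl : LinearIndependent ℝ Hc)
    {x y : Fin r → ℝ} (h : ∑ j, (x j : ℂ) • Hc j = ∑ j, (y j : ℂ) • Hc j) : x = y := by
  have h1 : ∑ j, (x j - y j) • Hc j = 0 := by
    have h0 : ∑ j, (x j - y j) • Hc j = ∑ j, (x j : ℂ) • Hc j - ∑ j, (y j : ℂ) • Hc j := by
      rw [← Finset.sum_sub_distrib]
      refine Finset.sum_congr rfl fun j _ => ?_
      rw [← sub_smul, ← Complex.coe_smul]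
      push_cast
      rfl
    rw [h0, h, sub_self]
  have h2 := Fintype.linearIndependent_iff.1 hl _ h1
  funext j
  have := h2 j
  linarith

theorem hx_inj {Hc : Fin r → Matrix (Fin N) (Fin N) ℂ} (hl : LinearIndependent ℝ Hc)
    {x y : Fin r → ℝ} (h : hx Hc x = hx Hc y) : x = y := by
  rw [hx_eq, hx_eq] at h
  exact lin_inj hl (smul_right_injective _ Complex.I_ne_zero h)

/-- the complex span of the `Hc j` and the `E q` -/
def SP (Φ : RT r) (Hc : Fin r → Matrix (Fin N) (Fin N) ℂ)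
    (E : (Fin r → ℤ) × (Fin r → ℤ) → Matrix (Fin N) (Fin N) ℂ) :
    Submodule ℂ (Matrix (Fin N) (Fin N) ℂ) where
  carrier := {X | ∃ (a : Fin r → ℂ) (b : (Fin r → ℤ) × (Fin r → ℤ) → ℂ),
    X = ∑ j, a j • Hc j + ∑ q ∈ Φ, b q • E q}
  add_mem' := by
    rintro _ _ ⟨a, b, rfl⟩ ⟨a', b', rfl⟩
    refine ⟨fun j => a j + a' j, fun q => b q + b' q, ?_⟩
    simp only [add_smul, Finset.sum_add_distrib]
    abel
  zero_mem' := ⟨fun _ => 0, fun _ => 0, by simp⟩
  smul_mem' := by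
    rintro c _ ⟨a, b, rfl⟩
    refine ⟨fun j => c * a j, fun q => c * b q, ?_⟩
    simp only [smul_add, Finset.smul_sum, smul_smul]

theorem Hc_mem (Φ : RT r) (Hc : Fin r → Matrix (Fin N) (Fin N) ℂ)
    (E : (Fin r → ℤ) × (Fin r → ℤ) → Matrix (Fin N) (Fin N) ℂ) (j : Fin r) : Hc j ∈ SP Φ Hc E := by
  refine ⟨fun i => if i = j then 1 else 0, fun _ => 0, ?_⟩
  simp

theorem E_mem {Φ : RT r} (Hc : Fin r → Matrix (Fin N) (Fin N) ℂ)
    (E : (Fin r → ℤ) × (Fin r → ℤ) → Matrix (Fin N) (Fin N) ℂ) {q : (Fin r → ℤ) × (Fin r → ℤ)}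
    (hq : q ∈ Φ) : E q ∈ SP Φ Hc E := by
  refine ⟨fun _ => 0, fun p => if p = q then 1 else 0, ?_⟩
  simp [hq]

variable {H : Subgroup (SU N)} {Φ : RT r} {B : Matrix (Fin r) (Fin r) ℤ}
  {Hc : Fin r → Matrix (Fin N) (Fin N) ℂ}
  {E : (Fin r → ℤ) × (Fin r → ℤ) → Matrix (Fin N) (Fin N) ℂ}

theorem neg_mem (hL : LRD H Φ B Hc E) {p : (Fin r → ℤ) × (Fin r → ℤ)} (hp : p ∈ Φ) :
    (-p.1, -p.2) ∈ Φ := by
  have h := hL.ird.refl p hp p hp
  rw [hL.ird.two p hp] at h
  have e : (p.1 - (2 : ℤ) • p.1, p.2 - (2 : ℤ) • p.2) = (-p.1, -p.2) := by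
    rw [Prod.mk.injEq]
    constructor
    · funext i
      simp only [Pi.sub_apply, Pi.smul_apply, Pi.neg_apply, smul_eq_mul]
      ring
    · funext i
      simp only [Pi.sub_apply, Pi.smul_apply, Pi.neg_apply, smul_eq_mul]
      ring
  rw [e] at h
  exact h

theorem root_inj (hL : LRD H Φ B Hc E) {p q : (Fin r → ℤ) × (Fin r → ℤ)} (hp : p ∈ Φ) (hq : q ∈ Φ)
    (h : p.1 = q.1) : p = q := by
  rcases hL.ird.red p hp q hq 1 1 one_ne_zero (Or.inl (by rw [one_smul, one_smul, h])) with h1 | h1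
  · exact h1.symm
  · exfalso
    have h2 : q.1 = -p.1 := by rw [h1]
    rw [← h] at h2
    have h3 : p.1 = 0 := by
      funext i
      have := congrFun h2 i
      simp only [Pi.neg_apply] at this
      simp only [Pi.zero_apply]
      omega
    have h4 := hL.ird.two p hp
    rw [h3] at h4
    simp at h4

theorem lie_sub (hL : LRD H Φ B Hc E) {X : Matrix (Fin N) (Fin N) ℂ} (hX : X ∈ lie H) :
    X ∈ SP Φ Hc E := by
  obtain ⟨x, z, rfl⟩ := hL.span X hX
  refine Submodule.add_mem _ (Submodule.sum_mem _ fun j _ => Submodule.smul_mem _ _ (Hc_mem Φ Hc E j))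
    (Submodule.sum_mem _ fun p hp => ?_)
  have hp' : p ∈ Φ := (Finset.mem_filter.1 hp).1
  refine Submodule.sub_mem _ (Submodule.smul_mem _ _ (E_mem Hc E hp')) (Submodule.smul_mem _ _ ?_)
  rw [← hL.star p hp']
  exact E_mem Hc E (neg_mem hL hp')

theorem tr_ne (hT : TAF H Φ Hc E) {q : (Fin r → ℤ) × (Fin r → ℤ)} (hq : q ∈ Φ) :
    (E q * (E q)ᴴ).trace ≠ 0 := by
  intro h
  have := (hT.pos q hq).1
  rw [h] at this
  simp at this

theorem E_ne (hT : TAF H Φ Hc E) {q : (Fin r → ℤ) × (Fin r → ℤ)} (hq : q ∈ Φ) : E q ≠ 0 := by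
  intro h
  apply tr_ne hT hq
  rw [h]
  simp

theorem trH (hL : LRD H Φ B Hc E) (hT : TAF H Φ Hc E) {q : (Fin r → ℤ) × (Fin r → ℤ)} (hq : q ∈ Φ)
    (j : Fin r) : (Hc j * (E q)ᴴ).trace = 0 := by
  have h : Hc j * (E q)ᴴ = (E q * Hc j)ᴴ := by
    rw [conjTranspose_mul, hL.herm]
  rw [h, trace_conjTranspose, hT.orh q hq j, star_zero]

theorem eig (hI : LIF H) (hL : LRD H Φ B Hc E) (hT : TAF H Φ Hc E) {G : Matrix (Fin N) (Fin N) ℂ}
    (hG : G ∈ SP Φ Hc E) (hG0 : G ≠ 0) (Y : (Fin r → ℝ) → (Fin r → ℝ)) (lam : (Fin r → ℝ) → ℝ)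
    (hl : ∀ x, hx Hc (Y x) * G - G * hx Hc (Y x) = ((lam x : ℂ) * Complex.I) • G)
    (hne : ∃ x, lam x ≠ 0) :
    ∃ q ∈ Φ, (G * (E q)ᴴ).trace ≠ 0 ∧ ∀ x, ∑ j, (q.1 j : ℝ) * Y x j = lam x := by
  have h1 : ∃ q ∈ Φ, (G * (E q)ᴴ).trace ≠ 0 := by
    by_contra hc
    push Not at hc
    obtain ⟨a, b, hab⟩ := hG
    have hb : ∀ q ∈ Φ, b q = 0 := by
      intro q hq
      have h2 := hc q hq
      rw [hab, add_mul, trace_add, Finset.sum_mul, Finset.sum_mul, trace_sum, trace_sum] at h2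
      rw [Finset.sum_eq_zero, zero_add, Finset.sum_eq_single_of_mem q hq] at h2
      · rw [smul_mul_assoc, trace_smul, smul_eq_mul] at h2
        exact (mul_eq_zero.1 h2).resolve_right (tr_ne hT hq)
      · intro p hp hpq
        rw [smul_mul_assoc, trace_smul, hT.orth p hp q hq hpq, smul_zero]
      · intro j _
        rw [smul_mul_assoc, trace_smul, trH hL hT hq, smul_zero]
    have hG2 : G = ∑ j, a j • Hc j := by
      have h0 : ∑ q ∈ Φ, b q • E q = 0 := Finset.sum_eq_zero fun q hq => by rw [hb q hq, zero_smul]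
      rw [hab, h0, add_zero]
    obtain ⟨x, hx0⟩ := hne
    have h3 : hx Hc (Y x) * G - G * hx Hc (Y x) = 0 := by
      rw [hG2, hx, Finset.sum_mul_sum, Finset.sum_mul_sum, Finset.sum_comm, sub_eq_zero]
      refine Finset.sum_congr rfl fun i _ => Finset.sum_congr rfl fun j _ => ?_
      rw [smul_mul_smul_comm, smul_mul_smul_comm, hL.comm j i, mul_comm (a i)]
    rw [hl x] at h3
    rcases smul_eq_zero.1 h3 with h4 | h4
    · rcases mul_eq_zero.1 h4 with h5 | h5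
      · exact hx0 (by exact_mod_cast h5)
      · exact Complex.I_ne_zero h5
    · exact hG0 h4
  obtain ⟨q, hq, hq0⟩ := h1
  refine ⟨q, hq, hq0, fun x => ?_⟩
  have hsk : (hx Hc (Y x))ᴴ = -hx Hc (Y x) := (hI.su _ (hT.hmem (Y x))).1
  have h2 := congrArg conjTranspose (hT.ade q hq (Y x))
  rw [conjTranspose_sub, conjTranspose_mul, conjTranspose_mul, hsk, conjTranspose_smul] at h2
  have h3 : (E q)ᴴ * hx Hc (Y x) - hx Hc (Y x) * (E q)ᴴ =
      (((∑ j, (q.1 j : ℝ) * Y x j : ℝ) : ℂ) * Complex.I) • (E q)ᴴ := by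
    have h4 : (E q)ᴴ * hx Hc (Y x) - hx Hc (Y x) * (E q)ᴴ =
        -((E q)ᴴ * -hx Hc (Y x) - -hx Hc (Y x) * (E q)ᴴ) := by
      simp only [mul_neg, neg_mul]
      abel
    rw [h4, h2, ← neg_smul]
    congr 1
    simp only [star_mul', Complex.star_def, Complex.conj_ofReal, Complex.conj_I]
    ring
  have h5 : (G * (E q)ᴴ).trace * ((∑ j, (q.1 j : ℝ) * Y x j : ℝ) : ℂ) =
      (G * (E q)ᴴ).trace * (lam x : ℂ) := by
    have h6 := congrArg (fun M => (M * (E q)ᴴ).trace) (hl x)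
    simp only [sub_mul, trace_sub, smul_mul_assoc, trace_smul, smul_eq_mul] at h6
    have h7 : (hx Hc (Y x) * G * (E q)ᴴ).trace = (G * ((E q)ᴴ * hx Hc (Y x))).trace := by
      rw [mul_assoc, trace_mul_comm, mul_assoc]
    rw [h7, mul_assoc G, ← trace_sub, ← mul_sub, h3, mul_smul_comm, trace_smul, smul_eq_mul] at h6
    have h8 := mul_right_cancel₀ Complex.I_ne_zero
      (show ((∑ j, (q.1 j : ℝ) * Y x j : ℝ) : ℂ) * (G * (E q)ᴴ).trace * Complex.I =
        (lam x : ℂ) * (G * (E q)ᴴ).trace * Complex.I by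
        linear_combination h6)
    linear_combination h8
  have h9 := mul_left_cancel₀ hq0 h5
  exact_mod_cast h9

theorem main (hI : LIF H) (hL : LRD H Φ B Hc E) (hT : TAF H Φ Hc E) {U : Matrix (Fin N) (Fin N) ℂ}
    (hU2 : Uᴴ * U = 1) (had : ∀ X ∈ lie H, U * X * Uᴴ ∈ lie H)
    (Y : (Fin r → ℝ) → (Fin r → ℝ)) (hY : ∀ x, U * hx Hc x * Uᴴ = hx Hc (Y x))
    (hsurj : Function.Surjective Y) {p : (Fin r → ℤ) × (Fin r → ℤ)} (hp : p ∈ Φ) :
    ∃ q ∈ Φ, (U * (∑ j, (p.2 j : ℂ) • Hc j) * Uᴴ = ∑ j, (q.2 j : ℂ) • Hc j) ∧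
      ∀ x, ∑ j, (q.1 j : ℝ) * Y x j = ∑ j, (p.1 j : ℝ) * x j := by
  have conjm : ∀ A C : Matrix (Fin N) (Fin N) ℂ, U * A * Uᴴ * (U * C * Uᴴ) = U * (A * C) * Uᴴ := by
    intro A C
    calc U * A * Uᴴ * (U * C * Uᴴ) = U * A * (Uᴴ * U) * C * Uᴴ := by simp only [mul_assoc]
      _ = U * (A * C) * Uᴴ := by rw [hU2, mul_one]; simp only [mul_assoc]
  obtain ⟨F, hF⟩ : ∃ F, F = U * E p * Uᴴ := ⟨_, rfl⟩
  have hFH : Fᴴ = U * (E p)ᴴ * Uᴴ := by
    rw [hF, conjTranspose_mul, conjTranspose_mul, conjTranspose_conjTranspose, mul_assoc]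
  have hF0 : F ≠ 0 := by
    intro h0
    apply E_ne hT hp
    have h1 : E p = Uᴴ * F * U := by
      rw [hF]
      calc E p = (Uᴴ * U) * E p * (Uᴴ * U) := by rw [hU2, one_mul, mul_one]
        _ = Uᴴ * (U * E p * Uᴴ) * U := by simp only [mul_assoc]
    rw [h1, h0, mul_zero, zero_mul]
  have hFS : F ∈ SP Φ Hc E := by
    have h1 := lie_sub hL (had _ (hL.emem p hp).1)
    have h2 := lie_sub hL (had _ (hL.emem p hp).2)
    have h3 : F = (1 / 2 : ℂ) • (U * (E p - (E p)ᴴ) * Uᴴ) +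
        (-Complex.I / 2) • (U * (Complex.I • (E p + (E p)ᴴ)) * Uᴴ) := by
      rw [mul_smul_comm, smul_mul_assoc, smul_smul]
      have h4 : -Complex.I / 2 * Complex.I = 1 / 2 := by
        have := Complex.I_mul_I
        linear_combination (-1 / 2 : ℂ) * this
      rw [h4, ← smul_add, hF, mul_sub, mul_add, sub_mul, add_mul]
      have h5 : U * E p * Uᴴ - U * (E p)ᴴ * Uᴴ + (U * E p * Uᴴ + U * (E p)ᴴ * Uᴴ) =
          (2 : ℂ) • (U * E p * Uᴴ) := by
        rw [two_smul]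
        abel
      rw [h5, smul_smul]
      norm_num
    rw [h3]
    exact Submodule.add_mem _ (Submodule.smul_mem _ _ h1) (Submodule.smul_mem _ _ h2)
  have hlF : ∀ x, hx Hc (Y x) * F - F * hx Hc (Y x) =
      (((∑ j, (p.1 j : ℝ) * x j : ℝ) : ℂ) * Complex.I) • F := by
    intro x
    rw [hF, ← hY x, conjm, conjm, ← sub_mul, ← mul_sub, hT.ade p hp x, mul_smul_comm, smul_mul_assoc]
  have hne : ∃ x : Fin r → ℝ, ∑ j, (p.1 j : ℝ) * x j ≠ 0 := by
    obtain ⟨x, hx⟩ := hT.reg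
    exact ⟨x, hx p hp⟩
  obtain ⟨q, hq, hq0, hqx⟩ := eig hI hL hT hFS hF0 Y (fun x => ∑ j, (p.1 j : ℝ) * x j) hlF hne
  obtain ⟨c, hc⟩ : ∃ c, c = (F * (E q)ᴴ).trace / (E q * (E q)ᴴ).trace := ⟨_, rfl⟩
  have hFc : F = c • E q := by
    by_contra hcon
    have hG0 : F - c • E q ≠ 0 := sub_ne_zero.2 hcon
    have hGS : F - c • E q ∈ SP Φ Hc E :=
      Submodule.sub_mem _ hFS (Submodule.smul_mem _ _ (E_mem Hc E hq))
    have hlG : ∀ x, hx Hc (Y x) * (F - c • E q) - (F - c • E q) * hx Hc (Y x) =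
        (((∑ j, (p.1 j : ℝ) * x j : ℝ) : ℂ) * Complex.I) • (F - c • E q) := by
      intro x
      have h1 := hT.ade q hq (Y x)
      rw [hqx x] at h1
      have h2 : hx Hc (Y x) * (F - c • E q) - (F - c • E q) * hx Hc (Y x) =
          (hx Hc (Y x) * F - F * hx Hc (Y x)) - c • (hx Hc (Y x) * E q - E q * hx Hc (Y x)) := by
        simp only [mul_sub, sub_mul, mul_smul_comm, smul_mul_assoc, smul_sub]
        abel
      rw [h2, hlF x, h1, smul_sub, smul_comm c]
    obtain ⟨q', hq', hq0', hqx'⟩ := eig hI hL hT hGS hG0 Y (fun x => ∑ j, (p.1 j : ℝ) * x j) hlG hne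
    have h3 : q'.1 = q.1 := by
      funext k
      obtain ⟨x, hx⟩ := hsurj (Pi.single k 1)
      have h4 := (hqx' x).trans (hqx x).symm
      rw [hx] at h4
      simp only [Pi.single_apply, mul_ite, mul_one, mul_zero, Finset.sum_ite_eq', Finset.mem_univ,
        if_true] at h4
      exact_mod_cast h4
    have h5 := root_inj hL hq' hq h3
    subst h5
    apply hq0'
    rw [sub_mul, trace_sub, smul_mul_assoc, trace_smul, smul_eq_mul, hc,
      div_mul_cancel₀ _ (tr_ne hT hq), sub_self]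
  have hc0 : c ≠ 0 := by
    intro h0
    rw [h0, zero_smul] at hFc
    exact hF0 hFc
  have hh : U * (∑ j, (p.2 j : ℂ) • Hc j) * Uᴴ = (c * conj c) • ∑ j, (q.2 j : ℂ) • Hc j := by
    rw [← hL.cor p hp, ← hL.cor q hq, mul_sub, sub_mul, ← conjm, ← conjm, ← hF, ← hFH, hFc,
      conjTranspose_smul, smul_mul_smul_comm, smul_mul_smul_comm, smul_sub, Complex.star_def,
      mul_comm (conj c) c]
  have two : ∀ p ∈ Φ, (∑ j, (p.2 j : ℂ) • Hc j) * E p - E p * (∑ j, (p.2 j : ℂ) • Hc j) =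
      (2 : ℂ) • E p := by
    intro p hp
    rw [Finset.sum_mul, Finset.mul_sum, ← Finset.sum_sub_distrib]
    have h1 : ∀ j ∈ Finset.univ, ((p.2 j : ℂ) • Hc j) * E p - E p * ((p.2 j : ℂ) • Hc j) =
        ((p.2 j : ℂ) * (p.1 j : ℂ)) • E p := by
      intro j _
      rw [smul_mul_assoc, mul_smul_comm, ← smul_sub, hL.ead p hp j, smul_smul]
    rw [Finset.sum_congr rfl h1, ← Finset.sum_smul]
    congr 1
    have h2 := hL.ird.two p hp
    rw [dotProduct] at h2
    exact_mod_cast h2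
  have hcc : c * conj c = 1 := by
    have h1 := congrArg (fun M => U * M * Uᴴ) (two p hp)
    simp only [mul_sub, sub_mul, mul_smul_comm, smul_mul_assoc] at h1
    rw [← conjm, ← conjm, hh, ← hF, hFc, smul_mul_smul_comm, smul_mul_smul_comm, mul_comm c (c * conj c),
      ← smul_sub, two q hq, smul_smul, smul_smul] at h1
    have h2 := sub_eq_zero.2 h1
    rw [← sub_smul] at h2
    rcases smul_eq_zero.1 h2 with h3 | h3
    · have h4 : c * (c * conj c - 1) = 0 := by linear_combination h3 / 2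
      rcases mul_eq_zero.1 h4 with h5 | h5
      · exact absurd h5 hc0
      · exact sub_eq_zero.1 h5
    · exact absurd h3 (E_ne hT hq)
  refine ⟨q, hq, ?_, hqx⟩
  rw [hh, hcc, one_smul]

end AUTN

open AUTN in
theorem t_AUTN : M_AUTN := by
  intro hLB hTA N H r Φ B Hc E hcl hL n hn hnorm
  have hI := hLB N H hcl
  have hT := hTA N H r Φ B Hc E hcl hL
  obtain ⟨U, hU⟩ : ∃ U, U = n.1 := ⟨_, rfl⟩
  have hU2 : Uᴴ * U = 1 := by
    rw [hU]
    exact mem_unitaryGroup_iff'.1 (mem_specialUnitaryGroup_iff.1 n.2).1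
  have hU1 : U * Uᴴ = 1 := by
    rw [hU]
    exact mem_unitaryGroup_iff.1 (mem_specialUnitaryGroup_iff.1 n.2).1
  have had : ∀ X ∈ lie H, U * X * Uᴴ ∈ lie H := fun X hX => by
    rw [hU]
    exact hI.ad n hn X hX
  rw [← hU] at hnorm
  rw [← hU]
  choose Y hY using hnorm
  have hYa : ∀ x y, Y (x + y) = Y x + Y y := by
    intro x y
    apply hx_inj hL.lin
    rw [← hY, hx_add, hx_add, mul_add, add_mul, hY, hY]
  have hYs : ∀ (s : ℝ) x, Y (s • x) = s • Y x := by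
    intro s x
    apply hx_inj hL.lin
    rw [← hY, hx_smul, hx_smul, mul_smul_comm, smul_mul_assoc, hY]
  have hYi : Function.Injective Y := by
    intro x y hxy
    apply hx_inj hL.lin
    have h1 : ∀ z, hx Hc z = Uᴴ * hx Hc (Y z) * U := by
      intro z
      rw [← hY z]
      calc hx Hc z = (Uᴴ * U) * hx Hc z * (Uᴴ * U) := by rw [hU2, one_mul, mul_one]
        _ = Uᴴ * (U * hx Hc z * Uᴴ) * U := by simp only [mul_assoc]
    rw [h1 x, h1 y, hxy]
  have hsurj : Function.Surjective Y := by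
    let L : (Fin r → ℝ) →ₗ[ℝ] (Fin r → ℝ) :=
      { toFun := Y, map_add' := hYa, map_smul' := fun s x => hYs s x }
    exact LinearMap.injective_iff_surjective.1 (show Function.Injective L from hYi)
  have key : ∀ p ∈ Φ, ∃ q, q ∈ Φ ∧ (U * (∑ j, (p.2 j : ℂ) • Hc j) * Uᴴ = ∑ j, (q.2 j : ℂ) • Hc j) ∧
      ∀ x, ∑ j, (q.1 j : ℝ) * Y x j = ∑ j, (p.1 j : ℝ) * x j := by
    intro p hp
    obtain ⟨q, hq, h1, h2⟩ := main hI hL hT hU2 had Y hY hsurj hp
    exact ⟨q, hq, h1, h2⟩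
  choose! f hf hfU hfY using key
  obtain ⟨u, hu⟩ : ∃ u : Matrix (Fin r) (Fin r) ℤ, u = fun i j => (f (B i, Pi.single i 1)).2 j :=
    ⟨_, rfl⟩
  have hUj : ∀ j, U * Hc j * Uᴴ = ∑ i, (u j i : ℂ) • Hc i := by
    intro j
    have h1 := hfU _ (hL.ird.base j)
    rw [hu, ← h1]
    congr 2
    rw [Finset.sum_eq_single j]
    · simp
    · intro b _ hb
      simp [hb]
    · intro hj
      exact absurd (Finset.mem_univ j) hj
  have gen : ∀ a : Fin r → ℂ, U * (∑ j, a j • Hc j) * Uᴴ = ∑ i, (∑ j, (u j i : ℂ) * a j) • Hc i := by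
    intro a
    rw [Finset.mul_sum, Finset.sum_mul]
    calc ∑ j, U * a j • Hc j * Uᴴ = ∑ j, ∑ i, ((u j i : ℂ) * a j) • Hc i := by
          refine Finset.sum_congr rfl fun j _ => ?_
          rw [mul_smul_comm, smul_mul_assoc, hUj, Finset.smul_sum]
          refine Finset.sum_congr rfl fun i _ => ?_
          rw [smul_smul, mul_comm]
      _ = ∑ i, (∑ j, (u j i : ℂ) * a j) • Hc i := by
          rw [Finset.sum_comm]
          refine Finset.sum_congr rfl fun i _ => ?_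
          rw [Finset.sum_smul]
  have hform : ∀ x : Fin r → ℝ, U * hx Hc x * Uᴴ = hx Hc (fun j => ∑ i, (u i j : ℝ) * x i) := by
    intro x
    rw [hx, gen, hx]
    refine Finset.sum_congr rfl fun i _ => ?_
    congr 1
    push_cast
    rw [Finset.sum_mul]
    refine Finset.sum_congr rfl fun j _ => ?_
    ring
  have hYf : ∀ x, Y x = fun j => ∑ i, (u i j : ℝ) * x i := by
    intro x
    apply hx_inj hL.lin
    rw [← hY, hform]
  have hco : ∀ p ∈ Φ, ∀ i, (f p).2 i = ∑ j, p.2 j * u j i := by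
    intro p hp i
    have h1 := hfU p hp
    rw [gen] at h1
    have h2 : ∑ j, ((fun i => ((∑ j, p.2 j * u j i : ℤ) : ℝ)) j : ℂ) • Hc j =
        ∑ j, ((fun i => (((f p).2 i : ℤ) : ℝ)) j : ℂ) • Hc j := by
      have h3 : ∑ j, ((fun i => (((f p).2 i : ℤ) : ℝ)) j : ℂ) • Hc j = ∑ j, ((f p).2 j : ℂ) • Hc j := by
        refine Finset.sum_congr rfl fun j _ => ?_
        congr 1
      rw [h3, ← h1]
      refine Finset.sum_congr rfl fun j _ => ?_
      congr 1
      push_cast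
      refine Finset.sum_congr rfl fun k _ => ?_
      ring
    have h4 : ((∑ j, p.2 j * u j i : ℤ) : ℝ) = (((f p).2 i : ℤ) : ℝ) := congrFun (lin_inj hL.lin h2) i
    exact_mod_cast h4.symm
  have hro : ∀ p ∈ Φ, u *ᵥ (f p).1 = p.1 := by
    intro p hp
    funext k
    have h1 := hfY p hp (Pi.single k 1)
    rw [hYf] at h1
    simp only [Pi.single_apply, mul_ite, mul_one, mul_zero, Finset.sum_ite_eq', Finset.mem_univ,
      if_true] at h1
    have h2 : ((u *ᵥ (f p).1) k : ℝ) = (p.1 k : ℝ) := by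
      rw [← h1, mulVec, dotProduct]
      push_cast
      refine Finset.sum_congr rfl fun j _ => ?_
      ring
    exact_mod_cast h2
  have hfs : ∀ q ∈ Φ, ∃ p ∈ Φ, f p = q := by
    have h1 : Set.SurjOn f (Φ : Set _) (Φ : Set _) := by
      apply Finset.surjOn_of_injOn_of_card_le f (fun p hp => hf p hp) _ le_rfl
      intro p hp q hq hpq
      apply root_inj hL hp hq
      rw [← hro p hp, ← hro q hq, hpq]
    intro q hq
    obtain ⟨p, hp, hpq⟩ := h1 hq
    exact ⟨p, hp, hpq⟩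
  refine ⟨u, hform, ?_, ?_⟩
  · have h1 : ∀ i, ∃ p ∈ Φ, f p = (B i, Pi.single i 1) := fun i => hfs _ (hL.ird.base i)
    choose g hg hgf using h1
    refine ⟨Matrix.of fun i j => (g i).2 j, ?_⟩
    have h2 : (Matrix.of fun i j => (g i).2 j) * u = 1 := by
      ext i k
      rw [mul_apply]
      have h3 := hco (g i) (hg i) k
      rw [hgf i] at h3
      simp only [of_apply]
      rw [← h3]
      simp only [one_apply, Pi.single_apply]
      by_cases hik : i = k
      · rw [if_pos hik, if_pos hik.symm]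
      · rw [if_neg hik, if_neg (fun h => hik h.symm)]
    exact ⟨h2, mul_eq_one_comm.1 h2⟩
  · intro p hp
    obtain ⟨p', hp', hpp⟩ := hfs p hp
    refine ⟨p', hp', ?_, ?_⟩
    · rw [← hpp]
      exact hro p' hp'
    · intro l
      have h1 : p.2 = p'.2 ᵥ* u := by
        funext i
        rw [← hpp, hco p' hp' i]
        rfl
      rw [h1, dotProduct_mulVec]

end LGR
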