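import Pool.Agent.STZ.DefsG
import Mathlib.LinearAlgebra.FiniteDimensional.Basic
import Mathlib.LinearAlgebra.Dimension.Finrank

/-!
# Strichartz estimates on simple compact Lie groups and on irreducible symmetric spaces: definitions

`H` is a closed subgroup of `SU(N)` with the Lie algebra `lie H` (a real vector space of matrices). Every compact
connected Lie group with a simple Lie algebra is isomorphic to a closed connected subgroup `H` of some `SU(N)` with `SimpleL H`.
The canonical metric is the one of the negative of the Killing form (`KFrame`).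
-/

namespace LGK

open STZ MeasureTheory Matrix Filter

open scoped ComplexConjugate Matrix Topology

noncomputable section

/-- the matrices -/
abbrev Mat (N : ℕ) : Type := Matrix (Fin N) (Fin N) ℂ

/-- The Lie algebra of `H` is simple: it is not abelian, and its only ideals are `0` and the whole Lie algebra. -/
def SimpleL {N : ℕ} (H : Subgroup (SU N)) : Prop :=
  (∃ X ∈ lie H, ∃ Y ∈ lie H, X * Y ≠ Y * X) ∧
  ∀ V : Submodule ℝ (Mat N), (∀ X ∈ V, X ∈ lie H) →
    (∀ X ∈ lie H, ∀ Y ∈ V, X * Y - Y * X ∈ V) → V = ⊥ ∨ ∀ X ∈ lie H, X ∈ V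

/-- `T` is a maximal abelian subspace of the Lie algebra of `H` (its dimension is the rank of `H`) -/
structure MaxAb {N : ℕ} (H : Subgroup (SU N)) (T : Submodule ℝ (Mat N)) : Prop where
  sub : ∀ X ∈ T, X ∈ lie H
  comm : ∀ X ∈ T, ∀ Y ∈ T, X * Y = Y * X
  max : ∀ X ∈ lie H, (∀ Y ∈ T, X * Y = Y * X) → X ∈ T

/-- `H` is a compact connected Lie group with a simple Lie algebra, of dimension `d` -/
structure SGroup {N : ℕ} (H : Subgroup (SU N)) (d : ℕ) : Prop where
  closed : IsClosed (H : Set (SU N))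
  conn : IsConnected (H : Set (SU N))
  simple : SimpleL H
  dim : Module.finrank ℝ (Submodule.span ℝ (lie H)) = d

/-- `H` is a compact connected Lie group with a simple Lie algebra, of dimension `d` and rank `r` -/
structure Group {N : ℕ} (H : Subgroup (SU N)) (T : Submodule ℝ (Mat N)) (d r : ℕ) : Prop where
  grp : SGroup H d
  max : MaxAb H T
  rank : Module.finrank ℝ T = r

/-- `X` is an orthonormal basis of the Lie algebra of `H` for the negative of the Killing form: with the structure
constants `[X a, X b] = ∑ e, c a b e X e` the Killing form is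
`B(X a, X b) = tr (ad (X a) ad (X b)) = ∑ e f, c a f e * c b e f` -/
structure KFrame {N : ℕ} (H : Subgroup (SU N)) {d : ℕ} (X : Fin d → Mat N) : Prop where
  mem : ∀ a, X a ∈ lie H
  lin : LinearIndependent ℝ X
  span : ∀ Y ∈ lie H, ∃ y : Fin d → ℝ, Y = ∑ a, (y a : ℂ) • X a
  kill : ∃ c : Fin d → Fin d → Fin d → ℝ, (∀ a b, X a * X b - X b * X a = ∑ e, (c a b e : ℂ) • X e) ∧
    ∀ a b, ∑ e, ∑ f, c a f e * c b e f = -(if a = b then 1 else 0)

/-- the Sobolev exponent of `(S_p)` in the dimension `d` -/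
def sE (d : ℕ) (p : ℝ) : ℝ := (d : ℝ) / 2 - ((d : ℝ) + 2) / p

/-- the terms of the square of the norm of `f = ∑ k, f k` in `H^s` -/
def hs {N : ℕ} {H : Subgroup (SU N)} (μ : Measure H) (s : ℝ) (κ : ℕ → ℝ) (f : ℕ → H → ℂ) (k : ℕ) : ℝ :=
  (1 + κ k) ^ s * ∫ g, ‖f k g‖ ^ 2 ∂μ

/-- The function `∑ k, f k` is in `H^s`: the `f k` are eigenfunctions of the Laplacian (of the frame `X`) for different
eigenvalues `- κ k`, and `∑ k, (1 + κ k) ^ s ‖f k‖² < ∞` (the square of the norm in `H^s`). -/
structure Data {N : ℕ} {H : Subgroup (SU N)} (μ : Measure H) {d : ℕ} (X : Fin d → Mat N) (s : ℝ)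
    (κ : ℕ → ℝ) (f : ℕ → H → ℂ) : Prop where
  inj : Function.Injective κ
  eig : ∀ k, EigH X (κ k) (f k)
  sum : Summable (hs μ s κ f)

/-- the sum of the first `n` terms of the evolution at the time `t` -/
def part {N : ℕ} {H : Subgroup (SU N)} (κ : ℕ → ℝ) (f : ℕ → H → ℂ) (n : ℕ) (t : ℝ) (g : H) : ℂ :=
  ∑ k ∈ Finset.range n, Complex.exp (-(Complex.I * κ k * t)) * f k g

/-- `u t = e ^ (i t Δ) f`, `f = ∑ k, f k`: it is the sum `∑ k, e ^ (- i t κ k) f k` in `L²`, for every `t` -/
structure Flow {N : ℕ} {H : Subgroup (SU N)} (μ : Measure H) (κ : ℕ → ℝ) (f : ℕ → H → ℂ) (u : ℝ → H → ℂ) :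
    Prop where
  meas : ∀ t, AEStronglyMeasurable (u t) μ
  lim : ∀ t, Tendsto (fun n : ℕ => eLpNorm (fun g => u t g - part κ f n t g) 2 μ) atTop (𝓝 0)

/-- The scale invariant Strichartz inequality `(S_p)` on `H` (of dimension `d`) with the metric of the negative of the
Killing form, for the time interval `[a, b]` with the constant `C ^ (1 / p)`, for all data in `H^s`,
`s = d / 2 - (d + 2) / p`. -/
def StrIneq {N : ℕ} (H : Subgroup (SU N)) (d : ℕ) (μ : Measure H) (p a b C : ℝ) : Prop :=
  ∀ X : Fin d → Mat N, KFrame H X → ∀ (κ : ℕ → ℝ) (f : ℕ → H → ℂ), Data μ X (sE d p) κ f →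
  ∀ u : ℝ → H → ℂ, Flow μ κ f u →
    ∫⁻ t in Set.Icc a b, ∫⁻ g, ‖u t g‖ₑ ^ p ∂μ ≤ ENNReal.ofReal (C * (∑' k, hs μ (sE d p) κ f k) ^ (p / 2))

/-- `(S_p)` holds on `H`: for every finite time interval there is a constant. `μ` is the invariant probability measure
on `H`. -/
def Str {N : ℕ} (H : Subgroup (SU N)) (d : ℕ) (p : ℝ) : Prop :=
  ∀ μ : Measure H, IsProbabilityMeasure μ → μ.IsMulLeftInvariant → ∀ a b : ℝ, a ≤ b →
    ∃ C : ℝ, StrIneq H d μ p a b C

/-- `σ` is an involutive automorphism of `H`, not the identity, with the differential `τ` -/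
structure Invol {N : ℕ} (H : Subgroup (SU N)) (σ : SU N → SU N) (τ : Mat N → Mat N) : Prop where
  map : ∀ g ∈ H, σ g ∈ H
  mul : ∀ g ∈ H, ∀ h ∈ H, σ (g * h) = σ g * σ h
  cont : ContinuousOn σ H
  inv : ∀ g ∈ H, σ (σ g) = g
  lin : IsLinearMap ℝ τ
  mem : ∀ X ∈ lie H, τ X ∈ lie H
  dif : ∀ X ∈ lie H, ∀ t : ℝ, σ (ex X t) = ex (τ X) t
  ne : ∃ X ∈ lie H, τ X ≠ X

/-- A symmetric pair `(H, K)`: `σ` is an involutive automorphism of `H`, not the identity, with the differential `τ`; `K` is a closed
subgroup of `H` which consists of fixed points of `σ` and contains the identity component of the group of the fixed points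
of `σ`. The symmetric space is `M = H / K`, its tangent space at the base point is `{X ∈ lie H | τ X = -X}`. -/
structure SymP {N : ℕ} (H K : Subgroup (SU N)) (σ : SU N → SU N) (τ : Mat N → Mat N) : Prop where
  inv : Invol H σ τ
  closed : IsClosed (K : Set (SU N))
  sub : K ≤ H
  fix : ∀ k ∈ K, σ k = k
  big : ∀ X ∈ lie H, τ X = X → X ∈ lie K

/-- the tangent space at the base point -/
def tang {N : ℕ} (H : Subgroup (SU N)) (τ : Mat N → Mat N) : Set (Mat N) := {X | X ∈ lie H ∧ τ X = -X}

/-- `A` is a maximal abelian subspace of the tangent space of the symmetric space (its dimension is the rank) -/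
structure MaxAbP {N : ℕ} (H : Subgroup (SU N)) (τ : Mat N → Mat N) (A : Submodule ℝ (Mat N)) : Prop where
  sub : ∀ X ∈ A, X ∈ tang H τ
  comm : ∀ X ∈ A, ∀ Y ∈ A, X * Y = Y * X
  max : ∀ X ∈ tang H τ, (∀ Y ∈ A, X * Y = Y * X) → X ∈ A

/-- `M = H / K` is an irreducible symmetric space of type I, of dimension `d` and rank `r`; `H` is a compact connected Lie group with a
simple Lie algebra of dimension `D` -/
structure Space {N : ℕ} (H K : Subgroup (SU N)) (σ : SU N → SU N) (τ : Mat N → Mat N)
    (A : Submodule ℝ (Mat N)) (D d r : ℕ) : Prop where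
  grp : SGroup H D
  pair : SymP H K σ τ
  max : MaxAbP H τ A
  dim : Module.finrank ℝ (Submodule.span ℝ (tang H τ)) = d
  rank : Module.finrank ℝ A = r

/-- `(S_p)` on the symmetric space `M = H / K` of dimension `d` with the canonical metric (the negative of the Killing form of
`H`, which has the dimension `D`), on the time interval `[a, b]` with the constant `C ^ (1 / p)`. Functions on `M` are
functions on `H` which are invariant under right translations by `K`; on such functions the Laplace-Beltrami operator of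
`M` is the sum of the squares of the derivatives in the directions of an orthonormal basis of `lie H`. -/
def StrIneqM {N : ℕ} (H K : Subgroup (SU N)) (D d : ℕ) (μ : Measure H) (p a b C : ℝ) : Prop :=
  ∀ X : Fin D → Mat N, KFrame H X → ∀ (κ : ℕ → ℝ) (f : ℕ → H → ℂ), Data μ X (sE d p) κ f →
  (∀ k, ∀ g h : H, h.1 ∈ K → f k (g * h) = f k g) → ∀ u : ℝ → H → ℂ, Flow μ κ f u →
    ∫⁻ t in Set.Icc a b, ∫⁻ g, ‖u t g‖ₑ ^ p ∂μ ≤ ENNReal.ofReal (C * (∑' k, hs μ (sE d p) κ f k) ^ (p / 2))

end

end LGK
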