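import Pool.Agent.LGR.DefsK
import Pool.Agent.LGR.ASM

/-!
# The three theorems, in the final notation
-/

namespace LGK

open STZ MeasureTheory Matrix Filter

theorem frame_up {N : ℕ} {H : Subgroup (SU N)} {d : ℕ} {X : Fin d → Mat N}
    (h : KFrame H X) : LGR.KFrame H X := ⟨h.mem, h.lin, h.span, h.kill⟩

theorem frame_down {N : ℕ} {H : Subgroup (SU N)} {d : ℕ} {X : Fin d → Mat N}
    (h : LGR.KFrame H X) : KFrame H X := ⟨h.mem, h.lin, h.span, h.kill⟩

theorem upper (N : ℕ) (H : Subgroup (SU N)) (T : Submodule ℝ (Mat N)) (d r : ℕ)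
    (hH : Group H T d r) (h2 : 2 ≤ r)
    (p : ℝ) (hp : 2 + 8 / (d : ℝ) < p) (hp' : 8 / (r : ℝ) < p) : Str H d p := by
  intro μ hμ hi a b hab
  obtain ⟨C, hC⟩ := LGR.ASM.main N H T d r hH.grp.closed hH.grp.conn hH.grp.simple ⟨hH.max.sub, hH.max.comm, hH.max.max⟩
    hH.grp.dim hH.rank h2 p hp hp' μ hμ hi a b hab
  refine ⟨C, fun X hX κ f hf u hu => ?_⟩
  exact hC X (frame_up hX) κ f hf.inj hf.eig hf.sum u hu.meas hu.lim

theorem lower (N : ℕ) (H : Subgroup (SU N)) (T : Submodule ℝ (Mat N)) (d r : ℕ)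
    (hH : Group H T d r) (p : ℝ) (hp : 2 ≤ p) (hp' : p < 2 + 8 / ((d : ℝ) + r)) (μ : Measure H)
    (hμ : IsProbabilityMeasure μ) (hi : μ.IsMulLeftInvariant) (a b C : ℝ) (hab : a < b) :
    ¬ StrIneq H d μ p a b C := by
  intro h
  refine LGR.ASM.lowk N H T d r hH.grp.closed hH.grp.conn hH.grp.simple ⟨hH.max.sub, hH.max.comm, hH.max.max⟩
    hH.grp.dim hH.rank p hp hp' μ hμ hi a b C hab ?_
  intro X hX κ f h1 h2 h3 u h4 h5
  exact h X (frame_down hX) κ f ⟨h1, h2, h3⟩ u ⟨h4, h5⟩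

open Classical in
/-- the automorphism as a homomorphism of the subgroup -/
noncomputable def hom {N : ℕ} {H : Subgroup (SU N)} {σ : SU N → SU N} {τ : Mat N → Mat N} (h : Invol H σ τ) :
    H →* H where
  toFun g := ⟨σ g.1, h.map g.1 g.2⟩
  map_one' := by
    apply Subtype.ext
    have h1 := h.mul 1 H.one_mem 1 H.one_mem
    rw [one_mul] at h1
    have h2 : σ (1 : SU N) * 1 = σ 1 * σ 1 := by rw [mul_one]; exact h1
    exact (mul_left_cancel h2).symm
  map_mul' a b := Subtype.ext (h.mul a.1 a.2 b.1 b.2)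

theorem pair_up {N : ℕ} {H K : Subgroup (SU N)} {σ : SU N → SU N} {τ : Mat N → Mat N} (h : SymP H K σ τ) :
    LGR.SymP H K (hom h.inv) (IsLinearMap.mk' τ h.inv.lin) := by
  refine ⟨h.closed, h.sub, ?_, ?_, h.inv.mem, ?_, ?_, h.big, h.inv.ne⟩
  · exact Continuous.subtype_mk (h.inv.cont.comp_continuous continuous_subtype_val fun g => g.2) _
  · intro g
    exact Subtype.ext (h.inv.inv g.1 g.2)
  · intro X hX t
    apply Subtype.ext
    have h1 : ex X t ∈ H := hX.2 t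
    have h2 : ex (τ X) t ∈ H := (h.inv.mem X hX).2 t
    have e1 : exH H X t = ⟨ex X t, h1⟩ := by simp only [exH, dif_pos h1]
    have e2 : exH H (τ X) t = ⟨ex (τ X) t, h2⟩ := by simp only [exH, dif_pos h2]
    change σ (exH H X t).1 = (exH H (τ X) t).1
    rw [e1, e2]
    exact h.inv.dif X hX t
  · intro k hk
    exact Subtype.ext (h.fix k.1 hk)

theorem lowerM (N : ℕ) (H K : Subgroup (SU N)) (σ : SU N → SU N) (τ : Mat N → Mat N)
    (A : Submodule ℝ (Mat N)) (D d r : ℕ) (hM : Space H K σ τ A D d r)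
    (p : ℝ) (hp : 2 < p) (hp' : p < 2 + 8 / ((d : ℝ) + r)) (μ : Measure H) (hμ : IsProbabilityMeasure μ)
    (hi : μ.IsMulLeftInvariant) (a b C : ℝ) (hab : a < b) : ¬ StrIneqM H K D d μ p a b C := by
  intro h
  have hA := hM.max
  refine LGR.ASM.lowm N H K (hom hM.pair.inv) (IsLinearMap.mk' τ hM.pair.inv.lin) A D d r hM.grp.closed hM.grp.conn hM.grp.simple
    (pair_up hM.pair) ⟨fun X hX => (hA.sub X hX).1, fun X hX => (hA.sub X hX).2, hA.comm,
      fun X h1 h2 h3 => hA.max X ⟨h1, h2⟩ h3⟩ hM.grp.dim hM.dim hM.rank p hp hp' μ hμ hi a b C hab ?_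
  intro X hX κ f h1 h2 h2' h3 u h4 h5
  exact h X (frame_down hX) κ f ⟨h1, h2, h3⟩ h2' u ⟨h4, h5⟩

end LGK
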