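import Pool.Agent.LGR.StL

/-!
# LGR, module KILL: the complexification of a simple compact Lie algebra is simple, and Killing
-/

namespace LGR

open STZ MeasureTheory Matrix Filter

open scoped ComplexConjugate Matrix Real Topology ComplexOrder

noncomputable section

attribute [local instance 100] LieRing.ofAssociativeRing

namespace KILL

variable {N : ℕ} {H : Subgroup (SU N)}

theorem sub (h : LIF H) {X Y : Matrix (Fin N) (Fin N) ℂ} (hX : X ∈ lie H) (hY : Y ∈ lie H) :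
    X - Y ∈ lie H := by
  have h1 := h.add X hX _ (h.smul (-1) Y hY)
  have h2 : X + ((-1 : ℝ) : ℂ) • Y = X - Y := by
    push_cast
    rw [neg_smul, one_smul, sub_eq_add_neg]
  rwa [h2] at h1

theorem ct (h : LIF H) {X : Matrix (Fin N) (Fin N) ℂ} (hX : X ∈ lie H) : Xᴴ = -X := (h.su X hX).1

theorem inLC {X : Matrix (Fin N) (Fin N) ℂ} (hX : X ∈ lie H) : X ∈ LC H := LieSubalgebra.subset_lieSpan hX

/-- membership of a matrix in an ideal -/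
def Mm (I : LieIdeal ℂ (LC H)) (Z : Matrix (Fin N) (Fin N) ℂ) : Prop := ∃ h : Z ∈ LC H, (⟨Z, h⟩ : LC H) ∈ I

theorem Mm_add {I : LieIdeal ℂ (LC H)} {X Y : Matrix (Fin N) (Fin N) ℂ} (hX : Mm I X) (hY : Mm I Y) :
    Mm I (X + Y) := by
  obtain ⟨a, ha⟩ := hX
  obtain ⟨b, hb⟩ := hY
  exact ⟨(LC H).add_mem a b, I.add_mem ha hb⟩

theorem Mm_smul {I : LieIdeal ℂ (LC H)} (c : ℂ) {X : Matrix (Fin N) (Fin N) ℂ} (hX : Mm I X) :
    Mm I (c • X) := by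
  obtain ⟨a, ha⟩ := hX
  exact ⟨(LC H).smul_mem c a, I.smul_mem c ha⟩

theorem Mm_zero {I : LieIdeal ℂ (LC H)} : Mm I (0 : Matrix (Fin N) (Fin N) ℂ) :=
  ⟨(LC H).zero_mem, I.zero_mem⟩

theorem Mm_sub {I : LieIdeal ℂ (LC H)} {X Y : Matrix (Fin N) (Fin N) ℂ} (hX : Mm I X) (hY : Mm I Y) :
    Mm I (X - Y) := by
  obtain ⟨a, ha⟩ := hX
  obtain ⟨b, hb⟩ := hY
  exact ⟨(LC H).sub_mem a b, I.sub_mem ha hb⟩

theorem Mm_br {I : LieIdeal ℂ (LC H)} {X Y : Matrix (Fin N) (Fin N) ℂ} (hX : X ∈ LC H) (hY : Mm I Y) :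
    Mm I (X * Y - Y * X) := by
  obtain ⟨b, hb⟩ := hY
  have h1 : (⁅(⟨X, hX⟩ : LC H), (⟨Y, b⟩ : LC H)⁆ : LC H) ∈ I := lie_mem_right ℂ (LC H) I _ _ hb
  have h2 : ((⁅(⟨X, hX⟩ : LC H), (⟨Y, b⟩ : LC H)⁆ : LC H) : Matrix (Fin N) (Fin N) ℂ) = X * Y - Y * X := by
    rw [LieSubalgebra.coe_bracket, Ring.lie_def]
  refine ⟨?_, ?_⟩
  · rw [← h2]
    exact (⁅(⟨X, hX⟩ : LC H), (⟨Y, b⟩ : LC H)⁆ : LC H).2
  · convert h1 using 1
    exact Subtype.ext h2.symm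

theorem Mm_br' {I : LieIdeal ℂ (LC H)} {X Y : Matrix (Fin N) (Fin N) ℂ} (hX : X ∈ LC H) (hY : Mm I Y) :
    Mm I (Y * X - X * Y) := by
  have h1 := Mm_smul (-1) (Mm_br hX hY)
  have h2 : (-1 : ℂ) • (X * Y - Y * X) = Y * X - X * Y := by
    rw [neg_smul, one_smul, neg_sub]
  rwa [h2] at h1

/-- the skew-Hermitian elements of an ideal -/
def V1 (h : LIF H) (I : LieIdeal ℂ (LC H)) : Submodule ℝ (Matrix (Fin N) (Fin N) ℂ) where
  carrier := {X | X ∈ lie H ∧ Mm I X}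
  add_mem' := by
    rintro X Y ⟨a, b⟩ ⟨c, d⟩
    exact ⟨h.add _ a _ c, Mm_add b d⟩
  zero_mem' := ⟨h.zero, Mm_zero⟩
  smul_mem' := by
    rintro c X ⟨a, b⟩
    have h1 : c • X = (c : ℂ) • X := by
      ext i j
      simp
    rw [h1]
    exact ⟨h.smul c X a, Mm_smul _ b⟩

theorem top_of (hm : ∀ Z, Z ∈ LC H ↔ ∃ X ∈ lie H, ∃ Y ∈ lie H, Z = X + Complex.I • Y)
    {I : LieIdeal ℂ (LC H)} (hI : ∀ X ∈ lie H, Mm I X) : I = ⊤ := by
  rw [eq_top_iff]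
  rintro ⟨Z, hZ⟩ -
  obtain ⟨X, hX, Y, hY, hE⟩ := (hm Z).1 hZ
  have h1 : Mm I Z := by
    rw [hE]
    exact Mm_add (hI X hX) (Mm_smul _ (hI Y hY))
  exact h1.2

theorem tr0 {W : Matrix (Fin N) (Fin N) ℂ} (h : (W * Wᴴ).trace = 0) : W = 0 := by
  exact Matrix.trace_mul_conjTranspose_self_eq_zero_iff.1 h

theorem brct (X Y : Matrix (Fin N) (Fin N) ℂ) : (X * Y - Y * X)ᴴ = Yᴴ * Xᴴ - Xᴴ * Yᴴ := by
  rw [conjTranspose_sub, conjTranspose_mul, conjTranspose_mul]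

/-- an element of an ideal without skew-Hermitian elements whose adjoint is in the ideal is zero -/
theorem zero_of (hk : ∀ Z ∈ LC H, Zᴴ = -Z → Z ∈ lie H)
    {I : LieIdeal ℂ (LC H)} (h0 : ∀ X ∈ lie H, Mm I X → X = 0) {Z : Matrix (Fin N) (Fin N) ℂ} (hZ : Mm I Z)
    (hZ' : Mm I Zᴴ) : Z = 0 := by
  have key : ∀ W : Matrix (Fin N) (Fin N) ℂ, Mm I W → Mm I Wᴴ → W = Wᴴ := by
    intro W hW hW'
    have h1 : Mm I (W - Wᴴ) := Mm_sub hW hW'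
    have h2 : W - Wᴴ ∈ lie H := by
      refine hk _ h1.1 ?_
      rw [conjTranspose_sub, conjTranspose_conjTranspose, neg_sub]
    exact sub_eq_zero.1 (h0 _ h2 h1)
  have h1 := key Z hZ hZ'
  have h2 := key (Complex.I • Z) (Mm_smul _ hZ) (by
    rw [conjTranspose_smul]
    exact Mm_smul _ hZ')
  rw [conjTranspose_smul, Complex.star_def, Complex.conj_I, neg_smul, ← h1] at h2
  have h3 : (Complex.I • Z) + (Complex.I • Z) = 0 := by
    nth_rewrite 1 [h2]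
    simp
  have h4 : ((2 : ℂ) * Complex.I) • Z = 0 := by
    rw [two_mul, add_smul]
    exact h3
  rcases smul_eq_zero.1 h4 with h5 | h5
  · exfalso
    simp at h5
  · exact h5

theorem main (h : LIF H) (hm : ∀ Z, Z ∈ LC H ↔ ∃ X ∈ lie H, ∃ Y ∈ lie H, Z = X + Complex.I • Y)
    (hs : ∀ Z ∈ LC H, Zᴴ ∈ LC H) (hk : ∀ Z ∈ LC H, Zᴴ = -Z → Z ∈ lie H) (hS : SimpleH H)
    (I : LieIdeal ℂ (LC H)) : I = ⊥ ∨ I = ⊤ := by
  by_cases hT : I = ⊤
  · exact Or.inr hT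
  left
  -- no skew-Hermitian elements
  have h0 : ∀ X ∈ lie H, Mm I X → X = 0 := by
    rcases hS.2 (V1 h I) (fun X hX => hX.1) (fun X hX Y hY => ⟨h.br X hX Y hY.1, Mm_br (inLC hX) hY.2⟩) with h1 | h1
    · intro X hX hX'
      have h2 : X ∈ V1 h I := ⟨hX, hX'⟩
      rw [h1] at h2
      exact (Submodule.mem_bot ℝ).1 h2
    · exact absurd (top_of hm (fun X hX => (h1 X hX).2)) hT
  have hz : ∀ Z : Matrix (Fin N) (Fin N) ℂ, Mm I Z → Mm I Zᴴ → Z = 0 := fun Z a b => zero_of hk h0 a b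
  -- the ideal commutes with its adjoint
  have hc : ∀ X Z : Matrix (Fin N) (Fin N) ℂ, Mm I X → Mm I Z → X * Zᴴ = Zᴴ * X := by
    intro X Z hX hZ
    have h1 : Mm I (X * Zᴴ - Zᴴ * X) := Mm_br' (hs _ hZ.1) hX
    have h2 : Mm I (X * Zᴴ - Zᴴ * X)ᴴ := by
      rw [brct, conjTranspose_conjTranspose]
      exact Mm_br' (hs _ hX.1) hZ
    exact sub_eq_zero.1 (hz _ h1 h2)
  -- the ideal is abelian
  have hab : ∀ X Y : Matrix (Fin N) (Fin N) ℂ, Mm I X → Mm I Y → X * Y = Y * X := by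
    intro X Y hX hY
    have h1 : ((X * Y - Y * X) * (X * Y - Y * X)ᴴ).trace = 0 := by
      rw [brct]
      have a1 := hc X X hX hX
      have a2 := hc X Y hX hY
      have h2 : X * (Yᴴ * Xᴴ - Xᴴ * Yᴴ) = (Yᴴ * Xᴴ - Xᴴ * Yᴴ) * X := by
        have e1 : X * (Yᴴ * Xᴴ) = (Yᴴ * Xᴴ) * X := by
          rw [← mul_assoc, a2, mul_assoc, a1, ← mul_assoc]
        have e2 : X * (Xᴴ * Yᴴ) = (Xᴴ * Yᴴ) * X := by
          rw [← mul_assoc, a1, mul_assoc, a2, ← mul_assoc]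
        rw [mul_sub, sub_mul, e1, e2]
      have h3 : (X * Y - Y * X) * (Yᴴ * Xᴴ - Xᴴ * Yᴴ) =
          X * (Y * (Yᴴ * Xᴴ - Xᴴ * Yᴴ)) - (Y * (Yᴴ * Xᴴ - Xᴴ * Yᴴ)) * X := by
        rw [sub_mul, mul_assoc, mul_assoc Y X, h2, mul_assoc]
      rw [h3, trace_sub, trace_mul_comm, sub_self]
    exact sub_eq_zero.1 (tr0 h1)
  -- the differences X - Xᴴ
  let V2 : Submodule ℝ (Matrix (Fin N) (Fin N) ℂ) :=
    { carrier := {W | ∃ X, Mm I X ∧ W = X - Xᴴ}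
      add_mem' := by
        rintro _ _ ⟨X, hX, rfl⟩ ⟨Y, hY, rfl⟩
        refine ⟨X + Y, Mm_add hX hY, ?_⟩
        rw [conjTranspose_add]
        abel
      zero_mem' := ⟨0, Mm_zero, by simp⟩
      smul_mem' := by
        rintro c _ ⟨X, hX, rfl⟩
        refine ⟨(c : ℂ) • X, Mm_smul _ hX, ?_⟩
        rw [conjTranspose_smul, Complex.star_def, Complex.conj_ofReal, ← smul_sub]
        ext i j
        simp }
  have hV : ∀ W, W ∈ V2 ↔ ∃ X, Mm I X ∧ W = X - Xᴴ := fun W => Iff.rfl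
  rcases hS.2 V2 (by
      rintro W hW
      obtain ⟨X, hX, rfl⟩ := (hV _).1 hW
      refine hk _ ((LC H).sub_mem hX.1 (hs _ hX.1)) ?_
      rw [conjTranspose_sub, conjTranspose_conjTranspose, neg_sub]) (by
      intro Y hY W hW
      obtain ⟨X, hX, rfl⟩ := (hV _).1 hW
      refine (hV _).2 ⟨Y * X - X * Y, Mm_br (inLC hY) hX, ?_⟩
      rw [brct, ct h hY]
      noncomm_ring) with h1 | h1
  · rw [eq_bot_iff]
    rintro ⟨Z, hZ⟩ hZI
    have h2 : ∀ X, Mm I X → X = Xᴴ := by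
      intro X hX
      have h3 : X - Xᴴ ∈ V2 := (hV _).2 ⟨X, hX, rfl⟩
      rw [h1] at h3
      exact sub_eq_zero.1 ((Submodule.mem_bot ℝ).1 h3)
    have h3 : Mm I Z := ⟨hZ, hZI⟩
    have h4 : Z = 0 := hz Z h3 (by rw [← h2 Z h3]; exact h3)
    subst h4
    exact (LieSubmodule.mem_bot _).2 rfl
  · exfalso
    obtain ⟨A, hA, B, hB, hne⟩ := hS.1
    obtain ⟨X, hX, rfl⟩ := (hV _).1 (h1 A hA)
    obtain ⟨Y, hY, rfl⟩ := (hV _).1 (h1 B hB)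
    apply hne
    have b1 := hc X Y hX hY
    have b2 := hc Y X hY hX
    have b3 := hab X Y hX hY
    have b4 : Xᴴ * Yᴴ = Yᴴ * Xᴴ := by
      rw [← conjTranspose_mul, ← conjTranspose_mul, b3]
    rw [sub_mul, mul_sub, mul_sub, sub_mul, mul_sub, mul_sub, b1, b3, b4, ← b2]
    abel

end KILL

theorem t_KILL : M_KILL := by
  intro hL hC N H hc hS
  have h := hL N H hc
  obtain ⟨hm, hs, hk⟩ := hC N H hc
  have hsi : LieAlgebra.IsSimple ℂ (LC H) := by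
    refine ⟨KILL.main h hm hs hk hS, ?_⟩
    intro hab
    obtain ⟨X, hX, Y, hY, hne⟩ := hS.1
    apply hne
    have h1 : (⁅(⟨X, KILL.inLC hX⟩ : LC H), (⟨Y, KILL.inLC hY⟩ : LC H)⁆ : LC H) = 0 := hab.trivial _ _
    have h2 := congrArg (fun Z : LC H => (Z : Matrix (Fin N) (Fin N) ℂ)) h1
    simp only [LieSubalgebra.coe_bracket, Ring.lie_def] at h2
    exact sub_eq_zero.1 h2
  exact ⟨inferInstance, hsi⟩

end

end LGR
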