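import Pool.Agent.LGR.StV

/-!
# LGR, module LOGA
-/

namespace LGR

open Real Filter Topology

namespace LOGA

/-- comparison of powers of two comparable numbers -/
theorem cmp {x y K e : ℝ} (hx : 0 < x) (hxy : x ≤ y) (hK : 1 ≤ K) (hyx : y ≤ K * x) :
    x ^ e ≤ K ^ |e| * y ^ e := by
  have hy : 0 < y := lt_of_lt_of_le hx hxy
  have hK0 : 0 < K := by linarith
  rcases le_or_gt 0 e with he | he
  · have h1 : x ^ e ≤ y ^ e := Real.rpow_le_rpow hx.le hxy he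
    have h2 : (1 : ℝ) ≤ K ^ |e| := Real.one_le_rpow hK (abs_nonneg e)
    have h3 : 0 ≤ y ^ e := Real.rpow_nonneg hy.le _
    calc x ^ e ≤ y ^ e := h1
      _ = 1 * y ^ e := (one_mul _).symm
      _ ≤ K ^ |e| * y ^ e := mul_le_mul_of_nonneg_right h2 h3
  · rw [abs_of_neg he]
    have h1 : (K * x) ^ e ≤ y ^ e := Real.rpow_le_rpow_of_nonpos hy hyx he.le
    rw [Real.mul_rpow hK0.le hx.le] at h1
    have h2 : 0 < K ^ (-e) := Real.rpow_pos_of_pos hK0 _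
    calc x ^ e = K ^ (-e) * (K ^ e * x ^ e) := by
          rw [← mul_assoc, ← Real.rpow_add hK0]; simp
      _ ≤ K ^ (-e) * y ^ e := mul_le_mul_of_nonneg_left h1 h2.le

/-- one step of the iteration -/
theorem step (b : ℝ → ℝ) (t S C₁ : ℝ) (hb : ∀ x y, 0 ≤ x → x ≤ y → b y ≤ b x) (ht : 1 < t)
    (hpos : ∀ q, 1 ≤ q → 0 < b q) (hC₁ : 0 ≤ C₁)
    (h1 : ∀ m : ℕ, 1 ≤ m → b (2 * t * m) ≤ C₁ * (m : ℝ) ^ S * (b (2 * m)) ^ t)
    (γ C : ℝ) (hC : 0 ≤ C) (h2 : ∀ m : ℕ, 1 ≤ m → b (2 * m) ≤ C * (m : ℝ) ^ (-γ)) :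
    ∃ C' : ℝ, 0 ≤ C' ∧ ∀ m : ℕ, 1 ≤ m → b (2 * m) ≤ C' * (m : ℝ) ^ (-(γ * t - S)) := by
  set e : ℝ := -(γ * t - S) with he
  have hb2 : 0 < b 2 := hpos 2 (by norm_num)
  have hA : 0 ≤ C₁ * C ^ t * (2 * t) ^ |e| := by positivity
  have hB : 0 ≤ b 2 * t ^ |e| := by positivity
  refine ⟨C₁ * C ^ t * (2 * t) ^ |e| + b 2 * t ^ |e|, by positivity, fun n hn => ?_⟩
  have hn1 : (1 : ℝ) ≤ n := by exact_mod_cast hn
  have hne : 0 ≤ (n : ℝ) ^ e := Real.rpow_nonneg (by linarith) _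
  have ht0 : 0 < t := by linarith
  rw [add_mul]
  rcases Nat.eq_zero_or_pos ⌊(n : ℝ) / t⌋₊ with hm | hm
  · have h3 : (n : ℝ) / t < 1 := by
      have := Nat.floor_eq_zero.1 hm
      exact this
    have h4 : (n : ℝ) ≤ t := by
      rw [div_lt_one ht0] at h3
      exact h3.le
    have h5 : (1 : ℝ) ^ e ≤ t ^ |e| * (n : ℝ) ^ e := cmp one_pos hn1 ht.le (by linarith)
    rw [Real.one_rpow] at h5
    have h6 : b (2 * n) ≤ b 2 := hb 2 (2 * n) (by norm_num) (by linarith)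
    have h7 : b 2 * 1 ≤ b 2 * (t ^ |e| * (n : ℝ) ^ e) := mul_le_mul_of_nonneg_left h5 hb2.le
    have h8 : 0 ≤ C₁ * C ^ t * (2 * t) ^ |e| * (n : ℝ) ^ e := mul_nonneg hA hne
    nlinarith [h6, h7, h8]
  · set m : ℕ := ⌊(n : ℝ) / t⌋₊ with hmd
    have hm1 : (1 : ℝ) ≤ m := by exact_mod_cast hm
    have h3 : (m : ℝ) ≤ n / t := Nat.floor_le (by positivity)
    have h4 : (n : ℝ) / t < m + 1 := Nat.lt_floor_add_one _
    have h5 : t * m ≤ n := by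
      rw [le_div_iff₀ ht0] at h3
      linarith
    have h6 : (n : ℝ) ≤ 2 * t * m := by
      rw [div_lt_iff₀ ht0] at h4
      nlinarith
    have h7 : (m : ℝ) ≤ n := by nlinarith
    have h8 : b (2 * n) ≤ b (2 * t * m) := hb _ _ (by positivity) (by linarith)
    have h9 := h1 m hm
    have h10 := h2 m hm
    have h11 : 0 < b (2 * m) := hpos _ (by linarith)
    have h12 : (b (2 * m)) ^ t ≤ (C * (m : ℝ) ^ (-γ)) ^ t := Real.rpow_le_rpow h11.le h10 ht0.le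
    have hm0 : (0 : ℝ) < m := by linarith
    have h13 : (C * (m : ℝ) ^ (-γ)) ^ t = C ^ t * (m : ℝ) ^ (-γ * t) := by
      rw [Real.mul_rpow hC (Real.rpow_nonneg hm0.le _), ← Real.rpow_mul hm0.le]
    have h14 : (m : ℝ) ^ e ≤ (2 * t) ^ |e| * (n : ℝ) ^ e :=
      cmp hm0 h7 (by linarith) h6
    have h15 : 0 ≤ C₁ * (m : ℝ) ^ S := by positivity
    have h16 : (m : ℝ) ^ S * (m : ℝ) ^ (-γ * t) = (m : ℝ) ^ e := by
      rw [← Real.rpow_add hm0]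
      congr 1
      rw [he]
      ring
    have h17 : 0 ≤ b 2 * t ^ |e| * (n : ℝ) ^ e := mul_nonneg hB hne
    have h18 : 0 ≤ C₁ * C ^ t := by positivity
    calc b (2 * n) ≤ b (2 * t * m) := h8
      _ ≤ C₁ * (m : ℝ) ^ S * (b (2 * m)) ^ t := h9
      _ ≤ C₁ * (m : ℝ) ^ S * (C ^ t * (m : ℝ) ^ (-γ * t)) := by
          rw [← h13]; exact mul_le_mul_of_nonneg_left h12 h15
      _ = C₁ * C ^ t * (m : ℝ) ^ e := by rw [← h16]; ring
      _ ≤ C₁ * C ^ t * ((2 * t) ^ |e| * (n : ℝ) ^ e) := mul_le_mul_of_nonneg_left h14 h18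
      _ = C₁ * C ^ t * (2 * t) ^ |e| * (n : ℝ) ^ e := by ring
      _ ≤ _ := by linarith

end LOGA

open LOGA

theorem t_LOGA : S_LOGA := by
  intro b p S β c a C₀ C₁ hb hp hc ha hlow hC₀ h0 hC₁ h1 hS
  set t : ℝ := p / 2 with ht
  have ht1 : 1 < t := by rw [ht]; linarith
  have hpt : p = 2 * t := by rw [ht]; ring
  have hpos : ∀ q, 1 ≤ q → 0 < b q := fun q hq =>
    lt_of_lt_of_le (mul_pos hc (Real.rpow_pos_of_pos (by linarith) _)) (hlow q hq)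
  have h1' : ∀ m : ℕ, 1 ≤ m → b (2 * t * m) ≤ C₁ * (m : ℝ) ^ S * (b (2 * m)) ^ t := by
    intro m hm
    have := h1 m hm
    rwa [hpt] at this
  set βs : ℝ := S / (t - 1) with hβs
  have ht10 : 0 < t - 1 := by linarith
  have hβs1 : βs * (t - 1) = S := by rw [hβs]; field_simp
  have hgap : 0 < β - βs := by
    have : βs * (t - 1) < β * (t - 1) := by rw [hβs1]; exact hS
    have := lt_of_mul_lt_mul_right this ht10.le
    linarith
  have key : ∀ k : ℕ, ∃ C : ℝ, 0 ≤ C ∧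
      ∀ m : ℕ, 1 ≤ m → b (2 * m) ≤ C * (m : ℝ) ^ (-(βs + t ^ k * (β - βs))) := by
    intro k
    induction k with
    | zero =>
      refine ⟨C₀, hC₀, fun m hm => ?_⟩
      have := h0 m hm
      rwa [pow_zero, one_mul, add_sub_cancel]
    | succ k ih =>
      obtain ⟨C, hC, h2⟩ := ih
      obtain ⟨C', hC', h3⟩ := step b t S C₁ hb ht1 hpos hC₁ h1' _ C hC h2
      refine ⟨C', hC', fun m hm => ?_⟩
      have h4 := h3 m hm
      have h5 : (βs + t ^ k * (β - βs)) * t - S = βs + t ^ (k + 1) * (β - βs) := by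
        rw [← hβs1]; ring
      rwa [h5] at h4
  obtain ⟨k, hk⟩ : ∃ k : ℕ, a < βs + t ^ k * (β - βs) := by
    obtain ⟨k, hk⟩ := pow_unbounded_of_one_lt ((a - βs) / (β - βs)) ht1
    refine ⟨k, ?_⟩
    rw [div_lt_iff₀ hgap] at hk
    linarith
  obtain ⟨C, hC, h2⟩ := key k
  set g : ℝ := βs + t ^ k * (β - βs) with hg
  have h3 : Tendsto (fun m : ℕ => (m : ℝ) ^ (g - a)) atTop atTop :=
    (tendsto_rpow_atTop (by linarith)).comp tendsto_natCast_atTop_atTop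
  have h4 := (h3.eventually_gt_atTop (C / (c * 2 ^ (-a)))).and (eventually_ge_atTop 1)
  obtain ⟨m, hm, hm1⟩ := h4.exists
  have hm0 : (0 : ℝ) < m := by exact_mod_cast hm1
  have hm1' : (1 : ℝ) ≤ m := by exact_mod_cast hm1
  have h5 := hlow (2 * m) (by linarith)
  have h6 := h2 m hm1
  have hc2 : 0 < c * 2 ^ (-a) := mul_pos hc (Real.rpow_pos_of_pos two_pos _)
  rw [div_lt_iff₀ hc2] at hm
  have h7 : c * (2 * (m : ℝ)) ^ (-a) = c * 2 ^ (-a) * (m : ℝ) ^ (-a) := by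
    rw [Real.mul_rpow two_pos.le hm0.le]; ring
  have h8 : (m : ℝ) ^ (g - a) * (m : ℝ) ^ (-g) = (m : ℝ) ^ (-a) := by
    rw [← Real.rpow_add hm0]; congr 1; ring
  have h9 : 0 < (m : ℝ) ^ (-g) := Real.rpow_pos_of_pos hm0 _
  have h10 := mul_lt_mul_of_pos_right hm h9
  have h11 : (m : ℝ) ^ (g - a) * (c * 2 ^ (-a)) * (m : ℝ) ^ (-g) =
      c * 2 ^ (-a) * (m : ℝ) ^ (-a) := by rw [← h8]; ring
  linarith

end LGR
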