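import Pool.Agent.LGR.StW
import Pool.Agent.STZ.ATF

/-!
# LGR, module LOWK: the lower bound
-/

namespace LGR

open STZ MeasureTheory Matrix Filter

open scoped ComplexConjugate Matrix Real Topology ENNReal

noncomputable section

namespace LOWK

/-- the limit -/
lemma key (n : ℕ) (p s q : ℝ) (hp : 0 < p) (hq : 0 < q)
    (h : (n : ℝ) + (2 * s - n) * (p / 2) < 0) :
    Tendsto (fun m : ℕ => (p * (m : ℝ) + 3) ^ n *
      ((1 + q * (4 * (m : ℝ) ^ 2 + 4 * m)) ^ s * ((2 * (m : ℝ) + 1) ^ n)⁻¹) ^ (p / 2)) atTop (𝓝 0) := by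
  have hinv : Tendsto (fun m : ℕ => ((m : ℝ))⁻¹) atTop (𝓝 0) := tendsto_inv_atTop_nhds_zero_nat
  have e1 : Tendsto (fun m : ℕ => ((m : ℝ))⁻¹ * 3 + p) atTop (𝓝 (0 * 3 + p)) :=
    (hinv.mul_const _).add_const _
  have e2 : Tendsto (fun m : ℕ => ((m : ℝ))⁻¹ + 2) atTop (𝓝 (0 + 2)) := hinv.add_const _
  have e3 : Tendsto (fun m : ℕ => ((m : ℝ))⁻¹ ^ 2 + (4 + 4 * ((m : ℝ))⁻¹) * q) atTop
      (𝓝 (0 ^ 2 + (4 + 4 * 0) * q)) :=
    (hinv.pow 2).add (((hinv.const_mul 4).const_add 4).mul_const _)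
  have e4 : Tendsto (fun m : ℕ => (m : ℝ) ^ ((n : ℝ) + (2 * s - n) * (p / 2))) atTop (𝓝 0) := by
    have h2 := (tendsto_rpow_neg_atTop (y := -((n : ℝ) + (2 * s - n) * (p / 2))) (by linarith)).comp
      (tendsto_natCast_atTop_atTop (R := ℝ))
    rw [neg_neg] at h2
    exact h2
  have hq4 : (0 : ℝ) ^ 2 + (4 + 4 * 0) * q = 4 * q := by ring
  have e5 : Tendsto (fun m : ℕ => (((m : ℝ))⁻¹ * 3 + p) ^ n *
      ((((m : ℝ))⁻¹ ^ 2 + (4 + 4 * ((m : ℝ))⁻¹) * q) ^ s * ((((m : ℝ))⁻¹ + 2) ^ n)⁻¹) ^ (p / 2) *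
        (m : ℝ) ^ ((n : ℝ) + (2 * s - n) * (p / 2))) atTop
      (𝓝 ((0 * 3 + p) ^ n * ((0 ^ 2 + (4 + 4 * 0) * q) ^ s * ((0 + 2) ^ n)⁻¹) ^ (p / 2) * 0)) := by
    refine ((e1.pow n).mul ((Tendsto.mul (e3.rpow_const (Or.inl ?_)) ((e2.pow n).inv₀ (by simp))).rpow_const
      (Or.inl ?_))).mul e4
    · rw [hq4]
      positivity
    · rw [hq4]
      have : 0 < (4 * q) ^ s := Real.rpow_pos_of_pos (by positivity) _
      positivity
  rw [mul_zero] at e5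
  refine e5.congr' ?_
  filter_upwards [eventually_ge_atTop 1] with m hm
  have hm' : (1 : ℝ) ≤ m := by exact_mod_cast hm
  have hm0 : (0 : ℝ) < m := by linarith
  have f1 : (p * (m : ℝ) + 3) = ((m : ℝ)⁻¹ * 3 + p) * m := by
    field_simp
    ring
  have f2 : (2 * (m : ℝ) + 1) = ((m : ℝ)⁻¹ + 2) * m := by
    field_simp
    ring
  have f3 : (1 + q * (4 * (m : ℝ) ^ 2 + 4 * m)) =
      (((m : ℝ))⁻¹ ^ 2 + (4 + 4 * ((m : ℝ))⁻¹) * q) * (m : ℝ) ^ 2 := by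
    field_simp
  have g1 : 0 < ((m : ℝ))⁻¹ ^ 2 + (4 + 4 * ((m : ℝ))⁻¹) * q := by positivity
  have g2 : 0 < (((m : ℝ))⁻¹ ^ 2 + (4 + 4 * ((m : ℝ))⁻¹) * q) ^ s := Real.rpow_pos_of_pos g1 _
  have g3 : 0 < (((m : ℝ)⁻¹ + 2) ^ n)⁻¹ := by positivity
  rw [f1, f2, f3, Real.mul_rpow g1.le (by positivity), mul_pow, mul_pow, mul_inv]
  have h1 : (m : ℝ) ^ ((n : ℝ) + (2 * s - n) * (p / 2)) =
      (m : ℝ) ^ n * ((((m : ℝ) ^ 2) ^ s * ((m : ℝ) ^ n)⁻¹) ^ (p / 2)) := by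
    rw [Real.rpow_add hm0, Real.rpow_natCast, Real.rpow_mul hm0.le, Real.rpow_sub hm0, Real.rpow_natCast,
      Real.rpow_mul hm0.le, div_eq_mul_inv]
    norm_num
  rw [h1]
  have h2 : (((m : ℝ))⁻¹ ^ 2 + (4 + 4 * ((m : ℝ))⁻¹) * q) ^ s * ((m : ℝ) ^ 2) ^ s *
      ((((m : ℝ)⁻¹ + 2) ^ n)⁻¹ * ((m : ℝ) ^ n)⁻¹) =
      ((((m : ℝ))⁻¹ ^ 2 + (4 + 4 * ((m : ℝ))⁻¹) * q) ^ s * (((m : ℝ)⁻¹ + 2) ^ n)⁻¹) *
      (((m : ℝ) ^ 2) ^ s * ((m : ℝ) ^ n)⁻¹) := by ring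
  rw [h2, Real.mul_rpow (mul_pos g2 g3).le (by positivity)]
  ring

lemma expo {n r : ℕ} {d p : ℝ} (hd : d = 2 * n + r) (hr : 1 ≤ r) (hp2 : 2 ≤ p)
    (hp : p < 2 + 8 / (d + r)) :
    (n : ℝ) + (2 * (d / 2 - (d + 2) / p) - n) * (p / 2) < 0 := by
  have hr' : (1 : ℝ) ≤ r := by exact_mod_cast hr
  have hp0 : 0 < p := by linarith
  have hD : 0 < d + r := by
    rw [hd]
    have : (0 : ℝ) ≤ n := Nat.cast_nonneg n
    linarith
  have h1 : (p - 2) * (d + r) < 8 := by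
    have : p - 2 < 8 / (d + r) := by linarith
    rwa [lt_div_iff₀ hD] at this
  have h2 : (2 * (d / 2 - (d + 2) / p) - n) * (p / 2) = (d - n) * (p / 2) - (d + 2) := by
    field_simp
    ring
  rw [h2, hd]
  rw [hd] at h1
  nlinarith

/-- the inequality for one eigenfunction -/
lemma str {N : ℕ} {H : Subgroup (SU N)} (hC : CALFH H) {d : ℕ} {μ : Measure H}
    {p a b C : ℝ} (h : StrIneqK H d μ p a b C) (X : Fin d → Matrix (Fin N) (Fin N) ℂ)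
    (hX : KFrame H X) (κ : ℝ) (F : H → ℂ) (hF : EigH X κ F) :
    ENNReal.ofReal (b - a) * ∫⁻ g, ‖F g‖ₑ ^ p ∂μ ≤
      ENNReal.ofReal (C * ((1 + κ) ^ ((d : ℝ) / 2 - ((d : ℝ) + 2) / p) * ∫ g, ‖F g‖ ^ 2 ∂μ) ^ (p / 2)) := by
  have hz : ∀ κ' : ℝ, EigH X κ' (fun _ : H => (0 : ℂ)) := by
    intro κ'
    refine ⟨hC.const 0, fun g => ?_⟩
    unfold lapH
    rw [mul_zero]
    refine Finset.sum_eq_zero fun i _ => ?_
    have e : dH (X i) (fun _ : H => (0 : ℂ)) = fun _ => 0 := by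
      funext g
      exact hC.dconst _ _ _
    rw [e]
    exact hC.dconst _ _ _
  have h1 := h X hX (fun j => κ + j) (fun j g => if j = 0 then F g else 0)
    (fun i j hij => by simpa using hij)
    (fun j => by
      rcases Nat.eq_zero_or_pos j with h0 | h0
      · subst h0
        simpa using hF
      · have h2 := hz (κ + j)
        simpa [h0.ne'] using h2)
    (by
      apply summable_of_ne_finset_zero (s := {0})
      intro j hj
      have hj' : j ≠ 0 := by simpa using hj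
      simp [hj'])
    (fun t g => Complex.exp (-(Complex.I * (κ : ℂ) * t)) * F g)
    (fun t => (continuous_const.mul hF.1.1.cont).aestronglyMeasurable)
    (fun t => by
      refine tendsto_const_nhds.congr' ?_
      filter_upwards [eventually_ge_atTop 1] with M hM
      have e : (fun g : H => Complex.exp (-(Complex.I * (κ : ℂ) * t)) * F g -
          ∑ j ∈ Finset.range M, Complex.exp (-(Complex.I * ((κ + (j : ℝ) : ℝ) : ℂ) * t)) *
            (if j = 0 then F g else 0)) = fun _ => 0 := by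
        funext g
        rw [Finset.sum_eq_single 0 (fun j _ hj => by simp [hj])
          (fun h => absurd (Finset.mem_range.2 hM) h)]
        simp
      simp only [e]
      simp)
  have h2 : ∑' j : ℕ, (1 + (κ + (j : ℝ))) ^ ((d : ℝ) / 2 - ((d : ℝ) + 2) / p) *
      ∫ g, ‖(if j = 0 then F g else 0 : ℂ)‖ ^ 2 ∂μ =
      (1 + κ) ^ ((d : ℝ) / 2 - ((d : ℝ) + 2) / p) * ∫ g, ‖F g‖ ^ 2 ∂μ := by
    rw [tsum_eq_single 0 (fun j hj => by simp [hj])]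
    simp
  rw [h2] at h1
  refine le_trans (le_of_eq ?_) h1
  have h3 : ∀ t : ℝ, ∀ g : H, ‖Complex.exp (-(Complex.I * (κ : ℂ) * t)) * F g‖ₑ = ‖F g‖ₑ := by
    intro t g
    have h4 : ‖Complex.exp (-(Complex.I * (κ : ℂ) * t)) * F g‖ = ‖F g‖ := by
      have h0 : (-(Complex.I * (κ : ℂ) * t)) = ((-(κ * t) : ℝ) : ℂ) * Complex.I := by
        push_cast
        ring
      rw [norm_mul, h0, Complex.norm_exp_ofReal_mul_I, one_mul]
    rw [← ofReal_norm, ← ofReal_norm, h4]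
  simp only [h3]
  rw [setLIntegral_const, Real.volume_Icc, mul_comm]

/-- the integral of the power `p` is at least the integral of an even power -/
lemma low {N : ℕ} {H : Subgroup (SU N)} [CompactSpace H] {μ : Measure H} [IsProbabilityMeasure μ]
    (f : H → ℂ) (hf : Continuous f) (h1 : ∀ g, ‖f g‖ ≤ 1) (m M : ℕ) (p : ℝ) (hp : 0 ≤ p)
    (hM : p * m ≤ 2 * M) :
    ENNReal.ofReal (∫ g, ‖f g ^ M‖ ^ 2 ∂μ) ≤ ∫⁻ g, ‖f g ^ m‖ₑ ^ p ∂μ := by
  have hc : Continuous fun g : H => ‖f g ^ M‖ ^ 2 := (hf.pow M).norm.pow 2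
  rw [ofReal_integral_eq_lintegral_ofReal
    (hc.integrable_of_hasCompactSupport (HasCompactSupport.of_compactSpace _))
    (Filter.Eventually.of_forall fun g => by positivity)]
  refine lintegral_mono fun g => ?_
  rw [← ofReal_norm, ENNReal.ofReal_rpow_of_nonneg (norm_nonneg _) hp]
  refine ENNReal.ofReal_le_ofReal ?_
  have h0 := norm_nonneg (f g)
  rw [norm_pow, norm_pow, ← pow_mul, ← Real.rpow_natCast, ← Real.rpow_natCast, ← Real.rpow_mul h0]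
  refine Real.rpow_le_rpow_of_exponent_ge' h0 (h1 g) (by positivity) ?_
  push_cast
  linarith

/-- the products -/
lemma prd {r : ℕ} (P : RT r) (c : ℤ) :
    ∏ p ∈ P, (p.2 ⬝ᵥ (fun _ => c : Fin r → ℤ)) = c ^ P.card * ∏ p ∈ P, (p.2 ⬝ᵥ (1 : Fin r → ℤ)) := by
  rw [← Finset.prod_const, ← Finset.prod_mul_distrib]
  refine Finset.prod_congr rfl fun p _ => ?_
  unfold dotProduct
  rw [Finset.mul_sum]
  refine Finset.sum_congr rfl fun i _ => ?_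
  simp only [Pi.one_apply]
  ring

lemma qrd {r : ℕ} (Φ : RT r) (c : ℤ) :
    (rd Φ).Q (fun _ => c) = c ^ 2 * (rd Φ).Q 1 := by
  show ∑ p ∈ pos Φ, (p.2 ⬝ᵥ (fun _ => c : Fin r → ℤ)) ^ 2 = c ^ 2 * ∑ p ∈ pos Φ, (p.2 ⬝ᵥ (1 : Fin r → ℤ)) ^ 2
  rw [Finset.mul_sum]
  refine Finset.sum_congr rfl fun p _ => ?_
  rw [← mul_pow]
  congr 1
  unfold dotProduct
  rw [Finset.mul_sum]
  refine Finset.sum_congr rfl fun i _ => ?_
  simp only [Pi.one_apply]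
  ring

lemma ppos {r : ℕ} {Φ : RT r} {B : Matrix (Fin r) (Fin r) ℤ} (hW : WFF Φ B)
    {p : (Fin r → ℤ) × (Fin r → ℤ)} (hp : p ∈ pos Φ) : 0 < p.2 ⬝ᵥ (1 : Fin r → ℤ) := by
  obtain ⟨-, h0, hne, -⟩ := hW.ppos p hp
  obtain ⟨i, hi⟩ := Function.ne_iff.1 hne
  unfold dotProduct
  refine Finset.sum_pos' (fun j _ => ?_) ⟨i, Finset.mem_univ _, ?_⟩
  · have := h0 j
    simpa using this
  · have h1 := h0 i
    have h2 : p.2 i ≠ 0 := hi
    have h4 : 0 < p.2 i := lt_of_le_of_ne h1 (Ne.symm h2)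
    simpa using h4

lemma qpos {r : ℕ} {Φ : RT r} {B : Matrix (Fin r) (Fin r) ℤ} (hI : IRD Φ B) (hW : WFF Φ B) (hr : 1 ≤ r) :
    0 < (rd Φ).Q 1 := by
  show 0 < ∑ p ∈ pos Φ, (p.2 ⬝ᵥ (1 : Fin r → ℤ)) ^ 2
  have hm : (B ⟨0, hr⟩, Pi.single ⟨0, hr⟩ 1) ∈ pos Φ := by
    unfold pos
    rw [Finset.mem_filter]
    refine ⟨hI.base _, fun i => ?_⟩
    have : (0 : Fin r → ℤ) ≤ Pi.single ⟨0, hr⟩ 1 := Pi.single_nonneg.2 zero_le_one
    exact this i
  exact Finset.sum_pos' (fun p _ => sq_nonneg _) ⟨_, hm, by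
    have := ppos hW hm
    positivity⟩

end LOWK

theorem t_LOWK : M_LOWK := by
  intro hWF hRH hQU hLI hLR hKR hKE hFO hAD hZF hCA hHE hHP hHG hHI N H T d r hcl hcon hS hT hd hrk p hp2
    hp μ hμ hμi a b C hab hStr
  have _ := hμ
  have _ := hμi
  have hC := hCA N H
  have hcs : CompactSpace H := isCompact_iff_compactSpace.1 hcl.isCompact
  obtain ⟨X, hX⟩ : ∃ X : Fin d → Matrix (Fin N) (Fin N) ℂ, KFrame H X := by
    subst hd
    exact hKE N H hcl hS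
  obtain ⟨c, hc, -, hKF⟩ := hKR N H hcl hS
  have hXF := hKF d X hX
  obtain ⟨Φ, B, Hc, E, hL, -⟩ := hLR N H T r hcl hS hT hrk.symm
  have hr : 1 ≤ r := by
    by_contra h0
    have h1 : r = 0 := by omega
    rw [h1] at hrk
    have h2 : T = ⊥ := Submodule.finrank_eq_zero.1 hrk
    obtain ⟨A, hA, A', hA', hne⟩ := hS.1
    have h3 : A ∈ T := hT.max A hA (fun Y hY => by
      rw [h2, Submodule.mem_bot] at hY
      rw [hY, mul_zero, zero_mul])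
    rw [h2, Submodule.mem_bot] at h3
    exact hne (by rw [h3, zero_mul, mul_zero])
  have hWW := hWF r Φ B hL.ird
  obtain ⟨k, hK⟩ := hFO N H r Φ B Hc E hcl hL hr c hc
  have hdim := (hAD N H r Φ B Hc E c k d X hcl hL hK hXF).1
  have hrho := (hRH r Φ B hL.ird hWW).1
  have hl1 : (fun _ => 3 : Fin r → ℤ) - 1 = fun _ => 2 := by
    funext i
    simp
  obtain ⟨f, hf⟩ := hHE N H r Φ B Hc E c k d X hr hcl hcon hL hK hXF (fun _ => 3)
    (fun i => by norm_num) (by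
      intro z hz
      rw [hl1, ← hrho, ATF.dz_sum]
      have h1 := (hZF N H r Φ B Hc E hcl hL).1 z hz
      choose! q hq using h1
      have h2 : ∑ p ∈ pos Φ, dz p.1 z = ((∑ p ∈ pos Φ, q p : ℤ) : ℝ) := by
        push_cast
        exact Finset.sum_congr rfl fun p hp => hq p (hWW.ppos p hp).1
      rw [h2, ATF.eu_int])
  rw [hl1] at hf
  set n : ℕ := (pos Φ).card with hn
  have hQ1 := LOWK.qpos hL.ird hWW hr
  have hQ1' : (0 : ℝ) < ((rd Φ).Q 1 : ℝ) := by exact_mod_cast hQ1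
  have h1p : 0 < ∏ p ∈ pos Φ, (p.2 ⬝ᵥ (1 : Fin r → ℤ)) :=
    Finset.prod_pos fun p hp => LOWK.ppos hWW hp
  have h1p' : (0 : ℝ) < ((∏ p ∈ pos Φ, (p.2 ⬝ᵥ (1 : Fin r → ℤ)) : ℤ) : ℝ) := by exact_mod_cast h1p
  have hw : ∀ m : ℕ, HWFN Φ Hc E ((m : ℤ) • (fun _ => 2 : Fin r → ℤ)) (fun g => f g ^ m) := fun m =>
    hHP N H r Φ B Hc E hcl hL _ f hf m
  have hν : ∀ m : ℕ, (m : ℤ) • (fun _ => 2 : Fin r → ℤ) + 1 = fun _ => 2 * (m : ℤ) + 1 := by
    intro m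
    funext i
    simp only [Pi.add_apply, Pi.smul_apply, smul_eq_mul, Pi.one_apply]
    ring
  -- the integrals
  have hint : ∀ m : ℕ, ∫ g, ‖f g ^ m‖ ^ 2 ∂μ = ((2 * (m : ℝ) + 1) ^ n)⁻¹ := by
    intro m
    have h1 := hHI N H r Φ B Hc E c k d X hr hcl hcon hL hK hXF μ _ _ (fun i => by
      simp only [Pi.smul_apply, smul_eq_mul]
      positivity) (hw m)
    rw [hν, LOWK.prd, ← hn, Int.cast_mul, ← mul_assoc] at h1
    have h2 : (∫ g, ‖f g ^ m‖ ^ 2 ∂μ) * (((2 * (m : ℤ) + 1) ^ n : ℤ) : ℝ) = 1 :=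
      mul_right_cancel₀ h1p'.ne' (by rw [h1, one_mul])
    push_cast at h2
    exact eq_inv_of_mul_eq_one_left h2
  have hq : 0 < k * ((rd Φ).Q 1 : ℝ) := mul_pos hK.kpos hQ1'
  set s : ℝ := (d : ℝ) / 2 - ((d : ℝ) + 2) / p with hs
  have hfc : Continuous f := by
    have h1 := (hHG N H r Φ B Hc E c k d X hcl hL hK hXF _ _ (hw 1)).1.1.cont
    simpa using h1
  have main : ∀ m : ℕ, b - a ≤ C * ((p * (m : ℝ) + 3) ^ n *
      ((1 + (k * ((rd Φ).Q 1 : ℝ)) * (4 * (m : ℝ) ^ 2 + 4 * m)) ^ s *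
        ((2 * (m : ℝ) + 1) ^ n)⁻¹) ^ (p / 2)) := by
    intro m
    have hE := hHG N H r Φ B Hc E c k d X hcl hL hK hXF _ _ (hw m)
    rw [hν, LOWK.qrd] at hE
    have hκ : k * (((((2 * (m : ℤ) + 1) ^ 2 * (rd Φ).Q 1 : ℤ)) : ℝ) - ((rd Φ).Q 1 : ℝ)) =
        (k * ((rd Φ).Q 1 : ℝ)) * (4 * (m : ℝ) ^ 2 + 4 * m) := by
      push_cast
      ring
    rw [hκ] at hE
    have h1 := LOWK.str hC hStr X hX _ _ hE
    set M : ℕ := ⌈p * m / 2⌉₊ with hM
    have hM1 : p * m / 2 ≤ M := Nat.le_ceil _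
    have hM2 : (M : ℝ) < p * m / 2 + 1 := Nat.ceil_lt_add_one (by positivity)
    have h2 := LOWK.low (μ := μ) f hfc hf.le m M p (by linarith) (by linarith)
    rw [hint] at h1 h2
    have h3 := (mul_le_mul_right h2 (ENNReal.ofReal (b - a))).trans h1
    have hab' : 0 < b - a := by linarith
    have hp0 : 0 < p := by linarith
    rw [← ENNReal.ofReal_mul hab'.le, ENNReal.ofReal_le_ofReal_iff'] at h3
    have hpos : 0 < (b - a) * ((2 * (M : ℝ) + 1) ^ n)⁻¹ := by positivity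
    have h4 := h3.resolve_right (not_le.2 hpos)
    have h5 : (2 * (M : ℝ) + 1) ^ n ≤ (p * (m : ℝ) + 3) ^ n := by
      refine pow_le_pow_left₀ (by positivity) ?_ n
      linarith
    rw [← hs] at h4
    set Y : ℝ := C * ((1 + (k * ((rd Φ).Q 1 : ℝ)) * (4 * (m : ℝ) ^ 2 + 4 * m)) ^ s *
        ((2 * (m : ℝ) + 1) ^ n)⁻¹) ^ (p / 2) with hY
    have hY0 : 0 ≤ Y := hpos.le.trans h4
    have h6 : b - a ≤ Y * (2 * (M : ℝ) + 1) ^ n := by
      rw [← div_eq_mul_inv, div_le_iff₀ (by positivity)] at h4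
      exact h4
    calc b - a ≤ Y * (2 * (M : ℝ) + 1) ^ n := h6
      _ ≤ Y * (p * (m : ℝ) + 3) ^ n := mul_le_mul_of_nonneg_left h5 hY0
      _ = _ := by
        rw [hY]
        ring
  have hlim := (LOWK.key n p s _ (by linarith) hq (LOWK.expo (r := r) (by exact_mod_cast hdim) hr hp2 hp)).const_mul C
  rw [mul_zero] at hlim
  have : b - a ≤ 0 := ge_of_tendsto hlim (Filter.Eventually.of_forall main)
  linarith

end

end LGR
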