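import Pool.Agent.LGR.StC
import Pool.Agent.STZ.STRX

/-!
# Module STRW: assembly of the upper bound for a group with given characters
-/

namespace LGR

open STZ MeasureTheory Matrix Filter

open scoped ComplexConjugate Matrix Real Topology

noncomputable section

open STZ.STRX in
/-- the machine -/
theorem t_STRW : M_STRW := by
  intro hNQ hKB hHAAR hKERI hEIGW hALLX hLOCW N H c d r D P ι α χ Z k hr3 hD hG p hp hp8
  intro μ hμ hl a b hab
  have := hμ
  have := hl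
  have hcpt : CompactSpace H := isCompact_iff_compactSpace.1 hG.closed.isCompact
  have h2c : SecondCountableTopology H := TopologicalSpace.Subtype.secondCountableTopology _
  obtain ⟨-, -, hopen⟩ := hHAAR H μ
  have := hopen
  have hker : Ker μ (KK χ) := (hKERI H μ ι χ hG.irr).1
  have hr0 : (0 : ℝ) < r := by
    have : (3 : ℝ) ≤ r := by exact_mod_cast hr3
    linarith
  have he0 : (0 : ℝ) ≤ (D.e : ℝ) := Nat.cast_nonneg _
  have hd0 : (0 : ℝ) < (D.e : ℝ) + r := by linarith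
  have hdd : (d : ℝ) = (D.e : ℝ) + r := by
    rw [hG.dimd]
    push_cast
    ring
  have h8 : 0 < 8 / ((D.e : ℝ) + r) := by positivity
  rw [hdd] at hp
  have hp0 : 0 < p := by linarith
  have hloc := hLOCW N H c d r D P ι α χ Z k hr3 hD hG μ
  have hAX := hALLX H μ ι (KK χ) r (D.e : ℝ) (fun i => wG (α i)) (fun l => -D.Q l)
    (max (2 + 8 / ((D.e : ℝ) + r)) (8 / (r : ℝ))) he0 (le_trans (by linarith) (le_max_left _ _))
    hloc p (max_lt hp hp8)
  have hse : 0 ≤ ((r : ℝ) + (D.e : ℝ)) / 2 - (r + D.e + 2) / p := by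
    rw [sub_nonneg, div_le_div_iff₀ hp0 (by norm_num : (0 : ℝ) < 2)]
    have h1 : (2 + 8 / ((D.e : ℝ) + r)) * (r + D.e) ≤ p * (r + D.e) :=
      mul_le_mul_of_nonneg_right hp.le (by positivity)
    have h3 : 8 / ((D.e : ℝ) + r) * (r + D.e) = 8 := by
      rw [add_comm (r : ℝ) (D.e : ℝ)]
      field_simp
    nlinarith
  obtain ⟨c1, hc1, hpd⟩ := hD.pd
  have hwreg : ∀ a : Fin r → ℕ, Reg (wG a) := fun a i => by
    unfold wG
    have : (0 : ℤ) ≤ (a i : ℤ) := by positivity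
    linarith
  have hQ1 : ∀ a : Fin r → ℕ, (D.Q 1 : ℝ) ≤ D.Q (wG a) := by
    intro a
    by_cases h1 : wG a = 1
    · rw [h1]
    · exact_mod_cast (hD.rho (wG a) (hwreg a) h1).le
  have hkpos := hG.kpos
  have hk1 : ∀ a : Fin r → ℕ, 0 ≤ k * (((D.Q (wG a) : ℤ) : ℝ) - D.Q 1) := fun a =>
    mul_nonneg hkpos.le (by linarith [hQ1 a])
  have hQ10 : (0 : ℝ) ≤ D.Q 1 := by
    have := (hpd 1).1
    exact le_trans (by positivity) this
  -- comparison of `sz` and the eigenvalue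
  have hsz2 : ∀ a : Fin r → ℕ, sz (wG a) ≤ 2 * (sz (wG a) - 1) := by
    intro a
    have h2 : (1 : ℝ) ≤ ∑ i, |((wG a i : ℤ) : ℝ)| := by
      have hr : 0 < r := by omega
      have h3 : |((wG a ⟨0, hr⟩ : ℤ) : ℝ)| ≤ ∑ i, |((wG a i : ℤ) : ℝ)| :=
        Finset.single_le_sum (f := fun i => |((wG a i : ℤ) : ℝ)|) (fun i _ => abs_nonneg _)
          (Finset.mem_univ _)
      have h4 : (1 : ℝ) ≤ |((wG a ⟨0, hr⟩ : ℤ) : ℝ)| := by
        rw [le_abs]
        left
        exact_mod_cast hwreg a ⟨0, hr⟩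
      linarith
    unfold sz
    linarith
  set C1 : ℝ := 4 / c1 * (1 / k + D.Q 1) with hC1def
  have hC10 : 0 ≤ C1 := by positivity
  have hC1 : ∀ a : Fin r → ℕ, sz (wG a) ^ 2 ≤ C1 * (1 + k * (((D.Q (wG a) : ℤ) : ℝ) - D.Q 1)) := by
    intro a
    have h1 := (hpd (wG a)).1
    have h2 := hsz2 a
    have h0 : 0 ≤ sz (wG a) := by
      unfold sz
      positivity
    have h3 : sz (wG a) ^ 2 ≤ 4 * (sz (wG a) - 1) ^ 2 := by nlinarith
    have h4 : (sz (wG a) - 1) ^ 2 ≤ D.Q (wG a) / c1 := by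
      rw [le_div_iff₀ hc1]
      linarith
    have h5 := hk1 a
    have h6 : (D.Q (wG a) : ℝ) ≤ (1 / k + D.Q 1) * (1 + k * (((D.Q (wG a) : ℤ) : ℝ) - D.Q 1)) := by
      have h7 : (D.Q (wG a) : ℝ) = 1 / k * (k * (((D.Q (wG a) : ℤ) : ℝ) - D.Q 1)) + D.Q 1 := by
        field_simp
        ring
      have h8 : 0 ≤ 1 / k := by positivity
      nlinarith [mul_nonneg hQ10 h5, mul_nonneg h8 h5]
    calc sz (wG a) ^ 2 ≤ 4 * (D.Q (wG a) / c1) := by linarith
      _ = 4 / c1 * D.Q (wG a) := by ring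
      _ ≤ 4 / c1 * ((1 / k + D.Q 1) * (1 + k * (((D.Q (wG a) : ℤ) : ℝ) - D.Q 1))) :=
          mul_le_mul_of_nonneg_left h6 (by positivity)
      _ = _ := by rw [hC1def]; ring
  obtain ⟨C0, hC0⟩ := core hNQ hKB H μ ι (KK χ) r (D.e : ℝ) (fun i => wG (α i)) hker
    D.Q k hkpos (D.Q 1 : ℝ) C1 (fun i => hk1 (α i)) (fun i => hC1 (α i)) hC10 p hp0 hse a b hab hAX
  refine ⟨max C0 0, ?_⟩
  intro X hX κ f hκ hf hs u hu hlim
  choose S hS1 hS2 using fun j => hEIGW N H c d r D P ι α χ Z k hD hG μ X hX (κ j) (f j) (hf j)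
  have hfc : ∀ j, Continuous (f j) := fun j => (hf j).1.1.cont
  have hexp : ((r : ℝ) + (D.e : ℝ)) / 2 - (r + D.e + 2) / p = (d : ℝ) / 2 - ((d : ℝ) + 2) / p := by
    rw [hG.dimd]
    push_cast
    ring
  have hw : ∀ j, 0 ≤ (1 + κ j) ^ ((d : ℝ) / 2 - ((d : ℝ) + 2) / p) * ∫ g, ‖f j g‖ ^ 2 ∂μ := by
    intro j
    by_cases h : (S j).Nonempty
    · obtain ⟨a, ha⟩ := h
      refine mul_nonneg (Real.rpow_nonneg ?_ _) (integral_nonneg fun _ => by positivity)
      rw [hS1 j a ha]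
      linarith [hk1 (α a)]
    · rw [Finset.not_nonempty_iff_eq_empty] at h
      have : f j = 0 := by
        rw [← hS2 j, h]
        funext y
        simp [Pr]
      rw [this]
      simp
  refine FING.all_data μ _ p hp0 a b hab (max C0 0) (le_max_right _ _) κ f hfc hw hs ?_ u hu hlim
  intro M
  have h1 := hC0 M (fun j => κ j) (fun j => f j) (fun j => S j)
    (fun i j hij => Fin.ext (hκ hij)) (fun j => hfc j) (fun j => hS1 j) (fun j => hS2 j)
  rw [hexp] at h1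
  refine h1.trans ?_
  refine mul_le_mul_of_nonneg_right (le_max_left _ _) (Real.rpow_nonneg ?_ _)
  exact Finset.sum_nonneg fun j _ => hw j

end

end LGR
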