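import Pool.Agent.STZ.StmtsV
import Mathlib.LinearAlgebra.RootSystem.BaseExists
import Mathlib.LinearAlgebra.RootSystem.Irreducible

/-!
# Simple compact Lie groups, block A: root data in integer coordinates

Weights are vectors `l ∈ ℤ^r` (coordinates with respect to the fundamental weights), a root is a pair `p = (p.1, p.2)` of the root as a weight and the
coroot as a linear form `l ↦ p.2 ⬝ᵥ l` on weights. Module `X` proves `theorem t_X : M_X` (or `t_X : S_X` if there is no `M_X`) in the file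
`Pool/Agent/LGR/X.lean`, namespace `LGR`.
-/

namespace LGR

open STZ MeasureTheory Matrix Filter

open scoped ComplexConjugate Matrix Real Topology

noncomputable section

/-- root data: `Φ` are all roots (positive and negative), the rows of `B` are the simple roots; the simple coroots are the coordinates -/
structure IRD {r : ℕ} (Φ : RT r) (B : Matrix (Fin r) (Fin r) ℤ) : Prop where
  two : ∀ p ∈ Φ, p.2 ⬝ᵥ p.1 = 2
  refl : ∀ p ∈ Φ, ∀ q ∈ Φ, (q.1 - (p.2 ⬝ᵥ q.1) • p.1, q.2 - (q.2 ⬝ᵥ p.1) • p.2) ∈ Φ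
  det : B.det ≠ 0
  base : ∀ i, (B i, Pi.single i 1) ∈ Φ
  sgn : ∀ p ∈ Φ, (∃ n : Fin r → ℤ, p.1 = ∑ i, n i • B i ∧ ∀ i, 0 ≤ n i ∧ 0 ≤ p.2 i) ∨
    ∃ n : Fin r → ℤ, p.1 = ∑ i, n i • B i ∧ ∀ i, n i ≤ 0 ∧ p.2 i ≤ 0
  red : ∀ p ∈ Φ, ∀ q ∈ Φ, ∀ a b : ℤ, a ≠ 0 → (a • p.1 = b • q.1 ∨ a • p.2 = b • q.2) →
    q = p ∨ q = (-p.1, -p.2)
  irr : ∀ V : Submodule ℂ (Fin r → ℂ),
    (∀ p ∈ Φ, ∀ v ∈ V, (fun i => v i - (∑ j, (p.2 j : ℂ) * v j) * (p.1 i : ℂ)) ∈ V) → V = ⊥ ∨ V = ⊤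

/-- the reflection `l ↦ l - (p.2 ⬝ᵥ l) • p.1` -/
def rf {r : ℕ} (p : (Fin r → ℤ) × (Fin r → ℤ)) : Matrix (Fin r) (Fin r) ℤ :=
  fun i j => (if i = j then 1 else 0) - p.1 i * p.2 j

/-- the positive roots -/
def pos {r : ℕ} (Φ : RT r) : RT r := Φ.filter fun p => ∀ i, 0 ≤ p.2 i

/-- the Weyl group -/
def WM {r : ℕ} (Φ : RT r) : Submonoid (Matrix (Fin r) (Fin r) ℤ) :=
  Submonoid.closure {w | ∃ p ∈ Φ, w = rf p}

open Classical in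
/-- the Weyl group as a finite set -/
def WF {r : ℕ} (Φ : RT r) : Finset (Matrix (Fin r) (Fin r) ℤ) :=
  if h : ((WM Φ : Submonoid (Matrix (Fin r) (Fin r) ℤ)) : Set (Matrix (Fin r) (Fin r) ℤ)).Finite then h.toFinset
  else ∅

/-- the data of the type `RD` (the entries `S`, `P`, `st`, `ψ`, `ξ` are not used) -/
def rd {r : ℕ} (Φ : RT r) : RD r where
  W := WF Φ
  Q := fun l => ∑ p ∈ pos Φ, (p.2 ⬝ᵥ l) ^ 2
  A := fun i j => ∑ p ∈ pos Φ, 2 * p.2 i * p.2 j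
  S := fun _ => ∅
  P := fun _ _ => 0
  st := 1
  ψ := fun _ _ => 0
  ξ := fun _ => 0
  dim := fun l => ∏ p ∈ pos Φ, (p.2 ⬝ᵥ l)
  e := 2 * (pos Φ).card

/-- facts about the Weyl group -/
structure WFF {r : ℕ} (Φ : RT r) (B : Matrix (Fin r) (Fin r) ℤ) : Prop where
  mv : ∀ (p : (Fin r → ℤ) × (Fin r → ℤ)) (l : Fin r → ℤ), rf p *ᵥ l = l - (p.2 ⬝ᵥ l) • p.1
  sq : ∀ p ∈ Φ, rf p * rf p = 1
  dt : ∀ p ∈ Φ, (rf p).det = -1
  mem : ∀ w, w ∈ WF Φ ↔ w ∈ WM Φ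
  one : (1 : Matrix (Fin r) (Fin r) ℤ) ∈ WF Φ
  mul : ∀ w ∈ WF Φ, ∀ w' ∈ WF Φ, w * w' ∈ WF Φ
  inv : ∀ w ∈ WF Φ, ∃ w' ∈ WF Φ, w' * w = 1 ∧ w * w' = 1
  det : ∀ w ∈ WF Φ, w.det = 1 ∨ w.det = -1
  perm : ∀ w ∈ WF Φ, ∀ p ∈ Φ, ∃ q ∈ Φ, w *ᵥ p.1 = q.1 ∧ ∀ l, q.2 ⬝ᵥ (w *ᵥ l) = p.2 ⬝ᵥ l
  lat : ∀ w ∈ WF Φ, ∀ l, ∃ n : Fin r → ℤ, w *ᵥ l = l + ∑ i, n i • B i
  neg : ∀ p ∈ Φ, (-p.1, -p.2) ∈ Φ
  dich : ∀ p ∈ Φ, p ∈ pos Φ ↔ (-p.1, -p.2) ∉ pos Φ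
  ppos : ∀ p ∈ pos Φ, p ∈ Φ ∧ (∀ i, 0 ≤ p.2 i) ∧ p.2 ≠ 0 ∧
    ∃ n : Fin r → ℤ, p.1 = ∑ i, n i • B i ∧ ∀ i, 0 ≤ n i
  simp : ∀ i, ∀ p ∈ pos Φ, p ≠ (B i, Pi.single i 1) →
    (p.1 - p.1 i • B i, p.2 - (p.2 ⬝ᵥ B i) • Pi.single i 1) ∈ pos Φ

/-- WFAC. `sq`, `dt`: `p.2 ⬝ᵥ p.1 = 2` (`det (1 - u vᵀ) = 1 - v ⬝ᵥ u`, `Matrix.det_one_sub_mul_comm` or similar). The matrices `w` with `perm` (for a two-sided inverse `w'`) are determined by the map `p ↦ q` on the finite set `Φ`: if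
`w` and `w'` give the same map then `w *ᵥ B i = w' *ᵥ B i` for all `i`, so `w = w'` by `det`; so `WM Φ` is finite. `perm` for `rf p`: `refl`, `two`; for products. `lat`: `p.1` is a combination of the `B i` (`sgn`). `neg`: `refl` for `q = p`. `dich`, `ppos`: `sgn`;
`p.2 ≠ 0` by `two`. `simp`: `p.2` is not a multiple of `Pi.single i 1` (`red`: otherwise `p = ±` the simple root, and `-` is impossible), so `p.2 k > 0` for some `k ≠ i`; the new pair is in `Φ` (`refl` for the simple root), its `k`-th coordinate is the same, so it is positive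
by `sgn`. -/
def S_WFAC : Prop := ∀ (r : ℕ) (Φ : RT r) (B : Matrix (Fin r) (Fin r) ℤ), IRD Φ B → WFF Φ B

/-- RHOF. `v = ∑ p.1` over `pos Φ`: by `WFF.simp` (an involution of `pos Φ` without the simple root `i`) `∑ (p.1 - p.1 i • B i) = v - B i - B i`, i.e. `v - v i • B i = v - 2 • B i`, and `B i ≠ 0`. The same for `∑ p.2`: `∑ (p.2 ⬝ᵥ B i) = 2`. Last claim:
`p.1 = ∑ n k • B k` with `n ≥ 0`, not all zero. -/
def S_RHOF : Prop := ∀ (r : ℕ) (Φ : RT r) (B : Matrix (Fin r) (Fin r) ℤ), IRD Φ B → WFF Φ B →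
  (∑ p ∈ pos Φ, p.1 = fun _ => 2) ∧ (∀ i, ∑ p ∈ pos Φ, p.2 ⬝ᵥ B i = 2) ∧
  ∀ q ∈ pos Φ, 2 ≤ ∑ p ∈ pos Φ, p.2 ⬝ᵥ q.1

/-- GENS. For `p ∈ pos Φ` by induction on `∑ i, p.2 i`: if `p` is not a simple root then `2 = p.2 ⬝ᵥ p.1 = ∑ n k (p.2 ⬝ᵥ B k)` with `n ≥ 0`, so `p.2 ⬝ᵥ B k > 0` for some `k`; the pair `p' = s_k p` of `WFF.simp` has the smaller sum, and `rf p = rf s * rf p' * rf s`,
`s = (B k, Pi.single k 1)`. `rf (-p) = rf p`. -/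
def S_GENS : Prop := ∀ (r : ℕ) (Φ : RT r) (B : Matrix (Fin r) (Fin r) ℤ), IRD Φ B → WFF Φ B →
  WM Φ = Submonoid.closure {w | ∃ i, w = rf (B i, Pi.single i 1)}

/-- EXCH. Every element `w ≠ 1` of the Weyl group makes some positive root negative. Take a word `w = s_(i 1) ⋯ s_(i n)` in the simple reflections (GENS) with the smallest `n ≥ 1`, and `i = i n`. Suppose `w` maps the simple root `i` to a positive root. Let
`v k = s_(i (k+1)) ⋯ s_(i (n-1)) α_i`; `v (n-1) = α_i` is positive, `v 0 = - w α_i` is negative. So there is a `k` with `v k` positive, `s_(i k) (v k)` negative, and `v k = α_(i k)` by `WFF.simp`. With `u = s_(i (k+1)) ⋯ s_(i (n-1))`: `u s_i u⁻¹ = s_(i k)` (`rf` of the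
transformed pair), so `s_(i k) u s_i = u`, and `w = s_(i 1) ⋯ s_(i (k-1)) u` is a word with `n - 2` letters, a contradiction. (`p'` below: the image of `p`.) -/
def S_EXCH : Prop := ∀ (r : ℕ) (Φ : RT r) (B : Matrix (Fin r) (Fin r) ℤ), IRD Φ B → WFF Φ B →
  ∀ w ∈ WF Φ, w ≠ 1 → ∃ p ∈ pos Φ, ∃ q ∈ pos Φ, w *ᵥ p.1 = -q.1 ∧ ∀ l, q.2 ⬝ᵥ (w *ᵥ l) = -(p.2 ⬝ᵥ l)

def M_EXCH : Prop := S_GENS → S_EXCH

/-- CHAM. `str`: among the finitely many `w` take one with the largest `∑ p ∈ pos Φ, p.2 ⬝ᵥ (w *ᵥ l)`; if `(w l) i < 0` then the simple reflection increases it by `- 2 (w l) i` (RHOF or `WFF.simp`). `free`: EXCH: `q.2 ⬝ᵥ (w *ᵥ l) = -(p.2 ⬝ᵥ l) < 0` for a regular `l`, but the left side is positive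
if `w *ᵥ l` is regular. -/
def S_CHAM : Prop := ∀ (r : ℕ) (Φ : RT r) (B : Matrix (Fin r) (Fin r) ℤ), IRD Φ B → WFF Φ B →
  (∀ l, ∃ w ∈ WF Φ, ∀ i, 0 ≤ (w *ᵥ l) i) ∧ ∀ l, Reg l → ∀ w ∈ WF Φ, Reg (w *ᵥ l) → w = 1

def M_CHAM : Prop := S_RHOF → S_EXCH → S_CHAM

/-- QUAD. `w` permutes `Φ`, so the linear forms `p.2 ⬝ᵥ (w *ᵥ ·)`, `p ∈ pos Φ`, are those of `pos Φ` up to the sign (and the order). `x·Ax = 2 Q x`, `Q x ≥ ∑ i, (x i)²` because `Pi.single i 1` is one of the `p.2`. Symmetric: obvious. The last claim: `A` is invariant,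
`p.1·(A l) = (rf p p.1)·(A (rf p l)) = -p.1·(A l) + (p.2·l) p.1·(A p.1)`. -/
def S_QUAD : Prop := ∀ (r : ℕ) (Φ : RT r) (B : Matrix (Fin r) (Fin r) ℤ), IRD Φ B → WFF Φ B →
  (∀ w ∈ WF Φ, ∀ l, (rd Φ).Q (w *ᵥ l) = (rd Φ).Q l) ∧ QF (rd Φ).Q (rd Φ).A ∧
  (rd Φ).Aᵀ = (rd Φ).A ∧ (∀ l, l ⬝ᵥ ((rd Φ).A *ᵥ l) = 2 * (rd Φ).Q l) ∧
  (∀ w ∈ WF Φ, ∀ l l', (w *ᵥ l) ⬝ᵥ ((rd Φ).A *ᵥ (w *ᵥ l')) = l ⬝ᵥ ((rd Φ).A *ᵥ l')) ∧
  (∃ c : ℝ, 0 < c ∧ ∀ l, c * (sz l - 1) ^ 2 ≤ (rd Φ).Q l ∧ c * (rd Φ).Q l ≤ (sz l - 1) ^ 2) ∧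
  ∀ p ∈ Φ, 0 < p.1 ⬝ᵥ ((rd Φ).A *ᵥ p.1) ∧
    ∀ l, 2 * (p.1 ⬝ᵥ ((rd Φ).A *ᵥ l)) = (p.2 ⬝ᵥ l) * (p.1 ⬝ᵥ ((rd Φ).A *ᵥ p.1))

/-- DENO. Weyl's denominator formula. Let `F θ` be the right side. Under `θ ↦ sᵀ θ`, `s = rf (B i, Pi.single i 1)`, `dz l (sᵀ θ) = dz (s l) θ`, the factors for `p ≠ (B i, ·)` are permuted (`WFF.simp`), `e(∑ θ) ↦ e(∑ θ - dz (B i) θ)` and `1 - e(-dz (B i) θ) ↦ 1 - e(dz (B i) θ)`, so `F ↦ -F`; by GENS
`F (wᵀ θ) = det w F θ` for all `w ∈ WF Φ`. Expanding the product, `F θ = ∑ ν, c ν e(dz ν θ)`, `c ν = ∑ (-1)^|S|` over the `S ⊆ pos Φ` with `ν = 1 - ∑ p ∈ S, p.1`; uniqueness of the coefficients of trigonometric polynomials: `c (w ν) = det w c ν`. Let `c ν ≠ 0`. `ν` is not fixed by a reflection.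
By CHAM `w ν` is dominant for some `w`; `c (w ν) ≠ 0`, so it is `1 - ∑_S p.1`, and all its coordinates are `≥ 1` (a coordinate `0` means that it is fixed by a reflection). So `μ = w ν - 1 = -∑_S p.1` is dominant, and `μ·Aμ = -∑_S p.1·Aμ ≤ 0` (QUAD: `p.1·A μ` has the sign of `p.2·μ ≥ 0`), `μ = 0`, `w ν = 1`.
`c 1 = 1`: `∑_S p.1 = 0` only for `S = ∅` (RHOF: the form `∑ p.2`). So `c (w 1) = det w`, these are different for different `w` (CHAM), and all other `c ν` are zero. -/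
def S_DENO : Prop := ∀ (r : ℕ) (Φ : RT r) (B : Matrix (Fin r) (Fin r) ℤ), IRD Φ B → WFF Φ B →
  ∀ θ : Fin r → ℝ, AT (rd Φ) 1 θ = eu (∑ i, θ i) * ∏ p ∈ pos Φ, (1 - eu (-(dz p.1 θ)))

def M_DENO : Prop := S_RHOF → S_GENS → S_CHAM → S_QUAD → S_DENO

/-- DIML. Weyl's dimension formula. `θ₀ = A 1`. `dz μ (s A l) = s μ·A l`, so by the invariance (and symmetry) of `A` `AT λ (s A 1) = ∑ w, det w e(s (w λ)·A 1) = ∑ w, det w e(s (w 1)·A λ) = AT 1 (s A λ) = e(s 1·A λ) ∏ (1 - e(-s p.1·A λ))` by DENO, and the same for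
`AT 1 (s A 1)`. The quotient of the two products tends to `∏ (p.1·A λ) / (p.1·A 1) = ∏ (p.2·λ) / (p.2·1)` by QUAD. (`p.2·1 > 0`.) -/
def S_DIML : Prop := ∀ (r : ℕ) (Φ : RT r) (B : Matrix (Fin r) (Fin r) ℤ), IRD Φ B → WFF Φ B →
  ∃ θ₀ : Fin r → ℝ, (∀ p ∈ pos Φ, 0 < dz p.1 θ₀) ∧ ∀ l : Fin r → ℤ,
    Tendsto (fun s : ℝ => AT (rd Φ) l (fun i => s * θ₀ i) / AT (rd Φ) 1 (fun i => s * θ₀ i)) (𝓝[>] 0)
      (𝓝 ((∏ p ∈ pos Φ, ((p.2 ⬝ᵥ l : ℤ) : ℂ)) / ∏ p ∈ pos Φ, ((p.2 ⬝ᵥ (1 : Fin r → ℤ) : ℤ) : ℂ)))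

def M_DIML : Prop := S_QUAD → S_DENO → S_DIML

/-- SCHU. Invariant forms are unique. `A` is invertible over `ℂ`. `T = A⁻¹ G` commutes with all `w ∈ WF Φ` (as matrices over `ℂ`; `wᵀ A w = A`, `wᵀ G w = G`). It has an eigenvalue `k ∈ ℂ`; the eigenspace is invariant under all `rf p`, so it is everything by `IRD.irr` (`r ≥ 1`). So `G = k A`, and `k` is real
since `G`, `A` are real. -/
def S_SCHU : Prop := ∀ (r : ℕ) (Φ : RT r) (B : Matrix (Fin r) (Fin r) ℤ), 1 ≤ r → IRD Φ B → WFF Φ B →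
  ∀ G : Matrix (Fin r) (Fin r) ℝ, (∀ w ∈ WF Φ, ∀ l l' : Fin r → ℤ,
    (fun i => ((w *ᵥ l) i : ℝ)) ⬝ᵥ (G *ᵥ fun i => ((w *ᵥ l') i : ℝ)) = (fun i => (l i : ℝ)) ⬝ᵥ (G *ᵥ fun i => (l' i : ℝ))) →
    ∃ k : ℝ, G = k • (rd Φ).A.map (Int.cast : ℤ → ℝ)

def M_SCHU : Prop := S_QUAD → S_SCHU

/-- UNIF. Uniform density. Let `(x, y) = x·A y`, positive definite and invariant, `F` the span of the set `S` in `ℝ^r`. The form `G = ∑_(p ∈ pos Φ) (A p.1)(A p.1)ᵀ / (p.1, p.1)` is invariant, so `G = k A` (SCHU); trace of `A⁻¹ G`: `∑ p, 1 = k r`, `k = |pos Φ| / r`. Let `E` be the orthogonal projection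
on `F` for `( , )`. `trace (E A⁻¹ G) = ∑ p, (p.1, E p.1) / (p.1, p.1) = k dim F`; every term is `≥ 0`, and it is `1` for `p.1 ∈ F`. -/
def S_UNIF : Prop := ∀ (r : ℕ) (Φ : RT r) (B : Matrix (Fin r) (Fin r) ℤ), 1 ≤ r → IRD Φ B → WFF Φ B →
  ∀ F : Submodule ℝ (Fin r → ℝ), ∀ T : RT r, T ⊆ pos Φ → (∀ p ∈ T, (fun i => (p.1 i : ℝ)) ∈ F) →
    r * T.card ≤ (pos Φ).card * Module.finrank ℝ F

def M_UNIF : Prop := S_QUAD → S_SCHU → S_UNIF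

/-- AVGF. Take `b` with `det ≠ 0` (exists: the simple roots) and the smallest `∑ i, y (b i)`. For every `s`: every `p` with `y p < s` is in the span `F` of the `(b i).1` with `y (b i) < s` (otherwise the expansion of `p.1` in the basis `b` has a nonzero coefficient for some `b k` with `y (b k) ≥ s`, and `p` can
replace it, with a smaller sum). So by UNIF `r · #{p : y p < s} ≤ |pos Φ| · #{i : y (b i) < s}`, `|pos Φ| · #{i : y (b i) ≥ s} ≤ r · #{p : y p ≥ s}`; sum over `s ≥ 1`. -/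
def S_AVGF : Prop := ∀ (r : ℕ) (Φ : RT r) (B : Matrix (Fin r) (Fin r) ℤ), 1 ≤ r → IRD Φ B → WFF Φ B →
  ∀ y : {p // p ∈ pos Φ} → ℕ, ∃ b : Fin r → {p // p ∈ pos Φ},
    (Matrix.of fun i => (b i).1.1).det ≠ 0 ∧ (pos Φ).card * ∑ i, y (b i) ≤ r * ∑ p, y p

def M_AVGF : Prop := S_UNIF → S_AVGF

/-! ### from Mathlib's root systems -/

/-- the root `i` in the coordinates given by the simple coroots `e j` -/
def rtc {ι M N : Type} [AddCommGroup M] [Module ℂ M] [AddCommGroup N] [Module ℂ N]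
    (P : RootPairing ι ℂ M N) [P.IsCrystallographic] {r : ℕ} (e : Fin r → ι) (i : ι) : Fin r → ℤ :=
  fun j => P.pairingIn ℤ i (e j)

/-- RTSY. `ct i`: the coefficients of the coroot `i` (`Base.coroot_mem_span_int`, `exists_root_eq_sum_int` for `b.flip`). `ct i ⬝ᵥ rtc j = P.pairingIn ℤ j i`. `refl`: the reflected root and coroot (`P.root_reflectionPerm`, `P.coroot_reflectionPerm`). `det`: the Cartan matrix is nondegenerate: the simple roots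
are a basis of `M` and the simple coroots are a basis of `N`, the pairing is perfect. `sgn`: `root_mem_or_neg_mem`, `coroot_mem_or_neg_mem`; the signs for the root and the coroot are the same (`pairing i i = 2 > 0`, or Mathlib's lemmas about `IsPos`, or: the coroot is a positive multiple of the root for the
canonical form). `red`: `IsReduced`. `irr`: `IsIrreducible` via the isomorphism `M ≅ ℂ^r`, `x ↦ (coroot (e j) x)_j`. -/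
def S_RTSY : Prop := ∀ (ι M N : Type) [Fintype ι] [DecidableEq ι] [AddCommGroup M] [Module ℂ M] [AddCommGroup N]
  [Module ℂ N] (P : RootPairing ι ℂ M N) [P.IsRootSystem] [P.IsCrystallographic] [P.IsReduced] [P.IsIrreducible]
  (b : P.Base) (r : ℕ) (e : Fin r ≃ b.support),
  ∃ ct : ι → Fin r → ℤ, (∀ i, P.coroot i = ∑ j, (ct i j : ℂ) • P.coroot (e j).1) ∧
    (∀ i j, (P.pairingIn ℤ i j : ℤ) = ct j ⬝ᵥ rtc P (fun k => (e k).1) i) ∧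
    (∀ i j, ct i = ct j → rtc P (fun k => (e k).1) i = rtc P (fun k => (e k).1) j → i = j) ∧
    IRD (Finset.univ.image fun i => (rtc P (fun k => (e k).1) i, ct i))
      (Matrix.of fun j k => P.pairingIn ℤ (e j).1 (e k).1)

end

end LGR
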