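import Pool.Agent.LGR.StA

/-!
# Simple compact Lie groups, block B: the estimates on the torus and on the group

The paper proof is in `Pool/Agent/STZ/SUN2_PAPER.md`. The modules of this block are versions of modules of the folder `Pool/Agent/STZ` for general data `RV` (respectively `GX`): copy the old file, replace the hypotheses and rename. The lemmas of the old
file which do not use the structures `RDX`, `RTD`, `RTE`, `GD` can be used from there (import it).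
-/

namespace LGR

open STZ MeasureTheory Matrix Filter

open scoped ComplexConjugate Matrix Real Topology

noncomputable section

/-- the facts about the root data which are used for the estimates -/
structure RV {r : ℕ} (D : RD r) (P : RT r) : Prop where
  W_one : 1 ∈ D.W
  W_mul : ∀ w ∈ D.W, ∀ w' ∈ D.W, w * w' ∈ D.W
  W_inv : ∀ w ∈ D.W, ∃ w' ∈ D.W, w' * w = 1
  W_det : ∀ w ∈ D.W, w.det = 1 ∨ w.det = -1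
  Q_W : ∀ w ∈ D.W, ∀ l, D.Q (w *ᵥ l) = D.Q l
  str : ∀ l, ∃ w ∈ D.W, ∀ i, 0 ≤ (w *ᵥ l) i
  free : ∀ l, Reg l → ∀ w ∈ D.W, Reg (w *ᵥ l) → w = 1
  qf : QF D.Q D.A
  pd : ∃ c : ℝ, 0 < c ∧ ∀ l, c * (sz l - 1) ^ 2 ≤ D.Q l ∧ c * D.Q l ≤ (sz l - 1) ^ 2
  rho : ∀ l, Reg l → l ≠ 1 → D.Q 1 < D.Q l
  card : D.e = 2 * P.card
  refl : ∀ p ∈ P, ∃ w ∈ D.W, w.det = -1 ∧ ∀ l, w *ᵥ l = l - (p.2 ⬝ᵥ l) • p.1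
  pos : ∀ p ∈ P, (∀ i, 0 ≤ p.2 i) ∧ p.2 ≠ 0
  np1 : ∀ p ∈ P, ∀ q ∈ P, p ≠ q → ∀ a b : ℤ, a • p.1 = b • q.1 → a = 0 ∧ b = 0
  np2 : ∀ p ∈ P, ∀ q ∈ P, p ≠ q → ∀ a b : ℤ, a • p.2 = b • q.2 → a = 0 ∧ b = 0
  dimD : ∀ l, D.dim l = ∏ p ∈ P, (p.2 ⬝ᵥ l)
  danti : ∀ w ∈ D.W, ∀ l, D.dim (w *ᵥ l) = w.det * D.dim l
  den : ∀ θ, AT D 1 θ = eu (∑ i, θ i) * ∏ p ∈ P, (1 - eu (-(dz p.1 θ)))
  lat : ∀ w ∈ D.W, ∀ l, ∃ n : {p // p ∈ P} → ℤ, w *ᵥ l = l + ∑ p, n p • p.1.1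
  perm : ∀ w ∈ D.W, ∀ p ∈ P, ∃ q ∈ P, w *ᵥ p.1 = q.1 ∨ w *ᵥ p.1 = -q.1
  cperm : ∀ w ∈ D.W, ∀ p ∈ P, ∃ q ∈ P, (∀ l, p.2 ⬝ᵥ (w *ᵥ l) = q.2 ⬝ᵥ l) ∨
    (∀ l, p.2 ⬝ᵥ (w *ᵥ l) = -(q.2 ⬝ᵥ l))
  sim : ∀ i, ∃ p ∈ P, p.2 = Pi.single i 1
  avg : ∀ y : {p // p ∈ P} → ℕ, ∃ b : Fin r → {p // p ∈ P},
    (Matrix.of fun i => (b i).1.1).det ≠ 0 ∧ P.card * ∑ i, y (b i) ≤ r * ∑ p, y p

/-- RVOF. From the modules of block A: WFAC, RHOF, CHAM, QUAD, DENO, AVGF. `rho`: `p.2 ⬝ᵥ l ≥ p.2 ⬝ᵥ 1` as `p.2 ≥ 0`, strict for some simple root. `lat`: `WFF.lat`, the `B i` are the first components of elements of `pos Φ`. `perm`, `cperm`: `WFF.perm` for `w` and its inverse, `WFF.dich`. `danti`: for the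
simple reflections by `WFF.simp` (the other positive coroots are permuted), in general by GENS. -/
def S_RVOF : Prop := ∀ (r : ℕ) (Φ : RT r) (B : Matrix (Fin r) (Fin r) ℤ), 1 ≤ r → IRD Φ B → RV (rd Φ) (pos Φ)

def M_RVOF : Prop := S_WFAC → S_RHOF → S_GENS → S_CHAM → S_QUAD → S_DENO → S_AVGF → S_RVOF

/-! ### the torus -/

/-- facts about the alternating sums -/
structure ATV {r : ℕ} (D : RD r) (P : RT r) : Prop where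
  real : ∀ (l : Fin r → ℤ) (θ : Fin r → ℝ), ATC D (fun j => l j) (fun i => θ i) = AT D l θ
  cont : ∀ l, Continuous (AT D l)
  anti : ∀ w ∈ D.W, ∀ l θ, AT D (w *ᵥ l) θ = (w.det : ℂ) * AT D l θ
  inv : ∀ w ∈ D.W, ∀ l θ, AT D l (fun j => ∑ i, (w i j : ℝ) * θ i) = (w.det : ℂ) * AT D l θ
  van : ∀ p ∈ P, ∀ l θ, ∀ k : ℤ, dz p.1 θ = k → AT D l θ = 0
  vanC : ∀ p ∈ P, ∀ ν ζ : Fin r → ℂ, ∑ j, (p.2 j : ℂ) * ν j = 0 → ATC D ν ζ = 0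
  cen : ∀ z : Fin r → ℝ, (∀ p ∈ P, ∃ k : ℤ, dz p.1 z = k) → ∀ l θ,
    AT D l (θ + z) = eu (dz l z) * AT D l θ
  ne : ∀ θ, AT D 1 θ ≠ 0 ↔ ∀ p ∈ P, nd (dz p.1 θ) ≠ 0

/-- ATFV. As ATF (ATF.lean); `cen` by `RV.lat`. `inv`: `dz (w' l) (wᵀ θ) = dz (w w' l) θ`. -/
def S_ATFV : Prop := ∀ (r : ℕ) (D : RD r) (P : RT r), RV D P → ATV D P

/-- DENV. As DENS (DENS.lean). -/
def S_DENV : Prop := ∀ (r : ℕ) (D : RD r) (P : RT r), RV D P →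
  (∃ u : Fin r → ℝ, ∀ p ∈ P, dz p.1 u ≠ 0) ∧
  ∀ F : (Fin r → ℝ) → ℂ, Continuous F → (∀ θ, (∀ p ∈ P, nd (dz p.1 θ) ≠ 0) → F θ = 0) → ∀ θ, F θ = 0

/-- ETAV. As ETAF. -/
def S_ETAV : Prop := ∀ (r : ℕ) (D : RD r) (P : RT r), RV D P → ∀ X : ℕ, 1 ≤ X → ETF D P X

def M_ETAV : Prop := S_PSIM → S_ETAV

/-- NSUV. As NSUM. -/
def S_NSUV : Prop := ∀ (r : ℕ) (D : RD r) (P : RT r), RV D P → NKF D P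

def M_NSUV : Prop := S_FEJA → S_ETAV → S_NSUV

/-- NBDV. As NBDY. -/
def S_NBDV : Prop := ∀ (r : ℕ) (D : RD r) (P : RT r), RV D P → ∃ (C : ℝ) (c : ℕ), 0 ≤ C ∧ 1 ≤ c ∧
  ∀ (J : ℕ) (x : {p // p ∈ P} → Fin (J + 1)) (t : ℝ) (ν : Fin r → ℤ) (b : Fin r → {p // p ∈ P}),
    (Matrix.of fun i => (b i).1.1).det ≠ 0 →
    ‖nm D P J x t ν‖ ≤ C * ∏ i, (WW (2 ^ (x (b i)).val) c t ^ ((1 : ℝ) / 2) / 2 ^ (x (b i)).val)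

def M_NBDV : Prop := S_WWF → S_WEYY → S_ABEY → S_WCLY → S_PSIM → S_FEJA → S_NBDV

/-- THBV. As THBY. -/
def S_THBV : Prop := ∀ (r : ℕ) (D : RD r) (P : RT r), RV D P → ∀ κ : ℝ, 0 ≤ κ → ∃ (C : ℝ) (c : ℕ), 0 ≤ C ∧
  1 ≤ c ∧ ∀ (J : ℕ) (t : ℝ) (ζ : Fin r → ℂ), (∀ i, |(ζ i).im| ≤ κ / 2 ^ J) →
    ‖ES (cb r ((r + 1) * 2 ^ J)) (tk D P J t) ζ‖ ≤ C * WW (2 ^ J) c t ^ ((r : ℝ) / 2)

def M_THBV : Prop := S_WWF → S_WEYX → S_ABEY → S_WCLF → S_WCLY → S_PSIM → S_THBV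

/-- HPRV. As HPRY. -/
def S_HPRV : Prop := ∀ (r : ℕ) (D : RD r) (P : RT r), RV D P → ∃ C : ℕ, ∀ (J K : ℕ)
  (x : {p // p ∈ P} → Fin (J + 1)) (t : ℝ) (ζ : Fin r → ℂ), C * 2 ^ J ≤ K →
    ES (cb r K) (nk D P J x t) ζ =
      ES (cb r ((r + 1) * 2 ^ J)) (tk D P J t) ζ * ∏ p, PJ J (x p).val (∑ i, (p.1.1 i : ℂ) * ζ i)

def M_HPRV : Prop := S_FEJA → S_ETAV → S_HPRV

/-- HBDV. As HBDY. -/
def S_HBDV : Prop := ∀ (r : ℕ) (D : RD r) (P : RT r), RV D P → ∀ κ : ℝ, 0 ≤ κ → ∃ (C : ℝ) (c K₀ : ℕ), 0 ≤ C ∧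
  1 ≤ c ∧ ∀ (J K : ℕ) (x : {p // p ∈ P} → Fin (J + 1)) (t : ℝ) (θ : Fin r → ℝ) (ζ : Fin r → ℂ),
    K₀ * 2 ^ J ≤ K → (∀ i, ‖ζ i - θ i‖ ≤ κ / 2 ^ J) →
    ‖ES (cb r K) (fun ν => (∏ p ∈ P, ((p.2 ⬝ᵥ ν : ℤ) : ℂ)) * nk D P J x t ν) ζ‖ ≤
      C * (((2 : ℝ) ^ J) ^ P.card * WW (2 ^ J) c t ^ ((r : ℝ) / 2) *
        ∏ p, mx J (x p).val (nd (dz p.1.1 θ)))

def M_HBDV : Prop := S_CAUC → S_THBV → S_HPRV → S_FEJB → S_HBDV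

/-- GDVV. As GDVA. -/
def S_GDVV : Prop := ∀ (r : ℕ) (D : RD r) (P : RT r), RV D P → ∃ C : ℝ, 0 ≤ C ∧ ∀ (T : Finset (Fin r → ℤ))
  (b : (Fin r → ℤ) → ℂ) (N : ℝ) (θ : Fin r → ℝ) (E : ℝ), 1 ≤ N → 0 ≤ E →
    (∀ (θ' : Fin r → ℝ) (k : ℤ), ∀ p ∈ P, dz p.1 θ' = k → ES T b (fun i => θ' i) = 0) →
    (∀ ζ : Fin r → ℂ, (∀ i, ‖ζ i - θ i‖ ≤ 1 / N) → ‖ES T b ζ‖ ≤ E) →
    ‖ES T b (fun i => θ i)‖ ≤ C * (E * ∏ p ∈ P, min 1 (N * nd (dz p.1 θ)))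

def M_GDVV : Prop := S_DENV → S_SCHW → S_GDVV

/-- FANV. As FANT. -/
def S_FANV : Prop := ∀ (r : ℕ) (D : RD r) (P : RT r), RV D P → ∀ (K : ℕ) (b : (Fin r → ℤ) → ℂ),
  (∀ w ∈ D.W, ∀ ν, b (w *ᵥ ν) = (w.det : ℂ) * b ν) → (∀ ν i, (K : ℤ) < |ν i| → b ν = 0) →
  ∀ θ : Fin r → ℝ, ES (cb r K) b (fun i => θ i) = ∑ ν ∈ bx (1 : Fin r → ℤ) K, b ν * AT D ν θ

/-- SUPV. As SUPY; now there is no `ψ`: the claim is the bound for `F θ = ∑ ν, dim ν nm ν AT ν θ` in the proof of SUPY. `D.dim` is the product of the coroots, without the denominator; `dim (w ν) = det w dim ν`: `danti`. -/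
def S_SUPV : Prop := ∀ (r : ℕ) (D : RD r) (P : RT r), RV D P → ∃ (C : ℝ) (c K₀ : ℕ), 0 ≤ C ∧ 1 ≤ c ∧
  ∀ (J K : ℕ) (x : {p // p ∈ P} → Fin (J + 1)) (t : ℝ) (θ : Fin r → ℝ), K₀ * 2 ^ J ≤ K →
    ‖∑ ν ∈ bx (1 : Fin r → ℤ) K, (D.dim ν : ℂ) * nm D P J x t ν * AT D ν θ‖ ≤
      C * (((2 : ℝ) ^ J) ^ P.card * WW (2 ^ J) c t ^ ((r : ℝ) / 2) * ∏ p, (2 : ℝ) ^ (x p).val) * ‖AT D 1 θ‖

def M_SUPV : Prop := S_DENV → S_ATFV → S_NSUV → S_HBDV → S_GDVV → S_FANV → S_SUPV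

end

end LGR
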