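import Pool.Agent.LGR.StB

/-!
# Simple compact Lie groups, block C: the estimate for a group with given characters
-/

namespace LGR

open STZ MeasureTheory Matrix Filter

open scoped ComplexConjugate Matrix Real Topology

noncomputable section

/-- the data of a group: `χ i` are all the irreducible characters of `H`, `wG (a i)` (in the coordinates of the fundamental weights) is the highest
weight of `χ i` plus `(1, …, 1)`. The image of `a` is the set of the `l` for which `l` (as a weight) is trivial on the finite group `Z` (the kernel of the map of the torus of the simply connected group to `H`). -/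
structure GX {N : ℕ} (H : Subgroup (SU N)) (c : ℝ) (d : ℕ) {r : ℕ} (D : RD r) (P : RT r) {ι : Type}
    (a : ι → Fin r → ℕ) (χ : ι → H → ℂ) (Z : Finset (Fin r → ℝ)) (k : ℝ) : Prop where
  closed : IsClosed (H : Set (SU N))
  kpos : 0 < k
  dimd : d = D.e + r
  frame : ∃ X : Fin d → Matrix (Fin N) (Fin N) ℂ, FrameH H c X
  inj : Function.Injective a
  irr : IrrFam χ
  tor : Dense {g : H | ∃ θ : Fin r → ℝ, AT D 1 θ ≠ 0 ∧ ∀ i, χ i g * AT D 1 θ = AT D (wG (a i)) θ}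
  zn : Z.Nonempty
  ind : ∀ l : Fin r → ℕ, (l ∈ Set.range a → ∀ z ∈ Z, eu (dz (wG l - 1) z) = 1) ∧
    (l ∉ Set.range a → ∑ z ∈ Z, eu (dz (wG l - 1) z) = 0)
  zroot : ∀ z ∈ Z, ∀ p ∈ P, ∃ m : ℤ, dz p.1 z = m
  one : ∀ i, χ i 1 * ((∏ p ∈ P, (p.2 ⬝ᵥ (1 : Fin r → ℤ)) : ℤ) : ℂ) = ((∏ p ∈ P, (p.2 ⬝ᵥ wG (a i)) : ℤ) : ℂ)
  cpl : ∀ (μ : Measure H) [IsProbabilityMeasure μ] [μ.IsMulLeftInvariant] (f : H → ℂ), Continuous f →
    (∀ i, Pr μ (KK χ) {i} f = 0) → f = 0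
  eig : ∀ X : Fin d → Matrix (Fin N) (Fin N) ℂ, FrameH H c X → ∀ i,
    EigH X (k * ((D.Q (wG (a i)) : ℝ) - D.Q 1)) (χ i)

/-- EIGW. As EIGX (EIGX.lean). -/
def S_EIGW : Prop := ∀ (N : ℕ) (H : Subgroup (SU N)) (c : ℝ) (d r : ℕ) (D : RD r) (P : RT r) (ι : Type)
  (a : ι → Fin r → ℕ) (χ : ι → H → ℂ) (Z : Finset (Fin r → ℝ)) (k : ℝ), RV D P → GX H c d D P a χ Z k →
  ∀ (μ : Measure H) [IsProbabilityMeasure μ] [μ.IsMulLeftInvariant]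
  (X : Fin d → Matrix (Fin N) (Fin N) ℂ), FrameH H c X → ∀ (κ : ℝ) (f : H → ℂ), EigH X κ f →
  ∃ S : Finset ι, (∀ i ∈ S, κ = k * ((D.Q (wG (a i)) : ℝ) - D.Q 1)) ∧ Pr μ (KK χ) S f = f

def M_EIGW : Prop := S_KB → S_KERI → S_CALH → S_GRH → S_EIGW

open Classical in
/-- the indices `i` with `a i` in the box -/
def ia {r : ℕ} {ι : Type} (a : ι → Fin r → ℕ) (K : ℕ) : Finset ι :=
  if h : {i | a i ∈ ib r K}.Finite then h.toFinset else ∅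

/-- the pieces of the kernel (for `-Q`: the time is `-t`) -/
def kw {N : ℕ} {H : Subgroup (SU N)} {r : ℕ} (D : RD r) (P : RT r) {ι : Type} (a : ι → Fin r → ℕ)
    (χ : ι → H → ℂ) (J K : ℕ) (y : {p // p ∈ P} → Fin (J + 1)) (t : ℝ) (g g' : H) : ℂ :=
  ∑ i ∈ ia a K, nm D P J y (-t) (wG (a i)) * KK χ i g g'

/-- facts about the pieces, for `K = K₀ 2^J` -/
structure KWF {N : ℕ} {H : Subgroup (SU N)} {r : ℕ} (D : RD r) (P : RT r) {ι : Type} (a : ι → Fin r → ℕ)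
    (χ : ι → H → ℂ) (μ : Measure H) (C : ℝ) (c K₀ J : ℕ) : Prop where
  cont : ∀ y, Continuous fun z : ℝ × H × H => kw D P a χ J (K₀ * 2 ^ J) y z.1 z.2.1 z.2.2
  sum : ∀ t g g', ∑ i ∈ ia a (K₀ * 2 ^ J), ((et P (2 ^ J) (wG (a i)) : ℝ) : ℂ) *
    (eu (t * ((-D.Q (wG (a i)) : ℤ) : ℝ)) * KK χ i g g') = ∑ y, kw D P a χ J (K₀ * 2 ^ J) y t g g'
  nn : ∀ i, 0 ≤ et P (2 ^ J) (wG (a i))
  ge : ∀ i, (∀ j, K₀ * (a i j + 1) ≤ 2 ^ J) → i ∈ ia a (K₀ * 2 ^ J) ∧ 1 ≤ et P (2 ^ J) (wG (a i))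
  sup : ∀ y t g g', ‖kw D P a χ J (K₀ * 2 ^ J) y t g g'‖ ≤
    C * (((2 ^ J : ℕ) : ℝ) ^ P.card * WW (2 ^ J) c t ^ ((r : ℝ) / 2) * ∏ p, (2 : ℝ) ^ (y p).val)
  opb : ∀ y t (b : Fin r → {p // p ∈ P}), (Matrix.of fun i => (b i).1.1).det ≠ 0 →
    ∀ u v : H → ℂ, Continuous u → Continuous v →
    ‖∫ g, conj (v g) * ∫ g', kw D P a χ J (K₀ * 2 ^ J) y t g g' * u g' ∂μ ∂μ‖ ≤
      (C * ∏ i, (WW (2 ^ (y (b i)).val) c t ^ ((1 : ℝ) / 2) / 2 ^ (y (b i)).val)) *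
        (√(nsq μ u) * √(nsq μ v))

/-- KWFG. As KYFG. The set in `ia` is finite because `a` is injective. `cont`: `χ i` is continuous (a character). `sup`: the set of the `g * g'⁻¹ = h` for which the bound holds is closed (both sides are continuous in `h`), so by `GX.tor` let `θ` be the point for `h`. Let `T = ∏ p.2·1 > 0`.
`KK χ i g g' = χ i 1 * χ i h`, `T * χ i 1 = dim (wG (a i))` (`one`, `dimD`), `χ i h * AT 1 θ = AT (wG (a i)) θ`. So `T * kw * AT 1 θ = ∑ ν ∈ bx 1 K, [ν - 1 ∈ range a] dim ν nm ν AT ν θ` (`wG` maps `ib r K` bijectively to `bx 1 K`). The indicator function is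
`(1/|Z|) ∑ z ∈ Z, eu (dz (ν - 1) z)` (`ind`), and `eu (dz (ν - 1) z) AT ν θ = eu (-(dz 1 z)) AT ν (θ + z)` (`cen`, `zroot`). So it is the mean of the `eu (-(dz 1 z)) F (θ + z)`, `F` the function of SUPV at the time `-t`; `‖AT 1 (θ + z)‖ = ‖AT 1 θ‖`. Divide by `‖AT 1 θ‖ > 0` (and by `T ≥ 1`). -/
def S_KWFG : Prop := ∀ (N : ℕ) (H : Subgroup (SU N)) (c : ℝ) (d r : ℕ) (D : RD r) (P : RT r) (ι : Type)
  (a : ι → Fin r → ℕ) (χ : ι → H → ℂ) (Z : Finset (Fin r → ℝ)) (k : ℝ), RV D P → GX H c d D P a χ Z k →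
  ∀ (μ : Measure H) [IsProbabilityMeasure μ] [μ.IsMulLeftInvariant],
  ∃ (C : ℝ) (c K₀ : ℕ), 0 ≤ C ∧ 1 ≤ c ∧ ∀ J : ℕ, KWF D P a χ μ C c K₀ J

def M_KWFG : Prop := S_WWF → S_KERI → S_ATFV → S_ETAV → S_NSUV → S_NBDV → S_SUPV → S_KOP → S_KWFG

/-- LOCW. As LOCY (LOCY.lean). The bound of the dimension `χ i 1 ≤ C sz ^ |P|`: `one`. -/
def S_LOCW : Prop := ∀ (N : ℕ) (H : Subgroup (SU N)) (c : ℝ) (d r : ℕ) (D : RD r) (P : RT r) (ι : Type)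
  (a : ι → Fin r → ℕ) (χ : ι → H → ℂ) (Z : Finset (Fin r → ℝ)) (k : ℝ), 3 ≤ r → RV D P →
  GX H c d D P a χ Z k → ∀ (μ : Measure H) [IsProbabilityMeasure μ] [μ.IsMulLeftInvariant],
    LOCH μ (KK χ) (D.e : ℝ) (fun i => wG (a i)) (fun l => -D.Q l)
      (max (2 + 8 / ((D.e : ℝ) + r)) (8 / (r : ℝ)))

def M_LOCW : Prop := S_KB → S_BERN → S_KERI → S_WWF → S_KWFG → S_GSUY → S_TTY → S_LEV → S_LOCW

/-- STRW. As STRY (STRY.lean). -/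
def S_STRW : Prop := ∀ (N : ℕ) (H : Subgroup (SU N)) (c : ℝ) (d r : ℕ) (D : RD r) (P : RT r) (ι : Type)
  (a : ι → Fin r → ℕ) (χ : ι → H → ℂ) (Z : Finset (Fin r → ℝ)) (k : ℝ), 3 ≤ r → RV D P →
  GX H c d D P a χ Z k → ∀ p : ℝ, 2 + 8 / (d : ℝ) < p → 8 / (r : ℝ) < p → StrG H c d p

def M_STRW : Prop := S_NQ → S_KB → S_HAAR → S_KERI → S_EIGW → S_ALLX → S_LOCW → S_STRW

end

end LGR
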