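import Pool.Agent.LGR.StC

/-!
# Simple compact Lie groups, block D: maximal tori of closed connected subgroups of `SU(N)`

`H` is a closed subgroup of `SU(N)`, `lie H` its Lie algebra (a set of matrices), `ex X t = exp (t X)` as an element of `SU(N)` (for `X ∈ su N`, in particular for `X ∈ lie H`; facts: `STZ.t_EXP`, structure `EXF`). Elements of `SU N` are matrices with a proof: `g.1`; `g⁻¹` is the
conjugate transpose. Module `X` proves `theorem t_X : M_X` (or `t_X : S_X` if there is no `M_X`) in the file `Pool/Agent/LGR/X.lean`, namespace `LGR`.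
-/

namespace LGR

open STZ MeasureTheory Matrix Filter

open scoped ComplexConjugate Matrix Real Topology

noncomputable section

/-- facts about the Lie algebra of a closed subgroup -/
structure LIF {N : ℕ} (H : Subgroup (SU N)) : Prop where
  su : ∀ X ∈ lie H, X ∈ su N
  zero : (0 : Matrix (Fin N) (Fin N) ℂ) ∈ lie H
  add : ∀ X ∈ lie H, ∀ Y ∈ lie H, X + Y ∈ lie H
  smul : ∀ (s : ℝ), ∀ X ∈ lie H, (s : ℂ) • X ∈ lie H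
  br : ∀ X ∈ lie H, ∀ Y ∈ lie H, X * Y - Y * X ∈ lie H
  ad : ∀ h ∈ H, ∀ X ∈ lie H, h.1 * X * h.1ᴴ ∈ lie H

/-- LIEB. `ad`: `exp (t h X hᴴ) = h exp (t X) hᴴ`. `smul`: clear. `add`: `exp (t (X + Y))` is the limit of `(exp (t X / n) exp (t Y / n))^n ∈ H` (Trotter; `‖A^n - B^n‖ ≤ n ‖A - B‖ C` for `A = exp (X/n) exp (Y/n)`, `B = exp ((X+Y)/n)`, `‖A - B‖ ≤ C / n²`), and `H` is closed. `br`: the matrices
`exp (s X) Y exp (-s X)` are in the real subspace `lie H` (closed, as it is finite dimensional), the derivative at `s = 0` is `X Y - Y X`. -/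
def S_LIEB : Prop := ∀ (N : ℕ) (H : Subgroup (SU N)), IsClosed (H : Set (SU N)) → LIF H

/-- CLSU. The closed subgroup theorem. Suppose it is false: `g k ∈ H`, `g k → 1`, not of this form. Let `V` be the orthogonal complement of `lie H` in the real space of all skew-Hermitian matrices of trace `0`. The map `(X, Y) ↦ exp X exp Y` of `lie H × V` is a local homeomorphism at `0`
onto a neighbourhood of `1` in `SU(N)` (inverse function theorem for `(X, Y) ↦ exp X exp Y - 1` or for the logarithm of it; or: `log (exp X exp Y) = X + Y + O(‖(X,Y)‖²)` with a contraction argument, or minimise `‖exp (-X) g - 1‖` over small `X ∈ lie H`: for `g = exp Z` near `1` let `X` be a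
minimum, `exp (-X) g = exp Y`; then `Y` is nearly orthogonal to `lie H`: `|⟨Y, U⟩| ≤ C ‖Y‖² ‖U‖` for `U ∈ lie H`, which is enough). So `g k = exp (X k) exp (Y k)`, `X k, Y k → 0`, `Y k ≠ 0`, `exp (Y k) ∈ H`. A limit `Y` of a subsequence of `Y k / ‖Y k‖` is in `V` (orthogonal to `lie H`), and
`exp (t Y) = lim exp (Y k) ^ n_k ∈ H`, `n_k = ⌊t / ‖Y k‖⌋`, so `Y ∈ lie H`, a contradiction. -/
def S_CLSU : Prop := ∀ (N : ℕ) (H : Subgroup (SU N)), IsClosed (H : Set (SU N)) → ∀ ε : ℝ, 0 < ε →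
  ∃ δ : ℝ, 0 < δ ∧ ∀ g ∈ H, (∀ i j, ‖g.1 i j - (1 : Matrix (Fin N) (Fin N) ℂ) i j‖ < δ) →
    ∃ X ∈ lie H, (∀ i j, ‖X i j‖ < ε) ∧ ex X 1 = g

def M_CLSU : Prop := S_LIEB → S_CLSU

/-- LEMC. `H` is compact; let `h ∈ H` be a maximum of `- Re tr (h X hᴴ Y)`, `Z = h X hᴴ ∈ lie H`. For `U ∈ lie H` the derivative of `s ↦ - Re tr (exp (s U) Z exp (-s U) Y)` at `0` is `- Re tr ((U Z - Z U) Y) = - Re tr (U (Z Y - Y Z))`, so this is `0`. `U = C = Z Y - Y Z ∈ lie H`, `Cᴴ = -C`: `tr (C Cᴴ) = 0`, `C = 0`. -/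
def S_LEMC : Prop := ∀ (N : ℕ) (H : Subgroup (SU N)), IsClosed (H : Set (SU N)) → ∀ X ∈ lie H, ∀ Y ∈ lie H,
  ∃ h ∈ H, (h.1 * X * h.1ᴴ) * Y = Y * (h.1 * X * h.1ᴴ)

def M_LEMC : Prop := S_LIEB → S_LEMC

/-- LEMT. Let `t ∈ H`. For `g ∈ H` near `t` let `h ∈ H` be a minimum of `‖h g hᴴ - t‖` (Hilbert-Schmidt norm; the square is `2 N - 2 Re tr (h g hᴴ tᴴ)`), `g' = h g hᴴ`. `‖g' - t‖ ≤ ‖g - t‖`, so by CLSU `g' = t exp Y`, `Y ∈ lie H` small. For `U ∈ lie H`: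
`0 = Re tr ((U g' - g' U) tᴴ) = Re tr (U (g' tᴴ - tᴴ g')) = Re tr (U (exp A - exp Y))`, `A = t Y tᴴ` (`g' tᴴ = t exp(Y) tᴴ = exp A`, `tᴴ g' = exp Y`). Take `U = A - Y ∈ lie H`. `‖exp A - exp Y - (A - Y)‖ ≤ C ε ‖A - Y‖` if `‖A‖, ‖Y‖ ≤ ε ≤ 1`, and `Re tr ((A - Y)(A - Y)) = -‖A - Y‖²`;
so `‖A - Y‖² (1 - C ε) ≤ 0`, `A = Y`. -/
def S_LEMT : Prop := ∀ (N : ℕ) (H : Subgroup (SU N)), IsClosed (H : Set (SU N)) → ∀ t ∈ H, ∃ δ : ℝ, 0 < δ ∧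
  ∀ g ∈ H, (∀ i j, ‖g.1 i j - t.1 i j‖ < δ) → ∃ h ∈ H, ∃ Y ∈ lie H,
    t.1 * Y = Y * t.1 ∧ h * g * h⁻¹ = t * ex Y 1

def M_LEMT : Prop := S_LIEB → S_CLSU → S_LEMT

/-- the root data of `H`: `Hc j` are the simple coroots (Hermitian matrices), `E p` the root vectors -/
structure LRD {N : ℕ} (H : Subgroup (SU N)) {r : ℕ} (Φ : RT r) (B : Matrix (Fin r) (Fin r) ℤ)
    (Hc : Fin r → Matrix (Fin N) (Fin N) ℂ) (E : (Fin r → ℤ) × (Fin r → ℤ) → Matrix (Fin N) (Fin N) ℂ) : Prop where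
  ird : IRD Φ B
  herm : ∀ j, (Hc j)ᴴ = Hc j
  mem : ∀ j, Complex.I • Hc j ∈ lie H
  comm : ∀ i j, Hc i * Hc j = Hc j * Hc i
  per : ∀ j, NormedSpace.exp ((2 * π * Complex.I : ℂ) • Hc j) = 1
  lin : LinearIndependent ℝ Hc
  star : ∀ p ∈ Φ, E (-p.1, -p.2) = (E p)ᴴ
  ead : ∀ p ∈ Φ, ∀ j, Hc j * E p - E p * Hc j = (p.1 j : ℂ) • E p
  cor : ∀ p ∈ Φ, E p * (E p)ᴴ - (E p)ᴴ * E p = ∑ j, (p.2 j : ℂ) • Hc j
  emem : ∀ p ∈ Φ, E p - (E p)ᴴ ∈ lie H ∧ Complex.I • (E p + (E p)ᴴ) ∈ lie H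
  span : ∀ X ∈ lie H, ∃ (x : Fin r → ℝ) (z : (Fin r → ℤ) × (Fin r → ℤ) → ℂ),
    X = ∑ j, ((x j : ℂ) * Complex.I) • Hc j + ∑ p ∈ pos Φ, (z p • E p - conj (z p) • (E p)ᴴ)

/-- an element of the Cartan algebra -/
def hx {N r : ℕ} (Hc : Fin r → Matrix (Fin N) (Fin N) ℂ) (x : Fin r → ℝ) : Matrix (Fin N) (Fin N) ℂ :=
  ∑ j, ((x j : ℂ) * Complex.I) • Hc j

/-- the map of the torus of the simply connected group to `SU(N)` -/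
def ta {N r : ℕ} (Hc : Fin r → Matrix (Fin N) (Fin N) ℂ) (θ : Fin r → ℝ) : SU N :=
  ex (hx Hc fun j => 2 * π * θ j) 1

/-- facts about `hx` and `ta` -/
structure TAF {N : ℕ} (H : Subgroup (SU N)) {r : ℕ} (Φ : RT r) (Hc : Fin r → Matrix (Fin N) (Fin N) ℂ)
    (E : (Fin r → ℤ) × (Fin r → ℤ) → Matrix (Fin N) (Fin N) ℂ) : Prop where
  hmem : ∀ x, hx Hc x ∈ lie H
  mem : ∀ θ, ta Hc θ ∈ H
  coe : ∀ θ, (ta Hc θ).1 = NormedSpace.exp (hx Hc fun j => 2 * π * θ j)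
  cont : Continuous (ta Hc)
  add : ∀ θ θ', ta Hc (θ + θ') = ta Hc θ * ta Hc θ'
  int : ∀ n : Fin r → ℤ, ta Hc (fun j => n j) = 1
  ade : ∀ p ∈ Φ, ∀ x, hx Hc x * E p - E p * hx Hc x = (((∑ j, (p.1 j : ℝ) * x j : ℝ) : ℂ) * Complex.I) • E p
  Ade : ∀ p ∈ Φ, ∀ θ, (ta Hc θ).1 * E p * (ta Hc θ).1ᴴ = eu (dz p.1 θ) • E p
  orth : ∀ p ∈ Φ, ∀ q ∈ Φ, p ≠ q → (E p * (E q)ᴴ).trace = 0
  orh : ∀ p ∈ Φ, ∀ j, (E p * Hc j).trace = 0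
  tp : ∀ p ∈ Φ, ∀ j, (Hc j * ∑ i, (p.2 i : ℂ) • Hc i).trace = (p.1 j : ℂ) * (E p * (E p)ᴴ).trace
  pos : ∀ p ∈ Φ, 0 < (E p * (E p)ᴴ).trace.re ∧ (E p * (E p)ᴴ).trace.im = 0
  cent : ∀ x : Fin r → ℝ, (∀ p ∈ Φ, ∑ j, (p.1 j : ℝ) * x j ≠ 0) → ∀ Y ∈ lie H, Y * hx Hc x = hx Hc x * Y →
    ∃ y, Y = hx Hc y
  reg : ∃ x : Fin r → ℝ, (∀ p ∈ Φ, ∑ j, (p.1 j : ℝ) * x j ≠ 0)

/-- TAUF. `add`: the `Hc j` commute. `Ade`: `exp (ad X) E = e^(i p.1·x) E` (e.g. `X E = E (X + c)`, so `exp(X) E = E exp(X + c)`). `orth`: `[Hc j, ·]` is symmetric for `tr (A Bᴴ)`, and `p.1 j ≠ q.1 j` for some `j` (`red`, if `p.1 = q.1` then `q = p`). `orh`: `tr ([Hc j, E] Hc i) = 0`. `tp`: `tr (Hc j [E, Eᴴ]) = tr ([Hc j, E] Eᴴ)`.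
`pos`: `E p ≠ 0` because `∑ p.2 j • Hc j ≠ 0` (`lin`, `two`). `cent`: `LRD.span`; `[Y, X] = 0` and `orth` give `z p (p.1·x) = 0`. `reg`: a finite union of hyperplanes is not everything. -/
def S_TAUF : Prop := ∀ (N : ℕ) (H : Subgroup (SU N)) (r : ℕ) (Φ : RT r) (B : Matrix (Fin r) (Fin r) ℤ)
  (Hc : Fin r → Matrix (Fin N) (Fin N) ℂ) (E : (Fin r → ℤ) × (Fin r → ℤ) → Matrix (Fin N) (Fin N) ℂ),
  IsClosed (H : Set (SU N)) → LRD H Φ B Hc E → TAF H Φ Hc E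

def M_TAUF : Prop := S_LIEB → S_WFAC → S_TAUF

/-- CONJ. Every element is conjugate to an element of the torus. Let `S` be the set of the `h ta(θ) h⁻¹`. It is closed (the image of the compact set `H × [0, 1]^r` by `TAF.int`, `add`). It is open in `H`: by conjugation at `t = ta θ`; by LEMT an element `g ∈ H` near `t` is conjugate to `t exp Y`, `Y ∈ lie H`
commuting with `t`. Let `H' = {z ∈ H : z t = t z}`, a closed subgroup; `Y` and `X₀ = hx x` (`TAF.reg`) are in `lie H'`. LEMC for `H'`, `Y`, `X₀`: `z Y zᴴ` commutes with `X₀` for some `z ∈ H'`, so `z Y zᴴ = hx y` by `cent`, and `z t exp(Y) z⁻¹ = t exp (hx y) ∈` the torus. `H` is connected. -/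
def S_CONJ : Prop := ∀ (N : ℕ) (H : Subgroup (SU N)) (r : ℕ) (Φ : RT r) (B : Matrix (Fin r) (Fin r) ℤ)
  (Hc : Fin r → Matrix (Fin N) (Fin N) ℂ) (E : (Fin r → ℤ) × (Fin r → ℤ) → Matrix (Fin N) (Fin N) ℂ),
  IsClosed (H : Set (SU N)) → IsConnected (H : Set (SU N)) → LRD H Φ B Hc E →
  ∀ g ∈ H, ∃ h ∈ H, ∃ θ : Fin r → ℝ, g = h * ta Hc θ * h⁻¹

def M_CONJ : Prop := S_LIEB → S_LEMC → S_LEMT → S_TAUF → S_CONJ

/-- REFH. The reflections. `n = exp (π/2 A)`, `A = E p - (E p)ᴴ ∈ lie H`, `h = ∑ p.2 j • Hc j = [E, Eᴴ]`. `[A, h] = -2 (E + Eᴴ)`, `[A, E + Eᴴ] = 2 h` (`two`). With `F s = exp (sA) h exp (-sA)`, `G s = exp (sA) (E + Eᴴ) exp (-sA)`: `F' = -2 G`, `G' = 2 F`, so `cos (2s) F s + sin (2s) G s` is constant, `= h`; `s = π/2`: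
`n h n⁻¹ = -h`. For `X = hx x` let `c = p.1·x`: `X - (c/2) i h` commutes with `E` and `Eᴴ`, so with `n`, and `n X n⁻¹ = X - c i h = hx (x - c p.2)`. -/
def S_REFH : Prop := ∀ (N : ℕ) (H : Subgroup (SU N)) (r : ℕ) (Φ : RT r) (B : Matrix (Fin r) (Fin r) ℤ)
  (Hc : Fin r → Matrix (Fin N) (Fin N) ℂ) (E : (Fin r → ℤ) × (Fin r → ℤ) → Matrix (Fin N) (Fin N) ℂ),
  IsClosed (H : Set (SU N)) → LRD H Φ B Hc E →
  ∀ p ∈ Φ, ∃ n ∈ H, ∀ x : Fin r → ℝ,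
    n.1 * hx Hc x * n.1ᴴ = hx Hc (fun j => x j - (∑ i, (p.1 i : ℝ) * x i) * p.2 j)

def M_REFH : Prop := S_TAUF → S_REFH

/-- WREP. Products of the elements of REFH: every `w ∈ WF Φ` is realised, `(rf p)ᵀ x = x - (p.1·x) p.2`. The second form: `ta` is `exp` of `hx`. (`n` for `w`, `n'` for `w'`: `n' n` acts by `x ↦ w'ᵀ wᵀ x = (w w')ᵀ x`.) -/
def S_WREP : Prop := ∀ (N : ℕ) (H : Subgroup (SU N)) (r : ℕ) (Φ : RT r) (B : Matrix (Fin r) (Fin r) ℤ)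
  (Hc : Fin r → Matrix (Fin N) (Fin N) ℂ) (E : (Fin r → ℤ) × (Fin r → ℤ) → Matrix (Fin N) (Fin N) ℂ),
  IsClosed (H : Set (SU N)) → LRD H Φ B Hc E →
  ∀ w ∈ WF Φ, ∃ n ∈ H, (∀ x : Fin r → ℝ, n.1 * hx Hc x * n.1ᴴ = hx Hc (fun j => ∑ i, (w i j : ℝ) * x i)) ∧
    ∀ θ : Fin r → ℝ, n * ta Hc θ * n⁻¹ = ta Hc (fun j => ∑ i, (w i j : ℝ) * θ i)

def M_WREP : Prop := S_WFAC → S_TAUF → S_REFH → S_WREP

/-- AUTN. Let `n ∈ H` normalise the Cartan algebra. For a simple root `s = (B j, Pi.single j 1)` the matrix `F = n E(s) nᴴ` satisfies `[X, F] = n [nᴴ X n, E(s)] nᴴ = c(X) F` for all `X = hx x`, with `c ≠ 0` (`nᴴ X n` is again some `hx x'`: the map `x ↦ x'` is injective and linear on `ℝ^r`, so bijective). `F` is a complex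
combination of the `Hc j` and the `E q`, `q ∈ Φ` (`F = (F - Fᴴ)/2 + (F + Fᴴ)/2`, where `F - Fᴴ` and `i (F + Fᴴ)` are in `lie H`; `span`), so it is a multiple of one `E q` (`TAF.orth`, different `p` have different `p.1`). `F = c E(q)`, and `n Hc j nᴴ = [F, Fᴴ] = |c|² ∑ q.2 i Hc i`; `[n Hc j nᴴ, F] = 2 F`
gives `|c|² = 1`. So `n Hc j nᴴ = ∑ i, q_j.2 i Hc i` with integers; let `u j i = q_j.2 i`. The same for every `p ∈ Φ` instead of `s`: `n (∑ p.2 j Hc j) nᴴ = ∑ q.2 i Hc i`, so `q.2 = uᵀ p.2` (`lin`), i.e. `q.2·l = p.2·(u l)`, and `u q.1 = p.1` (the root of `F` is `x ↦ p.1·x'`). This gives `auto` for the map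
`p ↦ q`, which is a bijection of the finite set `Φ`. -/
def S_AUTN : Prop := ∀ (N : ℕ) (H : Subgroup (SU N)) (r : ℕ) (Φ : RT r) (B : Matrix (Fin r) (Fin r) ℤ)
  (Hc : Fin r → Matrix (Fin N) (Fin N) ℂ) (E : (Fin r → ℤ) × (Fin r → ℤ) → Matrix (Fin N) (Fin N) ℂ),
  IsClosed (H : Set (SU N)) → LRD H Φ B Hc E →
  ∀ n ∈ H, (∀ x : Fin r → ℝ, ∃ y, n.1 * hx Hc x * n.1ᴴ = hx Hc y) →
    ∃ u : Matrix (Fin r) (Fin r) ℤ, (∀ x : Fin r → ℝ, n.1 * hx Hc x * n.1ᴴ = hx Hc (fun j => ∑ i, (u i j : ℝ) * x i)) ∧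
      (∃ u', u' * u = 1 ∧ u * u' = 1) ∧
      (∀ p ∈ Φ, ∃ q ∈ Φ, u *ᵥ p.1 = q.1 ∧ ∀ l, q.2 ⬝ᵥ (u *ᵥ l) = p.2 ⬝ᵥ l)

def M_AUTN : Prop := S_LIEB → S_TAUF → S_AUTN

/-- NORX. `X₀ = hx x` regular, `H' ≤ H` closed, `X₀` and `g X₀ gᴴ` in `lie H'`. LEMC for `H'`: `z X₀ zᴴ` commutes with `g X₀ gᴴ` for some `z ∈ H'`; with `m = g⁻¹ z` the matrix `m X₀ mᴴ` commutes with `X₀`, so `m X₀ mᴴ = hx y` (`cent`). For every `X = hx x'`: `mᴴ X m` commutes with `X₀` (`X` commutes with `m X₀ mᴴ`), so it is some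
`hx y'`. `m⁻¹ = z⁻¹ g`. -/
def S_NORX : Prop := ∀ (N : ℕ) (H : Subgroup (SU N)) (r : ℕ) (Φ : RT r) (B : Matrix (Fin r) (Fin r) ℤ)
  (Hc : Fin r → Matrix (Fin N) (Fin N) ℂ) (E : (Fin r → ℤ) × (Fin r → ℤ) → Matrix (Fin N) (Fin N) ℂ),
  IsClosed (H : Set (SU N)) → LRD H Φ B Hc E →
  ∀ H' : Subgroup (SU N), H' ≤ H → IsClosed (H' : Set (SU N)) → ∀ x : Fin r → ℝ,
    (∀ p ∈ Φ, ∑ j, (p.1 j : ℝ) * x j ≠ 0) → ∀ g ∈ H, hx Hc x ∈ lie H' → g.1 * hx Hc x * g.1ᴴ ∈ lie H' →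
    ∃ z ∈ H', ∀ x' : Fin r → ℝ, ∃ y, (z⁻¹ * g).1 * hx Hc x' * (z⁻¹ * g).1ᴴ = hx Hc y

def M_NORX : Prop := S_LIEB → S_LEMC → S_TAUF → S_NORX

/-- CHFX. `n` fixes `X₀ = hx (∑ p ∈ pos Φ, p.2)` (`u` permutes `pos Φ`), which is regular by RHOF. By CONJ `n = h ta(φ) h⁻¹`. `H' = {z ∈ H : z n = n z}` is closed, `X₀` and `h X₀ hᴴ` are in `lie H'`. NORX: `m = z⁻¹ h` normalises the Cartan algebra, `z ∈ H'`, and `n = z⁻¹ n z = m ta(φ) m⁻¹ = exp (hx y)` for some `y`, so `n` commutes with all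
`hx x`, `u = 1` (`lin`). -/
def S_CHFX : Prop := ∀ (N : ℕ) (H : Subgroup (SU N)) (r : ℕ) (Φ : RT r) (B : Matrix (Fin r) (Fin r) ℤ)
  (Hc : Fin r → Matrix (Fin N) (Fin N) ℂ) (E : (Fin r → ℤ) × (Fin r → ℤ) → Matrix (Fin N) (Fin N) ℂ),
  IsClosed (H : Set (SU N)) → IsConnected (H : Set (SU N)) → LRD H Φ B Hc E →
  ∀ n ∈ H, ∀ u : Matrix (Fin r) (Fin r) ℤ,
    (∀ x : Fin r → ℝ, n.1 * hx Hc x * n.1ᴴ = hx Hc (fun j => ∑ i, (u i j : ℝ) * x i)) →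
    (∃ u', u' * u = 1 ∧ u * u' = 1) →
    (∀ p ∈ pos Φ, ∃ q ∈ pos Φ, u *ᵥ p.1 = q.1 ∧ ∀ l, q.2 ⬝ᵥ (u *ᵥ l) = p.2 ⬝ᵥ l) → u = 1

def M_CHFX : Prop := S_LIEB → S_WFAC → S_RHOF → S_TAUF → S_CONJ → S_NORX → S_CHFX

/-- WEYC. Conjugate elements of the torus are conjugate under the Weyl group. `H' = {z ∈ H : z t' = t' z}`, `t' = ta θ'`, `x` from `reg`; `X₀ = hx x` and `g X₀ gᴴ` are in `lie H'` (`g ta(θ) g⁻¹ = t'`). NORX: `n = z⁻¹ g` normalises, `z ∈ H'`, and `n ta(θ) n⁻¹ = z⁻¹ t' z = t'`. `u` from AUTN, so `ta (uᵀ θ) = t'`. The weight `u 1` is regular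
(`q.2·(u 1) = p.2·1 ≠ 0`); by CHAM there is a `w ∈ WF Φ` with `w (u 1)` dominant; then `v = w u` maps `pos Φ` to `pos Φ` (`q.2·(v 1) = p.2·1 > 0`). `v` belongs to the element `n n_w` of `H` (WREP). CHFX: `v = 1`, `u = w⁻¹ ∈ WF Φ`. -/
def S_WEYC : Prop := ∀ (N : ℕ) (H : Subgroup (SU N)) (r : ℕ) (Φ : RT r) (B : Matrix (Fin r) (Fin r) ℤ)
  (Hc : Fin r → Matrix (Fin N) (Fin N) ℂ) (E : (Fin r → ℤ) × (Fin r → ℤ) → Matrix (Fin N) (Fin N) ℂ),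
  IsClosed (H : Set (SU N)) → IsConnected (H : Set (SU N)) → LRD H Φ B Hc E →
  ∀ g ∈ H, ∀ θ θ' : Fin r → ℝ, g * ta Hc θ * g⁻¹ = ta Hc θ' →
    ∃ w ∈ WF Φ, ta Hc (fun j => ∑ i, (w i j : ℝ) * θ i) = ta Hc θ'

def M_WEYC : Prop := S_LIEB → S_WFAC → S_CHAM → S_TAUF → S_WREP → S_AUTN → S_NORX → S_CHFX → S_WEYC

/-- CLFX. Extension of class functions. The map `(h, θ) ↦ h ta(θ) h⁻¹` from `H × [0,1]^r` onto `H` (CONJ) is continuous and closed (compact), so a quotient map; `f (h ta(θ) h⁻¹) = F θ` is well defined: if `h ta(θ) h⁻¹ = h' ta(θ') h'⁻¹` then by WEYC `ta (wᵀ θ) = ta θ'`, so `F θ' = F (wᵀ θ) = F θ`. -/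
def S_CLFX : Prop := ∀ (N : ℕ) (H : Subgroup (SU N)) (r : ℕ) (Φ : RT r) (B : Matrix (Fin r) (Fin r) ℤ)
  (Hc : Fin r → Matrix (Fin N) (Fin N) ℂ) (E : (Fin r → ℤ) × (Fin r → ℤ) → Matrix (Fin N) (Fin N) ℂ),
  IsClosed (H : Set (SU N)) → IsConnected (H : Set (SU N)) → LRD H Φ B Hc E →
  ∀ F : (Fin r → ℝ) → ℂ, Continuous F → (∀ θ θ', ta Hc θ = ta Hc θ' → F θ = F θ') →
    (∀ w ∈ WF Φ, ∀ θ, F (fun j => ∑ i, (w i j : ℝ) * θ i) = F θ) →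
    ∃ f : H → ℂ, Continuous f ∧ (∀ g h, f (h * g * h⁻¹) = f g) ∧ ∀ (g : H) (θ : Fin r → ℝ), g.1 = ta Hc θ → f g = F θ

def M_CLFX : Prop := S_TAUF → S_CONJ → S_WEYC → S_CLFX

end

end LGR
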