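import Pool.Agent.LGR.StC

/-!
# Simple compact Lie groups, block E: rank two

Module `X` proves `theorem t_X : M_X` (or `t_X : S_X` if there is no `M_X`) in the file `Pool/Agent/LGR/X.lean`, namespace `LGR`.
-/

namespace LGR

open STZ MeasureTheory Matrix Filter

open scoped ComplexConjugate Matrix Real Topology

noncomputable section

/-- INTK. The analogue of INTJ (INTJ.lean) for `b = 1`, `a > 1`. We may assume `ε ≤ a - 1`. The right side is `C N^(a+ε) M^(a-ε)`. (0) `∫ WW N ^ a ≤ C N^(a+η)` for every `η > 0`: Hölder's inequality between `WWF.int1` and WINT for an exponent `σ > 2` close to `2`.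
If `2 M > N`: `WW M ≤ WW N` and WINT with the exponent `a + 1 > 2`. Otherwise, by S_WPT for `WW M` (every `t ∈ [0, 1]` is near some `ρ'`, `q' ≤ 2 c M`, `|t - ρ'| ≤ 1/(2cMq')`, `-1 ≤ numerator ≤ q' + 1`), the integral is at most
`C M (1 + log M) ∫ WW N ^ a + C ∑_(ρ') (M²/q') J(ρ')`, `J(ρ') = ∫_(|t - ρ'| ≤ 1/(2cMq')) WW N ^ a (1 + M²|t - ρ'|)^(-3/4)`; the first term by (0) with `η = ε/2` (`M ≤ M^(a-ε)`). The integral `J` as in LOCI (LOCI.lean; there `b ≥ 3/2`): let `ρ` be a Dirichlet approximation of `t` of the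
level `N`, `WW N c t ^ a ≤ C (N (1 + log N))^a + C (N²/q)^a (1 + N²|t - ρ|)^(-3a/4)`. (i) The first part: `≤ C (N (1 + log N))^a M⁻² (M/q')^(1/4)`, as `∫_(|x| ≤ 1/(2cMq')) (1 + M²|x|)^(-3/4) ≤ C M⁻² (M/q')^(1/4)`. (ii) `ρ = ρ'`: `3a/4 < 1`, `3a/4 + 3/4 > 1`, so
`≤ C q'^(-a) N^(2a) N^(-3a/2) M^(3a/2-2) = C q'^(-a) N^(2a-2) (N/M)^(2-3a/2)`. (iii) `ρ ≠ ρ'`: `q ≥ cM`; the shells `|t - ρ'| ≈ 2^k M⁻² ≤ 1/(2cMq')`; at most `C Q² 2^k M⁻²` of the `ρ` with `q ∈ [Q, 2Q)` (FRCN), each with the integral `≤ C N^(5a/4-1) Q^(-1-a/4)`; the sum over the dyadic `Q ≤ 2cN` is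
`≤ C 2^k M⁻² N^a`, with the weights `2^(-3k/4)` the sum over `k` is `≤ C M⁻² N^a (M/q')^(1/4)`. The sum over `ρ'` (at most `q' + 3` for every `q'`): `∑_(q' ≤ 2cM) (q' + 3)/q' (M/q')^(1/4) ≤ C M`, `∑ (q' + 3) q'^(-1-a) ≤ C`. So the second term is at most
`C (N (1 + log N))^a M + C M² N^(2a-2) (N/M)^(2-3a/2)`, and `(1 + log N)^a ≤ C N^ε`, `M ≤ M^(a-ε)`, `2 - 3a/2 ≤ 2 - a`. -/
def S_INTK : Prop := ∀ (c : ℕ) (a ε : ℝ), 1 ≤ c → 1 < a → a < 4 / 3 → 0 < ε →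
  ∃ C : ℝ, 0 ≤ C ∧ ∀ N M : ℕ, 1 ≤ M → M ≤ N →
    ∫ t in (0 : ℝ)..1, WW N c t ^ a * WW M c t ≤
      C * ((N : ℝ) ^ (2 * a - 2) * (M : ℝ) ^ (2 : ℝ) * ((N : ℝ) / M) ^ (2 - a + ε))

def M_INTK : Prop := S_WPT → S_WINT → S_WWF → S_FRCN → S_INTK

/-- GSUV. As GSUY (GSUY.lean) for `r = 2`, with INTK: `κ = p/2 - 1`, `a = κ r/2 = κ ∈ (1, 4/3)`, `b = r/2 = 1`, `γ = 2 - a + ε`, `δ = κ - γ/q > 0` for small `ε` as `κ (q + 1) > 2`. -/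
def S_GSUV : Prop := ∀ (ι : Type) [Fintype ι] [DecidableEq ι] (r c : ℕ) (p C : ℝ), r = 2 → 1 ≤ c → 0 ≤ C →
  1 ≤ Fintype.card ι → 4 < p → p < 14 / 3 →
  ∃ C' : ℝ, 0 ≤ C' ∧ ∀ (J : ℕ) (b : (ι → Fin (J + 1)) → Fin r → ι),
    (∀ x : ι → Fin (J + 1), Fintype.card ι * ∑ i, (J - (x (b x i)).val) ≤ r * ∑ j, (J - (x j).val)) →
    ∃ Γ : (ι → Fin (J + 1)) → ℝ,
      (∀ x : ι → Fin (J + 1), ∫ t in (0 : ℝ)..1, (C * (((2 ^ J : ℕ) : ℝ) ^ Fintype.card ι * WW (2 ^ J) c t ^ ((r : ℝ) / 2) *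
          ∏ j, (2 : ℝ) ^ (x j).val)) ^ (p / 2 - 1) *
        (C * ∏ i, (WW (2 ^ (x (b x i)).val) c t ^ ((1 : ℝ) / 2) / 2 ^ (x (b x i)).val)) ≤ Γ x) ∧
      (∀ x, 0 ≤ Γ x) ∧
      ∑ x, Γ x ^ (2 / p) ≤
        C' * ((2 ^ J : ℕ) : ℝ) ^ (((2 * (Fintype.card ι : ℝ) + r) * (p / 2 - 1) - 2) * (2 / p))

def M_GSUV : Prop := S_WWF → S_INTK → S_GSUV

/-- LOCV. As LOCW (LOCW.lean) for `r = 2`: `max (2 + 8/(e + r)) (8/r) = 4` (if `e ≥ 2`; `|P| ≥ r` by `sim`). Let `p' > 4` be the exponent, choose `p` with `4 < p < min p' (14/3)`, GSUV instead of GSUY. -/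
def S_LOCV : Prop := ∀ (N : ℕ) (H : Subgroup (SU N)) (c : ℝ) (d r : ℕ) (D : RD r) (P : RT r) (ι : Type)
  (a : ι → Fin r → ℕ) (χ : ι → H → ℂ) (Z : Finset (Fin r → ℝ)) (k : ℝ), r = 2 → RV D P →
  GX H c d D P a χ Z k → ∀ (μ : Measure H) [IsProbabilityMeasure μ] [μ.IsMulLeftInvariant],
    LOCH μ (KK χ) (D.e : ℝ) (fun i => wG (a i)) (fun l => -D.Q l)
      (max (2 + 8 / ((D.e : ℝ) + r)) (8 / (r : ℝ)))

def M_LOCV : Prop := S_KB → S_BERN → S_KERI → S_WWF → S_KWFG → S_GSUV → S_TTY → S_LEV → S_LOCV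

/-- STRV. As STRW (STRW.lean), for `r ≥ 2`: LOCW if `r ≥ 3`, LOCV if `r = 2`. -/
def S_STRV : Prop := ∀ (N : ℕ) (H : Subgroup (SU N)) (c : ℝ) (d r : ℕ) (D : RD r) (P : RT r) (ι : Type)
  (a : ι → Fin r → ℕ) (χ : ι → H → ℂ) (Z : Finset (Fin r → ℝ)) (k : ℝ), 2 ≤ r → RV D P →
  GX H c d D P a χ Z k → ∀ p : ℝ, 2 + 8 / (d : ℝ) < p → 8 / (r : ℝ) < p → StrG H c d p

def M_STRV : Prop := S_NQ → S_KB → S_HAAR → S_KERI → S_EIGW → S_ALLX → S_LOCW → S_LOCV → S_STRV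

end

end LGR
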