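import Pool.Agent.LGR.StD
import Mathlib.Algebra.Lie.Weights.IsSimple
import Mathlib.Algebra.Lie.CartanCriterion

/-!
# Simple compact Lie groups, block L: the root data of a closed subgroup with a simple Lie algebra

We use Mathlib's root system of the complexification. Module `X` proves `theorem t_X : M_X` (or `t_X : S_X` if there is no `M_X`) in the file `Pool/Agent/LGR/X.lean`, namespace `LGR`. Put `attribute [local instance 100] LieRing.ofAssociativeRing` near the top of the file (it is not a global instance in Mathlib).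
-/

namespace LGR

open STZ MeasureTheory Matrix Filter

open scoped ComplexConjugate Matrix Real Topology

noncomputable section

attribute [local instance 100] LieRing.ofAssociativeRing

/-- The Lie algebra of `H` is simple: it is not abelian, and the only ideals are `0` and the whole Lie algebra. -/
def SimpleH {N : ℕ} (H : Subgroup (SU N)) : Prop :=
  (∃ X ∈ lie H, ∃ Y ∈ lie H, X * Y ≠ Y * X) ∧
  ∀ V : Submodule ℝ (Matrix (Fin N) (Fin N) ℂ), (∀ X ∈ V, X ∈ lie H) →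
    (∀ X ∈ lie H, ∀ Y ∈ V, X * Y - Y * X ∈ V) → V = ⊥ ∨ ∀ X ∈ lie H, X ∈ V

/-- `T` is a maximal abelian subspace of the Lie algebra of `H` -/
structure MaxAb {N : ℕ} (H : Subgroup (SU N)) (T : Submodule ℝ (Matrix (Fin N) (Fin N) ℂ)) : Prop where
  sub : ∀ X ∈ T, X ∈ lie H
  comm : ∀ X ∈ T, ∀ Y ∈ T, X * Y = Y * X
  max : ∀ X ∈ lie H, (∀ Y ∈ T, X * Y = Y * X) → X ∈ T

/-- the complexification of the Lie algebra of `H` -/
def LC {N : ℕ} (H : Subgroup (SU N)) : LieSubalgebra ℂ (Matrix (Fin N) (Fin N) ℂ) :=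
  LieSubalgebra.lieSpan ℂ (Matrix (Fin N) (Fin N) ℂ) (lie H)

/-- facts about the complexification -/
structure LCF {N : ℕ} (H : Subgroup (SU N)) : Prop where
  mem : ∀ Z, Z ∈ LC H ↔ ∃ X ∈ lie H, ∃ Y ∈ lie H, Z = X + Complex.I • Y
  star : ∀ Z ∈ LC H, Zᴴ ∈ LC H
  skew : ∀ Z ∈ LC H, Zᴴ = -Z → Z ∈ lie H

/-- LCXF. The set of the `X + i Y` is a complex subspace closed under the bracket. `(X + i Y)ᴴ = -X + i Y`. If it is `-(X + i Y)` then `i Y = 0`. -/
def S_LCXF : Prop := ∀ (N : ℕ) (H : Subgroup (SU N)), IsClosed (H : Set (SU N)) → LCF H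

def M_LCXF : Prop := S_LIEB → S_LCXF

/-- KILL. With the Hermitian inner product `tr (A Bᴴ)` on `LC H` the adjoint of `ad Z` is `ad Zᴴ`, so the Killing form satisfies `κ(Z, Zᴴ) = tr (ad Z (ad Z)*) ≥ 0`, and `= 0` only if `ad Z = 0`, i.e. if `Z` commutes with `lie H`; then `Z = X + i Y` with `X`, `Y` in the centre of `lie H`, an ideal, which is `0`
(`SimpleH`; it is not everything). So `κ` is nondegenerate. Simple: not abelian; let `I` be an ideal of `LC H`, `σ Z = -Zᴴ` (an antilinear automorphism of the real Lie algebra which fixes `lie H`). The real parts of `I ∩ σ I` (its elements with `σ Z = Z`) are an ideal of `lie H`, it is `0` or everything, so `I ∩ σ I` is `0` or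
`LC H`; the same for `I + σ I`. Let `I ≠ 0, LC H`: then `I ∩ σ I = 0`, `I + σ I = LC H`. `[I, σ I] = 0`, so `κ(X, σ Y) = 0` for `X, Y ∈ I`. For `X ∈ I`: `Z = X + σ X ∈ lie H`, `0 ≥ κ(Z, Z) = κ(X, X) + κ(σ X, σ X) = 2 Re κ(X, X)`; the same for `i X`: `≤ 0` with the opposite sign, so `κ(Z, Z) = 0` for all `Z` in `lie H`
(`-κ(Z, Z) = κ(Z, Zᴴ)`), a contradiction. -/
def S_KILL : Prop := ∀ (N : ℕ) (H : Subgroup (SU N)), IsClosed (H : Set (SU N)) → SimpleH H →
  LieAlgebra.IsKilling ℂ (LC H) ∧ LieAlgebra.IsSimple ℂ (LC H)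

def M_KILL : Prop := S_LIEB → S_LCXF → S_KILL

/-- CART. `C = T + i T`: abelian (so nilpotent). Self-normalising: let `[Z, C] ⊆ C`. For `X ∈ T`: `[X, [X, Z]] = 0`, and `ad X` is skew-adjoint for `tr (A Bᴴ)`, so `[X, Z] = 0`. `Z = A + i B`, then `[X, A] = [X, B] = 0` for all `X ∈ T`, so `A, B ∈ T` (`max`). The dimensions: a real basis of `T` is a complex basis of `T + i T` (`X + i Y = 0` for skew-Hermitian
`X, Y` gives `X = Y = 0`). -/
def S_CART : Prop := ∀ (N : ℕ) (H : Subgroup (SU N)) (T : Submodule ℝ (Matrix (Fin N) (Fin N) ℂ)),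
  IsClosed (H : Set (SU N)) → MaxAb H T → ∃ C : LieSubalgebra ℂ (LC H),
    (∀ Z : LC H, Z ∈ C ↔ ∃ X ∈ T, ∃ Y ∈ T, (Z : Matrix (Fin N) (Fin N) ℂ) = X + Complex.I • Y) ∧
    C.IsCartanSubalgebra ∧ Module.finrank ℂ C = Module.finrank ℝ T

def M_CART : Prop := S_LIEB → S_LCXF → S_CART

/-- ROVE. Normalised root vectors. Take `e ≠ 0` in the root space of `α`, and `f = eᴴ ∈ LC H`. For Hermitian `Z ∈ C`: `α(Z) tr (e eᴴ) = tr ([Z, e] eᴴ) = tr (Z [e, eᴴ])` is real; every `Z ∈ C` is `Z₁ + i Z₂` with Hermitian `Z₁, Z₂ ∈ C`, so `α(Zᴴ) = conj α(Z)`. `([Zᴴ, e])ᴴ = -[Z, eᴴ]`, so `[Z, eᴴ] = -α(Z) eᴴ`: `f ∈ rootSpace C (-α)`.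
`[e, f] = κ(e, f) • t_α` (Mathlib: `lie_eq_killingForm_smul_of_mem_rootSpace_of_mem_rootSpace_neg`) with `κ(e, eᴴ) = tr (ad e (ad e)*) > 0`, so `h = [e, eᴴ] ≠ 0`; `α(h) tr (e eᴴ) = tr ([h, e] eᴴ) = tr (h h) > 0` (`h` Hermitian). Scale `e` by a positive number such that `α(h) = 2`. Then `IsSl2Triple h e f`, and `h` is the coroot
(`IsSl2Triple.h_eq_coroot`). -/
def S_ROVE : Prop := ∀ (N : ℕ) (H : Subgroup (SU N)), IsClosed (H : Set (SU N)) → LCF H →
  ∀ [LieAlgebra.IsKilling ℂ (LC H)] (C : LieSubalgebra ℂ (LC H)) [C.IsCartanSubalgebra],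
    (∀ Z ∈ C, ∀ W : LC H, (W : Matrix (Fin N) (Fin N) ℂ) = (Z : Matrix (Fin N) (Fin N) ℂ)ᴴ → W ∈ C) →
    ∀ α : LieModule.Weight ℂ C (LC H), α.IsNonZero → ∃ e f : LC H,
      IsSl2Triple ((LieAlgebra.IsKilling.coroot α : C) : LC H) e f ∧ e ∈ LieAlgebra.rootSpace C α ∧
      f ∈ LieAlgebra.rootSpace C (-α : C → ℂ) ∧ (f : Matrix (Fin N) (Fin N) ℂ) = (e : Matrix (Fin N) (Fin N) ℂ)ᴴ

/-- INTW. `h` is Hermitian, so `ℂ^N` has a basis of eigenvectors of `h`. Every eigenvalue is an integer: if `h v = c v`, `v ≠ 0`, then `h (e^k v) = (c + 2k) e^k v`, so `e^k v = 0` for large `k`; the last nonzero `e^k v` is a primitive vector, its eigenvalue `c + 2k` is a natural number (`IsSl2Triple.HasPrimitiveVectorWith.exists_nat` for the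
module `Fin N → ℂ` of the matrices, or by hand). So `exp (2πi h)` is the identity on this basis. -/
def S_INTW : Prop := ∀ (N : ℕ) (h e f : Matrix (Fin N) (Fin N) ℂ), hᴴ = h → h * e - e * h = (2 : ℂ) • e →
  h * f - f * h = -((2 : ℂ) • f) → e * f - f * e = h → NormedSpace.exp ((2 * π * Complex.I : ℂ) • h) = 1

/-- LRDX. Let `C` be from CART, `P = LieAlgebra.IsKilling.rootSystem C` (instances: root system, crystallographic, reduced; irreducible as `LC H` is simple: `LieAlgebra.IsKilling.isSimple_iff_isIrreducible` or the instance), `b` a base (`RootPairing.nonempty_base` or similar in `BaseExists`), `e : Fin r ≃ b.support`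
(`b.support.card = finrank C = r`). `Φ`, `B`, `ct` from RTSY. `Hc j` is the matrix of the coroot of `e j`. For a positive root `α` let `E` of the corresponding pair be the matrix `e` of ROVE, and for its negative `(E p)ᴴ` (the pairs of different roots are different by RTSY). `ead`: `[Hc j, E] = α(coroot (e j)) E`, and
`α (coroot (e j)) = P.pairingIn ℤ α (e j) = p.1 j`. `cor`: `[E, Eᴴ]` is the coroot `∑ ct j Hc j`. `herm`: the coroot is `[E, Eᴴ]`. `per`: INTW. `mem`: `LCF.skew`. `lin`: the simple coroots are linearly independent over `ℂ`. `emem`: `LCF.skew`. `span`: `X ∈ lie H` is a sum of an element of `C` and of elements of the root spaces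
(`iSup` of the root spaces is everything; every root space is one-dimensional, spanned by `E p`): `X = Z + ∑ p ∈ Φ, c p E p`; apply `X = -Xᴴ`: `X = (X - Xᴴ)/2` has the form in the claim with `z p = (c p - conj (c (-p)))/2`, and `(Z - Zᴴ)/2` is a skew-Hermitian element of `C`, so a real combination of the `i Hc j`. Last claim: the elements of `T`
are the skew-Hermitian elements of `C`. -/
def S_LRDX : Prop := ∀ (N : ℕ) (H : Subgroup (SU N)) (T : Submodule ℝ (Matrix (Fin N) (Fin N) ℂ)) (r : ℕ),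
  IsClosed (H : Set (SU N)) → SimpleH H → MaxAb H T → r = Module.finrank ℝ T →
  ∃ (Φ : RT r) (B : Matrix (Fin r) (Fin r) ℤ) (Hc : Fin r → Matrix (Fin N) (Fin N) ℂ)
    (E : (Fin r → ℤ) × (Fin r → ℤ) → Matrix (Fin N) (Fin N) ℂ), LRD H Φ B Hc E ∧
    ∀ X, X ∈ T ↔ ∃ x, X = hx Hc x

def M_LRDX : Prop := S_LIEB → S_LCXF → S_KILL → S_CART → S_ROVE → S_INTW → S_RTSY → S_LRDX

/-! ### the metric -/

/-- `X` is an orthonormal basis of the Lie algebra of `H` for the negative of the Killing form: with the structure constants `[X a, X b] = ∑ e, c a b e X e` the Killing form is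
`B(X a, X b) = tr (ad (X a) ad (X b)) = ∑ e f, c a f e * c b e f` -/
structure KFrame {N : ℕ} (H : Subgroup (SU N)) {d : ℕ} (X : Fin d → Matrix (Fin N) (Fin N) ℂ) : Prop where
  mem : ∀ a, X a ∈ lie H
  lin : LinearIndependent ℝ X
  span : ∀ Y ∈ lie H, ∃ y : Fin d → ℝ, Y = ∑ a, (y a : ℂ) • X a
  kill : ∃ c : Fin d → Fin d → Fin d → ℝ, (∀ a b, X a * X b - X b * X a = ∑ e, (c a b e : ℂ) • X e) ∧
    ∀ a b, ∑ e, ∑ f, c a f e * c b e f = -(if a = b then 1 else 0)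

/-- KFRM. The Killing form of `lie H` is `-c` times ... : both `S(A, B) = -tr (A B)` (real, positive definite) and `K(A, B) = -tr (ad A ad B)` are invariant symmetric forms on the real vector space `lie H`; `K(A, B) = S(T A, B)` with a symmetric `T` which commutes with all `ad X`; an eigenspace of `T` is an ideal, so (`SimpleH`) it is
everything: `K = c S`. `K(A, A) = ‖ad A‖² ≥ 0` (for `S`, `ad A` is skew), and not always `0` because `lie H` is not abelian: `c > 0`. So for a `KFrame` `X`: `δ = K(X a, X b) = -c tr (X a X b)`. (The `c a f e` are the matrix entries of `ad (X a)` in the basis `X`.) The first claim: an `S`-orthonormal basis, divided by `√c`;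
its length is the dimension `d` of `lie H`. -/
def S_KFRM : Prop := ∀ (N : ℕ) (H : Subgroup (SU N)), IsClosed (H : Set (SU N)) → SimpleH H →
  ∃ c : ℝ, 0 < c ∧ (∀ d : ℕ, Module.finrank ℝ (Submodule.span ℝ (lie H)) = d →
    ∃ X : Fin d → Matrix (Fin N) (Fin N) ℂ, FrameH H c X) ∧
    ∀ (d : ℕ) (X : Fin d → Matrix (Fin N) (Fin N) ℂ), KFrame H X → FrameH H c X

def M_KFRM : Prop := S_LIEB → S_KFRM

/-- facts about the constant `k` for the metric `-c tr (X Y)`: `k Q` is the dual form on the weights -/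
structure KC {N : ℕ} {r : ℕ} (Φ : RT r) (Hc : Fin r → Matrix (Fin N) (Fin N) ℂ)
    (E : (Fin r → ℤ) × (Fin r → ℤ) → Matrix (Fin N) (Fin N) ℂ) (c k : ℝ) : Prop where
  cpos : 0 < c
  kpos : 0 < k
  z : ∃ z : Matrix (Fin r) (Fin r) ℝ,
    (∀ i j, (c : ℂ) * (hx Hc (z i) * hx Hc (z j)).trace = if i = j then -1 else 0) ∧
    ∀ i j, ∑ l, z l i * z l j = k / 2 * ((rd Φ).A i j : ℝ)
  p : ∀ p ∈ Φ, ∀ l : Fin r → ℤ,
    ((p.2 ⬝ᵥ l : ℤ) : ℝ) = c * (E p * (E p)ᴴ).trace.re * (k / 2) * ((p.1 ⬝ᵥ ((rd Φ).A *ᵥ l) : ℤ) : ℝ)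

/-- FORM. `G i j = c tr (Hc i Hc j)` is real, symmetric and positive definite. Under `rf p`, `p ∈ Φ`: `hx (rf pᵀ x) = n (hx x) nᴴ` (REFH), so `tr (hx x hx y)` is invariant: `w G wᵀ = G` for `w = rf p`, hence for all `w ∈ WF Φ`, so `G⁻¹` is an invariant form on weights, `(w l)·G⁻¹ (w l') = l·G⁻¹ l'`. SCHU: `G⁻¹ = k' A`, `k = 2 k' > 0` (both are
positive definite). `z`: an orthonormal basis of `ℝ^r` for `G`: `z G zᵀ = 1`, so `zᵀ z = G⁻¹`. `p`: `TAF.tp` says `c (G-row)`: `G p.2 = c tr(E Eᴴ) p.1`, so `p.2 = c tr(E Eᴴ) G⁻¹ p.1 = c tr(E Eᴴ) (k/2) A p.1`, pair with `l` (`A` is symmetric). -/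
def S_FORM : Prop := ∀ (N : ℕ) (H : Subgroup (SU N)) (r : ℕ) (Φ : RT r) (B : Matrix (Fin r) (Fin r) ℤ)
  (Hc : Fin r → Matrix (Fin N) (Fin N) ℂ) (E : (Fin r → ℤ) × (Fin r → ℤ) → Matrix (Fin N) (Fin N) ℂ),
  IsClosed (H : Set (SU N)) → LRD H Φ B Hc E → 1 ≤ r → ∀ c : ℝ, 0 < c → ∃ k : ℝ, KC Φ Hc E c k

def M_FORM : Prop := S_WFAC → S_QUAD → S_SCHU → S_TAUF → S_REFH → S_FORM

/-- ADFR. The frame adapted to the roots. `s p = √(2 c tr (E p (E p)ᴴ))`. The matrices `hx (z j)`, `(E p - (E p)ᴴ) / s p`, `i (E p + (E p)ᴴ) / s p`, `p ∈ pos Φ`, are a frame (`TAF.orth`, `orh`; `E p (E q)` for `p, q ∈ pos Φ`: `tr (E p E q) = 0` as `E q = (E (-q))ᴴ`; `span`). For a real bilinear `β` on `lie H` the sum `∑ β (X a) (X a)` is the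
same for all frames (two frames differ by an orthogonal matrix). The dimension: the number of the elements. -/
def S_ADFR : Prop := ∀ (N : ℕ) (H : Subgroup (SU N)) (r : ℕ) (Φ : RT r) (B : Matrix (Fin r) (Fin r) ℤ)
  (Hc : Fin r → Matrix (Fin N) (Fin N) ℂ) (E : (Fin r → ℤ) × (Fin r → ℤ) → Matrix (Fin N) (Fin N) ℂ)
  (c k : ℝ) (d : ℕ) (X : Fin d → Matrix (Fin N) (Fin N) ℂ),
  IsClosed (H : Set (SU N)) → LRD H Φ B Hc E → KC Φ Hc E c k → FrameH H c X →
  d = 2 * (pos Φ).card + r ∧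
  ∀ z : Matrix (Fin r) (Fin r) ℝ, (∀ i j, (c : ℂ) * (hx Hc (z i) * hx Hc (z j)).trace = if i = j then -1 else 0) →
  ∀ β : Matrix (Fin N) (Fin N) ℂ → Matrix (Fin N) (Fin N) ℂ → ℂ,
    (∀ X ∈ lie H, ∀ Y ∈ lie H, ∀ Z ∈ lie H, β (X + Y) Z = β X Z + β Y Z ∧ β Z (X + Y) = β Z X + β Z Y) →
    (∀ X ∈ lie H, ∀ Y ∈ lie H, ∀ s : ℝ, β ((s : ℂ) • X) Y = s * β X Y ∧ β X ((s : ℂ) • Y) = s * β X Y) →
    ∑ a, β (X a) (X a) = ∑ j, β (hx Hc (z j)) (hx Hc (z j)) +
      ∑ p ∈ pos Φ, (1 / ((2 * c * (E p * (E p)ᴴ).trace.re : ℝ) : ℂ)) *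
        (β (E p - (E p)ᴴ) (E p - (E p)ᴴ) + β (Complex.I • (E p + (E p)ᴴ)) (Complex.I • (E p + (E p)ᴴ)))

def M_ADFR : Prop := S_LIEB → S_WFAC → S_TAUF → S_ADFR

end

end LGR
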