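import Pool.Agent.LGR.StL
import Pool.Agent.LGR.StE

/-!
# Simple compact Lie groups, block R: representations and characters

`H` is a closed connected subgroup of `SU(N)` with root data `LRD` (StD.lean). We only use representations whose matrix entries are polynomial functions. Elements of `H`: `g.1 ∈ SU N`, `g.1.1` is the matrix, `g.1 = ta Hc θ` means that `g` is the point `θ` of the torus.
Module `X` proves `theorem t_X : M_X` (or `t_X : S_X` if there is no `M_X`) in the file `Pool/Agent/LGR/X.lean`, namespace `LGR`.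
-/

namespace LGR

open STZ MeasureTheory Matrix Filter

open scoped ComplexConjugate Matrix Real Topology

noncomputable section

/-! ### polynomial functions -/

/-- the polynomial functions on `H` -/
def PF {N : ℕ} (H : Subgroup (SU N)) : Subalgebra ℂ (H → ℂ) :=
  Algebra.adjoin ℂ ({f | ∃ i j, f = fun g : H => g.1.1 i j} ∪ {f | ∃ i j, f = fun g : H => conj (g.1.1 i j)})

/-- facts about the polynomial functions -/
structure PFF {N : ℕ} (H : Subgroup (SU N)) : Prop where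
  c2 : ∀ f ∈ PF H, C2H f
  d : ∀ X ∈ lie H, ∀ f ∈ PF H, dH X f ∈ PF H
  cj : ∀ f ∈ PF H, (fun g => conj (f g)) ∈ PF H
  left : ∀ h : H, ∀ f ∈ PF H, (fun g => f (h * g)) ∈ PF H
  right : ∀ h : H, ∀ f ∈ PF H, (fun g => f (g * h)) ∈ PF H
  add : ∀ X ∈ lie H, ∀ Y ∈ lie H, ∀ f ∈ PF H, ∀ g, dH (X + Y) f g = dH X f g + dH Y f g
  smul : ∀ X ∈ lie H, ∀ s : ℝ, ∀ f ∈ PF H, ∀ g, dH ((s : ℂ) • X) f g = s * dH X f g
  comm : ∀ X ∈ lie H, ∀ Y ∈ lie H, ∀ f ∈ PF H, ∀ g,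
    dH X (dH Y f) g - dH Y (dH X f) g = dH (X * Y - Y * X) f g
  dright : ∀ X ∈ lie H, ∀ h : H, ∀ f ∈ PF H, ∀ g,
    dH X (fun g => f (g * h)) g = dH (h.1.1ᴴ * X * h.1.1) f (g * h)
  mono : ∀ (i j : ℕ) (p q : Fin i → Fin N) (p' q' : Fin j → Fin N),
    (fun g : H => (∏ s, g.1.1 (p s) (q s)) * ∏ s, conj (g.1.1 (p' s) (q' s))) ∈ PF H
  span : ∀ f ∈ PF H, f ∈ Submodule.span ℂ {f | ∃ (i j : ℕ) (p q : Fin i → Fin N) (p' q' : Fin j → Fin N),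
    f = fun g : H => (∏ s, g.1.1 (p s) (q s)) * ∏ s, conj (g.1.1 (p' s) (q' s))}
  dense : ∀ f : H → ℂ, Continuous f → ∀ ε : ℝ, 0 < ε → ∃ P ∈ PF H, ∀ g, ‖f g - P g‖ ≤ ε

/-- PFFX. Induction over the algebra (`Algebra.adjoin_induction`) with the rules of CALH. `add`, `smul`, `comm`: both sides are derivations of the algebra (for `comm`: the second derivatives of a product), true for the entries: `dH X (dH Y (g i j)) = (g X Y) i j`. `dright`: `g exp(tX) h = g h exp(t hᴴ X h)`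
(LIEB: `hᴴ X h ∈ lie H`), or again by induction. `dense`: Stone-Weierstrass, see SWH (SWH.lean). -/
def S_PFFX : Prop := ∀ (N : ℕ) (H : Subgroup (SU N)), IsClosed (H : Set (SU N)) → PFF H

def M_PFFX : Prop := S_CALH → S_LIEB → S_PFFX

/-- a representation with polynomial entries -/
def PRep {N : ℕ} {H : Subgroup (SU N)} {ι : Type} [Fintype ι] [DecidableEq ι] (R : Rep H ι) : Prop :=
  ∀ i j, (fun g => R.ρ g i j) ∈ PF H

/-- DECP. The proof of DECO (DECO.lean), with the additional remark that the entries of the `σ k` are linear combinations of the entries of `R` (they are entries of `Uᴴ ρ U` with constant matrices `U`). -/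
def S_DECP : Prop := ∀ (N : ℕ) (H : Subgroup (SU N)) (ι : Type) [Fintype ι] [DecidableEq ι] (R : Rep H ι), PRep R →
  ∃ (m : ℕ) (M : Fin m → ℕ) (σ : ∀ k, Rep H (Fin (M k))), (∀ k, (σ k).Irr) ∧ (∀ k, PRep (σ k)) ∧
    (∀ g, R.ch g = ∑ k, (σ k).ch g) ∧
    ∀ i j, ∃ c : ∀ k, Matrix (Fin (M k)) (Fin (M k)) ℂ,
      ∀ g, R.ρ g i j = ∑ k, ∑ p, ∑ q, c k p q * (σ k).ρ g p q

/-- TPRD. The tensor product of `σ` and its complex conjugate. -/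
def S_TPRD : Prop := ∀ (N : ℕ) (H : Subgroup (SU N)) (n : ℕ) (σ : Rep H (Fin n)), IsClosed (H : Set (SU N)) → PRep σ →
  ∃ R : Rep H (Fin n × Fin n), PRep R ∧ ∀ g, R.ch g = σ.ch g * conj (σ.ch g)

def M_TPRD : Prop := S_PFFX → S_TPRD

/-- the differential of a representation -/
def dr {N : ℕ} {H : Subgroup (SU N)} {n : ℕ} (σ : Rep H (Fin n)) (X : Matrix (Fin N) (Fin N) ℂ) :
    Matrix (Fin n) (Fin n) ℂ := fun i j => dH X (fun g => σ.ρ g i j) 1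

/-- facts about the differential -/
structure DRF {N : ℕ} {H : Subgroup (SU N)} {n : ℕ} (σ : Rep H (Fin n)) : Prop where
  d : ∀ X ∈ lie H, ∀ g i j, dH X (fun g => σ.ρ g i j) g = (σ.ρ g * dr σ X) i j
  add : ∀ X ∈ lie H, ∀ Y ∈ lie H, dr σ (X + Y) = dr σ X + dr σ Y
  smul : ∀ X ∈ lie H, ∀ s : ℝ, dr σ ((s : ℂ) • X) = (s : ℂ) • dr σ X
  br : ∀ X ∈ lie H, ∀ Y ∈ lie H, dr σ (X * Y - Y * X) = dr σ X * dr σ Y - dr σ Y * dr σ X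
  skew : ∀ X ∈ lie H, (dr σ X)ᴴ = -dr σ X
  ad : ∀ X ∈ lie H, ∀ h : H, dr σ (h.1.1 * X * h.1.1ᴴ) = σ.ρ h * dr σ X * (σ.ρ h)ᴴ
  ex : ∀ X ∈ lie H, ∀ t : ℝ, σ.ρ (exH H X t) = NormedSpace.exp ((t : ℂ) • dr σ X)

/-- DREP. `d`: `σ (g exp(tX)) = σ g σ (exp(tX))` (`dleft` in CALH). `br`: `comm` of PFF at `g = 1`. `skew`: differentiate `σ (exp(tX)) σ (exp(tX))ᴴ = 1`. `ad`: `dright`. `ex`: `F t = σ (exp(tX))` satisfies `F' = F dr σ X`, `F 0 = 1`. -/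
def S_DREP : Prop := ∀ (N : ℕ) (H : Subgroup (SU N)) (n : ℕ) (σ : Rep H (Fin n)), IsClosed (H : Set (SU N)) →
  PRep σ → DRF σ

def M_DREP : Prop := S_CALH → S_LIEB → S_PFFX → S_DREP

/-- CASR. The Casimir element is scalar. `lapH Y (σ i j) g = (σ g * C) i j`, `C = ∑ a, (dr σ (Y a))²`. Two frames differ by an orthogonal real matrix, so `C` does not depend on the frame; `σ h C σ hᴴ` is `C` for the frame `h Y a hᴴ` (`DRF.ad`, LIEB), so `C` commutes with `σ h`, `C = -κ`. `C = -∑ (dr σ (Y a))ᴴ dr σ (Y a)`, so `κ ≥ 0` is real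
(`n ≥ 1` as `σ.Irr` has `Nonempty`), and `κ = 0` gives `dr σ (Y a) = 0` for all `a`, so `dr σ = 0` on `lie H` (`span`). Then `DRF.ex`. -/
def S_CASR : Prop := ∀ (N : ℕ) (H : Subgroup (SU N)) (c : ℝ) (d : ℕ) (X : Fin d → Matrix (Fin N) (Fin N) ℂ),
  IsClosed (H : Set (SU N)) → FrameH H c X → ∀ (n : ℕ) (σ : Rep H (Fin n)), σ.Irr → PRep σ →
  ∃ κ : ℝ, 0 ≤ κ ∧ (∀ Y : Fin d → Matrix (Fin N) (Fin N) ℂ, FrameH H c Y →
      (∀ i j, EigH Y κ (fun g => σ.ρ g i j)) ∧ EigH Y κ σ.ch) ∧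
    (κ = 0 → ∀ Y ∈ lie H, ∀ t, σ.ρ (exH H Y t) = 1)

def M_CASR : Prop := S_CALH → S_LIEB → S_PFFX → S_DREP → S_CASR

/-- TRIV. By CONJ every `g` is `h ta(θ) h⁻¹`, and `ta θ = ex (hx ..) 1`, so `σ g = 1`. Every matrix commutes with `σ`, so it is scalar: `n ≤ 1`. -/
def S_TRIV : Prop := ∀ (N : ℕ) (H : Subgroup (SU N)) (r : ℕ) (Φ : RT r) (B : Matrix (Fin r) (Fin r) ℤ)
  (Hc : Fin r → Matrix (Fin N) (Fin N) ℂ) (E : (Fin r → ℤ) × (Fin r → ℤ) → Matrix (Fin N) (Fin N) ℂ),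
  IsClosed (H : Set (SU N)) → IsConnected (H : Set (SU N)) → LRD H Φ B Hc E →
  ∀ (n : ℕ) (σ : Rep H (Fin n)), σ.Irr → (∀ Y ∈ lie H, ∀ t, σ.ρ (exH H Y t) = 1) → n = 1 ∧ ∀ g, σ.ρ g = 1

def M_TRIV : Prop := S_TAUF → S_CONJ → S_TRIV

/-- TRES. The weights of a representation. `R (ta θ) = exp (∑ θ j A j)` with the commuting skew-Hermitian matrices `A j = dr R (hx (2π e j))` (`DRF.ex`, `add`, `smul`, `br`). Diagonalise the commuting Hermitian matrices `i A j` simultaneously by a unitary matrix (e.g. Mathlib's simultaneous diagonalisation of commuting symmetric operators,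
or induction on `n` as in DECO). `ta (e j) = 1` (`TAF.int`), so `exp (A j) = 1` and the eigenvalues of `A j` are `2πi` times integers. -/
def S_TRES : Prop := ∀ (N : ℕ) (H : Subgroup (SU N)) (r : ℕ) (Φ : RT r) (B : Matrix (Fin r) (Fin r) ℤ)
  (Hc : Fin r → Matrix (Fin N) (Fin N) ℂ) (E : (Fin r → ℤ) × (Fin r → ℤ) → Matrix (Fin N) (Fin N) ℂ),
  IsClosed (H : Set (SU N)) → LRD H Φ B Hc E → ∀ (n : ℕ) (R : Rep H (Fin n)), PRep R →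
  ∃ (U : Matrix (Fin n) (Fin n) ℂ) (μ : Fin n → Fin r → ℤ), U * Uᴴ = 1 ∧ Uᴴ * U = 1 ∧
    ∀ (g : H) (θ : Fin r → ℝ), g.1 = ta Hc θ →
      R.ρ g = U * Matrix.diagonal (fun k => eu (dz (μ k) θ)) * Uᴴ

def M_TRES : Prop := S_LIEB → S_TAUF → S_DREP → S_TRES

/-! ### trigonometric polynomials -/

/-- trigonometric polynomials -/
def tp {r : ℕ} (m : (Fin r → ℤ) →₀ ℤ) (θ : Fin r → ℝ) : ℂ := m.sum fun μ c => (c : ℂ) * eu (dz μ θ)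

/-- the coefficients of `AT 1 * tp m` -/
def av {r : ℕ} (Φ : RT r) (m : (Fin r → ℤ) →₀ ℤ) (ν : Fin r → ℤ) : ℤ := ∑ w ∈ WF Φ, w.det * m (ν - w *ᵥ 1)

/-- TPOL. The integral is a product of integrals over `[0, 1]`. The second claim: multiply by `eu (-(dz μ θ))` and integrate. -/
def S_TPOL : Prop := ∀ r : ℕ,
  (∀ μ : Fin r → ℤ, ∫ θ in Set.Icc (0 : Fin r → ℝ) 1, eu (dz μ θ) = if μ = 0 then 1 else 0) ∧
  ∀ (S : Finset (Fin r → ℤ)) (a : (Fin r → ℤ) → ℂ), (∀ θ : Fin r → ℝ, ∑ μ ∈ S, a μ * eu (dz μ θ) = 0) →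
    ∀ μ ∈ S, a μ = 0

/-- AVAL. First claim: multiply out, `dz (w 1) θ + dz μ θ = dz (w 1 + μ) θ`. Second: `m (w μ) = m μ` by the uniqueness of the coefficients (`dz μ (wᵀ θ) = dz (w μ) θ`), then substitute in the sum. Third: compare the coefficients of `eu 0` in `conj (AT 1) * (AT 1 * tp m₂) = (AT 1 * tp m) * conj (AT 1 * tp m)`:
on the left `∑ w, det w * av m₂ (w 1) = |W| av m₂ 1` (the second claim for `m₂`), on the right `∑ ν, (av m ν)²`. -/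
def S_AVAL : Prop := ∀ (r : ℕ) (Φ : RT r) (B : Matrix (Fin r) (Fin r) ℤ), IRD Φ B → WFF Φ B →
  ∀ m : (Fin r → ℤ) →₀ ℤ,
  (∃ S : Finset (Fin r → ℤ), (∀ ν, av Φ m ν ≠ 0 → ν ∈ S) ∧
    ∀ θ, AT (rd Φ) 1 θ * tp m θ = ∑ ν ∈ S, (av Φ m ν : ℂ) * eu (dz ν θ)) ∧
  ((∀ w ∈ WF Φ, ∀ θ, tp m (fun j => ∑ i, (w i j : ℝ) * θ i) = tp m θ) →
    (∀ w ∈ WF Φ, ∀ ν, av Φ m (w *ᵥ ν) = w.det * av Φ m ν) ∧
    ∀ m₂ : (Fin r → ℤ) →₀ ℤ, (∀ θ, tp m₂ θ = tp m θ * conj (tp m θ)) →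
      ∀ S : Finset (Fin r → ℤ), (∀ ν, av Φ m ν ≠ 0 → ν ∈ S) →
        ((WF Φ).card : ℤ) * av Φ m₂ 1 = ∑ ν ∈ S, av Φ m ν ^ 2)

def M_AVAL : Prop := S_TPOL → S_AVAL

/-- AVON. Some `av m ν ≠ 0` (`|W| > 0`). By CHAM `λ = w ν` has coordinates `≥ 0`; if `λ i = 0` then `rf (B i, e i)` fixes `λ` and has the determinant `-1`, so `av m λ = 0`, a contradiction; so `Reg λ`. The `w λ`, `w ∈ W`, are different (CHAM), and every `(av m (w λ))² ≥ 1`; so these are all the `ν` with `av m ν ≠ 0`, and all values are `± 1`. -/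
def S_AVON : Prop := ∀ (r : ℕ) (Φ : RT r) (B : Matrix (Fin r) (Fin r) ℤ), IRD Φ B → WFF Φ B →
  ∀ m : (Fin r → ℤ) →₀ ℤ, (∀ w ∈ WF Φ, ∀ ν, av Φ m (w *ᵥ ν) = w.det * av Φ m ν) →
  ∀ S : Finset (Fin r → ℤ), (∀ ν, av Φ m ν ≠ 0 → ν ∈ S) → ∑ ν ∈ S, av Φ m ν ^ 2 = (WF Φ).card →
  ∃ l : Fin r → ℤ, Reg l ∧ ∃ ε : ℤ, (ε = 1 ∨ ε = -1) ∧ av Φ m l = ε ∧
    ∀ θ, AT (rd Φ) 1 θ * tp m θ = (ε : ℂ) * AT (rd Φ) l θ

def M_AVON : Prop := S_CHAM → S_AVAL → S_AVON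

/-! ### the radial part of the Laplace operator -/

/-- RADP. `u = E p - (E p)ᴴ`, `v = i (E p + (E p)ᴴ)`, `ψ = 2π dz p.1 θ`, `t = g = ta θ`. For a class function `f` and `Y, Z ∈ lie H`: `f (t exp(sY) exp(s'Z)) = f (exp(s'Z) t exp(sY)) = f (t exp(s' tᴴZt) exp(sY))`; differentiate: `dH Y (dH Z f) t = dH (tᴴ Z t) (dH Y f) t` (or use `PFF.dright`: the function
`dH Z f` is `g ↦ d/ds' f (exp(s'Z) g)`, so `dH Z f (t exp(sY))` is ...). `tᴴ u t = cos ψ u - sin ψ v`, `tᴴ v t = cos ψ v + sin ψ u` (`TAF.Ade`). So `D_u D_u f = cos ψ D_u D_u f - sin ψ D_v D_u f`, `D_v D_v f = cos ψ D_v D_v f + sin ψ D_u D_v f` at `t`; add: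
`(1 - cos ψ)(D_u² + D_v²) f = sin ψ (D_u D_v - D_v D_u) f = sin ψ dH (u v - v u) f`, and `u v - v u = 2 i [E, Eᴴ] = 2 hx (p.2)` (`LRD.cor`). -/
def S_RADP : Prop := ∀ (N : ℕ) (H : Subgroup (SU N)) (r : ℕ) (Φ : RT r) (B : Matrix (Fin r) (Fin r) ℤ)
  (Hc : Fin r → Matrix (Fin N) (Fin N) ℂ) (E : (Fin r → ℤ) × (Fin r → ℤ) → Matrix (Fin N) (Fin N) ℂ),
  IsClosed (H : Set (SU N)) → LRD H Φ B Hc E → ∀ f ∈ PF H, (∀ g h : H, f (h * g * h⁻¹) = f g) →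
  ∀ (g : H) (θ : Fin r → ℝ), g.1 = ta Hc θ → ∀ p ∈ Φ,
    ((1 - Real.cos (2 * π * dz p.1 θ) : ℝ) : ℂ) * (dH (E p - (E p)ᴴ) (dH (E p - (E p)ᴴ) f) g +
        dH (Complex.I • (E p + (E p)ᴴ)) (dH (Complex.I • (E p + (E p)ᴴ)) f) g) =
      ((2 * Real.sin (2 * π * dz p.1 θ) : ℝ) : ℂ) * dH (hx Hc fun j => p.2 j) f g

def M_RADP : Prop := S_CALH → S_LIEB → S_PFFX → S_TAUF → S_RADP

/-- RADT. `ta θ * exp(s hx x) = ta (θ + s x/(2π))`, and `d/ds eu (dz μ (θ + s x/(2π))) = i (μ·x) eu (dz μ θ)`. For the second derivative apply this to the function `s ↦ dH (hx y) f (ta (θ + s x/(2π)))`. -/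
def S_RADT : Prop := ∀ (N : ℕ) (H : Subgroup (SU N)) (r : ℕ) (Φ : RT r) (B : Matrix (Fin r) (Fin r) ℤ)
  (Hc : Fin r → Matrix (Fin N) (Fin N) ℂ) (E : (Fin r → ℤ) × (Fin r → ℤ) → Matrix (Fin N) (Fin N) ℂ),
  IsClosed (H : Set (SU N)) → LRD H Φ B Hc E → ∀ f : H → ℂ, ∀ m : (Fin r → ℤ) →₀ ℤ,
  (∀ (g : H) (θ : Fin r → ℝ), g.1 = ta Hc θ → f g = tp m θ) →
  ∀ (g : H) (θ : Fin r → ℝ), g.1 = ta Hc θ → ∀ x y : Fin r → ℝ,
    dH (hx Hc x) f g = ∑ μ ∈ m.support, (m μ : ℂ) * (Complex.I * ((∑ j, (μ j : ℝ) * x j : ℝ) : ℂ)) * eu (dz μ θ) ∧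
    dH (hx Hc x) (dH (hx Hc y) f) g = ∑ μ ∈ m.support, (m μ : ℂ) * (Complex.I * ((∑ j, (μ j : ℝ) * x j : ℝ) : ℂ)) *
      (Complex.I * ((∑ j, (μ j : ℝ) * y j : ℝ) : ℂ)) * eu (dz μ θ)

def M_RADT : Prop := S_TAUF → S_RADT

/-- RADF. The radial formula. ADFR for `β Y Z = dH Y (dH Z f) g` and `z` from `KC.z`: the torus part is `-∑ μ, m μ ∑ j (μ·z j)² eu (dz μ θ) = -(k/2) ∑ μ, m μ (μ·Aμ) eu (dz μ θ)` (RADT). For `p ∈ pos Φ`: RADP and RADT: with `ψ = 2π dz p.1 θ`, `sin ψ / (1 - cos ψ) = i (1 + e^(-iψ))/(1 - e^(-iψ))`,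
`D_u² f + D_v² f = 2i (1 + e^(-iψ))/(1 - e^(-iψ)) ∑ μ, m μ i (p.2·μ) eu (dz μ θ)`; divide by `2 c tr (E Eᴴ)` and use `KC.p`. -/
def S_RADF : Prop := ∀ (N : ℕ) (H : Subgroup (SU N)) (r : ℕ) (Φ : RT r) (B : Matrix (Fin r) (Fin r) ℤ)
  (Hc : Fin r → Matrix (Fin N) (Fin N) ℂ) (E : (Fin r → ℤ) × (Fin r → ℤ) → Matrix (Fin N) (Fin N) ℂ)
  (c k : ℝ) (d : ℕ) (X : Fin d → Matrix (Fin N) (Fin N) ℂ),
  IsClosed (H : Set (SU N)) → LRD H Φ B Hc E → KC Φ Hc E c k → FrameH H c X →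
  ∀ f ∈ PF H, (∀ g h : H, f (h * g * h⁻¹) = f g) → ∀ m : (Fin r → ℤ) →₀ ℤ,
  (∀ (g : H) (θ : Fin r → ℝ), g.1 = ta Hc θ → f g = tp m θ) →
  ∀ (g : H) (θ : Fin r → ℝ), g.1 = ta Hc θ → (∀ p ∈ pos Φ, eu (dz p.1 θ) ≠ 1) →
    lapH X f g = -((k : ℂ) / 2) * ∑ μ ∈ m.support, (m μ : ℂ) * (((μ ⬝ᵥ ((rd Φ).A *ᵥ μ) : ℤ) : ℂ) +
      ∑ p ∈ pos Φ, ((p.1 ⬝ᵥ ((rd Φ).A *ᵥ μ) : ℤ) : ℂ) *
        ((1 + eu (-(dz p.1 θ))) / (1 - eu (-(dz p.1 θ))))) * eu (dz μ θ)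

def M_RADF : Prop := S_LIEB → S_PFFX → S_WFAC → S_TAUF → S_ADFR → S_RADP → S_RADT → S_RADF

/-- RADL. The coefficients of `AT 1 * tp m` for an eigenfunction. Let `Λ eu (dz μ θ) = (μ·Aμ) eu (dz μ θ)` and `Γ(eu (dz μ θ), eu (dz ν θ)) = (μ·Aν) eu (dz (μ + ν) θ)`, extended to trigonometric polynomials: `Λ (F G) = (Λ F) G + 2 Γ(F, G) + F Λ G`, and `Γ` is a derivation in each variable. For `δ = AT 1`: `Λ δ = (1·A1) δ = 2 Q(1) δ` (QUAD). By DENO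
and RHOF (`∑ p.1 = 2`) at the points with `eu (dz p.1 θ) ≠ 1`: `2 Γ(δ, F) = δ ∑ p, (1 + e_(-p))/(1 - e_(-p)) Γ(e_p, F)/e_p`, i.e. for `F = tp m`: `δ ∑ μ, m μ ∑ p, (p.1·Aμ)(1 + e_(-p))/(1 - e_(-p)) e_μ`. So by the hypothesis `Λ (δ tp m) = (2κ/k + 2 Q(1)) δ tp m` at these points, and by continuity (DENV, or because they are dense) everywhere; compare
the coefficients (TPOL): `av m ν * 2 Q(ν) = (2κ/k + 2 Q(1)) av m ν`. -/
def S_RADL : Prop := ∀ (r : ℕ) (Φ : RT r) (B : Matrix (Fin r) (Fin r) ℤ), 1 ≤ r → IRD Φ B → WFF Φ B →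
  ∀ (m : (Fin r → ℤ) →₀ ℤ) (k κ : ℝ), 0 < k →
  (∀ θ : Fin r → ℝ, (∀ p ∈ pos Φ, eu (dz p.1 θ) ≠ 1) →
    -(κ : ℂ) * tp m θ = -((k : ℂ) / 2) * ∑ μ ∈ m.support, (m μ : ℂ) * (((μ ⬝ᵥ ((rd Φ).A *ᵥ μ) : ℤ) : ℂ) +
      ∑ p ∈ pos Φ, ((p.1 ⬝ᵥ ((rd Φ).A *ᵥ μ) : ℤ) : ℂ) *
        ((1 + eu (-(dz p.1 θ))) / (1 - eu (-(dz p.1 θ))))) * eu (dz μ θ)) →
  ∀ ν, av Φ m ν ≠ 0 → κ = k * (((rd Φ).Q ν : ℝ) - (rd Φ).Q 1)

def M_RADL : Prop := S_RHOF → S_QUAD → S_DENO → S_RVOF → S_DENV → S_TPOL → S_AVAL → S_RADL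

/-! ### the characters -/

/-- ORTR. Decompose `R` (DECP) into irreducible `σ k` with restrictions `tp (m k)` (TRES); `m = ∑ m k` by TPOL. For every `σ k` with `κ` of CASR: if `κ > 0` then `∫ σ.ch = 0` (GRH with `h = 1`: `-κ ∫ f = ∫ lapH f = 0`), and `av (m k) 1 = 0` by RADF and RADL (`ν = 1`). If `κ = 0`: TRIV: the character is `1`, `m k = single 0 1`, and `av (m k) 1 = 1`
(`w 1 = 1` only for `w = 1`, CHAM). -/
def S_ORTR : Prop := ∀ (N : ℕ) (H : Subgroup (SU N)) (r : ℕ) (Φ : RT r) (B : Matrix (Fin r) (Fin r) ℤ)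
  (Hc : Fin r → Matrix (Fin N) (Fin N) ℂ) (E : (Fin r → ℤ) × (Fin r → ℤ) → Matrix (Fin N) (Fin N) ℂ)
  (c k : ℝ) (d : ℕ) (X : Fin d → Matrix (Fin N) (Fin N) ℂ), 1 ≤ r →
  IsClosed (H : Set (SU N)) → IsConnected (H : Set (SU N)) → LRD H Φ B Hc E → KC Φ Hc E c k → FrameH H c X →
  ∀ (μ : Measure H) [IsProbabilityMeasure μ] [μ.IsMulLeftInvariant] (ι : Type) [Fintype ι] [DecidableEq ι]
    (R : Rep H ι), PRep R → ∀ m : (Fin r → ℤ) →₀ ℤ,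
    (∀ (g : H) (θ : Fin r → ℝ), g.1 = ta Hc θ → R.ch g = tp m θ) → ∫ g, R.ch g ∂μ = (av Φ m 1 : ℂ)

def M_ORTR : Prop := S_GRH → S_WFAC → S_CHAM → S_TAUF → S_PFFX → S_DECP → S_CASR → S_TRIV → S_TRES → S_TPOL →
  S_AVAL → S_RADF → S_RADL → S_ORTR

/-- `l` is the highest weight plus `(1, …, 1)` of the irreducible representation `σ` -/
structure HWR {N : ℕ} {H : Subgroup (SU N)} {r : ℕ} (Φ : RT r) (Hc : Fin r → Matrix (Fin N) (Fin N) ℂ)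
    (c k : ℝ) (d : ℕ) {n : ℕ} (σ : Rep H (Fin n)) (l : Fin r → ℤ) : Prop where
  reg : Reg l
  wcf : ∀ (g : H) (θ : Fin r → ℝ), g.1 = ta Hc θ → AT (rd Φ) 1 θ * σ.ch g = AT (rd Φ) l θ
  dim : (n : ℂ) * ((∏ p ∈ pos Φ, (p.2 ⬝ᵥ (1 : Fin r → ℤ)) : ℤ) : ℂ) = ((∏ p ∈ pos Φ, (p.2 ⬝ᵥ l) : ℤ) : ℂ)
  eig : ∀ X : Fin d → Matrix (Fin N) (Fin N) ℂ, FrameH H c X →
    (∀ i j, EigH X (k * (((rd Φ).Q l : ℝ) - (rd Φ).Q 1)) (fun g => σ.ρ g i j)) ∧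
      EigH X (k * (((rd Φ).Q l : ℝ) - (rd Φ).Q 1)) σ.ch
  triv : ∀ z : Fin r → ℝ, ta Hc z = 1 → eu (dz (l - 1) z) = 1

/-- NORR. `m = ∑ k, single (μ k) 1` from TRES, so `σ.ch = tp m` on the torus. `tp m` is `W`-invariant (WREP, `σ.ch` is a class function). `R` from TPRD; its restriction is `tp m₂`, `tp m₂ = tp m * conj (tp m)` (`m₂ = ∑ k l, single (μ k - μ l) 1`). `1 = ∫ |σ.ch|²` (CHAR), `= av m₂ 1` (ORTR). AVAL and AVON: `AT 1 tp m = ε AT l`. DIML at `s θ₀`, `s → 0+`: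
`AT l / AT 1 → ∏ (p.2·l)/∏ (p.2·1) > 0` and `ε AT l / AT 1 = tp m (s θ₀) → tp m 0 = n > 0` (`AT 1 (s θ₀) ≠ 0` for small `s > 0`, `ATV.ne`); so `ε = 1`. `eig`: CASR, RADF and RADL for `ν = l` (`av m l = ε ≠ 0`). `triv`: `dz p.1 z ∈ ℤ` for `p ∈ Φ` by `TAF.Ade` (`E p ≠ 0`: `TAF.pos`), so by `ATV.cen` `eu (dz 1 z) AT 1 θ tp m θ = eu (dz l z) AT l θ`
for all `θ` (`tp m (θ + z) = tp m θ`, `TAF.add`), and `AT l` is not identically zero (TPOL, CHAM). -/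
def S_NORR : Prop := ∀ (N : ℕ) (H : Subgroup (SU N)) (r : ℕ) (Φ : RT r) (B : Matrix (Fin r) (Fin r) ℤ)
  (Hc : Fin r → Matrix (Fin N) (Fin N) ℂ) (E : (Fin r → ℤ) × (Fin r → ℤ) → Matrix (Fin N) (Fin N) ℂ)
  (c k : ℝ) (d : ℕ) (X : Fin d → Matrix (Fin N) (Fin N) ℂ), 1 ≤ r →
  IsClosed (H : Set (SU N)) → IsConnected (H : Set (SU N)) → LRD H Φ B Hc E → KC Φ Hc E c k → FrameH H c X →
  ∀ (n : ℕ) (σ : Rep H (Fin n)), σ.Irr → PRep σ → ∃ l, HWR Φ Hc c k d σ l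

def M_NORR : Prop := S_CHAR → S_WFAC → S_CHAM → S_RVOF → S_DIML → S_ATFV → S_TAUF → S_WREP → S_PFFX → S_TPRD →
  S_CASR → S_TRES → S_TPOL → S_AVAL → S_AVON → S_RADF → S_RADL → S_ORTR → S_NORR

/-- DENC. The characters are dense in the class functions. `P ∈ PF H` with `‖f - P‖ ≤ ε` (`PFF.dense`). By `PFF.span`, TENH (its entries are in `PF H` by `PFF.mono`) and DECP `P` is a linear combination of entries of irreducible polynomial representations. Let `P' g = ∫ h, P (h g h⁻¹)` for the invariant probability measure of `H` (`haarMeasure ⊤`): `‖f - P'‖ ≤ ε`. For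
`P = σ i j`: `P' g = ∑ a b, (∫ σ(h) i a conj (σ(h) j b)) σ(g) a b = (if i = j then 1 else 0) σ.ch g / n` by SCHUR. -/
def S_DENC : Prop := ∀ (N : ℕ) (H : Subgroup (SU N)), IsClosed (H : Set (SU N)) → ∀ f : H → ℂ, Continuous f →
  (∀ g h, f (h * g * h⁻¹) = f g) → ∀ ε : ℝ, 0 < ε →
  ∃ (m : ℕ) (M : Fin m → ℕ) (σ : ∀ k, Rep H (Fin (M k))) (a : Fin m → ℂ), (∀ k, (σ k).Irr) ∧ (∀ k, PRep (σ k)) ∧
    ∀ g, ‖f g - ∑ k, a k * (σ k).ch g‖ ≤ ε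

def M_DENC : Prop := S_HAAR → S_SCHUR → S_TENH → S_PFFX → S_DECP → S_DENC

/-- SURJ. Every dominant weight of `H` occurs. Suppose not. `F θ = conj (AT 1 θ) * AT l θ` is `W`-invariant (`ATV.inv`; `det w = ± 1`), and `F (θ + z) = F θ` if `ta z = 1` (`ATV.cen` and the hypothesis; `dz p.1 z ∈ ℤ` by `TAF.Ade`). CLFX gives a continuous class function `f` with `f (ta θ) = F θ`. For every combination `∑ a k (σ k).ch` (DENC), with the weights `l k ≠ l` from NORR: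
`∫ (∑ a k (σ k).ch (ta θ)) AT 1 θ conj (AT l θ) dθ = ∑ a k ∫ AT (l k) conj (AT l) = 0` over `[0,1]^r` (TPOL; `w l k ≠ w' l` for all `w, w'` by CHAM). So `∫ F AT 1 conj (AT l) = ∫ |AT 1|² |AT l|² = 0`; but this is a continuous function, so `AT 1 AT l = 0` everywhere (on the open cube, and by periodicity), in contradiction to TPOL (`AT 1`, `AT l` are nonzero
trigonometric polynomials; e.g. `AT 1 ≠ 0` on a dense set by DENV, `ATV.ne`, so `AT l = 0`). If `l` occurs: the same `l` for `HWR`. -/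
def S_SURJ : Prop := ∀ (N : ℕ) (H : Subgroup (SU N)) (r : ℕ) (Φ : RT r) (B : Matrix (Fin r) (Fin r) ℤ)
  (Hc : Fin r → Matrix (Fin N) (Fin N) ℂ) (E : (Fin r → ℤ) × (Fin r → ℤ) → Matrix (Fin N) (Fin N) ℂ)
  (c k : ℝ) (d : ℕ) (X : Fin d → Matrix (Fin N) (Fin N) ℂ), 1 ≤ r →
  IsClosed (H : Set (SU N)) → IsConnected (H : Set (SU N)) → LRD H Φ B Hc E → KC Φ Hc E c k → FrameH H c X →
  ∀ l, Reg l → (∀ z : Fin r → ℝ, ta Hc z = 1 → eu (dz (l - 1) z) = 1) →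
    ∃ (n : ℕ) (σ : Rep H (Fin n)), σ.Irr ∧ PRep σ ∧ HWR Φ Hc c k d σ l

def M_SURJ : Prop := S_WFAC → S_CHAM → S_RVOF → S_ATFV → S_DENV → S_TAUF → S_CLFX → S_TPOL → S_NORR → S_DENC → S_SURJ

/-- ZFIN. Let `K = {z : ta z = 1}`, a subgroup of `ℝ^r` which contains `ℤ^r`. `dz p.1 z ∈ ℤ` for `z ∈ K`, `p ∈ Φ` (`TAF.Ade`, `E p ≠ 0`), in particular `B z ∈ ℤ^r`, so `det B • z ∈ ℤ^r` (adjugate). So `K / ℤ^r` is finite; let `Z` be the set of the `z ∈ K` with coordinates in `[0, 1)` (they are in `(1/det B) ℤ^r`). For `l ∈ ℤ^r` the function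
`eu (dz l z)` is a homomorphism on `K`, trivial on `ℤ^r`; if it is not `1` at some `z₀ ∈ K`, the sum over `Z` is invariant under multiplication with `eu (dz l z₀)` (`Z` is a set of representatives), so it is `0`. -/
def S_ZFIN : Prop := ∀ (N : ℕ) (H : Subgroup (SU N)) (r : ℕ) (Φ : RT r) (B : Matrix (Fin r) (Fin r) ℤ)
  (Hc : Fin r → Matrix (Fin N) (Fin N) ℂ) (E : (Fin r → ℤ) × (Fin r → ℤ) → Matrix (Fin N) (Fin N) ℂ),
  IsClosed (H : Set (SU N)) → LRD H Φ B Hc E →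
  (∀ z : Fin r → ℝ, ta Hc z = 1 → ∀ p ∈ Φ, ∃ m : ℤ, dz p.1 z = m) ∧
  ∃ Z : Finset (Fin r → ℝ), Z.Nonempty ∧ (∀ z ∈ Z, ta Hc z = 1) ∧
    ∀ l : Fin r → ℤ, (∀ z, ta Hc z = 1 → eu (dz l z) = 1) ∨ ∑ z ∈ Z, eu (dz l z) = 0

def M_ZFIN : Prop := S_TAUF → S_ZFIN

/-- the dominant weights of `H` -/
def IX {N r : ℕ} (Hc : Fin r → Matrix (Fin N) (Fin N) ℂ) : Type :=
  {a : Fin r → ℕ // ∀ z : Fin r → ℝ, ta Hc z = 1 → eu (dz (wG a - 1) z) = 1}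

/-- `χ` are the characters for the dominant weights -/
def CHI {N : ℕ} {H : Subgroup (SU N)} {r : ℕ} (Φ : RT r) (Hc : Fin r → Matrix (Fin N) (Fin N) ℂ)
    (c k : ℝ) (d : ℕ) (χ : IX Hc → H → ℂ) : Prop :=
  ∀ a, ∃ (n : ℕ) (σ : Rep H (Fin n)), σ.Irr ∧ PRep σ ∧ HWR Φ Hc c k d σ (wG a.1) ∧ ∀ g, σ.ch g = χ a g

/-- CHIF. `irr`: clear; `ne`: if `χ a = χ b` then `AT (wG a) = AT (wG b)` on the torus (`HWR.wcf`), so `wG a = w (wG b)` for some `w` (TPOL), `w = 1` (CHAM). `tor`: DENV and CONJ: every `g` is `h ta(θ) h⁻¹`; `θ` is a limit of points `θ'` with `AT 1 θ' ≠ 0` (`ATV.ne`; otherwise some continuous function `≥ 0`, `> 0` at `θ`, vanishes at all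
regular points), and `g' = h ta(θ') h⁻¹ → g`; the characters are class functions. `cpl`: let `σ` be an irreducible polynomial representation; by NORR its character on the torus is `AT l / AT 1` at the points with `AT 1 ≠ 0`, and `l = wG a.1` for some `a : IX` (`HWR.triv`); so `σ.ch = χ a` on a dense set, so everywhere. Hence by DECP the character of the representation of
TENH (entries in `PF H` by `PFF.mono`) is a combination of `χ a`, `a ∈ S`; by ALLI `Pr S` fixes its entries; as in CPLG (CPLG.lean): `∫ f conj (entry) = 0`, SWH, `f = 0`. -/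
def S_CHIF : Prop := ∀ (N : ℕ) (H : Subgroup (SU N)) (r : ℕ) (Φ : RT r) (B : Matrix (Fin r) (Fin r) ℤ)
  (Hc : Fin r → Matrix (Fin N) (Fin N) ℂ) (E : (Fin r → ℤ) × (Fin r → ℤ) → Matrix (Fin N) (Fin N) ℂ)
  (c k : ℝ) (d : ℕ) (X : Fin d → Matrix (Fin N) (Fin N) ℂ), 1 ≤ r →
  IsClosed (H : Set (SU N)) → IsConnected (H : Set (SU N)) → LRD H Φ B Hc E → KC Φ Hc E c k → FrameH H c X →
  ∀ χ : IX Hc → H → ℂ, CHI Φ Hc c k d χ → IrrFam χ ∧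
    Dense {g : H | ∃ θ : Fin r → ℝ, AT (rd Φ) 1 θ ≠ 0 ∧ ∀ i, χ i g * AT (rd Φ) 1 θ = AT (rd Φ) (wG i.1) θ} ∧
    ∀ (μ : Measure H) [IsProbabilityMeasure μ] [μ.IsMulLeftInvariant] (f : H → ℂ), Continuous f →
      (∀ i, Pr μ (KK χ) {i} f = 0) → f = 0

def M_CHIF : Prop := S_HAAR → S_KB → S_KERI → S_ALLI → S_TENH → S_SWH → S_WFAC → S_CHAM → S_RVOF → S_ATFV →
  S_DENV → S_TAUF → S_CONJ → S_TPOL → S_PFFX → S_DECP → S_NORR → S_CHIF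

/-- GXOF. `χ` from SURJ (choice). The fields of `GX`: `dimd`: ADFR, `(rd Φ).e = 2 |pos Φ|`. `frame`: given. `ind`: ZFIN. `zroot`: ZFIN (`pos Φ ⊆ Φ`). `one`: `HWR.dim`, `σ.ch 1 = n`. `eig`: `HWR.eig` (`χ i = σ.ch` as functions). The rest: CHIF. -/
def S_GXOF : Prop := ∀ (N : ℕ) (H : Subgroup (SU N)) (r : ℕ) (Φ : RT r) (B : Matrix (Fin r) (Fin r) ℤ)
  (Hc : Fin r → Matrix (Fin N) (Fin N) ℂ) (E : (Fin r → ℤ) × (Fin r → ℤ) → Matrix (Fin N) (Fin N) ℂ)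
  (c k : ℝ) (d : ℕ) (X : Fin d → Matrix (Fin N) (Fin N) ℂ), 1 ≤ r →
  IsClosed (H : Set (SU N)) → IsConnected (H : Set (SU N)) → LRD H Φ B Hc E → KC Φ Hc E c k → FrameH H c X →
  ∃ (χ : IX Hc → H → ℂ) (Z : Finset (Fin r → ℝ)), GX H c d (rd Φ) (pos Φ) (fun i : IX Hc => i.1) χ Z k

def M_GXOF : Prop := S_WFAC → S_TAUF → S_ADFR → S_SURJ → S_ZFIN → S_CHIF → S_GXOF

/-! ### the main theorem -/

/-- `(S_p)` on `H` with the metric of the negative Killing form, on the time interval `[a, b]` with the constant `C ^ (1 / p)` -/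
def StrIneqK {N : ℕ} (H : Subgroup (SU N)) (d : ℕ) (μ : Measure H) (p a b C : ℝ) : Prop :=
  ∀ X : Fin d → Matrix (Fin N) (Fin N) ℂ, KFrame H X →
  ∀ (κ : ℕ → ℝ) (f : ℕ → H → ℂ), Function.Injective κ → (∀ k, EigH X (κ k) (f k)) →
    Summable (fun k => (1 + κ k) ^ ((d : ℝ) / 2 - ((d : ℝ) + 2) / p) * ∫ g, ‖f k g‖ ^ 2 ∂μ) →
  ∀ u : ℝ → H → ℂ, (∀ t, AEStronglyMeasurable (u t) μ) →
    (∀ t, Tendsto (fun N : ℕ => eLpNorm
      (fun g => u t g - ∑ k ∈ Finset.range N, Complex.exp (-(Complex.I * κ k * t)) * f k g) 2 μ)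
      atTop (𝓝 0)) →
    ∫⁻ t in Set.Icc a b, ∫⁻ g, ‖u t g‖ₑ ^ p ∂μ ≤
      ENNReal.ofReal
        (C * (∑' k, (1 + κ k) ^ ((d : ℝ) / 2 - ((d : ℝ) + 2) / p) * ∫ g, ‖f k g‖ ^ 2 ∂μ) ^ (p / 2))

/-- `(S_p)` holds on `H` -/
def StrK {N : ℕ} (H : Subgroup (SU N)) (d : ℕ) (p : ℝ) : Prop :=
  ∀ μ : Measure H, IsProbabilityMeasure μ → μ.IsMulLeftInvariant → ∀ a b : ℝ, a ≤ b →
    ∃ C : ℝ, StrIneqK H d μ p a b C

/-- the upper bound -/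
def MainUp : Prop := ∀ (N : ℕ) (H : Subgroup (SU N)) (T : Submodule ℝ (Matrix (Fin N) (Fin N) ℂ)) (d r : ℕ),
  IsClosed (H : Set (SU N)) → IsConnected (H : Set (SU N)) → SimpleH H → MaxAb H T →
  Module.finrank ℝ (Submodule.span ℝ (lie H)) = d → Module.finrank ℝ T = r → 2 ≤ r →
  ∀ p : ℝ, 2 + 8 / (d : ℝ) < p → 8 / (r : ℝ) < p → StrK H d p

/-- MAIN. LRDX gives the root data, KFRM the constant `c` and a frame, FORM `k`, GXOF the data `GX`, RVOF `RV`, STRV (StE) `StrG H c d p`, and every `KFrame` is a `FrameH` by KFRM. -/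
def M_MAIN : Prop := S_WFAC → S_RVOF → S_LRDX → S_KFRM → S_FORM → S_GXOF → S_STRV → MainUp

end

end LGR
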