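import Pool.Agent.LGR.StW

/-!
# Symmetric spaces: the lower bound

Module `X` proves `theorem t_X : M_X` (or `t_X : S_X` if there is no `M_X`) in the file `Pool/Agent/LGR/X.lean`, namespace `LGR`. Inner product of matrices: `⟨A, B⟩ = tr (A Bᴴ)`; for this `ad A` has the adjoint `ad Aᴴ`, and `X ↦ x X xᴴ` is unitary for `x ∈ SU(N)`.
-/

namespace LGR

open STZ MeasureTheory Matrix Filter

open scoped ComplexConjugate Matrix Real Topology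

noncomputable section

/-- A symmetric pair `(H, K)`: `σ` is an involutive automorphism of `H` with the differential `τ`, `K` is a closed subgroup between the group of the fixed points of `σ` and its identity component. The symmetric space is `M = H / K`, its tangent space at the base point is `{X ∈ lie H | τ X = -X}`. -/
structure SymP {N : ℕ} (H K : Subgroup (SU N)) (σ : H →* H)
    (τ : Matrix (Fin N) (Fin N) ℂ →ₗ[ℝ] Matrix (Fin N) (Fin N) ℂ) : Prop where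
  closed : IsClosed (K : Set (SU N))
  sub : K ≤ H
  cont : Continuous σ
  inv : ∀ g, σ (σ g) = g
  mem : ∀ X ∈ lie H, τ X ∈ lie H
  dif : ∀ X ∈ lie H, ∀ t : ℝ, σ (exH H X t) = exH H (τ X) t
  fix : ∀ k : H, k.1 ∈ K → σ k = k
  big : ∀ X ∈ lie H, τ X = X → X ∈ lie K
  ne : ∃ X ∈ lie H, τ X ≠ X

/-- `A` is a maximal abelian subspace of the tangent space -/
structure MaxAbP {N : ℕ} (H : Subgroup (SU N)) (τ : Matrix (Fin N) (Fin N) ℂ →ₗ[ℝ] Matrix (Fin N) (Fin N) ℂ)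
    (A : Submodule ℝ (Matrix (Fin N) (Fin N) ℂ)) : Prop where
  sub : ∀ X ∈ A, X ∈ lie H
  anti : ∀ X ∈ A, τ X = -X
  comm : ∀ X ∈ A, ∀ Y ∈ A, X * Y = Y * X
  max : ∀ X ∈ lie H, τ X = -X → (∀ Y ∈ A, X * Y = Y * X) → X ∈ A

/-- facts about `τ` -/
structure TSF {N : ℕ} (H : Subgroup (SU N)) (σ : H →* H)
    (τ : Matrix (Fin N) (Fin N) ℂ →ₗ[ℝ] Matrix (Fin N) (Fin N) ℂ) : Prop where
  inv : ∀ X ∈ lie H, τ (τ X) = X
  br : ∀ X ∈ lie H, ∀ Y ∈ lie H, τ (X * Y - Y * X) = τ X * τ Y - τ Y * τ X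
  tr : ∀ X ∈ lie H, ∀ Y ∈ lie H, (τ X * τ Y).trace = (X * Y).trace
  Ad : ∀ h : H, ∀ X ∈ lie H, τ (h.1.1 * X * h.1.1ᴴ) = (σ h).1.1 * τ X * (σ h).1.1ᴴ

/-- TAUS. `Ad`: both sides generate the same one-parameter group `σ (h exp(tX) h⁻¹)`; compare the derivatives of the matrices at `t = 0` (`EXF.der`). `inv`: the same. `br`: `Ad` for `h = exp (sY)`, derivative at `s = 0` (`τ` is linear, so continuous). `tr`: let `X` be a `KFrame` (KFRE); `τ ∘ X` is a `KFrame` too (the same structure constants), so both are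
`FrameH H c` by KFRM, hence `tr (τ X a τ X b) = tr (X a X b)`; bilinearity (`span`). -/
def S_TAUS : Prop := ∀ (N : ℕ) (H K : Subgroup (SU N)) (σ : H →* H)
  (τ : Matrix (Fin N) (Fin N) ℂ →ₗ[ℝ] Matrix (Fin N) (Fin N) ℂ), IsClosed (H : Set (SU N)) → SimpleH H →
  SymP H K σ τ → TSF H σ τ

def M_TAUS : Prop := S_LIEB → S_KFRM → S_KFRE → S_TAUS

/-- REGP. Take `H₁ ∈ A` with the smallest dimension of `Z(H₁) = {X ∈ lie H : τ X = -X, X H₁ = H₁ X}`. Suppose `X ∈ Z(H₁)` is not in `A`; then `X Y ≠ Y X` for some `Y ∈ A` (`max`). `ad H₁` and `ad Y` commute and are skew-adjoint, so they are simultaneously diagonalisable, with finitely many pairs of eigenvalues `(i α, i β)`; for small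
`s > 0` `α + s β = 0` only if `α = β = 0`, so `Z(H₁ + s Y) = Z(H₁) ∩ Z(Y)`, which is smaller. (Or: `[H₁ + sY, X'] = 0` for more values of `s` than the dimension.) -/
def S_REGP : Prop := ∀ (N : ℕ) (H K : Subgroup (SU N)) (σ : H →* H)
  (τ : Matrix (Fin N) (Fin N) ℂ →ₗ[ℝ] Matrix (Fin N) (Fin N) ℂ) (A : Submodule ℝ (Matrix (Fin N) (Fin N) ℂ)),
  IsClosed (H : Set (SU N)) → SymP H K σ τ → MaxAbP H τ A →
  ∃ H₁ ∈ A, ∀ X ∈ lie H, τ X = -X → X * H₁ = H₁ * X → X ∈ A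

def M_REGP : Prop := S_LIEB → S_REGP

/-- DIMQ. Let `A''` be a maximal abelian subspace of `{τ X = -X}` which contains `A'` and `X`, and `H₁`, `H₂` the elements of REGP for `A`, `A''`. There is a `k ∈ K` such that `k H₂ kᴴ` commutes with `H₁`: as LEMC (LEMC.lean), let `k` be a maximum of `-Re tr (k H₂ kᴴ H₁)` on the compact group `K`; for `U ∈ lie K` the derivative gives `Re tr (U (Z H₁ - H₁ Z)) = 0`,
`Z = k H₂ kᴴ`; `τ Z = -Z` by `TSF.Ad` (`σ k = k`), so `Z H₁ - H₁ Z` is fixed by `τ`, it is in `lie K`, and `Z H₁ = H₁ Z`. So `Z ∈ A`, hence `kᴴ A k` commutes with `H₂` and is in `A''`; and `kᴴ H₁ k` commutes with `H₂`, so it is in `A''`, hence `k A'' kᴴ` commutes with `H₁` and is in `A`. So `finrank A'' = finrank A = finrank A'`, `A'' = A'`. -/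
def S_DIMQ : Prop := ∀ (N : ℕ) (H K : Subgroup (SU N)) (σ : H →* H)
  (τ : Matrix (Fin N) (Fin N) ℂ →ₗ[ℝ] Matrix (Fin N) (Fin N) ℂ) (A : Submodule ℝ (Matrix (Fin N) (Fin N) ℂ)),
  IsClosed (H : Set (SU N)) → SimpleH H → SymP H K σ τ → MaxAbP H τ A →
  ∀ A' : Submodule ℝ (Matrix (Fin N) (Fin N) ℂ), (∀ X ∈ A', X ∈ lie H ∧ τ X = -X) →
    (∀ X ∈ A', ∀ Y ∈ A', X * Y = Y * X) → Module.finrank ℝ A' = Module.finrank ℝ A →
    ∀ X ∈ lie H, τ X = -X → (∀ Y ∈ A', X * Y = Y * X) → X ∈ A'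

def M_DIMQ : Prop := S_LIEB → S_TAUS → S_REGP → S_DIMQ

/-- CENX. LRDX for a maximal abelian subspace (which exists, finite dimension) gives root data. By CONJ `x = h ta(θ) h⁻¹`; `X₀ = hx x₀` regular (`TAF.reg`). The group `Z = {z ∈ H : z x = x z}` is closed, `D` and `h X₀ hᴴ` are in `lie Z`. LEMC for `Z`: for some `z ∈ Z` `z D zᴴ` commutes with `h X₀ hᴴ`; with `m = z⁻¹ h`: `mᴴ D m` commutes with `X₀`, so it
is `hx y` (`TAF.cent`). `x = z⁻¹ x z = m ta(θ) m⁻¹ = exp Y`, `Y = m (hx (2πθ)) mᴴ`, which commutes with `D = m (hx y) mᴴ`. -/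
def S_CENX : Prop := ∀ (N : ℕ) (H : Subgroup (SU N)), IsClosed (H : Set (SU N)) → IsConnected (H : Set (SU N)) →
  SimpleH H → ∀ x ∈ H, ∀ D ∈ lie H, x.1 * D = D * x.1 → ∃ Y ∈ lie H, Y * D = D * Y ∧ ex Y 1 = x

def M_CENX : Prop := S_LIEB → S_LEMC → S_TAUF → S_CONJ → S_LRDX → S_CENX

/-- the `e k` are an orthonormal basis of the sum of the eigenspaces of `ad δ` with positive eigenvalues in the complexification of `lie H` -/
structure NIL {N : ℕ} (H : Subgroup (SU N)) {n : ℕ} (e : Fin n → Matrix (Fin N) (Fin N) ℂ)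
    (δ : Matrix (Fin N) (Fin N) ℂ) : Prop where
  emem : ∀ k, e k - (e k)ᴴ ∈ lie H ∧ Complex.I • (e k + (e k)ᴴ) ∈ lie H
  orth : ∀ j k, (e j * (e k)ᴴ).trace = if j = k then 1 else 0
  orth2 : ∀ j k, (e j * e k).trace = 0
  del : δ = ∑ k, (e k * (e k)ᴴ - (e k)ᴴ * e k)
  dmem : (-Complex.I) • δ ∈ lie H
  eig : ∀ k, ∃ c : ℝ, 0 < c ∧ δ * e k - e k * δ = (c : ℂ) • e k
  span : ∀ X ∈ lie H, ∃ Y ∈ lie H, Y * δ = δ * Y ∧
    ∃ z : Fin n → ℂ, X = Y + ∑ k, (z k • e k - conj (z k) • (e k)ᴴ)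
  orthl : ∀ Y ∈ lie H, Y * δ = δ * Y → ∀ k, (e k * Y).trace = 0
  nn : ∀ i k, ∃ a : Fin n → ℂ, e i * e k - e k * e i = ∑ l, a l • e l ∧ a k = 0
  ln : ∀ Y ∈ lie H, Y * δ = δ * Y → ∀ k, ∃ a : Fin n → ℂ, Y * e k - e k * Y = ∑ l, a l • e l

/-- the `NIL` data of a symmetric pair -/
structure NILS {N : ℕ} (H : Subgroup (SU N)) (τ : Matrix (Fin N) (Fin N) ℂ →ₗ[ℝ] Matrix (Fin N) (Fin N) ℂ)
    (A : Submodule ℝ (Matrix (Fin N) (Fin N) ℂ)) {n : ℕ} (e : Fin n → Matrix (Fin N) (Fin N) ℂ)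
    (δ : Matrix (Fin N) (Fin N) ℂ) : Prop where
  nil : NIL H e δ
  dA : (-Complex.I) • δ ∈ A
  reg : ∀ X ∈ lie H, τ X = -X → X * δ = δ * X → X ∈ A
  cen : ∀ X ∈ lie H, X * δ = δ * X → ∀ Y ∈ A, X * Y = Y * X
  tau : ∀ k, ∃ t : Fin n → ℂ, (1 / 2 : ℂ) • (τ (e k - (e k)ᴴ) - Complex.I • τ (Complex.I • (e k + (e k)ᴴ))) =
    ∑ j, t j • (e j)ᴴ
  dim : n + Module.finrank ℝ A = Module.finrank ℝ (Submodule.span ℝ {X | X ∈ lie H ∧ τ X = -X})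
  pos : 0 < n

/-- NILP. Let `H₁ ∈ A` be from REGP and `h₁ = i H₁`, Hermitian. `G = lie H + i lie H` is closed under brackets and `ᴴ`. `ad h₁` is a self-adjoint operator on `G`, with real eigenvalues. Let `n` be the sum of its eigenspaces in `G` with positive eigenvalues, `n' = {Zᴴ : Z ∈ n}` those with negative eigenvalues, `l` the kernel, and `e k` an orthonormal basis
of `n` of eigenvectors; `G = n' + l + n` is an orthogonal sum. `δ = ∑ [e k, (e k)ᴴ]`; it does not depend on the orthonormal basis. `-i δ ∈ lie H`, because with `u = e - eᴴ`, `v = i (e + eᴴ)` in `lie H`: `u v - v u = 2 i [e, eᴴ]`. `δ` commutes with `h₁`.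
(1) `l` commutes with `A`: let `X ∈ lie H` commute with `H₁`; `X = X' + X''`, `τ X' = X'`, `τ X'' = -X''`; `X''` is in `A` by REGP; for `Y ∈ A` `W = [X', Y]` satisfies `τ W = -W` and commutes with `H₁`, so `W ∈ A`, and `⟨W, W'⟩ = ± ⟨X', [Y, W']⟩ = 0` for `W' ∈ A`, so `W = 0`.
(2) `τ` extended to `G` (complex linear; it is the left side of `tau` on `e k`) maps `n` to `n'`, because `τ H₁ = -H₁`, and it is unitary by `TSF.tr`; so `τ (-iδ) = iδ` (the images of the `e k` are an orthonormal basis of `n'`, and `∑ [f k, (f k)ᴴ] = -δ` for the basis `f k = (e k)ᴴ`, so for every orthonormal basis of `n'`). Hence `-iδ ∈ A` by REGP.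
(3) Positivity: let `y ∈ n` be a common eigenvector of `ad A`, `[δ, y] = c y` (`ad A` preserves `n` and is commutative and skew-adjoint, so we may take the `e k` to be common eigenvectors). `c ‖y‖² = ∑ k, (‖[(e k)ᴴ, y]‖² - ‖[e k, y]‖²)`, the first sum is `∑ ‖[yᴴ, e k]‖²`, the second is `‖ad y : n → n‖²` (Hilbert-Schmidt), equal to
the norm of its adjoint `P ad yᴴ : n → n`; so `c ‖y‖² = ∑ k, ‖(1 - P) [yᴴ, e k]‖² ≥ 0`, and if it is `0` then `[yᴴ, y] ∈ n`; but `[yᴴ, y]` commutes with `h₁`, so it is `0`, and `0 = tr ([yᴴ, y] h₁) = ± (eigenvalue) ‖y‖²`, a contradiction. So all eigenvalues of `ad δ` on `n` are positive, on `n'` negative, and `ad δ = 0` on `l` by (1).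
`reg`: `X` commutes with `δ`, so `X ∈ l`; REGP. `cen`: (1). `nn`: `[e i, e k]` is in `G`, it is an eigenvector of `ad δ` for the sum of the (positive) eigenvalues, so it is in `n` and orthogonal to `e k`. `ln`: the same. `dim`: the real space `(n' + n) ∩ lie H` has the dimension `2 n`, `τ` preserves it, and `ad H₁` exchanges its `± 1` eigenspaces, so both have
dimension `n`; and `{τ X = -X} ∩ l = A`. `pos`: if `n = 0` then `A` is central in `lie H`, it is an ideal, so `A = 0` or `A = lie H` (`SimpleH`), both are impossible (`A = 0`: every `X` with `τ X = -X` is in `A` by `reg`, `δ = 0`; but `SymP.ne`). -/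
def S_NILP : Prop := ∀ (N : ℕ) (H K : Subgroup (SU N)) (σ : H →* H)
  (τ : Matrix (Fin N) (Fin N) ℂ →ₗ[ℝ] Matrix (Fin N) (Fin N) ℂ) (A : Submodule ℝ (Matrix (Fin N) (Fin N) ℂ)),
  IsClosed (H : Set (SU N)) → SimpleH H → SymP H K σ τ → MaxAbP H τ A →
  ∃ (n : ℕ) (e : Fin n → Matrix (Fin N) (Fin N) ℂ) (δ : Matrix (Fin N) (Fin N) ℂ), NILS H τ A e δ

def M_NILP : Prop := S_LIEB → S_TAUS → S_REGP → S_NILP

/-! ### the functions -/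

/-- the compression of `Ad x` to the span of the `e k` -/
def cm {N n : ℕ} (e : Fin n → Matrix (Fin N) (Fin N) ℂ) (x : Matrix (Fin N) (Fin N) ℂ) :
    Matrix (Fin n) (Fin n) ℂ := fun j k => (x * e k * xᴴ * (e j)ᴴ).trace

/-- the component of `Ad x (e k)` orthogonal to the span of the `e j` -/
def ps {N n : ℕ} (e : Fin n → Matrix (Fin N) (Fin N) ℂ) (x : Matrix (Fin N) (Fin N) ℂ) (k : Fin n) :
    Matrix (Fin N) (Fin N) ℂ := x * e k * xᴴ - ∑ j, cm e x j k • e j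

/-- PHIB. `C = cm e x` is a compression of a unitary map, `∑ k, ‖ps k‖² = n - ∑ |C j k|² = tr (1 - Cᴴ C)`, `0 ≤ Cᴴ C ≤ 1`. `|det C|² = det (Cᴴ C) = ∏ λ i ≤ exp (-∑ (1 - λ i))`. -/
def S_PHIB : Prop := ∀ (N n : ℕ) (e : Fin n → Matrix (Fin N) (Fin N) ℂ),
  (∀ j k, (e j * (e k)ᴴ).trace = if j = k then 1 else 0) → cm e 1 = 1 ∧
  ∀ x : SU N, ‖(cm e x.1).det‖ ^ 2 ≤ Real.exp (-∑ k, ∑ i, ∑ j, ‖ps e x.1 k i j‖ ^ 2)

/-- an algebra of smooth functions on `H` -/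
structure SMA {N : ℕ} (H : Subgroup (SU N)) (𝒜 : Subalgebra ℂ (H → ℂ)) : Prop where
  c2 : ∀ f ∈ 𝒜, C2H f
  d : ∀ X ∈ lie H, ∀ f ∈ 𝒜, dH X f ∈ 𝒜
  cj : ∀ f ∈ 𝒜, (fun g => conj (f g)) ∈ 𝒜
  inv : ∀ f ∈ 𝒜, (fun g => f g⁻¹) ∈ 𝒜
  add : ∀ X ∈ lie H, ∀ Y ∈ lie H, ∀ f ∈ 𝒜, ∀ g, dH (X + Y) f g = dH X f g + dH Y f g
  smul : ∀ X ∈ lie H, ∀ s : ℝ, ∀ f ∈ 𝒜, ∀ g, dH ((s : ℂ) • X) f g = s * dH X f g
  comm : ∀ X ∈ lie H, ∀ Y ∈ lie H, ∀ f ∈ 𝒜, ∀ g,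
    dH X (dH Y f) g - dH Y (dH X f) g = dH (X * Y - Y * X) f g

/-- the algebra generated by the entries of `g` and `σ g` and their complex conjugates -/
def PG {N : ℕ} (H : Subgroup (SU N)) (σ : H →* H) : Subalgebra ℂ (H → ℂ) :=
  Algebra.adjoin ℂ (({f | ∃ i j, f = fun g : H => g.1.1 i j} ∪ {f | ∃ i j, f = fun g : H => conj (g.1.1 i j)}) ∪
    ({f | ∃ i j, f = fun g : H => (σ g).1.1 i j} ∪ {f | ∃ i j, f = fun g : H => conj ((σ g).1.1 i j)}))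

/-- PGXX. As PFFX (PFFX.lean). `σ (g exp(tX)) = σ g exp(t τ X)`, so `dH X` of the entry `i j` of `σ g` is `(σ g * τ X) i j`; `comm`: `TSF.br`. `inv`: `g⁻¹ = gᴴ`. -/
def S_PGXX : Prop := ∀ (N : ℕ) (H K : Subgroup (SU N)) (σ : H →* H)
  (τ : Matrix (Fin N) (Fin N) ℂ →ₗ[ℝ] Matrix (Fin N) (Fin N) ℂ), IsClosed (H : Set (SU N)) → SimpleH H →
  SymP H K σ τ → SMA H (PG H σ) ∧
    ∀ X ∈ lie H, ∀ (i j : Fin N) (g : H), dH X (fun g : H => (σ g).1.1 i j) g = ((σ g).1.1 * τ X) i j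

def M_PGXX : Prop := S_EXP → S_CALH → S_LIEB → S_TAUS → S_PGXX

/-- INVL. `(f ∘ inv)(g exp(tX)) = f (exp(-tX) g⁻¹) = f (g⁻¹ exp(-t Ad(g) X))`, so the second derivative of `f ∘ inv` in the direction `X` at `g` is the second derivative of `f` in the direction `Y = g X gᴴ` at `g⁻¹`. The `g X a gᴴ` are a frame (LIEB), and the sum over a frame of `dH Y (dH Y f)` is the same for all frames (two frames differ by an orthogonal matrix; `add`, `smul`). -/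
def S_INVL : Prop := ∀ (N : ℕ) (H : Subgroup (SU N)) (𝒜 : Subalgebra ℂ (H → ℂ)) (c : ℝ) (d : ℕ)
  (X : Fin d → Matrix (Fin N) (Fin N) ℂ) (κ : ℝ) (f : H → ℂ), IsClosed (H : Set (SU N)) → SMA H 𝒜 → FrameH H c X →
  f ∈ 𝒜 → EigH X κ f → EigH X κ (fun g => f g⁻¹)

def M_INVL : Prop := S_CALH → S_LIEB → S_INVL

/-- a highest weight function: `dH Y f = b tr (Y δ) f` for the `Y` which commute with `δ`, and `f` is killed by the (complex) vector fields `e k` -/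
structure HQF {N : ℕ} (H : Subgroup (SU N)) {n : ℕ} (e : Fin n → Matrix (Fin N) (Fin N) ℂ)
    (δ : Matrix (Fin N) (Fin N) ℂ) (𝒜 : Subalgebra ℂ (H → ℂ)) (b : ℝ) (f : H → ℂ) : Prop where
  mem : f ∈ 𝒜
  wt : ∀ Y ∈ lie H, Y * δ = δ * Y → ∀ g, dH Y f g = b * (Y * δ).trace * f g
  hw : ∀ k g, dH (e k - (e k)ᴴ) f g = Complex.I * dH (Complex.I • (e k + (e k)ᴴ)) f g

/-- HQPW. Leibniz' rule. -/
def S_HQPW : Prop := ∀ (N : ℕ) (H : Subgroup (SU N)) (n : ℕ) (e : Fin n → Matrix (Fin N) (Fin N) ℂ)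
  (δ : Matrix (Fin N) (Fin N) ℂ) (𝒜 : Subalgebra ℂ (H → ℂ)) (b : ℝ) (f : H → ℂ), NIL H e δ → SMA H 𝒜 →
  HQF H e δ 𝒜 b f → ∀ m : ℕ, HQF H e δ 𝒜 (m * b) (fun g => f g ^ m)

def M_HQPW : Prop := S_CALH → S_HQPW

/-- HQEI. The matrices `(e k - (e k)ᴴ)/√(2c)`, `i (e k + (e k)ᴴ)/√(2c)` and a `(-c tr)`-orthonormal basis `Y i` of `{Y ∈ lie H : Y δ = δ Y}` are a frame (`NIL.orth`, `orth2`, `orthl`, `span`), and the sum `∑ dH Y (dH Y f)` is the same for all frames. `u = e k - (e k)ᴴ`, `v = i (e k + (e k)ᴴ)`: `D_u f = i D_v f` everywhere, so `D_u D_u f + D_v D_v f = i (D_u D_v - D_v D_u) f = i dH (u v - v u) f`,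
`u v - v u = 2 i [e k, (e k)ᴴ]`, which commutes with `δ` (`NIL.eig`); so it is `i · b · 2i tr ([e k, (e k)ᴴ] δ) f = -2b tr ([e k, (e k)ᴴ] δ) f`. The sum over `k`, divided by `2c`: `-(b/c) tr (δ²) f`. The `Y i`: `∑ (b tr (Y i δ))² f = -(b²/c) tr (δ²) f`, because `-iδ = ∑ a i Y i` with `a i = -c tr (Y i (-iδ))`, and `∑ (a i)² = -c tr ((-iδ)²) = c tr (δ²)`. -/
def S_HQEI : Prop := ∀ (N : ℕ) (H : Subgroup (SU N)) (n : ℕ) (e : Fin n → Matrix (Fin N) (Fin N) ℂ)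
  (δ : Matrix (Fin N) (Fin N) ℂ) (𝒜 : Subalgebra ℂ (H → ℂ)) (b : ℝ) (f : H → ℂ) (c : ℝ) (d : ℕ)
  (X : Fin d → Matrix (Fin N) (Fin N) ℂ), IsClosed (H : Set (SU N)) → 0 < c → FrameH H c X → NIL H e δ → SMA H 𝒜 →
  HQF H e δ 𝒜 b f → EigH X ((b ^ 2 + b) * (δ * δ).trace.re / c) f

def M_HQEI : Prop := S_CALH → S_LIEB → S_HQEI

/-- DERS. `x = (σ g)ᴴ g`, `C = cm e x`, `f g = det C`. For `g exp(tX)`: `x` becomes `exp(-t τ X) x exp(tX)`, so the derivative of `C j k` is `tr (x [X, e k] xᴴ (e j)ᴴ) - tr ([τ X, x e k xᴴ] (e j)ᴴ)`, and the second term is `-tr (x e k xᴴ [(e j)ᴴ, τ X])`. If `[X, e k] = ∑ a l k • e l` and `[(e j)ᴴ, τ X] = ∑ b j l • (e l)ᴴ` the derivative of `C` is `C a - b C`, and the derivative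
of `det C` is `(tr a - tr b) det C` (`tr (adjugate C * (C a - b C))`). All is complex linear in `X`, with `τ` extended to `lie H + i lie H`. `wt`: `X = Y`: `tr a = ∑ k, tr ([Y, e k] (e k)ᴴ) = tr (Y δ)`; `τ Y` commutes with `δ` (`τ (-iδ) = iδ`), `tr b = ∑ j, tr ([(e j)ᴴ, τ Y] e j) = tr (τ Y [e j, (e j)ᴴ]) = tr (τ Y δ) = -tr (Y δ)` (`TSF.tr`).
`hw`: `X = e i`, `2 (derivative) = D_u f - i D_v f`: `tr a = 0` by `NIL.nn`; `τ (e i) = ∑ t m • (e m)ᴴ` (`NILS.tau`), `[(e j)ᴴ, (e m)ᴴ] = [e m, e j]ᴴ` has no component `(e j)ᴴ`, so `tr b = 0`. Last claims: `σ k = k`, `σ 1 = 1`. -/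
def S_DERS : Prop := ∀ (N : ℕ) (H K : Subgroup (SU N)) (σ : H →* H)
  (τ : Matrix (Fin N) (Fin N) ℂ →ₗ[ℝ] Matrix (Fin N) (Fin N) ℂ) (A : Submodule ℝ (Matrix (Fin N) (Fin N) ℂ))
  (n : ℕ) (e : Fin n → Matrix (Fin N) (Fin N) ℂ) (δ : Matrix (Fin N) (Fin N) ℂ),
  IsClosed (H : Set (SU N)) → SimpleH H → SymP H K σ τ → NILS H τ A e δ →
  (∀ X ∈ A, τ X = -X) →
  HQF H e δ (PG H σ) 2 (fun g => (cm e ((σ g).1.1ᴴ * g.1.1)).det) ∧
  (cm e ((σ (1 : H)).1.1ᴴ * (1 : H).1.1)).det = 1 ∧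
  ∀ k g : H, k.1 ∈ K → (cm e ((σ (k * g)).1.1ᴴ * (k * g).1.1)).det = (cm e ((σ g).1.1ᴴ * g.1.1)).det

def M_DERS : Prop := S_CALH → S_LIEB → S_TAUS → S_PGXX → S_DERS

/-! ### the size of the functions -/

/-- ZERS. `x = (σ g)ᴴ g`. `ps = 0`: `Ad x` maps the span `n` of the `e k` to itself, and it is unitary there, so `x δ xᴴ = ∑ [x e k xᴴ, (x e k xᴴ)ᴴ] = δ`. CENX for `D = -iδ`: `x = exp Y`, `Y` commutes with `δ`, so with `A` (`NILS.cen`), and `x` commutes with `A`. Let `X' = (σ g)ᴴ X (σ g)`, `τ X = -X`, and `[X', e k] ∈ n` for all `k`. First: `X'` commutes with `δ`: let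
`X' = Y' + ∑ (z k e k - conj (z k) (e k)ᴴ)` (`NIL.span`), `W = ∑ z k e k ∈ n`; for an eigenvalue `c > 0` of `ad δ` let `W_c` be the component; `[X', W_c] ∈ n` and its component which commutes with `δ` is `-[(W_c)ᴴ, W_c]` (the other terms of `X'` have other eigenvalues), so this is `0`, and `0 = tr ([(W_c)ᴴ, W_c] δ) = ± c ‖W_c‖²`. So `W = 0`. Second: `A₁ = (σ g) A (σ g)ᴴ`:
for `Y ∈ A`: `τ ((σ g) Y (σ g)ᴴ) = g τ Y gᴴ = -g Y gᴴ` (`TSF.Ad`, `σ σ g = g`) `= -(σ g) x Y xᴴ (σ g)ᴴ = -(σ g) Y (σ g)ᴴ`. So `A₁` is an abelian subspace of `{τ = -1}` of the dimension of `A`, and `X` commutes with it (`X'` commutes with `δ`, so with `A`). DIMQ: `X ∈ A₁`, `X' ∈ A`. -/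
def S_ZERS : Prop := ∀ (N : ℕ) (H K : Subgroup (SU N)) (σ : H →* H)
  (τ : Matrix (Fin N) (Fin N) ℂ →ₗ[ℝ] Matrix (Fin N) (Fin N) ℂ) (A : Submodule ℝ (Matrix (Fin N) (Fin N) ℂ))
  (n : ℕ) (e : Fin n → Matrix (Fin N) (Fin N) ℂ) (δ : Matrix (Fin N) (Fin N) ℂ),
  IsClosed (H : Set (SU N)) → IsConnected (H : Set (SU N)) → SimpleH H → SymP H K σ τ → MaxAbP H τ A →
  NILS H τ A e δ → ∀ g : H, (∀ k, ps e ((σ g).1.1ᴴ * g.1.1) k = 0) → ∀ X ∈ lie H, τ X = -X →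
    (∀ k, ∃ a : Fin n → ℂ, ((σ g).1.1ᴴ * X * (σ g).1.1) * e k - e k * ((σ g).1.1ᴴ * X * (σ g).1.1) = ∑ l, a l • e l) →
    (σ g).1.1ᴴ * X * (σ g).1.1 ∈ A

def M_ZERS : Prop := S_LIEB → S_TAUS → S_DIMQ → S_CENX → S_ZERS

/-- the product of the `exp (s i X i)` -/
def eprod {N : ℕ} (H : Subgroup (SU N)) {n : ℕ} (X : Fin n → Matrix (Fin N) (Fin N) ℂ) (s : Fin n → ℝ) : H :=
  (List.ofFn fun i => exH H (X i) (s i)).prod

/-- LIPS. Let `x₀ = (σ g₀)ᴴ g₀`, `B(X) k = (1 - P) [X', e k]`, `X' = (σ g₀)ᴴ X σ g₀`, `P` the orthogonal projection on the span of the `e j`, a linear map on `{X ∈ lie H : τ X = -X}`; by ZERS its kernel has dimension at most `finrank A`, so its rank is at least `n` (`NILS.dim`): there are `X 1, …, X n` with `τ X = -X` and linearly independent `B (X i)`. For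
`g' = eprod X s * g`: `(σ g')ᴴ g' = (σ g)ᴴ exp(s n X n) ⋯ exp(s 1 X 1) exp(s 1 X 1) ⋯ exp(s n X n) g` (`σ (exp(sX)) = exp(-sX)`). So `Ψ(s, g) = ps e ((σ g')ᴴ g')` is continuously differentiable in `s`, with a derivative which is continuous in `(s, g)`, and at `(0, g₀)` the derivative in the direction `s i` is `k ↦ (1 - P) [2 X i', x₀ e k x₀ᴴ]`, `x₀ e k x₀ᴴ` is in the span
of the `e j`, and `Ad x₀` is unitary on the span; so these `n` derivatives are linearly independent (over `ℝ`), and the derivative at `(0, g₀)` is injective. So near `(0, g₀)`: `‖Ψ(s, g) - Ψ(s', g)‖ ≥ c ‖s - s'‖` (mean value theorem: `Ψ(s, g) - Ψ(s', g) - L (s - s')` is at most `(c₀/2) ‖s - s'‖` if the derivatives are within `c₀/2` of `L`). -/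
def S_LIPS : Prop := ∀ (N : ℕ) (H K : Subgroup (SU N)) (σ : H →* H)
  (τ : Matrix (Fin N) (Fin N) ℂ →ₗ[ℝ] Matrix (Fin N) (Fin N) ℂ) (A : Submodule ℝ (Matrix (Fin N) (Fin N) ℂ))
  (n : ℕ) (e : Fin n → Matrix (Fin N) (Fin N) ℂ) (δ : Matrix (Fin N) (Fin N) ℂ),
  IsClosed (H : Set (SU N)) → IsConnected (H : Set (SU N)) → SimpleH H → SymP H K σ τ → MaxAbP H τ A →
  NILS H τ A e δ → ∀ g₀ : H, (∀ k, ps e ((σ g₀).1.1ᴴ * g₀.1.1) k = 0) →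
  ∃ (X : Fin n → Matrix (Fin N) (Fin N) ℂ) (c η : ℝ) (U : Set H), (∀ i, X i ∈ lie H) ∧ 0 < c ∧ 0 < η ∧ U ∈ 𝓝 g₀ ∧
    ∀ g ∈ U, ∀ s s' : Fin n → ℝ, (∀ i, |s i| ≤ η) → (∀ i, |s' i| ≤ η) → c * ‖s - s'‖ ≤
      ‖(fun q : Fin n × Fin N × Fin N => ps e ((σ (eprod H X s * g)).1.1ᴴ * (eprod H X s * g).1.1) q.1 q.2.1 q.2.2 -
        ps e ((σ (eprod H X s' * g)).1.1ᴴ * (eprod H X s' * g).1.1) q.1 q.2.1 q.2.2)‖

def M_LIPS : Prop := S_EXP → S_LIEB → S_TAUS → S_ZERS → S_LIPS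

/-- VLEM. Near a zero `g₀`: take an open `V ∋ g₀` and `η' ≤ η` with `(eprod s)⁻¹ V ⊆ U` for `|s i| ≤ η'`. Let `S = {‖Ψ‖ ≤ ε}`. By left invariance `μ (S ∩ V) = (2η')^(-n) ∫_s ∫_g 1_(S ∩ V)(eprod s * g) = (2η')^(-n) ∫_(g ∈ U) vol {s : eprod s * g ∈ S ∩ V}`, and any two points `s, s'` of the last set have `c ‖s - s'‖ ≤ 2ε` (supremum norm), so it is in a cube of side
`4ε/c`. Cover the compact zero set by finitely many `V`; outside of them `‖Ψ‖ ≥ η₀ > 0`. (For `ε ≥ η₀`: `μ ≤ 1 ≤ (ε/η₀)^n`.) -/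
def S_VLEM : Prop := ∀ (N : ℕ) (H : Subgroup (SU N)), IsClosed (H : Set (SU N)) →
  ∀ (μ : Measure H) [IsProbabilityMeasure μ] [μ.IsMulLeftInvariant] (n : ℕ) (ι : Type) [Fintype ι]
  (Ψ : H → ι → ℂ), Continuous Ψ →
  (∀ g₀, Ψ g₀ = 0 → ∃ (X : Fin n → Matrix (Fin N) (Fin N) ℂ) (c η : ℝ) (U : Set H), (∀ i, X i ∈ lie H) ∧ 0 < c ∧
    0 < η ∧ U ∈ 𝓝 g₀ ∧ ∀ g ∈ U, ∀ s s' : Fin n → ℝ, (∀ i, |s i| ≤ η) → (∀ i, |s' i| ≤ η) →
      c * ‖s - s'‖ ≤ ‖Ψ (eprod H X s * g) - Ψ (eprod H X s' * g)‖) →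
  ∃ C : ℝ, 0 ≤ C ∧ ∀ ε : ℝ, 0 < ε → μ {g | ‖Ψ g‖ ≤ ε} ≤ ENNReal.ofReal (C * ε ^ n)

def M_VLEM : Prop := S_EXP → S_CALH → S_VLEM

/-- DECA. Split into `‖Ψ‖ ≤ 1/√m` and the shells `2^j/√m < ‖Ψ‖ ≤ 2^(j+1)/√m`, `j ≥ 0`: the sum of the `exp (-c₁ 4^j) C (2^(j+1)/√m)^n`. -/
def S_DECA : Prop := ∀ (M : Type) [TopologicalSpace M] [CompactSpace M] [MeasurableSpace M] [BorelSpace M]
  (μ : Measure M) [IsProbabilityMeasure μ] (n : ℕ) (ψ : M → ℝ), Continuous ψ → (∀ g, 0 ≤ ψ g) → ∀ C : ℝ, 0 ≤ C →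
  (∀ ε : ℝ, 0 < ε → μ {g | ψ g ≤ ε} ≤ ENNReal.ofReal (C * ε ^ n)) → ∀ c₁ : ℝ, 0 < c₁ → ∃ C' : ℝ, 0 ≤ C' ∧ ∀ m : ℕ, 1 ≤ m →
    ∫ g, Real.exp (-(c₁ * m * ψ g ^ 2)) ∂μ ≤ C' * (m : ℝ) ^ (-((n : ℝ) / 2))

/-- BALL. On the set `B = {g : all |g i j - 1 i j| ≤ ρ}`, `ρ = 1/(2 L N² q)` (with `L ≥ 1`), `‖F‖ ≥ 1 - 1/(2q)`, so `‖F‖^q ≥ 1/2`. `μ(B) ≥ c ρ^(2N²)`: a maximal set of points `h j ∈ H` with pairwise Hilbert-Schmidt distance at least `ρ/N` has at most `C ρ^(-2N²)` elements (disjoint balls in the bounded set of the unitary matrices, in `ℂ^(N²)`; or pigeonhole with small cubes), and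
the sets `h j B'`, `B'` the ball around `1` of radius `ρ/N` for the Hilbert-Schmidt norm (unitarily invariant), `B' ⊆ B`, cover `H`. -/
def S_BALL : Prop := ∀ (N : ℕ) (H : Subgroup (SU N)), IsClosed (H : Set (SU N)) →
  ∀ (μ : Measure H) [IsProbabilityMeasure μ] [μ.IsMulLeftInvariant] (F : H → ℂ) (L : ℝ), Continuous F →
  (∀ g : H, ‖F g - 1‖ ≤ L * ∑ i, ∑ j, ‖g.1.1 i j - (1 : Matrix (Fin N) (Fin N) ℂ) i j‖) →
  ∃ c a : ℝ, 0 < c ∧ 0 < a ∧ ∀ q : ℝ, 1 ≤ q → c * q ^ (-a) ≤ ∫ g, ‖F g‖ ^ q ∂μ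

/-- SLIP. `σ` is Lipschitz at `1`. By CLSU every `g ∈ H` near `1` is `exp X` with `X ∈ lie H` small, and then `‖X‖ ≤ 2 ‖exp X - 1‖`; `σ g = exp (τ X)`, `‖exp (τ X) - 1‖ ≤ 2 ‖τ X‖ ≤ C ‖X‖`. For the other `g` the left side is bounded and the sum on the right is bounded below. -/
def S_SLIP : Prop := ∀ (N : ℕ) (H K : Subgroup (SU N)) (σ : H →* H)
  (τ : Matrix (Fin N) (Fin N) ℂ →ₗ[ℝ] Matrix (Fin N) (Fin N) ℂ), IsClosed (H : Set (SU N)) → SymP H K σ τ →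
  ∃ L : ℝ, 0 ≤ L ∧ ∀ g : H, ∑ i, ∑ j, ‖(σ g).1.1 i j - (1 : Matrix (Fin N) (Fin N) ℂ) i j‖ ≤
    L * ∑ i, ∑ j, ‖g.1.1 i j - (1 : Matrix (Fin N) (Fin N) ℂ) i j‖

def M_SLIP : Prop := S_EXP → S_LIEB → S_CLSU → S_SLIP

/-- LOGA. Let `β k = β* + (p/2)^k (β 0 - β*)`, `β 0 = β`, `β* = S/(p/2 - 1)`, so `β > β*` and `β (k+1) = β k p/2 - S`, `β k → ∞`. Claim: for every `k` there is `C k` with `b (2m) ≤ C k m^(-β k)` for all `m ≥ 1`. Step: for `m' ≥ 1` let `m = ⌊2m'/p⌋`. If `m ≥ 1`: `p m ≤ 2 m'`, so `b (2m') ≤ b (p m) ≤ C₁ m^S (b (2m))^(p/2) ≤ C m^(-β (k+1))`, and `c m' ≤ m ≤ m'`. If `m = 0` then `m' ≤ p/2` and `b (2m') ≤ b 2`. For large `k` this contradicts `b q ≥ c q^(-a)`. -/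
def S_LOGA : Prop := ∀ (b : ℝ → ℝ) (p S β c a C₀ C₁ : ℝ), (∀ x y, 0 ≤ x → x ≤ y → b y ≤ b x) → 2 < p → 0 < c → 0 < a →
  (∀ q, 1 ≤ q → c * q ^ (-a) ≤ b q) → 0 ≤ C₀ → (∀ m : ℕ, 1 ≤ m → b (2 * m) ≤ C₀ * (m : ℝ) ^ (-β)) →
  0 ≤ C₁ → (∀ m : ℕ, 1 ≤ m → b (p * m) ≤ C₁ * (m : ℝ) ^ S * (b (2 * m)) ^ (p / 2)) → S < β * (p / 2 - 1) → False

/-! ### the theorem -/

/-- `(S_p)` on the symmetric space `M = H / K` of dimension `d` with the metric of the negative Killing form of `H` (of dimension `D`), on the time interval `[a, b]` with the constant `C ^ (1 / p)`. Functions on `M` are functions on `H` which are invariant under right translations by `K`; on such functions the Laplace-Beltrami operator of `M` is the sum of the squares of the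
derivatives in the directions of an orthonormal basis of `lie H`. -/
def StrIneqM {N : ℕ} (H K : Subgroup (SU N)) (D d : ℕ) (μ : Measure H) (p a b C : ℝ) : Prop :=
  ∀ X : Fin D → Matrix (Fin N) (Fin N) ℂ, KFrame H X →
  ∀ (κ : ℕ → ℝ) (f : ℕ → H → ℂ), Function.Injective κ → (∀ k, EigH X (κ k) (f k)) →
    (∀ k, ∀ g h : H, h.1 ∈ K → f k (g * h) = f k g) →
    Summable (fun k => (1 + κ k) ^ ((d : ℝ) / 2 - ((d : ℝ) + 2) / p) * ∫ g, ‖f k g‖ ^ 2 ∂μ) →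
  ∀ u : ℝ → H → ℂ, (∀ t, AEStronglyMeasurable (u t) μ) →
    (∀ t, Tendsto (fun N : ℕ => eLpNorm
      (fun g => u t g - ∑ k ∈ Finset.range N, Complex.exp (-(Complex.I * κ k * t)) * f k g) 2 μ)
      atTop (𝓝 0)) →
    ∫⁻ t in Set.Icc a b, ∫⁻ g, ‖u t g‖ₑ ^ p ∂μ ≤
      ENNReal.ofReal
        (C * (∑' k, (1 + κ k) ^ ((d : ℝ) / 2 - ((d : ℝ) + 2) / p) * ∫ g, ‖f k g‖ ^ 2 ∂μ) ^ (p / 2))

/-- the lower bound for symmetric spaces -/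
def MainLowM : Prop := ∀ (N : ℕ) (H K : Subgroup (SU N)) (σ : H →* H)
  (τ : Matrix (Fin N) (Fin N) ℂ →ₗ[ℝ] Matrix (Fin N) (Fin N) ℂ) (A : Submodule ℝ (Matrix (Fin N) (Fin N) ℂ)) (D d r : ℕ),
  IsClosed (H : Set (SU N)) → IsConnected (H : Set (SU N)) → SimpleH H → SymP H K σ τ → MaxAbP H τ A →
  Module.finrank ℝ (Submodule.span ℝ (lie H)) = D →
  Module.finrank ℝ (Submodule.span ℝ {X | X ∈ lie H ∧ τ X = -X}) = d → Module.finrank ℝ A = r →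
  ∀ p : ℝ, 2 < p → p < 2 + 8 / ((d : ℝ) + r) → ∀ μ : Measure H, IsProbabilityMeasure μ → μ.IsMulLeftInvariant →
  ∀ a b C : ℝ, a < b → ¬ StrIneqM H K D d μ p a b C

/-- LOWM. `e`, `δ` from NILP, `n = d - r > 0`. `f₀ g = det (cm e ((σ g)ᴴ g))`, `F g = f₀ g⁻¹`; `F (g k) = F g` for `k ∈ K` (DERS). A frame `X` from KFRE; `FrameH H c X` by KFRM. `F ^ m` is an eigenfunction with `κ m = (4 m² + 2 m) tr (δ²)/c` (DERS, HQPW, HQEI, INVL), `tr (δ²) > 0` (`δ ≠ 0`, as `n > 0`). `b q = ∫ ‖F‖^q = ∫ ‖f₀‖^q` (inversion invariance of `μ`, HAAR). `‖f₀‖ ≤ 1`, and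
`b (2m) ≤ ∫ exp (-m ∑ ‖ps‖²) ≤ C₀ m^(-n/2)` by PHIB, LIPS, VLEM (`Ψ` the entries of `ps`, the supremum norm is at most the euclidean norm), DECA. BALL for `f₀`: `‖f₀ g - 1‖ ≤ C ‖x - 1‖`, `x = (σ g)ᴴ g` (a polynomial in the entries of `x`, `xᴴ`, which is `1` at `x = 1`), and `‖x - 1‖ = ‖g - σ g‖ ≤ ‖g - 1‖ + ‖σ g - 1‖`, SLIP. Suppose `StrIneqM`: for the single eigenfunction `F ^ m` (as in LOWK, LOWK.lean) `b (p m) ≤ C₁ m^(p s) b (2m)^(p/2)`, `s = d/2 - (d+2)/p` (`c₁ m² ≤ 1 + κ m ≤ c₂ m²`). LOGA with `S = p s`, `β = n/2`: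
`p s < (n/2)(p/2 - 1)` because `p < 2 + 8/(d + r)`, `n = d - r`. -/
def M_LOWM : Prop := S_HAAR → S_LIEB → S_SLIP → S_KFRM → S_KFRE → S_TAUS → S_NILP → S_PHIB → S_PGXX → S_INVL → S_HQPW → S_HQEI →
  S_DERS → S_LIPS → S_VLEM → S_DECA → S_BALL → S_LOGA → MainLowM

end

end LGR
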