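import Pool.Agent.LGR.StR

/-!
# Simple compact Lie groups, block W: the lower bound

The functions `f ^ m`, `f` a matrix coefficient of a highest weight vector. Module `X` proves `theorem t_X : M_X` (or `t_X : S_X` if there is no `M_X`) in the file `Pool/Agent/LGR/X.lean`, namespace `LGR`.
-/

namespace LGR

open STZ MeasureTheory Matrix Filter

open scoped ComplexConjugate Matrix Real Topology

noncomputable section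

/-- DOMW. Among the `μ = w' l` with `μ - w l = ∑ n i • B i`, `n ≥ 0`, take one with the largest `∑ p ∈ pos Φ, p.2 ⬝ᵥ μ`. If `μ i < 0` then `rf (B i, e i) μ = μ - μ i • B i` is larger (RHOF: `∑ p, p.2 ⬝ᵥ B i = 2`). So `μ i ≥ 0` for all `i`. `μ i = 0` is impossible: the reflection would fix `μ = w' l`, so `w'⁻¹ rf w'` fixes `l`, and it is `1` by CHAM, but its determinant is `-1`. So
`Reg μ`, and `w' = 1` by CHAM. -/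
def S_DOMW : Prop := ∀ (r : ℕ) (Φ : RT r) (B : Matrix (Fin r) (Fin r) ℤ), IRD Φ B → WFF Φ B →
  ∀ l, Reg l → ∀ w ∈ WF Φ, ∃ n : Fin r → ℤ, (∀ i, 0 ≤ n i) ∧ l - w *ᵥ l = ∑ i, n i • B i

def M_DOMW : Prop := S_RHOF → S_CHAM → S_DOMW

/-- HGTW. By DENO `AT 1 θ = ∑ S ⊆ pos Φ, (-1)^|S| eu (dz (1 - ∑ S, p.1) θ)`, so by TPOL the coefficient of `AT 1 * tp m` at `μ + 1` is `∑ S, (-1)^|S| m (μ + ∑ S, p.1)`. Second claim: let `m ν ≠ 0` and take `μ` with `m μ ≠ 0`, `μ - ν = ∑ n i • B i`, `n ≥ 0`, and the largest `∑ p, p.2 ⬝ᵥ μ`. The terms with `S ≠ ∅` vanish (RHOF: the sum is larger by `≥ 2`), so the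
coefficient at `μ + 1` is `m μ ≠ 0`, and by `AT l = ∑ w, det w eu (dz (w l))` `μ + 1 = w l` for some `w`; DOMW. First claim: the coefficient at `l`: it is `1` for `AT l` (CHAM), and `m (l - 1 + ∑ S, p.1) = 0` for `S ≠ ∅` by the second claim. -/
def S_HGTW : Prop := ∀ (r : ℕ) (Φ : RT r) (B : Matrix (Fin r) (Fin r) ℤ), IRD Φ B → WFF Φ B →
  ∀ l, Reg l → ∀ m : (Fin r → ℤ) →₀ ℤ, (∀ θ, AT (rd Φ) 1 θ * tp m θ = AT (rd Φ) l θ) →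
    m (l - 1) = 1 ∧ ∀ ν, m ν ≠ 0 → ∃ n : Fin r → ℤ, (∀ i, 0 ≤ n i) ∧ l - 1 - ν = ∑ i, n i • B i

def M_HGTW : Prop := S_RHOF → S_CHAM → S_DENO → S_TPOL → S_DOMW → S_HGTW

/-- QCMP. `δ = l - (ν + 1) = ∑ n i • B i`, `Q l = Q (ν + 1) + Q δ + (ν + 1)·Aδ` (QUAD), `(ν + 1)·A (B i) = ((ν i + 1)/2) (B i·A B i) > 0`. So `Q δ = 0`, `δ = 0` by `pd`. -/
def S_QCMP : Prop := ∀ (r : ℕ) (Φ : RT r) (B : Matrix (Fin r) (Fin r) ℤ), IRD Φ B → WFF Φ B →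
  ∀ ν l : Fin r → ℤ, (∀ i, 0 ≤ ν i) → (rd Φ).Q l = (rd Φ).Q (ν + 1) →
    ∀ n : Fin r → ℤ, (∀ i, 0 ≤ n i) → l - 1 - ν = ∑ i, n i • B i → l = ν + 1

def M_QCMP : Prop := S_QUAD → S_QCMP

/-- `f` is a highest weight function of the weight `ν` -/
structure HWFN {N : ℕ} {H : Subgroup (SU N)} {r : ℕ} (Φ : RT r) (Hc : Fin r → Matrix (Fin N) (Fin N) ℂ)
    (E : (Fin r → ℤ) × (Fin r → ℤ) → Matrix (Fin N) (Fin N) ℂ) (ν : Fin r → ℤ) (f : H → ℂ) : Prop where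
  mem : f ∈ PF H
  wt : ∀ (x : Fin r → ℝ) (g : H), dH (hx Hc x) f g = Complex.I * ((∑ j, (ν j : ℝ) * x j : ℝ) : ℂ) * f g
  hw : ∀ p ∈ pos Φ, ∀ g : H, dH (E p - (E p)ᴴ) f g = Complex.I * dH (Complex.I • (E p + (E p)ᴴ)) f g
  one : f 1 = 1
  le : ∀ g, ‖f g‖ ≤ 1
  lt : ∀ (t g : H) (θ : Fin r → ℝ), t.1 = ta Hc θ → f (t * g) = eu (dz ν θ) * f g
  rt : ∀ (t g : H) (θ : Fin r → ℝ), t.1 = ta Hc θ → f (g * t) = eu (dz ν θ) * f g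

/-- HPOW. Leibniz' rule. -/
def S_HPOW : Prop := ∀ (N : ℕ) (H : Subgroup (SU N)) (r : ℕ) (Φ : RT r) (B : Matrix (Fin r) (Fin r) ℤ)
  (Hc : Fin r → Matrix (Fin N) (Fin N) ℂ) (E : (Fin r → ℤ) × (Fin r → ℤ) → Matrix (Fin N) (Fin N) ℂ),
  IsClosed (H : Set (SU N)) → LRD H Φ B Hc E → ∀ (ν : Fin r → ℤ) (f : H → ℂ), HWFN Φ Hc E ν f →
    ∀ m : ℕ, HWFN Φ Hc E ((m : ℤ) • ν) (fun g => f g ^ m)

def M_HPOW : Prop := S_CALH → S_LIEB → S_PFFX → S_TAUF → S_HPOW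

/-- HEIG. ADFR for `β Y Z = dH Y (dH Z f) g`. Torus part: `∑ j, (i ν·z j)² f = -(k/2) (ν·Aν) f` (`wt` twice, `KC.z`). `p ∈ pos Φ`, `u = E - Eᴴ`, `v = i (E + Eᴴ)`: `D_u f = i D_v f` and `D_v f = -i D_u f`, so `D_u D_u f + D_v D_v f = i (D_u D_v - D_v D_u) f = i dH (u v - v u) f`, `u v - v u = 2 hx (p.2)` (`LRD.cor`), so it is
`2 i · i (p.2·ν) f = -2 (p.2·ν) f`. Divide by `2 c tr (E Eᴴ)` and use `KC.p`: `-(k/2) (p.1·Aν) f`. The sum over `p`: `∑ p.1 = 2` (RHOF). Total: `-(k/2) (ν·Aν + 2 (1·Aν)) f = -k (Q (ν + 1) - Q 1) f` (QUAD). -/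
def S_HEIG : Prop := ∀ (N : ℕ) (H : Subgroup (SU N)) (r : ℕ) (Φ : RT r) (B : Matrix (Fin r) (Fin r) ℤ)
  (Hc : Fin r → Matrix (Fin N) (Fin N) ℂ) (E : (Fin r → ℤ) × (Fin r → ℤ) → Matrix (Fin N) (Fin N) ℂ)
  (c k : ℝ) (d : ℕ) (X : Fin d → Matrix (Fin N) (Fin N) ℂ),
  IsClosed (H : Set (SU N)) → LRD H Φ B Hc E → KC Φ Hc E c k → FrameH H c X →
  ∀ (ν : Fin r → ℤ) (f : H → ℂ), HWFN Φ Hc E ν f → EigH X (k * (((rd Φ).Q (ν + 1) : ℝ) - (rd Φ).Q 1)) f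

def M_HEIG : Prop := S_CALH → S_LIEB → S_WFAC → S_RHOF → S_QUAD → S_PFFX → S_TAUF → S_ADFR → S_HEIG

/-- HEXI. `σ` from SURJ, `U`, `μ k` from TRES, `m = ∑ k, single (μ k) 1`, so `AT 1 tp m = AT l` for all `θ` (`HWR.wcf`). HGTW: exactly one `μ k` is `l - 1`; let `v` be the column `k` of `U`, a unit vector with `σ (ta θ) v = eu (dz (l - 1) θ) v`. For `p ∈ pos Φ` let `A = (dr σ (E - Eᴴ) - i dr σ (i (E + Eᴴ)))/2` (the differential of `E`). By `DRF.ad`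
and `TAF.Ade` `σ (ta θ) A σ (ta θ)ᴴ = eu (dz p.1 θ) A`, so `A v` has the weight `l - 1 + p.1`; if `A v ≠ 0` this is some `μ k'` (expand in the columns of `U`), so `-p.1 = ∑ n i • B i` with `n ≥ 0` by HGTW, a contradiction (`WFF.ppos`, `p.1 ≠ 0`, `det`). So `A v = 0`. `f g = ∑ i j, conj (v i) * σ g i j * v j`, `dH X f g = vᴴ σ g dr σ X v`. `wt`: differentiate
`σ (ta θ) v`, or `DRF.ex`. `le`: Cauchy-Schwarz, `σ g` is unitary. -/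
def S_HEXI : Prop := ∀ (N : ℕ) (H : Subgroup (SU N)) (r : ℕ) (Φ : RT r) (B : Matrix (Fin r) (Fin r) ℤ)
  (Hc : Fin r → Matrix (Fin N) (Fin N) ℂ) (E : (Fin r → ℤ) × (Fin r → ℤ) → Matrix (Fin N) (Fin N) ℂ)
  (c k : ℝ) (d : ℕ) (X : Fin d → Matrix (Fin N) (Fin N) ℂ), 1 ≤ r →
  IsClosed (H : Set (SU N)) → IsConnected (H : Set (SU N)) → LRD H Φ B Hc E → KC Φ Hc E c k → FrameH H c X →
  ∀ l, Reg l → (∀ z : Fin r → ℝ, ta Hc z = 1 → eu (dz (l - 1) z) = 1) → ∃ f : H → ℂ, HWFN Φ Hc E (l - 1) f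

def M_HEXI : Prop := S_CALH → S_LIEB → S_WFAC → S_PFFX → S_DREP → S_TAUF → S_TRES → S_TPOL → S_SURJ → S_HGTW → S_HEXI

/-- GXOC. As GXOF (GXOF.lean), for given `χ`. -/
def S_GXOC : Prop := ∀ (N : ℕ) (H : Subgroup (SU N)) (r : ℕ) (Φ : RT r) (B : Matrix (Fin r) (Fin r) ℤ)
  (Hc : Fin r → Matrix (Fin N) (Fin N) ℂ) (E : (Fin r → ℤ) × (Fin r → ℤ) → Matrix (Fin N) (Fin N) ℂ)
  (c k : ℝ) (d : ℕ) (X : Fin d → Matrix (Fin N) (Fin N) ℂ), 1 ≤ r →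
  IsClosed (H : Set (SU N)) → IsConnected (H : Set (SU N)) → LRD H Φ B Hc E → KC Φ Hc E c k → FrameH H c X →
  (∃ χ, CHI (H := H) Φ Hc c k d χ) ∧ ∀ χ, CHI (H := H) Φ Hc c k d χ →
    ∃ Z : Finset (Fin r → ℝ), GX H c d (rd Φ) (pos Φ) (fun i : IX Hc => i.1) χ Z k

def M_GXOC : Prop := S_WFAC → S_TAUF → S_ADFR → S_SURJ → S_ZFIN → S_CHIF → S_GXOC

/-- HLOC. `χ` with `CHI` and `Z` from GXOC; `f` is an eigenfunction with `κ = k (Q (ν + 1) - Q 1)` by HEIG; EIGW: `f = Pr S f` with `Q (wG i.1) = Q (ν + 1)` for `i ∈ S`. Let `i ∈ S` with `F = Pr {i} f ≠ 0` (exists, as `f ≠ 0`), and `σ` from `CHI` for `i`, `n` its dimension.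
`F x = ∫ χ i 1 χ i (x y⁻¹) f y = ∑ p q, D p q σ(x) p q`, `D p q = n ∫ conj (σ(y) p q) f y`. By `rt` for `f` (right invariance of the measure) `F (x t) = eu (dz ν θ) F x` for `t = ta θ`; the
entries of `σ` are linearly independent (SCHUR), so `σ(t) Dᵀ = eu (dz ν θ) Dᵀ`: the columns of `Dᵀ` have the weight `ν`, so `ν` is one of the weights `μ k` of TRES (`D ≠ 0`). By HGTW `wG i.1 - 1 - ν = ∑ n i • B i`, `n ≥ 0`, and by QCMP `wG i.1 = ν + 1`. So only one `i ∈ S` has `Pr {i} f ≠ 0`, and `f = Pr {i} f`. (There is an invariant probability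
measure on `H`: `haarMeasure ⊤`.) -/
def S_HLOC : Prop := ∀ (N : ℕ) (H : Subgroup (SU N)) (r : ℕ) (Φ : RT r) (B : Matrix (Fin r) (Fin r) ℤ)
  (Hc : Fin r → Matrix (Fin N) (Fin N) ℂ) (E : (Fin r → ℤ) × (Fin r → ℤ) → Matrix (Fin N) (Fin N) ℂ)
  (c k : ℝ) (d : ℕ) (X : Fin d → Matrix (Fin N) (Fin N) ℂ), 1 ≤ r →
  IsClosed (H : Set (SU N)) → IsConnected (H : Set (SU N)) → LRD H Φ B Hc E → KC Φ Hc E c k → FrameH H c X →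
  ∀ (ν : Fin r → ℤ) (f : H → ℂ), (∀ i, 0 ≤ ν i) → HWFN Φ Hc E ν f →
    ∃ (n : ℕ) (σ : Rep H (Fin n)) (D : Matrix (Fin n) (Fin n) ℂ), σ.Irr ∧ PRep σ ∧ HWR Φ Hc c k d σ (ν + 1) ∧
      ∀ g, f g = ∑ p, ∑ q, D p q * σ.ρ g p q

def M_HLOC : Prop := S_HAAR → S_SCHUR → S_KB → S_KERI → S_CALH → S_WFAC → S_RVOF → S_TAUF → S_ADFR → S_ZFIN → S_EIGW →
  S_PFFX → S_TRES → S_TPOL → S_GXOC → S_HGTW → S_QCMP → S_HEIG → S_HLOC

/-- HINT. `σ`, `D` from HLOC, `U`, `μ k` from TRES, HGTW: exactly one `μ k` is `ν`, `v` the column `k` of `U`: the vectors of weight `ν` are the multiples of `v`. By `rt` and the linear independence of the entries (SCHUR) `σ(t) Dᵀ = eu (dz ν θ) Dᵀ`, by `lt` `Dᵀ σ(t) = eu (dz ν θ) Dᵀ`; so `Dᵀ = c v vᴴ`, and `c = f 1 = 1`. SCHUR: `∫ |f|² = ∑ |D p q|² / n = 1/n`.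
`HWR.dim`. -/
def S_HINT : Prop := ∀ (N : ℕ) (H : Subgroup (SU N)) (r : ℕ) (Φ : RT r) (B : Matrix (Fin r) (Fin r) ℤ)
  (Hc : Fin r → Matrix (Fin N) (Fin N) ℂ) (E : (Fin r → ℤ) × (Fin r → ℤ) → Matrix (Fin N) (Fin N) ℂ)
  (c k : ℝ) (d : ℕ) (X : Fin d → Matrix (Fin N) (Fin N) ℂ), 1 ≤ r →
  IsClosed (H : Set (SU N)) → IsConnected (H : Set (SU N)) → LRD H Φ B Hc E → KC Φ Hc E c k → FrameH H c X →
  ∀ (μ : Measure H) [IsProbabilityMeasure μ] [μ.IsMulLeftInvariant] (ν : Fin r → ℤ) (f : H → ℂ),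
    (∀ i, 0 ≤ ν i) → HWFN Φ Hc E ν f →
    (∫ g, ‖f g‖ ^ 2 ∂μ) * ((∏ p ∈ pos Φ, (p.2 ⬝ᵥ (ν + 1)) : ℤ) : ℝ) = ((∏ p ∈ pos Φ, (p.2 ⬝ᵥ (1 : Fin r → ℤ)) : ℤ) : ℝ)

def M_HINT : Prop := S_HAAR → S_SCHUR → S_WFAC → S_TAUF → S_TRES → S_TPOL → S_HGTW → S_HLOC → S_HINT

/-- KFRE. There is an orthonormal basis for the negative of the Killing form. See KFRM (KFRM.lean): `K(A, B) = -tr (ad A ad B) = c S(A, B)`, `S(A, B) = -tr (A B)`, `c > 0`; take an `S`-orthonormal basis divided by `√c`. -/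
def S_KFRE : Prop := ∀ (N : ℕ) (H : Subgroup (SU N)), IsClosed (H : Set (SU N)) → SimpleH H →
  ∃ X : Fin (Module.finrank ℝ (Submodule.span ℝ (lie H))) → Matrix (Fin N) (Fin N) ℂ, KFrame H X

def M_KFRE : Prop := S_LIEB → S_KFRE

/-- the lower bound -/
def MainLow : Prop := ∀ (N : ℕ) (H : Subgroup (SU N)) (T : Submodule ℝ (Matrix (Fin N) (Fin N) ℂ)) (d r : ℕ),
  IsClosed (H : Set (SU N)) → IsConnected (H : Set (SU N)) → SimpleH H → MaxAb H T →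
  Module.finrank ℝ (Submodule.span ℝ (lie H)) = d → Module.finrank ℝ T = r →
  ∀ p : ℝ, 2 ≤ p → p < 2 + 8 / ((d : ℝ) + r) → ∀ μ : Measure H, IsProbabilityMeasure μ → μ.IsMulLeftInvariant →
  ∀ a b C : ℝ, a < b → ¬ StrIneqK H d μ p a b C

/-- LOWK. LRDX, KFRE (a frame `X`, `FrameH H c X` by KFRM), FORM (`k`); `r ≥ 1` as `lie H` is not abelian (if `T = 0` then every `X ∈ lie H` is in `T` by `max`). `ν = (2, …, 2) = ∑ p ∈ pos Φ, p.1` (RHOF), so `dz ν z ∈ ℤ` for `ta z = 1` (ZFIN); `f` from HEXI for `l = (3, …, 3)`. By HPOW, HEIG `f ^ m` is an eigenfunction with `κ m = k (Q (m ν + 1) - Q 1) = k (m² Q ν + m (ν·A1))`,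
`c₁ m² ≤ κ m ≤ c₂ m²` for `m ≥ 1`. By HINT `∫ |f|^(2m) = ∏ (p.2·1) / ∏ (m (p.2·ν) + p.2·1)`, so `c₃ m^(-n) ≤ ∫ |f|^(2m) ≤ c₄ m^(-n)`, `n = |pos Φ|`, and `∫ |f|^(pm) ≥ ∫ |f|^(2M)`, `M = ⌈pm/2⌉`, as `|f| ≤ 1`. Apply `StrIneqK` to the single eigenfunction `f ^ m` (`κ 0 = κ m`, `f 0 = f ^ m`, all other functions are `0` with the numbers `κ m + j`; `u t = exp(-i κ m t) f ^ m`):
`(b - a) c₅ m^(-n) ≤ C ((1 + κ m)^s c₄ m^(-n))^(p/2)`, `s = d/2 - (d+2)/p`, `≤ C' m^(s p - n p/2)`, and `s p - n p/2 = (d - n) p/2 - (d + 2) < -n` because `p < 2 + 4/(d - n)`, `d - n = n + r = (d + r)/2` (ADFR). Contradiction for large `m`. -/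
def M_LOWK : Prop := S_WFAC → S_RHOF → S_QUAD → S_LIEB → S_LRDX → S_KFRM → S_KFRE → S_FORM → S_ADFR → S_ZFIN → S_CALH →
  S_HEXI → S_HPOW → S_HEIG → S_HINT → MainLow

end

end LGR
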